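import Pool.Agent.Q61.QGrad

set_option autoImplicit false

open MeasureTheory Topology Filter Set
open scoped ContDiff

namespace Q61.AC

noncomputable def j (t : ℝ) : ℝ := 2 * Real.smoothTransition (50 * t + 1 / 2) - 1
noncomputable def q (t : ℝ) : ℝ := 1 / 100 + 99 / 100 * Real.smoothTransition (2000 * t ^ 2 - 4 / 5)

theorem S_symm (x : ℝ) : Real.smoothTransition (1 - x) = 1 - Real.smoothTransition x := by
  unfold Real.smoothTransition
  have h := Real.smoothTransition.pos_denom x
  rw [sub_sub_cancel, eq_sub_iff_add_eq, add_comm (expNegInvGlue (1 - x)) (expNegInvGlue x), ← add_div]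
  rw [div_eq_one_iff_eq h.ne']; ring

theorem j_smooth {k : ℕ∞} : ContDiff ℝ k j := by
  unfold j
  exact (contDiff_const.mul (Real.smoothTransition.contDiff.comp
    ((contDiff_const.mul contDiff_id).add contDiff_const))).sub contDiff_const

theorem q_smooth {k : ℕ∞} : ContDiff ℝ k q := by
  unfold q
  exact contDiff_const.add (contDiff_const.mul (Real.smoothTransition.contDiff.comp
    ((contDiff_const.mul (contDiff_id.pow 2)).sub contDiff_const)))

theorem j_cont : Continuous j := (j_smooth (k := 0)).continuous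
theorem q_cont : Continuous q := (q_smooth (k := 0)).continuous

theorem j_odd (t : ℝ) : j (-t) = -j t := by
  unfold j
  have : 50 * -t + 1 / 2 = 1 - (50 * t + 1 / 2) := by ring
  rw [this, S_symm]; ring

theorem q_even (t : ℝ) : q (-t) = q t := by unfold q; rw [neg_sq]

theorem j_mono : Monotone j := by
  intro a b h
  unfold j
  have := Real.smoothTransition.monotone (show 50 * a + 1 / 2 ≤ 50 * b + 1 / 2 by linarith)
  linarith

theorem j_zero : j 0 = 0 := by
  have := j_odd 0
  rw [neg_zero] at this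
  linarith

theorem j_nonneg {t : ℝ} (h : 0 ≤ t) : 0 ≤ j t := by rw [← j_zero]; exact j_mono h

theorem j_le (t : ℝ) : j t ≤ 1 := by
  unfold j; linarith [Real.smoothTransition.le_one (50 * t + 1 / 2)]

theorem j_one {t : ℝ} (h : 1 / 100 ≤ t) : j t = 1 := by
  unfold j
  rw [Real.smoothTransition.one_of_one_le (by linarith)]; norm_num

theorem q_low (t : ℝ) : 1 / 100 ≤ q t := by
  unfold q; linarith [Real.smoothTransition.nonneg (2000 * t ^ 2 - 4 / 5)]

theorem q_pos (t : ℝ) : 0 < q t := by linarith [q_low t]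

theorem q_le (t : ℝ) : q t ≤ 1 := by
  unfold q; linarith [Real.smoothTransition.le_one (2000 * t ^ 2 - 4 / 5)]

theorem q_plateau {t : ℝ} (h : |t| ≤ 1 / 50) : q t = 1 / 100 := by
  unfold q
  have h2 : t ^ 2 ≤ (1 / 50) ^ 2 := by rw [← sq_abs t]; exact pow_le_pow_left₀ (abs_nonneg _) h 2
  rw [Real.smoothTransition.zero_of_nonpos (by linarith)]; norm_num

theorem q_one {t : ℝ} (h : 3 / 100 ≤ |t|) : q t = 1 := by
  unfold q
  have h2 : (3 / 100) ^ 2 ≤ t ^ 2 := by rw [← sq_abs t]; exact pow_le_pow_left₀ (by norm_num) h 2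
  rw [Real.smoothTransition.one_of_one_le (by linarith)]; norm_num

theorem dj_nonneg (t : ℝ) : 0 ≤ deriv j t := j_mono.deriv_nonneg

theorem dj_zero {t : ℝ} (h : 1 / 100 < |t|) : deriv j t = 0 := by
  rcases lt_or_ge 0 t with h0 | h0
  · rw [abs_of_pos h0] at h
    have : j =ᶠ[𝓝 t] fun _ => 1 := by
      filter_upwards [Ioi_mem_nhds h] with y hy
      exact j_one (le_of_lt hy)
    rw [this.deriv_eq]; simp
  · rw [abs_of_nonpos h0] at h
    have : j =ᶠ[𝓝 t] fun _ => -1 := by
      filter_upwards [Iio_mem_nhds (show t < -(1 / 100) by linarith)] with y hy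
      have hy' : y < -(1 / 100) := hy
      have h8 : j (-y) = 1 := j_one (by linarith)
      have h9 := j_odd y
      linarith
    rw [this.deriv_eq]; simp

/-- primitive of a smooth function -/
theorem prim_smooth {f : ℝ → ℝ} (hf : ContDiff ℝ ∞ f) : ContDiff ℝ ∞ (fun t => ∫ s in (0:ℝ)..t, f s) ∧
    ∀ t, HasDerivAt (fun t => ∫ s in (0:ℝ)..t, f s) (f t) t := by
  have hd : ∀ t, HasDerivAt (fun t => ∫ s in (0:ℝ)..t, f s) (f t) t := fun t =>
    intervalIntegral.integral_hasDerivAt_right (hf.continuous.intervalIntegrable _ _)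
      (hf.continuous.stronglyMeasurableAtFilter _ _) hf.continuous.continuousAt
  refine ⟨?_, hd⟩
  rw [contDiff_infty_iff_deriv]
  refine ⟨fun t => (hd t).differentiableAt, ?_⟩
  have : deriv (fun t => ∫ s in (0:ℝ)..t, f s) = f := funext fun t => (hd t).deriv
  rw [this]; exact hf

noncomputable def I (t : ℝ) : ℝ := ∫ s in (0:ℝ)..t, j s * q s
noncomputable def P (t : ℝ) : ℝ := ∫ s in (0:ℝ)..t, j s

theorem jq_cont : Continuous (fun s => j s * q s) := j_cont.mul q_cont

theorem jq_smooth : ContDiff ℝ ∞ (fun s => j s * q s) := j_smooth.mul q_smooth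

theorem I_smooth : ContDiff ℝ ∞ I := (prim_smooth jq_smooth).1
theorem I_deriv (t : ℝ) : HasDerivAt I (j t * q t) t := (prim_smooth jq_smooth).2 t
theorem P_smooth : ContDiff ℝ ∞ P := (prim_smooth (j_smooth (k := ⊤))).1
theorem P_deriv (t : ℝ) : HasDerivAt P (j t) t := (prim_smooth (j_smooth (k := ⊤))).2 t

theorem even_prim {f : ℝ → ℝ} (hodd : ∀ t, f (-t) = -f t) (t : ℝ) :
    ∫ s in (0:ℝ)..(-t), f s = ∫ s in (0:ℝ)..t, f s := by
  have h1 : ∫ s in (0:ℝ)..t, f (-s) = ∫ s in (-t)..(-0), f s := intervalIntegral.integral_comp_neg f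
  simp only [hodd, neg_zero] at h1
  rw [intervalIntegral.integral_neg] at h1
  rw [intervalIntegral.integral_symm]
  linarith

theorem I_even (t : ℝ) : I (-t) = I t := even_prim (fun s => by rw [j_odd, q_even]; ring) t
theorem P_even (t : ℝ) : P (-t) = P t := even_prim j_odd t

theorem I_zero : I 0 = 0 := intervalIntegral.integral_same
theorem P_zero : P 0 = 0 := intervalIntegral.integral_same

theorem I_sub (a b : ℝ) : I b - I a = ∫ s in a..b, j s * q s := by
  unfold I
  rw [intervalIntegral.integral_interval_sub_left (jq_cont.intervalIntegrable _ _)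
    (jq_cont.intervalIntegrable _ _)]

theorem P_sub (a b : ℝ) : P b - P a = ∫ s in a..b, j s := by
  unfold P
  rw [intervalIntegral.integral_interval_sub_left (j_cont.intervalIntegrable _ _)
    (j_cont.intervalIntegrable _ _)]

theorem I_le {a b C : ℝ} (h : a ≤ b) (ha : 0 ≤ a) (hC : ∀ s ∈ Icc a b, q s ≤ C) : I b - I a ≤ C * (b - a) := by
  rw [I_sub]
  have h1 : ∫ s in a..b, j s * q s ≤ ∫ _s in a..b, C := by
    apply intervalIntegral.integral_mono_on h (jq_cont.intervalIntegrable _ _)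
      intervalIntegrable_const
    intro s hs
    have h2 := hC s hs
    have h3 := j_nonneg (ha.trans hs.1)
    have h4 := j_le s
    have h5 := q_pos s
    nlinarith
  rw [intervalIntegral.integral_const, smul_eq_mul] at h1
  linarith

theorem I_nonneg {a b : ℝ} (h : a ≤ b) (ha : 0 ≤ a) : 0 ≤ I b - I a := by
  rw [I_sub]
  apply intervalIntegral.integral_nonneg h
  intro s hs
  exact mul_nonneg (j_nonneg (ha.trans hs.1)) (q_pos s).le

theorem I_lin {a b : ℝ} (h : a ≤ b) (ha : 3 / 100 ≤ a) : I b - I a = b - a := by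
  rw [I_sub]
  have h1 : ∫ s in a..b, j s * q s = ∫ _s in a..b, (1:ℝ) := by
    apply intervalIntegral.integral_congr
    intro s hs
    rw [uIcc_of_le h] at hs
    show j s * q s = 1
    rw [j_one (by linarith [hs.1]), q_one (by rw [abs_of_nonneg (by linarith [hs.1])]; linarith [hs.1]), mul_one]
  rw [h1]; simp

theorem I_one_bounds : 97 / 100 ≤ I 1 ∧ I 1 ≤ 1 := by
  have h1 := I_lin (a := 3 / 100) (b := 1) (by norm_num) le_rfl
  have h2 := I_nonneg (a := 0) (b := 3 / 100) (by norm_num) le_rfl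
  have h3 := I_le (a := 0) (b := 1) (C := 1) (by norm_num) le_rfl (fun s _ => q_le s)
  rw [I_zero] at h2 h3
  constructor <;> linarith

theorem I_ge0 (t : ℝ) : 0 ≤ I t := by
  rcases le_total 0 t with h | h
  · have := I_nonneg h le_rfl
    rw [I_zero] at this; linarith
  · have := I_nonneg (show (0:ℝ) ≤ -t by linarith) le_rfl
    rw [I_zero, I_even] at this; linarith

theorem I_plateau {t : ℝ} (h : |t| ≤ 1 / 50) : I t ≤ 1 / 5000 := by
  have key : ∀ s : ℝ, 0 ≤ s → s ≤ 1 / 50 → I s ≤ 1 / 5000 := by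
    intro s h0 h1
    have := I_le (a := 0) (b := s) (C := 1 / 100) h0 le_rfl (fun r hr => by
      rw [q_plateau]; rw [abs_of_nonneg hr.1]; linarith [hr.2])
    rw [I_zero] at this; linarith
  rcases le_total 0 t with h0 | h0
  · rw [abs_of_nonneg h0] at h; exact key t h0 h
  · rw [abs_of_nonpos h0] at h; rw [← I_even t]; exact key (-t) (by linarith) h

theorem I_mid {t : ℝ} (h : |t| ≤ 3 / 100) : I t ≤ 51 / 5000 := by
  have key : ∀ s : ℝ, 0 ≤ s → s ≤ 3 / 100 → I s ≤ 51 / 5000 := by
    intro s h0 h1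
    rcases le_total s (1 / 50) with h2 | h2
    · have := I_plateau (t := s) (by rw [abs_of_nonneg h0]; exact h2)
      linarith
    · have h3 := I_plateau (t := 1 / 50) (by rw [abs_of_nonneg (by norm_num)])
      have h4 := I_le (a := 1 / 50) (b := s) (C := 1) h2 (by norm_num) (fun r _ => q_le r)
      linarith
  rcases le_total 0 t with h0 | h0
  · rw [abs_of_nonneg h0] at h; exact key t h0 h
  · rw [abs_of_nonpos h0] at h; rw [← I_even t]; exact key (-t) (by linarith) h

theorem I_lt {t : ℝ} (h : |t| < 1) : I t < I 1 := by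
  have key : ∀ s : ℝ, 0 ≤ s → s < 1 → I s < I 1 := by
    intro s h0 h1
    have h2 := I_nonneg (a := s) (b := max s (3 / 100)) (le_max_left _ _) h0
    have h3 := I_lin (a := max s (3 / 100)) (b := 1) (max_le h1.le (by norm_num)) (le_max_right _ _)
    have h4 : max s (3 / 100) < 1 := max_lt h1 (by norm_num)
    linarith
  rcases le_total 0 t with h0 | h0
  · rw [abs_of_nonneg h0] at h; exact key t h0 h
  · rw [abs_of_nonpos h0] at h; rw [← I_even t]; exact key (-t) (by linarith) h

theorem P_bounds {t : ℝ} (h : |t| < 1) : 0 < P 1 - P t ∧ P 1 - P t ≤ 1 := by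
  have hnn : ∀ a b : ℝ, 0 ≤ a → a ≤ b → 0 ≤ P b - P a := by
    intro a b ha hab
    rw [P_sub]
    exact intervalIntegral.integral_nonneg hab fun s hs => j_nonneg (ha.trans hs.1)
  have hle : ∀ a b : ℝ, a ≤ b → P b - P a ≤ b - a := by
    intro a b hab
    rw [P_sub]
    have h1 : ∫ s in a..b, j s ≤ ∫ _s in a..b, (1:ℝ) :=
      intervalIntegral.integral_mono_on hab (j_cont.intervalIntegrable _ _) intervalIntegrable_const
        (fun s _ => j_le s)
    simpa using h1
  have hlin : ∀ a b : ℝ, 1 / 100 ≤ a → a ≤ b → P b - P a = b - a := by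
    intro a b ha hab
    rw [P_sub]
    have h1 : ∫ s in a..b, j s = ∫ _s in a..b, (1:ℝ) := by
      apply intervalIntegral.integral_congr
      intro s hs
      rw [uIcc_of_le hab] at hs
      exact j_one (by linarith [hs.1])
    rw [h1]; simp
  have key : ∀ s : ℝ, 0 ≤ s → s < 1 → 0 < P 1 - P s ∧ P 1 - P s ≤ 1 := by
    intro s h0 h1
    have h2 := hnn s (max s (1 / 100)) h0 (le_max_left _ _)
    have h3 := hlin (max s (1 / 100)) 1 (le_max_right _ _) (max_le h1.le (by norm_num))
    have h4 : max s (1 / 100) < 1 := max_lt h1 (by norm_num)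
    have h5 := hle s 1 h1.le
    constructor <;> linarith
  rcases le_total 0 t with h0 | h0
  · rw [abs_of_nonneg h0] at h; exact key t h0 h
  · rw [abs_of_nonpos h0] at h; rw [← P_even t]; exact key (-t) (by linarith) h

/-- flux -/
noncomputable def J₁ : ℝ := (19 / 20) / I 1

theorem J₁_bounds : 0 < J₁ ∧ J₁ ≤ 98 / 100 := by
  obtain ⟨h1, h2⟩ := I_one_bounds
  have h3 : 0 < I 1 := by linarith
  unfold J₁
  refine ⟨by positivity, ?_⟩
  rw [div_le_iff₀ h3]; linarith

theorem J₁_mul : J₁ * I 1 = 19 / 20 := by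
  have h3 : I 1 ≠ 0 := by linarith [I_one_bounds.1]
  unfold J₁
  exact div_mul_cancel₀ _ h3

noncomputable def κ (t : ℝ) : ℝ := 1 / 20 + J₁ * I t

theorem κ_smooth : ContDiff ℝ ∞ κ := contDiff_const.add (contDiff_const.mul I_smooth)
theorem κ_deriv (t : ℝ) : HasDerivAt κ (J₁ * (j t * q t)) t := ((I_deriv t).const_mul J₁).const_add _
theorem κ_ge (t : ℝ) : 1 / 20 ≤ κ t := by
  unfold κ; have := mul_nonneg J₁_bounds.1.le (I_ge0 t); linarith
theorem κ_pos (t : ℝ) : 0 < κ t := by linarith [κ_ge t]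
theorem κ_one : κ 1 = 1 := by unfold κ; rw [J₁_mul]; norm_num
theorem κ_even (t : ℝ) : κ (-t) = κ t := by unfold κ; rw [I_even]

theorem κ_plateau {t : ℝ} (h : |t| ≤ 1 / 50) : κ t ≤ 502 / 10000 := by
  have h1 := I_plateau h
  have h2 := J₁_bounds
  have h3 := I_ge0 t
  unfold κ
  nlinarith

theorem κ_mid {t : ℝ} (h : |t| ≤ 3 / 100) : κ t ≤ 6 / 100 := by
  have h1 := I_mid h
  have h2 := J₁_bounds
  have h3 := I_ge0 t
  unfold κ
  nlinarith

theorem κ_lt {t : ℝ} (h : |t| < 1) : κ t < 1 := by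
  have h1 := I_lt h
  have h2 := J₁_bounds
  have h3 : J₁ * I t < J₁ * I 1 := mul_lt_mul_of_pos_left h1 h2.1
  rw [J₁_mul] at h3
  unfold κ; linarith

theorem κ_sq_lt {t : ℝ} (h : |t| < 1) : κ t ^ 2 < q t := by
  rcases le_total |t| (3 / 100) with h1 | h1
  · have h2 := κ_mid h1
    have h3 := κ_pos t
    have h4 := q_low t
    nlinarith
  · rw [q_one h1]
    have h2 := κ_lt h
    have h3 := κ_pos t
    nlinarith

end Q61.AC
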