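import Pool.Agent.Q61.AC1

set_option autoImplicit false

open MeasureTheory InnerProductSpace Laplacian Topology Filter Set
open scoped ContDiff

namespace Q61.AC

open Q61.Sob Q61.QGrad

/-- logarithm of the radius -/
noncomputable def T (x : En 2) : ℝ := 1 / 2 * Real.log (‖x‖ ^ 2)

/-- the annulus -/
def Ω : Set (En 2) := {x | Real.exp (-1) < ‖x‖ ∧ ‖x‖ < Real.exp 1}

noncomputable def ρ (x : En 2) : ℝ := (‖x‖ ^ 2 - Real.exp (-2)) * (Real.exp 2 - ‖x‖ ^ 2)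

theorem T_eq {x : En 2} (hx : x ≠ 0) : T x = Real.log ‖x‖ := by
  unfold T; rw [Real.log_pow]; push_cast; ring

theorem exp_T {x : En 2} (hx : x ≠ 0) : ‖x‖ = Real.exp (T x) := by
  rw [T_eq hx, Real.exp_log (norm_pos_iff.2 hx)]

theorem Ω_open : IsOpen Ω := (isOpen_lt continuous_const continuous_norm).inter
  (isOpen_lt continuous_norm continuous_const)

theorem Ω_bdd : Bornology.IsBounded Ω := by
  refine (Metric.isBounded_ball (x := (0 : En 2)) (r := Real.exp 1)).subset fun x hx => ?_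
  rw [mem_ball_zero_iff]; exact hx.2

theorem ne_of_closure {x : En 2} (hx : x ∈ closure Ω) : x ≠ 0 := by
  have h1 : closure Ω ⊆ {x : En 2 | Real.exp (-1) ≤ ‖x‖} :=
    closure_minimal (fun y hy => hy.1.le) (isClosed_le continuous_const continuous_norm)
  have h2 : Real.exp (-1) ≤ ‖x‖ := h1 hx
  intro h0
  rw [h0, norm_zero] at h2
  linarith [Real.exp_pos (-1)]

theorem T_mem {x : En 2} (hx : x ∈ Ω) : |T x| < 1 := by
  have h0 := ne_of_closure (subset_closure hx)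
  have h1 : 0 < ‖x‖ := norm_pos_iff.2 h0
  rw [T_eq h0, abs_lt]
  constructor
  · rw [Real.lt_log_iff_exp_lt h1]; exact hx.1
  · rw [Real.log_lt_iff_lt_exp h1]; exact hx.2

theorem T_mem_cl {x : En 2} (hx : x ∈ closure Ω) : |T x| ≤ 1 := by
  have h0 := ne_of_closure hx
  have h1 : closure Ω ⊆ {x : En 2 | Real.exp (-1) ≤ ‖x‖ ∧ ‖x‖ ≤ Real.exp 1} :=
    closure_minimal (fun y hy => ⟨hy.1.le, hy.2.le⟩)
      ((isClosed_le continuous_const continuous_norm).inter (isClosed_le continuous_norm continuous_const))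
  obtain ⟨h2, h3⟩ := h1 hx
  have h4 : 0 < ‖x‖ := norm_pos_iff.2 h0
  rw [T_eq h0, abs_le]
  constructor
  · rw [Real.le_log_iff_exp_le h4]; exact h2
  · rw [Real.log_le_iff_le_exp h4]; exact h3

theorem mem_Ω_iff (x : En 2) : x ∈ Ω ↔ 0 < ρ x := by
  have e1 : Real.exp (-2) = Real.exp (-1) ^ 2 := by rw [← Real.exp_nat_mul]; norm_num
  have e2 : Real.exp 2 = Real.exp 1 ^ 2 := by rw [← Real.exp_nat_mul]; norm_num
  have p1 := Real.exp_pos (-1)
  have p2 := Real.exp_pos 1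
  have hn := norm_nonneg x
  unfold ρ
  rw [e1, e2]
  constructor
  · rintro ⟨h1, h2⟩
    apply mul_pos
    · nlinarith
    · nlinarith
  · intro h
    rcases mul_pos_iff.1 h with ⟨h1, h2⟩ | ⟨h1, h2⟩
    · refine ⟨?_, ?_⟩
      · by_contra hc
        push Not at hc
        nlinarith
      · by_contra hc
        push Not at hc
        nlinarith
    · exfalso
      have h3 : Real.exp (-1) ≤ Real.exp 1 := Real.exp_le_exp.2 (by norm_num)
      nlinarith

theorem ρ_smooth {k : WithTop ℕ∞} : ContDiff ℝ k ρ := by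
  unfold ρ
  have h : ContDiff ℝ k (fun x : En 2 => ‖x‖ ^ 2) := contDiff_id.norm_sq ℝ
  exact (h.sub contDiff_const).mul (contDiff_const.sub h)

/-- distance to the boundary in the variable `T` -/
theorem T_ρ {x : En 2} (hx : x ∈ Ω) : 1 - T x ^ 2 ≤ Real.exp 4 / 4 * ρ x := by
  have h0 := ne_of_closure (subset_closure hx)
  have h1 := T_mem hx
  have h2 : ‖x‖ ^ 2 = Real.exp (2 * T x) := by
    rw [exp_T h0, ← Real.exp_nat_mul]; norm_num
  rw [abs_lt] at h1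
  unfold ρ
  rw [h2]
  have e1 : Real.exp (2 * T x) - Real.exp (-2) = Real.exp (-2) * (Real.exp (2 * T x + 2) - 1) := by
    rw [mul_sub, ← Real.exp_add]; ring_nf
  have e2 : Real.exp 2 - Real.exp (2 * T x) = Real.exp (2 * T x) * (Real.exp (2 - 2 * T x) - 1) := by
    rw [mul_sub, ← Real.exp_add]; ring_nf
  have f1 : 2 * T x + 2 ≤ Real.exp (2 * T x + 2) - 1 := by linarith [Real.add_one_le_exp (2 * T x + 2)]
  have f2 : 2 - 2 * T x ≤ Real.exp (2 - 2 * T x) - 1 := by linarith [Real.add_one_le_exp (2 - 2 * T x)]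
  have f3 : Real.exp (-2) ≤ Real.exp (2 * T x) := Real.exp_le_exp.2 (by linarith)
  have g1 : Real.exp (-2) * (2 * T x + 2) ≤ Real.exp (2 * T x) - Real.exp (-2) := by
    rw [e1]; exact mul_le_mul_of_nonneg_left f1 (Real.exp_pos _).le
  have g2 : Real.exp (-2) * (2 - 2 * T x) ≤ Real.exp 2 - Real.exp (2 * T x) := by
    rw [e2]
    exact mul_le_mul f3 f2 (by linarith) (Real.exp_pos _).le
  have g3 : (Real.exp (-2) * (2 * T x + 2)) * (Real.exp (-2) * (2 - 2 * T x)) ≤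
      (Real.exp (2 * T x) - Real.exp (-2)) * (Real.exp 2 - Real.exp (2 * T x)) := by
    apply mul_le_mul g1 g2
    · exact mul_nonneg (Real.exp_pos _).le (by linarith)
    · exact le_trans (mul_nonneg (Real.exp_pos _).le (by linarith)) g1
  have e3 : Real.exp (-2) * Real.exp (-2) * Real.exp 4 = 1 := by
    rw [← Real.exp_add, ← Real.exp_add]; norm_num
  calc 1 - T x ^ 2 = Real.exp 4 / 4 * ((Real.exp (-2) * (2 * T x + 2)) * (Real.exp (-2) * (2 - 2 * T x))) := by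
        linear_combination (-(1 - T x ^ 2)) * e3
    _ ≤ _ := mul_le_mul_of_nonneg_left g3 (by positivity)

theorem T_smooth {x : En 2} (hx : x ≠ 0) {k : WithTop ℕ∞} : ContDiffAt ℝ k T x := by
  unfold T
  have h1 : ContDiffAt ℝ k (fun x : En 2 => ‖x‖ ^ 2) x := (contDiff_id.norm_sq ℝ).contDiffAt
  have h2 : ‖x‖ ^ 2 ≠ 0 := by have := norm_pos_iff.2 hx; positivity
  exact contDiffAt_const.mul (h1.log h2)

theorem grad_T_sq {x : En 2} (hx : x ≠ 0) : ‖gradient T x‖ ^ 2 = (‖x‖ ^ 2)⁻¹ := by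
  have h2 : ‖x‖ ^ 2 ≠ 0 := by have := norm_pos_iff.2 hx; positivity
  have h1 : gradient (fun y : En 2 => (fun s : ℝ => 1 / 2 * Real.log s) (‖y‖ ^ 2)) x =
      deriv (fun s : ℝ => 1 / 2 * Real.log s) (‖x‖ ^ 2) • gradient (fun y : En 2 => ‖y‖ ^ 2) x :=
    gradient_comp (F := fun s : ℝ => 1 / 2 * Real.log s) (g := fun y : En 2 => ‖y‖ ^ 2)
      ((Real.differentiableAt_log h2).const_mul _)
      ((contDiff_id.norm_sq ℝ (n := 1)).differentiable (by norm_num) x)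
  have h3 : deriv (fun s : ℝ => 1 / 2 * Real.log s) (‖x‖ ^ 2) = 1 / 2 * (‖x‖ ^ 2)⁻¹ :=
    ((Real.hasDerivAt_log h2).const_mul (1 / 2)).deriv
  have h4 : gradient T x = (1 / 2 * (‖x‖ ^ 2)⁻¹) • gradient (fun y : En 2 => ‖y‖ ^ 2) x := by
    rw [← h3]; exact h1
  rw [h4, norm_smul, mul_pow, norm_gradient_sq, gsqN_normsq, Real.norm_eq_abs, sq_abs]
  field_simp
  norm_num

theorem lap_T {x : En 2} (hx : x ≠ 0) : (Δ T) x = 0 := by
  have h2 : ‖x‖ ^ 2 ≠ 0 := by have := norm_pos_iff.2 hx; positivity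
  have h1 := lapN_radial (n := 2) (g := fun s : ℝ => 1 / 2 * Real.log s) (x := x)
    (contDiffAt_const.mul (Real.contDiffAt_log.2 h2))
  have e : T = fun y : En 2 => (fun s : ℝ => 1 / 2 * Real.log s) (‖y‖ ^ 2) := rfl
  rw [e, h1, Lr]
  have hpos : 0 < ‖x‖ ^ 2 := by have := norm_pos_iff.2 hx; positivity
  have d1 : deriv (fun s : ℝ => 1 / 2 * Real.log s) = fun s => 1 / 2 * s⁻¹ := by
    funext s
    rw [deriv_const_mul_field, Real.deriv_log]
  have d2 : deriv (fun s : ℝ => 1 / 2 * s⁻¹) (‖x‖ ^ 2) = 1 / 2 * -((‖x‖ ^ 2) ^ 2)⁻¹ := by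
    have := (hasDerivAt_inv h2).const_mul (1 / 2 : ℝ)
    rw [this.deriv]
  rw [d1, d2]
  field_simp
  norm_num

theorem lap_FT {F : ℝ → ℝ} (hF : ContDiff ℝ ∞ F) {x : En 2} (hx : x ≠ 0) :
    (Δ (fun y => F (T y))) x = deriv (deriv F) (T x) * (‖x‖ ^ 2)⁻¹ := by
  rw [lapN_comp_real (hF.of_le two_le).contDiffAt (T_smooth hx), ← norm_gradient_sq, grad_T_sq hx, lap_T hx]
  ring

theorem grad_FT {F : ℝ → ℝ} (hF : ContDiff ℝ ∞ F) {x : En 2} (hx : x ≠ 0) :
    gradient (fun y => F (T y)) x = deriv F (T x) • gradient T x :=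
  gradient_comp (hF.differentiable (by norm_num) _) ((T_smooth hx (k := 1)).differentiableAt (by norm_num))

theorem norm_grad_FT {F : ℝ → ℝ} (hF : ContDiff ℝ ∞ F) {x : En 2} (hx : x ≠ 0) :
    ‖gradient (fun y => F (T y)) x‖ ^ 2 = deriv F (T x) ^ 2 * (‖x‖ ^ 2)⁻¹ := by
  rw [grad_FT hF hx, norm_smul, mul_pow, grad_T_sq hx, Real.norm_eq_abs, sq_abs]

theorem FT_smooth {F : ℝ → ℝ} (hF : ContDiff ℝ ∞ F) {x : En 2} (hx : x ≠ 0) :
    ContDiffAt ℝ ∞ (fun y => F (T y)) x := hF.contDiffAt.comp x (T_smooth hx)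

/-- a smooth function vanishing at `±1` -/
theorem lin_bound {F : ℝ → ℝ} (hF : ContDiff ℝ ∞ F) (h1 : F 1 = 0) (h2 : F (-1) = 0) :
    ∃ L : ℝ, 0 ≤ L ∧ ∀ t, |t| ≤ 1 → |F t| ≤ L * (1 - t ^ 2) := by
  have hd : Continuous (deriv F) := hF.continuous_deriv (by norm_num)
  obtain ⟨L, hL⟩ := (isCompact_Icc (a := (-1:ℝ)) (b := 1)).exists_bound_of_continuousOn hd.continuousOn
  have hL0 : 0 ≤ L := (norm_nonneg _).trans (hL 0 (by norm_num))
  refine ⟨L, hL0, fun t ht => ?_⟩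
  rw [abs_le] at ht
  have hconv : Convex ℝ (Icc (-1:ℝ) 1) := convex_Icc _ _
  have key : ∀ a b : ℝ, a ∈ Icc (-1:ℝ) 1 → b ∈ Icc (-1:ℝ) 1 → ‖F b - F a‖ ≤ L * ‖b - a‖ := fun a b ha hb =>
    hconv.norm_image_sub_le_of_norm_deriv_le (fun x _ => hF.differentiable (by norm_num) x) hL ha hb
  rcases le_total 0 t with h0 | h0
  · have := key 1 t (by norm_num) ⟨ht.1, ht.2⟩
    rw [h1, sub_zero, Real.norm_eq_abs, Real.norm_eq_abs, abs_sub_comm, abs_of_nonneg (by linarith : 0 ≤ 1 - t)] at this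
    refine this.trans (mul_le_mul_of_nonneg_left (by nlinarith) hL0)
  · have := key (-1) t (by norm_num) ⟨ht.1, ht.2⟩
    rw [h2, sub_zero, Real.norm_eq_abs, Real.norm_eq_abs, abs_of_nonneg (by linarith : 0 ≤ t - -1)] at this
    refine this.trans (mul_le_mul_of_nonneg_left (by nlinarith) hL0)

theorem FT_H10 {F : ℝ → ℝ} (hF : ContDiff ℝ ∞ F) (h1 : F 1 = 0) (h2 : F (-1) = 0) :
    IsH10 Ω (fun y => F (T y)) (gradient (fun y => F (T y))) := by
  obtain ⟨L, hL0, hL⟩ := lin_bound hF h1 h2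
  apply isH10_of_vanish Ω_open Ω_bdd ρ_smooth mem_Ω_iff (fun x hx => FT_smooth hF (ne_of_closure hx))
    (C := L * (Real.exp 4 / 4))
  intro x hx
  refine (hL _ (T_mem hx).le).trans ?_
  rw [mul_assoc]
  exact mul_le_mul_of_nonneg_left (T_ρ hx) hL0

end Q61.AC
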