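import Pool.Agent.Q61.AC2

set_option autoImplicit false

open MeasureTheory InnerProductSpace Laplacian Topology Filter Set
open scoped ContDiff

namespace Q61.QGrad

open Q61.Sob

variable {n : ℕ} {Ω : Set (En n)}

/-- classical solutions are weak solutions -/
theorem isSolution_of_pointwise (ho : IsOpen Ω) (hb : Bornology.IsBounded Ω) {lam : ℝ} {c μ h u : En n → ℝ}
    (hu : ∀ x ∈ closure Ω, ContDiffAt ℝ ∞ u x) (hH : IsH10 Ω u (gradient u))
    (hc : ∀ x ∈ closure Ω, ContinuousAt c x) (hμ : ∀ x ∈ closure Ω, ContinuousAt μ x)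
    (hh : ∀ x ∈ closure Ω, ContinuousAt h x)
    (heq : ∀ x ∈ Ω, -(Δ u) x = lam * (c x * u x) + μ x * ‖gradient u x‖ ^ 2 + h x) :
    IsSolution Ω lam c μ h u (gradient u) := by
  have hfin := finite_restrict hb
  have huc : ∀ x ∈ closure Ω, ContinuousAt u x := fun x hx => (hu x hx).continuousAt
  have hgc : ∀ x ∈ closure Ω, ContinuousAt (gradient u) x := fun x hx =>
    Sob.gradient_contAt ((hu x hx).of_le (by exact_mod_cast le_top))
  refine ⟨hH, ?_, ?_⟩
  · obtain ⟨C, -, hC⟩ := bdd_of_contAt hb huc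
    refine ⟨C, ?_⟩
    rw [ae_restrict_iff' ho.measurableSet]
    exact ae_of_all _ hC
  · intro v V hv _
    have hg := green_H10 ho hb hv (f := u) (fun x hx => (hu x hx).of_le two_le)
    have iv : Integrable v (volume.restrict Ω) := hv.1.integrable (by norm_num)
    have int1 : ∀ F : En n → ℝ, (∀ x ∈ closure Ω, ContinuousAt F x) →
        Integrable (fun x => F x * v x) (volume.restrict Ω) := by
      intro F hF
      obtain ⟨C, -, hC⟩ := bdd_of_contAt hb hF
      refine Integrable.mono' (iv.norm.const_mul C)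
        ((aesm_of_contAt ho fun x hx => hF x (subset_closure hx)).mul iv.1) ?_
      rw [ae_restrict_iff' ho.measurableSet]
      refine ae_of_all _ fun x hx => ?_
      rw [norm_mul]
      exact mul_le_mul_of_nonneg_right (hC x hx) (norm_nonneg _)
    have i1 := int1 (fun x => c x * u x) (fun x hx => (hc x hx).mul (huc x hx))
    have i2 := int1 (fun x => μ x * ‖gradient u x‖ ^ 2) (fun x hx => (hμ x hx).mul ((hgc x hx).norm.pow 2))
    have i3 := int1 h hh
    have i1' : Integrable (fun x => lam * (c x * u x * v x)) (volume.restrict Ω) := i1.const_mul lam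
    have i12 : Integrable (fun x => lam * (c x * u x * v x) + μ x * ‖gradient u x‖ ^ 2 * v x) (volume.restrict Ω) :=
      i1'.add i2
    rw [hg, ← integral_const_mul, ← integral_add i1' i2, ← integral_add i12 i3, ← integral_neg]
    apply setIntegral_congr_fun ho.measurableSet
    intro x hx
    show -((Δ u) x * v x) = lam * (c x * u x * v x) + μ x * ‖gradient u x‖ ^ 2 * v x + h x * v x
    have := heq x hx
    linear_combination v x * this

/-- the first eigenvalue `γ₁` of `-Δφ = γ c φ`, `φ ∈ H¹₀(Ω)`, as the infimum of the Rayleigh quotient -/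
noncomputable def gamma1 (Ω : Set (En n)) (c : En n → ℝ) : ℝ :=
  sInf {R : ℝ | ∃ (w : En n → ℝ) (W : En n → En n), IsH10 Ω w W ∧ 0 < ∫ x in Ω, c x * w x ^ 2 ∧
    R = (∫ x in Ω, ‖W x‖ ^ 2) / ∫ x in Ω, c x * w x ^ 2}

theorem rayleigh_bound (ho : IsOpen Ω) (hb : Bornology.IsBounded Ω) {c Φ : En n → ℝ} {γ : ℝ}
    (hc : ∀ x ∈ closure Ω, ContinuousAt c x)
    (hΦ : ∀ x ∈ Ω, ContDiffAt ℝ ∞ Φ x) (hpos : ∀ x ∈ Ω, 0 < Φ x)
    (hle : ∀ x ∈ Ω, γ * c x * Φ x ≤ -(Δ Φ) x) {w : En n → ℝ} {W : En n → En n} (hw : IsH10 Ω w W) :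
    γ * ∫ x in Ω, c x * w x ^ 2 ≤ ∫ x in Ω, ‖W x‖ ^ 2 := by
  have hfin := finite_restrict hb
  obtain ⟨m1, m2, φ, hφ, l1, l2⟩ := hw
  obtain ⟨C, hC0, hC⟩ := bdd_of_contAt hb hc
  have hca := aesm_of_contAt ho fun x hx => hc x (subset_closure hx)
  have mc : ∀ {f : En n → ℝ}, MemLp f 2 (volume.restrict Ω) → MemLp (fun x => c x * f x) 2 (volume.restrict Ω) := by
    intro f hf
    apply MemLp.of_le_mul (c := C) hf (hca.mul hf.1)
    rw [ae_restrict_iff' ho.measurableSet]
    refine ae_of_all _ fun x hx => ?_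
    show ‖c x * f x‖ ≤ _
    rw [norm_mul]
    exact mul_le_mul_of_nonneg_right (hC x hx) (norm_nonneg _)
  have lc : Tendsto (fun k => eLpNorm (fun x => c x * φ k x - c x * w x) 2 (volume.restrict Ω)) atTop (𝓝 0) := by
    have hB : Tendsto (fun k => ENNReal.ofReal C * eLpNorm (fun x => φ k x - w x) 2
        (volume.restrict Ω)) atTop (𝓝 0) := by
      have := ENNReal.Tendsto.const_mul (a := ENNReal.ofReal C) l1 (Or.inr ENNReal.ofReal_ne_top)
      rwa [mul_zero] at this
    refine tendsto_of_tendsto_of_tendsto_of_le_of_le tendsto_const_nhds hB (fun _ => zero_le) fun k => ?_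
    apply eLpNorm_le_mul_eLpNorm_of_ae_le_mul
    rw [ae_restrict_iff' ho.measurableSet]
    refine ae_of_all _ fun x hx => ?_
    rw [← mul_sub, norm_mul]
    exact mul_le_mul_of_nonneg_right (hC x hx) (norm_nonneg _)
  have t1 := (tendsto_pair2 (mc m1) m1 (fun k => mc ((hφ k).memLp 2)) (fun k => (hφ k).memLp 2) lc l1).const_mul γ
  have t2 := tendsto_pair2 m2 m2 (fun k => (hφ k).grad_memLp 2) (fun k => (hφ k).grad_memLp 2) l2 l2
  have e1 : ∫ x in Ω, inner ℝ (c x * w x) (w x) = ∫ x in Ω, c x * w x ^ 2 := by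
    congr 1; funext x; simp [sq]; ring
  have e2 : ∫ x in Ω, inner ℝ (W x) (W x) = ∫ x in Ω, ‖W x‖ ^ 2 := by
    congr 1; funext x; exact real_inner_self_eq_norm_sq _
  rw [e1] at t1
  rw [e2] at t2
  refine le_of_tendsto_of_tendsto' t1 t2 fun k => ?_
  have e3 : ∫ x in Ω, inner ℝ (c x * φ k x) (φ k x) = ∫ x in Ω, c x * φ k x ^ 2 := by
    congr 1; funext x; simp [sq]; ring
  have e4 : ∫ x in Ω, inner ℝ (gradient (φ k) x) (gradient (φ k) x) = ∫ x in Ω, ‖gradient (φ k) x‖ ^ 2 := by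
    congr 1; funext x; exact real_inner_self_eq_norm_sq _
  rw [e3, e4]
  have hint : IntegrableOn (fun x => c x * φ k x ^ 2) Ω := by
    have := pairR_integrable (mc ((hφ k).memLp 2)) ((hφ k).memLp 2)
    refine this.congr (ae_of_all _ fun x => ?_)
    ring
  exact barta_test hΦ hpos hle (hφ k) hint ho

end Q61.QGrad

namespace Q61.AC

open Q61.Sob Q61.QGrad

noncomputable def F0 (t : ℝ) : ℝ := -(1 / 2 * Real.log (q t))
noncomputable def F1 (t : ℝ) : ℝ := Real.log (κ t) + F0 t
noncomputable def cT (t : ℝ) : ℝ := -(J₁ * deriv j t * q t / (κ t * F1 t))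

theorem F0_smooth : ContDiff ℝ ∞ F0 := by
  unfold F0
  exact (contDiff_const.mul ((q_smooth (k := ⊤)).log fun t => (q_pos t).ne')).neg

theorem F1_smooth : ContDiff ℝ ∞ F1 := by
  unfold F1
  exact (κ_smooth.log fun t => (κ_pos t).ne').add F0_smooth

theorem F0_deriv (t : ℝ) : HasDerivAt F0 (-(deriv q t / (2 * q t))) t := by
  have h1 : HasDerivAt q (deriv q t) t := ((q_smooth (k := ⊤)).differentiable (by norm_num) t).hasDerivAt
  have h2 := ((h1.log (q_pos t).ne').const_mul (1 / 2)).neg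
  refine h2.congr_deriv ?_
  have := (q_pos t).ne'
  field_simp

theorem F1_deriv (t : ℝ) : HasDerivAt F1 (J₁ * (j t * q t) / κ t + -(deriv q t / (2 * q t))) t :=
  ((κ_deriv t).log (κ_pos t).ne').add (F0_deriv t)

theorem dF0 : deriv F0 = fun t => -(deriv q t / (2 * q t)) := funext fun t => (F0_deriv t).deriv
theorem dF1 : deriv F1 = fun t => J₁ * (j t * q t) / κ t + -(deriv q t / (2 * q t)) :=
  funext fun t => (F1_deriv t).deriv

/-- the identity in one variable -/
theorem ode (t : ℝ) : -deriv (deriv F1) t - deriv F1 t ^ 2 + deriv (deriv F0) t + deriv F0 t ^ 2 =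
    -(J₁ * deriv j t * q t / κ t) := by
  have hj : HasDerivAt j (deriv j t) t := ((j_smooth (k := ⊤)).differentiable (by norm_num) t).hasDerivAt
  have hq : HasDerivAt q (deriv q t) t := ((q_smooth (k := ⊤)).differentiable (by norm_num) t).hasDerivAt
  have h1 : HasDerivAt (fun t => J₁ * (j t * q t) / κ t)
      ((J₁ * (deriv j t * q t + j t * deriv q t) * κ t - J₁ * (j t * q t) * (J₁ * (j t * q t))) / κ t ^ 2) t :=
    ((hj.mul hq).const_mul J₁).div (κ_deriv t) (κ_pos t).ne'
  have h0 : HasDerivAt (deriv F0) (deriv (deriv F0) t) t :=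
    ((contDiff_deriv F0_smooth).differentiable (by norm_num) t).hasDerivAt
  have h2 : HasDerivAt (deriv F1) ((J₁ * (deriv j t * q t + j t * deriv q t) * κ t -
      J₁ * (j t * q t) * (J₁ * (j t * q t))) / κ t ^ 2 + deriv (deriv F0) t) t := by
    have key : deriv F1 = (fun t => J₁ * (j t * q t) / κ t) + deriv F0 := by rw [dF1, dF0]; rfl
    rw [key]
    exact h1.add h0
  rw [h2.deriv]
  have e1 : deriv F1 t = J₁ * (j t * q t) / κ t + deriv F0 t := by rw [dF1, dF0]
  have e0 : deriv F0 t = -(deriv q t / (2 * q t)) := by rw [dF0]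
  rw [e1, e0]
  have hκ := (κ_pos t).ne'
  have hq' := (q_pos t).ne'
  field_simp
  ring

theorem F1_neg {t : ℝ} (h : |t| < 1) : F1 t < 0 := by
  have h1 := κ_sq_lt h
  have h2 := κ_pos t
  have h3 := q_pos t
  have h4 : Real.log (κ t ^ 2) < Real.log (q t) := Real.log_lt_log (by positivity) h1
  rw [Real.log_pow] at h4
  push_cast at h4
  unfold F1 F0
  linarith

theorem F1_plateau {t : ℝ} (h : |t| ≤ 1 / 50) : F1 t ≤ -(498 / 1000) := by
  have h1 := κ_plateau h
  have h2 := κ_pos t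
  have h3 := q_plateau h
  have h4 : F1 t = Real.log (10 * κ t) := by
    unfold F1 F0
    rw [h3, Real.log_mul (by norm_num) h2.ne']
    have : Real.log (1 / 100) = -(2 * Real.log 10) := by
      rw [show (1:ℝ) / 100 = (10 ^ 2)⁻¹ by norm_num, Real.log_inv, Real.log_pow]; push_cast; ring
    rw [this]; ring
  rw [h4]
  have h5 := Real.log_le_sub_one_of_pos (show 0 < 10 * κ t by positivity)
  linarith

theorem F_ends : F0 1 = 0 ∧ F0 (-1) = 0 ∧ F1 1 = 0 ∧ F1 (-1) = 0 := by
  have a1 : q 1 = 1 := q_one (by rw [abs_of_pos one_pos]; norm_num)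
  have a2 : q (-1) = 1 := by rw [q_even]; exact a1
  have a3 := κ_one
  have a4 : κ (-1) = 1 := by rw [κ_even]; exact a3
  unfold F1 F0
  rw [a1, a2, a3, a4]
  simp

theorem cT_nonneg {t : ℝ} (h : |t| ≤ 1) : 0 ≤ cT t := by
  unfold cT
  by_cases h1 : 1 / 100 < |t|
  · rw [dj_zero h1]; simp
  · push Not at h1
    have h2 := F1_neg (t := t) (by linarith)
    have h3 := κ_pos t
    have h4 := q_pos t
    have h5 := dj_nonneg t
    have h6 := J₁_bounds.1
    rw [neg_nonneg]
    apply div_nonpos_of_nonneg_of_nonpos (by positivity)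
    exact mul_nonpos_of_nonneg_of_nonpos h3.le h2.le

theorem cT_mul {t : ℝ} (h : |t| < 1) : cT t * F1 t = -(J₁ * deriv j t * q t / κ t) := by
  unfold cT
  have h2 := (F1_neg h).ne
  have h3 := (κ_pos t).ne'
  field_simp

theorem cT_cont {t : ℝ} (h : |t| ≤ 1) : ContinuousAt cT t := by
  by_cases h1 : 1 / 100 < |t|
  · have : cT =ᶠ[𝓝 t] fun _ => 0 := by
      have h2 : ∀ᶠ y in 𝓝 t, 1 / 100 < |y| := continuous_abs.continuousAt.eventually (lt_mem_nhds h1)
      filter_upwards [h2] with y hy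
      unfold cT
      rw [dj_zero hy]; simp
    exact continuousAt_const.congr this.symm
  · push Not at h1
    have h2 := (F1_neg (t := t) (by linarith)).ne
    have h3 := (κ_pos t).ne'
    have hdj : Continuous (deriv j) := (j_smooth (k := ⊤)).continuous_deriv (by norm_num)
    unfold cT
    apply ContinuousAt.neg
    apply ContinuousAt.div
    · exact ((continuous_const.mul hdj).mul q_cont).continuousAt
    · exact (κ_smooth.continuous.mul F1_smooth.continuous).continuousAt
    · exact mul_ne_zero h3 h2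

/-- the supersolution for the eigenvalue bound -/
noncomputable def FΦ (t : ℝ) : ℝ := P 1 - P t

theorem FΦ_smooth : ContDiff ℝ ∞ FΦ := contDiff_const.sub P_smooth

theorem FΦ_deriv2 : deriv (deriv FΦ) = fun t => -deriv j t := by
  have h1 : deriv FΦ = fun t => -j t := funext fun t => ((P_deriv t).const_sub (P 1)).deriv
  rw [h1]
  funext t
  exact deriv.fun_neg

theorem super {t : ℝ} (h : |t| < 1) : 2 * cT t * FΦ t ≤ -deriv (deriv FΦ) t := by
  rw [FΦ_deriv2]
  show 2 * cT t * FΦ t ≤ - -deriv j t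
  rw [neg_neg]
  have h5 := dj_nonneg t
  by_cases h1 : 1 / 100 < |t|
  · unfold cT
    rw [dj_zero h1]; simp
  · push Not at h1
    have hp : |t| ≤ 1 / 50 := by linarith
    have h2 := F1_plateau hp
    have h3 := κ_ge t
    have h4 := q_plateau hp
    obtain ⟨h6, h7⟩ := J₁_bounds
    obtain ⟨h8, h9⟩ := P_bounds h
    unfold cT FΦ
    rw [h4]
    have hden : 0 < κ t * -F1 t := mul_pos (κ_pos t) (by linarith)
    have e : 2 * -(J₁ * deriv j t * (1 / 100) / (κ t * F1 t)) * (P 1 - P t) =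
        (2 * J₁ * (1 / 100) * (P 1 - P t)) * deriv j t / (κ t * -F1 t) := by
      have h10 : κ t ≠ 0 := (κ_pos t).ne'
      have h11 : F1 t ≠ 0 := by linarith
      field_simp
    rw [e, div_le_iff₀ hden, mul_comm (deriv j t)]
    apply mul_le_mul_of_nonneg_right _ h5
    have h12 : (1 / 20) * (498 / 1000) ≤ κ t * -F1 t :=
      mul_le_mul h3 (by linarith) (by norm_num) (κ_pos t).le
    have h13 : J₁ * (P 1 - P t) ≤ 98 / 100 * 1 := mul_le_mul h7 h9 h8.le (by norm_num)
    linarith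

/-- data -/
noncomputable def c (x : En 2) : ℝ := cT (T x) * (‖x‖ ^ 2)⁻¹
noncomputable def u0 (x : En 2) : ℝ := F0 (T x)
noncomputable def u1 (x : En 2) : ℝ := F1 (T x)
noncomputable def h (x : En 2) : ℝ := -(Δ u0) x - ‖gradient u0 x‖ ^ 2

theorem c_cont {x : En 2} (hx : x ∈ closure Ω) : ContinuousAt c x := by
  have h0 := ne_of_closure hx
  have h2 : ‖x‖ ^ 2 ≠ 0 := by have := norm_pos_iff.2 h0; positivity
  unfold c
  exact (ContinuousAt.comp (cT_cont (T_mem_cl hx)) (T_smooth h0 (k := 0)).continuousAt).mul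
    ((continuous_norm.pow 2).continuousAt.inv₀ h2)

theorem h_cont {x : En 2} (hx : x ∈ closure Ω) : ContinuousAt h x := by
  have h0 := ne_of_closure hx
  have hs : ContDiffAt ℝ ∞ u0 x := FT_smooth F0_smooth h0
  unfold h
  exact (lap_contAt (hs.of_le two_le)).neg.sub
    ((Sob.gradient_contAt (hs.of_le (by exact_mod_cast le_top))).norm.pow 2)

theorem sol_u0 : IsSolution Ω 0 c (fun _ => 1) h u0 (gradient u0) := by
  apply isSolution_of_pointwise Ω_open Ω_bdd (fun x hx => FT_smooth F0_smooth (ne_of_closure hx))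
    (FT_H10 F0_smooth F_ends.1 F_ends.2.1) (fun x hx => c_cont hx) (fun _ _ => continuousAt_const)
    (fun x hx => h_cont hx)
  intro x _
  show -(Δ u0) x = 0 * (c x * u0 x) + 1 * ‖gradient u0 x‖ ^ 2 + (-(Δ u0) x - ‖gradient u0 x‖ ^ 2)
  ring

theorem sol_u1 : IsSolution Ω 1 c (fun _ => 1) h u1 (gradient u1) := by
  apply isSolution_of_pointwise Ω_open Ω_bdd (fun x hx => FT_smooth F1_smooth (ne_of_closure hx))
    (FT_H10 F1_smooth F_ends.2.2.1 F_ends.2.2.2) (fun x hx => c_cont hx) (fun _ _ => continuousAt_const)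
    (fun x hx => h_cont hx)
  intro x hx
  have h0 := ne_of_closure (subset_closure hx)
  have e1 : (Δ u1) x = deriv (deriv F1) (T x) * (‖x‖ ^ 2)⁻¹ := lap_FT F1_smooth h0
  have e2 : (Δ u0) x = deriv (deriv F0) (T x) * (‖x‖ ^ 2)⁻¹ := lap_FT F0_smooth h0
  have e3 : ‖gradient u1 x‖ ^ 2 = deriv F1 (T x) ^ 2 * (‖x‖ ^ 2)⁻¹ := norm_grad_FT F1_smooth h0
  have e4 : ‖gradient u0 x‖ ^ 2 = deriv F0 (T x) ^ 2 * (‖x‖ ^ 2)⁻¹ := norm_grad_FT F0_smooth h0
  have e5 := ode (T x)
  have e6 := cT_mul (T_mem hx)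
  show -(Δ u1) x = 1 * (c x * u1 x) + 1 * ‖gradient u1 x‖ ^ 2 + (-(Δ u0) x - ‖gradient u0 x‖ ^ 2)
  rw [e1, e2, e3, e4]
  show _ = 1 * (cT (T x) * (‖x‖ ^ 2)⁻¹ * F1 (T x)) + _ + _
  have e7 : cT (T x) * (‖x‖ ^ 2)⁻¹ * F1 (T x) = (cT (T x) * F1 (T x)) * (‖x‖ ^ 2)⁻¹ := by ring
  rw [e7, e6]
  linear_combination (‖x‖ ^ 2)⁻¹ * e5

theorem c_nonneg {x : En 2} (hx : x ∈ closure Ω) : 0 ≤ c x :=
  mul_nonneg (cT_nonneg (T_mem_cl hx)) (by positivity)

theorem u0_nonneg (x : En 2) : 0 ≤ u0 x := by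
  unfold u0 F0
  have := Real.log_nonpos (q_pos (T x)).le (q_le (T x))
  linarith

theorem u1_neg {x : En 2} (hx : x ∈ Ω) : u1 x < 0 := F1_neg (T_mem hx)

/-- a point where `c u₀ > 0` -/
theorem exists_pt : ∃ x ∈ Ω, 0 < c x * u0 x := by
  -- a point where the derivative of `j` does not vanish
  obtain ⟨t, ht⟩ : ∃ t, deriv j t ≠ 0 := by
    by_contra hcon
    push Not at hcon
    have hd : Differentiable ℝ j := (j_smooth (k := ⊤)).differentiable (by norm_num)
    have := is_const_of_deriv_eq_zero hd hcon 0 1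
    rw [j_zero, j_one (by norm_num)] at this
    norm_num at this
  have ht1 : |t| ≤ 1 / 100 := by
    by_contra hcon
    exact ht (dj_zero (not_le.1 hcon))
  have ht2 : 0 < deriv j t := lt_of_le_of_ne (dj_nonneg t) (Ne.symm ht)
  rw [abs_le] at ht1
  set x : En 2 := EuclideanSpace.single 0 (Real.exp t) with hx
  have hnorm : ‖x‖ = Real.exp t := by
    rw [hx, PiLp.norm_single, Real.norm_of_nonneg (Real.exp_pos t).le]
  have hxΩ : x ∈ Ω := by
    show Real.exp (-1) < ‖x‖ ∧ ‖x‖ < Real.exp 1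
    rw [hnorm]
    exact ⟨Real.exp_lt_exp.2 (by linarith), Real.exp_lt_exp.2 (by linarith)⟩
  have hx0 := ne_of_closure (subset_closure hxΩ)
  have hT : T x = t := by rw [T_eq hx0, hnorm, Real.log_exp]
  refine ⟨x, hxΩ, ?_⟩
  unfold c u0
  rw [hT]
  have hp : |t| ≤ 1 / 50 := by rw [abs_le]; constructor <;> linarith
  have h1 : 0 < cT t := by
    unfold cT
    have a := F1_plateau hp
    have b := κ_pos t
    have d := q_pos t
    have e := J₁_bounds.1
    rw [neg_pos]
    apply div_neg_of_pos_of_neg (by positivity)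
    exact mul_neg_of_pos_of_neg b (by linarith)
  have h2 : 0 < F0 t := by
    unfold F0
    rw [q_plateau hp]
    have := Real.log_neg (show (0:ℝ) < 1 / 100 by norm_num) (by norm_num)
    linarith
  have h3 : 0 < ‖x‖ := norm_pos_iff.2 hx0
  positivity

theorem not_ae_zero : ¬ ∀ᵐ x ∂(volume.restrict Ω), c x * u0 x = 0 := by
  intro hae
  obtain ⟨x, hx, hpos⟩ := exists_pt
  have hcont : ContinuousOn (fun x => c x * u0 x) Ω := fun y hy =>
    ((c_cont (subset_closure hy)).mul (FT_smooth F0_smooth (ne_of_closure (subset_closure hy))).continuousAt).continuousWithinAt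
  have := Measure.eqOn_open_of_ae_eq (μ := volume) (f := fun x => c x * u0 x) (g := fun _ => 0) hae Ω_open hcont
    continuousOn_const
  have h2 : c x * u0 x = 0 := this hx
  linarith

theorem gamma_ge : 2 ≤ gamma1 Ω c := by
  have hc : ∀ x ∈ closure Ω, ContinuousAt c x := fun x hx => c_cont hx
  apply le_csInf
  · -- the set is not empty
    refine ⟨_, u0, gradient u0, FT_H10 F0_smooth F_ends.1 F_ends.2.1, ?_, rfl⟩
    have hnn : 0 ≤ᵐ[volume.restrict Ω] fun x => c x * u0 x ^ 2 := by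
      rw [EventuallyLE, ae_restrict_iff' Ω_open.measurableSet]
      refine ae_of_all _ fun x hx => ?_
      exact mul_nonneg (c_nonneg (subset_closure hx)) (sq_nonneg _)
    have hi : Integrable (fun x => c x * u0 x ^ 2) (volume.restrict Ω) := by
      have hcc : ∀ x ∈ closure Ω, ContinuousAt (fun x => c x * u0 x ^ 2) x := fun x hx =>
        (c_cont hx).mul ((FT_smooth F0_smooth (ne_of_closure hx)).continuousAt.pow 2)
      have hfin := finite_restrict Ω_bdd
      exact (memLp_of_contAt Ω_open Ω_bdd hcc 2).integrable (by norm_num)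
    rw [lt_iff_le_and_ne]
    refine ⟨integral_nonneg_of_ae hnn, fun heq => ?_⟩
    have hz := (integral_eq_zero_iff_of_nonneg_ae hnn hi).1 heq.symm
    apply not_ae_zero
    filter_upwards [hz] with x hx
    have hx' : c x * u0 x ^ 2 = 0 := hx
    rcases mul_eq_zero.1 hx' with h1 | h1
    · rw [h1, zero_mul]
    · rw [pow_eq_zero_iff (by norm_num)] at h1
      rw [h1, mul_zero]
  · rintro R ⟨w, W, hw, hpos, rfl⟩
    rw [le_div_iff₀ hpos]
    apply rayleigh_bound Ω_open Ω_bdd hc (Φ := fun y => FΦ (T y))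
      (fun x hx => FT_smooth FΦ_smooth (ne_of_closure (subset_closure hx)))
      (fun x hx => (P_bounds (T_mem hx)).1) _ hw
    intro x hx
    have h0 := ne_of_closure (subset_closure hx)
    rw [lap_FT FΦ_smooth h0]
    have h1 := super (T_mem hx)
    have h2 : 0 ≤ (‖x‖ ^ 2)⁻¹ := by positivity
    show 2 * (cT (T x) * (‖x‖ ^ 2)⁻¹) * FΦ (T x) ≤ _
    have h3 := mul_le_mul_of_nonneg_right h1 h2
    linarith

end Q61.AC
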