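import Pool.Agent.Q61.MP8d

set_option autoImplicit false

open MeasureTheory Q61.MP8a

namespace Pool.Agent.Q61.AllVolumesAttained

/-- For every even `m ≥ 4` and every `V > 0` there is a smooth radial `u` on `ℝ^{2m}` with
`(-Δ)^m u = (2m-1)! e^{2mu}` and `∫ e^{2mu} dx = V`. -/
theorem result (m : ℕ) (hm : 4 ≤ m) (heven : Even m) (V : ℝ) (hV : 0 < V) :
    ∃ u : EuclideanSpace ℝ (Fin (2 * m)) → ℝ, HasVolume m V u := by
  obtain ⟨j, rfl⟩ : ∃ j, m = j + 3 := ⟨m - 3, by omega⟩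
  exact attained j heven hV

end Pool.Agent.Q61.AllVolumesAttained
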