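import Mathlib

set_option autoImplicit false

open Topology Filter Set Real

namespace Q61.FB

/-! ### the boundary function -/

/-- `K₀(t) = 4t - t log|t|` -/
noncomputable def K0 (t : ℝ) : ℝ := 4 * t + negMulLog t

theorem K0_cont : Continuous K0 := (continuous_const.mul continuous_id).add continuous_negMulLog

theorem K0_neg (t : ℝ) : K0 (-t) = -K0 t := by
  unfold K0 negMulLog
  rw [Real.log_neg_eq_log]; ring

theorem K0_zero : K0 0 = 0 := by simp [K0]

theorem K0_deriv {t : ℝ} (ht : t ≠ 0) : HasDerivAt K0 (3 - Real.log t) t := by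
  have h1 : HasDerivAt (fun t : ℝ => 4 * t) 4 t := by simpa using (hasDerivAt_id t).const_mul 4
  have := h1.add (hasDerivAt_negMulLog ht)
  refine this.congr_deriv ?_
  ring

theorem log_le_one_of_mem {t : ℝ} (ht : |t| ≤ 2) : Real.log t ≤ 1 := by
  rcases eq_or_ne t 0 with h | h
  · simp [h]
  · rw [← Real.log_abs]
    have h1 : Real.log |t| ≤ Real.log 2 := Real.log_le_log (abs_pos.2 h) ht
    linarith [Real.log_two_lt_d9]

/-- `K₀(t) - 2t` is monotone on `[-2,2]` -/
theorem K0_mono_aux : MonotoneOn (fun t => K0 t - 2 * t) (Icc (-2) 2) := by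
  have hc : Continuous (fun t => K0 t - 2 * t) := K0_cont.sub (continuous_const.mul continuous_id)
  have hd : ∀ t : ℝ, t ≠ 0 → HasDerivAt (fun t => K0 t - 2 * t) (1 - Real.log t) t := by
    intro t ht
    have h1 : HasDerivAt (fun t : ℝ => 2 * t) 2 t := by simpa using (hasDerivAt_id t).const_mul 2
    have := (K0_deriv ht).sub h1
    refine this.congr_deriv ?_
    ring
  have h1 : MonotoneOn (fun t => K0 t - 2 * t) (Icc 0 2) := by
    apply monotoneOn_of_deriv_nonneg (convex_Icc _ _) hc.continuousOn
    · intro t ht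
      rw [interior_Icc] at ht
      exact (hd t ht.1.ne').differentiableAt.differentiableWithinAt
    · intro t ht
      rw [interior_Icc] at ht
      rw [(hd t ht.1.ne').deriv]
      have := log_le_one_of_mem (t := t) (by rw [abs_of_pos ht.1]; exact ht.2.le)
      linarith
  have h2 : MonotoneOn (fun t => K0 t - 2 * t) (Icc (-2) 0) := by
    apply monotoneOn_of_deriv_nonneg (convex_Icc _ _) hc.continuousOn
    · intro t ht
      rw [interior_Icc] at ht
      exact (hd t ht.2.ne).differentiableAt.differentiableWithinAt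
    · intro t ht
      rw [interior_Icc] at ht
      rw [(hd t ht.2.ne).deriv]
      have := log_le_one_of_mem (t := t) (by rw [abs_of_neg ht.2]; linarith [ht.1])
      linarith
  intro s hs t ht hst
  rcases le_total 0 s with h | h
  · exact h1 ⟨h, hs.2⟩ ⟨h.trans hst, ht.2⟩ hst
  · rcases le_total 0 t with h' | h'
    · exact (h2 ⟨hs.1, h⟩ ⟨by norm_num, le_rfl⟩ h).trans (h1 ⟨le_rfl, by norm_num⟩ ⟨h', ht.2⟩ h')
    · exact h2 ⟨hs.1, h⟩ ⟨ht.1, h'⟩ hst

/-- clamping to `[-2,2]` -/
noncomputable def cl (t : ℝ) : ℝ := max (-2) (min t 2)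

theorem cl_mem (t : ℝ) : cl t ∈ Icc (-2:ℝ) 2 := by
  unfold cl
  exact ⟨le_max_left _ _, max_le (by norm_num) (min_le_right _ _)⟩

theorem cl_mono : Monotone cl := fun _ _ h => max_le_max le_rfl (min_le_min h le_rfl)

theorem cl_of_mem {t : ℝ} (h : |t| ≤ 2) : cl t = t := by
  unfold cl
  rw [abs_le] at h
  rw [min_eq_left h.2, max_eq_right h.1]

theorem cl_cont : Continuous cl := by unfold cl; fun_prop

/-- `t - cl t` is monotone -/
theorem sub_cl_mono : Monotone (fun t => t - cl t) := by
  intro s t h
  simp only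
  unfold cl
  rcases le_total s 2 with h1 | h1 <;> rcases le_total t 2 with h2 | h2 <;>
  rcases le_total s (-2) with h3 | h3 <;> rcases le_total t (-2) with h4 | h4 <;>
  simp [*] <;> linarith

/-- the increasing homeomorphism of the line which is `K₀` on `[-2,2]` -/
noncomputable def K (t : ℝ) : ℝ := 2 * t + (K0 (cl t) - 2 * cl t) + (t - cl t)

theorem K_of_mem {t : ℝ} (h : |t| ≤ 2) : K t = K0 t := by
  unfold K; rw [cl_of_mem h]; ring

theorem K_cont : Continuous K := by
  unfold K
  exact ((continuous_const.mul continuous_id).add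
    ((K0_cont.comp cl_cont).sub (continuous_const.mul cl_cont))).add
    (continuous_id.sub cl_cont)

theorem K_lower {s t : ℝ} (h : s ≤ t) : 2 * (t - s) ≤ K t - K s := by
  unfold K
  have h1 := K0_mono_aux (cl_mem s) (cl_mem t) (cl_mono h)
  have h2 := sub_cl_mono h
  simp only at h1 h2
  linarith

theorem K_strictMono : StrictMono K := by
  intro s t h
  have := K_lower h.le
  linarith

theorem K_zero : K 0 = 0 := by rw [K_of_mem (by norm_num), K0_zero]

theorem K_surj : Function.Surjective K := by
  apply K_cont.surjective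
  · apply tendsto_atTop_mono' atTop (f₁ := fun t => 2 * t)
    · filter_upwards [eventually_ge_atTop 0] with t ht
      have := K_lower ht
      rw [K_zero] at this
      linarith
    · exact tendsto_id.const_mul_atTop (by norm_num)
  · refine tendsto_atBot_mono' atBot ?_ (tendsto_id.const_mul_atBot (by norm_num : (0:ℝ) < 2))
    · filter_upwards [eventually_le_atBot 0] with t ht
      have := K_lower ht
      rw [K_zero] at this
      simp only [id]
      linarith

/-- the order isomorphism -/
noncomputable def Ke : ℝ ≃o ℝ := K_strictMono.orderIsoOfSurjective K K_surj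

/-- inverse of `K` -/
noncomputable def G (y : ℝ) : ℝ := Ke.symm y

theorem K_G (y : ℝ) : K (G y) = y := Ke.apply_symm_apply y

theorem G_K (t : ℝ) : G (K t) = t := Ke.symm_apply_apply t

theorem G_zero : G 0 = 0 := by
  have := G_K 0
  rwa [K_zero] at this

theorem G_mono : Monotone G := Ke.symm.monotone

theorem G_lip (y y' : ℝ) : |G y - G y'| ≤ |y - y'| / 2 := by
  rcases le_total y' y with h | h
  · have h1 := G_mono h
    have h2 := K_lower h1
    rw [K_G, K_G] at h2
    rw [abs_of_nonneg (by linarith), abs_of_nonneg (by linarith)]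
    linarith
  · have h1 := G_mono h
    have h2 := K_lower h1
    rw [K_G, K_G] at h2
    rw [abs_of_nonpos (by linarith), abs_of_nonpos (by linarith)]
    linarith

theorem G_cont : Continuous G := Ke.symm.continuous

theorem cl_neg (t : ℝ) : cl (-t) = -cl t := by
  unfold cl
  rcases le_total t 2 with h1 | h1
  · rcases le_total t (-2) with h3 | h3
    · rw [min_eq_right (by linarith : (2:ℝ) ≤ -t), max_eq_right (by norm_num), min_eq_left h1,
        max_eq_left h3]; norm_num
    · rw [min_eq_left (by linarith : -t ≤ 2), max_eq_right (by linarith), min_eq_left h1,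
        max_eq_right h3]
  · rw [min_eq_left (by linarith : -t ≤ 2), max_eq_left (by linarith), min_eq_right h1,
      max_eq_right (by norm_num)]

theorem K_neg (t : ℝ) : K (-t) = -K t := by
  unfold K
  rw [cl_neg, K0_neg]; ring

theorem G_neg (y : ℝ) : G (-y) = -G y := by
  have : -y = K (-G y) := by rw [K_neg, K_G]
  rw [this, G_K]

theorem G_small {y : ℝ} (h : |y| ≤ 2) : |G y| ≤ 1 := by
  have := G_lip y 0
  rw [G_zero, sub_zero, sub_zero] at this
  linarith

/-- the constant `π/2` -/
noncomputable def c : ℝ := Real.pi / 2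

theorem c_pos : 0 < c := by unfold c; positivity

theorem c_lt_two : c < 2 := by unfold c; linarith [Real.pi_lt_four]

theorem one_lt_c : 1 < c := by unfold c; linarith [Real.pi_gt_three]

/-- the boundary function -/
noncomputable def Γ (y : ℝ) : ℝ := c * |G y|

theorem Γ_cont : Continuous Γ := continuous_const.mul G_cont.abs

theorem Γ_lip : LipschitzWith 1 Γ := by
  apply LipschitzWith.of_dist_le_mul
  intro y y'
  rw [Real.dist_eq, Real.dist_eq]
  unfold Γ
  rw [← mul_sub, abs_mul, abs_of_pos c_pos]
  have h1 := abs_abs_sub_abs_le_abs_sub (G y) (G y')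
  have h2 := G_lip y y'
  have h3 := c_lt_two
  have h4 := c_pos
  have h5 := abs_nonneg (y - y')
  calc c * |(|G y| - |G y'|)| ≤ 2 * |G y - G y'| := by
        apply mul_le_mul h3.le h1 (abs_nonneg _) (by norm_num)
    _ ≤ 2 * (|y - y'| / 2) := by linarith
    _ = _ := by simp; ring

theorem Γ_zero : Γ 0 = 0 := by simp [Γ, G_zero]

theorem Γ_nonneg (y : ℝ) : 0 ≤ Γ y := mul_nonneg c_pos.le (abs_nonneg _)

/-- derivative of `Γ` for `|y|` small -/
noncomputable def Γd (y : ℝ) : ℝ := c * (SignType.sign (G y) * (3 - Real.log (G y))⁻¹)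

theorem G_ne_zero {y : ℝ} (h : y ≠ 0) : G y ≠ 0 := by
  intro h0
  apply h
  rw [← K_G y, h0, K_zero]

theorem G_deriv {y : ℝ} (h : y ≠ 0) (hy : |y| < 2) : HasDerivAt G (3 - Real.log (G y))⁻¹ y := by
  have h1 : |G y| < 2 := lt_of_le_of_lt (G_small hy.le) (by norm_num)
  have h2 : HasDerivAt K (3 - Real.log (G y)) (G y) := by
    refine (K0_deriv (G_ne_zero h)).congr_of_eventuallyEq ?_
    have : Ioo (-2:ℝ) 2 ∈ 𝓝 (G y) := Ioo_mem_nhds (abs_lt.1 h1).1 (abs_lt.1 h1).2
    filter_upwards [this] with t ht
    exact K_of_mem (abs_le.2 ⟨ht.1.le, ht.2.le⟩)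
  apply HasDerivAt.of_local_left_inverse G_cont.continuousAt h2
  · have := log_le_one_of_mem h1.le
    linarith
  · exact Eventually.of_forall K_G

theorem Γ_deriv {y : ℝ} (hy : |y| < 2) : HasDerivAt Γ (Γd y) y := by
  rcases eq_or_ne y 0 with rfl | h
  · -- at the origin
    have h0 : Γd 0 = 0 := by simp [Γd, G_zero]
    rw [h0, hasDerivAt_iff_isLittleO]
    simp only [Γ_zero, sub_zero, smul_zero]
    rw [Asymptotics.isLittleO_iff]
    intro ε hε
    have hT : Tendsto (fun y : ℝ => G y) (𝓝[≠] 0) (𝓝[≠] 0) := by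
      rw [tendsto_nhdsWithin_iff]
      constructor
      · have := G_cont.tendsto 0
        rw [G_zero] at this
        exact this.mono_left nhdsWithin_le_nhds
      · filter_upwards [self_mem_nhdsWithin] with y hy
        exact G_ne_zero hy
    have hL := Real.tendsto_log_nhdsNE_zero.comp hT
    have hev := hL.eventually (eventually_le_atBot (-(2 / ε)))
    have hev2 : ∀ᶠ y : ℝ in 𝓝 0, y ≠ 0 → Real.log (G y) ≤ -(2 / ε) := by
      rwa [eventually_nhdsWithin_iff] at hev
    have hev3 : ∀ᶠ y : ℝ in 𝓝 0, |y| < 2 := by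
      have : Ioo (-2:ℝ) 2 ∈ 𝓝 (0:ℝ) := Ioo_mem_nhds (by norm_num) (by norm_num)
      filter_upwards [this] with y hy
      exact abs_lt.2 hy
    filter_upwards [hev2, hev3] with y h1 h2
    rw [Real.norm_eq_abs, Real.norm_eq_abs, abs_of_nonneg (Γ_nonneg y)]
    rcases eq_or_ne y 0 with rfl | h3
    · simp [Γ_zero]
    · have h4 := h1 h3
      have h5 : |y| = |G y| * (4 - Real.log (G y)) := by
        have e : y = G y * (4 - Real.log (G y)) := by
          conv_lhs => rw [← K_G y, K_of_mem ((G_small h2.le).trans (by norm_num))]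
          unfold K0 negMulLog
          ring
        conv_lhs => rw [e]
        rw [abs_mul, abs_of_pos (a := 4 - Real.log (G y))]
        have : 0 < 2 / ε := by positivity
        linarith
      rw [h5]
      unfold Γ
      have h6 : c ≤ ε * (4 - Real.log (G y)) := by
        have e1 : ε * (2 / ε) = 2 := by field_simp
        have := c_lt_two
        nlinarith
      have h7 := abs_nonneg (G y)
      nlinarith
  · have h1 := G_deriv h hy
    have h2 := (hasDerivAt_abs (G_ne_zero h)).comp y h1
    have h3 := h2.const_mul c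
    exact h3

theorem Γd_cont : ContinuousOn Γd (Ioo (-2) 2) := by
  intro y hy
  apply ContinuousAt.continuousWithinAt
  have hy' : |y| < 2 := abs_lt.2 hy
  rcases eq_or_ne y 0 with rfl | h
  · have h0 : Γd 0 = 0 := by simp [Γd, G_zero]
    rw [ContinuousAt, h0]
    have hT : Tendsto (fun y : ℝ => G y) (𝓝[≠] 0) (𝓝[≠] 0) := by
      rw [tendsto_nhdsWithin_iff]
      constructor
      · have := G_cont.tendsto 0
        rw [G_zero] at this
        exact this.mono_left nhdsWithin_le_nhds
      · filter_upwards [self_mem_nhdsWithin] with y hy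
        exact G_ne_zero hy
    have hL := Real.tendsto_log_nhdsNE_zero.comp hT
    have h1 : Tendsto (fun y => (3 - Real.log (G y))⁻¹) (𝓝[≠] 0) (𝓝 0) := by
      apply Tendsto.inv_tendsto_atTop
      have := tendsto_neg_atBot_atTop.comp hL
      have h2 := tendsto_atTop_add_const_left _ 3 this
      refine h2.congr fun y => ?_
      simp [Function.comp]; ring
    have h2 : Tendsto Γd (𝓝[≠] 0) (𝓝 0) := by
      have h00 : Tendsto (fun y => ((SignType.sign (G y) : SignType) : ℝ) *
          (3 - Real.log (G y))⁻¹) (𝓝[≠] 0) (𝓝 0) → Tendsto Γd (𝓝[≠] 0) (𝓝 0) := by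
        intro h
        have := h.const_mul c
        rwa [mul_zero] at this
      apply h00
      rw [tendsto_zero_iff_norm_tendsto_zero]
      have h3 := h1.norm
      rw [norm_zero] at h3
      refine squeeze_zero (fun _ => norm_nonneg _) (fun y => ?_) h3
      rw [norm_mul]
      have h4 : ‖((SignType.sign (G y) : SignType) : ℝ)‖ ≤ 1 := by
        rcases lt_trichotomy (G y) 0 with h | h | h <;> simp [h]
      calc _ ≤ 1 * ‖(3 - Real.log (G y))⁻¹‖ := mul_le_mul_of_nonneg_right h4 (norm_nonneg _)
        _ = _ := one_mul _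
    have h5 : ContinuousAt Γd 0 := by
      rw [continuousAt_iff_punctured_nhds, h0]
      exact h2
    have h6 := h5.tendsto
    rwa [h0] at h6
  · unfold Γd
    apply ContinuousAt.mul continuousAt_const
    apply ContinuousAt.mul
    · have h1 : (fun y => ((SignType.sign (G y) : SignType) : ℝ)) =ᶠ[𝓝 y]
          fun _ => ((SignType.sign (G y) : SignType) : ℝ) := by
        have h2 : ContinuousAt G y := G_cont.continuousAt
        rcases lt_or_gt_of_ne (G_ne_zero h) with h3 | h3
        · filter_upwards [h2.eventually (gt_mem_nhds h3)] with x hx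
          rw [sign_neg hx, sign_neg h3]
        · filter_upwards [h2.eventually (lt_mem_nhds h3)] with x hx
          rw [sign_pos hx, sign_pos h3]
      exact continuousAt_const.congr h1.symm
    · apply ContinuousAt.inv₀
      · exact continuousAt_const.sub ((Real.continuousAt_log (G_ne_zero h)).comp
          G_cont.continuousAt)
      · have := log_le_one_of_mem ((G_small hy'.le).trans (by norm_num) : |G y| ≤ 2)
        linarith

theorem Γ_contDiffOn : ContDiffOn ℝ 1 Γ (Ioo (-2) 2) := by
  rw [contDiffOn_one_iff_derivWithin (isOpen_Ioo.uniqueDiffOn)]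
  constructor
  · intro y hy
    exact (Γ_deriv (abs_lt.2 hy)).differentiableAt.differentiableWithinAt
  · apply Γd_cont.congr
    intro y hy
    rw [derivWithin_of_isOpen isOpen_Ioo hy, (Γ_deriv (abs_lt.2 hy)).deriv]

end Q61.FB
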