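import Pool.Agent.Q61.FB1

set_option autoImplicit false

open Topology Filter Set Complex

namespace Q61.FB

/-! ### the conformal map -/

/-- the map -/
noncomputable def φ (ζ : ℂ) : ℂ := ζ * (c + I * (Complex.log ζ - 4))

/-- its derivative -/
noncomputable def φd (ζ : ℂ) : ℂ := c + I * (Complex.log ζ - 3)

/-- open half disc -/
def Hup : Set ℂ := {ζ | 0 < ζ.im ∧ ‖ζ‖ < 2}

/-- closed half disc -/
def Hcl : Set ℂ := {ζ | 0 ≤ ζ.im ∧ ‖ζ‖ ≤ 2}

theorem φ_deriv {ζ : ℂ} (h : 0 < ζ.im) : HasDerivAt φ (φd ζ) ζ := by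
  have hs : ζ ∈ slitPlane := Or.inr h.ne'
  have h0 : ζ ≠ 0 := by rintro rfl; simp at h
  have h1 := Complex.hasDerivAt_log hs
  have h2 := ((h1.sub_const 4).const_mul I).const_add (c : ℂ)
  have h3 := (hasDerivAt_id ζ).mul h2
  refine h3.congr_deriv ?_
  unfold φd
  simp only [id]
  field_simp
  ring

theorem φd_im (ζ : ℂ) : (φd ζ).im = Real.log ‖ζ‖ - 3 := by
  unfold φd
  simp [Complex.log_re]

theorem log_norm_le {ζ : ℂ} (h : ‖ζ‖ ≤ 2) : Real.log ‖ζ‖ ≤ 1 :=
  log_le_one_of_mem (by rwa [abs_norm])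

theorem φd_im_le {ζ : ℂ} (h : ‖ζ‖ ≤ 2) : (φd ζ).im ≤ -2 := by
  rw [φd_im]; linarith [log_norm_le h]

theorem φd_ne_zero {ζ : ℂ} (h : ‖ζ‖ ≤ 2) : φd ζ ≠ 0 := by
  intro h0
  have := φd_im_le h
  rw [h0] at this
  simp at this
  linarith

theorem φ_real (s : ℝ) : φ s = ((c * |s| : ℝ) : ℂ) - I * (K0 s : ℝ) := by
  unfold φ K0 Real.negMulLog
  rcases lt_trichotomy s 0 with h | h | h
  · have h1 : Complex.log (s : ℂ) = ((Real.log s : ℝ) : ℂ) + (Real.pi : ℝ) * I := by
      apply Complex.ext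
      · simp [Complex.log_re]
      · simp [Complex.log_im, Complex.arg_ofReal_of_neg h]
    rw [h1, abs_of_neg h]
    unfold c
    apply Complex.ext
    · simp; ring
    · simp; ring
  · subst h; simp
  · rw [← Complex.ofReal_log h.le, abs_of_pos h]
    apply Complex.ext
    · simp; ring
    · simp; ring

theorem φ_real_re (s : ℝ) : (φ s).re = c * |s| := by rw [φ_real]; simp

theorem φ_real_im (s : ℝ) : (φ s).im = -K0 s := by rw [φ_real]; simp

theorem φ_zero : φ 0 = 0 := by simp [φ]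

theorem φ_cont : ContinuousOn φ {ζ | 0 ≤ ζ.im} := by
  intro ζ hζ
  rcases eq_or_ne ζ 0 with rfl | h0
  · apply ContinuousAt.continuousWithinAt
    rw [ContinuousAt, φ_zero, tendsto_zero_iff_norm_tendsto_zero]
    have hb : ∀ ζ : ℂ, ‖φ ζ‖ ≤ ‖ζ‖ * (c + Real.pi + 4) + |Real.negMulLog ‖ζ‖| := by
      intro ζ
      unfold φ
      rw [norm_mul]
      have h1 : ‖(c : ℂ) + I * (Complex.log ζ - 4)‖ ≤ c + (|Real.log ‖ζ‖| + Real.pi + 4) := by
        refine (norm_add_le _ _).trans ?_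
        rw [Complex.norm_real, Real.norm_of_nonneg c_pos.le, norm_mul, norm_I, one_mul]
        gcongr
        refine (norm_sub_le _ _).trans ?_
        have h2 : ‖Complex.log ζ‖ ≤ |Real.log ‖ζ‖| + Real.pi := by
          refine (Complex.norm_le_abs_re_add_abs_im _).trans ?_
          rw [Complex.log_re, Complex.log_im]
          gcongr
          exact Complex.abs_arg_le_pi ζ
        have h3 : ‖(4:ℂ)‖ = 4 := by simp
        rw [h3]
        linarith
      calc ‖ζ‖ * ‖(c : ℂ) + I * (Complex.log ζ - 4)‖ ≤ ‖ζ‖ * (c + (|Real.log ‖ζ‖| + Real.pi + 4)) := by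
            gcongr
        _ = ‖ζ‖ * (c + Real.pi + 4) + |Real.negMulLog ‖ζ‖| := by
            unfold Real.negMulLog
            rw [abs_mul, abs_neg, abs_norm]; ring
    have hlim : Tendsto (fun ζ : ℂ => ‖ζ‖ * (c + Real.pi + 4) + |Real.negMulLog ‖ζ‖|) (𝓝 0) (𝓝 0) := by
      have hc : Continuous (fun ζ : ℂ => ‖ζ‖ * (c + Real.pi + 4) + |Real.negMulLog ‖ζ‖|) := by
        fun_prop
      have := hc.tendsto 0
      simpa using this
    exact squeeze_zero (fun _ => norm_nonneg _) hb hlim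
  · have hlog : ContinuousWithinAt Complex.log {ζ | 0 ≤ ζ.im} ζ := by
      by_cases hs : ζ ∈ slitPlane
      · exact (continuousAt_clog hs).continuousWithinAt
      · rw [Complex.mem_slitPlane_iff, not_or, not_lt, not_not] at hs
        apply Complex.continuousWithinAt_log_of_re_neg_of_im_zero _ hs.2
        rcases lt_or_eq_of_le hs.1 with h | h
        · exact h
        · exact absurd (Complex.ext h hs.2) h0
    unfold φ
    exact continuousWithinAt_id.mul (continuousWithinAt_const.add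
      (continuousWithinAt_const.mul (hlog.sub continuousWithinAt_const)))

theorem key_im {ζ₁ ζ₂ : ℂ} (h1 : ζ₁ ∈ Hcl) (h2 : ζ₂ ∈ Hcl) (h : 0 < ζ₁.im ∨ 0 < ζ₂.im)
    (hne : ζ₁ ≠ ζ₂) : ((φ ζ₂ - φ ζ₁) / (ζ₂ - ζ₁)).im ≤ -2 := by
  set w := ζ₂ - ζ₁ with hw
  have hw0 : w ≠ 0 := sub_ne_zero.2 hne.symm
  set γ : ℝ → ℂ := fun τ => ζ₁ + τ * w with hγ
  have hγim : ∀ τ : ℝ, (γ τ).im = (1 - τ) * ζ₁.im + τ * ζ₂.im := by
    intro τ; simp [hγ, hw]; ring
  have hγn : ∀ τ ∈ Icc (0:ℝ) 1, ‖γ τ‖ ≤ 2 := by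
    intro τ hτ
    have e : γ τ = ((1 - τ : ℝ) : ℂ) * ζ₁ + (τ : ℂ) * ζ₂ := by
      simp only [hγ, hw]; push_cast; ring
    rw [e]
    refine (norm_add_le _ _).trans ?_
    rw [norm_mul, norm_mul, Complex.norm_real, Complex.norm_real,
      Real.norm_of_nonneg (by linarith [hτ.2]), Real.norm_of_nonneg hτ.1]
    have a1 := h1.2
    have a2 := h2.2
    have b1 := hτ.1
    have b2 := hτ.2
    nlinarith [mul_le_mul_of_nonneg_left a1 (by linarith : (0:ℝ) ≤ 1 - τ),
      mul_le_mul_of_nonneg_left a2 b1]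
  have hγpos : ∀ τ ∈ Ioo (0:ℝ) 1, 0 < (γ τ).im := by
    intro τ hτ
    rw [hγim]
    have a1 : 0 < 1 - τ := by linarith [hτ.2]
    have a2 := hτ.1
    rcases h with h | h
    · have := h2.1
      have := mul_pos a1 h
      nlinarith
    · have := h1.1
      have := mul_pos a2 h
      nlinarith
  have hγc : Continuous γ := by simp only [hγ]; fun_prop
  have hγim0 : ∀ τ ∈ Icc (0:ℝ) 1, γ τ ∈ {ζ : ℂ | 0 ≤ ζ.im} := by
    intro τ hτ
    show 0 ≤ (γ τ).im
    rw [hγim]
    have a1 : 0 ≤ 1 - τ := by linarith [hτ.2]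
    have := mul_nonneg a1 h1.1
    have := mul_nonneg hτ.1 h2.1
    linarith
  set g : ℝ → ℝ := fun τ => (φ (γ τ) / w).im + 2 * τ with hg
  have hcont : ContinuousOn g (Icc 0 1) := by
    have a1 : ContinuousOn (fun τ => φ (γ τ)) (Icc 0 1) := φ_cont.comp hγc.continuousOn hγim0
    have a2 : ContinuousOn (fun τ => φ (γ τ) / w) (Icc 0 1) := a1.div_const w
    exact (Complex.continuous_im.comp_continuousOn a2).add (by fun_prop)
  have hder : ∀ τ ∈ Ioo (0:ℝ) 1, HasDerivAt g ((φd (γ τ)).im + 2) τ := by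
    intro τ hτ
    have b1 : HasDerivAt γ w τ := by
      have : HasDerivAt (fun τ : ℝ => ζ₁ + (τ : ℂ) * w) (1 * w) τ :=
        ((Complex.ofRealCLM.hasDerivAt (x := τ)).mul_const w).const_add ζ₁
      rw [one_mul] at this
      exact this
    have b2 : HasDerivAt (fun τ => φ (γ τ)) (φd (γ τ) * w) τ :=
      (φ_deriv (hγpos τ hτ)).comp_of_eq τ b1 rfl
    have b3 := b2.div_const w
    rw [mul_div_cancel_right₀ _ hw0] at b3
    have b4 : HasDerivAt (fun τ => (φ (γ τ) / w).im) ((φd (γ τ)).im) τ :=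
      (Complex.imCLM.hasFDerivAt.comp_hasDerivAt τ b3)
    have b5 : HasDerivAt (fun τ : ℝ => 2 * τ) 2 τ := by
      simpa using (hasDerivAt_id τ).const_mul 2
    exact b4.add b5
  have hanti : AntitoneOn g (Icc 0 1) := by
    apply antitoneOn_of_deriv_nonpos (convex_Icc 0 1) hcont
    · intro τ hτ
      rw [interior_Icc] at hτ
      exact (hder τ hτ).differentiableAt.differentiableWithinAt
    · intro τ hτ
      rw [interior_Icc] at hτ
      rw [(hder τ hτ).deriv]
      have := φd_im_le (hγn τ ⟨hτ.1.le, hτ.2.le⟩)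
      linarith
  have := hanti (left_mem_Icc.2 zero_le_one) (right_mem_Icc.2 zero_le_one) zero_le_one
  simp only [hg, hγ] at this
  have e0 : ζ₁ + ((0:ℝ) : ℂ) * w = ζ₁ := by simp
  have e1 : ζ₁ + ((1:ℝ) : ℂ) * w = ζ₂ := by simp [hw]
  rw [e0, e1] at this
  rw [sub_div, Complex.sub_im]
  linarith

theorem φ_lower {ζ₁ ζ₂ : ℂ} (h1 : ζ₁ ∈ Hcl) (h2 : ζ₂ ∈ Hcl) (h : 0 < ζ₁.im ∨ 0 < ζ₂.im) :
    2 * ‖ζ₂ - ζ₁‖ ≤ ‖φ ζ₂ - φ ζ₁‖ := by
  by_cases hne : ζ₁ = ζ₂
  · subst hne; simp
  · have hk := key_im h1 h2 h hne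
    have hw0 : 0 < ‖ζ₂ - ζ₁‖ := norm_pos_iff.2 (sub_ne_zero.2 (Ne.symm hne))
    have h3 : 2 ≤ ‖(φ ζ₂ - φ ζ₁) / (ζ₂ - ζ₁)‖ := by
      refine le_trans ?_ (Complex.abs_im_le_norm _)
      rw [abs_of_nonpos (by linarith)]; linarith
    rw [norm_div, le_div_iff₀ hw0] at h3
    exact h3

theorem φ_norm {ζ : ℂ} (h : ‖ζ‖ = 2) : 2 < ‖φ ζ‖ := by
  unfold φ
  rw [norm_mul, h]
  have h1 : 3 ≤ ‖(c : ℂ) + I * (Complex.log ζ - 4)‖ := by
    refine le_trans ?_ (Complex.abs_im_le_norm _)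
    have : ((c : ℂ) + I * (Complex.log ζ - 4)).im = Real.log ‖ζ‖ - 4 := by
      simp [Complex.log_re]
    rw [this]
    have h2 := log_norm_le h.le
    rw [abs_of_nonpos (by linarith)]; linarith
  linarith

/-! ### the domain -/

/-- the domain -/
def D : Set ℂ := {z | Γ z.im < z.re}

theorem D_open : IsOpen D :=
  isOpen_lt (Γ_cont.comp Complex.continuous_im) Complex.continuous_re

/-- the part of the domain in the ball -/
def A : Set ℂ := D ∩ Metric.ball 0 2

theorem A_open : IsOpen A := D_open.inter Metric.isOpen_ball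

theorem mem_D_iff {z : ℂ} (hz : ‖z‖ < 2) : z ∈ D ↔ 0 < z.re ∧ |z.im| < K0 (z.re / c) := by
  have him : |z.im| ≤ 2 := (Complex.abs_im_le_norm z).trans hz.le
  have hre : |z.re| < 2 := (Complex.abs_re_le_norm z).trans_lt hz
  have hKG : K |G z.im| = |z.im| := by
    rcases le_total 0 z.im with h | h
    · have h1 : 0 ≤ G z.im := by have := G_mono h; rwa [G_zero] at this
      rw [abs_of_nonneg h1, K_G, abs_of_nonneg h]
    · have h1 : G z.im ≤ 0 := by have := G_mono h; rwa [G_zero] at this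
      rw [abs_of_nonpos h1, K_neg, K_G, abs_of_nonpos h]
  have key : 0 < z.re → K (z.re / c) = K0 (z.re / c) := by
    intro h
    apply K_of_mem
    rw [abs_of_pos (div_pos h c_pos), div_le_iff₀ c_pos]
    have := one_lt_c
    rw [abs_of_pos h] at hre
    linarith
  constructor
  · intro h
    have h' : Γ z.im < z.re := h
    have h0 : 0 < z.re := lt_of_le_of_lt (Γ_nonneg _) h'
    refine ⟨h0, ?_⟩
    rw [← key h0, ← hKG]
    apply K_strictMono
    rw [lt_div_iff₀ c_pos, mul_comm]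
    exact h'
  · rintro ⟨h0, h1⟩
    rw [← key h0, ← hKG] at h1
    have h2 := K_strictMono.lt_iff_lt.1 h1
    rw [lt_div_iff₀ c_pos, mul_comm] at h2
    exact h2

theorem A_convex : Convex ℝ A := by
  have h1 : Convex ℝ {z : ℂ | 0 < z.re ∧ |z.im| < K0 (z.re / c)} := by
    intro z hz w hw a b ha hb hab
    have hz1 := hz.1
    have hw1 := hw.1
    have e1 : (a • z + b • w).re = a * z.re + b * w.re := by simp
    have e2 : (a • z + b • w).im = a * z.im + b * w.im := by simp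
    refine ⟨?_, ?_⟩
    · rw [e1]
      rcases eq_or_lt_of_le ha with h | h
      · subst h
        have : b = 1 := by linarith
        subst this; simpa using hw1
      · have := mul_pos h hz1
        have := mul_nonneg hb hw1.le
        linarith
    · rw [e1, e2]
      have hconc : a * K0 (z.re / c) + b * K0 (w.re / c) ≤ K0 ((a * z.re + b * w.re) / c) := by
        have h2 := Real.concaveOn_negMulLog.2 (x := z.re / c) (y := w.re / c)
          (mem_Ici.2 (div_pos hz1 c_pos).le) (mem_Ici.2 (div_pos hw1 c_pos).le) ha hb hab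
        simp only [smul_eq_mul] at h2
        unfold K0
        have e3 : (a * z.re + b * w.re) / c = a * (z.re / c) + b * (w.re / c) := by ring
        rw [e3]
        linarith
      refine lt_of_lt_of_le ?_ hconc
      refine lt_of_le_of_lt (abs_add_le _ _) ?_
      rw [abs_mul, abs_mul, abs_of_nonneg ha, abs_of_nonneg hb]
      rcases eq_or_lt_of_le ha with h | h
      · subst h
        have : b = 1 := by linarith
        subst this; simpa using hw.2
      · have := mul_lt_mul_of_pos_left hz.2 h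
        have := mul_le_mul_of_nonneg_left hw.2.le hb
        linarith
  have h2 : A = {z : ℂ | 0 < z.re ∧ |z.im| < K0 (z.re / c)} ∩ Metric.ball 0 2 := by
    ext z
    unfold A
    simp only [mem_inter_iff, Metric.mem_ball, dist_zero_right]
    constructor
    · rintro ⟨ha, hb⟩
      exact ⟨(mem_D_iff hb).1 ha, hb⟩
    · rintro ⟨ha, hb⟩
      exact ⟨(mem_D_iff hb).2 ha, hb⟩
  rw [h2]
  exact h1.inter (convex_ball _ _)

/-- the parameter of the boundary point at height `y` -/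
theorem bdry_param {y : ℝ} (hy : |y| ≤ 2) : φ ((-G y : ℝ) : ℂ) = ⟨Γ y, y⟩ := by
  apply Complex.ext
  · rw [φ_real_re, abs_neg]; rfl
  · rw [φ_real_im, K0_neg, neg_neg, ← K_of_mem ((G_small hy).trans (by norm_num)), K_G]

theorem real_mem_Hcl {s : ℝ} (h : |s| ≤ 2) : (s : ℂ) ∈ Hcl := by
  refine ⟨by simp, ?_⟩
  rw [Complex.norm_real]; exact h

theorem Hup_sub : Hup ⊆ Hcl := fun _ h => ⟨h.1.le, h.2.le⟩

theorem φ_mem_D {ζ : ℂ} (h : ζ ∈ Hup) (hy : |(φ ζ).im| ≤ 2) : φ ζ ∈ D := by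
  set y := (φ ζ).im with hydef
  set s : ℝ := -G y with hs
  have hs1 : |s| ≤ 1 := by rw [hs, abs_neg]; exact G_small hy
  have h1 := bdry_param hy
  have hne : (s : ℂ) ≠ ζ := by
    intro h0
    have := h.1
    rw [← h0] at this
    simp at this
  have hk := key_im (real_mem_Hcl (hs1.trans (by norm_num))) (Hup_sub h) (Or.inr h.1) hne
  rw [h1] at hk
  set δ : ℝ := (φ ζ).re - Γ y with hδ
  have e : φ ζ - ⟨Γ y, y⟩ = (δ : ℂ) := by
    apply Complex.ext
    · simp [hδ]
    · simp [hydef]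
  rw [e] at hk
  have hw0 : 0 < Complex.normSq (ζ - s) := Complex.normSq_pos.2 (sub_ne_zero.2 hne.symm)
  rw [Complex.div_im] at hk
  simp only [Complex.ofReal_im, Complex.ofReal_re, zero_mul, zero_div, Complex.sub_im, sub_zero,
    zero_sub] at hk
  have h2 : 0 < δ := by
    by_contra hcon
    push Not at hcon
    have h3 : δ * ζ.im ≤ 0 := mul_nonpos_of_nonpos_of_nonneg hcon h.1.le
    have h4 : δ * ζ.im / Complex.normSq (ζ - s) ≤ 0 := div_nonpos_of_nonpos_of_nonneg h3 hw0.le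
    linarith
  show Γ (φ ζ).im < (φ ζ).re
  rw [hδ] at h2
  linarith

theorem mem_image_Hup {z : ℂ} (hz : z ∈ D) (hn : ‖z‖ < 2) (h : z ∈ φ '' Hcl) : z ∈ φ '' Hup := by
  obtain ⟨ζ, hζ, rfl⟩ := h
  refine ⟨ζ, ⟨?_, ?_⟩, rfl⟩
  · rcases lt_or_eq_of_le hζ.1 with h | h
    · exact h
    · exfalso
      have e : ζ = (ζ.re : ℂ) := Complex.ext rfl (by simp [← h])
      have hs : |ζ.re| ≤ 2 := (Complex.abs_re_le_norm ζ).trans hζ.2
      have h1 : Γ (φ ζ).im < (φ ζ).re := hz
      rw [e, φ_real_re, φ_real_im] at h1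
      unfold Γ at h1
      rw [G_neg, abs_neg, ← K_of_mem hs, G_K] at h1
      exact lt_irrefl _ h1
  · rcases lt_or_eq_of_le hζ.2 with h | h
    · exact h
    · have := φ_norm h
      linarith

theorem Hcl_compact : IsCompact Hcl := by
  have h1 : Hcl = {ζ : ℂ | 0 ≤ ζ.im} ∩ Metric.closedBall 0 2 := by
    ext ζ; simp [Hcl]
  rw [h1]
  exact (isCompact_closedBall 0 2).inter_left (isClosed_le continuous_const Complex.continuous_im)

theorem image_Hcl_closed : IsClosed (φ '' Hcl) :=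
  (Hcl_compact.image_of_continuousOn (φ_cont.mono fun _ h => h.1)).isClosed

theorem Hup_open : IsOpen Hup :=
  (isOpen_lt continuous_const Complex.continuous_im).inter
    (isOpen_lt continuous_norm continuous_const)

theorem φ_strictDeriv {ζ : ℂ} (h : 0 < ζ.im) : HasStrictDerivAt φ (φd ζ) ζ := by
  have hs : ζ ∈ slitPlane := Or.inr h.ne'
  have h1 : ContDiffAt ℂ 1 φ ζ := by
    unfold φ
    exact contDiffAt_id.mul (contDiffAt_const.add (contDiffAt_const.mul
      ((Complex.contDiffAt_log hs).sub contDiffAt_const)))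
  exact h1.hasStrictDerivAt' (φ_deriv h) (by norm_num)

theorem image_Hup_open : IsOpen (φ '' Hup) := by
  rw [isOpen_iff_mem_nhds]
  rintro _ ⟨ζ, hζ, rfl⟩
  have h1 := (φ_strictDeriv hζ.1).map_nhds_eq (φd_ne_zero hζ.2.le)
  rw [← h1]
  exact image_mem_map (Hup_open.mem_nhds hζ)

theorem A_subset : A ⊆ φ '' Hup := by
  apply IsPreconnected.subset_left_of_subset_union image_Hup_open
    (image_Hcl_closed.isOpen_compl) _ _ _ A_convex.isPreconnected
  · rw [disjoint_left]
    rintro z ⟨ζ, hζ, rfl⟩ h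
    exact h ⟨ζ, Hup_sub hζ, rfl⟩
  · intro z hz
    by_cases h : z ∈ φ '' Hcl
    · exact Or.inl (mem_image_Hup hz.1 (by simpa using hz.2) h)
    · exact Or.inr h
  · -- a point
    set ζ : ℂ := (1 / 8 : ℝ) * I with hζ
    have hn : ‖ζ‖ = 1 / 8 := by rw [hζ, norm_mul, norm_I, Complex.norm_real]; norm_num
    have hm : ζ ∈ Hup := by
      refine ⟨?_, by rw [hn]; norm_num⟩
      simp [hζ]
    have hlog : Complex.log ζ = (Real.log (1 / 8) : ℝ) + (c : ℝ) * I := by
      apply Complex.ext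
      · rw [Complex.log_re, hn, Complex.add_re, Complex.ofReal_re, Complex.re_ofReal_mul,
          Complex.I_re, mul_zero, add_zero]
      · rw [Complex.log_im, hζ, Complex.arg_real_mul _ (by norm_num), Complex.arg_I,
          Complex.add_im, Complex.ofReal_im, Complex.im_ofReal_mul, Complex.I_im, mul_one,
          zero_add]
        rfl
    have hφ : φ ζ = ((1 / 8 * (4 - Real.log (1 / 8)) : ℝ) : ℂ) := by
      unfold φ
      rw [hlog, hζ]
      apply Complex.ext
      · simp; ring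
      · simp
    have hl8 : Real.log (1 / 8) = -(3 * Real.log 2) := by
      rw [one_div, Real.log_inv, show (8:ℝ) = 2 ^ 3 by norm_num, Real.log_pow]; norm_num
    have hl1 := Real.log_two_gt_d9
    have hl2 := Real.log_two_lt_d9
    refine ⟨φ ζ, ⟨⟨?_, ?_⟩, ⟨ζ, hm, rfl⟩⟩⟩
    · show Γ (φ ζ).im < (φ ζ).re
      rw [hφ, Complex.ofReal_im, Complex.ofReal_re, Γ_zero, hl8]
      linarith
    · rw [Metric.mem_ball, dist_zero_right, hφ, Complex.norm_real, hl8,
        Real.norm_of_nonneg (by linarith)]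
      linarith

end Q61.FB
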