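import Mathlib

set_option autoImplicit false

open MeasureTheory InnerProductSpace Laplacian Topology Filter Set

namespace Q61

section general

variable {E : Type*} [NormedAddCommGroup E] [NormedSpace ℝ E]

/-- second derivative of a composition with a function of one real variable -/
theorem fderiv2_comp_real {F : ℝ → ℝ} {g : E → ℝ} {x : E} (hF : ContDiffAt ℝ 2 F (g x))
    (hg : ContDiffAt ℝ 2 g x) (v w : E) :
    fderiv ℝ (fderiv ℝ (fun y => F (g y))) x v w =
      deriv (deriv F) (g x) * fderiv ℝ g x v * fderiv ℝ g x w +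
        deriv F (g x) * fderiv ℝ (fderiv ℝ g) x v w := by
  have h1 : ∀ᶠ y in 𝓝 x, fderiv ℝ (fun y => F (g y)) y = (deriv F (g y)) • fderiv ℝ g y := by
    have hgc : ContinuousAt g x := hg.continuousAt
    have e1 : ∀ᶠ z in 𝓝 (g x), ContDiffAt ℝ 2 F z := hF.eventually (by simp)
    have e2 : ∀ᶠ y in 𝓝 x, ContDiffAt ℝ 2 F (g y) := hgc.eventually e1
    have e3 : ∀ᶠ y in 𝓝 x, ContDiffAt ℝ 2 g y := hg.eventually (by simp)
    filter_upwards [e2, e3] with y hy1 hy2
    have a1 := (hy1.differentiableAt (by norm_num)).hasDerivAt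
    have a2 := (hy2.differentiableAt (by norm_num)).hasFDerivAt
    exact (a1.comp_hasFDerivAt y a2).fderiv
  rw [Filter.EventuallyEq.fderiv_eq h1]
  have hF1 : ContDiffAt ℝ 1 (deriv F) (g x) := by
    have := hF.fderiv_right (m := 1) (by norm_num)
    have h2 : (deriv F) = fun z => fderiv ℝ F z 1 := by
      funext z; simp
    rw [h2]
    exact this.clm_apply contDiffAt_const
  have hg1 : ContDiffAt ℝ 1 (fderiv ℝ g) x := hg.fderiv_right (m := 1) (by norm_num)
  have a1 := (hF1.differentiableAt (by norm_num)).hasDerivAt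
  have a2 := (hg.differentiableAt (by norm_num)).hasFDerivAt
  have a3 := a1.comp_hasFDerivAt x a2
  have a4 := (hg1.differentiableAt (by norm_num)).hasFDerivAt
  have a5 := a3.smul a4
  have a6 : HasFDerivAt (fun y => (deriv F (g y)) • fderiv ℝ g y) _ x := a5
  rw [a6.fderiv]
  simp only [Function.comp, add_apply, smul_apply,
    ContinuousLinearMap.smulRight_apply, smul_eq_mul]
  ring

/-- second derivative of a product -/
theorem fderiv2_mul {f g : E → ℝ} {x : E} (hf : ContDiffAt ℝ 2 f x)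
    (hg : ContDiffAt ℝ 2 g x) (v w : E) :
    fderiv ℝ (fderiv ℝ (fun y => f y * g y)) x v w =
      f x * fderiv ℝ (fderiv ℝ g) x v w + fderiv ℝ f x v * fderiv ℝ g x w +
      fderiv ℝ g x v * fderiv ℝ f x w + g x * fderiv ℝ (fderiv ℝ f) x v w := by
  have h1 : ∀ᶠ y in 𝓝 x, fderiv ℝ (fun y => f y * g y) y = f y • fderiv ℝ g y +
      g y • fderiv ℝ f y := by
    have e2 : ∀ᶠ y in 𝓝 x, ContDiffAt ℝ 2 f y := hf.eventually (by simp)
    have e3 : ∀ᶠ y in 𝓝 x, ContDiffAt ℝ 2 g y := hg.eventually (by simp)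
    filter_upwards [e2, e3] with y hy1 hy2
    have a1 := (hy1.differentiableAt (by norm_num)).hasFDerivAt
    have a2 := (hy2.differentiableAt (by norm_num)).hasFDerivAt
    exact (a1.mul a2).fderiv
  rw [Filter.EventuallyEq.fderiv_eq h1]
  have hf1 : ContDiffAt ℝ 1 (fderiv ℝ f) x := hf.fderiv_right (m := 1) (by norm_num)
  have hg1 : ContDiffAt ℝ 1 (fderiv ℝ g) x := hg.fderiv_right (m := 1) (by norm_num)
  have a1 := (hf.differentiableAt (by norm_num)).hasFDerivAt
  have a2 := (hg.differentiableAt (by norm_num)).hasFDerivAt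
  have b1 := (hf1.differentiableAt (by norm_num)).hasFDerivAt
  have b2 := (hg1.differentiableAt (by norm_num)).hasFDerivAt
  have a6 : HasFDerivAt (fun y => f y • fderiv ℝ g y + g y • fderiv ℝ f y) _ x :=
    (a1.smul b2).add (a2.smul b1)
  rw [a6.fderiv]
  simp only [add_apply, smul_apply,
    ContinuousLinearMap.smulRight_apply, smul_eq_mul]
  ring

theorem fderiv2_add {f g : E → ℝ} {x : E} (hf : ContDiffAt ℝ 2 f x)
    (hg : ContDiffAt ℝ 2 g x) (v w : E) :
    fderiv ℝ (fderiv ℝ (fun y => f y + g y)) x v w =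
      fderiv ℝ (fderiv ℝ f) x v w + fderiv ℝ (fderiv ℝ g) x v w := by
  have h1 : ∀ᶠ y in 𝓝 x, fderiv ℝ (fun y => f y + g y) y = fderiv ℝ f y +
      fderiv ℝ g y := by
    have e2 : ∀ᶠ y in 𝓝 x, ContDiffAt ℝ 2 f y := hf.eventually (by simp)
    have e3 : ∀ᶠ y in 𝓝 x, ContDiffAt ℝ 2 g y := hg.eventually (by simp)
    filter_upwards [e2, e3] with y hy1 hy2
    have a1 := (hy1.differentiableAt (by norm_num)).hasFDerivAt
    have a2 := (hy2.differentiableAt (by norm_num)).hasFDerivAt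
    exact (a1.add a2).fderiv
  rw [Filter.EventuallyEq.fderiv_eq h1]
  have hf1 : ContDiffAt ℝ 1 (fderiv ℝ f) x := hf.fderiv_right (m := 1) (by norm_num)
  have hg1 : ContDiffAt ℝ 1 (fderiv ℝ g) x := hg.fderiv_right (m := 1) (by norm_num)
  have b1 := (hf1.differentiableAt (by norm_num)).hasFDerivAt
  have b2 := (hg1.differentiableAt (by norm_num)).hasFDerivAt
  have a6 : HasFDerivAt (fun y => fderiv ℝ f y + fderiv ℝ g y) _ x := b1.add b2
  rw [a6.fderiv]
  simp only [add_apply]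

theorem fderiv2_const_mul {f : E → ℝ} {x : E} (c : ℝ) (hf : ContDiffAt ℝ 2 f x) (v w : E) :
    fderiv ℝ (fderiv ℝ (fun y => c * f y)) x v w = c * fderiv ℝ (fderiv ℝ f) x v w := by
  have h1 : ∀ᶠ y in 𝓝 x, fderiv ℝ (fun y => c * f y) y = c • fderiv ℝ f y := by
    have e2 : ∀ᶠ y in 𝓝 x, ContDiffAt ℝ 2 f y := hf.eventually (by simp)
    filter_upwards [e2] with y hy1
    have a1 := (hy1.differentiableAt (by norm_num)).hasFDerivAt
    exact (a1.const_mul c).fderiv
  rw [Filter.EventuallyEq.fderiv_eq h1]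
  have hf1 : ContDiffAt ℝ 1 (fderiv ℝ f) x := hf.fderiv_right (m := 1) (by norm_num)
  have b1 := (hf1.differentiableAt (by norm_num)).hasFDerivAt
  have a6 : HasFDerivAt (fun y => c • fderiv ℝ f y) _ x := b1.const_smul c
  rw [a6.fderiv]
  simp only [smul_apply, smul_eq_mul]

end general

section plane

theorem lap_plane (f : ℂ → ℝ) (z : ℂ) :
    (Δ f) z = fderiv ℝ (fderiv ℝ f) z 1 1 + fderiv ℝ (fderiv ℝ f) z Complex.I Complex.I := by
  rw [laplacian_eq_iteratedFDeriv_complexPlane]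
  simp [iteratedFDeriv_two_apply]

/-- squared norm of the gradient in the plane -/
noncomputable def gsq (f : ℂ → ℝ) (z : ℂ) : ℝ := (fderiv ℝ f z 1) ^ 2 + (fderiv ℝ f z Complex.I) ^ 2

theorem lap_comp_real {F : ℝ → ℝ} {g : ℂ → ℝ} {z : ℂ} (hF : ContDiffAt ℝ 2 F (g z))
    (hg : ContDiffAt ℝ 2 g z) :
    (Δ (fun y => F (g y))) z = deriv (deriv F) (g z) * gsq g z + deriv F (g z) * (Δ g) z := by
  rw [lap_plane, lap_plane, fderiv2_comp_real hF hg, fderiv2_comp_real hF hg, gsq]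
  ring

theorem lap_mul {f g : ℂ → ℝ} {z : ℂ} (hf : ContDiffAt ℝ 2 f z)
    (hg : ContDiffAt ℝ 2 g z) :
    (Δ (fun y => f y * g y)) z = f z * (Δ g) z +
      2 * (fderiv ℝ f z 1 * fderiv ℝ g z 1 + fderiv ℝ f z Complex.I * fderiv ℝ g z Complex.I) +
      g z * (Δ f) z := by
  rw [lap_plane, lap_plane, lap_plane, fderiv2_mul hf hg, fderiv2_mul hf hg]
  ring

theorem lap_add {f g : ℂ → ℝ} {z : ℂ} (hf : ContDiffAt ℝ 2 f z)
    (hg : ContDiffAt ℝ 2 g z) :
    (Δ (fun y => f y + g y)) z = (Δ f) z + (Δ g) z := by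
  rw [lap_plane, lap_plane, lap_plane, fderiv2_add hf hg, fderiv2_add hf hg]
  ring

theorem lap_const_mul {f : ℂ → ℝ} {z : ℂ} (c : ℝ) (hf : ContDiffAt ℝ 2 f z) :
    (Δ (fun y => c * f y)) z = c * (Δ f) z := by
  rw [lap_plane, lap_plane, fderiv2_const_mul c hf, fderiv2_const_mul c hf]
  ring

/-- real derivative of a holomorphic function as multiplication -/
theorem fderiv_real_of_deriv {w : ℂ → ℂ} {w' : ℂ} {z : ℂ} (h : HasDerivAt w w' z) :
    HasFDerivAt w ((ContinuousLinearMap.mul ℝ ℂ) w') z := by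
  have h1 := h.hasFDerivAt.restrictScalars ℝ
  refine h1.congr_fderiv ?_
  ext v
  simp [mul_comm]

/-- Laplacian of a composition with a holomorphic map. -/
theorem lap_comp_holo {h : ℂ → ℝ} {w w' : ℂ → ℂ} {z w'' : ℂ} (hw : ∀ᶠ y in 𝓝 z, HasDerivAt w (w' y) y)
    (hw' : HasDerivAt w' w'' z) (hh : ContDiffAt ℝ 2 h (w z)) :
    (Δ (fun y => h (w y))) z = ‖w' z‖ ^ 2 * (Δ h) (w z) := by
  have hwz : HasDerivAt w (w' z) z := hw.self_of_nhds
  have h1 : ∀ᶠ y in 𝓝 z, fderiv ℝ (fun y => h (w y)) y =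
      (fderiv ℝ h (w y)).comp ((ContinuousLinearMap.mul ℝ ℂ) (w' y)) := by
    have e1 : ∀ᶠ y in 𝓝 (w z), ContDiffAt ℝ 2 h y := hh.eventually (by simp)
    have e2 : ∀ᶠ y in 𝓝 z, ContDiffAt ℝ 2 h (w y) := hwz.continuousAt.eventually e1
    filter_upwards [e2, hw] with y hy1 hy2
    have a1 := (hy1.differentiableAt (by norm_num)).hasFDerivAt
    have a2 := fderiv_real_of_deriv hy2
    exact (a1.comp y a2).fderiv
  have hh1 : ContDiffAt ℝ 1 (fderiv ℝ h) (w z) := hh.fderiv_right (m := 1) (by norm_num)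
  have b1 := (hh1.differentiableAt (by norm_num)).hasFDerivAt
  have b2 := b1.comp z (fderiv_real_of_deriv hwz)
  have b3 : HasFDerivAt (fun y => (ContinuousLinearMap.mul ℝ ℂ) (w' y)) _ z :=
    ((ContinuousLinearMap.mul ℝ ℂ).hasFDerivAt).comp z (fderiv_real_of_deriv hw')
  have b4 : HasFDerivAt (fun y => (fderiv ℝ h (w y)).comp ((ContinuousLinearMap.mul ℝ ℂ) (w' y)))
    _ z := b2.clm_comp b3
  have key : ∀ v : ℂ, fderiv ℝ (fderiv ℝ (fun y => h (w y))) z v v =
      fderiv ℝ (fderiv ℝ h) (w z) (w' z * v) (w' z * v) + fderiv ℝ h (w z) (w'' * v * v) := by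
    intro v
    rw [Filter.EventuallyEq.fderiv_eq h1, b4.fderiv]
    simp only [add_apply, ContinuousLinearMap.comp_apply,
      ContinuousLinearMap.compL_apply, ContinuousLinearMap.flip_apply, Function.comp,
      ContinuousLinearMap.mul_apply']
    ring
  rw [lap_plane, lap_plane, key, key]
  have hI : w'' * Complex.I * Complex.I = -(w'' * 1 * 1) := by
    rw [mul_assoc, Complex.I_mul_I]; ring
  rw [hI, map_neg]
  set B := fderiv ℝ (fderiv ℝ h) (w z) with hB
  have hsym : B 1 Complex.I = B Complex.I 1 := by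
    have : IsSymmSndFDerivAt ℝ h (w z) := by
      apply ContDiffAt.isSymmSndFDerivAt (n := 2) hh
      simp
    exact this 1 Complex.I
  set a := (w' z).re with ha
  set b := (w' z).im with hb
  have e1 : w' z * 1 = a • (1 : ℂ) + b • Complex.I := by
    apply Complex.ext <;> simp [ha, hb]
  have e2 : w' z * Complex.I = (-b) • (1 : ℂ) + a • Complex.I := by
    apply Complex.ext <;> simp [ha, hb]
  have e3 : ‖w' z‖ ^ 2 = a ^ 2 + b ^ 2 := by
    rw [← Complex.normSq_eq_norm_sq, Complex.normSq_apply]; ring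
  rw [e1, e2, e3]
  simp only [map_add, map_smul, add_apply, smul_apply, smul_eq_mul]
  rw [hsym]
  ring

end plane

end Q61
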