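import Pool.Agent.Q61.FB2
import Pool.Agent.Q61.Lap

set_option autoImplicit false

open Topology Filter Set Complex

namespace Q61.FB

open Classical in
/-- the inverse conformal map on `A` -/
noncomputable def Z (z : ℂ) : ℂ := if h : z ∈ A then Classical.choose (A_subset h) else 0

theorem Z_spec {z : ℂ} (h : z ∈ A) : Z z ∈ Hup ∧ φ (Z z) = z := by
  unfold Z
  rw [dif_pos h]
  exact Classical.choose_spec (A_subset h)

theorem Z_lip {z w : ℂ} (hz : z ∈ A) (hw : w ∈ A) : ‖Z z - Z w‖ ≤ ‖z - w‖ / 2 := by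
  have h1 := φ_lower (Hup_sub (Z_spec hw).1) (Hup_sub (Z_spec hz).1) (Or.inl (Z_spec hw).1.1)
  rw [(Z_spec hz).2, (Z_spec hw).2] at h1
  linarith

theorem Z_bdry {z : ℂ} (hz : z ∈ A) {y : ℝ} (hy : |y| ≤ 2) :
    ‖Z z - ((-G y : ℝ) : ℂ)‖ ≤ ‖z - ⟨Γ y, y⟩‖ / 2 := by
  have hs : |(-G y)| ≤ 2 := by rw [abs_neg]; exact (G_small hy).trans (by norm_num)
  have h1 := φ_lower (real_mem_Hcl hs) (Hup_sub (Z_spec hz).1) (Or.inr (Z_spec hz).1.1)
  rw [(Z_spec hz).2, bdry_param hy] at h1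
  linarith

theorem Z_cont {z : ℂ} (hz : z ∈ A) : ContinuousAt Z z := by
  rw [Metric.continuousAt_iff]
  intro ε hε
  obtain ⟨r, hr, hr2⟩ := Metric.isOpen_iff.1 A_open z hz
  refine ⟨min r ε, lt_min hr hε, fun {w} hw => ?_⟩
  have h1 := Z_lip (hr2 (lt_of_lt_of_le hw (min_le_left _ _))) hz
  rw [dist_eq_norm]
  rw [dist_eq_norm] at hw
  have h2 := lt_of_lt_of_le hw (min_le_right r ε)
  have := norm_nonneg (w - z)
  linarith

theorem Z_deriv {z : ℂ} (hz : z ∈ A) : HasDerivAt Z (φd (Z z))⁻¹ z := by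
  apply HasDerivAt.of_local_left_inverse (Z_cont hz) (φ_deriv (Z_spec hz).1.1)
    (φd_ne_zero (Z_spec hz).1.2.le)
  filter_upwards [A_open.mem_nhds hz] with w hw
  exact (Z_spec hw).2

theorem Z_norm {z : ℂ} (hz : z ∈ A) : ‖Z z‖ ≤ 2 := (Z_spec hz).1.2.le

/-! ### the solution -/

/-- the polynomial expression of the solution -/
noncomputable def Ψ (z ζ : ℂ) : ℝ :=
  z.re ^ 3 / 6 - c ^ 2 / 6 * (ζ ^ 2 * z).re + c ^ 2 / 9 * (ζ ^ 3).im

theorem Ψ_cont : Continuous (fun p : ℂ × ℂ => Ψ p.1 p.2) := by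
  unfold Ψ; fun_prop

open Classical in
/-- the solution -/
noncomputable def u (z : ℂ) : ℝ := if z ∈ D then Ψ z (Z z) else 0

/-- the complex gradient in `D` -/
noncomputable def q (z : ℂ) : ℂ := ((z.re ^ 2 / 2 : ℝ) : ℂ) - (c ^ 2 / 2 : ℝ) * Z z ^ 2

open Classical in
/-- the complex gradient `u_x - i u_y` -/
noncomputable def Q (z : ℂ) : ℂ := if z ∈ D then q z else 0

/-- the real linear form `v ↦ Re (q v)` -/
noncomputable def L : ℂ →L[ℝ] (ℂ →L[ℝ] ℝ) :=
  (ContinuousLinearMap.compL ℝ ℂ ℂ ℝ Complex.reCLM).comp (ContinuousLinearMap.mul ℝ ℂ)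

theorem L_apply (q v : ℂ) : L q v = (q * v).re := rfl

theorem L_norm (q : ℂ) : ‖L q‖ ≤ ‖q‖ := by
  apply ContinuousLinearMap.opNorm_le_bound _ (norm_nonneg _)
  intro v
  rw [L_apply, ← norm_mul]
  exact Complex.abs_re_le_norm _

theorem u_deriv_A {z : ℂ} (hz : z ∈ A) : HasFDerivAt u (L (q z)) z := by
  have h1 : HasDerivAt (fun z => -((c:ℂ) ^ 2 / 6) * (Z z ^ 2 * z) - ((c:ℂ) ^ 2 / 9) * (I * Z z ^ 3))
      (-((c:ℂ) ^ 2 / 2) * Z z ^ 2) z := by
    have hZ := Z_deriv hz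
    have a1 := ((hZ.pow 2).mul (hasDerivAt_id z)).const_mul (-((c:ℂ) ^ 2 / 6))
    have a2 := ((hZ.pow 3).const_mul I).const_mul ((c:ℂ) ^ 2 / 9)
    have a3 := a1.sub a2
    refine a3.congr_deriv ?_
    have hd := φd_ne_zero (Z_norm hz)
    have hzz : z = Z z * (φd (Z z) - I) := by
      conv_lhs => rw [← (Z_spec hz).2]
      unfold φ φd
      ring
    simp only [id, Pi.pow_apply]
    set ζ := Z z with hζ
    set d := φd ζ with hdd
    rw [hzz]
    field_simp
    ring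
  have h2 := h1.hasFDerivAt.restrictScalars ℝ
  have h3 := Complex.reCLM.hasFDerivAt.comp z h2
  have h4 : HasFDerivAt (fun z : ℂ => z.re ^ 3 / 6) ((z.re ^ 2 / 2) • Complex.reCLM) z := by
    have := (Complex.reCLM.hasFDerivAt (x := z)).pow 3
    have h5 := this.mul_const (1 / 6 : ℝ)
    have h6 : (fun z : ℂ => z.re ^ 3 / 6) = fun z : ℂ => (Complex.reCLM z) ^ 3 * (1 / 6 : ℝ) := by
      funext z; simp; ring
    rw [h6]
    refine h5.congr_fderiv ?_
    ext v
    simp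
    ring
  have h5 := h4.add h3
  have h6 : HasFDerivAt (fun z => Ψ z (Z z)) (L (q z)) z := by
    refine (h5.congr_fderiv ?_).congr_of_eventuallyEq ?_
    · ext v
      have e1 : (L (q z)) v = z.re ^ 2 / 2 * v.re + (-((c:ℂ) ^ 2 / 2) * Z z ^ 2 * v).re := by
        rw [L_apply, q, sub_mul, Complex.sub_re, Complex.re_ofReal_mul]
        have : -((c:ℂ) ^ 2 / 2) * Z z ^ 2 * v = -(((c ^ 2 / 2 : ℝ) : ℂ) * Z z ^ 2 * v) := by
          push_cast; ring
        rw [this, Complex.neg_re]; ring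
      rw [e1]
      simp only [add_apply, smul_apply, ContinuousLinearMap.comp_apply,
        Complex.reCLM_apply, smul_eq_mul, ContinuousLinearMap.coe_restrictScalars',
        ContinuousLinearMap.toSpanSingleton_apply]
      rw [mul_comm v]
    · filter_upwards with w
      simp only [Ψ, Function.comp, Pi.add_apply, Complex.reCLM_apply]
      have e1 : (-((c:ℂ) ^ 2 / 6) * (Z w ^ 2 * w)).re = -(c ^ 2 / 6) * (Z w ^ 2 * w).re := by
        have : (-((c:ℂ) ^ 2 / 6)) = ((-(c ^ 2 / 6) : ℝ) : ℂ) := by push_cast; ring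
        rw [this, Complex.re_ofReal_mul]
      have e2 : (((c:ℂ) ^ 2 / 9) * (I * Z w ^ 3)).re = -(c ^ 2 / 9) * (Z w ^ 3).im := by
        have : ((c:ℂ) ^ 2 / 9) = ((c ^ 2 / 9 : ℝ) : ℂ) := by push_cast; ring
        rw [this, Complex.re_ofReal_mul, Complex.I_mul_re]; ring
      rw [Complex.sub_re, e1, e2]
      ring
  refine h6.congr_of_eventuallyEq ?_
  filter_upwards [A_open.mem_nhds hz] with w hw
  unfold u
  rw [if_pos hw.1]

theorem Ψ_bdry {y : ℝ} (_hy : |y| ≤ 2) : Ψ ⟨Γ y, y⟩ ((-G y : ℝ) : ℂ) = 0 := by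
  unfold Ψ
  have e1 : (((-G y : ℝ) : ℂ) ^ 2 * (⟨Γ y, y⟩ : ℂ)).re = (G y) ^ 2 * Γ y := by
    have : ((-G y : ℝ) : ℂ) ^ 2 = (((G y) ^ 2 : ℝ) : ℂ) := by push_cast; ring
    rw [this, Complex.re_ofReal_mul]
  have e2 : (((-G y : ℝ) : ℂ) ^ 3).im = 0 := by
    rw [← Complex.ofReal_pow, Complex.ofReal_im]
  rw [e1, e2]
  unfold Γ
  simp only
  have h1 : |G y| ^ 3 = (G y) ^ 2 * |G y| := by
    rw [pow_succ, sq_abs]
  have : (c * |G y|) ^ 3 = c ^ 3 * ((G y) ^ 2 * |G y|) := by rw [mul_pow, h1]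
  rw [this]
  ring

/-- the Lipschitz constant -/
noncomputable def Lc : ℝ := 2 + c ^ 2

theorem Lc_pos : 0 < Lc := by unfold Lc; positivity

theorem q_diff {z w : ℂ} (hz : z ∈ A) (hw : w ∈ A) : ‖q z - q w‖ ≤ Lc * ‖z - w‖ := by
  have hz2 : |z.re| ≤ 2 := (Complex.abs_re_le_norm z).trans (by
    have := hz.2; rw [Metric.mem_ball, dist_zero_right] at this; exact this.le)
  have hw2 : |w.re| ≤ 2 := (Complex.abs_re_le_norm w).trans (by
    have := hw.2; rw [Metric.mem_ball, dist_zero_right] at this; exact this.le)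
  have e : q z - q w = (((z.re - w.re) * (z.re + w.re) / 2 : ℝ) : ℂ) -
      (c ^ 2 / 2 : ℝ) * ((Z z - Z w) * (Z z + Z w)) := by
    unfold q; push_cast; ring
  rw [e]
  refine (norm_sub_le _ _).trans ?_
  have h1 : ‖(((z.re - w.re) * (z.re + w.re) / 2 : ℝ) : ℂ)‖ ≤ 2 * ‖z - w‖ := by
    rw [Complex.norm_real, Real.norm_eq_abs, abs_div, abs_mul]
    have a1 : |z.re - w.re| ≤ ‖z - w‖ := by
      rw [← Complex.sub_re]; exact Complex.abs_re_le_norm _
    have a2 : |z.re + w.re| ≤ 4 := (abs_add_le _ _).trans (by linarith)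
    have a3 := mul_le_mul a1 a2 (abs_nonneg _) (norm_nonneg _)
    rw [abs_of_pos (by norm_num : (0:ℝ) < 2)]
    linarith
  have h2 : ‖((c ^ 2 / 2 : ℝ) : ℂ) * ((Z z - Z w) * (Z z + Z w))‖ ≤ c ^ 2 * ‖z - w‖ := by
    rw [norm_mul, norm_mul, Complex.norm_real, Real.norm_of_nonneg (by positivity)]
    have a1 := Z_lip hz hw
    have a2 : ‖Z z + Z w‖ ≤ 4 := (norm_add_le _ _).trans (by linarith [Z_norm hz, Z_norm hw])
    have a3 := mul_le_mul a1 a2 (norm_nonneg _) (by positivity)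
    have a4 := mul_le_mul_of_nonneg_left a3 (by positivity : 0 ≤ c ^ 2 / 2)
    linarith
  unfold Lc
  linarith

theorem q_bdry {z : ℂ} (hz : z ∈ A) {y : ℝ} (hy : ‖(⟨Γ y, y⟩ : ℂ)‖ ≤ 2) :
    ‖q z‖ ≤ Lc * ‖z - ⟨Γ y, y⟩‖ := by
  have hz2 : |z.re| ≤ 2 := (Complex.abs_re_le_norm z).trans (by
    have := hz.2; rw [Metric.mem_ball, dist_zero_right] at this; exact this.le)
  have hy1 : |y| ≤ 2 := (Complex.abs_im_le_norm (⟨Γ y, y⟩ : ℂ)).trans hy
  have hy2 : |Γ y| ≤ 2 := (Complex.abs_re_le_norm (⟨Γ y, y⟩ : ℂ)).trans hy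
  set s : ℝ := -G y with hs
  have hΓ : Γ y ^ 2 = c ^ 2 * s ^ 2 := by
    unfold Γ; rw [mul_pow, sq_abs, hs]; ring
  have e : q z = (((z.re - Γ y) * (z.re + Γ y) / 2 : ℝ) : ℂ) -
      (c ^ 2 / 2 : ℝ) * ((Z z - (s : ℂ)) * (Z z + (s : ℂ))) := by
    have h0 : ((Γ y ^ 2 : ℝ) : ℂ) = ((c ^ 2 * s ^ 2 : ℝ) : ℂ) := by rw [hΓ]
    unfold q; push_cast at h0 ⊢
    linear_combination (1/2 : ℂ) * h0
  rw [e]
  refine (norm_sub_le _ _).trans ?_
  have h1 : ‖(((z.re - Γ y) * (z.re + Γ y) / 2 : ℝ) : ℂ)‖ ≤ 2 * ‖z - ⟨Γ y, y⟩‖ := by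
    rw [Complex.norm_real, Real.norm_eq_abs, abs_div, abs_mul]
    have a1 : |z.re - Γ y| ≤ ‖z - ⟨Γ y, y⟩‖ := by
      have : z.re - Γ y = (z - ⟨Γ y, y⟩).re := by simp
      rw [this]; exact Complex.abs_re_le_norm _
    have a2 : |z.re + Γ y| ≤ 4 := (abs_add_le _ _).trans (by linarith)
    have a3 := mul_le_mul a1 a2 (abs_nonneg _) (norm_nonneg _)
    rw [abs_of_pos (by norm_num : (0:ℝ) < 2)]
    linarith
  have h2 : ‖((c ^ 2 / 2 : ℝ) : ℂ) * ((Z z - (s : ℂ)) * (Z z + (s : ℂ)))‖ ≤ c ^ 2 * ‖z - ⟨Γ y, y⟩‖ := by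
    rw [norm_mul, norm_mul, Complex.norm_real, Real.norm_of_nonneg (by positivity)]
    have a1 := Z_bdry hz hy1
    have a2 : ‖Z z + (s : ℂ)‖ ≤ 4 := by
      refine (norm_add_le _ _).trans ?_
      have b1 := Z_norm hz
      have b2 : ‖(s : ℂ)‖ ≤ 1 := by
        rw [Complex.norm_real, Real.norm_eq_abs, hs, abs_neg]; exact G_small hy1
      linarith
    have a3 := mul_le_mul a1 a2 (norm_nonneg _) (by positivity)
    have a4 := mul_le_mul_of_nonneg_left a3 (by positivity : 0 ≤ c ^ 2 / 2)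
    linarith
  unfold Lc
  linarith

/-- points on the boundary curve in the open ball belong to the closure of `A` -/
theorem seg_mem {z : ℂ} (hz : z ∈ A) {w : ℂ} (hw : Γ w.im = w.re) (hwn : ‖w‖ < 2) {τ : ℝ}
    (h0 : 0 < τ) (h1 : τ ≤ 1) : w + τ • (z - w) ∈ A := by
  have hcl : w ∈ closure A := by
    rw [Metric.mem_closure_iff]
    intro ε hε
    set η : ℝ := min (ε / 2) ((2 - ‖w‖) / 2) with hη
    have hη0 : 0 < η := lt_min (by positivity) (by linarith)
    refine ⟨w + (η : ℂ), ⟨?_, ?_⟩, ?_⟩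
    · show Γ (w + (η : ℂ)).im < (w + (η : ℂ)).re
      simp only [Complex.add_im, Complex.ofReal_im, add_zero, Complex.add_re, Complex.ofReal_re]
      rw [hw]; linarith
    · rw [Metric.mem_ball, dist_zero_right]
      refine (norm_add_le _ _).trans_lt ?_
      rw [Complex.norm_real, Real.norm_of_nonneg hη0.le]
      have := min_le_right (ε / 2) ((2 - ‖w‖) / 2)
      linarith
    · rw [dist_eq_norm]
      have : w - (w + (η : ℂ)) = -(η : ℂ) := by ring
      rw [this, norm_neg, Complex.norm_real, Real.norm_of_nonneg hη0.le]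
      have := min_le_left (ε / 2) ((2 - ‖w‖) / 2)
      linarith
  have hint : z ∈ interior A := by rw [A_open.interior_eq]; exact hz
  rcases lt_or_eq_of_le h1 with h | h
  · have h2 := A_convex.openSegment_closure_interior_subset_interior hcl hint
    rw [A_open.interior_eq] at h2
    apply h2
    rw [openSegment_eq_image']
    exact ⟨τ, ⟨h0, h⟩, rfl⟩
  · rw [h, one_smul]
    have : w + (z - w) = z := by ring
    rw [this]; exact hz

theorem u_quad {z : ℂ} (hz : z ∈ A) {w : ℂ} (hw : Γ w.im = w.re) (hwn : ‖w‖ < 2) :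
    |u z| ≤ Lc * ‖z - w‖ ^ 2 := by
  have hw' : (⟨Γ w.im, w.im⟩ : ℂ) = w := Complex.ext hw rfl
  have him : |w.im| ≤ 2 := (Complex.abs_im_le_norm w).trans hwn.le
  -- limit along the segment
  have hlim : Tendsto (fun τ : ℝ => u (w + τ • (z - w))) (𝓝[>] 0) (𝓝 0) := by
    have h1 : Tendsto (fun τ : ℝ => w + τ • (z - w)) (𝓝[>] 0) (𝓝 w) := by
      have hc : Continuous (fun τ : ℝ => w + τ • (z - w)) := by fun_prop
      have := hc.tendsto 0
      simp only [zero_smul, add_zero] at this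
      exact this.mono_left nhdsWithin_le_nhds
    have hIoc : ∀ᶠ τ : ℝ in 𝓝[>] 0, τ ∈ Ioc (0:ℝ) 1 := Ioc_mem_nhdsGT (by norm_num)
    have h2 : Tendsto (fun τ : ℝ => Z (w + τ • (z - w))) (𝓝[>] 0) (𝓝 ((-G w.im : ℝ) : ℂ)) := by
      rw [tendsto_iff_norm_sub_tendsto_zero]
      have h3 := (tendsto_iff_norm_sub_tendsto_zero.1 h1).div_const 2
      rw [zero_div] at h3
      refine squeeze_zero' (Eventually.of_forall fun _ => norm_nonneg _) ?_ h3
      filter_upwards [hIoc] with τ hτ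
      have := Z_bdry (seg_mem hz hw hwn hτ.1 hτ.2) him
      rwa [hw'] at this
    have h3 := (Ψ_cont.tendsto (w, ((-G w.im : ℝ) : ℂ))).comp (h1.prodMk_nhds h2)
    have h4 := Ψ_bdry him
    rw [hw'] at h4
    simp only [h4] at h3
    refine h3.congr' ?_
    filter_upwards [hIoc] with τ hτ
    simp only [Function.comp]
    unfold u
    rw [if_pos (seg_mem hz hw hwn hτ.1 hτ.2).1]
  -- mean value inequality
  have hmv : ∀ τ ∈ Ioc (0:ℝ) 1, |u z - u (w + τ • (z - w))| ≤ Lc * ‖z - w‖ ^ 2 := by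
    intro τ hτ
    set S : Set ℂ := A ∩ Metric.closedBall w ‖z - w‖ with hS
    have hconv : Convex ℝ S := A_convex.inter (convex_closedBall _ _)
    have m1 : w + τ • (z - w) ∈ S := by
      refine ⟨seg_mem hz hw hwn hτ.1 hτ.2, ?_⟩
      rw [Metric.mem_closedBall, dist_eq_norm, add_sub_cancel_left, norm_smul,
        Real.norm_of_nonneg hτ.1.le]
      have := norm_nonneg (z - w)
      nlinarith [hτ.2]
    have m2 : z ∈ S := ⟨hz, by rw [Metric.mem_closedBall, dist_eq_norm]⟩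
    have hb := hconv.norm_image_sub_le_of_norm_hasFDerivWithin_le (f := u)
      (f' := fun z => L (q z)) (C := Lc * ‖z - w‖)
      (fun x hx => (u_deriv_A hx.1).hasFDerivWithinAt) (fun x hx => by
        refine (L_norm _).trans ?_
        have h5 := q_bdry hx.1 (y := w.im) (by rw [hw']; exact hwn.le)
        rw [hw'] at h5
        refine h5.trans ?_
        have h6 := hx.2
        rw [Metric.mem_closedBall, dist_eq_norm] at h6
        exact mul_le_mul_of_nonneg_left h6 Lc_pos.le) m1 m2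
    rw [Real.norm_eq_abs] at hb
    refine hb.trans ?_
    have e : z - (w + τ • (z - w)) = (1 - τ) • (z - w) := by
      rw [sub_smul, one_smul]; ring
    rw [e, norm_smul, Real.norm_of_nonneg (by linarith [hτ.2])]
    have h7 := norm_nonneg (z - w)
    have h8 : 0 ≤ Lc * ‖z - w‖ * ‖z - w‖ := by have := Lc_pos; positivity
    have h9 := hτ.1
    calc Lc * ‖z - w‖ * ((1 - τ) * ‖z - w‖) = (1 - τ) * (Lc * ‖z - w‖ * ‖z - w‖) := by ring
      _ ≤ 1 * (Lc * ‖z - w‖ * ‖z - w‖) := by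
          apply mul_le_mul_of_nonneg_right _ h8; linarith
      _ = Lc * ‖z - w‖ ^ 2 := by ring
  have hlim2 : Tendsto (fun τ : ℝ => |u z - u (w + τ • (z - w))|) (𝓝[>] 0) (𝓝 |u z - 0|) :=
    (tendsto_const_nhds.sub hlim).abs
  rw [sub_zero] at hlim2
  apply le_of_tendsto hlim2
  filter_upwards [Ioc_mem_nhdsGT (by norm_num : (0:ℝ) < 1)] with τ hτ
  exact hmv τ hτ

theorem u_deriv_bdry {w : ℂ} (hw : Γ w.im = w.re) (hwn : ‖w‖ < 2) : HasFDerivAt u (0 : ℂ →L[ℝ] ℝ) w := by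
  have hu0 : u w = 0 := by
    unfold u
    rw [if_neg]
    intro h
    have : Γ w.im < w.re := h
    linarith
  rw [hasFDerivAt_iff_isLittleO]
  rw [Asymptotics.isLittleO_iff]
  intro ε hε
  have h1 : ∀ᶠ z in 𝓝 w, ‖z‖ < 2 := (continuous_norm.continuousAt).eventually (gt_mem_nhds hwn)
  have h2 : ∀ᶠ z in 𝓝 w, ‖z - w‖ < ε / Lc := by
    have : Metric.ball w (ε / Lc) ∈ 𝓝 w := Metric.ball_mem_nhds _ (by have := Lc_pos; positivity)
    filter_upwards [this] with z hz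
    rwa [Metric.mem_ball, dist_eq_norm] at hz
  filter_upwards [h1, h2] with z hz1 hz2
  rw [hu0, sub_zero, zero_apply, sub_zero, Real.norm_eq_abs]
  by_cases hD : z ∈ D
  · have h3 := u_quad (z := z) ⟨hD, by rw [Metric.mem_ball, dist_zero_right]; exact hz1⟩ hw hwn
    refine h3.trans ?_
    rw [lt_div_iff₀ Lc_pos] at hz2
    have := norm_nonneg (z - w)
    nlinarith
  · unfold u
    rw [if_neg hD, abs_zero]
    positivity

theorem u_deriv {z : ℂ} (hz : ‖z‖ < 2) : HasFDerivAt u (L (Q z)) z := by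
  rcases lt_trichotomy (Γ z.im) z.re with h | h | h
  · have hD : z ∈ D := h
    unfold Q
    rw [if_pos hD]
    exact u_deriv_A ⟨hD, by rw [Metric.mem_ball, dist_zero_right]; exact hz⟩
  · have hD : z ∉ D := fun h' => by have : Γ z.im < z.re := h'; linarith
    unfold Q
    rw [if_neg hD, map_zero]
    exact u_deriv_bdry h hz
  · have hD : z ∉ D := fun h' => by have : Γ z.im < z.re := h'; linarith
    unfold Q
    rw [if_neg hD, map_zero]
    have hev : ∀ᶠ w in 𝓝 z, u w = 0 := by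
      have ho : IsOpen {w : ℂ | w.re < Γ w.im} :=
        isOpen_lt Complex.continuous_re (Γ_cont.comp Complex.continuous_im)
      filter_upwards [ho.mem_nhds h] with w hw
      unfold u
      rw [if_neg]
      intro h'
      have h1 : Γ w.im < w.re := h'
      have h2 : w.re < Γ w.im := hw
      linarith
    exact (hasFDerivAt_const (0:ℝ) z).congr_of_eventuallyEq hev

theorem Q_lip {z w : ℂ} (hz : ‖z‖ < 2) (hw : ‖w‖ < 2) : ‖Q z - Q w‖ ≤ Lc * ‖z - w‖ := by
  have main : ∀ {z w : ℂ}, ‖z‖ < 2 → ‖w‖ < 2 → z ∈ D → w ∉ D → ‖Q z‖ ≤ Lc * ‖z - w‖ := by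
    intro z w hz hw hzD hwD
    -- a boundary point on the segment
    have hc : Continuous (fun τ : ℝ => (w + τ • (z - w)).re - Γ (w + τ • (z - w)).im) := by
      apply Continuous.sub
      · exact Complex.continuous_re.comp (by fun_prop)
      · exact Γ_cont.comp (Complex.continuous_im.comp (by fun_prop))
    have h0 : (w + (0:ℝ) • (z - w)).re - Γ (w + (0:ℝ) • (z - w)).im ≤ 0 := by
      rw [zero_smul, add_zero]
      have : ¬ (Γ w.im < w.re) := hwD
      linarith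
    have h1 : 0 ≤ (w + (1:ℝ) • (z - w)).re - Γ (w + (1:ℝ) • (z - w)).im := by
      rw [one_smul]
      have e : w + (z - w) = z := by ring
      rw [e]
      have : Γ z.im < z.re := hzD
      linarith
    obtain ⟨τ, hτ, hτ2⟩ := intermediate_value_Icc (zero_le_one) hc.continuousOn ⟨h0, h1⟩
    simp only at hτ2
    set p := w + τ • (z - w) with hp
    have hp1 : Γ p.im = p.re := by linarith
    have hpn : ‖p‖ < 2 := by
      have hb : Convex ℝ (Metric.ball (0:ℂ) 2) := convex_ball _ _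
      have : p ∈ Metric.ball (0:ℂ) 2 := by
        have e : p = (1 - τ) • w + τ • z := by rw [hp, sub_smul, one_smul, smul_sub]; ring
        rw [e]
        exact hb (by simpa using hw) (by simpa using hz) (by linarith [hτ.2]) hτ.1 (by ring)
      simpa using this
    have hp' : (⟨Γ p.im, p.im⟩ : ℂ) = p := Complex.ext hp1 rfl
    have h3 := q_bdry (z := z) ⟨hzD, by rw [Metric.mem_ball, dist_zero_right]; exact hz⟩
      (y := p.im) (by rw [hp']; exact hpn.le)
    rw [hp'] at h3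
    unfold Q
    rw [if_pos hzD]
    refine h3.trans (mul_le_mul_of_nonneg_left ?_ Lc_pos.le)
    have e : z - p = (1 - τ) • (z - w) := by rw [hp, sub_smul, one_smul]; ring
    rw [e, norm_smul, Real.norm_of_nonneg (by linarith [hτ.2])]
    have h7 := norm_nonneg (z - w)
    have h9 := hτ.1
    nlinarith
  by_cases hzD : z ∈ D <;> by_cases hwD : w ∈ D
  · unfold Q
    rw [if_pos hzD, if_pos hwD]
    exact q_diff ⟨hzD, by simpa using hz⟩ ⟨hwD, by simpa using hw⟩
  · have e : Q w = 0 := by unfold Q; rw [if_neg hwD]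
    rw [e, sub_zero]
    exact main hz hw hzD hwD
  · have e : Q z = 0 := by unfold Q; rw [if_neg hzD]
    rw [e, zero_sub, norm_neg, norm_sub_rev]
    exact main hw hz hwD hzD
  · unfold Q
    rw [if_neg hzD, if_neg hwD]
    simp
    have := Lc_pos
    positivity

theorem fderiv_u {z : ℂ} (hz : ‖z‖ < 2) : fderiv ℝ u z = L (Q z) := (u_deriv hz).fderiv

open InnerProductSpace Laplacian in
theorem lap_u {z : ℂ} (hz : z ∈ A) : DifferentiableAt ℝ (fderiv ℝ u) z ∧ (Δ u) z = z.re := by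
  have hev : fderiv ℝ u =ᶠ[𝓝 z] fun w => L (q w) := by
    filter_upwards [A_open.mem_nhds hz] with w hw
    exact (u_deriv_A hw).fderiv
  have hZ : HasFDerivAt Z ((ContinuousLinearMap.mul ℝ ℂ) (φd (Z z))⁻¹) z :=
    Q61.fderiv_real_of_deriv (Z_deriv hz)
  have h1 : HasFDerivAt (fun w : ℂ => ((w.re ^ 2 / 2 : ℝ) : ℂ))
      (z.re • (Complex.ofRealCLM.comp Complex.reCLM)) z := by
    have a1 := (Complex.reCLM.hasFDerivAt (x := z)).pow 2
    have a2 := a1.mul_const (1 / 2 : ℝ)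
    have a3 := Complex.ofRealCLM.hasFDerivAt.comp z a2
    have h6 : (fun w : ℂ => ((w.re ^ 2 / 2 : ℝ) : ℂ)) =
        Complex.ofRealCLM ∘ fun w : ℂ => (Complex.reCLM w) ^ 2 * (1 / 2 : ℝ) := by
      funext z; simp; ring
    rw [h6]
    refine a3.congr_fderiv ?_
    ext v
    simp
    ring
  have h2 : HasFDerivAt (fun w : ℂ => ((c ^ 2 / 2 : ℝ) : ℂ) * Z w ^ 2)
      ((ContinuousLinearMap.mul ℝ ℂ) (((c ^ 2 : ℝ) : ℂ) * (Z z * (φd (Z z))⁻¹))) z := by
    apply Q61.fderiv_real_of_deriv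
    have := ((Z_deriv hz).pow 2).const_mul ((c ^ 2 / 2 : ℝ) : ℂ)
    refine this.congr_deriv ?_
    push_cast
    ring
  have h3 : HasFDerivAt q _ z := h1.sub h2
  have h4 : HasFDerivAt (fun w => L (q w)) _ z := L.hasFDerivAt.comp z h3
  constructor
  · exact (h4.differentiableAt).congr_of_eventuallyEq hev
  · rw [Q61.lap_plane, Filter.EventuallyEq.fderiv_eq hev, h4.fderiv]
    simp only [ContinuousLinearMap.comp_apply, L_apply, sub_apply, smul_apply,
      ContinuousLinearMap.mul_apply', Complex.reCLM_apply, Complex.ofRealCLM_apply, Complex.one_re,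
      Complex.I_re, Complex.ofReal_one, Complex.ofReal_zero, Complex.real_smul, mul_one, mul_zero,
      zero_sub]
    have e : (-(((c ^ 2 : ℝ) : ℂ) * (Z z * (φd (Z z))⁻¹) * I) * I).re =
        (((c ^ 2 : ℝ) : ℂ) * (Z z * (φd (Z z))⁻¹)).re := by
      have : -(((c ^ 2 : ℝ) : ℂ) * (Z z * (φd (Z z))⁻¹) * I) * I =
          ((c ^ 2 : ℝ) : ℂ) * (Z z * (φd (Z z))⁻¹) := by
        linear_combination (-(((c ^ 2 : ℝ) : ℂ) * (Z z * (φd (Z z))⁻¹))) * Complex.I_mul_I
      rw [this]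
    rw [e, Complex.sub_re, Complex.ofReal_re]
    ring

end Q61.FB
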