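import Pool.Agent.Q61.Lap

set_option autoImplicit false

open MeasureTheory InnerProductSpace Laplacian Topology Filter Set

namespace Q61

section general

variable {E : Type*} [NormedAddCommGroup E] [NormedSpace ℝ E]

theorem continuous_mul_of_tsupport {F : Type*} [NormedAddCommGroup F] [NormedSpace ℝ F]
    {g : E → ℝ} {φ : E → F} (hg : ∀ x ∈ tsupport φ, ContinuousAt g x) (hφ : Continuous φ) :
    Continuous (fun x => g x • φ x) := by
  rw [continuous_iff_continuousAt]
  intro x
  by_cases hx : x ∈ tsupport φ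
  · exact (hg x hx).smul hφ.continuousAt
  · have h1 : ∀ᶠ y in 𝓝 x, g y • φ y = 0 := by
      have : (tsupport φ)ᶜ ∈ 𝓝 x := (isClosed_tsupport φ).isOpen_compl.mem_nhds hx
      filter_upwards [this] with y hy
      rw [image_eq_zero_of_notMem_tsupport hy, smul_zero]
    have h2 : g x • φ x = 0 := by rw [image_eq_zero_of_notMem_tsupport hx, smul_zero]
    exact (continuousAt_const (y := (0:F))).congr (by
      filter_upwards [h1] with y hy
      exact hy.symm)

variable [FiniteDimensional ℝ E] [MeasurableSpace E] [BorelSpace E] {μ : Measure E}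
  [μ.IsAddHaarMeasure]

theorem integrable_mul_of_tsupport {g φ : E → ℝ} (hg : ∀ x ∈ tsupport φ, ContinuousAt g x)
    (hφ : Continuous φ) (hc : HasCompactSupport φ) :
    Integrable (fun x => g x * φ x) μ := by
  apply Continuous.integrable_of_hasCompactSupport
  · exact continuous_mul_of_tsupport hg hφ
  · exact hc.mul_left

theorem tsupport_fderiv_apply_subset {φ : E → ℝ} (v : E) :
    tsupport (fun x => fderiv ℝ φ x v) ⊆ tsupport φ := by
  apply closure_minimal _ (isClosed_tsupport φ)
  intro x hx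
  by_contra h
  apply hx
  have : fderiv ℝ φ x = 0 := by
    have h2 : x ∉ tsupport (fderiv ℝ φ) := fun h3 => h (tsupport_fderiv_subset ℝ h3)
    exact image_eq_zero_of_notMem_tsupport h2
  simp [this]

/-- Green's second identity in one direction. -/
theorem integral_mul_fderiv2 {f φ : E → ℝ} (hf : ∀ x ∈ tsupport φ, ContDiffAt ℝ 2 f x)
    (hφ : ContDiff ℝ 2 φ) (hc : HasCompactSupport φ) (v : E) :
    ∫ x, f x * fderiv ℝ (fderiv ℝ φ) x v v ∂μ = ∫ x, fderiv ℝ (fderiv ℝ f) x v v * φ x ∂μ := by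
  have hφ1 : ContDiff ℝ 1 (fderiv ℝ φ) := hφ.fderiv_right (m := 1) (by norm_num)
  have hψ : ContDiff ℝ 1 (fun x => fderiv ℝ φ x v) := hφ1.clm_apply contDiff_const
  have hψc : HasCompactSupport (fun x => fderiv ℝ φ x v) := hc.fderiv_apply (𝕜 := ℝ) (v := v)
  have hD : ∀ x, fderiv ℝ (fun x => fderiv ℝ φ x v) x v = fderiv ℝ (fderiv ℝ φ) x v v := by
    intro x
    have h1 : HasFDerivAt (fderiv ℝ φ) (fderiv ℝ (fderiv ℝ φ) x) x :=
      (hφ1.differentiable (by norm_num) x).hasFDerivAt
    have h2 := h1.clm_apply (hasFDerivAt_const v x)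
    rw [h2.fderiv]
    simp
  have hDf : ∀ x ∈ tsupport φ, fderiv ℝ (fun x => fderiv ℝ f x v) x v =
      fderiv ℝ (fderiv ℝ f) x v v := by
    intro x hx
    have hf1 : ContDiffAt ℝ 1 (fderiv ℝ f) x := (hf x hx).fderiv_right (m := 1) (by norm_num)
    have h1 : HasFDerivAt (fderiv ℝ f) (fderiv ℝ (fderiv ℝ f) x) x :=
      (hf1.differentiableAt (by norm_num)).hasFDerivAt
    have h2 := h1.clm_apply (hasFDerivAt_const v x)
    rw [h2.fderiv]
    simp
  have hfd : ∀ x ∈ tsupport φ, ContDiffAt ℝ 1 (fun x => fderiv ℝ f x v) x := by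
    intro x hx
    have hf1 : ContDiffAt ℝ 1 (fderiv ℝ f) x := (hf x hx).fderiv_right (m := 1) (by norm_num)
    exact hf1.clm_apply contDiffAt_const
  have hsub := tsupport_fderiv_apply_subset (φ := φ) v
  have hsub2 : tsupport (fun x => fderiv ℝ (fun x => fderiv ℝ φ x v) x v) ⊆ tsupport φ :=
    (tsupport_fderiv_apply_subset (φ := fun x => fderiv ℝ φ x v) v).trans hsub
  have s1 : ∫ x, f x * fderiv ℝ (fun x => fderiv ℝ φ x v) x v ∂μ =
      - ∫ x, fderiv ℝ f x v * fderiv ℝ φ x v ∂μ := by
    apply integral_mul_fderiv_eq_neg_fderiv_mul_of_integrable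
    · exact integrable_mul_of_tsupport (fun x hx => (hfd x (hsub hx)).continuousAt)
        hψ.continuous hψc
    · exact integrable_mul_of_tsupport (fun x hx => (hf x (hsub2 hx)).continuousAt)
        ((hψ.continuous_fderiv (by norm_num)).clm_apply continuous_const)
        (hψc.fderiv_apply (𝕜 := ℝ) (v := v))
    · exact integrable_mul_of_tsupport (fun x hx => (hf x (hsub hx)).continuousAt)
        hψ.continuous hψc
    · intro x hx
      exact (hf x (hsub hx)).differentiableAt (by norm_num)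
    · intro x hx
      exact hψ.differentiable (by norm_num) x
  have s2 : ∫ x, (fun x => fderiv ℝ f x v) x * fderiv ℝ φ x v ∂μ =
      - ∫ x, fderiv ℝ (fun x => fderiv ℝ f x v) x v * φ x ∂μ := by
    have hcont : ∀ x ∈ tsupport φ, ContinuousAt (fun x => fderiv ℝ (fun x => fderiv ℝ f x v) x v) x := by
      intro x hx
      have h0 : ContDiffAt ℝ 0 (fderiv ℝ (fun x => fderiv ℝ f x v)) x :=
        (hfd x hx).fderiv_right (m := 0) (by norm_num)
      exact (h0.continuousAt).clm_apply continuousAt_const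
    apply integral_mul_fderiv_eq_neg_fderiv_mul_of_integrable
    · exact integrable_mul_of_tsupport hcont hφ.continuous hc
    · exact integrable_mul_of_tsupport (fun x hx => (hfd x (hsub hx)).continuousAt)
        hψ.continuous hψc
    · exact integrable_mul_of_tsupport (fun x hx => (hfd x hx).continuousAt)
        hφ.continuous hc
    · intro x hx
      exact (hfd x hx).differentiableAt (by norm_num)
    · intro x hx
      exact hφ.differentiable (by norm_num) x
  have t1 : ∫ x, f x * fderiv ℝ (fderiv ℝ φ) x v v ∂μ =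
      ∫ x, f x * fderiv ℝ (fun x => fderiv ℝ φ x v) x v ∂μ := by
    congr 1; funext x; rw [hD]
  have t2 : ∫ x, fderiv ℝ (fderiv ℝ f) x v v * φ x ∂μ =
      ∫ x, fderiv ℝ (fun x => fderiv ℝ f x v) x v * φ x ∂μ := by
    congr 1; funext x
    by_cases hx : x ∈ tsupport φ
    · rw [hDf x hx]
    · rw [image_eq_zero_of_notMem_tsupport hx, mul_zero, mul_zero]
  rw [t1, t2, s1, s2, neg_neg]

end general

theorem continuous_fderiv2 {E : Type*} [NormedAddCommGroup E] [NormedSpace ℝ E] {φ : E → ℝ}
    (hφ : ContDiff ℝ 2 φ) (v w : E) :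
    Continuous (fun x => fderiv ℝ (fderiv ℝ φ) x v w) := by
  have hφ1 : ContDiff ℝ 1 (fderiv ℝ φ) := hφ.fderiv_right (m := 1) (by norm_num)
  exact ((hφ1.continuous_fderiv (by norm_num)).clm_apply continuous_const).clm_apply
    continuous_const

theorem tsupport_fderiv2_subset {E : Type*} [NormedAddCommGroup E] [NormedSpace ℝ E] {φ : E → ℝ}
    (v w : E) : tsupport (fun x => fderiv ℝ (fderiv ℝ φ) x v w) ⊆ tsupport φ := by
  apply closure_minimal _ (isClosed_tsupport φ)
  intro x hx
  by_contra h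
  apply hx
  have : fderiv ℝ (fderiv ℝ φ) x = 0 := by
    have h2 : x ∉ tsupport (fderiv ℝ (fderiv ℝ φ)) := fun h3 =>
      h (tsupport_fderiv_subset ℝ (tsupport_fderiv_subset ℝ h3))
    exact image_eq_zero_of_notMem_tsupport h2
  simp [this]

theorem hasCompactSupport_fderiv2 {E : Type*} [NormedAddCommGroup E] [NormedSpace ℝ E] {φ : E → ℝ}
    (hc : HasCompactSupport φ) (v w : E) :
    HasCompactSupport (fun x => fderiv ℝ (fderiv ℝ φ) x v w) :=
  hc.of_isClosed_subset (isClosed_tsupport _) (tsupport_fderiv2_subset v w)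

/-- Green's second identity in the plane. -/
theorem green_plane {f φ : ℂ → ℝ} (hf : ∀ x ∈ tsupport φ, ContDiffAt ℝ 2 f x)
    (hφ : ContDiff ℝ 2 φ) (hc : HasCompactSupport φ) :
    ∫ x, f x * (Δ φ) x = ∫ x, (Δ f) x * φ x := by
  have h1 := integral_mul_fderiv2 (μ := volume) hf hφ hc 1
  have h2 := integral_mul_fderiv2 (μ := volume) hf hφ hc Complex.I
  have hcont : ∀ v : ℂ, ∀ x ∈ tsupport φ, ContinuousAt (fun x => fderiv ℝ (fderiv ℝ f) x v v) x := by
    intro v x hx
    have hf1 : ContDiffAt ℝ 1 (fderiv ℝ f) x := (hf x hx).fderiv_right (m := 1) (by norm_num)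
    have h0 : ContDiffAt ℝ 0 (fderiv ℝ (fderiv ℝ f)) x :=
        hf1.fderiv_right (m := 0) (by norm_num)
    exact (h0.continuousAt.clm_apply continuousAt_const).clm_apply continuousAt_const
  have i1 : ∀ v : ℂ, Integrable (fun x => fderiv ℝ (fderiv ℝ f) x v v * φ x) :=
    fun v => integrable_mul_of_tsupport (hcont v) hφ.continuous hc
  have i2 : ∀ v : ℂ, Integrable (fun x => f x * fderiv ℝ (fderiv ℝ φ) x v v) :=
    fun v => integrable_mul_of_tsupport
      (fun x hx => (hf x (tsupport_fderiv2_subset v v hx)).continuousAt)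
      (continuous_fderiv2 hφ v v) (hasCompactSupport_fderiv2 hc v v)
  have e1 : ∀ x, f x * (Δ φ) x = f x * fderiv ℝ (fderiv ℝ φ) x 1 1 +
      f x * fderiv ℝ (fderiv ℝ φ) x Complex.I Complex.I := by
    intro x; rw [lap_plane]; ring
  have e2 : ∀ x, (Δ f) x * φ x = fderiv ℝ (fderiv ℝ f) x 1 1 * φ x +
      fderiv ℝ (fderiv ℝ f) x Complex.I Complex.I * φ x := by
    intro x; rw [lap_plane]; ring
  simp only [e1, e2]
  rw [integral_add (i2 1) (i2 Complex.I), integral_add (i1 1) (i1 Complex.I), h1, h2]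

end Q61
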