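import Pool.Agent.Q61.Hardy3

set_option autoImplicit false

open MeasureTheory Topology Filter Set ENNReal

namespace Q61

section real

variable {α : Type*} [MeasurableSpace α] {μ : Measure α}

theorem pairR_integrable {f g : α → ℝ} (hf : MemLp f 2 μ) (hg : MemLp g 2 μ) :
    Integrable (fun x => f x * g x) μ := by
  refine (pair_integrable hf hg).congr (ae_of_all _ fun x => ?_)
  simp [mul_comm]

theorem pairR_le {f g : α → ℝ} (hf : MemLp f 2 μ) (hg : MemLp g 2 μ) :
    |∫ x, f x * g x ∂μ| ≤ N2 f μ * N2 g μ := by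
  have := pair_le hf hg
  refine le_trans (le_of_eq ?_) this
  congr 2; funext x; simp [mul_comm]

theorem tendsto_pairR {F f : α → ℝ} {fn : ℕ → α → ℝ} (hF : MemLp F 2 μ) (hf : MemLp f 2 μ)
    (hfn : ∀ n, MemLp (fn n) 2 μ)
    (h : Tendsto (fun n => eLpNorm (fun x => fn n x - f x) 2 μ) atTop (𝓝 0)) :
    Tendsto (fun n => ∫ x, F x * fn n x ∂μ) atTop (𝓝 (∫ x, F x * f x ∂μ)) := by
  have := tendsto_pair hF hf hfn h
  refine (this.congr fun n => ?_).trans_eq ?_
  · congr 1; funext x; simp [mul_comm]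
  · congr 2; funext x; simp [mul_comm]

end real

/-- the data of an `H^1_0` function on a domain avoiding the origin -/
structure H10 (Ω : Set E3) (u : E3 → ℝ) (G : E3 → E3) (φ : ℕ → E3 → ℝ) : Prop where
  hu : MemLp u 2 (volume : Measure E3)
  hG : MemLp G 2 (volume : Measure E3)
  sm : ∀ n, ContDiff ℝ 1 (φ n)
  cs : ∀ n, HasCompactSupport (φ n)
  sp : ∀ n, tsupport (φ n) ⊆ Ω
  lim : Tendsto (fun n => eLpNorm (fun x => φ n x - u x) 2 (volume : Measure E3)) atTop (𝓝 0)
  limG : Tendsto (fun n => eLpNorm (fun x => gradient (φ n) x - G x) 2 (volume : Measure E3)) atTop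
    (𝓝 0)
  ae : ∀ᵐ x ∂(volume : Measure E3), Tendsto (fun n => φ n x) atTop (𝓝 (u x))

theorem gradient_memLp {φ : E3 → ℝ} (hφ : ContDiff ℝ 1 φ) (hc : HasCompactSupport φ) :
    MemLp (gradient φ) 2 (volume : Measure E3) :=
  (gradient_cont hφ).memLp_of_hasCompactSupport (gradient_compact hc)

theorem gradient_sub' {φ ψ : E3 → ℝ} (hφ : ContDiff ℝ 1 φ) (hψ : ContDiff ℝ 1 ψ) (x : E3) :
    gradient (fun y => φ y - ψ y) x = gradient φ x - gradient ψ x := by
  unfold gradient
  rw [← map_sub]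
  congr 1
  exact fderiv_sub (hφ.differentiable (by norm_num) x) (hψ.differentiable (by norm_num) x)

theorem gradient_scale {φ : E3 → ℝ} (hφ : ContDiff ℝ 1 φ) (c : ℝ) (x : E3) :
    gradient (fun y => φ (c • y)) x = c • gradient φ (c • x) := by
  unfold gradient
  rw [← map_smul]
  congr 1
  have h1 : HasFDerivAt (fun y : E3 => c • y) (c • ContinuousLinearMap.id ℝ E3) x :=
    (hasFDerivAt_id x).const_smul c
  have h2 := ((hφ.differentiable (by norm_num) (c • x)).hasFDerivAt).comp x h1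
  have h3 : HasFDerivAt (fun y => φ (c • y)) _ x := h2
  rw [h3.fderiv]
  ext v
  simp

namespace H10

variable {Ω : Set E3} {u : E3 → ℝ} {G : E3 → E3} {φ : ℕ → E3 → ℝ} (h : H10 Ω u G φ)

include h

theorem grad_ev {ε : ℝ≥0∞} (hε : 0 < ε) :
    ∀ᶠ n in atTop, eLpNorm (gradient (φ n)) 2 (volume : Measure E3) ≤ eLpNorm G 2 volume + ε := by
  filter_upwards [h.limG.eventually (ge_mem_nhds hε)] with n hn
  have h1 := eLpNorm_add_le (μ := (volume : Measure E3)) (p := 2)
    ((gradient_memLp (h.sm n) (h.cs n)).1.sub h.hG.1) h.hG.1 (by norm_num)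
  rw [sub_add_cancel] at h1
  refine h1.trans ?_
  rw [add_comm]
  exact add_le_add le_rfl hn

theorem mem6 : MemLp u 6 (volume : Measure E3) := by
  obtain ⟨C, _, hC⟩ := sobolev3
  refine ⟨h.hu.1, ?_⟩
  have h1 : eLpNorm u 6 (volume : Measure E3) ≤ ENNReal.ofReal C * (eLpNorm G 2 volume + 1) := by
    apply Lp.eLpNorm_le_of_ae_tendsto (u := atTop) (f := φ) _
      (fun n => (h.sm n).continuous.aestronglyMeasurable) h.ae
    filter_upwards [h.grad_ev (ε := 1) (by norm_num)] with n hn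
    exact (hC _ (h.sm n) (h.cs n)).trans (mul_le_mul' le_rfl hn)
  refine h1.trans_lt ?_
  apply ENNReal.mul_lt_top ENNReal.ofReal_lt_top
  exact ENNReal.add_lt_top.2 ⟨h.hG.2, by norm_num⟩

theorem hardy_eLp {ψ : E3 → ℝ} (hψ : ContDiff ℝ 1 ψ) (hc : HasCompactSupport ψ)
    (h0 : (0:E3) ∉ tsupport ψ) :
    eLpNorm (fun x => ψ x / ‖x‖) 2 (volume : Measure E3) ≤
      ENNReal.ofReal 4 * eLpNorm (gradient ψ) 2 volume := by
  have h1 := hardy3 hψ hc h0
  have h2 := (memLp_div_norm hψ.continuous hc h0).2.ne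
  have h3 := (gradient_memLp hψ hc).2.ne
  unfold N2 at h1
  rw [← ENNReal.ofReal_toReal h2, ← ENNReal.ofReal_toReal h3,
    ← ENNReal.ofReal_mul (by norm_num)]
  exact ENNReal.ofReal_le_ofReal h1

theorem hardy_diff (h0 : (0:E3) ∉ Ω) (n : ℕ) :
    eLpNorm (fun x => (φ n x - u x) / ‖x‖) 2 (volume : Measure E3) ≤
      ENNReal.ofReal 4 * (eLpNorm (fun x => gradient (φ n) x - G x) 2 volume +
        ENNReal.ofReal (1 / ((n : ℝ) + 1))) := by
  have hε : 0 < ENNReal.ofReal (1 / ((n : ℝ) + 1)) := ENNReal.ofReal_pos.2 (by positivity)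
  apply Lp.eLpNorm_le_of_ae_tendsto (u := atTop) (f := fun m x => (φ n x - φ m x) / ‖x‖)
  · filter_upwards [h.limG.eventually (ge_mem_nhds hε)] with m hm
    have hs : ContDiff ℝ 1 (fun x => φ n x - φ m x) := (h.sm n).sub (h.sm m)
    have hc : HasCompactSupport (fun x => φ n x - φ m x) := (h.cs n).sub (h.cs m)
    have ht : (0:E3) ∉ tsupport (fun x => φ n x - φ m x) := by
      intro h1
      have h2 := (tsupport_sub (φ n) (φ m)) h1
      rcases h2 with h2 | h2
      · exact h0 (h.sp n h2)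
      · exact h0 (h.sp m h2)
    refine (h.hardy_eLp hs hc ht).trans (mul_le_mul' le_rfl ?_)
    have e : gradient (fun x => φ n x - φ m x) =
        (fun x => gradient (φ n) x - G x) - (fun x => gradient (φ m) x - G x) := by
      funext x
      rw [gradient_sub' (h.sm n) (h.sm m)]
      simp
    rw [e]
    refine (eLpNorm_sub_le ((gradient_memLp (h.sm n) (h.cs n)).1.sub h.hG.1)
      ((gradient_memLp (h.sm m) (h.cs m)).1.sub h.hG.1) (by norm_num)).trans ?_
    exact add_le_add le_rfl hm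
  · intro m
    apply Measurable.aestronglyMeasurable
    exact (((h.sm n).continuous.sub (h.sm m).continuous).measurable).div measurable_norm
  · filter_upwards [h.ae] with x hx
    exact (tendsto_const_nhds.sub hx).div_const _

theorem hardy_lim (h0 : (0:E3) ∉ Ω) :
    Tendsto (fun n => eLpNorm (fun x => φ n x / ‖x‖ - u x / ‖x‖) 2 (volume : Measure E3)) atTop
      (𝓝 0) := by
  have h1 : Tendsto (fun n => ENNReal.ofReal 4 *
      (eLpNorm (fun x => gradient (φ n) x - G x) 2 (volume : Measure E3) +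
        ENNReal.ofReal (1 / ((n : ℝ) + 1)))) atTop (𝓝 0) := by
    have h2 : Tendsto (fun n : ℕ => ENNReal.ofReal (1 / ((n : ℝ) + 1))) atTop (𝓝 0) := by
      have := ENNReal.tendsto_ofReal tendsto_one_div_add_atTop_nhds_zero_nat
      simpa using this
    have h3 := h.limG.add h2
    rw [add_zero] at h3
    have h4 := ENNReal.Tendsto.const_mul (a := ENNReal.ofReal 4) h3 (Or.inr ENNReal.ofReal_ne_top)
    rwa [mul_zero] at h4
  refine tendsto_of_tendsto_of_tendsto_of_le_of_le tendsto_const_nhds h1 (fun _ => bot_le)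
    (fun n => ?_)
  have := h.hardy_diff h0 n
  refine le_trans (le_of_eq ?_) this
  congr 1; funext x; ring

theorem memH (h0 : (0:E3) ∉ Ω) : MemLp (fun x => u x / ‖x‖) 2 (volume : Measure E3) := by
  have hm : AEStronglyMeasurable (fun x => u x / ‖x‖) (volume : Measure E3) :=
    (h.hu.1.aemeasurable.div measurable_norm.aemeasurable).aestronglyMeasurable
  refine ⟨hm, ?_⟩
  have h1 := memLp_div_norm (h.sm 0).continuous (h.cs 0) (fun h1 => h0 (h.sp 0 h1))
  have h2 := h.hardy_diff h0 0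
  have h3 : eLpNorm (fun x => (φ 0 x - u x) / ‖x‖) 2 (volume : Measure E3) < ∞ := by
    refine h2.trans_lt ?_
    apply ENNReal.mul_lt_top ENNReal.ofReal_lt_top
    exact ENNReal.add_lt_top.2 ⟨((gradient_memLp (h.sm 0) (h.cs 0)).sub h.hG).2,
      ENNReal.ofReal_lt_top⟩
  have e : (fun x => u x / ‖x‖) = (fun x => φ 0 x / ‖x‖) - fun x => (φ 0 x - u x) / ‖x‖ := by
    funext x; simp only [Pi.sub_apply]; ring
  rw [e]
  have hm2 : AEStronglyMeasurable (fun x => (φ 0 x - u x) / ‖x‖) (volume : Measure E3) :=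
    (((h.sm 0).continuous.measurable.aemeasurable.sub h.hu.1.aemeasurable).div
      measurable_norm.aemeasurable).aestronglyMeasurable
  exact (eLpNorm_sub_le h1.1 hm2 (by norm_num)).trans_lt (ENNReal.add_lt_top.2 ⟨h1.2, h3⟩)

theorem diff_u {c : ℝ} (hc : 1 ≤ c) :
    eLpNorm (fun x => (u x - u (c • x)) / ‖x‖) 2 (volume : Measure E3) ≤
      ENNReal.ofReal (c - 1) * (eLpNorm G 2 volume + 1) := by
  have hc0 : 0 < c := by linarith
  apply Lp.eLpNorm_le_of_ae_tendsto (u := atTop) (f := fun n x => (φ n x - φ n (c • x)) / ‖x‖)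
  · filter_upwards [h.grad_ev (ε := 1) (by norm_num)] with n hn
    exact (diff_bound (h.sm n) hc).trans (mul_le_mul' le_rfl hn)
  · intro n
    apply Measurable.aestronglyMeasurable
    exact (((h.sm n).continuous.sub ((h.sm n).continuous.comp (continuous_const_smul c))).measurable).div
      measurable_norm
  · filter_upwards [h.ae, ae_scale hc0 h.ae] with x hx hx2
    exact (hx.sub hx2).div_const _

theorem mem3 : MemLp (fun x => u x ^ 3) 2 (volume : Measure E3) := by
  have hm : AEStronglyMeasurable (fun x => u x ^ 3) (volume : Measure E3) := h.hu.1.pow 3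
  rw [memLp_two_iff_integrable_sq hm]
  have h6 := h.mem6.integrable_norm_pow (p := 6) (by norm_num)
  refine h6.congr (ae_of_all _ fun x => ?_)
  simp only [Real.norm_eq_abs]
  rw [← pow_mul, ← abs_pow, abs_of_nonneg (by positivity)]

/-- the weight -/
noncomputable def _root_.Q61.wt (x : E3) : ℝ := ‖x‖ ^ (-(1 / 2) : ℝ)

omit h in
theorem _root_.Q61.wt_meas : Measurable Q61.wt := by
  unfold Q61.wt; exact measurable_norm.pow_const _

omit h in
theorem _root_.Q61.wt_sq {x : E3} (hx : x ≠ 0) : Q61.wt x ^ 2 = ‖x‖⁻¹ := by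
  unfold Q61.wt
  have h0 := norm_pos_iff.2 hx
  rw [← Real.rpow_natCast, ← Real.rpow_mul h0.le]
  norm_num
  exact Real.rpow_neg_one _

theorem memW (h0 : (0:E3) ∉ Ω) : MemLp (fun x => u x ^ 2 * wt x) 2 (volume : Measure E3) := by
  have hm : AEStronglyMeasurable (fun x => u x ^ 2 * wt x) (volume : Measure E3) :=
    (h.hu.1.pow 2).mul wt_meas.aestronglyMeasurable
  rw [memLp_two_iff_integrable_sq hm]
  have h1 := pairR_integrable h.mem3 (h.memH h0)
  refine h1.congr ?_
  have hne : ∀ᵐ x : E3, x ≠ 0 := by rw [ae_iff]; simp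
  filter_upwards [hne] with x hx
  rw [mul_pow, wt_sq hx]
  ring

end H10

end Q61
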