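import Pool.Agent.Q61.HS2

set_option autoImplicit false

open MeasureTheory Topology Filter Set ENNReal

namespace Q61

section lims

variable {H : Type*} [NormedAddCommGroup H] [NormedSpace ℝ H]

theorem lim_sub {f g : E3 → H} {fn gn : ℕ → E3 → H}
    (mf : ∀ n, AEStronglyMeasurable (fun x => fn n x - f x) (volume : Measure E3))
    (mg : ∀ n, AEStronglyMeasurable (fun x => gn n x - g x) (volume : Measure E3))
    (h1 : Tendsto (fun n => eLpNorm (fun x => fn n x - f x) 2 (volume : Measure E3)) atTop (𝓝 0))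
    (h2 : Tendsto (fun n => eLpNorm (fun x => gn n x - g x) 2 (volume : Measure E3)) atTop (𝓝 0)) :
    Tendsto (fun n => eLpNorm (fun x => (fn n x - gn n x) - (f x - g x)) 2 (volume : Measure E3))
      atTop (𝓝 0) := by
  have h3 := h1.add h2
  rw [add_zero] at h3
  refine tendsto_of_tendsto_of_tendsto_of_le_of_le tendsto_const_nhds h3 (fun _ => bot_le)
    (fun n => ?_)
  have := eLpNorm_sub_le (mf n) (mg n) (p := 2) (by norm_num)
  refine le_trans (le_of_eq ?_) this
  congr 1; funext x; simp only [Pi.sub_apply]; abel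

theorem lim_scale {f : E3 → H} {fn : ℕ → E3 → H} {c : ℝ} (hc : 0 < c)
    (mf : ∀ n, AEStronglyMeasurable (fun x => fn n x - f x) (volume : Measure E3))
    (h1 : Tendsto (fun n => eLpNorm (fun x => fn n x - f x) 2 (volume : Measure E3)) atTop (𝓝 0)) :
    Tendsto (fun n => eLpNorm (fun x => fn n (c • x) - f (c • x)) 2 (volume : Measure E3))
      atTop (𝓝 0) := by
  have e : ∀ n, eLpNorm (fun x => fn n (c • x) - f (c • x)) 2 (volume : Measure E3) =
      (ENNReal.ofReal ((c ^ (Module.finrank ℝ E3))⁻¹)) ^ (1 / (2:ℝ≥0∞)).toReal *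
        eLpNorm (fun x => fn n x - f x) 2 (volume : Measure E3) :=
    fun n => eLpNorm_scale (f := fun x => fn n x - f x) (p := 2) hc (mf n)
  simp only [e]
  have := ENNReal.Tendsto.const_mul (a := (ENNReal.ofReal ((c ^ (Module.finrank ℝ E3))⁻¹)) ^
    (1 / (2:ℝ≥0∞)).toReal) h1 (Or.inr (by
      apply ENNReal.rpow_ne_top_of_nonneg ENNReal.toReal_nonneg ENNReal.ofReal_ne_top))
  rwa [mul_zero] at this

theorem lim_smul {f : E3 → H} {fn : ℕ → E3 → H} (c : ℝ)
    (h1 : Tendsto (fun n => eLpNorm (fun x => fn n x - f x) 2 (volume : Measure E3)) atTop (𝓝 0)) :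
    Tendsto (fun n => eLpNorm (fun x => c • fn n x - c • f x) 2 (volume : Measure E3))
      atTop (𝓝 0) := by
  have h2 := ENNReal.Tendsto.const_mul (a := ‖c‖ₑ) h1 (Or.inr enorm_ne_top)
  rw [mul_zero] at h2
  refine tendsto_of_tendsto_of_tendsto_of_le_of_le tendsto_const_nhds h2 (fun _ => bot_le)
    (fun n => ?_)
  have := eLpNorm_const_smul_le (c := c) (f := fun x => fn n x - f x) (p := 2)
    (μ := (volume : Measure E3))
  refine le_trans (le_of_eq ?_) this
  congr 1; funext x; simp only [Pi.smul_apply, smul_sub]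

end lims

/-- the weak equation for `N = 3`, `s = 3/2`, `p = 3` -/
def Weak (Ω : Set E3) (u : E3 → ℝ) (G : E3 → E3) : Prop :=
  ∀ ψ : E3 → ℝ, ContDiff ℝ ((⊤ : ℕ∞) : WithTop ℕ∞) ψ → HasCompactSupport ψ → tsupport ψ ⊆ Ω →
    ∫ x, (inner ℝ (G x) (gradient ψ x) + u x ^ 3 * ψ x - u x ^ 2 * ψ x / ‖x‖ ^ (3 / 2 : ℝ)) = 0

namespace H10

variable {Ω : Set E3} {u : E3 → ℝ} {G : E3 → E3} {φ : ℕ → E3 → ℝ} (h : H10 Ω u G φ)

include h

theorem weak_L2 (h0 : (0:E3) ∉ Ω) (hw : Weak Ω u G) {ψ : E3 → ℝ}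
    (hψ : ContDiff ℝ ((⊤ : ℕ∞) : WithTop ℕ∞) ψ) (hc : HasCompactSupport ψ) (hs : tsupport ψ ⊆ Ω) :
    (∫ x, inner ℝ (G x) (gradient ψ x)) + (∫ x, u x ^ 3 * ψ x) -
      ∫ x, (u x ^ 2 * wt x) * (ψ x / ‖x‖) = 0 := by
  have h1 := hw ψ hψ hc hs
  have hψ1 : ContDiff ℝ 1 ψ := hψ.of_le (by exact_mod_cast le_top)
  have i1 := pair_integrable h.hG (gradient_memLp hψ1 hc)
  have m2 : MemLp ψ 2 (volume : Measure E3) := hψ1.continuous.memLp_of_hasCompactSupport hc
  have i2 := pairR_integrable h.mem3 m2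
  have m3 := memLp_div_norm hψ1.continuous hc (fun hh => h0 (hs hh))
  have i3 := pairR_integrable (h.memW h0) m3
  have e : ∫ x, (inner ℝ (G x) (gradient ψ x) + u x ^ 3 * ψ x -
      u x ^ 2 * ψ x / ‖x‖ ^ (3 / 2 : ℝ)) =
      ∫ x, ((inner ℝ (G x) (gradient ψ x) + u x ^ 3 * ψ x) -
      (u x ^ 2 * wt x) * (ψ x / ‖x‖)) := by
    congr 1; funext x
    congr 1
    unfold wt
    rcases eq_or_ne x 0 with rfl | hx
    · simp [Real.zero_rpow (by norm_num : (3 / 2 : ℝ) ≠ 0)]
    · have hx0 := norm_pos_iff.2 hx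
      have e1 : ‖x‖ ^ (3 / 2 : ℝ) = ‖x‖ * ‖x‖ ^ (1 / 2 : ℝ) := by
        rw [show (3 / 2 : ℝ) = 1 + 1 / 2 by norm_num, Real.rpow_add hx0, Real.rpow_one]
      rw [e1, Real.rpow_neg hx0.le]
      field_simp
  have i12 : Integrable (fun x => inner ℝ (G x) (gradient ψ x) + u x ^ 3 * ψ x)
    (volume : Measure E3) := i1.add i2
  rw [e, integral_sub i12 i3, integral_add i1 i2] at h1
  exact h1

/-- the energy identity tested with `u` -/
theorem test_u (h0 : (0:E3) ∉ Ω) (hw : Weak Ω u G)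
    (hsm : ∀ n, ContDiff ℝ ((⊤ : ℕ∞) : WithTop ℕ∞) (φ n)) :
    (∫ x, inner ℝ (G x) (G x)) + (∫ x, u x ^ 3 * u x) -
      ∫ x, (u x ^ 2 * wt x) * (u x / ‖x‖) = 0 := by
  have t1 := tendsto_pair h.hG h.hG (fun n => gradient_memLp (h.sm n) (h.cs n)) h.limG
  have t2 := tendsto_pairR h.mem3 h.hu
    (fun n => (h.sm n).continuous.memLp_of_hasCompactSupport (h.cs n)) h.lim
  have t3 := tendsto_pairR (h.memW h0) (h.memH h0)
    (fun n => memLp_div_norm (h.sm n).continuous (h.cs n) (fun hh => h0 (h.sp n hh)))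
    (h.hardy_lim h0)
  have t := (t1.add t2).sub t3
  have t' : Tendsto (fun _ : ℕ => (0:ℝ)) atTop (𝓝 ((∫ x, inner ℝ (G x) (G x)) +
      (∫ x, u x ^ 3 * u x) - ∫ x, (u x ^ 2 * wt x) * (u x / ‖x‖))) := by
    refine t.congr fun n => ?_
    exact h.weak_L2 h0 hw (hsm n) (h.cs n) (h.sp n)
  exact tendsto_nhds_unique t' tendsto_const_nhds

/-- the identity tested with `u - u(c ·)` -/
theorem test_diff (h0 : (0:E3) ∉ Ω) (hw : Weak Ω u G)
    (hsm : ∀ n, ContDiff ℝ ((⊤ : ℕ∞) : WithTop ℕ∞) (φ n)) {c : ℝ} (hc : 0 < c)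
    (hstar : ∀ x, c • x ∈ Ω → x ∈ Ω) :
    (∫ x, inner ℝ (G x) (G x - c • G (c • x))) + (∫ x, u x ^ 3 * (u x - u (c • x))) -
      ∫ x, (u x ^ 2 * wt x) * ((u x - u (c • x)) / ‖x‖) = 0 := by
  have mu : ∀ n, AEStronglyMeasurable (fun x => φ n x - u x) (volume : Measure E3) := fun n =>
    (h.sm n).continuous.aestronglyMeasurable.sub h.hu.1
  have mG : ∀ n, AEStronglyMeasurable (fun x => gradient (φ n) x - G x) (volume : Measure E3) :=
    fun n => (gradient_memLp (h.sm n) (h.cs n)).1.sub h.hG.1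
  have mφ : ∀ n, MemLp (φ n) 2 (volume : Measure E3) := fun n =>
    (h.sm n).continuous.memLp_of_hasCompactSupport (h.cs n)
  have mφc : ∀ n, MemLp (fun x => φ n (c • x)) 2 (volume : Measure E3) := fun n =>
    memLp_scale hc (mφ n)
  have muc : MemLp (fun x => u (c • x)) 2 (volume : Measure E3) := memLp_scale hc h.hu
  have mgc : ∀ n, MemLp (fun x => gradient (φ n) (c • x)) 2 (volume : Measure E3) := fun n =>
    memLp_scale hc (gradient_memLp (h.sm n) (h.cs n))
  have mGc : MemLp (fun x => G (c • x)) 2 (volume : Measure E3) := memLp_scale hc h.hG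
  -- limits
  have l1 := lim_scale hc mu h.lim
  have l2 := lim_sub mu (fun n => (mφc n).1.sub muc.1) h.lim l1
  have l3 := lim_smul c (lim_scale hc mG h.limG)
  have l4 := lim_sub mG (fun n => ((mgc n).1.const_smul c).sub (mGc.1.const_smul c)) h.limG l3
  -- hardy
  have mh : ∀ n, MemLp (fun x => φ n x / ‖x‖) 2 (volume : Measure E3) := fun n =>
    memLp_div_norm (h.sm n).continuous (h.cs n) (fun hh => h0 (h.sp n hh))
  have muh := h.memH h0
  have mh' : ∀ n, AEStronglyMeasurable (fun x => φ n x / ‖x‖ - u x / ‖x‖) (volume : Measure E3) :=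
    fun n => (mh n).1.sub muh.1
  have mhc : ∀ n, MemLp (fun x : E3 => φ n (c • x) / ‖c • x‖) 2 (volume : Measure E3) := fun n =>
    memLp_scale hc (mh n)
  have muhc : MemLp (fun x : E3 => u (c • x) / ‖c • x‖) 2 (volume : Measure E3) :=
    memLp_scale hc muh
  have l5 := lim_smul c (lim_scale hc mh' (h.hardy_lim h0))
  have l6 := lim_sub mh' (fun n => ((mhc n).1.const_smul c).sub (muhc.1.const_smul c))
    (h.hardy_lim h0) l5
  have ecx : ∀ (f : E3 → ℝ) (x : E3), c • (f (c • x) / ‖c • x‖) = f (c • x) / ‖x‖ := by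
    intro f x
    rw [norm_smul, Real.norm_of_nonneg hc.le, smul_eq_mul]
    rcases eq_or_ne x 0 with rfl | hx
    · simp
    · have := norm_pos_iff.2 hx
      field_simp
  have l6 : Tendsto (fun n => eLpNorm (fun x => (φ n x / ‖x‖ - φ n (c • x) / ‖x‖) -
      (u x / ‖x‖ - u (c • x) / ‖x‖)) 2 (volume : Measure E3)) atTop (𝓝 0) := by
    refine l6.congr fun n => ?_
    congr 1
    funext x
    have e1 := ecx (φ n) x
    have e2 := ecx u x
    simp only [Pi.smul_apply]
    rw [e1, e2]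
  -- test functions
  set ψ : ℕ → E3 → ℝ := fun n x => φ n x - φ n (c • x) with hψ
  have hcs : ∀ n, HasCompactSupport (fun x => φ n (c • x)) := fun n =>
    (h.cs n).comp_homeomorph (Homeomorph.smulOfNeZero c hc.ne')
  have hts : ∀ n, tsupport (fun x => φ n (c • x)) ⊆ Ω := by
    intro n x hx
    apply hstar
    apply h.sp n
    have h1 : tsupport (fun x => φ n (c • x)) ⊆ (fun x : E3 => c • x) ⁻¹' (tsupport (φ n)) := by
      apply closure_minimal
      · intro y hy
        exact subset_tsupport (φ n) hy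
      · exact (isClosed_tsupport _).preimage (continuous_const_smul c)
    exact h1 hx
  have sψ : ∀ n, ContDiff ℝ ((⊤ : ℕ∞) : WithTop ℕ∞) (ψ n) := fun n =>
    (hsm n).sub ((hsm n).comp (contDiff_const_smul c))
  have cψ : ∀ n, HasCompactSupport (ψ n) := fun n => (h.cs n).sub (hcs n)
  have tψ : ∀ n, tsupport (ψ n) ⊆ Ω := by
    intro n x hx
    rcases (tsupport_sub (φ n) (fun x => φ n (c • x))) hx with h1 | h1
    · exact h.sp n h1
    · exact hts n h1
  have gψ : ∀ n x, gradient (ψ n) x = gradient (φ n) x - c • gradient (φ n) (c • x) := by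
    intro n x
    have h1 : ContDiff ℝ 1 (fun x => φ n (c • x)) := (h.sm n).comp (contDiff_const_smul c)
    rw [show ψ n = fun y => φ n y - (fun x => φ n (c • x)) y from rfl,
      gradient_sub' (h.sm n) h1, gradient_scale (h.sm n)]
  have mW := h.memW h0
  have t1 := tendsto_pair (f := fun x => G x - c • G (c • x))
    (fn := fun n x => gradient (φ n) x - c • gradient (φ n) (c • x))
    h.hG (h.hG.sub (mGc.const_smul c))
    (fun n => (gradient_memLp (h.sm n) (h.cs n)).sub ((mgc n).const_smul c)) l4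
  have t2 := tendsto_pairR (f := fun x => u x - u (c • x)) (fn := fun n x => φ n x - φ n (c • x))
    h.mem3 (h.hu.sub muc) (fun n => (mφ n).sub (mφc n)) l2
  have mdu : MemLp (fun x => u x / ‖x‖ - u (c • x) / ‖x‖) 2 (volume : Measure E3) := by
    have := muh.sub (muhc.const_smul c)
    refine (memLp_congr_ae (ae_of_all _ fun x => ?_)).1 this
    simp only [Pi.sub_apply, Pi.smul_apply, ecx]
  have mdφ : ∀ n, MemLp (fun x => φ n x / ‖x‖ - φ n (c • x) / ‖x‖) 2 (volume : Measure E3) := by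
    intro n
    have := (mh n).sub ((mhc n).const_smul c)
    refine (memLp_congr_ae (ae_of_all _ fun x => ?_)).1 this
    simp only [Pi.sub_apply, Pi.smul_apply, ecx]
  have t3 := tendsto_pairR mW mdu mdφ l6
  have t := (t1.add t2).sub t3
  have e3 : ∫ x, (u x ^ 2 * wt x) * ((u x - u (c • x)) / ‖x‖) =
      ∫ x, (u x ^ 2 * wt x) * (u x / ‖x‖ - u (c • x) / ‖x‖) := by
    congr 1; funext x; ring
  rw [e3]
  have t' : Tendsto (fun _ : ℕ => (0:ℝ)) atTop (𝓝 ((∫ x, inner ℝ (G x) (G x - c • G (c • x))) +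
      (∫ x, u x ^ 3 * (u x - u (c • x))) -
      ∫ x, (u x ^ 2 * wt x) * (u x / ‖x‖ - u (c • x) / ‖x‖))) := by
    refine t.congr fun n => ?_
    have h1 := h.weak_L2 h0 hw (sψ n) (cψ n) (tψ n)
    simp only [gψ] at h1
    rw [← h1]
    congr 2
    funext x
    simp only [hψ]; ring
  exact tendsto_nhds_unique t' tendsto_const_nhds

end H10

end Q61
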