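import Pool.Agent.Q61.HS3

set_option autoImplicit false

open MeasureTheory Topology Filter Set ENNReal

namespace Q61

theorem finrank_E3 : Module.finrank ℝ E3 = 3 := by simp [E3]

theorem ae_ne3 : ∀ᵐ x : E3, x ≠ 0 := by rw [ae_iff]; simp

/-- `∫ ‖f(κ² x)‖² = κ⁻⁶ ∫ ‖f‖²` -/
theorem N2_scale {H : Type*} [NormedAddCommGroup H] [InnerProductSpace ℝ H] {f : E3 → H}
    (hf : MemLp f 2 (volume : Measure E3)) {κ : ℝ} (hκ : 0 < κ) :
    N2 (fun x => f (κ ^ 2 • x)) (volume : Measure E3) = (κ ^ 3)⁻¹ * N2 f volume := by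
  have hc : 0 < κ ^ 2 := by positivity
  have h1 : N2 (fun x => f (κ ^ 2 • x)) (volume : Measure E3) ^ 2 = ((κ ^ 3)⁻¹ * N2 f volume) ^ 2 := by
    rw [N2_sq (memLp_scale hc hf), mul_pow, N2_sq hf]
    have := integral_scale (μ := (volume : Measure E3)) (fun x => ‖f x‖ ^ 2) hc
    rw [this, finrank_E3]
    congr 1
    rw [← inv_pow]
    ring
  have h2 := N2_nonneg (μ := (volume : Measure E3)) (fun x => f (κ ^ 2 • x))
  have h3 : 0 ≤ (κ ^ 3)⁻¹ * N2 f (volume : Measure E3) := mul_nonneg (by positivity) (N2_nonneg _)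
  exact (sq_eq_sq₀ h2 h3).1 h1

namespace H10

variable {Ω : Set E3} {u : E3 → ℝ} {G : E3 → E3} {φ : ℕ → E3 → ℝ} (h : H10 Ω u G φ)

include h

theorem T1 {κ : ℝ} (hκ : 0 < κ) :
    N2 G volume ^ 2 * (1 - κ⁻¹) ≤ ∫ x, inner ℝ (G x) (G x - κ ^ 2 • G (κ ^ 2 • x)) := by
  have hc : 0 < κ ^ 2 := by positivity
  have mGc : MemLp (fun x => G (κ ^ 2 • x)) 2 (volume : Measure E3) := memLp_scale hc h.hG
  have mGc2 : MemLp (fun x => κ ^ 2 • G (κ ^ 2 • x)) 2 (volume : Measure E3) := by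
    have := mGc.const_smul (κ ^ 2)
    exact this
  have e : ∫ x, inner ℝ (G x) (G x - κ ^ 2 • G (κ ^ 2 • x)) =
      (∫ x, inner ℝ (G x) (G x)) - ∫ x, inner ℝ (G x) (κ ^ 2 • G (κ ^ 2 • x)) := by
    rw [← integral_sub (pair_integrable h.hG h.hG) (pair_integrable h.hG mGc2)]
    congr 1; funext x; rw [inner_sub_right]
  have e1 : ∫ x, inner ℝ (G x) (G x) = N2 G volume ^ 2 := by
    rw [N2_sq h.hG]; simp only [real_inner_self_eq_norm_sq]
  have e2 : ∫ x, inner ℝ (G x) (κ ^ 2 • G (κ ^ 2 • x)) =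
      κ ^ 2 * ∫ x, inner ℝ (G x) (G (κ ^ 2 • x)) := by
    rw [← integral_const_mul]; congr 1; funext x; rw [real_inner_smul_right]
  have h3 := pair_le h.hG mGc
  rw [N2_scale h.hG hκ] at h3
  have h4 := le_abs_self (∫ x, inner ℝ (G x) (G (κ ^ 2 • x)))
  rw [e, e1, e2]
  have h5 : κ ^ 2 * ∫ x, inner ℝ (G x) (G (κ ^ 2 • x)) ≤
      κ ^ 2 * (N2 G volume * ((κ ^ 3)⁻¹ * N2 G volume)) :=
    mul_le_mul_of_nonneg_left (h4.trans h3) hc.le
  have h6 : κ ^ 2 * (N2 G (volume : Measure E3) * ((κ ^ 3)⁻¹ * N2 G volume)) =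
      N2 G volume ^ 2 * κ⁻¹ := by field_simp
  rw [h6] at h5
  linarith

theorem T2 {κ : ℝ} (hκ : 0 < κ) :
    (1 - (κ ^ 6)⁻¹) / 4 * (∫ x, u x ^ 3 * u x) ≤ ∫ x, u x ^ 3 * (u x - u (κ ^ 2 • x)) := by
  have hc : 0 < κ ^ 2 := by positivity
  have muc : MemLp (fun x => u (κ ^ 2 • x)) 2 (volume : Measure E3) := memLp_scale hc h.hu
  have i4 : Integrable (fun x => u x ^ 3 * u x) (volume : Measure E3) := pairR_integrable h.mem3 h.hu
  have i4c : Integrable (fun x => u (κ ^ 2 • x) ^ 3 * u (κ ^ 2 • x)) (volume : Measure E3) :=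
    pairR_integrable (memLp_scale hc h.mem3) muc
  have i5 : Integrable (fun x => u x ^ 3 * (u x - u (κ ^ 2 • x))) (volume : Measure E3) :=
    pairR_integrable h.mem3 (h.hu.sub muc)
  have hs := integral_scale (μ := (volume : Measure E3)) (fun x => u x ^ 3 * u x) hc
  rw [finrank_E3] at hs
  have h1 : ∫ x, (1 / 4 * (u x ^ 3 * u x) - 1 / 4 * (u (κ ^ 2 • x) ^ 3 * u (κ ^ 2 • x))) ≤
      ∫ x, u x ^ 3 * (u x - u (κ ^ 2 • x)) := by
    apply integral_mono ((i4.const_mul _).sub (i4c.const_mul _)) i5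
    intro x
    show 1 / 4 * (u x ^ 3 * u x) - 1 / 4 * (u (κ ^ 2 • x) ^ 3 * u (κ ^ 2 • x)) ≤
      u x ^ 3 * (u x - u (κ ^ 2 • x))
    set a := u x
    set b := u (κ ^ 2 • x)
    nlinarith [mul_nonneg (sq_nonneg (a - b)) (by nlinarith [sq_nonneg a, sq_nonneg (a + b)] :
      (0:ℝ) ≤ 3 * a ^ 2 + 2 * a * b + b ^ 2)]
  rw [integral_sub (i4.const_mul _) (i4c.const_mul _), integral_const_mul, integral_const_mul,
    hs] at h1
  refine le_trans (le_of_eq ?_) h1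
  have : ((κ ^ 2) ^ 3)⁻¹ = (κ ^ 6)⁻¹ := by rw [← pow_mul]
  rw [this]
  ring

/-- the difference quotient norm -/
noncomputable def _root_.Q61.dl (u : E3 → ℝ) (κ : ℝ) : ℝ :=
  N2 (fun x => (u x - u (κ ^ 2 • x)) / ‖x‖) (volume : Measure E3)

theorem memd {κ : ℝ} (hκ : 1 ≤ κ) :
    MemLp (fun x => (u x - u (κ ^ 2 • x)) / ‖x‖) 2 (volume : Measure E3) := by
  have hκ0 : 0 < κ := by linarith
  have hc : 1 ≤ κ ^ 2 := one_le_pow₀ hκ
  have hc0 : 0 < κ ^ 2 := by positivity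
  refine ⟨?_, ?_⟩
  · exact ((h.hu.1.aemeasurable.sub (memLp_scale hc0 h.hu).1.aemeasurable).div
      measurable_norm.aemeasurable).aestronglyMeasurable
  · refine (h.diff_u hc).trans_lt ?_
    apply ENNReal.mul_lt_top ENNReal.ofReal_lt_top
    exact ENNReal.add_lt_top.2 ⟨h.hG.2, by norm_num⟩

theorem dl_le {κ : ℝ} (hκ : 1 ≤ κ) : dl u κ ≤ (κ ^ 2 - 1) * (N2 G volume + 1) := by
  have hc : 1 ≤ κ ^ 2 := one_le_pow₀ hκ
  have h1 := h.diff_u hc
  have hfin : ENNReal.ofReal (κ ^ 2 - 1) * (eLpNorm G 2 (volume : Measure E3) + 1) ≠ ∞ := by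
    apply ENNReal.mul_ne_top ENNReal.ofReal_ne_top
    exact ENNReal.add_ne_top.2 ⟨h.hG.2.ne, by norm_num⟩
  have h2 := ENNReal.toReal_mono hfin h1
  rw [ENNReal.toReal_mul, ENNReal.toReal_ofReal (by linarith), ENNReal.toReal_add h.hG.2.ne
    (by norm_num), ENNReal.toReal_one] at h2
  exact h2

/-- the remainder function -/
noncomputable def _root_.Q61.VV (u : E3 → ℝ) (κ : ℝ) (x : E3) : ℝ :=
  (u x - u (κ ^ 2 • x)) * (2 * u x + u (κ ^ 2 • x)) * wt x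

theorem VV_sq {κ : ℝ} (hκ : 1 ≤ κ) :
    MemLp (VV u κ) 2 (volume : Measure E3) ∧
      N2 (VV u κ) volume ^ 2 ≤ 32 * dl u κ * N2 (fun x => u x ^ 3) volume := by
  have hκ0 : 0 < κ := by linarith
  have hc0 : 0 < κ ^ 2 := by positivity
  have muc : MemLp (fun x => u (κ ^ 2 • x)) 2 (volume : Measure E3) := memLp_scale hc0 h.hu
  have m3c : MemLp (fun x => u (κ ^ 2 • x) ^ 3) 2 (volume : Measure E3) := memLp_scale hc0 h.mem3
  have hm : AEStronglyMeasurable (VV u κ) (volume : Measure E3) := by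
    unfold VV
    exact ((h.hu.1.sub muc.1).mul ((h.hu.1.const_mul 2).add muc.1)).mul
      wt_meas.aestronglyMeasurable
  have md := h.memd hκ
  have i1 : Integrable (fun x => |(u x - u (κ ^ 2 • x)) / ‖x‖| * |u x ^ 3|) (volume : Measure E3) :=
    pairR_integrable md.abs h.mem3.abs
  have i2 : Integrable (fun x => |(u x - u (κ ^ 2 • x)) / ‖x‖| * |u (κ ^ 2 • x) ^ 3|)
    (volume : Measure E3) := pairR_integrable md.abs m3c.abs
  have hpt : ∀ᵐ x ∂(volume : Measure E3), VV u κ x ^ 2 ≤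
      16 * (|(u x - u (κ ^ 2 • x)) / ‖x‖| * |u x ^ 3|) +
      16 * (|(u x - u (κ ^ 2 • x)) / ‖x‖| * |u (κ ^ 2 • x) ^ 3|) := by
    filter_upwards [ae_ne3] with x hx
    unfold VV
    rw [mul_pow, wt_sq hx]
    have hx0 := norm_pos_iff.2 hx
    set a := u x
    set b := u (κ ^ 2 • x)
    rw [abs_div, abs_norm, abs_pow, abs_pow]
    have ha := abs_nonneg a
    have hb := abs_nonneg b
    have h1 : |2 * a + b| ≤ 2 * (|a| + |b|) := by
      calc |2 * a + b| ≤ |2 * a| + |b| := abs_add_le _ _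
        _ = 2 * |a| + |b| := by rw [abs_mul, abs_of_pos (by norm_num : (0:ℝ) < 2)]
        _ ≤ _ := by linarith
    have h2 : |a - b| ≤ |a| + |b| := abs_sub _ _
    have h3 : ((a - b) * (2 * a + b)) ^ 2 ≤ |a - b| * (16 * (|a| ^ 3 + |b| ^ 3)) := by
      have e1 : ((a - b) * (2 * a + b)) ^ 2 = |a - b| * (|a - b| * |2 * a + b| ^ 2) := by
        rw [mul_pow, ← sq_abs (a - b), ← sq_abs (2 * a + b)]; ring
      rw [e1]
      apply mul_le_mul_of_nonneg_left _ (abs_nonneg _)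
      calc |a - b| * |2 * a + b| ^ 2 ≤ (|a| + |b|) * (2 * (|a| + |b|)) ^ 2 := by
            gcongr
        _ ≤ 16 * (|a| ^ 3 + |b| ^ 3) := by
            nlinarith [mul_nonneg (add_nonneg ha hb) (sq_nonneg (|a| - |b|))]
    have h4 : ((a - b) * (2 * a + b)) ^ 2 * ‖x‖⁻¹ ≤ |a - b| * (16 * (|a| ^ 3 + |b| ^ 3)) * ‖x‖⁻¹ :=
      mul_le_mul_of_nonneg_right h3 (by positivity)
    refine h4.trans (le_of_eq ?_)
    field_simp
  have i3 : Integrable (fun x => 16 * (|(u x - u (κ ^ 2 • x)) / ‖x‖| * |u x ^ 3|) +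
      16 * (|(u x - u (κ ^ 2 • x)) / ‖x‖| * |u (κ ^ 2 • x) ^ 3|)) (volume : Measure E3) :=
    (i1.const_mul 16).add (i2.const_mul 16)
  have i4 : Integrable (fun x => VV u κ x ^ 2) (volume : Measure E3) := by
    refine Integrable.mono' i3 (hm.pow 2) ?_
    filter_upwards [hpt] with x hx
    rw [Real.norm_of_nonneg (sq_nonneg _)]
    exact hx
  have mV : MemLp (VV u κ) 2 (volume : Measure E3) := (memLp_two_iff_integrable_sq hm).2 i4
  refine ⟨mV, ?_⟩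
  have h5 : N2 (VV u κ) volume ^ 2 = ∫ x, VV u κ x ^ 2 := by
    rw [N2_sq mV]; congr 1; funext x; rw [Real.norm_eq_abs, sq_abs]
  have h6 : ∫ x, VV u κ x ^ 2 ≤ ∫ x, (16 * (|(u x - u (κ ^ 2 • x)) / ‖x‖| * |u x ^ 3|) +
      16 * (|(u x - u (κ ^ 2 • x)) / ‖x‖| * |u (κ ^ 2 • x) ^ 3|)) :=
    integral_mono_ae i4 i3 hpt
  rw [integral_add (i1.const_mul 16) (i2.const_mul 16), integral_const_mul, integral_const_mul] at h6
  have mda : MemLp (fun x => |(u x - u (κ ^ 2 • x)) / ‖x‖|) 2 (volume : Measure E3) := md.abs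
  have m3a : MemLp (fun x => |u x ^ 3|) 2 (volume : Measure E3) := h.mem3.abs
  have m3ca : MemLp (fun x => |u (κ ^ 2 • x) ^ 3|) 2 (volume : Measure E3) := m3c.abs
  have h7 := pairR_le mda m3a
  have h8 := pairR_le mda m3ca
  have n1 : N2 (fun x => |(u x - u (κ ^ 2 • x)) / ‖x‖|) (volume : Measure E3) = dl u κ := by
    unfold dl N2
    congr 1
    exact eLpNorm_congr_norm_ae (ae_of_all _ fun x => by simp only [Real.norm_eq_abs, abs_abs])
  have n2 : N2 (fun x => |u x ^ 3|) (volume : Measure E3) = N2 (fun x => u x ^ 3) volume := by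
    unfold N2
    congr 1
    exact eLpNorm_congr_norm_ae (ae_of_all _ fun x => by simp)
  have n3 : N2 (fun x => |u (κ ^ 2 • x) ^ 3|) (volume : Measure E3) ≤ N2 (fun x => u x ^ 3) volume := by
    have e1 : N2 (fun x => |u (κ ^ 2 • x) ^ 3|) (volume : Measure E3) =
        N2 (fun x => u (κ ^ 2 • x) ^ 3) volume := by
      unfold N2
      congr 1
      exact eLpNorm_congr_norm_ae (ae_of_all _ fun x => by simp)
    rw [e1]
    have e2 := N2_scale h.mem3 hκ0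
    rw [e2]
    have e3 : (κ ^ 3)⁻¹ ≤ 1 := inv_le_one_of_one_le₀ (one_le_pow₀ hκ)
    exact mul_le_of_le_one_left (N2_nonneg _) e3
  have d0 : 0 ≤ dl u κ := N2_nonneg _
  have h9 : ∫ x, |(u x - u (κ ^ 2 • x)) / ‖x‖| * |u x ^ 3| ≤ dl u κ * N2 (fun x => u x ^ 3) volume := by
    have := (le_abs_self _).trans h7
    rwa [n1, n2] at this
  have h10 : ∫ x, |(u x - u (κ ^ 2 • x)) / ‖x‖| * |u (κ ^ 2 • x) ^ 3| ≤
      dl u κ * N2 (fun x => u x ^ 3) volume := by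
    have := (le_abs_self _).trans h8
    rw [n1] at this
    exact this.trans (mul_le_mul_of_nonneg_left n3 d0)
  rw [h5]
  refine h6.trans ?_
  linarith

theorem T3 (h0 : (0:E3) ∉ Ω) {κ : ℝ} (hκ : 1 ≤ κ) :
    ∫ x, (u x ^ 2 * wt x) * ((u x - u (κ ^ 2 • x)) / ‖x‖) =
      (1 - (κ ^ 3)⁻¹) / 3 * (∫ x, (u x ^ 2 * wt x) * (u x / ‖x‖)) +
      1 / 3 * ∫ x, ((u x - u (κ ^ 2 • x)) / ‖x‖) * VV u κ x := by
  have hκ0 : 0 < κ := by linarith
  have hc0 : 0 < κ ^ 2 := by positivity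
  have i1 : Integrable (fun x => (u x ^ 2 * wt x) * (u x / ‖x‖)) (volume : Measure E3) :=
    pairR_integrable (h.memW h0) (h.memH h0)
  have i2 : Integrable (fun x => (u (κ ^ 2 • x) ^ 2 * wt (κ ^ 2 • x)) * (u (κ ^ 2 • x) / ‖κ ^ 2 • x‖))
    (volume : Measure E3) :=
    pairR_integrable (memLp_scale hc0 (h.memW h0)) (memLp_scale hc0 (h.memH h0))
  have i3 : Integrable (fun x => ((u x - u (κ ^ 2 • x)) / ‖x‖) * VV u κ x) (volume : Measure E3) :=
    pairR_integrable (h.memd hκ) (h.VV_sq hκ).1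
  have hs := integral_scale (μ := (volume : Measure E3))
    (fun x => (u x ^ 2 * wt x) * (u x / ‖x‖)) hc0
  rw [finrank_E3] at hs
  have e1 : ∀ᵐ x ∂(volume : Measure E3), (u x ^ 2 * wt x) * ((u x - u (κ ^ 2 • x)) / ‖x‖) =
      (1 / 3 * ((u x ^ 2 * wt x) * (u x / ‖x‖)) -
      κ ^ 3 / 3 * ((u (κ ^ 2 • x) ^ 2 * wt (κ ^ 2 • x)) * (u (κ ^ 2 • x) / ‖κ ^ 2 • x‖))) +
      1 / 3 * (((u x - u (κ ^ 2 • x)) / ‖x‖) * VV u κ x) := by
    filter_upwards [ae_ne3] with x hx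
    have hx0 := norm_pos_iff.2 hx
    have hw : wt (κ ^ 2 • x) = κ⁻¹ * wt x := by
      unfold wt
      rw [norm_smul, Real.norm_of_nonneg hc0.le, Real.mul_rpow hc0.le hx0.le]
      congr 1
      rw [← Real.rpow_natCast, ← Real.rpow_mul hκ0.le]
      norm_num
      exact Real.rpow_neg_one _
    unfold VV
    rw [hw, norm_smul, Real.norm_of_nonneg hc0.le]
    field_simp
    ring
  have j12 : Integrable (fun x => 1 / 3 * ((u x ^ 2 * wt x) * (u x / ‖x‖)) -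
      κ ^ 3 / 3 * ((u (κ ^ 2 • x) ^ 2 * wt (κ ^ 2 • x)) * (u (κ ^ 2 • x) / ‖κ ^ 2 • x‖)))
      (volume : Measure E3) := (i1.const_mul _).sub (i2.const_mul _)
  have j3 : Integrable (fun x => 1 / 3 * (((u x - u (κ ^ 2 • x)) / ‖x‖) * VV u κ x))
      (volume : Measure E3) := i3.const_mul _
  rw [integral_congr_ae e1, integral_add j12 j3,
    integral_sub (i1.const_mul _) (i2.const_mul _), integral_const_mul, integral_const_mul,
    integral_const_mul, hs]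
  have : κ ^ 3 / 3 * (((κ ^ 2) ^ 3)⁻¹) = (κ ^ 3)⁻¹ / 3 := by field_simp
  rw [← mul_assoc, this]
  ring

theorem main (h0 : (0:E3) ∉ Ω) (hw : Weak Ω u G)
    (hsm : ∀ n, ContDiff ℝ ((⊤ : ℕ∞) : WithTop ℕ∞) (φ n))
    (hstar : ∀ c : ℝ, 1 ≤ c → ∀ x, c • x ∈ Ω → x ∈ Ω) : ∫ x, u x ^ 3 * u x = 0 := by
  set A := N2 G (volume : Measure E3) ^ 2 with hA
  set B := ∫ x, u x ^ 3 * u x with hB
  have hA0 : 0 ≤ A := sq_nonneg _
  have hB0 : 0 ≤ B := integral_nonneg fun x => by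
    have : u x ^ 3 * u x = (u x ^ 2) ^ 2 := by ring
    simp only [this]; positivity
  have hD : ∫ x, (u x ^ 2 * wt x) * (u x / ‖x‖) = A + B := by
    have h1 := h.test_u h0 hw hsm
    have e1 : ∫ x, inner ℝ (G x) (G x) = A := by
      rw [hA, N2_sq h.hG]; simp only [real_inner_self_eq_norm_sq]
    rw [e1] at h1
    linarith
  set K := N2 (fun x => u x ^ 3) (volume : Measure E3) with hK
  have hK0 : 0 ≤ K := N2_nonneg _
  set M := N2 G (volume : Measure E3) + 1 with hM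
  have hM0 : 0 ≤ M := add_nonneg (N2_nonneg _) zero_le_one
  -- the main estimate
  have key : ∀ σ : ℝ, 9 / 10 ≤ σ → σ < 1 → B ^ 2 ≤ 13824 * K * M ^ 3 * (1 - σ) := by
    intro σ hσ1 hσ2
    have hσ0 : 0 < σ := by linarith
    set κ := σ⁻¹ with hκ
    have hκ0 : 0 < κ := by positivity
    have hκ1 : 1 ≤ κ := (one_le_inv₀ hσ0).2 hσ2.le
    have hσκ : κ⁻¹ = σ := by rw [hκ, inv_inv]
    have hc : 1 ≤ κ ^ 2 := one_le_pow₀ hκ1
    have t := h.test_diff h0 hw hsm (c := κ ^ 2) (by positivity) (hstar _ hc)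
    have t1 := h.T1 hκ0
    have t2 := h.T2 hκ0
    have t3 := h.T3 h0 hκ1
    rw [← hA] at t1
    rw [← hB] at t2
    rw [hD] at t3
    set R := ∫ x, ((u x - u (κ ^ 2 • x)) / ‖x‖) * VV u κ x with hR
    have e3 : (κ ^ 3)⁻¹ = σ ^ 3 := by rw [← inv_pow, hσκ]
    have e6 : (κ ^ 6)⁻¹ = σ ^ 6 := by rw [← inv_pow, hσκ]
    rw [hσκ] at t1
    rw [e6] at t2
    rw [e3] at t3
    have hR1 : |R| ≤ dl u κ * N2 (VV u κ) volume := pairR_le (h.memd hκ1) (h.VV_sq hκ1).1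
    have hV := (h.VV_sq hκ1).2
    rw [← hK] at hV
    have hd := h.dl_le hκ1
    rw [← hM] at hd
    have hd0 : 0 ≤ dl u κ := N2_nonneg _
    -- δ ≤ 3 (1-σ) M
    have hd2 : dl u κ ≤ 3 * (1 - σ) * M := by
      refine hd.trans ?_
      apply mul_le_mul_of_nonneg_right _ hM0
      have : κ ^ 2 = (σ ^ 2)⁻¹ := by rw [hκ, inv_pow]
      rw [this]
      have hσs : 0 < σ ^ 2 := by positivity
      rw [sub_le_iff_le_add, inv_le_iff_one_le_mul₀ hσs]
      have e : (3 * (1 - σ) + 1) * σ ^ 2 - 1 = (1 - σ) * (3 * σ ^ 2 - σ - 1) := by ring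
      have h1 : 0 ≤ 3 * σ ^ 2 - σ - 1 := by nlinarith
      have h2 : 0 ≤ (1 - σ) * (3 * σ ^ 2 - σ - 1) := mul_nonneg (by linarith) h1
      linarith
    have hRR : R ^ 2 ≤ 32 * K * dl u κ ^ 3 := by
      have h1 : R ^ 2 = |R| ^ 2 := (sq_abs R).symm
      rw [h1]
      calc |R| ^ 2 ≤ (dl u κ * N2 (VV u κ) volume) ^ 2 := by
            apply pow_le_pow_left₀ (abs_nonneg _) hR1
        _ = dl u κ ^ 2 * N2 (VV u κ) volume ^ 2 := by ring
        _ ≤ dl u κ ^ 2 * (32 * dl u κ * K) := by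
            apply mul_le_mul_of_nonneg_left hV (by positivity)
        _ = _ := by ring
    have hd3 : dl u κ ^ 3 ≤ (3 * (1 - σ) * M) ^ 3 := pow_le_pow_left₀ hd0 hd2 3
    -- combine
    have h4 : A * ((1 - σ) - (1 - σ ^ 3) / 3) + B * ((1 - σ ^ 6) / 4 - (1 - σ ^ 3) / 3) ≤ R / 3 := by
      rw [t3] at t
      linarith
    have h5 : 0 ≤ A * ((1 - σ) - (1 - σ ^ 3) / 3) := by
      apply mul_nonneg hA0
      have : (1 - σ) - (1 - σ ^ 3) / 3 = (1 - σ) * (3 - (1 + σ + σ ^ 2)) / 3 := by ring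
      rw [this]
      have q1 : 0 ≤ 3 - (1 + σ + σ ^ 2) := by nlinarith
      have q2 : 0 ≤ 1 - σ := by linarith
      exact div_nonneg (mul_nonneg q2 q1) (by norm_num)
    have h6 : B * ((1 - σ) / 12) ≤ B * ((1 - σ ^ 6) / 4 - (1 - σ ^ 3) / 3) := by
      apply mul_le_mul_of_nonneg_left _ hB0
      have e : (1 - σ ^ 6) / 4 - (1 - σ ^ 3) / 3 = (1 - σ ^ 3) * (3 * σ ^ 3 - 1) / 12 := by ring
      rw [e]
      have h7 : (9 / 10 : ℝ) ^ 3 ≤ σ ^ 3 := pow_le_pow_left₀ (by norm_num) hσ1 3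
      have h8 : 1 ≤ 3 * σ ^ 3 - 1 := by norm_num at h7; linarith
      have h9 : 1 - σ ≤ 1 - σ ^ 3 := by
        have : σ ^ 3 ≤ σ := by
          have : σ ^ 2 ≤ 1 := by nlinarith
          nlinarith
        linarith
      have h10 : 0 ≤ 1 - σ := by linarith
      have h11 : (1 - σ) * 1 ≤ (1 - σ ^ 3) * (3 * σ ^ 3 - 1) :=
        mul_le_mul h9 h8 zero_le_one (by linarith)
      linarith
    have h7 : B * (1 - σ) ≤ 4 * R := by linarith
    have h8 : 0 ≤ B * (1 - σ) := mul_nonneg hB0 (by linarith)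
    have h9 : (B * (1 - σ)) ^ 2 ≤ (4 * R) ^ 2 := pow_le_pow_left₀ h8 h7 2
    have h10 : B ^ 2 * (1 - σ) ^ 2 ≤ 13824 * K * M ^ 3 * (1 - σ) * (1 - σ) ^ 2 := by
      calc B ^ 2 * (1 - σ) ^ 2 = (B * (1 - σ)) ^ 2 := by ring
        _ ≤ (4 * R) ^ 2 := h9
        _ = 16 * R ^ 2 := by ring
        _ ≤ 16 * (32 * K * dl u κ ^ 3) := by linarith
        _ ≤ 16 * (32 * K * (3 * (1 - σ) * M) ^ 3) := by
            have := mul_le_mul_of_nonneg_left hd3 (by positivity : 0 ≤ 16 * (32 * K))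
            linarith
        _ = _ := by ring
    have h11 : 0 < (1 - σ) ^ 2 := by
      have : 0 < 1 - σ := by linarith
      positivity
    exact le_of_mul_le_mul_right h10 h11
  -- let σ → 1
  have hlim : Tendsto (fun σ : ℝ => 13824 * K * M ^ 3 * (1 - σ)) (𝓝[<] 1) (𝓝 0) := by
    have hc : Continuous (fun σ : ℝ => 13824 * K * M ^ 3 * (1 - σ)) := by fun_prop
    have := hc.tendsto 1
    rw [sub_self, mul_zero] at this
    exact this.mono_left nhdsWithin_le_nhds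
  have hfin : B ^ 2 ≤ 0 := by
    apply ge_of_tendsto hlim
    filter_upwards [Ico_mem_nhdsLT (by norm_num : (9 / 10 : ℝ) < 1)] with σ hσ
    exact key σ hσ.1 hσ.2
  have : B ^ 2 = 0 := le_antisymm hfin (sq_nonneg _)
  exact pow_eq_zero_iff (by norm_num) |>.1 this

end H10

end Q61
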