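import Pool.Agent.Q61.L2pair
import Pool.Agent.Q61.Green

set_option autoImplicit false

open MeasureTheory Topology Filter Set ENNReal

namespace Q61

/-- three-dimensional space -/
abbrev E3 := EuclideanSpace ℝ (Fin 3)

theorem norm_gradient {φ : E3 → ℝ} (x : E3) : ‖gradient φ x‖ = ‖fderiv ℝ φ x‖ := by
  unfold gradient
  exact LinearIsometryEquiv.norm_map _ _

theorem gradient_cont {φ : E3 → ℝ} (hφ : ContDiff ℝ 1 φ) : Continuous (gradient φ) := by
  unfold gradient
  exact (LinearIsometryEquiv.continuous _).comp (hφ.continuous_fderiv (by norm_num))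

theorem gradient_compact {φ : E3 → ℝ} (hc : HasCompactSupport φ) :
    HasCompactSupport (gradient φ) := by
  unfold gradient
  exact (hc.fderiv (𝕜 := ℝ)).comp_left (map_zero _)

theorem cs_interval {h : ℝ → ℝ} (hh : Continuous h) {c : ℝ} (hc : 1 ≤ c) :
    (∫ s in (1:ℝ)..c, h s) ^ 2 ≤ (c - 1) * ∫ s in (1:ℝ)..c, h s ^ 2 := by
  rcases eq_or_lt_of_le hc with rfl | hc1
  · simp
  set m := (∫ s in (1:ℝ)..c, h s) / (c - 1) with hm
  have h1 : 0 ≤ ∫ s in (1:ℝ)..c, (h s - m) ^ 2 :=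
    intervalIntegral.integral_nonneg hc (fun _ _ => sq_nonneg _)
  have h2 : ∫ s in (1:ℝ)..c, (h s - m) ^ 2 =
      (∫ s in (1:ℝ)..c, h s ^ 2) - 2 * m * (∫ s in (1:ℝ)..c, h s) + m ^ 2 * (c - 1) := by
    have e : ∀ s, (h s - m) ^ 2 = (h s ^ 2 - (2 * m) * h s) + m ^ 2 := fun s => by ring
    simp only [e]
    have i1 : IntervalIntegrable (fun s => h s ^ 2) volume 1 c := (hh.pow 2).intervalIntegrable _ _
    have i2 : IntervalIntegrable (fun s => 2 * m * h s) volume 1 c :=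
      (continuous_const.mul hh).intervalIntegrable _ _
    rw [intervalIntegral.integral_add (i1.sub i2) (continuous_const.intervalIntegrable _ _),
      intervalIntegral.integral_sub i1 i2,
      intervalIntegral.integral_const_mul, intervalIntegral.integral_const]
    simp only [smul_eq_mul]
    ring
  have hpos : 0 < c - 1 := by linarith
  have h3 : (∫ s in (1:ℝ)..c, h s) = m * (c - 1) := by rw [hm]; field_simp
  rw [h2, h3] at h1
  rw [h3]
  nlinarith

theorem diff_pointwise {φ : E3 → ℝ} (hφ : ContDiff ℝ 1 φ) {c : ℝ} (hc : 1 ≤ c) (x : E3) :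
    ((φ x - φ (c • x)) / ‖x‖) ^ 2 ≤ (c - 1) * ∫ s in (1:ℝ)..c, ‖fderiv ℝ φ (s • x)‖ ^ 2 := by
  have hcont : Continuous (fun s : ℝ => fderiv ℝ φ (s • x)) :=
    (hφ.continuous_fderiv (by norm_num)).comp (by fun_prop)
  have hR : 0 ≤ (c - 1) * ∫ s in (1:ℝ)..c, ‖fderiv ℝ φ (s • x)‖ ^ 2 := by
    apply mul_nonneg (by linarith)
    exact intervalIntegral.integral_nonneg hc (fun _ _ => by positivity)
  rcases eq_or_ne x 0 with rfl | hx
  · simpa using hR
  have hx' : 0 < ‖x‖ := norm_pos_iff.2 hx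
  have h1 : φ (c • x) - φ x = ∫ s in (1:ℝ)..c, fderiv ℝ φ (s • x) x := by
    have hd : ∀ s ∈ uIcc (1:ℝ) c, HasDerivAt (fun s : ℝ => φ (s • x)) (fderiv ℝ φ (s • x) x) s := by
      intro s _
      have a1 : HasDerivAt (fun s : ℝ => s • x) ((1:ℝ) • x) s := (hasDerivAt_id s).smul_const x
      rw [one_smul] at a1
      exact ((hφ.differentiable (by norm_num) (s • x)).hasFDerivAt).comp_hasDerivAt s a1
    rw [intervalIntegral.integral_eq_sub_of_hasDerivAt hd
      ((hcont.clm_apply continuous_const).intervalIntegrable _ _)]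
    simp
  have h2 : |φ x - φ (c • x)| ≤ ‖x‖ * ∫ s in (1:ℝ)..c, ‖fderiv ℝ φ (s • x)‖ := by
    rw [abs_sub_comm, h1, ← Real.norm_eq_abs]
    refine (intervalIntegral.norm_integral_le_integral_norm hc).trans ?_
    rw [← intervalIntegral.integral_const_mul]
    apply intervalIntegral.integral_mono_on hc
    · exact (hcont.clm_apply continuous_const).norm.intervalIntegrable _ _
    · exact (hcont.norm.const_mul _).intervalIntegrable _ _
    · intro s _
      rw [mul_comm]
      exact ContinuousLinearMap.le_opNorm _ _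
  have h3 : |(φ x - φ (c • x)) / ‖x‖| ≤ ∫ s in (1:ℝ)..c, ‖fderiv ℝ φ (s • x)‖ := by
    rw [abs_div, abs_norm, div_le_iff₀ hx', mul_comm]
    exact h2
  have h4 := cs_interval hcont.norm hc
  calc ((φ x - φ (c • x)) / ‖x‖) ^ 2 = |(φ x - φ (c • x)) / ‖x‖| ^ 2 := (sq_abs _).symm
    _ ≤ (∫ s in (1:ℝ)..c, ‖fderiv ℝ φ (s • x)‖) ^ 2 := by
        apply pow_le_pow_left₀ (abs_nonneg _) h3
    _ ≤ _ := h4

theorem diff_lintegral {φ : E3 → ℝ} (hφ : ContDiff ℝ 1 φ) {c : ℝ} (hc : 1 ≤ c) :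
    ∫⁻ x, ENNReal.ofReal (((φ x - φ (c • x)) / ‖x‖) ^ 2) ≤
      ENNReal.ofReal (c - 1) ^ 2 * ∫⁻ x, ENNReal.ofReal (‖fderiv ℝ φ x‖ ^ 2) := by
  have hcf := hφ.continuous_fderiv (by norm_num : (1 : WithTop ℕ∞) ≠ 0)
  have hmeas : Measurable (fun p : E3 × ℝ => ENNReal.ofReal (‖fderiv ℝ φ (p.2 • p.1)‖ ^ 2)) := by
    apply Measurable.ennreal_ofReal
    apply Continuous.measurable
    exact ((hcf.comp (by fun_prop)).norm.pow 2)
  calc ∫⁻ x, ENNReal.ofReal (((φ x - φ (c • x)) / ‖x‖) ^ 2)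
      ≤ ∫⁻ x, ENNReal.ofReal (c - 1) *
          ∫⁻ s in Ioc 1 c, ENNReal.ofReal (‖fderiv ℝ φ (s • x)‖ ^ 2) := by
        apply lintegral_mono
        intro x
        refine (ENNReal.ofReal_le_ofReal (diff_pointwise hφ hc x)).trans (le_of_eq ?_)
        rw [ENNReal.ofReal_mul (by linarith), intervalIntegral.integral_of_le hc,
          ofReal_integral_eq_lintegral_ofReal]
        · have : Continuous (fun s : ℝ => ‖fderiv ℝ φ (s • x)‖ ^ 2) :=
            (hcf.comp (by fun_prop)).norm.pow 2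
          exact this.integrableOn_Ioc
        · exact ae_of_all _ fun s => by positivity
    _ = ENNReal.ofReal (c - 1) * ∫⁻ x, ∫⁻ s in Ioc 1 c,
          ENNReal.ofReal (‖fderiv ℝ φ (s • x)‖ ^ 2) := by
        rw [lintegral_const_mul _ (hmeas.lintegral_prod_right')]
    _ = ENNReal.ofReal (c - 1) * ∫⁻ s in Ioc 1 c, ∫⁻ x : E3,
          ENNReal.ofReal (‖fderiv ℝ φ (s • x)‖ ^ 2) := by
        rw [lintegral_lintegral_swap hmeas.aemeasurable]
    _ ≤ ENNReal.ofReal (c - 1) * ∫⁻ _s in Ioc 1 c, ∫⁻ x : E3,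
          ENNReal.ofReal (‖fderiv ℝ φ x‖ ^ 2) := by
        refine mul_le_mul' le_rfl ?_
        apply setLIntegral_mono measurable_const
        intro s hs
        have hs1 : 1 ≤ s := hs.1.le
        have hs0 : 0 < s := by linarith
        have h1 := Measure.map_addHaar_smul (volume : Measure E3) hs0.ne'
        have hm : Measurable (fun x : E3 => ENNReal.ofReal (‖fderiv ℝ φ x‖ ^ 2)) :=
          (hcf.norm.pow 2).measurable.ennreal_ofReal
        have h2 := lintegral_map hm (measurable_const_smul s) (μ := (volume : Measure E3))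
        rw [← h2, h1, lintegral_smul_measure, abs_of_pos (by positivity)]
        have h3 : ENNReal.ofReal ((s ^ Module.finrank ℝ E3)⁻¹) ≤ 1 := by
          rw [← ENNReal.ofReal_one]
          apply ENNReal.ofReal_le_ofReal
          apply inv_le_one_of_one_le₀
          exact one_le_pow₀ hs1
        rw [smul_eq_mul]
        exact mul_le_of_le_one_left' h3
    _ = _ := by
        rw [setLIntegral_const, Real.volume_Ioc]
        ring

theorem eLpNorm_two_eq {α : Type*} [MeasurableSpace α] {μ : Measure α} {F : Type*}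
    [NormedAddCommGroup F] (f : α → F) :
    eLpNorm f 2 μ = (∫⁻ x, ENNReal.ofReal (‖f x‖ ^ 2) ∂μ) ^ (1 / 2 : ℝ) := by
  rw [eLpNorm_eq_lintegral_rpow_enorm_toReal (by norm_num) (by norm_num)]
  simp only [ENNReal.toReal_ofNat]
  congr 2
  funext x
  rw [← ofReal_norm, ENNReal.ofReal_rpow_of_nonneg (norm_nonneg _) (by norm_num)]
  norm_num

theorem diff_bound {φ : E3 → ℝ} (hφ : ContDiff ℝ 1 φ) {c : ℝ} (hc : 1 ≤ c) :
    eLpNorm (fun x => (φ x - φ (c • x)) / ‖x‖) 2 volume ≤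
      ENNReal.ofReal (c - 1) * eLpNorm (gradient φ) 2 volume := by
  rw [eLpNorm_two_eq, eLpNorm_two_eq]
  have h1 := diff_lintegral hφ hc
  have e1 : ∀ x, ‖(φ x - φ (c • x)) / ‖x‖‖ ^ 2 = ((φ x - φ (c • x)) / ‖x‖) ^ 2 := fun x => by
    rw [Real.norm_eq_abs, sq_abs]
  simp only [e1, norm_gradient]
  calc _ ≤ (ENNReal.ofReal (c - 1) ^ 2 * ∫⁻ x, ENNReal.ofReal (‖fderiv ℝ φ x‖ ^ 2)) ^ (1 / 2 : ℝ) := by
        gcongr
    _ = _ := by
        rw [ENNReal.mul_rpow_of_nonneg _ _ (by norm_num), ← ENNReal.rpow_natCast,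
          ← ENNReal.rpow_mul]
        norm_num

theorem memLp_div_norm {φ : E3 → ℝ} (hφ : Continuous φ) (hc : HasCompactSupport φ)
    (h0 : (0:E3) ∉ tsupport φ) : MemLp (fun x => φ x / ‖x‖) 2 volume := by
  have h1 : Continuous (fun x => ‖x‖⁻¹ • φ x) := by
    apply continuous_mul_of_tsupport _ hφ
    intro x hx
    have : x ≠ 0 := fun h => h0 (h ▸ hx)
    exact continuous_norm.continuousAt.inv₀ (norm_ne_zero_iff.2 this)
  have h2 : (fun x => φ x / ‖x‖) = fun x => ‖x‖⁻¹ • φ x := by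
    funext x; rw [smul_eq_mul, div_eq_mul_inv, mul_comm]
  rw [h2]
  exact h1.memLp_of_hasCompactSupport (hc.smul_left (f := fun x : E3 => ‖x‖⁻¹))

/-- Hardy's inequality with a non-sharp constant. -/
theorem hardy3 {φ : E3 → ℝ} (hφ : ContDiff ℝ 1 φ) (hc : HasCompactSupport φ)
    (h0 : (0:E3) ∉ tsupport φ) :
    N2 (fun x => φ x / ‖x‖) volume ≤ 4 * N2 (gradient φ) volume := by
  have hm := memLp_div_norm hφ.continuous hc h0
  have hgm : MemLp (gradient φ) 2 (volume : Measure E3) :=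
    (gradient_cont hφ).memLp_of_hasCompactSupport (gradient_compact hc)
  have hm2 : MemLp (fun x : E3 => φ ((2:ℝ) • x) / ‖x‖) 2 volume := by
    have := (memLp_scale (c := 2) (by norm_num) hm).const_mul (2:ℝ)
    refine (memLp_congr_ae (ae_of_all _ fun x => ?_)).1 this
    rw [norm_smul, Real.norm_of_nonneg (by norm_num)]
    rcases eq_or_ne x 0 with rfl | hx
    · simp
    · have := norm_pos_iff.2 hx
      field_simp
  have hdm : MemLp (fun x : E3 => (φ x - φ ((2:ℝ) • x)) / ‖x‖) 2 volume := by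
    have := hm.sub hm2
    refine (memLp_congr_ae (ae_of_all _ fun x => ?_)).1 this
    simp only [Pi.sub_apply]; ring
  have h1 : N2 (fun x : E3 => (φ x - φ ((2:ℝ) • x)) / ‖x‖) volume ≤ N2 (gradient φ) volume := by
    have := diff_bound hφ (c := 2) (by norm_num)
    norm_num at this
    exact ENNReal.toReal_mono hgm.2.ne this
  have h2 : N2 (fun x : E3 => φ ((2:ℝ) • x) / ‖x‖) volume ≤ 3 / 4 * N2 (fun x => φ x / ‖x‖) volume := by
    have e : ∀ x : E3, ‖φ ((2:ℝ) • x) / ‖x‖‖ ^ 2 = 4 * ‖φ ((2:ℝ) • x) / ‖(2:ℝ) • x‖‖ ^ 2 := by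
      intro x
      rw [norm_smul, Real.norm_of_nonneg (by norm_num : (0:ℝ) ≤ 2), norm_div, norm_div, norm_norm,
        norm_mul, norm_norm, Real.norm_of_nonneg (by norm_num : (0:ℝ) ≤ 2), div_pow, div_pow,
        mul_pow]
      rcases eq_or_ne x 0 with rfl | hx
      · simp
      · have := norm_pos_iff.2 hx
        field_simp
        ring
    have hsq : N2 (fun x : E3 => φ ((2:ℝ) • x) / ‖x‖) volume ^ 2 =
        1 / 2 * N2 (fun x => φ x / ‖x‖) volume ^ 2 := by
      rw [N2_sq hm2, N2_sq hm]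
      simp only [e]
      have := integral_scale (μ := (volume : Measure E3))
        (fun x => 4 * ‖φ x / ‖x‖‖ ^ 2) (c := 2) (by norm_num)
      have hf : Module.finrank ℝ E3 = 3 := by simp [E3]
      rw [hf] at this
      rw [this, integral_const_mul]
      ring
    have h3 := N2_nonneg (μ := (volume : Measure E3)) (fun x : E3 => φ x / ‖x‖)
    have h4 := N2_nonneg (μ := (volume : Measure E3)) (fun x : E3 => φ ((2:ℝ) • x) / ‖x‖)
    nlinarith
  have h3 : N2 (fun x => φ x / ‖x‖) volume ≤ N2 (fun x : E3 => (φ x - φ ((2:ℝ) • x)) / ‖x‖) volume +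
      N2 (fun x : E3 => φ ((2:ℝ) • x) / ‖x‖) volume := by
    have := N2_add_le hdm hm2
    refine le_trans (le_of_eq ?_) this
    congr 1; funext x
    simp only [Pi.add_apply]; ring
  linarith

/-- the Sobolev inequality -/
theorem sobolev3 : ∃ C : ℝ, 0 ≤ C ∧ ∀ φ : E3 → ℝ, ContDiff ℝ 1 φ → HasCompactSupport φ →
    eLpNorm φ 6 volume ≤ ENNReal.ofReal C * eLpNorm (gradient φ) 2 volume := by
  set K := SNormLESNormFDerivOfEqConst ℝ (volume : Measure E3) 2 with hK
  refine ⟨K, K.coe_nonneg, fun φ hφ hc => ?_⟩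
  have hf : Module.finrank ℝ E3 = 3 := by simp [E3]
  have h := eLpNorm_le_eLpNorm_fderiv_of_eq (μ := (volume : Measure E3)) (F := ℝ) hφ hc (p := 2)
    (p' := 6) (by norm_num) (by rw [hf]; norm_num) (by rw [hf]; norm_num)
  have e : eLpNorm (fderiv ℝ φ) ((2 : NNReal) : ℝ≥0∞) volume = eLpNorm (gradient φ) 2 volume := by
    apply eLpNorm_congr_norm_ae
    exact ae_of_all _ fun x => (norm_gradient x).symm
  rw [e] at h
  rw [ENNReal.ofReal_coe_nnreal]
  exact_mod_cast h

end Q61
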