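import Pool.Agent.Q61.KH11

/-! Mollification and local mean oscillation. -/

set_option autoImplicit false
open MeasureTheory Metric Set Filter Topology H248.ID
open scoped ENNReal NNReal ContDiff

namespace Q61.KC

open Q61.KH

/-- the mean oscillation of `f` around its value at `x` -/
noncomputable def osc {n : ℕ} (ε : ℝ) (f : E n → ℝ) (x : E n) : ℝ :=
  (ε⁻¹) ^ n * ∫ t in closedBall x (2 * ε), |f t - f x|

lemma osc_nonneg {n : ℕ} {ε : ℝ} (hε : 0 < ε) (f : E n → ℝ) (x : E n) : 0 ≤ osc ε f x := by
  unfold osc
  have : 0 ≤ ∫ t in closedBall x (2 * ε), |f t - f x| := integral_nonneg fun _ => abs_nonneg _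
  positivity

lemma osc_int {n : ℕ} {f : E n → ℝ} (hf : Continuous f) (x : E n) (r : ℝ) :
    IntegrableOn (fun t => |f t - f x|) (closedBall x r) :=
  ((hf.sub continuous_const).abs.continuousOn).integrableOn_compact (isCompact_closedBall _ _)

/-- halving the scale -/
lemma osc_half {n : ℕ} {ε : ℝ} (hε : 0 < ε) {f : E n → ℝ} (hf : Continuous f) (x : E n) :
    osc (ε / 2) f x ≤ 2 ^ n * osc ε f x := by
  unfold osc
  have h1 : ∫ t in closedBall x (2 * (ε / 2)), |f t - f x| ≤
      ∫ t in closedBall x (2 * ε), |f t - f x| := by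
    refine setIntegral_mono_set (osc_int hf x _) (Eventually.of_forall fun _ => abs_nonneg _) ?_
    exact (closedBall_subset_closedBall (by linarith)).eventuallyLE
  have h2 : ((ε / 2)⁻¹) ^ n = 2 ^ n * (ε⁻¹) ^ n := by
    rw [← mul_pow]; congr 1; field_simp
  rw [h2, mul_assoc]
  exact mul_le_mul_of_nonneg_left (mul_le_mul_of_nonneg_left h1 (by positivity)) (by positivity)

/-- the mollification is close to the function in terms of the oscillation -/
lemma moll_osc (n : ℕ) : ∃ C : ℝ, 0 < C ∧ ∀ {ε : ℝ}, 0 < ε → ∀ {f : E n → ℝ}, Continuous f →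
    ∀ x : E n, |moll ε f x - f x| ≤ C * osc ε f x := by
  obtain ⟨L, hL, hLip⟩ := rho_lip n
  -- a bound for the kernel
  have hb : ∃ M : ℝ, 0 < M ∧ ∀ x : E n, |rho n x| ≤ M := by
    obtain ⟨M, hM⟩ := (rho_supp (n := n)).exists_bound_of_continuous rho_smooth.continuous
    exact ⟨|M| + 1, by positivity, fun x => by
      have := hM x
      rw [Real.norm_eq_abs] at this
      linarith [le_abs_self M]⟩
  obtain ⟨M, hM0, hM⟩ := hb
  refine ⟨M, hM0, ?_⟩
  intro ε hε f hf x
  have h1 : moll ε f x - f x = ∫ t, (f t - f x) * re n ε (x - t) := by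
    have : f x = ∫ t, f x * re n ε (x - t) := by
      rw [integral_const_mul, re_sub_int hε, mul_one]
    conv_lhs => rw [this]
    unfold moll
    rw [← integral_sub (mul_integrable hε hf x) ((sub_integrable hε x).const_mul _)]
    congr 1
    funext t
    ring
  rw [h1]
  have hb : ∀ t, ‖(f t - f x) * re n ε (x - t)‖ ≤
      (closedBall x (2 * ε)).indicator (fun t => M * (ε⁻¹) ^ n * |f t - f x|) t := by
    intro t
    by_cases ht : t ∈ closedBall x (2 * ε)
    · rw [indicator_of_mem ht, norm_mul, Real.norm_eq_abs, Real.norm_eq_abs]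
      unfold re
      rw [abs_mul, abs_of_nonneg (by positivity : (0:ℝ) ≤ (ε⁻¹) ^ n)]
      have h2 := hM (ε⁻¹ • (x - t))
      have h3 : 0 ≤ |f t - f x| := abs_nonneg _
      have h4 : (0:ℝ) ≤ (ε⁻¹) ^ n := by positivity
      calc |f t - f x| * ((ε⁻¹) ^ n * |rho n (ε⁻¹ • (x - t))|)
          ≤ |f t - f x| * ((ε⁻¹) ^ n * M) :=
            mul_le_mul_of_nonneg_left (mul_le_mul_of_nonneg_left h2 h4) h3
        _ = _ := by ring
    · rw [indicator_of_notMem ht]
      rw [mem_closedBall, dist_eq_norm, not_le] at ht
      have e1 : re n ε (x - t) = 0 := by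
        apply re_zero hε
        rw [norm_sub_rev]
        linarith
      rw [e1]
      simp
  rw [← Real.norm_eq_abs]
  refine (norm_integral_le_of_norm_le ?_ (Filter.Eventually.of_forall hb)).trans ?_
  · refine (integrable_indicator_iff isClosed_closedBall.measurableSet).mpr ?_
    exact (osc_int hf x _).const_mul _
  · rw [integral_indicator isClosed_closedBall.measurableSet, integral_const_mul]
    unfold osc
    rw [mul_assoc]

/-- the derivatives of the mollification in terms of the oscillation -/
lemma moll_pd_osc (n : ℕ) : ∃ C : ℝ, 0 < C ∧ ∀ {ε : ℝ}, 0 < ε → ∀ {f : E n → ℝ}, Continuous f →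
    ∀ (j : Fin n) (x : E n), |pd (moll ε f) j x| ≤ C * (ε⁻¹ * osc ε f x) := by
  obtain ⟨L, hL, hLip⟩ := rho_lip n
  refine ⟨L + 1, by positivity, ?_⟩
  intro ε hε f hf j x
  have hosc := osc_nonneg hε f x
  have key : ∀ y : E n, ‖y - x‖ ≤ ε → |moll ε f y - moll ε f x| ≤
      (L * (ε⁻¹ * osc ε f x)) * ‖y - x‖ := by
    intro y hy
    have h1 : moll ε f y - moll ε f x
        = ∫ t, (f t - f x) * (re n ε (y - t) - re n ε (x - t)) := by
      have e1 : moll ε f y = (∫ t, (f t - f x) * re n ε (y - t)) + f x := by
        have : f x = ∫ t, f x * re n ε (y - t) := by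
          rw [integral_const_mul, re_sub_int hε, mul_one]
        conv_rhs => rw [this]
        rw [← integral_add]
        · unfold moll
          congr 1
          funext t
          rw [integral_const_mul, re_sub_int hε]
          ring
        · exact mul_integrable hε (hf.sub continuous_const) y
        · exact (sub_integrable hε y).const_mul _
      have e2 : moll ε f x = (∫ t, (f t - f x) * re n ε (x - t)) + f x := by
        have : f x = ∫ t, f x * re n ε (x - t) := by
          rw [integral_const_mul, re_sub_int hε, mul_one]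
        conv_rhs => rw [this]
        rw [← integral_add]
        · unfold moll
          congr 1
          funext t
          rw [integral_const_mul, re_sub_int hε]
          ring
        · exact mul_integrable hε (hf.sub continuous_const) x
        · exact (sub_integrable hε x).const_mul _
      rw [e1, e2, add_sub_add_right_eq_sub, ← integral_sub
        (mul_integrable hε (f := fun t => f t - f x) (hf.sub continuous_const) y)
        (mul_integrable hε (f := fun t => f t - f x) (hf.sub continuous_const) x)]
      congr 1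
      funext t
      ring
    rw [h1]
    have hb : ∀ t, ‖(f t - f x) * (re n ε (y - t) - re n ε (x - t))‖ ≤
        (closedBall x (2 * ε)).indicator
          (fun t => (ε⁻¹) ^ n * (L * (ε⁻¹ * ‖y - x‖)) * |f t - f x|) t := by
      intro t
      by_cases ht : t ∈ closedBall x (2 * ε)
      · rw [indicator_of_mem ht, norm_mul, mul_comm, Real.norm_eq_abs, Real.norm_eq_abs]
        refine mul_le_mul_of_nonneg_right ?_ (abs_nonneg _)
        unfold re
        rw [← mul_sub, abs_mul, abs_of_nonneg (by positivity : (0:ℝ) ≤ (ε⁻¹) ^ n)]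
        refine mul_le_mul_of_nonneg_left ?_ (by positivity)
        refine (hLip _ _).trans (mul_le_mul_of_nonneg_left ?_ hL)
        rw [← smul_sub, sub_sub_sub_cancel_right, norm_smul, norm_inv,
          Real.norm_of_nonneg hε.le]
      · rw [indicator_of_notMem ht]
        rw [mem_closedBall, dist_eq_norm, not_le] at ht
        have e1 : re n ε (x - t) = 0 := by
          apply re_zero hε
          rw [norm_sub_rev]
          linarith
        have e2 : re n ε (y - t) = 0 := by
          apply re_zero hε
          have : ‖t - x‖ ≤ ‖y - t‖ + ‖y - x‖ := by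
            calc ‖t - x‖ = ‖(t - y) + (y - x)‖ := by congr 1; abel
              _ ≤ ‖t - y‖ + ‖y - x‖ := norm_add_le _ _
              _ = _ := by rw [norm_sub_rev t y]
          linarith
        rw [e1, e2]
        simp
    rw [← Real.norm_eq_abs]
    refine (norm_integral_le_of_norm_le ?_ (Filter.Eventually.of_forall hb)).trans ?_
    · refine (integrable_indicator_iff isClosed_closedBall.measurableSet).mpr ?_
      exact (osc_int hf x _).const_mul _
    · rw [integral_indicator isClosed_closedBall.measurableSet, integral_const_mul]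
      unfold osc
      apply le_of_eq
      ring
  have hC : (0:ℝ) ≤ L * (ε⁻¹ * osc ε f x) := by positivity
  have hf1 : ‖fderiv ℝ (moll ε f) x‖ ≤ L * (ε⁻¹ * osc ε f x) := by
    refine norm_fderiv_le_of_lip' ℝ hC ?_
    filter_upwards [Metric.closedBall_mem_nhds x hε] with y hy
    rw [Real.norm_eq_abs]
    exact key y (by rwa [mem_closedBall, dist_eq_norm] at hy)
  unfold pd
  calc |fderiv ℝ (moll ε f) x (Pi.single j 1)| ≤ ‖fderiv ℝ (moll ε f) x‖ * ‖(Pi.single j 1 : E n)‖ :=
        (fderiv ℝ (moll ε f) x).le_opNorm _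
    _ ≤ (L * (ε⁻¹ * osc ε f x)) * 1 := by
        refine mul_le_mul hf1 ?_ (norm_nonneg _) hC
        rw [Pi.norm_single]
        simp
    _ ≤ (L + 1) * (ε⁻¹ * osc ε f x) := by
        have : 0 ≤ ε⁻¹ * osc ε f x := by positivity
        nlinarith

/-- Jensen's inequality for the oscillation -/
lemma osc_pow {n : ℕ} {ε : ℝ} (hε : 0 < ε) {f : E n → ℝ} (hf : Continuous f) {p : ℝ}
    (hp : 1 ≤ p) (x : E n) :
    osc ε f x ^ p ≤ (4 ^ n) ^ p * ((4 ^ n)⁻¹ * (ε⁻¹) ^ n *
      ∫ t in closedBall x (2 * ε), |f t - f x| ^ p) := by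
  have hcb : volume.real (closedBall x (2 * ε)) = (4 * ε) ^ n := by
    rw [measureReal_def, Real.volume_pi_closedBall x (by positivity), Fintype.card_fin,
      ENNReal.toReal_ofReal (by positivity)]
    ring
  have hfin : volume (closedBall x (2 * ε)) ≠ ⊤ := (isCompact_closedBall x (2 * ε)).measure_ne_top
  have hpos : volume (closedBall x (2 * ε)) ≠ 0 := by
    intro h0
    rw [measureReal_def, h0] at hcb
    simp only [ENNReal.toReal_zero] at hcb
    have : 0 < (4 * ε) ^ n := by positivity
    linarith
  have hconv := convexOn_rpow hp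
  have h1 := ConvexOn.map_set_average_le (μ := volume) (t := closedBall x (2 * ε))
    (f := fun t => |f t - f x|) hconv
    (Real.continuous_rpow_const (by linarith)).continuousOn
    isClosed_Ici hpos hfin ?_ (osc_int hf x _) ?_
  · rw [setAverage_eq, setAverage_eq, hcb, smul_eq_mul, smul_eq_mul] at h1
    have e1 : osc ε f x = 4 ^ n * (((4 * ε) ^ n)⁻¹ * ∫ t in closedBall x (2 * ε), |f t - f x|) := by
      unfold osc
      rw [mul_pow, mul_inv, inv_pow]
      field_simp
    rw [e1, Real.mul_rpow (by positivity) (by
      have : 0 ≤ ∫ t in closedBall x (2 * ε), |f t - f x| := integral_nonneg fun _ => abs_nonneg _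
      positivity)]
    refine mul_le_mul_of_nonneg_left (h1.trans (le_of_eq ?_)) (by positivity)
    rw [mul_pow, mul_inv, inv_pow]
  · exact Eventually.of_forall fun t => mem_Ici.2 (abs_nonneg _)
  · exact (((hf.sub continuous_const).abs.rpow_const fun _ => Or.inr (by linarith)).continuousOn
      ).integrableOn_compact (isCompact_closedBall _ _)

end Q61.KC
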