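import Pool.Agent.Q61.KC1

/-! Comparison of the weighted Jacobian integrals of two maps, integrated form. -/

set_option autoImplicit false
open MeasureTheory Metric Set Filter Topology H248.ID
open scoped ENNReal NNReal ContDiff

namespace Q61.KC

open Q61.KH

/-- the basic bound, integrated form -/
lemma T_boundI {n : ℕ} {ψ : E n → ℝ} {u : E n → E n} {j : Fin n} {η : E n → ℝ} {Dη : ℝ}
    {S : Set (E n)} (hS : MeasurableSet S) {P : E n → ℝ} (hs : ∀ x, x ∉ S → fderiv ℝ η x = 0)
    (hψ : ∀ x ∈ S, |ψ x| ≤ P x) (hD : ∀ k x, |pd η k x| ≤ Dη) (hD0 : 0 ≤ Dη)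
    {r : Fin n → E n → ℝ}
    (hr : ∀ x ∈ S, ∀ l k, l ≠ j → |pd (fun y => u y l) k x| ≤ r l x) :
    ENNReal.ofReal |TT ψ u j η| ≤
      ∫⁻ x in S, ENNReal.ofReal (P x * (n.factorial * (Dη * ∏ l ∈ Finset.univ.erase j, r l x))) := by
  have hrd : ∀ x ∈ S, |rd u j η x| ≤ n.factorial * (Dη * ∏ l ∈ Finset.univ.erase j, r l x) := by
    intro x hx
    unfold rd
    refine (det_bound _ (Function.update (fun l => r l x) j Dη) ?_).trans ?_
    · intro i k
      by_cases h : i = j
      · subst h
        rw [Matrix.updateRow_self, Function.update_self]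
        exact hD k x
      · rw [Matrix.updateRow_ne h, Function.update_of_ne h]
        exact hr x hx i k h
    · apply le_of_eq
      congr 1
      rw [← Finset.mul_prod_erase Finset.univ _ (Finset.mem_univ j), Function.update_self]
      congr 1
      exact Finset.prod_congr rfl fun l hl =>
        Function.update_of_ne (Finset.mem_erase.mp hl).1 _ _
  unfold TT
  rw [← Real.norm_eq_abs, ofReal_norm]
  refine (enorm_integral_le_lintegral_enorm _).trans ?_
  rw [← lintegral_indicator hS]
  refine lintegral_mono fun x => ?_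
  by_cases hx : x ∈ S
  · rw [indicator_of_mem hx, ← ofReal_norm, norm_mul, Real.norm_eq_abs, Real.norm_eq_abs]
    refine ENNReal.ofReal_le_ofReal ?_
    exact mul_le_mul (hψ x hx) (hrd x hx) (abs_nonneg _) ((abs_nonneg _).trans (hψ x hx))
  · rw [indicator_of_notMem hx, rd_zero u j (hs x hx), mul_zero]
    simp

/-- change of one component -/
lemma JJ_oneI {n : ℕ} {g : E n → ℝ} (hg : ContDiff ℝ ∞ g) (hgc : HasCompactSupport g)
    (hg1 : ∀ x, |g x| ≤ 1) {c : E n → E n} (hcs : ContDiff ℝ ∞ c) (i : Fin n) {a b : E n → ℝ}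
    (ha : ContDiff ℝ ∞ a) (hb : ContDiff ℝ ∞ b) {η : E n → ℝ} (hη : ContDiff ℝ ∞ η)
    (hc : HasCompactSupport η) {Dη : ℝ} {δ : E n → ℝ} {r : Fin n → E n → ℝ}
    {S : Set (E n)} (hS : MeasurableSet S) (hs : ∀ x, x ∉ S → fderiv ℝ η x = 0)
    (hD : ∀ k x, |pd η k x| ≤ Dη) (hD0 : 0 ≤ Dη)
    (hδ : ∀ x ∈ S, |a x - b x| ≤ δ x)
    (hr : ∀ x ∈ S, ∀ l k, l ≠ i → |pd (fun y => c y l) k x| ≤ r l x) :
    ENNReal.ofReal |JJ g (repl c i a) η - JJ g (repl c i b) η| ≤
      ∫⁻ x in S, ENNReal.ofReal (δ x * (n.factorial * (Dη * ∏ l ∈ Finset.univ.erase i, r l x))) := by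
  obtain ⟨G, hGs, hGp, hGl⟩ := antideriv hg hgc hg1 i
  have hsa := repl_smooth hcs i ha
  have hsb := repl_smooth hcs i hb
  have e1 : ∀ {a : E n → ℝ}, ContDiff ℝ ∞ a →
      JJ g (repl c i a) η = - TT (fun x => G (repl c i a x)) c i η := by
    intro a ha
    have h1 := J02.ibp_smooth (repl_smooth hcs i ha) hη hc hGs i
    unfold JJ TT
    simp only [hGp] at h1
    rw [h1]
    congr 1
    congr 1
    funext x
    rw [← J02.aux_det]
    unfold rd
    rw [jac_repl, Matrix.updateRow_idem]
  rw [e1 ha, e1 hb]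
  have e2 : -TT (fun x => G (repl c i a x)) c i η - -TT (fun x => G (repl c i b x)) c i η
      = - TT (fun x => G (repl c i a x) - G (repl c i b x)) c i η := by
    rw [T_sub (ψ := fun x => G (repl c i a x)) (φ := fun x => G (repl c i b x))
      (hGs.continuous.comp hsa.continuous) (hGs.continuous.comp hsb.continuous) hcs i hη hc]
    ring
  rw [e2, abs_neg]
  refine T_boundI hS hs ?_ hD hD0 hr
  intro x hx
  exact (hGl (c x) (a x) (b x)).trans (hδ x hx)

/-- comparison of two maps -/
lemma JJ_twoI {n : ℕ} {g : E n → ℝ} (hg : ContDiff ℝ ∞ g) (hgc : HasCompactSupport g)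
    (hg1 : ∀ x, |g x| ≤ 1) {u w : E n → E n} (hu : ContDiff ℝ ∞ u) (hw : ContDiff ℝ ∞ w)
    {η : E n → ℝ} (hη : ContDiff ℝ ∞ η)
    (hc : HasCompactSupport η) {Dη : ℝ} {δ r : Fin n → E n → ℝ}
    {S : Set (E n)} (hS : MeasurableSet S) (hs : ∀ x, x ∉ S → fderiv ℝ η x = 0)
    (hD : ∀ k x, |pd η k x| ≤ Dη) (hD0 : 0 ≤ Dη)
    (hδ : ∀ x ∈ S, ∀ l, |u x l - w x l| ≤ δ l x)
    (hur : ∀ x ∈ S, ∀ l k, |pd (fun y => u y l) k x| ≤ r l x)
    (hwr : ∀ x ∈ S, ∀ l k, |pd (fun y => w y l) k x| ≤ r l x) :
    ENNReal.ofReal |JJ g u η - JJ g w η| ≤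
      ∑ i, ∫⁻ x in S, ENNReal.ofReal
        (δ i x * (n.factorial * (Dη * ∏ l ∈ Finset.univ.erase i, r l x))) := by
  have key : ∀ s : Finset (Fin n), ENNReal.ofReal |JJ g (mix s u w) η - JJ g w η| ≤
      ∑ i ∈ s, ∫⁻ x in S, ENNReal.ofReal
        (δ i x * (n.factorial * (Dη * ∏ l ∈ Finset.univ.erase i, r l x))) := by
    intro s
    induction s using Finset.induction_on with
    | empty =>
      have : mix ∅ u w = w := by
        funext x l
        simp [mix]
      rw [this]
      simp
    | insert i s his ih =>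
      have e1 : mix (insert i s) u w = repl (mix s u w) i (fun x => u x i) := by
        funext x l
        unfold mix repl
        by_cases h : l = i
        · subst h
          simp
        · rw [Function.update_of_ne h]
          simp [h]
      have e2 : mix s u w = repl (mix s u w) i (fun x => w x i) := by
        funext x l
        unfold repl
        by_cases h : l = i
        · subst h
          rw [Function.update_self]
          simp [mix, his]
        · rw [Function.update_of_ne h]
      have hm := mix_smooth s hu hw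
      have h1 := JJ_oneI hg hgc hg1 hm i ((contDiff_pi.mp hu) i) ((contDiff_pi.mp hw) i) hη hc
        hS hs hD hD0 (fun x hx => hδ x hx i) (r := r) (by
          intro x hx l k _
          unfold mix
          by_cases hl : l ∈ s
          · simpa [hl] using hur x hx l k
          · simpa [hl] using hwr x hx l k)
      rw [← e1, ← e2] at h1
      rw [Finset.sum_insert his]
      calc ENNReal.ofReal |JJ g (mix (insert i s) u w) η - JJ g w η|
          = ENNReal.ofReal |(JJ g (mix (insert i s) u w) η - JJ g (mix s u w) η)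
            + (JJ g (mix s u w) η - JJ g w η)| := by ring_nf
        _ ≤ ENNReal.ofReal (|JJ g (mix (insert i s) u w) η - JJ g (mix s u w) η|
            + |JJ g (mix s u w) η - JJ g w η|) := ENNReal.ofReal_le_ofReal (abs_add_le _ _)
        _ = ENNReal.ofReal |JJ g (mix (insert i s) u w) η - JJ g (mix s u w) η|
            + ENNReal.ofReal |JJ g (mix s u w) η - JJ g w η| :=
            ENNReal.ofReal_add (abs_nonneg _) (abs_nonneg _)
        _ ≤ _ := add_le_add h1 ih
  have h := key Finset.univ
  have e : mix Finset.univ u w = u := by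
    funext x l
    simp [mix]
  rwa [e] at h

end Q61.KC
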