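import Pool.Agent.Q61.KC2

/-! Summation of the oscillations over the dyadic scales. -/

set_option autoImplicit false
open MeasureTheory Metric Set Filter Topology H248.ID
open scoped ENNReal NNReal ContDiff

namespace Q61.KC

open Q61.KH

/-- the dyadic scales -/
noncomputable def ee (k : ℕ) : ℝ := (1 / 2 : ℝ) ^ k

lemma ee_pos (k : ℕ) : 0 < ee k := by unfold ee; positivity

lemma ee_succ (k : ℕ) : ee (k + 1) = ee k / 2 := by unfold ee; rw [pow_succ]; ring

lemma ee_rpow (k : ℕ) (a : ℝ) : ee k ^ (-a) = ((2 : ℝ) ^ a) ^ k := by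
  unfold ee
  rw [← Real.rpow_natCast ((1:ℝ)/2) k, ← Real.rpow_mul (by norm_num), one_div,
    Real.inv_rpow (by norm_num), ← Real.rpow_neg (by norm_num), ← Real.rpow_natCast,
    ← Real.rpow_mul (by norm_num)]
  congr 1
  ring

/-- the geometric sum over the scales larger than `τ / 2` -/
lemma geo {q : ℝ} (hq : 0 < q) {τ : ℝ} (hτ : 0 < τ) (N : ℕ) :
    ∑ k ∈ Finset.range N, (if τ ≤ 2 * ee k then ((2 : ℝ) ^ q) ^ k else 0) ≤
      (2 : ℝ) ^ q / ((2 : ℝ) ^ q - 1) * (2 ^ q * τ ^ (-q)) := by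
  set c : ℝ := (2 : ℝ) ^ q with hc
  have hc1 : 1 < c := Real.one_lt_rpow (by norm_num) hq
  have hc0 : 0 < c - 1 := by linarith
  have hall : ∀ N : ℕ, ∑ k ∈ Finset.range N, c ^ k ≤ c ^ N / (c - 1) := by
    intro N
    rw [geom_sum_eq hc1.ne']
    exact div_le_div_of_nonneg_right (by linarith) hc0.le
  induction N with
  | zero =>
    simp only [Finset.range_zero, Finset.sum_empty]
    positivity
  | succ N ih =>
    by_cases h : τ ≤ 2 * ee N
    · have h1 : ∑ k ∈ Finset.range (N + 1), (if τ ≤ 2 * ee k then c ^ k else 0) ≤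
          ∑ k ∈ Finset.range (N + 1), c ^ k := by
        refine Finset.sum_le_sum fun k _ => ?_
        split_ifs
        · exact le_rfl
        · positivity
      refine h1.trans ((hall _).trans ?_)
      rw [pow_succ, mul_comm (c ^ N) c, mul_div_right_comm]
      refine mul_le_mul_of_nonneg_left ?_ (by positivity)
      have h2 : c ^ N = ee N ^ (-q) := (ee_rpow N q).symm
      rw [h2]
      have h3 : ee N ^ (-q) ≤ (τ / 2) ^ (-q) :=
        Real.rpow_le_rpow_of_nonpos (by positivity) (by linarith) (by linarith)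
      refine h3.trans (le_of_eq ?_)
      rw [Real.div_rpow hτ.le (by norm_num), Real.rpow_neg (by norm_num : (0:ℝ) ≤ 2), div_inv_eq_mul,
        hc, mul_comm]
    · rw [Finset.sum_range_succ, if_neg h, add_zero]
      exact ih

lemma geo_tsum {q : ℝ} (hq : 0 < q) {τ : ℝ} (hτ : 0 < τ) {a : ℝ} (ha : 0 ≤ a) :
    ∑' k : ℕ, ENNReal.ofReal (if τ ≤ 2 * ee k then ((2 : ℝ) ^ q) ^ k * a else 0) ≤
      ENNReal.ofReal ((2 : ℝ) ^ q / ((2 : ℝ) ^ q - 1) * 2 ^ q * (a / τ ^ q)) := by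
  refine ENNReal.tsum_le_of_sum_range_le fun N => ?_
  rw [← ENNReal.ofReal_sum_of_nonneg]
  · refine ENNReal.ofReal_le_ofReal ?_
    have h1 := mul_le_mul_of_nonneg_right (geo hq hτ N) ha
    rw [Finset.sum_mul] at h1
    refine le_trans (le_of_eq (Finset.sum_congr rfl fun k _ => ?_)) (h1.trans (le_of_eq ?_))
    · split_ifs <;> simp
    · rw [Real.rpow_neg hτ.le]
      field_simp
  · intro k _
    split_ifs
    · positivity
    · exact le_rfl

/-- the Gagliardo energy of `f` on `Q` -/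
noncomputable def energy {n : ℕ} (Q : Set (E n)) (s p : ℝ) (f : E n → ℝ) : ℝ≥0∞ :=
  ∫⁻ x in Q, ∫⁻ y in Q, ENNReal.ofReal (|f x - f y| ^ p / ‖x - y‖ ^ ((n : ℝ) + s * p))

/-- the kernel of the energy at the scale `k` -/
noncomputable def GG {n : ℕ} (f : E n → ℝ) (A c p : ℝ) (k : ℕ) (x t : E n) : ℝ≥0∞ :=
  ENNReal.ofReal (if ‖t - x‖ ≤ 2 * ee k then c ^ k * (A * |f t - f x| ^ p) else 0)

lemma GG_meas {n : ℕ} {f : E n → ℝ} (hf : Continuous f) (A c : ℝ) {p : ℝ} (hp : 1 ≤ p) (k : ℕ) :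
    Measurable (fun z : E n × E n => GG f A c p k z.1 z.2) := by
  unfold GG
  refine ENNReal.measurable_ofReal.comp ?_
  refine Measurable.ite ?_ ?_ measurable_const
  · exact measurableSet_le (by fun_prop) measurable_const
  · have h1 : Continuous (fun z : E n × E n => c ^ k * (A * |f z.2 - f z.1| ^ p)) := by
      refine continuous_const.mul (continuous_const.mul ?_)
      exact ((hf.comp continuous_snd).sub (hf.comp continuous_fst)).abs.rpow_const
        fun _ => Or.inr (by linarith)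
    exact h1.measurable

lemma GG_meas_right {n : ℕ} {f : E n → ℝ} (hf : Continuous f) (A c : ℝ) {p : ℝ} (hp : 1 ≤ p)
    (k : ℕ) (x : E n) : Measurable (fun t : E n => GG f A c p k x t) := by
  unfold GG
  refine ENNReal.measurable_ofReal.comp ?_
  refine Measurable.ite ?_ ?_ measurable_const
  · exact measurableSet_le (by fun_prop) measurable_const
  · have h1 : Continuous (fun z : E n => c ^ k * (A * |f z - f x| ^ p)) := by
      refine continuous_const.mul (continuous_const.mul ?_)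
      exact (hf.sub continuous_const).abs.rpow_const fun _ => Or.inr (by linarith)
    exact h1.measurable

lemma GG_step {n : ℕ} {f : E n → ℝ} (hf : Continuous f) {s p : ℝ} (hp : 1 ≤ p)
    {Q : Set (E n)} (k : ℕ) {x : E n} (hball : closedBall x (2 * ee k) ⊆ Q) :
    ENNReal.ofReal ((ee k ^ (-s) * osc (ee k) f x) ^ p) ≤
      ∫⁻ t in Q, GG f ((4 ^ n) ^ p * (4 ^ n)⁻¹) ((2 : ℝ) ^ ((n : ℝ) + s * p)) p k x t := by
  set ε := ee k with hε
  have hε0 : 0 < ε := ee_pos _
  set A : ℝ := (4 ^ n) ^ p * (4 ^ n)⁻¹ with hA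
  set c : ℝ := (2 : ℝ) ^ ((n : ℝ) + s * p) with hc
  have hc0 : 0 < c := by positivity
  have hA0 : 0 < A := by positivity
  have h1 := osc_pow hε0 hf hp x
  have hint : IntegrableOn (fun t => |f t - f x| ^ p) (closedBall x (2 * ε)) :=
    (((hf.sub continuous_const).abs.rpow_const fun _ => Or.inr (by linarith)).continuousOn
      ).integrableOn_compact (isCompact_closedBall _ _)
  have e1 : (ε ^ (-s) * osc ε f x) ^ p ≤
      ∫ t in closedBall x (2 * ε), c ^ k * (A * |f t - f x| ^ p) := by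
    rw [Real.mul_rpow (by positivity) (osc_nonneg hε0 f x), integral_const_mul,
      integral_const_mul]
    have e2 : (ε ^ (-s)) ^ p * (ε⁻¹) ^ n = c ^ k := by
      rw [← Real.rpow_mul hε0.le, ← Real.rpow_natCast (ε⁻¹) n, ← Real.rpow_neg_one,
        ← Real.rpow_mul hε0.le, ← Real.rpow_add hε0, hc, ← ee_rpow]
      congr 1
      ring
    calc (ε ^ (-s)) ^ p * osc ε f x ^ p ≤ (ε ^ (-s)) ^ p * ((4 ^ n) ^ p * ((4 ^ n)⁻¹ * (ε⁻¹) ^ n *
          ∫ t in closedBall x (2 * ε), |f t - f x| ^ p)) :=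
          mul_le_mul_of_nonneg_left h1 (by positivity)
      _ = ((ε ^ (-s)) ^ p * (ε⁻¹) ^ n) * (A * ∫ t in closedBall x (2 * ε), |f t - f x| ^ p) := by
          rw [hA]; ring
      _ = _ := by rw [e2]
  calc ENNReal.ofReal ((ε ^ (-s) * osc ε f x) ^ p)
      ≤ ENNReal.ofReal (∫ t in closedBall x (2 * ε), c ^ k * (A * |f t - f x| ^ p)) :=
        ENNReal.ofReal_le_ofReal e1
    _ = ∫⁻ t in closedBall x (2 * ε), ENNReal.ofReal (c ^ k * (A * |f t - f x| ^ p)) := by
        refine ofReal_integral_eq_lintegral_ofReal ?_ ?_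
        · exact (hint.const_mul A).const_mul _
        · exact Eventually.of_forall fun t => by positivity
    _ = ∫⁻ t in closedBall x (2 * ε), GG f A c p k x t := by
        refine setLIntegral_congr_fun isClosed_closedBall.measurableSet fun t ht => ?_
        rw [mem_closedBall, dist_eq_norm] at ht
        unfold GG
        rw [if_pos ht]
    _ ≤ ∫⁻ t in Q, GG f A c p k x t := lintegral_mono_set hball

lemma GG_tsum {n : ℕ} (f : E n → ℝ) {q p A : ℝ} (hq0 : 0 < q) (hp : 1 ≤ p) (hA : 0 ≤ A)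
    (x t : E n) : ∑' k : ℕ, GG f A ((2 : ℝ) ^ q) p k x t ≤
      ENNReal.ofReal ((2 : ℝ) ^ q / ((2 : ℝ) ^ q - 1) * 2 ^ q * A) *
        ENNReal.ofReal (|f x - f t| ^ p / ‖x - t‖ ^ q) := by
  have hc1 : 1 < (2 : ℝ) ^ q := Real.one_lt_rpow (by norm_num) hq0
  have hc0 : 0 < (2 : ℝ) ^ q - 1 := by linarith
  by_cases hxt : t = x
  · subst hxt
    unfold GG
    simp only [sub_self, abs_zero, Real.zero_rpow (by linarith : p ≠ 0), mul_zero,
      ite_self, ENNReal.ofReal_zero, tsum_zero]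
    exact zero_le
  · have hτ : 0 < ‖t - x‖ := norm_pos_iff.2 (sub_ne_zero.2 hxt)
    have h1 := geo_tsum hq0 hτ (a := A * |f t - f x| ^ p) (by positivity)
    refine h1.trans (le_of_eq ?_)
    rw [← ENNReal.ofReal_mul (by positivity), norm_sub_rev, abs_sub_comm]
    congr 1
    ring

lemma osc_sum {n : ℕ} {f : E n → ℝ} (hf : Continuous f) {s p : ℝ} (hs : 0 < s) (hp : 1 ≤ p)
    {S Q : Set (E n)} (hS : MeasurableSet S) (hSQ : S ⊆ Q) {k0 : ℕ}
    (hk0 : ∀ x ∈ S, closedBall x (2 * ee k0) ⊆ Q) :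
    ∃ C : ℝ≥0∞, C ≠ ⊤ ∧ ∑' k : ℕ, ∫⁻ x in S, ENNReal.ofReal
      ((ee (k + k0) ^ (-s) * osc (ee (k + k0)) f x) ^ p) ≤ C * energy Q s p f := by
  have hq0 : 0 < (n : ℝ) + s * p := by positivity
  obtain ⟨q, hq⟩ : ∃ q : ℝ, q = (n : ℝ) + s * p := ⟨_, rfl⟩
  obtain ⟨A, hA⟩ : ∃ A : ℝ, A = ((4 : ℝ) ^ n) ^ p * (4 ^ n)⁻¹ := ⟨_, rfl⟩
  have hA0 : 0 ≤ A := by rw [hA]; positivity
  rw [← hq] at hq0
  have step1 : ∀ k : ℕ, ∫⁻ x in S, ENNReal.ofReal
      ((ee (k + k0) ^ (-s) * osc (ee (k + k0)) f x) ^ p) ≤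
      ∫⁻ x in S, ∫⁻ t in Q, GG f A ((2 : ℝ) ^ q) p (k + k0) x t := by
    intro k
    refine setLIntegral_mono_ae' hS (Eventually.of_forall fun x hx => ?_)
    have hεk : ee (k + k0) ≤ ee k0 := by
      unfold ee
      exact pow_le_pow_of_le_one (by norm_num) (by norm_num) (by omega)
    have := GG_step hf (s := s) hp (k + k0)
      ((closedBall_subset_closedBall (by linarith)).trans (hk0 x hx))
    rw [hA, hq]
    exact this
  have hin : ∀ k, Measurable (fun x => ∫⁻ t in Q, GG f A ((2 : ℝ) ^ q) p k x t) := fun k =>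
    Measurable.lintegral_prod_right' (GG_meas hf A _ hp k)
  refine ⟨ENNReal.ofReal ((2 : ℝ) ^ q / ((2 : ℝ) ^ q - 1) * 2 ^ q * A), ENNReal.ofReal_ne_top, ?_⟩
  refine (ENNReal.tsum_le_tsum step1).trans ?_
  refine (ENNReal.tsum_comp_le_tsum_of_injective (add_left_injective k0)
    (fun k => ∫⁻ x in S, ∫⁻ t in Q, GG f A ((2 : ℝ) ^ q) p k x t)).trans ?_
  rw [← lintegral_tsum fun k => (hin k).aemeasurable]
  have step2 : ∀ x : E n, ∑' k : ℕ, ∫⁻ t in Q, GG f A ((2 : ℝ) ^ q) p k x t ≤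
      ENNReal.ofReal ((2 : ℝ) ^ q / ((2 : ℝ) ^ q - 1) * 2 ^ q * A) *
        ∫⁻ t in Q, ENNReal.ofReal (|f x - f t| ^ p / ‖x - t‖ ^ q) := by
    intro x
    rw [← lintegral_tsum fun k => (GG_meas_right hf A _ hp k x).aemeasurable,
      ← lintegral_const_mul' _ _ ENNReal.ofReal_ne_top]
    exact lintegral_mono fun t => GG_tsum f hq0 hp hA0 x t
  refine (lintegral_mono fun x => step2 x).trans ?_
  rw [lintegral_const_mul' _ _ ENNReal.ofReal_ne_top]
  unfold energy
  rw [← hq]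
  gcongr

end Q61.KC
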