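import Pool.Agent.Q61.KC3

/-! The increments between consecutive scales are summable. -/

set_option autoImplicit false
open MeasureTheory Metric Set Filter Topology H248.ID
open scoped ENNReal NNReal ContDiff

namespace Q61.KC

open Q61.KH

lemma osc_meas {n : ℕ} {ε : ℝ} {f : E n → ℝ} (hf : Continuous f) : Measurable (osc ε f) := by
  have h : Measurable (fun z : E n × E n => if ‖z.2 - z.1‖ ≤ 2 * ε then |f z.2 - f z.1| else 0) := by
    refine Measurable.ite ?_ ?_ measurable_const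
    · exact measurableSet_le (by fun_prop) measurable_const
    · have h1 : Continuous (fun z : E n × E n => |f z.2 - f z.1|) :=
        ((hf.comp continuous_snd).sub (hf.comp continuous_fst)).abs
      exact h1.measurable
  have e : osc ε f = fun x => (ε⁻¹) ^ n *
      ∫ t, (fun z : E n × E n => if ‖z.2 - z.1‖ ≤ 2 * ε then |f z.2 - f z.1| else 0) (x, t) := by
    funext x
    unfold osc
    congr 1
    rw [← integral_indicator isClosed_closedBall.measurableSet]
    congr 1
  rw [e]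
  exact (h.stronglyMeasurable.integral_prod_right').measurable.const_mul _

/-- the mollified, sheared map -/
noncomputable def ut {n : ℕ} (ε : ℝ) (F : E n → E n) (t : ℝ) : E n → E n :=
  fun x l => moll ε (fun y => F y l) x + t * x l

lemma ut_smooth {n : ℕ} {ε : ℝ} (hε : 0 < ε) {F : E n → E n} (hF : Continuous F) (t : ℝ) :
    ContDiff ℝ ∞ (ut ε F t) := by
  rw [contDiff_pi]
  intro l
  have h1 := moll_contDiff hε ((continuous_apply l).comp hF)
  exact h1.add (contDiff_const.mul (contDiff_apply ℝ ℝ l))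

lemma pd_ut {n : ℕ} {ε : ℝ} (hε : 0 < ε) {F : E n → E n} (hF : Continuous F) (t : ℝ)
    (l k : Fin n) (x : E n) :
    pd (fun y => ut ε F t y l) k x = pd (moll ε (fun y => F y l)) k x
      + t * (if l = k then 1 else 0) := by
  have s1 := moll_contDiff hε ((continuous_apply l).comp hF)
  unfold pd ut
  have h := ((s1.differentiable (by simp)) x).hasFDerivAt.add
    (((ContinuousLinearMap.proj (R := ℝ) (φ := fun _ : Fin n => ℝ) l).hasFDerivAt
      (x := x)).const_mul t)
  have h2 : fderiv ℝ (fun x => moll ε (fun y => F y l) x + t * x l) x = _ := h.fderiv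
  rw [h2]
  simp only [add_apply, smul_apply,
    ContinuousLinearMap.proj_apply, smul_eq_mul, Pi.single_apply]
  rfl

lemma jac_ut {n : ℕ} {ε : ℝ} (hε : 0 < ε) {F : E n → E n} (hF : Continuous F) (t : ℝ)
    (x : E n) : jac (ut ε F t) x = jac (mv ε F) x + t • (1 : Matrix (Fin n) (Fin n) ℝ) := by
  ext l k
  rw [Matrix.add_apply, Matrix.smul_apply, Matrix.one_apply, smul_eq_mul]
  exact pd_ut hε hF t l k x

/-- the weighted arithmetic-geometric inequality in the critical case -/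
lemma prod_bound {n : ℕ} {s p : Fin n → ℝ} (hp : ∀ l, 1 ≤ p l) (hpsum : ∑ l, (p l)⁻¹ = 1)
    (hs : ∑ l, s l = (n : ℝ) - 1) {ε : ℝ} (hε : 0 < ε) {r : Fin n → ℝ} (hr : ∀ l, 0 ≤ r l) :
    ε * ∏ l, r l ≤ ∑ l, (ε ^ (1 - s l) * r l) ^ p l := by
  have e1 : ε * ∏ l, r l = ∏ l, (ε ^ (1 - s l) * r l) := by
    rw [Finset.prod_mul_distrib, ← Real.rpow_sum_of_pos hε, Finset.sum_sub_distrib, hs]
    simp
  rw [e1]
  have h1 := Real.geom_mean_le_arith_mean_weighted Finset.univ (fun l => (p l)⁻¹)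
    (fun l => (ε ^ (1 - s l) * r l) ^ p l) (fun l _ => by
      have := hp l
      positivity) hpsum (fun l _ => by
      have := hr l
      positivity)
  have e2 : ∏ l, ((ε ^ (1 - s l) * r l) ^ p l) ^ (p l)⁻¹ = ∏ l, (ε ^ (1 - s l) * r l) := by
    refine Finset.prod_congr rfl fun l _ => ?_
    have h0 : 0 ≤ ε ^ (1 - s l) * r l := mul_nonneg (by positivity) (hr l)
    rw [← Real.rpow_mul h0, mul_inv_cancel₀ (by linarith [hp l]), Real.rpow_one]
  rw [e2] at h1
  refine h1.trans (Finset.sum_le_sum fun l _ => ?_)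
  have h0 : 0 ≤ (ε ^ (1 - s l) * r l) ^ p l :=
    Real.rpow_nonneg (mul_nonneg (by positivity) (hr l)) _
  have h2 : (p l)⁻¹ ≤ 1 := inv_le_one_of_one_le₀ (hp l)
  nlinarith

lemma pow_split {a b p : ℝ} (ha : 0 ≤ a) (hb : 0 ≤ b) (hp : 0 ≤ p) :
    (a + b) ^ p ≤ 2 ^ p * (a ^ p + b ^ p) := by
  have h1 : a + b ≤ 2 * max a b := by
    rcases le_total a b with h | h
    · rw [max_eq_right h]; linarith
    · rw [max_eq_left h]; linarith
  calc (a + b) ^ p ≤ (2 * max a b) ^ p := Real.rpow_le_rpow (by positivity) h1 hp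
    _ = 2 ^ p * (max a b) ^ p := Real.mul_rpow (by norm_num) (le_max_of_le_left ha)
    _ ≤ 2 ^ p * (a ^ p + b ^ p) := by
        refine mul_le_mul_of_nonneg_left ?_ (by positivity)
        have h2 : 0 ≤ a ^ p := Real.rpow_nonneg ha _
        have h3 : 0 ≤ b ^ p := Real.rpow_nonneg hb _
        rcases le_total a b with h | h
        · rw [max_eq_right h]; linarith
        · rw [max_eq_left h]; linarith

/-- finiteness of the sum over the scales, one component -/
lemma sum_one {n : ℕ} {f : E n → ℝ} (hf : Continuous f) {s p : ℝ} (hs0 : 0 < s) (hs1 : s < 1)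
    (hp : 1 ≤ p) {S Q : Set (E n)} (hS : MeasurableSet S) (hSfin : volume S ≠ ⊤) (hSQ : S ⊆ Q)
    {k0 : ℕ} (hk0 : ∀ x ∈ S, closedBall x (2 * ee k0) ⊆ Q) (hE : energy Q s p f ≠ ⊤)
    {t c : ℝ} (hc : 0 ≤ c) (ht : 0 ≤ t) :
    ∑' k : ℕ, ∫⁻ x in S, ENNReal.ofReal ((ee (k + k0) ^ (1 - s) *
      (c * ((ee (k + k0))⁻¹ * osc (ee (k + k0)) f x) + t)) ^ p) ≠ ⊤ := by
  obtain ⟨C, hC, hsum⟩ := osc_sum hf hs0 hp hS hSQ hk0
  have hp0 : 0 ≤ p := by linarith
  -- the geometric part
  set q : ℝ := ((1 / 2 : ℝ) ^ ((1 - s) * p)) with hq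
  have hq0 : 0 < q := by positivity
  have hq1 : q < 1 := Real.rpow_lt_one (by norm_num) (by norm_num)
    (mul_pos (by linarith) (by linarith))
  have hgeo : ∀ k, (ee k ^ (1 - s)) ^ p = q ^ k := by
    intro k
    unfold ee
    rw [hq, ← Real.rpow_natCast, ← Real.rpow_natCast, ← Real.rpow_mul (by norm_num),
      ← Real.rpow_mul (by norm_num), ← Real.rpow_mul (by norm_num)]
    congr 1
    ring
  have hpt : ∀ (k : ℕ) (x : E n), ENNReal.ofReal ((ee (k + k0) ^ (1 - s) *
      (c * ((ee (k + k0))⁻¹ * osc (ee (k + k0)) f x) + t)) ^ p) ≤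
      ENNReal.ofReal (2 ^ p * c ^ p) * ENNReal.ofReal
        ((ee (k + k0) ^ (-s) * osc (ee (k + k0)) f x) ^ p)
        + ENNReal.ofReal (2 ^ p * t ^ p * q ^ k0 * q ^ k) := by
    intro k x
    set ε := ee (k + k0) with hε
    have hε0 : 0 < ε := ee_pos _
    have hosc := osc_nonneg hε0 f x
    have e1 : ε ^ (1 - s) * (c * (ε⁻¹ * osc ε f x) + t)
        = c * (ε ^ (-s) * osc ε f x) + t * ε ^ (1 - s) := by
      have : ε ^ (1 - s) = ε * ε ^ (-s) := by
        rw [sub_eq_add_neg, Real.rpow_add hε0, Real.rpow_one]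
      rw [this]
      field_simp
    have h1 := pow_split (a := c * (ε ^ (-s) * osc ε f x)) (b := t * ε ^ (1 - s)) (p := p)
      (by positivity) (by positivity) hp0
    rw [e1, ← ENNReal.ofReal_mul (by positivity), ← ENNReal.ofReal_add (by positivity)
      (by positivity)]
    refine ENNReal.ofReal_le_ofReal (h1.trans (le_of_eq ?_))
    rw [Real.mul_rpow hc (by positivity), Real.mul_rpow ht (by positivity), hgeo, pow_add]
    ring
  have hstep : ∀ k : ℕ, ∫⁻ x in S, ENNReal.ofReal ((ee (k + k0) ^ (1 - s) *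
      (c * ((ee (k + k0))⁻¹ * osc (ee (k + k0)) f x) + t)) ^ p) ≤
      ENNReal.ofReal (2 ^ p * c ^ p) * (∫⁻ x in S, ENNReal.ofReal
        ((ee (k + k0) ^ (-s) * osc (ee (k + k0)) f x) ^ p))
        + ENNReal.ofReal (2 ^ p * t ^ p * q ^ k0 * q ^ k) * volume S := by
    intro k
    refine (lintegral_mono fun x => hpt k x).trans (le_of_eq ?_)
    rw [lintegral_add_right _ measurable_const, lintegral_const_mul' _ _ ENNReal.ofReal_ne_top,
      setLIntegral_const]
  refine ne_top_of_le_ne_top ?_ (ENNReal.tsum_le_tsum hstep)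
  rw [ENNReal.tsum_add, ENNReal.tsum_mul_left, ENNReal.tsum_mul_right, ENNReal.add_ne_top]
  constructor
  · refine ENNReal.mul_ne_top ENNReal.ofReal_ne_top ?_
    exact ne_top_of_le_ne_top (ENNReal.mul_ne_top hC hE) hsum
  · refine ENNReal.mul_ne_top ?_ hSfin
    rw [← ENNReal.ofReal_tsum_of_nonneg (fun k => by positivity)
      ((summable_geometric_of_lt_one hq0.le hq1).mul_left _)]
    exact ENNReal.ofReal_ne_top

/-- **the increments are summable, uniformly in the cut-off** -/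
theorem steps {n : ℕ} {F : E n → E n} (hF : Continuous F) {s p : Fin n → ℝ}
    (hs0 : ∀ l, 0 < s l) (hs1 : ∀ l, s l < 1) (hp : ∀ l, 1 ≤ p l) (hpsum : ∑ l, (p l)⁻¹ = 1)
    (hssum : ∑ l, s l = (n : ℝ) - 1) {S Q : Set (E n)} (hS : MeasurableSet S)
    (hSfin : volume S ≠ ⊤) (hSQ : S ⊆ Q) {k0 : ℕ} (hk0 : ∀ x ∈ S, closedBall x (2 * ee k0) ⊆ Q)
    (hE : ∀ l, energy Q (s l) (p l) (fun y => F y l) ≠ ⊤) {η : E n → ℝ} (hη : ContDiff ℝ ∞ η)
    (hc : HasCompactSupport η) (hsη : ∀ x, x ∉ S → fderiv ℝ η x = 0) (t : ℝ) :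
    ∃ b : ℕ → ℝ, Summable b ∧ (∀ k, 0 ≤ b k) ∧ ∀ g : E n → ℝ, ContDiff ℝ ∞ g →
      HasCompactSupport g → (∀ x, |g x| ≤ 1) → ∀ k,
      |JJ g (ut (ee (k + 1 + k0)) F t) η - JJ g (ut (ee (k + k0)) F t) η| ≤ b k := by
  obtain ⟨C1, hC1, hC⟩ := moll_pd_osc n
  obtain ⟨C2, hC2, hCm⟩ := moll_osc n
  have hFl : ∀ l, Continuous (fun y => F y l) := fun l => (continuous_apply l).comp hF
  obtain ⟨Dη, hD0, hD⟩ : ∃ D : ℝ, 0 ≤ D ∧ ∀ (k : Fin n) (x : E n), |pd η k x| ≤ D := by
    obtain ⟨D, hD⟩ := (hη.continuous_fderiv (by simp)).bounded_above_of_compact_support (hc.fderiv ℝ)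
    refine ⟨D, (norm_nonneg _).trans (hD 0), fun k x => ?_⟩
    unfold pd
    calc |fderiv ℝ η x (Pi.single k 1)| ≤ ‖fderiv ℝ η x‖ * ‖(Pi.single k 1 : E n)‖ :=
          (fderiv ℝ η x).le_opNorm _
      _ ≤ D * 1 := by
          refine mul_le_mul (hD x) ?_ (norm_nonneg _) ((norm_nonneg _).trans (hD 0))
          rw [Pi.norm_single]
          simp
      _ = D := mul_one _
  set c : ℝ := C1 * 2 ^ (n + 1) with hcdef
  have hc0 : 0 < c := by positivity
  set C3 : ℝ := C2 * (2 ^ n + 1) / c with hC3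
  have hC30 : 0 < C3 := by positivity
  set r : ℕ → Fin n → E n → ℝ := fun k l x =>
    c * ((ee (k + k0))⁻¹ * osc (ee (k + k0)) (fun y => F y l) x) + |t| with hr
  have hr0 : ∀ k l x, 0 ≤ r k l x := by
    intro k l x
    have := osc_nonneg (ee_pos (k + k0)) (fun y => F y l) x
    have := ee_pos (k + k0)
    rw [hr]
    positivity
  set Z : ℕ → Fin n → ℝ≥0∞ := fun k l => ∫⁻ x in S, ENNReal.ofReal
    ((ee (k + k0) ^ (1 - s l) * r k l x) ^ p l) with hZ
  have hZfin : ∀ l, ∑' k, Z k l ≠ ⊤ := fun l =>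
    sum_one (hFl l) (hs0 l) (hs1 l) (hp l) hS hSfin hSQ hk0 (hE l) hc0.le (abs_nonneg t)
  set M : ℝ := C3 * (n.factorial * Dη) with hM
  have hM0 : 0 ≤ M := by positivity
  set b : ℕ → ℝ≥0∞ := fun k => (n : ℝ≥0∞) * (ENNReal.ofReal M * ∑ l, Z k l) with hb
  have hbfin : ∑' k, b k ≠ ⊤ := by
    rw [hb, ENNReal.tsum_mul_left, ENNReal.tsum_mul_left]
    refine ENNReal.mul_ne_top (ENNReal.natCast_ne_top n) (ENNReal.mul_ne_top
      ENNReal.ofReal_ne_top ?_)
    rw [Summable.tsum_finsetSum fun l _ => ENNReal.summable]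
    exact ENNReal.sum_ne_top.2 fun l _ => hZfin l
  have hbk : ∀ k, b k ≠ ⊤ := fun k => ENNReal.ne_top_of_tsum_ne_top hbfin k
  refine ⟨fun k => (b k).toReal, ENNReal.summable_toReal hbfin, fun k => ENNReal.toReal_nonneg, ?_⟩
  intro g hg hgc hg1 k
  rw [← ENNReal.ofReal_le_iff_le_toReal (hbk k)]
  set ε := ee (k + k0) with hε
  have hε0 : 0 < ε := ee_pos _
  have hε2 : 0 < ε / 2 := by positivity
  have e0 : ee (k + 1 + k0) = ε / 2 := by
    rw [hε, ← ee_succ]
    congr 1
    ring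
  rw [e0]
  have h2n : (1 : ℝ) ≤ 2 ^ (n + 1) := one_le_pow₀ (by norm_num)
  have h1 := JJ_twoI hg hgc hg1 (u := ut (ε / 2) F t) (w := ut ε F t) (ut_smooth hε2 hF t)
    (ut_smooth hε0 hF t) hη hc (Dη := Dη) (δ := fun l x => C3 * (ε * r k l x)) (r := r k) hS hsη
    hD hD0 (by
      intro x _ l
      have a1 := hCm hε2 (hFl l) x
      have a2 := hCm hε0 (hFl l) x
      have a3 := osc_half hε0 (hFl l) x
      have a4 := osc_nonneg hε0 (fun y => F y l) x
      have e1 : ut (ε / 2) F t x l - ut ε F t x l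
          = (moll (ε / 2) (fun y => F y l) x - F x l) - (moll ε (fun y => F y l) x - F x l) := by
        unfold ut
        ring
      rw [e1]
      refine (abs_sub _ _).trans ?_
      have a5 : C2 * osc (ε / 2) (fun y => F y l) x ≤ C2 * (2 ^ n * osc ε (fun y => F y l) x) :=
        mul_le_mul_of_nonneg_left a3 hC2.le
      have a6 : C3 * (ε * r k l x) = C2 * (2 ^ n + 1) * osc ε (fun y => F y l) x
          + C3 * (ε * |t|) := by
        rw [hr, hC3]
        simp only [← hε]
        field_simp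
      rw [a6]
      have a7 : 0 ≤ C3 * (ε * |t|) := by positivity
      linarith)
    (by
      intro x _ l j
      rw [pd_ut hε2 hF]
      have a1 := hC hε2 (hFl l) j x
      have a3 := osc_half hε0 (hFl l) x
      have a4 := osc_nonneg hε0 (fun y => F y l) x
      have a5 : |t * (if l = j then (1:ℝ) else 0)| ≤ |t| := by
        split_ifs <;> simp
      refine (abs_add_le _ _).trans (add_le_add (a1.trans ?_) a5)
      have e1 : (ε / 2)⁻¹ = 2 * ε⁻¹ := by field_simp
      rw [e1, hcdef]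
      simp only [← hε]
      calc C1 * (2 * ε⁻¹ * osc (ε / 2) (fun y => F y l) x)
          ≤ C1 * (2 * ε⁻¹ * (2 ^ n * osc ε (fun y => F y l) x)) := by
            refine mul_le_mul_of_nonneg_left ?_ hC1.le
            exact mul_le_mul_of_nonneg_left a3 (by positivity)
        _ = _ := by rw [pow_succ]; ring)
    (by
      intro x _ l j
      rw [pd_ut hε0 hF]
      have a1 := hC hε0 (hFl l) j x
      have a4 := osc_nonneg hε0 (fun y => F y l) x
      have a5 : |t * (if l = j then (1:ℝ) else 0)| ≤ |t| := by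
        split_ifs <;> simp
      refine (abs_add_le _ _).trans (add_le_add (a1.trans ?_) a5)
      rw [hcdef]
      simp only [← hε]
      have a6 : 0 ≤ ε⁻¹ * osc ε (fun y => F y l) x := by positivity
      calc C1 * (ε⁻¹ * osc ε (fun y => F y l) x)
          = (C1 * (ε⁻¹ * osc ε (fun y => F y l) x)) * 1 := by ring
        _ ≤ (C1 * (ε⁻¹ * osc ε (fun y => F y l) x)) * 2 ^ (n + 1) :=
            mul_le_mul_of_nonneg_left h2n (by positivity)
        _ = _ := by ring)
  refine h1.trans ?_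
  have hone : ∀ i : Fin n, ∫⁻ x in S, ENNReal.ofReal (C3 * (ε * r k i x) *
      (n.factorial * (Dη * ∏ l ∈ Finset.univ.erase i, r k l x))) ≤
      ENNReal.ofReal M * ∑ l, Z k l := by
    intro i
    have hmeas : ∀ l, Measurable (fun x => ENNReal.ofReal ((ε ^ (1 - s l) * r k l x) ^ p l)) := by
      intro l
      refine ENNReal.measurable_ofReal.comp ?_
      refine Measurable.pow_const ?_ _
      refine Measurable.const_mul ?_ _
      rw [hr]
      simp only [← hε]
      exact (((osc_meas (hFl l)).const_mul _).const_mul _).add_const _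
    have e3 : ∑ l, Z k l = ∫⁻ x in S, ∑ l, ENNReal.ofReal ((ε ^ (1 - s l) * r k l x) ^ p l) := by
      rw [lintegral_finsetSum _ fun l _ => hmeas l]
    rw [e3, ← lintegral_const_mul' _ _ ENNReal.ofReal_ne_top]
    refine lintegral_mono fun x => ?_
    have e4 : C3 * (ε * r k i x) * (n.factorial * (Dη * ∏ l ∈ Finset.univ.erase i, r k l x))
        = M * (ε * ∏ l, r k l x) := by
      rw [← Finset.mul_prod_erase Finset.univ (fun l => r k l x) (Finset.mem_univ i), hM]
      ring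
    rw [e4]
    have h2 := prod_bound hp hpsum hssum hε0 (r := fun l => r k l x) (fun l => hr0 k l x)
    calc ENNReal.ofReal (M * (ε * ∏ l, r k l x))
        ≤ ENNReal.ofReal (M * ∑ l, (ε ^ (1 - s l) * r k l x) ^ p l) :=
          ENNReal.ofReal_le_ofReal (mul_le_mul_of_nonneg_left h2 hM0)
      _ = ENNReal.ofReal M * ∑ l, ENNReal.ofReal ((ε ^ (1 - s l) * r k l x) ^ p l) := by
          rw [ENNReal.ofReal_mul hM0, ENNReal.ofReal_sum_of_nonneg]
          intro l _
          have := hr0 k l x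
          positivity
  calc _ ≤ ∑ _i : Fin n, ENNReal.ofReal M * ∑ l, Z k l := Finset.sum_le_sum fun i _ => hone i
    _ = b k := by
        rw [Finset.sum_const, Finset.card_univ, Fintype.card_fin, nsmul_eq_mul]

end Q61.KC
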