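import Pool.Agent.Q61.KC4

/-! If the image of a compact set is a null set, then the Jacobian masses of the mollified maps
tend to zero. -/

set_option autoImplicit false
open MeasureTheory Metric Set Filter Topology H248.ID
open scoped ENNReal NNReal ContDiff

namespace Q61.KC

open Q61.KH

/-- uniform convergence of the mollification -/
lemma moll_unif {n : ℕ} {f : E n → ℝ} (hf : UniformContinuous f) {δ : ℝ} (hδ : 0 < δ) :
    ∃ e0 : ℝ, 0 < e0 ∧ ∀ ε : ℝ, 0 < ε → ε < e0 → ∀ x, |moll ε f x - f x| ≤ δ := by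
  obtain ⟨e0, he0, h0⟩ := Metric.uniformContinuous_iff.1 hf δ hδ
  refine ⟨e0, he0, fun ε hε hε0 x => ?_⟩
  have hfc := hf.continuous
  have h1 : moll ε f x - f x = ∫ t, (f t - f x) * re n ε (x - t) := by
    have : f x = ∫ t, f x * re n ε (x - t) := by
      rw [integral_const_mul, re_sub_int hε, mul_one]
    conv_lhs => rw [this]
    unfold moll
    rw [← integral_sub (mul_integrable hε hfc x) ((sub_integrable hε x).const_mul _)]
    congr 1
    funext t
    ring
  rw [h1]
  calc |∫ t, (f t - f x) * re n ε (x - t)| ≤ ∫ t, δ * re n ε (x - t) := by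
        rw [← Real.norm_eq_abs]
        refine norm_integral_le_of_norm_le ((sub_integrable hε x).const_mul _) ?_
        refine Filter.Eventually.of_forall fun t => ?_
        rw [Real.norm_eq_abs, abs_mul, abs_of_nonneg (re_nonneg hε _)]
        by_cases ht : ε ≤ ‖x - t‖
        · rw [re_zero hε ht]
          simp
        · push Not at ht
          refine mul_le_mul_of_nonneg_right ?_ (re_nonneg hε _)
          have := h0 (a := t) (b := x) (by
            rw [dist_comm, dist_eq_norm]
            linarith)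
          rw [Real.dist_eq] at this
          exact this.le
    _ = δ := by rw [integral_const_mul, re_sub_int hε, mul_one]

/-- **null images have vanishing Jacobian mass** -/
theorem null_lim {n : ℕ} (hn : 1 ≤ n) {F : E n → E n} (hF : UniformContinuous F) {Bd : ℝ}
    (hBd : ∀ x, ‖F x‖ ≤ Bd) {s p : Fin n → ℝ}
    (hs0 : ∀ l, 0 < s l) (hs1 : ∀ l, s l < 1) (hp : ∀ l, 1 ≤ p l) (hpsum : ∑ l, (p l)⁻¹ = 1)
    (hssum : ∑ l, s l = (n : ℝ) - 1) {S Q : Set (E n)} (hS : MeasurableSet S)
    (hSfin : volume S ≠ ⊤) (hSQ : S ⊆ Q) {k0 : ℕ} (hk0 : ∀ x ∈ S, closedBall x (2 * ee k0) ⊆ Q)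
    (hE : ∀ l, energy Q (s l) (p l) (fun y => F y l) ≠ ⊤) {η : E n → ℝ} (hη : ContDiff ℝ ∞ η)
    (hc : HasCompactSupport η) (hsupp : tsupport η ⊆ S) (t : ℝ)
    (hnull : volume ((fun x => F x + t • x) '' S) = 0) :
    Tendsto (fun k : ℕ => ∫ x, η x * (jac (ut (ee k) F t) x).det) atTop (𝓝 0) := by
  have hFc := hF.continuous
  have hFl : ∀ l, Continuous (fun y => F y l) := fun l => (continuous_apply l).comp hFc
  have hFlu : ∀ l, UniformContinuous (fun y => F y l) := fun l =>
    (Pi.uniformContinuous_proj _ l).comp hF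
  have hBd0 : 0 ≤ Bd := (norm_nonneg _).trans (hBd 0)
  obtain ⟨C1, hC1, hC⟩ := moll_pd n
  obtain ⟨C2, hC2, hbase⟩ := JJ_base hn
  obtain ⟨R, hR, hRs⟩ : ∃ R : ℝ, 0 ≤ R ∧ ∀ x : E n, R < ‖x‖ → fderiv ℝ η x = 0 := by
    obtain ⟨R, hR⟩ := hc.isCompact.isBounded.subset_closedBall (0 : E n)
    refine ⟨max R 0, le_max_right _ _, fun x hx => ?_⟩
    apply fderiv_of_notMem_tsupport
    intro h
    have := hR h
    simp only [mem_closedBall, dist_zero_right] at this
    linarith [le_max_left R 0]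
  obtain ⟨Dη, hD0, hD⟩ : ∃ D : ℝ, 0 ≤ D ∧ ∀ (k : Fin n) (x : E n), |pd η k x| ≤ D := by
    obtain ⟨D, hD⟩ := (hη.continuous_fderiv (by simp)).bounded_above_of_compact_support (hc.fderiv ℝ)
    refine ⟨D, (norm_nonneg _).trans (hD 0), fun k x => ?_⟩
    unfold pd
    calc |fderiv ℝ η x (Pi.single k 1)| ≤ ‖fderiv ℝ η x‖ * ‖(Pi.single k 1 : E n)‖ :=
          (fderiv ℝ η x).le_opNorm _
      _ ≤ D * 1 := by
          refine mul_le_mul (hD x) ?_ (norm_nonneg _) ((norm_nonneg _).trans (hD 0))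
          rw [Pi.norm_single]
          simp
      _ = D := mul_one _
  obtain ⟨b, hbs, hb0, hb⟩ := steps hFc hs0 hs1 hp hpsum hssum hS hSfin hSQ hk0 hE hη hc
    (fun x hx => by
      apply fderiv_of_notMem_tsupport
      exact fun h => hx (hsupp h)) t
  rw [Metric.tendsto_atTop]
  intro ε0 hε0
  -- the scale
  have htail : Tendsto (fun i => ∑' k, b (k + i)) atTop (𝓝 0) := _root_.tendsto_sum_nat_add b
  obtain ⟨K, hK⟩ := (htail.eventually (gt_mem_nhds (show (0:ℝ) < ε0 / 2 by positivity))).exists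
  set e : ℝ := ee (K + k0) with he
  have he0 : 0 < e := ee_pos _
  set D : ℝ := C1 * (2 * Bd) * e ^ ((0 : ℝ) - 1) + |t| with hDdef
  have hDD : 0 ≤ D := by positivity
  have hpdD : ∀ l k x, |pd (fun y => ut e F t y l) k x| ≤ D := by
    intro l k x
    rw [pd_ut he0 hFc]
    have a5 : |t * (if l = k then (1:ℝ) else 0)| ≤ |t| := by
      split_ifs <;> simp
    refine (abs_add_le _ _).trans (add_le_add ?_ a5)
    refine hC he0 (hFl l) le_rfl zero_le_one (by positivity) ?_ k x
    intro x y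
    rw [Real.rpow_zero, mul_one]
    have h1 : |F x l| ≤ Bd := (norm_le_pi_norm (F x) l).trans (hBd x)
    have h2 : |F y l| ≤ Bd := (norm_le_pi_norm (F y) l).trans (hBd y)
    refine (abs_sub _ _).trans ?_
    linarith
  set K' : ℝ := C2 * (2 * R) ^ n * Dη * D ^ (n - 1) with hK'
  have hK'0 : 0 ≤ K' := by positivity
  have hn0 : (n : ℝ) ≠ 0 := by
    have : (1 : ℝ) ≤ n := by exact_mod_cast hn
    linarith
  set m : ℝ := ε0 / (4 * (K' + 1)) with hm
  have hm0 : 0 < m := by positivity
  set μ : ℝ := m ^ n with hμ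
  have hμ0 : 0 < μ := by positivity
  have hμm : μ ^ ((1 : ℝ) / n) = m := by
    rw [hμ, ← Real.rpow_natCast, ← Real.rpow_mul hm0.le, mul_one_div_cancel hn0, Real.rpow_one]
  -- the cut-off
  have hft : Continuous (fun x => F x + t • x) := hFc.add (continuous_id.const_smul t)
  have hnull' : volume ((fun x => F x + t • x) '' tsupport η) = 0 :=
    measure_mono_null (image_mono hsupp) hnull
  obtain ⟨U, hUf, hU, hμU⟩ := Set.exists_isOpen_lt_of_lt
    ((fun x => F x + t • x) '' tsupport η) (ENNReal.ofReal μ) (by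
      rw [hnull']
      exact ENNReal.ofReal_pos.2 hμ0)
  obtain ⟨g, hg, hgc, hg0, hg1, hgU, δ, hδ, hgδ⟩ := exists_cutoff
    (hc.isCompact.image hft) hU hUf
  have hgi : Integrable g := hg.continuous.integrable_of_hasCompactSupport hgc
  have hgabs : ∀ x, |g x| ≤ 1 := fun x => by
    rw [abs_of_nonneg (hg0 x)]
    exact hg1 x
  have hgμ : ∫ x, g x ≤ μ := by
    have hUf : volume U ≠ ⊤ := ne_top_of_lt hμU
    calc ∫ x, g x ≤ ∫ x, U.indicator (fun _ => (1 : ℝ)) x := by
          refine integral_mono hgi ((integrable_indicator_iff hU.measurableSet).mpr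
            (integrableOn_const hUf)) ?_
          intro x
          by_cases hx : x ∈ U
          · simpa [hx] using hg1 x
          · simp [hx, hgU x hx]
      _ = volume.real U := by
          rw [integral_indicator hU.measurableSet, setIntegral_const, smul_eq_mul, mul_one]
      _ ≤ μ := by
          rw [measureReal_def]
          exact ENNReal.toReal_le_of_le_ofReal hμ0.le hμU.le
  -- the base level
  have hbase1 : |JJ g (ut e F t) η| ≤ ε0 / 4 := by
    have h1 := hbase hg hgc hg0 hg1 hμ0 hgμ (ut_smooth he0 hFc t) hη hc hR hRs hD hD0 hDD hpdD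
    refine h1.trans ?_
    rw [hμm]
    have e1 : C2 * (2 * R) ^ n * Dη * m * D ^ (n - 1) = K' * m := by rw [hK']; ring
    rw [e1, hm]
    have h4 : K' * (ε0 / (4 * (K' + 1))) = (K' / (K' + 1)) * (ε0 / 4) := by
      field_simp
    rw [h4]
    have h5 : K' / (K' + 1) ≤ 1 := by
      rw [div_le_one (by positivity)]
      linarith
    calc _ ≤ 1 * (ε0 / 4) := mul_le_mul_of_nonneg_right h5 (by positivity)
      _ = _ := one_mul _
  -- telescoping
  have htel : ∀ j : ℕ, |JJ g (ut (ee (K + j + k0)) F t) η - JJ g (ut (ee (K + k0)) F t) η| ≤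
      ∑ i ∈ Finset.range j, b (i + K) := by
    intro j
    induction j with
    | zero => simp
    | succ j ih =>
      rw [Finset.sum_range_succ]
      have h1 := hb g hg hgc hgabs (K + j)
      rw [← add_assoc]
      calc _ = |(JJ g (ut (ee (K + j + 1 + k0)) F t) η - JJ g (ut (ee (K + j + k0)) F t) η)
            + (JJ g (ut (ee (K + j + k0)) F t) η - JJ g (ut (ee (K + k0)) F t) η)| := by ring_nf
        _ ≤ b (K + j) + ∑ i ∈ Finset.range j, b (i + K) := (abs_add_le _ _).trans (add_le_add h1 ih)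
        _ = _ := by rw [add_comm K j, add_comm]
  have hsumK : Summable (fun i => b (i + K)) := (summable_nat_add_iff K).2 hbs
  have htail2 : ∀ j, ∑ i ∈ Finset.range j, b (i + K) < ε0 / 2 := fun j =>
    lt_of_le_of_lt (hsumK.sum_le_tsum _ fun i _ => hb0 _) hK
  -- large scales
  have hunif : ∀ l, ∃ e0 : ℝ, 0 < e0 ∧ ∀ ε : ℝ, 0 < ε → ε < e0 → ∀ x,
      |moll ε (fun y => F y l) x - F x l| ≤ δ / 2 := fun l => moll_unif (hFlu l) (by positivity)
  choose e0 he00 hun using hunif
  have hee : Tendsto ee atTop (𝓝 0) := by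
    unfold ee
    exact tendsto_pow_atTop_nhds_zero_of_lt_one (by norm_num) (by norm_num)
  have hev : ∀ᶠ k in atTop, ∀ l, ee k < e0 l := eventually_all.mpr fun l =>
    hee.eventually (gt_mem_nhds (he00 l))
  obtain ⟨N, hN⟩ := eventually_atTop.1 hev
  refine ⟨max N (K + k0), fun k hk => ?_⟩
  have hkN := hN k (le_trans (le_max_left _ _) hk)
  have hkK : K + k0 ≤ k := le_trans (le_max_right _ _) hk
  have hgf : ∀ x ∈ tsupport η, g (ut (ee k) F t x) = 1 := by
    intro x hx
    refine hgδ (F x + t • x) ⟨x, hx, rfl⟩ _ ?_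
    refine lt_of_le_of_lt (b := δ / 2) ?_ (by linarith)
    rw [pi_norm_le_iff_of_nonneg (by positivity)]
    intro l
    have e1 : (ut (ee k) F t x - (F x + t • x)) l = moll (ee k) (fun y => F y l) x - F x l := by
      simp only [ut, Pi.sub_apply, Pi.add_apply, Pi.smul_apply, smul_eq_mul]
      ring
    rw [e1]
    exact hun l _ (ee_pos k) (hkN l) x
  have hJ : ∫ x, η x * (jac (ut (ee k) F t) x).det = JJ g (ut (ee k) F t) η := by
    unfold JJ
    congr 1
    funext x
    by_cases hx : x ∈ tsupport η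
    · rw [hgf x hx, mul_one]
    · rw [image_eq_zero_of_notMem_tsupport hx]
      simp
  rw [dist_zero_right, Real.norm_eq_abs, hJ]
  obtain ⟨j, rfl⟩ : ∃ j, k = K + j + k0 := ⟨k - (K + k0), by omega⟩
  have h1 := (htel j).trans_lt (htail2 j)
  calc |JJ g (ut (ee (K + j + k0)) F t) η|
      = |(JJ g (ut (ee (K + j + k0)) F t) η - JJ g (ut (ee (K + k0)) F t) η)
        + JJ g (ut (ee (K + k0)) F t) η| := by ring_nf
    _ ≤ |JJ g (ut (ee (K + j + k0)) F t) η - JJ g (ut (ee (K + k0)) F t) η|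
        + |JJ g (ut (ee (K + k0)) F t) η| := abs_add_le _ _
    _ < ε0 / 2 + ε0 / 2 := by
        refine add_lt_add_of_lt_of_le h1 ?_
        exact hbase1.trans (by linarith)
    _ = ε0 := by ring

end Q61.KC
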