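import Pool.Agent.Q61.KC5

/-! All but at most `n` slices have positive measure. -/

set_option autoImplicit false
open MeasureTheory Metric Set Filter Topology H248.ID
open scoped ENNReal NNReal ContDiff

namespace Q61.KC

open Q61.KH

/-- the divided difference of the characteristic polynomial -/
lemma lagr {n : ℕ} (M : Matrix (Fin n) (Fin n) ℝ) (T : Finset ℝ) (hT : T.card = n + 1) :
    ∑ t ∈ T, (M + t • (1 : Matrix (Fin n) (Fin n) ℝ)).det / ∏ t' ∈ T.erase t, (t - t') = 1 := by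
  have h1 := Lagrange.leadingCoeff_eq_sum (s := T) (v := id) (Set.injOn_id _)
    (P := (-M).charpoly) (by
      rw [Matrix.charpoly_degree_eq_dim, Fintype.card_fin, hT]
      norm_cast)
  rw [(Matrix.charpoly_monic _).leadingCoeff] at h1
  rw [h1]
  refine Finset.sum_congr rfl fun t _ => ?_
  simp only [id]
  rw [Matrix.eval_charpoly, sub_neg_eq_add, Matrix.scalar_apply, ← Matrix.smul_one_eq_diagonal,
    add_comm]

/-- **at most `n` slices are null sets**, global version -/
theorem exc {n : ℕ} (hn : 1 ≤ n) {F : E n → E n} (hF : UniformContinuous F) {Bd : ℝ}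
    (hBd : ∀ x, ‖F x‖ ≤ Bd) {s p : Fin n → ℝ}
    (hs0 : ∀ l, 0 < s l) (hs1 : ∀ l, s l < 1) (hp : ∀ l, 1 ≤ p l) (hpsum : ∑ l, (p l)⁻¹ = 1)
    (hssum : ∑ l, s l = (n : ℝ) - 1) {S Q : Set (E n)} (hS : MeasurableSet S)
    (hSfin : volume S ≠ ⊤) (hSQ : S ⊆ Q) {k0 : ℕ} (hk0 : ∀ x ∈ S, closedBall x (2 * ee k0) ⊆ Q)
    (hE : ∀ l, energy Q (s l) (p l) (fun y => F y l) ≠ ⊤) {η : E n → ℝ} (hη : ContDiff ℝ ∞ η)
    (hc : HasCompactSupport η) (hsupp : tsupport η ⊆ S) (hη0 : 0 < ∫ x, η x) {T : Finset ℝ}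
    (hT : ∀ t ∈ T, volume ((fun x => F x + t • x) '' S) = 0) : T.card ≤ n := by
  by_contra hcon
  push Not at hcon
  obtain ⟨T', hT'T, hT'c⟩ := Finset.exists_subset_card_eq (n := n + 1) (s := T) (by omega)
  have hlim : Tendsto (fun k : ℕ => ∑ t ∈ T', (∫ x, η x * (jac (ut (ee k) F t) x).det) /
      ∏ t' ∈ T'.erase t, (t - t')) atTop (𝓝 0) := by
    have h := tendsto_finsetSum T' (fun t ht => (null_lim hn hF hBd hs0 hs1 hp hpsum hssum hS
      hSfin hSQ hk0 hE hη hc hsupp t (hT t (hT'T ht))).div_const (∏ t' ∈ T'.erase t, (t - t')))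
    simpa using h
  have hconst : ∀ k : ℕ, ∑ t ∈ T', (∫ x, η x * (jac (ut (ee k) F t) x).det) /
      ∏ t' ∈ T'.erase t, (t - t') = ∫ x, η x := by
    intro k
    have hi : ∀ t, Integrable (fun x => η x * (jac (ut (ee k) F t) x).det /
        ∏ t' ∈ T'.erase t, (t - t')) := by
      intro t
      refine Integrable.div_const ?_ _
      refine Continuous.integrable_of_hasCompactSupport ?_ hc.mul_right
      exact hη.continuous.mul
        (J02.aux_cont_jac (ut_smooth (ee_pos k) hF.continuous t)).matrix_det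
    have e1 : ∀ t, (∫ x, η x * (jac (ut (ee k) F t) x).det) / ∏ t' ∈ T'.erase t, (t - t')
        = ∫ x, η x * (jac (ut (ee k) F t) x).det / ∏ t' ∈ T'.erase t, (t - t') :=
      fun t => (integral_div _ _).symm
    simp_rw [e1]
    rw [← integral_finsetSum _ fun t _ => hi t]
    congr 1
    funext x
    have e2 := lagr (jac (mv (ee k) F) x) T' hT'c
    calc ∑ t ∈ T', η x * (jac (ut (ee k) F t) x).det / ∏ t' ∈ T'.erase t, (t - t')
        = η x * ∑ t ∈ T', (jac (mv (ee k) F) x + t • (1 : Matrix (Fin n) (Fin n) ℝ)).det /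
          ∏ t' ∈ T'.erase t, (t - t') := by
          rw [Finset.mul_sum]
          refine Finset.sum_congr rfl fun t _ => ?_
          rw [jac_ut (ee_pos k) hF.continuous, mul_div_assoc]
      _ = η x := by rw [e2, mul_one]
  simp_rw [hconst] at hlim
  have := tendsto_nhds_unique hlim tendsto_const_nhds
  linarith

/-- the clamping map onto the cube of centre `v` and half side `ρ` -/
noncomputable def clp {n : ℕ} (v : E n) (ρ : ℝ) (x : E n) : E n :=
  fun i => max (v i - ρ) (min (v i + ρ) (x i))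

lemma clp_eq {n : ℕ} {v : E n} {ρ : ℝ} {x : E n} (hx : x ∈ closedBall v ρ) : clp v ρ x = x := by
  funext i
  rw [mem_closedBall, dist_eq_norm] at hx
  have h := (norm_le_pi_norm (x - v) i).trans hx
  rw [Pi.sub_apply, Real.norm_eq_abs, abs_le] at h
  unfold clp
  rw [min_eq_right (by linarith), max_eq_right (by linarith)]

lemma clp_mem {n : ℕ} {v : E n} {ρ : ℝ} (hρ : 0 ≤ ρ) (x : E n) :
    clp v ρ x ∈ closedBall v ρ := by
  rw [mem_closedBall, dist_eq_norm, pi_norm_le_iff_of_nonneg hρ]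
  intro i
  rw [Pi.sub_apply, Real.norm_eq_abs, abs_le]
  unfold clp
  constructor
  · have := le_max_left (v i - ρ) (min (v i + ρ) (x i))
    linarith
  · have : max (v i - ρ) (min (v i + ρ) (x i)) ≤ v i + ρ :=
      max_le (by linarith) (min_le_left _ _)
    linarith

lemma clp_lip {n : ℕ} (v : E n) (ρ : ℝ) : LipschitzWith 1 (clp v ρ) := by
  refine LipschitzWith.of_dist_le_mul fun x y => ?_
  rw [NNReal.coe_one, one_mul, dist_pi_le_iff dist_nonneg]
  intro i
  refine le_trans ?_ (dist_le_pi_dist x y i)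
  unfold clp
  rw [Real.dist_eq, Real.dist_eq]
  refine (abs_max_sub_max_le_max _ _ _ _).trans ?_
  rw [sub_self, abs_zero]
  refine max_le (abs_nonneg _) ?_
  refine (abs_min_sub_min_le_max _ _ _ _).trans ?_
  rw [sub_self, abs_zero]
  exact max_le (abs_nonneg _) le_rfl

lemma energy_mono {n : ℕ} {Q Q' : Set (E n)} (hQ : Q ⊆ Q') (s p : ℝ) (f : E n → ℝ) :
    energy Q s p f ≤ energy Q' s p f := by
  unfold energy
  refine (lintegral_mono_set hQ).trans (lintegral_mono fun x => lintegral_mono_set hQ)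

lemma energy_congr {n : ℕ} {Q : Set (E n)} (hQ : MeasurableSet Q) {s p : ℝ} {f g : E n → ℝ}
    (h : ∀ x ∈ Q, f x = g x) : energy Q s p f = energy Q s p g := by
  unfold energy
  refine setLIntegral_congr_fun hQ fun x hx => ?_
  refine setLIntegral_congr_fun hQ fun y hy => ?_
  simp only [h x hx, h y hy]

/-- local version -/
theorem exc_local {n : ℕ} (hn : 1 ≤ n) {v0 : E n} {r : ℝ} (hr : 0 < r) {F : E n → E n}
    (hF : ContinuousOn F (ball v0 r)) {s p : Fin n → ℝ}
    (hs0 : ∀ l, 0 < s l) (hs1 : ∀ l, s l < 1) (hp : ∀ l, 1 ≤ p l) (hpsum : ∑ l, (p l)⁻¹ = 1)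
    (hssum : ∑ l, s l = (n : ℝ) - 1)
    (hE : ∀ l, energy (ball v0 r) (s l) (p l) (fun y => F y l) ≠ ⊤) {T : Finset ℝ}
    (hT : ∀ t ∈ T, volume ((fun x => F x + t • x) '' ball v0 r) = 0) : T.card ≤ n := by
  set Q : Set (E n) := closedBall v0 (r / 2) with hQ
  set S : Set (E n) := closedBall v0 (r / 4) with hS
  have hQb : Q ⊆ ball v0 r := closedBall_subset_ball (by linarith)
  have hSQ : S ⊆ Q := closedBall_subset_closedBall (by linarith)
  set G : E n → E n := fun x => F (clp v0 (r / 2) x) with hG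
  have hGF : ∀ x ∈ Q, G x = F x := fun x hx => by
    rw [hG]
    simp only [clp_eq hx]
  have hQc : IsCompact Q := isCompact_closedBall _ _
  have hFQ : ContinuousOn F Q := hF.mono hQb
  have hGu : UniformContinuous G := by
    have h1 := hQc.uniformContinuousOn_of_continuous hFQ
    rw [Metric.uniformContinuousOn_iff] at h1
    rw [Metric.uniformContinuous_iff]
    intro ε hε
    obtain ⟨δ, hδ, h⟩ := h1 ε hε
    refine ⟨δ, hδ, fun {a b} hab => h _ (clp_mem (by positivity) a) _
      (clp_mem (by positivity) b) ?_⟩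
    have := (clp_lip v0 (r / 2)).dist_le_mul a b
    rw [NNReal.coe_one, one_mul] at this
    linarith
  obtain ⟨Bd, hBd⟩ := hQc.exists_bound_of_continuousOn hFQ
  have hGB : ∀ x, ‖G x‖ ≤ Bd := fun x => hBd _ (clp_mem (by positivity) x)
  have hEG : ∀ l, energy Q (s l) (p l) (fun y => G y l) ≠ ⊤ := by
    intro l
    rw [energy_congr (g := fun y => F y l) hQc.measurableSet fun x hx => by
      simp only [hGF x hx]]
    exact ne_top_of_le_ne_top (hE l) (energy_mono hQb _ _ _)
  obtain ⟨k0, hk0⟩ : ∃ k0 : ℕ, 2 * ee k0 ≤ r / 4 := by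
    obtain ⟨k, hk⟩ := exists_pow_lt_of_lt_one (show (0:ℝ) < r / 8 by positivity)
      (show (1/2 : ℝ) < 1 by norm_num)
    refine ⟨k, ?_⟩
    unfold ee
    linarith
  let φ : ContDiffBump v0 := ⟨r / 8, r / 4, by positivity, by linarith⟩
  refine exc hn hGu hGB hs0 hs1 hp hpsum hssum (S := S) (Q := Q) isClosed_closedBall.measurableSet
    (isCompact_closedBall _ _).measure_ne_top hSQ (k0 := k0) ?_ hEG (η := φ) φ.contDiff
    φ.hasCompactSupport ?_ φ.integral_pos ?_
  · intro x hx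
    refine closedBall_subset_closedBall' ?_
    rw [mem_closedBall] at hx
    linarith
  · rw [φ.tsupport_eq]
  · intro t ht
    refine measure_mono_null ?_ (hT t ht)
    rintro _ ⟨x, hx, rfl⟩
    exact ⟨x, hQb (hSQ hx), by simp only [hGF x (hSQ hx)]⟩

/-- **(1)** all but at most `n` slices have positive measure -/
theorem exc_set {n : ℕ} (hn : 1 ≤ n) {v0 : E n} {r : ℝ} (hr : 0 < r) {F : E n → E n}
    (hF : ContinuousOn F (ball v0 r)) {s p : Fin n → ℝ}
    (hs0 : ∀ l, 0 < s l) (hs1 : ∀ l, s l < 1) (hp : ∀ l, 1 ≤ p l) (hpsum : ∑ l, (p l)⁻¹ = 1)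
    (hssum : ∑ l, s l = (n : ℝ) - 1)
    (hE : ∀ l, energy (ball v0 r) (s l) (p l) (fun y => F y l) ≠ ⊤) :
    {t : ℝ | volume ((fun x => F x + t • x) '' ball v0 r) = 0}.Finite ∧
      {t : ℝ | volume ((fun x => F x + t • x) '' ball v0 r) = 0}.ncard ≤ n := by
  have hfin : {t : ℝ | volume ((fun x => F x + t • x) '' ball v0 r) = 0}.Finite := by
    by_contra hcon
    obtain ⟨T, hT, hTc⟩ := Set.Infinite.exists_subset_card_eq hcon (n + 1)
    have := exc_local hn hr hF hs0 hs1 hp hpsum hssum hE (T := T) (fun t ht => hT ht)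
    omega
  refine ⟨hfin, ?_⟩
  rw [Set.ncard_eq_toFinset_card _ hfin]
  exact exc_local hn hr hF hs0 hs1 hp hpsum hssum hE fun t ht => by simpa using ht

/-- **(2)** sets containing the lines over a set of heights of positive measure -/
theorem pos_of_heights {n : ℕ} (hn : 1 ≤ n) {v0 : E n} {r : ℝ} (hr : 0 < r) {F : E n → E n}
    (hF : ContinuousOn F (ball v0 r)) {s p : Fin n → ℝ}
    (hs0 : ∀ l, 0 < s l) (hs1 : ∀ l, s l < 1) (hp : ∀ l, 1 ≤ p l) (hpsum : ∑ l, (p l)⁻¹ = 1)
    (hssum : ∑ l, s l = (n : ℝ) - 1)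
    (hE : ∀ l, energy (ball v0 r) (s l) (p l) (fun y => F y l) ≠ ⊤) {K : Set (E n × ℝ)}
    {A : Set ℝ} (hA : volume A ≠ 0)
    (hK : ∀ t ∈ A, ∀ v ∈ ball v0 r, (F v + t • v, t) ∈ K) : 0 < volume K := by
  rw [pos_iff_ne_zero]
  intro h0
  obtain ⟨hfin, -⟩ := exc_set hn hr hF hs0 hs1 hp hpsum hssum hE
  set K' := toMeasurable volume K with hK'
  have hK'0 : volume K' = 0 := by rw [hK', measure_toMeasurable, h0]
  have hK'm : MeasurableSet K' := measurableSet_toMeasurable _ _
  rw [Measure.volume_eq_prod, Measure.prod_apply_symm hK'm,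
    lintegral_eq_zero_iff (measurable_measure_prodMk_right hK'm)] at hK'0
  have hN : ∀ᵐ t : ℝ, t ∉ A := by
    have hT : ∀ᵐ t : ℝ, t ∉ {t : ℝ | volume ((fun x => F x + t • x) '' ball v0 r) = 0} := by
      rw [← measure_eq_zero_iff_ae_notMem]
      exact hfin.measure_zero _
    filter_upwards [hT, hK'0] with t ht1 ht2 htA
    apply ht1
    refine measure_mono_null ?_ ht2
    rintro _ ⟨v, hv, rfl⟩
    exact subset_toMeasurable _ _ (hK t htA v hv)
  exact hA (measure_eq_zero_iff_ae_notMem.2 hN)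

/-- **(3)** closed sets containing a segment of every line -/
theorem pos_of_segments {n : ℕ} (hn : 1 ≤ n) {v0 : E n} {r : ℝ} (hr : 0 < r) {F : E n → E n}
    (hF : ContinuousOn F (ball v0 r)) {s p : Fin n → ℝ}
    (hs0 : ∀ l, 0 < s l) (hs1 : ∀ l, s l < 1) (hp : ∀ l, 1 ≤ p l) (hpsum : ∑ l, (p l)⁻¹ = 1)
    (hssum : ∑ l, s l = (n : ℝ) - 1)
    (hE : ∀ l, energy (ball v0 r) (s l) (p l) (fun y => F y l) ≠ ⊤) {K : Set (E n × ℝ)}
    (hKc : IsClosed K)
    (hK : ∀ v ∈ ball v0 r, ∃ a b : ℝ, a < b ∧ ∀ t ∈ Icc a b, (F v + t • v, t) ∈ K) :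
    0 < volume K := by
  set Q : Set (E n) := closedBall v0 (r / 2) with hQ
  have hQb : Q ⊆ ball v0 r := closedBall_subset_ball (by linarith)
  have hbQ : ball v0 (r / 2) ⊆ Q := ball_subset_closedBall
  set G : E n → E n := fun x => F (clp v0 (r / 2) x) with hG
  have hGF : ∀ x ∈ Q, G x = F x := fun x hx => by
    rw [hG]
    simp only [clp_eq hx]
  have hGc : Continuous G := by
    refine (hF.mono hQb).comp_continuous (clp_lip v0 (r / 2)).continuous ?_
    exact fun x => clp_mem (by positivity) x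
  set W : Option (ℚ × ℚ) → Set (E n) := fun o => match o with
    | none => (ball v0 (r / 2))ᶜ
    | some q => if q.1 < q.2 then ⋂ t ∈ Icc (q.1 : ℝ) (q.2 : ℝ), {v | (G v + t • v, t) ∈ K} else ∅
    with hW
  have hWc : ∀ o, IsClosed (W o) := by
    intro o
    match o with
    | none => exact isOpen_ball.isClosed_compl
    | some q =>
      simp only [hW]
      split_ifs
      · refine isClosed_biInter fun t _ => ?_
        refine hKc.preimage ?_
        exact (hGc.add (continuous_id.const_smul t)).prodMk continuous_const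
      · exact isClosed_empty
  have hWU : ⋃ o, W o = univ := by
    rw [eq_univ_iff_forall]
    intro v
    rw [mem_iUnion]
    by_cases hv : v ∈ ball v0 (r / 2)
    · obtain ⟨a, b, hab, h⟩ := hK v (hQb (hbQ hv))
      obtain ⟨q1, hq1, hq1'⟩ := exists_rat_btwn hab
      obtain ⟨q2, hq2, hq2'⟩ := exists_rat_btwn hq1'
      refine ⟨some (q1, q2), ?_⟩
      have hlt : q1 < q2 := by exact_mod_cast hq2
      simp only [hW, if_pos hlt, mem_iInter, mem_ofPred_eq]
      intro t ht
      rw [hGF v (hbQ hv)]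
      exact h t ⟨hq1.le.trans ht.1, ht.2.trans hq2'.le⟩
    · exact ⟨none, hv⟩
  have hdense := dense_iUnion_interior_of_closed hWc hWU
  obtain ⟨x, hxb, hx⟩ := hdense.inter_open_nonempty (ball v0 (r / 2)) isOpen_ball
    ⟨v0, mem_ball_self (by positivity)⟩
  rw [mem_iUnion] at hx
  obtain ⟨o, ho⟩ := hx
  match o with
  | none => exact absurd hxb (interior_subset ho)
  | some q =>
    have hopen : IsOpen (ball v0 (r / 2) ∩ interior (W (some q))) := isOpen_ball.inter isOpen_interior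
    obtain ⟨ρ, hρ, hρb⟩ := Metric.isOpen_iff.1 hopen x ⟨hxb, ho⟩
    have hsub : ball x ρ ⊆ ball v0 r := fun y hy => hQb (hbQ (hρb hy).1)
    have hlt : q.1 < q.2 := by
      by_contra hcon
      have := interior_subset ho
      simp only [hW, if_neg hcon] at this
      exact this
    have hvol : volume (Icc (q.1 : ℝ) (q.2 : ℝ)) ≠ 0 := by
      rw [Real.volume_Icc]
      have : (q.1 : ℝ) < q.2 := by exact_mod_cast hlt
      simp only [ne_eq, ENNReal.ofReal_eq_zero, not_le]
      linarith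
    refine pos_of_heights hn hρ (hF.mono hsub) hs0 hs1 hp hpsum hssum
      (fun l => ne_top_of_le_ne_top (hE l) (energy_mono hsub _ _ _)) hvol ?_
    intro t ht v hv
    have h1 := interior_subset (hρb hv).2
    simp only [hW, if_pos hlt, mem_iInter, mem_ofPred_eq] at h1
    have h2 := h1 t ht
    rwa [hGF v (hbQ (hρb hv).1)] at h2

end Q61.KC
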