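import Pool.Agent.Q61.KC6

/-! Finite energy of Hoelder functions, and an example with exactly `n` exceptional heights. -/

set_option autoImplicit false
open MeasureTheory Metric Set Filter Topology H248.ID
open scoped ENNReal NNReal ContDiff

namespace Q61.KC

open Q61.KH

/-- Hoelder functions with an exponent larger than `s` have finite energy -/
lemma energy_hold {n : ℕ} (hn : 1 ≤ n) {v0 : E n} {r : ℝ} (hr : 0 < r) {s p a L : ℝ}
    (hp : 1 ≤ p) (hsa : s < a) (hL : 0 ≤ L) {f : E n → ℝ}
    (hf : ∀ x ∈ ball v0 r, ∀ y ∈ ball v0 r, |f x - f y| ≤ L * ‖x - y‖ ^ a) :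
    energy (ball v0 r) s p f ≠ ⊤ := by
  set β : ℝ := (n : ℝ) + s * p - a * p with hβ
  have hβn : β < n := by
    have : 0 < (a - s) * p := mul_pos (by linarith) (by linarith)
    rw [hβ]
    nlinarith
  obtain ⟨C, hC, hrad⟩ := radial hn hβn
  obtain ⟨hint, -⟩ := hrad (2 * r) (by positivity)
  set h : E n → ℝ := fun w => (Iio (2 * r)).indicator (fun r : ℝ => r ^ (-β)) ‖w‖ with hh
  have hh0 : ∀ w, 0 ≤ h w := by
    intro w
    rw [hh]
    by_cases hw : ‖w‖ ∈ Iio (2 * r)
    · simp only [indicator_of_mem hw]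
      positivity
    · simp only [indicator_of_notMem hw, le_refl]
  have hpt : ∀ x ∈ ball v0 r, ∀ y ∈ ball v0 r,
      ENNReal.ofReal (|f x - f y| ^ p / ‖x - y‖ ^ ((n : ℝ) + s * p)) ≤
        ENNReal.ofReal (L ^ p) * ENNReal.ofReal (h (y - x)) := by
    intro x hx y hy
    rw [← ENNReal.ofReal_mul (by positivity)]
    refine ENNReal.ofReal_le_ofReal ?_
    rcases eq_or_ne x y with rfl | hxy
    · rw [sub_self, sub_self, abs_zero, Real.zero_rpow (by linarith), zero_div]
      exact mul_nonneg (by positivity) (hh0 _)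
    · have hd : 0 < ‖x - y‖ := norm_pos_iff.2 (sub_ne_zero.2 hxy)
      have hd2 : ‖y - x‖ ∈ Iio (2 * r) := by
        rw [mem_Iio, ← dist_eq_norm]
        rw [mem_ball] at hx hy
        have := dist_triangle_right y x v0
        linarith
      have e1 : h (y - x) = ‖x - y‖ ^ (-β) := by
        rw [hh]
        simp only
        rw [indicator_of_mem hd2, norm_sub_rev]
      rw [e1]
      have h1 : |f x - f y| ^ p ≤ L ^ p * ‖x - y‖ ^ (a * p) := by
        calc |f x - f y| ^ p ≤ (L * ‖x - y‖ ^ a) ^ p :=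
              Real.rpow_le_rpow (abs_nonneg _) (hf x hx y hy) (by linarith)
          _ = _ := by rw [Real.mul_rpow hL (by positivity), ← Real.rpow_mul hd.le]
      calc |f x - f y| ^ p / ‖x - y‖ ^ ((n : ℝ) + s * p)
          ≤ L ^ p * ‖x - y‖ ^ (a * p) / ‖x - y‖ ^ ((n : ℝ) + s * p) :=
            div_le_div_of_nonneg_right h1 (by positivity)
        _ = _ := by
            rw [mul_div_assoc, ← Real.rpow_sub hd]
            congr 2
            rw [hβ]
            ring
  unfold energy
  have hin : ∀ x : E n, ∫⁻ y, ENNReal.ofReal (h (y - x)) = ENNReal.ofReal (∫ w, h w) := by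
    intro x
    rw [lintegral_sub_right_eq_self (fun w => ENNReal.ofReal (h w)) x,
      ofReal_integral_eq_lintegral_ofReal hint (Eventually.of_forall hh0)]
  refine ne_top_of_le_ne_top (b := ENNReal.ofReal (L ^ p) * ENNReal.ofReal (∫ w, h w) *
    volume (ball v0 r)) ?_ ?_
  · exact ENNReal.mul_ne_top (ENNReal.mul_ne_top ENNReal.ofReal_ne_top ENNReal.ofReal_ne_top)
      measure_ball_lt_top.ne
  · rw [← setLIntegral_const]
    refine setLIntegral_mono_ae' measurableSet_ball (Eventually.of_forall fun x hx => ?_)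
    rw [← hin x, ← lintegral_const_mul' _ _ ENNReal.ofReal_ne_top]
    refine (setLIntegral_mono_ae' measurableSet_ball
      (Eventually.of_forall fun y hy => hpt x hx y hy)).trans ?_
    exact lintegral_mono' Measure.restrict_le_self le_rfl

/-- a linear family with exactly `n` exceptional heights -/
theorem exc_sharp {n : ℕ} (hn : 1 ≤ n) {v0 : E n} {r : ℝ} (hr : 0 < r) {s p : Fin n → ℝ}
    (hs0 : ∀ l, 0 < s l) (hs1 : ∀ l, s l < 1) (hp : ∀ l, 1 ≤ p l) (hpsum : ∑ l, (p l)⁻¹ = 1)
    (hssum : ∑ l, s l = (n : ℝ) - 1) :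
    ∃ F : E n → E n, Continuous F ∧
      (∀ l, energy (ball v0 r) (s l) (p l) (fun y => F y l) ≠ ⊤) ∧
      {t : ℝ | volume ((fun x => F x + t • x) '' ball v0 r) = 0}.ncard = n := by
  set F : E n → E n := fun v l => -((l : ℕ) : ℝ) * v l with hF
  have hFc : Continuous F := continuous_pi fun l => continuous_const.mul (continuous_apply l)
  have hE : ∀ l, energy (ball v0 r) (s l) (p l) (fun y => F y l) ≠ ⊤ := by
    intro l
    refine energy_hold hn hr (hp l) (hs1 l) (L := ((l : ℕ) : ℝ)) (by positivity) ?_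
    intro x _ y _
    rw [Real.rpow_one]
    have e1 : F x l - F y l = ((l : ℕ) : ℝ) * -((x - y) l) := by
      rw [hF]
      simp only [Pi.sub_apply]
      ring
    rw [e1, abs_mul, abs_neg, Nat.abs_cast]
    refine mul_le_mul_of_nonneg_left ?_ (by positivity)
    rw [← Real.norm_eq_abs]
    exact norm_le_pi_norm (x - y) l
  obtain ⟨hfin, hcard⟩ := exc_set hn hr hFc.continuousOn hs0 hs1 hp hpsum hssum hE
  refine ⟨F, hFc, hE, le_antisymm hcard ?_⟩
  have hsub : Set.range (fun l : Fin n => ((l : ℕ) : ℝ)) ⊆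
      {t : ℝ | volume ((fun x => F x + t • x) '' ball v0 r) = 0} := by
    rintro _ ⟨l, rfl⟩
    have h0 : volume {y : E n | y l = 0} = 0 := Measure.pi_hyperplane _ l 0
    refine measure_mono_null ?_ h0
    rintro _ ⟨x, _, rfl⟩
    change -((l : ℕ) : ℝ) * x l + ((l : ℕ) : ℝ) * x l = 0
    ring
  calc n = (Set.range (fun l : Fin n => ((l : ℕ) : ℝ))).ncard := by
        rw [← Set.image_univ, Set.ncard_image_of_injective, Set.ncard_univ, Nat.card_eq_fintype_card,
          Fintype.card_fin]
        intro a b hab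
        exact Fin.ext (Nat.cast_injective hab)
    _ ≤ _ := Set.ncard_le_ncard hsub hfin

end Q61.KC
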