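import Pool.Agent.H248.ID.J02

/-! Mollification of Hoelder functions on `Fin n → ℝ`. -/

set_option autoImplicit false
open MeasureTheory Metric Set Filter Topology H248.ID
open scoped ENNReal NNReal ContDiff

namespace Q61.KH

/-- the standard bump function -/
noncomputable def bp (n : ℕ) : ContDiffBump (0 : E n) := ⟨1/2, 1, by norm_num, by norm_num⟩

/-- the standard mollifier -/
noncomputable def rho (n : ℕ) (x : E n) : ℝ := (bp n).normed volume x

lemma rho_nonneg {n : ℕ} (x : E n) : 0 ≤ rho n x := (bp n).nonneg_normed x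

lemma rho_smooth {n : ℕ} : ContDiff ℝ ∞ (rho n) := (bp n).contDiff_normed

lemma rho_int {n : ℕ} : ∫ x, rho n x = 1 := (bp n).integral_normed

lemma rho_supp {n : ℕ} : HasCompactSupport (rho n) := (bp n).hasCompactSupport_normed

lemma rho_zero {n : ℕ} {x : E n} (hx : 1 ≤ ‖x‖) : rho n x = 0 := by
  have h : x ∉ Function.support ((bp n).normed volume) := by
    rw [ContDiffBump.support_normed_eq]
    simp only [mem_ball, dist_zero_right, not_lt]
    exact hx
  exact Function.notMem_support.mp h

lemma rho_lip (n : ℕ) : ∃ L : ℝ, 0 ≤ L ∧ ∀ x y : E n, |rho n x - rho n y| ≤ L * ‖x - y‖ := by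
  obtain ⟨C, hC⟩ := ContDiff.lipschitzWith_of_hasCompactSupport (rho_supp (n := n))
    (rho_smooth (n := n)) (by simp)
  refine ⟨C, C.2, fun x y => ?_⟩
  have h := hC.dist_le_mul x y
  rwa [Real.dist_eq, dist_eq_norm] at h

/-- the mollifier at scale `ε` -/
noncomputable def re (n : ℕ) (ε : ℝ) (x : E n) : ℝ := (ε⁻¹) ^ n * rho n (ε⁻¹ • x)

lemma re_nonneg {n : ℕ} {ε : ℝ} (hε : 0 < ε) (x : E n) : 0 ≤ re n ε x :=
  mul_nonneg (by positivity) (rho_nonneg _)

lemma re_smooth {n : ℕ} (ε : ℝ) : ContDiff ℝ ∞ (re n ε) :=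
  contDiff_const.mul (rho_smooth.comp (contDiff_const_smul _))

lemma re_zero {n : ℕ} {ε : ℝ} (hε : 0 < ε) {x : E n} (hx : ε ≤ ‖x‖) : re n ε x = 0 := by
  unfold re
  rw [rho_zero, mul_zero]
  rw [norm_smul, norm_inv, Real.norm_of_nonneg hε.le]
  rw [← div_eq_inv_mul, le_div_iff₀ hε]
  linarith

lemma re_supp {n : ℕ} {ε : ℝ} (hε : 0 < ε) : HasCompactSupport (re n ε) := by
  refine HasCompactSupport.of_support_subset_isCompact (isCompact_closedBall (0 : E n) ε) ?_
  intro x hx
  rw [Function.mem_support] at hx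
  by_contra h
  apply hx
  apply re_zero hε
  simp only [mem_closedBall, dist_zero_right, not_le] at h
  exact h.le

lemma re_cont {n : ℕ} (ε : ℝ) : Continuous (re n ε) := (re_smooth ε).continuous

lemma re_int {n : ℕ} {ε : ℝ} (hε : 0 < ε) : ∫ x, re n ε x = 1 := by
  unfold re
  rw [integral_const_mul, Measure.integral_comp_inv_smul, rho_int]
  simp only [Module.finrank_fintype_fun_eq_card, Fintype.card_fin, smul_eq_mul, mul_one]
  rw [abs_of_pos (by positivity), inv_pow]
  field_simp

lemma re_integrable {n : ℕ} {ε : ℝ} (hε : 0 < ε) : Integrable (re n ε) :=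
  (re_cont ε).integrable_of_hasCompactSupport (re_supp hε)

/-- mollification -/
noncomputable def moll {n : ℕ} (ε : ℝ) (f : E n → ℝ) (x : E n) : ℝ := ∫ t, f t * re n ε (x - t)

lemma moll_contDiff {n : ℕ} {ε : ℝ} (hε : 0 < ε) {f : E n → ℝ} (hf : Continuous f) :
    ContDiff ℝ ∞ (moll ε f) :=
  (re_supp hε).contDiff_convolution_right (n := ⊤) (ContinuousLinearMap.mul ℝ ℝ)
    (hf.locallyIntegrable) (re_smooth ε)

lemma re_sub_int {n : ℕ} {ε : ℝ} (hε : 0 < ε) (x : E n) : ∫ t, re n ε (x - t) = 1 := by
  rw [integral_sub_left_eq_self (fun t => re n ε t) volume x, re_int hε]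

lemma re_sub_supp {n : ℕ} {ε : ℝ} (hε : 0 < ε) (x : E n) :
    HasCompactSupport (fun t => re n ε (x - t)) :=
  (re_supp hε).comp_homeomorph (Homeomorph.subLeft x)

lemma mul_integrable {n : ℕ} {ε : ℝ} (hε : 0 < ε) {f : E n → ℝ} (hf : Continuous f) (x : E n) :
    Integrable (fun t => f t * re n ε (x - t)) :=
  (hf.mul ((re_cont ε).comp (by fun_prop))).integrable_of_hasCompactSupport
    (re_sub_supp hε x).mul_left

lemma sub_integrable {n : ℕ} {ε : ℝ} (hε : 0 < ε) (x : E n) :
    Integrable (fun t => re n ε (x - t)) :=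
  ((re_cont ε).comp (by fun_prop)).integrable_of_hasCompactSupport (re_sub_supp hε x)

/-- the mollification in terms of translates -/
lemma moll_eq {n : ℕ} (ε : ℝ) (f : E n → ℝ) (x : E n) :
    moll ε f x = ∫ w, f (x - w) * re n ε w := by
  unfold moll
  rw [← integral_sub_left_eq_self (fun t => f t * re n ε (x - t)) volume x]
  simp only [sub_sub_cancel]

lemma moll_sub {n : ℕ} {ε : ℝ} (hε : 0 < ε) {f : E n → ℝ} (hf : Continuous f) {A a : ℝ}
    (ha : 0 ≤ a) (hA : 0 ≤ A) (h : ∀ x y, |f x - f y| ≤ A * ‖x - y‖ ^ a) (x : E n) :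
    |moll ε f x - f x| ≤ A * ε ^ a := by
  have h1 : moll ε f x - f x = ∫ t, (f t - f x) * re n ε (x - t) := by
    have : f x = ∫ t, f x * re n ε (x - t) := by
      rw [integral_const_mul, re_sub_int hε, mul_one]
    conv_lhs => rw [this]
    unfold moll
    rw [← integral_sub (mul_integrable hε hf x) ((sub_integrable hε x).const_mul _)]
    congr 1
    funext t
    ring
  rw [h1]
  calc |∫ t, (f t - f x) * re n ε (x - t)| ≤ ∫ t, A * ε ^ a * re n ε (x - t) := by
        rw [← Real.norm_eq_abs]
        refine norm_integral_le_of_norm_le ((sub_integrable hε x).const_mul _) ?_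
        refine Filter.Eventually.of_forall fun t => ?_
        rw [Real.norm_eq_abs, abs_mul, abs_of_nonneg (re_nonneg hε _)]
        by_cases ht : ε ≤ ‖x - t‖
        · rw [re_zero hε ht]
          simp
        · push Not at ht
          refine mul_le_mul_of_nonneg_right ?_ (re_nonneg hε _)
          refine (h t x).trans (mul_le_mul_of_nonneg_left ?_ hA)
          rw [norm_sub_rev]
          exact Real.rpow_le_rpow (norm_nonneg _) ht.le ha
    _ = A * ε ^ a := by rw [integral_const_mul, re_sub_int hε, mul_one]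

lemma moll_hold {n : ℕ} {ε : ℝ} (hε : 0 < ε) {f : E n → ℝ} (hf : Continuous f) {A a : ℝ}
    (h : ∀ x y, |f x - f y| ≤ A * ‖x - y‖ ^ a) (x y : E n) :
    |moll ε f x - moll ε f y| ≤ A * ‖x - y‖ ^ a := by
  have hi : ∀ x : E n, Integrable (fun w => f (x - w) * re n ε w) := fun x =>
    ((hf.comp (by fun_prop)).mul (re_cont ε)).integrable_of_hasCompactSupport
      (re_supp hε).mul_left
  rw [moll_eq, moll_eq, ← integral_sub (hi x) (hi y)]
  calc |∫ w, (f (x - w) * re n ε w - f (y - w) * re n ε w)|
      ≤ ∫ w, A * ‖x - y‖ ^ a * re n ε w := by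
        rw [← Real.norm_eq_abs]
        refine norm_integral_le_of_norm_le ((re_integrable hε).const_mul _) ?_
        refine Filter.Eventually.of_forall fun w => ?_
        rw [← sub_mul, Real.norm_eq_abs, abs_mul, abs_of_nonneg (re_nonneg hε _)]
        refine mul_le_mul_of_nonneg_right ?_ (re_nonneg hε _)
        have := h (x - w) (y - w)
        rwa [sub_sub_sub_cancel_right] at this
    _ = A * ‖x - y‖ ^ a := by rw [integral_const_mul, re_int hε, mul_one]

lemma moll_pd (n : ℕ) : ∃ C : ℝ, 0 < C ∧ ∀ {ε : ℝ}, 0 < ε → ∀ {f : E n → ℝ}, Continuous f →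
    ∀ {A a : ℝ}, 0 ≤ a → a ≤ 1 → 0 ≤ A → (∀ x y, |f x - f y| ≤ A * ‖x - y‖ ^ a) →
    ∀ (j : Fin n) (x : E n), |pd (moll ε f) j x| ≤ C * A * ε ^ (a - 1) := by
  obtain ⟨L, hL, hLip⟩ := rho_lip n
  refine ⟨2 * L * 4 ^ n + 1, by positivity, ?_⟩
  intro ε hε f hf A a ha ha1 hA h j x
  have key : ∀ y : E n, ‖y - x‖ ≤ ε → |moll ε f y - moll ε f x| ≤
      (2 * L * 4 ^ n * A * ε ^ (a - 1)) * ‖y - x‖ := by
    intro y hy
    have h1 : moll ε f y - moll ε f x
        = ∫ t, (f t - f x) * (re n ε (y - t) - re n ε (x - t)) := by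
      have e1 : moll ε f y = (∫ t, (f t - f x) * re n ε (y - t)) + f x := by
        have : f x = ∫ t, f x * re n ε (y - t) := by
          rw [integral_const_mul, re_sub_int hε, mul_one]
        conv_rhs => rw [this]
        rw [← integral_add]
        · unfold moll
          congr 1
          funext t
          rw [integral_const_mul, re_sub_int hε]
          ring
        · exact mul_integrable hε (hf.sub continuous_const) y
        · exact (sub_integrable hε y).const_mul _
      have e2 : moll ε f x = (∫ t, (f t - f x) * re n ε (x - t)) + f x := by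
        have : f x = ∫ t, f x * re n ε (x - t) := by
          rw [integral_const_mul, re_sub_int hε, mul_one]
        conv_rhs => rw [this]
        rw [← integral_add]
        · unfold moll
          congr 1
          funext t
          rw [integral_const_mul, re_sub_int hε]
          ring
        · exact mul_integrable hε (hf.sub continuous_const) x
        · exact (sub_integrable hε x).const_mul _
      rw [e1, e2, add_sub_add_right_eq_sub, ← integral_sub
        (mul_integrable hε (f := fun t => f t - f x) (hf.sub continuous_const) y)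
        (mul_integrable hε (f := fun t => f t - f x) (hf.sub continuous_const) x)]
      congr 1
      funext t
      ring
    rw [h1]
    have hb : ∀ t, ‖(f t - f x) * (re n ε (y - t) - re n ε (x - t))‖ ≤
        (closedBall x (2 * ε)).indicator
          (fun _ => A * (2 * ε) ^ a * ((ε⁻¹) ^ n * (L * (ε⁻¹ * ‖y - x‖)))) t := by
      intro t
      by_cases ht : t ∈ closedBall x (2 * ε)
      · rw [indicator_of_mem ht, norm_mul]
        refine mul_le_mul ?_ ?_ (norm_nonneg _) (by positivity)
        · refine (h t x).trans (mul_le_mul_of_nonneg_left ?_ hA)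
          refine Real.rpow_le_rpow (norm_nonneg _) ?_ ha
          rwa [mem_closedBall, dist_eq_norm] at ht
        · rw [Real.norm_eq_abs]
          unfold re
          rw [← mul_sub, abs_mul, abs_of_nonneg (by positivity : (0:ℝ) ≤ (ε⁻¹) ^ n)]
          refine mul_le_mul_of_nonneg_left ?_ (by positivity)
          refine (hLip _ _).trans (mul_le_mul_of_nonneg_left ?_ hL)
          rw [← smul_sub, sub_sub_sub_cancel_right, norm_smul, norm_inv,
            Real.norm_of_nonneg hε.le]
      · rw [indicator_of_notMem ht]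
        rw [mem_closedBall, dist_eq_norm, not_le] at ht
        have e1 : re n ε (x - t) = 0 := by
          apply re_zero hε
          rw [norm_sub_rev]
          linarith
        have e2 : re n ε (y - t) = 0 := by
          apply re_zero hε
          have : ‖t - x‖ ≤ ‖y - t‖ + ‖y - x‖ := by
            calc ‖t - x‖ = ‖(t - y) + (y - x)‖ := by congr 1; abel
              _ ≤ ‖t - y‖ + ‖y - x‖ := norm_add_le _ _
              _ = _ := by rw [norm_sub_rev t y]
          linarith
        rw [e1, e2]
        simp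
    have hcb : volume.real (closedBall x (2 * ε)) = (4 * ε) ^ n := by
      rw [measureReal_def, Real.volume_pi_closedBall x (by positivity), Fintype.card_fin,
        ENNReal.toReal_ofReal (by positivity)]
      ring
    calc |∫ t, (f t - f x) * (re n ε (y - t) - re n ε (x - t))|
        ≤ ∫ t, (closedBall x (2 * ε)).indicator
          (fun _ => A * (2 * ε) ^ a * ((ε⁻¹) ^ n * (L * (ε⁻¹ * ‖y - x‖)))) t := by
          rw [← Real.norm_eq_abs]
          refine norm_integral_le_of_norm_le ?_ (Filter.Eventually.of_forall hb)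
          refine (integrable_indicator_iff isClosed_closedBall.measurableSet).mpr ?_
          exact (continuous_const.continuousOn).integrableOn_compact (isCompact_closedBall _ _)
      _ = (4 * ε) ^ n * (A * (2 * ε) ^ a * ((ε⁻¹) ^ n * (L * (ε⁻¹ * ‖y - x‖)))) := by
          rw [integral_indicator isClosed_closedBall.measurableSet, setIntegral_const, hcb,
            smul_eq_mul]
      _ ≤ (2 * L * 4 ^ n * A * ε ^ (a - 1)) * ‖y - x‖ := by
          have e1 : (2 * ε) ^ a ≤ 2 * ε ^ a := by
            rw [Real.mul_rpow (by norm_num) hε.le]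
            refine mul_le_mul_of_nonneg_right ?_ (by positivity)
            calc (2:ℝ) ^ a ≤ 2 ^ (1:ℝ) := Real.rpow_le_rpow_of_exponent_le (by norm_num) ha1
              _ = 2 := by norm_num
          have e2 : ε ^ (a - 1) = ε ^ a * ε⁻¹ := by
            rw [Real.rpow_sub_one hε.ne', div_eq_mul_inv]
          have e3 : (4 * ε) ^ n * (ε⁻¹) ^ n = 4 ^ n := by
            rw [← mul_pow]
            congr 1
            field_simp
          calc (4 * ε) ^ n * (A * (2 * ε) ^ a * ((ε⁻¹) ^ n * (L * (ε⁻¹ * ‖y - x‖))))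
              = ((4 * ε) ^ n * (ε⁻¹) ^ n) * A * L * ε⁻¹ * ‖y - x‖ * (2 * ε) ^ a := by ring
            _ ≤ ((4 * ε) ^ n * (ε⁻¹) ^ n) * A * L * ε⁻¹ * ‖y - x‖ * (2 * ε ^ a) := by
                refine mul_le_mul_of_nonneg_left e1 (by positivity)
            _ = _ := by rw [e3, e2]; ring
  have hC : (0:ℝ) ≤ 2 * L * 4 ^ n * A * ε ^ (a - 1) := by positivity
  have hf1 : ‖fderiv ℝ (moll ε f) x‖ ≤ 2 * L * 4 ^ n * A * ε ^ (a - 1) := by
    refine norm_fderiv_le_of_lip' ℝ hC ?_
    filter_upwards [Metric.closedBall_mem_nhds x hε] with y hy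
    rw [Real.norm_eq_abs]
    exact key y (by rwa [mem_closedBall, dist_eq_norm] at hy)
  unfold pd
  calc |fderiv ℝ (moll ε f) x (Pi.single j 1)| ≤ ‖fderiv ℝ (moll ε f) x‖ * ‖(Pi.single j 1 : E n)‖ :=
        (fderiv ℝ (moll ε f) x).le_opNorm _
    _ ≤ (2 * L * 4 ^ n * A * ε ^ (a - 1)) * 1 := by
        refine mul_le_mul hf1 ?_ (norm_nonneg _) hC
        rw [Pi.norm_single]
        simp
    _ ≤ (2 * L * 4 ^ n + 1) * A * ε ^ (a - 1) := by
        have : 0 ≤ A * ε ^ (a - 1) := by positivity
        nlinarith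

end Q61.KH
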