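import Pool.Agent.Q61.KH9

/-! Some slice is large: Hoelder exponents with sum larger than `n-1`. -/

set_option autoImplicit false
open MeasureTheory Metric Set Filter Topology H248.ID
open scoped ENNReal NNReal ContDiff

namespace Q61.KH

lemma sh_hold' {n : ℕ} {f : E n → E n} {H : ℝ} {α : Fin n → ℝ} (hα : ∀ l, 0 < α l)
    (hα1 : ∀ l, α l ≤ 1)
    (hf : ∀ x y l, |f x l - f y l| ≤ H * ‖x - y‖ ^ α l) {t : ℝ} (ht : |t| ≤ 1) (x y : E n)
    (l : Fin n) : |sh f t x l - sh f t y l| ≤ (H + 6) * ‖x - y‖ ^ α l := by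
  have h1 : sh f t x l - sh f t y l = (f x l - f y l) + t * (cl x l - cl y l) := by
    simp only [sh, Pi.add_apply, Pi.smul_apply, smul_eq_mul]
    ring
  rw [h1]
  have h2 : |cl x l - cl y l| ≤ 6 * ‖x - y‖ ^ α l :=
    (norm_le_pi_norm (cl x - cl y) l).trans (cl_hold (hα l) (hα1 l) x y)
  calc |(f x l - f y l) + t * (cl x l - cl y l)| ≤ |f x l - f y l| + |t * (cl x l - cl y l)| :=
        abs_add_le _ _
    _ ≤ H * ‖x - y‖ ^ α l + 1 * (6 * ‖x - y‖ ^ α l) := by
        refine add_le_add (hf x y l) ?_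
        rw [abs_mul]
        exact mul_le_mul ht h2 (abs_nonneg _) (by norm_num)
    _ = _ := by ring

/-- **some slice is large** -/
theorem some_slice' {n : ℕ} (hn : 1 ≤ n) {α : Fin n → ℝ} (hα : ∀ l, 0 < α l)
    (hα1 : ∀ l, α l ≤ 1) (hsum : (n : ℝ) - 1 < ∑ l, α l) :
    ∃ c N : ℝ, 0 < c ∧ 0 < N ∧ ∀ {H : ℝ}, 0 ≤ H → ∀ {f : E n → E n},
      (∀ x y l, |f x l - f y l| ≤ H * ‖x - y‖ ^ α l) → ∀ {t : ℝ}, 0 ≤ t → t ≤ 1 / 2 →
      ∃ k ∈ Finset.range (n + 1), ENNReal.ofReal (c * (1 + H) ^ (-N)) ≤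
        volume ((fun x => f x + (t + k * (1 / (2 * n))) • x) '' closedBall (0 : E n) 1) := by
  have hn1 : (1 : ℝ) ≤ n := by exact_mod_cast hn
  have hn0 : (0 : ℝ) < n := by linarith
  obtain ⟨C, κ, hC, hκ, hA⟩ := propB hn hα hα1 hsum (rho_smooth (n := n)) (rho_supp (n := n))
  set h : ℝ := 1 / (2 * n) with hh
  have hh0 : 0 < h := by positivity
  set m : ℝ := n.factorial * h ^ n with hm
  have hm0 : 0 < m := by positivity
  set c0 : ℝ := m / (2 * (2 ^ n * (C * 7 ^ n))) with hc0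
  have hc00 : 0 < c0 := by positivity
  refine ⟨min 1 (c0 ^ (1 / κ)), n / κ, by positivity, by positivity, ?_⟩
  intro H hH f hf t ht0 ht1
  by_contra hcon
  push Not at hcon
  have hH1 : 0 < 1 + H := by linarith
  set μ : ℝ := min 1 (c0 ^ (1 / κ)) * (1 + H) ^ (-(n / κ)) with hμ
  have hμ0 : 0 < μ := by positivity
  have hμ1 : μ ≤ 1 := by
    rw [hμ]
    have h1 : (1 + H) ^ (-(n / κ)) ≤ 1 :=
      Real.rpow_le_one_of_one_le_of_nonpos (by linarith) (by
        have : 0 ≤ n / κ := by positivity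
        linarith)
    calc min 1 (c0 ^ (1 / κ)) * (1 + H) ^ (-(n / κ)) ≤ 1 * 1 :=
          mul_le_mul (min_le_left _ _) h1 (by positivity) (by norm_num)
      _ = 1 := one_mul _
  have hμκ : C * (1 + (H + 6)) ^ n * μ ^ κ ≤ m / (2 * 2 ^ n) := by
    have h1 : (1 + (H + 6)) ^ n ≤ 7 ^ n * (1 + H) ^ n := by
      rw [← mul_pow]
      exact pow_le_pow_left₀ (by linarith) (by linarith) _
    have h2 : μ ^ κ ≤ c0 * ((1 + H) ^ n)⁻¹ := by
      rw [hμ, Real.mul_rpow (by positivity) (by positivity), ← Real.rpow_mul hH1.le]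
      have e2 : -(n / κ) * κ = -(n : ℝ) := by field_simp
      rw [e2, Real.rpow_neg hH1.le, Real.rpow_natCast]
      refine mul_le_mul_of_nonneg_right ?_ (by positivity)
      calc (min 1 (c0 ^ (1 / κ))) ^ κ ≤ (c0 ^ (1 / κ)) ^ κ :=
            Real.rpow_le_rpow (by positivity) (min_le_right _ _) hκ.le
        _ = c0 := by
            rw [← Real.rpow_mul hc00.le]
            have e1 : 1 / κ * κ = 1 := by field_simp
            rw [e1, Real.rpow_one]
    calc C * (1 + (H + 6)) ^ n * μ ^ κ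
        ≤ C * (7 ^ n * (1 + H) ^ n) * (c0 * ((1 + H) ^ n)⁻¹) := by
          refine mul_le_mul (mul_le_mul_of_nonneg_left h1 hC.le) h2 (by positivity) (by positivity)
      _ = C * 7 ^ n * c0 := by field_simp
      _ = m / (2 * 2 ^ n) := by
          rw [hc0]
          field_simp
  have hfc : Continuous f := hold_cont' hα hf
  have hts : tsupport (rho n) ⊆ closedBall (0 : E n) 1 := by
    refine closure_minimal ?_ isClosed_closedBall
    intro x hx
    rw [Function.mem_support] at hx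
    by_contra h
    apply hx
    apply rho_zero
    simp only [mem_closedBall, dist_zero_right, not_le] at h
    exact h.le
  have hk1 : ∀ k ∈ Finset.range (n + 1), |t + k * h| ≤ 1 := by
    intro k hk
    have hkn : (k : ℝ) ≤ n := by
      have := Finset.mem_range.mp hk
      exact_mod_cast (by omega : k ≤ n)
    have h1 : (k : ℝ) * h ≤ 1 / 2 := by
      calc (k : ℝ) * h ≤ n * h := mul_le_mul_of_nonneg_right hkn hh0.le
        _ = 1 / 2 := by rw [hh]; field_simp
    rw [abs_of_nonneg (by positivity)]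
    linarith
  -- for large K all the integrals are small
  have hev : ∀ k ∈ Finset.range (n + 1), ∀ᶠ K : ℕ in atTop,
      |∫ x, rho n x * (jac (mv ((1 / 2) ^ K) (sh f (t + k * h))) x).det| ≤
        C * (1 + (H + 6)) ^ n * μ ^ κ := by
    intro k hk
    have h1 := hcon k hk
    obtain ⟨U, hU1, hU2, hU3⟩ := Set.exists_isOpen_lt_of_lt _ _ h1
    refine hA (by linarith : (0 : ℝ) ≤ H + 6) (sh_hold' hα hα1 hf (hk1 k hk)) hU2 ?_ hμ0 hμ1 hU3.le
    intro x hx
    apply hU1
    refine ⟨x, hts hx, ?_⟩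
    have h2 : ‖x‖ ≤ 3 := by
      have := hts hx
      simp only [mem_closedBall, dist_zero_right] at this
      linarith
    simp only [sh, cl_eq h2]
  have hall : ∀ᶠ K : ℕ in atTop, ∀ k ∈ Finset.range (n + 1),
      |∫ x, rho n x * (jac (mv ((1 / 2) ^ K) (sh f (t + k * h))) x).det| ≤
        C * (1 + (H + 6)) ^ n * μ ^ κ := (Filter.eventually_all_finset _).mpr hev
  obtain ⟨K, hK⟩ := hall.exists
  have heK : (0 : ℝ) < (1 / 2) ^ K := by positivity
  have heK1 : ((1 : ℝ) / 2) ^ K ≤ 1 := pow_le_one₀ (by norm_num) (by norm_num)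
  have hsm : ∀ s, |s| ≤ 1 → ContDiff ℝ ∞ (mv ((1 / 2) ^ K) (sh f s)) := fun s hs =>
    mv_smooth heK (hold_cont' hα (sh_hold' hα hα1 hf hs))
  have hint : ∀ k ∈ Finset.range (n + 1), Integrable (fun x => rho n x *
      (jac (mv ((1 / 2) ^ K) (sh f (t + k * h))) x).det) := by
    intro k hk
    exact (rho_smooth.continuous.mul
      (J02.aux_cont_jac (hsm _ (hk1 k hk))).matrix_det).integrable_of_hasCompactSupport
      rho_supp.mul_right
  -- the finite difference
  have hfd : ∑ k ∈ Finset.range (n + 1), (((-1 : ℤ) ^ (n - k) * n.choose k : ℤ) : ℝ) *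
      ∫ x, rho n x * (jac (mv ((1 / 2) ^ K) (sh f (t + k * h))) x).det = m := by
    have e1 : ∀ k ∈ Finset.range (n + 1), (((-1 : ℤ) ^ (n - k) * n.choose k : ℤ) : ℝ) *
        ∫ x, rho n x * (jac (mv ((1 / 2) ^ K) (sh f (t + k * h))) x).det
        = ∫ x, (((-1 : ℤ) ^ (n - k) * n.choose k : ℤ) : ℝ) *
          (rho n x * (jac (mv ((1 / 2) ^ K) (sh f (t + k * h))) x).det) := by
      intro k _
      rw [integral_const_mul]
    rw [Finset.sum_congr rfl e1, ← integral_finsetSum _ (fun k hk => (hint k hk).const_mul _)]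
    have e2 : ∀ x : E n, ∑ k ∈ Finset.range (n + 1), (((-1 : ℤ) ^ (n - k) * n.choose k : ℤ) : ℝ) *
          (rho n x * (jac (mv ((1 / 2) ^ K) (sh f (t + k * h))) x).det) = rho n x * m := by
      intro x
      by_cases hx : 1 ≤ ‖x‖
      · rw [rho_zero hx]
        simp
      · push Not at hx
        have hx2 : ‖x‖ < 2 := by linarith
        rw [hm, ← fd (jac (mv ((1 / 2) ^ K) f) x) t h hh0.ne', Finset.mul_sum]
        refine Finset.sum_congr rfl fun k _ => ?_
        rw [jac_sh heK heK1 hfc (t + k * h) hx2]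
        ring
    simp only [e2]
    rw [integral_mul_const, rho_int, one_mul]
  have hbd : m ≤ m / 2 := by
    calc m = ∑ k ∈ Finset.range (n + 1), (((-1 : ℤ) ^ (n - k) * n.choose k : ℤ) : ℝ) *
          ∫ x, rho n x * (jac (mv ((1 / 2) ^ K) (sh f (t + k * h))) x).det := hfd.symm
      _ ≤ ∑ k ∈ Finset.range (n + 1), |(((-1 : ℤ) ^ (n - k) * n.choose k : ℤ) : ℝ) *
          ∫ x, rho n x * (jac (mv ((1 / 2) ^ K) (sh f (t + k * h))) x).det| :=
          (le_abs_self _).trans (Finset.abs_sum_le_sum_abs _ _)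
      _ ≤ ∑ k ∈ Finset.range (n + 1), (n.choose k : ℝ) * (m / (2 * 2 ^ n)) := by
          refine Finset.sum_le_sum fun k hk => ?_
          rw [abs_mul]
          refine mul_le_mul ?_ ((hK k hk).trans hμκ) (abs_nonneg _) (Nat.cast_nonneg _)
          push_cast
          rw [abs_mul, abs_pow, abs_neg, abs_one, one_pow, one_mul, Nat.abs_cast]
      _ = m / 2 := by
          rw [← Finset.sum_mul]
          have : ∑ k ∈ Finset.range (n + 1), (n.choose k : ℝ) = 2 ^ n := by
            exact_mod_cast Nat.sum_range_choose n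
          rw [this]
          field_simp
  linarith

end Q61.KH
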