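import Pool.Agent.Q61.KH10

/-! Tubes over a family of directions with Hoelder positions: the union is large. -/

set_option autoImplicit false
open MeasureTheory Metric Set Filter Topology H248.ID
open scoped ENNReal NNReal ContDiff

namespace Q61.KH

/-- extension of Hoelder functions -/
lemma ext1 {n : ℕ} {V : Set (E n)} (hV : V.Nonempty) {F : E n → ℝ} {H a : ℝ} (hH : 0 ≤ H)
    (ha : 0 < a) (ha1 : a ≤ 1) (h : ∀ v ∈ V, ∀ w ∈ V, |F v - F w| ≤ H * ‖v - w‖ ^ a) :
    ∃ G : E n → ℝ, (∀ v ∈ V, G v = F v) ∧ ∀ x y, |G x - G y| ≤ H * ‖x - y‖ ^ a := by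
  obtain ⟨w0, hw0⟩ := hV
  have : Nonempty V := ⟨⟨w0, hw0⟩⟩
  have tri : ∀ x y z : E n, H * ‖x - z‖ ^ a ≤ H * ‖x - y‖ ^ a + H * ‖y - z‖ ^ a := by
    intro x y z
    rw [← mul_add]
    refine mul_le_mul_of_nonneg_left ?_ hH
    calc ‖x - z‖ ^ a ≤ (‖x - y‖ + ‖y - z‖) ^ a := by
          refine Real.rpow_le_rpow (norm_nonneg _) ?_ ha.le
          calc ‖x - z‖ = ‖(x - y) + (y - z)‖ := by congr 1; abel
            _ ≤ _ := norm_add_le _ _
      _ ≤ _ := Real.rpow_add_le_add_rpow (norm_nonneg _) (norm_nonneg _) ha.le ha1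
  set G : E n → ℝ := fun x => ⨅ w : V, (F w + H * ‖x - (w : E n)‖ ^ a) with hG
  have bdd : ∀ x, BddBelow (range fun w : V => F w + H * ‖x - (w : E n)‖ ^ a) := by
    intro x
    refine ⟨F w0 - H * ‖x - w0‖ ^ a, ?_⟩
    rintro _ ⟨w, rfl⟩
    have h1 := h w0 hw0 w w.2
    have h2 := tri w0 x w
    rw [norm_sub_rev w0 x] at h2
    have h3 := (abs_le.mp h1).2
    simp only
    linarith
  refine ⟨G, ?_, ?_⟩
  · intro v hv
    apply le_antisymm
    · have h1 := ciInf_le (bdd v) ⟨v, hv⟩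
      simp only [sub_self, norm_zero, Real.zero_rpow ha.ne', mul_zero, add_zero] at h1
      exact h1
    · refine le_ciInf fun w => ?_
      have h1 := (abs_le.mp (h v hv w w.2)).2
      linarith
  · have key : ∀ x y, G x ≤ G y + H * ‖x - y‖ ^ a := by
      intro x y
      rw [← sub_le_iff_le_add]
      refine le_ciInf fun w => ?_
      have h1 := ciInf_le (bdd x) w
      have h2 := tri x y w
      have h3 : G x ≤ F w + H * ‖x - (w : E n)‖ ^ a := h1
      linarith
    intro x y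
    rw [abs_le]
    have h1 := key x y
    have h2 := key y x
    rw [norm_sub_rev y x] at h2
    constructor <;> linarith

/-- doubling the radius of a union of balls -/
lemma cover {n : ℕ} (V : Set (E n)) (p : E n → E n) {δ : ℝ} (hδ : 0 ≤ δ) :
    volume (⋃ w ∈ V, closedBall (p w) (2 * δ)) ≤ 6 ^ n * volume (⋃ w ∈ V, closedBall (p w) δ) := by
  rcases hδ.eq_or_lt with h0 | h0
  · rw [← h0, mul_zero]
    exact le_mul_of_one_le_left zero_le (one_le_pow₀ (by norm_num))
  obtain ⟨u, huV, hdis, hcov⟩ := Vitali.exists_disjoint_subfamily_covering_enlargement_closedBall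
    V p (fun _ => δ) δ (fun _ _ => le_rfl) 4 (by norm_num)
  have hcount : u.Countable := by
    refine hdis.countable_of_nonempty_interior fun w _ => ?_
    refine ⟨p w, ?_⟩
    exact ball_subset_interior_closedBall (mem_ball_self h0)
  have h1 : (⋃ w ∈ V, closedBall (p w) (2 * δ)) ⊆ ⋃ w ∈ u, closedBall (p w) (6 * δ) := by
    intro y hy
    simp only [mem_iUnion] at hy ⊢
    obtain ⟨a, ha, hya⟩ := hy
    obtain ⟨b, hb, hab⟩ := hcov a ha
    refine ⟨b, hb, ?_⟩
    have h2 : p a ∈ closedBall (p b) (4 * δ) := hab (mem_closedBall_self h0.le)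
    rw [mem_closedBall] at hya h2 ⊢
    calc dist y (p b) ≤ dist y (p a) + dist (p a) (p b) := dist_triangle _ _ _
      _ ≤ 2 * δ + 4 * δ := add_le_add hya h2
      _ = 6 * δ := by ring
  have hvol : ∀ w : E n, volume (closedBall (p w) (6 * δ)) = 6 ^ n * volume (closedBall (p w) δ) := by
    intro w
    rw [Real.volume_pi_closedBall _ (by positivity), Real.volume_pi_closedBall _ h0.le,
      Fintype.card_fin]
    have : (2 * (6 * δ)) ^ n = 6 ^ n * (2 * δ) ^ n := by
      rw [← mul_pow]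
      ring
    rw [this, ENNReal.ofReal_mul (by positivity), ENNReal.ofReal_pow (by norm_num)]
    norm_num
  calc volume (⋃ w ∈ V, closedBall (p w) (2 * δ)) ≤ volume (⋃ w ∈ u, closedBall (p w) (6 * δ)) :=
        measure_mono h1
    _ ≤ ∑' w : u, volume (closedBall (p w) (6 * δ)) := measure_biUnion_le _ hcount _
    _ = 6 ^ n * ∑' w : u, volume (closedBall (p w) δ) := by
        simp only [hvol]
        rw [ENNReal.tsum_mul_left]
    _ = 6 ^ n * volume (⋃ w ∈ u, closedBall (p w) δ) := by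
        rw [measure_biUnion hcount hdis fun w _ => isClosed_closedBall.measurableSet]
    _ ≤ _ := by
        refine mul_le_mul_right (measure_mono ?_) _
        exact biUnion_subset_biUnion_left huV

/-- **Theorem** -/
theorem main {n : ℕ} (hn : 1 ≤ n) {α : Fin n → ℝ} (hα : ∀ l, 0 < α l)
    (hα1 : ∀ l, α l ≤ 1) (hsum : (n : ℝ) - 1 < ∑ l, α l) :
    ∃ c N : ℝ, 0 < c ∧ 0 < N ∧ ∀ (H : Fin n → ℝ) (r δ : ℝ) (v₀ : Fin n → ℝ) (V : Set (Fin n → ℝ))
      (F : (Fin n → ℝ) → (Fin n → ℝ)), (∀ l, 0 ≤ H l) → 0 < r → 0 ≤ δ →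
      (∀ v ∈ V, ∀ w ∈ V, ∀ l, |F v l - F w l| ≤ H l * ‖v - w‖ ^ α l) →
      (∀ v, ‖v - v₀‖ ≤ r → ∃ w ∈ V, ‖v - w‖ ≤ δ ∧ ∀ l, H l * ‖v - w‖ ^ α l ≤ δ) →
      ∀ K : Set ((Fin n → ℝ) × ℝ),
      (∀ w ∈ V, ∀ t : ℝ, 0 ≤ t → t ≤ 1 → ∀ y, ‖y - (F w + t • w)‖ ≤ δ → (y, t) ∈ K) →
      ENNReal.ofReal (c * r ^ n * (1 + ∑ l, H l * r ^ (α l - 1)) ^ (-N)) ≤ volume K := by
  have hn1 : (1 : ℝ) ≤ n := by exact_mod_cast hn
  have hn0 : (0 : ℝ) < n := by linarith
  obtain ⟨c, N, hc, hN, hS⟩ := some_slice' hn hα hα1 hsum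
  refine ⟨c / (6 ^ n * (2 * (n + 1))), N, by positivity, hN, ?_⟩
  intro H r δ v₀ V F hH hr hδ hF hdense K0 hK0
  -- reduction to measurable sets
  set K := toMeasurable volume K0 with hKd
  have hKm : MeasurableSet K := measurableSet_toMeasurable _ _
  have hK : ∀ w ∈ V, ∀ t : ℝ, 0 ≤ t → t ≤ 1 → ∀ y, ‖y - (F w + t • w)‖ ≤ δ → (y, t) ∈ K :=
    fun w hw t ht0 ht1 y hy => subset_toMeasurable _ _ (hK0 w hw t ht0 ht1 y hy)
  rw [← measure_toMeasurable K0, ← hKd]
  have hVne : V.Nonempty := by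
    obtain ⟨w, hw, -⟩ := hdense v₀ (by simpa using hr.le)
    exact ⟨w, hw⟩
  -- extension
  have hext : ∀ l, ∃ G : E n → ℝ, (∀ v ∈ V, G v = F v l) ∧
      ∀ x y, |G x - G y| ≤ H l * ‖x - y‖ ^ α l := fun l =>
    ext1 hVne (F := fun v => F v l) (hH l) (hα l) (hα1 l) (fun v hv w hw => hF v hv w hw l)
  choose G0 hG0 hG1 using hext
  set G : E n → E n := fun x l => G0 l x with hG
  have hGF : ∀ v ∈ V, G v = F v := fun v hv => funext fun l => hG0 l v hv
  -- rescaled map
  set A : ℝ := ∑ l, H l * r ^ (α l - 1) with hA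
  have hA0 : 0 ≤ A := Finset.sum_nonneg fun l _ => mul_nonneg (hH l) (by positivity)
  set g : E n → E n := fun x => r⁻¹ • G (v₀ + r • x) with hg
  have hgh : ∀ x y l, |g x l - g y l| ≤ A * ‖x - y‖ ^ α l := by
    intro x y l
    have h1 : g x l - g y l = r⁻¹ * (G0 l (v₀ + r • x) - G0 l (v₀ + r • y)) := by
      simp only [hg, hG, Pi.smul_apply, smul_eq_mul]
      ring
    rw [h1, abs_mul, abs_of_pos (inv_pos.mpr hr)]
    have h2 := hG1 l (v₀ + r • x) (v₀ + r • y)
    have h3 : v₀ + r • x - (v₀ + r • y) = r • (x - y) := by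
      rw [smul_sub]
      abel
    rw [h3, norm_smul, Real.norm_of_nonneg hr.le, Real.mul_rpow hr.le (norm_nonneg _)] at h2
    have h4 : H l * r ^ (α l - 1) ≤ A :=
      Finset.single_le_sum (f := fun l => H l * r ^ (α l - 1))
        (fun l _ => mul_nonneg (hH l) (by positivity)) (Finset.mem_univ l)
    calc r⁻¹ * |G0 l (v₀ + r • x) - G0 l (v₀ + r • y)|
        ≤ r⁻¹ * (H l * (r ^ α l * ‖x - y‖ ^ α l)) :=
          mul_le_mul_of_nonneg_left h2 (by positivity)
      _ = H l * r ^ (α l - 1) * ‖x - y‖ ^ α l := by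
          rw [Real.rpow_sub_one hr.ne']
          field_simp
      _ ≤ _ := mul_le_mul_of_nonneg_right h4 (by positivity)
  -- slices
  set kk : ℝ → ℝ≥0∞ := fun s => volume ((fun y : E n => (y, s)) ⁻¹' K) with hkk
  have hslice : ∀ s : ℝ, 0 ≤ s → s ≤ 1 →
      volume ((fun x => g x + s • x) '' closedBall (0 : E n) 1) ≤
        ENNReal.ofReal ((r ^ n)⁻¹) * (6 ^ n * kk s) := by
    intro s hs0 hs1
    set B : Set (E n) := ⋃ w ∈ V, closedBall (F w + s • w) (2 * δ) with hB
    have h1 : (fun x => g x + s • x) '' closedBall (0 : E n) 1 ⊆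
        (fun x : E n => r • x) ⁻¹' ((fun z => s • v₀ + z) ⁻¹' B) := by
      rintro _ ⟨x, hx, rfl⟩
      simp only [mem_preimage]
      have hx' : ‖x‖ ≤ 1 := by simpa using hx
      set v : E n := v₀ + r • x with hv
      have hvr : ‖v - v₀‖ ≤ r := by
        rw [hv, add_sub_cancel_left, norm_smul, Real.norm_of_nonneg hr.le]
        calc r * ‖x‖ ≤ r * 1 := mul_le_mul_of_nonneg_left hx' hr.le
          _ = r := mul_one r
      obtain ⟨w, hw, hw1, hw2⟩ := hdense v hvr
      have e1 : s • v₀ + r • (g x + s • x) = G v + s • v := by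
        simp only [hg]
        rw [smul_add, smul_smul, mul_inv_cancel₀ hr.ne', one_smul, ← hv, hv, smul_add,
          smul_comm r s x]
        abel
      rw [e1, hB]
      simp only [mem_iUnion]
      refine ⟨w, hw, ?_⟩
      rw [mem_closedBall, dist_eq_norm]
      have e2 : G v + s • v - (F w + s • w) = (G v - G w) + s • (v - w) := by
        rw [← hGF w hw, smul_sub]
        abel
      rw [e2]
      have e3 : ‖G v - G w‖ ≤ δ := by
        rw [pi_norm_le_iff_of_nonneg hδ]
        intro l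
        exact (hG1 l v w).trans (hw2 l)
      calc ‖(G v - G w) + s • (v - w)‖ ≤ ‖G v - G w‖ + ‖s • (v - w)‖ := norm_add_le _ _
        _ ≤ δ + 1 * δ := by
            refine add_le_add e3 ?_
            rw [norm_smul, Real.norm_of_nonneg hs0]
            exact mul_le_mul hs1 hw1 (norm_nonneg _) (by norm_num)
        _ = 2 * δ := by ring
    have h2 : volume ((fun x : E n => r • x) ⁻¹' ((fun z => s • v₀ + z) ⁻¹' B))
        = ENNReal.ofReal ((r ^ n)⁻¹) * volume B := by
      rw [Measure.addHaar_preimage_smul volume hr.ne', measure_preimage_add]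
      congr 2
      rw [Module.finrank_fintype_fun_eq_card, Fintype.card_fin, abs_of_pos (by positivity)]
    have h3 : volume B ≤ 6 ^ n * kk s := by
      refine (cover V (fun w => F w + s • w) hδ).trans ?_
      refine mul_le_mul_right (measure_mono ?_) _
      intro y hy
      simp only [mem_iUnion] at hy
      obtain ⟨w, hw, hyw⟩ := hy
      rw [mem_closedBall, dist_eq_norm] at hyw
      exact hK w hw s hs0 hs1 y hyw
    calc volume ((fun x => g x + s • x) '' closedBall (0 : E n) 1)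
        ≤ volume ((fun x : E n => r • x) ⁻¹' ((fun z => s • v₀ + z) ⁻¹' B)) := measure_mono h1
      _ = ENNReal.ofReal ((r ^ n)⁻¹) * volume B := h2
      _ ≤ _ := mul_le_mul_right h3 _
  -- every t in [0,1/2] has a good translate
  set h : ℝ := 1 / (2 * n) with hh
  have hh0 : 0 < h := by positivity
  set c1 : ℝ := c * (1 + A) ^ (-N) with hc1
  have hA1 : 0 < 1 + A := by linarith
  have hc10 : 0 < c1 := by positivity
  set c2 : ℝ := c1 * r ^ n / 6 ^ n with hc2
  have hgood : ∀ t ∈ Icc (0 : ℝ) (1 / 2), ENNReal.ofReal c2 ≤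
      ∑ k ∈ Finset.range (n + 1), kk (t + k * h) := by
    rintro t ⟨ht0, ht1⟩
    obtain ⟨k, hk, hkS⟩ := hS hA0 hgh ht0 ht1
    have hkn : (k : ℝ) ≤ n := by
      have := Finset.mem_range.mp hk
      exact_mod_cast (by omega : k ≤ n)
    have h1 : (k : ℝ) * h ≤ 1 / 2 := by
      calc (k : ℝ) * h ≤ n * h := mul_le_mul_of_nonneg_right hkn hh0.le
        _ = 1 / 2 := by rw [hh]; field_simp
    have h2 := hkS.trans (hslice (t + k * h) (by positivity) (by linarith))
    have h3 : ENNReal.ofReal c2 = ENNReal.ofReal (r ^ n / 6 ^ n) * ENNReal.ofReal c1 := by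
      rw [← ENNReal.ofReal_mul (by positivity)]
      congr 1
      rw [hc2]
      ring
    have h4 : ENNReal.ofReal (r ^ n / 6 ^ n) * (ENNReal.ofReal ((r ^ n)⁻¹) * (6 ^ n * kk (t + k * h)))
        = kk (t + k * h) := by
      rw [← mul_assoc, ← mul_assoc, ← ENNReal.ofReal_mul (by positivity)]
      have : (6 : ℝ≥0∞) ^ n = ENNReal.ofReal (6 ^ n) := by
        rw [ENNReal.ofReal_pow (by norm_num)]
        norm_num
      rw [this, ← ENNReal.ofReal_mul (by positivity)]
      have h5 : r ^ n / 6 ^ n * (r ^ n)⁻¹ * 6 ^ n = 1 := by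
        field_simp
      rw [h5, ENNReal.ofReal_one, one_mul]
    calc ENNReal.ofReal c2 = ENNReal.ofReal (r ^ n / 6 ^ n) * ENNReal.ofReal c1 := h3
      _ ≤ ENNReal.ofReal (r ^ n / 6 ^ n) *
          (ENNReal.ofReal ((r ^ n)⁻¹) * (6 ^ n * kk (t + k * h))) := mul_le_mul_right h2 _
      _ = kk (t + k * h) := h4
      _ ≤ _ := Finset.single_le_sum (f := fun k : ℕ => kk (t + k * h)) (fun _ _ => zero_le) hk
  have hkm : Measurable kk := measurable_measure_prodMk_right hKm
  have hvolK : volume K = ∫⁻ s, kk s := Measure.prod_apply_symm hKm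
  have hint : ENNReal.ofReal c2 * ENNReal.ofReal (1 / 2) ≤ ((n : ℝ≥0∞) + 1) * volume K := by
    calc ENNReal.ofReal c2 * ENNReal.ofReal (1 / 2) = ∫⁻ _t in Icc (0 : ℝ) (1 / 2), ENNReal.ofReal c2 := by
          rw [setLIntegral_const, Real.volume_Icc, sub_zero]
      _ ≤ ∫⁻ t in Icc (0 : ℝ) (1 / 2), ∑ k ∈ Finset.range (n + 1), kk (t + k * h) :=
          setLIntegral_mono' measurableSet_Icc hgood
      _ ≤ ∫⁻ t, ∑ k ∈ Finset.range (n + 1), kk (t + k * h) := setLIntegral_le_lintegral _ _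
      _ = ∑ k ∈ Finset.range (n + 1), ∫⁻ t, kk (t + k * h) := by
          rw [lintegral_finsetSum]
          intro k _
          exact hkm.comp (measurable_id.add_const _)
      _ = ∑ _k ∈ Finset.range (n + 1), volume K := by
          refine Finset.sum_congr rfl fun k _ => ?_
          rw [lintegral_add_right_eq_self kk (k * h), hvolK]
      _ = _ := by
          rw [Finset.sum_const, Finset.card_range, nsmul_eq_mul]
          push_cast
          rfl
  have hfin : ENNReal.ofReal (c / (6 ^ n * (2 * (n + 1))) * r ^ n * (1 + A) ^ (-N)) * ((n : ℝ≥0∞) + 1)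
      = ENNReal.ofReal c2 * ENNReal.ofReal (1 / 2) := by
    have : ((n : ℝ≥0∞) + 1) = ENNReal.ofReal ((n : ℝ) + 1) := by
      rw [ENNReal.ofReal_add hn0.le (by norm_num), ENNReal.ofReal_natCast, ENNReal.ofReal_one]
    rw [this, ← ENNReal.ofReal_mul (by positivity), ← ENNReal.ofReal_mul (by positivity)]
    congr 1
    rw [hc2, hc1]
    field_simp
  rw [← hfin, mul_comm] at hint
  refine (ENNReal.mul_le_mul_iff_right ?_ ?_).mp hint
  · simp
  · exact ENNReal.add_ne_top.mpr ⟨ENNReal.natCast_ne_top n, ENNReal.one_ne_top⟩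

end Q61.KH
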