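import Pool.Agent.Q61.KH1

/-! Determinants with Hoelder entries: the multiscale estimate. -/

set_option autoImplicit false
open MeasureTheory Metric Set Filter Topology H248.ID
open scoped ENNReal NNReal ContDiff

namespace Q61.KH

/-- replace one component of a map -/
def repl {n : ℕ} (u : E n → E n) (i : Fin n) (g : E n → ℝ) : E n → E n :=
  fun x => Function.update (u x) i (g x)

/-- the Jacobian determinant with the row `j` replaced by the gradient of `η` -/
noncomputable def rd {n : ℕ} (u : E n → E n) (j : Fin n) (η : E n → ℝ) (x : E n) : ℝ :=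
  ((jac u x).updateRow j (fun k => pd η k x)).det

/-- the form -/
noncomputable def TT {n : ℕ} (ψ : E n → ℝ) (u : E n → E n) (j : Fin n) (η : E n → ℝ) : ℝ :=
  ∫ x, ψ x * rd u j η x

lemma jac_repl {n : ℕ} (u : E n → E n) (i : Fin n) (g : E n → ℝ) (x : E n) :
    jac (repl u i g) x = (jac u x).updateRow i (fun k => pd g k x) := by
  ext a b
  by_cases h : a = i
  · subst h
    rw [Matrix.updateRow_self]
    simp only [jac, repl, Matrix.of_apply, Function.update_self]
  · rw [Matrix.updateRow_ne h]
    simp only [jac, repl, Matrix.of_apply, Function.update_of_ne h]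

lemma repl_smooth {n : ℕ} {u : E n → E n} (hu : ContDiff ℝ ∞ u) (i : Fin n) {g : E n → ℝ}
    (hg : ContDiff ℝ ∞ g) : ContDiff ℝ ∞ (repl u i g) := by
  rw [contDiff_pi]
  intro l
  by_cases h : l = i
  · subst h
    simpa [repl] using hg
  · simpa [repl, Function.update_of_ne h] using (contDiff_pi.mp hu) l

lemma rd_cont {n : ℕ} {u : E n → E n} (hu : ContDiff ℝ ∞ u) (j : Fin n) {η : E n → ℝ}
    (hη : ContDiff ℝ ∞ η) : Continuous (rd u j η) := by
  unfold rd
  refine Continuous.matrix_det ?_
  refine Continuous.matrix_updateRow j (J02.aux_cont_jac hu) ?_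
  exact continuous_pi fun k => J02.aux_cont_pd hη k

lemma rd_zero {n : ℕ} (u : E n → E n) (j : Fin n) {η : E n → ℝ} {x : E n}
    (hx : fderiv ℝ η x = 0) : rd u j η x = 0 := by
  unfold rd
  apply Matrix.det_eq_zero_of_row_eq_zero j
  intro k
  rw [Matrix.updateRow_self]
  simp [pd, hx]

lemma rd_supp {n : ℕ} (u : E n → E n) (j : Fin n) {η : E n → ℝ} (hc : HasCompactSupport η) :
    HasCompactSupport (rd u j η) := by
  have h1 : HasCompactSupport (fderiv ℝ η) := hc.fderiv ℝ
  refine HasCompactSupport.mono h1 ?_
  intro z hz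
  rw [Function.mem_support] at hz ⊢
  intro h0
  exact hz (rd_zero u j h0)

lemma T_integrable {n : ℕ} {ψ : E n → ℝ} (hψ : Continuous ψ) {u : E n → E n}
    (hu : ContDiff ℝ ∞ u) (j : Fin n) {η : E n → ℝ} (hη : ContDiff ℝ ∞ η)
    (hc : HasCompactSupport η) : Integrable (fun x => ψ x * rd u j η x) :=
  (hψ.mul (rd_cont hu j hη)).integrable_of_hasCompactSupport (rd_supp u j hc).mul_left

lemma pd_sub {n : ℕ} {a b : E n → ℝ} (ha : ContDiff ℝ ∞ a) (hb : ContDiff ℝ ∞ b) (k : Fin n)
    (x : E n) : pd (fun y => a y - b y) k x = pd a k x - pd b k x := by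
  unfold pd
  have h := ((ha.differentiable (by simp)) x).hasFDerivAt.sub
    ((hb.differentiable (by simp)) x).hasFDerivAt
  have h2 : fderiv ℝ (fun y => a y - b y) x = fderiv ℝ a x - fderiv ℝ b x := h.fderiv
  rw [h2]
  rfl

lemma pd_mul {n : ℕ} {a b : E n → ℝ} (ha : ContDiff ℝ ∞ a) (hb : ContDiff ℝ ∞ b) (k : Fin n)
    (x : E n) : pd (fun y => a y * b y) k x = a x * pd b k x + b x * pd a k x := by
  unfold pd
  have h := ((ha.differentiable (by simp)) x).hasFDerivAt.mul
    ((hb.differentiable (by simp)) x).hasFDerivAt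
  have h2 : fderiv ℝ (fun y => a y * b y) x = a x • fderiv ℝ b x + b x • fderiv ℝ a x := h.fderiv
  rw [h2]
  rfl

/-- additivity in a row -/
lemma rd_sub {n : ℕ} (u : E n → E n) {i j : Fin n} (hij : i ≠ j) (η : E n → ℝ) {a b : E n → ℝ}
    (ha : ContDiff ℝ ∞ a) (hb : ContDiff ℝ ∞ b) (x : E n) :
    rd (repl u i a) j η x - rd (repl u i b) j η x
      = rd (repl u i (fun y => a y - b y)) j η x := by
  unfold rd
  simp only [jac_repl]
  rw [Matrix.updateRow_comm _ hij, Matrix.updateRow_comm _ hij, Matrix.updateRow_comm _ hij]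
  have h1 : (fun k => pd a k x) = (fun k => pd (fun y => a y - b y) k x) + (fun k => pd b k x) := by
    funext k
    rw [Pi.add_apply, pd_sub ha hb]
    ring
  rw [h1, Matrix.det_updateRow_add]
  ring

/-- product rule in a row -/
lemma rd_mul {n : ℕ} (u : E n → E n) {i j : Fin n} (hij : i ≠ j) (η : E n → ℝ) {a b : E n → ℝ}
    (ha : ContDiff ℝ ∞ a) (hb : ContDiff ℝ ∞ b) (x : E n) :
    rd (repl u i (fun y => a y * b y)) j η x
      = a x * rd (repl u i b) j η x + b x * rd (repl u i a) j η x := by
  unfold rd
  simp only [jac_repl]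
  rw [Matrix.updateRow_comm _ hij, Matrix.updateRow_comm _ hij, Matrix.updateRow_comm _ hij]
  have h1 : (fun k => pd (fun y => a y * b y) k x)
      = a x • (fun k => pd b k x) + b x • (fun k => pd a k x) := by
    funext k
    rw [Pi.add_apply, pd_mul ha hb]
    rfl
  rw [h1, Matrix.det_updateRow_add, Matrix.det_updateRow_smul, Matrix.det_updateRow_smul]

/-- integration by parts in a row -/
lemma T_ibp {n : ℕ} {ψ G : E n → ℝ} (hψ : ContDiff ℝ ∞ ψ) (hG : ContDiff ℝ ∞ G)
    {u : E n → E n} (hu : ContDiff ℝ ∞ u) {i j : Fin n} (hij : i ≠ j) {η : E n → ℝ}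
    (hη : ContDiff ℝ ∞ η) (hc : HasCompactSupport η) :
    TT ψ (repl u i G) j η = - TT G (repl u i ψ) j η := by
  have h0 := null_lagrangian (repl_smooth hu i (hψ.mul hG)) hη hc j
  have h1 : ∀ x, ((jac (repl u i (fun y => ψ y * G y)) x).updateRow j
      (fun k => pd η k x)).det = ψ x * rd (repl u i G) j η x + G x * rd (repl u i ψ) j η x :=
    fun x => rd_mul u hij η hψ hG x
  have h2 : ∫ x, (ψ x * rd (repl u i G) j η x + G x * rd (repl u i ψ) j η x) = 0 := by
    rw [← h0]
    congr 1
    funext x
    exact (h1 x).symm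
  rw [integral_add (T_integrable hψ.continuous (repl_smooth hu i hG) j hη hc)
    (T_integrable hG.continuous (repl_smooth hu i hψ) j hη hc)] at h2
  unfold TT
  linarith

lemma T_const {n : ℕ} (c : ℝ) {u : E n → E n} (hu : ContDiff ℝ ∞ u) (j : Fin n) {η : E n → ℝ}
    (hη : ContDiff ℝ ∞ η) (hc : HasCompactSupport η) : TT (fun _ => c) u j η = 0 := by
  unfold TT rd
  rw [integral_const_mul, null_lagrangian hu hη hc j, mul_zero]

lemma T_sub {n : ℕ} {ψ φ : E n → ℝ} (hψ : Continuous ψ) (hφ : Continuous φ) {u : E n → E n}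
    (hu : ContDiff ℝ ∞ u) (j : Fin n) {η : E n → ℝ} (hη : ContDiff ℝ ∞ η)
    (hc : HasCompactSupport η) :
    TT (fun x => ψ x - φ x) u j η = TT ψ u j η - TT φ u j η := by
  unfold TT
  rw [← integral_sub (T_integrable hψ hu j hη hc) (T_integrable hφ hu j hη hc)]
  congr 1
  funext x
  ring

/-- a bound for determinants by rows -/
lemma det_bound {n : ℕ} (M : Matrix (Fin n) (Fin n) ℝ) (r : Fin n → ℝ)
    (h : ∀ i k, |M i k| ≤ r i) : |M.det| ≤ n.factorial * ∏ i, r i := by
  rw [← Matrix.det_transpose, Matrix.det_apply']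
  calc |∑ σ : Equiv.Perm (Fin n), ((Equiv.Perm.sign σ : ℤ) : ℝ) * ∏ i, M.transpose (σ i) i|
      ≤ ∑ σ : Equiv.Perm (Fin n), |((Equiv.Perm.sign σ : ℤ) : ℝ) * ∏ i, M.transpose (σ i) i| :=
        Finset.abs_sum_le_sum_abs _ _
    _ ≤ ∑ _σ : Equiv.Perm (Fin n), ∏ i, r i := by
        refine Finset.sum_le_sum fun σ _ => ?_
        rw [abs_mul]
        have h1 : |((Equiv.Perm.sign σ : ℤ) : ℝ)| = 1 := by
          rcases Int.units_eq_one_or (Equiv.Perm.sign σ) with h | h <;> simp [h]
        rw [h1, one_mul, Finset.abs_prod]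
        exact Finset.prod_le_prod (fun _ _ => abs_nonneg _) fun i _ => h i (σ i)
    _ = n.factorial * ∏ i, r i := by
        rw [Finset.sum_const, Finset.card_univ, Fintype.card_perm, Fintype.card_fin, nsmul_eq_mul]

/-- the basic bound -/
lemma T_bound {n : ℕ} {ψ : E n → ℝ} {u : E n → E n} {j : Fin n} {η : E n → ℝ} {R P Dη : ℝ}
    (hR : 0 ≤ R) (hP : 0 ≤ P) (hs : ∀ x, R < ‖x‖ → fderiv ℝ η x = 0)
    (hψ : ∀ x, ‖x‖ ≤ R → |ψ x| ≤ P) (hD : ∀ k x, |pd η k x| ≤ Dη) (hD0 : 0 ≤ Dη)
    {r : Fin n → ℝ} (hr0 : ∀ l, 0 ≤ r l)
    (hr : ∀ l k x, l ≠ j → |pd (fun y => u y l) k x| ≤ r l) :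
    |TT ψ u j η| ≤ (2 * R) ^ n * (P * (n.factorial * (Dη * ∏ l ∈ Finset.univ.erase j, r l))) := by
  have hpr : 0 ≤ ∏ l ∈ Finset.univ.erase j, r l := Finset.prod_nonneg fun l _ => hr0 l
  have hrd : ∀ x, |rd u j η x| ≤ n.factorial * (Dη * ∏ l ∈ Finset.univ.erase j, r l) := by
    intro x
    unfold rd
    refine (det_bound _ (Function.update r j Dη) ?_).trans ?_
    · intro i k
      by_cases h : i = j
      · subst h
        rw [Matrix.updateRow_self, Function.update_self]
        exact hD k x
      · rw [Matrix.updateRow_ne h, Function.update_of_ne h]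
        exact hr i k x h
    · apply le_of_eq
      congr 1
      rw [← Finset.mul_prod_erase Finset.univ _ (Finset.mem_univ j), Function.update_self]
      congr 1
      exact Finset.prod_congr rfl fun l hl =>
        Function.update_of_ne (Finset.mem_erase.mp hl).1 _ _
  have hb : ∀ x, ‖ψ x * rd u j η x‖ ≤ (closedBall (0 : E n) R).indicator
      (fun _ => P * (n.factorial * (Dη * ∏ l ∈ Finset.univ.erase j, r l))) x := by
    intro x
    by_cases hx : x ∈ closedBall (0 : E n) R
    · rw [indicator_of_mem hx, norm_mul, Real.norm_eq_abs, Real.norm_eq_abs]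
      refine mul_le_mul ?_ (hrd x) (abs_nonneg _) hP
      exact hψ x (by simpa using hx)
    · rw [indicator_of_notMem hx]
      simp only [mem_closedBall, dist_zero_right, not_le] at hx
      rw [rd_zero u j (hs x hx)]
      simp
  unfold TT
  rw [← Real.norm_eq_abs]
  refine (norm_integral_le_of_norm_le ?_ (Filter.Eventually.of_forall hb)).trans ?_
  · refine (integrable_indicator_iff isClosed_closedBall.measurableSet).mpr ?_
    exact (continuous_const.continuousOn).integrableOn_compact (isCompact_closedBall _ _)
  · rw [integral_indicator isClosed_closedBall.measurableSet, setIntegral_const,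
      measureReal_def, Real.volume_pi_closedBall _ hR, Fintype.card_fin,
      ENNReal.toReal_ofReal (by positivity), smul_eq_mul]

/-- mixture of two maps -/
def mix {n : ℕ} (s : Finset (Fin n)) (u w : E n → E n) : E n → E n :=
  fun x l => if l ∈ s then u x l else w x l

lemma mix_smooth {n : ℕ} (s : Finset (Fin n)) {u w : E n → E n} (hu : ContDiff ℝ ∞ u)
    (hw : ContDiff ℝ ∞ w) : ContDiff ℝ ∞ (mix s u w) := by
  rw [contDiff_pi]
  intro l
  unfold mix
  by_cases h : l ∈ s
  · simpa [h] using (contDiff_pi.mp hu) l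
  · simpa [h] using (contDiff_pi.mp hw) l

/-- the telescoping estimate for two maps -/
lemma T_two {n : ℕ} {ψ : E n → ℝ} (hψ : ContDiff ℝ ∞ ψ) {u w : E n → E n} (hu : ContDiff ℝ ∞ u)
    (hw : ContDiff ℝ ∞ w) {j : Fin n} {η : E n → ℝ} (hη : ContDiff ℝ ∞ η)
    (hc : HasCompactSupport η) {R Dη δ D D' : ℝ}
    (hR : 0 ≤ R) (hs : ∀ x, R < ‖x‖ → fderiv ℝ η x = 0)
    (hD : ∀ k x, |pd η k x| ≤ Dη) (hD0 : 0 ≤ Dη) (hδ0 : 0 ≤ δ) (hDD : 0 ≤ D) (hD'0 : 0 ≤ D')
    (hδ : ∀ x l, |u x l - w x l| ≤ δ)
    (hψD : ∀ k x, |pd ψ k x| ≤ D') (huD : ∀ l k x, |pd (fun y => u y l) k x| ≤ D)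
    (hwD : ∀ l k x, |pd (fun y => w y l) k x| ≤ D) :
    |TT ψ u j η - TT ψ w j η| ≤
      ((n - 1 : ℕ) : ℝ) * ((2 * R) ^ n * (δ * (n.factorial * (Dη * (D' * D ^ (n - 2)))))) := by
  set B0 : ℝ := (2 * R) ^ n * (δ * (n.factorial * (Dη * (D' * D ^ (n - 2))))) with hB0
  have hB0n : 0 ≤ B0 := by positivity
  have key : ∀ s : Finset (Fin n), |TT ψ (mix s u w) j η - TT ψ w j η| ≤ ((s.erase j).card : ℝ) * B0 := by
    intro s
    induction s using Finset.induction_on with
    | empty =>
      have : mix ∅ u w = w := by
        funext x l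
        simp [mix]
      rw [this]
      simp
    | insert i s his ih =>
      have e1 : mix (insert i s) u w = repl (mix s u w) i (fun x => u x i) := by
        funext x l
        unfold mix repl
        by_cases h : l = i
        · subst h
          simp
        · rw [Function.update_of_ne h]
          simp [h]
      have e2 : mix s u w = repl (mix s u w) i (fun x => w x i) := by
        funext x l
        unfold repl
        by_cases h : l = i
        · subst h
          rw [Function.update_self]
          simp [mix, his]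
        · rw [Function.update_of_ne h]
      by_cases hij : i = j
      · subst hij
        have e3 : TT ψ (mix (insert i s) u w) i η = TT ψ (mix s u w) i η := by
          rw [e1]
          unfold TT rd
          simp only [jac_repl, Matrix.updateRow_idem]
        rw [e3, Finset.erase_insert_eq_erase]
        exact ih
      · have hci : ContDiff ℝ ∞ (fun x => u x i) := (contDiff_pi.mp hu) i
        have hcw : ContDiff ℝ ∞ (fun x => w x i) := (contDiff_pi.mp hw) i
        have hm := mix_smooth s hu hw
        have e4 : TT ψ (mix (insert i s) u w) j η - TT ψ (mix s u w) j η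
            = TT ψ (repl (mix s u w) i (fun x => u x i - w x i)) j η := by
          have : TT ψ (mix s u w) j η = TT ψ (repl (mix s u w) i (fun x => w x i)) j η := by
            rw [← e2]
          rw [this, e1]
          unfold TT
          rw [← integral_sub (T_integrable hψ.continuous (repl_smooth hm i hci) j hη hc)
            (T_integrable hψ.continuous (repl_smooth hm i hcw) j hη hc)]
          congr 1
          funext x
          rw [← mul_sub, rd_sub _ hij η hci hcw x]
        have e5 := T_ibp hψ (hci.sub hcw) hm hij hη hc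
        have e6 : |TT (fun x => u x i - w x i) (repl (mix s u w) i ψ) j η| ≤ B0 := by
          have h1 := T_bound (ψ := fun x => u x i - w x i) (u := repl (mix s u w) i ψ) (j := j)
            hR hδ0 hs (fun x _ => hδ x i) hD hD0 (r := fun l => if l = i then D' else D)
            (fun l => by split_ifs <;> assumption)
            (by
              intro l k x _
              by_cases h : l = i
              · subst h
                rw [if_pos rfl]
                have : (fun y => repl (mix s u w) l ψ y l) = ψ := by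
                  funext y
                  simp [repl]
                rw [this]
                exact hψD k x
              · rw [if_neg h]
                have : (fun y => repl (mix s u w) i ψ y l) = fun y => mix s u w y l := by
                  funext y
                  simp [repl, Function.update_of_ne h]
                rw [this]
                unfold mix
                by_cases hl : l ∈ s
                · simpa [hl] using huD l k x
                · simpa [hl] using hwD l k x)
          refine h1.trans (le_of_eq ?_)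
          rw [hB0]
          congr 4
          have hi : i ∈ Finset.univ.erase j := Finset.mem_erase.mpr ⟨hij, Finset.mem_univ _⟩
          rw [← Finset.mul_prod_erase _ _ hi, if_pos rfl]
          congr 1
          rw [Finset.prod_congr rfl (g := fun _ => D) (fun l hl => if_neg (Finset.mem_erase.mp hl).1),
            Finset.prod_const, Finset.card_erase_of_mem hi, Finset.card_erase_of_mem
            (Finset.mem_univ _), Finset.card_univ, Fintype.card_fin]
          rfl
        have e7 : ((insert i s).erase j).card = (s.erase j).card + 1 := by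
          rw [Finset.erase_insert_of_ne hij, Finset.card_insert_of_notMem]
          intro h
          exact his (Finset.mem_erase.mp h).2
        rw [e7]
        push_cast
        have e8 : |TT ψ (mix (insert i s) u w) j η - TT ψ (mix s u w) j η| ≤ B0 := by
          rw [e4]
          have : TT ψ (repl (mix s u w) i (fun x => u x i - w x i)) j η
              = - TT (fun x => u x i - w x i) (repl (mix s u w) i ψ) j η := e5
          rw [this, abs_neg]
          exact e6
        calc |TT ψ (mix (insert i s) u w) j η - TT ψ w j η|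
            = |(TT ψ (mix (insert i s) u w) j η - TT ψ (mix s u w) j η)
              + (TT ψ (mix s u w) j η - TT ψ w j η)| := by ring_nf
          _ ≤ B0 + ((s.erase j).card : ℝ) * B0 := (abs_add_le _ _).trans (add_le_add e8 ih)
          _ = _ := by ring
  have h := key Finset.univ
  have e : mix Finset.univ u w = u := by
    funext x l
    simp [mix]
  rw [e, Finset.card_erase_of_mem (Finset.mem_univ _), Finset.card_univ, Fintype.card_fin] at h
  exact h

end Q61.KH
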