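import Pool.Agent.Q61.KH2

/-! The multiscale estimate for determinants of Hoelder maps. -/

set_option autoImplicit false
open MeasureTheory Metric Set Filter Topology H248.ID
open scoped ENNReal NNReal ContDiff

namespace Q61.KH

/-- all components mollified -/
noncomputable def mv {n : ℕ} (ε : ℝ) (f : E n → E n) : E n → E n :=
  fun x l => moll ε (fun y => f y l) x

lemma hold_cont {n : ℕ} {F : Type*} [NormedAddCommGroup F] {f : E n → F} {H α : ℝ} (hα : 0 < α)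
    (h : ∀ x y, ‖f x - f y‖ ≤ H * ‖x - y‖ ^ α) : Continuous f := by
  rw [continuous_iff_continuousAt]
  intro x
  unfold ContinuousAt
  rw [tendsto_iff_norm_sub_tendsto_zero]
  refine squeeze_zero (fun _ => norm_nonneg _) (fun y => h y x) ?_
  have h1 : Tendsto (fun y : E n => H * ‖y - x‖ ^ α) (𝓝 x) (𝓝 (H * ‖x - x‖ ^ α)) := by
    refine Tendsto.const_mul _ ?_
    refine Tendsto.rpow_const ?_ (Or.inr hα.le)
    exact (continuous_id.sub continuous_const).norm.tendsto x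
  simpa [Real.zero_rpow hα.ne'] using h1

lemma comp_hold {n : ℕ} {f : E n → E n} {H α : ℝ}
    (h : ∀ x y, ‖f x - f y‖ ≤ H * ‖x - y‖ ^ α) (l : Fin n) (x y : E n) :
    |f x l - f y l| ≤ H * ‖x - y‖ ^ α := by
  refine le_trans ?_ (h x y)
  rw [← Real.norm_eq_abs, ← Pi.sub_apply]
  exact norm_le_pi_norm (f x - f y) l

lemma mv_smooth {n : ℕ} {ε : ℝ} (hε : 0 < ε) {f : E n → E n} (hf : Continuous f) :
    ContDiff ℝ ∞ (mv ε f) := by
  rw [contDiff_pi]
  intro l
  exact moll_contDiff hε ((continuous_apply l).comp hf)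

lemma rpow_alg {n : ℕ} (hn : 1 ≤ n) {e α γ : ℝ} (he : 0 < e) :
    e ^ (γ + ((n : ℝ) - 1) * (α - 1)) = e ^ γ * (e ^ (α - 1)) ^ (n - 1) := by
  rw [Real.rpow_add he, ← Real.rpow_natCast, ← Real.rpow_mul he.le, Nat.cast_sub hn, Nat.cast_one]
  congr 2
  ring

/-- one step between the scales `e/2` and `e` -/
lemma step {n : ℕ} {C1 : ℝ} (hC1 : 0 < C1) (hC : ∀ {ε : ℝ}, 0 < ε → ∀ {f : E n → ℝ}, Continuous f →
    ∀ {A a : ℝ}, 0 ≤ a → a ≤ 1 → 0 ≤ A → (∀ x y, |f x - f y| ≤ A * ‖x - y‖ ^ a) →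
    ∀ (j : Fin n) (x : E n), |pd (moll ε f) j x| ≤ C1 * A * ε ^ (a - 1))
    {α γ : ℝ} (hα : 0 < α) (hα1 : α ≤ 1) (hγ : 0 < γ) (hγ1 : γ ≤ 1)
    {η : E n → ℝ} (hη : ContDiff ℝ ∞ η) (hc : HasCompactSupport η) (j : Fin n)
    {R Dη : ℝ} (hR : 0 ≤ R) (hs : ∀ x, R < ‖x‖ → fderiv ℝ η x = 0)
    (hD : ∀ k x, |pd η k x| ≤ Dη) (hD0 : 0 ≤ Dη)
    {H B : ℝ} (hH : 0 ≤ H) (hB : 0 ≤ B) {f : E n → E n} {ψ : E n → ℝ}
    (hf : ∀ x y, ‖f x - f y‖ ≤ H * ‖x - y‖ ^ α)
    (hψ : ∀ x y, |ψ x - ψ y| ≤ B * ‖x - y‖ ^ γ) {e : ℝ} (he : 0 < e) :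
    |TT (moll (e / 2) ψ) (mv (e / 2) f) j η - TT (moll e ψ) (mv e f) j η| ≤
      ((2 * R) ^ n * n.factorial * Dη *
        (2 * (2 * C1) ^ (n - 1) + ((n - 1 : ℕ) : ℝ) * (2 * C1 * (2 * C1) ^ (n - 2)))) *
        (B * H ^ (n - 1)) * e ^ (γ + ((n : ℝ) - 1) * (α - 1)) := by
  have hn : 1 ≤ n := by
    have := j.2
    omega
  have hfc : Continuous f := hold_cont hα hf
  have hψc : Continuous ψ := hold_cont hγ hψ
  have hfl : ∀ l, Continuous (fun y => f y l) := fun l => (continuous_apply l).comp hfc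
  have he2 : 0 < e / 2 := by positivity
  have hX : 0 < e ^ (α - 1) := Real.rpow_pos_of_pos he _
  have hX2 : (e / 2) ^ (α - 1) ≤ 2 * e ^ (α - 1) := by
    rw [Real.div_rpow he.le (by norm_num), div_le_iff₀ (by positivity)]
    have : (1 : ℝ) / 2 ≤ 2 ^ (α - 1) := by
      calc (1 : ℝ) / 2 = 2 ^ (-1 : ℝ) := by
            rw [Real.rpow_neg (by norm_num)]
            norm_num
        _ ≤ 2 ^ (α - 1) := Real.rpow_le_rpow_of_exponent_le (by norm_num) (by linarith)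
    nlinarith
  have hγm : (e / 2) ^ γ ≤ e ^ γ := Real.rpow_le_rpow he2.le (by linarith) hγ.le
  have hαm : (e / 2) ^ α ≤ e ^ α := Real.rpow_le_rpow he2.le (by linarith) hα.le
  have hsm1 : ContDiff ℝ ∞ (mv (e / 2) f) := mv_smooth he2 hfc
  have hsm2 : ContDiff ℝ ∞ (mv e f) := mv_smooth he hfc
  -- first part
  have p1 : |TT (fun x => moll (e / 2) ψ x - moll e ψ x) (mv (e / 2) f) j η| ≤
      (2 * R) ^ n * ((2 * B * e ^ γ) * (n.factorial * (Dη * ∏ _l ∈ Finset.univ.erase j,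
        (2 * C1 * H * e ^ (α - 1))))) := by
    refine T_bound hR (by positivity) hs ?_ hD hD0 (fun _ => by positivity) ?_
    · intro x _
      have h1 := moll_sub he2 hψc hγ.le hB hψ x
      have h2 := moll_sub he hψc hγ.le hB hψ x
      have h3 : B * (e / 2) ^ γ ≤ B * e ^ γ := mul_le_mul_of_nonneg_left hγm hB
      rw [abs_le] at h1 h2 ⊢
      constructor <;> linarith [h1.1, h1.2, h2.1, h2.2]
    · intro l k x _
      refine (hC he2 (hfl l) hα.le hα1 hH (comp_hold hf l) k x).trans ?_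
      calc C1 * H * (e / 2) ^ (α - 1) ≤ C1 * H * (2 * e ^ (α - 1)) :=
            mul_le_mul_of_nonneg_left hX2 (by positivity)
        _ = _ := by ring
  have p2 : |TT (moll e ψ) (mv (e / 2) f) j η - TT (moll e ψ) (mv e f) j η| ≤
      ((n - 1 : ℕ) : ℝ) * ((2 * R) ^ n * ((2 * H * e ^ α) * (n.factorial * (Dη *
        ((C1 * B * e ^ (γ - 1)) * (2 * C1 * H * e ^ (α - 1)) ^ (n - 2)))))) := by
    refine T_two (moll_contDiff he hψc) hsm1 hsm2 hη hc hR hs hD hD0 (by positivity)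
      (by positivity) (by positivity) ?_ ?_ ?_ ?_
    · intro x l
      have h1 := moll_sub he2 (hfl l) hα.le hH (comp_hold hf l) x
      have h2 := moll_sub he (hfl l) hα.le hH (comp_hold hf l) x
      have h3 : H * (e / 2) ^ α ≤ H * e ^ α := mul_le_mul_of_nonneg_left hαm hH
      change |moll (e / 2) (fun y => f y l) x - moll e (fun y => f y l) x| ≤ _
      rw [abs_le] at h1 h2 ⊢
      constructor <;> linarith [h1.1, h1.2, h2.1, h2.2]
    · intro k x
      exact hC he hψc hγ.le hγ1 hB hψ k x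
    · intro l k x
      refine (hC he2 (hfl l) hα.le hα1 hH (comp_hold hf l) k x).trans ?_
      calc C1 * H * (e / 2) ^ (α - 1) ≤ C1 * H * (2 * e ^ (α - 1)) :=
            mul_le_mul_of_nonneg_left hX2 (by positivity)
        _ = _ := by ring
    · intro l k x
      refine (hC he (hfl l) hα.le hα1 hH (comp_hold hf l) k x).trans ?_
      calc C1 * H * e ^ (α - 1) ≤ 2 * (C1 * H * e ^ (α - 1)) := by
            have : 0 ≤ C1 * H * e ^ (α - 1) := by positivity
            linarith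
        _ = _ := by ring
  have p0 : TT (moll (e / 2) ψ) (mv (e / 2) f) j η - TT (moll e ψ) (mv e f) j η
      = TT (fun x => moll (e / 2) ψ x - moll e ψ x) (mv (e / 2) f) j η
        + (TT (moll e ψ) (mv (e / 2) f) j η - TT (moll e ψ) (mv e f) j η) := by
    rw [T_sub (moll_contDiff he2 hψc).continuous (moll_contDiff he hψc).continuous hsm1 j hη hc]
    ring
  rw [p0]
  refine (abs_add_le _ _).trans ((add_le_add p1 p2).trans (le_of_eq ?_))
  rw [rpow_alg hn he, Finset.prod_const, Finset.card_erase_of_mem (Finset.mem_univ _),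
    Finset.card_univ, Fintype.card_fin]
  obtain ⟨m, rfl⟩ : ∃ m, n = m + 1 := ⟨n - 1, by omega⟩
  rcases m with _ | m
  · simp
    ring
  · have h1 : e ^ α = e * e ^ (α - 1) := by
      rw [Real.rpow_sub_one he.ne']
      field_simp
    have h2 : e ^ (γ - 1) = e ^ γ / e := Real.rpow_sub_one he.ne' _
    simp only [Nat.add_sub_cancel, show m + 1 + 1 - 2 = m from rfl]
    rw [h1, h2]
    field_simp
    ring

/-- **the multiscale estimate** -/
theorem HB {n : ℕ} {α γ : ℝ} (hα : 0 < α) (hα1 : α ≤ 1) (hγ : 0 < γ) (hγ1 : γ ≤ 1)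
    (hθ : 0 < γ + ((n : ℝ) - 1) * (α - 1)) {η : E n → ℝ} (hη : ContDiff ℝ ∞ η)
    (hc : HasCompactSupport η) (j : Fin n) :
    ∃ C : ℝ, 0 < C ∧ ∀ {H B : ℝ}, 0 ≤ H → 0 ≤ B → ∀ {f : E n → E n} {ψ : E n → ℝ},
      (∀ x y, ‖f x - f y‖ ≤ H * ‖x - y‖ ^ α) →
      (∀ x y, |ψ x - ψ y| ≤ B * ‖x - y‖ ^ γ) →
      ∀ K : ℕ, |TT ψ (mv ((1 / 2) ^ K) f) j η| ≤ C * B * H ^ (n - 1) := by
  have hn : 1 ≤ n := by
    have := j.2
    omega
  obtain ⟨C1, hC1, hC⟩ := moll_pd n
  obtain ⟨R, hR, hRs⟩ : ∃ R : ℝ, 0 ≤ R ∧ ∀ x : E n, R < ‖x‖ → fderiv ℝ η x = 0 := by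
    obtain ⟨R, hR⟩ := hc.isCompact.isBounded.subset_closedBall (0 : E n)
    refine ⟨max R 0, le_max_right _ _, fun x hx => ?_⟩
    apply fderiv_of_notMem_tsupport
    intro h
    have := hR h
    simp only [mem_closedBall, dist_zero_right] at this
    linarith [le_max_left R 0]
  obtain ⟨Dη, hD0, hD⟩ : ∃ D : ℝ, 0 ≤ D ∧ ∀ (k : Fin n) (x : E n), |pd η k x| ≤ D := by
    obtain ⟨D, hD⟩ := (hη.continuous_fderiv (by simp)).bounded_above_of_compact_support (hc.fderiv ℝ)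
    refine ⟨D, (norm_nonneg _).trans (hD 0), fun k x => ?_⟩
    unfold pd
    calc |fderiv ℝ η x (Pi.single k 1)| ≤ ‖fderiv ℝ η x‖ * ‖(Pi.single k 1 : E n)‖ :=
          (fderiv ℝ η x).le_opNorm _
      _ ≤ D * 1 := by
          refine mul_le_mul (hD x) ?_ (norm_nonneg _) ((norm_nonneg _).trans (hD 0))
          rw [Pi.norm_single]
          simp
      _ = D := mul_one _
  set θ : ℝ := γ + ((n : ℝ) - 1) * (α - 1) with hθd
  set K1 : ℝ := (2 * R) ^ n * n.factorial * Dη with hK1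
  have hK10 : 0 ≤ K1 := by positivity
  set K0 : ℝ := K1 * (2 * (2 * C1) ^ (n - 1) + ((n - 1 : ℕ) : ℝ) * (2 * C1 * (2 * C1) ^ (n - 2)))
    with hK0
  have hK00 : 0 ≤ K0 := by positivity
  set q : ℝ := (1 / 2) ^ θ with hq
  have hq0 : 0 < q := by positivity
  have hq1 : q < 1 := Real.rpow_lt_one (by norm_num) (by norm_num) hθ
  refine ⟨K1 * C1 ^ (n - 1) + K0 / (1 - q) + K1 * (2 + R) * C1 ^ (n - 1) + 1, ?_, ?_⟩
  · have : 0 ≤ K0 / (1 - q) := div_nonneg hK00 (by linarith)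
    positivity
  intro H B hH hB f ψ hf hψ K
  have hfc : Continuous f := hold_cont hα hf
  have hψc : Continuous ψ := hold_cont hγ hψ
  have hfl : ∀ l, Continuous (fun y => f y l) := fun l => (continuous_apply l).comp hfc
  have heK : ∀ k : ℕ, (0 : ℝ) < (1 / 2) ^ k := fun k => by positivity
  -- normalise
  set φ : E n → ℝ := fun x => ψ x - ψ 0 with hφ
  have hφh : ∀ x y, |φ x - φ y| ≤ B * ‖x - y‖ ^ γ := by
    intro x y
    simpa [hφ] using hψ x y
  have hφc : Continuous φ := hold_cont hγ hφh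
  have hsm : ∀ k : ℕ, ContDiff ℝ ∞ (mv ((1 / 2) ^ k) f) := fun k => mv_smooth (heK k) hfc
  have h0 : TT φ (mv ((1 / 2) ^ K) f) j η = TT ψ (mv ((1 / 2) ^ K) f) j η := by
    rw [hφ, T_sub hψc continuous_const (hsm K) j hη hc, T_const _ (hsm K) j hη hc, sub_zero]
  rw [← h0]
  have hBH : 0 ≤ B * H ^ (n - 1) := by positivity
  -- telescoping
  have tel : ∀ k : ℕ, |TT (moll ((1 / 2) ^ k) φ) (mv ((1 / 2) ^ k) f) j η
      - TT (moll ((1 / 2) ^ 0) φ) (mv ((1 / 2) ^ 0) f) j η| ≤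
      K0 * (B * H ^ (n - 1)) * ∑ i ∈ Finset.range k, q ^ i := by
    intro k
    induction k with
    | zero => simp
    | succ k ih =>
      have hst := step (n := n) hC1 hC hα hα1 hγ hγ1 hη hc j hR hRs hD hD0 hH hB hf hφh (heK k)
      have e1 : ((1 : ℝ) / 2) ^ k / 2 = (1 / 2) ^ (k + 1) := by
        rw [pow_succ]
        ring
      have e2 : (((1 : ℝ) / 2) ^ k) ^ (γ + ((n : ℝ) - 1) * (α - 1)) = q ^ k := by
        rw [hq, ← hθd, ← Real.rpow_natCast, ← Real.rpow_natCast, ← Real.rpow_mul (by norm_num),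
          ← Real.rpow_mul (by norm_num), mul_comm]
      rw [e1, e2] at hst
      rw [Finset.sum_range_succ]
      calc _ = |(TT (moll ((1 / 2) ^ (k + 1)) φ) (mv ((1 / 2) ^ (k + 1)) f) j η
              - TT (moll ((1 / 2) ^ k) φ) (mv ((1 / 2) ^ k) f) j η)
            + (TT (moll ((1 / 2) ^ k) φ) (mv ((1 / 2) ^ k) f) j η
              - TT (moll ((1 / 2) ^ 0) φ) (mv ((1 / 2) ^ 0) f) j η)| := by ring_nf
        _ ≤ K0 * (B * H ^ (n - 1)) * q ^ k
            + K0 * (B * H ^ (n - 1)) * ∑ i ∈ Finset.range k, q ^ i :=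
            (abs_add_le _ _).trans (add_le_add hst ih)
        _ = _ := by ring
  have hgeo : ∑ i ∈ Finset.range K, q ^ i ≤ 1 / (1 - q) := by
    rw [one_div]
    have := Summable.sum_le_tsum (f := fun i : ℕ => q ^ i) (Finset.range K)
      (fun i _ => by positivity) (summable_geometric_of_lt_one hq0.le hq1)
    rwa [tsum_geometric_of_lt_one hq0.le hq1] at this
  have t1 := (tel K).trans (mul_le_mul_of_nonneg_left hgeo (by positivity))
  -- the top scale
  have t2 : |TT (moll ((1 / 2) ^ 0) φ) (mv ((1 / 2) ^ 0) f) j η| ≤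
      K1 * (2 + R) * C1 ^ (n - 1) * (B * H ^ (n - 1)) := by
    have h1 : |TT (moll ((1 / 2) ^ 0) φ) (mv ((1 / 2) ^ 0) f) j η| ≤
        (2 * R) ^ n * ((B * (2 + R)) * (n.factorial * (Dη * ∏ _l ∈ Finset.univ.erase j,
        (C1 * H)))) := by
      refine T_bound hR (by positivity) hRs ?_ hD hD0 (fun _ => by positivity) ?_
      · intro x hx
        have h1 := moll_sub (heK 0) hφc hγ.le hB hφh x
        have h2 := hφh x 0
        have h3 : φ 0 = 0 := by simp [hφ]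
        rw [h3, sub_zero, sub_zero] at h2
        have h4 : ‖x‖ ^ γ ≤ 1 + R := by
          calc ‖x‖ ^ γ ≤ (1 + R) ^ γ := Real.rpow_le_rpow (norm_nonneg _) (by linarith) hγ.le
            _ ≤ (1 + R) ^ (1 : ℝ) := Real.rpow_le_rpow_of_exponent_le (by linarith) hγ1
            _ = 1 + R := Real.rpow_one _
        have h5 : B * ‖x‖ ^ γ ≤ B * (1 + R) := mul_le_mul_of_nonneg_left h4 hB
        have h6 : B * (((1 : ℝ) / 2) ^ 0) ^ γ = B := by simp
        rw [h6] at h1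
        rw [abs_le] at h1 h2 ⊢
        constructor <;> nlinarith [h1.1, h1.2, h2.1, h2.2]
      · intro l k x _
        have h1 : |pd (fun y => mv ((1 / 2) ^ 0) f y l) k x| ≤ C1 * H * ((1 / 2) ^ 0) ^ (α - 1) :=
          hC (heK 0) (hfl l) hα.le hα1 hH (comp_hold hf l) k x
        refine h1.trans (le_of_eq ?_)
        rw [pow_zero, Real.one_rpow, mul_one]
    refine h1.trans (le_of_eq ?_)
    rw [Finset.prod_const, Finset.card_erase_of_mem (Finset.mem_univ _), Finset.card_univ,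
      Fintype.card_fin, hK1, mul_pow]
    ring
  -- the bottom scale
  have t3 : |TT φ (mv ((1 / 2) ^ K) f) j η - TT (moll ((1 / 2) ^ K) φ) (mv ((1 / 2) ^ K) f) j η| ≤
      K1 * C1 ^ (n - 1) * (B * H ^ (n - 1)) := by
    rw [← T_sub hφc (moll_contDiff (heK K) hφc).continuous (hsm K) j hη hc]
    set e : ℝ := (1 / 2) ^ K with he
    have h1 : |TT (fun x => φ x - moll e φ x) (mv e f) j η| ≤
        (2 * R) ^ n * ((B * e ^ γ) * (n.factorial * (Dη * ∏ _l ∈ Finset.univ.erase j,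
        (C1 * H * e ^ (α - 1))))) := by
      have hX : 0 < e ^ (α - 1) := Real.rpow_pos_of_pos (heK K) _
      have hX' : 0 < e ^ γ := Real.rpow_pos_of_pos (heK K) _
      refine T_bound hR (by positivity) hRs ?_ hD hD0 (fun _ => by positivity) ?_
      · intro x _
        rw [abs_sub_comm]
        exact moll_sub (heK K) hφc hγ.le hB hφh x
      · intro l k x _
        exact hC (heK K) (hfl l) hα.le hα1 hH (comp_hold hf l) k x
    refine h1.trans ?_
    rw [Finset.prod_const, Finset.card_erase_of_mem (Finset.mem_univ _), Finset.card_univ,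
      Fintype.card_fin]
    have h2 : e ^ γ * (e ^ (α - 1)) ^ (n - 1) ≤ 1 := by
      rw [← rpow_alg hn (heK K)]
      refine Real.rpow_le_one (heK K).le ?_ hθ.le
      exact pow_le_one₀ (by norm_num) (by norm_num)
    calc (2 * R) ^ n * ((B * e ^ γ) * (n.factorial * (Dη * (C1 * H * e ^ (α - 1)) ^ (n - 1))))
        = K1 * C1 ^ (n - 1) * (B * H ^ (n - 1)) * (e ^ γ * (e ^ (α - 1)) ^ (n - 1)) := by
          rw [hK1, mul_pow, mul_pow]
          ring
      _ ≤ K1 * C1 ^ (n - 1) * (B * H ^ (n - 1)) * 1 :=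
          mul_le_mul_of_nonneg_left h2 (by positivity)
      _ = _ := mul_one _
  calc |TT φ (mv ((1 / 2) ^ K) f) j η|
      = |(TT φ (mv ((1 / 2) ^ K) f) j η - TT (moll ((1 / 2) ^ K) φ) (mv ((1 / 2) ^ K) f) j η)
        + (TT (moll ((1 / 2) ^ K) φ) (mv ((1 / 2) ^ K) f) j η
          - TT (moll ((1 / 2) ^ 0) φ) (mv ((1 / 2) ^ 0) f) j η)
        + TT (moll ((1 / 2) ^ 0) φ) (mv ((1 / 2) ^ 0) f) j η| := by ring_nf
    _ ≤ K1 * C1 ^ (n - 1) * (B * H ^ (n - 1)) + K0 * (B * H ^ (n - 1)) * (1 / (1 - q))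
        + K1 * (2 + R) * C1 ^ (n - 1) * (B * H ^ (n - 1)) :=
        (abs_add_le _ _).trans (add_le_add ((abs_add_le _ _).trans (add_le_add t3 t1)) t2)
    _ ≤ (K1 * C1 ^ (n - 1) + K0 / (1 - q) + K1 * (2 + R) * C1 ^ (n - 1) + 1) * (B * H ^ (n - 1)) := by
        have : K0 * (B * H ^ (n - 1)) * (1 / (1 - q)) = K0 / (1 - q) * (B * H ^ (n - 1)) := by ring
        rw [this]
        linarith
    _ = _ := by ring

end Q61.KH
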