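import Pool.Agent.Q61.KH3

/-! The regularised Newtonian vector field of a function: Hoelder bound with a power of its mass. -/

set_option autoImplicit false
open MeasureTheory Metric Set Filter Topology H248.ID
open scoped ENNReal NNReal ContDiff

namespace Q61.KH

/-- regularised Euclidean norm -/
noncomputable def NN {n : ℕ} (s : ℝ) (w : E n) : ℝ := Real.sqrt (s ^ 2 + ∑ i, w i ^ 2)

lemma QQ_pos {n : ℕ} {s : ℝ} (hs : 0 < s) (w : E n) : 0 < s ^ 2 + ∑ i, w i ^ 2 := by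
  have : 0 ≤ ∑ i, w i ^ 2 := Finset.sum_nonneg fun i _ => sq_nonneg _
  positivity

lemma NN_pos {n : ℕ} {s : ℝ} (hs : 0 < s) (w : E n) : 0 < NN s w := Real.sqrt_pos.mpr (QQ_pos hs w)

lemma NN_sq {n : ℕ} {s : ℝ} (hs : 0 < s) (w : E n) : NN s w ^ 2 = s ^ 2 + ∑ i, w i ^ 2 :=
  Real.sq_sqrt (QQ_pos hs w).le

lemma abs_le_NN {n : ℕ} {s : ℝ} (hs : 0 < s) (w : E n) (i : Fin n) : |w i| ≤ NN s w := by
  rw [← abs_of_pos (NN_pos hs w), ← sq_le_sq, NN_sq hs w]
  have : w i ^ 2 ≤ ∑ i, w i ^ 2 :=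
    Finset.single_le_sum (f := fun i => w i ^ 2) (fun i _ => sq_nonneg _) (Finset.mem_univ i)
  nlinarith [sq_nonneg s]

lemma norm_le_NN {n : ℕ} {s : ℝ} (hs : 0 < s) (w : E n) : ‖w‖ ≤ NN s w := by
  rw [pi_norm_le_iff_of_nonneg (NN_pos hs w).le]
  intro i
  rw [Real.norm_eq_abs]
  exact abs_le_NN hs w i

lemma NN_smooth {n : ℕ} {s : ℝ} (hs : 0 < s) : ContDiff ℝ ∞ (NN (n := n) s) := by
  have h1 : ContDiff ℝ ∞ (fun w : E n => s ^ 2 + ∑ i, w i ^ 2) := by
    refine contDiff_const.add (ContDiff.sum fun i _ => ?_)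
    exact (contDiff_apply ℝ ℝ i).pow 2
  exact h1.sqrt fun w => (QQ_pos hs w).ne'

lemma NN_fderiv {n : ℕ} {s : ℝ} (hs : 0 < s) (w : E n) (j : Fin n) :
    pd (NN (n := n) s) j w = w j / NN s w := by
  have h1 : HasFDerivAt (fun w : E n => s ^ 2 + ∑ i, w i ^ 2)
      (∑ i, (2 * w i) • (ContinuousLinearMap.proj (R := ℝ) (φ := fun _ : Fin n => ℝ) i)) w := by
    refine HasFDerivAt.const_add _ ?_
    refine HasFDerivAt.fun_sum fun i _ => ?_
    have := (ContinuousLinearMap.proj (R := ℝ) (φ := fun _ : Fin n => ℝ) i).hasFDerivAt (x := w)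
    have h2 := this.pow 2
    simpa using h2
  have h2 := h1.sqrt (QQ_pos hs w).ne'
  have h3 : fderiv ℝ (NN (n := n) s) w = _ := h2.fderiv
  unfold pd
  rw [h3]
  have hsum : ∑ i, 2 * w i * (Pi.single j (1 : ℝ) : E n) i = 2 * w j := by
    rw [Finset.sum_eq_single j]
    · rw [Pi.single_eq_same, mul_one]
    · intro i _ hij
      rw [Pi.single_eq_of_ne hij, mul_zero]
    · intro h
      exact absurd (Finset.mem_univ j) h
  have hN := NN_pos hs w
  simp only [smul_apply, _root_.sum_apply, smul_eq_mul, ContinuousLinearMap.proj_apply]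
  rw [hsum]
  change 1 / (2 * NN s w) * (2 * w j) = w j / NN s w
  field_simp

/-- the kernel -/
noncomputable def KK {n : ℕ} (s : ℝ) (i : Fin n) (w : E n) : ℝ := w i * (NN s w ^ n)⁻¹

/-- its divergence -/
noncomputable def PP {n : ℕ} (s : ℝ) (w : E n) : ℝ := n * s ^ 2 * (NN s w ^ (n + 2))⁻¹

lemma KK_smooth {n : ℕ} {s : ℝ} (hs : 0 < s) (i : Fin n) : ContDiff ℝ ∞ (KK s i) := by
  unfold KK
  refine (contDiff_apply ℝ ℝ i).mul (ContDiff.inv ((NN_smooth hs).pow n) fun w => ?_)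
  exact (pow_pos (NN_pos hs w) n).ne'

lemma pd_KK {n : ℕ} {s : ℝ} (hs : 0 < s) (i : Fin n) (w : E n) :
    pd (KK s i) i w = (NN s w ^ n)⁻¹ - n * w i ^ 2 * (NN s w ^ (n + 2))⁻¹ := by
  have hN := NN_pos hs w
  have h1 : HasFDerivAt (NN (n := n) s) (fderiv ℝ (NN (n := n) s) w) w :=
    ((NN_smooth hs).differentiable (by simp) w).hasFDerivAt
  have h2 := (hasDerivAt_inv (pow_pos hN n).ne').comp_hasFDerivAt w (h1.pow n)
  have h3 := ((ContinuousLinearMap.proj (R := ℝ) (φ := fun _ : Fin n => ℝ) i).hasFDerivAt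
    (x := w)).mul h2
  have h4 : fderiv ℝ (KK s i) w = _ := h3.fderiv
  have h5 : fderiv ℝ (NN (n := n) s) w (Pi.single i 1) = w i / NN s w := NN_fderiv hs w i
  unfold pd
  rw [h4]
  simp only [add_apply, smul_apply, smul_eq_mul, Function.comp_apply,
    ContinuousLinearMap.proj_apply, Pi.single_eq_same, h5]
  rcases Nat.eq_zero_or_pos n with hn | hn
  · subst hn
    exact i.elim0
  · obtain ⟨m, rfl⟩ : ∃ m, n = m + 1 := ⟨n - 1, by omega⟩
    simp only [Nat.add_sub_cancel]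
    push_cast
    field_simp
    ring

lemma sum_pd_KK {n : ℕ} {s : ℝ} (hs : 0 < s) (w : E n) : ∑ i, pd (KK s i) i w = PP s w := by
  have hN := NN_pos hs w
  simp only [pd_KK hs]
  rw [Finset.sum_sub_distrib, Finset.sum_const, Finset.card_univ, Fintype.card_fin, nsmul_eq_mul,
    ← Finset.sum_mul, ← Finset.mul_sum]
  have h1 : ∑ i, w i ^ 2 = NN s w ^ 2 - s ^ 2 := by
    rw [NN_sq hs w]
    ring
  rw [h1]
  unfold PP
  field_simp
  ring

lemma PP_cont {n : ℕ} {s : ℝ} (hs : 0 < s) : Continuous (PP (n := n) s) := by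
  unfold PP
  refine continuous_const.mul (Continuous.inv₀ ((NN_smooth hs).continuous.pow _) fun w => ?_)
  exact (pow_pos (NN_pos hs w) _).ne'

lemma PP_nonneg {n : ℕ} {s : ℝ} (hs : 0 < s) (w : E n) : 0 ≤ PP s w := by
  have := NN_pos hs w
  unfold PP
  positivity

lemma PP_integrable {n : ℕ} : Integrable (PP (n := n) 1) := by
  have h1 := integrable_rpow_neg_one_add_norm_sq (E := E n) (μ := volume) (r := (n : ℝ) + 2)
    (by simp)
  refine (h1.const_mul (n : ℝ)).mono' (PP_cont one_pos).aestronglyMeasurable ?_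
  refine Filter.Eventually.of_forall fun w => ?_
  rw [Real.norm_of_nonneg (PP_nonneg one_pos w)]
  unfold PP
  rw [one_pow, mul_one]
  refine mul_le_mul_of_nonneg_left ?_ (Nat.cast_nonneg n)
  have hN := NN_pos one_pos w
  have h2 : NN 1 w ^ (n + 2) = (NN 1 w ^ 2) ^ (((n : ℝ) + 2) / 2) := by
    rw [← Real.rpow_natCast (NN 1 w) 2, ← Real.rpow_mul hN.le, ← Real.rpow_natCast]
    congr 1
    push_cast
    ring
  rw [h2, neg_div, Real.rpow_neg (by positivity)]
  refine inv_anti₀ (by positivity) ?_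
  refine Real.rpow_le_rpow (by positivity) ?_ (by positivity)
  rw [NN_sq one_pos w, one_pow]
  have h3 : ‖w‖ ^ 2 ≤ ∑ i, w i ^ 2 := by
    rcases Nat.eq_zero_or_pos n with hn | hn
    · subst hn
      have : w = 0 := Subsingleton.elim _ _
      simp [this]
    · have : Nonempty (Fin n) := ⟨⟨0, hn⟩⟩
      obtain ⟨i, hi⟩ : ∃ i, ‖w‖ = ‖w i‖ := by
        obtain ⟨i, -, hi⟩ := Finset.exists_mem_eq_sup' (Finset.univ_nonempty (α := Fin n))
          (fun i => ‖w i‖)
        refine ⟨i, le_antisymm ?_ (norm_le_pi_norm w i)⟩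
        rw [pi_norm_le_iff_of_nonneg (norm_nonneg _)]
        intro j
        rw [← hi]
        exact Finset.le_sup' (fun i => ‖w i‖) (Finset.mem_univ j)
      rw [hi, Real.norm_eq_abs, sq_abs]
      exact Finset.single_le_sum (f := fun i => w i ^ 2) (fun i _ => sq_nonneg _)
        (Finset.mem_univ i)
  linarith

/-- positive mass -/
lemma PP_mass {n : ℕ} (hn : 1 ≤ n) : 0 < ∫ v : E n, PP 1 v := by
  rw [integral_pos_iff_support_of_nonneg (PP_nonneg one_pos) PP_integrable]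
  have : Function.support (PP (n := n) 1) = univ := by
    ext w
    simp only [Function.mem_support, mem_univ, iff_true]
    have := NN_pos one_pos w
    have hn' : (0 : ℝ) < n := by exact_mod_cast hn
    unfold PP
    positivity
  rw [this]
  exact isOpen_univ.measure_pos volume univ_nonempty

lemma NN_smul {n : ℕ} {s : ℝ} (hs : 0 < s) (v : E n) : NN s (s • v) = s * NN 1 v := by
  unfold NN
  have : s ^ 2 + ∑ i, (s • v) i ^ 2 = s ^ 2 * (1 ^ 2 + ∑ i, v i ^ 2) := by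
    simp only [Pi.smul_apply, smul_eq_mul, mul_pow, ← Finset.mul_sum]
    ring
  rw [this, Real.sqrt_mul (by positivity), Real.sqrt_sq hs.le]

lemma PP_smul {n : ℕ} {s : ℝ} (hs : 0 < s) (v : E n) : PP s (s • v) = (s ^ n)⁻¹ * PP 1 v := by
  unfold PP
  rw [NN_smul hs]
  have := NN_pos one_pos v
  field_simp
  ring

/-- differences of the kernel -/
lemma KK_diff {n : ℕ} (hn : 1 ≤ n) {s : ℝ} (hs : 0 < s) {β : ℝ} (hβ : 0 ≤ β) (hβ1 : β ≤ 1)
    (i : Fin n) (a b : E n) (hab : NN s b ≤ NN s a) :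
    |KK s i a - KK s i b| ≤ 2 * (1 + (n : ℝ) ^ 2) * ‖a - b‖ ^ β * NN s b ^ (-((n : ℝ) - 1 + β)) := by
  set A := NN s a with hA
  set B := NN s b with hB
  have hA0 : 0 < A := NN_pos hs a
  have hB0 : 0 < B := NN_pos hs b
  have hai : |a i| ≤ A := abs_le_NN hs a i
  have hbi : |b i| ≤ B := abs_le_NN hs b i
  have hdi : |a i - b i| ≤ ‖a - b‖ := by
    rw [← Real.norm_eq_abs, ← Pi.sub_apply]
    exact norm_le_pi_norm (a - b) i
  have hn' : (1 : ℝ) ≤ n := by exact_mod_cast hn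
  -- Lipschitz bound of the norm
  have hLip : A - B ≤ n * ‖a - b‖ := by
    have h1 : (A - B) * (A + B) ≤ (n * ‖a - b‖) * (A + B) := by
      have e1 : (A - B) * (A + B) = ∑ l, (a l ^ 2 - b l ^ 2) := by
        rw [Finset.sum_sub_distrib]
        have h1 := NN_sq hs a
        have h2 := NN_sq hs b
        rw [← hA] at h1
        rw [← hB] at h2
        nlinarith
      rw [e1]
      calc ∑ l, (a l ^ 2 - b l ^ 2) ≤ ∑ _l : Fin n, ‖a - b‖ * (A + B) := by
            refine Finset.sum_le_sum fun l _ => ?_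
            have h1 : |a l - b l| ≤ ‖a - b‖ := by
              rw [← Real.norm_eq_abs, ← Pi.sub_apply]
              exact norm_le_pi_norm (a - b) l
            have h2 : |a l + b l| ≤ A + B :=
              (abs_add_le _ _).trans (add_le_add (abs_le_NN hs a l) (abs_le_NN hs b l))
            calc a l ^ 2 - b l ^ 2 = (a l - b l) * (a l + b l) := by ring
              _ ≤ |(a l - b l) * (a l + b l)| := le_abs_self _
              _ = |a l - b l| * |a l + b l| := abs_mul _ _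
              _ ≤ _ := mul_le_mul h1 h2 (abs_nonneg _) (norm_nonneg _)
        _ = _ := by
            rw [Finset.sum_const, Finset.card_univ, Fintype.card_fin, nsmul_eq_mul]
            ring
    exact le_of_mul_le_mul_right h1 (by positivity)
  have hpow : ∀ m : ℕ, A ^ (m + 1) - B ^ (m + 1) ≤ (m + 1) * A ^ m * (A - B) := by
    intro m
    induction m with
    | zero => simp
    | succ m ih =>
      have h1 : B ^ (m + 1) ≤ A ^ (m + 1) := pow_le_pow_left₀ hB0.le hab _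
      have h2 : 0 ≤ A - B := by linarith
      calc A ^ (m + 1 + 1) - B ^ (m + 1 + 1) = A * (A ^ (m + 1) - B ^ (m + 1))
            + B ^ (m + 1) * (A - B) := by ring
        _ ≤ A * ((m + 1) * A ^ m * (A - B)) + A ^ (m + 1) * (A - B) :=
            add_le_add (mul_le_mul_of_nonneg_left ih hA0.le) (mul_le_mul_of_nonneg_right h1 h2)
        _ = _ := by
            push_cast
            ring
  have hAB0 : 0 ≤ A - B := by linarith
  have hBn : 0 < B ^ n := pow_pos hB0 n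
  have hAn : 0 < A ^ n := pow_pos hA0 n
  have hBAn : B ^ n ≤ A ^ n := pow_le_pow_left₀ hB0.le hab n
  -- Lipschitz bound
  have b1 : |KK s i a - KK s i b| ≤ (1 + (n : ℝ) ^ 2) * ‖a - b‖ * (B ^ n)⁻¹ := by
    unfold KK
    rw [← hA, ← hB]
    have e1 : a i * (A ^ n)⁻¹ - b i * (B ^ n)⁻¹
        = (a i - b i) * (A ^ n)⁻¹ - b i * ((B ^ n)⁻¹ - (A ^ n)⁻¹) := by ring
    have e2 : (B ^ n)⁻¹ - (A ^ n)⁻¹ ≤ n * (A - B) * (B⁻¹ * (B ^ n)⁻¹) := by
      obtain ⟨m, rfl⟩ : ∃ m, n = m + 1 := ⟨n - 1, by omega⟩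
      have h1 := hpow m
      have h2 : (B ^ (m + 1))⁻¹ - (A ^ (m + 1))⁻¹
          = (A ^ (m + 1) - B ^ (m + 1)) * ((A ^ (m + 1))⁻¹ * (B ^ (m + 1))⁻¹) := by
        field_simp
      rw [h2]
      calc (A ^ (m + 1) - B ^ (m + 1)) * ((A ^ (m + 1))⁻¹ * (B ^ (m + 1))⁻¹)
          ≤ ((m + 1) * A ^ m * (A - B)) * ((A ^ (m + 1))⁻¹ * (B ^ (m + 1))⁻¹) :=
            mul_le_mul_of_nonneg_right h1 (by positivity)
        _ = (m + 1) * (A - B) * (A⁻¹ * (B ^ (m + 1))⁻¹) := by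
            field_simp
            ring
        _ ≤ (m + 1) * (A - B) * (B⁻¹ * (B ^ (m + 1))⁻¹) := by
            refine mul_le_mul_of_nonneg_left ?_ (by positivity)
            refine mul_le_mul_of_nonneg_right ?_ (by positivity)
            exact inv_anti₀ hB0 hab
        _ = _ := by push_cast; ring
    have e3 : 0 ≤ (B ^ n)⁻¹ - (A ^ n)⁻¹ := by
      have := inv_anti₀ hBn hBAn
      linarith
    rw [e1]
    calc |(a i - b i) * (A ^ n)⁻¹ - b i * ((B ^ n)⁻¹ - (A ^ n)⁻¹)|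
        ≤ |(a i - b i) * (A ^ n)⁻¹| + |b i * ((B ^ n)⁻¹ - (A ^ n)⁻¹)| := abs_sub _ _
      _ = |a i - b i| * (A ^ n)⁻¹ + |b i| * ((B ^ n)⁻¹ - (A ^ n)⁻¹) := by
          rw [abs_mul, abs_mul, abs_of_nonneg e3, abs_of_pos (inv_pos.mpr hAn)]
      _ ≤ ‖a - b‖ * (B ^ n)⁻¹ + B * (n * (A - B) * (B⁻¹ * (B ^ n)⁻¹)) := by
          refine add_le_add ?_ ?_
          · exact mul_le_mul hdi (inv_anti₀ hBn hBAn) (by positivity) (norm_nonneg _)
          · exact mul_le_mul hbi e2 e3 hB0.le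
      _ = (‖a - b‖ + n * (A - B)) * (B ^ n)⁻¹ := by
          field_simp
      _ ≤ (‖a - b‖ + n * (n * ‖a - b‖)) * (B ^ n)⁻¹ := by
          refine mul_le_mul_of_nonneg_right ?_ (by positivity)
          have := mul_le_mul_of_nonneg_left hLip (by positivity : (0 : ℝ) ≤ n)
          linarith
      _ = _ := by ring
  -- sup bound
  have b2 : |KK s i a - KK s i b| ≤ 2 * B * (B ^ n)⁻¹ := by
    unfold KK
    rw [← hA, ← hB]
    obtain ⟨m, rfl⟩ : ∃ m, n = m + 1 := ⟨n - 1, by omega⟩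
    have h1 : |a i * (A ^ (m + 1))⁻¹| ≤ B * (B ^ (m + 1))⁻¹ := by
      rw [abs_mul, abs_of_pos (inv_pos.mpr hAn)]
      calc |a i| * (A ^ (m + 1))⁻¹ ≤ A * (A ^ (m + 1))⁻¹ :=
            mul_le_mul_of_nonneg_right hai (by positivity)
        _ = (A ^ m)⁻¹ := by
            field_simp
            ring
        _ ≤ (B ^ m)⁻¹ := inv_anti₀ (by positivity) (pow_le_pow_left₀ hB0.le hab m)
        _ = _ := by
            field_simp
            ring
    have h2 : |b i * (B ^ (m + 1))⁻¹| ≤ B * (B ^ (m + 1))⁻¹ := by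
      rw [abs_mul, abs_of_pos (inv_pos.mpr hBn)]
      exact mul_le_mul_of_nonneg_right hbi (by positivity)
    refine (abs_sub _ _).trans ((add_le_add h1 h2).trans (le_of_eq ?_))
    ring
  -- interpolation
  set m := min ‖a - b‖ B with hm
  have hm0 : 0 ≤ m := le_min (norm_nonneg _) hB0.le
  have b3 : |KK s i a - KK s i b| ≤ 2 * (1 + (n : ℝ) ^ 2) * m * (B ^ n)⁻¹ := by
    have hi : 0 < (B ^ n)⁻¹ := by positivity
    have hn2 : (0 : ℝ) ≤ (n : ℝ) ^ 2 := by positivity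
    rcases min_choice ‖a - b‖ B with h | h
    · rw [hm, h]
      refine b1.trans ?_
      have : 0 ≤ (1 + (n : ℝ) ^ 2) * ‖a - b‖ * (B ^ n)⁻¹ := by positivity
      linarith
    · rw [hm, h]
      refine b2.trans ?_
      refine mul_le_mul_of_nonneg_right ?_ hi.le
      nlinarith
  have hmi : m ≤ ‖a - b‖ ^ β * B ^ (1 - β) := by
    rcases hm0.eq_or_lt with h0 | h0
    · rw [← h0]
      positivity
    calc m = m ^ β * m ^ (1 - β) := by
          rw [← Real.rpow_add h0]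
          simp
      _ ≤ ‖a - b‖ ^ β * B ^ (1 - β) := by
          refine mul_le_mul ?_ ?_ (by positivity) (by positivity)
          · exact Real.rpow_le_rpow h0.le (min_le_left _ _) hβ
          · exact Real.rpow_le_rpow h0.le (min_le_right _ _) (by linarith)
  refine b3.trans ?_
  have e4 : B ^ (-((n : ℝ) - 1 + β)) = B ^ (1 - β) * (B ^ n)⁻¹ := by
    rw [← Real.rpow_natCast B n, ← Real.rpow_neg hB0.le, ← Real.rpow_add hB0]
    congr 1
    ring
  rw [e4]
  calc 2 * (1 + (n : ℝ) ^ 2) * m * (B ^ n)⁻¹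
      ≤ 2 * (1 + (n : ℝ) ^ 2) * (‖a - b‖ ^ β * B ^ (1 - β)) * (B ^ n)⁻¹ := by
        refine mul_le_mul_of_nonneg_right ?_ (by positivity)
        exact mul_le_mul_of_nonneg_left hmi (by positivity)
    _ = _ := by ring

/-- symmetric form -/
lemma KK_diff' {n : ℕ} (hn : 1 ≤ n) {s : ℝ} (hs : 0 < s) {β : ℝ} (hβ : 0 ≤ β) (hβ1 : β ≤ 1)
    (i : Fin n) (a b : E n) :
    |KK s i a - KK s i b| ≤ 2 * (1 + (n : ℝ) ^ 2) * ‖a - b‖ ^ β *
      (NN s a ^ (-((n : ℝ) - 1 + β)) + NN s b ^ (-((n : ℝ) - 1 + β))) := by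
  have hA : 0 < NN s a ^ (-((n : ℝ) - 1 + β)) := Real.rpow_pos_of_pos (NN_pos hs a) _
  have hB : 0 < NN s b ^ (-((n : ℝ) - 1 + β)) := Real.rpow_pos_of_pos (NN_pos hs b) _
  have hc : 0 ≤ 2 * (1 + (n : ℝ) ^ 2) * ‖a - b‖ ^ β := by positivity
  rcases le_total (NN s b) (NN s a) with h | h
  · refine (KK_diff hn hs hβ hβ1 i a b h).trans ?_
    refine mul_le_mul_of_nonneg_left ?_ hc
    linarith
  · rw [abs_sub_comm]
    refine (KK_diff hn hs hβ hβ1 i b a h).trans ?_
    rw [norm_sub_rev b a]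
    refine mul_le_mul_of_nonneg_left ?_ hc
    linarith

end Q61.KH
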