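import Pool.Agent.Q61.KH4

/-! The vector field: existence, Hoelder bound, divergence. -/

set_option autoImplicit false
open MeasureTheory Metric Set Filter Topology H248.ID
open scoped ENNReal NNReal ContDiff

namespace Q61.KH

lemma radial {n : ℕ} (hn : 1 ≤ n) {p : ℝ} (hp : p < n) : ∃ C : ℝ, 0 < C ∧ ∀ R : ℝ, 0 < R →
    Integrable (fun w : E n => (Iio R).indicator (fun r : ℝ => r ^ (-p)) ‖w‖) ∧
    ∫ w : E n, (Iio R).indicator (fun r : ℝ => r ^ (-p)) ‖w‖ ≤ C * R ^ ((n : ℝ) - p) := by
  have : Nontrivial (E n) := by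
    have : Nonempty (Fin n) := ⟨⟨0, hn⟩⟩
    infer_instance
  have hnp : 0 < (n : ℝ) - p := by linarith
  have hn0 : (0 : ℝ) < n := by exact_mod_cast hn
  have hb : 0 ≤ (volume : Measure (E n)).real (ball 0 1) := measureReal_nonneg
  refine ⟨n * (volume : Measure (E n)).real (ball 0 1) / ((n : ℝ) - p) + 1, by positivity, ?_⟩
  intro R hR
  have hfr : Module.finrank ℝ (E n) = n := by simp
  have e1 : ∀ y ∈ Ioi (0 : ℝ), y ^ (n - 1) • (Iio R).indicator (fun r : ℝ => r ^ (-p)) y
      = (Ioo 0 R).indicator (fun r : ℝ => r ^ ((n : ℝ) - 1 - p)) y := by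
    intro y hy
    have hy' : 0 < y := hy
    by_cases h : y < R
    · rw [indicator_of_mem (show y ∈ Iio R from h), indicator_of_mem (show y ∈ Ioo 0 R from ⟨hy', h⟩),
        smul_eq_mul, ← Real.rpow_natCast, ← Real.rpow_add hy', Nat.cast_sub hn, Nat.cast_one]
      congr 1
    · rw [indicator_of_notMem (show y ∉ Iio R from h), indicator_of_notMem (fun h' => h h'.2),
        smul_zero]
  have hii : IntervalIntegrable (fun r : ℝ => r ^ ((n : ℝ) - 1 - p)) volume 0 R :=
    intervalIntegral.intervalIntegrable_rpow' (by linarith)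
  have hio : IntegrableOn (fun r : ℝ => r ^ ((n : ℝ) - 1 - p)) (Ioo 0 R) :=
    ((intervalIntegrable_iff_integrableOn_Ioo_of_le hR.le).mp hii)
  constructor
  · rw [integrable_fun_norm_addHaar volume (f := (Iio R).indicator (fun r : ℝ => r ^ (-p))), hfr,
      integrableOn_congr_fun e1 measurableSet_Ioi]
    exact ((integrable_indicator_iff measurableSet_Ioo).mpr hio).integrableOn
  · rw [integral_fun_norm_addHaar volume ((Iio R).indicator (fun r : ℝ => r ^ (-p))), hfr,
      setIntegral_congr_fun measurableSet_Ioi e1]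
    have e2 : ∫ y in Ioi (0 : ℝ), (Ioo 0 R).indicator (fun r : ℝ => r ^ ((n : ℝ) - 1 - p)) y
        = R ^ ((n : ℝ) - p) / ((n : ℝ) - p) := by
      rw [setIntegral_indicator measurableSet_Ioo]
      have : Ioi (0 : ℝ) ∩ Ioo 0 R = Ioo 0 R := by
        ext x
        simp only [mem_inter_iff, mem_Ioi, mem_Ioo]
        tauto
      rw [this, ← integral_Ioc_eq_integral_Ioo, ← intervalIntegral.integral_of_le hR.le,
        integral_rpow (Or.inl (by linarith)), Real.zero_rpow (by linarith), sub_zero]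
      have e3 : (n : ℝ) - 1 - p + 1 = n - p := by ring
      rw [e3]
    rw [e2, nsmul_eq_mul, smul_eq_mul]
    have : 0 ≤ R ^ ((n : ℝ) - p) := by positivity
    calc (n : ℝ) * ((volume : Measure (E n)).real (ball 0 1) * (R ^ ((n : ℝ) - p) / ((n : ℝ) - p)))
        = n * (volume : Measure (E n)).real (ball 0 1) / ((n : ℝ) - p) * R ^ ((n : ℝ) - p) := by
          ring
      _ ≤ _ := by linarith

lemma gK_integrable {n : ℕ} {g K : E n → ℝ} (hg : Continuous g) (hc : HasCompactSupport g)
    (hK : Continuous K) (y : E n) : Integrable (fun z => g z * K (y - z)) :=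
  (hg.mul (hK.comp (by fun_prop))).integrable_of_hasCompactSupport hc.mul_right

lemma mass_bound {n : ℕ} (hn : 1 ≤ n) {p : ℝ} (hp0 : 0 < p) (hp : p < n) :
    ∃ C : ℝ, 0 < C ∧ ∀ {g : E n → ℝ}, Continuous g → HasCompactSupport g → (∀ x, 0 ≤ g x) →
    (∀ x, g x ≤ 1) → ∀ {μ : ℝ}, 0 < μ → ∫ x, g x ≤ μ → ∀ {s : ℝ}, 0 < s → ∀ y : E n,
    ∫ z, g z * NN s (y - z) ^ (-p) ≤ C * μ ^ (((n : ℝ) - p) / n) := by
  obtain ⟨C, hC, hrad⟩ := radial hn hp
  have hn0 : (0 : ℝ) < n := by exact_mod_cast hn
  refine ⟨C + 1, by positivity, ?_⟩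
  intro g hg hc h0 h1 μ hμ hgμ s hs y
  set R : ℝ := μ ^ (1 / (n : ℝ)) with hR
  have hR0 : 0 < R := Real.rpow_pos_of_pos hμ _
  obtain ⟨hi, hle⟩ := hrad R hR0
  have hi' : Integrable (fun z : E n => (Iio R).indicator (fun r : ℝ => r ^ (-p)) ‖y - z‖) :=
    hi.comp_sub_left y
  have hle' : ∫ z : E n, (Iio R).indicator (fun r : ℝ => r ^ (-p)) ‖y - z‖ ≤
      C * R ^ ((n : ℝ) - p) := by
    rw [integral_sub_left_eq_self (fun w : E n => (Iio R).indicator (fun r : ℝ => r ^ (-p)) ‖w‖)
      volume y]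
    exact hle
  have hgi : Integrable g := hg.integrable_of_hasCompactSupport hc
  have hNc : Continuous (fun w : E n => NN s w ^ (-p)) := by
    refine (NN_smooth hs).continuous.rpow_const fun w => Or.inl (NN_pos hs w).ne'
  have hne : ∀ᵐ z : E n, z ≠ y := by
    have : Nontrivial (E n) := by
      have : Nonempty (Fin n) := ⟨⟨0, hn⟩⟩
      infer_instance
    rw [ae_iff]
    simp
  calc ∫ z, g z * NN s (y - z) ^ (-p)
      ≤ ∫ z, ((Iio R).indicator (fun r : ℝ => r ^ (-p)) ‖y - z‖ + R ^ (-p) * g z) := by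
        refine integral_mono_ae (gK_integrable hg hc hNc y) (hi'.add (hgi.const_mul _)) ?_
        filter_upwards [hne] with z hz
        have hpos : 0 < ‖y - z‖ := norm_pos_iff.mpr (sub_ne_zero.mpr (Ne.symm hz))
        have hN := NN_pos hs (y - z)
        have hNn := norm_le_NN hs (y - z)
        by_cases h : ‖y - z‖ < R
        · rw [indicator_of_mem (show ‖y - z‖ ∈ Iio R from h)]
          have a1 : NN s (y - z) ^ (-p) ≤ ‖y - z‖ ^ (-p) :=
            Real.rpow_le_rpow_of_nonpos hpos hNn (by linarith)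
          have a2 : 0 ≤ NN s (y - z) ^ (-p) := by positivity
          have a3 : 0 ≤ R ^ (-p) * g z := mul_nonneg (by positivity) (h0 z)
          have a4 : g z * NN s (y - z) ^ (-p) ≤ 1 * NN s (y - z) ^ (-p) :=
            mul_le_mul_of_nonneg_right (h1 z) a2
          linarith
        · rw [indicator_of_notMem (show ‖y - z‖ ∉ Iio R from h), zero_add, mul_comm]
          push Not at h
          refine mul_le_mul_of_nonneg_right ?_ (h0 z)
          exact Real.rpow_le_rpow_of_nonpos hR0 (h.trans hNn) (by linarith)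
    _ = (∫ z : E n, (Iio R).indicator (fun r : ℝ => r ^ (-p)) ‖y - z‖) + R ^ (-p) * ∫ z, g z := by
        rw [integral_add hi' (hgi.const_mul _), integral_const_mul]
    _ ≤ C * R ^ ((n : ℝ) - p) + R ^ (-p) * μ :=
        add_le_add hle' (mul_le_mul_of_nonneg_left hgμ (by positivity))
    _ = (C + 1) * μ ^ (((n : ℝ) - p) / n) := by
        have e1 : R ^ ((n : ℝ) - p) = μ ^ (((n : ℝ) - p) / n) := by
          rw [hR, ← Real.rpow_mul hμ.le]
          congr 1
          field_simp
        have e2 : R ^ (-p) * μ = μ ^ (((n : ℝ) - p) / n) := by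
          rw [hR, ← Real.rpow_mul hμ.le]
          nth_rewrite 2 [← Real.rpow_one μ]
          rw [← Real.rpow_add hμ]
          congr 1
          field_simp
          ring
        rw [e1, e2]
        ring

/-- the vector field -/
noncomputable def VV {n : ℕ} (g : E n → ℝ) (s : ℝ) (i : Fin n) (y : E n) : ℝ :=
  ∫ z, g z * KK s i (y - z)

lemma VV_smooth {n : ℕ} {g : E n → ℝ} (hg : ContDiff ℝ ∞ g) (hc : HasCompactSupport g) {s : ℝ}
    (hs : 0 < s) (i : Fin n) : ContDiff ℝ ∞ (VV g s i) :=
  hc.contDiff_convolution_left (n := ⊤) (ContinuousLinearMap.mul ℝ ℝ) hg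
    (KK_smooth hs i).continuous.locallyIntegrable

lemma pd_VV {n : ℕ} {g : E n → ℝ} (hg : ContDiff ℝ ∞ g) (hc : HasCompactSupport g) {s : ℝ}
    (hs : 0 < s) (i : Fin n) (y : E n) :
    pd (VV g s i) i y = ∫ z, g z * pd (KK s i) i (y - z) := by
  have hKs := KK_smooth (n := n) hs i
  have h1 := hc.hasFDerivAt_convolution_left (ContinuousLinearMap.mul ℝ ℝ) (hg.of_le (by simp))
    (hKs.continuous.locallyIntegrable (μ := volume)) y
  have h2 : fderiv ℝ (VV g s i) y = _ := h1.fderiv
  have h3 : pd (VV g s i) i y = ∫ z, pd g i z * KK s i (y - z) := by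
    unfold pd
    rw [h2, convolution_def]
    rw [ContinuousLinearMap.integral_apply]
    · rfl
    · have hcf : HasCompactSupport (fderiv ℝ g) := hc.fderiv ℝ
      have hcont : Continuous (fun z => ((ContinuousLinearMap.mul ℝ ℝ).precompL (E n))
          (fderiv ℝ g z) (KK s i (y - z))) := by
        have a1 : Continuous (fderiv ℝ g) := hg.continuous_fderiv (by simp)
        have a2 : Continuous (fun z => KK s i (y - z)) := hKs.continuous.comp (by fun_prop)
        exact (((ContinuousLinearMap.mul ℝ ℝ).precompL (E n)).continuous.comp a1).clm_apply a2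
      refine hcont.integrable_of_hasCompactSupport (hcf.mono' ?_)
      intro z hz
      apply subset_tsupport
      rw [Function.mem_support] at hz ⊢
      intro h0
      apply hz
      rw [h0]
      simp
  rw [h3]
  -- integration by parts
  have hK2 : ContDiff ℝ ∞ (fun z : E n => KK s i (y - z)) :=
    hKs.comp (contDiff_const.sub contDiff_id)
  have hpdK : ∀ z, pd (fun z : E n => KK s i (y - z)) i z = - pd (KK s i) i (y - z) := by
    intro z
    unfold pd
    have a1 : HasFDerivAt (fun z : E n => KK s i (y - z))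
        ((fderiv ℝ (KK s i) (y - z)).comp (-(ContinuousLinearMap.id ℝ (E n)))) z := by
      have a2 : HasFDerivAt (fun z : E n => y - z) (-(ContinuousLinearMap.id ℝ (E n))) z :=
        (hasFDerivAt_id z).const_sub y
      exact ((hKs.differentiable (by simp) (y - z)).hasFDerivAt).comp z a2
    rw [a1.fderiv]
    simp
  have i1 : Integrable (fun z => pd g i z * KK s i (y - z)) :=
    ((J01.pd_contDiff hg i).continuous.mul hK2.continuous).integrable_of_hasCompactSupport
      (J01.pd_supp hc i).mul_right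
  have i2 : Integrable (fun z => g z * pd (fun z : E n => KK s i (y - z)) i z) :=
    (hg.continuous.mul (J01.pd_contDiff hK2 i).continuous).integrable_of_hasCompactSupport
      hc.mul_right
  have i3 : Integrable (fun z => g z * KK s i (y - z)) :=
    (hg.continuous.mul hK2.continuous).integrable_of_hasCompactSupport hc.mul_right
  have h4 := integral_mul_fderiv_eq_neg_fderiv_mul_of_integrable (μ := volume)
      (v := (Pi.single i (1 : ℝ) : E n)) i1 i2 i3
      (fun x _ => hg.differentiable (by simp) x)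
      (fun x _ => hK2.differentiable (by simp) x)
  have h5 : ∫ z, g z * pd (fun z : E n => KK s i (y - z)) i z
      = - ∫ z, pd g i z * KK s i (y - z) := h4
  have h6 : ∫ z, g z * pd (fun z : E n => KK s i (y - z)) i z
      = - ∫ z, g z * pd (KK s i) i (y - z) := by
    rw [← integral_neg]
    congr 1
    funext z
    rw [hpdK]
    ring
  linarith

lemma div_VV {n : ℕ} {g : E n → ℝ} (hg : ContDiff ℝ ∞ g) (hc : HasCompactSupport g) {s : ℝ}
    (hs : 0 < s) (y : E n) :
    ∑ i, pd (VV g s i) i y = ∫ v, g (y - s • v) * PP 1 v := by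
  have hi : ∀ i, Integrable (fun z => g z * pd (KK s i) i (y - z)) := fun i =>
    gK_integrable hg.continuous hc (J01.pd_contDiff (KK_smooth hs i) i).continuous y
  simp only [pd_VV hg hc hs]
  rw [← integral_finsetSum _ (fun i _ => hi i)]
  simp only [← Finset.mul_sum, sum_pd_KK hs]
  rw [← integral_sub_left_eq_self (fun z => g z * PP s (y - z)) volume y]
  simp only [sub_sub_cancel]
  have h1 := Measure.integral_comp_smul volume (fun w : E n => g (y - w) * PP s w) s
  simp only [PP_smul hs] at h1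
  have h2 : ∫ v, g (y - s • v) * ((s ^ n)⁻¹ * PP 1 v) = (s ^ n)⁻¹ * ∫ v, g (y - s • v) * PP 1 v := by
    rw [← integral_const_mul]
    congr 1
    funext v
    ring
  rw [h2] at h1
  have h3 : |(s ^ Module.finrank ℝ (E n))⁻¹| = (s ^ n)⁻¹ := by
    rw [Module.finrank_fintype_fun_eq_card, Fintype.card_fin, abs_of_pos (by positivity)]
  rw [h3, smul_eq_mul] at h1
  have h4 : (0 : ℝ) < (s ^ n)⁻¹ := by positivity
  exact (mul_left_cancel₀ h4.ne' h1).symm

lemma VV_hold {n : ℕ} (hn : 1 ≤ n) {β : ℝ} (hβ : 0 < β) (hβ1 : β < 1) :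
    ∃ C : ℝ, 0 < C ∧ ∀ {g : E n → ℝ}, Continuous g → HasCompactSupport g → (∀ x, 0 ≤ g x) →
    (∀ x, g x ≤ 1) → ∀ {μ : ℝ}, 0 < μ → ∫ x, g x ≤ μ → ∀ {s : ℝ}, 0 < s → ∀ (i : Fin n) (x y : E n),
    |VV g s i x - VV g s i y| ≤ (C * μ ^ ((1 - β) / n)) * ‖x - y‖ ^ β := by
  have hn1 : (1 : ℝ) ≤ n := by exact_mod_cast hn
  obtain ⟨C, hC, hmass⟩ := mass_bound hn (p := (n : ℝ) - 1 + β) (by linarith) (by linarith)
  refine ⟨4 * (1 + (n : ℝ) ^ 2) * C, by positivity, ?_⟩
  intro g hg hc h0 h1 μ hμ hgμ s hs i x y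
  have hKc : Continuous (KK (n := n) s i) := (KK_smooth hs i).continuous
  have hNc : Continuous (fun w : E n => NN s w ^ (-((n : ℝ) - 1 + β))) :=
    (NN_smooth hs).continuous.rpow_const fun w => Or.inl (NN_pos hs w).ne'
  have hint : ∀ y, Integrable (fun z => g z * NN s (y - z) ^ (-((n : ℝ) - 1 + β))) :=
    gK_integrable hg hc hNc
  have e0 : ((n : ℝ) - ((n : ℝ) - 1 + β)) / n = (1 - β) / n := by ring
  have hm1 := hmass hg hc h0 h1 hμ hgμ hs x
  have hm2 := hmass hg hc h0 h1 hμ hgμ hs y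
  rw [e0] at hm1 hm2
  unfold VV
  rw [← integral_sub (gK_integrable hg hc hKc x) (gK_integrable hg hc hKc y)]
  set D := 2 * (1 + (n : ℝ) ^ 2) * ‖x - y‖ ^ β with hD
  have hD0 : 0 ≤ D := by positivity
  calc |∫ z, (g z * KK s i (x - z) - g z * KK s i (y - z))|
      ≤ ∫ z, D * (g z * NN s (x - z) ^ (-((n : ℝ) - 1 + β))
          + g z * NN s (y - z) ^ (-((n : ℝ) - 1 + β))) := by
        rw [← Real.norm_eq_abs]
        refine norm_integral_le_of_norm_le (((hint x).add (hint y)).const_mul D) ?_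
        refine Filter.Eventually.of_forall fun z => ?_
        rw [← mul_sub, norm_mul, Real.norm_of_nonneg (h0 z), Real.norm_eq_abs]
        have h2 := KK_diff' hn hs hβ.le hβ1.le i (x - z) (y - z)
        rw [sub_sub_sub_cancel_right] at h2
        calc g z * |KK s i (x - z) - KK s i (y - z)|
            ≤ g z * (D * (NN s (x - z) ^ (-((n : ℝ) - 1 + β))
              + NN s (y - z) ^ (-((n : ℝ) - 1 + β)))) := mul_le_mul_of_nonneg_left h2 (h0 z)
          _ = _ := by ring
    _ = D * ((∫ z, g z * NN s (x - z) ^ (-((n : ℝ) - 1 + β)))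
          + ∫ z, g z * NN s (y - z) ^ (-((n : ℝ) - 1 + β))) := by
        rw [integral_const_mul, integral_add (hint x) (hint y)]
    _ ≤ D * (C * μ ^ ((1 - β) / n) + C * μ ^ ((1 - β) / n)) :=
        mul_le_mul_of_nonneg_left (add_le_add hm1 hm2) hD0
    _ = _ := by rw [hD]; ring

end Q61.KH
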