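import Pool.Agent.Q61.KH5

/-! The mass of the Jacobian of a mollified Hoelder map is controlled by the measure of the image. -/

set_option autoImplicit false
open MeasureTheory Metric Set Filter Topology H248.ID
open scoped ENNReal NNReal ContDiff Manifold

namespace Q61.KH

lemma mv_hold {n : ℕ} {ε : ℝ} (hε : 0 < ε) {f : E n → E n} {H α : ℝ} (hα : 0 < α) (hH : 0 ≤ H)
    (h : ∀ x y, ‖f x - f y‖ ≤ H * ‖x - y‖ ^ α) (x y : E n) :
    ‖mv ε f x - mv ε f y‖ ≤ H * ‖x - y‖ ^ α := by
  rw [pi_norm_le_iff_of_nonneg (by positivity)]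
  intro l
  exact moll_hold hε ((continuous_apply l).comp (hold_cont hα h)) (comp_hold h l) x y

lemma mv_sub {n : ℕ} {ε : ℝ} (hε : 0 < ε) {f : E n → E n} {H α : ℝ} (hα : 0 < α) (hH : 0 ≤ H)
    (h : ∀ x y, ‖f x - f y‖ ≤ H * ‖x - y‖ ^ α) (x : E n) :
    ‖mv ε f x - f x‖ ≤ H * ε ^ α := by
  rw [pi_norm_le_iff_of_nonneg (by positivity)]
  intro l
  exact moll_sub hε ((continuous_apply l).comp (hold_cont hα h)) hα.le hH (comp_hold h l) x

lemma G_lim {n : ℕ} {g : E n → ℝ} (hg : Continuous g) (h0 : ∀ x, 0 ≤ g x) (h1 : ∀ x, g x ≤ 1)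
    (y : E n) :
    Tendsto (fun s : ℝ => ∫ v, g (y - s • v) * PP 1 v) (𝓝[>] 0) (𝓝 (∫ v : E n, g y * PP 1 v)) := by
  refine tendsto_integral_filter_of_dominated_convergence (fun v : E n => PP 1 v) ?_ ?_
    PP_integrable ?_
  · refine Filter.Eventually.of_forall fun s => ?_
    exact ((hg.comp (by fun_prop)).mul (PP_cont one_pos)).aestronglyMeasurable
  · refine Filter.Eventually.of_forall fun s => Filter.Eventually.of_forall fun v => ?_
    rw [norm_mul, Real.norm_of_nonneg (h0 _), Real.norm_of_nonneg (PP_nonneg one_pos v)]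
    calc g (y - s • v) * PP 1 v ≤ 1 * PP 1 v :=
          mul_le_mul_of_nonneg_right (h1 _) (PP_nonneg one_pos v)
      _ = PP 1 v := one_mul _
  · refine Filter.Eventually.of_forall fun v => ?_
    have hc : Continuous (fun s : ℝ => g (y - s • v) * PP 1 v) := by
      exact (hg.comp (by fun_prop)).mul continuous_const
    have := (hc.tendsto 0).mono_left (nhdsWithin_le_nhds (s := Ioi (0 : ℝ)))
    simpa using this

lemma exists_cutoff {n : ℕ} {A U : Set (E n)} (hA : IsCompact A) (hU : IsOpen U) (hAU : A ⊆ U) :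
    ∃ g : E n → ℝ, ContDiff ℝ ∞ g ∧ HasCompactSupport g ∧ (∀ x, 0 ≤ g x) ∧ (∀ x, g x ≤ 1) ∧
      (∀ x, x ∉ U → g x = 0) ∧ ∃ δ : ℝ, 0 < δ ∧ ∀ x ∈ A, ∀ y, ‖y - x‖ < δ → g y = 1 := by
  obtain ⟨L, hL, hKL, hLO⟩ := exists_compact_between hA hU hAU
  obtain ⟨χ, h1, h2, h3⟩ := exists_contMDiffMap_one_nhds_of_subset_interior (n := (⊤ : ℕ∞))
    (modelWithCornersSelf ℝ (E n)) hA.isClosed hKL
  refine ⟨χ, χ.contMDiff.contDiff, ?_, fun x => (h3 x).1, fun x => (h3 x).2, ?_, ?_⟩
  · exact HasCompactSupport.intro hL fun x hx => h2 x hx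
  · intro x hx
    exact h2 x fun h => hx (hLO h)
  · obtain ⟨W, hW, hAW, hW1⟩ := mem_nhdsSet_iff_exists.mp h1
    obtain ⟨δ, hδ, hδW⟩ := hA.exists_thickening_subset_open hW hAW
    refine ⟨δ, hδ, fun x hx y hy => ?_⟩
    apply hW1
    apply hδW
    rw [mem_thickening_iff]
    exact ⟨x, hx, by rwa [dist_eq_norm]⟩

/-- the identity for one smooth map -/
lemma div_identity {n : ℕ} {f : E n → E n} (hf : ContDiff ℝ ∞ f) {η : E n → ℝ}
    (hη : ContDiff ℝ ∞ η) (hc : HasCompactSupport η) {g : E n → ℝ} (hg : ContDiff ℝ ∞ g)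
    (hgc : HasCompactSupport g) {s : ℝ} (hs : 0 < s) :
    ∫ x, η x * (∫ v, g (f x - s • v) * PP 1 v) * (jac f x).det
      = - ∑ i, TT (fun x => VV g s i (f x)) f i η := by
  have hV : ∀ i, ContDiff ℝ ∞ (VV g s i) := fun i => VV_smooth hg hgc hs i
  have hdc : Continuous (fun x => (jac f x).det) := (J02.aux_cont_jac hf).matrix_det
  have e1 : ∀ i, ∫ x, η x * pd (VV g s i) i (f x) * (jac f x).det
      = - TT (fun x => VV g s i (f x)) f i η := by
    intro i
    rw [J02.ibp_smooth hf hη hc (hV i) i]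
    unfold TT rd
    congr 1
    congr 1
    funext x
    rw [J02.aux_det]
  rw [← Finset.sum_neg_distrib]
  simp only [← e1]
  rw [← integral_finsetSum]
  · congr 1
    funext x
    rw [← div_VV hg hgc hs, Finset.mul_sum, Finset.sum_mul]
  · intro i _
    exact ((hη.continuous.mul ((J02.aux_cont_pd (hV i) i).comp hf.continuous)).mul
      hdc).integrable_of_hasCompactSupport (hc.mul_right.mul_right)

/-- **Proposition A** -/
theorem propA {n : ℕ} (hn : 1 ≤ n) {α : ℝ} (hα : ((n : ℝ) - 1) / n < α) (hα1 : α ≤ 1)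
    {η : E n → ℝ} (hη : ContDiff ℝ ∞ η) (hc : HasCompactSupport η) :
    ∃ C κ N : ℝ, 0 < C ∧ 0 < κ ∧ 0 < N ∧ ∀ {H : ℝ}, 0 ≤ H → ∀ {f0 : E n → E n},
      (∀ x y, ‖f0 x - f0 y‖ ≤ H * ‖x - y‖ ^ α) → ∀ {U : Set (E n)}, IsOpen U →
      (∀ x ∈ tsupport η, f0 x ∈ U) → ∀ {μ : ℝ}, 0 < μ → volume U ≤ ENNReal.ofReal μ →
      ∀ᶠ K : ℕ in atTop,
        |∫ x, η x * (jac (mv ((1 / 2) ^ K) f0) x).det| ≤ C * H ^ N * μ ^ κ := by
  have hn1 : (1 : ℝ) ≤ n := by exact_mod_cast hn
  have hn0 : (0 : ℝ) < n := by linarith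
  have hα0 : 0 < α := lt_of_le_of_lt (div_nonneg (by linarith) hn0.le) hα
  have hα2 : (n : ℝ) - 1 < α * n := by rwa [div_lt_iff₀ hn0] at hα
  -- the exponent
  set s0 : ℝ := ((n : ℝ) - 1) * (1 - α) / α with hs0
  have hs00 : 0 ≤ s0 := div_nonneg (mul_nonneg (by linarith) (by linarith)) hα0.le
  have hs01 : s0 < 1 := by
    rw [hs0, div_lt_one hα0]
    nlinarith
  set β : ℝ := (1 + s0) / 2 with hβ
  have hβ0 : 0 < β := by rw [hβ]; linarith
  have hβ1 : β < 1 := by rw [hβ]; linarith
  have hβs : s0 < β := by rw [hβ]; linarith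
  have hγ0 : 0 < α * β := by positivity
  have hγ1 : α * β ≤ 1 := by nlinarith
  have hθ : 0 < α * β + ((n : ℝ) - 1) * (α - 1) := by
    have h1 : α * s0 < α * β := mul_lt_mul_of_pos_left hβs hα0
    have h2 : α * s0 = ((n : ℝ) - 1) * (1 - α) := by
      rw [hs0]
      field_simp
    nlinarith
  obtain ⟨CV, hCV, hV⟩ := VV_hold hn hβ0 hβ1
  have hHB := fun j => HB hα0 hα1 hγ0 hγ1 hθ hη hc j
  choose CB hCB hBB using hHB
  set om : ℝ := ∫ v : E n, PP 1 v with hom
  have hom0 : 0 < om := PP_mass hn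
  have hsum : 0 ≤ ∑ j, CB j := Finset.sum_nonneg fun j _ => (hCB j).le
  refine ⟨(∑ j, CB j) * CV / om + 1, (1 - β) / n, β + ((n : ℝ) - 1), by positivity,
    div_pos (by linarith) hn0, by linarith, ?_⟩
  intro H hH f0 hf0 U hU hUf μ hμ hμU
  have hfc : Continuous f0 := hold_cont hα0 hf0
  -- the cut-off
  obtain ⟨g, hg, hgc, hg0, hg1, hgU, δ, hδ, hgδ⟩ := exists_cutoff (A := f0 '' tsupport η)
    (hc.isCompact.image hfc) hU (by
      rintro _ ⟨x, hx, rfl⟩
      exact hUf x hx)
  have hgi : Integrable g := hg.continuous.integrable_of_hasCompactSupport hgc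
  have hgμ : ∫ x, g x ≤ μ := by
    have hUf : volume U ≠ ⊤ := ne_top_of_le_ne_top ENNReal.ofReal_ne_top hμU
    calc ∫ x, g x ≤ ∫ x, U.indicator (fun _ => (1 : ℝ)) x := by
          refine integral_mono hgi ((integrable_indicator_iff hU.measurableSet).mpr
            (integrableOn_const hUf)) ?_
          intro x
          by_cases hx : x ∈ U
          · simpa [hx] using hg1 x
          · simp [hx, hgU x hx]
      _ = volume.real U := by
          rw [integral_indicator hU.measurableSet, setIntegral_const, smul_eq_mul, mul_one]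
      _ ≤ μ := by
          rw [measureReal_def]
          exact ENNReal.toReal_le_of_le_ofReal hμ.le hμU
  -- large K
  have hKlim : Tendsto (fun K : ℕ => H * (((1 : ℝ) / 2) ^ K) ^ α) atTop (𝓝 0) := by
    have h1 : Tendsto (fun K : ℕ => ((1 : ℝ) / 2) ^ K) atTop (𝓝 0) :=
      tendsto_pow_atTop_nhds_zero_of_lt_one (by norm_num) (by norm_num)
    have h2 := (h1.rpow_const (p := α) (Or.inr hα0.le)).const_mul H
    simpa [Real.zero_rpow hα0.ne'] using h2
  filter_upwards [hKlim.eventually (gt_mem_nhds hδ)] with K hK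
  have heK : (0 : ℝ) < (1 / 2) ^ K := by positivity
  set f := mv ((1 / 2) ^ K) f0 with hf
  have hfs : ContDiff ℝ ∞ f := mv_smooth heK hfc
  have hfh : ∀ x y, ‖f x - f y‖ ≤ H * ‖x - y‖ ^ α := mv_hold heK hα0 hH hf0
  have hgf : ∀ x ∈ tsupport η, g (f x) = 1 := by
    intro x hx
    exact hgδ (f0 x) ⟨x, hx, rfl⟩ (f x) ((mv_sub heK hα0 hH hf0 x).trans_lt hK)
  -- the bound for every s
  have hb : ∀ s : ℝ, 0 < s →
      |∫ x, η x * (∫ v, g (f x - s • v) * PP 1 v) * (jac f x).det| ≤
        (∑ j, CB j) * CV * H ^ (β + ((n : ℝ) - 1)) * μ ^ ((1 - β) / n) := by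
    intro s hs
    rw [div_identity hfs hη hc hg hgc hs, abs_neg]
    calc |∑ i, TT (fun x => VV g s i (f x)) f i η|
        ≤ ∑ i, |TT (fun x => VV g s i (f x)) f i η| := Finset.abs_sum_le_sum_abs _ _
      _ ≤ ∑ i, CB i * (CV * μ ^ ((1 - β) / n) * H ^ β) * H ^ (n - 1) := by
          refine Finset.sum_le_sum fun i _ => ?_
          refine hBB i hH (by positivity) hf0 ?_ K
          intro x y
          refine (hV hg.continuous hgc hg0 hg1 hμ hgμ hs i (f x) (f y)).trans ?_
          calc CV * μ ^ ((1 - β) / n) * ‖f x - f y‖ ^ β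
              ≤ CV * μ ^ ((1 - β) / n) * (H * ‖x - y‖ ^ α) ^ β := by
                refine mul_le_mul_of_nonneg_left ?_ (by positivity)
                exact Real.rpow_le_rpow (norm_nonneg _) (hfh x y) hβ0.le
            _ = CV * μ ^ ((1 - β) / n) * H ^ β * ‖x - y‖ ^ (α * β) := by
                rw [Real.mul_rpow hH (by positivity), ← Real.rpow_mul (norm_nonneg _)]
                ring
      _ = _ := by
          rw [← Finset.sum_mul, ← Finset.sum_mul]
          have : H ^ (β + ((n : ℝ) - 1)) = H ^ β * H ^ (n - 1) := by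
            have h1 : ((n : ℝ) - 1) = ((n - 1 : ℕ) : ℝ) := by
              rw [Nat.cast_sub hn, Nat.cast_one]
            rw [h1, ← Real.rpow_natCast H, Real.rpow_add_of_nonneg hH hβ0.le (by positivity)]
          rw [this]
          ring
  -- the limit
  have hdc : Continuous (fun x => (jac f x).det) := (J02.aux_cont_jac hfs).matrix_det
  have hlim : Tendsto (fun s : ℝ => ∫ x, η x * (∫ v, g (f x - s • v) * PP 1 v) * (jac f x).det)
      (𝓝[>] 0) (𝓝 (∫ x, η x * om * (jac f x).det)) := by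
    refine tendsto_integral_filter_of_dominated_convergence
      (fun x => |η x| * om * |(jac f x).det|) ?_ ?_ ?_ ?_
    · filter_upwards [self_mem_nhdsWithin] with s hs
      have hs' : 0 < s := hs
      have e : (fun x => η x * (∫ v, g (f x - s • v) * PP 1 v) * (jac f x).det)
          = fun x => η x * (∑ i, pd (VV g s i) i (f x)) * (jac f x).det := by
        funext x
        rw [div_VV hg hgc hs']
      rw [e]
      refine Continuous.aestronglyMeasurable ?_
      refine (hη.continuous.mul (continuous_finsetSum _ fun i _ => ?_)).mul hdc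
      exact (J02.aux_cont_pd (VV_smooth hg hgc hs' i) i).comp hfs.continuous
    · refine Filter.Eventually.of_forall fun s => Filter.Eventually.of_forall fun x => ?_
      rw [norm_mul, norm_mul, Real.norm_eq_abs, Real.norm_eq_abs, Real.norm_eq_abs]
      refine mul_le_mul_of_nonneg_right ?_ (abs_nonneg _)
      refine mul_le_mul_of_nonneg_left ?_ (abs_nonneg _)
      rw [← Real.norm_eq_abs]
      refine norm_integral_le_of_norm_le PP_integrable ?_
      refine Filter.Eventually.of_forall fun v => ?_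
      rw [norm_mul, Real.norm_of_nonneg (hg0 _), Real.norm_of_nonneg (PP_nonneg one_pos v)]
      calc g (f x - s • v) * PP 1 v ≤ 1 * PP 1 v :=
            mul_le_mul_of_nonneg_right (hg1 _) (PP_nonneg one_pos v)
        _ = PP 1 v := one_mul _
    · refine Continuous.integrable_of_hasCompactSupport ?_ ?_
      · exact ((hη.continuous.abs.mul continuous_const).mul hdc.abs)
      · refine HasCompactSupport.mono hc ?_
        intro x hx
        rw [Function.mem_support] at hx ⊢
        intro h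
        apply hx
        rw [h]
        simp
    · refine Filter.Eventually.of_forall fun x => ?_
      by_cases hx : x ∈ tsupport η
      · have h1 := G_lim hg.continuous hg0 hg1 (f x)
        have h2 : ∫ v : E n, g (f x) * PP 1 v = om := by
          rw [hgf x hx]
          simp [hom]
        rw [h2] at h1
        exact (h1.const_mul _).mul_const _
      · have : η x = 0 := image_eq_zero_of_notMem_tsupport hx
        simp [this]
  have h1 := le_of_tendsto hlim.abs (by
    filter_upwards [self_mem_nhdsWithin] with s hs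
    exact hb s hs)
  have h2 : ∫ x, η x * om * (jac f x).det = om * ∫ x, η x * (jac f x).det := by
    rw [← integral_const_mul]
    congr 1
    funext x
    ring
  rw [h2, abs_mul, abs_of_pos hom0] at h1
  have h3 : |∫ x, η x * (jac f x).det| ≤
      (∑ j, CB j) * CV * H ^ (β + ((n : ℝ) - 1)) * μ ^ ((1 - β) / n) / om := by
    rw [le_div_iff₀ hom0]
    linarith
  refine h3.trans ?_
  have h4 : 0 ≤ H ^ (β + ((n : ℝ) - 1)) * μ ^ ((1 - β) / n) := by positivity
  calc (∑ j, CB j) * CV * H ^ (β + ((n : ℝ) - 1)) * μ ^ ((1 - β) / n) / om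
      = (∑ j, CB j) * CV / om * (H ^ (β + ((n : ℝ) - 1)) * μ ^ ((1 - β) / n)) := by ring
    _ ≤ ((∑ j, CB j) * CV / om + 1) * (H ^ (β + ((n : ℝ) - 1)) * μ ^ ((1 - β) / n)) := by
        nlinarith
    _ = _ := by ring

end Q61.KH
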