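import Pool.Agent.Q61.KH6

/-! Finite differences in the height: some slice is large. -/

set_option autoImplicit false
open MeasureTheory Metric Set Filter Topology H248.ID
open scoped ENNReal NNReal ContDiff

namespace Q61.KH

lemma fd {n : ℕ} (M : Matrix (Fin n) (Fin n) ℝ) (t h : ℝ) (hh : h ≠ 0) :
    ∑ k ∈ Finset.range (n + 1), (((-1 : ℤ) ^ (n - k) * n.choose k : ℤ) : ℝ) *
      (M + (t + k * h) • (1 : Matrix (Fin n) (Fin n) ℝ)).det = n.factorial * h ^ n := by
  set q : Polynomial ℝ := Polynomial.C t + Polynomial.C h * Polynomial.X with hq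
  set P : Polynomial ℝ := (-M).charpoly.comp q with hP
  have hq1 : q.natDegree = 1 := by
    rw [hq, add_comm]
    exact Polynomial.natDegree_linear hh
  have hq2 : q.leadingCoeff = h := by
    rw [hq, add_comm]
    exact Polynomial.leadingCoeff_linear hh
  have hdeg : P.natDegree = n := by
    rw [hP, Polynomial.natDegree_comp, hq1, Matrix.charpoly_natDegree_eq_dim, Fintype.card_fin,
      mul_one]
  have hlead : P.leadingCoeff = h ^ n := by
    rw [hP, Polynomial.leadingCoeff_comp (by rw [hq1]; norm_num), hq2,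
      (Matrix.charpoly_monic (-M)).leadingCoeff, Matrix.charpoly_natDegree_eq_dim, Fintype.card_fin,
      one_mul]
  have h1 := congrFun (Polynomial.fwdDiff_iter_degree_eq_factorial P) 0
  rw [hdeg, hlead, fwdDiff_iter_eq_sum_shift] at h1
  have h2 : (h ^ n • ((n.factorial : ℕ) : ℝ → ℝ)) 0 = n.factorial * h ^ n := by
    simp [mul_comm]
  rw [h2] at h1
  rw [← h1]
  refine Finset.sum_congr rfl fun k _ => ?_
  rw [zsmul_eq_mul]
  congr 1
  rw [hP, Polynomial.eval_comp, Matrix.eval_charpoly]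
  congr 1
  rw [sub_neg_eq_add, add_comm]
  congr 1
  rw [hq]
  simp only [Polynomial.eval_add, Polynomial.eval_C, Polynomial.eval_mul, Polynomial.eval_X,
    zero_add, nsmul_eq_mul, mul_one]
  rw [Matrix.smul_one_eq_diagonal, Matrix.scalar_apply]
  congr 1
  funext _
  ring

/-- clamped identity -/
noncomputable def cl {n : ℕ} (x : E n) : E n := fun i => max (-3) (min 3 (x i))

lemma cl_eq {n : ℕ} {x : E n} (hx : ‖x‖ ≤ 3) : cl x = x := by
  funext i
  have h1 := (norm_le_pi_norm x i).trans hx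
  rw [Real.norm_eq_abs, abs_le] at h1
  unfold cl
  rw [min_eq_right h1.2, max_eq_right h1.1]

lemma clamp_lip (x y : ℝ) :
    |max (-3) (min 3 x) - max (-3) (min 3 y)| ≤ |x - y| := by
  simp only [max_def, min_def]
  split_ifs <;> rw [abs_le] <;> constructor <;>
    rcases abs_cases (x - y) with ⟨h, _⟩ | ⟨h, _⟩ <;> linarith

lemma cl_lip {n : ℕ} (x y : E n) : ‖cl x - cl y‖ ≤ ‖x - y‖ := by
  rw [pi_norm_le_iff_of_nonneg (norm_nonneg _)]
  intro i
  exact (clamp_lip (x i) (y i)).trans (norm_le_pi_norm (x - y) i)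

lemma cl_bdd {n : ℕ} (x : E n) : ‖cl x‖ ≤ 3 := by
  rw [pi_norm_le_iff_of_nonneg (by norm_num)]
  intro i
  rw [Real.norm_eq_abs, abs_le]
  exact ⟨le_max_left _ _, max_le (by norm_num) (min_le_left _ _)⟩

lemma cl_hold {n : ℕ} {α : ℝ} (hα : 0 < α) (hα1 : α ≤ 1) (x y : E n) :
    ‖cl x - cl y‖ ≤ 6 * ‖x - y‖ ^ α := by
  rcases le_total ‖x - y‖ 1 with h | h
  · have h1 : ‖x - y‖ ≤ ‖x - y‖ ^ α := by
      rcases (norm_nonneg (x - y)).eq_or_lt with h0 | h0
      · rw [← h0]
        positivity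
      · calc ‖x - y‖ = ‖x - y‖ ^ (1 : ℝ) := (Real.rpow_one _).symm
          _ ≤ ‖x - y‖ ^ α := Real.rpow_le_rpow_of_exponent_ge h0 h hα1
    have := cl_lip x y
    have h2 : 0 ≤ ‖x - y‖ ^ α := by positivity
    linarith
  · have h1 : 1 ≤ ‖x - y‖ ^ α := Real.one_le_rpow h hα.le
    have h2 : ‖cl x - cl y‖ ≤ 6 := by
      calc ‖cl x - cl y‖ ≤ ‖cl x‖ + ‖cl y‖ := norm_sub_le _ _
        _ ≤ 3 + 3 := add_le_add (cl_bdd x) (cl_bdd y)
        _ = 6 := by norm_num
    linarith

/-- the sheared map -/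
noncomputable def sh {n : ℕ} (f : E n → E n) (t : ℝ) : E n → E n := fun x => f x + t • cl x

lemma sh_hold {n : ℕ} {f : E n → E n} {H α : ℝ} (hα : 0 < α) (hα1 : α ≤ 1)
    (hf : ∀ x y, ‖f x - f y‖ ≤ H * ‖x - y‖ ^ α) {t : ℝ} (ht : |t| ≤ 1) (x y : E n) :
    ‖sh f t x - sh f t y‖ ≤ (H + 6) * ‖x - y‖ ^ α := by
  have h1 : sh f t x - sh f t y = (f x - f y) + t • (cl x - cl y) := by
    unfold sh
    rw [smul_sub]
    abel
  rw [h1]
  calc ‖(f x - f y) + t • (cl x - cl y)‖ ≤ ‖f x - f y‖ + ‖t • (cl x - cl y)‖ := norm_add_le _ _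
    _ ≤ H * ‖x - y‖ ^ α + 1 * (6 * ‖x - y‖ ^ α) := by
        refine add_le_add (hf x y) ?_
        rw [norm_smul, Real.norm_eq_abs]
        exact mul_le_mul ht (cl_hold hα hα1 x y) (norm_nonneg _) (by norm_num)
    _ = _ := by ring

/-- the mollified clamp is a translation near the unit ball -/
lemma moll_cl {n : ℕ} {ε : ℝ} (hε : 0 < ε) (hε1 : ε ≤ 1) (l k : Fin n) {x : E n} (hx : ‖x‖ < 2) :
    pd (moll ε (fun y => cl y l)) k x = if l = k then 1 else 0 := by
  have h1 : (moll ε (fun y => cl y l)) =ᶠ[𝓝 x] fun y => y l - ∫ w : E n, w l * re n ε w := by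
    have hnb : ball (0 : E n) 2 ∈ 𝓝 x := isOpen_ball.mem_nhds (by simpa using hx)
    filter_upwards [hnb] with y hy
    rw [moll_eq]
    have e1 : ∀ w : E n, cl (y - w) l * re n ε w = y l * re n ε w - w l * re n ε w := by
      intro w
      by_cases hw : ε ≤ ‖w‖
      · rw [re_zero hε hw]
        ring
      · push Not at hw
        rw [cl_eq]
        · simp only [Pi.sub_apply]
          ring
        · have h2 : ‖y‖ < 2 := by simpa using hy
          calc ‖y - w‖ ≤ ‖y‖ + ‖w‖ := norm_sub_le _ _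
            _ ≤ 3 := by linarith
    simp only [e1]
    have i1 : Integrable (fun w : E n => y l * re n ε w) := (re_integrable hε).const_mul _
    have i2 : Integrable (fun w : E n => w l * re n ε w) :=
      ((continuous_apply l).mul (re_cont ε)).integrable_of_hasCompactSupport (re_supp hε).mul_left
    rw [integral_sub i1 i2, integral_const_mul, re_int hε, mul_one]
  unfold pd
  rw [h1.fderiv_eq]
  have h2 : HasFDerivAt (fun y : E n => y l - ∫ w : E n, w l * re n ε w)
      (ContinuousLinearMap.proj (R := ℝ) (φ := fun _ : Fin n => ℝ) l) x :=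
    ((ContinuousLinearMap.proj (R := ℝ) (φ := fun _ : Fin n => ℝ) l).hasFDerivAt).sub_const _
  rw [h2.fderiv, ContinuousLinearMap.proj_apply, Pi.single_apply]

lemma jac_sh {n : ℕ} {ε : ℝ} (hε : 0 < ε) (hε1 : ε ≤ 1) {f : E n → E n} (hf : Continuous f)
    (t : ℝ) {x : E n} (hx : ‖x‖ < 2) :
    jac (mv ε (sh f t)) x = jac (mv ε f) x + t • (1 : Matrix (Fin n) (Fin n) ℝ) := by
  have hclc : Continuous (cl : E n → E n) := by
    refine continuous_pi fun i => ?_
    unfold cl
    fun_prop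
  ext l k
  have hfl : Continuous (fun y => f y l) := (continuous_apply l).comp hf
  have hcll : Continuous (fun y : E n => cl y l) := (continuous_apply l).comp hclc
  have e1 : moll ε (fun y => sh f t y l) = fun x => moll ε (fun y => f y l) x
      + t * moll ε (fun y => cl y l) x := by
    funext x
    unfold moll
    rw [← integral_const_mul, ← integral_add (mul_integrable hε hfl x)
      ((mul_integrable hε hcll x).const_mul t)]
    congr 1
    funext w
    simp only [sh, Pi.add_apply, Pi.smul_apply, smul_eq_mul]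
    ring
  have s1 := moll_contDiff hε hfl
  have s2 := moll_contDiff hε hcll
  have e2 : pd (moll ε (fun y => sh f t y l)) k x = pd (moll ε (fun y => f y l)) k x
      + t * pd (moll ε (fun y => cl y l)) k x := by
    rw [e1]
    unfold pd
    have h := ((s1.differentiable (by simp)) x).hasFDerivAt.add
      (((s2.differentiable (by simp)) x).hasFDerivAt.const_mul t)
    have h2 : fderiv ℝ (fun x => moll ε (fun y => f y l) x + t * moll ε (fun y => cl y l) x) x
      = _ := h.fderiv
    rw [h2]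
    rfl
  rw [Matrix.add_apply, Matrix.smul_apply, Matrix.one_apply]
  change pd (moll ε (fun y => sh f t y l)) k x = pd (moll ε (fun y => f y l)) k x + _
  rw [e2, moll_cl hε hε1 l k hx, smul_eq_mul]

/-- **some slice is large** -/
theorem some_slice {n : ℕ} (hn : 1 ≤ n) {α : ℝ} (hα : ((n : ℝ) - 1) / n < α) (hα1 : α ≤ 1) :
    ∃ c N : ℝ, 0 < c ∧ 0 < N ∧ ∀ {H : ℝ}, 0 ≤ H → ∀ {f : E n → E n},
      (∀ x y, ‖f x - f y‖ ≤ H * ‖x - y‖ ^ α) → ∀ {t : ℝ}, 0 ≤ t → t ≤ 1 / 2 →
      ∃ k ∈ Finset.range (n + 1), ENNReal.ofReal (c * (H + 6) ^ (-N)) ≤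
        volume ((fun x => f x + (t + k * (1 / (2 * n))) • x) '' closedBall (0 : E n) 1) := by
  have hn1 : (1 : ℝ) ≤ n := by exact_mod_cast hn
  have hn0 : (0 : ℝ) < n := by linarith
  have hα0 : 0 < α := lt_of_le_of_lt (div_nonneg (by linarith) hn0.le) hα
  obtain ⟨C, κ, N, hC, hκ, hN, hA⟩ := propA hn hα hα1 (rho_smooth (n := n)) (rho_supp (n := n))
  set h : ℝ := 1 / (2 * n) with hh
  have hh0 : 0 < h := by positivity
  set m : ℝ := n.factorial * h ^ n with hm
  have hm0 : 0 < m := by positivity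
  set c0 : ℝ := m / (2 * (2 ^ n * C)) with hc0
  have hc00 : 0 < c0 := by positivity
  refine ⟨c0 ^ (1 / κ), N / κ, by positivity, by positivity, ?_⟩
  intro H hH f hf t ht0 ht1
  by_contra hcon
  push Not at hcon
  have hH6 : 0 < H + 6 := by linarith
  set μ : ℝ := c0 ^ (1 / κ) * (H + 6) ^ (-(N / κ)) with hμ
  have hμ0 : 0 < μ := by positivity
  have hμκ : C * (H + 6) ^ N * μ ^ κ = m / (2 * 2 ^ n) := by
    rw [hμ, Real.mul_rpow (by positivity) (by positivity), ← Real.rpow_mul hc00.le,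
      ← Real.rpow_mul hH6.le]
    have e1 : 1 / κ * κ = 1 := by field_simp
    have e2 : -(N / κ) * κ = -N := by field_simp
    rw [e1, e2, Real.rpow_one, Real.rpow_neg hH6.le, hc0]
    have : 0 < (H + 6) ^ N := by positivity
    field_simp
  have hfc : Continuous f := hold_cont hα0 hf
  have hts : tsupport (rho n) ⊆ closedBall (0 : E n) 1 := by
    refine closure_minimal ?_ isClosed_closedBall
    intro x hx
    rw [Function.mem_support] at hx
    by_contra h
    apply hx
    apply rho_zero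
    simp only [mem_closedBall, dist_zero_right, not_le] at h
    exact h.le
  have hk1 : ∀ k ∈ Finset.range (n + 1), |t + k * h| ≤ 1 := by
    intro k hk
    have hkn : (k : ℝ) ≤ n := by
      have := Finset.mem_range.mp hk
      exact_mod_cast (by omega : k ≤ n)
    have h1 : (k : ℝ) * h ≤ 1 / 2 := by
      calc (k : ℝ) * h ≤ n * h := mul_le_mul_of_nonneg_right hkn hh0.le
        _ = 1 / 2 := by rw [hh]; field_simp
    rw [abs_of_nonneg (by positivity)]
    linarith
  -- for large K all the integrals are small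
  have hev : ∀ k ∈ Finset.range (n + 1), ∀ᶠ K : ℕ in atTop,
      |∫ x, rho n x * (jac (mv ((1 / 2) ^ K) (sh f (t + k * h))) x).det| ≤
        C * (H + 6) ^ N * μ ^ κ := by
    intro k hk
    have h1 := hcon k hk
    obtain ⟨U, hU1, hU2, hU3⟩ := Set.exists_isOpen_lt_of_lt _ _ h1
    refine hA (by linarith : (0 : ℝ) ≤ H + 6) (sh_hold hα0 hα1 hf (hk1 k hk)) hU2 ?_ hμ0 hU3.le
    intro x hx
    apply hU1
    refine ⟨x, hts hx, ?_⟩
    have h2 : ‖x‖ ≤ 3 := by
      have := hts hx
      simp only [mem_closedBall, dist_zero_right] at this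
      linarith
    simp only [sh, cl_eq h2]
  have hall : ∀ᶠ K : ℕ in atTop, ∀ k ∈ Finset.range (n + 1),
      |∫ x, rho n x * (jac (mv ((1 / 2) ^ K) (sh f (t + k * h))) x).det| ≤
        C * (H + 6) ^ N * μ ^ κ := (Filter.eventually_all_finset _).mpr hev
  obtain ⟨K, hK⟩ := hall.exists
  have heK : (0 : ℝ) < (1 / 2) ^ K := by positivity
  have heK1 : ((1 : ℝ) / 2) ^ K ≤ 1 := pow_le_one₀ (by norm_num) (by norm_num)
  have hsm : ∀ s, |s| ≤ 1 → ContDiff ℝ ∞ (mv ((1 / 2) ^ K) (sh f s)) := fun s hs =>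
    mv_smooth heK (hold_cont hα0 (sh_hold hα0 hα1 hf hs))
  have hint : ∀ k ∈ Finset.range (n + 1), Integrable (fun x => rho n x *
      (jac (mv ((1 / 2) ^ K) (sh f (t + k * h))) x).det) := by
    intro k hk
    exact (rho_smooth.continuous.mul
      (J02.aux_cont_jac (hsm _ (hk1 k hk))).matrix_det).integrable_of_hasCompactSupport
      rho_supp.mul_right
  -- the finite difference
  have hfd : ∑ k ∈ Finset.range (n + 1), (((-1 : ℤ) ^ (n - k) * n.choose k : ℤ) : ℝ) *
      ∫ x, rho n x * (jac (mv ((1 / 2) ^ K) (sh f (t + k * h))) x).det = m := by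
    have e1 : ∀ k ∈ Finset.range (n + 1), (((-1 : ℤ) ^ (n - k) * n.choose k : ℤ) : ℝ) *
        ∫ x, rho n x * (jac (mv ((1 / 2) ^ K) (sh f (t + k * h))) x).det
        = ∫ x, (((-1 : ℤ) ^ (n - k) * n.choose k : ℤ) : ℝ) *
          (rho n x * (jac (mv ((1 / 2) ^ K) (sh f (t + k * h))) x).det) := by
      intro k _
      rw [integral_const_mul]
    rw [Finset.sum_congr rfl e1, ← integral_finsetSum _ (fun k hk => (hint k hk).const_mul _)]
    have e2 : ∀ x : E n, ∑ k ∈ Finset.range (n + 1), (((-1 : ℤ) ^ (n - k) * n.choose k : ℤ) : ℝ) *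
          (rho n x * (jac (mv ((1 / 2) ^ K) (sh f (t + k * h))) x).det) = rho n x * m := by
      intro x
      by_cases hx : 1 ≤ ‖x‖
      · rw [rho_zero hx]
        simp
      · push Not at hx
        have hx2 : ‖x‖ < 2 := by linarith
        rw [hm, ← fd (jac (mv ((1 / 2) ^ K) f) x) t h hh0.ne', Finset.mul_sum]
        refine Finset.sum_congr rfl fun k _ => ?_
        rw [jac_sh heK heK1 hfc (t + k * h) hx2]
        ring
    simp only [e2]
    rw [integral_mul_const, rho_int, one_mul]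
  have hbd : m ≤ m / 2 := by
    calc m = ∑ k ∈ Finset.range (n + 1), (((-1 : ℤ) ^ (n - k) * n.choose k : ℤ) : ℝ) *
          ∫ x, rho n x * (jac (mv ((1 / 2) ^ K) (sh f (t + k * h))) x).det := hfd.symm
      _ ≤ ∑ k ∈ Finset.range (n + 1), |(((-1 : ℤ) ^ (n - k) * n.choose k : ℤ) : ℝ) *
          ∫ x, rho n x * (jac (mv ((1 / 2) ^ K) (sh f (t + k * h))) x).det| :=
          (le_abs_self _).trans (Finset.abs_sum_le_sum_abs _ _)
      _ ≤ ∑ k ∈ Finset.range (n + 1), (n.choose k : ℝ) * (m / (2 * 2 ^ n)) := by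
          refine Finset.sum_le_sum fun k hk => ?_
          rw [abs_mul]
          refine mul_le_mul ?_ ((hK k hk).trans_eq hμκ) (abs_nonneg _) (Nat.cast_nonneg _)
          push_cast
          rw [abs_mul, abs_pow, abs_neg, abs_one, one_pow, one_mul, Nat.abs_cast]
      _ = m / 2 := by
          rw [← Finset.sum_mul]
          have : ∑ k ∈ Finset.range (n + 1), (n.choose k : ℝ) = 2 ^ n := by
            exact_mod_cast Nat.sum_range_choose n
          rw [this]
          field_simp
  linarith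

end Q61.KH
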