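import Pool.Agent.Q61.KH7

/-! Antiderivatives in one variable, and the comparison of the weighted Jacobian integrals of two
maps. -/

set_option autoImplicit false
open MeasureTheory Metric Set Filter Topology H248.ID
open scoped ENNReal NNReal ContDiff Convolution

namespace Q61.KH

/-- the antiderivative of a compactly supported function in the variable `l` -/
lemma antideriv {n : ℕ} {g : E n → ℝ} (hg : ContDiff ℝ ∞ g) (hc : HasCompactSupport g)
    (hg1 : ∀ x, |g x| ≤ 1) (l : Fin n) :
    ∃ G : E n → ℝ, ContDiff ℝ ∞ G ∧ (∀ y, pd G l y = g y) ∧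
      ∀ (y : E n) (a b : ℝ), |G (Function.update y l a) - G (Function.update y l b)| ≤ |a - b| := by
  obtain ⟨M, hM⟩ := hc.isCompact.isBounded.subset_closedBall (0 : E n)
  set χ : ℝ → ℝ := (Ioi (0 : ℝ)).indicator (fun _ => (1 : ℝ)) with hχ
  have hχi : LocallyIntegrable χ :=
    (locallyIntegrable_const (1 : ℝ)).indicator measurableSet_Ioi
  set gg : E n → ℝ → ℝ := fun y x => g (Function.update y l x) with hgg
  have hgs : ContDiff ℝ ∞ (fun q : E n × ℝ => gg q.1 q.2) := by
    refine hg.comp ?_
    rw [contDiff_pi]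
    intro k
    by_cases h : k = l
    · subst h
      simpa using contDiff_snd
    · simp only [Function.update_of_ne h]
      exact (contDiff_apply ℝ ℝ k).comp contDiff_fst
  have hgk : ∀ (p : E n) (x : ℝ), x ∉ Icc (-|M|) |M| → gg p x = 0 := by
    intro p x hx
    change g (Function.update p l x) = 0
    apply image_eq_zero_of_notMem_tsupport
    intro h
    apply hx
    have h1 := hM h
    simp only [mem_closedBall, dist_zero_right] at h1
    have h2 := (norm_le_pi_norm (Function.update p l x) l).trans h1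
    rw [Function.update_self, Real.norm_eq_abs] at h2
    exact abs_le.mp (h2.trans (le_abs_self M))
  have hggc : ∀ y, ContDiff ℝ ∞ (gg y) := fun y =>
    hgs.comp (contDiff_const.prodMk contDiff_id)
  have hggs : ∀ y, HasCompactSupport (gg y) := fun y =>
    HasCompactSupport.intro isCompact_Icc (hgk y)
  set G : E n → ℝ := fun y => (χ ⋆[ContinuousLinearMap.mul ℝ ℝ, volume] (gg y)) (y l) with hG
  have hGs : ContDiff ℝ ∞ G := by
    rw [← contDiffOn_univ]
    refine contDiffOn_convolution_right_with_param_comp (n := ⊤) (ContinuousLinearMap.mul ℝ ℝ)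
      (contDiff_apply ℝ ℝ l).contDiffOn (k := Icc (-|M|) |M|) isOpen_univ isCompact_Icc
      (fun p x _ hx => hgk p x hx) hχi ?_
    exact hgs.contDiffOn
  -- derivative along the line
  have hline : ∀ (y : E n) (r : ℝ), HasDerivAt (fun r => G (Function.update y l r)) (gg y r) r := by
    intro y r
    have e1 : (fun r => G (Function.update y l r))
        = fun r => (χ ⋆[ContinuousLinearMap.mul ℝ ℝ, volume] (gg y)) r := by
      funext r
      simp only [hG, Function.update_self]
      congr 1
      simp [hgg]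
    rw [e1]
    have h1 := (hggs y).hasDerivAt_convolution_right (ContinuousLinearMap.mul ℝ ℝ) hχi
      ((hggc y).of_le (by simp)) r
    suffices hh : (χ ⋆[ContinuousLinearMap.mul ℝ ℝ, volume] deriv (gg y)) r = gg y r by
      rw [← hh]
      exact h1
    rw [convolution_def]
    have e2 : ∫ t, (ContinuousLinearMap.mul ℝ ℝ (χ t)) (deriv (gg y) (r - t))
        = ∫ x, χ (r - x) * deriv (gg y) x := by
      rw [← integral_sub_left_eq_self (fun t => (ContinuousLinearMap.mul ℝ ℝ (χ t))
        (deriv (gg y) (r - t))) volume r]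
      simp only [sub_sub_cancel, ContinuousLinearMap.mul_apply']
    rw [e2]
    have e3 : ∀ x, χ (r - x) * deriv (gg y) x = (Iio r).indicator (deriv (gg y)) x := by
      intro x
      by_cases hx : x < r
      · rw [indicator_of_mem (show x ∈ Iio r from hx), hχ,
          indicator_of_mem (show r - x ∈ Ioi (0 : ℝ) from sub_pos.mpr hx), one_mul]
      · rw [indicator_of_notMem (show x ∉ Iio r from hx), hχ,
          indicator_of_notMem (show r - x ∉ Ioi (0 : ℝ) from fun h => hx (sub_pos.mp h)), zero_mul]
    simp only [e3]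
    rw [integral_indicator measurableSet_Iio, ← integral_Iic_eq_integral_Iio,
      HasCompactSupport.integral_Iic_deriv_eq ((hggc y).of_le (by simp)) (hggs y)]
  refine ⟨G, hGs, ?_, ?_⟩
  · intro y
    have h1 := hline y (y l)
    have h2 : HasFDerivAt G (fderiv ℝ G y) (Function.update y l (y l)) := by
      rw [Function.update_eq_self]
      exact ((hGs.differentiable (by simp)) y).hasFDerivAt
    have h3 : HasDerivAt (fun r : ℝ => Function.update y l r) (Pi.single l (1 : ℝ)) (y l) :=
      hasDerivAt_update y l (y l)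
    have h4 := h2.comp_hasDerivAt (y l) h3
    have h5 := h4.unique h1
    unfold pd
    rw [h5]
    simp [hgg]
  · intro y a b
    have h1 := Convex.norm_image_sub_le_of_norm_hasDerivWithin_le (f := fun r =>
      G (Function.update y l r)) (f' := fun r => gg y r) (C := 1) (s := univ) (x := b) (y := a)
      (fun r _ => (hline y r).hasDerivWithinAt) (fun r _ => hg1 _) convex_univ (mem_univ _)
      (mem_univ _)
    rw [one_mul] at h1
    exact h1

/-- the weighted Jacobian integral -/
noncomputable def JJ {n : ℕ} (g : E n → ℝ) (u : E n → E n) (η : E n → ℝ) : ℝ :=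
  ∫ x, η x * g (u x) * (jac u x).det

/-- change of one component -/
lemma JJ_one {n : ℕ} {g : E n → ℝ} (hg : ContDiff ℝ ∞ g) (hgc : HasCompactSupport g)
    (hg1 : ∀ x, |g x| ≤ 1) {c : E n → E n} (hcs : ContDiff ℝ ∞ c) (i : Fin n) {a b : E n → ℝ}
    (ha : ContDiff ℝ ∞ a) (hb : ContDiff ℝ ∞ b) {η : E n → ℝ} (hη : ContDiff ℝ ∞ η)
    (hc : HasCompactSupport η) {R Dη δ : ℝ} {r : Fin n → ℝ}
    (hR : 0 ≤ R) (hs : ∀ x, R < ‖x‖ → fderiv ℝ η x = 0)
    (hD : ∀ k x, |pd η k x| ≤ Dη) (hD0 : 0 ≤ Dη) (hδ0 : 0 ≤ δ) (hr0 : ∀ l, 0 ≤ r l)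
    (hδ : ∀ x, |a x - b x| ≤ δ)
    (hr : ∀ l k x, l ≠ i → |pd (fun y => c y l) k x| ≤ r l) :
    |JJ g (repl c i a) η - JJ g (repl c i b) η| ≤
      (2 * R) ^ n * (δ * (n.factorial * (Dη * ∏ l ∈ Finset.univ.erase i, r l))) := by
  obtain ⟨G, hGs, hGp, hGl⟩ := antideriv hg hgc hg1 i
  have hsa := repl_smooth hcs i ha
  have hsb := repl_smooth hcs i hb
  have e1 : ∀ {a : E n → ℝ}, ContDiff ℝ ∞ a →
      JJ g (repl c i a) η = - TT (fun x => G (repl c i a x)) c i η := by
    intro a ha
    have h1 := J02.ibp_smooth (repl_smooth hcs i ha) hη hc hGs i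
    unfold JJ TT
    simp only [hGp] at h1
    rw [h1]
    congr 1
    congr 1
    funext x
    rw [← J02.aux_det]
    unfold rd
    rw [jac_repl, Matrix.updateRow_idem]
  rw [e1 ha, e1 hb]
  have e2 : -TT (fun x => G (repl c i a x)) c i η - -TT (fun x => G (repl c i b x)) c i η
      = - TT (fun x => G (repl c i a x) - G (repl c i b x)) c i η := by
    rw [T_sub (ψ := fun x => G (repl c i a x)) (φ := fun x => G (repl c i b x))
      (hGs.continuous.comp hsa.continuous) (hGs.continuous.comp hsb.continuous) hcs i hη hc]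
    ring
  rw [e2, abs_neg]
  refine T_bound hR hδ0 hs ?_ hD hD0 hr0 hr
  intro x _
  exact (hGl (c x) (a x) (b x)).trans (hδ x)

/-- comparison of two maps -/
lemma JJ_two {n : ℕ} {g : E n → ℝ} (hg : ContDiff ℝ ∞ g) (hgc : HasCompactSupport g)
    (hg1 : ∀ x, |g x| ≤ 1) {u w : E n → E n} (hu : ContDiff ℝ ∞ u) (hw : ContDiff ℝ ∞ w)
    {η : E n → ℝ} (hη : ContDiff ℝ ∞ η)
    (hc : HasCompactSupport η) {R Dη : ℝ} {δ r : Fin n → ℝ}
    (hR : 0 ≤ R) (hs : ∀ x, R < ‖x‖ → fderiv ℝ η x = 0)
    (hD : ∀ k x, |pd η k x| ≤ Dη) (hD0 : 0 ≤ Dη) (hδ0 : ∀ l, 0 ≤ δ l) (hr0 : ∀ l, 0 ≤ r l)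
    (hδ : ∀ x l, |u x l - w x l| ≤ δ l)
    (hur : ∀ l k x, |pd (fun y => u y l) k x| ≤ r l)
    (hwr : ∀ l k x, |pd (fun y => w y l) k x| ≤ r l) :
    |JJ g u η - JJ g w η| ≤
      ∑ i, (2 * R) ^ n * (δ i * (n.factorial * (Dη * ∏ l ∈ Finset.univ.erase i, r l))) := by
  have key : ∀ s : Finset (Fin n), |JJ g (mix s u w) η - JJ g w η| ≤
      ∑ i ∈ s, (2 * R) ^ n * (δ i * (n.factorial * (Dη * ∏ l ∈ Finset.univ.erase i, r l))) := by
    intro s
    induction s using Finset.induction_on with
    | empty =>
      have : mix ∅ u w = w := by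
        funext x l
        simp [mix]
      rw [this]
      simp
    | insert i s his ih =>
      have e1 : mix (insert i s) u w = repl (mix s u w) i (fun x => u x i) := by
        funext x l
        unfold mix repl
        by_cases h : l = i
        · subst h
          simp
        · rw [Function.update_of_ne h]
          simp [h]
      have e2 : mix s u w = repl (mix s u w) i (fun x => w x i) := by
        funext x l
        unfold repl
        by_cases h : l = i
        · subst h
          rw [Function.update_self]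
          simp [mix, his]
        · rw [Function.update_of_ne h]
      have hm := mix_smooth s hu hw
      have h1 := JJ_one hg hgc hg1 hm i ((contDiff_pi.mp hu) i) ((contDiff_pi.mp hw) i) hη hc
        hR hs hD hD0 (hδ0 i) hr0 (fun x => hδ x i) (by
          intro l k x _
          unfold mix
          by_cases hl : l ∈ s
          · simpa [hl] using hur l k x
          · simpa [hl] using hwr l k x)
      rw [← e1, ← e2] at h1
      rw [Finset.sum_insert his]
      calc |JJ g (mix (insert i s) u w) η - JJ g w η|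
          = |(JJ g (mix (insert i s) u w) η - JJ g (mix s u w) η)
            + (JJ g (mix s u w) η - JJ g w η)| := by ring_nf
        _ ≤ _ := (abs_add_le _ _).trans (add_le_add h1 ih)
  have h := key Finset.univ
  have e : mix Finset.univ u w = u := by
    funext x l
    simp [mix]
  rwa [e] at h

end Q61.KH
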