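import Pool.Agent.Q61.KH8

/-! The Jacobian of a mollified map with Hoelder components (exponents with sum larger than `n-1`)
is controlled by the measure of the image. -/

set_option autoImplicit false
open MeasureTheory Metric Set Filter Topology H248.ID
open scoped ENNReal NNReal ContDiff

namespace Q61.KH

lemma VV_sup {n : ℕ} (hn : 1 ≤ n) :
    ∃ C : ℝ, 0 < C ∧ ∀ {g : E n → ℝ}, Continuous g → HasCompactSupport g → (∀ x, 0 ≤ g x) →
    (∀ x, g x ≤ 1) → ∀ {μ : ℝ}, 0 < μ → ∫ x, g x ≤ μ → ∀ {s : ℝ}, 0 < s → ∀ (i : Fin n) (y : E n),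
    |VV g s i y| ≤ C * μ ^ ((1 : ℝ) / n) := by
  rcases hn.eq_or_lt with h1 | h2
  · subst h1
    refine ⟨1, one_pos, ?_⟩
    intro g hg hc h0 h1 μ hμ hgμ s hs i y
    rw [Nat.cast_one, div_one, Real.rpow_one, one_mul]
    refine le_trans ?_ hgμ
    unfold VV
    rw [← Real.norm_eq_abs]
    refine norm_integral_le_of_norm_le (hg.integrable_of_hasCompactSupport hc) ?_
    refine Filter.Eventually.of_forall fun z => ?_
    rw [norm_mul, Real.norm_of_nonneg (h0 z), Real.norm_eq_abs]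
    have h2 : |KK s i (y - z)| ≤ 1 := by
      unfold KK
      have hN := NN_pos hs (y - z)
      rw [pow_one, abs_mul, abs_of_pos (inv_pos.mpr hN), ← div_eq_mul_inv, div_le_one hN]
      exact abs_le_NN hs _ i
    calc g z * |KK s i (y - z)| ≤ g z * 1 := mul_le_mul_of_nonneg_left h2 (h0 z)
      _ = g z := mul_one _
  · have hn2 : (2 : ℝ) ≤ n := by exact_mod_cast h2
    obtain ⟨C, hC, hmass⟩ := mass_bound hn (p := (n : ℝ) - 1) (by linarith) (by linarith)
    refine ⟨C, hC, ?_⟩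
    intro g hg hc h0 h1 μ hμ hgμ s hs i y
    have hm := hmass hg hc h0 h1 hμ hgμ hs y
    have e0 : ((n : ℝ) - ((n : ℝ) - 1)) / n = 1 / n := by ring
    rw [e0] at hm
    refine le_trans ?_ hm
    have hNc : Continuous (fun w : E n => NN s w ^ (-((n : ℝ) - 1))) :=
      (NN_smooth hs).continuous.rpow_const fun w => Or.inl (NN_pos hs w).ne'
    unfold VV
    rw [← Real.norm_eq_abs]
    refine norm_integral_le_of_norm_le (gK_integrable hg hc hNc y) ?_
    refine Filter.Eventually.of_forall fun z => ?_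
    rw [norm_mul, Real.norm_of_nonneg (h0 z), Real.norm_eq_abs]
    refine mul_le_mul_of_nonneg_left ?_ (h0 z)
    unfold KK
    have hN := NN_pos hs (y - z)
    rw [abs_mul, abs_of_pos (inv_pos.mpr (pow_pos hN n))]
    calc |(y - z) i| * (NN s (y - z) ^ n)⁻¹ ≤ NN s (y - z) * (NN s (y - z) ^ n)⁻¹ :=
          mul_le_mul_of_nonneg_right (abs_le_NN hs _ i) (by positivity)
      _ = NN s (y - z) ^ (-((n : ℝ) - 1)) := by
          rw [neg_sub, Real.rpow_sub hN, Real.rpow_one, Real.rpow_natCast, div_eq_mul_inv]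

/-- the Newtonian bound for the weighted Jacobian integral -/
lemma JJ_base {n : ℕ} (hn : 1 ≤ n) : ∃ C : ℝ, 0 < C ∧ ∀ {g : E n → ℝ}, ContDiff ℝ ∞ g →
    HasCompactSupport g → (∀ x, 0 ≤ g x) → (∀ x, g x ≤ 1) → ∀ {μ : ℝ}, 0 < μ → ∫ x, g x ≤ μ →
    ∀ {f : E n → E n}, ContDiff ℝ ∞ f → ∀ {η : E n → ℝ}, ContDiff ℝ ∞ η → HasCompactSupport η →
    ∀ {R Dη D : ℝ}, 0 ≤ R → (∀ x, R < ‖x‖ → fderiv ℝ η x = 0) → (∀ k x, |pd η k x| ≤ Dη) →
    0 ≤ Dη → 0 ≤ D → (∀ l k x, |pd (fun y => f y l) k x| ≤ D) →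
    |JJ g f η| ≤ C * (2 * R) ^ n * Dη * μ ^ ((1 : ℝ) / n) * D ^ (n - 1) := by
  obtain ⟨C, hC, hV⟩ := VV_sup hn
  set om : ℝ := ∫ v : E n, PP 1 v with hom
  have hom0 : 0 < om := PP_mass hn
  have hn0 : (0 : ℝ) < n := by exact_mod_cast hn
  have hfac : (0 : ℝ) < n.factorial := by exact_mod_cast Nat.factorial_pos n
  refine ⟨n * C * n.factorial / om, by positivity, ?_⟩
  intro g hg hgc hg0 hg1 μ hμ hgμ f hfs η hη hc R Dη D hR hs hD hD0 hDD hfD
  have hb : ∀ s : ℝ, 0 < s →
      |∫ x, η x * (∫ v, g (f x - s • v) * PP 1 v) * (jac f x).det| ≤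
        n * C * n.factorial * ((2 * R) ^ n * Dη * μ ^ ((1 : ℝ) / n) * D ^ (n - 1)) := by
    intro s hs'
    rw [div_identity hfs hη hc hg hgc hs', abs_neg]
    calc |∑ i, TT (fun x => VV g s i (f x)) f i η|
        ≤ ∑ i, |TT (fun x => VV g s i (f x)) f i η| := Finset.abs_sum_le_sum_abs _ _
      _ ≤ ∑ _i : Fin n, (2 * R) ^ n * ((C * μ ^ ((1 : ℝ) / n)) * (n.factorial * (Dη * D ^ (n - 1)))) := by
          refine Finset.sum_le_sum fun i _ => ?_
          have h1 := T_bound (ψ := fun x => VV g s i (f x)) (u := f) (j := i) (P := C * μ ^ ((1 : ℝ) / n))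
            hR (by positivity) hs (fun x _ => hV hg.continuous hgc hg0 hg1 hμ hgμ hs' i (f x)) hD hD0
            (r := fun _ => D) (fun _ => hDD) (fun l k x _ => hfD l k x)
          rwa [Finset.prod_const, Finset.card_erase_of_mem (Finset.mem_univ _), Finset.card_univ,
            Fintype.card_fin] at h1
      _ = _ := by
          rw [Finset.sum_const, Finset.card_univ, Fintype.card_fin, nsmul_eq_mul]
          ring
  -- the limit
  have hdc : Continuous (fun x => (jac f x).det) := (J02.aux_cont_jac hfs).matrix_det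
  have hlim : Tendsto (fun s : ℝ => ∫ x, η x * (∫ v, g (f x - s • v) * PP 1 v) * (jac f x).det)
      (𝓝[>] 0) (𝓝 (∫ x, η x * (∫ v : E n, g (f x) * PP 1 v) * (jac f x).det)) := by
    refine tendsto_integral_filter_of_dominated_convergence
      (fun x => |η x| * om * |(jac f x).det|) ?_ ?_ ?_ ?_
    · filter_upwards [self_mem_nhdsWithin] with s hs
      have hs' : 0 < s := hs
      have e : (fun x => η x * (∫ v, g (f x - s • v) * PP 1 v) * (jac f x).det)
          = fun x => η x * (∑ i, pd (VV g s i) i (f x)) * (jac f x).det := by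
        funext x
        rw [div_VV hg hgc hs']
      rw [e]
      refine Continuous.aestronglyMeasurable ?_
      refine (hη.continuous.mul (continuous_finsetSum _ fun i _ => ?_)).mul hdc
      exact (J02.aux_cont_pd (VV_smooth hg hgc hs' i) i).comp hfs.continuous
    · refine Filter.Eventually.of_forall fun s => Filter.Eventually.of_forall fun x => ?_
      rw [norm_mul, norm_mul, Real.norm_eq_abs, Real.norm_eq_abs, Real.norm_eq_abs]
      refine mul_le_mul_of_nonneg_right ?_ (abs_nonneg _)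
      refine mul_le_mul_of_nonneg_left ?_ (abs_nonneg _)
      rw [← Real.norm_eq_abs]
      refine norm_integral_le_of_norm_le PP_integrable ?_
      refine Filter.Eventually.of_forall fun v => ?_
      rw [norm_mul, Real.norm_of_nonneg (hg0 _), Real.norm_of_nonneg (PP_nonneg one_pos v)]
      calc g (f x - s • v) * PP 1 v ≤ 1 * PP 1 v :=
            mul_le_mul_of_nonneg_right (hg1 _) (PP_nonneg one_pos v)
        _ = PP 1 v := one_mul _
    · refine Continuous.integrable_of_hasCompactSupport ?_ ?_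
      · exact ((hη.continuous.abs.mul continuous_const).mul hdc.abs)
      · refine HasCompactSupport.mono hc ?_
        intro x hx
        rw [Function.mem_support] at hx ⊢
        intro h
        apply hx
        rw [h]
        simp
    · refine Filter.Eventually.of_forall fun x => ?_
      exact ((G_lim hg.continuous hg0 hg1 (f x)).const_mul _).mul_const _
  have h1 := le_of_tendsto hlim.abs (by
    filter_upwards [self_mem_nhdsWithin] with s hs
    exact hb s hs)
  have h2 : ∫ x, η x * (∫ v : E n, g (f x) * PP 1 v) * (jac f x).det = om * JJ g f η := by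
    unfold JJ
    rw [← integral_const_mul]
    congr 1
    funext x
    rw [integral_const_mul, ← hom]
    ring
  rw [h2, abs_mul, abs_of_pos hom0] at h1
  have h3 : |JJ g f η| ≤
      n * C * n.factorial * ((2 * R) ^ n * Dη * μ ^ ((1 : ℝ) / n) * D ^ (n - 1)) / om := by
    rw [le_div_iff₀ hom0]
    linarith
  refine h3.trans (le_of_eq ?_)
  ring

lemma hold_cont' {n : ℕ} {f : E n → E n} {H : ℝ} {α : Fin n → ℝ} (hα : ∀ l, 0 < α l)
    (h : ∀ x y l, |f x l - f y l| ≤ H * ‖x - y‖ ^ α l) : Continuous f := by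
  refine continuous_pi fun l => ?_
  exact hold_cont (hα l) (fun x y => h x y l)

/-- **Proposition B** -/
theorem propB {n : ℕ} (hn : 1 ≤ n) {α : Fin n → ℝ} (hα : ∀ l, 0 < α l) (hα1 : ∀ l, α l ≤ 1)
    (hsum : (n : ℝ) - 1 < ∑ l, α l) {η : E n → ℝ} (hη : ContDiff ℝ ∞ η)
    (hc : HasCompactSupport η) :
    ∃ C κ : ℝ, 0 < C ∧ 0 < κ ∧ ∀ {H : ℝ}, 0 ≤ H → ∀ {f0 : E n → E n},
      (∀ x y l, |f0 x l - f0 y l| ≤ H * ‖x - y‖ ^ α l) → ∀ {U : Set (E n)}, IsOpen U →
      (∀ x ∈ tsupport η, f0 x ∈ U) → ∀ {μ : ℝ}, 0 < μ → μ ≤ 1 → volume U ≤ ENNReal.ofReal μ →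
      ∀ᶠ K : ℕ in atTop,
        |∫ x, η x * (jac (mv ((1 / 2) ^ K) f0) x).det| ≤ C * (1 + H) ^ n * μ ^ κ := by
  have hn1 : (1 : ℝ) ≤ n := by exact_mod_cast hn
  have hn0 : (0 : ℝ) < n := by linarith
  obtain ⟨C1, hC1, hC⟩ := moll_pd n
  obtain ⟨C2, hC2, hbase⟩ := JJ_base hn
  obtain ⟨R, hR, hRs⟩ : ∃ R : ℝ, 0 ≤ R ∧ ∀ x : E n, R < ‖x‖ → fderiv ℝ η x = 0 := by
    obtain ⟨R, hR⟩ := hc.isCompact.isBounded.subset_closedBall (0 : E n)
    refine ⟨max R 0, le_max_right _ _, fun x hx => ?_⟩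
    apply fderiv_of_notMem_tsupport
    intro h
    have := hR h
    simp only [mem_closedBall, dist_zero_right] at this
    linarith [le_max_left R 0]
  obtain ⟨Dη, hD0, hD⟩ : ∃ D : ℝ, 0 ≤ D ∧ ∀ (k : Fin n) (x : E n), |pd η k x| ≤ D := by
    obtain ⟨D, hD⟩ := (hη.continuous_fderiv (by simp)).bounded_above_of_compact_support (hc.fderiv ℝ)
    refine ⟨D, (norm_nonneg _).trans (hD 0), fun k x => ?_⟩
    unfold pd
    calc |fderiv ℝ η x (Pi.single k 1)| ≤ ‖fderiv ℝ η x‖ * ‖(Pi.single k 1 : E n)‖ :=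
          (fderiv ℝ η x).le_opNorm _
      _ ≤ D * 1 := by
          refine mul_le_mul (hD x) ?_ (norm_nonneg _) ((norm_nonneg _).trans (hD 0))
          rw [Pi.norm_single]
          simp
      _ = D := mul_one _
  set θ : ℝ := 1 + ∑ l, (α l - 1) with hθd
  have hθe : θ = ∑ l, α l - ((n : ℝ) - 1) := by
    rw [hθd, Finset.sum_sub_distrib, Finset.sum_const, Finset.card_univ, Fintype.card_fin,
      nsmul_eq_mul, mul_one]
    ring
  have hθ : 0 < θ := by rw [hθe]; linarith
  have hθ1 : θ ≤ 1 := by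
    rw [hθd]
    have : ∑ l, (α l - 1) ≤ 0 := Finset.sum_nonpos fun l _ => by linarith [hα1 l]
    linarith
  set q : ℝ := (1 / 2) ^ θ with hq
  have hq0 : 0 < q := by positivity
  have hq1 : q < 1 := Real.rpow_lt_one (by norm_num) (by norm_num) hθ
  set K1 : ℝ := n * ((2 * R) ^ n * n.factorial * Dη * (2 * (2 * C1) ^ (n - 1))) with hK1
  have hK10 : 0 ≤ K1 := by positivity
  set K2 : ℝ := C2 * (2 * R) ^ n * Dη * C1 ^ (n - 1) with hK2
  have hK20 : 0 ≤ K2 := by positivity
  refine ⟨K1 / (1 - q) + K2 * 2 ^ (n - 1) + 1, θ / (n : ℝ) ^ 2, ?_, by positivity, ?_⟩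
  · have : 0 ≤ K1 / (1 - q) := div_nonneg hK10 (by linarith)
    positivity
  intro H hH f0 hf0 U hU hUf μ hμ hμ1 hμU
  have hfc : Continuous f0 := hold_cont' hα hf0
  have hfl : ∀ l, Continuous (fun y => f0 y l) := fun l => (continuous_apply l).comp hfc
  have heK : ∀ k : ℕ, (0 : ℝ) < (1 / 2) ^ k := fun k => by positivity
  -- the cut-off
  obtain ⟨g, hg, hgc, hg0, hg1, hgU, δ, hδ, hgδ⟩ := exists_cutoff (A := f0 '' tsupport η)
    (hc.isCompact.image hfc) hU (by
      rintro _ ⟨x, hx, rfl⟩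
      exact hUf x hx)
  have hgi : Integrable g := hg.continuous.integrable_of_hasCompactSupport hgc
  have hgabs : ∀ x, |g x| ≤ 1 := fun x => by
    rw [abs_of_nonneg (hg0 x)]
    exact hg1 x
  have hgμ : ∫ x, g x ≤ μ := by
    have hUf : volume U ≠ ⊤ := ne_top_of_le_ne_top ENNReal.ofReal_ne_top hμU
    calc ∫ x, g x ≤ ∫ x, U.indicator (fun _ => (1 : ℝ)) x := by
          refine integral_mono hgi ((integrable_indicator_iff hU.measurableSet).mpr
            (integrableOn_const hUf)) ?_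
          intro x
          by_cases hx : x ∈ U
          · simpa [hx] using hg1 x
          · simp [hx, hgU x hx]
      _ = volume.real U := by
          rw [integral_indicator hU.measurableSet, setIntegral_const, smul_eq_mul, mul_one]
      _ ≤ μ := by
          rw [measureReal_def]
          exact ENNReal.toReal_le_of_le_ofReal hμ.le hμU
  have hsm : ∀ k : ℕ, ContDiff ℝ ∞ (mv ((1 / 2) ^ k) f0) := fun k => mv_smooth (heK k) hfc
  -- one step
  have hstep : ∀ k : ℕ, |JJ g (mv ((1 / 2) ^ (k + 1)) f0) η - JJ g (mv ((1 / 2) ^ k) f0) η| ≤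
      K1 * H ^ n * q ^ k := by
    intro k
    set e : ℝ := (1 / 2) ^ k with he
    have he0 : 0 < e := heK k
    have e1 : ((1 : ℝ) / 2) ^ (k + 1) = e / 2 := by
      rw [pow_succ]
      ring
    have e2 : e ^ θ = q ^ k := by
      rw [hq, he, ← Real.rpow_natCast, ← Real.rpow_natCast, ← Real.rpow_mul (by norm_num),
          ← Real.rpow_mul (by norm_num), mul_comm]
    have he2 : 0 < e / 2 := by positivity
    have hX2 : ∀ l, (e / 2) ^ (α l - 1) ≤ 2 * e ^ (α l - 1) := by
      intro l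
      rw [Real.div_rpow he0.le (by norm_num), div_le_iff₀ (by positivity)]
      have h1 : (1 : ℝ) / 2 ≤ 2 ^ (α l - 1) := by
        calc (1 : ℝ) / 2 = 2 ^ (-1 : ℝ) := by
              rw [Real.rpow_neg (by norm_num)]
              norm_num
          _ ≤ 2 ^ (α l - 1) := Real.rpow_le_rpow_of_exponent_le (by norm_num) (by linarith [hα l])
      have h2 : 0 < e ^ (α l - 1) := Real.rpow_pos_of_pos he0 _
      nlinarith
    rw [e1]
    have h1 := JJ_two hg hgc hgabs (u := mv (e / 2) f0) (w := mv e f0) (mv_smooth he2 hfc)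
      (mv_smooth he0 hfc) hη hc hR hRs hD hD0 (δ := fun l => 2 * H * e ^ α l)
      (r := fun l => 2 * C1 * H * e ^ (α l - 1)) (fun l => by positivity) (fun l => by positivity)
      (by
        intro x l
        have h1 := moll_sub he2 (hfl l) (hα l).le hH (fun x y => hf0 x y l) x
        have h2 := moll_sub he0 (hfl l) (hα l).le hH (fun x y => hf0 x y l) x
        have h3 : H * (e / 2) ^ α l ≤ H * e ^ α l :=
          mul_le_mul_of_nonneg_left (Real.rpow_le_rpow he2.le (by linarith) (hα l).le) hH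
        change |moll (e / 2) (fun y => f0 y l) x - moll e (fun y => f0 y l) x| ≤ 2 * H * e ^ α l
        rw [abs_le] at h1 h2 ⊢
        constructor <;> linarith [h1.1, h1.2, h2.1, h2.2])
      (by
        intro l k x
        refine (hC he2 (hfl l) (hα l).le (hα1 l) hH (fun x y => hf0 x y l) k x).trans ?_
        calc C1 * H * (e / 2) ^ (α l - 1) ≤ C1 * H * (2 * e ^ (α l - 1)) :=
              mul_le_mul_of_nonneg_left (hX2 l) (by positivity)
          _ = _ := by ring)
      (by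
        intro l k x
        refine (hC he0 (hfl l) (hα l).le (hα1 l) hH (fun x y => hf0 x y l) k x).trans ?_
        calc C1 * H * e ^ (α l - 1) ≤ 2 * (C1 * H * e ^ (α l - 1)) := by
              have : 0 ≤ C1 * H * e ^ (α l - 1) := by positivity
              linarith
          _ = _ := by ring)
    refine h1.trans (le_of_eq ?_)
    have e3 : ∀ i : Fin n, (2 * H * e ^ α i) * ∏ l ∈ Finset.univ.erase i, (2 * C1 * H * e ^ (α l - 1))
        = 2 * (2 * C1) ^ (n - 1) * H ^ n * q ^ k := by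
      intro i
      rw [← e2, Finset.prod_mul_distrib, Finset.prod_const, Finset.card_erase_of_mem
        (Finset.mem_univ _), Finset.card_univ, Fintype.card_fin]
      have e4 : e ^ α i = e * e ^ (α i - 1) := by
        rw [Real.rpow_sub_one he0.ne']
        field_simp
      have e5 : e ^ (α i - 1) * ∏ l ∈ Finset.univ.erase i, e ^ (α l - 1) = ∏ l, e ^ (α l - 1) :=
        Finset.mul_prod_erase Finset.univ (fun l => e ^ (α l - 1)) (Finset.mem_univ i)
      have e6 : ∏ l, e ^ (α l - 1) = e ^ (∑ l, (α l - 1)) :=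
        (Real.rpow_sum_of_pos he0 _ _).symm
      have e7 : e ^ θ = e * e ^ (∑ l, (α l - 1)) := by
        rw [hθd, Real.rpow_add he0, Real.rpow_one]
      have e8 : H ^ n = H * H ^ (n - 1) := by
        rw [← pow_succ']
        congr 1
        omega
      calc 2 * H * e ^ α i * ((2 * C1 * H) ^ (n - 1) * ∏ l ∈ Finset.univ.erase i, e ^ (α l - 1))
          = 2 * H * (2 * C1 * H) ^ (n - 1) * (e * (e ^ (α i - 1) *
              ∏ l ∈ Finset.univ.erase i, e ^ (α l - 1))) := by rw [e4]; ring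
        _ = 2 * (2 * C1) ^ (n - 1) * (H * H ^ (n - 1)) * (e * e ^ (∑ l, (α l - 1))) := by
            rw [e5, e6, mul_pow]
            ring
        _ = _ := by rw [← e7, ← e8]
    have e9 : ∀ i : Fin n, (2 * R) ^ n * (2 * H * e ^ α i * (n.factorial * (Dη *
        ∏ l ∈ Finset.univ.erase i, (2 * C1 * H * e ^ (α l - 1)))))
        = (2 * R) ^ n * n.factorial * Dη * (2 * (2 * C1) ^ (n - 1) * H ^ n * q ^ k) := by
      intro i
      rw [← e3 i]
      ring
    simp only [e9]
    rw [Finset.sum_const, Finset.card_univ, Fintype.card_fin, nsmul_eq_mul, hK1]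
    ring
  -- telescoping
  have htel : ∀ k0 j : ℕ, |JJ g (mv ((1 / 2) ^ (k0 + j)) f0) η - JJ g (mv ((1 / 2) ^ k0) f0) η| ≤
      K1 * H ^ n * q ^ k0 * ∑ i ∈ Finset.range j, q ^ i := by
    intro k0 j
    induction j with
    | zero => simp
    | succ j ih =>
      rw [Finset.sum_range_succ]
      have h1 := hstep (k0 + j)
      rw [← add_assoc]
      calc _ = |(JJ g (mv ((1 / 2) ^ (k0 + j + 1)) f0) η - JJ g (mv ((1 / 2) ^ (k0 + j)) f0) η)
            + (JJ g (mv ((1 / 2) ^ (k0 + j)) f0) η - JJ g (mv ((1 / 2) ^ k0) f0) η)| := by ring_nf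
        _ ≤ K1 * H ^ n * q ^ (k0 + j) + K1 * H ^ n * q ^ k0 * ∑ i ∈ Finset.range j, q ^ i :=
            (abs_add_le _ _).trans (add_le_add h1 ih)
        _ = _ := by rw [pow_add]; ring
  have hgeo : ∀ j, ∑ i ∈ Finset.range j, q ^ i ≤ 1 / (1 - q) := by
    intro j
    rw [one_div]
    have := Summable.sum_le_tsum (f := fun i : ℕ => q ^ i) (Finset.range j)
      (fun i _ => by positivity) (summable_geometric_of_lt_one hq0.le hq1)
    rwa [tsum_geometric_of_lt_one hq0.le hq1] at this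
  -- the choice of the scale
  set x : ℝ := μ ^ (1 / (n : ℝ) ^ 2) with hx
  have hx0 : 0 < x := Real.rpow_pos_of_pos hμ _
  have hx1 : x ≤ 1 := Real.rpow_le_one hμ.le hμ1 (by positivity)
  obtain ⟨k', hk1, hk2⟩ := exists_nat_pow_near_of_lt_one hx0 hx1 (by norm_num : (0 : ℝ) < 1 / 2)
    (by norm_num)
  set k0 := k' + 1 with hk0
  set e : ℝ := (1 / 2) ^ k0 with he
  have he0 : 0 < e := heK k0
  have he1 : e ≤ 1 := pow_le_one₀ (by norm_num) (by norm_num)
  have hex : x ≤ 2 * e := by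
    rw [he, hk0, pow_succ]
    linarith
  -- the base level
  have hb0 : |JJ g (mv e f0) η| ≤ K2 * H ^ (n - 1) * (μ ^ ((1 : ℝ) / n) * (e⁻¹) ^ (n - 1)) := by
    have h1 := hbase hg hgc hg0 hg1 hμ hgμ (mv_smooth he0 hfc) hη hc hR hRs hD hD0
      (D := C1 * H * e⁻¹) (by positivity) (by
        intro l k y
        refine (hC he0 (hfl l) (hα l).le (hα1 l) hH (fun x y => hf0 x y l) k y).trans ?_
        refine mul_le_mul_of_nonneg_left ?_ (by positivity)
        rw [← Real.rpow_neg_one]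
        exact Real.rpow_le_rpow_of_exponent_ge he0 he1 (by linarith [hα l]))
    refine h1.trans (le_of_eq ?_)
    rw [hK2, mul_pow, mul_pow]
    ring
  have hb1 : μ ^ ((1 : ℝ) / n) * (e⁻¹) ^ (n - 1) ≤ 2 ^ (n - 1) * μ ^ (θ / (n : ℝ) ^ 2) := by
    have h1 : e⁻¹ ≤ 2 * x⁻¹ := by
      rw [inv_le_comm₀ he0 (by positivity), mul_inv, inv_inv]
      linarith
    have h2 : (e⁻¹) ^ (n - 1) ≤ 2 ^ (n - 1) * (x⁻¹) ^ (n - 1) := by
      rw [← mul_pow]
      exact pow_le_pow_left₀ (by positivity) h1 _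
    have h3 : μ ^ ((1 : ℝ) / n) * (x⁻¹) ^ (n - 1) = μ ^ (1 / (n : ℝ) ^ 2) := by
      rw [hx, ← Real.rpow_neg hμ.le, ← Real.rpow_natCast, ← Real.rpow_mul hμ.le,
        ← Real.rpow_add hμ, Nat.cast_sub hn, Nat.cast_one]
      congr 1
      field_simp
      ring
    have h4 : μ ^ (1 / (n : ℝ) ^ 2) ≤ μ ^ (θ / (n : ℝ) ^ 2) := by
      refine Real.rpow_le_rpow_of_exponent_ge hμ hμ1 ?_
      exact div_le_div_of_nonneg_right hθ1 (by positivity)
    calc μ ^ ((1 : ℝ) / n) * (e⁻¹) ^ (n - 1)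
        ≤ μ ^ ((1 : ℝ) / n) * (2 ^ (n - 1) * (x⁻¹) ^ (n - 1)) :=
          mul_le_mul_of_nonneg_left h2 (by positivity)
      _ = 2 ^ (n - 1) * (μ ^ ((1 : ℝ) / n) * (x⁻¹) ^ (n - 1)) := by ring
      _ = 2 ^ (n - 1) * μ ^ (1 / (n : ℝ) ^ 2) := by rw [h3]
      _ ≤ _ := mul_le_mul_of_nonneg_left h4 (by positivity)
  have hqk : q ^ k0 ≤ μ ^ (θ / (n : ℝ) ^ 2) := by
    have h1 : q ^ k0 = e ^ θ := by
      rw [hq, he, ← Real.rpow_natCast, ← Real.rpow_natCast, ← Real.rpow_mul (by norm_num),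
          ← Real.rpow_mul (by norm_num), mul_comm]
    rw [h1]
    calc e ^ θ ≤ x ^ θ := Real.rpow_le_rpow he0.le hk1.le hθ.le
      _ = μ ^ (θ / (n : ℝ) ^ 2) := by
          rw [hx, ← Real.rpow_mul hμ.le]
          congr 1
          ring
  have hHn : H ^ n ≤ (1 + H) ^ n := pow_le_pow_left₀ hH (by linarith) _
  have hHn1 : H ^ (n - 1) ≤ (1 + H) ^ n := by
    calc H ^ (n - 1) ≤ (1 + H) ^ (n - 1) := pow_le_pow_left₀ hH (by linarith) _
      _ ≤ (1 + H) ^ n := pow_le_pow_right₀ (by linarith) (by omega)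
  -- large K
  have hKlim : ∀ l, Tendsto (fun K : ℕ => H * (((1 : ℝ) / 2) ^ K) ^ α l) atTop (𝓝 0) := by
    intro l
    have h1 : Tendsto (fun K : ℕ => ((1 : ℝ) / 2) ^ K) atTop (𝓝 0) :=
      tendsto_pow_atTop_nhds_zero_of_lt_one (by norm_num) (by norm_num)
    have h2 := (h1.rpow_const (p := α l) (Or.inr (hα l).le)).const_mul H
    simpa [Real.zero_rpow (hα l).ne'] using h2
  have hKall : ∀ᶠ K : ℕ in atTop, ∀ l, H * (((1 : ℝ) / 2) ^ K) ^ α l < δ / 2 :=
    eventually_all.mpr fun l => (hKlim l).eventually (gt_mem_nhds (by positivity))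
  filter_upwards [hKall, eventually_ge_atTop k0] with K hK hKk
  have hgf : ∀ x ∈ tsupport η, g (mv ((1 / 2) ^ K) f0 x) = 1 := by
    intro x hx
    refine hgδ (f0 x) ⟨x, hx, rfl⟩ _ ?_
    refine lt_of_le_of_lt (b := δ / 2) ?_ (by linarith)
    rw [pi_norm_le_iff_of_nonneg (by positivity)]
    intro l
    exact (moll_sub (heK K) (hfl l) (hα l).le hH (fun x y => hf0 x y l) x).trans (hK l).le
  have hJ : ∫ x, η x * (jac (mv ((1 / 2) ^ K) f0) x).det = JJ g (mv ((1 / 2) ^ K) f0) η := by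
    unfold JJ
    congr 1
    funext x
    by_cases hx : x ∈ tsupport η
    · rw [hgf x hx, mul_one]
    · rw [image_eq_zero_of_notMem_tsupport hx]
      simp
  rw [hJ]
  obtain ⟨j, rfl⟩ : ∃ j, K = k0 + j := ⟨K - k0, by omega⟩
  have h1 := (htel k0 j).trans (mul_le_mul_of_nonneg_left (hgeo j) (by positivity))
  have hM0 : 0 ≤ μ ^ (θ / (n : ℝ) ^ 2) := by positivity
  have hP0 : 0 ≤ (1 + H) ^ n := by positivity
  have h1q : 0 < 1 - q := by linarith
  calc |JJ g (mv ((1 / 2) ^ (k0 + j)) f0) η|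
      = |(JJ g (mv ((1 / 2) ^ (k0 + j)) f0) η - JJ g (mv ((1 / 2) ^ k0) f0) η)
        + JJ g (mv ((1 / 2) ^ k0) f0) η| := by ring_nf
    _ ≤ K1 * H ^ n * q ^ k0 * (1 / (1 - q))
        + K2 * H ^ (n - 1) * (μ ^ ((1 : ℝ) / n) * (e⁻¹) ^ (n - 1)) :=
        (abs_add_le _ _).trans (add_le_add h1 hb0)
    _ ≤ K1 * (1 + H) ^ n * μ ^ (θ / (n : ℝ) ^ 2) * (1 / (1 - q))
        + K2 * (1 + H) ^ n * (2 ^ (n - 1) * μ ^ (θ / (n : ℝ) ^ 2)) := by
        refine add_le_add ?_ ?_
        · refine mul_le_mul_of_nonneg_right ?_ (by positivity)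
          exact mul_le_mul (mul_le_mul_of_nonneg_left hHn hK10) hqk (by positivity) (by positivity)
        · exact mul_le_mul (mul_le_mul_of_nonneg_left hHn1 hK20) hb1 (by positivity) (by positivity)
    _ = (K1 / (1 - q) + K2 * 2 ^ (n - 1)) * ((1 + H) ^ n * μ ^ (θ / (n : ℝ) ^ 2)) := by ring
    _ ≤ (K1 / (1 - q) + K2 * 2 ^ (n - 1) + 1) * ((1 + H) ^ n * μ ^ (θ / (n : ℝ) ^ 2)) := by
        refine mul_le_mul_of_nonneg_right (by linarith) (by positivity)
    _ = _ := by ring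

end Q61.KH
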