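import Mathlib

set_option autoImplicit false

open MeasureTheory Topology Filter Set ENNReal

namespace Q61

section pair

variable {α : Type*} [MeasurableSpace α] {μ : Measure α}
variable {H : Type*} [NormedAddCommGroup H] [InnerProductSpace ℝ H]

/-- real-valued `L²` norm -/
noncomputable def N2 (f : α → H) (μ : Measure α) : ℝ := (eLpNorm f 2 μ).toReal

theorem N2_nonneg (f : α → H) : 0 ≤ N2 f μ := ENNReal.toReal_nonneg

theorem pair_eq {f g : α → H} (hf : MemLp f 2 μ) (hg : MemLp g 2 μ) :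
    inner ℝ (hf.toLp f) (hg.toLp g) = ∫ x, inner ℝ (f x) (g x) ∂μ := by
  rw [L2.inner_def]
  apply integral_congr_ae
  filter_upwards [hf.coeFn_toLp, hg.coeFn_toLp] with x h1 h2
  rw [h1, h2]

theorem pair_integrable {f g : α → H} (hf : MemLp f 2 μ) (hg : MemLp g 2 μ) :
    Integrable (fun x => inner ℝ (f x) (g x)) μ := by
  refine (L2.integrable_inner (𝕜 := ℝ) (hf.toLp f) (hg.toLp g)).congr ?_
  filter_upwards [hf.coeFn_toLp, hg.coeFn_toLp] with x h1 h2
  rw [h1, h2]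

theorem norm_toLp_eq {f : α → H} (hf : MemLp f 2 μ) : ‖hf.toLp f‖ = N2 f μ := by
  rw [Lp.norm_toLp]; rfl

theorem pair_le {f g : α → H} (hf : MemLp f 2 μ) (hg : MemLp g 2 μ) :
    |∫ x, inner ℝ (f x) (g x) ∂μ| ≤ N2 f μ * N2 g μ := by
  rw [← pair_eq hf hg, ← norm_toLp_eq hf, ← norm_toLp_eq hg]
  exact abs_real_inner_le_norm _ _

theorem N2_sq {f : α → H} (hf : MemLp f 2 μ) : N2 f μ ^ 2 = ∫ x, ‖f x‖ ^ 2 ∂μ := by
  rw [← norm_toLp_eq hf, ← real_inner_self_eq_norm_sq, pair_eq hf hf]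
  simp only [real_inner_self_eq_norm_sq]

theorem N2_sub_le {f g : α → H} (hf : MemLp f 2 μ) (hg : MemLp g 2 μ) :
    |N2 f μ - N2 g μ| ≤ N2 (f - g) μ := by
  rw [← norm_toLp_eq hf, ← norm_toLp_eq hg, ← norm_toLp_eq (hf.sub hg), MemLp.toLp_sub]
  exact abs_norm_sub_norm_le _ _

theorem N2_add_le {f g : α → H} (hf : MemLp f 2 μ) (hg : MemLp g 2 μ) :
    N2 (f + g) μ ≤ N2 f μ + N2 g μ := by
  rw [← norm_toLp_eq hf, ← norm_toLp_eq hg, ← norm_toLp_eq (hf.add hg), MemLp.toLp_add]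
  exact norm_add_le _ _

theorem tendsto_N2_of_eLpNorm {f : ℕ → α → H}
    (h : Tendsto (fun n => eLpNorm (f n) 2 μ) atTop (𝓝 0)) :
    Tendsto (fun n => N2 (f n) μ) atTop (𝓝 0) := by
  have := (ENNReal.tendsto_toReal (by simp : (0:ℝ≥0∞) ≠ ∞)).comp h
  rw [ENNReal.toReal_zero] at this
  exact this

/-- pairing with a fixed `L²` function is continuous -/
theorem tendsto_pair {F f : α → H} {fn : ℕ → α → H} (hF : MemLp F 2 μ) (hf : MemLp f 2 μ)
    (hfn : ∀ n, MemLp (fn n) 2 μ)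
    (h : Tendsto (fun n => eLpNorm (fun x => fn n x - f x) 2 μ) atTop (𝓝 0)) :
    Tendsto (fun n => ∫ x, inner ℝ (F x) (fn n x) ∂μ) atTop (𝓝 (∫ x, inner ℝ (F x) (f x) ∂μ)) := by
  have h1 := tendsto_N2_of_eLpNorm h
  rw [tendsto_iff_norm_sub_tendsto_zero]
  have h2 := h1.const_mul (N2 F μ)
  rw [mul_zero] at h2
  refine squeeze_zero (fun _ => norm_nonneg _) (fun n => ?_) h2
  have h3 : (∫ x, inner ℝ (F x) (fn n x) ∂μ) - ∫ x, inner ℝ (F x) (f x) ∂μ =
      ∫ x, inner ℝ (F x) ((fn n - f) x) ∂μ := by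
    rw [← integral_sub (pair_integrable hF (hfn n)) (pair_integrable hF hf)]
    congr 1; funext x
    rw [Pi.sub_apply, inner_sub_right]
  rw [h3, Real.norm_eq_abs]
  exact pair_le hF ((hfn n).sub hf)

end pair

section scale

variable {E : Type*} [NormedAddCommGroup E] [NormedSpace ℝ E] [FiniteDimensional ℝ E]
  [MeasurableSpace E] [BorelSpace E]
variable {H : Type*} [NormedAddCommGroup H]

theorem eLpNorm_scale {μ : Measure E} [μ.IsAddHaarMeasure] {f : E → H} {p : ℝ≥0∞} {c : ℝ}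
    (hc : 0 < c) (hf : AEStronglyMeasurable f μ) :
    eLpNorm (fun x => f (c • x)) p μ =
      (ENNReal.ofReal ((c ^ (Module.finrank ℝ E))⁻¹)) ^ (1 / p).toReal * eLpNorm f p μ := by
  have h1 := Measure.map_addHaar_smul μ hc.ne'
  rw [abs_of_pos (by positivity)] at h1
  have hk : ENNReal.ofReal ((c ^ (Module.finrank ℝ E))⁻¹) ≠ 0 := by
    rw [ne_eq, ENNReal.ofReal_eq_zero, not_le]; positivity
  have hmeas : AEStronglyMeasurable f (Measure.map (c • ·) μ) := by
    rw [h1]; exact hf.smul_measure _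
  have h2 := eLpNorm_map_measure (p := p) hmeas (measurable_const_smul c).aemeasurable
  have h3 : eLpNorm (fun x => f (c • x)) p μ = eLpNorm f p (Measure.map (c • ·) μ) := by
    rw [h2]; rfl
  rw [h3, h1, eLpNorm_smul_measure_of_ne_zero hk, smul_eq_mul]

theorem memLp_scale {μ : Measure E} [μ.IsAddHaarMeasure] {f : E → H} {p : ℝ≥0∞} {c : ℝ}
    (hc : 0 < c) (hf : MemLp f p μ) : MemLp (fun x => f (c • x)) p μ := by
  have h1 := Measure.map_addHaar_smul μ hc.ne'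
  have h2 : MemLp f p (Measure.map (c • ·) μ) := by
    rw [h1]; exact hf.smul_measure ENNReal.ofReal_ne_top
  have := (memLp_map_measure_iff h2.1 (measurable_const_smul c).aemeasurable).1 h2
  exact this

theorem ae_scale {μ : Measure E} [μ.IsAddHaarMeasure] {P : E → Prop} {c : ℝ} (hc : 0 < c)
    (h : ∀ᵐ x ∂μ, P x) : ∀ᵐ x ∂μ, P (c • x) := by
  have h1 := Measure.map_addHaar_smul μ hc.ne'
  have h2 : ∀ᵐ x ∂(Measure.map (c • ·) μ), P x := by
    rw [h1]; exact Measure.ae_smul_measure h _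
  exact ae_of_ae_map (measurable_const_smul c).aemeasurable h2

theorem integral_scale {μ : Measure E} [μ.IsAddHaarMeasure] (f : E → ℝ) {c : ℝ} (hc : 0 < c) :
    ∫ x, f (c • x) ∂μ = (c ^ (Module.finrank ℝ E))⁻¹ * ∫ x, f x ∂μ := by
  rw [Measure.integral_comp_smul μ f c, abs_of_pos (by positivity), smul_eq_mul]

end scale

end Q61
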