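import Pool.Agent.Q61.Lap

set_option autoImplicit false

open MeasureTheory InnerProductSpace Laplacian Topology Filter Set
open scoped ContDiff

namespace Q61

variable {n : ℕ}

/-- coordinate vector -/
noncomputable abbrev ev (i : Fin n) : EuclideanSpace ℝ (Fin n) := EuclideanSpace.single i 1

theorem lapN_eq (f : EuclideanSpace ℝ (Fin n) → ℝ) (x : EuclideanSpace ℝ (Fin n)) :
    (Δ f) x = ∑ i, fderiv ℝ (fderiv ℝ f) x (ev i) (ev i) := by
  rw [laplacian_eq_iteratedFDeriv_orthonormalBasis f (EuclideanSpace.basisFun (Fin n) ℝ)]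
  simp [iteratedFDeriv_two_apply, ev]

/-- squared norm of the gradient -/
noncomputable def gsqN (f : EuclideanSpace ℝ (Fin n) → ℝ) (x : EuclideanSpace ℝ (Fin n)) : ℝ :=
  ∑ i, (fderiv ℝ f x (ev i)) ^ 2

/-- scalar product of gradients -/
noncomputable def gdot (f g : EuclideanSpace ℝ (Fin n) → ℝ) (x : EuclideanSpace ℝ (Fin n)) : ℝ :=
  ∑ i, fderiv ℝ f x (ev i) * fderiv ℝ g x (ev i)

theorem lapN_comp_real {F : ℝ → ℝ} {g : EuclideanSpace ℝ (Fin n) → ℝ}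
    {x : EuclideanSpace ℝ (Fin n)} (hF : ContDiffAt ℝ 2 F (g x)) (hg : ContDiffAt ℝ 2 g x) :
    (Δ (fun y => F (g y))) x = deriv (deriv F) (g x) * gsqN g x + deriv F (g x) * (Δ g) x := by
  rw [lapN_eq, lapN_eq, gsqN, Finset.mul_sum, Finset.mul_sum, ← Finset.sum_add_distrib]
  apply Finset.sum_congr rfl
  intro i _
  rw [fderiv2_comp_real hF hg]
  ring

theorem lapN_mul {f g : EuclideanSpace ℝ (Fin n) → ℝ} {x : EuclideanSpace ℝ (Fin n)}
    (hf : ContDiffAt ℝ 2 f x) (hg : ContDiffAt ℝ 2 g x) :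
    (Δ (fun y => f y * g y)) x = f x * (Δ g) x + 2 * gdot f g x + g x * (Δ f) x := by
  rw [lapN_eq, lapN_eq, lapN_eq, gdot, Finset.mul_sum, Finset.mul_sum, Finset.mul_sum,
    ← Finset.sum_add_distrib, ← Finset.sum_add_distrib]
  apply Finset.sum_congr rfl
  intro i _
  rw [fderiv2_mul hf hg]
  ring

theorem lapN_add {f g : EuclideanSpace ℝ (Fin n) → ℝ} {x : EuclideanSpace ℝ (Fin n)}
    (hf : ContDiffAt ℝ 2 f x) (hg : ContDiffAt ℝ 2 g x) :
    (Δ (fun y => f y + g y)) x = (Δ f) x + (Δ g) x := by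
  rw [lapN_eq, lapN_eq, lapN_eq, ← Finset.sum_add_distrib]
  apply Finset.sum_congr rfl
  intro i _
  rw [fderiv2_add hf hg]

theorem lapN_const_mul {f : EuclideanSpace ℝ (Fin n) → ℝ} {x : EuclideanSpace ℝ (Fin n)} (c : ℝ)
    (hf : ContDiffAt ℝ 2 f x) :
    (Δ (fun y => c * f y)) x = c * (Δ f) x := by
  rw [lapN_eq, lapN_eq, Finset.mul_sum]
  apply Finset.sum_congr rfl
  intro i _
  rw [fderiv2_const_mul c hf]

theorem lapN_const (c : ℝ) (x : EuclideanSpace ℝ (Fin n)) :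
    (Δ (fun _ : EuclideanSpace ℝ (Fin n) => c)) x = 0 := by
  rw [lapN_eq]
  have : fderiv ℝ (fun _ : EuclideanSpace ℝ (Fin n) => c) = fun _ => 0 := by
    funext y; exact fderiv_const_apply c
  rw [this]
  simp

theorem fderiv_normsq (x v : EuclideanSpace ℝ (Fin n)) :
    fderiv ℝ (fun y : EuclideanSpace ℝ (Fin n) => ‖y‖ ^ 2) x v = 2 * inner ℝ x v := by
  have h : HasFDerivAt (fun y : EuclideanSpace ℝ (Fin n) => ‖y‖ ^ 2) _ x := (hasFDerivAt_id x).norm_sq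
  rw [h.fderiv]
  simp

theorem inner_ev (x : EuclideanSpace ℝ (Fin n)) (i : Fin n) : inner ℝ x (ev i) = x i := by
  rw [ev, EuclideanSpace.inner_single_right]; simp

theorem gsqN_normsq (x : EuclideanSpace ℝ (Fin n)) :
    gsqN (fun y : EuclideanSpace ℝ (Fin n) => ‖y‖ ^ 2) x = 4 * ‖x‖ ^ 2 := by
  unfold gsqN
  simp only [fderiv_normsq, inner_ev]
  rw [EuclideanSpace.norm_sq_eq, Finset.mul_sum]
  apply Finset.sum_congr rfl
  intro i _
  rw [Real.norm_eq_abs, sq_abs]; ring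

theorem lapN_normsq (x : EuclideanSpace ℝ (Fin n)) :
    (Δ (fun y : EuclideanSpace ℝ (Fin n) => ‖y‖ ^ 2)) x = 2 * (n : ℝ) := by
  rw [lapN_eq]
  have h : fderiv ℝ (fun y : EuclideanSpace ℝ (Fin n) => ‖y‖ ^ 2) =
      fun y => (2:ℝ) • innerSL ℝ y := by
    funext y
    ext v
    rw [fderiv_normsq]
    simp
  rw [h]
  have h2 : ∀ v : EuclideanSpace ℝ (Fin n), fderiv ℝ (fun y : EuclideanSpace ℝ (Fin n) =>
      (2:ℝ) • innerSL ℝ y) x v v = 2 * inner ℝ v v := by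
    intro v
    have h3 : HasFDerivAt (fun y : EuclideanSpace ℝ (Fin n) => (2:ℝ) • innerSL ℝ y)
      ((2:ℝ) • innerSL ℝ) x := (innerSL ℝ).hasFDerivAt.const_smul (2:ℝ)
    rw [h3.fderiv]
    rfl
  simp only [h2]
  simp [ev]
  ring

/-- the radial operator: `Δ (g(|x|²)) = (Lr n g)(|x|²)` -/
noncomputable def Lr (n : ℕ) (g : ℝ → ℝ) (t : ℝ) : ℝ := 4 * t * deriv (deriv g) t + 2 * n * deriv g t

theorem lapN_radial {g : ℝ → ℝ} {x : EuclideanSpace ℝ (Fin n)} (hg : ContDiffAt ℝ 2 g (‖x‖ ^ 2)) :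
    (Δ (fun y : EuclideanSpace ℝ (Fin n) => g (‖y‖ ^ 2))) x = Lr n g (‖x‖ ^ 2) := by
  have h := lapN_comp_real (F := g) (g := fun y : EuclideanSpace ℝ (Fin n) => ‖y‖ ^ 2) (x := x) hg
    ((contDiff_id.norm_sq ℝ).contDiffAt)
  rw [h, gsqN_normsq, lapN_normsq, Lr]
  ring

theorem contDiff_deriv {g : ℝ → ℝ} (hg : ContDiff ℝ ∞ g) : ContDiff ℝ ∞ (deriv g) := by
  have := hg.fderiv_right (m := ∞) (by simp)
  have h2 : (deriv g) = fun z => fderiv ℝ g z 1 := by funext z; simp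
  rw [h2]
  exact this.clm_apply contDiff_const

theorem contDiff_Lr {g : ℝ → ℝ} (hg : ContDiff ℝ ∞ g) : ContDiff ℝ ∞ (Lr n g) := by
  unfold Lr
  exact ((contDiff_const.mul contDiff_id).mul (contDiff_deriv (contDiff_deriv hg))).add
    (contDiff_const.mul (contDiff_deriv hg))

theorem lapN_radial' {g : ℝ → ℝ} (hg : ContDiff ℝ ∞ g) :
    (Δ (fun y : EuclideanSpace ℝ (Fin n) => g (‖y‖ ^ 2))) =
      fun y : EuclideanSpace ℝ (Fin n) => Lr n g (‖y‖ ^ 2) := by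
  funext x
  exact lapN_radial ((hg.of_le ENat.LEInfty.out : ContDiff ℝ 2 g).contDiffAt)

theorem fderiv_coord (i : Fin n) (x v : EuclideanSpace ℝ (Fin n)) :
    fderiv ℝ (fun y : EuclideanSpace ℝ (Fin n) => y i) x v = v i := by
  have h : HasFDerivAt (fun y : EuclideanSpace ℝ (Fin n) => y i)
      (EuclideanSpace.proj (𝕜 := ℝ) i : EuclideanSpace ℝ (Fin n) →L[ℝ] ℝ) x :=
    (EuclideanSpace.proj (𝕜 := ℝ) i : EuclideanSpace ℝ (Fin n) →L[ℝ] ℝ).hasFDerivAt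
  rw [h.fderiv]; rfl

theorem contDiff_coord (i : Fin n) {k : WithTop ℕ∞} :
    ContDiff ℝ k (fun y : EuclideanSpace ℝ (Fin n) => y i) :=
  (EuclideanSpace.proj (𝕜 := ℝ) i : EuclideanSpace ℝ (Fin n) →L[ℝ] ℝ).contDiff

theorem lapN_coord (i : Fin n) (x : EuclideanSpace ℝ (Fin n)) :
    (Δ (fun y : EuclideanSpace ℝ (Fin n) => y i)) x = 0 := by
  rw [lapN_eq]
  have h : fderiv ℝ (fun y : EuclideanSpace ℝ (Fin n) => y i) =
      fun _ => (EuclideanSpace.proj (𝕜 := ℝ) i : EuclideanSpace ℝ (Fin n) →L[ℝ] ℝ) := by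
    funext y
    exact (EuclideanSpace.proj (𝕜 := ℝ) i : EuclideanSpace ℝ (Fin n) →L[ℝ] ℝ).hasFDerivAt.fderiv
  rw [h]; simp

theorem gsqN_coord (i : Fin n) (x : EuclideanSpace ℝ (Fin n)) :
    gsqN (fun y : EuclideanSpace ℝ (Fin n) => y i) x = 1 := by
  unfold gsqN
  simp only [fderiv_coord, ev]
  rw [Finset.sum_eq_single i]
  · simp
  · intro j _ hj
    simp [Ne.symm hj]
  · intro h; exact absurd (Finset.mem_univ i) h

/-- Laplacian of a function of one coordinate -/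
theorem lapN_fun_coord {f : ℝ → ℝ} (i : Fin n) {x : EuclideanSpace ℝ (Fin n)}
    (hf : ContDiffAt ℝ 2 f (x i)) :
    (Δ (fun y : EuclideanSpace ℝ (Fin n) => f (y i))) x = deriv (deriv f) (x i) := by
  have h := lapN_comp_real (F := f) (g := fun y : EuclideanSpace ℝ (Fin n) => y i) (x := x) hf
    (contDiff_coord i).contDiffAt
  rw [h, gsqN_coord, lapN_coord]
  ring

end Q61
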