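import Pool.Agent.Q61.Lap

set_option autoImplicit false

open MeasureTheory Topology Filter Set intervalIntegral

namespace Q61.Len

/-- continuous, piecewise `C¹` curves on `[a,b]` -/
structure PC1 (γ : ℝ → ℂ) (a b : ℝ) : Prop where
  le : a ≤ b
  cont : ContinuousOn γ (Icc a b)
  part : ∃ (n : ℕ) (t : ℕ → ℝ), Monotone t ∧ t 0 = a ∧ t n = b ∧
    ∀ i < n, t i < t (i + 1) → ContDiffOn ℝ 1 γ (Icc (t i) (t (i + 1)))

/-- length with respect to `e^{2u}|dz|²` -/
noncomputable def len (u : ℂ → ℝ) (γ : ℝ → ℂ) (a b : ℝ) : ℝ :=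
  ∫ t in a..b, Real.exp (u (γ t)) * ‖deriv γ t‖

namespace PC1

variable {γ : ℝ → ℂ} {a b : ℝ}

theorem diff (h : PC1 γ a b) : ∃ S : Set ℝ, S.Countable ∧ ∀ t ∈ Ioo a b \ S,
    DifferentiableAt ℝ γ t := by
  obtain ⟨n, τ, hm, h0, hn, hc⟩ := h.part
  refine ⟨range τ, countable_range τ, ?_⟩
  rintro t ⟨⟨h1, h2⟩, h3⟩
  have hex : ∃ j, t < τ j := ⟨n, by rw [hn]; exact h2⟩
  classical
  set j := Nat.find hex with hj
  have hj1 : t < τ j := Nat.find_spec hex
  have hj0 : j ≠ 0 := by
    intro h0'
    rw [h0', h0] at hj1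
    linarith
  obtain ⟨i, hi⟩ := Nat.exists_eq_succ_of_ne_zero hj0
  have hi1 : ¬ t < τ i := Nat.find_min hex (by rw [← hj, hi]; exact Nat.lt_succ_self i)
  have hi2 : τ i < t := lt_of_le_of_ne (not_lt.1 hi1) (fun e => h3 ⟨i, e⟩)
  have hin : i < n := by
    by_contra hh
    push Not at hh
    have := hm hh
    rw [hn] at this
    linarith
  rw [hi] at hj1
  have hd := hc i hin (hi2.trans hj1)
  have := (hd t ⟨hi2.le, hj1.le⟩).contDiffAt (Icc_mem_nhds hi2 hj1)
  exact this.differentiableAt (by norm_num)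

theorem deriv_int (h : PC1 γ a b) : IntervalIntegrable (deriv γ) volume a b := by
  obtain ⟨n, τ, hm, h0, hn, hc⟩ := h.part
  have : IntervalIntegrable (deriv γ) volume (τ 0) (τ n) := by
    apply IntervalIntegrable.trans_iterate
    intro i hi
    rcases eq_or_lt_of_le (hm (Nat.le_succ i)) with he | hlt
    · rw [he]
    · have h1 := hc i hi hlt
      have h2 : ContinuousOn (derivWithin γ (Icc (τ i) (τ (i + 1)))) (Icc (τ i) (τ (i + 1))) :=
        h1.continuousOn_derivWithin (uniqueDiffOn_Icc hlt) (by norm_num)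
      have h3 : IntervalIntegrable (derivWithin γ (Icc (τ i) (τ (i + 1)))) volume (τ i) (τ (i + 1)) := by
        apply ContinuousOn.intervalIntegrable
        rw [uIcc_of_le hlt.le]
        exact h2
      rw [intervalIntegrable_iff_integrableOn_Ioo_of_le hlt.le] at h3 ⊢
      refine h3.congr_fun ?_ measurableSet_Ioo
      intro t ht
      exact derivWithin_of_mem_nhds (Icc_mem_nhds ht.1 ht.2)
  rwa [h0, hn] at this

theorem restrict (h : PC1 γ a b) {c d : ℝ} (hc : a ≤ c) (hcd : c ≤ d) (hd : d ≤ b) : PC1 γ c d := by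
  obtain ⟨n, τ, hm, h0, hn, hp⟩ := h.part
  refine ⟨hcd, h.cont.mono (Icc_subset_Icc hc hd), n, fun i => max c (min d (τ i)), ?_, ?_, ?_, ?_⟩
  · intro i j hij
    exact max_le_max le_rfl (min_le_min le_rfl (hm hij))
  · simp only [h0]
    rw [min_eq_right (hc.trans hcd), max_eq_left hc]
  · simp only [hn]
    rw [min_eq_left hd, max_eq_right hcd]
  · intro i hi hlt0
    have hlt : max c (min d (τ i)) < max c (min d (τ (i + 1))) := hlt0
    have h1 : τ i < d := by
      by_contra hh
      push Not at hh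
      have h2 : max c (min d (τ i)) = d := by rw [min_eq_left hh, max_eq_right hcd]
      rw [h2] at hlt
      have h3 : max c (min d (τ (i + 1))) ≤ d := max_le hcd (min_le_left _ _)
      linarith
    have h2 : c < min d (τ (i + 1)) := by
      by_contra hh
      push Not at hh
      rw [max_eq_left hh] at hlt
      exact absurd (le_max_left c (min d (τ i))) (not_le.2 hlt)
    have h3 : τ i ≤ max c (min d (τ i)) := by
      rw [min_eq_right h1.le]; exact le_max_right _ _
    have h4 : max c (min d (τ (i + 1))) ≤ τ (i + 1) := by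
      rw [max_eq_right h2.le]; exact min_le_right _ _
    have h5 : τ i < τ (i + 1) := by linarith
    exact (hp i hi h5).mono (Icc_subset_Icc h3 h4)

theorem reverse (h : PC1 γ a b) : PC1 (fun t => γ (-t)) (-b) (-a) := by
  obtain ⟨n, τ, hm, h0, hn, hp⟩ := h.part
  refine ⟨neg_le_neg h.le, ?_, n, fun i => -τ (n - i), ?_, ?_, ?_, ?_⟩
  · apply h.cont.comp continuous_neg.continuousOn
    intro t ht
    exact ⟨by linarith [ht.2], by linarith [ht.1]⟩
  · intro i j hij
    exact neg_le_neg (hm (Nat.sub_le_sub_left hij n))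
  · simp [hn]
  · simp [h0]
  · intro i hi hlt
    have e : n - i = (n - (i + 1)) + 1 := by omega
    have h1 : τ (n - (i + 1)) < τ (n - (i + 1) + 1) := by
      rw [← e]; simpa using hlt
    have h2 := hp (n - (i + 1)) (by omega) h1
    simp only
    rw [e]
    apply h2.comp contDiff_neg.contDiffOn
    intro t ht
    exact ⟨by linarith [ht.2], by linarith [ht.1]⟩

theorem comp {φ : ℂ → ℂ} (hφ : ContDiff ℝ 1 φ) (h : PC1 γ a b) : PC1 (fun t => φ (γ t)) a b := by
  obtain ⟨n, τ, hm, h0, hn, hp⟩ := h.part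
  exact ⟨h.le, hφ.continuous.comp_continuousOn h.cont, n, τ, hm, h0, hn,
    fun i hi hlt => hφ.comp_contDiffOn (hp i hi hlt)⟩

theorem of_contDiff (hγ : ContDiff ℝ 1 γ) (hab : a ≤ b) : PC1 γ a b := by
  refine ⟨hab, hγ.continuous.continuousOn, 1, fun i => if i = 0 then a else b, ?_, by simp, by simp, ?_⟩
  · intro i j hij
    by_cases hi : i = 0
    · by_cases hj : j = 0
      · simp [hi, hj]
      · simp [hi, hj, hab]
    · have hj : j ≠ 0 := by omega
      simp [hi, hj]
  · intro i _ _
    exact hγ.contDiffOn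

theorem concat {η : ℝ → ℂ} {c : ℝ} (h : PC1 γ a b) (h' : PC1 η b c) (he : γ b = η b) :
    PC1 (fun t => if t ≤ b then γ t else η t) a c := by
  obtain ⟨n, τ, hm, h0, hn, hp⟩ := h.part
  obtain ⟨m, σ, hm', h0', hn', hp'⟩ := h'.part
  have eqL : EqOn (fun t => if t ≤ b then γ t else η t) γ (Iic b) := by
    intro t ht
    have : t ≤ b := ht
    simp [this]
  have eqR : EqOn (fun t => if t ≤ b then γ t else η t) η (Ici b) := by
    intro t ht
    have h1 : b ≤ t := ht
    rcases eq_or_lt_of_le h1 with h2 | h2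
    · rw [← h2]; simp [he]
    · simp [not_le.2 h2]
  refine ⟨h.le.trans h'.le, ?_, n + m, fun i => if i ≤ n then τ i else σ (i - n), ?_, ?_, ?_, ?_⟩
  · have e : Icc a c = Icc a b ∪ Icc b c := (Icc_union_Icc_eq_Icc h.le h'.le).symm
    rw [e]
    apply ContinuousOn.union_of_isClosed _ _ isClosed_Icc isClosed_Icc
    · exact h.cont.congr (eqL.mono (fun t ht => ht.2))
    · exact h'.cont.congr (eqR.mono (fun t ht => ht.1))
  · intro i j hij
    by_cases hi : i ≤ n
    · by_cases hj : j ≤ n
      · simp only [hi, hj, if_true]; exact hm hij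
      · simp only [hi, hj, if_true, if_false]
        calc τ i ≤ τ n := hm hi
          _ = b := hn
          _ = σ 0 := h0'.symm
          _ ≤ σ (j - n) := hm' (Nat.zero_le _)
    · have hj : ¬ j ≤ n := by omega
      simp only [hi, hj, if_false]
      exact hm' (by omega)
  · simp [h0]
  · by_cases hmz : m = 0
    · subst hmz
      simp only [add_zero, le_refl, if_true]
      rw [hn, ← h0', hn']
    · have : ¬ (n + m ≤ n) := by omega
      simp only [this, if_false]
      rw [Nat.add_sub_cancel_left, hn']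
  · intro i hi hlt
    by_cases hin : i < n
    · have h1 : i ≤ n := hin.le
      have h2 : i + 1 ≤ n := hin
      simp only [h1, h2, if_true] at hlt ⊢
      refine (hp i hin hlt).congr ?_
      intro t ht
      apply eqL
      have := hm h2
      rw [hn] at this
      exact ht.2.trans this
    · have h2 : ¬ (i + 1 ≤ n) := by omega
      have e1 : (if i ≤ n then τ i else σ (i - n)) = σ (i - n) := by
        by_cases h3 : i ≤ n
        · have : i = n := by omega
          subst this
          simp [hn, h0']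
        · simp [h3]
      have e2 : i + 1 - n = (i - n) + 1 := by omega
      simp only [h2, if_false, e1, e2] at hlt ⊢
      refine (hp' (i - n) (by omega) hlt).congr ?_
      intro t ht
      apply eqR
      have := hm' (Nat.zero_le (i - n))
      rw [h0'] at this
      exact this.trans ht.1

end PC1

variable {u : ℂ → ℝ} {γ : ℝ → ℂ} {a b : ℝ}

theorem len_int (hu : Continuous u) (h : PC1 γ a b) :
    IntervalIntegrable (fun t => Real.exp (u (γ t)) * ‖deriv γ t‖) volume a b := by
  apply h.deriv_int.norm.continuousOn_mul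
  rw [uIcc_of_le h.le]
  exact (Real.continuous_exp.comp hu).comp_continuousOn h.cont

theorem len_nonneg (h : a ≤ b) : 0 ≤ len u γ a b :=
  integral_nonneg h fun t _ => by positivity

theorem len_add (hu : Continuous u) (h : PC1 γ a b) {c : ℝ} (h1 : a ≤ c) (h2 : c ≤ b) :
    len u γ a b = len u γ a c + len u γ c b :=
  (integral_add_adjacent_intervals (len_int hu (h.restrict le_rfl h1 h2))
    (len_int hu (h.restrict h1 h2 le_rfl))).symm

theorem len_mono (hu : Continuous u) (h : PC1 γ a b) {c d : ℝ} (h1 : a ≤ c) (h2 : c ≤ d)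
    (h3 : d ≤ b) : len u γ c d ≤ len u γ a b := by
  rw [len_add hu h h1 (h2.trans h3), len_add hu (h.restrict h1 (h2.trans h3) le_rfl) h2 h3]
  have := len_nonneg (u := u) (γ := γ) h1
  have := len_nonneg (u := u) (γ := γ) h3
  linarith

theorem len_reverse : len u (fun t => γ (-t)) (-b) (-a) = len u γ a b := by
  unfold len
  have e : (fun t => Real.exp (u (γ (-t))) * ‖deriv (fun t => γ (-t)) t‖) =
      fun t => (fun s => Real.exp (u (γ s)) * ‖deriv γ s‖) (-t) := by
    funext t
    rw [deriv_comp_neg, norm_neg]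
  rw [e, integral_comp_neg (f := fun s => Real.exp (u (γ s)) * ‖deriv γ s‖), neg_neg, neg_neg]

theorem len_congr {η : ℝ → ℂ} (hab : a ≤ b) (h : EqOn γ η (Ioo a b)) :
    len u γ a b = len u η a b := by
  unfold len
  rw [integral_of_le hab, integral_of_le hab, integral_Ioc_eq_integral_Ioo,
    integral_Ioc_eq_integral_Ioo]
  apply setIntegral_congr_fun measurableSet_Ioo
  intro t ht
  have h1 : γ =ᶠ[𝓝 t] η := by
    filter_upwards [Ioo_mem_nhds ht.1 ht.2] with s hs
    exact h hs
  simp only [h ht, h1.deriv_eq]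

theorem len_concat (hu : Continuous u) {η : ℝ → ℂ} {c : ℝ} (h : PC1 γ a b) (h' : PC1 η b c)
    (he : γ b = η b) :
    len u (fun t => if t ≤ b then γ t else η t) a c = len u γ a b + len u η b c := by
  rw [len_add hu (h.concat h' he) h.le h'.le]
  congr 1
  · apply len_congr h.le
    intro t ht
    simp [ht.2.le]
  · apply len_congr h'.le
    intro t ht
    simp [not_le.2 ht.1]

/-- length under a holomorphic change of variables -/
theorem len_comp {w : ℂ → ℝ} {φ φ' : ℂ → ℂ} (hφ : ∀ z, HasDerivAt φ (φ' z) z)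
    (hw : ∀ z, Real.exp (w z) = Real.exp (u (φ z)) * ‖φ' z‖) (h : PC1 γ a b) :
    len w γ a b = len u (fun t => φ (γ t)) a b := by
  unfold len
  obtain ⟨S, hS, hd⟩ := h.diff
  rw [integral_of_le h.le, integral_of_le h.le, integral_Ioc_eq_integral_Ioo,
    integral_Ioc_eq_integral_Ioo]
  apply setIntegral_congr_ae measurableSet_Ioo
  have : ∀ᵐ t ∂(volume : Measure ℝ), t ∉ S := by
    rw [ae_iff]; simpa using hS.measure_zero _
  filter_upwards [this] with t ht1 ht2
  have h1 := (hd t ⟨ht2, ht1⟩).hasDerivAt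
  have h2 : HasDerivAt (fun t => φ (γ t)) (φ' (γ t) * deriv γ t) t :=
    (fderiv_real_of_deriv (hφ (γ t))).comp_hasDerivAt t h1
  rw [h2.deriv, norm_mul, hw]
  ring

/-- a function with `|∇F| ≤ e^u` along the curve changes by at most the length -/
theorem lower_bound {F : ℂ → ℝ} (hF : ContDiff ℝ 1 F) (hu : Continuous u) (h : PC1 γ a b)
    (hb : ∀ t ∈ Icc a b, ∀ v, |fderiv ℝ F (γ t) v| ≤ Real.exp (u (γ t)) * ‖v‖) :
    |F (γ b) - F (γ a)| ≤ len u γ a b := by
  obtain ⟨S, hS, hd⟩ := h.diff
  have hint : IntervalIntegrable (fun t => fderiv ℝ F (γ t) (deriv γ t)) volume a b := by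
    rw [intervalIntegrable_iff_integrableOn_Ioc_of_le h.le]
    have h1 := (intervalIntegrable_iff_integrableOn_Ioc_of_le h.le).1 (len_int hu h)
    refine Integrable.mono' h1 ?_ ?_
    · have c1 : ContinuousOn (fun t => fderiv ℝ F (γ t)) (Ioc a b) :=
        ((hF.continuous_fderiv (by norm_num)).comp_continuousOn h.cont).mono Ioc_subset_Icc_self
      have m1 : AEStronglyMeasurable (fun t => fderiv ℝ F (γ t)) (volume.restrict (Ioc a b)) :=
        c1.aestronglyMeasurable measurableSet_Ioc
      have m2 : AEStronglyMeasurable (deriv γ) (volume.restrict (Ioc a b)) :=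
        (measurable_deriv γ).aestronglyMeasurable
      exact isBoundedBilinearMap_apply.continuous.comp_aestronglyMeasurable (m1.prodMk m2)
    · rw [ae_restrict_iff' measurableSet_Ioc]
      refine ae_of_all _ fun t ht => ?_
      exact hb t (Ioc_subset_Icc_self ht) _
  have h1 : ∫ t in a..b, fderiv ℝ F (γ t) (deriv γ t) = F (γ b) - F (γ a) := by
    apply integral_eq_of_hasDerivAt_off_countable_of_le (fun t => F (γ t)) _ h.le hS
      (hF.continuous.comp_continuousOn h.cont) _ hint
    intro t ht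
    have h2 := (hd t ht).hasDerivAt
    exact ((hF.differentiable (by norm_num) (γ t)).hasFDerivAt).comp_hasDerivAt t h2
  rw [← h1, ← Real.norm_eq_abs]
  refine (intervalIntegral.norm_integral_le_integral_norm h.le).trans ?_
  apply integral_mono_on h.le hint.norm (len_int hu h)
  intro t ht
  exact hb t ht _

/-- every curve between `p` and `q` has length at least `d` -/
def Far (u : ℂ → ℝ) (p q : ℂ) (d : ℝ) : Prop :=
  ∀ (a b : ℝ) (γ : ℝ → ℂ), PC1 γ a b → γ a = p → γ b = q → d ≤ len u γ a b

theorem Far.symm {p q : ℂ} {d : ℝ} (h : Far u p q d) : Far u q p d := by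
  intro a b γ hγ ha hb
  rw [← len_reverse]
  exact h _ _ _ hγ.reverse (by simpa using hb) (by simpa using ha)

theorem Far.ne {p q : ℂ} {d : ℝ} (h : Far u p q d) (hd : 0 < d) : p ≠ q := by
  intro e
  have := h 0 0 (fun _ => p) (PC1.of_contDiff contDiff_const le_rfl) rfl e
  unfold len at this
  simp at this
  linarith

/-- length of a short segment -/
theorem Far.nearby (hu : Continuous u) {p q : ℂ} {d : ℝ} (h : Far u p q d) {ε : ℝ} (hε : 0 < ε) :
    ∃ δ : ℝ, 0 < δ ∧ ∀ q', ‖q' - q‖ ≤ δ → Far u p q' (d - ε) := by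
  obtain ⟨M, hM⟩ := (isCompact_closedBall q 1).exists_bound_of_continuousOn
    (f := fun z => Real.exp (u z)) (Real.continuous_exp.comp hu).continuousOn
  have hM0 : 0 ≤ M := (norm_nonneg _).trans (hM q (Metric.mem_closedBall_self (by norm_num)))
  refine ⟨min 1 (ε / (M + 1)), lt_min one_pos (by positivity), ?_⟩
  intro q' hq' a b γ hγ ha hb
  have hq1 : ‖q' - q‖ ≤ 1 := hq'.trans (min_le_left _ _)
  have hq2 : ‖q' - q‖ ≤ ε / (M + 1) := hq'.trans (min_le_right _ _)
  set η : ℝ → ℂ := fun t => q' + ((t - b : ℝ) : ℂ) * (q - q') with hη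
  have hηd : ∀ t, HasDerivAt η (q - q') t := by
    intro t
    have h1 : HasDerivAt (fun t : ℝ => ((t - b : ℝ) : ℂ)) 1 t := by
      have := ((hasDerivAt_id t).sub_const b).ofReal_comp
      simpa using this
    have h2 := (h1.mul_const (q - q')).const_add q'
    rw [one_mul] at h2
    exact h2
  have hηs : ContDiff ℝ 1 η := by
    have h1 : ContDiff ℝ 1 (fun t : ℝ => ((t - b : ℝ) : ℂ)) :=
      Complex.ofRealCLM.contDiff.comp (contDiff_id.sub contDiff_const)
    exact contDiff_const.add (h1.mul contDiff_const)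
  have hη1 : PC1 η b (b + 1) := PC1.of_contDiff hηs (by linarith)
  have he : γ b = η b := by simp [hη, hb]
  have h1 := h a (b + 1) _ (hγ.concat hη1 he) (by simp [hγ.le, ha]) (by simp [hη])
  rw [len_concat hu hγ hη1 he] at h1
  have h2 : len u η b (b + 1) ≤ M * ‖q - q'‖ := by
    unfold len
    have e : (fun t => Real.exp (u (η t)) * ‖deriv η t‖) =
        fun t => Real.exp (u (η t)) * ‖q - q'‖ := by
      funext t; rw [(hηd t).deriv]
    rw [e]
    have c1 : Continuous (fun t => Real.exp (u (η t)) * ‖q - q'‖) :=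
      (Real.continuous_exp.comp (hu.comp hηs.continuous)).mul continuous_const
    have h3 : ∫ t in b..(b+1), Real.exp (u (η t)) * ‖q - q'‖ ≤ ∫ _t in b..(b+1), M * ‖q - q'‖ := by
      apply integral_mono_on (by linarith) (c1.intervalIntegrable _ _) (by simp)
      intro t ht
      apply mul_le_mul_of_nonneg_right _ (norm_nonneg _)
      have h4 : η t ∈ Metric.closedBall q 1 := by
        rw [mem_closedBall_iff_norm]
        have e2 : η t - q = ((1 - (t - b) : ℝ) : ℂ) * (q' - q) := by
          simp only [hη]; push_cast; ring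
        rw [e2, norm_mul, Complex.norm_real, Real.norm_of_nonneg (by linarith [ht.2])]
        have := norm_nonneg (q' - q)
        have h5 : 1 - (t - b) ≤ 1 := by linarith [ht.1]
        have h6 : 0 ≤ 1 - (t - b) := by linarith [ht.2]
        nlinarith
      have := hM _ h4
      rwa [Real.norm_of_nonneg (Real.exp_pos _).le] at this
    refine h3.trans (le_of_eq ?_)
    simp
  rw [norm_sub_rev] at h2
  have h3 : M * ‖q' - q‖ ≤ ε := by
    have h4 : (M + 1) * ‖q' - q‖ ≤ ε := by
      rw [le_div_iff₀ (by positivity)] at hq2; linarith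
    nlinarith [norm_nonneg (q' - q)]
  linarith

end Q61.Len
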