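import Pool.Agent.Q61.Len

set_option autoImplicit false

open MeasureTheory Topology Filter Set intervalIntegral InnerProductSpace Laplacian
open scoped ContDiff

namespace Q61.Liou

open Q61.Len

/-- a bump used to detect crossings -/
noncomputable def g (δ s : ℝ) : ℝ := max 0 (1 - (s / δ) ^ 2)

noncomputable def κ (δ ξ : ℝ) : ℝ := ∫ s in (0:ℝ)..ξ, g δ s

theorem g_cont (δ : ℝ) : Continuous (g δ) := by unfold g; fun_prop

theorem g_nonneg (δ s : ℝ) : 0 ≤ g δ s := le_max_left _ _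

theorem g_le (δ s : ℝ) : g δ s ≤ 1 := max_le zero_le_one (by nlinarith [sq_nonneg (s / δ)])

theorem g_zero {δ s : ℝ} (hδ : 0 < δ) (h : δ ≤ |s|) : g δ s = 0 := by
  unfold g
  apply max_eq_left
  have : 1 ≤ (s / δ) ^ 2 := by
    rw [one_le_sq_iff_one_le_abs, abs_div, abs_of_pos hδ, one_le_div hδ]
    exact h
  linarith

theorem κ_deriv (δ ξ : ℝ) : HasDerivAt (κ δ) (g δ ξ) ξ :=
  ((g_cont δ).integral_hasStrictDerivAt 0 ξ).hasDerivAt

theorem κ_zero (δ : ℝ) : κ δ 0 = 0 := by simp [κ]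

theorem κ_C1 (δ : ℝ) : ContDiff ℝ 1 (κ δ) := by
  rw [contDiff_one_iff_deriv]
  refine ⟨fun ξ => (κ_deriv δ ξ).differentiableAt, ?_⟩
  have : deriv (κ δ) = g δ := by funext ξ; exact (κ_deriv δ ξ).deriv
  rw [this]; exact g_cont δ

theorem κ_left {δ ξ : ℝ} (hδ : 0 < δ) (h : ξ ≤ -δ) : κ δ ξ = κ δ (-δ) := by
  unfold κ
  rw [← sub_eq_zero, integral_interval_sub_left ((g_cont δ).intervalIntegrable _ _)
    ((g_cont δ).intervalIntegrable _ _), integral_symm]
  have : ∫ s in ξ..(-δ), g δ s = ∫ s in ξ..(-δ), (0:ℝ) := by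
    apply integral_congr
    intro s hs
    rw [uIcc_of_le h] at hs
    apply g_zero hδ
    rw [abs_of_neg (by linarith [hs.2])]
    linarith [hs.2]
  rw [this]; simp

theorem κ_gap {δ : ℝ} (hδ : 0 < δ) : κ δ (-δ) < 0 := by
  unfold κ
  rw [integral_symm, neg_lt_zero]
  apply intervalIntegral_pos_of_pos_on ((g_cont δ).intervalIntegrable _ _)
  · intro s hs
    unfold g
    apply lt_max_of_lt_right
    have : (s / δ) ^ 2 < 1 := by
      rw [sq_lt_one_iff_abs_lt_one, abs_div, abs_of_pos hδ, div_lt_one hδ, abs_of_neg hs.2]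
      linarith [hs.1]
    linarith
  · linarith

/-- the covering map -/
noncomputable def φ (q z : ℂ) : ℂ := Complex.exp z + q

theorem φ_deriv (q z : ℂ) : HasDerivAt (φ q) (Complex.exp z) z := (Complex.hasDerivAt_exp z).add_const q

theorem φ_smooth (q : ℂ) : ContDiff ℝ ∞ (φ q) := by
  unfold φ
  exact (Complex.contDiff_exp (𝕜 := ℝ)).add contDiff_const

/-- the next solution -/
noncomputable def next (w : ℂ → ℝ) (q z : ℂ) : ℝ := w (φ q z) + z.re

theorem next_smooth {w : ℂ → ℝ} (hw : ContDiff ℝ ∞ w) (q : ℂ) : ContDiff ℝ ∞ (next w q) :=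
  (hw.comp (φ_smooth q)).add Complex.reCLM.contDiff

theorem lap_re (z : ℂ) : (Δ (fun z : ℂ => z.re)) z = 0 := by
  rw [lap_plane]
  have : fderiv ℝ (fun z : ℂ => z.re) = fun _ => Complex.reCLM := by
    funext y; exact Complex.reCLM.fderiv
  rw [this]; simp

theorem lap_next {w : ℂ → ℝ} (hw : ContDiff ℝ ∞ w) (hl : ∀ z, (Δ w) z + Real.exp (2 * w z) = 0)
    (q z : ℂ) : (Δ (next w q)) z + Real.exp (2 * next w q z) = 0 := by
  have h2 : ContDiff ℝ 2 w := hw.of_le ENat.LEInfty.out
  have h1 : (Δ (fun y => w (φ q y))) z = ‖Complex.exp z‖ ^ 2 * (Δ w) (φ q z) :=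
    lap_comp_holo (Eventually.of_forall fun y => φ_deriv q y) (Complex.hasDerivAt_exp z)
      h2.contDiffAt
  have h3 : (Δ (next w q)) z = (Δ (fun y => w (φ q y))) z + (Δ (fun z : ℂ => z.re)) z := by
    apply lap_add
    · exact ((hw.comp (φ_smooth q)).of_le ENat.LEInfty.out : ContDiff ℝ 2 _).contDiffAt
    · exact Complex.reCLM.contDiff.contDiffAt
  rw [h3, h1, lap_re, Complex.norm_exp]
  have h4 := hl (φ q z)
  have h5 : Real.exp (2 * next w q z) = Real.exp z.re ^ 2 * Real.exp (2 * w (φ q z)) := by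
    rw [← Real.exp_nat_mul, ← Real.exp_add]
    congr 1
    unfold next
    push_cast; ring
  rw [h5]
  have : Real.exp z.re ^ 2 * (Δ w) (φ q z) + 0 + Real.exp z.re ^ 2 * Real.exp (2 * w (φ q z)) =
      Real.exp z.re ^ 2 * ((Δ w) (φ q z) + Real.exp (2 * w (φ q z))) := by ring
  rw [this, h4, mul_zero]

theorem exp_next (w : ℂ → ℝ) (q z : ℂ) :
    Real.exp (next w q z) = Real.exp (w (φ q z)) * ‖Complex.exp z‖ := by
  rw [Complex.norm_exp, ← Real.exp_add]; rfl

/-- `e^w` is bounded below on vertical strips -/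
def Strips (w : ℂ → ℝ) : Prop := ∀ M : ℝ, ∃ c : ℝ, 0 < c ∧ ∀ z : ℂ, |z.re| ≤ M → c ≤ Real.exp (w z)

theorem next_strips {w : ℂ → ℝ} (h : Strips w) (q : ℂ) : Strips (next w q) := by
  intro M
  obtain ⟨c, hc, hb⟩ := h (Real.exp M + ‖q‖)
  refine ⟨c * Real.exp (-M), by positivity, ?_⟩
  intro z hz
  rw [exp_next]
  have h1 := abs_le.1 hz
  apply mul_le_mul
  · apply hb
    refine (Complex.abs_re_le_norm _).trans ?_
    unfold φ
    refine (norm_add_le _ _).trans ?_
    rw [Complex.norm_exp]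
    have := Real.exp_le_exp.2 h1.2
    linarith
  · rw [Complex.norm_exp, Real.exp_le_exp]; exact h1.1
  · positivity
  · positivity

theorem step {w : ℂ → ℝ} (hw : ContDiff ℝ ∞ w) (hs : Strips w) {p q : ℂ} {d : ℝ} (hd : 0 < d)
    (hf : Far w p q d) {ε : ℝ} (hε : 0 < ε) :
    ∃ z₀ z₁ : ℂ, Far (next w q) z₀ z₁ (2 * (d - ε)) := by
  have hpq := hf.ne hd
  have hwc := hw.continuous
  obtain ⟨δ, hδ, hnear⟩ := hf.nearby hwc hε
  obtain ⟨c, hc, hcb⟩ := hs (|q.re| + δ)
  set F : ℂ → ℝ := fun ζ => c * κ δ ((ζ - q).re) with hF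
  have hFs : ContDiff ℝ 1 F := by
    apply contDiff_const.mul
    apply (κ_C1 δ).comp
    exact Complex.reCLM.contDiff.comp (contDiff_id.sub contDiff_const)
  have hFd : ∀ ζ v, fderiv ℝ F ζ v = c * (g δ ((ζ - q).re) * v.re) := by
    intro ζ v
    have h1 : HasFDerivAt (fun ζ : ℂ => (ζ - q).re) Complex.reCLM ζ := by
      have := Complex.reCLM.hasFDerivAt.comp ζ ((hasFDerivAt_id (𝕜 := ℝ) ζ).sub_const q)
      exact this
    have h2 : HasFDerivAt F _ ζ := ((κ_deriv δ _).comp_hasFDerivAt ζ h1).const_mul c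
    rw [h2.fderiv]
    simp
  have hFb : ∀ ζ v, |fderiv ℝ F ζ v| ≤ Real.exp (w ζ) * ‖v‖ := by
    intro ζ v
    rw [hFd]
    by_cases h : δ ≤ |(ζ - q).re|
    · rw [g_zero hδ h]; simp; positivity
    · push Not at h
      have h1 : c ≤ Real.exp (w ζ) := by
        apply hcb
        rw [Complex.sub_re] at h
        calc |ζ.re| = |q.re + (ζ.re - q.re)| := by ring_nf
          _ ≤ |q.re| + |ζ.re - q.re| := abs_add_le _ _
          _ ≤ _ := by linarith
      rw [abs_mul, abs_mul, abs_of_pos hc, abs_of_nonneg (g_nonneg _ _)]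
      have h2 := g_le δ ((ζ - q).re)
      have h3 := Complex.abs_re_le_norm v
      have h4 := g_nonneg δ ((ζ - q).re)
      have h5 := abs_nonneg v.re
      calc c * (g δ (ζ - q).re * |v.re|) ≤ c * (1 * ‖v‖) := by gcongr
        _ ≤ Real.exp (w ζ) * ‖v‖ := by rw [one_mul]; gcongr
  set η := -(c * κ δ (-δ)) with hη
  have hη0 : 0 < η := by
    have := mul_neg_of_pos_of_neg hc (κ_gap hδ)
    linarith
  obtain ⟨k, hk⟩ := exists_nat_ge (2 * d / η)
  rw [div_le_iff₀ hη0] at hk
  have hne : p - q ≠ 0 := sub_ne_zero.2 hpq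
  set z₀ := Complex.log (p - q) with hz0
  have he0 : Complex.exp z₀ = p - q := Complex.exp_log hne
  set z₁ := z₀ + (2 * Real.pi * k : ℝ) * Complex.I with hz1
  have he1 : Complex.exp z₁ = p - q := by
    rw [hz1, Complex.exp_add, he0]
    have : Complex.exp (((2 * Real.pi * k : ℝ) : ℂ) * Complex.I) = 1 := by
      rw [Complex.exp_eq_one_iff]
      exact ⟨k, by push_cast; ring⟩
    rw [this, mul_one]
  refine ⟨z₀, z₁, ?_⟩
  intro a b γ hγ ha hb
  have hφ1 : ContDiff ℝ 1 (φ q) := (φ_smooth q).of_le (by exact_mod_cast le_top)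
  have hΓ : PC1 (fun t => φ q (γ t)) a b := hγ.comp hφ1
  have hnc : Continuous (next w q) := (next_smooth hw q).continuous
  have hlen : ∀ s t, a ≤ s → s ≤ t → t ≤ b → len (next w q) γ s t = len w (fun t => φ q (γ t)) s t :=
    fun s t h1 h2 h3 => len_comp (φ_deriv q) (exp_next w q) (hγ.restrict h1 h2 h3)
  by_cases hcase : ∃ t ∈ Icc a b, ‖φ q (γ t) - q‖ ≤ δ
  · obtain ⟨t, ht, hte⟩ := hcase
    have hfar := hnear _ hte
    rw [len_add hnc hγ ht.1 ht.2, hlen a t le_rfl ht.1 ht.2, hlen t b ht.1 ht.2 le_rfl]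
    have h1 := hfar a t _ (hΓ.restrict le_rfl ht.1 ht.2) (by simp [ha, φ, he0]) rfl
    have h2 := hfar.symm t b _ (hΓ.restrict ht.1 ht.2 le_rfl) rfl (by simp [hb, φ, he1])
    linarith
  · push Not at hcase
    have hbig : ∀ t ∈ Icc a b, δ < Real.exp ((γ t).re) := by
      intro t ht
      have := hcase t ht
      simpa [φ, Complex.norm_exp] using this
    have hy : ContinuousOn (fun t => (γ t).im) (Icc a b) :=
      Complex.continuous_im.comp_continuousOn hγ.cont
    have hind : ∀ j : ℕ, ∀ t ∈ Icc a b, (γ t).im = z₀.im + 2 * Real.pi * j →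
        j * η ≤ len (next w q) γ a t := by
      intro j
      induction j with
      | zero =>
        intro t ht _
        simpa using len_nonneg ht.1
      | succ j ih =>
        intro t ht hyt
        have hpi := Real.pi_pos
        push_cast at hyt
        -- earlier time
        have h1 : z₀.im + 2 * Real.pi * j ∈ (fun t => (γ t).im) '' Icc a t := by
          apply intermediate_value_Icc ht.1 (hy.mono (Icc_subset_Icc_right ht.2))
          rw [ha, hyt]
          constructor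
          · have : 0 ≤ 2 * Real.pi * j := by positivity
            linarith
          · nlinarith
        obtain ⟨t₀, ht₀, hyt₀⟩ := h1
        simp only at hyt₀
        have hi := ih t₀ ⟨ht₀.1, ht₀.2.trans ht.2⟩ hyt₀
        have hyc : ContinuousOn (fun t => (γ t).im) (Icc t₀ t) :=
          hy.mono (Icc_subset_Icc ht₀.1 ht.2)
        have himg : ∀ y ∈ Icc (z₀.im + 2 * Real.pi * j) (z₀.im + 2 * Real.pi * (j + 1)),
            ∃ s ∈ Icc t₀ t, (γ s).im = y := by
          intro y hyy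
          have := intermediate_value_Icc ht₀.2 hyc (by rw [hyt₀, hyt]; exact hyy)
          exact this
        -- a value congruent to a given one inside any interval of length `2π`
        have hval : ∀ θ : ℝ, ∃ s ∈ Icc t₀ t, Real.cos (γ s).im = Real.cos θ := by
          intro θ
          obtain ⟨y, hy1, hy2⟩ := Real.cos_periodic.exists_mem_Ico (by positivity) θ
            (z₀.im + 2 * Real.pi * j)
          obtain ⟨s, hs1, hs2⟩ := himg y ⟨hy1.1, by linarith [hy1.2]⟩
          exact ⟨s, hs1, by rw [hs2, hy2]⟩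
        obtain ⟨s₁, hs₁, hc₁⟩ := hval (Real.pi / 2)
        obtain ⟨s₂, hs₂, hc₂⟩ := hval Real.pi
        rw [Real.cos_pi_div_two] at hc₁
        rw [Real.cos_pi] at hc₂
        have f1 : F (φ q (γ s₁)) = 0 := by
          simp [hF, φ, Complex.exp_re, hc₁, κ_zero]
        have f2 : F (φ q (γ s₂)) = -η := by
          have h5 := hbig s₂ ⟨ht₀.1.trans hs₂.1, hs₂.2.trans ht.2⟩
          have h6 : (φ q (γ s₂) - q).re = -Real.exp (γ s₂).re := by
            simp [φ, Complex.exp_re, hc₂]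
          simp only [hF, hη, neg_neg]
          rw [h6, κ_left hδ (by linarith)]
        have h7 : η ≤ len (next w q) γ t₀ t := by
          have h8 : ∀ r₁ r₂, t₀ ≤ r₁ → r₁ ≤ r₂ → r₂ ≤ t →
              |F (φ q (γ r₂)) - F (φ q (γ r₁))| ≤ len (next w q) γ t₀ t := by
            intro r₁ r₂ k1 k2 k3
            have k4 : a ≤ r₁ := ht₀.1.trans k1
            have k5 : r₂ ≤ b := k3.trans ht.2
            have h9 := lower_bound hFs hwc (hΓ.restrict k4 k2 k5) (fun t _ v => hFb _ v)
            rw [← hlen r₁ r₂ k4 k2 k5] at h9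
            exact h9.trans (len_mono hnc (hγ.restrict ht₀.1 ht₀.2 ht.2) k1 k2 k3)
          rcases le_total s₁ s₂ with h | h
          · have := h8 s₁ s₂ hs₁.1 h hs₂.2
            rw [f1, f2, sub_zero, abs_neg, abs_of_pos hη0] at this
            exact this
          · have := h8 s₂ s₁ hs₂.1 h hs₁.2
            rw [f1, f2, zero_sub, neg_neg, abs_of_pos hη0] at this
            exact this
        rw [len_add hnc (hγ.restrict le_rfl ht.1 ht.2) ht₀.1 ht₀.2]
        push_cast
        linarith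
    have := hind k b ⟨hγ.le, le_rfl⟩ (by rw [hb, hz1]; simp)
    linarith

/-- the one-dimensional solution -/
noncomputable def w0 (z : ℂ) : ℝ := -Real.log (Real.cosh z.re)

theorem w0_smooth : ContDiff ℝ ∞ w0 := by
  unfold w0
  have h1 : ContDiff ℝ ∞ (fun z : ℂ => Real.cosh z.re) := Real.contDiff_cosh.comp Complex.reCLM.contDiff
  exact (h1.log (fun z => (Real.cosh_pos _).ne')).neg

theorem exp_w0 (z : ℂ) : Real.exp (w0 z) = (Real.cosh z.re)⁻¹ := by
  unfold w0
  rw [Real.exp_neg, Real.exp_log (Real.cosh_pos _)]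

/-- Laplacian of a function of `Re z` -/
theorem lap_fun_re {f : ℝ → ℝ} (z : ℂ) (hf : ContDiffAt ℝ 2 f z.re) :
    (Δ (fun z : ℂ => f z.re)) z = deriv (deriv f) z.re := by
  have h := lap_comp_real (F := f) (g := fun z : ℂ => z.re) (z := z) hf
    Complex.reCLM.contDiff.contDiffAt
  rw [h, lap_re]
  have : gsq (fun z : ℂ => z.re) z = 1 := by
    unfold gsq
    have : fderiv ℝ (fun z : ℂ => z.re) z = Complex.reCLM := Complex.reCLM.fderiv
    rw [this]; simp
  rw [this]; ring

theorem lap_w0 (z : ℂ) : (Δ w0) z + Real.exp (2 * w0 z) = 0 := by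
  have h1 : (Δ w0) z = deriv (deriv (fun x => -Real.log (Real.cosh x))) z.re := by
    apply lap_fun_re (f := fun x => -Real.log (Real.cosh x))
    exact ((Real.contDiff_cosh.log (fun z => (Real.cosh_pos _).ne')).neg).contDiffAt
  have h2 : deriv (fun x => -Real.log (Real.cosh x)) = fun x => -(Real.sinh x / Real.cosh x) := by
    funext x
    exact ((Real.hasDerivAt_cosh x).log (Real.cosh_pos _).ne').neg.deriv
  have h3 : HasDerivAt (fun x => -(Real.sinh x / Real.cosh x))
      (-((Real.cosh z.re * Real.cosh z.re - Real.sinh z.re * Real.sinh z.re) / Real.cosh z.re ^ 2)) z.re :=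
    ((Real.hasDerivAt_sinh z.re).div (Real.hasDerivAt_cosh z.re) (Real.cosh_pos _).ne').neg
  rw [h1, h2, h3.deriv]
  have h4 : Real.exp (2 * w0 z) = (Real.cosh z.re ^ 2)⁻¹ := by
    rw [two_mul, Real.exp_add, exp_w0, ← mul_inv, sq]
  have h5 := Real.cosh_sq z.re
  have h6 := Real.cosh_pos z.re
  rw [h4]
  have : Real.cosh z.re * Real.cosh z.re - Real.sinh z.re * Real.sinh z.re = 1 := by nlinarith
  rw [this]
  field_simp
  ring

theorem w0_strips : Strips w0 := by
  intro M
  refine ⟨(Real.cosh M)⁻¹, by positivity, ?_⟩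
  intro z hz
  rw [exp_w0]
  apply inv_anti₀ (Real.cosh_pos _)
  rw [Real.cosh_le_cosh]
  exact hz.trans (le_abs_self M)

theorem w0_far : Far w0 0 1 (1 / 4) := by
  intro a b γ hγ ha hb
  set f : ℝ → ℝ := fun x => Real.sinh x / Real.cosh x with hf
  have hfd : ∀ x, HasDerivAt f ((Real.cosh x ^ 2)⁻¹) x := by
    intro x
    have h3 := (Real.hasDerivAt_sinh x).div (Real.hasDerivAt_cosh x) (Real.cosh_pos _).ne'
    have h5 := Real.cosh_sq x
    have : (Real.cosh x * Real.cosh x - Real.sinh x * Real.sinh x) / Real.cosh x ^ 2 =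
        (Real.cosh x ^ 2)⁻¹ := by
      have : Real.cosh x * Real.cosh x - Real.sinh x * Real.sinh x = 1 := by nlinarith
      rw [this, one_div]
    rw [this] at h3
    exact h3
  have hfs : ContDiff ℝ 1 f := Real.contDiff_sinh.div Real.contDiff_cosh (fun x => (Real.cosh_pos x).ne')
  have hFs : ContDiff ℝ 1 (fun z : ℂ => f z.re) := hfs.comp Complex.reCLM.contDiff
  have h := lower_bound hFs w0_smooth.continuous hγ (fun t _ v => by
    have h1 : HasFDerivAt (fun z : ℂ => f z.re) _ (γ t) :=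
      (hfd (γ t).re).comp_hasFDerivAt (γ t) Complex.reCLM.hasFDerivAt
    rw [h1.fderiv, exp_w0]
    simp only [smul_apply, Complex.reCLM_apply, smul_eq_mul]
    have h2 : 1 ≤ Real.cosh (γ t).re := Real.one_le_cosh _
    rw [abs_mul, abs_of_nonneg (by positivity)]
    apply mul_le_mul _ (Complex.abs_re_le_norm v) (abs_nonneg _) (by positivity)
    apply inv_anti₀ (by positivity)
    nlinarith)
  refine le_trans ?_ h
  rw [ha, hb]
  simp only [hf, Complex.one_re, Complex.zero_re, Real.sinh_zero, zero_div, sub_zero]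
  have h1 : (1:ℝ) ≤ Real.sinh 1 := Real.self_le_sinh_iff.2 zero_le_one
  have h2 : Real.cosh 1 ≤ 4 := by
    rw [Real.cosh_eq]
    have := Real.exp_one_lt_d9
    have h3 : Real.exp (-1) ≤ 1 := Real.exp_le_one_iff.2 (by norm_num)
    linarith
  rw [abs_of_nonneg (by positivity), le_div_iff₀ (Real.cosh_pos _)]
  linarith

/-- solutions with points arbitrarily far apart -/
theorem exists_far (n : ℕ) : ∃ (w : ℂ → ℝ) (p q : ℂ), ContDiff ℝ ∞ w ∧
    (∀ z, (Δ w) z + Real.exp (2 * w z) = 0) ∧ Strips w ∧ Far w p q (1 / 4 * (3 / 2) ^ n) := by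
  induction n with
  | zero => exact ⟨w0, 0, 1, w0_smooth, lap_w0, w0_strips, by simpa using w0_far⟩
  | succ n ih =>
    obtain ⟨w, p, q, h1, h2, h3, h4⟩ := ih
    obtain ⟨z₀, z₁, h5⟩ := step h1 h3 (by positivity) h4 (ε := 1 / 4 * (3 / 2) ^ n / 4) (by positivity)
    refine ⟨next w q, z₀, z₁, next_smooth h1 q, lap_next h1 h2 q, next_strips h3 q, ?_⟩
    have e : 2 * (1 / 4 * (3 / 2 : ℝ) ^ n - 1 / 4 * (3 / 2) ^ n / 4) = 1 / 4 * (3 / 2) ^ (n + 1) := by
      rw [pow_succ]; ring
    rwa [e] at h5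

end Q61.Liou
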