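import Pool.Agent.Q61.Green

set_option autoImplicit false

open MeasureTheory InnerProductSpace Laplacian Topology Filter Set

namespace Q61

theorem contDiff_normSq_plane {n : WithTop ℕ∞} : ContDiff ℝ n (fun z : ℂ => ‖z‖ ^ 2) :=
  contDiff_id.norm_sq ℝ

theorem fderiv_normSq_plane (z v : ℂ) :
    fderiv ℝ (fun z : ℂ => ‖z‖ ^ 2) z v = 2 * inner ℝ z v := by
  have h := (hasFDerivAt_id (𝕜 := ℝ) z).norm_sq
  have h2 : HasFDerivAt (fun z : ℂ => ‖z‖ ^ 2) _ z := h
  rw [h2.fderiv]
  simp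
  ring

theorem fderiv2_normSq_plane (z v w : ℂ) :
    fderiv ℝ (fderiv ℝ (fun z : ℂ => ‖z‖ ^ 2)) z v w = 2 * inner ℝ v w := by
  have h : (fderiv ℝ (fun z : ℂ => ‖z‖ ^ 2)) = fun z => (2 : ℝ) • (innerSL ℝ z) := by
    funext z
    ext v
    rw [fderiv_normSq_plane]; simp
  rw [h]
  have h2 : HasFDerivAt (fun z : ℂ => (2 : ℝ) • (innerSL ℝ z)) _ z :=
    ((innerSL ℝ).hasFDerivAt (x := z)).const_smul (2 : ℝ)
  rw [h2.fderiv]
  simp [innerSL]

theorem lap_normSq_plane (z : ℂ) : (Δ (fun z : ℂ => ‖z‖ ^ 2)) z = 4 := by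
  rw [lap_plane, fderiv2_normSq_plane, fderiv2_normSq_plane]
  norm_num [Complex.inner]

theorem gsq_normSq_plane (z : ℂ) : gsq (fun z : ℂ => ‖z‖ ^ 2) z = 4 * ‖z‖ ^ 2 := by
  rw [gsq, fderiv_normSq_plane, fderiv_normSq_plane, ← Complex.normSq_eq_norm_sq,
    Complex.normSq_apply]
  simp [Complex.inner]
  ring

/-- Laplacian of a radial function of the plane, as a function of `‖z‖^2`. -/
theorem lap_radial_plane {F : ℝ → ℝ} {z : ℂ} (hF : ContDiffAt ℝ 2 F (‖z‖ ^ 2)) :
    (Δ (fun y : ℂ => F (‖y‖ ^ 2))) z = 4 * ‖z‖ ^ 2 * deriv (deriv F) (‖z‖ ^ 2) +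
      4 * deriv F (‖z‖ ^ 2) := by
  rw [lap_comp_real (F := F) (g := fun y : ℂ => ‖y‖ ^ 2) hF contDiff_normSq_plane.contDiffAt,
    gsq_normSq_plane, lap_normSq_plane]
  ring

theorem deriv_logReg (c : ℝ) (hc : 0 < c) (s : ℝ) (hs : 0 ≤ s) :
    deriv (fun s : ℝ => 1 / 2 * Real.log (s + c)) s = 1 / (2 * (s + c)) := by
  have h1 : HasDerivAt (fun s : ℝ => 1 / 2 * Real.log (s + c)) (1 / 2 * (1 / (s + c))) s := by
    have := ((hasDerivAt_id s).add_const c).log (by simp; positivity)
    exact this.const_mul (1 / 2)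
  rw [h1.deriv]
  field_simp

theorem deriv2_logReg (c : ℝ) (hc : 0 < c) (s : ℝ) (hs : 0 ≤ s) :
    deriv (deriv (fun s : ℝ => 1 / 2 * Real.log (s + c))) s = -1 / (2 * (s + c) ^ 2) := by
  have hev : deriv (fun s : ℝ => 1 / 2 * Real.log (s + c)) =ᶠ[𝓝 s] fun s => 1 / (2 * (s + c)) := by
    have : Ioi (-c) ∈ 𝓝 s := Ioi_mem_nhds (by linarith)
    filter_upwards [this] with t ht
    have ht' : 0 < t + c := by have : -c < t := ht; linarith
    have h1 : HasDerivAt (fun s : ℝ => 1 / 2 * Real.log (s + c)) (1 / 2 * (1 / (t + c))) t := by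
      have := ((hasDerivAt_id t).add_const c).log (by simpa using ht'.ne')
      exact this.const_mul (1 / 2)
    rw [h1.deriv]
    field_simp
  rw [hev.deriv_eq]
  have hpos : 0 < s + c := by positivity
  have h2 : HasDerivAt (fun s : ℝ => 1 / (2 * (s + c))) (-1 / (2 * (s + c) ^ 2)) s := by
    have h3 : HasDerivAt (fun s : ℝ => 2 * (s + c)) 2 s := by
      simpa using ((hasDerivAt_id s).add_const c).const_mul 2
    have h4 := (hasDerivAt_const s (1:ℝ)).div h3 (by positivity)
    refine h4.congr_deriv ?_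
    field_simp
    ring
  exact h2.deriv

theorem lap_logReg (c : ℝ) (hc : 0 < c) (z : ℂ) :
    (Δ (fun y : ℂ => 1 / 2 * Real.log (‖y‖ ^ 2 + c))) z = 2 * c / (‖z‖ ^ 2 + c) ^ 2 := by
  have hF : ContDiffAt ℝ 2 (fun s : ℝ => 1 / 2 * Real.log (s + c)) (‖z‖ ^ 2) := by
    apply ContDiffAt.mul contDiffAt_const
    exact (contDiffAt_id.add contDiffAt_const).log (by simp; positivity)
  rw [lap_radial_plane (F := fun s : ℝ => 1 / 2 * Real.log (s + c)) hF,
    deriv_logReg c hc _ (by positivity), deriv2_logReg c hc _ (by positivity)]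
  field_simp
  ring

theorem contDiff_logReg (c : ℝ) (hc : 0 < c) {n : WithTop ℕ∞} :
    ContDiff ℝ n (fun y : ℂ => 1 / 2 * Real.log (‖y‖ ^ 2 + c)) := by
  apply ContDiff.mul contDiff_const
  apply ContDiff.log
  · exact contDiff_normSq_plane.add contDiff_const
  · intro x; positivity

theorem integrable_kernel_plane : Integrable (fun z : ℂ => 2 / (1 + ‖z‖ ^ 2) ^ 2) ∧
    ∫ z : ℂ, 2 / (1 + ‖z‖ ^ 2) ^ 2 = 2 * Real.pi := by
  have hderiv : ∀ x ∈ Ici (0:ℝ), HasDerivAt (fun y : ℝ => -1 / (1 + y ^ 2))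
      (x * (2 / (1 + x ^ 2) ^ 2)) x := by
    intro x _
    have h1 : HasDerivAt (fun y : ℝ => 1 + y ^ 2) (2 * x) x := by
      simpa using (hasDerivAt_pow 2 x).const_add 1
    have h2 := (hasDerivAt_const x (-1:ℝ)).div h1 (by positivity)
    refine h2.congr_deriv ?_
    field_simp
    ring
  have hlim : Tendsto (fun y : ℝ => -1 / (1 + y ^ 2)) atTop (𝓝 0) := by
    apply Tendsto.div_atTop tendsto_const_nhds
    exact tendsto_atTop_add_const_left _ _ (tendsto_pow_atTop (by norm_num))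
  have hint : IntegrableOn (fun x : ℝ => x * (2 / (1 + x ^ 2) ^ 2)) (Ioi 0) := by
    apply integrableOn_Ioi_deriv_of_nonneg' hderiv _ hlim
    intro x hx
    have : 0 < x := hx
    positivity
  have hval := integral_Ioi_of_hasDerivAt_of_tendsto' hderiv hint hlim
  have hfin : Module.finrank ℝ ℂ = 2 := Complex.finrank_real_complex
  constructor
  · have := (integrable_fun_norm_addHaar (μ := (volume : Measure ℂ))
      (f := fun r : ℝ => 2 / (1 + r ^ 2) ^ 2)).2
    apply this
    rw [hfin]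
    simpa using hint
  · have := integral_fun_norm_addHaar (volume : Measure ℂ) (fun r : ℝ => 2 / (1 + r ^ 2) ^ 2)
    rw [this, hfin]
    simp only [Nat.add_one_sub_one, pow_one, smul_eq_mul]
    rw [hval]
    simp [Measure.real, Complex.volume_ball]

theorem integrableOn_log_norm (R : ℝ) :
    IntegrableOn (fun z : ℂ => Real.log ‖z‖) (Metric.ball 0 R) := by
  rw [integrableOn_fun_norm_addHaar (μ := (volume : Measure ℂ)) (f := Real.log),
    Complex.finrank_real_complex]
  have h : IntegrableOn (fun y : ℝ => y * Real.log y) (Icc 0 R) :=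
    (Real.continuous_mul_log.continuousOn).integrableOn_compact isCompact_Icc
  simpa using h.mono_set Ioo_subset_Icc_self

theorem integrable_log_norm_mul {ψ : ℂ → ℝ} (hψ : Continuous ψ) (hc : HasCompactSupport ψ) :
    Integrable (fun z : ℂ => Real.log ‖z‖ * ψ z) := by
  obtain ⟨R, hR⟩ := hc.isCompact.isBounded.subset_ball (0 : ℂ)
  obtain ⟨C, hC⟩ := hψ.bounded_above_of_compact_support hc
  have h1 : IntegrableOn (fun z : ℂ => Real.log ‖z‖ * ψ z) (Metric.ball 0 R) := by
    have := (integrableOn_log_norm R).bdd_mul (c := C) (f := ψ) hψ.aestronglyMeasurable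
      (ae_of_all _ hC)
    refine Integrable.congr this (ae_of_all _ fun z => ?_)
    simp [mul_comm]
  rw [← integrableOn_univ]
  have : (univ : Set ℂ) = Metric.ball 0 R ∪ (Metric.ball 0 R)ᶜ := (union_compl_self _).symm
  rw [this]
  apply h1.union
  apply IntegrableOn.congr_fun (f := fun _ => (0:ℝ)) integrableOn_zero
  · intro z hz
    have : z ∉ tsupport ψ := fun h => hz (hR h)
    simp [image_eq_zero_of_notMem_tsupport this]
  · exact Metric.isOpen_ball.measurableSet.compl

/-- `log ‖z‖` is `2π` times the fundamental solution of the Laplacian in the plane. -/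
theorem log_fund {φ : ℂ → ℝ} (hφ : ContDiff ℝ 2 φ) (hc : HasCompactSupport φ) :
    ∫ z : ℂ, Real.log ‖z‖ * (Δ φ) z = 2 * Real.pi * φ 0 := by
  have hΔc : Continuous (Δ φ) := by
    have : (Δ φ) = fun z => fderiv ℝ (fderiv ℝ φ) z 1 1 +
      fderiv ℝ (fderiv ℝ φ) z Complex.I Complex.I := by funext z; exact lap_plane φ z
    rw [this]
    exact (continuous_fderiv2 hφ 1 1).add (continuous_fderiv2 hφ _ _)
  have hΔs : HasCompactSupport (Δ φ) := by
    have : (Δ φ) = (fun z => fderiv ℝ (fderiv ℝ φ) z 1 1) +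
      (fun z => fderiv ℝ (fderiv ℝ φ) z Complex.I Complex.I) := by funext z; exact lap_plane φ z
    rw [this]
    exact (hasCompactSupport_fderiv2 hc 1 1).add (hasCompactSupport_fderiv2 hc _ _)
  set e : ℕ → ℝ := fun n => 1 / ((n : ℝ) + 1) with he
  have hepos : ∀ n, 0 < e n := fun n => by simp only [he]; positivity
  have hele : ∀ n, e n ≤ 1 := by
    intro n
    simp only [he]
    rw [div_le_one (by positivity)]
    have : (0:ℝ) ≤ n := Nat.cast_nonneg n
    linarith
  have helim : Tendsto e atTop (𝓝 0) := tendsto_one_div_add_atTop_nhds_zero_nat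
  have key : ∀ n, ∫ z : ℂ, (1 / 2 * Real.log (‖z‖ ^ 2 + e n ^ 2)) * (Δ φ) z =
      ∫ y : ℂ, 2 / (1 + ‖y‖ ^ 2) ^ 2 * φ (e n • y) := by
    intro n
    have h0 := hepos n
    rw [green_plane (fun x _ => (contDiff_logReg (e n ^ 2) (by positivity)).contDiffAt) hφ hc]
    simp only [lap_logReg (e n ^ 2) (by positivity : 0 < e n ^ 2)]
    have h1 := Measure.integral_comp_smul (volume : Measure ℂ)
      (fun z : ℂ => 2 * e n ^ 2 / (‖z‖ ^ 2 + e n ^ 2) ^ 2 * φ z) (e n)
    rw [Complex.finrank_real_complex] at h1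
    have h2 : ∫ z : ℂ, 2 * e n ^ 2 / (‖z‖ ^ 2 + e n ^ 2) ^ 2 * φ z =
        e n ^ 2 * ∫ y : ℂ, 2 * e n ^ 2 / (‖e n • y‖ ^ 2 + e n ^ 2) ^ 2 * φ (e n • y) := by
      rw [h1, abs_of_pos (by positivity), smul_eq_mul, ← mul_assoc,
        mul_inv_cancel₀ (by positivity), one_mul]
    rw [h2, ← integral_const_mul]
    congr 1
    funext y
    rw [norm_smul, Real.norm_eq_abs, abs_of_pos h0]
    field_simp
    ring
  have lim1 : Tendsto (fun n => ∫ z : ℂ, (1 / 2 * Real.log (‖z‖ ^ 2 + e n ^ 2)) * (Δ φ) z) atTop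
      (𝓝 (∫ z : ℂ, Real.log ‖z‖ * (Δ φ) z)) := by
    apply tendsto_integral_of_dominated_convergence
      (fun z => ‖Real.log ‖z‖ * (Δ φ) z‖ + ‖(1 / 2 * Real.log (‖z‖ ^ 2 + 1)) * (Δ φ) z‖)
    · intro n
      exact ((contDiff_logReg (e n ^ 2) (by have := hepos n; positivity) (n := 0)).continuous.mul
        hΔc).aestronglyMeasurable
    · apply (integrable_log_norm_mul hΔc hΔs).norm.add
      apply Integrable.norm
      apply Continuous.integrable_of_hasCompactSupport
      · exact (contDiff_logReg 1 one_pos (n := 0)).continuous.mul hΔc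
      · exact hΔs.mul_left
    · intro n
      have hne : ∀ᵐ z : ℂ, z ≠ 0 := by
        rw [ae_iff]; simp
      filter_upwards [hne] with z hz
      have hz' : 0 < ‖z‖ := norm_pos_iff.2 hz
      have hlow : Real.log ‖z‖ ≤ 1 / 2 * Real.log (‖z‖ ^ 2 + e n ^ 2) := by
        have : Real.log ‖z‖ = 1 / 2 * Real.log (‖z‖ ^ 2) := by
          rw [Real.log_pow]; push_cast; ring
        rw [this]
        have := Real.log_le_log (by positivity : 0 < ‖z‖ ^ 2)
          (by nlinarith [sq_nonneg (e n)] : ‖z‖ ^ 2 ≤ ‖z‖ ^ 2 + e n ^ 2)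
        linarith
      have hup : 1 / 2 * Real.log (‖z‖ ^ 2 + e n ^ 2) ≤ 1 / 2 * Real.log (‖z‖ ^ 2 + 1) := by
        have h1 : e n ^ 2 ≤ 1 := by
          have := hele n; have := hepos n; nlinarith
        have := Real.log_le_log (by positivity : 0 < ‖z‖ ^ 2 + e n ^ 2)
          (by linarith : ‖z‖ ^ 2 + e n ^ 2 ≤ ‖z‖ ^ 2 + 1)
        linarith
      rw [norm_mul (1 / 2 * Real.log (‖z‖ ^ 2 + e n ^ 2)), norm_mul (Real.log ‖z‖),
        norm_mul (1 / 2 * Real.log (‖z‖ ^ 2 + 1)), ← add_mul]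
      apply mul_le_mul_of_nonneg_right _ (norm_nonneg _)
      rw [Real.norm_eq_abs, Real.norm_eq_abs, Real.norm_eq_abs]
      rw [abs_le]
      constructor
      · have := neg_abs_le (Real.log ‖z‖)
        have := abs_nonneg (1 / 2 * Real.log (‖z‖ ^ 2 + 1))
        linarith
      · have := le_abs_self (1 / 2 * Real.log (‖z‖ ^ 2 + 1))
        have := abs_nonneg (Real.log ‖z‖)
        linarith
    · have hne : ∀ᵐ z : ℂ, z ≠ 0 := by
        rw [ae_iff]; simp
      filter_upwards [hne] with z hz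
      have hz' : 0 < ‖z‖ := norm_pos_iff.2 hz
      apply Tendsto.mul_const
      have : Real.log ‖z‖ = 1 / 2 * Real.log (‖z‖ ^ 2 + 0 ^ 2) := by
        rw [zero_pow (by norm_num), add_zero, Real.log_pow]; push_cast; ring
      rw [this]
      apply Tendsto.const_mul
      apply Tendsto.log
      · exact tendsto_const_nhds.add (helim.pow 2)
      · positivity
  have lim2 : Tendsto (fun n => ∫ y : ℂ, 2 / (1 + ‖y‖ ^ 2) ^ 2 * φ (e n • y)) atTop
      (𝓝 (∫ y : ℂ, 2 / (1 + ‖y‖ ^ 2) ^ 2 * φ 0)) := by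
    obtain ⟨C, hC⟩ := hφ.continuous.bounded_above_of_compact_support hc
    apply tendsto_integral_of_dominated_convergence (fun y => 2 / (1 + ‖y‖ ^ 2) ^ 2 * C)
    · intro n
      apply Continuous.aestronglyMeasurable
      apply Continuous.mul
      · apply Continuous.div continuous_const (by fun_prop)
        intro x; positivity
      · exact hφ.continuous.comp (continuous_const_smul (e n))
    · exact integrable_kernel_plane.1.mul_const C
    · intro n
      apply ae_of_all
      intro y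
      rw [norm_mul, Real.norm_of_nonneg (by positivity)]
      exact mul_le_mul_of_nonneg_left (hC _) (by positivity)
    · apply ae_of_all
      intro y
      apply Tendsto.const_mul
      have : Tendsto (fun n => e n • y) atTop (𝓝 0) := by
        simpa using helim.smul_const y
      exact (hφ.continuous.tendsto 0).comp this
  rw [integral_mul_const, integrable_kernel_plane.2] at lim2
  simp only [key] at lim1
  exact tendsto_nhds_unique lim1 lim2

end Q61
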