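import Pool.Agent.Q61.QGrad

set_option autoImplicit false

open MeasureTheory InnerProductSpace Laplacian Topology Filter Set
open scoped ContDiff

namespace Q61.M0cf

open Q61.Sob Q61.QGrad

variable {n : ℕ}

/-- the unit ball -/
abbrev B (n : ℕ) : Set (En n) := Metric.ball 0 1

noncomputable def s (x : En n) : ℝ := 1 - ‖x‖ ^ 2
noncomputable def v (x : En n) : ℝ := s x + n / 4 * s x ^ 2
noncomputable def ψ (x : En n) : ℝ := 1 - Real.exp (-(2 * v x))
noncomputable def c (x : En n) : ℝ := 2 * n * (n + 2) * s x / ψ x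
noncomputable def h (x : En n) : ℝ := (Δ v) x + c x * v x - ‖gradient v x‖ ^ 2

theorem mem_B {x : En n} : x ∈ B n ↔ 0 < s x := by
  unfold s
  rw [mem_ball_zero_iff]
  constructor
  · intro h
    have : ‖x‖ ^ 2 < 1 := by nlinarith [norm_nonneg x]
    linarith
  · intro h
    nlinarith [norm_nonneg x]

theorem s_smooth {k : WithTop ℕ∞} : ContDiff ℝ k (s (n := n)) := contDiff_const.sub (contDiff_id.norm_sq ℝ)

theorem v_smooth {k : WithTop ℕ∞} : ContDiff ℝ k (v (n := n)) :=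
  s_smooth.add (contDiff_const.mul (s_smooth.pow 2))

theorem ψ_smooth {k : WithTop ℕ∞} : ContDiff ℝ k (ψ (n := n)) :=
  contDiff_const.sub (Real.contDiff_exp.comp ((contDiff_const.mul v_smooth).neg))

theorem s_le (x : En n) : s x ≤ 1 := by unfold s; nlinarith [norm_nonneg x]

theorem v_eq (x : En n) : v x = (fun t : ℝ => (1 - t) + n / 4 * (1 - t) ^ 2) (‖x‖ ^ 2) := rfl

theorem lap_v (x : En n) : (Δ v) x = -(n * (n + 2) * s x) := by
  have hg : ContDiff ℝ ∞ (fun t : ℝ => (1 - t) + (n:ℝ) / 4 * (1 - t) ^ 2) := by fun_prop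
  have h1 := lapN_radial (n := n) (g := fun t : ℝ => (1 - t) + (n:ℝ) / 4 * (1 - t) ^ 2) (x := x)
    (hg.of_le two_le).contDiffAt
  have e : (v (n := n)) = fun y : En n => (fun t : ℝ => (1 - t) + (n:ℝ) / 4 * (1 - t) ^ 2) (‖y‖ ^ 2) := rfl
  rw [e, h1, Lr]
  have d1 : deriv (fun t : ℝ => (1 - t) + (n:ℝ) / 4 * (1 - t) ^ 2) = fun t => -1 - (n:ℝ) / 2 * (1 - t) := by
    funext t
    have a : HasDerivAt (fun t : ℝ => 1 - t) (-1) t := (hasDerivAt_id t).const_sub 1
    have b := a.add ((a.pow 2).const_mul ((n:ℝ) / 4))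
    have := b.deriv
    rw [show (fun t : ℝ => (1 - t) + (n:ℝ) / 4 * (1 - t) ^ 2) = ((fun t : ℝ => 1 - t) + fun t : ℝ => (n:ℝ) / 4 * ((fun t : ℝ => 1 - t) ^ 2) t) from rfl]
    rw [this]; push_cast; ring
  have d2 : deriv (fun t : ℝ => -1 - (n:ℝ) / 2 * (1 - t)) = fun _ => (n:ℝ) / 2 := by
    funext t
    have a : HasDerivAt (fun t : ℝ => 1 - t) (-1) t := (hasDerivAt_id t).const_sub 1
    have b := (a.const_mul ((n:ℝ) / 2)).const_sub (-1)
    rw [b.deriv]; ring
  rw [d1, d2, s]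
  ring

theorem s_nonneg_cl {x : En n} (hx : x ∈ closure (B n)) : 0 ≤ s x := by
  have h1 : x ∈ Metric.closedBall (0 : En n) 1 := Metric.closure_ball_subset_closedBall hx
  rw [mem_closedBall_zero_iff] at h1
  unfold s
  nlinarith [norm_nonneg x]

theorem v_ge {x : En n} (hx : 0 ≤ s x) : s x ≤ v x := by
  unfold v
  have : (0:ℝ) ≤ n := by positivity
  have : 0 ≤ (n:ℝ) / 4 * s x ^ 2 := by positivity
  linarith

theorem v_le {x : En n} (hx : 0 ≤ s x) : v x ≤ (1 + n / 4) * s x := by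
  unfold v
  have h1 := s_le x
  have : s x ^ 2 ≤ s x := by nlinarith
  have h2 : (0:ℝ) ≤ (n:ℝ) / 4 := by positivity
  nlinarith

theorem v_le' {x : En n} (hx : 0 ≤ s x) : v x ≤ 1 + n / 4 := by
  refine (v_le hx).trans ?_
  have h1 := s_le x
  have h2 : (0:ℝ) ≤ 1 + (n:ℝ) / 4 := by positivity
  exact mul_le_of_le_one_right h2 h1

theorem ψ_lower {x : En n} (hx : 0 ≤ s x) : 2 / (3 + n / 2) * s x ≤ ψ x := by
  have hv := v_ge hx
  have hv' := v_le' hx
  have hn : (0:ℝ) ≤ n := by positivity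
  have h1 : Real.exp (-(2 * v x)) ≤ 1 / (1 + 2 * v x) := by
    rw [Real.exp_neg, ← one_div]
    apply one_div_le_one_div_of_le (by linarith)
    linarith [Real.add_one_le_exp (2 * v x)]
  have h2 : ψ x ≥ 2 * v x / (1 + 2 * v x) := by
    have hne : 1 + 2 * v x ≠ 0 := by linarith
    have : 1 - 1 / (1 + 2 * v x) = 2 * v x / (1 + 2 * v x) := by
      rw [eq_div_iff hne, sub_mul, div_mul_cancel₀ _ hne]; ring
    unfold ψ
    linarith
  refine le_trans ?_ h2
  rw [div_mul_eq_mul_div, div_le_div_iff₀ (by positivity) (by linarith)]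
  have h3 : 1 + 2 * v x ≤ 3 + n / 2 := by linarith
  calc 2 * s x * (1 + 2 * v x) ≤ 2 * s x * (3 + n / 2) := by
        apply mul_le_mul_of_nonneg_left h3; linarith
    _ ≤ 2 * v x * (3 + n / 2) := by
        apply mul_le_mul_of_nonneg_right _ (by positivity)
        linarith

theorem ψ_pos {x : En n} (hx : x ∈ B n) : 0 < ψ x := by
  have h1 := mem_B.1 hx
  have h2 := ψ_lower h1.le
  have : 0 < 2 / (3 + (n:ℝ) / 2) * s x := by positivity
  linarith

theorem ψ_le {x : En n} (hx : 0 ≤ s x) : ψ x ≤ 2 * (1 + n / 4) * s x := by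
  have h1 := v_le hx
  have h2 := Real.add_one_le_exp (-(2 * v x))
  unfold ψ
  linarith

theorem c_mul_ψ {x : En n} (hx : x ∈ B n) : c x * ψ x = 2 * n * (n + 2) * s x := by
  unfold c
  exact div_mul_cancel₀ _ (ψ_pos hx).ne'

theorem c_pos (hn : 0 < n) {x : En n} (hx : x ∈ B n) : 0 < c x := by
  unfold c
  have h1 := mem_B.1 hx
  have h2 := ψ_pos hx
  have h3 : (0:ℝ) < n := by exact_mod_cast hn
  positivity

theorem c_le {x : En n} (hx : x ∈ B n) : c x ≤ n * (n + 2) * (3 + n / 2) := by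
  unfold c
  have h1 := mem_B.1 hx
  have h2 := ψ_pos hx
  have h3 := ψ_lower h1.le
  rw [div_le_iff₀ h2]
  calc 2 * n * (n + 2) * s x = n * (n + 2) * (3 + n / 2) * (2 / (3 + n / 2) * s x) := by
        field_simp
    _ ≤ n * (n + 2) * (3 + n / 2) * ψ x := by
        apply mul_le_mul_of_nonneg_left h3; positivity

theorem c_nonneg {x : En n} (hx : x ∈ B n) : 0 ≤ c x := by
  unfold c
  have h1 := mem_B.1 hx
  have h2 := ψ_pos hx
  positivity

theorem c_cont {x : En n} (hx : x ∈ B n) : ContinuousAt c x := by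
  unfold c
  exact ((continuous_const.mul (s_smooth (k := 0)).continuous).continuousAt).div
    (ψ_smooth (k := 0)).continuous.continuousAt (ψ_pos hx).ne'

theorem grad_v_cont : Continuous (gradient (v (n := n))) := Sob.gradient_cont v_smooth

theorem lap_v_cont : Continuous (Δ (v (n := n))) := by
  have : (Δ (v (n := n))) = fun x => -(n * (n + 2) * s x) := by funext x; exact lap_v x
  rw [this]
  exact (continuous_const.mul (s_smooth (k := 0)).continuous).neg

theorem h_cont {x : En n} (hx : x ∈ B n) : ContinuousAt h x := by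
  unfold h
  exact (lap_v_cont.continuousAt.add ((c_cont hx).mul (v_smooth (k := 0)).continuous.continuousAt)).sub
    (grad_v_cont.norm.pow 2).continuousAt

theorem B_bdd : Bornology.IsBounded (B n) := Metric.isBounded_ball

theorem h_bdd : ∃ M : ℝ, ∀ x ∈ B n, |h x| ≤ M := by
  obtain ⟨C1, hC10, hC1⟩ := bdd_of_contAt (Ω := B n) B_bdd (f := Δ (v (n := n))) (fun x _ => lap_v_cont.continuousAt)
  obtain ⟨C2, hC20, hC2⟩ := bdd_of_contAt (Ω := B n) B_bdd (f := gradient (v (n := n)))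
    (fun x _ => grad_v_cont.continuousAt)
  refine ⟨C1 + n * (n + 2) * (3 + n / 2) * (1 + n / 4) + C2 ^ 2, fun x hx => ?_⟩
  have h1 := mem_B.1 hx
  have a1 := hC1 x hx
  have a2 := hC2 x hx
  have a3 := c_le hx
  have a4 := c_nonneg hx
  have a5 := v_le' h1.le
  have a6 : 0 ≤ v x := h1.le.trans (v_ge h1.le)
  unfold h
  rw [Real.norm_eq_abs] at a1
  have b1 : |c x * v x| ≤ n * (n + 2) * (3 + n / 2) * (1 + n / 4) := by
    rw [abs_of_nonneg (by positivity)]
    exact mul_le_mul a3 a5 a6 (by positivity)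
  have b2 : |‖gradient v x‖ ^ 2| ≤ C2 ^ 2 := by
    rw [abs_of_nonneg (by positivity)]
    exact pow_le_pow_left₀ (norm_nonneg _) a2 2
  calc |(Δ v) x + c x * v x - ‖gradient v x‖ ^ 2| ≤ |(Δ v) x + c x * v x| + |‖gradient v x‖ ^ 2| := abs_sub _ _
    _ ≤ |(Δ v) x| + |c x * v x| + |‖gradient v x‖ ^ 2| := by gcongr; exact abs_add_le _ _
    _ ≤ _ := by linarith

theorem v_H10 : IsH10 (B n) v (gradient v) := by
  apply isH10_of_vanish Metric.isOpen_ball B_bdd s_smooth (fun x => mem_B) (fun x _ => v_smooth.contDiffAt)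
    (C := 1 + n / 4)
  intro x hx
  have h1 := mem_B.1 hx
  rw [abs_of_nonneg (h1.le.trans (v_ge h1.le))]
  exact v_le h1.le

theorem ψ_H10 : IsH10 (B n) ψ (gradient ψ) := by
  apply isH10_of_vanish Metric.isOpen_ball B_bdd s_smooth (fun x => mem_B) (fun x _ => ψ_smooth.contDiffAt)
    (C := 2 * (1 + n / 4))
  intro x hx
  have h1 := mem_B.1 hx
  rw [abs_of_nonneg (ψ_pos hx).le]
  exact ψ_le h1.le

theorem s_H10 : IsH10 (B n) s (gradient s) := by
  apply isH10_of_vanish Metric.isOpen_ball B_bdd s_smooth (fun x => mem_B) (fun x _ => s_smooth.contDiffAt)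
    (C := 1)
  intro x hx
  have h1 := mem_B.1 hx
  rw [abs_of_nonneg h1.le, one_mul]

theorem grad_ψ (x : En n) : gradient ψ x = (2 * (1 - ψ x)) • gradient v x := by
  have h1 : gradient (fun y : En n => (fun t : ℝ => 1 - Real.exp (-(2 * t))) (v y)) x =
      deriv (fun t : ℝ => 1 - Real.exp (-(2 * t))) (v x) • gradient v x :=
    gradient_comp (F := fun t : ℝ => 1 - Real.exp (-(2 * t))) (by fun_prop)
      ((v_smooth (k := 1)).differentiable (by norm_num) x)
  have h2 : deriv (fun t : ℝ => 1 - Real.exp (-(2 * t))) (v x) = 2 * (1 - ψ x) := by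
    have a : HasDerivAt (fun t : ℝ => -(2 * t)) (-(2 * 1)) (v x) := ((hasDerivAt_id _).const_mul 2).neg
    have b := (a.exp).const_sub 1
    rw [b.deriv]
    unfold ψ; ring
  rw [h2] at h1
  exact h1

end Q61.M0cf
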