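import Pool.Agent.Q61.MP0cf

set_option autoImplicit false

open MeasureTheory InnerProductSpace Laplacian Topology Filter Set
open scoped ContDiff

namespace Q61.M0cf

open Q61.Sob Q61.QGrad

variable {n : ℕ}

/-- the restricted Lebesgue measure -/
noncomputable abbrev mB (n : ℕ) : Measure (En n) := (volume : Measure (En n)).restrict (B n)

instance : IsFiniteMeasure (mB n) := finite_restrict B_bdd

theorem int_mul {F w : En n → ℝ} {C : ℝ} (hF : AEStronglyMeasurable F (mB n)) (hC : ∀ x ∈ B n, |F x| ≤ C)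
    (hw : Integrable w (mB n)) : Integrable (fun x => F x * w x) (mB n) := by
  refine Integrable.mono' (hw.norm.const_mul C) (hF.mul hw.1) ?_
  rw [ae_restrict_iff' Metric.isOpen_ball.measurableSet]
  refine ae_of_all _ fun x hx => ?_
  rw [norm_mul]
  exact mul_le_mul_of_nonneg_right (hC x hx) (norm_nonneg _)

theorem c_aesm : AEStronglyMeasurable c (mB n) := aesm_of_contAt Metric.isOpen_ball fun _ hx => c_cont hx
theorem h_aesm : AEStronglyMeasurable h (mB n) := aesm_of_contAt Metric.isOpen_ball fun _ hx => h_cont hx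

theorem c_abs {x : En n} (hx : x ∈ B n) : |c x| ≤ n * (n + 2) * (3 + n / 2) := by
  rw [abs_of_nonneg (c_nonneg hx)]; exact c_le hx

theorem bddB {f : En n → ℝ} (hf : Continuous f) : ∃ C : ℝ, ∀ x ∈ B n, |f x| ≤ C := by
  obtain ⟨C, -, hC⟩ := bdd_of_contAt (Ω := B n) B_bdd (fun x _ => hf.continuousAt)
  exact ⟨C, hC⟩

theorem int_cont_mul {f w : En n → ℝ} (hf : Continuous f) (hw : Integrable w (mB n)) :
    Integrable (fun x => f x * w x) (mB n) := by
  obtain ⟨C, hC⟩ := bddB hf
  exact int_mul hf.aestronglyMeasurable hC hw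

theorem intL2 {w : En n → ℝ} (hw : MemLp w 2 (mB n)) : Integrable w (mB n) := hw.integrable (by norm_num)

theorem v_cont : Continuous (v (n := n)) := (v_smooth (k := 0)).continuous
theorem ψ_cont : Continuous (ψ (n := n)) := (ψ_smooth (k := 0)).continuous

/-- `u₀ = -v` is a solution for `lam = 1` -/
theorem sol0 : IsSolution (B n) 1 c (fun _ => 1) h (fun x => -v x) (fun x => -gradient v x) := by
  refine ⟨?_, ?_, ?_⟩
  · have := v_H10 (n := n) |>.const_mul (-1)
    simpa using this
  · obtain ⟨C, hC⟩ := bddB (n := n) v_cont.neg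
    refine ⟨C, ?_⟩
    rw [ae_restrict_iff' Metric.isOpen_ball.measurableSet]
    exact ae_of_all _ hC
  · intro w W hw _
    have hg := green_H10 Metric.isOpen_ball B_bdd hw (f := v) (fun x _ => v_smooth.contDiffAt)
    have iw := intL2 hw.1
    have i1 : Integrable (fun x => c x * -v x * w x) (mB n) := by
      have := int_mul c_aesm (fun x hx => c_abs hx) (int_cont_mul v_cont.neg iw)
      refine this.congr (ae_of_all _ fun x => ?_)
      show c x * (-v x * w x) = _
      ring
    have i2 : Integrable (fun x => (1:ℝ) * ‖-gradient v x‖ ^ 2 * w x) (mB n) := by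
      have := int_cont_mul (f := fun x : En n => ‖gradient v x‖ ^ 2) (grad_v_cont.norm.pow 2) iw
      refine this.congr (ae_of_all _ fun x => ?_)
      simp
    have i3 : Integrable (fun x => h x * w x) (mB n) := by
      obtain ⟨M, hM⟩ := h_bdd (n := n)
      exact int_mul h_aesm hM iw
    have i12 : Integrable (fun x => c x * -v x * w x + (1:ℝ) * ‖-gradient v x‖ ^ 2 * w x) (mB n) := i1.add i2
    rw [one_mul, ← integral_add i1 i2, ← integral_add i12 i3]
    have e1 : ∫ x in B n, inner ℝ (-gradient v x) (W x) = -∫ x in B n, inner ℝ (gradient v x) (W x) := by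
      rw [← integral_neg]; congr 1; funext x; rw [inner_neg_left]
    rw [e1, hg, neg_neg]
    apply integral_congr_ae
    refine ae_of_all _ fun x => ?_
    show (Δ v) x * w x = c x * -v x * w x + (1:ℝ) * ‖-gradient v x‖ ^ 2 * w x + h x * w x
    rw [norm_neg]
    unfold h
    ring

/-- the main identity -/
theorem ident {lam : ℝ} {u : En n → ℝ} {G : En n → En n} (hs : IsSolution (B n) lam c (fun _ => 1) h u G) :
    ∫ x in B n, ‖G x + gradient v x‖ ^ 2 * ψ x = (1 - lam) * ∫ x in B n, c x * u x * ψ x := by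
  obtain ⟨hu, hub, hw⟩ := hs
  have hψb : EssBdd (B n) ψ := by
    obtain ⟨C, hC⟩ := bddB (n := n) ψ_cont
    refine ⟨C, ?_⟩
    rw [ae_restrict_iff' Metric.isOpen_ball.measurableSet]
    exact ae_of_all _ hC
  have E1 := hw ψ (gradient ψ) ψ_H10 hψb
  have E2 := green_H10 Metric.isOpen_ball B_bdd hu (f := v) (fun x _ => v_smooth.contDiffAt)
  have E3 := green_H10 Metric.isOpen_ball B_bdd (ψ_H10 (n := n)) (f := v) (fun x _ => v_smooth.contDiffAt)
  have E4 := green_H10 Metric.isOpen_ball B_bdd (v_H10 (n := n)) (f := v) (fun x _ => v_smooth.contDiffAt)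
  -- integrability
  have iu := intL2 hu.1
  have mgv : MemLp (gradient (v (n := n))) 2 (mB n) := v_H10.2.1
  have iGG : Integrable (fun x => ‖G x‖ ^ 2) (mB n) := hu.2.1.norm.integrable_sq
  have iGv : Integrable (fun x => inner ℝ (gradient v x) (G x)) (mB n) := pair_integrable mgv hu.2.1
  have ivv : Integrable (fun x => ‖gradient v x‖ ^ 2) (mB n) := mgv.norm.integrable_sq
  have c1 : Integrable (fun _ : En n => (1:ℝ)) (mB n) := integrable_const _
  have jGG : Integrable (fun x => ψ x * ‖G x‖ ^ 2) (mB n) := int_cont_mul ψ_cont iGG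
  have jGv : Integrable (fun x => ψ x * inner ℝ (gradient v x) (G x)) (mB n) := int_cont_mul ψ_cont iGv
  have jvv : Integrable (fun x => ψ x * ‖gradient v x‖ ^ 2) (mB n) := int_cont_mul ψ_cont ivv
  have jψ : Integrable (ψ (n := n)) (mB n) := by
    have := int_cont_mul (n := n) ψ_cont c1
    simpa using this
  have jv : Integrable (v (n := n)) (mB n) := by
    have := int_cont_mul (n := n) v_cont c1
    simpa using this
  have kΔu : Integrable (fun x => (Δ v) x * u x) (mB n) := int_cont_mul lap_v_cont iu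
  have kΔψ : Integrable (fun x => (Δ v) x * ψ x) (mB n) := int_cont_mul lap_v_cont jψ
  have kΔv : Integrable (fun x => (Δ v) x * v x) (mB n) := int_cont_mul lap_v_cont jv
  have kcv : Integrable (fun x => c x * (v x * ψ x)) (mB n) :=
    int_mul c_aesm (fun x hx => c_abs hx) (int_cont_mul v_cont jψ)
  -- E1 rewritten
  have a1 : ∫ x in B n, inner ℝ (G x) (gradient ψ x) =
      2 * (∫ x in B n, inner ℝ (gradient v x) (G x)) - 2 * ∫ x in B n, ψ x * inner ℝ (gradient v x) (G x) := by
    rw [← integral_const_mul, ← integral_const_mul, ← integral_sub (iGv.const_mul 2) (jGv.const_mul 2)]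
    congr 1; funext x
    rw [grad_ψ, real_inner_smul_right, real_inner_comm]; ring
  have a2 : ∫ x in B n, (1:ℝ) * ‖G x‖ ^ 2 * ψ x = ∫ x in B n, ψ x * ‖G x‖ ^ 2 := by
    congr 1; funext x; ring
  have a3 : ∫ x in B n, h x * ψ x = (∫ x in B n, (Δ v) x * ψ x) + (∫ x in B n, c x * (v x * ψ x)) -
      ∫ x in B n, ψ x * ‖gradient v x‖ ^ 2 := by
    have k1 : Integrable (fun x => (Δ v) x * ψ x + c x * (v x * ψ x)) (mB n) := kΔψ.add kcv
    rw [← integral_add kΔψ kcv, ← integral_sub k1 jvv]
    congr 1; funext x; unfold h; ring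
  have a4 : ∫ x in B n, inner ℝ (gradient v x) (gradient ψ x) =
      2 * (∫ x in B n, ‖gradient v x‖ ^ 2) - 2 * ∫ x in B n, ψ x * ‖gradient v x‖ ^ 2 := by
    rw [← integral_const_mul, ← integral_const_mul, ← integral_sub (ivv.const_mul 2) (jvv.const_mul 2)]
    congr 1; funext x
    rw [grad_ψ, real_inner_smul_right, real_inner_self_eq_norm_sq]; ring
  have a5 : ∫ x in B n, inner ℝ (gradient v x) (gradient v x) = ∫ x in B n, ‖gradient v x‖ ^ 2 := by
    congr 1; funext x; rw [real_inner_self_eq_norm_sq]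
  have a6 : ∫ x in B n, ‖G x + gradient v x‖ ^ 2 * ψ x = (∫ x in B n, ψ x * ‖G x‖ ^ 2) +
      2 * (∫ x in B n, ψ x * inner ℝ (gradient v x) (G x)) + ∫ x in B n, ψ x * ‖gradient v x‖ ^ 2 := by
    have k1 : Integrable (fun x => ψ x * ‖G x‖ ^ 2 + 2 * (ψ x * inner ℝ (gradient v x) (G x))) (mB n) :=
      jGG.add (jGv.const_mul 2)
    rw [← integral_const_mul, ← integral_add jGG (jGv.const_mul 2), ← integral_add k1 jvv]
    congr 1; funext x
    rw [norm_add_sq_real, real_inner_comm]; ring
  -- `-2 Δ v = c ψ`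
  have hcψ : ∀ x ∈ B n, c x * ψ x = -(2 * (Δ v) x) := by
    intro x hx
    rw [c_mul_ψ hx, lap_v]; ring
  have a7 : ∫ x in B n, c x * u x * ψ x = -(2 * ∫ x in B n, (Δ v) x * u x) := by
    rw [← integral_const_mul, ← integral_neg]
    apply setIntegral_congr_fun Metric.isOpen_ball.measurableSet
    intro x hx
    show c x * u x * ψ x = -(2 * ((Δ v) x * u x))
    have := hcψ x hx
    linear_combination u x * this
  have a8 : ∫ x in B n, c x * (v x * ψ x) = -(2 * ∫ x in B n, (Δ v) x * v x) := by
    rw [← integral_const_mul, ← integral_neg]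
    apply setIntegral_congr_fun Metric.isOpen_ball.measurableSet
    intro x hx
    show c x * (v x * ψ x) = -(2 * ((Δ v) x * v x))
    have := hcψ x hx
    linear_combination v x * this
  rw [a1, a2, a3] at E1
  rw [a4] at E3
  rw [a5] at E4
  rw [a6, a7]
  rw [a7] at E1
  rw [a8] at E1
  linarith

theorem diff_H10 {u : En n → ℝ} {G : En n → En n} (hu : IsH10 (B n) u G) :
    IsH10 (B n) (fun x => u x + v x) (fun x => G x + gradient v x) := by
  have h1 := hu.sub ((v_H10 (n := n)).const_mul (-1))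
  simpa [sub_neg_eq_add] using h1

/-- if the weighted energy of the difference is nonpositive then `u = -v` -/
theorem eq_of_zero (hn : 0 < n) {u : En n → ℝ} {G : En n → En n} (hu : IsH10 (B n) u G)
    (h0 : ∫ x in B n, ‖G x + gradient v x‖ ^ 2 * ψ x ≤ 0) : ∀ᵐ x ∂(mB n), u x = -v x := by
  have hH := diff_H10 hu
  have hnn : 0 ≤ᵐ[mB n] fun x => ‖G x + gradient v x‖ ^ 2 * ψ x := by
    rw [EventuallyLE, ae_restrict_iff' Metric.isOpen_ball.measurableSet]
    refine ae_of_all _ fun x hx => ?_
    have := ψ_pos hx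
    show 0 ≤ ‖G x + gradient v x‖ ^ 2 * ψ x
    positivity
  have hi : Integrable (fun x => ‖G x + gradient v x‖ ^ 2 * ψ x) (mB n) := by
    have := int_cont_mul (n := n) ψ_cont hH.2.1.norm.integrable_sq
    refine this.congr (ae_of_all _ fun x => ?_)
    ring
  have hz := (integral_eq_zero_iff_of_nonneg_ae hnn hi).1 (le_antisymm h0 (integral_nonneg_of_ae hnn))
  have hW : (fun x => G x + gradient v x) =ᵐ[mB n] fun _ => 0 := by
    have hB : ∀ᵐ x ∂(mB n), x ∈ B n := ae_restrict_mem Metric.isOpen_ball.measurableSet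
    filter_upwards [hz, hB] with x hx hxB
    have h1 := ψ_pos hxB
    have h2 : ‖G x + gradient v x‖ ^ 2 * ψ x = 0 := hx
    rcases mul_eq_zero.1 h2 with h3 | h3
    · exact norm_eq_zero.1 (pow_eq_zero_iff (by norm_num) |>.1 h3)
    · exact absurd h3 h1.ne'
  have hP := poincare hn Metric.isOpen_ball (R := 1) zero_le_one Metric.ball_subset_closedBall hH
  have hN : N2 (fun x => G x + gradient v x) (mB n) = 0 := by
    unfold N2
    rw [eLpNorm_congr_ae hW]; simp
  rw [hN, mul_zero] at hP
  have h3 := ae_zero_of_N2 hH.1 (le_antisymm hP (N2_nonneg _))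
  filter_upwards [h3] with x hx
  have : u x + v x = 0 := hx
  linarith

theorem unique1 (hn : 0 < n) {u : En n → ℝ} {G : En n → En n}
    (hs : IsSolution (B n) 1 c (fun _ => 1) h u G) : ∀ᵐ x ∂(mB n), u x = -v x := by
  apply eq_of_zero hn hs.1
  rw [ident hs]; simp

theorem no_below (hn : 0 < n) {lam : ℝ} (hl : lam < 1) : ¬ HasNonposSolution (B n) c (fun _ => 1) h lam := by
  rintro ⟨u, G, hs, hneg⟩
  have hB : ∀ᵐ x ∂(mB n), x ∈ B n := ae_restrict_mem Metric.isOpen_ball.measurableSet
  have hid := ident hs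
  have hle : ∫ x in B n, c x * u x * ψ x ≤ 0 := by
    apply integral_nonpos_of_ae
    filter_upwards [hneg, hB] with x hx hxB
    have h1 := c_nonneg hxB
    have h2 := ψ_pos hxB
    show c x * u x * ψ x ≤ 0
    exact mul_nonpos_of_nonpos_of_nonneg (mul_nonpos_of_nonneg_of_nonpos h1 hx) h2.le
  have h0 : ∫ x in B n, ‖G x + gradient v x‖ ^ 2 * ψ x ≤ 0 := by
    rw [hid]
    exact mul_nonpos_of_nonneg_of_nonpos (by linarith) hle
  have hu := eq_of_zero hn hs.1 h0
  have hge : 0 ≤ ∫ x in B n, ‖G x + gradient v x‖ ^ 2 * ψ x := by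
    apply integral_nonneg_of_ae
    filter_upwards [hB] with x hx
    have := ψ_pos hx
    show 0 ≤ ‖G x + gradient v x‖ ^ 2 * ψ x
    positivity
  have hz : (1 - lam) * ∫ x in B n, c x * u x * ψ x = 0 := by rw [← hid]; exact le_antisymm h0 hge
  have hz2 : ∫ x in B n, c x * u x * ψ x = 0 := by
    rcases mul_eq_zero.1 hz with h1 | h1
    · linarith
    · exact h1
  have hz3 : ∫ x in B n, c x * v x * ψ x = 0 := by
    have : ∫ x in B n, c x * v x * ψ x = -∫ x in B n, c x * u x * ψ x := by
      rw [← integral_neg]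
      apply integral_congr_ae
      filter_upwards [hu] with x hx
      rw [hx]; ring
    rw [this, hz2, neg_zero]
  have hpos : ∀ x ∈ B n, 0 < c x * v x * ψ x := fun x hx =>
    mul_pos (mul_pos (c_pos hn hx) ((mem_B.1 hx).trans_le (v_ge (mem_B.1 hx).le))) (ψ_pos hx)
  have hnn : 0 ≤ᵐ[mB n] fun x => c x * v x * ψ x := by
    filter_upwards [hB] with x hx
    exact (hpos x hx).le
  have hi : Integrable (fun x => c x * v x * ψ x) (mB n) := by
    have c1 : Integrable (fun _ : En n => (1:ℝ)) (mB n) := integrable_const _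
    have jψ : Integrable (ψ (n := n)) (mB n) := by
      have := int_cont_mul (n := n) ψ_cont c1
      simpa using this
    have := int_mul c_aesm (fun x hx => c_abs hx) (int_cont_mul v_cont jψ)
    refine this.congr (ae_of_all _ fun x => ?_)
    ring
  have hae := (integral_eq_zero_iff_of_nonneg_ae hnn hi).1 hz3
  have hfalse : ∀ᵐ x ∂(mB n), False := by
    filter_upwards [hae, hB] with x hx hxB
    have h1 : c x * v x * ψ x = 0 := hx
    have h2 := hpos x hxB
    linarith
  rw [eventually_false_iff_eq_bot, ae_eq_bot, Measure.restrict_eq_zero] at hfalse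
  have hne : Nonempty (Fin n) := ⟨⟨0, hn⟩⟩
  have hball : 0 < (volume : Measure (En n)) (B n) := Metric.measure_ball_pos _ _ (by norm_num)
  rw [hfalse] at hball
  exact lt_irrefl _ hball

end Q61.M0cf
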