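import Pool.Agent.Q61.MP0cg

set_option autoImplicit false

open MeasureTheory InnerProductSpace Laplacian Topology Filter Set
open scoped ContDiff

namespace Q61.M0cf

open Q61.Sob Q61.QGrad

variable {n : ℕ}

theorem lap_s (x : En n) : (Δ s) x = -(2 * (n:ℝ)) := by
  have hg : ContDiff ℝ ∞ (fun t : ℝ => 1 - t) := by fun_prop
  have h1 := lapN_radial (n := n) (g := fun t : ℝ => 1 - t) (x := x) (hg.of_le two_le).contDiffAt
  have e : (s (n := n)) = fun y : En n => (fun t : ℝ => 1 - t) (‖y‖ ^ 2) := rfl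
  rw [e, h1, Lr]
  have d1 : deriv (fun t : ℝ => 1 - t) = fun _ => -1 := by
    funext t
    exact ((hasDerivAt_id t).const_sub 1).deriv
  have d2 : deriv (fun _ : ℝ => (-1:ℝ)) = fun _ => 0 := by funext t; simp
  rw [d1, d2]; ring

/-- the first eigenfunctions are bounded by a multiple of `1 - |x|²` -/
theorem eigen_bound (hn : 0 < n) {φ : En n → ℝ} (hφ : IsFirstEigenfunction (B n) c φ) :
    ∃ K : ℝ, 0 < K ∧ ∀ x ∈ B n, φ x ≤ K * s x := by
  obtain ⟨hcont, hpos, hfr, G, γ, hH, hw⟩ := hφ
  have hn' : (0:ℝ) < n := by exact_mod_cast hn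
  obtain ⟨C, hC⟩ := (B_bdd (n := n)).isCompact_closure.exists_bound_of_continuousOn hcont
  set A : ℝ := n * (n + 2) * (3 + n / 2) with hA
  have hA0 : 0 ≤ A := by rw [hA]; positivity
  set K : ℝ := |γ| * A * |C| / (2 * n) + 1 with hK
  have hK0 : 0 < K := by rw [hK]; positivity
  refine ⟨K, hK0, ?_⟩
  have hs := (s_H10 (n := n)).const_mul K
  have hd := hH.sub hs
  have hmax := max_principle hn Metric.isOpen_ball B_bdd hd ?_
  · -- from a.e. to everywhere
    intro x hx
    by_contra hcon
    push Not at hcon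
    have hcx : ContinuousAt (fun y => φ y - K * s y) x := by
      have h1 : ContinuousAt φ x := (hcont.mono subset_closure).continuousAt (Metric.isOpen_ball.mem_nhds hx)
      exact h1.sub (continuous_const.mul (s_smooth (k := 0)).continuous).continuousAt
    have hpx : 0 < φ x - K * s x := by linarith
    have hev := (hcx.eventually (lt_mem_nhds hpx)).and (Metric.isOpen_ball.mem_nhds hx)
    obtain ⟨U, hU1, hU2, hU3⟩ := mem_nhds_iff.1 hev
    rw [ae_restrict_iff' Metric.isOpen_ball.measurableSet] at hmax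
    have hne : Nonempty (Fin n) := ⟨⟨0, hn⟩⟩
    have hUpos : 0 < (volume : Measure (En n)) U := hU2.measure_pos _ ⟨x, hU3⟩
    have hzero : (volume : Measure (En n)) U = 0 := by
      refine measure_mono_null ?_ (ae_iff.1 hmax)
      intro y hy
      have := hU1 hy
      intro hcon2
      have h5 := hcon2 this.2
      have h6 : 0 < φ y - K * s y := this.1
      linarith
    rw [hzero] at hUpos
    exact lt_irrefl _ hUpos
  · intro ψ' hψ' hψ0
    have h1 := hw ψ' (gradient ψ') hψ'.isH10
    have h2 := green_test hψ' (f := s) (fun x _ => s_smooth.contDiffAt) (Ω := B n)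
    have mψ : MemLp (gradient ψ') 2 (mB n) := hψ'.grad_memLp 2
    have i1 : Integrable (fun x => inner ℝ (G x) (gradient ψ' x)) (mB n) := pair_integrable hH.2.1 mψ
    have i2 : Integrable (fun x => inner ℝ (gradient s x) (gradient ψ' x)) (mB n) :=
      pair_integrable (s_H10 (n := n)).2.1 mψ
    have iψ : Integrable ψ' (mB n) := intL2 (hψ'.memLp 2)
    have e1 : ∫ x in B n, inner ℝ (G x - K • gradient s x) (gradient ψ' x) =
        (∫ x in B n, inner ℝ (G x) (gradient ψ' x)) - K * ∫ x in B n, inner ℝ (gradient s x) (gradient ψ' x) := by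
      rw [← integral_const_mul, ← integral_sub i1 (i2.const_mul K)]
      congr 1; funext x
      rw [inner_sub_left, real_inner_smul_left]
    rw [e1, h1, h2]
    have iφψ : Integrable (fun x => φ x * ψ' x) (mB n) := pairR_integrable hH.1 (hψ'.memLp 2)
    have i3 : Integrable (fun x => c x * (φ x * ψ' x)) (mB n) := int_mul c_aesm (fun x hx => c_abs hx) iφψ
    have i3' : Integrable (fun x => c x * φ x * ψ' x) (mB n) := by
      refine i3.congr (ae_of_all _ fun x => ?_)
      ring
    have e2 : ∫ x in B n, (Δ s) x * ψ' x = -(2 * n * ∫ x in B n, ψ' x) := by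
      rw [← integral_const_mul, ← integral_neg]
      congr 1; funext x; rw [lap_s]; ring
    rw [e2]
    have e3 : γ * (∫ x in B n, c x * φ x * ψ' x) - K * -(-(2 * n * ∫ x in B n, ψ' x)) =
        ∫ x in B n, (γ * (c x * φ x * ψ' x) - (2 * n * K) * ψ' x) := by
      rw [integral_sub (i3'.const_mul γ) (iψ.const_mul _), integral_const_mul, integral_const_mul]
      ring
    rw [e3]
    apply integral_nonpos_of_ae
    rw [EventuallyLE, ae_restrict_iff' Metric.isOpen_ball.measurableSet]
    refine ae_of_all _ fun x hx => ?_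
    show γ * (c x * φ x * ψ' x) - (2 * n * K) * ψ' x ≤ 0
    have b1 := c_le hx
    have b2 := c_nonneg hx
    have b3 : φ x ≤ |C| := (le_abs_self _).trans ((hC x (subset_closure hx)).trans (le_abs_self C))
    have b4 := (hpos x hx).le
    have b5 : γ * (c x * φ x) ≤ |γ| * (A * |C|) := by
      have b6 : c x * φ x ≤ A * |C| := mul_le_mul b1 b3 b4 hA0
      have b7 : 0 ≤ c x * φ x := mul_nonneg b2 b4
      calc γ * (c x * φ x) ≤ |γ| * (c x * φ x) := mul_le_mul_of_nonneg_right (le_abs_self _) b7
        _ ≤ _ := mul_le_mul_of_nonneg_left b6 (abs_nonneg _)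
    have b8 : |γ| * (A * |C|) ≤ 2 * n * K := by
      rw [hK]
      have : 2 * (n:ℝ) * (|γ| * A * |C| / (2 * n) + 1) = |γ| * A * |C| + 2 * n := by field_simp
      rw [this]
      nlinarith
    have b9 := hψ0 x
    have b10 : (γ * (c x * φ x) - 2 * n * K) * ψ' x ≤ 0 :=
      mul_nonpos_of_nonpos_of_nonneg (by linarith) b9
    linarith

theorem strong (hn : 0 < n) : StronglyNegative (B n) c (fun x => -v x) := by
  intro φ hφ
  obtain ⟨K, hK, hb⟩ := eigen_bound hn hφ
  refine ⟨K⁻¹, inv_pos.2 hK, fun x hx => ?_⟩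
  have hs := s_nonneg_cl hx
  have hv := v_ge hs
  by_cases hxB : x ∈ B n
  · have h1 := hb x hxB
    have h2 : K⁻¹ * φ x ≤ s x := by
      rw [inv_mul_le_iff₀ hK]; exact h1
    linarith
  · have hfr : x ∈ frontier (B n) := by
      rw [frontier, Metric.isOpen_ball.interior_eq]
      exact ⟨hx, hxB⟩
    rw [hφ.2.2.1 x hfr, mul_zero]
    linarith

theorem c_memLp (p : ENNReal) : MemLp c p (mB n) := by
  apply MemLp.of_bound c_aesm (n * (n + 2) * (3 + n / 2))
  rw [ae_restrict_iff' Metric.isOpen_ball.measurableSet]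
  exact ae_of_all _ fun x hx => c_abs hx

theorem h_memLp (p : ENNReal) : MemLp h p (mB n) := by
  obtain ⟨M, hM⟩ := h_bdd (n := n)
  apply MemLp.of_bound h_aesm M
  rw [ae_restrict_iff' Metric.isOpen_ball.measurableSet]
  exact ae_of_all _ fun x hx => hM x hx

theorem nonpos0 : ∀ x ∈ closure (B n), -v x ≤ 0 := by
  intro x hx
  have := v_ge (s_nonneg_cl hx)
  have := s_nonneg_cl hx
  linarith

theorem has1 : HasNonposSolution (B n) c (fun _ => 1) h 1 := by
  refine ⟨_, _, sol0, ?_⟩
  rw [ae_restrict_iff' Metric.isOpen_ball.measurableSet]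
  exact ae_of_all _ fun x hx => nonpos0 x (subset_closure hx)

theorem threshold (hn : 0 < n) : IsLeast {lam | 0 ≤ lam ∧ HasNonposSolution (B n) c (fun _ => 1) h lam} 1 := by
  refine ⟨⟨zero_le_one, has1⟩, fun lam hl => ?_⟩
  by_contra hcon
  exact no_below hn (not_le.1 hcon) hl.2

theorem lamUnder_eq (hn : 0 < n) : lamUnder (B n) c (fun _ => 1) h = 1 := (threshold hn).csInf_eq

end Q61.M0cf
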