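import Pool.Agent.Q61.LapN

set_option autoImplicit false

open MeasureTheory InnerProductSpace Laplacian Topology Filter Set
open scoped ContDiff

namespace Q61.M105

abbrev E5 := EuclideanSpace ℝ (Fin 5)

/-- squared norm of the first four coordinates -/
noncomputable def R (x : E5) : ℝ := ‖x‖ ^ 2 + -1 * (x 4) ^ 2

noncomputable def D (x : E5) : ℝ := R x + (x 4) ^ 6

theorem R_eq (x : E5) : R x = x 0 ^ 2 + x 1 ^ 2 + x 2 ^ 2 + x 3 ^ 2 := by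
  unfold R
  rw [EuclideanSpace.norm_sq_eq]
  simp only [Fin.sum_univ_five, Real.norm_eq_abs, sq_abs]
  ring

theorem R_nonneg (x : E5) : 0 ≤ R x := by rw [R_eq]; positivity

theorem R_le_D (x : E5) : R x ≤ D x := by unfold D; have : 0 ≤ (x 4) ^ 6 := by positivity
                                          linarith
theorem t6_le_D (x : E5) : (x 4) ^ 6 ≤ D x := by unfold D; linarith [R_nonneg x]

theorem D_pos {x : E5} (hx : x ≠ 0) : 0 < D x := by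
  have h1 := R_nonneg x
  have h2 : 0 ≤ (x 4) ^ 6 := by positivity
  unfold D
  by_contra h
  push Not at h
  have h3 : R x = 0 := by linarith
  have h4 : (x 4) ^ 6 = 0 := by linarith
  have h5 : x 4 = 0 := pow_eq_zero_iff (by norm_num) |>.1 h4
  apply hx
  have h6 : ‖x‖ ^ 2 = 0 := by
    have : R x = ‖x‖ ^ 2 + -1 * (x 4) ^ 2 := rfl
    rw [h3, h5] at this
    linarith
  exact norm_eq_zero.1 (pow_eq_zero_iff (by norm_num) |>.1 h6)

theorem R_smooth {k : WithTop ℕ∞} : ContDiff ℝ k R :=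
  (contDiff_id.norm_sq ℝ).add (contDiff_const.mul ((contDiff_coord 4).pow 2))

theorem D_smooth {k : WithTop ℕ∞} : ContDiff ℝ k D := R_smooth.add ((contDiff_coord 4).pow 6)

/-- the two singular components -/
noncomputable def u0 (x : E5) : ℝ := (x 4) ^ 6 * (D x)⁻¹
noncomputable def u1 (x : E5) : ℝ := ((x 4) ^ 9 * x 0) * ((D x)⁻¹) ^ 2

theorem coordD (i : Fin 5) (x : E5) : HasFDerivAt (fun y : E5 => y i)
    (EuclideanSpace.proj (𝕜 := ℝ) i : E5 →L[ℝ] ℝ) x :=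
  (EuclideanSpace.proj (𝕜 := ℝ) i : E5 →L[ℝ] ℝ).hasFDerivAt

theorem proj_ap (i : Fin 5) (v : E5) : (EuclideanSpace.proj (𝕜 := ℝ) i : E5 →L[ℝ] ℝ) v = v i := rfl

theorem D_fderiv (x v : E5) : fderiv ℝ D x v =
    2 * (x 0 * v 0 + x 1 * v 1 + x 2 * v 2 + x 3 * v 3) + 6 * (x 4) ^ 5 * v 4 := by
  have h : HasFDerivAt D _ x := (((hasFDerivAt_id x).norm_sq).add (((coordD 4 x).pow 2).const_mul (-1))).add
    ((coordD 4 x).pow 6)
  rw [h.fderiv]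
  have hi : inner ℝ x v = x 0 * v 0 + x 1 * v 1 + x 2 * v 2 + x 3 * v 3 + x 4 * v 4 := by
    rw [PiLp.inner_apply]
    simp [Fin.sum_univ_five, mul_comm]
  simp [proj_ap, hi]
  ring

theorem D_fderiv_ev (x : E5) (i : Fin 5) : fderiv ℝ D x (ev i) =
    ![2 * x 0, 2 * x 1, 2 * x 2, 2 * x 3, 6 * (x 4) ^ 5] i := by
  rw [D_fderiv]
  fin_cases i <;> simp [ev]

theorem pow_fderiv_ev (m : ℕ) (x : E5) (i : Fin 5) : fderiv ℝ (fun y : E5 => (y 4) ^ m) x (ev i) =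
    ![0, 0, 0, 0, (m:ℝ) * (x 4) ^ (m - 1)] i := by
  rw [((coordD 4 x).pow m).fderiv]
  fin_cases i <;> simp [ev, proj_ap]

theorem lap_pow (m : ℕ) (x : E5) : (Δ (fun x : E5 => (x 4) ^ m)) x = m * ((m - 1 : ℕ) : ℝ) * (x 4) ^ (m - 2) := by
  have h := lapN_fun_coord (f := fun t : ℝ => t ^ m) (4 : Fin 5) (x := x) (contDiff_id.pow m).contDiffAt
  rw [h]
  have : deriv (fun t : ℝ => t ^ m) = fun t => (m:ℝ) * t ^ (m - 1) := by
    funext t; simpa using (hasDerivAt_pow m t).deriv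
  rw [this]
  have h2 := ((hasDerivAt_pow (m-1) (x 4)).const_mul (m:ℝ)).deriv
  refine h2.trans ?_
  rw [Nat.sub_sub]
  ring

theorem D_lap (x : E5) : (Δ D) x = 8 + 30 * (x 4) ^ 4 := by
  have c2 : ∀ {f : E5 → ℝ}, ContDiff ℝ 2 f → ContDiffAt ℝ 2 f x := fun h => h.contDiffAt
  have h1 : (Δ D) x = (Δ R) x + (Δ (fun x : E5 => (x 4) ^ 6)) x :=
    lapN_add (c2 R_smooth) (c2 ((contDiff_coord 4).pow 6))
  have h2 : (Δ R) x = (Δ (fun x : E5 => ‖x‖ ^ 2)) x + -1 * (Δ (fun x : E5 => (x 4) ^ 2)) x := by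
    have := lapN_add (f := fun x : E5 => ‖x‖ ^ 2) (g := fun x : E5 => -1 * (x 4) ^ 2) (x := x)
      (c2 (contDiff_id.norm_sq ℝ)) (c2 (contDiff_const.mul ((contDiff_coord 4).pow 2)))
    rw [lapN_const_mul _ (c2 ((contDiff_coord 4).pow 2))] at this
    exact this
  rw [h1, h2, lapN_normsq, lap_pow, lap_pow]
  norm_num

/-- derivative of the reciprocal -/
theorem inv_fderiv {x : E5} (hx : x ≠ 0) (v : E5) : fderiv ℝ (fun y => (D y)⁻¹) x v =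
    -(D x ^ 2)⁻¹ * fderiv ℝ D x v := by
  have hD := ((D_smooth (k := 1)).differentiable (by norm_num) x).hasFDerivAt
  have h1 : HasFDerivAt (fun y => (D y)⁻¹) _ x := (hasDerivAt_inv (D_pos hx).ne').comp_hasFDerivAt x hD
  rw [h1.fderiv]
  simp

theorem inv_smooth {x : E5} (hx : x ≠ 0) {k : WithTop ℕ∞} : ContDiffAt ℝ k (fun y => (D y)⁻¹) x :=
  D_smooth.contDiffAt.inv (D_pos hx).ne'

theorem gsq_D (x : E5) : gsqN D x = 4 * R x + 36 * (x 4) ^ 10 := by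
  unfold gsqN
  simp only [Fin.sum_univ_five, D_fderiv_ev]
  simp only [R_eq, Matrix.cons_val_zero, Matrix.cons_val_one, Matrix.cons_val]
  ring

/-- Laplacian of a power of the reciprocal -/
theorem lap_invpow {x : E5} (hx : x ≠ 0) (m : ℕ) : (Δ (fun y => ((D y)⁻¹) ^ m)) x =
    (m:ℝ) * (m + 1) * ((D x)⁻¹) ^ (m + 2) * (4 * R x + 36 * (x 4) ^ 10) -
      (m:ℝ) * ((D x)⁻¹) ^ (m + 1) * (8 + 30 * (x 4) ^ 4) := by
  have hD := D_pos hx
  have h := lapN_comp_real (F := fun s : ℝ => (s⁻¹) ^ m) (g := D) (x := x)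
    ((contDiffAt_inv ℝ hD.ne').pow m) D_smooth.contDiffAt
  rw [h, gsq_D, D_lap]
  have d1 : ∀ s : ℝ, s ≠ 0 → HasDerivAt (fun s : ℝ => (s⁻¹) ^ m) (-(m:ℝ) * (s⁻¹) ^ (m + 1)) s := by
    intro s hs
    have := (hasDerivAt_inv hs).pow m
    refine this.congr_deriv ?_
    rcases Nat.eq_zero_or_pos m with h0 | h0
    · subst h0; simp
    · obtain ⟨k, rfl⟩ := Nat.exists_eq_succ_of_ne_zero h0.ne'
      simp only [Nat.succ_eq_add_one, Nat.add_sub_cancel]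
      rw [inv_pow, inv_pow]
      field_simp
      ring
  have d2 : deriv (deriv (fun s : ℝ => (s⁻¹) ^ m)) (D x) = (m:ℝ) * (m + 1) * ((D x)⁻¹) ^ (m + 2) := by
    have he : deriv (fun s : ℝ => (s⁻¹) ^ m) =ᶠ[𝓝 (D x)] fun s => -(m:ℝ) * (s⁻¹) ^ (m + 1) := by
      filter_upwards [Ioi_mem_nhds hD] with s hs
      exact (d1 s (ne_of_gt hs)).deriv
    rw [he.deriv_eq]
    have := ((hasDerivAt_inv hD.ne').pow (m + 1)).const_mul (-(m:ℝ))
    refine this.deriv.trans ?_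
    simp only [Nat.add_sub_cancel]
    push_cast
    rw [inv_pow, inv_pow]
    field_simp
    ring
  rw [d2, (d1 _ hD.ne').deriv]
  ring

/-- derivative of a power of the reciprocal -/
theorem invpow_fderiv {x : E5} (hx : x ≠ 0) (m : ℕ) (v : E5) : fderiv ℝ (fun y => ((D y)⁻¹) ^ m) x v =
    -(m:ℝ) * ((D x)⁻¹) ^ (m + 1) * fderiv ℝ D x v := by
  have hD := D_pos hx
  have h1 := ((inv_smooth hx (k := 1)).differentiableAt (by norm_num)).hasFDerivAt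
  rw [(h1.pow m).fderiv]
  simp only [smul_apply, smul_eq_mul, inv_fderiv hx]
  rcases Nat.eq_zero_or_pos m with h0 | h0
  · subst h0; simp
  · obtain ⟨k, rfl⟩ := Nat.exists_eq_succ_of_ne_zero h0.ne'
    simp only [Nat.succ_eq_add_one, Nat.add_sub_cancel, nsmul_eq_mul]
    rw [inv_pow, inv_pow]
    field_simp
    try ring

theorem u0_smooth {x : E5} (hx : x ≠ 0) {k : WithTop ℕ∞} : ContDiffAt ℝ k u0 x :=
  ((contDiff_coord 4).pow 6).contDiffAt.mul (inv_smooth hx)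

theorem u1_smooth {x : E5} (hx : x ≠ 0) {k : WithTop ℕ∞} : ContDiffAt ℝ k u1 x :=
  (((contDiff_coord 4).pow 9).mul (contDiff_coord 0)).contDiffAt.mul ((inv_smooth hx).pow 2)

theorem u0_grad {x : E5} (hx : x ≠ 0) (i : Fin 5) : fderiv ℝ u0 x (ev i) =
    ![-2 * x 0 * (x 4) ^ 6 * ((D x)⁻¹) ^ 2, -2 * x 1 * (x 4) ^ 6 * ((D x)⁻¹) ^ 2,
      -2 * x 2 * (x 4) ^ 6 * ((D x)⁻¹) ^ 2, -2 * x 3 * (x 4) ^ 6 * ((D x)⁻¹) ^ 2,
      6 * (x 4) ^ 5 * (D x)⁻¹ - 6 * (x 4) ^ 11 * ((D x)⁻¹) ^ 2] i := by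
  have h1 : HasFDerivAt (fun y : E5 => (y 4) ^ 6) _ x :=
    (((contDiff_coord (4 : Fin 5)).pow 6 : ContDiff ℝ 1 _).differentiable (by norm_num) x).hasFDerivAt
  have h2 := ((inv_smooth hx (k := 1)).differentiableAt (by norm_num)).hasFDerivAt
  have h3 : HasFDerivAt u0 _ x := h1.mul h2
  rw [h3.fderiv]
  simp only [add_apply, smul_apply, smul_eq_mul, inv_fderiv hx, D_fderiv_ev, pow_fderiv_ev]
  fin_cases i <;> simp <;> ring

theorem c_fderiv_ev (x : E5) (i : Fin 5) : fderiv ℝ (fun y : E5 => (y 4) ^ 9 * y 0) x (ev i) =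
    ![(x 4) ^ 9, 0, 0, 0, 9 * (x 4) ^ 8 * x 0] i := by
  have h : HasFDerivAt (fun y : E5 => (y 4) ^ 9 * y 0) _ x := ((coordD 4 x).pow 9).mul (coordD 0 x)
  rw [h.fderiv]
  fin_cases i <;> simp [ev, proj_ap]
  ring

theorem u1_grad {x : E5} (hx : x ≠ 0) (i : Fin 5) : fderiv ℝ u1 x (ev i) =
    ![(x 4) ^ 9 * ((D x)⁻¹) ^ 2 - 4 * x 0 * ((x 4) ^ 9 * x 0) * ((D x)⁻¹) ^ 3,
      -4 * x 1 * ((x 4) ^ 9 * x 0) * ((D x)⁻¹) ^ 3,
      -4 * x 2 * ((x 4) ^ 9 * x 0) * ((D x)⁻¹) ^ 3, -4 * x 3 * ((x 4) ^ 9 * x 0) * ((D x)⁻¹) ^ 3,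
      9 * (x 4) ^ 8 * x 0 * ((D x)⁻¹) ^ 2 - 12 * (x 4) ^ 14 * x 0 * ((D x)⁻¹) ^ 3] i := by
  have h1 : HasFDerivAt (fun y : E5 => (y 4) ^ 9 * y 0) _ x :=
    ((((contDiff_coord (4 : Fin 5)).pow 9).mul (contDiff_coord 0) : ContDiff ℝ 1 _).differentiable
      (by norm_num) x).hasFDerivAt
  have h2 : HasFDerivAt (fun y : E5 => ((D y)⁻¹) ^ 2) _ x :=
    (((inv_smooth hx (k := 1)).pow 2).differentiableAt (by norm_num)).hasFDerivAt
  have h3 : HasFDerivAt u1 _ x := h1.mul h2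
  rw [h3.fderiv]
  simp only [add_apply, smul_apply, smul_eq_mul, invpow_fderiv hx, D_fderiv_ev, c_fderiv_ev]
  fin_cases i <;> simp <;> ring

theorem lap_c (x : E5) : (Δ (fun y : E5 => (y 4) ^ 9 * y 0)) x = 72 * (x 4) ^ 7 * x 0 := by
  have c2 : ∀ {f : E5 → ℝ}, ContDiff ℝ 2 f → ContDiffAt ℝ 2 f x := fun h => h.contDiffAt
  rw [lapN_mul (c2 ((contDiff_coord 4).pow 9)) (c2 (contDiff_coord 0)), lapN_coord, lap_pow]
  have : gdot (fun y : E5 => (y 4) ^ 9) (fun y : E5 => y 0) x = 0 := by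
    unfold gdot
    simp only [pow_fderiv_ev, fderiv_coord, Fin.sum_univ_five]
    simp [ev]
  rw [this]
  norm_num
  ring

theorem lap_u0 {x : E5} (hx : x ≠ 0) : (Δ u0) x =
    (x 4) ^ 6 * (2 * ((D x)⁻¹) ^ 3 * (4 * R x + 36 * (x 4) ^ 10) - ((D x)⁻¹) ^ 2 * (8 + 30 * (x 4) ^ 4)) -
      72 * (x 4) ^ 10 * ((D x)⁻¹) ^ 2 + 30 * (x 4) ^ 4 * (D x)⁻¹ := by
  have h : (Δ u0) x = _ := lapN_mul (f := fun y : E5 => (y 4) ^ 6) (g := fun y => (D y)⁻¹) (x := x)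
    ((contDiff_coord 4).pow 6).contDiffAt (inv_smooth hx)
  rw [h, lap_pow]
  have h1 := lap_invpow hx 1
  simp only [pow_one] at h1
  rw [h1]
  have : gdot (fun y : E5 => (y 4) ^ 6) (fun y => (D y)⁻¹) x = -36 * (x 4) ^ 10 * ((D x)⁻¹) ^ 2 := by
    unfold gdot
    simp only [pow_fderiv_ev, inv_fderiv hx, D_fderiv_ev, Fin.sum_univ_five]
    simp
    ring
  rw [this]
  push_cast
  norm_num
  ring

theorem lap_u1 {x : E5} (hx : x ≠ 0) : (Δ u1) x =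
    ((x 4) ^ 9 * x 0) * (6 * ((D x)⁻¹) ^ 4 * (4 * R x + 36 * (x 4) ^ 10) -
      2 * ((D x)⁻¹) ^ 3 * (8 + 30 * (x 4) ^ 4)) -
      8 * (x 4) ^ 9 * x 0 * ((D x)⁻¹) ^ 3 - 216 * (x 4) ^ 13 * x 0 * ((D x)⁻¹) ^ 3 +
      72 * (x 4) ^ 7 * x 0 * ((D x)⁻¹) ^ 2 := by
  have h : (Δ u1) x = _ := lapN_mul (f := fun y : E5 => (y 4) ^ 9 * y 0) (g := fun y => ((D y)⁻¹) ^ 2) (x := x)
    (((contDiff_coord 4).pow 9).mul (contDiff_coord 0)).contDiffAt ((inv_smooth hx).pow 2)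
  rw [h, lap_c, lap_invpow hx 2]
  have : gdot (fun y : E5 => (y 4) ^ 9 * y 0) (fun y => ((D y)⁻¹) ^ 2) x =
      -4 * (x 4) ^ 9 * x 0 * ((D x)⁻¹) ^ 3 - 108 * (x 4) ^ 13 * x 0 * ((D x)⁻¹) ^ 3 := by
    unfold gdot
    simp only [c_fderiv_ev, invpow_fderiv hx, D_fderiv_ev, Fin.sum_univ_five]
    simp
    ring
  rw [this]
  push_cast
  ring

end Q61.M105
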