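import Pool.Agent.Q61.MP105a

set_option autoImplicit false

open MeasureTheory InnerProductSpace Laplacian Topology Filter Set
open scoped ContDiff

namespace Q61.M105

/-- squared Frobenius norm -/
def msq (z : Fin 5 → Fin 3 → ℝ) : ℝ := ∑ i, ∑ j, z i j ^ 2

/-- the gradient of the map -/
noncomputable def G (x : E5) (i : Fin 5) : Fin 3 → ℝ :=
  ![fderiv ℝ u0 x (ev i), fderiv ℝ u1 x (ev i), if i = 0 then 1 else 0]

/-- the map -/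
noncomputable def U (x : E5) : Fin 3 → ℝ := ![u0 x, u1 x, x 0]

/-- its Laplacian -/
noncomputable def L (x : E5) : Fin 3 → ℝ := ![(Δ u0) x, (Δ u1) x, 0]

theorem msq_G {x : E5} (hx : x ≠ 0) : msq (G x) = 1 +
    (4 * (x 4) ^ 12 * R x * ((D x)⁻¹) ^ 4 + (6 * (x 4) ^ 5 * (D x)⁻¹ - 6 * (x 4) ^ 11 * ((D x)⁻¹) ^ 2) ^ 2) +
    (((x 4) ^ 9 * ((D x)⁻¹) ^ 2 - 4 * (x 0) ^ 2 * (x 4) ^ 9 * ((D x)⁻¹) ^ 3) ^ 2 +
      16 * (x 4) ^ 18 * (x 0) ^ 2 * ((D x)⁻¹) ^ 6 * (R x - (x 0) ^ 2) +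
      (9 * (x 4) ^ 8 * x 0 * ((D x)⁻¹) ^ 2 - 12 * (x 4) ^ 14 * x 0 * ((D x)⁻¹) ^ 3) ^ 2) := by
  unfold msq
  simp only [Fin.sum_univ_five, Fin.sum_univ_three, G, u0_grad hx, u1_grad hx, R_eq,
    Matrix.cons_val_zero, Matrix.cons_val_one, Matrix.cons_val]
  rw [if_pos trivial, if_neg (by decide : ¬ (1 : Fin 5) = 0), if_neg (by decide : ¬ (2 : Fin 5) = 0),
    if_neg (by decide : ¬ (3 : Fin 5) = 0), if_neg (by decide : ¬ (4 : Fin 5) = 0)]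
  ring

section real

variable {t y r q : ℝ} (hr : y ^ 2 ≤ r) (hq : 0 < q) (h : q * (r + t ^ 6) = 1)

include hr hq h

theorem facts : 0 ≤ t ^ 6 * q ∧ t ^ 6 * q ≤ 1 ∧ 0 ≤ y ^ 2 * q ∧ y ^ 2 * q ≤ 1 - t ^ 6 * q ∧
    |t ^ 3 * y * q| ≤ 1 / 2 ∧ 0 ≤ t ^ 4 * q := by
  have h1 : 0 ≤ t ^ 6 * q := by positivity
  have h2 : 0 ≤ y ^ 2 * q := by positivity
  have h3 : y ^ 2 * q ≤ r * q := mul_le_mul_of_nonneg_right hr hq.le
  have h4 : r * q = 1 - t ^ 6 * q := by linarith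
  refine ⟨h1, by linarith, h2, by linarith, ?_, by positivity⟩
  rw [abs_le]
  have e1 : 0 ≤ (t ^ 3 - y) ^ 2 * q := by positivity
  have e2 : 0 ≤ (t ^ 3 + y) ^ 2 * q := by positivity
  constructor <;> nlinarith

theorem lower : 1 / 2 * (t ^ 4 * q) ^ 3 ≤
    (4 * t ^ 12 * r * q ^ 4 + (6 * t ^ 5 * q - 6 * t ^ 11 * q ^ 2) ^ 2) +
    ((t ^ 9 * q ^ 2 - 4 * y ^ 2 * t ^ 9 * q ^ 3) ^ 2 + 16 * t ^ 18 * y ^ 2 * q ^ 6 * (r - y ^ 2) +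
      (9 * t ^ 8 * y * q ^ 2 - 12 * t ^ 14 * y * q ^ 3) ^ 2) := by
  obtain ⟨f1, f2, f3, f4, f5, f6⟩ := facts hr hq h
  set a := t ^ 6 * q with ha
  set p := y ^ 2 * q with hp
  set X := t ^ 4 * q with hX
  have e : (4 * t ^ 12 * r * q ^ 4) + ((t ^ 9 * q ^ 2 - 4 * y ^ 2 * t ^ 9 * q ^ 3) ^ 2 +
      16 * t ^ 18 * y ^ 2 * q ^ 6 * (r - y ^ 2)) = X ^ 3 * (4 * (1 - a) + a * (1 + 8 * p * (1 - 2 * a))) := by
    rw [hX, ha, hp]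
    linear_combination (4 * t ^ 12 * q ^ 3 + 16 * t ^ 18 * y ^ 2 * q ^ 5) * h
  have h5 : 0 ≤ (6 * t ^ 5 * q - 6 * t ^ 11 * q ^ 2) ^ 2 := sq_nonneg _
  have h6 : 0 ≤ (9 * t ^ 8 * y * q ^ 2 - 12 * t ^ 14 * y * q ^ 3) ^ 2 := sq_nonneg _
  have h7 : 1 / 2 ≤ 4 * (1 - a) + a * (1 + 8 * p * (1 - 2 * a)) := by
    rcases le_total a (1 / 2) with h8 | h8
    · have : 0 ≤ a * (p * (1 - 2 * a)) := mul_nonneg f1 (mul_nonneg f3 (by linarith))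
      nlinarith
    · have h9 : a * (p * (2 * a - 1)) ≤ a * ((1 - a) * (2 * a - 1)) :=
        mul_le_mul_of_nonneg_left (mul_le_mul_of_nonneg_right f4 (by linarith)) f1
      nlinarith [mul_nonneg (mul_nonneg f1 (by linarith : 0 ≤ 1 - a)) (by linarith : 0 ≤ 2 * a - 1),
        sq_nonneg (a - 22 / 25), mul_nonneg f1 (sq_nonneg (a - 22 / 25)), mul_nonneg (by linarith : 0 ≤ 1 - a) (sq_nonneg (a - 22 / 25))]
  have h8 : 0 ≤ X ^ 3 := by positivity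
  have h9 := mul_le_mul_of_nonneg_left h7 h8
  linarith

theorem upper (ht : t ^ 2 ≤ 1) :
    (4 * t ^ 12 * r * q ^ 4 + (6 * t ^ 5 * q - 6 * t ^ 11 * q ^ 2) ^ 2) +
    ((t ^ 9 * q ^ 2 - 4 * y ^ 2 * t ^ 9 * q ^ 3) ^ 2 + 16 * t ^ 18 * y ^ 2 * q ^ 6 * (r - y ^ 2) +
      (9 * t ^ 8 * y * q ^ 2 - 12 * t ^ 14 * y * q ^ 3) ^ 2) ≤ 13 * (t ^ 4 * q) ^ 3 + 57 * (t ^ 2 * (t ^ 4 * q) ^ 2) := by
  obtain ⟨f1, f2, f3, f4, f5, f6⟩ := facts hr hq h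
  set a := t ^ 6 * q with ha
  set p := y ^ 2 * q with hp
  set β := t ^ 3 * y * q with hβ
  set X := t ^ 4 * q with hX
  have e : (4 * t ^ 12 * r * q ^ 4) + ((t ^ 9 * q ^ 2 - 4 * y ^ 2 * t ^ 9 * q ^ 3) ^ 2 +
      16 * t ^ 18 * y ^ 2 * q ^ 6 * (r - y ^ 2)) = X ^ 3 * (4 * (1 - a) + a * (1 + 8 * p * (1 - 2 * a))) := by
    rw [hX, ha, hp]
    linear_combination (4 * t ^ 12 * q ^ 3 + 16 * t ^ 18 * y ^ 2 * q ^ 5) * h
  have e2 : (6 * t ^ 5 * q - 6 * t ^ 11 * q ^ 2) ^ 2 = (t ^ 2 * X ^ 2) * (36 * (1 - a) ^ 2) := by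
    rw [hX, ha]; ring
  have e3 : (9 * t ^ 8 * y * q ^ 2 - 12 * t ^ 14 * y * q ^ 3) ^ 2 = (t ^ 2 * X ^ 2) * (β ^ 2 * (9 - 12 * a) ^ 2) := by
    rw [hX, ha, hβ]; ring
  have h7 : 4 * (1 - a) + a * (1 + 8 * p * (1 - 2 * a)) ≤ 13 := by
    have hp1 : p ≤ 1 := by linarith
    have : a * (p * (1 - 2 * a)) ≤ 1 := by
      have h1 : p * (1 - 2 * a) ≤ 1 := by nlinarith
      nlinarith
    nlinarith
  have h8 : 0 ≤ X ^ 3 := by positivity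
  have h9 := mul_le_mul_of_nonneg_left h7 h8
  have h10 : 36 * (1 - a) ^ 2 ≤ 36 := by nlinarith
  have h11 : β ^ 2 ≤ 1 / 4 := by
    have := sq_le_sq' (by linarith [(abs_le.1 f5).1]) (abs_le.1 f5).2
    linarith
  have h12 : (9 - 12 * a) ^ 2 ≤ 81 := by nlinarith
  have h13 : β ^ 2 * (9 - 12 * a) ^ 2 ≤ 1 / 4 * 81 := mul_le_mul h11 h12 (sq_nonneg _) (by norm_num)
  have h14 : 0 ≤ t ^ 2 * X ^ 2 := by positivity
  have h15 := mul_le_mul_of_nonneg_left h10 h14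
  have h16 := mul_le_mul_of_nonneg_left h13 h14
  rw [e2, e3]
  linarith

theorem lap0_bound :
    |t ^ 6 * (2 * q ^ 3 * (4 * r + 36 * t ^ 10) - q ^ 2 * (8 + 30 * t ^ 4)) -
      72 * t ^ 10 * q ^ 2 + 30 * t ^ 4 * q| ≤ 8 * (t ^ 4 * q) ^ 3 + 204 * (t ^ 4 * q) := by
  obtain ⟨f1, f2, f3, f4, f5, f6⟩ := facts hr hq h
  set a := t ^ 6 * q with ha
  set X := t ^ 4 * q with hX
  have e : t ^ 6 * (2 * q ^ 3 * (4 * r + 36 * t ^ 10) - q ^ 2 * (8 + 30 * t ^ 4)) -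
      72 * t ^ 10 * q ^ 2 + 30 * t ^ 4 * q = -(8 * X ^ 3) + X * (72 * a ^ 2 - 102 * a + 30) := by
    rw [hX, ha]
    linear_combination (8 * t ^ 6 * q ^ 2) * h
  rw [e]
  have h8 : 0 ≤ X ^ 3 := by positivity
  have h9 : |72 * a ^ 2 - 102 * a + 30| ≤ 204 := by
    rw [abs_le]; constructor <;> nlinarith
  have h10 : |X * (72 * a ^ 2 - 102 * a + 30)| ≤ 204 * X := by
    rw [abs_mul, abs_of_nonneg f6]; nlinarith
  have h11 : |-(8 * X ^ 3)| = 8 * X ^ 3 := by rw [abs_neg, abs_of_nonneg (by positivity)]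
  calc _ ≤ |-(8 * X ^ 3)| + |X * (72 * a ^ 2 - 102 * a + 30)| := abs_add_le _ _
    _ ≤ _ := by rw [h11]; linarith

theorem lap1_bound :
    |(t ^ 9 * y) * (6 * q ^ 4 * (4 * r + 36 * t ^ 10) - 2 * q ^ 3 * (8 + 30 * t ^ 4)) -
      8 * t ^ 9 * y * q ^ 3 - 216 * t ^ 13 * y * q ^ 3 + 72 * t ^ 7 * y * q ^ 2| ≤
      12 * (t ^ 4 * q) ^ 3 + 300 * (t ^ 4 * q) := by
  obtain ⟨f1, f2, f3, f4, f5, f6⟩ := facts hr hq h
  set a := t ^ 6 * q with ha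
  set β := t ^ 3 * y * q with hβ
  set X := t ^ 4 * q with hX
  have e : (t ^ 9 * y) * (6 * q ^ 4 * (4 * r + 36 * t ^ 10) - 2 * q ^ 3 * (8 + 30 * t ^ 4)) -
      8 * t ^ 9 * y * q ^ 3 - 216 * t ^ 13 * y * q ^ 3 + 72 * t ^ 7 * y * q ^ 2 =
      β * (-(24 * X ^ 3) + X * (216 * a ^ 2 - 276 * a + 72)) := by
    rw [hX, ha, hβ]
    linear_combination (24 * t ^ 9 * y * q ^ 3) * h
  rw [e, abs_mul]
  have h8 : 0 ≤ X ^ 3 := by positivity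
  have h9 : |216 * a ^ 2 - 276 * a + 72| ≤ 600 := by
    rw [abs_le]; constructor <;> nlinarith
  have h10 : |X * (216 * a ^ 2 - 276 * a + 72)| ≤ 600 * X := by
    rw [abs_mul, abs_of_nonneg f6]; nlinarith
  have h11 : |-(24 * X ^ 3)| = 24 * X ^ 3 := by rw [abs_neg, abs_of_nonneg (by positivity)]
  have h12 : |-(24 * X ^ 3) + X * (216 * a ^ 2 - 276 * a + 72)| ≤ 24 * X ^ 3 + 600 * X := by
    calc _ ≤ |-(24 * X ^ 3)| + |X * (216 * a ^ 2 - 276 * a + 72)| := abs_add_le _ _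
      _ ≤ _ := by rw [h11]; linarith
  calc |β| * |-(24 * X ^ 3) + X * (216 * a ^ 2 - 276 * a + 72)| ≤ 1 / 2 * (24 * X ^ 3 + 600 * X) :=
        mul_le_mul f5 h12 (abs_nonneg _) (by norm_num)
    _ = _ := by ring

end real

theorem R_ge (x : E5) : (x 0) ^ 2 ≤ R x := by
  rw [R_eq]; nlinarith [sq_nonneg (x 1), sq_nonneg (x 2), sq_nonneg (x 3)]

theorem q_eq {x : E5} (hx : x ≠ 0) : (D x)⁻¹ * (R x + (x 4) ^ 6) = 1 :=
  inv_mul_cancel₀ (D_pos hx).ne'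

/-- `X = t⁴/D` -/
noncomputable def X (x : E5) : ℝ := (x 4) ^ 4 * (D x)⁻¹

theorem X_nonneg {x : E5} (hx : x ≠ 0) : 0 ≤ X x := by
  have := D_pos hx
  unfold X; positivity

theorem msq_lower {x : E5} (hx : x ≠ 0) : 1 + 1 / 2 * X x ^ 3 ≤ msq (G x) := by
  rw [msq_G hx, add_assoc]
  have := lower (R_ge x) (inv_pos.2 (D_pos hx)) (q_eq hx)
  unfold X
  linarith

theorem msq_pos {x : E5} (hx : x ≠ 0) : 0 < msq (G x) := by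
  have := msq_lower hx
  have := X_nonneg hx
  have : 0 ≤ X x ^ 3 := by positivity
  linarith

theorem x4_sq {x : E5} (hx : ‖x‖ ≤ 1) : (x 4) ^ 2 ≤ 1 := by
  have h1 := R_nonneg x
  unfold R at h1
  have := norm_nonneg x
  nlinarith

theorem msq_upper {x : E5} (hx : x ≠ 0) (hx1 : ‖x‖ ≤ 1) :
    msq (G x) ≤ 1 + (13 * X x ^ 3 + 57 * ((x 4) ^ 2 * X x ^ 2)) := by
  rw [msq_G hx, add_assoc]
  have := upper (R_ge x) (inv_pos.2 (D_pos hx)) (q_eq hx) (x4_sq hx1)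
  unfold X
  linarith

theorem lap_bound {x : E5} (hx : x ≠ 0) : |(Δ u0) x| + |(Δ u1) x| ≤ 1100 * msq (G x) := by
  have h0 := lap0_bound (R_ge x) (inv_pos.2 (D_pos hx)) (q_eq hx)
  have h1 := lap1_bound (R_ge x) (inv_pos.2 (D_pos hx)) (q_eq hx)
  rw [← lap_u0 hx] at h0
  rw [← lap_u1 hx] at h1
  have h2 := msq_lower hx
  have hX := X_nonneg hx
  have h3 : X x = (x 4) ^ 4 * (D x)⁻¹ := rfl
  rw [← h3] at h0 h1
  have h4 : X x ≤ 1 + X x ^ 3 := by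
    rcases le_total (X x) 1 with h | h
    · have : 0 ≤ X x ^ 3 := by positivity
      linarith
    · have : X x ≤ X x ^ 3 := le_self_pow₀ h (by norm_num)
      linarith
  have h5 : 0 ≤ X x ^ 3 := by positivity
  nlinarith

end Q61.M105
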