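import Pool.Agent.Q61.Green
import Pool.Agent.Q61.LapN

set_option autoImplicit false

open MeasureTheory InnerProductSpace Laplacian Topology Filter Set
open scoped ContDiff

namespace Q61.Rem

/-- bound of the derivative of the transition function -/
theorem exists_M : ∃ M : ℝ, 0 ≤ M ∧ ∀ s : ℝ, |deriv Real.smoothTransition s| ≤ M := by
  have hc : Continuous (deriv Real.smoothTransition) :=
    (contDiff_deriv Real.smoothTransition.contDiff).continuous
  have hs : HasCompactSupport (deriv Real.smoothTransition) := by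
    apply HasCompactSupport.intro (isCompact_Icc (a := (0:ℝ)) (b := 1))
    intro x hx
    rw [mem_Icc, not_and_or, not_le, not_le] at hx
    rcases hx with hx | hx
    · have : Real.smoothTransition =ᶠ[𝓝 x] fun _ => 0 := by
        filter_upwards [Iio_mem_nhds hx] with y hy
        exact Real.smoothTransition.zero_of_nonpos (le_of_lt hy)
      rw [this.deriv_eq]; simp
    · have : Real.smoothTransition =ᶠ[𝓝 x] fun _ => 1 := by
        filter_upwards [Ioi_mem_nhds hx] with y hy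
        exact Real.smoothTransition.one_of_one_le (le_of_lt hy)
      rw [this.deriv_eq]; simp
  obtain ⟨C, hC⟩ := hs.exists_bound_of_continuous hc
  exact ⟨max C 0, le_max_right _ _, fun s => (hC s).trans (le_max_left _ _)⟩

theorem deriv_trans_zero {s : ℝ} (hs : 1 < s) : deriv Real.smoothTransition s = 0 := by
  have : Real.smoothTransition =ᶠ[𝓝 s] fun _ => 1 := by
    filter_upwards [Ioi_mem_nhds hs] with y hy
    exact Real.smoothTransition.one_of_one_le (le_of_lt hy)
  rw [this.deriv_eq]; simp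

variable {E : Type*} [NormedAddCommGroup E] [InnerProductSpace ℝ E]

/-- cut-off near the origin -/
noncomputable def ζ (k : ℕ) (x : E) : ℝ := Real.smoothTransition ((k:ℝ) ^ 2 * ‖x‖ ^ 2 - 1)

theorem ζ_smooth (k : ℕ) : ContDiff ℝ ∞ (ζ (E := E) k) := by
  unfold ζ
  exact Real.smoothTransition.contDiff.comp ((contDiff_const.mul (contDiff_id.norm_sq ℝ)).sub contDiff_const)

theorem ζ_abs (k : ℕ) (x : E) : |ζ k x| ≤ 1 := by
  unfold ζ
  rw [abs_of_nonneg (Real.smoothTransition.nonneg _)]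
  exact Real.smoothTransition.le_one _

theorem ζ_lim {x : E} (hx : x ≠ 0) : ∀ᶠ k : ℕ in atTop, 2 < (k:ℝ) ^ 2 * ‖x‖ ^ 2 := by
  have hx0 : 0 < ‖x‖ := norm_pos_iff.2 hx
  obtain ⟨N, hN⟩ := exists_nat_gt (2 / ‖x‖)
  filter_upwards [eventually_ge_atTop N] with k hk
  have h1 : 2 / ‖x‖ < k := hN.trans_le (by exact_mod_cast hk)
  rw [div_lt_iff₀ hx0] at h1
  nlinarith

theorem ζ_one {k : ℕ} {x : E} (h : 2 < (k:ℝ) ^ 2 * ‖x‖ ^ 2) : ζ k x = 1 :=
  Real.smoothTransition.one_of_one_le (by linarith)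

theorem ζ_fderiv (k : ℕ) (x v : E) : fderiv ℝ (ζ k) x v =
    deriv Real.smoothTransition ((k:ℝ) ^ 2 * ‖x‖ ^ 2 - 1) * ((k:ℝ) ^ 2 * (2 * inner ℝ x v)) := by
  have h1 : HasFDerivAt (fun x : E => (k:ℝ) ^ 2 * ‖x‖ ^ 2 - 1) _ x :=
    (((hasFDerivAt_id x).norm_sq).const_mul ((k:ℝ) ^ 2)).sub_const 1
  have h2 : HasDerivAt Real.smoothTransition (deriv Real.smoothTransition ((k:ℝ) ^ 2 * ‖x‖ ^ 2 - 1))
      ((k:ℝ) ^ 2 * ‖x‖ ^ 2 - 1) :=
    ((Real.smoothTransition.contDiff (n := 1)).differentiable (by norm_num) _).hasDerivAt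
  have h3 : HasFDerivAt (ζ (E := E) k) _ x := h2.comp_hasFDerivAt x h1
  rw [h3.fderiv]
  simp

theorem ζ_fderiv_zero {k : ℕ} {x : E} (h : 2 < (k:ℝ) ^ 2 * ‖x‖ ^ 2) (v : E) : fderiv ℝ (ζ k) x v = 0 := by
  rw [ζ_fderiv, deriv_trans_zero (by linarith), zero_mul]

theorem ζ_fderiv_bound {M : ℝ} (hM : ∀ s : ℝ, |deriv Real.smoothTransition s| ≤ M) (k : ℕ) {x : E}
    (hx : x ≠ 0) (v : E) : |fderiv ℝ (ζ k) x v| ≤ 4 * M * ‖v‖ * ‖x‖⁻¹ := by
  have hx0 : 0 < ‖x‖ := norm_pos_iff.2 hx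
  have hM0 : 0 ≤ M := (abs_nonneg _).trans (hM 0)
  by_cases h : 2 < (k:ℝ) ^ 2 * ‖x‖ ^ 2
  · rw [ζ_fderiv_zero h, abs_zero]; positivity
  · push Not at h
    rw [ζ_fderiv, abs_mul, abs_mul, abs_mul, abs_of_nonneg (sq_nonneg (k:ℝ)),
      abs_of_pos (by norm_num : (0:ℝ) < 2)]
    have h1 := abs_real_inner_le_norm x v
    have h2 : (k:ℝ) ^ 2 * (2 * |inner ℝ x v|) ≤ 4 * ‖v‖ * ‖x‖⁻¹ := by
      calc (k:ℝ) ^ 2 * (2 * |inner ℝ x v|) ≤ (k:ℝ) ^ 2 * (2 * (‖x‖ * ‖v‖)) := by gcongr
        _ = ((k:ℝ) ^ 2 * ‖x‖ ^ 2) * (2 * ‖v‖ * ‖x‖⁻¹) := by field_simp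
        _ ≤ 2 * (2 * ‖v‖ * ‖x‖⁻¹) := by gcongr
        _ = _ := by ring
    calc _ ≤ M * (4 * ‖v‖ * ‖x‖⁻¹) := mul_le_mul (hM _) h2 (by positivity) hM0
      _ = _ := by ring

theorem ζφ_zero (k : ℕ) {φ : E → ℝ} : (0:E) ∉ tsupport (fun x => ζ k x * φ x) := by
  intro h
  have h1 : tsupport (fun x => ζ k x * φ x) ⊆ {x : E | 1 ≤ (k:ℝ) ^ 2 * ‖x‖ ^ 2} := by
    apply closure_minimal
    · intro x hx
      by_contra h2
      apply hx
      have : ζ k x = 0 := Real.smoothTransition.zero_of_nonpos (by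
        have : ¬ (1 ≤ (k:ℝ) ^ 2 * ‖x‖ ^ 2) := h2
        linarith)
      simp [this]
    · exact isClosed_le continuous_const (continuous_const.mul (continuous_norm.pow 2))
  have h2 : (1:ℝ) ≤ (k:ℝ) ^ 2 * ‖(0:E)‖ ^ 2 := h1 h
  simp at h2
  norm_num at h2

variable [FiniteDimensional ℝ E] [MeasurableSpace E] [BorelSpace E]

section

variable {φ : E → ℝ} (hφ : ContDiff ℝ 1 φ) (hc : HasCompactSupport φ)
  (hae : ∀ᵐ x : E, x ≠ 0)

include hφ hc hae

theorem lim1 {g : E → ℝ} (hg : IntegrableOn g (tsupport φ)) :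
    Tendsto (fun k : ℕ => ∫ x, g x * (ζ k x * φ x)) atTop (𝓝 (∫ x, g x * φ x)) := by
  obtain ⟨C, hC⟩ := hc.exists_bound_of_continuous hφ.continuous
  have hm : MeasurableSet (tsupport φ) := (isClosed_tsupport φ).measurableSet
  have hgi : Integrable ((tsupport φ).indicator g) := (integrable_indicator_iff hm).2 hg
  have heq : ∀ (k : ℕ), (fun x => g x * (ζ k x * φ x)) = fun x => (tsupport φ).indicator g x * (ζ k x * φ x) := by
    intro k; funext x
    by_cases hx : x ∈ tsupport φ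
    · rw [indicator_of_mem hx]
    · rw [image_eq_zero_of_notMem_tsupport hx]; simp
  simp only [heq]
  have heq2 : (fun x => g x * φ x) = fun x => (tsupport φ).indicator g x * φ x := by
    funext x
    by_cases hx : x ∈ tsupport φ
    · rw [indicator_of_mem hx]
    · rw [image_eq_zero_of_notMem_tsupport hx]; simp
  rw [heq2]
  apply tendsto_integral_of_dominated_convergence (fun x => ‖(tsupport φ).indicator g x‖ * C)
  · intro k
    exact hgi.1.mul ((ζ_smooth k).continuous.mul hφ.continuous).aestronglyMeasurable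
  · exact hgi.norm.mul_const C
  · intro k
    refine ae_of_all _ fun x => ?_
    rw [norm_mul, norm_mul]
    have h1 : ‖ζ k x‖ ≤ 1 := ζ_abs k x
    have h2 := hC x
    have : ‖ζ k x‖ * ‖φ x‖ ≤ 1 * C := mul_le_mul h1 h2 (norm_nonneg _) (by norm_num)
    rw [one_mul] at this
    exact mul_le_mul_of_nonneg_left this (norm_nonneg _)
  · filter_upwards [hae] with x hx
    apply tendsto_const_nhds.congr'
    filter_upwards [ζ_lim hx] with k hk
    rw [ζ_one hk, one_mul]

theorem lim2 {w : E → ℝ} (hw : IntegrableOn w (tsupport φ))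
    (hw' : IntegrableOn (fun x => w x * ‖x‖⁻¹) (tsupport φ)) (v : E) :
    Tendsto (fun k : ℕ => ∫ x, w x * fderiv ℝ (fun x => ζ k x * φ x) x v) atTop
      (𝓝 (∫ x, w x * fderiv ℝ φ x v)) := by
  obtain ⟨C, hC⟩ := hc.exists_bound_of_continuous hφ.continuous
  obtain ⟨M, hM0, hM⟩ := exists_M
  have hφ' : Continuous (fun x => fderiv ℝ φ x v) :=
    (hφ.continuous_fderiv (by norm_num)).clm_apply continuous_const
  have hc' : HasCompactSupport (fun x => fderiv ℝ φ x v) := hc.fderiv_apply (𝕜 := ℝ) (v := v)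
  obtain ⟨C', hC'⟩ := hc'.exists_bound_of_continuous hφ'
  have hm : MeasurableSet (tsupport φ) := (isClosed_tsupport φ).measurableSet
  have hgi : Integrable ((tsupport φ).indicator w) := (integrable_indicator_iff hm).2 hw
  have hgi' : Integrable ((tsupport φ).indicator (fun x => w x * ‖x‖⁻¹)) :=
    (integrable_indicator_iff hm).2 hw'
  have hfd : ∀ (k : ℕ) x, fderiv ℝ (fun x => ζ k x * φ x) x v =
      ζ k x * fderiv ℝ φ x v + φ x * fderiv ℝ (ζ k) x v := by
    intro k x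
    have h1 := (((ζ_smooth (E := E) k).differentiable (by norm_num)) x).hasFDerivAt
    have h2 := ((hφ.differentiable (by norm_num)) x).hasFDerivAt
    have h3 : HasFDerivAt (fun x => ζ k x * φ x) _ x := h1.mul h2
    rw [h3.fderiv]
    simp
  have hz : ∀ x ∉ tsupport φ, fderiv ℝ φ x v = 0 := fun x hx => by
    have := tsupport_fderiv_apply_subset (φ := φ) v
    exact image_eq_zero_of_notMem_tsupport (f := fun x => fderiv ℝ φ x v) (fun h => hx (this h))
  have heq : ∀ (k : ℕ), (fun x => w x * fderiv ℝ (fun x => ζ k x * φ x) x v) =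
      fun x => (tsupport φ).indicator w x * (ζ k x * fderiv ℝ φ x v + φ x * fderiv ℝ (ζ k) x v) := by
    intro k; funext x
    rw [hfd]
    by_cases hx : x ∈ tsupport φ
    · rw [indicator_of_mem hx]
    · rw [image_eq_zero_of_notMem_tsupport hx, hz x hx]; simp
  simp only [heq]
  have heq2 : (fun x => w x * fderiv ℝ φ x v) = fun x => (tsupport φ).indicator w x * fderiv ℝ φ x v := by
    funext x
    by_cases hx : x ∈ tsupport φ
    · rw [indicator_of_mem hx]
    · rw [hz x hx]; simp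
  rw [heq2]
  apply tendsto_integral_of_dominated_convergence (fun x => ‖(tsupport φ).indicator w x‖ * C' +
    ‖(tsupport φ).indicator (fun x => w x * ‖x‖⁻¹) x‖ * (C * (4 * M * ‖v‖)))
  · intro k
    apply hgi.1.mul
    apply Continuous.aestronglyMeasurable
    exact ((ζ_smooth k).continuous.mul hφ').add (hφ.continuous.mul
      (((ζ_smooth (E := E) k).continuous_fderiv (by norm_num)).clm_apply continuous_const))
  · exact (hgi.norm.mul_const C').add (hgi'.norm.mul_const _)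
  · intro k
    filter_upwards [hae] with x hx
    rw [norm_mul]
    by_cases hxs : x ∈ tsupport φ
    · rw [indicator_of_mem hxs, indicator_of_mem hxs]
      have h1 : ‖ζ k x * fderiv ℝ φ x v + φ x * fderiv ℝ (ζ k) x v‖ ≤
          C' + C * (4 * M * ‖v‖) * ‖x‖⁻¹ := by
        refine (norm_add_le _ _).trans ?_
        rw [norm_mul, norm_mul]
        have h1 : ‖ζ k x‖ ≤ 1 := ζ_abs k x
        have h2 := hC x
        have h3 := hC' x
        have h4 : ‖fderiv ℝ (ζ k) x v‖ ≤ 4 * M * ‖v‖ * ‖x‖⁻¹ := ζ_fderiv_bound hM k hx v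
        have hC0 : 0 ≤ C := (norm_nonneg _).trans h2
        have e1 : ‖ζ k x‖ * ‖fderiv ℝ φ x v‖ ≤ 1 * C' := mul_le_mul h1 h3 (norm_nonneg _) (by norm_num)
        have e2 : ‖φ x‖ * ‖fderiv ℝ (ζ k) x v‖ ≤ C * (4 * M * ‖v‖ * ‖x‖⁻¹) :=
          mul_le_mul h2 h4 (norm_nonneg _) hC0
        linarith
      calc ‖w x‖ * ‖ζ k x * fderiv ℝ φ x v + φ x * fderiv ℝ (ζ k) x v‖
          ≤ ‖w x‖ * (C' + C * (4 * M * ‖v‖) * ‖x‖⁻¹) := mul_le_mul_of_nonneg_left h1 (norm_nonneg _)
        _ = _ := by rw [norm_mul, norm_inv, norm_norm]; ring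
    · rw [indicator_of_notMem hxs, indicator_of_notMem hxs]; simp
  · filter_upwards [hae] with x hx
    apply tendsto_const_nhds.congr'
    filter_upwards [ζ_lim hx] with k hk
    rw [ζ_one hk, ζ_fderiv_zero hk, one_mul, mul_zero, add_zero]

/-- integration by parts for functions that are `C¹` away from the origin -/
theorem ibp {w : E → ℝ} (hw1 : ∀ x ≠ 0, ContDiffAt ℝ 1 w x) (v : E)
    (hw : IntegrableOn w (tsupport φ)) (hw' : IntegrableOn (fun x => w x * ‖x‖⁻¹) (tsupport φ))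
    (hwd : IntegrableOn (fun x => fderiv ℝ w x v) (tsupport φ)) :
    ∫ x, w x * fderiv ℝ φ x v = -∫ x, fderiv ℝ w x v * φ x := by
  have l1 := lim2 hφ hc hae hw hw' v
  have l2 := (lim1 hφ hc hae hwd).neg
  refine tendsto_nhds_unique l1 (l2.congr fun k => ?_)
  have hψ : ContDiff ℝ 1 (fun x => ζ k x * φ x) :=
    ((ζ_smooth k).of_le (by exact_mod_cast le_top)).mul hφ
  have hψc : HasCompactSupport (fun x => ζ k x * φ x) := hc.mul_left
  have h0 : ∀ x ∈ tsupport (fun x => ζ k x * φ x), x ≠ 0 := fun x hx h => ζφ_zero k (φ := φ) (h ▸ hx)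
  have hsub := tsupport_fderiv_apply_subset (φ := fun x => ζ k x * φ x) v
  symm
  apply integral_mul_fderiv_eq_neg_fderiv_mul_of_integrable
  · apply integrable_mul_of_tsupport _ hψ.continuous hψc
    intro x hx
    have : ContDiffAt ℝ 0 (fderiv ℝ w) x := (hw1 x (h0 x hx)).fderiv_right (m := 0) (by norm_num)
    exact this.continuousAt.clm_apply continuousAt_const
  · exact integrable_mul_of_tsupport (fun x hx => (hw1 x (h0 x (hsub hx))).continuousAt)
      ((hψ.continuous_fderiv (by norm_num)).clm_apply continuous_const)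
      (hψc.fderiv_apply (𝕜 := ℝ) (v := v))
  · exact integrable_mul_of_tsupport (fun x hx => (hw1 x (h0 x hx)).continuousAt) hψ.continuous hψc
  · intro x hx
    exact (hw1 x (h0 x hx)).differentiableAt (by norm_num)
  · intro x _
    exact hψ.differentiable (by norm_num) x

end

section

variable {n : ℕ} {φ : EuclideanSpace ℝ (Fin n) → ℝ} (hφ : ContDiff ℝ 1 φ) (hc : HasCompactSupport φ)
  (hae : ∀ᵐ x : EuclideanSpace ℝ (Fin n), x ≠ 0)

include hφ hc hae

/-- Green's first identity for functions that are `C²` away from the origin -/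
theorem green {f : EuclideanSpace ℝ (Fin n) → ℝ} (hf : ∀ x ≠ 0, ContDiffAt ℝ 2 f x)
    (h1 : ∀ i, IntegrableOn (fun x => fderiv ℝ f x (ev i)) (tsupport φ))
    (h2 : ∀ i, IntegrableOn (fun x => fderiv ℝ f x (ev i) * ‖x‖⁻¹) (tsupport φ))
    (h3 : IntegrableOn (fun x => (Δ f) x) (tsupport φ)) :
    ∑ i, ∫ x, fderiv ℝ f x (ev i) * fderiv ℝ φ x (ev i) = -∫ x, (Δ f) x * φ x := by
  have l1 : Tendsto (fun k : ℕ => ∑ i, ∫ x, fderiv ℝ f x (ev i) * fderiv ℝ (fun x => ζ k x * φ x) x (ev i))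
      atTop (𝓝 (∑ i, ∫ x, fderiv ℝ f x (ev i) * fderiv ℝ φ x (ev i))) :=
    tendsto_finsetSum _ fun i _ => lim2 hφ hc hae (h1 i) (h2 i) (ev i)
  have l2 := (lim1 hφ hc hae h3).neg
  refine tendsto_nhds_unique l1 (l2.congr fun k => ?_)
  have hψ : ContDiff ℝ 1 (fun x => ζ k x * φ x) :=
    ((ζ_smooth k).of_le (by exact_mod_cast le_top)).mul hφ
  have hψc : HasCompactSupport (fun x => ζ k x * φ x) := hc.mul_left
  have h0 : ∀ x ∈ tsupport (fun x => ζ k x * φ x), x ≠ 0 := fun x hx h => ζφ_zero k (φ := φ) (h ▸ hx)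
  have hfd : ∀ x ≠ 0, ∀ v, ContDiffAt ℝ 1 (fun x => fderiv ℝ f x v) x := by
    intro x hx v
    have hf1 : ContDiffAt ℝ 1 (fderiv ℝ f) x := (hf x hx).fderiv_right (m := 1) (by norm_num)
    exact hf1.clm_apply contDiffAt_const
  have hfd2 : ∀ x ≠ 0, ∀ v, fderiv ℝ (fun x => fderiv ℝ f x v) x v = fderiv ℝ (fderiv ℝ f) x v v := by
    intro x hx v
    have hf1 : ContDiffAt ℝ 1 (fderiv ℝ f) x := (hf x hx).fderiv_right (m := 1) (by norm_num)
    have h1 : HasFDerivAt (fderiv ℝ f) (fderiv ℝ (fderiv ℝ f) x) x :=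
      (hf1.differentiableAt (by norm_num)).hasFDerivAt
    rw [(h1.clm_apply (hasFDerivAt_const v x)).fderiv]
    simp
  have hint : ∀ i, Integrable (fun x => fderiv ℝ (fun x => fderiv ℝ f x (ev i)) x (ev i) * (ζ k x * φ x)) := by
    intro i
    apply integrable_mul_of_tsupport _ hψ.continuous hψc
    intro x hx
    have : ContDiffAt ℝ 0 (fderiv ℝ (fun x => fderiv ℝ f x (ev i))) x :=
      (hfd x (h0 x hx) (ev i)).fderiv_right (m := 0) (by norm_num)
    exact this.continuousAt.clm_apply continuousAt_const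
  have key : ∀ i, ∫ x, fderiv ℝ f x (ev i) * fderiv ℝ (fun x => ζ k x * φ x) x (ev i) =
      -∫ x, fderiv ℝ (fun x => fderiv ℝ f x (ev i)) x (ev i) * (ζ k x * φ x) := by
    intro i
    have hsub := tsupport_fderiv_apply_subset (φ := fun x => ζ k x * φ x) (ev i)
    apply integral_mul_fderiv_eq_neg_fderiv_mul_of_integrable (hint i)
    · exact integrable_mul_of_tsupport (fun x hx => (hfd x (h0 x (hsub hx)) (ev i)).continuousAt)
        ((hψ.continuous_fderiv (by norm_num)).clm_apply continuous_const)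
        (hψc.fderiv_apply (𝕜 := ℝ) (v := (ev i)))
    · exact integrable_mul_of_tsupport (fun x hx => (hfd x (h0 x hx) (ev i)).continuousAt) hψ.continuous hψc
    · intro x hx
      exact (hfd x (h0 x hx) (ev i)).differentiableAt (by norm_num)
    · intro x _
      exact hψ.differentiable (by norm_num) x
  simp only [key]
  rw [Finset.sum_neg_distrib, ← integral_finsetSum _ (fun i _ => hint i)]
  congr 1
  apply integral_congr_ae
  filter_upwards with x
  by_cases hx : x ∈ tsupport (fun x => ζ k x * φ x)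
  · have hx0 := h0 x hx
    rw [lapN_eq, Finset.sum_mul]
    apply Finset.sum_congr rfl
    intro i _
    rw [hfd2 x hx0]
  · have : ζ k x * φ x = 0 := image_eq_zero_of_notMem_tsupport (f := fun x => ζ k x * φ x) hx
    rw [this]; simp

end

end Q61.Rem
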