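import Pool.Agent.Q61.MP105b
import Pool.Agent.Q61.Removable

set_option autoImplicit false

open MeasureTheory InnerProductSpace Laplacian Topology Filter Set
open scoped ContDiff Pointwise

namespace Q61.M105

theorem int_abs_rpow {c : ℝ} (hc : -1 < c) :
    Integrable ((Icc (-1:ℝ) 1).indicator fun s : ℝ => |s| ^ c) := by
  rw [integrable_indicator_iff measurableSet_Icc, ← intervalIntegrable_iff_integrableOn_Icc_of_le (by norm_num)]
  have h1 : IntervalIntegrable (fun s : ℝ => |s| ^ c) volume 0 1 := by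
    apply (intervalIntegral.intervalIntegrable_rpow' (a := 0) (b := 1) hc).congr
    rw [uIoc_of_le zero_le_one]
    intro s hs
    simp only [abs_of_pos hs.1]
  have h2 : IntervalIntegrable (fun s : ℝ => |s| ^ c) volume (-1) 0 := by
    have := (IntervalIntegrable.iff_comp_neg (f := fun s : ℝ => |s| ^ c) (a := 0) (b := 1)).1 h1
    simp only [abs_neg, neg_zero] at this
    exact this.symm
  exact h2.trans h1

theorem coord_ne (i : Fin 5) : ∀ᵐ x : E5, x i ≠ 0 := by
  rw [ae_iff]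
  simp only [not_not]
  have h : (LinearMap.ker ((EuclideanSpace.proj (𝕜 := ℝ) i : E5 →L[ℝ] ℝ) : E5 →ₗ[ℝ] ℝ)) ≠ ⊤ := by
    intro h
    have h1 : (ev i : E5) ∈ LinearMap.ker ((EuclideanSpace.proj (𝕜 := ℝ) i : E5 →L[ℝ] ℝ) : E5 →ₗ[ℝ] ℝ) := by
      rw [h]; trivial
    rw [LinearMap.mem_ker] at h1
    have h2 : (ev i : E5) i = 0 := h1
    simp [ev] at h2
  have := Measure.addHaar_submodule (volume : Measure E5) _ h
  refine measure_mono_null ?_ this
  intro x hx
  exact hx

theorem ae_ne : ∀ᵐ x : E5, x ≠ 0 := by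
  filter_upwards [coord_ne 0] with x hx h
  apply hx; rw [h]; rfl

theorem R_pos_ae : ∀ᵐ x : E5, 0 < R x := by
  filter_upwards [coord_ne 0] with x hx
  have := R_ge x
  have : 0 < (x 0) ^ 2 := by positivity
  linarith

theorem R_meas : Measurable R := R_smooth (k := 0) |>.continuous.measurable

theorem rho_int {β : ℝ} (h0 : 0 ≤ β) (h2 : β < 2) :
    IntegrableOn (fun x : E5 => (R x) ^ (-β)) (Metric.ball 0 1) := by
  set f : Fin 5 → ℝ → ℝ := fun i => if i = 4 then (Icc (-1:ℝ) 1).indicator fun s : ℝ => |s| ^ (0:ℝ)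
    else (Icc (-1:ℝ) 1).indicator fun s : ℝ => |s| ^ (-(β / 2)) with hf
  have hfi : ∀ i, Integrable (f i) := by
    intro i
    by_cases hi : i = 4
    · simp only [hf, hi, if_true]; exact int_abs_rpow (by norm_num)
    · simp only [hf, hi, if_false]; exact int_abs_rpow (by linarith)
  have h1 : Integrable (fun x : Fin 5 → ℝ => ∏ i, f i (x i)) := Integrable.fintype_prod hfi
  have h3 : Integrable (fun x : E5 => ∏ i, f i (x i)) := by
    rw [← (PiLp.volume_preserving_toLp (Fin 5)).integrable_comp_emb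
      (MeasurableEquiv.toLp 2 _).measurableEmbedding]
    exact h1
  refine Integrable.mono' h3.integrableOn ?_ ?_
  · exact (R_meas.pow_const _).aestronglyMeasurable
  · rw [ae_restrict_iff' Metric.isOpen_ball.measurableSet]
    filter_upwards [coord_ne 0, coord_ne 1, coord_ne 2, coord_ne 3, R_pos_ae] with x c0 c1 c2 c3 hR hx
    rw [mem_ball_zero_iff] at hx
    rw [Real.norm_of_nonneg (Real.rpow_nonneg hR.le _)]
    have hcoord : ∀ i, |x i| ≤ 1 := by
      intro i
      have := EuclideanSpace.norm_sq_eq x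
      have h4 : ‖x i‖ ^ 2 ≤ ‖x‖ ^ 2 := by
        rw [this]
        exact Finset.single_le_sum (f := fun i => ‖x i‖ ^ 2) (fun j _ => sq_nonneg _) (Finset.mem_univ i)
      have h5 : ‖x i‖ ≤ ‖x‖ := by
        exact (sq_le_sq₀ (norm_nonneg _) (norm_nonneg _)).1 h4
      exact h5.trans hx.le
    have hval : ∀ i, i ≠ 4 → f i (x i) = |x i| ^ (-(β / 2)) := by
      intro i hi
      simp only [hf, hi, if_false]
      rw [indicator_of_mem]
      exact abs_le.1 (hcoord i)
    have hval4 : f 4 (x 4) = 1 := by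
      simp only [hf, if_true]
      rw [indicator_of_mem]
      · exact Real.rpow_zero _
      · exact abs_le.1 (hcoord 4)
    rw [Fin.prod_univ_five, hval4, hval 0 (by decide), hval 1 (by decide), hval 2 (by decide),
      hval 3 (by decide), mul_one]
    have key : ∀ s : ℝ, s ≠ 0 → s ^ 2 ≤ R x → (R x) ^ (-(β / 4)) ≤ |s| ^ (-(β / 2)) := by
      intro s hs hsR
      have h5 : |s| ^ (-(β / 2)) = (s ^ 2) ^ (-(β / 4)) := by
        rw [← sq_abs s, ← Real.rpow_natCast, ← Real.rpow_mul (abs_nonneg s)]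
        congr 1; push_cast; ring
      rw [h5]
      exact Real.rpow_le_rpow_of_nonpos (by positivity) hsR (by linarith)
    have e : (R x) ^ (-β) = (R x) ^ (-(β / 4)) * (R x) ^ (-(β / 4)) * (R x) ^ (-(β / 4)) * (R x) ^ (-(β / 4)) := by
      rw [← Real.rpow_add hR, ← Real.rpow_add hR, ← Real.rpow_add hR]
      congr 1; ring
    rw [e]
    have hRe := R_eq x
    have k0 := key (x 0) c0 (by nlinarith [sq_nonneg (x 1), sq_nonneg (x 2), sq_nonneg (x 3)])
    have k1 := key (x 1) c1 (by nlinarith [sq_nonneg (x 0), sq_nonneg (x 2), sq_nonneg (x 3)])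
    have k2 := key (x 2) c2 (by nlinarith [sq_nonneg (x 1), sq_nonneg (x 0), sq_nonneg (x 3)])
    have k3 := key (x 3) c3 (by nlinarith [sq_nonneg (x 1), sq_nonneg (x 2), sq_nonneg (x 0)])
    have hp : 0 ≤ (R x) ^ (-(β / 4)) := Real.rpow_nonneg hR.le _
    gcongr

theorem R_smul (r : ℝ) (x : E5) : R (r • x) = r ^ 2 * R x := by
  rw [R_eq, R_eq]; simp; ring

theorem rho_scale {β r : ℝ} (hr : 0 < r) :
    ∫ x in Metric.ball (0:E5) r, (R x) ^ (-β) = r ^ (5 - 2 * β) * ∫ x in Metric.ball (0:E5) 1, (R x) ^ (-β) := by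
  have h := Measure.setIntegral_comp_smul_of_pos (volume : Measure E5) (fun x => (R x) ^ (-β))
    (Metric.ball (0:E5) 1) hr
  have hb : r • Metric.ball (0:E5) 1 = Metric.ball 0 r := by
    rw [smul_unitBall_of_pos hr]
  rw [hb] at h
  have e : ∀ x : E5, (R (r • x)) ^ (-β) = r ^ (-(2 * β)) * (R x) ^ (-β) := by
    intro x
    rw [R_smul, Real.mul_rpow (by positivity) (R_nonneg x)]
    congr 1
    rw [← Real.rpow_natCast, ← Real.rpow_mul hr.le]
    congr 1; push_cast; ring
  simp only [e] at h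
  rw [integral_const_mul, smul_eq_mul] at h
  have hfin : Module.finrank ℝ E5 = 5 := by simp
  rw [hfin] at h
  have h5 : (r:ℝ) ^ 5 ≠ 0 := by positivity
  have : ∫ x in Metric.ball (0:E5) r, (R x) ^ (-β) = r ^ 5 * (r ^ (-(2 * β)) * ∫ x in Metric.ball (0:E5) 1, (R x) ^ (-β)) := by
    rw [h]; field_simp
  rw [this, ← mul_assoc]
  congr 1
  rw [← Real.rpow_natCast, ← Real.rpow_add hr]
  congr 1

theorem X3_bound {q β : ℝ} (hq : 1 < q) (hqβ : q < β) (hβ : β < 2) {x : E5} (hR : 0 < R x) {r : ℝ}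
    (hx : ‖x‖ ≤ r) : (X x ^ 3) ^ q ≤ (r ^ 6) ^ (β - q) * (R x) ^ (-β) := by
  have hD : 0 < D x := lt_of_lt_of_le hR (R_le_D x)
  set T := (x 4) ^ 6 with hT
  have hT0 : 0 ≤ T := by positivity
  have hTD : T ≤ D x := t6_le_D x
  have hX : X x ^ 3 = T ^ 2 * ((D x)⁻¹) ^ 3 := by rw [hT, X]; ring
  have hr0 : 0 ≤ r := (norm_nonneg x).trans hx
  have hTr : T ≤ r ^ 6 := by
    have h1 : (x 4) ^ 2 ≤ r ^ 2 := by
      have := R_nonneg x
      unfold R at this
      nlinarith [norm_nonneg x]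
    calc T = ((x 4) ^ 2) ^ 3 := by rw [hT]; ring
      _ ≤ (r ^ 2) ^ 3 := pow_le_pow_left₀ (sq_nonneg _) h1 3
      _ = r ^ 6 := by ring
  rcases eq_or_lt_of_le hT0 with h0 | h0
  · rw [hX, ← h0]
    have : ((0:ℝ) ^ 2 * ((D x)⁻¹) ^ 3) ^ q = 0 := by
      rw [zero_pow (by norm_num), zero_mul, Real.zero_rpow (by linarith)]
    rw [this]
    positivity
  · have e1 : (X x ^ 3) ^ q = T ^ (β - q) * (T ^ (3 * q - β) * (D x) ^ (-(3 * q))) := by
      rw [hX, ← mul_assoc, ← Real.rpow_add h0, Real.mul_rpow (by positivity) (by positivity)]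
      congr 1
      · rw [← Real.rpow_natCast, ← Real.rpow_mul hT0]; congr 1; push_cast; ring
      · rw [inv_pow, Real.inv_rpow (by positivity), ← Real.rpow_natCast, ← Real.rpow_mul hD.le,
          ← Real.rpow_neg hD.le]
        congr 1
    rw [e1]
    have e2 : T ^ (3 * q - β) * (D x) ^ (-(3 * q)) ≤ (R x) ^ (-β) := by
      calc T ^ (3 * q - β) * (D x) ^ (-(3 * q)) ≤ (D x) ^ (3 * q - β) * (D x) ^ (-(3 * q)) := by
            apply mul_le_mul_of_nonneg_right _ (Real.rpow_nonneg hD.le _)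
            exact Real.rpow_le_rpow hT0 hTD (by linarith)
        _ = (D x) ^ (-β) := by rw [← Real.rpow_add hD]; congr 1; ring
        _ ≤ (R x) ^ (-β) := Real.rpow_le_rpow_of_nonpos hR (R_le_D x) (by linarith)
    have e3 : T ^ (β - q) ≤ (r ^ 6) ^ (β - q) := Real.rpow_le_rpow hT0 hTr (by linarith)
    exact mul_le_mul e3 e2 (by positivity) (by positivity)

theorem msq_rpow_bound {q β : ℝ} (hq : 1 < q) (hqβ : q < β) (hβ : β < 2) {x : E5} (hR : 0 < R x) {r : ℝ}
    (hx : ‖x‖ ≤ r) (hr : r ≤ 1) : msq (G x) ^ q ≤ 140 ^ q * (1 + (r ^ 6) ^ (β - q) * (R x) ^ (-β)) := by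
  have hx0 : x ≠ 0 := by
    rintro rfl
    rw [R_eq] at hR; simp at hR
  have h1 := msq_upper hx0 (hx.trans hr)
  have hX := X_nonneg hx0
  have h4 := x4_sq (hx.trans hr)
  have h2 : msq (G x) ≤ 70 * (1 + X x ^ 3) := by
    have h3 : (x 4) ^ 2 * X x ^ 2 ≤ 1 * X x ^ 2 := mul_le_mul_of_nonneg_right h4 (sq_nonneg _)
    have h5 : X x ^ 2 ≤ 1 + X x ^ 3 := by
      rcases le_total (X x) 1 with h | h
      · have : X x ^ 2 ≤ 1 := pow_le_one₀ hX h
        have : 0 ≤ X x ^ 3 := by positivity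
        linarith
      · have : X x ^ 2 ≤ X x ^ 3 := pow_le_pow_right₀ h (by norm_num)
        linarith
    linarith
  have h3 := X3_bound hq hqβ hβ hR hx
  have h0 : 0 ≤ msq (G x) := (msq_pos hx0).le
  have hX3 : 0 ≤ X x ^ 3 := by positivity
  calc msq (G x) ^ q ≤ (70 * (1 + X x ^ 3)) ^ q := Real.rpow_le_rpow h0 h2 (by linarith)
    _ ≤ (140 * max 1 (X x ^ 3)) ^ q := by
        apply Real.rpow_le_rpow (by positivity) _ (by linarith)
        have := le_max_left 1 (X x ^ 3)
        have := le_max_right 1 (X x ^ 3)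
        linarith
    _ = 140 ^ q * (max 1 (X x ^ 3)) ^ q := Real.mul_rpow (by norm_num) (by positivity)
    _ ≤ 140 ^ q * (1 + (X x ^ 3) ^ q) := by
        apply mul_le_mul_of_nonneg_left _ (by positivity)
        rcases le_total 1 (X x ^ 3) with h | h
        · rw [max_eq_right h]; linarith
        · rw [max_eq_left h, Real.one_rpow]
          have : 0 ≤ (X x ^ 3) ^ q := Real.rpow_nonneg hX3 _
          linarith
    _ ≤ _ := by
        apply mul_le_mul_of_nonneg_left _ (by positivity)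
        linarith

end Q61.M105
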