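import Pool.Agent.Q61.MP105c

set_option autoImplicit false

open MeasureTheory InnerProductSpace Laplacian Topology Filter Set
open scoped ContDiff

namespace Q61.M105

/-- components of the map -/
noncomputable def comp (j : Fin 3) : E5 → ℝ := ![u0, u1, fun x => x 0] j

theorem comp_smooth (j : Fin 3) {x : E5} (hx : x ≠ 0) {k : WithTop ℕ∞} : ContDiffAt ℝ k (comp j) x := by
  fin_cases j
  · exact u0_smooth hx
  · exact u1_smooth hx
  · exact (contDiff_coord 0).contDiffAt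

theorem U_eq (x : E5) (j : Fin 3) : U x j = comp j x := by
  fin_cases j <;> rfl

theorem G_eq (x : E5) (i : Fin 5) (j : Fin 3) : G x i j = fderiv ℝ (comp j) x (ev i) := by
  fin_cases j
  · rfl
  · rfl
  · show (if i = 0 then (1:ℝ) else 0) = fderiv ℝ (fun x : E5 => x 0) x (ev i)
    rw [fderiv_coord]
    simp [ev, eq_comm]

theorem L_eq (x : E5) (j : Fin 3) : L x j = (Δ (comp j)) x := by
  fin_cases j
  · rfl
  · rfl
  · show (0:ℝ) = (Δ (fun x : E5 => x 0)) x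
    rw [lapN_coord]

theorem comp_bound (j : Fin 3) {x : E5} (hx : x ≠ 0) (h1 : ‖x‖ ≤ 1) : |comp j x| ≤ 1 := by
  obtain ⟨f1, f2, f3, f4, f5, f6⟩ := facts (R_ge x) (inv_pos.2 (D_pos hx)) (q_eq hx)
  fin_cases j
  · show |(x 4) ^ 6 * (D x)⁻¹| ≤ 1
    rw [abs_of_nonneg f1]; exact f2
  · show |((x 4) ^ 9 * x 0) * ((D x)⁻¹) ^ 2| ≤ 1
    have e : ((x 4) ^ 9 * x 0) * ((D x)⁻¹) ^ 2 = ((x 4) ^ 6 * (D x)⁻¹) * ((x 4) ^ 3 * x 0 * (D x)⁻¹) := by ring
    rw [e, abs_mul, abs_of_nonneg f1]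
    nlinarith [abs_nonneg ((x 4) ^ 3 * x 0 * (D x)⁻¹)]
  · show |x 0| ≤ 1
    have := R_ge x
    have h4 : (x 0) ^ 2 ≤ 1 := by
      have h5 : R x ≤ ‖x‖ ^ 2 := by unfold R; nlinarith [sq_nonneg (x 4)]
      nlinarith [norm_nonneg x]
    exact abs_le_one_iff_mul_self_le_one.2 (by nlinarith)

theorem msq_R {x : E5} (hR : 0 < R x) (h1 : ‖x‖ ≤ 1) : msq (G x) ≤ 1 + 70 * (R x)⁻¹ := by
  have hx0 : x ≠ 0 := by
    rintro rfl
    rw [R_eq] at hR; simp at hR
  have hu := msq_upper hx0 h1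
  obtain ⟨f1, f2, f3, f4, f5, f6⟩ := facts (R_ge x) (inv_pos.2 (D_pos hx0)) (q_eq hx0)
  have ht := x4_sq h1
  have hq : 0 < (D x)⁻¹ := inv_pos.2 (D_pos hx0)
  have hqR : (D x)⁻¹ ≤ (R x)⁻¹ := inv_anti₀ hR (R_le_D x)
  have e1 : X x ^ 3 ≤ (D x)⁻¹ := by
    have : X x ^ 3 = ((x 4) ^ 6 * (D x)⁻¹) ^ 2 * (D x)⁻¹ := by unfold X; ring
    rw [this]
    exact mul_le_of_le_one_left hq.le (pow_le_one₀ f1 f2)
  have e2 : (x 4) ^ 2 * X x ^ 2 ≤ (D x)⁻¹ := by
    have : (x 4) ^ 2 * X x ^ 2 = (((x 4) ^ 6 * (D x)⁻¹) * ((x 4) ^ 2) ^ 2) * (D x)⁻¹ := by unfold X; ring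
    rw [this]
    apply mul_le_of_le_one_left hq.le
    exact mul_le_one₀ f2 (by positivity) (pow_le_one₀ (sq_nonneg _) ht)
  linarith

theorem G_sq_le (x : E5) (i : Fin 5) (j : Fin 3) : (G x i j) ^ 2 ≤ msq (G x) := by
  unfold msq
  have h1 : (G x i j) ^ 2 ≤ ∑ j, G x i j ^ 2 :=
    Finset.single_le_sum (f := fun j => G x i j ^ 2) (fun _ _ => sq_nonneg _) (Finset.mem_univ j)
  have h2 : ∑ j, G x i j ^ 2 ≤ ∑ i, ∑ j, G x i j ^ 2 :=
    Finset.single_le_sum (f := fun i => ∑ j, G x i j ^ 2)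
      (fun _ _ => Finset.sum_nonneg fun _ _ => sq_nonneg _) (Finset.mem_univ i)
  exact h1.trans h2

/-- the dominating function -/
theorem dom_int : IntegrableOn (fun x : E5 => 1 + (R x)⁻¹) (Metric.ball 0 1) := by
  have h1 := rho_int (β := 1) (by norm_num) (by norm_num)
  have h2 : (fun x : E5 => (R x) ^ (-(1:ℝ))) = fun x => (R x)⁻¹ := by
    funext x; exact Real.rpow_neg_one _
  rw [h2] at h1
  have h3 : IntegrableOn (fun _ : E5 => (1:ℝ)) (Metric.ball 0 1) :=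
    integrableOn_const (measure_ball_lt_top.ne)
  exact h3.add h1

theorem aesm {f : E5 → ℝ} (hf : ∀ x ≠ 0, ContinuousAt f x) : AEStronglyMeasurable f volume := by
  have h1 : ContinuousOn f {0}ᶜ := fun x hx => (hf x hx).continuousWithinAt
  have h2 := h1.aestronglyMeasurable (μ := volume) (measurableSet_singleton (0:E5)).compl
  have h3 : (volume : Measure E5).restrict {0}ᶜ = volume := by
    apply Measure.restrict_eq_self_of_ae_mem
    exact ae_ne
  rwa [h3] at h2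

theorem int_of_bound {f : E5 → ℝ} (hf : ∀ x ≠ 0, ContinuousAt f x) {C : ℝ}
    (hb : ∀ x, 0 < R x → ‖x‖ ≤ 1 → |f x| ≤ C * (1 + (R x)⁻¹)) :
    IntegrableOn f (Metric.ball 0 1) := by
  refine Integrable.mono' (dom_int.const_mul C) (aesm hf).restrict ?_
  rw [ae_restrict_iff' Metric.isOpen_ball.measurableSet]
  filter_upwards [R_pos_ae] with x hR hx
  rw [mem_ball_zero_iff] at hx
  exact hb x hR hx.le

theorem ne_of_R {x : E5} (hR : 0 < R x) : x ≠ 0 := by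
  rintro rfl
  rw [R_eq] at hR; simp at hR

theorem norm_inv_sq {x : E5} (hR : 0 < R x) : (‖x‖⁻¹) ^ 2 ≤ (R x)⁻¹ := by
  rw [inv_pow]
  apply inv_anti₀ hR
  unfold R; nlinarith [sq_nonneg (x 4)]

theorem grad_cont (i : Fin 5) (j : Fin 3) {x : E5} (hx : x ≠ 0) :
    ContinuousAt (fun x => fderiv ℝ (comp j) x (ev i)) x := by
  have : ContDiffAt ℝ 0 (fderiv ℝ (comp j)) x := (comp_smooth j hx (k := 1)).fderiv_right (m := 0) (by norm_num)
  exact this.continuousAt.clm_apply continuousAt_const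

theorem int_comp (j : Fin 3) : IntegrableOn (comp j) (Metric.ball 0 1) := by
  apply int_of_bound (C := 1) (fun x hx => (comp_smooth j hx (k := 0)).continuousAt)
  intro x hR h1
  have h2 := comp_bound j (ne_of_R hR) h1
  have h3 : 0 < (R x)⁻¹ := inv_pos.2 hR
  linarith

theorem norm_inv_cont {x : E5} (hx : x ≠ 0) : ContinuousAt (fun x : E5 => ‖x‖⁻¹) x :=
  continuous_norm.continuousAt.inv₀ (norm_ne_zero_iff.2 hx)

theorem int_comp' (j : Fin 3) : IntegrableOn (fun x => comp j x * ‖x‖⁻¹) (Metric.ball 0 1) := by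
  have hc : ∀ x ≠ 0, ContinuousAt (fun x => comp j x * ‖x‖⁻¹) x :=
    fun x hx => (comp_smooth j hx (k := 0)).continuousAt.mul (norm_inv_cont hx)
  apply int_of_bound (C := 1) hc
  intro x hR h1
  have h2 := comp_bound j (ne_of_R hR) h1
  have h3 := norm_inv_sq hR
  have h4 : 0 ≤ ‖x‖⁻¹ := by positivity
  have h5 : 0 < (R x)⁻¹ := inv_pos.2 hR
  rw [abs_mul, abs_of_nonneg h4]
  nlinarith [abs_nonneg (comp j x), sq_nonneg (‖x‖⁻¹ - 1)]

theorem int_grad (i : Fin 5) (j : Fin 3) :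
    IntegrableOn (fun x => fderiv ℝ (comp j) x (ev i)) (Metric.ball 0 1) := by
  apply int_of_bound (C := 70) (fun x hx => grad_cont i j hx)
  intro x hR h1
  have h2 := G_sq_le x i j
  rw [G_eq] at h2
  have h3 := msq_R hR h1
  have h5 : 0 < (R x)⁻¹ := inv_pos.2 hR
  nlinarith [sq_nonneg (|fderiv ℝ (comp j) x (ev i)| - 1), sq_abs (fderiv ℝ (comp j) x (ev i))]

theorem int_grad' (i : Fin 5) (j : Fin 3) :
    IntegrableOn (fun x => fderiv ℝ (comp j) x (ev i) * ‖x‖⁻¹) (Metric.ball 0 1) := by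
  have hc : ∀ x ≠ 0, ContinuousAt (fun x => fderiv ℝ (comp j) x (ev i) * ‖x‖⁻¹) x :=
    fun x hx => (grad_cont i j hx).mul (norm_inv_cont hx)
  apply int_of_bound (C := 71) hc
  intro x hR h1
  have h2 := G_sq_le x i j
  rw [G_eq] at h2
  have h3 := msq_R hR h1
  have h4 := norm_inv_sq hR
  have h5 : 0 < (R x)⁻¹ := inv_pos.2 hR
  rw [abs_mul, abs_of_nonneg (by positivity : 0 ≤ ‖x‖⁻¹)]
  nlinarith [sq_nonneg (|fderiv ℝ (comp j) x (ev i)| - ‖x‖⁻¹), sq_abs (fderiv ℝ (comp j) x (ev i))]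

theorem L_abs (j : Fin 3) {x : E5} (hx : x ≠ 0) : |(Δ (comp j)) x| ≤ 1100 * msq (G x) := by
  have h := lap_bound hx
  fin_cases j
  · have := abs_nonneg ((Δ u1) x)
    show |(Δ u0) x| ≤ _
    linarith
  · have := abs_nonneg ((Δ u0) x)
    show |(Δ u1) x| ≤ _
    linarith
  · show |(Δ (fun x : E5 => x 0)) x| ≤ _
    rw [lapN_coord, abs_zero]
    have := msq_pos hx
    linarith

theorem lap_cont (j : Fin 3) {x : E5} (hx : x ≠ 0) : ContinuousAt (Δ (comp j)) x := by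
  have h1 : (Δ (comp j)) = fun x => ∑ i, fderiv ℝ (fderiv ℝ (comp j)) x (ev i) (ev i) := by
    funext y; exact lapN_eq _ _
  rw [h1]
  have h2 : ContDiffAt ℝ 1 (fderiv ℝ (comp j)) x := (comp_smooth j hx (k := 2)).fderiv_right (m := 1) (by norm_num)
  have h3 : ContDiffAt ℝ 0 (fderiv ℝ (fderiv ℝ (comp j))) x := h2.fderiv_right (m := 0) (by norm_num)
  exact tendsto_finsetSum _ fun i _ =>
    ((h3.continuousAt.clm_apply continuousAt_const).clm_apply continuousAt_const)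

theorem int_lap (j : Fin 3) : IntegrableOn (fun x => (Δ (comp j)) x) (Metric.ball 0 1) := by
  apply int_of_bound (C := 77000) (fun x hx => lap_cont j hx)
  intro x hR h1
  have h2 := L_abs j (ne_of_R hR)
  have h3 := msq_R hR h1
  have h5 : 0 < (R x)⁻¹ := inv_pos.2 hR
  nlinarith

/-- the nonlinearity -/
noncomputable def Q (x : E5) (_y : Fin 3 → ℝ) (z : Fin 5 → Fin 3 → ℝ) (j : Fin 3) : ℝ :=
  open Classical in if x = 0 then 0 else msq z / msq (G x) * L x j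

theorem Q_self {x : E5} (hx : x ≠ 0) (j : Fin 3) : Q x (U x) (G x) j = L x j := by
  unfold Q
  rw [if_neg hx, div_self (msq_pos hx).ne', one_mul]

theorem Q_growth (x : E5) (y : Fin 3 → ℝ) (z : Fin 5 → Fin 3 → ℝ) :
    Real.sqrt (∑ j, Q x y z j ^ 2) ≤ 1100 * msq z := by
  have hz : 0 ≤ msq z := Finset.sum_nonneg fun _ _ => Finset.sum_nonneg fun _ _ => sq_nonneg _
  apply Real.sqrt_le_iff.2
  refine ⟨by positivity, ?_⟩
  unfold Q
  by_cases hx : x = 0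
  · simp only [hx, if_true]
    simp
    positivity
  · simp only [hx, if_false]
    have h1 := lap_bound hx
    have h2 := msq_pos hx
    have h3 : ∑ j, (msq z / msq (G x) * L x j) ^ 2 = (msq z / msq (G x)) ^ 2 * ((Δ u0) x ^ 2 + (Δ u1) x ^ 2) := by
      simp only [Fin.sum_univ_three, L, Matrix.cons_val_zero, Matrix.cons_val_one, Matrix.cons_val]
      ring
    rw [h3]
    have h4 : (Δ u0) x ^ 2 + (Δ u1) x ^ 2 ≤ (1100 * msq (G x)) ^ 2 := by
      have a0 := abs_nonneg ((Δ u0) x)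
      have a1 := abs_nonneg ((Δ u1) x)
      have b0 : |(Δ u0) x| ^ 2 = ((Δ u0) x) ^ 2 := sq_abs _
      have b1 : |(Δ u1) x| ^ 2 = ((Δ u1) x) ^ 2 := sq_abs _
      have b2 : (|(Δ u0) x| + |(Δ u1) x|) ^ 2 ≤ (1100 * msq (G x)) ^ 2 :=
        pow_le_pow_left₀ (add_nonneg a0 a1) h1 2
      have b3 : (|(Δ u0) x| + |(Δ u1) x|) ^ 2 = |(Δ u0) x| ^ 2 + |(Δ u1) x| ^ 2 +
        2 * (|(Δ u0) x| * |(Δ u1) x|) := by ring
      have b4 := mul_nonneg a0 a1
      linarith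
    calc (msq z / msq (G x)) ^ 2 * ((Δ u0) x ^ 2 + (Δ u1) x ^ 2)
        ≤ (msq z / msq (G x)) ^ 2 * (1100 * msq (G x)) ^ 2 := by gcongr
      _ = (1100 * msq z) ^ 2 := by field_simp

end Q61.M105
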