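import Pool.Agent.Q61.MP105d

set_option autoImplicit false

open MeasureTheory InnerProductSpace Laplacian Topology Filter Set
open scoped ContDiff

namespace Q61.M105

theorem G_cont (i : Fin 5) (j : Fin 3) {x : E5} (hx : x ≠ 0) : ContinuousAt (fun x => G x i j) x := by
  have : (fun x => G x i j) = fun x => fderiv ℝ (comp j) x (ev i) := by funext y; exact G_eq y i j
  rw [this]; exact grad_cont i j hx

theorem msq_cont {x : E5} (hx : x ≠ 0) : ContinuousAt (fun x => msq (G x)) x := by
  unfold msq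
  exact tendsto_finsetSum _ fun i _ => tendsto_finsetSum _ fun j _ => (G_cont i j hx).pow 2

theorem msq_nonneg (z : Fin 5 → Fin 3 → ℝ) : 0 ≤ msq z :=
  Finset.sum_nonneg fun _ _ => Finset.sum_nonneg fun _ _ => sq_nonneg _

theorem msqp_aesm {q : ℝ} (hq : 0 ≤ q) : AEStronglyMeasurable (fun x => msq (G x) ^ q) (volume : Measure E5) :=
  aesm fun x hx => (msq_cont hx).rpow_const (Or.inr hq)

theorem msq_dom {q : ℝ} (hq : 1 < q) (hq2 : q < 2) {r : ℝ} (hr : r ≤ 1) :
    ∀ᵐ x ∂(volume : Measure E5).restrict (Metric.ball 0 r), ‖msq (G x) ^ q‖ ≤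
      140 ^ q * (1 + (r ^ 6) ^ ((q + 2) / 2 - q) * (R x) ^ (-((q + 2) / 2))) := by
  rw [ae_restrict_iff' Metric.isOpen_ball.measurableSet]
  filter_upwards [R_pos_ae] with x hR hx
  rw [mem_ball_zero_iff] at hx
  rw [Real.norm_of_nonneg (Real.rpow_nonneg (msq_nonneg _) _)]
  exact msq_rpow_bound hq (by linarith) (by linarith) hR hx.le hr

theorem dom_int' {q : ℝ} (hq : 1 < q) (hq2 : q < 2) {r : ℝ} (hr : r ≤ 1) :
    IntegrableOn (fun x : E5 => (140:ℝ) ^ q * (1 + (r ^ 6) ^ ((q + 2) / 2 - q) * (R x) ^ (-((q + 2) / 2))))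
      (Metric.ball 0 r) := by
  have h1 := (rho_int (β := (q + 2) / 2) (by linarith) (by linarith)).mono_set
    (Metric.ball_subset_ball hr)
  have h3 : IntegrableOn (fun _ : E5 => (1:ℝ)) (Metric.ball 0 r) :=
    integrableOn_const (measure_ball_lt_top.ne)
  exact (h3.add (h1.const_mul _)).const_mul _

theorem msq_int {q : ℝ} (hq : 1 < q) (hq2 : q < 2) :
    IntegrableOn (fun x => msq (G x) ^ q) (Metric.ball (0:E5) 1) :=
  Integrable.mono' (dom_int' hq hq2 le_rfl) (msqp_aesm (by linarith)).restrict (msq_dom hq hq2 le_rfl)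

instance : IsFiniteMeasure ((volume : Measure E5).restrict (Metric.ball 0 1)) :=
  ⟨by rw [Measure.restrict_apply_univ]; exact measure_ball_lt_top⟩

theorem memLp_comp (j : Fin 3) (p : ENNReal) :
    MemLp (comp j) p ((volume : Measure E5).restrict (Metric.ball 0 1)) := by
  apply MemLp.of_bound (aesm fun x hx => (comp_smooth j hx (k := 0)).continuousAt).restrict 1
  rw [ae_restrict_iff' Metric.isOpen_ball.measurableSet]
  filter_upwards [ae_ne] with x hx0 hx
  rw [mem_ball_zero_iff] at hx
  exact comp_bound j hx0 hx.le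

theorem memLp_G (i : Fin 5) (j : Fin 3) {p : ℝ} (hp : 2 < p) (hp4 : p < 4) :
    MemLp (fun x => G x i j) (ENNReal.ofReal p) ((volume : Measure E5).restrict (Metric.ball 0 1)) := by
  have ham : AEStronglyMeasurable (fun x => G x i j) ((volume : Measure E5).restrict (Metric.ball 0 1)) :=
    (aesm fun x hx => G_cont i j hx).restrict
  rw [← integrable_norm_rpow_iff ham (by simp; linarith) ENNReal.ofReal_ne_top,
    ENNReal.toReal_ofReal (by linarith)]
  refine Integrable.mono' (msq_int (q := p / 2) (by linarith) (by linarith)) ?_ ?_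
  · exact ham.norm.aemeasurable.pow_const p |>.aestronglyMeasurable
  · refine ae_of_all _ fun x => ?_
    rw [Real.norm_of_nonneg (by positivity)]
    have h1 := G_sq_le x i j
    have h2 : ‖G x i j‖ ^ p = (G x i j ^ 2) ^ (p / 2) := by
      rw [Real.norm_eq_abs, ← sq_abs, ← Real.rpow_natCast, ← Real.rpow_mul (abs_nonneg _)]
      congr 1; push_cast; ring
    rw [h2]
    exact Real.rpow_le_rpow (sq_nonneg _) h1 (by linarith)

theorem test_out {φ : E5 → ℝ} (hs : tsupport φ ⊆ Metric.ball 0 1) {x : E5} (hx : x ∉ Metric.ball (0:E5) 1) :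
    φ x = 0 := image_eq_zero_of_notMem_tsupport fun h => hx (hs h)

theorem test_out' {φ : E5 → ℝ} (hs : tsupport φ ⊆ Metric.ball 0 1) {x : E5} (hx : x ∉ Metric.ball (0:E5) 1)
    (v : E5) : fderiv ℝ φ x v = 0 := by
  have := tsupport_fderiv_apply_subset (φ := φ) v
  exact image_eq_zero_of_notMem_tsupport (f := fun x => fderiv ℝ φ x v) fun h => hx (hs (this h))

theorem weak_grad (i : Fin 5) (j : Fin 3) {φ : E5 → ℝ} (h1 : ContDiff ℝ ∞ φ) (h2 : HasCompactSupport φ)
    (hs : tsupport φ ⊆ Metric.ball 0 1) :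
    ∫ x in Metric.ball (0:E5) 1, comp j x * fderiv ℝ φ x (ev i) = -∫ x in Metric.ball (0:E5) 1, G x i j * φ x := by
  rw [setIntegral_eq_integral_of_forall_compl_eq_zero (fun x hx => by rw [test_out' hs hx, mul_zero]),
    setIntegral_eq_integral_of_forall_compl_eq_zero (fun x hx => by rw [test_out hs hx, mul_zero])]
  simp only [G_eq]
  exact Rem.ibp (h1.of_le (by exact_mod_cast le_top)) h2 ae_ne (fun x hx => comp_smooth j hx) (ev i)
    ((int_comp j).mono_set hs) ((int_comp' j).mono_set hs) ((int_grad i j).mono_set hs)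

theorem weak_lap (j : Fin 3) {φ : E5 → ℝ} (h1 : ContDiff ℝ ∞ φ) (h2 : HasCompactSupport φ)
    (hs : tsupport φ ⊆ Metric.ball 0 1) :
    ∑ i, ∫ x, G x i j * fderiv ℝ φ x (ev i) = -∫ x, L x j * φ x := by
  simp only [G_eq, L_eq]
  exact Rem.green (h1.of_le (by exact_mod_cast le_top)) h2 ae_ne (fun x hx => comp_smooth j hx)
    (fun i => (int_grad i j).mono_set hs) (fun i => (int_grad' i j).mono_set hs) ((int_lap j).mono_set hs)

/-- a locally integrable function times a continuous compactly supported function -/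
theorem int_mul {f φ : E5 → ℝ} (hf : IntegrableOn f (Metric.ball 0 1)) (hφ : Continuous φ)
    (hc : HasCompactSupport φ) (h0 : ∀ x ∉ Metric.ball (0:E5) 1, φ x = 0) :
    Integrable (fun x => f x * φ x) := by
  obtain ⟨C, hC⟩ := hc.exists_bound_of_continuous hφ
  have h1 : IntegrableOn (fun x => f x * φ x) (Metric.ball 0 1) := by
    refine Integrable.mono' (hf.norm.mul_const C) (hf.1.mul hφ.aestronglyMeasurable) ?_
    refine ae_of_all _ fun x => ?_
    rw [norm_mul]
    exact mul_le_mul_of_nonneg_left (hC x) (norm_nonneg _)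
  have h2 : (fun x => f x * φ x) = (Metric.ball (0:E5) 1).indicator (fun x => f x * φ x) := by
    funext x
    by_cases hx : x ∈ Metric.ball (0:E5) 1
    · rw [indicator_of_mem hx]
    · rw [indicator_of_notMem hx, h0 x hx, mul_zero]
  rw [h2]
  exact (integrable_indicator_iff Metric.isOpen_ball.measurableSet).2 h1

theorem weak_sol {φ : Fin 3 → E5 → ℝ} (h : ∀ j, ContDiff ℝ ∞ (φ j) ∧ HasCompactSupport (φ j) ∧
    tsupport (φ j) ⊆ Metric.ball 0 1) :
    -∫ x in Metric.ball (0:E5) 1, ∑ i, ∑ j, G x i j * fderiv ℝ (φ j) x (ev i) =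
      ∫ x in Metric.ball (0:E5) 1, ∑ j, Q x (U x) (G x) j * φ j x := by
  rw [setIntegral_eq_integral_of_forall_compl_eq_zero (fun x hx => by
      apply Finset.sum_eq_zero; intro i _; apply Finset.sum_eq_zero; intro j _
      rw [test_out' (h j).2.2 hx, mul_zero]),
    setIntegral_eq_integral_of_forall_compl_eq_zero (fun x hx => by
      apply Finset.sum_eq_zero; intro j _
      rw [test_out (h j).2.2 hx, mul_zero])]
  have e1 : ∫ x, ∑ j, Q x (U x) (G x) j * φ j x = ∫ x, ∑ j, L x j * φ j x := by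
    apply integral_congr_ae
    filter_upwards [ae_ne] with x hx
    apply Finset.sum_congr rfl
    intro j _
    rw [Q_self hx]
  have i1 : ∀ j, Integrable (fun x => L x j * φ j x) := by
    intro j
    apply int_mul _ (h j).1.continuous (h j).2.1 (fun x hx => test_out (h j).2.2 hx)
    have : (fun x => L x j) = fun x => (Δ (comp j)) x := by funext x; exact L_eq x j
    rw [this]; exact int_lap j
  have i2 : ∀ i j, Integrable (fun x => G x i j * fderiv ℝ (φ j) x (ev i)) := by
    intro i j
    apply int_mul _ (((h j).1.continuous_fderiv (by norm_num)).clm_apply continuous_const)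
      ((h j).2.1.fderiv_apply (𝕜 := ℝ) (v := ev i)) (fun x hx => test_out' (h j).2.2 hx _)
    have : (fun x => G x i j) = fun x => fderiv ℝ (comp j) x (ev i) := by funext y; exact G_eq y i j
    rw [this]; exact int_grad i j
  rw [e1, integral_finsetSum _ (fun j _ => i1 j),
    integral_finsetSum _ (fun i _ => integrable_finsetSum _ fun j _ => i2 i j)]
  have e2 : ∀ i, ∫ x, ∑ j, G x i j * fderiv ℝ (φ j) x (ev i) = ∑ j, ∫ x, G x i j * fderiv ℝ (φ j) x (ev i) :=
    fun i => integral_finsetSum _ (fun j _ => i2 i j)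
  simp only [e2]
  rw [Finset.sum_comm]
  have e3 : ∀ j, ∑ i, ∫ x, G x i j * fderiv ℝ (φ j) x (ev i) = -∫ x, L x j * φ j x :=
    fun j => weak_lap j (h j).1 (h j).2.1 (h j).2.2
  simp only [e3]
  rw [Finset.sum_neg_distrib, neg_neg]

end Q61.M105
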