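import Pool.Agent.Q61.MP105e

set_option autoImplicit false

open MeasureTheory InnerProductSpace Laplacian Topology Filter Set
open scoped ContDiff

namespace Q61.M105

theorem vol_ball (x0 : E5) {r : ℝ} (hr : 0 < r) :
    ∫ _x in Metric.ball x0 r, (1:ℝ) = r ^ 5 * (volume (Metric.ball (0:E5) 1)).toReal := by
  rw [setIntegral_const, smul_eq_mul, mul_one, Measure.real, Measure.addHaar_ball_of_pos _ _ hr]
  have hfin : Module.finrank ℝ E5 = 5 := by simp
  rw [hfin, ENNReal.toReal_mul, ENNReal.toReal_ofReal (by positivity)]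

theorem mor0_bound {q : ℝ} (hq : 1 < q) (hq2 : q < 2) {r : ℝ} (h0 : 0 < r) (hr : r ≤ 1) :
    (r ^ (5 - 2 * q))⁻¹ * ∫ x in Metric.ball (0:E5) r, msq (G x) ^ q ≤
      140 ^ q * (volume (Metric.ball (0:E5) 1)).toReal * r ^ (2 * q) +
      (140 ^ q * ∫ x in Metric.ball (0:E5) 1, (R x) ^ (-((q + 2) / 2))) * r ^ (4 * ((q + 2) / 2 - q)) := by
  have hI : ∫ x in Metric.ball (0:E5) r, msq (G x) ^ q ≤
      ∫ x in Metric.ball (0:E5) r, (140:ℝ) ^ q * (1 + (r ^ 6) ^ ((q + 2) / 2 - q) * (R x) ^ (-((q + 2) / 2))) := by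
    apply integral_mono_ae ((msq_int hq hq2).mono_set (Metric.ball_subset_ball hr)) (dom_int' hq hq2 hr)
    filter_upwards [msq_dom hq hq2 hr] with x hx
    exact (le_abs_self _).trans hx
  have h1 : IntegrableOn (fun x : E5 => (r ^ 6) ^ ((q + 2) / 2 - q) * (R x) ^ (-((q + 2) / 2)))
      (Metric.ball (0:E5) r) :=
    ((rho_int (β := (q + 2) / 2) (by linarith) (by linarith)).mono_set (Metric.ball_subset_ball hr)).const_mul _
  have h2 : IntegrableOn (fun _ : E5 => (1:ℝ)) (Metric.ball (0:E5) r) :=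
    integrableOn_const (measure_ball_lt_top.ne)
  rw [integral_const_mul, integral_add h2 h1, integral_const_mul, vol_ball 0 h0, rho_scale h0] at hI
  have hp : 0 < r ^ (5 - 2 * q) := Real.rpow_pos_of_pos h0 _
  have e1 : (r ^ (5 - 2 * q))⁻¹ * r ^ 5 = r ^ (2 * q) := by
    rw [← Real.rpow_neg h0.le, ← Real.rpow_natCast, ← Real.rpow_add h0]
    congr 1; push_cast; ring
  have e2 : (r ^ (5 - 2 * q))⁻¹ * ((r ^ 6) ^ ((q + 2) / 2 - q) * r ^ (5 - 2 * ((q + 2) / 2))) =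
      r ^ (4 * ((q + 2) / 2 - q)) := by
    rw [← Real.rpow_neg h0.le, ← Real.rpow_natCast, ← Real.rpow_mul h0.le, ← Real.rpow_add h0,
      ← Real.rpow_add h0]
    congr 1; push_cast; ring
  calc (r ^ (5 - 2 * q))⁻¹ * ∫ x in Metric.ball (0:E5) r, msq (G x) ^ q
      ≤ (r ^ (5 - 2 * q))⁻¹ * (140 ^ q * (r ^ 5 * (volume (Metric.ball (0:E5) 1)).toReal +
        (r ^ 6) ^ ((q + 2) / 2 - q) * (r ^ (5 - 2 * ((q + 2) / 2)) *
          ∫ x in Metric.ball (0:E5) 1, (R x) ^ (-((q + 2) / 2))))) :=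
        mul_le_mul_of_nonneg_left hI (inv_pos.2 hp).le
    _ = 140 ^ q * (volume (Metric.ball (0:E5) 1)).toReal * ((r ^ (5 - 2 * q))⁻¹ * r ^ 5) +
      (140 ^ q * ∫ x in Metric.ball (0:E5) 1, (R x) ^ (-((q + 2) / 2))) *
        ((r ^ (5 - 2 * q))⁻¹ * ((r ^ 6) ^ ((q + 2) / 2 - q) * r ^ (5 - 2 * ((q + 2) / 2)))) := by ring
    _ = _ := by rw [e1, e2]

theorem tendsto_rpow_zero {a : ℝ} (ha : 0 < a) : Tendsto (fun r : ℝ => r ^ a) (𝓝[>] 0) (𝓝 0) := by
  have := (Real.continuousAt_rpow_const (0:ℝ) a (Or.inr ha.le)).tendsto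
  rw [Real.zero_rpow ha.ne'] at this
  exact this.mono_left nhdsWithin_le_nhds

theorem mor_nonneg {q r : ℝ} (x0 : E5) (h0 : 0 < r) :
    0 ≤ (r ^ (5 - 2 * q))⁻¹ * ∫ x in Metric.ball x0 r, msq (G x) ^ q := by
  have : 0 ≤ ∫ x in Metric.ball x0 r, msq (G x) ^ q :=
    integral_nonneg fun x => Real.rpow_nonneg (msq_nonneg _) _
  positivity

theorem mor0 {q : ℝ} (hq : 1 < q) (hq2 : q < 2) :
    Tendsto (fun r : ℝ => (r ^ (5 - 2 * q))⁻¹ * ∫ x in Metric.ball (0:E5) r, msq (G x) ^ q) (𝓝[>] 0) (𝓝 0) := by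
  have h1 : Tendsto (fun r : ℝ => 140 ^ q * (volume (Metric.ball (0:E5) 1)).toReal * r ^ (2 * q) +
      (140 ^ q * ∫ x in Metric.ball (0:E5) 1, (R x) ^ (-((q + 2) / 2))) * r ^ (4 * ((q + 2) / 2 - q)))
      (𝓝[>] 0) (𝓝 0) := by
    have a := (tendsto_rpow_zero (a := 2 * q) (by linarith)).const_mul
      (140 ^ q * (volume (Metric.ball (0:E5) 1)).toReal)
    have b := (tendsto_rpow_zero (a := 4 * ((q + 2) / 2 - q)) (by linarith)).const_mul
      (140 ^ q * ∫ x in Metric.ball (0:E5) 1, (R x) ^ (-((q + 2) / 2)))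
    have := a.add b
    simpa using this
  refine squeeze_zero' ?_ ?_ h1
  · filter_upwards [self_mem_nhdsWithin] with r hr
    exact mor_nonneg 0 hr
  · filter_upwards [Ioo_mem_nhdsGT (zero_lt_one)] with r hr
    exact mor0_bound hq hq2 hr.1 hr.2.le

theorem mor1 {q : ℝ} (hq : 1 < q) {x0 : E5} (hx0 : x0 ≠ 0) :
    Tendsto (fun r : ℝ => (r ^ (5 - 2 * q))⁻¹ * ∫ x in Metric.ball x0 r, msq (G x) ^ q) (𝓝[>] 0) (𝓝 0) := by
  have hc : ContinuousAt (fun x => msq (G x) ^ q) x0 := (msq_cont hx0).rpow_const (Or.inr (by linarith))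
  set M := msq (G x0) ^ q + 1 with hM
  have hev : ∀ᶠ x in 𝓝 x0, msq (G x) ^ q < M := hc.eventually_lt_const (by rw [hM]; linarith)
  obtain ⟨δ, hδ, hball⟩ := Metric.eventually_nhds_iff_ball.1 hev
  have h1 : Tendsto (fun r : ℝ => M * (volume (Metric.ball (0:E5) 1)).toReal * r ^ (2 * q)) (𝓝[>] 0) (𝓝 0) := by
    have a := (tendsto_rpow_zero (a := 2 * q) (by linarith)).const_mul
      (M * (volume (Metric.ball (0:E5) 1)).toReal)
    simpa using a
  refine squeeze_zero' ?_ ?_ h1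
  · filter_upwards [self_mem_nhdsWithin] with r hr
    exact mor_nonneg x0 hr
  · filter_upwards [Ioo_mem_nhdsGT hδ] with r hr
    have hr0 := hr.1
    have hI : ∫ x in Metric.ball x0 r, msq (G x) ^ q ≤ ∫ x in Metric.ball x0 r, M := by
      apply integral_mono_of_nonneg
      · exact ae_of_all _ fun x => Real.rpow_nonneg (msq_nonneg _) _
      · exact integrableOn_const (measure_ball_lt_top.ne)
      · rw [EventuallyLE, ae_restrict_iff' Metric.isOpen_ball.measurableSet]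
        refine ae_of_all _ fun x hx => ?_
        exact (hball x (Metric.ball_subset_ball hr.2.le hx)).le
    have h2 : ∫ x in Metric.ball x0 r, M = M * (r ^ 5 * (volume (Metric.ball (0:E5) 1)).toReal) := by
      rw [← vol_ball x0 hr0, ← integral_const_mul, mul_one]
    rw [h2] at hI
    have hp : 0 < r ^ (5 - 2 * q) := Real.rpow_pos_of_pos hr0 _
    have e1 : (r ^ (5 - 2 * q))⁻¹ * r ^ 5 = r ^ (2 * q) := by
      rw [← Real.rpow_neg hr0.le, ← Real.rpow_natCast, ← Real.rpow_add hr0]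
      congr 1; push_cast; ring
    calc _ ≤ (r ^ (5 - 2 * q))⁻¹ * (M * (r ^ 5 * (volume (Metric.ball (0:E5) 1)).toReal)) :=
        mul_le_mul_of_nonneg_left hI (inv_pos.2 hp).le
      _ = M * (volume (Metric.ball (0:E5) 1)).toReal * ((r ^ (5 - 2 * q))⁻¹ * r ^ 5) := by ring
      _ = _ := by rw [e1]

theorem u0_axis4 {t : ℝ} (ht : t ≠ 0) : u0 (t • (ev 4 : E5)) = 1 := by
  unfold u0 D
  rw [R_eq]
  simp [ev, ht]

theorem u0_axis0 (t : ℝ) : u0 (t • (ev 0 : E5)) = 0 := by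
  unfold u0
  simp [ev]

theorem not_cont : ¬ ∃ v : E5 → ℝ, ContinuousOn v (Metric.ball 0 (1 / 2)) ∧
    ∀ᵐ x ∂(volume : Measure E5).restrict (Metric.ball 0 (1 / 2)), u0 x = v x := by
  rintro ⟨v, hv, hae⟩
  set S : Set E5 := Metric.ball 0 (1 / 2) ∩ {0}ᶜ with hS
  have hSo : IsOpen S := Metric.isOpen_ball.inter isOpen_compl_singleton
  have h1 : u0 =ᵐ[(volume : Measure E5).restrict S] v :=
    ae_restrict_of_ae_restrict_of_subset inter_subset_left hae
  have h2 : EqOn u0 v S := Measure.eqOn_open_of_ae_eq h1 hSo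
    (fun x hx => (u0_smooth hx.2 (k := 0)).continuousAt.continuousWithinAt) (hv.mono inter_subset_left)
  have hvc : ContinuousAt v 0 := hv.continuousAt (Metric.ball_mem_nhds _ (by norm_num))
  have hnorm : ∀ i : Fin 5, ‖(ev i : E5)‖ = 1 := by intro i; simp [ev]
  have hlim : ∀ i : Fin 5, Tendsto (fun t : ℝ => v (t • (ev i : E5))) (𝓝[>] 0) (𝓝 (v 0)) := by
    intro i
    have a : Tendsto (fun t : ℝ => t • (ev i : E5)) (𝓝[>] 0) (𝓝 0) := by
      have : Continuous fun t : ℝ => t • (ev i : E5) := by fun_prop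
      have := this.tendsto 0
      rw [zero_smul] at this
      exact this.mono_left nhdsWithin_le_nhds
    exact hvc.tendsto.comp a
  have hmem : ∀ i : Fin 5, ∀ t ∈ Ioo (0:ℝ) (1/2), t • (ev i : E5) ∈ S := by
    intro i t ht
    refine ⟨?_, ?_⟩
    · rw [mem_ball_zero_iff, norm_smul, hnorm, mul_one, Real.norm_eq_abs, abs_of_pos ht.1]
      exact ht.2
    · rw [mem_compl_iff, mem_singleton_iff, smul_eq_zero, not_or]
      refine ⟨ht.1.ne', ?_⟩
      intro h
      have := hnorm i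
      rw [h, norm_zero] at this
      norm_num at this
  have l4 : v 0 = 1 := by
    refine tendsto_nhds_unique (hlim 4) (tendsto_const_nhds.congr' ?_)
    filter_upwards [Ioo_mem_nhdsGT (by norm_num : (0:ℝ) < 1/2)] with t ht
    rw [← h2 (hmem 4 t ht), u0_axis4 ht.1.ne']
  have l0 : v 0 = 0 := by
    refine tendsto_nhds_unique (hlim 0) (tendsto_const_nhds.congr' ?_)
    filter_upwards [Ioo_mem_nhdsGT (by norm_num : (0:ℝ) < 1/2)] with t ht
    rw [← h2 (hmem 0 t ht), u0_axis0]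
  rw [l4] at l0
  norm_num at l0

/-- the nonlinearity is smooth away from `x = 0` -/
theorem Q_smooth : ContDiffOn ℝ ∞ (fun w : E5 × (Fin 3 → ℝ) × (Fin 5 → Fin 3 → ℝ) => Q w.1 w.2.1 w.2.2)
    {w | w.1 ≠ 0} := by
  rw [contDiffOn_pi]
  intro j w hw
  apply ContDiffAt.contDiffWithinAt
  have hev : (fun w : E5 × (Fin 3 → ℝ) × (Fin 5 → Fin 3 → ℝ) => Q w.1 w.2.1 w.2.2 j) =ᶠ[𝓝 w]
      fun w => msq w.2.2 / msq (fun i j => fderiv ℝ (comp j) w.1 (ev i)) *
        (∑ i, fderiv ℝ (fderiv ℝ (comp j)) w.1 (ev i) (ev i)) := by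
    have : {w : E5 × (Fin 3 → ℝ) × (Fin 5 → Fin 3 → ℝ) | w.1 ≠ 0} ∈ 𝓝 w :=
      (isOpen_ne.preimage continuous_fst).mem_nhds hw
    filter_upwards [this] with z hz
    unfold Q
    rw [if_neg hz, L_eq, lapN_eq]
    have : G z.1 = fun i j => fderiv ℝ (comp j) z.1 (ev i) := by
      funext i j; exact G_eq _ _ _
    rw [this]
  refine ContDiffAt.congr_of_eventuallyEq ?_ hev
  have hd : ∀ j, ContDiffAt ℝ ∞ (fderiv ℝ (comp j)) w.1 := fun j =>
    (comp_smooth j hw (k := ∞)).fderiv_right (m := ∞) (by simp)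
  have hd2 : ∀ j, ContDiffAt ℝ ∞ (fderiv ℝ (fderiv ℝ (comp j))) w.1 := fun j =>
    (hd j).fderiv_right (m := ∞) (by simp)
  have hfst : ContDiffAt ℝ ∞ (fun w : E5 × (Fin 3 → ℝ) × (Fin 5 → Fin 3 → ℝ) => w.1) w := contDiffAt_fst
  have hsnd : ContDiffAt ℝ ∞ (fun w : E5 × (Fin 3 → ℝ) × (Fin 5 → Fin 3 → ℝ) => w.2.2) w :=
    contDiffAt_snd.comp w contDiffAt_snd
  apply ContDiffAt.mul
  · apply ContDiffAt.div
    · unfold msq
      apply ContDiffAt.sum; intro i _
      apply ContDiffAt.sum; intro j _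
      apply ContDiffAt.pow
      exact contDiffAt_pi.1 (contDiffAt_pi.1 hsnd i) j
    · unfold msq
      apply ContDiffAt.sum; intro i _
      apply ContDiffAt.sum; intro j _
      apply ContDiffAt.pow
      exact ((hd j).comp w hfst).clm_apply contDiffAt_const
    · have : (fun i j => fderiv ℝ (comp j) w.1 (ev i)) = G w.1 := by
        funext i j; exact (G_eq _ _ _).symm
      rw [this]
      exact (msq_pos hw).ne'
  · apply ContDiffAt.sum; intro i _
    exact (((hd2 j).comp w hfst).clm_apply contDiffAt_const).clm_apply contDiffAt_const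

end Q61.M105
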