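import Pool.Agent.Q61.HS2

set_option autoImplicit false

open MeasureTheory Topology Filter Set ENNReal
open scoped ContDiff

namespace Q61.M38

/-- sharp one dimensional Gagliardo-Nirenberg inequality for smooth functions -/
theorem gn {φ : ℝ → ℝ} (h1 : ContDiff ℝ 1 φ) (hc : HasCompactSupport φ) :
    (∫ x, φ x ^ 4) ^ 2 ≤ (∫ x, deriv φ x ^ 2) * (∫ x, φ x ^ 2) ^ 3 / 3 := by
  obtain ⟨R, hR0, hR⟩ : ∃ R : ℝ, 0 < R ∧ tsupport φ ⊆ Ioo (-R) R := by
    obtain ⟨r, hr⟩ := hc.isCompact.isBounded.subset_ball 0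
    refine ⟨max r 1, by positivity, ?_⟩
    intro x hx
    have := hr hx
    rw [mem_ball_zero_iff, Real.norm_eq_abs, abs_lt] at this
    exact ⟨by have := le_max_left r 1; linarith [this], lt_of_lt_of_le this.2 (le_max_left _ _)⟩
  have hout : ∀ x ∉ Ioo (-R) R, φ x = 0 := fun x hx => image_eq_zero_of_notMem_tsupport fun h => hx (hR h)
  have hcont := h1.continuous
  have hd : Continuous (deriv φ) := h1.continuous_deriv (by norm_num)
  set F : ℝ → ℝ := fun t => ∫ x in (-R)..t, φ x ^ 2 with hF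
  have hFd : ∀ t, HasDerivAt F (φ t ^ 2) t := fun t =>
    intervalIntegral.integral_hasDerivAt_right ((hcont.pow 2).intervalIntegrable _ _)
      ((hcont.pow 2).stronglyMeasurableAtFilter _ _) (hcont.pow 2).continuousAt
  have hFc : Continuous F := continuous_iff_continuousAt.2 fun t => (hFd t).continuousAt
  have hsupp : ∀ k : ℕ, k ≠ 0 → Function.support (fun x => φ x ^ k) ⊆ Ioc (-R) R := by
    intro k hk x hx
    by_contra h
    have : x ∉ Ioo (-R) R := fun h' => h (Ioo_subset_Ioc_self h')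
    exact hx (by simp [hout x this, hk])
  set m := ∫ x, φ x ^ 2 with hm
  have hFR : F R = m := intervalIntegral.integral_eq_integral_of_support_subset (hsupp 2 (by norm_num))
  have hF0 : F (-R) = 0 := intervalIntegral.integral_same
  have hφd : ∀ t, HasDerivAt φ (deriv φ t) t := fun t => (h1.differentiable (by norm_num) t).hasDerivAt
  -- the first identity
  have hg : ∀ t, HasDerivAt (fun t => φ t ^ 2 * (F t - m / 2))
      (2 * (deriv φ t * (φ t * (F t - m / 2))) + φ t ^ 4) t := by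
    intro t
    have h := ((hφd t).pow 2).mul ((hFd t).sub_const (m / 2))
    refine h.congr_deriv ?_
    simp only [Pi.pow_apply]
    push_cast
    ring
  have hcs : HasCompactSupport (fun t => φ t * (F t - m / 2)) := hc.mul_right
  have hcs2 : HasCompactSupport (fun t => φ t ^ 2) := by
    apply hc.comp_left (g := fun y => y ^ 2); norm_num
  have hcs4 : HasCompactSupport (fun t => φ t ^ 4) := by
    apply hc.comp_left (g := fun y => y ^ 4); norm_num
  have i1 : Integrable (fun t => deriv φ t * (φ t * (F t - m / 2))) :=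
    (hd.mul (hcont.mul (hFc.sub continuous_const))).integrable_of_hasCompactSupport hcs.mul_left
  have i2 : Integrable (fun t => φ t ^ 4) := (hcont.pow 4).integrable_of_hasCompactSupport hcs4
  have h0 : ∫ t, (2 * (deriv φ t * (φ t * (F t - m / 2))) + φ t ^ 4) = 0 := by
    apply integral_eq_zero_of_hasDerivAt_of_integrable hg ((i1.const_mul 2).add i2)
    exact ((hcont.pow 2).mul (hFc.sub continuous_const)).integrable_of_hasCompactSupport hcs2.mul_right
  rw [integral_add (i1.const_mul 2) i2, integral_const_mul] at h0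
  -- the second identity
  have h3 : ∫ t, (φ t * (F t - m / 2)) ^ 2 = m ^ 3 / 12 := by
    rw [← intervalIntegral.integral_eq_integral_of_support_subset (a := -R) (b := R)]
    · have hh : ∀ t ∈ uIcc (-R) R, HasDerivAt (fun t => (F t - m / 2) ^ 3 / 3) ((φ t * (F t - m / 2)) ^ 2) t := by
        intro t _
        have h := (((hFd t).sub_const (m / 2)).pow 3).div_const 3
        refine h.congr_deriv ?_
        push_cast
        ring
      rw [intervalIntegral.integral_eq_sub_of_hasDerivAt hh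
        ((hcont.mul (hFc.sub continuous_const)).pow 2 |>.intervalIntegrable _ _), hFR, hF0]
      ring
    · intro x hx
      by_contra h
      have : x ∉ Ioo (-R) R := fun h' => h (Ioo_subset_Ioc_self h')
      exact hx (by simp [hout x this])
  have m1 : MemLp (deriv φ) 2 volume := hd.memLp_of_hasCompactSupport hc.deriv
  have m2 : MemLp (fun t => φ t * (F t - m / 2)) 2 volume :=
    (hcont.mul (hFc.sub continuous_const)).memLp_of_hasCompactSupport hcs
  have h4 := pairR_le m1 m2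
  have h5 : (∫ x, φ x ^ 4) = -(2 * ∫ t, deriv φ t * (φ t * (F t - m / 2))) := by linarith
  have h6 : (∫ x, φ x ^ 4) ^ 2 = 4 * |∫ t, deriv φ t * (φ t * (F t - m / 2))| ^ 2 := by
    rw [h5, sq_abs]; ring
  have h7 : N2 (deriv φ) volume ^ 2 = ∫ x, deriv φ x ^ 2 := by
    rw [N2_sq m1]; simp
  have h8 : N2 (fun t => φ t * (F t - m / 2)) volume ^ 2 = m ^ 3 / 12 := by
    rw [N2_sq m2, ← h3]
    congr 1; funext x; rw [Real.norm_eq_abs, sq_abs]
  rw [h6]
  calc 4 * |∫ t, deriv φ t * (φ t * (F t - m / 2))| ^ 2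
      ≤ 4 * (N2 (deriv φ) volume * N2 (fun t => φ t * (F t - m / 2)) volume) ^ 2 := by
        gcongr
    _ = 4 * (N2 (deriv φ) volume ^ 2 * N2 (fun t => φ t * (F t - m / 2)) volume ^ 2) := by ring
    _ = _ := by rw [h7, h8]; ring

theorem amgm (P q : ℝ) (hP : 0 ≤ P) (hq : 0 ≤ q) : 256 * (P * q ^ 3) ≤ 27 * (P + q) ^ 4 := by
  have : 27 * (P + q) ^ 4 - 256 * (P * q ^ 3) = (q - 3 * P) ^ 2 * (27 * q ^ 2 + 14 * (q * P) + 3 * P ^ 2) := by
    ring
  have h2 : 0 ≤ (q - 3 * P) ^ 2 * (27 * q ^ 2 + 14 * (q * P) + 3 * P ^ 2) := by positivity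
  linarith

/-- `w ∈ H¹(ℝ)`, the closure of `C_c^∞(ℝ)`; `dw` is the weak derivative of `w` -/
def IsH1 (w dw : ℝ → ℝ) : Prop :=
  MemLp w 2 volume ∧ MemLp dw 2 volume ∧
  ∃ φ : ℕ → ℝ → ℝ, (∀ n, ContDiff ℝ ∞ (φ n) ∧ HasCompactSupport (φ n)) ∧
    Tendsto (fun n => eLpNorm (fun x => φ n x - w x) 2 volume) atTop (𝓝 0) ∧
    Tendsto (fun n => eLpNorm (fun x => deriv (φ n) x - dw x) 2 volume) atTop (𝓝 0)

theorem tendsto_N2 {f : ℕ → ℝ → ℝ} {g : ℝ → ℝ} (hf : ∀ n, MemLp (f n) 2 volume) (hg : MemLp g 2 volume)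
    (h : Tendsto (fun n => eLpNorm (fun x => f n x - g x) 2 volume) atTop (𝓝 0)) :
    Tendsto (fun n => N2 (f n) (volume : Measure ℝ)) atTop (𝓝 (N2 g volume)) := by
  have h1 := tendsto_N2_of_eLpNorm h
  rw [tendsto_iff_norm_sub_tendsto_zero]
  refine squeeze_zero (fun _ => norm_nonneg _) (fun n => ?_) h1
  exact N2_sub_le (hf n) hg

/-- sharp inequality for `H¹(ℝ)` functions -/
theorem gnH {w dw : ℝ → ℝ} (h : IsH1 w dw) : MemLp (fun x => w x ^ 2) 2 volume ∧
    N2 (fun x => w x ^ 2) volume ≤ Real.sqrt (3 / 2) * (N2 dw volume ^ 2 + N2 w volume ^ 2 / 4) := by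
  obtain ⟨hw, hdw, φ, hφ, l1, l2⟩ := h
  have mφ : ∀ n, MemLp (φ n) 2 volume := fun n =>
    (hφ n).1.continuous.memLp_of_hasCompactSupport (hφ n).2
  have mdφ : ∀ n, MemLp (deriv (φ n)) 2 volume := fun n =>
    ((hφ n).1.continuous_deriv (by norm_num)).memLp_of_hasCompactSupport (hφ n).2.deriv
  -- a.e. convergent subsequence
  have hm : TendstoInMeasure volume φ atTop w := by
    apply tendstoInMeasure_of_tendsto_eLpNorm (p := 2) (by norm_num) (fun n => (mφ n).1) hw.1
    exact l1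
  obtain ⟨ns, hns, hae⟩ := hm.exists_seq_tendsto_ae
  have t1 := ((tendsto_N2 mφ hw l1).comp hns.tendsto_atTop).pow 2
  have t2 := ((tendsto_N2 mdφ hdw l2).comp hns.tendsto_atTop).pow 2
  have t3 := (t2.add (t1.div_const 4)).const_mul (Real.sqrt (3 / 2))
  set L := Real.sqrt (3 / 2) * (N2 dw volume ^ 2 + N2 w volume ^ 2 / 4) with hL
  have hL0 : 0 ≤ L := by positivity
  have bound : ∀ n, eLpNorm (fun x => φ n x ^ 2) 2 volume ≤
      ENNReal.ofReal (Real.sqrt (3 / 2) * (N2 (deriv (φ n)) volume ^ 2 + N2 (φ n) volume ^ 2 / 4)) := by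
    intro n
    have hcs2 : HasCompactSupport (fun t => φ n t ^ 2) := by
      apply (hφ n).2.comp_left (g := fun y => y ^ 2); norm_num
    have m2 : MemLp (fun x => φ n x ^ 2) 2 volume :=
      ((hφ n).1.continuous.pow 2).memLp_of_hasCompactSupport hcs2
    rw [← ENNReal.ofReal_toReal m2.2.ne]
    apply ENNReal.ofReal_le_ofReal
    show N2 (fun x => φ n x ^ 2) volume ≤ _
    have e1 : N2 (fun x => φ n x ^ 2) volume ^ 2 = ∫ x, φ n x ^ 4 := by
      rw [N2_sq m2]; congr 1; funext x; rw [Real.norm_eq_abs, sq_abs]; ring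
    have e2 : N2 (φ n) volume ^ 2 = ∫ x, φ n x ^ 2 := by rw [N2_sq (mφ n)]; simp
    have e3 : N2 (deriv (φ n)) volume ^ 2 = ∫ x, deriv (φ n) x ^ 2 := by rw [N2_sq (mdφ n)]; simp
    have hg := gn ((hφ n).1.of_le (by exact_mod_cast le_top)) (hφ n).2
    rw [← e1, ← e2, ← e3] at hg
    set P := N2 (deriv (φ n)) volume ^ 2
    set q := N2 (φ n) volume ^ 2 / 4 with hq
    have e4 : N2 (φ n) volume ^ 2 = 4 * q := by rw [hq]; ring
    have hP : 0 ≤ P := sq_nonneg _
    have hq0 : 0 ≤ q := by rw [hq]; positivity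
    have ha := amgm P q hP hq0
    rw [e4] at hg
    have e5 : (Real.sqrt (3 / 2) * (P + q)) ^ 2 = 3 / 2 * (P + q) ^ 2 := by
      rw [mul_pow, Real.sq_sqrt (by norm_num)]
    have hA0 : 0 ≤ Real.sqrt (3 / 2) * (P + q) := by positivity
    have h4 : (N2 (fun x => φ n x ^ 2) volume ^ 2) ^ 2 ≤ (3 / 2 * (P + q) ^ 2) ^ 2 := by
      calc _ ≤ P * (4 * q) ^ 3 / 3 := hg
        _ ≤ (3 / 2 * (P + q) ^ 2) ^ 2 := by nlinarith
    rw [← e5] at h4
    have h5 := abs_le_of_sq_le_sq' h4 (sq_nonneg _)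
    have h6 := h5.2
    exact abs_le_of_sq_le_sq' h6 hA0 |>.2
  have key : ∀ C : ℝ, L < C → eLpNorm (fun x => w x ^ 2) 2 volume ≤ ENNReal.ofReal C := by
    intro C hC
    apply Lp.eLpNorm_le_of_ae_tendsto (u := atTop) (f := fun k x => φ (ns k) x ^ 2) _
      (fun n => ((hφ (ns n)).1.continuous.pow 2).aestronglyMeasurable)
    · filter_upwards [hae] with x hx
      exact hx.pow 2
    · filter_upwards [t3.eventually (gt_mem_nhds hC)] with n hn
      exact (bound (ns n)).trans (ENNReal.ofReal_le_ofReal hn.le)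
  have hfin : MemLp (fun x => w x ^ 2) 2 volume :=
    ⟨hw.1.pow 2, (key (L + 1) (by linarith)).trans_lt ENNReal.ofReal_lt_top⟩
  refine ⟨hfin, ?_⟩
  apply le_of_forall_gt
  intro C hC
  obtain ⟨C', h1, h2⟩ := exists_between hC
  refine lt_of_le_of_lt ?_ h2
  have := ENNReal.toReal_mono ENNReal.ofReal_ne_top (key C' h1)
  rwa [ENNReal.toReal_ofReal (by linarith)] at this

end Q61.M38
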