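import Pool.Agent.Q61.MP38a
import Pool.Agent.Q61.Removable

set_option autoImplicit false

open MeasureTheory Topology Filter Set ENNReal
open scoped ContDiff

namespace Q61.M38

/-- dominated convergence in `L²` -/
theorem tendsto_eLpNorm_dom {α : Type*} [MeasurableSpace α] {μ : Measure α} {f : ℕ → α → ℝ} {g : α → ℝ}
    (hg : MemLp g 2 μ) (hf : ∀ n, AEStronglyMeasurable (f n) μ) (hb : ∀ n, ∀ᵐ x ∂μ, |f n x| ≤ g x)
    (hl : ∀ᵐ x ∂μ, Tendsto (fun n => f n x) atTop (𝓝 0)) :
    Tendsto (fun n => eLpNorm (f n) 2 μ) atTop (𝓝 0) := by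
  have hgi : Integrable (fun x => g x ^ 2) μ := by
    have := hg.integrable_sq
    exact this
  have h1 : Tendsto (fun n => ∫⁻ x, ENNReal.ofReal (‖f n x‖ ^ 2) ∂μ) atTop (𝓝 (∫⁻ _x, (0:ℝ≥0∞) ∂μ)) := by
    apply tendsto_lintegral_of_dominated_convergence' (fun x => ENNReal.ofReal (g x ^ 2))
    · intro n
      exact ((hf n).norm.aemeasurable.pow_const 2).ennreal_ofReal
    · intro n
      filter_upwards [hb n] with x hx
      apply ENNReal.ofReal_le_ofReal
      rw [Real.norm_eq_abs]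
      exact pow_le_pow_left₀ (abs_nonneg _) hx 2
    · exact hgi.lintegral_lt_top.ne
    · filter_upwards [hl] with x hx
      have h2 : Tendsto (fun n => ENNReal.ofReal (‖f n x‖ ^ 2)) atTop (𝓝 (ENNReal.ofReal (‖(0:ℝ)‖ ^ 2))) :=
        ENNReal.tendsto_ofReal (hx.norm.pow 2)
      simpa using h2
  simp only [lintegral_zero] at h1
  have h2 := h1.ennrpow_const (1 / 2 : ℝ)
  have h3 : (0:ℝ≥0∞) ^ (1 / 2 : ℝ) = 0 := ENNReal.zero_rpow_of_pos (by norm_num)
  rw [h3] at h2
  refine h2.congr fun n => ?_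
  rw [eLpNorm_two_eq]

theorem deriv_trans_zero' {s : ℝ} (hs : s < 0) : deriv Real.smoothTransition s = 0 := by
  have : Real.smoothTransition =ᶠ[𝓝 s] fun _ => 0 := by
    filter_upwards [Iio_mem_nhds hs] with y hy
    exact Real.smoothTransition.zero_of_nonpos (le_of_lt hy)
  rw [this.deriv_eq]; simp

/-- cut-off at infinity -/
noncomputable def χ (n : ℕ) (t : ℝ) : ℝ := Real.smoothTransition (2 - t ^ 2 / ((n:ℝ) + 1) ^ 2)

theorem χ_smooth (n : ℕ) : ContDiff ℝ ∞ (χ n) := by
  unfold χ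
  exact Real.smoothTransition.contDiff.comp (contDiff_const.sub ((contDiff_id.pow 2).div_const _))

theorem χ_compact (n : ℕ) : HasCompactSupport (χ n) := by
  apply HasCompactSupport.intro (isCompact_Icc (a := -(2 * ((n:ℝ) + 1))) (b := 2 * ((n:ℝ) + 1)))
  intro t ht
  unfold χ
  apply Real.smoothTransition.zero_of_nonpos
  have hn : (0:ℝ) < (n:ℝ) + 1 := by positivity
  have h1 : (2 * ((n:ℝ) + 1)) < |t| := by
    by_contra h
    exact ht (abs_le.1 (not_lt.1 h))
  have h2 : 4 * ((n:ℝ) + 1) ^ 2 < t ^ 2 := by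
    rw [← sq_abs t]; nlinarith
  rw [sub_nonpos, le_div_iff₀ (by positivity)]
  nlinarith

theorem χ_deriv (n : ℕ) (t : ℝ) : HasDerivAt (χ n)
    (deriv Real.smoothTransition (2 - t ^ 2 / ((n:ℝ) + 1) ^ 2) * -(2 * t / ((n:ℝ) + 1) ^ 2)) t := by
  have h1 : HasDerivAt Real.smoothTransition (deriv Real.smoothTransition (2 - t ^ 2 / ((n:ℝ) + 1) ^ 2))
      (2 - t ^ 2 / ((n:ℝ) + 1) ^ 2) :=
    ((Real.smoothTransition.contDiff (n := 1)).differentiable (by norm_num) _).hasDerivAt
  have h2 : HasDerivAt (fun t : ℝ => 2 - t ^ 2 / ((n:ℝ) + 1) ^ 2) (-(2 * t / ((n:ℝ) + 1) ^ 2)) t := by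
    have := ((hasDerivAt_pow 2 t).div_const (((n:ℝ) + 1) ^ 2)).const_sub 2
    refine this.congr_deriv ?_
    norm_num
  exact h1.comp t h2

theorem χ_deriv_bound {M : ℝ} (hM : ∀ s : ℝ, |deriv Real.smoothTransition s| ≤ M) (n : ℕ) (t : ℝ) :
    |deriv (χ n) t| ≤ 3 * M / ((n:ℝ) + 1) := by
  have hn : (0:ℝ) < (n:ℝ) + 1 := by positivity
  have hM0 : 0 ≤ M := (abs_nonneg _).trans (hM 0)
  rw [(χ_deriv n t).deriv]
  by_cases h : 2 - t ^ 2 / ((n:ℝ) + 1) ^ 2 < 0
  · rw [deriv_trans_zero' h, zero_mul, abs_zero]; positivity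
  · push Not at h
    rw [sub_nonneg, div_le_iff₀ (by positivity)] at h
    have h1 : |t| ≤ 3 / 2 * ((n:ℝ) + 1) := by
      apply abs_le_of_sq_le_sq _ (by positivity)
      nlinarith
    rw [abs_mul, abs_neg, abs_div, abs_mul, abs_of_pos (by norm_num : (0:ℝ) < 2),
      abs_of_pos (by positivity : (0:ℝ) < ((n:ℝ) + 1) ^ 2)]
    calc |deriv Real.smoothTransition (2 - t ^ 2 / ((n:ℝ) + 1) ^ 2)| * (2 * |t| / ((n:ℝ) + 1) ^ 2)
        ≤ M * (2 * (3 / 2 * ((n:ℝ) + 1)) / ((n:ℝ) + 1) ^ 2) := by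
          apply mul_le_mul (hM _) _ (by positivity) hM0
          gcongr
      _ = 3 * M / ((n:ℝ) + 1) := by field_simp

theorem χ_lim (t : ℝ) : ∀ᶠ n : ℕ in atTop, χ n t = 1 := by
  obtain ⟨N, hN⟩ := exists_nat_ge |t|
  filter_upwards [eventually_ge_atTop N] with n hn
  apply Real.smoothTransition.one_of_one_le
  have h1 : |t| ≤ (n:ℝ) + 1 := by
    have : (N:ℝ) ≤ n := by exact_mod_cast hn
    linarith
  have h2 : t ^ 2 ≤ ((n:ℝ) + 1) ^ 2 := by
    rw [← sq_abs t]; exact pow_le_pow_left₀ (abs_nonneg _) h1 2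
  have h3 : t ^ 2 / ((n:ℝ) + 1) ^ 2 ≤ 1 := by
    rw [div_le_one (by positivity)]; exact h2
  linarith

theorem χ_range (n : ℕ) (t : ℝ) : 0 ≤ χ n t ∧ χ n t ≤ 1 :=
  ⟨Real.smoothTransition.nonneg _, Real.smoothTransition.le_one _⟩

theorem isH1_of_smooth {w : ℝ → ℝ} (hw : ContDiff ℝ ∞ w) (h1 : MemLp w 2 volume)
    (h2 : MemLp (deriv w) 2 volume) : IsH1 w (deriv w) := by
  obtain ⟨M, hM0, hM⟩ := Rem.exists_M
  refine ⟨h1, h2, fun n t => w t * χ n t, fun n => ⟨hw.mul (χ_smooth n), (χ_compact n).mul_left⟩, ?_, ?_⟩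
  · apply tendsto_eLpNorm_dom h1.abs
    · intro n
      exact ((hw.continuous.mul (χ_smooth n).continuous).sub hw.continuous).aestronglyMeasurable
    · intro n
      refine ae_of_all _ fun x => ?_
      have e : w x * χ n x - w x = w x * (χ n x - 1) := by ring
      rw [e, abs_mul]
      have := χ_range n x
      have h3 : |χ n x - 1| ≤ 1 := by rw [abs_le]; constructor <;> linarith
      exact mul_le_of_le_one_right (abs_nonneg _) h3
    · refine ae_of_all _ fun x => ?_
      apply tendsto_const_nhds.congr'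
      filter_upwards [χ_lim x] with n hn
      rw [hn]; ring
  · have hd : ∀ n x, deriv (fun t => w t * χ n t) x = deriv w x * χ n x + w x * deriv (χ n) x := by
      intro n x
      have a := (hw.differentiable (by norm_num) x).hasDerivAt.mul (χ_deriv n x)
      have b : deriv (χ n) x = _ := (χ_deriv n x).deriv
      rw [b]; exact a.deriv
    have hg : MemLp (fun x => |deriv w x| + 3 * M * |w x|) 2 volume := h2.abs.add (h1.abs.const_mul (3 * M))
    apply tendsto_eLpNorm_dom hg
    · intro n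
      have hcd : Continuous (deriv w) := hw.continuous_deriv (by norm_num)
      have hcχ : Continuous (deriv (χ n)) := (χ_smooth n).continuous_deriv (by norm_num)
      simp only [hd]
      exact (((hcd.mul (χ_smooth n).continuous).add (hw.continuous.mul hcχ)).sub hcd).aestronglyMeasurable
    · intro n
      refine ae_of_all _ fun x => ?_
      rw [hd]
      have e : deriv w x * χ n x + w x * deriv (χ n) x - deriv w x =
        deriv w x * (χ n x - 1) + w x * deriv (χ n) x := by ring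
      rw [e]
      refine (abs_add_le _ _).trans ?_
      rw [abs_mul, abs_mul]
      have := χ_range n x
      have h3 : |χ n x - 1| ≤ 1 := by rw [abs_le]; constructor <;> linarith
      have h4 := χ_deriv_bound hM n x
      have h5 : 3 * M / ((n:ℝ) + 1) ≤ 3 * M := by
        apply div_le_self (by positivity)
        have : (0:ℝ) ≤ n := by positivity
        linarith
      have h6 : |w x| * |deriv (χ n) x| ≤ |w x| * (3 * M) := mul_le_mul_of_nonneg_left (h4.trans h5) (abs_nonneg _)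
      have h7 : |deriv w x| * |χ n x - 1| ≤ |deriv w x| := mul_le_of_le_one_right (abs_nonneg _) h3
      linarith
    · refine ae_of_all _ fun x => ?_
      simp only [hd]
      have h8 : Tendsto (fun n : ℕ => |w x| * (3 * M / ((n:ℝ) + 1))) atTop (𝓝 0) := by
        have := (tendsto_const_div_atTop_nhds_zero_nat (3 * M)).comp (tendsto_add_atTop_nat 1)
        have h9 := this.const_mul |w x|
        rw [mul_zero] at h9
        refine h9.congr fun n => ?_
        simp
      apply squeeze_zero_norm' _ h8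
      filter_upwards [χ_lim x] with n hn
      rw [hn, Real.norm_eq_abs]
      have e : deriv w x * 1 + w x * deriv (χ n) x - deriv w x = w x * deriv (χ n) x := by ring
      rw [e, abs_mul]
      exact mul_le_mul_of_nonneg_left (χ_deriv_bound hM n x) (abs_nonneg _)

end Q61.M38
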