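import Pool.Agent.Q61.MP38b

set_option autoImplicit false

open MeasureTheory Topology Filter Set
open scoped ContDiff

namespace Q61.M38

noncomputable def w (t : ℝ) : ℝ := Real.sqrt (Real.sigmoid t * (1 - Real.sigmoid t))
noncomputable def dw (t : ℝ) : ℝ := (1 - 2 * Real.sigmoid t) / 2 * w t

theorem S_pos (t : ℝ) : 0 < Real.sigmoid t * (1 - Real.sigmoid t) :=
  mul_pos (Real.sigmoid_pos t) (by linarith [Real.sigmoid_lt_one t])

theorem w_pos (t : ℝ) : 0 < w t := Real.sqrt_pos.2 (S_pos t)
theorem w_sq (t : ℝ) : w t ^ 2 = Real.sigmoid t * (1 - Real.sigmoid t) := Real.sq_sqrt (S_pos t).le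

theorem w_smooth : ContDiff ℝ ∞ w := by
  unfold w
  have h : ContDiff ℝ ∞ (fun t => Real.sigmoid t) := contDiff_sigmoid.of_le (by exact_mod_cast le_top)
  exact (h.mul (contDiff_const.sub h)).sqrt (fun t => (S_pos t).ne')

theorem w_deriv (t : ℝ) : HasDerivAt w (dw t) t := by
  have hS := Real.hasDerivAt_sigmoid t
  have h1 : HasDerivAt (fun t => Real.sigmoid t * (1 - Real.sigmoid t)) (Real.sigmoid t * (1 - Real.sigmoid t) * (1 - Real.sigmoid t) + Real.sigmoid t * -(Real.sigmoid t * (1 - Real.sigmoid t))) t :=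
    hS.mul (hS.const_sub 1)
  have h2 := h1.sqrt (S_pos t).ne'
  refine h2.congr_deriv ?_
  unfold dw
  have hw := w_pos t
  have hs := w_sq t
  show _ / (2 * w t) = _
  rw [div_eq_iff (by positivity)]
  linear_combination (-(1 - 2 * Real.sigmoid t)) * hs

theorem dw_deriv (t : ℝ) : HasDerivAt dw (w t / 4 - 2 * w t ^ 3) t := by
  have hS := Real.hasDerivAt_sigmoid t
  have h1 : HasDerivAt (fun t => (1 - 2 * Real.sigmoid t) / 2) (-(2 * (Real.sigmoid t * (1 - Real.sigmoid t))) / 2) t :=
    ((hS.const_mul 2).const_sub 1).div_const 2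
  have h2 := h1.mul (w_deriv t)
  refine h2.congr_deriv ?_
  unfold dw
  have hs := w_sq t
  linear_combination (2 * w t) * hs

theorem deriv_w : deriv w = dw := funext fun t => (w_deriv t).deriv
theorem deriv_dw : deriv dw = fun t => w t / 4 - 2 * w t ^ 3 := funext fun t => (dw_deriv t).deriv

theorem dw_smooth : ContDiff ℝ ∞ dw := by
  rw [← deriv_w]
  exact w_smooth.deriv' 

theorem base_int : Integrable (fun t => Real.sigmoid t * (1 - Real.sigmoid t)) := by
  have hc : Continuous fun t => Real.sigmoid t * (1 - Real.sigmoid t) := by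
    have : Continuous fun t => Real.sigmoid t := contDiff_sigmoid.continuous
    exact this.mul (continuous_const.sub this)
  apply integrable_of_intervalIntegral_norm_bounded (μ := volume) (l := atTop) (a := fun n : ℕ => -(n:ℝ))
    (b := fun n : ℕ => (n:ℝ)) 1
  · intro i
    exact hc.integrableOn_Ioc
  · exact tendsto_neg_atTop_atBot.comp tendsto_natCast_atTop_atTop
  · exact tendsto_natCast_atTop_atTop
  · filter_upwards with n
    have h1 : ∀ t, ‖Real.sigmoid t * (1 - Real.sigmoid t)‖ = Real.sigmoid t * (1 - Real.sigmoid t) := fun t => Real.norm_of_nonneg (S_pos t).le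
    simp only [h1]
    rw [intervalIntegral.integral_eq_sub_of_hasDerivAt (f := fun t => Real.sigmoid t)
      (fun t _ => Real.hasDerivAt_sigmoid t) (hc.intervalIntegrable _ _)]
    have h2 := Real.sigmoid_pos (-(n:ℝ))
    have h3 := Real.sigmoid_lt_one (n:ℝ)
    linarith

theorem int_S {p p' : ℝ → ℝ} (hp : ∀ s, HasDerivAt p (p' s) s) (hc : Continuous p') {C : ℝ}
    (hC : ∀ s, 0 ≤ s → s ≤ 1 → |p' s| ≤ C) :
    Integrable (fun t => p' (Real.sigmoid t) * (Real.sigmoid t * (1 - Real.sigmoid t))) ∧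
      ∫ t, p' (Real.sigmoid t) * (Real.sigmoid t * (1 - Real.sigmoid t)) = p 1 - p 0 := by
  have hSc : Continuous fun t => Real.sigmoid t := contDiff_sigmoid.continuous
  have hi : Integrable (fun t => p' (Real.sigmoid t) * (Real.sigmoid t * (1 - Real.sigmoid t))) := by
    refine Integrable.mono' (base_int.const_mul C) ?_ ?_
    · exact ((hc.comp hSc).mul (hSc.mul (continuous_const.sub hSc))).aestronglyMeasurable
    · refine ae_of_all _ fun t => ?_
      rw [norm_mul, Real.norm_of_nonneg (S_pos t).le]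
      exact mul_le_mul_of_nonneg_right (hC _ (Real.sigmoid_nonneg t) (Real.sigmoid_le_one t)) (S_pos t).le
  refine ⟨hi, ?_⟩
  have hpc : Continuous p := continuous_iff_continuousAt.2 fun s => (hp s).continuousAt
  apply integral_of_hasDerivAt_of_tendsto (f := fun t => p (Real.sigmoid t)) _ hi
  · exact (hpc.tendsto 0).comp Real.tendsto_sigmoid_atBot
  · exact (hpc.tendsto 1).comp Real.tendsto_sigmoid_atTop
  · intro t
    exact (hp (Real.sigmoid t)).comp t (Real.hasDerivAt_sigmoid t)

theorem w2 : Integrable (fun t => w t ^ 2) ∧ ∫ t, w t ^ 2 = 1 := by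
  have h := int_S (p := fun s => s) (p' := fun _ => 1) (fun s => hasDerivAt_id s) continuous_const
    (C := 1) (fun s _ _ => by simp)
  simp only [one_mul] at h
  simp only [w_sq]
  refine ⟨h.1, ?_⟩
  rw [h.2]; norm_num

theorem w4 : Integrable (fun t => w t ^ 4) ∧ ∫ t, w t ^ 4 = 1 / 6 := by
  have h := int_S (p := fun s => s ^ 2 / 2 - s ^ 3 / 3) (p' := fun s => s - s ^ 2)
    (fun s => (((hasDerivAt_pow 2 s).div_const 2).sub ((hasDerivAt_pow 3 s).div_const 3)).congr_deriv
      (by push_cast; ring)) (by fun_prop)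
    (C := 1) (fun s h0 h1 => by rw [abs_le]; constructor <;> nlinarith)
  have e : (fun t => w t ^ 4) = fun t => (Real.sigmoid t - Real.sigmoid t ^ 2) * (Real.sigmoid t * (1 - Real.sigmoid t)) := by
    funext t
    have : w t ^ 4 = (w t ^ 2) ^ 2 := by ring
    rw [this, w_sq]; ring
  rw [e]
  refine ⟨h.1, ?_⟩
  rw [h.2]; norm_num

theorem dw2 : Integrable (fun t => dw t ^ 2) ∧ ∫ t, dw t ^ 2 = 1 / 12 := by
  have h := int_S (p := fun s => -(1 - 2 * s) ^ 3 / 24) (p' := fun s => (1 - 2 * s) ^ 2 / 4)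
    (fun s => ((((((hasDerivAt_id s).const_mul 2).const_sub 1).pow 3).neg).div_const 24).congr_deriv
      (by simp only [id_eq]; push_cast; ring)) (by fun_prop)
    (C := 1) (fun s h0 h1 => by rw [abs_le]; constructor <;> nlinarith)
  have e : (fun t => dw t ^ 2) = fun t => (1 - 2 * Real.sigmoid t) ^ 2 / 4 * (Real.sigmoid t * (1 - Real.sigmoid t)) := by
    funext t
    unfold dw
    rw [mul_pow, w_sq]; ring
  rw [e]
  refine ⟨h.1, ?_⟩
  rw [h.2]; norm_num

theorem memLp_w : MemLp w 2 volume :=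
  (memLp_two_iff_integrable_sq w_smooth.continuous.aestronglyMeasurable).2 w2.1

theorem memLp_dw : MemLp dw 2 volume :=
  (memLp_two_iff_integrable_sq dw_smooth.continuous.aestronglyMeasurable).2 dw2.1

theorem isH1_w (c : ℝ) : IsH1 (fun t => c * w t) (fun t => c * dw t) := by
  have h1 : ContDiff ℝ ∞ (fun t => c * w t) := contDiff_const.mul w_smooth
  have h2 : deriv (fun t => c * w t) = fun t => c * dw t := by
    funext t; exact ((w_deriv t).const_mul c).deriv
  have h3 := isH1_of_smooth h1 (memLp_w.const_mul c) (by rw [h2]; exact memLp_dw.const_mul c)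
  rwa [h2] at h3

theorem isH1_test {η : ℝ → ℝ} (h : ContDiff ℝ ∞ η) (hc : HasCompactSupport η) : IsH1 η (deriv η) :=
  isH1_of_smooth h (h.continuous.memLp_of_hasCompactSupport hc)
    ((h.continuous_deriv (by norm_num)).memLp_of_hasCompactSupport hc.deriv)

end Q61.M38
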