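import Pool.Agent.Q61.MP38c

set_option autoImplicit false

open MeasureTheory Topology Filter Set
open scoped ContDiff

namespace Q61.M38

/-- `‖w‖² = ∫ (|w'|² + lam w²)` -/
noncomputable def nsq (lam : ℝ) (w dw : ℝ → ℝ) : ℝ := ∫ x, (dw x ^ 2 + lam * w x ^ 2)

/-- the functional `E_β` for `Ω = ℝ` -/
noncomputable def energy (μ₁ μ₂ lam₁ lam₂ β : ℝ) (u du v dv : ℝ → ℝ) : ℝ :=
  (nsq lam₁ u du + nsq lam₂ v dv) / 2 -
    (∫ x, (μ₁ * u x ^ 4 + 2 * β * u x ^ 2 * v x ^ 2 + μ₂ * v x ^ 4)) / 4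

/-- the Nehari-type set `𝒩_β` -/
def InNehari (μ₁ μ₂ lam₁ lam₂ β : ℝ) (u du v dv : ℝ → ℝ) : Prop :=
  IsH1 u du ∧ IsH1 v dv ∧ (¬ u =ᵐ[volume] 0) ∧ (¬ v =ᵐ[volume] 0) ∧
  nsq lam₁ u du = ∫ x, (μ₁ * u x ^ 4 + β * u x ^ 2 * v x ^ 2) ∧
  nsq lam₂ v dv = ∫ x, (μ₂ * v x ^ 4 + β * u x ^ 2 * v x ^ 2)

/-- `A_β` is attained at `(u,v) ∈ 𝒩_β` -/
def IsMinimizer (μ₁ μ₂ lam₁ lam₂ β : ℝ) (u du v dv : ℝ → ℝ) : Prop :=
  InNehari μ₁ μ₂ lam₁ lam₂ β u du v dv ∧ ∀ u' du' v' dv' : ℝ → ℝ,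
    InNehari μ₁ μ₂ lam₁ lam₂ β u' du' v' dv' →
      energy μ₁ μ₂ lam₁ lam₂ β u du v dv ≤ energy μ₁ μ₂ lam₁ lam₂ β u' du' v' dv'

/-- `(u,v)` is a weak solution of the system -/
def IsWeakSolution (μ₁ μ₂ lam₁ lam₂ β : ℝ) (u du v dv : ℝ → ℝ) : Prop :=
  ∀ η dη : ℝ → ℝ, IsH1 η dη →
    ∫ x, (du x * dη x + lam₁ * u x * η x) = ∫ x, (μ₁ * u x ^ 3 + β * u x * v x ^ 2) * η x ∧
    ∫ x, (dv x * dη x + lam₂ * v x * η x) = ∫ x, (μ₂ * v x ^ 3 + β * v x * u x ^ 2) * η x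

/-- `(u,v)` is a critical point of `E_β` on `H = H¹(ℝ) × H¹(ℝ)` (all directional derivatives vanish) -/
def IsCritical (μ₁ μ₂ lam₁ lam₂ β : ℝ) (u du v dv : ℝ → ℝ) : Prop :=
  ∀ η dη ζ dζ : ℝ → ℝ, IsH1 η dη → IsH1 ζ dζ →
    HasDerivAt (fun t : ℝ => energy μ₁ μ₂ lam₁ lam₂ β (fun x => u x + t * η x) (fun x => du x + t * dη x)
      (fun x => v x + t * ζ x) (fun x => dv x + t * dζ x)) 0 0

theorem nsq_eq {lam : ℝ} {w dw : ℝ → ℝ} (h : IsH1 w dw) :
    nsq lam w dw = N2 dw volume ^ 2 + lam * N2 w volume ^ 2 := by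
  unfold nsq
  have h1 : N2 w volume ^ 2 = ∫ x, w x ^ 2 := by rw [N2_sq h.1]; simp
  have h2 : N2 dw volume ^ 2 = ∫ x, dw x ^ 2 := by rw [N2_sq h.2.1]; simp
  rw [h1, h2, integral_add (h.2.1.integrable_sq) (h.1.integrable_sq.const_mul lam), integral_const_mul]

/-- the lower bound of the energy -/
theorem lower {m n lam₂ : ℝ} (hm : 0 < m) (hn : 0 < n) {u du v dv : ℝ → ℝ}
    (h : InNehari (m ^ 2) (n ^ 2) (1 / 4) lam₂ (m * n) u du v dv) :
    1 / (6 * m ^ 2) ≤ energy (m ^ 2) (n ^ 2) (1 / 4) lam₂ (m * n) u du v dv := by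
  obtain ⟨hu, hv, hu0, -, c1, c2⟩ := h
  obtain ⟨U2, gU⟩ := gnH hu
  obtain ⟨V2, -⟩ := gnH hv
  set Qf : ℝ → ℝ := fun x => m * u x ^ 2 + n * v x ^ 2 with hQf
  have hQ : MemLp Qf 2 volume := (U2.const_mul m).add (V2.const_mul n)
  have iU := pairR_integrable U2 hQ
  have iV := pairR_integrable V2 hQ
  have e1 : ∫ x, (m ^ 2 * u x ^ 4 + m * n * u x ^ 2 * v x ^ 2) = m * ∫ x, u x ^ 2 * Qf x := by
    rw [← integral_const_mul]; congr 1; funext x; rw [hQf]; ring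
  have e2 : ∫ x, (n ^ 2 * v x ^ 4 + m * n * u x ^ 2 * v x ^ 2) = n * ∫ x, v x ^ 2 * Qf x := by
    rw [← integral_const_mul]; congr 1; funext x; rw [hQf]; ring
  have e3 : ∫ x, (m ^ 2 * u x ^ 4 + 2 * (m * n) * u x ^ 2 * v x ^ 2 + n ^ 2 * v x ^ 4) = N2 Qf volume ^ 2 := by
    rw [N2_sq hQ]; congr 1; funext x; rw [Real.norm_eq_abs, sq_abs, hQf]; ring
  have e4 : (m * ∫ x, u x ^ 2 * Qf x) + n * ∫ x, v x ^ 2 * Qf x = N2 Qf volume ^ 2 := by
    have e5 : N2 Qf volume ^ 2 = ∫ x, (m * (u x ^ 2 * Qf x) + n * (v x ^ 2 * Qf x)) := by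
      rw [N2_sq hQ]; congr 1; funext x; rw [Real.norm_eq_abs, sq_abs, hQf]; ring
    rw [e5, integral_add (iU.const_mul m) (iV.const_mul n), integral_const_mul, integral_const_mul]
  rw [e1] at c1
  rw [e2] at c2
  have hE : energy (m ^ 2) (n ^ 2) (1 / 4) lam₂ (m * n) u du v dv = N2 Qf volume ^ 2 / 4 := by
    unfold energy
    rw [c1, c2, e3, e4]; ring
  rw [hE]
  -- the norm of `u` is positive
  set a := N2 du volume ^ 2 + N2 u volume ^ 2 / 4 with ha
  have hN : nsq (1 / 4) u du = a := by rw [nsq_eq hu, ha]; ring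
  have ha0 : 0 < a := by
    have h1 : N2 u volume ≠ 0 := by
      intro h0
      apply hu0
      have h2 : eLpNorm u 2 volume = 0 := by
        have := (ENNReal.toReal_eq_zero_iff _).1 h0
        exact this.resolve_right hu.1.2.ne
      exact (eLpNorm_eq_zero_iff hu.1.1 (by norm_num)).1 h2
    have h3 : 0 < N2 u volume := lt_of_le_of_ne (N2_nonneg u) (Ne.symm h1)
    have h4 : 0 ≤ N2 du volume ^ 2 := sq_nonneg _
    rw [ha]
    positivity
  have h5 := (le_abs_self _).trans (pairR_le U2 hQ)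
  have hQ0 := N2_nonneg (μ := volume) Qf
  have h6 : a ≤ m * (Real.sqrt (3 / 2) * a * N2 Qf volume) := by
    rw [← hN, c1]
    apply mul_le_mul_of_nonneg_left _ hm.le
    rw [← c1, hN]
    refine h5.trans ?_
    exact mul_le_mul_of_nonneg_right gU hQ0
  have h7 : 1 ≤ m * Real.sqrt (3 / 2) * N2 Qf volume := by
    have : a * 1 ≤ a * (m * Real.sqrt (3 / 2) * N2 Qf volume) := by linarith
    exact le_of_mul_le_mul_left this ha0
  have h8 : 1 ≤ (m * Real.sqrt (3 / 2) * N2 Qf volume) ^ 2 := one_le_pow₀ h7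
  have h9 : (m * Real.sqrt (3 / 2) * N2 Qf volume) ^ 2 = 3 / 2 * m ^ 2 * N2 Qf volume ^ 2 := by
    rw [mul_pow, mul_pow, Real.sq_sqrt (by norm_num)]; ring
  rw [h9] at h8
  rw [div_le_div_iff₀ (by positivity) (by norm_num)]
  linarith

section explicit

variable {m n : ℝ}

/-- the coefficients of the explicit pair -/
theorem coef (hm : 0 < m) (hn : 0 < n) : ((Real.sqrt (m * n))⁻¹) ^ 2 = (m * n)⁻¹ := by
  rw [inv_pow, Real.sq_sqrt (by positivity)]

theorem expl (hm : 0 < m) (hn : 0 < n) :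
    InNehari (m ^ 2) (n ^ 2) (1 / 4) ((4 * n / m - 1) / 12) (m * n)
      (fun t => m⁻¹ * w t) (fun t => m⁻¹ * dw t)
      (fun t => (Real.sqrt (m * n))⁻¹ * w t) (fun t => (Real.sqrt (m * n))⁻¹ * dw t) ∧
    energy (m ^ 2) (n ^ 2) (1 / 4) ((4 * n / m - 1) / 12) (m * n)
      (fun t => m⁻¹ * w t) (fun t => m⁻¹ * dw t)
      (fun t => (Real.sqrt (m * n))⁻¹ * w t) (fun t => (Real.sqrt (m * n))⁻¹ * dw t) =
        1 / (6 * m ^ 2) := by
  have hc := coef hm hn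
  set c := (Real.sqrt (m * n))⁻¹ with hcdef
  have hc0 : 0 < c := by rw [hcdef]; positivity
  have i2 := w2.1
  have i4 := w4.1
  have id2 := dw2.1
  have n1 : ∀ (lam k : ℝ), nsq lam (fun t => k * w t) (fun t => k * dw t) = k ^ 2 * (1 / 12 + lam) := by
    intro lam k
    unfold nsq
    have e : (fun x => (k * dw x) ^ 2 + lam * (k * w x) ^ 2) =
        fun x => k ^ 2 * dw x ^ 2 + (lam * k ^ 2) * w x ^ 2 := by funext x; ring
    rw [e, integral_add (id2.const_mul _) (i2.const_mul _), integral_const_mul, integral_const_mul,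
      dw2.2, w2.2]
    ring
  have hc4 : c ^ 4 = ((m * n)⁻¹) ^ 2 := by rw [← hc]; ring
  have q1 : ∫ x, (m ^ 2 * (m⁻¹ * w x) ^ 4 + m * n * (m⁻¹ * w x) ^ 2 * (c * w x) ^ 2) =
      1 / (3 * m ^ 2) := by
    have e : (fun x => m ^ 2 * (m⁻¹ * w x) ^ 4 + m * n * (m⁻¹ * w x) ^ 2 * (c * w x) ^ 2) =
        fun x => (2 / m ^ 2) * w x ^ 4 := by
      funext x
      have : m ^ 2 * (m⁻¹ * w x) ^ 4 + m * n * (m⁻¹ * w x) ^ 2 * (c * w x) ^ 2 =
        (m ^ 2 * m⁻¹ ^ 4 + m * n * m⁻¹ ^ 2 * c ^ 2) * w x ^ 4 := by ring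
      rw [this, hc]; field_simp; ring
    rw [e, integral_const_mul, w4.2]; field_simp; ring
  have q2 : ∫ x, (n ^ 2 * (c * w x) ^ 4 + m * n * (m⁻¹ * w x) ^ 2 * (c * w x) ^ 2) =
      1 / (3 * m ^ 2) := by
    have e : (fun x => n ^ 2 * (c * w x) ^ 4 + m * n * (m⁻¹ * w x) ^ 2 * (c * w x) ^ 2) =
        fun x => (2 / m ^ 2) * w x ^ 4 := by
      funext x
      have : n ^ 2 * (c * w x) ^ 4 + m * n * (m⁻¹ * w x) ^ 2 * (c * w x) ^ 2 =
        (n ^ 2 * c ^ 4 + m * n * m⁻¹ ^ 2 * c ^ 2) * w x ^ 4 := by ring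
      rw [this, hc4, hc]; field_simp; ring
    rw [e, integral_const_mul, w4.2]; field_simp; ring
  have q3 : ∫ x, (m ^ 2 * (m⁻¹ * w x) ^ 4 + 2 * (m * n) * (m⁻¹ * w x) ^ 2 * (c * w x) ^ 2 +
      n ^ 2 * (c * w x) ^ 4) = 2 / (3 * m ^ 2) := by
    have e : (fun x => m ^ 2 * (m⁻¹ * w x) ^ 4 + 2 * (m * n) * (m⁻¹ * w x) ^ 2 * (c * w x) ^ 2 +
      n ^ 2 * (c * w x) ^ 4) = fun x => (4 / m ^ 2) * w x ^ 4 := by
      funext x
      have : m ^ 2 * (m⁻¹ * w x) ^ 4 + 2 * (m * n) * (m⁻¹ * w x) ^ 2 * (c * w x) ^ 2 +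
        n ^ 2 * (c * w x) ^ 4 =
        (m ^ 2 * m⁻¹ ^ 4 + 2 * (m * n) * m⁻¹ ^ 2 * c ^ 2 + n ^ 2 * c ^ 4) * w x ^ 4 := by ring
      rw [this, hc4, hc]; field_simp; ring
    rw [e, integral_const_mul, w4.2]; field_simp; ring
  have v1 : nsq (1 / 4) (fun t => m⁻¹ * w t) (fun t => m⁻¹ * dw t) = 1 / (3 * m ^ 2) := by
    rw [n1]; field_simp; ring
  have v2 : nsq ((4 * n / m - 1) / 12) (fun t => c * w t) (fun t => c * dw t) = 1 / (3 * m ^ 2) := by
    rw [n1, hc]; field_simp; ring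
  have hne : ∀ k : ℝ, 0 < k → ¬ (fun t => k * w t) =ᵐ[volume] 0 := by
    intro k hk h
    have hcont : Continuous (fun t => k * w t) := continuous_const.mul w_smooth.continuous
    have h2 := (Continuous.ae_eq_iff_eq (μ := volume) hcont continuous_zero).1 h
    have h3 := congrFun h2 0
    have h4 := mul_pos hk (w_pos 0)
    simp only [Pi.zero_apply] at h3
    linarith
  refine ⟨⟨isH1_w _, isH1_w _, hne _ (by positivity), hne _ hc0, ?_, ?_⟩, ?_⟩
  · rw [v1, q1]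
  · rw [v2, q2]
  · unfold energy
    rw [v1, v2, q3]; field_simp; ring

/-- the first variation in the direction of a test function `η` of the second component does not vanish
for all `η` -/
theorem first_var (hm : 0 < m) (hn : 0 < n) (hne : n ≠ m) :
    ∃ η : ℝ → ℝ, ContDiff ℝ ∞ η ∧ HasCompactSupport η ∧
      ∫ x, ((Real.sqrt (m * n))⁻¹ * dw x * deriv η x +
        (4 * n / m - 1) / 12 * ((Real.sqrt (m * n))⁻¹ * w x) * η x) ≠
      ∫ x, (n ^ 2 * ((Real.sqrt (m * n))⁻¹ * w x) ^ 3 +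
        m * n * ((Real.sqrt (m * n))⁻¹ * w x) * (m⁻¹ * w x) ^ 2) * η x := by
  by_contra hcon
  push Not at hcon
  have hc := coef hm hn
  set c := (Real.sqrt (m * n))⁻¹ with hcdef
  have hc0 : 0 < c := by rw [hcdef]; positivity
  set f : ℝ → ℝ := fun x => c * ((n / m - 1) * (w x / 3 - 2 * w x ^ 3)) with hf
  have hwc := w_smooth.continuous
  have hdwc := dw_smooth.continuous
  have hfc : Continuous f := by rw [hf]; fun_prop
  have h0 : ∀ᵐ x ∂(volume : Measure ℝ), f x = 0 := by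
    apply ae_eq_zero_of_integral_contDiff_smul_eq_zero hfc.locallyIntegrable
    intro η h1 h2
    have h3 := hcon η h1 h2
    have hηc := h1.continuous
    have hη'c : Continuous (deriv η) := h1.continuous_deriv (by norm_num)
    -- integration by parts
    have ibp : ∫ x, (dw x * deriv η x + (w x / 4 - 2 * w x ^ 3) * η x) = 0 := by
      apply integral_eq_zero_of_hasDerivAt_of_integrable (f := fun x => dw x * η x)
      · intro x
        have h4 := (dw_deriv x).mul ((h1.differentiable (by norm_num) x).hasDerivAt)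
        refine h4.congr_deriv ?_
        ring
      · apply Continuous.integrable_of_hasCompactSupport (by fun_prop)
        exact (h2.deriv.mul_left).add (h2.mul_left)
      · exact (hdwc.mul hηc).integrable_of_hasCompactSupport h2.mul_left
    have i1 : Integrable (fun x => dw x * deriv η x) :=
      (hdwc.mul hη'c).integrable_of_hasCompactSupport h2.deriv.mul_left
    have i2 : Integrable (fun x => w x * η x) :=
      (hwc.mul hηc).integrable_of_hasCompactSupport h2.mul_left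
    have i3 : Integrable (fun x => w x ^ 3 * η x) :=
      ((hwc.pow 3).mul hηc).integrable_of_hasCompactSupport h2.mul_left
    have hA : ∫ x, dw x * deriv η x = -(1 / 4 * ∫ x, w x * η x) + 2 * ∫ x, w x ^ 3 * η x := by
      have e : (fun x => dw x * deriv η x + (w x / 4 - 2 * w x ^ 3) * η x) =
          fun x => dw x * deriv η x + (1 / 4 * (w x * η x) + (-2) * (w x ^ 3 * η x)) := by
        funext x; ring
      have j2 : Integrable (fun x => 1 / 4 * (w x * η x)) := i2.const_mul _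
      have j3 : Integrable (fun x => (-2) * (w x ^ 3 * η x)) := i3.const_mul _
      have j23 : Integrable (fun x => 1 / 4 * (w x * η x) + (-2) * (w x ^ 3 * η x)) := j2.add j3
      rw [e, integral_add i1 j23, integral_add j2 j3, integral_const_mul, integral_const_mul] at ibp
      linarith
    have hB : ∫ x, (c * dw x * deriv η x + (4 * n / m - 1) / 12 * (c * w x) * η x) =
        c * (∫ x, dw x * deriv η x) + c * ((4 * n / m - 1) / 12) * ∫ x, w x * η x := by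
      rw [← integral_const_mul, ← integral_const_mul, ← integral_add (i1.const_mul _) (i2.const_mul _)]
      congr 1; funext x; ring
    have hC : ∫ x, (n ^ 2 * (c * w x) ^ 3 + m * n * (c * w x) * (m⁻¹ * w x) ^ 2) * η x =
        c * (2 * n / m) * ∫ x, w x ^ 3 * η x := by
      rw [← integral_const_mul]
      congr 1; funext x
      have : (n ^ 2 * (c * w x) ^ 3 + m * n * (c * w x) * (m⁻¹ * w x) ^ 2) * η x =
        c * (n ^ 2 * c ^ 2 + m * n * m⁻¹ ^ 2) * (w x ^ 3 * η x) := by ring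
      rw [this, hc]
      have e5 : n ^ 2 * (m * n)⁻¹ + m * n * m⁻¹ ^ 2 = 2 * n / m := by field_simp; ring
      rw [e5]
    rw [hB, hC, hA] at h3
    have hD : ∫ x, η x • f x = c * (n / m - 1) / 3 * (∫ x, w x * η x) -
        2 * c * (n / m - 1) * ∫ x, w x ^ 3 * η x := by
      rw [← integral_const_mul, ← integral_const_mul, ← integral_sub (i2.const_mul _) (i3.const_mul _)]
      congr 1; funext x; rw [hf, smul_eq_mul]; ring
    rw [hD]
    linear_combination h3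
  have h1 := (Continuous.ae_eq_iff_eq (μ := volume) hfc continuous_zero).1 h0
  have h2 := congrFun h1 0
  simp only [hf, Pi.zero_apply] at h2
  have hw0 : w 0 ^ 2 = 1 / 4 := by rw [w_sq, Real.sigmoid_zero]; norm_num
  have hw1 := w_pos 0
  have hw3 : w 0 / 3 - 2 * w 0 ^ 3 = -(w 0 / 6) := by
    have : w 0 ^ 3 = w 0 * w 0 ^ 2 := by ring
    rw [this, hw0]; ring
  rw [hw3] at h2
  have h5 : n / m - 1 ≠ 0 := by
    rw [sub_ne_zero]
    intro h
    rw [div_eq_one_iff_eq hm.ne'] at h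
    exact hne h
  have h6 : c * ((n / m - 1) * -(w 0 / 6)) ≠ 0 := by
    apply mul_ne_zero hc0.ne' (mul_ne_zero h5 _)
    rw [neg_ne_zero]; positivity
  exact h6 h2

end explicit

/-- the derivative of the energy in a direction `(0, η)` -/
theorem energy_deriv {μ₁ μ₂ lam₁ lam₂ β : ℝ} {u du v dv : ℝ → ℝ} (hu : Continuous u) (hv : Continuous v)
    (hdv : Continuous dv) (h2 : Integrable (fun x => dv x ^ 2 + lam₂ * v x ^ 2))
    (h4 : Integrable (fun x => μ₁ * u x ^ 4 + 2 * β * u x ^ 2 * v x ^ 2 + μ₂ * v x ^ 4))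
    {η : ℝ → ℝ} (h1 : ContDiff ℝ ∞ η) (hc : HasCompactSupport η) :
    HasDerivAt (fun t : ℝ => energy μ₁ μ₂ lam₁ lam₂ β (fun x => u x + t * 0) (fun x => du x + t * 0)
      (fun x => v x + t * η x) (fun x => dv x + t * deriv η x))
      ((∫ x, (dv x * deriv η x + lam₂ * v x * η x)) - ∫ x, (μ₂ * v x ^ 3 + β * v x * u x ^ 2) * η x) 0 := by
  have hη := h1.continuous
  have hη' : Continuous (deriv η) := h1.continuous_deriv (by norm_num)
  have k1 : Integrable (fun x => dv x * deriv η x + lam₂ * v x * η x) := by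
    apply Continuous.integrable_of_hasCompactSupport (by fun_prop)
    exact (hc.deriv.mul_left).add hc.mul_left
  have k2 : Integrable (fun x => deriv η x ^ 2 + lam₂ * η x ^ 2) := by
    apply Continuous.integrable_of_hasCompactSupport (by fun_prop)
    have a : HasCompactSupport (fun x => deriv η x ^ 2) := hc.deriv.comp_left (g := fun y => y ^ 2) (by norm_num)
    have b : HasCompactSupport (fun x => lam₂ * η x ^ 2) := hc.comp_left (g := fun y => lam₂ * y ^ 2) (by norm_num)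
    exact a.add b
  have q1 : Integrable (fun x => (μ₂ * v x ^ 3 + β * v x * u x ^ 2) * η x) :=
    Continuous.integrable_of_hasCompactSupport (by fun_prop) hc.mul_left
  have c2 : HasCompactSupport (fun x => η x ^ 2) := hc.comp_left (g := fun y => y ^ 2) (by norm_num)
  have c3 : HasCompactSupport (fun x => η x ^ 3) := hc.comp_left (g := fun y => y ^ 3) (by norm_num)
  have c4 : HasCompactSupport (fun x => η x ^ 4) := hc.comp_left (g := fun y => y ^ 4) (by norm_num)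
  have q2 : Integrable (fun x => (2 * β * u x ^ 2 + 6 * μ₂ * v x ^ 2) * η x ^ 2) :=
    Continuous.integrable_of_hasCompactSupport (by fun_prop) c2.mul_left
  have q3 : Integrable (fun x => (4 * μ₂ * v x) * η x ^ 3) :=
    Continuous.integrable_of_hasCompactSupport (by fun_prop) c3.mul_left
  have q4 : Integrable (fun x => μ₂ * η x ^ 4) :=
    Continuous.integrable_of_hasCompactSupport (by fun_prop) c4.mul_left
  have E1 : ∀ t : ℝ, nsq lam₂ (fun x => v x + t * η x) (fun x => dv x + t * deriv η x) =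
      (∫ x, (dv x ^ 2 + lam₂ * v x ^ 2)) + (2 * t * (∫ x, (dv x * deriv η x + lam₂ * v x * η x)) +
        t ^ 2 * ∫ x, (deriv η x ^ 2 + lam₂ * η x ^ 2)) := by
    intro t
    have j1 : Integrable (fun x => 2 * t * (dv x * deriv η x + lam₂ * v x * η x)) := k1.const_mul _
    have j2 : Integrable (fun x => t ^ 2 * (deriv η x ^ 2 + lam₂ * η x ^ 2)) := k2.const_mul _
    have j12 : Integrable (fun x => 2 * t * (dv x * deriv η x + lam₂ * v x * η x) +
      t ^ 2 * (deriv η x ^ 2 + lam₂ * η x ^ 2)) := j1.add j2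
    rw [← integral_const_mul, ← integral_const_mul, ← integral_add j1 j2, ← integral_add h2 j12]
    unfold nsq
    congr 1; funext x; ring
  have E2 : ∀ t : ℝ, ∫ x, (μ₁ * (u x + t * 0) ^ 4 + 2 * β * (u x + t * 0) ^ 2 * (v x + t * η x) ^ 2 +
      μ₂ * (v x + t * η x) ^ 4) =
      (∫ x, (μ₁ * u x ^ 4 + 2 * β * u x ^ 2 * v x ^ 2 + μ₂ * v x ^ 4)) +
      (4 * t * (∫ x, (μ₂ * v x ^ 3 + β * v x * u x ^ 2) * η x) +
      (t ^ 2 * (∫ x, (2 * β * u x ^ 2 + 6 * μ₂ * v x ^ 2) * η x ^ 2) +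
      (t ^ 3 * (∫ x, (4 * μ₂ * v x) * η x ^ 3) + t ^ 4 * ∫ x, μ₂ * η x ^ 4))) := by
    intro t
    have j1 : Integrable (fun x => 4 * t * ((μ₂ * v x ^ 3 + β * v x * u x ^ 2) * η x)) := q1.const_mul _
    have j2 : Integrable (fun x => t ^ 2 * ((2 * β * u x ^ 2 + 6 * μ₂ * v x ^ 2) * η x ^ 2)) := q2.const_mul _
    have j3 : Integrable (fun x => t ^ 3 * ((4 * μ₂ * v x) * η x ^ 3)) := q3.const_mul _
    have j4 : Integrable (fun x => t ^ 4 * (μ₂ * η x ^ 4)) := q4.const_mul _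
    have j34 : Integrable (fun x => t ^ 3 * ((4 * μ₂ * v x) * η x ^ 3) + t ^ 4 * (μ₂ * η x ^ 4)) := j3.add j4
    have j234 : Integrable (fun x => t ^ 2 * ((2 * β * u x ^ 2 + 6 * μ₂ * v x ^ 2) * η x ^ 2) +
      (t ^ 3 * ((4 * μ₂ * v x) * η x ^ 3) + t ^ 4 * (μ₂ * η x ^ 4))) := j2.add j34
    have j1234 : Integrable (fun x => 4 * t * ((μ₂ * v x ^ 3 + β * v x * u x ^ 2) * η x) +
      (t ^ 2 * ((2 * β * u x ^ 2 + 6 * μ₂ * v x ^ 2) * η x ^ 2) +
      (t ^ 3 * ((4 * μ₂ * v x) * η x ^ 3) + t ^ 4 * (μ₂ * η x ^ 4)))) := j1.add j234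
    rw [← integral_const_mul, ← integral_const_mul, ← integral_const_mul, ← integral_const_mul,
      ← integral_add j3 j4, ← integral_add j2 j34, ← integral_add j1 j234, ← integral_add h4 j1234]
    congr 1; funext x; ring
  have e0 : nsq lam₁ (fun x => u x + 0 * 0) (fun x => du x + 0 * 0) = nsq lam₁ u du := by
    simp
  have hfun : (fun t : ℝ => energy μ₁ μ₂ lam₁ lam₂ β (fun x => u x + t * 0) (fun x => du x + t * 0)
      (fun x => v x + t * η x) (fun x => dv x + t * deriv η x)) = fun t : ℝ =>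
      (nsq lam₁ u du + ((∫ x, (dv x ^ 2 + lam₂ * v x ^ 2)) +
        (2 * t * (∫ x, (dv x * deriv η x + lam₂ * v x * η x)) +
        t ^ 2 * ∫ x, (deriv η x ^ 2 + lam₂ * η x ^ 2)))) / 2 -
      ((∫ x, (μ₁ * u x ^ 4 + 2 * β * u x ^ 2 * v x ^ 2 + μ₂ * v x ^ 4)) +
      (4 * t * (∫ x, (μ₂ * v x ^ 3 + β * v x * u x ^ 2) * η x) +
      (t ^ 2 * (∫ x, (2 * β * u x ^ 2 + 6 * μ₂ * v x ^ 2) * η x ^ 2) +
      (t ^ 3 * (∫ x, (4 * μ₂ * v x) * η x ^ 3) + t ^ 4 * ∫ x, μ₂ * η x ^ 4)))) / 4 := by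
    funext t
    unfold energy
    rw [E1, E2]
    simp only [mul_zero, add_zero]
  rw [hfun]
  generalize (∫ x, (dv x ^ 2 + lam₂ * v x ^ 2)) = A0
  generalize (∫ x, (dv x * deriv η x + lam₂ * v x * η x)) = A1
  generalize (∫ x, (deriv η x ^ 2 + lam₂ * η x ^ 2)) = A2
  generalize (∫ x, (μ₁ * u x ^ 4 + 2 * β * u x ^ 2 * v x ^ 2 + μ₂ * v x ^ 4)) = B0
  generalize (∫ x, (μ₂ * v x ^ 3 + β * v x * u x ^ 2) * η x) = B1
  generalize (∫ x, (2 * β * u x ^ 2 + 6 * μ₂ * v x ^ 2) * η x ^ 2) = B2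
  generalize (∫ x, (4 * μ₂ * v x) * η x ^ 3) = B3
  generalize (∫ x, μ₂ * η x ^ 4) = B4
  generalize nsq lam₁ u du = A
  have t1 : HasDerivAt (fun t : ℝ => t) 1 0 := hasDerivAt_id 0
  have t2 : HasDerivAt (fun t : ℝ => t ^ 2) 0 0 := (hasDerivAt_pow 2 (0:ℝ)).congr_deriv (by norm_num)
  have t3 : HasDerivAt (fun t : ℝ => t ^ 3) 0 0 := (hasDerivAt_pow 3 (0:ℝ)).congr_deriv (by norm_num)
  have t4 : HasDerivAt (fun t : ℝ => t ^ 4) 0 0 := (hasDerivAt_pow 4 (0:ℝ)).congr_deriv (by norm_num)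
  have d1 : HasDerivAt (fun t : ℝ => (A + (A0 + (2 * t * A1 + t ^ 2 * A2))) / 2 -
      (B0 + (4 * t * B1 + (t ^ 2 * B2 + (t ^ 3 * B3 + t ^ 4 * B4)))) / 4)
      ((2 * 1 * A1 + 0 * A2) / 2 - (4 * 1 * B1 + (0 * B2 + (0 * B3 + 0 * B4))) / 4) 0 :=
    (((((t1.const_mul 2).mul_const A1).add (t2.mul_const A2)).const_add A0).const_add A |>.div_const 2).sub
      ((((t1.const_mul 4).mul_const B1).add ((t2.mul_const B2).add ((t3.mul_const B3).add
        (t4.mul_const B4)))).const_add B0 |>.div_const 4)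
  refine d1.congr_deriv ?_
  ring

end Q61.M38
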