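import Pool.Agent.Q61.MP38d

set_option autoImplicit false

open MeasureTheory Topology Filter Set
open scoped ContDiff

namespace Q61.M38

theorem energy_symm (μ₁ μ₂ lam₁ lam₂ β : ℝ) (u du v dv : ℝ → ℝ) :
    energy μ₁ μ₂ lam₁ lam₂ β u du v dv = energy μ₂ μ₁ lam₂ lam₁ β v dv u du := by
  unfold energy
  rw [add_comm (nsq lam₁ u du)]
  congr 3
  funext x; ring

theorem nehari_symm {μ₁ μ₂ lam₁ lam₂ β : ℝ} {u du v dv : ℝ → ℝ}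
    (h : InNehari μ₁ μ₂ lam₁ lam₂ β u du v dv) : InNehari μ₂ μ₁ lam₂ lam₁ β v dv u du := by
  obtain ⟨h1, h2, h3, h4, h5, h6⟩ := h
  refine ⟨h2, h1, h4, h3, ?_, ?_⟩
  · rw [h6]; congr 1; funext x; ring
  · rw [h5]; congr 1; funext x; ring

theorem min_symm {μ₁ μ₂ lam₁ lam₂ β : ℝ} {u du v dv : ℝ → ℝ}
    (h : IsMinimizer μ₁ μ₂ lam₁ lam₂ β u du v dv) : IsMinimizer μ₂ μ₁ lam₂ lam₁ β v dv u du := by
  refine ⟨nehari_symm h.1, fun u' du' v' dv' h' => ?_⟩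
  rw [energy_symm, energy_symm μ₂ μ₁]
  exact h.2 _ _ _ _ (nehari_symm h')

theorem weak_symm {μ₁ μ₂ lam₁ lam₂ β : ℝ} {u du v dv : ℝ → ℝ}
    (h : IsWeakSolution μ₂ μ₁ lam₂ lam₁ β v dv u du) : IsWeakSolution μ₁ μ₂ lam₁ lam₂ β u du v dv :=
  fun η dη hη => ⟨(h η dη hη).2, (h η dη hη).1⟩

theorem crit_symm {μ₁ μ₂ lam₁ lam₂ β : ℝ} {u du v dv : ℝ → ℝ}
    (h : IsCritical μ₂ μ₁ lam₂ lam₁ β v dv u du) : IsCritical μ₁ μ₂ lam₁ lam₂ β u du v dv := by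
  intro η dη ζ dζ hη hζ
  have := h ζ dζ η dη hζ hη
  refine this.congr_of_eventuallyEq (Eventually.of_forall fun t => ?_)
  exact energy_symm _ _ _ _ _ _ _ _ _

theorem core {m n : ℝ} (hm : 0 < m) (hn : 0 < n) (h : m < 4 * n) (hne : n ≠ m) :
    ∃ lam₁ lam₂ : ℝ, 0 < lam₁ ∧ 0 < lam₂ ∧ ∃ u du v dv : ℝ → ℝ,
      IsMinimizer (m ^ 2) (n ^ 2) lam₁ lam₂ (m * n) u du v dv ∧
      ¬ IsWeakSolution (m ^ 2) (n ^ 2) lam₁ lam₂ (m * n) u du v dv ∧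
      ¬ IsCritical (m ^ 2) (n ^ 2) lam₁ lam₂ (m * n) u du v dv := by
  obtain ⟨e1, e2⟩ := expl hm hn
  obtain ⟨η, hη, hηc, hvar⟩ := first_var hm hn hne
  have hc := coef hm hn
  refine ⟨1 / 4, (4 * n / m - 1) / 12, by norm_num, ?_, _, _, _, _, ⟨e1, ?_⟩, ?_, ?_⟩
  · have : 1 < 4 * n / m := by rw [lt_div_iff₀ hm]; linarith
    linarith
  · intro u' du' v' dv' h'
    rw [e2]
    exact lower hm hn h'
  · intro hw
    have := (hw η (deriv η) (isH1_test hη hηc)).2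
    exact hvar this
  · intro hcr
    have hz : IsH1 (fun _ => 0) (fun _ => 0) := by
      have := isH1_w 0
      simpa using this
    have d1 := hcr _ _ η (deriv η) hz (isH1_test hη hηc)
    have hwc := w_smooth.continuous
    have hdwc := dw_smooth.continuous
    have d2 := energy_deriv (μ₁ := m ^ 2) (μ₂ := n ^ 2) (lam₁ := 1 / 4) (lam₂ := (4 * n / m - 1) / 12)
      (β := m * n) (u := fun t => m⁻¹ * w t) (du := fun t => m⁻¹ * dw t)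
      (v := fun t => (Real.sqrt (m * n))⁻¹ * w t) (dv := fun t => (Real.sqrt (m * n))⁻¹ * dw t)
      (by fun_prop) (by fun_prop) (by fun_prop)
      (by
        have e : (fun x => ((Real.sqrt (m * n))⁻¹ * dw x) ^ 2 + (4 * n / m - 1) / 12 * ((Real.sqrt (m * n))⁻¹ * w x) ^ 2) =
          fun x => ((Real.sqrt (m * n))⁻¹) ^ 2 * dw x ^ 2 + ((4 * n / m - 1) / 12 * ((Real.sqrt (m * n))⁻¹) ^ 2) * w x ^ 2 := by
          funext x; ring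
        rw [e]
        exact (dw2.1.const_mul _).add (w2.1.const_mul _))
      (by
        have e : (fun x => m ^ 2 * (m⁻¹ * w x) ^ 4 + 2 * (m * n) * (m⁻¹ * w x) ^ 2 * ((Real.sqrt (m * n))⁻¹ * w x) ^ 2 +
            n ^ 2 * ((Real.sqrt (m * n))⁻¹ * w x) ^ 4) =
          fun x => (m ^ 2 * m⁻¹ ^ 4 + 2 * (m * n) * m⁻¹ ^ 2 * ((Real.sqrt (m * n))⁻¹) ^ 2 +
            n ^ 2 * ((Real.sqrt (m * n))⁻¹) ^ 4) * w x ^ 4 := by
          funext x; ring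
        rw [e]
        exact w4.1.const_mul _)
      hη hηc
    have d3 := d1.unique d2
    apply hvar
    linarith

theorem main (μ₁ μ₂ : ℝ) (h1 : 0 < μ₁) (h2 : 0 < μ₂) (hne : μ₁ ≠ μ₂) :
    ∃ lam₁ lam₂ : ℝ, 0 < lam₁ ∧ 0 < lam₂ ∧ ∃ u du v dv : ℝ → ℝ,
      IsMinimizer μ₁ μ₂ lam₁ lam₂ (Real.sqrt (μ₁ * μ₂)) u du v dv ∧
      ¬ IsWeakSolution μ₁ μ₂ lam₁ lam₂ (Real.sqrt (μ₁ * μ₂)) u du v dv ∧
      ¬ IsCritical μ₁ μ₂ lam₁ lam₂ (Real.sqrt (μ₁ * μ₂)) u du v dv := by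
  have hm : 0 < Real.sqrt μ₁ := Real.sqrt_pos.2 h1
  have hn : 0 < Real.sqrt μ₂ := Real.sqrt_pos.2 h2
  have e1 : Real.sqrt μ₁ ^ 2 = μ₁ := Real.sq_sqrt h1.le
  have e2 : Real.sqrt μ₂ ^ 2 = μ₂ := Real.sq_sqrt h2.le
  have e3 : Real.sqrt (μ₁ * μ₂) = Real.sqrt μ₁ * Real.sqrt μ₂ := Real.sqrt_mul h1.le _
  have hne' : Real.sqrt μ₁ ≠ Real.sqrt μ₂ := by
    intro h
    apply hne
    rw [← e1, ← e2, h]
  rcases lt_or_ge (Real.sqrt μ₁) (4 * Real.sqrt μ₂) with h | h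
  · have := core hm hn h hne'.symm
    rwa [e1, e2, ← e3] at this
  · obtain ⟨l1, l2, p1, p2, u, du, v, dv, a, b, c⟩ := core hn hm (by linarith) hne'
    rw [e1, e2, mul_comm, ← e3] at a b c
    exact ⟨l2, l1, p2, p1, v, dv, u, du, min_symm a, fun hw => b (weak_symm hw), fun hw => c (crit_symm hw)⟩

end Q61.M38
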