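import Pool.Agent.Q61.Rad8

set_option autoImplicit false

open MeasureTheory InnerProductSpace Laplacian Topology Filter Set
open scoped ContDiff

namespace Q61.MP6d

open Q61.Rad

theorem big_mass {v : ℕ → ℝ → ℝ} (h : EChain 3 2 v) {C b : ℝ} (hC : 1 ≤ C) (h0 : v 0 0 = Real.log 24)
    (h1 : v 1 0 = b) (hb : 24 * C * Real.exp (C / 4) + 1 ≤ b) : ∃ s, 0 ≤ s ∧ C < M 3 (v 0) s := by
  by_contra hcon
  push Not at hcon
  have hE1 : 1 ≤ Real.exp (C / 4) := Real.one_le_exp (by linarith)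
  have hb25 : 25 ≤ b := by nlinarith
  have hb0 : 0 < b := by linarith
  have c0 : Continuous (v 0) := h.cont 0 (by norm_num)
  have c1 : Continuous (v 1) := h.cont 1 (by norm_num)
  have c2 : Continuous (v 2) := h.cont 2 le_rfl
  have ce : Continuous fun t => Real.exp (v 0 t) := by fun_prop
  have e2 : v 2 = fun t => -Real.exp (v 0 t) := funext h.top
  have r1 : ∀ r, v 1 r = b - I 3 (fun t => Real.exp (v 0 t)) r := by
    intro r
    rw [h.rel 1 (by norm_num) r, h1, e2, I_neg]; ring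
  -- v₁ ≤ b
  have u1 : ∀ r, 0 ≤ r → v 1 r ≤ b := by
    intro r hr
    rw [r1]
    have := I_nonneg 3 ce hr fun t _ _ => (Real.exp_pos _).le
    linarith
  have u0 : ∀ r, 0 ≤ r → v 0 r ≤ Real.log 24 + b * r ^ 2 / 8 := by
    intro r hr
    rw [h.rel 0 (by norm_num) r, h0]
    have := I_mono 3 c1 continuous_const hr (g := fun _ => b) fun t a _ => u1 t a
    rw [I_const] at this
    norm_num at this
    linarith
  -- the inner region
  set r₁ : ℝ := Real.sqrt (2 * C / b) with hr₁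
  have hr₁sq : r₁ ^ 2 = 2 * C / b := Real.sq_sqrt (by positivity)
  have hr₁pos : 0 < r₁ := Real.sqrt_pos.2 (by positivity)
  have inner : ∀ t, 0 ≤ t → t ≤ r₁ → Real.exp (v 0 t) ≤ 24 * Real.exp (C / 4) := by
    intro t ht1 ht2
    have h3 : b * t ^ 2 ≤ 2 * C := by
      have : t ^ 2 ≤ 2 * C / b := by rw [← hr₁sq]; exact pow_le_pow_left₀ ht1 ht2 2
      rw [le_div_iff₀ hb0] at this
      linarith
    have h4 : v 0 t ≤ Real.log 24 + C / 4 := by linarith [u0 t ht1]
    calc Real.exp (v 0 t) ≤ Real.exp (Real.log 24 + C / 4) := Real.exp_le_exp.2 h4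
      _ = _ := by rw [Real.exp_add, Real.exp_log (by norm_num)]
  have I1 : ∀ r, 0 ≤ r → r ≤ r₁ → I 3 (fun t => Real.exp (v 0 t)) r ≤ b / 4 := by
    intro r hr1 hr2
    have h3 := I_mono 3 ce continuous_const hr1 (g := fun _ => 24 * Real.exp (C / 4)) fun t a c => inner t a (c.trans hr2)
    rw [I_const] at h3
    refine h3.trans ?_
    have h4 : r ^ 2 ≤ 2 * C / b := by rw [← hr₁sq]; exact pow_le_pow_left₀ hr1 hr2 2
    have h5 : 24 * Real.exp (C / 4) * r ^ 2 / ((((3:ℕ):ℝ) + 1) * 2) ≤ 24 * Real.exp (C / 4) * (2 * C / b) / 8 := by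
      norm_num
      gcongr
    refine h5.trans ?_
    rw [div_le_div_iff₀ (by norm_num) (by norm_num)]
    have h6 : 24 * Real.exp (C / 4) * (2 * C / b) = 2 * (24 * C * Real.exp (C / 4)) / b := by ring
    rw [h6, div_mul_eq_mul_div, div_le_iff₀ hb0]
    have h7 : 24 * C * Real.exp (C / 4) ≤ b := by linarith
    nlinarith
  -- the outer region
  have I2 : ∀ r, r₁ ≤ r → I 3 (fun t => Real.exp (v 0 t)) r ≤ b / 2 := by
    intro r hr
    have h3 := incr_le (F := I 3 fun t => Real.exp (v 0 t)) (G := fun s => -(C / 2) * (s ^ 2)⁻¹)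
      (F' := fun s => s * A 3 (fun t => Real.exp (v 0 t)) s)
      (G' := fun s => -(C / 2) * (-(((2:ℕ):ℝ) * s ^ (2 - 1)) / (s ^ 2) ^ 2)) hr (fun t _ => I_hasDeriv 3 ce t)
      (fun t ht => by
        have : t ^ 2 ≠ 0 := by have : 0 < t := by linarith
                               positivity
        exact ((hasDerivAt_pow 2 t).inv this).const_mul _) (fun t ht => by
        have ht0 : 0 < t := by linarith
        have h4 := hcon t ht0.le
        rw [M_eq] at h4
        have h5 : A 3 (fun t => Real.exp (v 0 t)) t ≤ C / t ^ 4 := by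
          rw [le_div_iff₀ (by positivity), mul_comm]
          exact h4
        calc t * A 3 (fun t => Real.exp (v 0 t)) t ≤ t * (C / t ^ 4) := mul_le_mul_of_nonneg_left h5 ht0.le
          _ = _ := by field_simp; norm_num; ring)
    have h4 := I1 r₁ hr₁pos.le le_rfl
    have h5 : C / 2 * (r₁ ^ 2)⁻¹ = b / 4 := by rw [hr₁sq]; field_simp; norm_num
    have h6 : 0 ≤ C / 2 * (r ^ 2)⁻¹ := by positivity
    linarith
  apply h.not_up (j := 0) (by norm_num)
  refine ⟨b / 2, by linarith, ?_⟩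
  filter_upwards [eventually_ge_atTop r₁] with r hr
  rw [r1]
  linarith [I2 r hr]

/-- radial solution of `Δ² u = -6 e^{4u}` on `ℝ⁴` with `u(0) = 0` and `u''(0) = a` (derivatives in `r`) -/
def IsSolQ (a : ℝ) (u : EuclideanSpace ℝ (Fin 4) → ℝ) : Prop :=
  ContDiff ℝ ∞ u ∧ IsRadial u ∧ (∀ x, (Δ (Δ u)) x = -6 * Real.exp (4 * u x)) ∧ u 0 = 0 ∧
    deriv (deriv fun r : ℝ => u (EuclideanSpace.single 0 r)) 0 = a

/-- data of `w = 4u + ln 24` -/
noncomputable def dat (a : ℝ) : Fin 2 → ℝ := ![Real.log 24, 16 * a]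

theorem lap_affine {f : EuclideanSpace ℝ (Fin 4) → ℝ} (hf : ContDiff ℝ ∞ f) (c d : ℝ) :
    Δ (fun x => c * f x + d) = fun x => c * (Δ f) x := by
  funext x
  have h2 : ContDiffAt ℝ 2 f x := (hf.of_le ENat.LEInfty.out).contDiffAt
  rw [Q61.lapN_add (contDiffAt_const.mul h2) contDiffAt_const, Q61.lapN_const_mul c h2, Q61.lapN_const]
  ring

theorem second_deriv {u : EuclideanSpace ℝ (Fin 4) → ℝ} (h : IsRadial u) (hs : ContDiff ℝ ∞ u) :
    deriv (deriv (prof u)) 0 = (Δ u) 0 / 4 := by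
  obtain ⟨h1, h2, h3⟩ := h.lap_data hs
  have hc : Continuous (prof (Δ u)) := (prof_smooth h2).continuous
  have e1 : prof u = fun r => prof u 0 + I 3 (prof (Δ u)) r := funext h3
  have e2 : deriv (prof u) = fun r => r * A 3 (prof (Δ u)) r := by
    funext r
    rw [e1]
    exact ((I_hasDeriv 3 hc r).const_add _).deriv
  have h4 : HasDerivAt (fun r => r * A 3 (prof (Δ u)) r) (1 * A 3 (prof (Δ u)) 0 + 0 * deriv (A 3 (prof (Δ u))) 0) 0 :=
    (hasDerivAt_id (0:ℝ)).mul (((A_smooth 3 (prof_smooth h2)).differentiable (by norm_num) 0).hasDerivAt)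
  rw [e2, h4.deriv, A_zero, prof_zero]
  norm_num

theorem to_sol {a : ℝ} {u : EuclideanSpace ℝ (Fin 4) → ℝ} (h : IsSolQ a u) :
    IsSol (n := 4) (m := 2) (dat a) (fun x => 4 * u x + Real.log 24) := by
  obtain ⟨h1, h2, h3, h4, h5⟩ := h
  have hl := (h2.lap_data h1).2.1
  have e1 : Δ (fun x : EuclideanSpace ℝ (Fin 4) => 4 * u x + Real.log 24) = fun x => 4 * (Δ u) x := lap_affine h1 4 _
  have e2 := lap_affine hl 4 0
  simp only [add_zero] at e2
  refine ⟨(contDiff_const.mul h1).add contDiff_const, fun x y hxy => by simp only [h2 x y hxy], fun x => ?_, fun i => ?_⟩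
  · show (Δ (Δ (fun x : EuclideanSpace ℝ (Fin 4) => 4 * u x + Real.log 24))) x = _
    rw [e1, e2]
    simp only
    rw [h3, Real.exp_add, Real.exp_log (by norm_num)]
    ring
  · fin_cases i
    · show 4 * u 0 + Real.log 24 = Real.log 24
      rw [h4]; ring
    · show (Δ (fun x : EuclideanSpace ℝ (Fin 4) => 4 * u x + Real.log 24)) 0 = 16 * a
      rw [e1]
      have h6 := second_deriv h2 h1
      have h7 : deriv (deriv (prof u)) 0 = a := h5
      simp only
      linarith

theorem of_sol {a : ℝ} {w : EuclideanSpace ℝ (Fin 4) → ℝ} (h : IsSol (n := 4) (m := 2) (dat a) w) :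
    IsSolQ a (fun x => (1 / 4) * w x + -(Real.log 24 / 4)) := by
  obtain ⟨h1, h2, h3, h4⟩ := h
  have hl := (h2.lap_data h1).2.1
  have e1 : Δ (fun x : EuclideanSpace ℝ (Fin 4) => (1 / 4) * w x + -(Real.log 24 / 4)) = fun x => (1 / 4) * (Δ w) x :=
    lap_affine h1 _ _
  have e2 := lap_affine hl (1 / 4) 0
  simp only [add_zero] at e2
  have d0 : w 0 = Real.log 24 := h4 0
  have d1 : (Δ w) 0 = 16 * a := h4 1
  have hs : ContDiff ℝ ∞ (fun x => (1 / 4) * w x + -(Real.log 24 / 4)) := (contDiff_const.mul h1).add contDiff_const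
  have hr : IsRadial (fun x => (1 / 4) * w x + -(Real.log 24 / 4)) := fun x y hxy => by simp only [h2 x y hxy]
  refine ⟨hs, hr, fun x => ?_, ?_, ?_⟩
  · rw [e1, e2]
    simp only
    have h5 : (Δ (Δ w)) x = -Real.exp (w x) := h3 x
    rw [h5]
    have h6 : 4 * ((1 / 4) * w x + -(Real.log 24 / 4)) = w x - Real.log 24 := by ring
    rw [h6, Real.exp_sub, Real.exp_log (by norm_num)]
    ring
  · show (1 / 4) * w 0 + -(Real.log 24 / 4) = 0
    rw [d0]; ring
  · have h6 := second_deriv hr hs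
    rw [e1] at h6
    simp only at h6
    rw [d1] at h6
    have h7 : deriv (deriv (prof (fun x => (1 / 4) * w x + -(Real.log 24 / 4)))) 0 = a := by rw [h6]; ring
    exact h7

theorem existsUnique (a : ℝ) : ∃! u : EuclideanSpace ℝ (Fin 4) → ℝ, IsSolQ a u := by
  obtain ⟨w, hw⟩ := sol_exists 3 1 (dat a)
  refine ⟨_, of_sol hw, fun u hu => ?_⟩
  have h1 := sol_unique (n := 3) (m := 1) (to_sol hu) (to_sol (of_sol hw))
  funext x
  have h2 := congrFun h1 x
  linarith

theorem exp_eq (u : EuclideanSpace ℝ (Fin 4) → ℝ) (x : EuclideanSpace ℝ (Fin 4)) :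
    Real.exp (4 * u x) = (1 / 24) * Real.exp (4 * u x + Real.log 24) := by
  rw [Real.exp_add, Real.exp_log (by norm_num)]; ring

theorem mass_data {a : ℝ} {u : EuclideanSpace ℝ (Fin 4) → ℝ} (h : IsSolQ a u) :
    Integrable (fun x => Real.exp (4 * u x)) ∧
    ∫ x, Real.exp (4 * u x) = (1 / 24) * (om 3 * Minf 3 (prof (fun x => 4 * u x + Real.log 24))) ∧
    ∃ C, ∀ r, 0 ≤ r → M 3 (prof (fun x => 4 * u x + Real.log 24)) r ≤ C := by
  have hs := to_sol h
  have hch := IsSol.chain (n := 3) hs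
  have hb := hch.mass_bdd (by norm_num) le_rfl
  have hc : Continuous (prof (fun x => 4 * u x + Real.log 24)) := (prof_smooth hs.1).continuous
  have hb' : ∃ C, ∀ r, 0 ≤ r → M 3 (prof (fun x => 4 * u x + Real.log 24)) r ≤ C := hb
  have hi := (vol_integrable 3 (prof (fun x => 4 * u x + Real.log 24))).2 (integrable_of_bdd hc hb')
  have e : ∀ x, Real.exp (4 * u x) = (1 / 24) * Real.exp (prof (fun x => 4 * u x + Real.log 24) ‖x‖) := by
    intro x
    rw [exp_eq, ← IsRadial.eq_prof (n := 3) hs.2.1 x]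
  refine ⟨?_, ?_, hb'⟩
  · have := hi.const_mul (1 / 24)
    exact this.congr (ae_of_all _ fun x => (e x).symm)
  · simp_rw [e]
    rw [integral_const_mul]
    congr 1
    exact vol_eq 3 _

theorem tendsto {U : ℝ → EuclideanSpace ℝ (Fin 4) → ℝ} (hU : ∀ a, IsSolQ a (U a)) :
    Tendsto (fun a => ∫ x, Real.exp (4 * U a x)) atTop atTop := by
  rw [tendsto_atTop]
  intro B
  set C : ℝ := max 1 (24 * B / om 3) with hC
  have hC1 : 1 ≤ C := le_max_left _ _
  filter_upwards [eventually_ge_atTop (24 * C * Real.exp (C / 4) + 1)] with a ha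
  obtain ⟨h1, h2, h3⟩ := mass_data (hU a)
  rw [h2]
  have hs := to_sol (hU a)
  have hch := IsSol.chain (n := 3) hs
  have hpos : 0 ≤ a := by
    have := Real.exp_pos (C / 4)
    have : 0 ≤ 24 * C * Real.exp (C / 4) := by positivity
    linarith
  obtain ⟨s, hs0, hs1⟩ := big_mass hch hC1 (b := 16 * a) (IsSol.data (n := 3) hs 0) (IsSol.data (n := 3) hs 1)
    (by linarith)
  have hs1' : C < M 3 (prof (fun x => 4 * U a x + Real.log 24)) s := hs1
  have hc : Continuous (prof (fun x => 4 * U a x + Real.log 24)) := (prof_smooth hs.1).continuous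
  have h4 := M_le_Minf hc h3 hs0
  have h5 : 24 * B / om 3 ≤ Minf 3 (prof (fun x => 4 * U a x + Real.log 24)) := by
    have : 24 * B / om 3 ≤ C := le_max_right _ _
    linarith
  have hom := om_pos 3
  rw [div_le_iff₀ hom] at h5
  linarith

end Q61.MP6d
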