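import Pool.Agent.Q61.LapN

set_option autoImplicit false

open MeasureTheory InnerProductSpace Laplacian Topology Filter Set
open scoped ContDiff

namespace Q61.M885

abbrev E6 := EuclideanSpace ℝ (Fin 6)

/-- a smooth function equal to `log t` for `t ≥ 1` -/
noncomputable def h (t : ℝ) : ℝ := Real.smoothTransition (2 * t - 1) * Real.log t

theorem h_smooth : ContDiff ℝ ∞ h := by
  rw [contDiff_iff_contDiffAt]
  intro t
  rcases lt_or_ge t (1 / 2) with ht | ht
  · have : h =ᶠ[𝓝 t] fun _ => 0 := by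
      filter_upwards [Iio_mem_nhds ht] with s hs
      have hs' : s < 1 / 2 := hs
      unfold h
      rw [Real.smoothTransition.zero_of_nonpos (by linarith), zero_mul]
    exact contDiffAt_const.congr_of_eventuallyEq this
  · unfold h
    apply ContDiffAt.mul
    · exact (Real.smoothTransition.contDiff.comp ((contDiff_const.mul contDiff_id).sub contDiff_const)).contDiffAt
    · exact Real.contDiffAt_log.2 (by linarith)

theorem h_eq {t : ℝ} (ht : 1 ≤ t) : h t = Real.log t := by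
  unfold h
  rw [Real.smoothTransition.one_of_one_le (by linarith), one_mul]

theorem h_le {t : ℝ} (ht : 0 ≤ t) : h t ≤ Real.log (1 + t) := by
  rcases le_or_gt 1 t with h1 | h1
  · rw [h_eq h1]
    exact Real.log_le_log (by linarith) (by linarith)
  · have h2 : Real.log t ≤ 0 := Real.log_nonpos ht h1.le
    have h3 := Real.smoothTransition.nonneg (2 * t - 1)
    have h4 : h t ≤ 0 := mul_nonpos_of_nonneg_of_nonpos h3 h2
    exact h4.trans (Real.log_nonneg (by linarith))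

theorem Lr_zero {t : ℝ} (ht : 1 < t) : Lr 6 (Lr 6 (Lr 6 h)) t = 0 := by
  have d1 : ∀ s, 1 < s → deriv h s = s⁻¹ := by
    intro s hs
    have : h =ᶠ[𝓝 s] Real.log := by
      filter_upwards [Ioi_mem_nhds hs] with r hr
      exact h_eq (le_of_lt hr)
    rw [this.deriv_eq, Real.deriv_log]
  have d2 : ∀ s, 1 < s → deriv (deriv h) s = -(s ^ 2)⁻¹ := by
    intro s hs
    have : deriv h =ᶠ[𝓝 s] fun r => r⁻¹ := by
      filter_upwards [Ioi_mem_nhds hs] with r hr
      exact d1 r hr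
    rw [this.deriv_eq]
    exact (hasDerivAt_inv (by linarith)).deriv
  have e1 : ∀ s, 1 < s → Lr 6 h s = 8 * s⁻¹ := by
    intro s hs
    unfold Lr
    rw [d1 s hs, d2 s hs]
    have : s ≠ 0 := by linarith
    field_simp
    norm_num
  have d3 : ∀ s, 1 < s → deriv (Lr 6 h) s = -8 * (s ^ 2)⁻¹ := by
    intro s hs
    have : Lr 6 h =ᶠ[𝓝 s] fun r => 8 * r⁻¹ := by
      filter_upwards [Ioi_mem_nhds hs] with r hr
      exact e1 r hr
    rw [this.deriv_eq, ((hasDerivAt_inv (by linarith : s ≠ 0)).const_mul 8).deriv]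
    ring
  have d4 : ∀ s, 1 < s → deriv (deriv (Lr 6 h)) s = 16 * (s ^ 3)⁻¹ := by
    intro s hs
    have hs0 : s ≠ 0 := by linarith
    have : deriv (Lr 6 h) =ᶠ[𝓝 s] fun r => -8 * (r ^ 2)⁻¹ := by
      filter_upwards [Ioi_mem_nhds hs] with r hr
      exact d3 r hr
    have hd := (((hasDerivAt_pow 2 s).inv (pow_ne_zero 2 hs0)).const_mul (-8))
    rw [this.deriv_eq]
    refine hd.deriv.trans ?_
    field_simp
    norm_num
    try ring
  have e2 : ∀ s, 1 < s → Lr 6 (Lr 6 h) s = -32 * (s ^ 2)⁻¹ := by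
    intro s hs
    have hs0 : s ≠ 0 := by linarith
    rw [Lr, d3 s hs, d4 s hs]
    field_simp
    norm_num
  have d5 : ∀ s, 1 < s → deriv (Lr 6 (Lr 6 h)) s = 64 * (s ^ 3)⁻¹ := by
    intro s hs
    have hs0 : s ≠ 0 := by linarith
    have : Lr 6 (Lr 6 h) =ᶠ[𝓝 s] fun r => -32 * (r ^ 2)⁻¹ := by
      filter_upwards [Ioi_mem_nhds hs] with r hr
      exact e2 r hr
    have hd := (((hasDerivAt_pow 2 s).inv (pow_ne_zero 2 hs0)).const_mul (-32))
    rw [this.deriv_eq]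
    refine hd.deriv.trans ?_
    field_simp
    norm_num
    try ring
  have d6 : deriv (deriv (Lr 6 (Lr 6 h))) t = -192 * (t ^ 4)⁻¹ := by
    have hs0 : t ≠ 0 := by linarith
    have : deriv (Lr 6 (Lr 6 h)) =ᶠ[𝓝 t] fun r => 64 * (r ^ 3)⁻¹ := by
      filter_upwards [Ioi_mem_nhds ht] with r hr
      exact d5 r hr
    have hd := (((hasDerivAt_pow 3 t).inv (pow_ne_zero 3 hs0)).const_mul 64)
    rw [this.deriv_eq]
    refine hd.deriv.trans ?_
    field_simp
    norm_num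
    try ring
  have hs0 : t ≠ 0 := by linarith
  rw [Lr, d5 t ht, d6]
  field_simp
  norm_num

/-- the polynomial part -/
noncomputable def P (x : E6) : ℝ := (‖x‖ ^ 2 + -1 * (x 0) ^ 2) + ((x 0) ^ 2 * ‖x‖ ^ 2 + -1 * (x 0) ^ 4)

noncomputable def u (x : E6) : ℝ := 1 / 6 * h (‖x‖ ^ 2) + -1 * P x

theorem P_eq (x : E6) : P x = (1 + (x 0) ^ 2) * (‖x‖ ^ 2 - (x 0) ^ 2) := by unfold P; ring

theorem cd_normsq {k : WithTop ℕ∞} : ContDiff ℝ k (fun x : E6 => ‖x‖ ^ 2) := contDiff_id.norm_sq ℝ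

theorem cd_pow {k : WithTop ℕ∞} (m : ℕ) : ContDiff ℝ k (fun x : E6 => (x 0) ^ m) :=
  (contDiff_coord 0).pow m

theorem P_smooth {k : WithTop ℕ∞} : ContDiff ℝ k P := by
  unfold P
  exact (cd_normsq.add (contDiff_const.mul (cd_pow 2))).add
    (((cd_pow 2).mul cd_normsq).add (contDiff_const.mul (cd_pow 4)))

theorem hr_smooth {g : ℝ → ℝ} (hg : ContDiff ℝ ∞ g) : ContDiff ℝ ∞ (fun x : E6 => g (‖x‖ ^ 2)) :=
  hg.comp cd_normsq

theorem u_smooth : ContDiff ℝ ∞ u := by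
  unfold u
  exact (contDiff_const.mul (hr_smooth h_smooth)).add (contDiff_const.mul P_smooth)

theorem lap_pow (m : ℕ) (x : E6) : (Δ (fun x : E6 => (x 0) ^ m)) x = deriv (deriv (fun t : ℝ => t ^ m)) (x 0) :=
  lapN_fun_coord (f := fun t : ℝ => t ^ m) 0 (contDiff_id.pow m).contDiffAt

theorem lap_pow2 (x : E6) : (Δ (fun x : E6 => (x 0) ^ 2)) x = 2 := by
  rw [lap_pow]
  have : deriv (fun t : ℝ => t ^ 2) = fun t => 2 * t := by
    funext t; simpa using (hasDerivAt_pow 2 t).deriv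
  rw [this]
  simpa using ((hasDerivAt_id (x 0)).const_mul (2:ℝ)).deriv

theorem lap_pow4 (x : E6) : (Δ (fun x : E6 => (x 0) ^ 4)) x = 12 * (x 0) ^ 2 := by
  rw [lap_pow]
  have : deriv (fun t : ℝ => t ^ 4) = fun t => 4 * t ^ 3 := by
    funext t; simpa using (hasDerivAt_pow 4 t).deriv
  rw [this]
  have h2 := ((hasDerivAt_pow 3 (x 0)).const_mul (4:ℝ)).deriv
  refine h2.trans ?_
  norm_num
  ring

theorem gdot_prod (x : E6) : gdot (fun x : E6 => (x 0) ^ 2) (fun x : E6 => ‖x‖ ^ 2) x = 4 * (x 0) ^ 2 := by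
  unfold gdot
  have h1 : ∀ v : E6, fderiv ℝ (fun x : E6 => (x 0) ^ 2) x v = 2 * x 0 * v 0 := by
    intro v
    have h3 : HasFDerivAt (fun y : E6 => y 0)
        (EuclideanSpace.proj (𝕜 := ℝ) 0 : E6 →L[ℝ] ℝ) x :=
      (EuclideanSpace.proj (𝕜 := ℝ) 0 : E6 →L[ℝ] ℝ).hasFDerivAt
    rw [(h3.pow 2).fderiv]
    simp
  simp only [h1, fderiv_normsq, inner_ev]
  rw [Finset.sum_eq_single 0]
  · simp [ev]; ring
  · intro j _ hj
    simp [ev, Ne.symm hj]
  · intro hh; exact absurd (Finset.mem_univ _) hh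

theorem lap_P : (Δ P) = fun x : E6 => (10 + 2 * ‖x‖ ^ 2) + 8 * (x 0) ^ 2 := by
  funext x
  have c2 : ∀ {f : E6 → ℝ}, ContDiff ℝ 2 f → ContDiffAt ℝ 2 f x := fun h => h.contDiffAt
  have h1 : (Δ P) x = (Δ (fun x : E6 => (‖x‖ ^ 2 + -1 * (x 0) ^ 2 : ℝ))) x +
      (Δ (fun x : E6 => ((x 0) ^ 2 * ‖x‖ ^ 2 + -1 * (x 0) ^ 4 : ℝ))) x :=
    lapN_add (c2 (cd_normsq.add (contDiff_const.mul (cd_pow 2))))
      (c2 (((cd_pow 2).mul cd_normsq).add (contDiff_const.mul (cd_pow 4))))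
  rw [h1, lapN_add (c2 cd_normsq) (c2 (contDiff_const.mul (cd_pow 2))),
    lapN_add (c2 ((cd_pow 2).mul cd_normsq)) (c2 (contDiff_const.mul (cd_pow 4))),
    lapN_const_mul _ (c2 (cd_pow 2)), lapN_const_mul _ (c2 (cd_pow 4)),
    lapN_mul (c2 (cd_pow 2)) (c2 cd_normsq), gdot_prod, lapN_normsq, lap_pow2, lap_pow4]
  push_cast
  ring

theorem lap_lap_P : (Δ (Δ P)) = fun _ : E6 => 40 := by
  rw [lap_P]
  funext x
  have c2 : ∀ {f : E6 → ℝ}, ContDiff ℝ 2 f → ContDiffAt ℝ 2 f x := fun h => h.contDiffAt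
  rw [lapN_add (c2 (contDiff_const.add (contDiff_const.mul cd_normsq)))
    (c2 (contDiff_const.mul (cd_pow 2))), lapN_add (c2 contDiff_const) (c2 (contDiff_const.mul cd_normsq)),
    lapN_const, lapN_const_mul _ (c2 cd_normsq), lapN_const_mul _ (c2 (cd_pow 2)), lapN_normsq, lap_pow2]
  norm_num

theorem lap_comb {g : ℝ → ℝ} (hg : ContDiff ℝ ∞ g) {Q : E6 → ℝ} (hQ : ContDiff ℝ ∞ Q) :
    (Δ (fun x : E6 => 1 / 6 * g (‖x‖ ^ 2) + -1 * Q x)) =
      fun x : E6 => 1 / 6 * (Lr 6 g) (‖x‖ ^ 2) + -1 * (Δ Q) x := by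
  funext x
  have c2 : ∀ {f : E6 → ℝ}, ContDiff ℝ ∞ f → ContDiffAt ℝ 2 f x := fun h =>
    (h.of_le ENat.LEInfty.out : ContDiff ℝ 2 _).contDiffAt
  rw [lapN_add (c2 (contDiff_const.mul (hr_smooth hg))) (c2 (contDiff_const.mul hQ)),
    lapN_const_mul _ (c2 (hr_smooth hg)), lapN_const_mul _ (c2 hQ), lapN_radial' hg]

theorem lap3_u : (Δ (Δ (Δ u))) = fun x : E6 => 1 / 6 * (Lr 6 (Lr 6 (Lr 6 h))) (‖x‖ ^ 2) := by
  have h1 : (Δ u) = fun x : E6 => 1 / 6 * (Lr 6 h) (‖x‖ ^ 2) + -1 * (Δ P) x :=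
    lap_comb h_smooth P_smooth
  have hP1 : ContDiff ℝ ∞ (Δ P) := by
    rw [lap_P]
    exact (contDiff_const.add (contDiff_const.mul cd_normsq)).add (contDiff_const.mul (cd_pow 2))
  rw [h1, lap_comb (contDiff_Lr h_smooth) hP1]
  have hP2 : ContDiff ℝ ∞ (Δ (Δ P)) := by rw [lap_lap_P]; exact contDiff_const
  rw [lap_comb (contDiff_Lr (contDiff_Lr h_smooth)) hP2]
  funext x
  rw [lap_lap_P, lapN_const]
  ring

noncomputable def V (x : E6) : ℝ := -(1 / 6 * (Lr 6 (Lr 6 (Lr 6 h))) (‖x‖ ^ 2)) * Real.exp (-(6 * u x))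

theorem V_cont : Continuous V := by
  unfold V
  have h1 := (hr_smooth (contDiff_Lr (n := 6) (contDiff_Lr (n := 6) (contDiff_Lr (n := 6) h_smooth)))).continuous
  exact (continuous_const.mul h1).neg.mul (Real.continuous_exp.comp (continuous_const.mul u_smooth.continuous).neg)

theorem V_supp : HasCompactSupport V := by
  apply HasCompactSupport.intro (isCompact_closedBall (0 : E6) 1)
  intro x hx
  rw [mem_closedBall_zero_iff, not_le] at hx
  unfold V
  rw [Lr_zero (by nlinarith)]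
  simp

theorem eqn (x : E6) : -(Δ (Δ (Δ u))) x = V x * Real.exp (6 * u x) := by
  rw [lap3_u, V, mul_assoc, ← Real.exp_add]
  simp

theorem maj : Integrable (fun p : ℝ × (Fin 5 → ℝ) =>
    (1 + p.1 ^ 2) * ∏ i, Real.exp (-(5 * (1 + p.1 ^ 2)) * (p.2 i) ^ 2)) (volume.prod volume) := by
  have hc : Continuous (fun p : ℝ × (Fin 5 → ℝ) =>
    (1 + p.1 ^ 2) * ∏ i, Real.exp (-(5 * (1 + p.1 ^ 2)) * (p.2 i) ^ 2)) := by fun_prop
  rw [integrable_prod_iff hc.aestronglyMeasurable]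
  constructor
  · refine ae_of_all _ fun s => ?_
    have := Integrable.fintype_prod (f := fun (_ : Fin 5) (v : ℝ) => Real.exp (-(5 * (1 + s ^ 2)) * v ^ 2))
      (fun _ => integrable_exp_neg_mul_sq (by positivity))
    exact this.const_mul (1 + s ^ 2)
  · have e : (fun s : ℝ => ∫ y : Fin 5 → ℝ, ‖(1 + s ^ 2) * ∏ i, Real.exp (-(5 * (1 + s ^ 2)) * (y i) ^ 2)‖) =
        fun s => (1 + s ^ 2) * (Real.sqrt (Real.pi / (5 * (1 + s ^ 2)))) ^ 5 := by
      funext s
      have e1 : (fun y : Fin 5 → ℝ => ‖(1 + s ^ 2) * ∏ i, Real.exp (-(5 * (1 + s ^ 2)) * (y i) ^ 2)‖) =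
          fun y => (1 + s ^ 2) * ∏ i, Real.exp (-(5 * (1 + s ^ 2)) * (y i) ^ 2) := by
        funext y
        exact Real.norm_of_nonneg (mul_nonneg (by positivity) (Finset.prod_nonneg fun i _ => (Real.exp_pos _).le))
      rw [e1, integral_const_mul, integral_fintype_prod_volume_eq_pow
        (fun v : ℝ => Real.exp (-(5 * (1 + s ^ 2)) * v ^ 2)), integral_gaussian]
      rfl
    have e' : (fun x : ℝ => ∫ y : Fin 5 → ℝ, ‖(fun p : ℝ × (Fin 5 → ℝ) =>
        (1 + p.1 ^ 2) * ∏ i, Real.exp (-(5 * (1 + p.1 ^ 2)) * (p.2 i) ^ 2)) (x, y)‖) =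
        fun s => (1 + s ^ 2) * (Real.sqrt (Real.pi / (5 * (1 + s ^ 2)))) ^ 5 := e
    rw [e']
    refine Integrable.mono' (integrable_inv_one_add_sq.const_mul ((Real.pi / 5) ^ 2 * Real.sqrt (Real.pi / 5)))
      ?_ ?_
    · apply Continuous.aestronglyMeasurable
      apply Continuous.mul (by fun_prop)
      apply Continuous.pow
      apply Real.continuous_sqrt.comp
      apply continuous_const.div (by fun_prop)
      intro s; positivity
    · refine ae_of_all _ fun s => ?_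
      rw [Real.norm_of_nonneg (by positivity)]
      have ha : 1 ≤ 1 + s ^ 2 := by nlinarith [sq_nonneg s]
      set a := 1 + s ^ 2
      have ha0 : 0 < a := by linarith
      have h1 : Real.sqrt (Real.pi / (5 * a)) ^ 2 = Real.pi / (5 * a) := Real.sq_sqrt (by positivity)
      have h2 : Real.sqrt (Real.pi / (5 * a)) ≤ Real.sqrt (Real.pi / 5) := by
        apply Real.sqrt_le_sqrt
        apply div_le_div_of_nonneg_left Real.pi_pos.le (by norm_num) (by linarith)
      have h3 : Real.sqrt (Real.pi / (5 * a)) ^ 5 = (Real.pi / (5 * a)) ^ 2 * Real.sqrt (Real.pi / (5 * a)) := by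
        calc Real.sqrt (Real.pi / (5 * a)) ^ 5 =
            (Real.sqrt (Real.pi / (5 * a)) ^ 2) ^ 2 * Real.sqrt (Real.pi / (5 * a)) := by ring
          _ = _ := by rw [h1]
      rw [h3]
      calc a * ((Real.pi / (5 * a)) ^ 2 * Real.sqrt (Real.pi / (5 * a)))
          ≤ a * ((Real.pi / (5 * a)) ^ 2 * Real.sqrt (Real.pi / 5)) := by gcongr
        _ = (Real.pi / 5) ^ 2 * Real.sqrt (Real.pi / 5) * a⁻¹ := by field_simp

theorem integ : Integrable (fun x : E6 => Real.exp (6 * u x)) := by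
  rw [← (PiLp.volume_preserving_toLp (Fin 6)).integrable_comp_emb
    (MeasurableEquiv.toLp 2 _).measurableEmbedding]
  rw [← ((volume_preserving_piFinSuccAbove (fun _ : Fin 6 => ℝ) 0).symm _).integrable_comp_emb
    (MeasurableEquiv.measurableEmbedding _)]
  refine Integrable.mono' maj ?_ ?_
  · apply AEStronglyMeasurable.comp_measurable _ (MeasurableEquiv.measurable _)
    apply AEStronglyMeasurable.comp_measurable _ (MeasurableEquiv.toLp 2 _).measurable
    exact (Real.continuous_exp.comp (continuous_const.mul u_smooth.continuous)).aestronglyMeasurable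
  · refine ae_of_all _ fun p => ?_
    obtain ⟨s, y⟩ := p
    simp only [Function.comp]
    rw [Real.norm_of_nonneg (Real.exp_pos _).le]
    set x : E6 := WithLp.toLp 2 ((MeasurableEquiv.piFinSuccAbove (fun _ : Fin 6 => ℝ) 0).symm (s, y)) with hx
    have hx0 : x 0 = s := by simp [hx, MeasurableEquiv.piFinSuccAbove_symm_apply]
    have hxn : ‖x‖ ^ 2 = s ^ 2 + ∑ i, y i ^ 2 := by
      rw [EuclideanSpace.norm_sq_eq, Fin.sum_univ_succ]
      congr 1
      · rw [hx0]; simp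
      · apply Finset.sum_congr rfl
        intro i _
        have : x i.succ = y i := by
          simp [hx, MeasurableEquiv.piFinSuccAbove_symm_apply]
        rw [this]; simp
    have hY : 0 ≤ ∑ i, y i ^ 2 := Finset.sum_nonneg fun i _ => sq_nonneg _
    set Y := ∑ i, y i ^ 2 with hYd
    have e1 : 6 * u x = h (s ^ 2 + Y) - 6 * ((1 + s ^ 2) * Y) := by
      rw [u, P_eq, hx0, hxn]; ring
    have e2 : ∏ i, Real.exp (-(5 * (1 + s ^ 2)) * (y i) ^ 2) = Real.exp (-(5 * (1 + s ^ 2)) * Y) := by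
      rw [← Real.exp_sum, hYd, Finset.mul_sum]
    rw [e1, e2, Real.exp_sub]
    have e3 : Real.exp (h (s ^ 2 + Y)) ≤ (1 + s ^ 2) * Real.exp ((1 + s ^ 2) * Y) := by
      calc Real.exp (h (s ^ 2 + Y)) ≤ Real.exp (Real.log (1 + (s ^ 2 + Y))) :=
            Real.exp_le_exp.2 (h_le (by positivity))
        _ = 1 + (s ^ 2 + Y) := Real.exp_log (by positivity)
        _ ≤ (1 + s ^ 2) * (1 + Y) := by nlinarith [mul_nonneg (sq_nonneg s) hY]
        _ ≤ (1 + s ^ 2) * Real.exp ((1 + s ^ 2) * Y) := by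
            apply mul_le_mul_of_nonneg_left _ (by positivity)
            have := Real.add_one_le_exp ((1 + s ^ 2) * Y)
            nlinarith [mul_nonneg (sq_nonneg s) hY]
    rw [div_le_iff₀ (Real.exp_pos _)]
    refine e3.trans (le_of_eq ?_)
    rw [mul_assoc, ← Real.exp_add]
    congr 2
    ring

theorem unbounded (M : ℝ) : ∃ x : E6, M < u x := by
  set r := Real.exp (|3 * M| + 1) with hr
  have hr1 : 1 ≤ r := Real.one_le_exp (by positivity)
  refine ⟨r • ev 0, ?_⟩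
  have h0 : (r • ev (n := 6) 0 : E6) 0 = r := by simp [ev]
  have hn : ‖(r • ev (n := 6) 0 : E6)‖ ^ 2 = r ^ 2 := by
    rw [norm_smul, Real.norm_of_nonneg (by linarith)]; simp [ev]
  rw [u, P_eq, h0, hn, sub_self, mul_zero, mul_zero, add_zero, h_eq (by nlinarith), Real.log_pow,
    hr, Real.log_exp]
  push_cast
  have := le_abs_self (3 * M)
  linarith

end Q61.M885
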