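import Pool.Agent.Q61.Rad8

set_option autoImplicit false

open MeasureTheory Topology Filter Set
open scoped ContDiff

namespace Q61.MP8a

open Q61.Rad

/-- the shell polynomial -/
noncomputable def pp (j : ℕ) (r : ℝ) : ℝ := (1 - r ^ 2) ^ 2 * (1 + r ^ 2) ^ j

theorem pp_cont (j : ℕ) : Continuous (pp j) := by unfold pp; fun_prop

theorem pp_nonneg (j : ℕ) (r : ℝ) : 0 ≤ pp j r := by unfold pp; positivity

theorem pp_ge (j : ℕ) {r : ℝ} (hr : 0 ≤ r) : (r - 1) ^ 2 * (1 + r ^ 2) ≤ pp j r := by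
  unfold pp
  have h1 : (1:ℝ) ≤ (1 + r ^ 2) ^ j := one_le_pow₀ (by nlinarith)
  have h2 : (1 - r ^ 2) ^ 2 = (r - 1) ^ 2 * (1 + r) ^ 2 := by ring
  have h3 : (1 + r ^ 2) ≤ (1 + r) ^ 2 := by nlinarith
  calc (r - 1) ^ 2 * (1 + r ^ 2) ≤ (r - 1) ^ 2 * (1 + r) ^ 2 := mul_le_mul_of_nonneg_left h3 (sq_nonneg _)
    _ = (1 - r ^ 2) ^ 2 * 1 := by rw [h2, mul_one]
    _ ≤ _ := mul_le_mul_of_nonneg_left h1 (sq_nonneg _)

theorem poly_exp_bdd (k : ℕ) : ∃ C, 0 < C ∧ ∀ t : ℝ, 0 ≤ t →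
    t ^ k * Real.exp (-(1 / 4) * ((t - 1) ^ 2 * (1 + t ^ 2))) ≤ C := by
  have hlim : Tendsto (fun x : ℝ => x ^ (k:ℝ) * Real.exp (-(1/4) * x)) atTop (𝓝 0) :=
    tendsto_rpow_mul_exp_neg_mul_atTop_nhds_zero _ _ (by norm_num)
  obtain ⟨R₀, hR₀⟩ := eventually_atTop.1 (hlim.eventually (gt_mem_nhds one_pos))
  set R := max R₀ 2 with hR
  have hc : Continuous fun t : ℝ => t ^ k * Real.exp (-(1 / 4) * ((t - 1) ^ 2 * (1 + t ^ 2))) := by fun_prop
  obtain ⟨C, hC⟩ := (isCompact_Icc (a := 0) (b := R)).exists_bound_of_continuousOn hc.continuousOn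
  refine ⟨max C 1, lt_max_of_lt_right one_pos, fun t ht => ?_⟩
  rcases le_total t R with h1 | h1
  · exact ((le_abs_self _).trans (hC t ⟨ht, h1⟩)).trans (le_max_left _ _)
  · refine le_trans ?_ (le_max_right _ _)
    have h2 : 2 ≤ t := (le_max_right _ _).trans h1
    have h3 := hR₀ t ((le_max_left _ _).trans h1)
    rw [Real.rpow_natCast] at h3
    have h4 : Real.exp (-(1 / 4) * ((t - 1) ^ 2 * (1 + t ^ 2))) ≤ Real.exp (-(1/4) * t) := by
      apply Real.exp_le_exp.2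
      have h5 : 1 ≤ (t - 1) ^ 2 := by nlinarith
      have h6 : t ≤ 1 + t ^ 2 := by nlinarith
      nlinarith
    calc t ^ k * Real.exp (-(1 / 4) * ((t - 1) ^ 2 * (1 + t ^ 2))) ≤ t ^ k * Real.exp (-(1/4) * t) := by gcongr
      _ ≤ 1 := h3.le

theorem gauss_bound (j k : ℕ) : ∃ C, 0 < C ∧ ∀ L : ℝ, 1 ≤ L → ∀ r, 0 ≤ r →
    ∫ t in (0:ℝ)..r, t ^ k * Real.exp (-(L / 2) * pp j t) ≤ C / Real.sqrt L := by
  obtain ⟨C₂, hC₂, hb⟩ := poly_exp_bdd k
  refine ⟨C₂ * (2 * Real.sqrt Real.pi), by positivity, fun L hL r hr => ?_⟩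
  have hL0 : 0 < L := by linarith
  have hpt : ∀ t : ℝ, 0 ≤ t → t ^ k * Real.exp (-(L / 2) * pp j t) ≤ C₂ * Real.exp (-(L / 4) * (t - 1) ^ 2) := by
    intro t ht
    have h1 := pp_ge j ht
    have h2 : Real.exp (-(L / 2) * pp j t) ≤
        Real.exp (-(1 / 4) * ((t - 1) ^ 2 * (1 + t ^ 2))) * Real.exp (-(L / 4) * (t - 1) ^ 2) := by
      rw [← Real.exp_add]
      apply Real.exp_le_exp.2
      have h3 : 0 ≤ (t - 1) ^ 2 := sq_nonneg _
      have h4 : 0 ≤ t ^ 2 := sq_nonneg _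
      have h5 : (t - 1) ^ 2 ≤ (t - 1) ^ 2 * (1 + t ^ 2) := le_mul_of_one_le_right h3 (by linarith)
      nlinarith
    calc t ^ k * Real.exp (-(L / 2) * pp j t) ≤ t ^ k *
          (Real.exp (-(1 / 4) * ((t - 1) ^ 2 * (1 + t ^ 2))) * Real.exp (-(L / 4) * (t - 1) ^ 2)) := by gcongr
      _ = (t ^ k * Real.exp (-(1 / 4) * ((t - 1) ^ 2 * (1 + t ^ 2)))) * Real.exp (-(L / 4) * (t - 1) ^ 2) := by ring
      _ ≤ _ := by gcongr; exact hb t ht
  have hppc := pp_cont j
  have hcg : Continuous fun t : ℝ => C₂ * Real.exp (-(L / 4) * (t - 1) ^ 2) := by fun_prop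
  have h1 : ∫ t in (0:ℝ)..r, t ^ k * Real.exp (-(L / 2) * pp j t) ≤
      ∫ t in (0:ℝ)..r, C₂ * Real.exp (-(L / 4) * (t - 1) ^ 2) := by
    apply intervalIntegral.integral_mono_on hr
    · exact (by fun_prop : Continuous fun t => t ^ k * Real.exp (-(L / 2) * pp j t)).intervalIntegrable _ _
    · exact hcg.intervalIntegrable _ _
    · exact fun t ht => hpt t ht.1
  have hint : Integrable fun t : ℝ => C₂ * Real.exp (-(L / 4) * (t - 1) ^ 2) := by
    have := (integrable_exp_neg_mul_sq (b := L / 4) (by positivity)).comp_sub_right 1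
    exact this.const_mul C₂
  have h2 : ∫ t in (0:ℝ)..r, C₂ * Real.exp (-(L / 4) * (t - 1) ^ 2) ≤ ∫ t, C₂ * Real.exp (-(L / 4) * (t - 1) ^ 2) := by
    rw [intervalIntegral.integral_of_le hr]
    exact setIntegral_le_integral hint (ae_of_all _ fun t => by positivity)
  have h3 : ∫ t, C₂ * Real.exp (-(L / 4) * (t - 1) ^ 2) = C₂ * Real.sqrt (Real.pi / (L / 4)) := by
    rw [integral_const_mul, integral_sub_right_eq_self (fun t : ℝ => Real.exp (-(L / 4) * t ^ 2)) 1, integral_gaussian]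
  have h4 : Real.sqrt (Real.pi / (L / 4)) = 2 * Real.sqrt Real.pi / Real.sqrt L := by
    rw [show Real.pi / (L / 4) = (2 ^ 2 * Real.pi) / L by field_simp; ring, Real.sqrt_div (by positivity),
      Real.sqrt_mul (by positivity), Real.sqrt_sq (by norm_num)]
  rw [h3, h4] at h2
  calc _ ≤ _ := h1
    _ ≤ _ := h2
    _ = _ := by ring

/-- iterates of a monotone function -/
theorem iter_le_mono (k : ℕ) {h : ℝ → ℝ} (hc : Continuous h) (hm : ∀ s t, 0 ≤ s → s ≤ t → h s ≤ h t)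
    (h0 : ∀ t, 0 ≤ t → 0 ≤ h t) (i : ℕ) : ∀ r, 0 ≤ r → (I k)^[i] h r ≤ r ^ (2 * i) * h r := by
  induction i with
  | zero => intro r _; simp
  | succ i ih =>
    intro r hr
    rw [Function.iterate_succ_apply']
    have h1 := I_mono k (iter_cont k hc i) continuous_const hr (g := fun _ => r ^ (2 * i) * h r) fun t a b => by
      refine (ih t a).trans ?_
      exact mul_le_mul (pow_le_pow_left₀ a b _) (hm t r a b) (h0 t a) (by positivity)
    rw [I_const] at h1
    refine h1.trans ?_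
    have h2 : 0 ≤ r ^ (2 * i) * h r := mul_nonneg (by positivity) (h0 r hr)
    rw [div_le_iff₀ (by positivity), show 2 * (i + 1) = 2 * i + 2 by ring, pow_add]
    have h3 : (1:ℝ) ≤ (k + 1) * 2 := by
      have : (0:ℝ) ≤ k := by positivity
      linarith
    have h4 : 0 ≤ r ^ (2 * i) * h r * r ^ 2 := by positivity
    calc r ^ (2 * i) * h r * r ^ 2 = (r ^ (2 * i) * h r * r ^ 2) * 1 := (mul_one _).symm
      _ ≤ (r ^ (2 * i) * h r * r ^ 2) * ((k + 1) * 2) := mul_le_mul_of_nonneg_left h3 h4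
      _ = _ := by ring

/-- bound of `I² g` for a density concentrated in `r ≥ a`, `a ∈ [1/2,1]`, with total mass at most `T` -/
theorem I2_bound (k : ℕ) (hk : 2 ≤ k) {g : ℝ → ℝ} (hg : Continuous g) {a ε T : ℝ}
    (ha : 1 / 2 ≤ a) (ha1 : a ≤ 1) (hε : 0 ≤ ε) (hT : 0 ≤ T) (hin : ∀ t, 0 ≤ t → t ≤ a → g t ≤ ε)
    (hmass : ∀ r, 0 ≤ r → r ^ (k + 1) * A k g r ≤ T) {r : ℝ} (hr : 0 ≤ r) :
    I k (I k g) r ≤ ε * r ^ 2 + 2 ^ k * T * max (r ^ 2 - a ^ 2) 0 := by
  have ha0 : 0 < a := by linarith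
  have hk1 : (1:ℝ) ≤ k + 1 := by have : (0:ℝ) ≤ k := by positivity
                                 linarith
  have hIc := I_cont k hg
  have f1 : ∀ s, 0 ≤ s → s ≤ a → I k g s ≤ ε := by
    intro s h0 h1
    have h2 := I_mono k hg continuous_const h0 (g := fun _ => ε) fun t b c => hin t b (c.trans h1)
    rw [I_const] at h2
    refine h2.trans ?_
    rw [div_le_iff₀ (by positivity)]
    have h3 : s ^ 2 ≤ 1 := pow_le_one₀ h0 (h1.trans ha1)
    have h4 : ε * s ^ 2 ≤ ε * 1 := mul_le_mul_of_nonneg_left h3 hε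
    nlinarith
  have f2 : ∀ s, 0 ≤ s → I k g s ≤ ε + 2 ^ k * T := by
    intro s h0
    rcases le_total s a with h1 | h1
    · have := f1 s h0 h1
      have : 0 ≤ 2 ^ k * T := by positivity
      linarith
    · have h2 := incr_le (F := I k g) (G := fun t => -(T * 2 ^ (k - 2)) * t⁻¹)
        (F' := fun t => t * A k g t) (G' := fun t => -(T * 2 ^ (k - 2)) * -(t ^ 2)⁻¹) h1
        (fun t _ => I_hasDeriv k hg t) (fun t ht => by
          have : t ≠ 0 := by have : 0 < t := by linarith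
                             exact this.ne'
          exact (hasDerivAt_inv this).const_mul _) (fun t ht => by
          have ht0 : 0 < t := by linarith
          have h3 := hmass t ht0.le
          obtain ⟨q, rfl⟩ : ∃ q, k = q + 2 := ⟨k - 2, by omega⟩
          rw [show q + 2 - 2 = q by omega]
          have h4 : 1 ≤ 2 ^ q * t ^ q := by
            rw [← mul_pow]; exact one_le_pow₀ (by linarith)
          have h5 : -(T * 2 ^ q) * -(t ^ 2)⁻¹ = T * 2 ^ q / t ^ 2 := by rw [div_eq_mul_inv]; ring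
          rw [h5, le_div_iff₀ (by positivity)]
          have h6 : t ^ q * (t * A (q + 2) g t * t ^ 2) ≤ t ^ q * (T * 2 ^ q) := by
            calc t ^ q * (t * A (q + 2) g t * t ^ 2) = t ^ (q + 2 + 1) * A (q + 2) g t := by ring
              _ ≤ T := h3
              _ = T * 1 := (mul_one T).symm
              _ ≤ T * (2 ^ q * t ^ q) := mul_le_mul_of_nonneg_left h4 hT
              _ = _ := by ring
          exact le_of_mul_le_mul_left h6 (by positivity))
      have h3 := f1 a ha0.le le_rfl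
      have h4 : 0 ≤ T * 2 ^ (k - 2) * s⁻¹ := by
        have : 0 < s := by linarith
        positivity
      have h5 : T * 2 ^ (k - 2) * a⁻¹ ≤ 2 ^ k * T := by
        have h6 : a⁻¹ ≤ 2 := by
          rw [inv_le_comm₀ ha0 (by norm_num)]; linarith
        obtain ⟨q, rfl⟩ : ∃ q, k = q + 2 := ⟨k - 2, by omega⟩
        rw [show q + 2 - 2 = q by omega]
        calc T * 2 ^ q * a⁻¹ ≤ T * 2 ^ q * 4 := mul_le_mul_of_nonneg_left (by linarith) (by positivity)
          _ = _ := by ring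
      linarith
  -- averages of `I g`
  have g1 : ∀ s, 0 ≤ s → s ≤ a → A k (I k g) s ≤ ε := by
    intro s h0 h1
    have h2 := A_mono k hIc continuous_const h0 (g := fun _ => ε) fun t b c => f1 t b (c.trans h1)
    rw [A_const] at h2
    exact h2.trans (div_le_self hε hk1)
  have g2 : ∀ s, 0 ≤ s → A k (I k g) s ≤ ε + 2 ^ k * T := by
    intro s h0
    have h2 := A_mono k hIc continuous_const h0 (g := fun _ => ε + 2 ^ k * T) fun t b c => f2 t b
    rw [A_const] at h2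
    exact h2.trans (div_le_self (by positivity) hk1)
  have hin2 : ∀ s, 0 ≤ s → s ≤ a → I k (I k g) s ≤ ε * s ^ 2 := by
    intro s h0 h1
    have h2 := I_mono k hIc continuous_const h0 (g := fun _ => ε) fun t b c => f1 t b (c.trans h1)
    rw [I_const] at h2
    refine h2.trans (div_le_self (by positivity) (by linarith))
  rcases le_total r a with h1 | h1
  · have h2 := hin2 r hr h1
    have : 0 ≤ 2 ^ k * T * max (r ^ 2 - a ^ 2) 0 := by positivity
    linarith
  · have h2 := incr_le (F := I k (I k g)) (G := fun t => (ε + 2 ^ k * T) * t ^ 2)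
      (F' := fun t => t * A k (I k g) t) (G' := fun t => (ε + 2 ^ k * T) * (((2:ℕ):ℝ) * t ^ (2 - 1))) h1
      (fun t _ => I_hasDeriv k hIc t) (fun t _ => (hasDerivAt_pow 2 t).const_mul _) (fun t ht => by
        have ht0 : 0 < t := by linarith
        have h3 := mul_le_mul_of_nonneg_left (g2 t ht0.le) ht0.le
        have h4 : 0 ≤ t * (ε + 2 ^ k * T) := by positivity
        norm_num
        linarith)
    have h3 := hin2 a ha0.le le_rfl
    have h4 : max (r ^ 2 - a ^ 2) 0 = r ^ 2 - a ^ 2 := by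
      apply max_eq_left
      nlinarith
    rw [h4]
    nlinarith

end Q61.MP8a
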