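import Pool.Agent.Q61.MP8a

set_option autoImplicit false

open MeasureTheory Topology Filter Set
open scoped ContDiff

namespace Q61.MP8a

open Q61.Rad

/-- the elementary inequality -/
theorem elem (j : ℕ) {B ε η L s : ℝ} (hB : 0 ≤ B) (hε : 0 ≤ ε) (hη : 0 ≤ η) (hη1 : η ≤ 1 / 2)
    (h1 : 2 ^ (j + 2) * ε ≤ 1 / 8) (h2 : 2 ^ (j + 1) * B * (2 * η) ≤ 1 / 8)
    (h3 : 4 * (2 ^ (j + 1) * B) ^ 2 ≤ L) (h4 : 8 * (1 + B) ≤ L) (hs : 0 ≤ s) :
    s ^ (j + 1) * (ε * s + B * max (s - (1 - η) ^ 2) 0) ≤ 1 + L / 2 * ((1 - s) ^ 2 * (1 + s) ^ j) := by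
  have hL : 0 ≤ L := by linarith
  have hp1 : (1:ℝ) ≤ 2 ^ (j + 1) := one_le_pow₀ (by norm_num)
  have hp2 : (2:ℝ) ^ (j + 2) = 2 * 2 ^ (j + 1) := by rw [pow_succ]; ring
  have hε1 : ε ≤ 1 / 8 := by nlinarith
  have hmax : max (s - (1 - η) ^ 2) 0 ≤ max (s - 1) 0 + 2 * η := by
    apply max_le
    · have := le_max_left (s - 1) 0
      nlinarith
    · have := le_max_right (s - 1) 0
      linarith
  rcases le_total s 1 with c1 | c1
  · have h5 : max (s - 1) 0 = 0 := max_eq_right (by linarith)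
    rw [h5] at hmax
    have h6 : s ^ (j + 1) ≤ 1 := pow_le_one₀ hs c1
    have h7 : ε * s + B * max (s - (1 - η) ^ 2) 0 ≤ 1 / 4 := by
      have : B * max (s - (1 - η) ^ 2) 0 ≤ B * (2 * η) := mul_le_mul_of_nonneg_left (by linarith) hB
      have h8 : B * (2 * η) ≤ 1 / 8 := by
        have : 0 ≤ B * (2 * η) := by positivity
        nlinarith
      nlinarith
    have h8 : 0 ≤ ε * s + B * max (s - (1 - η) ^ 2) 0 := by positivity
    have h9 : 0 ≤ L / 2 * ((1 - s) ^ 2 * (1 + s) ^ j) := by positivity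
    have h10 : s ^ (j + 1) * (ε * s + B * max (s - (1 - η) ^ 2) 0) ≤ 1 * (1 / 4) :=
      mul_le_mul h6 h7 h8 zero_le_one
    linarith
  · have h5 : max (s - 1) 0 = s - 1 := max_eq_left (by linarith)
    rw [h5] at hmax
    have hBm : B * max (s - (1 - η) ^ 2) 0 ≤ B * (s - 1 + 2 * η) := mul_le_mul_of_nonneg_left hmax hB
    have h8 : 0 ≤ ε * s + B * max (s - (1 - η) ^ 2) 0 := by positivity
    rcases le_total s 2 with c2 | c2
    · set P : ℝ := 2 ^ (j + 1) with hP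
      have h6 : s ^ (j + 1) ≤ P := pow_le_pow_left₀ hs c2 _
      have h7 : s ^ (j + 1) * (ε * s + B * max (s - (1 - η) ^ 2) 0) ≤ P * (ε * 2 + B * (s - 1 + 2 * η)) := by
        apply mul_le_mul h6 _ h8 (by positivity)
        nlinarith
      have h9 : (1:ℝ) ≤ (1 + s) ^ j := one_le_pow₀ (by linarith)
      have h10 : L / 2 * (1 - s) ^ 2 ≤ L / 2 * ((1 - s) ^ 2 * (1 + s) ^ j) :=
        mul_le_mul_of_nonneg_left (le_mul_of_one_le_right (sq_nonneg _) h9) (by linarith)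
      have h11 : P * B * (s - 1) ≤ 1 / 8 + 2 * (P * B) ^ 2 * (s - 1) ^ 2 := by nlinarith [sq_nonneg (P * B * (s - 1) - 1 / 4)]
      have h12 : 2 * (P * B) ^ 2 * (s - 1) ^ 2 ≤ L / 2 * (s - 1) ^ 2 :=
        mul_le_mul_of_nonneg_right (by linarith) (sq_nonneg _)
      have h13 : P * ε * 2 ≤ 1 / 8 := by rw [hp2] at h1; linarith
      have h14 : (1 - s) ^ 2 = (s - 1) ^ 2 := by ring
      rw [h14] at h10 ⊢
      calc s ^ (j + 1) * (ε * s + B * max (s - (1 - η) ^ 2) 0) ≤ P * (ε * 2 + B * (s - 1 + 2 * η)) := h7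
        _ = P * ε * 2 + P * B * (s - 1) + P * B * (2 * η) := by ring
        _ ≤ 1 / 8 + (1 / 8 + L / 2 * (s - 1) ^ 2) + 1 / 8 := by linarith
        _ ≤ _ := by linarith
    · have h6 : ε * s + B * max (s - (1 - η) ^ 2) 0 ≤ (2 * ε + 2 * B) * (s - 1) := by nlinarith
      have h7 : s ^ (j + 1) * (ε * s + B * max (s - (1 - η) ^ 2) 0) ≤ s ^ (j + 1) * ((2 * ε + 2 * B) * (s - 1)) :=
        mul_le_mul_of_nonneg_left h6 (by positivity)
      have h9 : s ^ (j + 1) * ((2 * ε + 2 * B) * (s - 1)) ≤ s ^ j * ((4 * ε + 4 * B) * (s - 1) ^ 2) := by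
        have e : s ^ (j + 1) * ((2 * ε + 2 * B) * (s - 1)) = s ^ j * ((2 * ε + 2 * B) * (s * (s - 1))) := by ring
        have e2 : (4 * ε + 4 * B) * (s - 1) ^ 2 = (2 * ε + 2 * B) * ((2 * (s - 1)) * (s - 1)) := by ring
        rw [e, e2]
        have : s ≤ 2 * (s - 1) := by linarith
        have h0 : 0 ≤ s - 1 := by linarith
        gcongr
      have h10 : s ^ j * ((4 * ε + 4 * B) * (s - 1) ^ 2) ≤ (1 + s) ^ j * (L / 2 * (s - 1) ^ 2) := by
        have : s ^ j ≤ (1 + s) ^ j := pow_le_pow_left₀ hs (by linarith) _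
        have h11 : 4 * ε + 4 * B ≤ L / 2 := by linarith
        gcongr
      have h14 : (1 - s) ^ 2 = (s - 1) ^ 2 := by ring
      rw [h14]
      calc _ ≤ _ := h7
        _ ≤ _ := h9
        _ ≤ _ := h10
        _ = L / 2 * ((s - 1) ^ 2 * (1 + s) ^ j) := by ring
        _ ≤ _ := by linarith

/-- the supersolution and its masses -/
theorem exists_super (j : ℕ) {V : ℝ} (hV : 0 < V) : ∃ c L : ℝ, 0 < L ∧
    (∀ r, (I (2 * j + 5))^[j + 3] (fun t => Real.exp (c + 1 - L / 2 * pp j t)) r ≤ 1 + L / 2 * pp j r) ∧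
    (∃ T, ∀ r, 0 ≤ r → M (2 * j + 5) (fun t => c + 1 - L / 2 * pp j t) r ≤ T) ∧
    V ≤ M (2 * j + 5) (fun t => c - L * pp j t) 2 := by
  obtain ⟨C, hC, hgauss⟩ := gauss_bound j (2 * j + 5)
  set κ : ℝ := V * Real.exp (9 * 5 ^ j) with hκ
  have hκ0 : 0 < κ := by positivity
  set T : ℝ := κ * Real.exp 1 * C with hT
  have hT0 : 0 < T := by positivity
  set B : ℝ := 2 ^ (2 * j + 5) * T with hB
  have hB0 : 0 < B := by positivity
  set η : ℝ := min (1 / 2) (1 / (16 * 2 ^ (j + 1) * B)) with hη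
  have hη0 : 0 < η := lt_min (by norm_num) (by positivity)
  have hη1 : η ≤ 1 / 2 := min_le_left _ _
  have hη2 : 2 ^ (j + 1) * B * (2 * η) ≤ 1 / 8 := by
    have h1 : η ≤ 1 / (16 * 2 ^ (j + 1) * B) := min_le_right _ _
    rw [le_div_iff₀ (by positivity)] at h1
    nlinarith
  have hlim : Tendsto (fun x : ℝ => x ^ ((1:ℝ) / 2) * Real.exp (-(η ^ 2 / 2) * x)) atTop (𝓝 0) :=
    tendsto_rpow_mul_exp_neg_mul_atTop_nhds_zero _ _ (by positivity)
  set δ : ℝ := 1 / (8 * 2 ^ (j + 2) * (κ * Real.exp 1)) with hδ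
  have hδ0 : 0 < δ := by positivity
  obtain ⟨L, hL1, hL2⟩ := ((hlim.eventually (gt_mem_nhds hδ0)).and
    (eventually_ge_atTop (max 1 (max (4 * (2 ^ (j + 1) * B) ^ 2) (8 * (1 + B)))))).exists
  have hL1' : 1 ≤ L := (le_max_left _ _).trans hL2
  have hL3 : 4 * (2 ^ (j + 1) * B) ^ 2 ≤ L := (le_max_left _ _).trans ((le_max_right _ _).trans hL2)
  have hL4 : 8 * (1 + B) ≤ L := (le_max_right _ _).trans ((le_max_right _ _).trans hL2)
  have hL0 : 0 < L := by linarith
  have hsq : 0 < Real.sqrt L := Real.sqrt_pos.2 hL0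
  rw [← Real.sqrt_eq_rpow] at hL1
  set c : ℝ := Real.log (κ * Real.sqrt L) with hc
  have hexpc : Real.exp c = κ * Real.sqrt L := Real.exp_log (by positivity)
  set g : ℝ → ℝ := fun t => Real.exp (c + 1 - L / 2 * pp j t) with hg
  have hppc := pp_cont j
  have hgc : Continuous g := by rw [hg]; fun_prop
  have hgform : ∀ t, g t = (κ * Real.sqrt L * Real.exp 1) * Real.exp (-(L / 2) * pp j t) := by
    intro t
    rw [← hexpc, ← Real.exp_add, ← Real.exp_add]
    show Real.exp (c + 1 - L / 2 * pp j t) = _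
    congr 1; ring
  set ε : ℝ := κ * Real.sqrt L * Real.exp 1 * Real.exp (-(η ^ 2 / 2) * L) with hε
  have hε0 : 0 ≤ ε := by positivity
  have hε1 : 2 ^ (j + 2) * ε ≤ 1 / 8 := by
    have h1 : Real.sqrt L * Real.exp (-(η ^ 2 / 2) * L) * (8 * 2 ^ (j + 2) * (κ * Real.exp 1)) < 1 := by
      rw [← lt_div_iff₀ (by positivity)]; exact hL1
    have h2 : 8 * (2 ^ (j + 2) * ε) = Real.sqrt L * Real.exp (-(η ^ 2 / 2) * L) * (8 * 2 ^ (j + 2) * (κ * Real.exp 1)) := by
      rw [hε]; ring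
    linarith
  have hmassT : ∀ r, 0 ≤ r → M (2 * j + 5) (fun t => c + 1 - L / 2 * pp j t) r ≤ T := by
    intro r hr
    have h1 := hgauss L hL1' r hr
    have h2 : M (2 * j + 5) (fun t => c + 1 - L / 2 * pp j t) r =
        (κ * Real.sqrt L * Real.exp 1) * ∫ t in (0:ℝ)..r, t ^ (2 * j + 5) * Real.exp (-(L / 2) * pp j t) := by
      unfold M
      rw [← intervalIntegral.integral_const_mul]
      congr 1
      funext t
      have := hgform t
      simp only [hg] at this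
      rw [this]; ring
    rw [h2]
    calc _ ≤ (κ * Real.sqrt L * Real.exp 1) * (C / Real.sqrt L) := mul_le_mul_of_nonneg_left h1 (by positivity)
      _ = T := by rw [hT]; field_simp
  have hpos : ∀ r, 0 ≤ r → (I (2 * j + 5))^[j + 3] g r ≤ 1 + L / 2 * pp j r := by
    intro r hr
    set a : ℝ := 1 - η with ha
    have ha2 : 1 / 2 ≤ a := by rw [ha]; linarith
    have ha1 : a ≤ 1 := by rw [ha]; linarith
    have hin : ∀ t, 0 ≤ t → t ≤ a → g t ≤ ε := by
      intro t ht hta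
      rw [hgform, hε]
      apply mul_le_mul_of_nonneg_left _ (by positivity)
      apply Real.exp_le_exp.2
      have h1 : η ≤ 1 - t ^ 2 := by nlinarith
      have h2 : η ^ 2 ≤ (1 - t ^ 2) ^ 2 := pow_le_pow_left₀ hη0.le h1 2
      have h3 : (1 - t ^ 2) ^ 2 ≤ pp j t := by
        unfold pp
        exact le_mul_of_one_le_right (sq_nonneg _) (one_le_pow₀ (by nlinarith))
      nlinarith
    have hm : ∀ r, 0 ≤ r → r ^ (2 * j + 5 + 1) * A (2 * j + 5) g r ≤ T := by
      intro r hr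
      have := hmassT r hr
      rw [M_eq] at this
      exact this
    have h2 := fun t (ht : 0 ≤ t) => I2_bound (2 * j + 5) (by omega) hgc ha2 ha1 hε0 hT0.le hin hm ht
    set h : ℝ → ℝ := fun t => ε * t ^ 2 + 2 ^ (2 * j + 5) * T * max (t ^ 2 - a ^ 2) 0 with hh
    have hhc : Continuous h := by rw [hh]; fun_prop
    have h3 : (I (2 * j + 5))^[j + 3] g r = (I (2 * j + 5))^[j + 1] (I (2 * j + 5) (I (2 * j + 5) g)) r := by
      rw [show j + 3 = (j + 1) + 2 by ring, Function.iterate_add_apply]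
      rfl
    rw [h3]
    have h4 := iter_mono (2 * j + 5) (I_cont _ (I_cont _ hgc)) hhc (r := r) (j + 1) (fun t b _ => h2 t b) r hr le_rfl
    have h5 := iter_le_mono (2 * j + 5) hhc (fun s t hs hst => by
      show ε * s ^ 2 + 2 ^ (2 * j + 5) * T * max (s ^ 2 - a ^ 2) 0 ≤ ε * t ^ 2 + 2 ^ (2 * j + 5) * T * max (t ^ 2 - a ^ 2) 0
      have : s ^ 2 ≤ t ^ 2 := pow_le_pow_left₀ hs hst 2
      gcongr) (fun t _ => by
        show 0 ≤ ε * t ^ 2 + 2 ^ (2 * j + 5) * T * max (t ^ 2 - a ^ 2) 0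
        positivity) (j + 1) r hr
    have h6 := elem j hB0.le hε0 hη0.le hη1 hε1 hη2 hL3 hL4 (sq_nonneg r)
    calc _ ≤ _ := h4
      _ ≤ _ := h5
      _ = (r ^ 2) ^ (j + 1) * (ε * r ^ 2 + B * max (r ^ 2 - (1 - η) ^ 2) 0) := by rw [← pow_mul]
      _ ≤ _ := h6
  refine ⟨c, L, hL0, ?_, ⟨T, hmassT⟩, ?_⟩
  · intro r
    rcases le_total 0 r with h0 | h0
    · exact hpos r h0
    · have h1 := hpos (-r) (by linarith)
      have he : ∀ t, g (-t) = g t := fun t => by
        show Real.exp (c + 1 - L / 2 * pp j (-t)) = Real.exp (c + 1 - L / 2 * pp j t)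
        unfold pp; rw [neg_sq]
      rw [iter_even (2 * j + 5) he] at h1
      have h2 : pp j (-r) = pp j r := by unfold pp; rw [neg_sq]
      rw [h2] at h1
      exact h1
  · -- lower bound of the mass
    set b : ℝ := 1 + 1 / Real.sqrt L with hb
    have hb1 : 1 ≤ b := by rw [hb]; have : 0 < 1 / Real.sqrt L := by positivity
                           linarith
    have hsq1 : 1 ≤ Real.sqrt L := by rw [← Real.sqrt_one]; exact Real.sqrt_le_sqrt hL1'
    have hb2 : b ≤ 2 := by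
      rw [hb]
      have : 1 / Real.sqrt L ≤ 1 := by rw [div_le_one hsq]; exact hsq1
      linarith
    have hcu : Continuous fun t => c - L * pp j t := by fun_prop
    have hcM : Continuous fun t => t ^ (2 * j + 5) * Real.exp (c - L * pp j t) := by fun_prop
    have h1 : M (2 * j + 5) (fun t => c - L * pp j t) b ≤ M (2 * j + 5) (fun t => c - L * pp j t) 2 :=
      M_mono _ hcu (by linarith) hb2
    refine le_trans ?_ h1
    have h2 : M (2 * j + 5) (fun t => c - L * pp j t) b - M (2 * j + 5) (fun t => c - L * pp j t) 1 =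
        ∫ t in (1:ℝ)..b, t ^ (2 * j + 5) * Real.exp (c - L * pp j t) :=
      intervalIntegral.integral_interval_sub_left (hcM.intervalIntegrable _ _) (hcM.intervalIntegrable _ _)
    have h3 : 0 ≤ M (2 * j + 5) (fun t => c - L * pp j t) 1 := M_nonneg _ hcu zero_le_one
    have h4 : ∫ _t in (1:ℝ)..b, κ * Real.sqrt L * Real.exp (-(9 * 5 ^ j)) ≤
        ∫ t in (1:ℝ)..b, t ^ (2 * j + 5) * Real.exp (c - L * pp j t) := by
      apply intervalIntegral.integral_mono_on hb1 intervalIntegrable_const (hcM.intervalIntegrable _ _)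
      intro t ht
      have ht1 := ht.1
      have ht2 : t ≤ 2 := ht.2.trans hb2
      have h5 : L * (t - 1) ^ 2 ≤ 1 := by
        have h6 : t - 1 ≤ 1 / Real.sqrt L := by have := ht.2; rw [hb] at this; linarith
        have h7 : (t - 1) ^ 2 ≤ (1 / Real.sqrt L) ^ 2 := pow_le_pow_left₀ (by linarith) h6 2
        rw [div_pow, Real.sq_sqrt hL0.le, one_pow, le_div_iff₀ hL0] at h7
        linarith
      have h6 : pp j t ≤ 9 * (t - 1) ^ 2 * 5 ^ j := by
        unfold pp
        have e : (1 - t ^ 2) ^ 2 = (t - 1) ^ 2 * (t + 1) ^ 2 := by ring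
        have h7 : (t + 1) ^ 2 ≤ 9 := by nlinarith
        have h8 : (1 + t ^ 2) ^ j ≤ 5 ^ j := pow_le_pow_left₀ (by positivity) (by nlinarith) _
        rw [e]
        calc (t - 1) ^ 2 * (t + 1) ^ 2 * (1 + t ^ 2) ^ j ≤ (t - 1) ^ 2 * 9 * 5 ^ j := by gcongr
          _ = _ := by ring
      have h7 : L * pp j t ≤ 9 * 5 ^ j := by
        calc L * pp j t ≤ L * (9 * (t - 1) ^ 2 * 5 ^ j) := mul_le_mul_of_nonneg_left h6 hL0.le
          _ = (L * (t - 1) ^ 2) * (9 * 5 ^ j) := by ring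
          _ ≤ 1 * (9 * 5 ^ j) := mul_le_mul_of_nonneg_right h5 (by positivity)
          _ = _ := one_mul _
      have h8 : κ * Real.sqrt L * Real.exp (-(9 * 5 ^ j)) ≤ Real.exp (c - L * pp j t) := by
        rw [← hexpc, ← Real.exp_add]
        exact Real.exp_le_exp.2 (by linarith)
      refine h8.trans (le_mul_of_one_le_left (Real.exp_pos _).le (one_le_pow₀ ht1))
    rw [intervalIntegral.integral_const, smul_eq_mul] at h4
    have h5 : (b - 1) * (κ * Real.sqrt L * Real.exp (-(9 * 5 ^ j))) = V := by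
      rw [hb, hκ, Real.exp_neg]
      field_simp
      ring
    linarith

end Q61.MP8a
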