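import Pool.Agent.Q61.Rad8

set_option autoImplicit false

open MeasureTheory InnerProductSpace Laplacian Topology Filter Set
open scoped ContDiff

namespace Q61.Rad

open Polynomial in
/-- radial Laplacian on polynomials in `s = r²`, dimension `k+1` -/
noncomputable def PD (k : ℕ) (q : ℝ[X]) : ℝ[X] :=
  C 4 * X * derivative (derivative q) + C (2 * ((k:ℝ) + 1)) * derivative q

section poly
open Polynomial

theorem poly_smooth (q : ℝ[X]) : ContDiff ℝ ∞ fun r : ℝ => q.eval (r ^ 2) := by
  have h1 : ContDiff ℝ ∞ fun s : ℝ => q.eval s := by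
    have := Polynomial.contDiff_aeval (𝕜 := ℝ) q (∞ : WithTop ℕ∞)
    simpa [Polynomial.aeval_def] using this
  exact h1.comp (contDiff_id.pow 2)

theorem poly_deriv (q : ℝ[X]) (r : ℝ) :
    HasDerivAt (fun r : ℝ => q.eval (r ^ 2)) (r * (2 * (derivative q).eval (r ^ 2))) r := by
  have h1 := (q.hasDerivAt (r ^ 2)).comp r (hasDerivAt_pow 2 r)
  refine h1.congr_deriv ?_
  norm_num
  ring

theorem poly_I (k : ℕ) (q : ℝ[X]) (r : ℝ) :
    q.eval (r ^ 2) = q.eval 0 + I k (fun t => (PD k q).eval (t ^ 2)) r := by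
  have hA : (fun r : ℝ => 2 * (derivative q).eval (r ^ 2)) = A k (fun t => (PD k q).eval (t ^ 2)) := by
    apply eq_A k (contDiff_const.mul (poly_smooth _))
    funext t
    have h1 : deriv (fun r : ℝ => 2 * (derivative q).eval (r ^ 2)) t =
        2 * (t * (2 * (derivative (derivative q)).eval (t ^ 2))) := ((poly_deriv (derivative q) t).const_mul 2).deriv
    rw [h1]
    simp only [PD, eval_add, eval_mul, eval_C, eval_X]
    ring
  have hc : Continuous fun t : ℝ => (PD k q).eval (t ^ 2) := (poly_smooth _).continuous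
  have h1 : ∀ r, HasDerivAt (fun r : ℝ => q.eval (r ^ 2) - I k (fun t => (PD k q).eval (t ^ 2)) r) 0 r := by
    intro r
    refine ((poly_deriv q r).sub (I_hasDeriv k hc r)).congr_deriv ?_
    rw [← hA]; ring
  have h2 := is_const_of_deriv_eq_zero (fun r => (h1 r).differentiableAt) (fun r => (h1 r).deriv) r 0
  simp only [I_zero, sub_zero, ne_eq, OfNat.ofNat_ne_zero, not_false_eq_true, zero_pow] at h2
  linarith

theorem PD_zero (k : ℕ) : PD k 0 = 0 := by simp [PD]

theorem PD_degree (k : ℕ) (q : ℝ[X]) {d : ℕ} (hq : q.natDegree < d + 1) : PD k q = 0 ∨ (PD k q).natDegree < d := by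
  by_cases h0 : q.natDegree = 0
  · left
    obtain ⟨a, rfl⟩ := natDegree_eq_zero.1 h0
    simp [PD]
  · right
    have h1 : (derivative q).natDegree < q.natDegree := natDegree_derivative_lt h0
    have h2 : (C 4 * X * derivative (derivative q)).natDegree ≤ (derivative q).natDegree := by
      by_cases h3 : (derivative q).natDegree = 0
      · obtain ⟨a, ha⟩ := natDegree_eq_zero.1 h3
        rw [← ha]; simp
      · have h4 : (derivative (derivative q)).natDegree < (derivative q).natDegree := natDegree_derivative_lt h3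
        have h5 : (C (4:ℝ) * X).natDegree = 1 := natDegree_C_mul_X 4 (by norm_num)
        have := natDegree_mul_le (p := C (4:ℝ) * X) (q := derivative (derivative q))
        omega
    have h3 : (C (2 * ((k:ℝ) + 1)) * derivative q).natDegree ≤ (derivative q).natDegree := natDegree_C_mul_le _ _
    have h4 := natDegree_add_le (C 4 * X * derivative (derivative q)) (C (2 * ((k:ℝ) + 1)) * derivative q)
    have h5 : (PD k q).natDegree ≤ (derivative q).natDegree := h4.trans (max_le h2 h3)
    omega

theorem PD_iter (k : ℕ) (d : ℕ) : ∀ q : ℝ[X], (q = 0 ∨ q.natDegree < d) → (PD k)^[d] q = 0 := by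
  induction d with
  | zero => intro q hq; rcases hq with h | h
            · exact h
            · omega
  | succ d ih =>
    intro q hq
    rw [Function.iterate_succ_apply]
    apply ih
    rcases hq with rfl | h
    · left; exact PD_zero k
    · exact PD_degree k q h

/-- PDE for radial functions `q(|x|²) + I^m[f](|x|)` -/
theorem radial_pde (n m : ℕ) (q : ℝ[X]) (hq : q.natDegree < m) {w f : ℝ → ℝ} (hf : ContDiff ℝ ∞ f)
    (he : ∀ t, f (-t) = f t) (hw : ∀ r, w r = q.eval (r ^ 2) + (I n)^[m] f r) :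
    ContDiff ℝ ∞ (fun x : EuclideanSpace ℝ (Fin (n + 1)) => w ‖x‖) ∧
    lapIter m (fun x : EuclideanSpace ℝ (Fin (n + 1)) => w ‖x‖) = fun x => f ‖x‖ := by
  set v : ℕ → ℝ → ℝ := fun i r => ((PD n)^[i] q).eval (r ^ 2) + (I n)^[m - i] f r with hv
  have hsm : ∀ i : ℕ, ContDiff ℝ ∞ ((I n)^[i] f) := by
    intro i
    induction i with
    | zero => exact hf
    | succ i ih => rw [Function.iterate_succ_apply']; exact I_smooth n ih
  have hvs : ∀ i, i ≤ m → ContDiff ℝ ∞ (v i) := fun i _ => (poly_smooth _).add (hsm _)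
  have hve : ∀ i, i ≤ m → ∀ t, v i (-t) = v i t := by
    intro i _ t
    show ((PD n)^[i] q).eval ((-t) ^ 2) + (I n)^[m - i] f (-t) = _
    rw [neg_sq, iter_even n he]
  have hvc : ∀ i, i < m → ∀ r, v i r = ((PD n)^[i] q).eval 0 + I n (v (i + 1)) r := by
    intro i hi r
    show ((PD n)^[i] q).eval (r ^ 2) + (I n)^[m - i] f r = _
    obtain ⟨l, hl⟩ : ∃ l, m - i = l + 1 := ⟨m - i - 1, by omega⟩
    have h2 : v (i + 1) = fun r => ((PD n)^[i + 1] q).eval (r ^ 2) + (I n)^[l] f r := by
      funext r
      show _ + (I n)^[m - (i + 1)] f r = _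
      rw [show m - (i + 1) = l by omega]
    rw [hl, h2, I_add n (poly_smooth _).continuous (hsm l).continuous, Function.iterate_succ_apply',
      Function.iterate_succ_apply' (PD n), poly_I n ((PD n)^[i] q) r]
    ring
  have h0 : v 0 = w := by
    funext r
    show q.eval (r ^ 2) + (I n)^[m - 0] f r = w r
    rw [hw r, Nat.sub_zero]
  have hm : v m = f := by
    funext r
    show ((PD n)^[m] q).eval (r ^ 2) + (I n)^[m - m] f r = f r
    rw [PD_iter n m q (Or.inr hq), Nat.sub_self]
    simp
  have key := radial_of_chain (n := n) m hvs hve hvc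
  refine ⟨?_, ?_⟩
  · rw [← h0]; exact radial_contDiff (hvs 0 (by omega)) (hve 0 (by omega))
  · rw [← h0, key m le_rfl, hm]

end poly

/-- Volterra inequality -/
theorem volterra_le (k m : ℕ) {z E : ℝ → ℝ} (hz : Continuous z) (hE : Continuous E) (hz0 : ∀ r, 0 ≤ z r)
    (hle : ∀ r, z r ≤ (I k)^[m + 1] (fun t => E t * z t) r) : ∀ r, z r = 0 := by
  intro r₀
  set R := |r₀| with hR
  obtain ⟨D, hD⟩ := (isCompact_Icc (a := -R) (b := R)).exists_bound_of_continuousOn hz.continuousOn
  obtain ⟨K, hK⟩ := (isCompact_Icc (a := -R) (b := R)).exists_bound_of_continuousOn hE.continuousOn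
  have hD' : ∀ t, |t| ≤ R → |z t| ≤ D := fun t ht => hD t (abs_le.1 ht)
  have hK' : ∀ t, |t| ≤ R → |E t| ≤ K := fun t ht => hK t (abs_le.1 ht)
  have hR0 : |(0:ℝ)| ≤ R := by rw [abs_zero]; exact abs_nonneg _
  have hD0 : 0 ≤ D := (abs_nonneg _).trans (hD' 0 hR0)
  have hK0 : 0 ≤ K := (abs_nonneg _).trans (hK' 0 hR0)
  have hc : Continuous fun t => E t * z t := hE.mul hz
  have key : ∀ n : ℕ, ∀ r, |r| ≤ R → |z r| ≤ D * K ^ n / n.factorial * |r| ^ (2 * ((m + 1) * n)) := by
    intro n
    induction n with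
    | zero => intro r hr; simpa using hD' r hr
    | succ n ih =>
      intro r hr
      have h1 : ∀ t, |t| ≤ R → |E t * z t| ≤ K * (D * K ^ n / n.factorial) * |t| ^ (2 * ((m + 1) * n)) := by
        intro t ht
        rw [abs_mul, mul_assoc]
        exact mul_le_mul (hK' t ht) (ih t ht) (abs_nonneg _) hK0
      have h2 := iter_bound k hc (m := m) (by positivity) h1 r hr
      have h3 : |z r| ≤ |(I k)^[m + 1] (fun t => E t * z t) r| := by
        rw [abs_of_nonneg (hz0 r)]
        exact (hle r).trans (le_abs_self _)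
      refine (h3.trans h2).trans ?_
      rw [show (m + 1) * n + (m + 1) = (m + 1) * (n + 1) by ring]
      apply mul_le_mul_of_nonneg_right _ (by positivity)
      have hfac : ((n + 1).factorial : ℝ) = ((n + 1 : ℕ) : ℝ) * n.factorial := by
        rw [Nat.factorial_succ]; push_cast; ring
      rw [hfac, pow_succ]
      have h3 : (0:ℝ) < n.factorial := by exact_mod_cast n.factorial_pos
      rw [mul_div_assoc', div_div, div_le_div_iff₀ (by positivity) (by positivity)]
      have h4 : ((n + 1 : ℕ) : ℝ) ≤ ((m + 1) * n : ℕ) + 1 := by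
        push_cast
        have : (0:ℝ) ≤ m := by positivity
        have : (0:ℝ) ≤ n := by positivity
        nlinarith
      have h5 : 0 ≤ D * K ^ n * K * n.factorial := by positivity
      calc K * (D * K ^ n) * (((n + 1 : ℕ) : ℝ) * n.factorial) = (D * K ^ n * K * n.factorial) * ((n + 1 : ℕ) : ℝ) := by ring
        _ ≤ (D * K ^ n * K * n.factorial) * (((m + 1) * n : ℕ) + 1) := mul_le_mul_of_nonneg_left h4 h5
        _ = D * (K ^ n * K) * (n.factorial * (((m + 1) * n : ℕ) + 1)) := by ring
  have hlim : Tendsto (fun n : ℕ => D * ((K * |r₀| ^ (2 * (m + 1))) ^ n / n.factorial)) atTop (𝓝 (D * 0)) :=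
    (FloorSemiring.tendsto_pow_div_factorial_atTop _).const_mul D
  rw [mul_zero] at hlim
  have h0 : |z r₀| ≤ 0 := by
    refine ge_of_tendsto' hlim fun n => ?_
    refine (key n r₀ le_rfl).trans (le_of_eq ?_)
    rw [show 2 * ((m + 1) * n) = 2 * (m + 1) * n by ring, pow_mul |r₀| (2 * (m + 1)) n, mul_pow]
    ring
  exact abs_nonpos_iff.1 h0

/-- Gronwall lemma for the radial Volterra operator -/
theorem gronwall (k m : ℕ) {E a : ℝ → ℝ} (hE : Continuous E) (hE0 : ∀ r, 0 ≤ E r) (ha : Continuous a) :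
    ∃ Z : ℝ → ℝ, Continuous Z ∧ ∀ (d : ℝ → ℝ) (α : ℝ), Continuous d → (∀ r, 0 ≤ d r) → 0 ≤ α →
      (∀ r, d r ≤ α * a r + (I k)^[m + 1] (fun t => E t * d t) r) → ∀ r, d r ≤ α * Z r := by
  obtain ⟨Z, hZ, hZ'⟩ := volterra_exists k m (p := a) (g := fun r u => E r * u) ha (by
      show Continuous fun q : ℝ × ℝ => E q.1 * q.2
      fun_prop) (by
      intro R
      obtain ⟨K, hK⟩ := (isCompact_Icc (a := -R) (b := R)).exists_bound_of_continuousOn hE.continuousOn
      refine ⟨max K 0, le_max_right _ _, fun r hr u v => ?_⟩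
      rw [← mul_sub, abs_mul]
      exact mul_le_mul_of_nonneg_right ((hK r (abs_le.1 hr)).trans (le_max_left _ _)) (abs_nonneg _))
  refine ⟨Z, hZ, fun d α hd hd0 hα hle r => ?_⟩
  have hcd : Continuous fun t => E t * d t := hE.mul hd
  have hcZ : Continuous fun t => E t * Z t := hE.mul hZ
  have hcaZ : Continuous fun t => E t * (α * Z t) := hE.mul (continuous_const.mul hZ)
  set z : ℝ → ℝ := fun r => max (d r - α * Z r) 0 with hz
  have hzc : Continuous z := (hd.sub (continuous_const.mul hZ)).max continuous_const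
  have hiter : ∀ (i : ℕ) (r : ℝ), (I k)^[i] (fun t => E t * (α * Z t)) r = α * (I k)^[i] (fun t => E t * Z t) r := by
    intro i
    induction i with
    | zero => intro r; show E r * (α * Z r) = α * (E r * Z r); ring
    | succ i ih =>
      intro r
      rw [Function.iterate_succ_apply', Function.iterate_succ_apply', show (I k)^[i] (fun t => E t * (α * Z t)) =
        fun r => α * (I k)^[i] (fun t => E t * Z t) r from funext ih, I_const_mul]
  have h1 := volterra_le k m (z := z) (E := E) hzc hE (fun r => le_max_right _ _) (by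
    intro r
    have hp : 0 ≤ (I k)^[m + 1] (fun t => E t * z t) r :=
      iter_nonneg' k (m + 1) (hE.mul hzc) (fun t => mul_nonneg (hE0 t) (le_max_right _ _)) r
    apply max_le _ hp
    have h2 := hle r
    have h3 := hZ' r
    have h4 : (I k)^[m + 1] (fun t => E t * d t) r - α * (I k)^[m + 1] (fun t => E t * Z t) r =
        (I k)^[m + 1] (fun t => E t * d t - E t * (α * Z t)) r := by
      rw [iter_sub k hcd hcaZ, hiter]
    have h5 : (I k)^[m + 1] (fun t => E t * d t - E t * (α * Z t)) r ≤ (I k)^[m + 1] (fun t => E t * z t) r := by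
      apply iter_mono' k (m + 1) (hcd.sub hcaZ) (hE.mul hzc)
      intro t
      show E t * d t - E t * (α * Z t) ≤ E t * z t
      rw [← mul_sub]
      exact mul_le_mul_of_nonneg_left (le_max_left _ _) (hE0 t)
    rw [h3, mul_add]
    linarith) r
  have h2 : d r - α * Z r ≤ z r := le_max_left _ _
  rw [h1] at h2
  linarith

end Q61.Rad
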