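import Pool.Agent.Q61.MP8b
import Pool.Agent.Q61.Rad9

set_option autoImplicit false

open MeasureTheory InnerProductSpace Laplacian Topology Filter Set
open scoped ContDiff

namespace Q61.MP8a

open Q61.Rad

section family
variable {j : ℕ} {c L : ℝ}

open Polynomial in
/-- the data polynomial `c - L (1-s)²(1+s)^j - τ s^{j+2}` -/
noncomputable def qq (j : ℕ) (c L τ : ℝ) : ℝ[X] :=
  C c - C L * ((1 - X) ^ 2 * (1 + X) ^ j) - C τ * X ^ (j + 2)

theorem qq_eval (τ r : ℝ) : (qq j c L τ).eval (r ^ 2) = c - L * pp j r - τ * r ^ (2 * (j + 2)) := by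
  simp only [qq, pp, Polynomial.eval_sub, Polynomial.eval_mul, Polynomial.eval_C, Polynomial.eval_pow,
    Polynomial.eval_X, Polynomial.eval_add, Polynomial.eval_one]
  rw [pow_mul r 2 (j + 2)]

theorem qq_degree (τ : ℝ) : (qq j c L τ).natDegree < j + 3 := by
  have h1 : ((1 - Polynomial.X : Polynomial ℝ) ^ 2 * (1 + Polynomial.X) ^ j).natDegree ≤ j + 2 := by
    have a1 : (1 - Polynomial.X : Polynomial ℝ).natDegree ≤ 1 := by
      refine (Polynomial.natDegree_sub_le _ _).trans ?_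
      simp
    have a2 : (1 + Polynomial.X : Polynomial ℝ).natDegree ≤ 1 := by
      refine (Polynomial.natDegree_add_le _ _).trans ?_
      simp
    have b1 := Polynomial.natDegree_pow_le_of_le 2 a1
    have b2 := Polynomial.natDegree_pow_le_of_le j a2
    have b3 := Polynomial.natDegree_mul_le (p := (1 - Polynomial.X : Polynomial ℝ) ^ 2) (q := (1 + Polynomial.X) ^ j)
    omega
  have h2 : (Polynomial.C L * ((1 - Polynomial.X : Polynomial ℝ) ^ 2 * (1 + Polynomial.X) ^ j)).natDegree ≤ j + 2 :=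
    (Polynomial.natDegree_C_mul_le _ _).trans h1
  have h3 : (Polynomial.C τ * (Polynomial.X : Polynomial ℝ) ^ (j + 2)).natDegree ≤ j + 2 :=
    Polynomial.natDegree_C_mul_X_pow_le _ _
  have h4 : (Polynomial.C c - Polynomial.C L * ((1 - Polynomial.X : Polynomial ℝ) ^ 2 * (1 + Polynomial.X) ^ j)).natDegree
      ≤ j + 2 := by
    refine (Polynomial.natDegree_sub_le _ _).trans (max_le ?_ h2)
    simp
  have h5 : (qq j c L τ).natDegree ≤ j + 2 := (Polynomial.natDegree_sub_le _ _).trans (max_le h4 h3)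
  omega

theorem qq_smooth (τ : ℝ) : ContDiff ℝ ∞ fun r : ℝ => (qq j c L τ).eval (r ^ 2) := poly_smooth _

/-- a solution below the supersolution -/
structure Fam (j : ℕ) (c L τ : ℝ) (w : ℝ → ℝ) : Prop where
  smooth : ContDiff ℝ ∞ w
  even : ∀ t, w (-t) = w t
  low : ∀ r, (qq j c L τ).eval (r ^ 2) ≤ w r
  upp : ∀ r, w r ≤ c + 1 - L / 2 * pp j r
  eq : ∀ r, w r = (qq j c L τ).eval (r ^ 2) + (I (2 * j + 5))^[j + 3] (fun t => 1 * Real.exp (w t)) r

theorem fam_exists (hsup : ∀ r, (I (2 * j + 5))^[j + 3] (fun t => Real.exp (c + 1 - L / 2 * pp j t)) r ≤ 1 + L / 2 * pp j r)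
    {τ : ℝ} (hτ : 0 ≤ τ) : ∃ w, Fam j c L τ w := by
  have hppc := pp_cont j
  obtain ⟨w, h1, h2, h3, h4, h5⟩ := exists_plus (2 * j + 5) (j + 2) (p := fun r => (qq j c L τ).eval (r ^ 2))
    (W := fun r => c + 1 - L / 2 * pp j r) (qq_smooth τ) (fun t => by simp only [neg_sq]) (by fun_prop) (by
      intro r
      have a1 := hsup r
      rw [qq_eval]
      have a2 : 0 ≤ τ * r ^ (2 * (j + 2)) := mul_nonneg hτ (by rw [pow_mul]; positivity)
      have a3 : (I (2 * j + 5))^[j + 2 + 1] (fun t => Real.exp (c + 1 - L / 2 * pp j t)) r ≤ 1 + L / 2 * pp j r := a1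
      linarith)
  exact ⟨w, h1, h2, h3, h4, h5⟩

theorem Fam.upp2 (hsup : ∀ r, (I (2 * j + 5))^[j + 3] (fun t => Real.exp (c + 1 - L / 2 * pp j t)) r ≤ 1 + L / 2 * pp j r)
    {τ : ℝ} {w : ℝ → ℝ} (h : Fam j c L τ w) (r : ℝ) : w r ≤ (c + 1 - L / 2 * pp j r) - τ * r ^ (2 * (j + 2)) := by
  have hppc := pp_cont j
  have hwc := h.smooth.continuous
  have h1 := iter_mono' (2 * j + 5) (j + 3) (f := fun t => 1 * Real.exp (w t))
    (g := fun t => Real.exp (c + 1 - L / 2 * pp j t)) (by fun_prop) (by fun_prop) (fun t => by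
      rw [one_mul]; exact Real.exp_le_exp.2 (h.upp t)) r
  have h2 := hsup r
  have h3 := h.eq r
  rw [qq_eval] at h3
  linarith

/-- Lipschitz dependence on `τ` -/
theorem fam_lip (j : ℕ) (c L : ℝ) : ∃ Z : ℝ → ℝ, ∀ τ τ' w w', Fam j c L τ w → Fam j c L τ' w' →
    ∀ r, |w r - w' r| ≤ |τ - τ'| * Z r := by
  have hppc := pp_cont j
  obtain ⟨Z, -, hZ⟩ := gronwall (2 * j + 5) (j + 2) (E := fun t => Real.exp (c + 1 - L / 2 * pp j t))
    (a := fun r => r ^ (2 * (j + 2))) (by fun_prop) (fun r => (Real.exp_pos _).le) (by fun_prop)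
  refine ⟨Z, fun τ τ' w w' hw hw' => ?_⟩
  have c1 := hw.smooth.continuous
  have c2 := hw'.smooth.continuous
  apply hZ (fun r => |w r - w' r|) |τ - τ'| (c1.sub c2).abs (fun r => abs_nonneg _) (abs_nonneg _)
  intro r
  have e1 := hw.eq r
  have e2 := hw'.eq r
  rw [qq_eval] at e1 e2
  set F : ℝ → ℝ := fun t => 1 * Real.exp (w t) - 1 * Real.exp (w' t) with hF
  have hFc : Continuous F := by rw [hF]; fun_prop
  have e3 : (I (2 * j + 5))^[j + 3] F r = (I (2 * j + 5))^[j + 3] (fun t => 1 * Real.exp (w t)) r -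
      (I (2 * j + 5))^[j + 3] (fun t => 1 * Real.exp (w' t)) r :=
    iter_sub (2 * j + 5) (by fun_prop) (by fun_prop) (j + 3) r
  have e4 : w r - w' r = -(τ - τ') * r ^ (2 * (j + 2)) + (I (2 * j + 5))^[j + 3] F r := by
    rw [e3, e1, e2]; ring
  set G : ℝ → ℝ := fun t => Real.exp (c + 1 - L / 2 * pp j t) * |w t - w' t| with hG
  have hGc : Continuous G := by rw [hG]; fun_prop
  have hFG : ∀ t, |F t| ≤ G t := by
    intro t
    rw [hF, hG]
    simp only [one_mul]
    exact exp_lip (hw.upp t) (hw'.upp t)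
  have h1 := iter_mono' (2 * j + 5) (j + 3) hFc hGc (fun t => (le_abs_self _).trans (hFG t)) r
  have h2 := iter_mono' (2 * j + 5) (j + 3) (f := fun t => 0 - F t) (continuous_const.sub hFc) hGc (fun t => by
    have := (neg_le_abs (F t)).trans (hFG t)
    linarith) r
  have h3 := iter_sub (2 * j + 5) (f := fun _ => (0:ℝ)) (g := F) continuous_const hFc (j + 3) r
  have h4 : (I (2 * j + 5))^[j + 3] (fun _ => (0:ℝ)) r = 0 := by
    have := iter_sub (2 * j + 5) (f := fun _ => (0:ℝ)) (g := fun _ => 0) continuous_const continuous_const (j + 3) r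
    simpa using this
  rw [h3, h4] at h2
  have hr : 0 ≤ r ^ (2 * (j + 2)) := by rw [pow_mul]; positivity
  have h5 : |-(τ - τ') * r ^ (2 * (j + 2))| = |τ - τ'| * r ^ (2 * (j + 2)) := by
    rw [abs_mul, abs_neg, abs_of_nonneg hr]
  show |w r - w' r| ≤ |τ - τ'| * r ^ (2 * (j + 2)) + (I (2 * j + 5))^[j + 2 + 1] G r
  rw [e4]
  refine (abs_add_le _ _).trans ?_
  rw [h5]
  have h6 : |(I (2 * j + 5))^[j + 3] F r| ≤ (I (2 * j + 5))^[j + 3] G r := by
    rw [abs_le]; constructor <;> linarith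
  linarith

/-- every one-dimensional mass is attained -/
theorem mass_attained (j : ℕ) {V : ℝ} (hV : 0 < V) : ∃ c L τ w, Fam j c L τ w ∧ Minf (2 * j + 5) w = V ∧
    IntegrableOn (fun t => t ^ (2 * j + 5) * Real.exp (w t)) (Ioi 0) := by
  obtain ⟨c, L, hL, hsup, ⟨T, hT⟩, hlow⟩ := exists_super j hV
  have hppc := pp_cont j
  have hWc : Continuous fun t => c + 1 - L / 2 * pp j t := by fun_prop
  have hdomi : IntegrableOn (fun t => t ^ (2 * j + 5) * Real.exp (c + 1 - L / 2 * pp j t)) (Ioi 0) :=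
    integrable_of_bdd hWc ⟨T, hT⟩
  choose W hW using fun τ : {τ : ℝ // 0 ≤ τ} => fam_exists hsup τ.2
  set w : ℝ → ℝ → ℝ := fun τ => W ⟨max τ 0, le_max_right _ _⟩ with hw
  have hfam : ∀ τ, Fam j c L (max τ 0) (w τ) := fun τ => hW ⟨max τ 0, le_max_right _ _⟩
  obtain ⟨Z, hZ⟩ := fam_lip j c L
  have hcont : ∀ r, Continuous fun τ => w τ r := by
    intro r
    rw [continuous_iff_continuousAt]
    intro τ
    rw [ContinuousAt, tendsto_iff_dist_tendsto_zero]
    have h1 : Tendsto (fun τ' : ℝ => |max τ' 0 - max τ 0| * Z r) (𝓝 τ) (𝓝 0) := by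
      have : Continuous fun τ' : ℝ => |max τ' 0 - max τ 0| * Z r := by fun_prop
      have h2 := this.tendsto τ
      simpa using h2
    refine squeeze_zero (fun _ => dist_nonneg) (fun τ' => ?_) h1
    rw [Real.dist_eq]
    exact hZ _ _ _ _ (hfam τ') (hfam τ) r
  have hmeas : ∀ τ, AEStronglyMeasurable (fun t => t ^ (2 * j + 5) * Real.exp (w τ t)) (volume.restrict (Ioi 0)) := by
    intro τ
    have := (hfam τ).smooth.continuous
    exact (by fun_prop : Continuous fun t => t ^ (2 * j + 5) * Real.exp (w τ t)).aestronglyMeasurable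
  have hdom : ∀ τ, ∀ᵐ t ∂(volume.restrict (Ioi (0:ℝ))), ‖t ^ (2 * j + 5) * Real.exp (w τ t)‖ ≤
      t ^ (2 * j + 5) * Real.exp (c + 1 - L / 2 * pp j t) := by
    intro τ
    rw [ae_restrict_iff' measurableSet_Ioi]
    refine ae_of_all _ fun t ht => ?_
    have ht0 : 0 < t := ht
    rw [Real.norm_of_nonneg (by positivity)]
    have := (hfam τ).upp t
    gcongr
  have hMc : Continuous fun τ => Minf (2 * j + 5) (w τ) := by
    unfold Minf
    apply continuous_of_dominated hmeas hdom hdomi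
    refine ae_of_all _ fun t => ?_
    have := hcont t
    fun_prop
  have hM0 : V ≤ Minf (2 * j + 5) (w 0) := by
    have hc0 := (hfam 0).smooth.continuous
    have hb : ∃ C, ∀ r, 0 ≤ r → M (2 * j + 5) (w 0) r ≤ C := by
      refine ⟨T, fun r hr => ?_⟩
      refine le_trans ?_ (hT r hr)
      apply intervalIntegral.integral_mono_on hr
      · exact (by fun_prop : Continuous fun t => t ^ (2 * j + 5) * Real.exp (w 0 t)).intervalIntegrable _ _
      · exact (by fun_prop : Continuous fun t => t ^ (2 * j + 5) * Real.exp (c + 1 - L / 2 * pp j t)).intervalIntegrable _ _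
      · intro t ht
        have h1 : 0 ≤ t ^ (2 * j + 5) := pow_nonneg ht.1 _
        exact mul_le_mul_of_nonneg_left (Real.exp_le_exp.2 ((hfam 0).upp t)) h1
    refine le_trans ?_ (M_le_Minf hc0 hb (by norm_num : (0:ℝ) ≤ 2))
    refine hlow.trans ?_
    apply intervalIntegral.integral_mono_on (by norm_num)
    · exact (by fun_prop : Continuous fun t => t ^ (2 * j + 5) * Real.exp (c - L * pp j t)).intervalIntegrable _ _
    · exact (by fun_prop : Continuous fun t => t ^ (2 * j + 5) * Real.exp (w 0 t)).intervalIntegrable _ _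
    · intro t ht
      have h1 : 0 ≤ t ^ (2 * j + 5) := pow_nonneg ht.1 _
      have h2 := (hfam 0).low t
      rw [qq_eval] at h2
      simp only [max_self, zero_mul, sub_zero] at h2
      exact mul_le_mul_of_nonneg_left (Real.exp_le_exp.2 h2) h1
  have hMinf : Tendsto (fun τ => Minf (2 * j + 5) (w τ)) atTop (𝓝 0) := by
    have h0 : ∫ _t in Ioi (0:ℝ), (0:ℝ) = 0 := by simp
    rw [← h0]
    apply tendsto_integral_filter_of_dominated_convergence _ (Eventually.of_forall hmeas) (Eventually.of_forall hdom) hdomi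
    rw [ae_restrict_iff' measurableSet_Ioi]
    refine ae_of_all _ fun t ht => ?_
    have ht0 : 0 < t := ht
    have hp : 0 < t ^ (2 * (j + 2)) := by positivity
    have h1 : Tendsto (fun τ : ℝ => (c + 1 - L / 2 * pp j t) - max τ 0 * t ^ (2 * (j + 2))) atTop atBot := by
      apply tendsto_atBot_add_const_left _ _ _
      apply tendsto_neg_atTop_atBot.comp
      apply Tendsto.atTop_mul_const hp
      exact tendsto_atTop_mono (fun τ => le_max_left τ 0) tendsto_id
    have h2 : Tendsto (fun τ : ℝ => w τ t) atTop atBot :=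
      tendsto_atBot_mono (fun τ => (hfam τ).upp2 hsup t) h1
    have h3 := (Real.tendsto_exp_atBot.comp h2).const_mul (t ^ (2 * j + 5))
    rw [mul_zero] at h3
    exact h3
  obtain ⟨τ₁, hτ₁, hτ₂⟩ := ((hMinf.eventually (gt_mem_nhds hV)).and (eventually_ge_atTop 0)).exists
  obtain ⟨τ, -, hτ⟩ : ∃ τ ∈ Icc (0:ℝ) τ₁, Minf (2 * j + 5) (w τ) = V := by
    have := intermediate_value_Icc' hτ₂ hMc.continuousOn
    exact this ⟨hτ₁.le, hM0⟩
  refine ⟨c, L, max τ 0, w τ, hfam τ, hτ, ?_⟩
  exact hdomi.mono' (hmeas τ) (hdom τ)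

/-- radial solutions of `Δ^m w = e^w` with any prescribed mass, `m = j+3` -/
theorem pde_attained (j : ℕ) {V : ℝ} (hV : 0 < V) : ∃ u : EuclideanSpace ℝ (Fin (2 * j + 5 + 1)) → ℝ,
    ContDiff ℝ ∞ u ∧ IsRadial u ∧ (∀ x, lapIter (j + 3) u x = Real.exp (u x)) ∧
    Integrable (fun x => Real.exp (u x)) ∧ ∫ x, Real.exp (u x) = V := by
  have hom := om_pos (2 * j + 5)
  obtain ⟨c, L, τ, w, hw, hM, hi⟩ := mass_attained j (V := V / om (2 * j + 5)) (by positivity)
  have h1 := radial_pde (2 * j + 5) (j + 3) (qq j c L τ) (qq_degree τ) (w := w) (f := fun t => 1 * Real.exp (w t))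
    (contDiff_const.mul (Real.contDiff_exp.comp hw.smooth)) (fun t => by simp only [hw.even]) hw.eq
  refine ⟨fun x => w ‖x‖, h1.1, fun x y hxy => by simp only [hxy], fun x => ?_, ?_, ?_⟩
  · rw [h1.2]; simp only [one_mul]
  · exact (vol_integrable (2 * j + 5) w).2 hi
  · rw [vol_eq, hM]
    field_simp

end family

end Q61.MP8a
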