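import Pool.Agent.Q61.MP8c

set_option autoImplicit false

open MeasureTheory InnerProductSpace Laplacian Topology Filter Set
open scoped ContDiff

namespace Q61.MP8a

open Q61.Rad

theorem lapIter_affine {n : ℕ} {u : EuclideanSpace ℝ (Fin (n + 1)) → ℝ} (h : IsRadial u) (hs : ContDiff ℝ ∞ u)
    (c d : ℝ) (i : ℕ) : lapIter (i + 1) (fun x => c * u x + d) = fun x => c * lapIter (i + 1) u x := by
  induction i with
  | zero =>
    funext x
    show (Δ (fun x => c * u x + d)) x = c * (Δ u) x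
    have h2 : ContDiffAt ℝ 2 u x := (hs.of_le ENat.LEInfty.out).contDiffAt
    rw [Q61.lapN_add (contDiffAt_const.mul h2) contDiffAt_const, Q61.lapN_const_mul c h2, Q61.lapN_const]
    ring
  | succ i ih =>
    funext x
    show (Δ (lapIter (i + 1) (fun x => c * u x + d))) x = c * (Δ (lapIter (i + 1) u)) x
    rw [ih]
    have h2 : ContDiffAt ℝ 2 (lapIter (i + 1) u) x :=
      ((lapIter_radial h hs (i + 1)).2.of_le ENat.LEInfty.out).contDiffAt
    exact Q61.lapN_const_mul c h2

/-- `u` is a smooth radial function on `ℝ^{2m}` whose metric `e^{2u}|dx|²` has constant `Q`-curvature `(2m-1)!`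
and volume `V` -/
def HasVolume (m : ℕ) (V : ℝ) (u : EuclideanSpace ℝ (Fin (2 * m)) → ℝ) : Prop :=
  ContDiff ℝ ∞ u ∧ IsRadial u ∧
  (∀ x, (-1) ^ m * lapIter m u x = ((2 * m - 1).factorial : ℝ) * Real.exp (2 * m * u x)) ∧
  Integrable (fun x => Real.exp (2 * m * u x)) ∧ ∫ x, Real.exp (2 * m * u x) = V

theorem attained (j : ℕ) (hev : Even (j + 3)) {V : ℝ} (hV : 0 < V) : ∃ u, HasVolume (j + 3) V u := by
  set F : ℝ := ((2 * (j + 3)).factorial : ℝ) with hF
  have hF0 : 0 < F := by rw [hF]; exact_mod_cast Nat.factorial_pos _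
  obtain ⟨w, h1, h2, h3, h4, h5⟩ := pde_attained j (V := F * V) (by positivity)
  set N : ℝ := 2 * ((j + 3 : ℕ) : ℝ) with hN
  have hN0 : 0 < N := by rw [hN]; positivity
  have hfac : N⁻¹ * F = ((2 * (j + 3) - 1).factorial : ℝ) := by
    rw [hF, show 2 * (j + 3) = (2 * (j + 3) - 1) + 1 by omega, Nat.factorial_succ]
    have e : ((2 * (j + 3) - 1 + 1 : ℕ) : ℝ) = N := by
      rw [hN, show 2 * (j + 3) - 1 + 1 = 2 * (j + 3) by omega]; push_cast; ring
    rw [Nat.cast_mul, e, Nat.add_sub_cancel]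
    field_simp
  have hexp : ∀ x, Real.exp (N * (N⁻¹ * w x + -(Real.log F / N))) = F⁻¹ * Real.exp (w x) := by
    intro x
    have : N * (N⁻¹ * w x + -(Real.log F / N)) = w x - Real.log F := by field_simp; ring
    rw [this, Real.exp_sub, Real.exp_log hF0]
    ring
  refine ⟨fun x => N⁻¹ * w x + -(Real.log F / N), (contDiff_const.mul h1).add contDiff_const,
    fun x y hxy => by simp only [h2 x y hxy], fun x => ?_, ?_, ?_⟩
  · show (-1) ^ (j + 3) * lapIter (j + 3) (fun x => N⁻¹ * w x + -(Real.log F / N)) x = _ * Real.exp (N * _)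
    have e1 : lapIter (j + 3) (fun x => N⁻¹ * w x + -(Real.log F / N)) x = N⁻¹ * lapIter (j + 3) w x :=
      congrFun (lapIter_affine (n := 2 * j + 5) h2 h1 N⁻¹ (-(Real.log F / N)) (j + 2)) x
    rw [e1, hev.neg_one_pow, one_mul, hexp, ← hfac]
    have e2 : lapIter (j + 3) w x = Real.exp (w x) := h3 x
    rw [e2]
    field_simp
  · show Integrable fun x => Real.exp (N * (N⁻¹ * w x + -(Real.log F / N)))
    simp_rw [hexp]
    exact h4.const_mul _
  · show ∫ x, Real.exp (N * (N⁻¹ * w x + -(Real.log F / N))) = V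
    simp_rw [hexp]
    rw [integral_const_mul]
    rw [h5]
    field_simp

end Q61.MP8a
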