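import Pool.Agent.Q61.Rad8

set_option autoImplicit false

open MeasureTheory InnerProductSpace Laplacian Topology Filter Set
open scoped ContDiff

namespace Q61.MPc8

open Q61.Rad

/-- leading constants of the iterated radial integrals of `-1` -/
noncomputable def cc (k : ℕ) : ℕ → ℝ
  | 0 => 1
  | l + 1 => cc k l / ((k + 2 * l + 1) * (2 * l + 2))

theorem cc_pos (k l : ℕ) : 0 < cc k l := by
  induction l with
  | zero => exact one_pos
  | succ l ih => unfold cc; positivity

section est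
variable {j : ℕ} {v : ℕ → ℝ → ℝ} {K δ : ℝ}

/-- data of the segment -/
structure Seg (j : ℕ) (K δ : ℝ) (v : ℕ → ℝ → ℝ) : Prop where
  ch : EChain (2 * j + 5) (j + 3) v
  d0 : v 0 0 = -K
  dm : ∀ i, 1 ≤ i → i ≤ j → v i 0 = 0
  d1 : v (j + 1) 0 = -2
  d2 : v (j + 2) 0 = δ

variable (h : Seg j K δ v)
include h

theorem ce : Continuous fun t => Real.exp (v 0 t) := by
  have := h.ch.cont 0 (by omega)
  fun_prop

theorem top_eq (r : ℝ) : v (j + 2) r = δ - I (2 * j + 5) (fun t => Real.exp (v 0 t)) r := by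
  have e : v (j + 3) = fun t => -Real.exp (v 0 t) := funext h.ch.top
  rw [h.ch.rel (j + 2) (by omega) r, h.d2, e, I_neg]; ring

theorem top_le {r : ℝ} (hr : 0 ≤ r) : v (j + 2) r ≤ δ := by
  rw [top_eq h]
  have := I_nonneg (2 * j + 5) (ce h) hr fun t _ _ => (Real.exp_pos _).le
  linarith

/-- decay of the top function when the mass is at most one -/
theorem top_decay (hM : ∀ r, 0 ≤ r → M (2 * j + 5) (v 0) r ≤ 1) {r : ℝ} (hr : 0 < r) :
    v (j + 2) r ≤ (r ^ (2 * j + 4))⁻¹ := by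
  apply le_of_forall_pos_le_add
  intro c hc
  have h1 : ∃ r₂, r ≤ r₂ ∧ v (j + 2) r₂ < c := by
    by_contra hcon
    push Not at hcon
    apply h.ch.not_up (j := j + 1) (by omega)
    exact ⟨c, hc, by filter_upwards [eventually_ge_atTop r] with s hs; exact hcon s hs⟩
  obtain ⟨r₂, h2, h3⟩ := h1
  have h4 := incr_le (F := fun t => -v (j + 2) t) (G := fun t => -(t ^ (2 * j + 4))⁻¹)
    (F' := fun t => -(t * A (2 * j + 5) (v (j + 3)) t))
    (G' := fun t => -(-(((2 * j + 4 : ℕ) : ℝ) * t ^ (2 * j + 4 - 1)) / (t ^ (2 * j + 4)) ^ 2)) h2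
    (fun t _ => (h.ch.toLChain.deriv (by omega) t).neg) (fun t ht => by
      have : t ^ (2 * j + 4) ≠ 0 := by have : 0 < t := by linarith
                                       positivity
      exact ((hasDerivAt_pow (2 * j + 4) t).inv this).neg) (fun t ht => by
      have ht0 : 0 < t := by linarith
      have e : v (j + 3) = fun t => -Real.exp (v 0 t) := funext h.ch.top
      have h5 := hM t ht0.le
      rw [M_eq] at h5
      rw [e, A_neg']
      have h6 : t * A (2 * j + 5) (fun t => Real.exp (v 0 t)) t ≤ (t ^ (2 * j + 5))⁻¹ := by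
        rw [← one_div, le_div_iff₀ (by positivity)]
        calc t * A (2 * j + 5) (fun t => Real.exp (v 0 t)) t * t ^ (2 * j + 5)
            = t ^ (2 * j + 5 + 1) * A (2 * j + 5) (fun t => Real.exp (v 0 t)) t := by rw [pow_succ t (2 * j + 5)]; ring
          _ ≤ 1 := h5
      have h7 : (t ^ (2 * j + 5))⁻¹ ≤ -(-(((2 * j + 4 : ℕ) : ℝ) * t ^ (2 * j + 4 - 1)) / (t ^ (2 * j + 4)) ^ 2) := by
        have e1 : 2 * j + 4 - 1 = 2 * j + 3 := by omega
        have e2 : -(-(((2 * j + 4 : ℕ) : ℝ) * t ^ (2 * j + 4 - 1)) / (t ^ (2 * j + 4)) ^ 2) =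
            (2 * j + 4) * (t ^ (2 * j + 5))⁻¹ := by
          rw [e1]
          push_cast
          field_simp
          ring
        rw [e2]
        have : 0 < (t ^ (2 * j + 5))⁻¹ := by positivity
        have hj : (0:ℝ) ≤ j := by positivity
        nlinarith
      linarith)
  have h5 : 0 < (r₂ ^ (2 * j + 4))⁻¹ := by
    have : 0 < r₂ := by linarith
    positivity
  linarith

/-- the next function is at most `-1` -/
theorem next_le (hδ : δ ≤ 1) (hM : ∀ r, 0 ≤ r → M (2 * j + 5) (v 0) r ≤ 1) {r : ℝ} (hr : 0 ≤ r) :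
    v (j + 1) r ≤ -1 := by
  have hc : Continuous (v (j + 2)) := h.ch.cont (j + 2) (by omega)
  have hj : (0:ℝ) ≤ j := by positivity
  rw [h.ch.rel (j + 1) (by omega) r, h.d1]
  show -2 + I (2 * j + 5) (v (j + 2)) r ≤ -1
  have in1 : ∀ s, 0 ≤ s → s ≤ 1 → I (2 * j + 5) (v (j + 2)) s ≤ 1 / 12 := by
    intro s hs hs1
    have h1 := I_mono (2 * j + 5) hc continuous_const hs (g := fun _ => 1) fun t a _ => (top_le h a).trans hδ
    rw [I_const] at h1
    refine h1.trans ?_
    rw [one_mul, div_le_div_iff₀ (by positivity) (by norm_num)]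
    push_cast
    have : s ^ 2 ≤ 1 := pow_le_one₀ hs hs1
    nlinarith
  rcases le_total r 1 with h1 | h1
  · linarith [in1 r hr h1]
  · have hA : ∀ s, 1 ≤ s → s ^ (2 * j + 5 + 1) * A (2 * j + 5) (v (j + 2)) s ≤ s ^ 2 / 2 := by
      intro s hs
      have h2 := incr_le (F := fun s => s ^ (2 * j + 5 + 1) * A (2 * j + 5) (v (j + 2)) s) (G := fun s => s ^ 2 / 2)
        (F' := fun s => s ^ (2 * j + 5) * v (j + 2) s) (G' := fun s => (((2:ℕ):ℝ) * s ^ (2 - 1)) / 2) hs
        (fun t _ => pow_A_hasDeriv _ hc t) (fun t _ => (hasDerivAt_pow 2 t).div_const 2) (fun t ht => by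
          have ht0 : 0 < t := by linarith
          have h3 := top_decay h hM ht0
          calc t ^ (2 * j + 5) * v (j + 2) t ≤ t ^ (2 * j + 5) * (t ^ (2 * j + 4))⁻¹ := by gcongr
            _ = t := by rw [pow_succ]; field_simp
            _ = _ := by norm_num)
      have h3 : A (2 * j + 5) (v (j + 2)) 1 ≤ 1 / 2 := by
        have h4 := A_mono (2 * j + 5) hc continuous_const zero_le_one (g := fun _ => 1) fun t a _ => (top_le h a).trans hδ
        rw [A_const] at h4
        refine h4.trans ?_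
        rw [div_le_div_iff₀ (by positivity) (by norm_num)]
        push_cast
        nlinarith
      simp only [one_pow, one_mul] at h2
      linarith
    have h2 := incr_le (F := I (2 * j + 5) (v (j + 2))) (G := fun t => -(1 / 4) * (t ^ 2)⁻¹)
      (F' := fun t => t * A (2 * j + 5) (v (j + 2)) t)
      (G' := fun t => -(1 / 4) * (-(((2:ℕ):ℝ) * t ^ (2 - 1)) / (t ^ 2) ^ 2)) h1
      (fun t _ => I_hasDeriv _ hc t) (fun t ht => by
        have : t ^ 2 ≠ 0 := by have : 0 < t := by linarith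
                               positivity
        exact ((hasDerivAt_pow 2 t).inv this).const_mul _) (fun t ht => by
        have ht0 : 0 < t := by linarith
        have h3 := hA t ht
        have h4 : t * A (2 * j + 5) (v (j + 2)) t ≤ 1 / 2 * (t ^ (2 * j + 3))⁻¹ := by
          rw [← div_eq_mul_inv, le_div_iff₀ (by positivity)]
          have h5 : t ^ 2 * (t * A (2 * j + 5) (v (j + 2)) t * t ^ (2 * j + 3)) ≤ t ^ 2 * (1 / 2) := by
            calc t ^ 2 * (t * A (2 * j + 5) (v (j + 2)) t * t ^ (2 * j + 3))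
                = t ^ (2 * j + 5 + 1) * A (2 * j + 5) (v (j + 2)) t := by ring
              _ ≤ t ^ 2 / 2 := h3
              _ = _ := by ring
          exact le_of_mul_le_mul_left h5 (by positivity)
        have h5 : (t ^ (2 * j + 3))⁻¹ ≤ (t ^ 3)⁻¹ := by
          apply inv_anti₀ (by positivity)
          exact pow_le_pow_right₀ ht (by omega)
        have h6 : -(1 / 4) * (-(((2:ℕ):ℝ) * t ^ (2 - 1)) / (t ^ 2) ^ 2) = 1 / 2 * (t ^ 3)⁻¹ := by
          norm_num
          field_simp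
          norm_num
        rw [h6]
        linarith)
    have h3 := in1 1 zero_le_one le_rfl
    have h4 : 0 ≤ (r ^ 2)⁻¹ := by positivity
    norm_num at h2
    linarith

/-- propagation down the chain -/
theorem mid_le (h1 : ∀ r, 0 ≤ r → v (j + 1) r ≤ -1) (l : ℕ) : ∀ i, i + l = j + 1 → 1 ≤ i → ∀ r, 0 ≤ r →
    v i r ≤ -cc (2 * j + 5) l * r ^ (2 * l) := by
  induction l with
  | zero => intro i hi _ r hr; rw [show i = j + 1 by omega]; simpa [cc] using h1 r hr
  | succ l ih =>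
    intro i hi hi1 r hr
    rw [h.ch.rel i (by omega) r, h.dm i hi1 (by omega), zero_add]
    have h2 := I_mono (2 * j + 5) (h.ch.cont (i + 1) (by omega))
      (by fun_prop : Continuous fun t : ℝ => -cc (2 * j + 5) l * t ^ (2 * l)) hr
      fun t a _ => ih (i + 1) (by omega) (by omega) t a
    rw [I_monomial] at h2
    refine h2.trans (le_of_eq ?_)
    show _ = -(cc (2 * j + 5) l / ((((2 * j + 5 : ℕ) : ℝ) + 2 * l + 1) * (2 * l + 2))) * r ^ (2 * (l + 1))
    push_cast
    rw [show 2 * (l + 1) = 2 * l + 2 by ring]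
    ring

theorem bot_le (h1 : ∀ r, 0 ≤ r → v (j + 1) r ≤ -1) {r : ℝ} (hr : 0 ≤ r) :
    v 0 r ≤ -K - cc (2 * j + 5) (j + 1) * r ^ (2 * (j + 1)) := by
  rw [h.ch.rel 0 (by omega) r, h.d0]
  have h2 := I_mono (2 * j + 5) (h.ch.cont 1 (by omega))
      (by fun_prop : Continuous fun t : ℝ => -cc (2 * j + 5) j * t ^ (2 * j)) hr
      fun t a _ => mid_le h h1 j 1 (by omega) le_rfl t a
  rw [I_monomial] at h2
  have e : -cc (2 * j + 5) j * r ^ (2 * j + 2) / ((((2 * j + 5 : ℕ) : ℝ) + ((2 * j : ℕ) : ℝ) + 1) * (((2 * j : ℕ) : ℝ) + 2)) =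
      -(cc (2 * j + 5) (j + 1) * r ^ (2 * (j + 1))) := by
    show _ = -((cc (2 * j + 5) j / ((((2 * j + 5 : ℕ) : ℝ) + 2 * j + 1) * (2 * j + 2))) * r ^ (2 * (j + 1)))
    push_cast
    rw [show 2 * (j + 1) = 2 * j + 2 by ring]
    ring
  rw [e] at h2
  linarith

end est

/-- the comparison profile has bounded mass -/
theorem comp_bdd (j : ℕ) : ∃ B, 0 < B ∧ ∀ r, 0 ≤ r →
    M (2 * j + 5) (fun t => -(cc (2 * j + 5) (j + 1) * t ^ (2 * (j + 1)))) r ≤ B := by
  have hc := cc_pos (2 * j + 5) (j + 1)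
  obtain ⟨B, hB⟩ := M_bdd_of_quad (2 * j + 5)
    (by fun_prop : Continuous fun t : ℝ => -(cc (2 * j + 5) (j + 1) * t ^ (2 * (j + 1)))) ⟨_, hc, by
      filter_upwards [eventually_ge_atTop 1] with t ht
      have : t ^ 2 ≤ t ^ (2 * (j + 1)) := pow_le_pow_right₀ ht (by omega)
      nlinarith⟩
  exact ⟨max B 1, lt_max_of_lt_right one_pos, fun r hr => (hB r hr).trans (le_max_left _ _)⟩

theorem small_mass {j : ℕ} {v : ℕ → ℝ → ℝ} {K δ B : ℝ} (h : Seg j K δ v) (h1 : ∀ r, 0 ≤ r → v (j + 1) r ≤ -1)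
    (hB : ∀ r, 0 ≤ r → M (2 * j + 5) (fun t => -(cc (2 * j + 5) (j + 1) * t ^ (2 * (j + 1)))) r ≤ B)
    {r : ℝ} (hr : 0 ≤ r) : M (2 * j + 5) (v 0) r ≤ Real.exp (-K) * B := by
  have hcu : Continuous (v 0) := h.ch.cont 0 (by omega)
  have h2 : M (2 * j + 5) (v 0) r ≤
      Real.exp (-K) * M (2 * j + 5) (fun t => -(cc (2 * j + 5) (j + 1) * t ^ (2 * (j + 1)))) r := by
    unfold M
    rw [← intervalIntegral.integral_const_mul]
    apply intervalIntegral.integral_mono_on hr
    · exact (by fun_prop : Continuous fun t => t ^ (2 * j + 5) * Real.exp (v 0 t)).intervalIntegrable _ _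
    · exact (by fun_prop : Continuous fun t : ℝ => Real.exp (-K) *
        (t ^ (2 * j + 5) * Real.exp (-(cc (2 * j + 5) (j + 1) * t ^ (2 * (j + 1)))))).intervalIntegrable _ _
    · intro t ht
      have h3 := bot_le h h1 ht.1
      have h4 : Real.exp (v 0 t) ≤ Real.exp (-K) * Real.exp (-(cc (2 * j + 5) (j + 1) * t ^ (2 * (j + 1)))) := by
        rw [← Real.exp_add]
        exact Real.exp_le_exp.2 (by linarith)
      have h5 : 0 ≤ t ^ (2 * j + 5) := pow_nonneg ht.1 _
      calc t ^ (2 * j + 5) * Real.exp (v 0 t) ≤ t ^ (2 * j + 5) *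
            (Real.exp (-K) * Real.exp (-(cc (2 * j + 5) (j + 1) * t ^ (2 * (j + 1))))) :=
            mul_le_mul_of_nonneg_left h4 h5
        _ = _ := by ring
  exact h2.trans (mul_le_mul_of_nonneg_left (hB r hr) (Real.exp_pos _).le)

/-- (a) mass at most one forces mass at most `e^{-K} B` -/
theorem gap {j : ℕ} {v : ℕ → ℝ → ℝ} {K δ B : ℝ} (h : Seg j K δ v) (hδ : δ ≤ 1)
    (hB : ∀ r, 0 ≤ r → M (2 * j + 5) (fun t => -(cc (2 * j + 5) (j + 1) * t ^ (2 * (j + 1)))) r ≤ B)
    (hM : ∀ r, 0 ≤ r → M (2 * j + 5) (v 0) r ≤ 1) {r : ℝ} (hr : 0 ≤ r) :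
    M (2 * j + 5) (v 0) r ≤ Real.exp (-K) * B := small_mass h (fun _ => next_le h hδ hM) hB hr

/-- (b) small mass for `δ = 0` -/
theorem start {j : ℕ} {v : ℕ → ℝ → ℝ} {K B : ℝ} (h : Seg j K 0 v)
    (hB : ∀ r, 0 ≤ r → M (2 * j + 5) (fun t => -(cc (2 * j + 5) (j + 1) * t ^ (2 * (j + 1)))) r ≤ B)
    {r : ℝ} (hr : 0 ≤ r) : M (2 * j + 5) (v 0) r ≤ Real.exp (-K) * B := by
  apply small_mass h _ hB hr
  intro s hs
  rw [h.ch.rel (j + 1) (by omega) s, h.d1]
  have h2 := I_mono (2 * j + 5) (h.ch.cont (j + 2) (by omega)) continuous_const hs (g := fun _ => 0)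
    fun t a _ => top_le h a
  rw [I_const] at h2
  simp only [zero_mul, zero_div] at h2
  show -2 + I (2 * j + 5) (v (j + 2)) s ≤ -1
  linarith

/-- (c) the mass exceeds one for `δ = 1` -/
theorem finish {j : ℕ} {v : ℕ → ℝ → ℝ} {K : ℝ} (h : Seg j K 1 v) (hK : Real.log 2 ≤ K) :
    ¬ ∀ r, 0 ≤ r → M (2 * j + 5) (v 0) r ≤ 1 := by
  intro hM
  have hj : (0:ℝ) ≤ j := by positivity
  have hc := ce h
  have hb : ∀ t, 0 ≤ t → Real.exp (v 0 t) ≤ 1 / 2 := by
    intro t ht
    have h1 := bot_le h (fun _ => next_le h le_rfl hM) ht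
    have h2 := cc_pos (2 * j + 5) (j + 1)
    have h3 : 0 ≤ cc (2 * j + 5) (j + 1) * t ^ (2 * (j + 1)) := by positivity
    have h4 : v 0 t ≤ -Real.log 2 := by linarith
    calc Real.exp (v 0 t) ≤ Real.exp (-Real.log 2) := Real.exp_le_exp.2 h4
      _ = 1 / 2 := by rw [Real.exp_neg, Real.exp_log (by norm_num)]; norm_num
  have in1 : ∀ s, 0 ≤ s → s ≤ 1 → I (2 * j + 5) (fun t => Real.exp (v 0 t)) s ≤ 1 / 12 := by
    intro s hs hs1
    have h1 := I_mono (2 * j + 5) hc continuous_const hs (g := fun _ => 1 / 2) fun t a _ => hb t a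
    rw [I_const] at h1
    refine h1.trans ?_
    rw [div_le_div_iff₀ (by positivity) (by norm_num)]
    push_cast
    have : s ^ 2 ≤ 1 := pow_le_one₀ hs hs1
    nlinarith
  have out : ∀ r, 1 ≤ r → I (2 * j + 5) (fun t => Real.exp (v 0 t)) r ≤ 7 / 12 := by
    intro r h1
    have h2 := incr_le (F := I (2 * j + 5) fun t => Real.exp (v 0 t)) (G := fun t => -(1 / 2) * (t ^ 2)⁻¹)
      (F' := fun t => t * A (2 * j + 5) (fun t => Real.exp (v 0 t)) t)
      (G' := fun t => -(1 / 2) * (-(((2:ℕ):ℝ) * t ^ (2 - 1)) / (t ^ 2) ^ 2)) h1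
      (fun t _ => I_hasDeriv _ hc t) (fun t ht => by
        have : t ^ 2 ≠ 0 := by have : 0 < t := by linarith
                               positivity
        exact ((hasDerivAt_pow 2 t).inv this).const_mul _) (fun t ht => by
        have ht0 : 0 < t := by linarith
        have h3 := hM t ht0.le
        rw [M_eq] at h3
        have h4 : t * A (2 * j + 5) (fun t => Real.exp (v 0 t)) t ≤ (t ^ (2 * j + 5))⁻¹ := by
          rw [← one_div, le_div_iff₀ (by positivity)]
          calc t * A (2 * j + 5) (fun t => Real.exp (v 0 t)) t * t ^ (2 * j + 5)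
              = t ^ (2 * j + 5 + 1) * A (2 * j + 5) (fun t => Real.exp (v 0 t)) t := by rw [pow_succ t (2 * j + 5)]; ring
            _ ≤ 1 := h3
        have h5 : (t ^ (2 * j + 5))⁻¹ ≤ (t ^ 3)⁻¹ := by
          apply inv_anti₀ (by positivity)
          exact pow_le_pow_right₀ ht (by omega)
        have h6 : -(1 / 2) * (-(((2:ℕ):ℝ) * t ^ (2 - 1)) / (t ^ 2) ^ 2) = (t ^ 3)⁻¹ := by
          norm_num
          field_simp
        rw [h6]
        linarith)
    have h3 := in1 1 zero_le_one le_rfl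
    have h4 : 0 ≤ (r ^ 2)⁻¹ := by positivity
    norm_num at h2
    linarith
  apply h.ch.not_up (j := j + 1) (by omega)
  refine ⟨5 / 12, by norm_num, ?_⟩
  filter_upwards [eventually_ge_atTop 1] with r hr
  show 5 / 12 ≤ v (j + 2) r
  rw [top_eq h]
  linarith [out r hr]

end Q61.MPc8
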