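import Pool.Agent.Q61.MPc8

set_option autoImplicit false

open MeasureTheory InnerProductSpace Laplacian Topology Filter Set
open scoped ContDiff

namespace Q61.MPc8

open Q61.Rad

/-- the segment of initial data -/
noncomputable def dat (j : ℕ) (K δ : ℝ) (i : Fin (j + 3)) : ℝ :=
  if (i : ℕ) = 0 then -K else if (i : ℕ) = j + 1 then -2 else if (i : ℕ) = j + 2 then δ else 0

theorem dat_cont (j : ℕ) (K : ℝ) : Continuous fun δ => dat j K δ := by
  apply continuous_pi
  intro i
  unfold dat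
  split_ifs
  · exact continuous_const
  · exact continuous_const
  · exact continuous_id
  · exact continuous_const

theorem seg_of_sol {j : ℕ} {K δ : ℝ} {u : EuclideanSpace ℝ (Fin (2 * j + 5 + 1)) → ℝ} (h : IsSol (dat j K δ) u) :
    Seg j K δ (fun i => prof (lapIter i u)) where
  ch := h.chain
  d0 := by
    have := h.data (⟨0, by omega⟩ : Fin (j + 3))
    simpa [dat] using this
  dm := fun i h1 h2 => by
    have := h.data (⟨i, by omega⟩ : Fin (j + 3))
    have e : dat j K δ ⟨i, by omega⟩ = 0 := by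
      unfold dat
      simp only
      rw [if_neg (by omega), if_neg (by omega), if_neg (by omega)]
    rw [e] at this
    exact this
  d1 := by
    have := h.data (⟨j + 1, by omega⟩ : Fin (j + 3))
    simpa [dat] using this
  d2 := by
    have := h.data (⟨j + 2, by omega⟩ : Fin (j + 3))
    simpa [dat] using this

theorem sol_facts {j : ℕ} {a : Fin (j + 3) → ℝ} {u : EuclideanSpace ℝ (Fin (2 * j + 5 + 1)) → ℝ} (h : IsSol a u) :
    (∃ C, ∀ r, 0 ≤ r → M (2 * j + 5) (prof u) r ≤ C) ∧ Integrable (fun x => Real.exp (u x)) ∧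
      ∫ x, Real.exp (u x) = om (2 * j + 5) * Minf (2 * j + 5) (prof u) := by
  have hch := h.chain
  have hb : ∃ C, ∀ r, 0 ≤ r → M (2 * j + 5) (prof u) r ≤ C := hch.mass_bdd (by ring) (by omega)
  have hc : Continuous (prof u) := (prof_smooth h.1).continuous
  have e : ∀ x, Real.exp (u x) = Real.exp (prof u ‖x‖) := fun x => by rw [← h.2.1.eq_prof x]
  refine ⟨hb, ?_, ?_⟩
  · simp_rw [e]
    exact (vol_integrable (2 * j + 5) (prof u)).2 (integrable_of_bdd hc hb)
  · simp_rw [e]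
    exact vol_eq (2 * j + 5) _

theorem not_continuous {j : ℕ} {U : (Fin (j + 3) → ℝ) → EuclideanSpace ℝ (Fin (2 * j + 5 + 1)) → ℝ}
    (hU : ∀ a, IsSol a (U a)) : ¬ Continuous fun a => ∫ x, Real.exp (U a x) := by
  intro hV
  obtain ⟨B, hB0, hB⟩ := comp_bdd j
  set K : ℝ := max (Real.log 2) (Real.log (2 * B)) with hK
  have hK1 : Real.log 2 ≤ K := le_max_left _ _
  have hKB : Real.exp (-K) * B ≤ 1 / 2 := by
    have h1 : Real.exp (-K) ≤ (2 * B)⁻¹ := by
      rw [Real.exp_neg]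
      apply inv_anti₀ (by positivity)
      rw [← Real.log_le_iff_le_exp (by positivity)]
      exact le_max_right _ _
    calc Real.exp (-K) * B ≤ (2 * B)⁻¹ * B := mul_le_mul_of_nonneg_right h1 hB0.le
      _ = 1 / 2 := by field_simp
  set g : ℝ → ℝ := fun δ => Minf (2 * j + 5) (prof (U (dat j K δ))) with hg
  have hom := om_pos (2 * j + 5)
  have hgc : Continuous g := by
    have h1 : Continuous fun δ => ∫ x, Real.exp (U (dat j K δ) x) := hV.comp (dat_cont j K)
    have h2 : g = fun δ => (om (2 * j + 5))⁻¹ * ∫ x, Real.exp (U (dat j K δ) x) := by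
      funext δ
      rw [(sol_facts (hU (dat j K δ))).2.2, ← mul_assoc, inv_mul_cancel₀ hom.ne', one_mul]
    rw [h2]
    exact continuous_const.mul h1
  have hseg : ∀ δ, Seg j K δ (fun i => prof (lapIter i (U (dat j K δ)))) := fun δ => seg_of_sol (hU _)
  have hcu : ∀ δ, Continuous (prof (U (dat j K δ))) := fun δ => (prof_smooth (hU _).1).continuous
  have g0 : g 0 ≤ 1 / 2 := Minf_le (hcu 0) fun r hr => (start (hseg 0) hB hr).trans hKB
  have g1 : 1 < g 1 := by
    by_contra hcon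
    push Not at hcon
    apply finish (hseg 1) hK1
    intro r hr
    exact (M_le_Minf (hcu 1) (sol_facts (hU _)).1 hr).trans hcon
  obtain ⟨δ, hδ, hδ1⟩ : ∃ δ ∈ Icc (0:ℝ) 1, g δ = 1 := by
    have := intermediate_value_Icc zero_le_one hgc.continuousOn
    exact this ⟨by linarith, g1.le⟩
  have hM : ∀ r, 0 ≤ r → M (2 * j + 5) (prof (U (dat j K δ))) r ≤ 1 := fun r hr => by
    rw [← hδ1]; exact M_le_Minf (hcu δ) (sol_facts (hU _)).1 hr
  have h2 : g δ ≤ 1 / 2 := Minf_le (hcu δ) fun r hr => (gap (hseg δ) hδ.2 hB hM hr).trans hKB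
  rw [hδ1] at h2
  norm_num at h2

theorem all (n m : ℕ) (hm : 3 ≤ m) (hn : n = 2 * m) :
    (∀ a : Fin m → ℝ, ∃! u : EuclideanSpace ℝ (Fin n) → ℝ, IsSol a u) ∧
    (∀ (a : Fin m → ℝ) (u : EuclideanSpace ℝ (Fin n) → ℝ), IsSol a u → Integrable fun x => Real.exp (u x)) ∧
    ∀ U : (Fin m → ℝ) → EuclideanSpace ℝ (Fin n) → ℝ, (∀ a, IsSol a (U a)) →
      ¬ Continuous fun a => ∫ x, Real.exp (U a x) := by
  obtain ⟨j, rfl⟩ : ∃ j, m = j + 3 := ⟨m - 3, by omega⟩
  obtain rfl : n = 2 * j + 5 + 1 := by omega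
  refine ⟨fun a => ?_, fun a u h => (sol_facts h).2.1, fun U hU => not_continuous hU⟩
  obtain ⟨u, hu⟩ := sol_exists (2 * j + 5) (j + 2) a
  exact ⟨u, hu, fun w hw => sol_unique (m := j + 2) hw hu⟩

end Q61.MPc8
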