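import Pool.Agent.Q61.ND.Calc

/-!
# Project ND, job EXT: the equation holds across the origin
-/

set_option autoImplicit false

open MeasureTheory Set Filter Topology Real

noncomputable section

namespace Pool.Agent.Q61.NDEXT

open Pool.Agent.Q61.AD (P Q Per dt dx dy lap Tst D)
open Pool.Agent.Q61.ND Pool.Agent.Q61.ND.Calc

lemma rs_neg (x : P) : rs (-x) = rs x := by simp [rs]

lemma ls_neg (x : P) : ls (-x) = ls x := by simp [ls, rs_neg]

lemma U0c_neg (x : P) : U0c (-x) = -U0c x := by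
  simp only [U0c, rs_neg, ls_neg, Prod.fst_neg]
  ring

lemma bb1_neg (η : ℝ → ℝ) (x : P) : (bb η (-x)).1 = -(bb η x).1 := by
  simp only [bb, rs_neg, ls_neg, Prod.fst_neg, Prod.snd_neg]
  ring

lemma bb2_neg (η : ℝ → ℝ) (x : P) : (bb η (-x)).2 = -(bb η x).2 := by
  simp only [bb, rs_neg, ls_neg, Prod.fst_neg, Prod.snd_neg]
  ring

lemma LL_ng (η : ℝ → ℝ) (φ : P → ℝ) (x : P) :
    LL (bb η) (fun y => φ (-y)) x = LL (bb η) φ (-x) := by
  rw [LL, LL, lap_ng, dx_ng, dy_ng, bb1_neg, bb2_neg]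
  ring

lemma rs_cont : Continuous rs := by unfold rs; fun_prop

lemma meas_Dc (S : ℝ) : MeasurableSet (Dc S) :=
  (measurableSet_lt measurable_const rs_cont.measurable).inter
    (measurableSet_lt rs_cont.measurable measurable_const)

lemma int_neg (S : ℝ) (f : P → ℝ) : ∫ x in Dc S, f (-x) = ∫ x in Dc S, f x := by
  have h1 : (fun x : P => -x) ⁻¹' Dc S = Dc S := by
    ext x
    simp [Dc, rs_neg]
  have h2 := (Measure.measurePreserving_neg (volume : Measure P)).setIntegral_preimage_emb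
    (MeasurableEquiv.neg P).measurableEmbedding f (Dc S)
  rw [h1] at h2
  exact h2

lemma sq_le_rs1 (x : P) : x.1 ^ 2 ≤ rs x := by unfold rs; nlinarith [sq_nonneg x.2]

lemma sq_le_rs2 (x : P) : x.2 ^ 2 ≤ rs x := by unfold rs; nlinarith [sq_nonneg x.1]

lemma abs1 (x : P) : |x.1| ≤ √(rs x) := abs_le_sqrt (sq_le_rs1 x)

lemma abs2 (x : P) : |x.2| ≤ √(rs x) := abs_le_sqrt (sq_le_rs2 x)

lemma ls_gt {S : ℝ} {x : P} (hx : x ∈ Dc S) : S < ls x := by
  have h1 : log (rs x) < -2 * S := by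
    rw [log_lt_iff_lt_exp hx.1]
    exact hx.2
  unfold ls
  linarith

lemma deriv_eta0 {s : ℝ} (hs : s ≠ 0) : deriv eta0 s = 3 / 2 / s ^ 2 := by
  have h : HasDerivAt eta0 (-(3 / 2) * (-(s ^ 2)⁻¹)) s := by
    have := (hasDerivAt_inv hs).const_mul (-(3 / 2) : ℝ)
    exact this
  rw [h.deriv]
  field_simp

/-- The bound of the drift. -/
lemma bb_bound {x : P} (hx : x ∈ Dc 21) :
    |(bb eta0 x).1| ≤ 4 / (√(rs x) * ls x) ∧ |(bb eta0 x).2| ≤ 4 / (√(rs x) * ls x) := by
  have hr : 0 < rs x := hx.1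
  have hl : 21 < ls x := ls_gt hx
  have hl0 : ls x ≠ 0 := by linarith
  set q := √(rs x) with hq
  have hq0 : 0 < q := Real.sqrt_pos.2 hr
  have hqq : q ^ 2 = rs x := Real.sq_sqrt hr.le
  have e1 : |x.1 ^ 2 - x.2 ^ 2| ≤ rs x := by
    rw [abs_le]; unfold rs; constructor <;> nlinarith [sq_nonneg x.1, sq_nonneg x.2]
  have e2 : |2 * x.1 * x.2| ≤ rs x := by
    rw [abs_le]; unfold rs
    constructor <;> nlinarith [sq_nonneg (x.1 + x.2), sq_nonneg (x.1 - x.2)]
  have hE : |-2 * eta0 (ls x)| = 3 / ls x := by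
    unfold eta0
    rw [show -2 * (-(3 / 2) / ls x) = 3 / ls x by ring, abs_of_pos (by positivity)]
  have hD : |deriv eta0 (ls x)| = 3 / 2 / ls x ^ 2 := by
    rw [deriv_eta0 hl0, abs_of_nonneg (by positivity)]
  have key : ∀ u v : ℝ, |u| ≤ q → |v| ≤ q →
      (3 / ls x * rs x * |u| + 3 / 2 / ls x ^ 2 * rs x * |v|) / rs x ^ 2 ≤ 4 / (q * ls x) := by
    intro u v hu hv
    have h3 : 3 / 2 / ls x ^ 2 ≤ 1 / ls x := by
      rw [div_div, div_le_div_iff₀ (by positivity) (by linarith)]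
      nlinarith
    have h4 : 3 / ls x * rs x * |u| + 3 / 2 / ls x ^ 2 * rs x * |v| ≤
        4 / ls x * rs x * q := by
      have a1 : 3 / ls x * rs x * |u| ≤ 3 / ls x * rs x * q :=
        mul_le_mul_of_nonneg_left hu (by positivity)
      have a2 : 3 / 2 / ls x ^ 2 * rs x * |v| ≤ 1 / ls x * rs x * q :=
        mul_le_mul (mul_le_mul_of_nonneg_right h3 hr.le) hv (abs_nonneg _) (by positivity)
      calc _ ≤ 3 / ls x * rs x * q + 1 / ls x * rs x * q := add_le_add a1 a2
        _ = _ := by ring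
    calc _ ≤ (4 / ls x * rs x * q) / rs x ^ 2 := div_le_div_of_nonneg_right h4 (by positivity)
      _ = 4 / (q * ls x) := by
        rw [← hqq]
        field_simp
  constructor
  · simp only [bb]
    rw [abs_div, abs_of_pos (by positivity : (0 : ℝ) < rs x ^ 2)]
    refine le_trans (div_le_div_of_nonneg_right ?_ (by positivity)) (key x.1 x.2 (abs1 x) (abs2 x))
    refine (abs_add_le _ _).trans (add_le_add ?_ ?_)
    · rw [abs_mul, abs_mul, hE]
      exact mul_le_mul_of_nonneg_right (mul_le_mul_of_nonneg_left e1 (by positivity)) (abs_nonneg _)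
    · rw [abs_mul, abs_mul, hD]
      exact mul_le_mul_of_nonneg_right (mul_le_mul_of_nonneg_left e2 (by positivity)) (abs_nonneg _)
  · simp only [bb]
    rw [abs_div, abs_of_pos (by positivity : (0 : ℝ) < rs x ^ 2)]
    refine le_trans (div_le_div_of_nonneg_right ?_ (by positivity)) (key x.2 x.1 (abs2 x) (abs1 x))
    refine (abs_sub _ _).trans (add_le_add ?_ ?_)
    · rw [abs_mul, abs_mul, hE]
      exact mul_le_mul_of_nonneg_right (mul_le_mul_of_nonneg_left e1 (by positivity)) (abs_nonneg _)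
    · rw [abs_mul, abs_mul, hD]
      exact mul_le_mul_of_nonneg_right (mul_le_mul_of_nonneg_left e2 (by positivity)) (abs_nonneg _)

lemma rs_EE (p : P) : rs (EE p) = exp (-2 * p.1) := by
  simp only [rs, EE]
  rw [show (-2 * p.1 : ℝ) = -p.1 + -p.1 by ring, exp_add]
  nlinarith [Real.sin_sq_add_cos_sq p.2]

lemma ls_EE (p : P) : ls (EE p) = p.1 := by
  rw [ls, rs_EE, log_exp]; ring

/-- `1/(|x| ls x)` is square integrable. -/
lemma int_q (h : S_pol) : IntegrableOn (fun x => (1 / (√(rs x) * ls x)) ^ 2) (Dc 21) := by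
  rw [(h 21 _).2]
  have h1 : (fun p : P => exp (-2 * p.1) * (1 / (√(rs (EE p)) * ls (EE p))) ^ 2) =
      fun p => (1 / p.1 ^ 2) * 1 := by
    funext p
    rw [rs_EE, ls_EE]
    have h2 : √(exp (-2 * p.1)) ^ 2 = exp (-2 * p.1) := Real.sq_sqrt (exp_pos _).le
    rw [div_pow, mul_pow, h2]
    have := (exp_pos (-2 * p.1)).ne'
    by_cases h0 : p.1 = 0
    · simp [h0]
    · field_simp
  rw [h1, IntegrableOn, Sp, Measure.volume_eq_prod, ← Measure.prod_restrict]
  refine Integrable.mul_prod (f := fun s : ℝ => 1 / s ^ 2) (g := fun _ : ℝ => (1 : ℝ)) ?_ ?_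
  · have h3 : IntegrableOn (fun s : ℝ => s ^ (-2 : ℝ)) (Ioi 21) :=
      integrableOn_Ioi_rpow_of_lt (by norm_num) (by norm_num)
    refine h3.congr_fun (fun s hs => ?_) measurableSet_Ioi
    have hs0 : (0 : ℝ) < s := lt_trans (by norm_num) hs
    simp only
    rw [rpow_neg hs0.le, one_div]
    norm_cast
  · have : IsFiniteMeasure (volume.restrict (Ioo (-π) π)) := ⟨by simp⟩
    exact integrable_const _

lemma vol_Dc : volume (Dc 21) < ⊤ := by
  refine lt_of_le_of_lt (measure_mono (t := Icc (-1 : ℝ) 1 ×ˢ Icc (-1 : ℝ) 1) ?_)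
    (isCompact_Icc.prod isCompact_Icc).measure_lt_top
  intro x hx
  have h1 : rs x ≤ 1 := hx.2.le.trans (exp_le_one_iff.2 (by norm_num))
  have h2 := sq_le_rs1 x
  have h3 := sq_le_rs2 x
  refine ⟨⟨?_, ?_⟩, ⟨?_, ?_⟩⟩ <;> nlinarith

lemma meas_ls : Measurable ls := (rs_cont.measurable.log).const_mul _

lemma meas_U0c : Measurable U0c := by
  have h1 : Measurable fun x : P => √(rs x) := rs_cont.measurable.sqrt
  have h2 : Measurable fun x : P => x.1 / √(rs x) := measurable_fst.div h1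
  have h3 : Measurable fun x : P => ls x ^ (-(3 / 4) : ℝ) := meas_ls.pow_const _
  have h4 : Measurable fun x : P => ls x ^ (-(7 / 4) : ℝ) := meas_ls.pow_const _
  unfold U0c
  exact (measurable_const.div h1).mul ((h3.mul h2).add
    ((h4.const_mul _).mul (((h2.pow_const 3).const_mul _).sub (h2.const_mul _))))

lemma meas_eta0 : Measurable eta0 := by
  unfold eta0
  exact measurable_const.div measurable_id

lemma meas_bb : Measurable (bb eta0) := by
  have h1 : Measurable fun x : P => eta0 (ls x) := meas_eta0.comp meas_ls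
  have h2 : Measurable fun x : P => deriv eta0 (ls x) := (measurable_deriv eta0).comp meas_ls
  have h3 : Measurable fun x : P => x.1 ^ 2 - x.2 ^ 2 := by fun_prop
  have h4 : Measurable fun x : P => 2 * x.1 * x.2 := by fun_prop
  have h5 : Measurable fun x : P => rs x ^ 2 := rs_cont.measurable.pow_const 2
  unfold bb
  exact ((((h1.const_mul _).mul h3).mul measurable_fst).add
    ((h2.mul h4).mul measurable_snd) |>.div h5).prodMk
    ((((h1.const_mul _).mul h3).mul measurable_snd).sub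
      ((h2.mul h4).mul measurable_fst) |>.div h5)

/-- Integrability of `U · F` with `|F| ≤ C (1 + q)`. -/
lemma int_U (hq : IntegrableOn (fun x => (1 / (√(rs x) * ls x)) ^ 2) (Dc 21)) {U F : P → ℝ}
    (hU : Measurable U) (hi : IntegrableOn (fun x => U x ^ 2) (Dc 21)) (hF : Measurable F) {C : ℝ}
    (hC : 0 ≤ C) (hb : ∀ x ∈ Dc 21, |F x| ≤ C * (1 + 1 / (√(rs x) * ls x))) :
    IntegrableOn (fun x => U x * F x) (Dc 21) := by
  have h1 : IntegrableOn (fun _ : P => (1 : ℝ)) (Dc 21) := integrableOn_const vol_Dc.ne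
  refine Integrable.mono' (((hi.const_mul 2).add (h1.add hq)).const_mul C)
    (hU.mul hF).aestronglyMeasurable ?_
  rw [ae_restrict_iff' (meas_Dc 21)]
  refine Eventually.of_forall fun x hx => ?_
  simp only [Pi.add_apply, norm_mul, Real.norm_eq_abs]
  set q := 1 / (√(rs x) * ls x)
  have h2 := hb x hx
  have h3 : |U x| * |F x| ≤ |U x| * (C * (1 + q)) := mul_le_mul_of_nonneg_left h2 (abs_nonneg _)
  refine h3.trans ?_
  have h4 : |U x| * (1 + q) ≤ 2 * U x ^ 2 + (1 + q ^ 2) := by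
    rw [← sq_abs (U x)]
    nlinarith [sq_nonneg (|U x| - 1), sq_nonneg (|U x| - q), sq_nonneg q, sq_nonneg (|U x|)]
  calc |U x| * (C * (1 + q)) = C * (|U x| * (1 + q)) := by ring
    _ ≤ _ := mul_le_mul_of_nonneg_left h4 hC

lemma bdd_sm {f : P → ℝ} (hf : Continuous f) {b : ℝ} (h : ∀ x, f x ≠ 0 → rs x ≤ b) :
    ∃ C : ℝ, 0 ≤ C ∧ ∀ x, |f x| ≤ C := by
  have hK : IsCompact {x : P | rs x ≤ b} := by
    refine (isCompact_Icc.prod isCompact_Icc : IsCompact (Icc (-(1 + |b|)) (1 + |b|) ×ˢ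
      Icc (-(1 + |b|)) (1 + |b|))).of_isClosed_subset (isClosed_le rs_cont continuous_const) ?_
    intro x hx
    have h1 : rs x ≤ |b| := le_trans hx (le_abs_self b)
    have h2 := sq_le_rs1 x
    have h3 := sq_le_rs2 x
    have h4 := abs_nonneg b
    refine ⟨⟨?_, ?_⟩, ⟨?_, ?_⟩⟩ <;> nlinarith
  obtain ⟨C, hC⟩ := hK.exists_bound_of_continuousOn hf.continuousOn
  refine ⟨max C 0, le_max_right _ _, fun x => ?_⟩
  by_cases h0 : f x = 0
  · rw [h0, abs_zero]; exact le_max_right _ _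
  · exact (hC x (h x h0)).trans (le_max_left _ _)

/-- Bounds of the derivatives of a smooth function with compact support. -/
lemma bdd_all {f : P → ℝ} (hf : Sm f) {b : ℝ} (h : ∀ x, f x ≠ 0 → rs x ≤ b) :
    ∃ C : ℝ, 0 ≤ C ∧ ∀ x, |f x| ≤ C ∧ |dx f x| ≤ C ∧ |dy f x| ≤ C ∧ |lap f x| ≤ C := by
  have hcl : IsClosed {x : P | rs x ≤ b} := isClosed_le rs_cont continuous_const
  have hz : ∀ x, ¬ rs x ≤ b → dx f x = 0 ∧ dy f x = 0 ∧ lap f x = 0 :=
    fun x hx => zero_off hcl h hx
  obtain ⟨C0, h00, hC0⟩ := bdd_sm hf.continuous h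
  obtain ⟨C1, h01, hC1⟩ := bdd_sm (sm_dx hf).continuous (b := b) fun x hx => by
    by_contra hh; exact hx (hz x hh).1
  obtain ⟨C2, h02, hC2⟩ := bdd_sm (sm_dy hf).continuous (b := b) fun x hx => by
    by_contra hh; exact hx (hz x hh).2.1
  obtain ⟨C3, h03, hC3⟩ := bdd_sm (sm_lap hf).continuous (b := b) fun x hx => by
    by_contra hh; exact hx (hz x hh).2.2
  exact ⟨C0 + C1 + C2 + C3, by linarith, fun x => ⟨by linarith [hC0 x], by linarith [hC1 x],
    by linarith [hC2 x], by linarith [hC3 x]⟩⟩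

lemma meas_LL {φ : P → ℝ} (hφ : Sm φ) : Measurable (LL (bb eta0) φ) :=
  ((sm_lap hφ).continuous.measurable.add
    (meas_bb.fst.mul (sm_dx hφ).continuous.measurable)).add
    (meas_bb.snd.mul (sm_dy hφ).continuous.measurable)

lemma LL_bound {φ : P → ℝ} {C : ℝ} (hC : 0 ≤ C)
    (h : ∀ x, |φ x| ≤ C ∧ |dx φ x| ≤ C ∧ |dy φ x| ≤ C ∧ |lap φ x| ≤ C) {x : P} (hx : x ∈ Dc 21) :
    |LL (bb eta0) φ x| ≤ 8 * C * (1 + 1 / (√(rs x) * ls x)) := by
  obtain ⟨-, h1, h2, h3⟩ := h x
  obtain ⟨b1, b2⟩ := bb_bound hx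
  have hq : 0 < √(rs x) := Real.sqrt_pos.2 hx.1
  have hl : 21 < ls x := ls_gt hx
  have hl0 : 0 < ls x := by linarith
  have hq1 : 4 / (√(rs x) * ls x) = 4 * (1 / (√(rs x) * ls x)) := by ring
  rw [hq1] at b1 b2
  have hp : 0 < 1 / (√(rs x) * ls x) := by positivity
  set q := 1 / (√(rs x) * ls x)
  unfold LL
  refine (abs_add_le _ _).trans ?_
  refine (add_le_add_left (abs_add_le _ _) _).trans ?_
  rw [abs_mul, abs_mul]
  have a1 : |(bb eta0 x).1| * |dx φ x| ≤ 4 * q * C := mul_le_mul b1 h1 (abs_nonneg _) (by positivity)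
  have a2 : |(bb eta0 x).2| * |dy φ x| ≤ 4 * q * C := mul_le_mul b2 h2 (abs_nonneg _) (by positivity)
  nlinarith [mul_nonneg hC hp.le]

/-- The cutoff. -/
def k0 (y : P) : ℝ := smoothTransition (rs y - 1)

lemma sm_rs : Sm rs := (contDiff_fst.pow 2).add (contDiff_snd.pow 2)

lemma sm_k0 : Sm k0 := smoothTransition.contDiff.comp (sm_rs.sub contDiff_const)

lemma k0_lo {y : P} (h : rs y ≤ 1) : k0 y = 0 := smoothTransition.zero_of_nonpos (by linarith)

lemma k0_hi {y : P} (h : 2 ≤ rs y) : k0 y = 1 := smoothTransition.one_of_one_le (by linarith)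

lemma k0_der {y : P} (h : ¬ (1 ≤ rs y ∧ rs y ≤ 2)) : dx k0 y = 0 ∧ dy k0 y = 0 ∧ lap k0 y = 0 := by
  have hc : ∀ c : ℝ, k0 =ᶠ[𝓝 y] (fun _ => c) → dx k0 y = 0 ∧ dy k0 y = 0 ∧ lap k0 y = 0 := by
    intro c h1
    refine ⟨?_, ?_, ?_⟩
    · rw [dx_congr h1]; simp [dx]
    · rw [dy_congr h1]; simp [dy]
    · rw [lap_congr h1]
      have e1 : dx (fun _ : P => c) = fun _ => 0 := by funext y; simp [dx]
      have e2 : dy (fun _ : P => c) = fun _ => 0 := by funext y; simp [dy]
      rw [lap, e1, e2]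
      simp [dx, dy]
  by_cases h1 : rs y < 1
  · refine hc 0 ?_
    filter_upwards [(isOpen_lt rs_cont continuous_const).mem_nhds h1] with z hz
    exact k0_lo (le_of_lt hz)
  · have h2 : 2 < rs y := by
      by_contra h3
      exact h ⟨not_lt.1 h1, not_lt.1 h3⟩
    refine hc 1 ?_
    filter_upwards [(isOpen_lt continuous_const rs_cont).mem_nhds h2] with z hz
    exact k0_hi (le_of_lt hz)

lemma k0_bd : ∃ C : ℝ, 0 ≤ C ∧ ∀ x, |dx k0 x| ≤ C ∧ |dy k0 x| ≤ C ∧ |lap k0 x| ≤ C := by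
  obtain ⟨C1, h01, hC1⟩ := bdd_sm (sm_dx sm_k0).continuous (b := 2) fun x hx => by
    by_contra hh; exact hx (k0_der (fun hc => hh hc.2)).1
  obtain ⟨C2, h02, hC2⟩ := bdd_sm (sm_dy sm_k0).continuous (b := 2) fun x hx => by
    by_contra hh; exact hx (k0_der (fun hc => hh hc.2)).2.1
  obtain ⟨C3, h03, hC3⟩ := bdd_sm (sm_lap sm_k0).continuous (b := 2) fun x hx => by
    by_contra hh; exact hx (k0_der (fun hc => hh hc.2)).2.2
  exact ⟨C1 + C2 + C3, by linarith, fun x => ⟨by linarith [hC1 x], by linarith [hC2 x],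
    by linarith [hC3 x]⟩⟩

/-- The scaled cutoffs. -/
def kn (n : ℕ) (x : P) : ℝ := k0 (exp n • x)

lemma sm_kn (n : ℕ) : Sm (kn n) := sm_k0.comp (contDiff_const_smul _)

lemma rs_smul (c : ℝ) (x : P) : rs (c • x) = c ^ 2 * rs x := by simp [rs]; ring

lemma kn_abs (n : ℕ) (x : P) : |kn n x| ≤ 1 := by
  unfold kn k0
  rw [abs_of_nonneg (smoothTransition.nonneg _)]
  exact smoothTransition.le_one _

/-- The annulus. -/
def An (n : ℕ) : Set P := {x | 1 ≤ exp n ^ 2 * rs x ∧ exp n ^ 2 * rs x ≤ 2}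

lemma meas_An (n : ℕ) : MeasurableSet (An n) :=
  (measurableSet_le measurable_const (rs_cont.measurable.const_mul _)).inter
    (measurableSet_le (rs_cont.measurable.const_mul _) measurable_const)

/-- The error term. -/
def En (φ : P → ℝ) (n : ℕ) (x : P) : ℝ :=
  2 * (dx (kn n) x * dx φ x + dy (kn n) x * dy φ x) + φ x * lap (kn n) x +
    φ x * ((bb eta0 x).1 * dx (kn n) x + (bb eta0 x).2 * dy (kn n) x)

lemma En_zero (φ : P → ℝ) (n : ℕ) {x : P} (hx : x ∉ An n) : En φ n x = 0 := by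
  have h1 : ¬ (1 ≤ rs (exp (n : ℝ) • x) ∧ rs (exp (n : ℝ) • x) ≤ 2) := by
    rw [rs_smul]; exact hx
  obtain ⟨a1, a2, a3⟩ := k0_der h1
  have e1 : dx (kn n) x = 0 := by
    have := dx_sc k0 (exp n) x
    rw [a1, mul_zero] at this; exact this
  have e2 : dy (kn n) x = 0 := by
    have := dy_sc k0 (exp n) x
    rw [a2, mul_zero] at this; exact this
  have e3 : lap (kn n) x = 0 := by
    have := lap_sc sm_k0 (exp n) x
    rw [a3, mul_zero] at this; exact this
  simp [En, e1, e2, e3]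

lemma En_bound {φ : P → ℝ} {C L K : ℝ} (_hC : 0 ≤ C) (hL : 0 ≤ L) (hK : 0 ≤ K)
    (h : ∀ x, |φ x| ≤ C ∧ |dx φ x| ≤ C ∧ |dy φ x| ≤ C ∧ |lap φ x| ≤ C)
    (hl : ∀ x, |φ x| ≤ L * √(rs x))
    (hk : ∀ x, |dx k0 x| ≤ K ∧ |dy k0 x| ≤ K ∧ |lap k0 x| ≤ K) (n : ℕ) {x : P} (hx : x ∈ Dc 21)
    (hxn : x ∈ An n) : |En φ n x| ≤ (4 * K * C + 18 * K * L) * exp n := by
  obtain ⟨-, h1, h2, -⟩ := h x
  obtain ⟨b1, b2⟩ := bb_bound hx
  have hr : 0 < rs x := hx.1
  have hq : 0 < √(rs x) := Real.sqrt_pos.2 hr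
  have hqq : √(rs x) ^ 2 = rs x := Real.sq_sqrt hr.le
  have hls : 21 < ls x := ls_gt hx
  have he : 0 < exp (n : ℝ) := exp_pos _
  have q1 : 1 ≤ exp n * √(rs x) := by
    have h3 : 1 ≤ (exp n * √(rs x)) ^ 2 := by rw [mul_pow, hqq]; exact hxn.1
    by_contra h4
    push Not at h4
    nlinarith [mul_pos he hq]
  have q2 : exp n * √(rs x) ≤ 2 := by
    have h3 : (exp n * √(rs x)) ^ 2 ≤ 2 := by rw [mul_pow, hqq]; exact hxn.2
    nlinarith [mul_pos he hq]
  -- bounds of the drift on the annulus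
  have hb : 4 / (√(rs x) * ls x) ≤ 4 / 21 * exp n := by
    rw [div_le_iff₀ (by positivity)]
    nlinarith [mul_pos he hq]
  have b1' := b1.trans hb
  have b2' := b2.trans hb
  obtain ⟨c1, c2, c3⟩ := hk (exp (n : ℝ) • x)
  have d1 : |dx (kn n) x| ≤ exp n * K := by
    have := dx_sc k0 (exp n) x
    have h5 : dx (kn n) x = exp n * dx k0 (exp (n : ℝ) • x) := this
    rw [h5, abs_mul, abs_of_pos he]
    exact mul_le_mul_of_nonneg_left c1 he.le
  have d2 : |dy (kn n) x| ≤ exp n * K := by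
    have := dy_sc k0 (exp n) x
    have h5 : dy (kn n) x = exp n * dy k0 (exp (n : ℝ) • x) := this
    rw [h5, abs_mul, abs_of_pos he]
    exact mul_le_mul_of_nonneg_left c2 he.le
  have d3 : |lap (kn n) x| ≤ exp n ^ 2 * K := by
    have := lap_sc sm_k0 (exp n) x
    have h5 : lap (kn n) x = exp n ^ 2 * lap k0 (exp (n : ℝ) • x) := this
    rw [h5, abs_mul, abs_of_pos (by positivity)]
    exact mul_le_mul_of_nonneg_left c3 (by positivity)
  have hφ : |φ x| * exp n ≤ 2 * L := by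
    calc |φ x| * exp n ≤ L * √(rs x) * exp n := mul_le_mul_of_nonneg_right (hl x) he.le
      _ = L * (exp n * √(rs x)) := by ring
      _ ≤ L * 2 := mul_le_mul_of_nonneg_left q2 hL
      _ = 2 * L := by ring
  have m1 : |dx (kn n) x * dx φ x| ≤ exp n * K * C := by
    rw [abs_mul]; exact mul_le_mul d1 h1 (abs_nonneg _) (by positivity)
  have m2 : |dy (kn n) x * dy φ x| ≤ exp n * K * C := by
    rw [abs_mul]; exact mul_le_mul d2 h2 (abs_nonneg _) (by positivity)
  have m3 : |φ x * lap (kn n) x| ≤ 2 * L * K * exp n := by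
    rw [abs_mul]
    calc |φ x| * |lap (kn n) x| ≤ |φ x| * (exp n ^ 2 * K) :=
          mul_le_mul_of_nonneg_left d3 (abs_nonneg _)
      _ = |φ x| * exp n * (exp n * K) := by ring
      _ ≤ 2 * L * (exp n * K) := mul_le_mul_of_nonneg_right hφ (by positivity)
      _ = _ := by ring
  have m4 : ∀ u v : ℝ, |u| ≤ 4 / 21 * exp n → |v| ≤ exp n * K →
      |φ x * (u * v)| ≤ L * K * exp n := by
    intro u v hu hv
    rw [abs_mul, abs_mul]
    calc |φ x| * (|u| * |v|) ≤ |φ x| * (4 / 21 * exp n * (exp n * K)) :=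
          mul_le_mul_of_nonneg_left (mul_le_mul hu hv (abs_nonneg _) (by positivity)) (abs_nonneg _)
      _ = |φ x| * exp n * (4 / 21 * (exp n * K)) := by ring
      _ ≤ 2 * L * (4 / 21 * (exp n * K)) := mul_le_mul_of_nonneg_right hφ (by positivity)
      _ ≤ L * K * exp n := by nlinarith [mul_nonneg (mul_nonneg hL hK) he.le]
  have m5 := m4 _ _ b1' d1
  have m6 := m4 _ _ b2' d2
  have e : En φ n x = 2 * (dx (kn n) x * dx φ x) + 2 * (dy (kn n) x * dy φ x) +
      φ x * lap (kn n) x + φ x * ((bb eta0 x).1 * dx (kn n) x) +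
      φ x * ((bb eta0 x).2 * dy (kn n) x) := by rw [En]; ring
  rw [e]
  have hLK : 0 ≤ L * K * exp n := by positivity
  rw [abs_le] at m1 m2 m3 m5 m6 ⊢
  constructor <;> nlinarith [m1.1, m1.2, m2.1, m2.2, m3.1, m3.2, m5.1, m5.2, m6.1, m6.2]

lemma meas_En {φ : P → ℝ} (hφ : Sm φ) (n : ℕ) : Measurable (En φ n) := by
  have a1 := (sm_dx (sm_kn n)).continuous.measurable
  have a2 := (sm_dy (sm_kn n)).continuous.measurable
  have a3 := (sm_lap (sm_kn n)).continuous.measurable
  have b1 := (sm_dx hφ).continuous.measurable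
  have b2 := (sm_dy hφ).continuous.measurable
  have b3 := hφ.continuous.measurable
  exact ((((a1.mul b1).add (a2.mul b2)).const_mul 2).add (b3.mul a3)).add
    (b3.mul ((meas_bb.fst.mul a1).add (meas_bb.snd.mul a2)))

lemma vol_An (n : ℕ) : volume.real (An n) ≤ 16 * (exp (n : ℝ) ^ 2)⁻¹ := by
  have he : 0 < exp (n : ℝ) := exp_pos _
  set a : ℝ := 2 * (exp (n : ℝ))⁻¹ with ha
  have ha0 : 0 < a := by positivity
  have hsub : An n ⊆ Icc (-a) a ×ˢ Icc (-a) a := by
    intro x hx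
    have h1 : rs x ≤ 2 * (exp (n : ℝ) ^ 2)⁻¹ := by
      rw [← div_eq_mul_inv, le_div_iff₀ (by positivity), mul_comm]; exact hx.2
    have h2 : a ^ 2 = 4 * (exp (n : ℝ) ^ 2)⁻¹ := by
      rw [ha, mul_pow, inv_pow]; norm_num
    have h3 : rs x ≤ a ^ 2 := by
      rw [h2]
      have : 0 < (exp (n : ℝ) ^ 2)⁻¹ := by positivity
      linarith
    have h4 := (sq_le_rs1 x).trans h3
    have h5 := (sq_le_rs2 x).trans h3
    exact ⟨⟨by nlinarith, by nlinarith⟩, ⟨by nlinarith, by nlinarith⟩⟩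
  have h6 : volume.real (Icc (-a) a ×ˢ Icc (-a) a : Set P) = (2 * a) * (2 * a) := by
    rw [Measure.volume_eq_prod, measureReal_prod_prod]
    simp only [Real.volume_real_Icc]
    rw [show a - -a = 2 * a by ring, max_eq_left (by positivity)]
  calc volume.real (An n) ≤ volume.real (Icc (-a) a ×ˢ Icc (-a) a : Set P) :=
        measureReal_mono hsub (isCompact_Icc.prod isCompact_Icc).measure_lt_top.ne
    _ = 16 * (exp (n : ℝ) ^ 2)⁻¹ := by
      rw [h6, ha]
      field_simp
      ring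

lemma An_zero (x : P) (hx : 0 < rs x) : ∀ᶠ n : ℕ in atTop, x ∉ An n ∧ kn n x = 1 := by
  have h1 : Tendsto (fun n : ℕ => exp (n : ℝ) ^ 2 * rs x) atTop atTop := by
    refine Tendsto.atTop_mul_const hx ?_
    exact (tendsto_pow_atTop (by norm_num)).comp
      (tendsto_exp_atTop.comp tendsto_natCast_atTop_atTop)
  filter_upwards [h1.eventually_gt_atTop 2] with n hn
  refine ⟨fun hc => absurd hc.2 (not_le.2 hn), ?_⟩
  exact k0_hi (by rw [rs_smul]; exact hn.le)

/-- The error terms tend to zero. -/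
lemma err {φ U : P → ℝ} (hφ : Sm φ) {C L K : ℝ} (hC : 0 ≤ C) (hL : 0 ≤ L) (hK : 0 ≤ K)
    (h : ∀ x, |φ x| ≤ C ∧ |dx φ x| ≤ C ∧ |dy φ x| ≤ C ∧ |lap φ x| ≤ C)
    (hl : ∀ x, |φ x| ≤ L * √(rs x))
    (hk : ∀ x, |dx k0 x| ≤ K ∧ |dy k0 x| ≤ K ∧ |lap k0 x| ≤ K) (hU : Measurable U)
    (hi : IntegrableOn (fun x => U x ^ 2) (Dc 21)) :
    Tendsto (fun n : ℕ => ∫ x in Dc 21, U x * En φ n x) atTop (𝓝 0) := by
  set M := 4 * K * C + 18 * K * L with hM
  have hM0 : 0 ≤ M := by positivity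
  -- the integrals of `U²` over the annuli tend to zero
  have t1 : Tendsto (fun n : ℕ => ∫ x in Dc 21, (An n).indicator (fun x => U x ^ 2) x) atTop
      (𝓝 0) := by
    have : (0 : ℝ) = ∫ x in Dc 21, (0 : ℝ) := by simp
    rw [this]
    refine tendsto_integral_of_dominated_convergence (fun x => U x ^ 2)
      (fun n => ((hU.pow_const 2).indicator (meas_An n)).aestronglyMeasurable) hi
      (fun n => Eventually.of_forall fun x => ?_) ?_
    · by_cases hx : x ∈ An n
      · rw [indicator_of_mem hx, Real.norm_eq_abs, abs_of_nonneg (sq_nonneg _)]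
      · rw [indicator_of_notMem hx, norm_zero]; exact sq_nonneg _
    · rw [ae_restrict_iff' (meas_Dc 21)]
      refine Eventually.of_forall fun x hx => ?_
      refine tendsto_const_nhds.congr' ?_
      filter_upwards [An_zero x hx.1] with n hn
      rw [indicator_of_notMem hn.1]
  -- the estimate with a parameter
  have key : ∀ δ : ℝ, 0 < δ → ∀ n : ℕ, |∫ x in Dc 21, U x * En φ n x| ≤
      M * (1 / δ * ∫ x in Dc 21, (An n).indicator (fun x => U x ^ 2) x) + M * (δ * 16) := by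
    intro δ hδ n
    have he : 0 < exp (n : ℝ) := exp_pos _
    have i1 : IntegrableOn ((An n).indicator fun x => U x ^ 2) (Dc 21) :=
      hi.indicator (meas_An n)
    have i2 : IntegrableOn ((An n).indicator fun _ : P => δ * exp (n : ℝ) ^ 2) (Dc 21) :=
      (integrableOn_const vol_Dc.ne).indicator (meas_An n)
    have hle : ∀ x ∈ Dc 21, ‖U x * En φ n x‖ ≤
        M * (1 / δ * (An n).indicator (fun x => U x ^ 2) x) +
          M * (An n).indicator (fun _ => δ * exp (n : ℝ) ^ 2) x := by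
      intro x hx
      by_cases hxn : x ∈ An n
      · rw [indicator_of_mem hxn, indicator_of_mem hxn, norm_mul, Real.norm_eq_abs,
          Real.norm_eq_abs]
        have h1 := En_bound hC hL hK h hl hk n hx hxn
        have h2 : |U x| * |En φ n x| ≤ |U x| * (M * exp n) :=
          mul_le_mul_of_nonneg_left h1 (abs_nonneg _)
        refine h2.trans ?_
        have h3 : |U x| * exp n ≤ 1 / δ * U x ^ 2 + δ * exp (n : ℝ) ^ 2 := by
          rw [← sq_abs (U x)]
          have h4 : 1 / δ * |U x| ^ 2 + δ * exp (n : ℝ) ^ 2 - |U x| * exp n =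
              1 / δ * ((|U x| - δ * exp n / 2) ^ 2 + 3 / 4 * (δ * exp n) ^ 2) := by
            field_simp
            ring
          have h5 : 0 ≤ 1 / δ * ((|U x| - δ * exp n / 2) ^ 2 + 3 / 4 * (δ * exp n) ^ 2) := by
            positivity
          linarith
        calc |U x| * (M * exp n) = M * (|U x| * exp n) := by ring
          _ ≤ M * (1 / δ * U x ^ 2 + δ * exp (n : ℝ) ^ 2) := mul_le_mul_of_nonneg_left h3 hM0
          _ = _ := by ring
      · rw [En_zero φ n hxn, mul_zero, norm_zero, indicator_of_notMem hxn,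
          indicator_of_notMem hxn]
        simp
    have h6 := norm_integral_le_of_norm_le (μ := volume.restrict (Dc 21))
      (((i1.const_mul (1 / δ)).const_mul M).add (i2.const_mul M))
      ((ae_restrict_iff' (meas_Dc 21)).2 (Eventually.of_forall hle))
    rw [Real.norm_eq_abs] at h6
    refine h6.trans ?_
    rw [integral_add' ((i1.const_mul (1 / δ)).const_mul M) (i2.const_mul M), integral_const_mul,
      integral_const_mul, integral_const_mul]
    refine add_le_add le_rfl (mul_le_mul_of_nonneg_left ?_ hM0)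
    rw [integral_indicator (meas_An n), setIntegral_const, smul_eq_mul]
    have h7 : (volume.restrict (Dc 21)).real (An n) ≤ 16 * (exp (n : ℝ) ^ 2)⁻¹ := by
      refine le_trans ?_ (vol_An n)
      refine ENNReal.toReal_mono ?_ (Measure.restrict_apply_le _ _)
      have hb : An n ⊆ Icc (-(2 * (exp (n : ℝ))⁻¹)) (2 * (exp (n : ℝ))⁻¹) ×ˢ
          Icc (-(2 * (exp (n : ℝ))⁻¹)) (2 * (exp (n : ℝ))⁻¹) := by
        intro x hx
        have h1 : rs x ≤ 2 * (exp (n : ℝ) ^ 2)⁻¹ := by
          rw [← div_eq_mul_inv, le_div_iff₀ (by positivity), mul_comm]; exact hx.2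
        have h2 : (2 * (exp (n : ℝ))⁻¹) ^ 2 = 4 * (exp (n : ℝ) ^ 2)⁻¹ := by
          rw [mul_pow, inv_pow]; norm_num
        have h3 : rs x ≤ (2 * (exp (n : ℝ))⁻¹) ^ 2 := by
          rw [h2]
          have : 0 < (exp (n : ℝ) ^ 2)⁻¹ := by positivity
          linarith
        have h4 := (sq_le_rs1 x).trans h3
        have h5 := (sq_le_rs2 x).trans h3
        have ha0 : 0 < 2 * (exp (n : ℝ))⁻¹ := by positivity
        exact ⟨⟨by nlinarith, by nlinarith⟩, ⟨by nlinarith, by nlinarith⟩⟩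
      exact ((measure_mono hb).trans_lt
        (isCompact_Icc.prod isCompact_Icc).measure_lt_top).ne
    calc (volume.restrict (Dc 21)).real (An n) * (δ * exp (n : ℝ) ^ 2) ≤
          16 * (exp (n : ℝ) ^ 2)⁻¹ * (δ * exp (n : ℝ) ^ 2) :=
          mul_le_mul_of_nonneg_right h7 (by positivity)
      _ = δ * 16 := by field_simp
  rw [Metric.tendsto_atTop]
  intro ε hε
  obtain ⟨δ, hδ, hδ2⟩ : ∃ δ : ℝ, 0 < δ ∧ M * (δ * 16) < ε / 2 := by
    refine ⟨ε / (64 * (M + 1)), by positivity, ?_⟩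
    have : M * (ε / (64 * (M + 1)) * 16) = ε / 4 * (M / (M + 1)) := by
      field_simp
      ring
    rw [this]
    have h8 : M / (M + 1) ≤ 1 := by rw [div_le_one (by positivity)]; linarith
    nlinarith
  have t2 : Tendsto (fun n : ℕ =>
      M * (1 / δ * ∫ x in Dc 21, (An n).indicator (fun x => U x ^ 2) x)) atTop (𝓝 0) := by
    have := (t1.const_mul (1 / δ)).const_mul M
    simpa using this
  obtain ⟨N, hN⟩ := (t2.eventually_lt_const (by positivity : (0 : ℝ) < ε / 2)).exists_forall_of_atTop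
  refine ⟨N, fun n hn => ?_⟩
  rw [Real.dist_eq, sub_zero]
  linarith [key δ hδ n, hN n hn]

/-- **JOB EXT**. -/
theorem ext (h : S_pol) (h1 : S_sqi) : S_ext := by
  intro W hW φ0 hφ0 ⟨b, hb, hsupp0⟩
  set U : P → ℝ := fun x => U0c x - W x with hUdef
  have hUm : Measurable U := meas_U0c.sub hW.meas
  have hUi : IntegrableOn (fun x => U x ^ 2) (Dc 21) := h1.2 W hW.meas hW.int
  have hq := int_q h
  have hUneg : ∀ x, U (-x) = -U x := fun x => by
    simp only [hUdef, U0c_neg, hW.odd]; ring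
  have hint : ∀ φ : P → ℝ, Sm φ → (∀ x, φ x ≠ 0 → rs x ≤ b) →
      IntegrableOn (fun x => U x * LL (bb eta0) φ x) (Dc 21) := by
    intro φ hφ hs
    obtain ⟨C, hC, hb⟩ := bdd_all hφ hs
    exact int_U hq hUm hUi (meas_LL hφ) (C := 8 * C) (by positivity)
      (fun x hx => LL_bound hC hb hx)
  -- reduction to odd functions
  suffices hodd : ∀ φ : P → ℝ, Sm φ → (∀ x, φ x ≠ 0 → rs x ≤ b) → (∀ x, φ (-x) = -φ x) →
      ∫ x in Dc 21, U x * LL (bb eta0) φ x = 0 by
    have hsm' : Sm (fun y : P => φ0 (-y)) := hφ0.comp contDiff_neg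
    have hs' : ∀ x : P, (fun y : P => φ0 (-y)) x ≠ 0 → rs x ≤ b := fun x hx => by
      have := hsupp0 (-x) hx
      rwa [rs_neg] at this
    have j1 : ∫ x in Dc 21, U x * LL (bb eta0) (fun y => φ0 (-y)) x =
        -∫ x in Dc 21, U x * LL (bb eta0) φ0 x := by
      rw [← int_neg 21 (fun x => U x * LL (bb eta0) φ0 x), ← integral_neg]
      refine integral_congr_ae (Eventually.of_forall fun x => ?_)
      simp only [LL_ng, hUneg]
      ring
    have j2 := hodd (fun x => 1 / 2 * φ0 x + (-1 / 2) * φ0 (-x))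
      ((contDiff_const.mul hφ0).add (contDiff_const.mul hsm')) (fun x hx => by
        by_contra hc
        apply hx
        have a1 : φ0 x = 0 := by
          by_contra h0; exact hc (hsupp0 x h0)
        have a2 : φ0 (-x) = 0 := by
          by_contra h0; exact hc (hs' x h0)
        simp [a1, a2]) (fun x => by simp only [neg_neg]; ring)
    have j3 : ∀ x, U x * LL (bb eta0) (fun x => 1 / 2 * φ0 x + (-1 / 2) * φ0 (-x)) x =
        1 / 2 * (U x * LL (bb eta0) φ0 x) +
          (-1 / 2) * (U x * LL (bb eta0) (fun y => φ0 (-y)) x) := by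
      intro x
      rw [LL_add (bb eta0) (contDiff_const.mul hφ0) (contDiff_const.mul hsm'),
        LL_cmul (bb eta0) hφ0, LL_cmul (bb eta0) hsm']
      ring
    have j4 : ∫ x in Dc 21, U x * LL (bb eta0) (fun x => 1 / 2 * φ0 x + (-1 / 2) * φ0 (-x)) x =
        1 / 2 * (∫ x in Dc 21, U x * LL (bb eta0) φ0 x) +
          (-1 / 2) * ∫ x in Dc 21, U x * LL (bb eta0) (fun y => φ0 (-y)) x := by
      rw [← integral_const_mul, ← integral_const_mul, ← integral_add
        ((hint φ0 hφ0 hsupp0).const_mul _) ((hint _ hsm' hs').const_mul _)]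
      exact integral_congr_ae (Eventually.of_forall j3)
    rw [j4, j1] at j2
    change ∫ x in Dc 21, U x * LL (bb eta0) φ0 x = 0
    linarith
  intro φ hφ hs hodd
  obtain ⟨C, hC, hbd⟩ := bdd_all hφ hs
  obtain ⟨K, hK, hk⟩ := k0_bd
  -- Lipschitz bound
  have hlip : ∀ x, |φ x| ≤ 2 * C * √(rs x) := by
    intro x
    have hφ00 : φ 0 = 0 := by
      have := hodd 0
      rw [neg_zero] at this
      linarith
    have hd : ∀ y ∈ (univ : Set P), ‖fderiv ℝ φ y‖ ≤ 2 * C := by
      intro y _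
      refine ContinuousLinearMap.opNorm_le_bound _ (by positivity) fun v => ?_
      rw [fderiv_eq hφ, Real.norm_eq_abs]
      obtain ⟨-, d1, d2, -⟩ := hbd y
      have v1 : |v.1| ≤ ‖v‖ := norm_fst_le v
      have v2 : |v.2| ≤ ‖v‖ := norm_snd_le v
      refine (abs_add_le _ _).trans ?_
      rw [abs_mul, abs_mul]
      have a1 := mul_le_mul v1 d1 (abs_nonneg _) (norm_nonneg _)
      have a2 := mul_le_mul v2 d2 (abs_nonneg _) (norm_nonneg _)
      linarith
    have h3 := convex_univ.norm_image_sub_le_of_norm_fderiv_le (𝕜 := ℝ)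
      (fun y _ => (diff hφ) y) hd (mem_univ 0) (mem_univ x)
    rw [hφ00, sub_zero, sub_zero, Real.norm_eq_abs] at h3
    refine h3.trans (mul_le_mul_of_nonneg_left ?_ (by positivity))
    rw [Prod.norm_def]
    exact max_le (abs1 x) (abs2 x)
  have terr := err hφ hC (by positivity : 0 ≤ 2 * C) hK hbd hlip hk hUm hUi
  -- the equation for the truncated functions
  have heq : ∀ n : ℕ, ∫ x in Dc 21, U x * (kn n x * LL (bb eta0) φ x) =
      -∫ x in Dc 21, U x * En φ n x := by
    intro n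
    have he : 0 < exp (n : ℝ) := exp_pos _
    have i1 : IntegrableOn (fun x => U x * (kn n x * LL (bb eta0) φ x)) (Dc 21) := by
      refine int_U hq hUm hUi ((sm_kn n).continuous.measurable.mul (meas_LL hφ)) (C := 8 * C)
        (by positivity) fun x hx => ?_
      rw [abs_mul]
      refine le_trans ?_ (LL_bound hC hbd hx)
      calc |kn n x| * |LL (bb eta0) φ x| ≤ 1 * |LL (bb eta0) φ x| :=
            mul_le_mul_of_nonneg_right (kn_abs n x) (abs_nonneg _)
        _ = _ := one_mul _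
    have i2 : IntegrableOn (fun x => U x * En φ n x) (Dc 21) := by
      refine int_U hq hUm hUi (meas_En hφ n)
        (C := (4 * K * C + 18 * K * (2 * C)) * exp n) (by positivity) fun x hx => ?_
      have hqp : 0 ≤ 1 / (√(rs x) * ls x) := by
        have := ls_gt hx
        have : 0 < ls x := by linarith
        positivity
      have hM0 : 0 ≤ (4 * K * C + 18 * K * (2 * C)) * exp (n : ℝ) := by positivity
      by_cases hxn : x ∈ An n
      · have := En_bound hC (by positivity : 0 ≤ 2 * C) hK hbd hlip hk n hx hxn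
        nlinarith [mul_nonneg hM0 hqp]
      · rw [En_zero φ n hxn, abs_zero]
        positivity
    have e1 := hW.eq (fun x => kn n x * φ x) ((sm_kn n).mul hφ)
      ⟨(exp (n : ℝ) ^ 2)⁻¹, b, by positivity, hb, fun x hx => by
        have hk1 : kn n x ≠ 0 := left_ne_zero_of_mul hx
        have hk2 : φ x ≠ 0 := right_ne_zero_of_mul hx
        refine ⟨?_, hs x hk2⟩
        by_contra hc
        push Not at hc
        apply hk1
        refine k0_lo ?_
        rw [rs_smul]
        have := mul_lt_mul_of_pos_left hc (by positivity : 0 < exp (n : ℝ) ^ 2)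
        rw [mul_inv_cancel₀ (by positivity)] at this
        exact this.le⟩
    have e2 : ∀ x, U x * LL (bb eta0) (fun x => kn n x * φ x) x =
        U x * (kn n x * LL (bb eta0) φ x) + U x * En φ n x := by
      intro x
      rw [LL_mul (bb eta0) (sm_kn n) hφ, En]
      ring
    have e3 : ∫ x in Dc 21, U x * LL (bb eta0) (fun x => kn n x * φ x) x =
        (∫ x in Dc 21, U x * (kn n x * LL (bb eta0) φ x)) + ∫ x in Dc 21, U x * En φ n x := by
      rw [← integral_add i1 i2]
      exact integral_congr_ae (Eventually.of_forall e2)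
    have e4 : ∫ x in Dc 21, U x * LL (bb eta0) (fun x => kn n x * φ x) x = 0 := e1
    linarith
  -- the limit
  have tlim : Tendsto (fun n : ℕ => ∫ x in Dc 21, U x * (kn n x * LL (bb eta0) φ x)) atTop
      (𝓝 (∫ x in Dc 21, U x * LL (bb eta0) φ x)) := by
    refine tendsto_integral_of_dominated_convergence (fun x => ‖U x * LL (bb eta0) φ x‖)
      (fun n => (hUm.mul ((sm_kn n).continuous.measurable.mul (meas_LL hφ))).aestronglyMeasurable)
      (hint φ hφ hs).norm (fun n => Eventually.of_forall fun x => ?_) ?_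
    · rw [norm_mul, norm_mul, norm_mul, Real.norm_eq_abs (kn n x)]
      refine mul_le_mul_of_nonneg_left ?_ (norm_nonneg _)
      calc |kn n x| * ‖LL (bb eta0) φ x‖ ≤ 1 * ‖LL (bb eta0) φ x‖ :=
            mul_le_mul_of_nonneg_right (kn_abs n x) (norm_nonneg _)
        _ = _ := one_mul _
    · rw [ae_restrict_iff' (meas_Dc 21)]
      refine Eventually.of_forall fun x hx => ?_
      refine tendsto_const_nhds.congr' ?_
      filter_upwards [An_zero x hx.1] with n hn
      rw [hn.2, one_mul]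
  have tlim2 : Tendsto (fun n : ℕ => ∫ x in Dc 21, U x * (kn n x * LL (bb eta0) φ x)) atTop
      (𝓝 0) := by
    have h5 := terr.neg
    rw [neg_zero] at h5
    exact h5.congr fun n => (heq n).symm
  exact tendsto_nhds_unique tlim tlim2

end Pool.Agent.Q61.NDEXT
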