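import Pool.Agent.Q100.UMain

/-!
# Inequalities between vector lattice terms are inherited from the real line
-/

set_option autoImplicit false
open Filter Topology
open scoped Pointwise

noncomputable section

namespace Q61.OC

open Q100.U

universe u

section nf

variable {ι : Type u} [Fintype ι] {Z : BLat.{u}}

/-- linear forms -/
def ls (z : ι → Z) (l : ι → ℝ) : Z := ∑ i, l i • z i

lemma ls_add (z : ι → Z) (l m : ι → ℝ) : ls z (l + m) = ls z l + ls z m := by
  simp [ls, add_smul, Finset.sum_add_distrib]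

lemma ls_smul (z : ι → Z) (c : ℝ) (l : ι → ℝ) : ls z (c • l) = c • ls z l := by
  simp [ls, smul_smul, Finset.smul_sum]

lemma ls_zero (z : ι → Z) : ls z 0 = 0 := by simp [ls]

lemma ls_single [DecidableEq ι] (z : ι → Z) (i : ι) (c : ℝ) : ls z (Pi.single i c) = c • z i := by
  unfold ls
  rw [Finset.sum_eq_single i]
  · rw [Pi.single_eq_same]
  · intro j _ hj
    rw [Pi.single_eq_of_ne hj, zero_smul]
  · intro h; exact absurd (Finset.mem_univ i) h

/-- finite maxima of linear forms -/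
def mx (I : Finset (ι → ℝ)) (hI : I.Nonempty) (z : ι → Z) : Z := I.sup' hI (ls z)

lemma le_mx {I : Finset (ι → ℝ)} (hI : I.Nonempty) (z : ι → Z) {l : ι → ℝ} (hl : l ∈ I) :
    ls z l ≤ mx I hI z := Finset.le_sup' (ls z) hl

lemma mx_le {I : Finset (ι → ℝ)} (hI : I.Nonempty) (z : ι → Z) {w : Z}
    (h : ∀ l ∈ I, ls z l ≤ w) : mx I hI z ≤ w := Finset.sup'_le hI _ h

lemma mx_add [DecidableEq (ι → ℝ)] {I J : Finset (ι → ℝ)} (hI : I.Nonempty) (hJ : J.Nonempty)
    (z : ι → Z) : mx I hI z + mx J hJ z = mx (I + J) (hI.add hJ) z := by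
  refine le_antisymm ?_ (mx_le _ _ fun l hl => ?_)
  · rw [← le_sub_iff_add_le]
    refine mx_le _ _ fun l hl => ?_
    rw [le_sub_comm]
    refine mx_le _ _ fun m hm => ?_
    rw [le_sub_iff_add_le, add_comm, ← ls_add]
    exact le_mx _ _ (Finset.add_mem_add hl hm)
  · obtain ⟨a, ha, b, hb, rfl⟩ := Finset.mem_add.1 hl
    rw [ls_add]
    exact add_le_add (le_mx hI z ha) (le_mx hJ z hb)

lemma mx_smul [DecidableEq (ι → ℝ)] {I : Finset (ι → ℝ)} (hI : I.Nonempty) (z : ι → Z) {c : ℝ}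
    (hc : 0 ≤ c) : c • mx I hI z = mx (I.image (c • ·)) (hI.image _) z := by
  unfold mx
  rw [Finset.sup'_image, Finset.apply_sup'_eq_sup'_comp hI (fun x : Z => c • x)
    (fun x y => smul_sup_of_nonneg c hc x y)]
  congr 1
  funext l
  exact (ls_smul z c l).symm

lemma mx_sup [DecidableEq (ι → ℝ)] {I J : Finset (ι → ℝ)} (hI : I.Nonempty) (hJ : J.Nonempty)
    (z : ι → Z) : mx I hI z ⊔ mx J hJ z = mx (I ∪ J) (hI.mono Finset.subset_union_left) z :=
  (Finset.sup'_union hI hJ _).symm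

lemma mx_single (z : ι → Z) (l : ι → ℝ) :
    mx {l} (Finset.singleton_nonempty l) z = ls z l := Finset.sup'_singleton _

end nf

variable {A : Type u}

/-- every term is a difference of two maxima of linear forms -/
theorem nf (F : Finset A) (t : Tm A) : ∃ (I J : Finset ({a // a ∈ F} → ℝ)) (hI : I.Nonempty)
    (hJ : J.Nonempty), ∀ (Z : BLat.{u}) (z : A → Z), (∀ a, a ∉ F → z a = 0) →
      eval z t = mx I hI (fun i => z i) - mx J hJ (fun i => z i) := by
  classical
  induction t with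
  | zero =>
    refine ⟨{0}, {0}, Finset.singleton_nonempty _, Finset.singleton_nonempty _, fun Z z _ => ?_⟩
    rw [sub_self]; rfl
  | gen a =>
    by_cases ha : a ∈ F
    · refine ⟨{Pi.single ⟨a, ha⟩ 1}, {0}, Finset.singleton_nonempty _,
        Finset.singleton_nonempty _, fun Z z _ => ?_⟩
      rw [mx_single, mx_single, ls_zero, ls_single, one_smul, sub_zero]
      rfl
    · refine ⟨{0}, {0}, Finset.singleton_nonempty _, Finset.singleton_nonempty _,
        fun Z z hz => ?_⟩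
      rw [sub_self]
      exact hz a ha
  | add s t h1 h2 =>
    obtain ⟨I, J, hI, hJ, h⟩ := h1
    obtain ⟨I', J', hI', hJ', h'⟩ := h2
    refine ⟨I + I', J + J', hI.add hI', hJ.add hJ', fun Z z hz => ?_⟩
    show eval z s + eval z t = _
    rw [h Z z hz, h' Z z hz, ← mx_add hI hI', ← mx_add hJ hJ']
    abel
  | smul c t h1 =>
    obtain ⟨I, J, hI, hJ, h⟩ := h1
    rcases le_total 0 c with hc | hc
    · refine ⟨I.image (c • ·), J.image (c • ·), hI.image _, hJ.image _, fun Z z hz => ?_⟩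
      show c • eval z t = _
      rw [h Z z hz, ← mx_smul hI _ hc, ← mx_smul hJ _ hc, smul_sub]
    · have hc' : 0 ≤ -c := neg_nonneg.2 hc
      refine ⟨J.image (-c • ·), I.image (-c • ·), hJ.image _, hI.image _, fun Z z hz => ?_⟩
      show c • eval z t = _
      rw [h Z z hz, ← mx_smul hI _ hc', ← mx_smul hJ _ hc', smul_sub, neg_smul, neg_smul]
      abel
  | sup s t h1 h2 =>
    obtain ⟨I, J, hI, hJ, h⟩ := h1
    obtain ⟨I', J', hI', hJ', h'⟩ := h2
    refine ⟨(I + J') ∪ (I' + J), J + J', (hI.add hJ').mono Finset.subset_union_left,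
      hJ.add hJ', fun Z z hz => ?_⟩
    show eval z s ⊔ eval z t = _
    rw [h Z z hz, h' Z z hz, ← mx_sup (hI.add hJ') (hI'.add hJ), ← mx_add hI hJ',
      ← mx_add hI' hJ, ← mx_add hJ hJ', eq_sub_iff_add_eq, sup_add]
    congr 1 <;> abel

/-! ### the real line -/

/-- the identification of `R` with the real line -/
def valL : R.{u} →L[ℝ] ℝ :=
  LinearMap.mkContinuous
    { toFun := fun x => valR x
      map_add' := fun _ _ => rfl
      map_smul' := fun _ _ => rfl } 1 (fun x => by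
        rw [one_mul]
        exact (norm_R x).ge)

lemma valL_apply (x : R.{u}) : valL x = valR x := rfl

lemma valL_sup (x y : R.{u}) : valL (x ⊔ y) = valL x ⊔ valL y := rfl

lemma valL_mkR (x : ℝ) : valL (mkR.{u} x) = x := rfl

lemma valL_ls {ι : Type u} [Fintype ι] (z : ι → R.{u}) (l : ι → ℝ) :
    valL (ls z l) = ∑ i, l i * valL (z i) := by
  unfold ls
  rw [map_sum]
  rfl

lemma valL_mx {ι : Type u} [Fintype ι] {I : Finset (ι → ℝ)} (hI : I.Nonempty) (z : ι → R.{u}) :
    valL (mx I hI z) = I.sup' hI (fun l => ∑ i, l i * valL (z i)) := by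
  unfold mx
  rw [Finset.apply_sup'_eq_sup'_comp hI (fun x : R.{u} => valL x) valL_sup]
  congr 1
  funext l
  exact valL_ls z l

/-- the hull argument -/
theorem hull {ι : Type u} [Fintype ι] [DecidableEq ι] [DecidableEq (ι → ℝ)]
    {I J : Finset (ι → ℝ)} (hI : I.Nonempty)
    (hJ : J.Nonempty) (c : ℝ)
    (h : ∀ p : ι → ℚ, (I.sup' hI fun l => ∑ i, l i * (p i : ℝ)) -
      (J.sup' hJ fun l => ∑ i, l i * (p i : ℝ)) ≤ c * ‖(fun i : ι => (p i : ℝ))‖)
    {K : Finset (ι → ℝ)} (hK0 : 0 ∈ K) (hK1 : ∀ i : ι, (Pi.single i c : ι → ℝ) ∈ K)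
    (hK2 : ∀ i : ι, (Pi.single i (-c) : ι → ℝ) ∈ K) {l : ι → ℝ} (hl : l ∈ I) :
    l ∈ convexHull ℝ ((J + K : Finset (ι → ℝ)) : Set (ι → ℝ)) := by
  by_contra hcon
  obtain ⟨f, r, hf1, hf2⟩ := geometric_hahn_banach_closed_point (convex_convexHull ℝ _)
    ((Finset.finite_toSet (J + K)).isClosed_convexHull ℝ) hcon
  set q : ι → ℝ := fun i => f (Pi.single i 1) with hq
  have hfq : ∀ v : ι → ℝ, f v = ∑ i, v i * q i := by
    intro v
    have h1 : v = ∑ i, v i • (Pi.single i (1 : ℝ) : ι → ℝ) := by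
      funext j
      rw [Finset.sum_apply, Finset.sum_eq_single j]
      · simp
      · intro i _ hi
        rw [Pi.smul_apply, Pi.single_eq_of_ne (Ne.symm hi), smul_zero]
      · intro h; exact absurd (Finset.mem_univ j) h
    conv_lhs => rw [h1]
    rw [map_sum]
    exact Finset.sum_congr rfl fun i _ => by rw [map_smul, smul_eq_mul]
  -- an open set of points
  have hopen : IsOpen {q : ι → ℝ | ∀ m ∈ J + K, ∑ i, m i * q i < ∑ i, l i * q i} := by
    have : {q : ι → ℝ | ∀ m ∈ J + K, ∑ i, m i * q i < ∑ i, l i * q i} =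
        ⋂ m ∈ J + K, {q : ι → ℝ | ∑ i, m i * q i < ∑ i, l i * q i} := by
      ext q; simp
    rw [this]
    refine isOpen_biInter_finset fun m _ => isOpen_lt ?_ ?_ <;> fun_prop
  have hdr : DenseRange (fun (p : ι → ℚ) (i : ι) => (p i : ℝ)) :=
    DenseRange.piMap fun _ => Rat.denseRange_cast
  obtain ⟨p, hp⟩ := hdr.exists_mem_open hopen ⟨q, fun m hm => by
    rw [← hfq, ← hfq]
    exact (hf1 m (subset_convexHull ℝ _ hm)).trans hf2⟩
  have h1 := h p
  set N : ℝ := ‖(fun i : ι => (p i : ℝ))‖ with hN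
  have h3 : ∑ i, l i * (p i : ℝ) ≤ I.sup' hI (fun l => ∑ i, l i * (p i : ℝ)) :=
    Finset.le_sup' (fun l : ι → ℝ => ∑ i, l i * (p i : ℝ)) hl
  have h4 : (J.sup' hJ fun l : ι → ℝ => ∑ i, l i * (p i : ℝ)) + c * N <
      ∑ i, l i * (p i : ℝ) := by
    obtain ⟨m, hm, hm2⟩ := Finset.exists_mem_eq_sup' hJ
      (fun l : ι → ℝ => ∑ i, l i * (p i : ℝ))
    rw [hm2]
    -- an element of `K` whose value is `c * N`
    have h5 : ∃ k ∈ K, ∑ i, k i * (p i : ℝ) = c * N := by
      have hsing : ∀ (i : ι) (d : ℝ), ∑ j, (Pi.single i d : ι → ℝ) j * (p j : ℝ) = d * p i := by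
        intro i d
        rw [Finset.sum_eq_single i]
        · rw [Pi.single_eq_same]
        · intro j _ hj
          rw [Pi.single_eq_of_ne hj, zero_mul]
        · intro h; exact absurd (Finset.mem_univ i) h
      rcases isEmpty_or_nonempty ι with hι0 | hι0
      · refine ⟨0, hK0, ?_⟩
        have : N = 0 := by
          rw [hN]
          have : (fun i : ι => (p i : ℝ)) = 0 := Subsingleton.elim _ _
          rw [this, norm_zero]
        rw [this]; simp
      · obtain ⟨⟨i, hi⟩, -⟩ := IsGreatest.pi_norm (fun i : ι => (p i : ℝ))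
        simp only [Real.norm_eq_abs] at hi
        rcases le_total 0 (p i : ℝ) with h0 | h0
        · refine ⟨_, hK1 i, ?_⟩
          rw [hsing, hN, ← hi, abs_of_nonneg h0]
        · refine ⟨_, hK2 i, ?_⟩
          rw [hsing, hN, ← hi, abs_of_nonpos h0]
          ring
    obtain ⟨k, hk, hk2⟩ := h5
    have h6 := hp (m + k) (Finset.add_mem_add hm hk)
    simp only [Pi.add_apply, add_mul, Finset.sum_add_distrib] at h6
    rwa [hk2] at h6
  linarith

/-- **Inequalities valid at rational points are valid in all Banach lattices.** -/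
theorem yudin (F : Finset A) (t : Tm A) (c : ℝ) (hc : 0 ≤ c)
    (h : ∀ p : A → ℚ, (∀ a, a ∉ F → p a = 0) → ∀ M : ℝ, 0 ≤ M → (∀ a, |(p a : ℝ)| ≤ M) →
      valL (eval (fun a => mkR.{u} (p a)) t) ≤ c * M)
    (Z : BLat.{u}) (z : A → Z) (hz : ∀ a, a ∉ F → z a = 0) :
    eval z t ≤ c • ∑ a ∈ F, |z a| := by
  classical
  obtain ⟨I, J, hI, hJ, hIJ⟩ := nf F t
  set K : Finset ({a // a ∈ F} → ℝ) := insert 0 ((Finset.univ.image
      fun i : {a // a ∈ F} => (Pi.single i c : {a // a ∈ F} → ℝ)) ∪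
    (Finset.univ.image fun i : {a // a ∈ F} => (Pi.single i (-c) : {a // a ∈ F} → ℝ))) with hK
  have hK0 : 0 ∈ K := Finset.mem_insert_self _ _
  have hKne : K.Nonempty := ⟨0, hK0⟩
  have hK1 : ∀ i : {a // a ∈ F}, (Pi.single i c : {a // a ∈ F} → ℝ) ∈ K := fun i =>
    Finset.mem_insert_of_mem (Finset.mem_union_left _ (Finset.mem_image_of_mem _
      (Finset.mem_univ i)))
  have hK2 : ∀ i : {a // a ∈ F}, (Pi.single i (-c) : {a // a ∈ F} → ℝ) ∈ K := fun i =>
    Finset.mem_insert_of_mem (Finset.mem_union_right _ (Finset.mem_image_of_mem _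
      (Finset.mem_univ i)))
  have key : ∀ l ∈ I, l ∈ convexHull ℝ
      ((J + K : Finset ({a // a ∈ F} → ℝ)) : Set ({a // a ∈ F} → ℝ)) := by
    intro l hl
    refine hull hI hJ c (fun p => ?_) hK0 hK1 hK2 hl
    -- extend by zero
    set P : A → ℚ := fun a => if ha : a ∈ F then p ⟨a, ha⟩ else 0 with hP
    have hP1 : ∀ i : {a // a ∈ F}, P i = p i := fun i => by
      rw [hP]; simp only [i.2, dif_pos]
    have hP2 : ∀ a, a ∉ F → P a = 0 := fun a ha => by
      rw [hP]; simp only [ha, dif_neg, not_false_eq_true]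
    have hbd : ∀ a, |(P a : ℝ)| ≤ ‖(fun i : {a // a ∈ F} => (p i : ℝ))‖ := by
      intro a
      by_cases ha : a ∈ F
      · have h1 := norm_le_pi_norm (fun i : {a // a ∈ F} => (p i : ℝ)) ⟨a, ha⟩
        rw [Real.norm_eq_abs] at h1
        have h2 := hP1 ⟨a, ha⟩
        rw [show P a = p ⟨a, ha⟩ from h2]
        exact h1
      · rw [hP2 a ha]
        simp
    have h1 := h P hP2 _ (norm_nonneg _) hbd
    have h2 := hIJ R.{u} (fun a => mkR.{u} (P a)) (fun a ha => by
      show mkR.{u} ((P a : ℚ) : ℝ) = 0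
      rw [hP2 a ha, Rat.cast_zero]
      rfl)
    rw [h2, map_sub, valL_mx, valL_mx] at h1
    simp only [valL_mkR, hP1] at h1
    exact h1
  rw [hIJ Z z hz, sub_le_iff_le_add]
  refine mx_le _ _ fun l hl => ?_
  -- the half space
  have h1 : ls (fun i : {a // a ∈ F} => z i) l ≤
      mx (J + K) (hJ.add hKne) (fun i : {a // a ∈ F} => z i) := by
    have hconv : Convex ℝ {v : {a // a ∈ F} → ℝ | ls (fun i : {a // a ∈ F} => z i) v ≤
        mx (J + K) (hJ.add hKne) (fun i : {a // a ∈ F} => z i)} := by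
      intro v hv w hw a b ha hb hab
      show ls _ (a • v + b • w) ≤ _
      rw [ls_add, ls_smul, ls_smul]
      calc _ ≤ a • mx (J + K) (hJ.add hKne) (fun i : {a // a ∈ F} => z i) +
            b • mx (J + K) (hJ.add hKne) (fun i : {a // a ∈ F} => z i) :=
            add_le_add (smul_le_smul_of_nonneg_left hv ha) (smul_le_smul_of_nonneg_left hw hb)
        _ = _ := by rw [← add_smul, hab, one_smul]
    exact convexHull_min (fun m hm => le_mx _ _ hm) hconv (key l hl)
  refine h1.trans ?_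
  rw [← mx_add hJ hKne, add_comm]
  refine add_le_add ?_ le_rfl
  have hsum : ∀ a ∈ F, |z a| ≤ ∑ a ∈ F, |z a| := fun a ha =>
    Finset.single_le_sum (f := fun a => |z a|) (fun b _ => abs_nonneg _) ha
  refine mx_le _ _ fun m hm => ?_
  rw [hK, Finset.mem_insert, Finset.mem_union, Finset.mem_image, Finset.mem_image] at hm
  rcases hm with rfl | ⟨i, _, rfl⟩ | ⟨i, _, rfl⟩
  · rw [ls_zero]
    exact smul_nonneg hc (Finset.sum_nonneg fun a _ => abs_nonneg _)
  · rw [ls_single]
    exact smul_le_smul_of_nonneg_left ((le_abs_self _).trans (hsum i i.2)) hc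
  · rw [ls_single, neg_smul, ← smul_neg]
    exact smul_le_smul_of_nonneg_left ((neg_le_abs _).trans (hsum i i.2)) hc

theorem yudin_abs (F : Finset A) (t : Tm A) (c : ℝ) (hc : 0 ≤ c)
    (h : ∀ p : A → ℚ, (∀ a, a ∉ F → p a = 0) → ∀ M : ℝ, 0 ≤ M → (∀ a, |(p a : ℝ)| ≤ M) →
      |valL (eval (fun a => mkR.{u} (p a)) t)| ≤ c * M)
    (Z : BLat.{u}) (z : A → Z) (hz : ∀ a, a ∉ F → z a = 0) :
    |eval z t| ≤ c • ∑ a ∈ F, |z a| := by
  refine abs_le'.2 ⟨yudin F t c hc (fun p h1 M h2 h3 => (le_abs_self _).trans (h p h1 M h2 h3))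
    Z z hz, ?_⟩
  have h1 := yudin F (.smul (-1) t) c hc (fun p h1 M h2 h3 => ?_) Z z hz
  · have h2 : eval z (.smul (-1) t) = -eval z t := by
      show (-1 : ℝ) • eval z t = _
      rw [neg_one_smul]
    rwa [h2] at h1
  · have h4 : eval (fun a => mkR.{u} (p a)) (.smul (-1) t) = -eval (fun a => mkR.{u} (p a)) t := by
      show (-1 : ℝ) • eval (fun a => mkR.{u} (p a)) t = _
      rw [neg_one_smul]
    rw [h4, map_neg]
    exact (neg_le_abs _).trans (h p h1 M h2 h3)

end Q61.OC
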