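import Pool.Agent.Q61.OC1

/-!
# Free Banach lattices: projections and separation by real homomorphisms
-/

set_option autoImplicit false
open Filter Topology

noncomputable section

namespace Q61.OC

open Q100.U

universe u

variable (A : Type u)

/-- admissible families: the unit ball -/
def FC : ∀ X : BLat.{u}, (A → X) → Prop := fun _ x => ∀ a, ‖x a‖ ≤ 1

theorem freeAdm : Adm (FC A) where
  norm_le _ _ h a := h a
  exists_one := ⟨R, fun _ => 0, fun _ => by rw [norm_zero]; exact zero_le_one⟩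

/-- the free Banach lattice -/
def FB : BLat.{u} := Un (freeAdm A)

variable {A}

/-- the generators -/
def dl (a : A) : FB A := gen (freeAdm A) a

theorem fb_ext {Y : BLat.{u}} {S T : FB A →L[ℝ] Y} (hS : IsLatHom S) (hT : IsLatHom T)
    (h : ∀ a, S (dl a) = T (dl a)) : S = T := hom_ext (freeAdm A) hS hT h

theorem norm_dl_le (a : A) : ‖dl a‖ ≤ 1 := norm_gen_le (freeAdm A) a

theorem fb_hom (Z : BLat.{u}) (z : A → Z) {M : ℝ} (hM : 0 < M) (hz : ∀ a, ‖z a‖ ≤ M) :
    ∃ T : FB A →L[ℝ] Z, IsLatHom T ∧ (∀ a, T (dl a) = z a) ∧ ‖T‖ ≤ M := by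
  obtain ⟨T, h1, h2, h3⟩ : ∃ T : FB A →L[ℝ] Z, IsLatHom T ∧ (∀ a, T (dl a) = M⁻¹ • z a) ∧
      ‖T‖ ≤ 1 := exists_hom (freeAdm A) Z (fun a => M⁻¹ • z a) (fun a => by
    rw [norm_smul, Real.norm_eq_abs, abs_of_pos (inv_pos.2 hM), inv_mul_le_iff₀ hM, mul_one]
    exact hz a)
  refine ⟨M • T, h1.smul M hM.le, fun a => ?_, ?_⟩
  · rw [_root_.smul_apply, h2 a, smul_smul, mul_inv_cancel₀ hM.ne', one_smul]
  · rw [norm_smul, Real.norm_eq_abs, abs_of_pos hM]
    calc M * ‖T‖ ≤ M * 1 := mul_le_mul_of_nonneg_left h3 hM.le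
      _ = M := mul_one M

theorem dense_ev : DenseRange (fun t : Tm A => eval (dl (A := A)) t) := denseRange_eval (freeAdm A)

theorem hom_ev {Y : BLat.{u}} {T : FB A →L[ℝ] Y} (hT : IsLatHom T) (t : Tm A) :
    T (eval dl t) = eval (fun a => T (dl a)) t := map_eval hT _ t

open Classical in
theorem exists_pr (S : Set A) : ∃ T : FB A →L[ℝ] FB A, IsLatHom T ∧
    (∀ a, T (dl a) = if a ∈ S then dl a else 0) ∧ ‖T‖ ≤ 1 :=
  fb_hom (FB A) (fun a => if a ∈ S then dl a else 0) one_pos (fun a => by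
    split_ifs
    · exact norm_dl_le a
    · rw [norm_zero]; exact zero_le_one)

/-- the projection onto the sublattice generated by `S` -/
def pr (S : Set A) : FB A →L[ℝ] FB A := (exists_pr S).choose

theorem pr_hom (S : Set A) : IsLatHom (pr S) := (exists_pr S).choose_spec.1

theorem pr_mem {S : Set A} {a : A} (h : a ∈ S) : pr S (dl a) = dl a := by
  rw [pr, (exists_pr S).choose_spec.2.1 a, if_pos h]

theorem pr_notMem {S : Set A} {a : A} (h : a ∉ S) : pr S (dl a) = 0 := by
  rw [pr, (exists_pr S).choose_spec.2.1 a, if_neg h]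

theorem norm_pr_le (S : Set A) : ‖pr S‖ ≤ 1 := (exists_pr S).choose_spec.2.2

theorem norm_pr_apply_le (S : Set A) (y : FB A) : ‖pr S y‖ ≤ ‖y‖ := by
  have := (pr S).le_of_opNorm_le (norm_pr_le S) y
  rwa [one_mul] at this

theorem pr_comp (S S' : Set A) : pr S ∘L pr S' = pr (S ∩ S') := by
  refine fb_ext ((pr_hom S).comp (pr_hom S')) (pr_hom _) fun a => ?_
  show pr S (pr S' (dl a)) = _
  by_cases h' : a ∈ S'
  · rw [pr_mem h']
    by_cases h : a ∈ S
    · rw [pr_mem h, pr_mem (S := S ∩ S') ⟨h, h'⟩]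
    · rw [pr_notMem h, pr_notMem (S := S ∩ S') (fun hh => h hh.1)]
  · rw [pr_notMem h', map_zero, pr_notMem (S := S ∩ S') (fun hh => h' hh.2)]

theorem pr_pr (S S' : Set A) (y : FB A) : pr S (pr S' y) = pr (S ∩ S') y := by
  rw [← pr_comp]; rfl

theorem pr_mono {S S' : Set A} (h : S ⊆ S') {y : FB A} (hy : pr S y = y) : pr S' y = y := by
  conv_lhs => rw [← hy]
  rw [pr_pr, Set.inter_eq_right.2 h, hy]

/-- terms are fixed by the projection onto their support -/
theorem exists_pr_ev (t : Tm A) : ∃ F : Finset A, pr (F : Set A) (eval dl t) = eval dl t := by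
  obtain ⟨F, hF⟩ := eval_dep t
  refine ⟨F, ?_⟩
  rw [hom_ev (pr_hom _)]
  exact hF _ _ _ fun a ha => pr_mem (by exact_mod_cast ha)

theorem exists_countable (y : FB A) : ∃ S : Set A, S.Countable ∧ pr S y = y := by
  have h1 : ∀ n : ℕ, ∃ t : Tm A, dist y (eval dl t) < 1 / (n + 1) := fun n =>
    dense_ev.exists_dist_lt y (by positivity)
  choose t ht using h1
  choose F hF using fun n => exists_pr_ev (t n)
  refine ⟨⋃ n, (F n : Set A), Set.countable_iUnion fun n => (F n).countable_toSet, ?_⟩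
  have h2 : Tendsto (fun n => eval dl (t n)) atTop (𝓝 y) := by
    rw [tendsto_iff_dist_tendsto_zero]
    refine squeeze_zero (fun n => dist_nonneg) (fun n => ?_) tendsto_one_div_add_atTop_nhds_zero_nat
    rw [dist_comm]; exact (ht n).le
  have h3 := ((pr (⋃ n, (F n : Set A))).continuous.tendsto y).comp h2
  have h4 : (fun n => pr (⋃ n, (F n : Set A)) (eval dl (t n))) = fun n => eval dl (t n) := by
    funext n
    exact pr_mono (Set.subset_iUnion (fun n => (F n : Set A)) n) (hF n)
  exact tendsto_nhds_unique (h4 ▸ h3) h2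

/-- a hom fixing the generators in `S` fixes the sublattice generated by `S` -/
theorem fix_of_gen {S : Set A} {T : FB A →L[ℝ] FB A} (hT : IsLatHom T)
    (h : ∀ a ∈ S, T (dl a) = dl a) {y : FB A} (hy : pr S y = y) : T y = y := by
  have h1 : T ∘L pr S = pr S := by
    refine fb_ext (hT.comp (pr_hom S)) (pr_hom S) fun a => ?_
    show T (pr S (dl a)) = _
    by_cases ha : a ∈ S
    · rw [pr_mem ha, h a ha]
    · rw [pr_notMem ha, map_zero]
  calc T y = (T ∘L pr S) y := by rw [ContinuousLinearMap.comp_apply, hy]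
    _ = y := by rw [h1, hy]

/-- a hom mapping the generators in `S` into the sublattice generated by `S'` -/
theorem range_of_gen {S S' : Set A} {T : FB A →L[ℝ] FB A} (hT : IsLatHom T)
    (h : ∀ a ∈ S, pr S' (T (dl a)) = T (dl a)) {y : FB A} (hy : pr S y = y) :
    pr S' (T y) = T y := by
  have h1 : (pr S' ∘L T) ∘L pr S = T ∘L pr S := by
    refine fb_ext (((pr_hom S').comp hT).comp (pr_hom S)) (hT.comp (pr_hom S)) fun a => ?_
    show pr S' (T (pr S (dl a))) = T (pr S (dl a))
    by_cases ha : a ∈ S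
    · rw [pr_mem ha, h a ha]
    · rw [pr_notMem ha, map_zero, map_zero]
  have h2 := congrArg (fun U => U y) h1
  simpa [ContinuousLinearMap.comp_apply, hy] using h2

theorem exists_finset {S : Set A} {y : FB A} (hy : pr S y = y) (h0 : y ≠ 0) :
    ∃ F : Finset A, (F : Set A) ⊆ S ∧ pr (F : Set A) y ≠ 0 := by
  classical
  have hpos : 0 < ‖y‖ / 2 := by have := norm_pos_iff.2 h0; linarith
  obtain ⟨t, ht⟩ := dense_ev.exists_dist_lt y hpos
  obtain ⟨F, hF⟩ := exists_pr_ev t
  rw [dist_eq_norm] at ht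
  refine ⟨F.filter (· ∈ S), fun a ha => by
    have := Finset.mem_coe.1 ha
    exact (Finset.mem_filter.1 this).2, fun h1 => ?_⟩
  have h2 : pr (F : Set A) y = 0 := by
    rw [← hy, pr_pr]
    have : (F : Set A) ∩ S = ((F.filter (· ∈ S) : Finset A) : Set A) := by
      ext a; simp
    rw [this]; exact h1
  have h3 : ‖eval dl t‖ ≤ ‖y - eval dl t‖ := by
    have h4 := norm_pr_apply_le (F : Set A) (y - eval dl t)
    rw [map_sub, h2, hF, zero_sub, norm_neg] at h4
    exact h4
  have h5 : ‖y‖ ≤ ‖y - eval dl t‖ + ‖eval dl t‖ := by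
    calc ‖y‖ = ‖(y - eval dl t) + eval dl t‖ := by rw [sub_add_cancel]
      _ ≤ _ := norm_add_le _ _
  linarith

/-! ### real points -/

theorem exists_ph (p : A →₀ ℚ) : ∃ T : FB A →L[ℝ] R.{u}, IsLatHom T ∧
    ∀ a, T (dl a) = mkR (p a) := by
  obtain ⟨T, h1, h2, -⟩ := fb_hom R.{u} (fun a => mkR (p a))
    (M := 1 + ∑ a ∈ p.support, |(p a : ℝ)|) (by positivity) (fun a => by
      rw [norm_R, valR_mkR]
      by_cases ha : a ∈ p.support
      · have := Finset.single_le_sum (f := fun a => |(p a : ℝ)|) (fun b _ => abs_nonneg _) ha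
        linarith
      · rw [Finsupp.notMem_support_iff.1 ha]
        simp only [Rat.cast_zero, abs_zero]
        positivity)
  exact ⟨T, h1, h2⟩

/-- the real homomorphism at a rational point -/
def ph (p : A →₀ ℚ) : FB A →L[ℝ] R.{u} := (exists_ph p).choose

theorem ph_hom (p : A →₀ ℚ) : IsLatHom (ph p) := (exists_ph p).choose_spec.1

theorem ph_dl (p : A →₀ ℚ) (a : A) : ph p (dl a) = mkR (p a) := (exists_ph p).choose_spec.2 a

theorem norm_ph_le (p : A →₀ ℚ) {M : ℝ} (hM : 0 < M) (h : ∀ a, |(p a : ℝ)| ≤ M) :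
    ‖ph p‖ ≤ M := by
  obtain ⟨T, h1, h2, h3⟩ := fb_hom R.{u} (fun a => mkR (p a)) hM (fun a => by
    rw [norm_R, valR_mkR]; exact h a)
  have : ph p = T := fb_ext (ph_hom p) h1 fun a => by rw [ph_dl, h2]
  rw [this]; exact h3

/-- **Separation by real homomorphisms.** -/
theorem separation {S : Set A} {y : FB A} (hy : pr S y = y)
    (h : ∀ p : A →₀ ℚ, (p.support : Set A) ⊆ S → ph p y = 0) : y = 0 := by
  classical
  by_contra h0
  obtain ⟨F, hFS, hF⟩ := exists_finset hy h0
  have key : ∀ η : ℝ, 0 < η → ‖pr (F : Set A) y‖ ≤ η * (1 + F.card) := by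
    intro η hη
    obtain ⟨t, ht⟩ := dense_ev.exists_dist_lt y hη
    rw [dist_eq_norm] at ht
    have h1 := yudin_abs F t η hη.le (fun p hp M hM0 hM => by
      -- the point as a finitely supported function
      set P : A →₀ ℚ := Finsupp.onFinset F p (fun a ha => by
        by_contra hc; exact ha (hp a hc)) with hP
      have hPS : (P.support : Set A) ⊆ S := fun a ha => hFS (by
        by_contra hc
        have : P a = 0 := hp a (fun hh => hc (by exact_mod_cast hh))
        exact (Finsupp.mem_support_iff.1 (by exact_mod_cast ha)) this)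
      have h2 : eval (fun a => mkR.{u} (p a)) t = ph P (eval dl t) := by
        rw [hom_ev (ph_hom P)]
        congr 1
        funext a
        rw [ph_dl]
        rfl
      rcases hM0.eq_or_lt with hM1 | hM1
      · have h3 : (fun a => mkR.{u} (p a)) = fun _ => 0 := by
          funext a
          have h4 := hM a
          rw [← hM1] at h4
          have h5 : (p a : ℝ) = 0 := abs_eq_zero.1 (le_antisymm h4 (abs_nonneg _))
          rw [h5]; rfl
        rw [h3, eval_zero, map_zero, abs_zero, ← hM1, mul_zero]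
      · rw [h2]
        have h3 : ph P (eval dl t) = -ph P (y - eval dl t) := by
          rw [map_sub, h P hPS, zero_sub, neg_neg]
        rw [h3, map_neg, abs_neg, valL_apply, ← norm_R]
        have h4 := (ph P).le_of_opNorm_le (norm_ph_le P hM1 hM) (y - eval dl t)
        nlinarith [norm_nonneg (y - eval dl t)])
      (FB A) (fun a => pr (F : Set A) (dl a)) (fun a ha => pr_notMem (by exact_mod_cast ha))
    rw [← hom_ev (pr_hom _)] at h1
    have h2 : ‖pr (F : Set A) (eval dl t)‖ ≤ η * F.card := by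
      have h3 : |pr (F : Set A) (eval dl t)| ≤ |η • ∑ a ∈ F, (|pr (F : Set A) (dl a)|)| :=
        h1.trans (le_abs_self _)
      refine (norm_le_norm_of_abs_le_abs h3).trans ?_
      rw [norm_smul, Real.norm_eq_abs, abs_of_pos hη]
      refine mul_le_mul_of_nonneg_left ?_ hη.le
      refine (norm_sum_le _ _).trans ?_
      have h4 : ∀ a ∈ F, ‖|pr (F : Set A) (dl a)|‖ ≤ 1 := fun a _ => by
        rw [norm_abs_eq_norm]
        exact (norm_pr_apply_le _ _).trans (norm_dl_le a)
      refine (Finset.sum_le_sum h4).trans ?_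
      rw [Finset.sum_const, nsmul_eq_mul, mul_one]
    have h3 : pr (F : Set A) y = pr (F : Set A) (y - eval dl t) + pr (F : Set A) (eval dl t) := by
      rw [map_sub, sub_add_cancel]
    rw [h3]
    refine (norm_add_le _ _).trans ?_
    have h4 := norm_pr_apply_le (F : Set A) (y - eval dl t)
    nlinarith
  have hpos : 0 < ‖pr (F : Set A) y‖ := norm_pos_iff.2 hF
  have hc : (0 : ℝ) < 1 + F.card := by positivity
  have h1 := key (‖pr (F : Set A) y‖ / (2 * (1 + F.card))) (by positivity)
  have h2 : ‖pr (F : Set A) y‖ / (2 * (1 + F.card)) * (1 + F.card) = ‖pr (F : Set A) y‖ / 2 := by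
    field_simp
  linarith

end Q61.OC
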