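import Pool.Agent.Q61.OC2

/-!
# Order continuous functionals
-/

set_option autoImplicit false
open Filter Topology

noncomputable section

namespace Q61.OC

open Q100.U

universe u

/-- atoms of a Banach lattice -/
def IsAtomOf {X : BLat.{u}} (a : X) : Prop :=
  0 < a ∧ ∀ x : X, 0 ≤ x → x ≤ a → ∃ c : ℝ, 0 ≤ c ∧ x = c • a

/-- order continuous functionals -/
def OrderCont {X : BLat.{u}} (f : X →L[ℝ] ℝ) : Prop :=
  ∀ (ι : Type u) [Preorder ι] [IsDirectedOrder ι] [Nonempty ι] (x : ι → X), Antitone x →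
    IsGLB (Set.range x) 0 → Tendsto (fun i => f (x i)) atTop (𝓝 0)

variable {X : BLat.{u}}

theorem OrderCont.neg {f : X →L[ℝ] ℝ} (hf : OrderCont f) : OrderCont (-f) := by
  intro ι _ _ _ x hx hg
  have := (hf ι x hx hg).neg
  simpa using this

theorem OrderCont.sub {f g : X →L[ℝ] ℝ} (hf : OrderCont f) (hg : OrderCont g) :
    OrderCont (f - g) := by
  intro ι _ _ _ x hx hgl
  have := (hf ι x hx hgl).sub (hg ι x hx hgl)
  simpa using this

theorem OrderCont.set {f : X →L[ℝ] ℝ} (hf : OrderCont f) {D : Set X} (hne : D.Nonempty)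
    (hdir : ∀ a ∈ D, ∀ b ∈ D, ∃ c ∈ D, c ≤ a ∧ c ≤ b) (hglb : IsGLB D 0) {ε : ℝ} (hε : 0 < ε) :
    ∃ d ∈ D, ∀ d' ∈ D, d' ≤ d → |f d'| < ε := by
  have : Nonempty (D)ᵒᵈ := ⟨OrderDual.toDual ⟨hne.some, hne.some_mem⟩⟩
  have : IsDirectedOrder (D)ᵒᵈ := ⟨fun a b => by
    obtain ⟨c, hc, h1, h2⟩ := hdir _ (OrderDual.ofDual a).2 _ (OrderDual.ofDual b).2
    exact ⟨OrderDual.toDual ⟨c, hc⟩, h1, h2⟩⟩
  have h := hf (D)ᵒᵈ (fun i => ((OrderDual.ofDual i : D) : X)) (fun a b hab => hab) (by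
    have : Set.range (fun i : (D)ᵒᵈ => ((OrderDual.ofDual i : D) : X)) = D := by
      ext x
      constructor
      · rintro ⟨i, rfl⟩; exact (OrderDual.ofDual i).2
      · intro hx; exact ⟨OrderDual.toDual ⟨x, hx⟩, rfl⟩
    rw [this]; exact hglb)
  have h1 := h.eventually (Metric.ball_mem_nhds 0 hε)
  obtain ⟨i, hi⟩ := h1.exists_forall_of_atTop
  refine ⟨(OrderDual.ofDual i : D), (OrderDual.ofDual i).2, fun d' hd' hle => ?_⟩
  have h2 := hi (OrderDual.toDual ⟨d', hd'⟩) hle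
  simpa [Real.dist_eq] using h2

theorem norm_mono {x y : X} (hx : 0 ≤ x) (hxy : x ≤ y) : ‖x‖ ≤ ‖y‖ :=
  norm_le_norm_of_abs_le_abs (by rw [abs_of_nonneg hx, abs_of_nonneg (hx.trans hxy)]; exact hxy)

theorem archimedean {w x : X} (hw : 0 ≤ w) (h : ∀ n : ℕ, n • w ≤ x) : w = 0 := by
  by_contra h0
  have h1 : 0 < ‖w‖ := norm_pos_iff.2 h0
  obtain ⟨n, hn⟩ := exists_nat_gt (‖x‖ / ‖w‖)
  rw [div_lt_iff₀ h1] at hn
  have h2 := norm_mono (nsmul_nonneg hw n) (h n)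
  rw [← Nat.cast_smul_eq_nsmul ℝ, norm_smul, Real.norm_natCast] at h2
  linarith

/-! ### the positive part of a functional -/

/-- the positive part -/
def fp (f : X →L[ℝ] ℝ) (x : X) : ℝ := sSup {r | ∃ y : X, 0 ≤ y ∧ y ≤ x ∧ r = f y}

theorem fp_bdd (f : X →L[ℝ] ℝ) (x : X) : BddAbove {r | ∃ y : X, 0 ≤ y ∧ y ≤ x ∧ r = f y} := by
  refine ⟨‖f‖ * ‖x‖, ?_⟩
  rintro r ⟨y, h1, h2, rfl⟩
  exact (Real.le_norm_self _).trans (f.le_opNorm_of_le (norm_mono h1 h2))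

theorem le_fp (f : X →L[ℝ] ℝ) {x y : X} (h1 : 0 ≤ y) (h2 : y ≤ x) : f y ≤ fp f x :=
  le_csSup (fp_bdd f x) ⟨y, h1, h2, rfl⟩

theorem fp_le (f : X →L[ℝ] ℝ) {x : X} (hx : 0 ≤ x) {c : ℝ}
    (h : ∀ y : X, 0 ≤ y → y ≤ x → f y ≤ c) : fp f x ≤ c := by
  refine csSup_le ⟨_, 0, le_rfl, hx, rfl⟩ ?_
  rintro r ⟨y, h1, h2, rfl⟩
  exact h y h1 h2

theorem fp_nonneg (f : X →L[ℝ] ℝ) {x : X} (hx : 0 ≤ x) : 0 ≤ fp f x := by
  have := le_fp f le_rfl hx
  rwa [map_zero] at this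

theorem fp_mono (f : X →L[ℝ] ℝ) {x y : X} (hx : 0 ≤ x) (hxy : x ≤ y) : fp f x ≤ fp f y :=
  fp_le f hx fun _ h1 h2 => le_fp f h1 (h2.trans hxy)

theorem fp_zero (f : X →L[ℝ] ℝ) : fp f (0 : X) = 0 := by
  refine le_antisymm (fp_le f le_rfl fun y h1 h2 => ?_) (fp_nonneg f le_rfl)
  rw [le_antisymm h2 h1, map_zero]

theorem fp_add_le (f : X →L[ℝ] ℝ) {x y : X} (hx : 0 ≤ x) (hy : 0 ≤ y) :
    fp f (x + y) ≤ fp f x + fp f y := by
  refine fp_le f (add_nonneg hx hy) fun w h1 h2 => ?_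
  have h3 : f w = f (w ⊓ x) + f (w - w ⊓ x) := by rw [← map_add, add_sub_cancel]
  rw [h3]
  refine add_le_add (le_fp f (le_inf h1 hx) inf_le_right) (le_fp f (sub_nonneg.2 inf_le_left) ?_)
  rw [sub_le_iff_le_add, ← sub_le_iff_le_add']
  refine le_inf ?_ ?_
  · rw [sub_le_self_iff]; exact hy
  · rw [sub_le_iff_le_add]; exact h2

theorem fp_superadd (f : X →L[ℝ] ℝ) {x y : X} (hx : 0 ≤ x) (hy : 0 ≤ y) :
    fp f x + fp f y ≤ fp f (x + y) := by
  rw [← le_sub_iff_add_le]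
  refine fp_le f hx fun w h1 h2 => ?_
  rw [le_sub_comm]
  refine fp_le f hy fun v h3 h4 => ?_
  rw [le_sub_iff_add_le, add_comm, ← map_add]
  exact le_fp f (add_nonneg h1 h3) (add_le_add h2 h4)

theorem fp_sum_le {ι : Type*} (f : X →L[ℝ] ℝ) (s : Finset ι) (x : ι → X) (hx : ∀ i, 0 ≤ x i) :
    fp f (∑ i ∈ s, x i) ≤ ∑ i ∈ s, fp f (x i) := by
  classical
  induction s using Finset.induction_on with
  | empty => simp [fp_zero]
  | insert i s hi ih =>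
    rw [Finset.sum_insert hi, Finset.sum_insert hi]
    exact (fp_add_le f (hx i) (Finset.sum_nonneg fun j _ => hx j)).trans (by linarith)

/-- the positive part of an order continuous functional is order continuous -/
theorem fp_orderCont {f : X →L[ℝ] ℝ} (hf : OrderCont f) {D : Set X} (hne : D.Nonempty)
    (hdir : ∀ a ∈ D, ∀ b ∈ D, ∃ c ∈ D, c ≤ a ∧ c ≤ b) (hglb : IsGLB D 0) {ε : ℝ} (hε : 0 < ε) :
    ∃ d ∈ D, fp f d < ε := by
  obtain ⟨x, hx⟩ := hne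
  have hpos : ∀ d ∈ D, 0 ≤ d := fun d hd => hglb.1 hd
  -- almost optimal `y`
  obtain ⟨_, ⟨y, hy1, hy2, rfl⟩, hy3⟩ := exists_lt_of_lt_csSup
    (s := {r | ∃ y : X, 0 ≤ y ∧ y ≤ x ∧ r = f y}) ⟨_, 0, le_rfl, hpos x hx, rfl⟩
    (show fp f x - ε / 2 < fp f x by linarith)
  -- the net `y ⊓ d`
  obtain ⟨_, ⟨d, hd, rfl⟩, hd2⟩ := hf.set (D := (fun d => y ⊓ d) '' D) ⟨_, x, hx, rfl⟩ (by
      rintro _ ⟨a, ha, rfl⟩ _ ⟨b, hb, rfl⟩
      obtain ⟨c, hc, h1, h2⟩ := hdir a ha b hb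
      exact ⟨_, ⟨c, hc, rfl⟩, inf_le_inf_left y h1, inf_le_inf_left y h2⟩) (by
      constructor
      · rintro _ ⟨a, ha, rfl⟩
        exact le_inf hy1 (hpos a ha)
      · intro w hw
        refine hglb.2 fun d hd => ?_
        exact (hw ⟨d, hd, rfl⟩).trans inf_le_right) (half_pos hε)
  obtain ⟨c, hc, hcd, hcx⟩ := hdir d hd x hx
  refine ⟨c, hc, ?_⟩
  have h1 := hd2 (y ⊓ c) ⟨c, hc, rfl⟩ (inf_le_inf_left y hcd)
  have h2 : f y = f (y - y ⊓ c) + f (y ⊓ c) := by rw [← map_add, sub_add_cancel]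
  have h3 : f (y - y ⊓ c) ≤ fp f (x - c) := by
    refine le_fp f (sub_nonneg.2 inf_le_left) ?_
    rw [sub_le_iff_le_add, ← sub_le_iff_le_add']
    refine le_inf ?_ ?_
    · rw [sub_le_self_iff, sub_nonneg]; exact hcx
    · rw [sub_le_iff_le_add, add_sub_cancel]; exact hy2
  have h4 : fp f (x - c) + fp f c ≤ fp f x := by
    have := fp_superadd f (sub_nonneg.2 hcx) (hpos c hc)
    rwa [sub_add_cancel] at this
  have h5 := (abs_lt.1 h1).2
  linarith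

/-- real homomorphisms and order continuous functionals vanishing on atoms -/
theorem exists_small {f : X →L[ℝ] ℝ} (hf : OrderCont f) (hat : ∀ a : X, IsAtomOf a → f a = 0)
    {χ : X →L[ℝ] ℝ} (hχ : ∀ x y : X, χ (x ⊔ y) = χ x ⊔ χ y) {x₀ : X} (hx₀ : 0 ≤ x₀) {ε : ℝ}
    (hε : 0 < ε) : ∃ y : X, 0 ≤ y ∧ y ≤ x₀ ∧ χ y = χ x₀ ∧ fp f y < ε := by
  have hinf : ∀ x y : X, χ (x ⊓ y) = χ x ⊓ χ y := fun x y => by
    have h1 : x ⊓ y = -(-x ⊔ -y) := by rw [neg_sup, neg_neg, neg_neg]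
    rw [h1, map_neg, hχ, map_neg, map_neg, neg_sup, neg_neg, neg_neg]
  have habs : ∀ x : X, χ |x| = |χ x| := fun x => by
    show χ (x ⊔ -x) = χ x ⊔ -χ x
    rw [hχ, map_neg]
  have hnn : ∀ x : X, 0 ≤ x → 0 ≤ χ x := fun x hx => by
    have := habs x
    rw [abs_of_nonneg hx] at this
    rw [this]; exact abs_nonneg _
  set D : Set X := {y | 0 ≤ y ∧ y ≤ x₀ ∧ χ y = χ x₀} with hD
  set L : Set X := {z | 0 ≤ z ∧ ∀ y ∈ D, z ≤ y} with hL
  have hxD : x₀ ∈ D := ⟨hx₀, le_rfl, rfl⟩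
  -- elements of `L` are zero or atoms
  have hL0 : ∀ z ∈ L, ∀ w : X, 0 ≤ w → w ≤ z → χ w = 0 → w = 0 := by
    intro z hz w hw hwz hχw
    refine archimedean (x := x₀) hw fun n => ?_
    induction n with
    | zero => rw [zero_smul]; exact hx₀
    | succ n ih =>
      have h1 : x₀ - n • w ∈ D := by
        refine ⟨sub_nonneg.2 ih, sub_le_self _ (nsmul_nonneg hw n), ?_⟩
        rw [map_sub, map_nsmul, hχw, smul_zero, sub_zero]
      have h2 := hwz.trans (hz.2 _ h1)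
      rw [succ_nsmul]
      rwa [le_sub_iff_add_le, add_comm] at h2
  have hL1 : ∀ z ∈ L, ∀ w : X, 0 ≤ w → w ≤ z → ∃ c : ℝ, 0 ≤ c ∧ w = c • z := by
    intro z hz w hw hwz
    rcases (hnn z hz.1).eq_or_lt with h0 | h0
    · have h1 := hL0 z hz z hz.1 le_rfl h0.symm
      refine ⟨0, le_rfl, ?_⟩
      rw [h1] at hwz
      rw [zero_smul]
      exact le_antisymm hwz hw
    · have hle : χ w ≤ χ z := by
        have := hnn (z - w) (sub_nonneg.2 hwz)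
        rw [map_sub] at this; linarith
      set c : ℝ := χ w / χ z with hc
      have hc0 : 0 ≤ c := div_nonneg (hnn w hw) h0.le
      have hc1 : c ≤ 1 := (div_le_one h0).2 hle
      refine ⟨c, hc0, ?_⟩
      have h1 : |w - c • z| = 0 := by
        refine hL0 z hz _ (abs_nonneg _) (abs_le'.2 ⟨?_, ?_⟩) ?_
        · exact (sub_le_self _ (smul_nonneg hc0 hz.1)).trans hwz
        · rw [neg_sub]
          refine (sub_le_self _ hw).trans ?_
          calc c • z ≤ (1 : ℝ) • z := smul_le_smul_of_nonneg_right hc1 hz.1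
            _ = z := one_smul _ _
        · rw [habs, map_sub, map_smul, hc, smul_eq_mul, div_mul_cancel₀ _ h0.ne', sub_self,
            abs_zero]
      have h2 : w - c • z = 0 := by
        rw [← norm_eq_zero, ← norm_abs_eq_norm, h1, norm_zero]
      exact sub_eq_zero.1 h2
  have hLf : ∀ z ∈ L, fp f z = 0 := by
    intro z hz
    have hfz : f z = 0 := by
      by_cases h0 : z = 0
      · rw [h0, map_zero]
      · exact hat z ⟨lt_of_le_of_ne hz.1 (Ne.symm h0), hL1 z hz⟩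
    refine le_antisymm (fp_le f hz.1 fun w hw hwz => ?_) (fp_nonneg f hz.1)
    obtain ⟨c, -, rfl⟩ := hL1 z hz w hw hwz
    rw [map_smul, hfz, smul_zero]
  -- the directed set
  obtain ⟨_, ⟨y, hy, z, hz, rfl⟩, hlt⟩ := fp_orderCont hf
    (D := {d | ∃ y ∈ D, ∃ z ∈ L, d = y - z})
    ⟨_, x₀, hxD, 0, ⟨le_rfl, fun y hy => hy.1⟩, rfl⟩ (by
      rintro _ ⟨y, hy, z, hz, rfl⟩ _ ⟨y', hy', z', hz', rfl⟩
      refine ⟨_, ⟨y ⊓ y', ⟨le_inf hy.1 hy'.1, inf_le_left.trans hy.2.1, ?_⟩, z ⊔ z',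
        ⟨hz.1.trans le_sup_left, fun v hv => sup_le (hz.2 v hv) (hz'.2 v hv)⟩, rfl⟩,
        sub_le_sub inf_le_left le_sup_left, sub_le_sub inf_le_right le_sup_right⟩
      rw [hinf, hy.2.2, hy'.2.2, inf_idem]) (by
      constructor
      · rintro _ ⟨y, hy, z, hz, rfl⟩
        exact sub_nonneg.2 (hz.2 y hy)
      · intro w hw
        have h1 : ∀ y ∈ D, ∀ z ∈ L, w ⊔ 0 ≤ y - z := fun y hy z hz =>
          sup_le (hw ⟨y, hy, z, hz, rfl⟩) (sub_nonneg.2 (hz.2 y hy))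
        have h2 : ∀ n : ℕ, n • (w ⊔ 0) ∈ L := by
          intro n
          induction n with
          | zero => rw [zero_smul]; exact ⟨le_rfl, fun y hy => hy.1⟩
          | succ n ih =>
            refine ⟨nsmul_nonneg le_sup_right _, fun y hy => ?_⟩
            rw [succ_nsmul, add_comm, ← le_sub_iff_add_le]
            exact h1 y hy _ ih
        have h3 := archimedean (x := x₀) (w := w ⊔ 0) le_sup_right fun n => (h2 n).2 x₀ hxD
        rw [← h3]; exact le_sup_left) hε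
  refine ⟨y, hy.1, hy.2.1, hy.2.2, ?_⟩
  have h1 := fp_add_le f (sub_nonneg.2 (hz.2 y hy)) hz.1
  rw [sub_add_cancel, hLf z hz, add_zero] at h1
  exact h1.trans_lt hlt

end Q61.OC
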