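import Pool.Agent.Q61.OC3

/-!
# Order continuous functionals on projective Banach lattices
-/

set_option autoImplicit false
open Filter Topology

noncomputable section

namespace Q61.OC

open Q100.U

universe u

theorem hom_mono {X Y : BLat.{u}} {T : X →L[ℝ] Y} (hT : IsLatHom T) {x y : X} (h : x ≤ y) :
    T x ≤ T y := by
  have := hT.nonneg (sub_nonneg.2 h)
  rw [map_sub] at this
  exact sub_nonneg.1 this

theorem valL_inj {x y : R.{u}} (h : valL x = valL y) : x = y := by
  have hx : x = mkR (valL x) := rfl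
  have hy : y = mkR (valL y) := rfl
  rw [hx, hy, h]

theorem pr_univ {A : Type u} (y : FB A) : pr Set.univ y = y := by
  have : pr (Set.univ : Set A) = ContinuousLinearMap.id ℝ _ :=
    fb_ext (pr_hom _) ⟨fun _ _ => rfl, fun _ _ => rfl⟩ fun a => pr_mem (Set.mem_univ a)
  rw [this]; rfl

theorem countable_support {A : Type u} {S : Set A} (hS : S.Countable) :
    {p : A →₀ ℚ | (p.support : Set A) ⊆ S}.Countable := by
  have : Countable S := hS.to_subtype
  classical
  refine (Set.countable_range (fun q : {a // a ∈ S} →₀ ℚ => q.extendDomain)).mono ?_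
  intro p hp
  refine ⟨p.subtypeDomain (· ∈ S), ?_⟩
  exact Finsupp.extendDomain_subtypeDomain p fun a ha => hp (by exact_mod_cast ha)

section main

variable (P : BLat.{u})

/-- the unit ball -/
def Ball : Type u := {a : P // ‖a‖ ≤ 1}

variable {P} in
/-- elements of the unit ball -/
def mkB (x : P) (h : ‖x‖ ≤ 1) : Ball P := ⟨x, h⟩

theorem exists_Q : ∃ Q : FB (Ball P) →L[ℝ] P, IsLatHom Q ∧ (∀ a : Ball P, Q (dl a) = a.1) ∧
    ‖Q‖ ≤ 1 := fb_hom P (fun a : Ball P => a.1) one_pos fun a => a.2

/-- the canonical quotient map -/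
def Qm : FB (Ball P) →L[ℝ] P := (exists_Q P).choose

theorem Qm_hom : IsLatHom (Qm P) := (exists_Q P).choose_spec.1

theorem Qm_dl (a : Ball P) : Qm P (dl a) = a.1 := (exists_Q P).choose_spec.2.1 a

theorem Qm_mkB (x : P) (h : ‖x‖ ≤ 1) : Qm P (dl (mkB x h)) = x := Qm_dl P _

theorem norm_Qm : ‖Qm P‖ ≤ 1 := (exists_Q P).choose_spec.2.2

theorem norm_Qm_apply (y : FB (Ball P)) : ‖Qm P y‖ ≤ ‖y‖ := by
  have := (Qm P).le_of_opNorm_le (norm_Qm P) y
  rwa [one_mul] at this

theorem Qm_lift (x : P) : ∃ y : FB (Ball P), Qm P y = x ∧ ‖y‖ ≤ ‖x‖ := by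
  by_cases h0 : x = 0
  · exact ⟨0, by rw [map_zero, h0], by rw [norm_zero]; exact norm_nonneg _⟩
  · have hpos : 0 < ‖x‖ := norm_pos_iff.2 h0
    have h1 : ‖‖x‖⁻¹ • x‖ ≤ 1 := by
      rw [norm_smul, norm_inv, norm_norm, inv_mul_cancel₀ hpos.ne']
    refine ⟨‖x‖ • dl (mkB (‖x‖⁻¹ • x) h1), ?_, ?_⟩
    · rw [map_smul, Qm_mkB, smul_smul, mul_inv_cancel₀ hpos.ne', one_smul]
    · rw [norm_smul, norm_norm]
      calc ‖x‖ * _ ≤ ‖x‖ * 1 := mul_le_mul_of_nonneg_left (norm_dl_le _) hpos.le
        _ = ‖x‖ := mul_one _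

theorem infDist_le_aux {X Y : BLat.{u}} (Q : X →L[ℝ] Y) (y w : X) (hw : Q w = Q y)
    (hn : ‖w‖ ≤ ‖Q y‖) : Metric.infDist y {z : X | Q z = 0} ≤ ‖Q y‖ := by
  have h1 : y - w ∈ {z : X | Q z = 0} := by
    show Q (y - w) = 0
    rw [map_sub, hw, sub_self]
  have h2 := Metric.infDist_le_dist_of_mem (x := y) h1
  rw [dist_eq_norm, sub_sub_cancel] at h2
  exact h2.trans hn

theorem le_infDist_aux {X Y : BLat.{u}} (Q : X →L[ℝ] Y) (hQ : ∀ x, ‖Q x‖ ≤ ‖x‖) (y : X) :
    ‖Q y‖ ≤ Metric.infDist y {z : X | Q z = 0} := by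
  have h0 : ({z : X | Q z = 0} : Set X).Nonempty := by
    refine ⟨(0 : X), ?_⟩
    show Q (0 : X) = 0
    exact map_zero Q
  refine (Metric.le_infDist h0).2 fun z hz => ?_
  have hz' : Q z = 0 := hz
  have h := hQ (y - z)
  rw [map_sub, hz', sub_zero] at h
  rwa [dist_eq_norm]

theorem Qm_quot : Q100.U.IsQuotientMap (Qm P) := by
  refine ⟨Qm_hom P, fun x => ?_, fun y => le_antisymm (le_infDist_aux _ (norm_Qm_apply P) y) ?_⟩
  · obtain ⟨y, hy, -⟩ := Qm_lift P x
    exact ⟨y, hy⟩
  · obtain ⟨w, hw, hw2⟩ := Qm_lift P (Qm P y)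
    exact infDist_le_aux _ y w hw hw2

variable {P}

/-- the key estimate -/
theorem key (hP : Projective P) {f : P →L[ℝ] ℝ} (hf : OrderCont f)
    (hat : ∀ a : P, IsAtomOf a → f a = 0) {x₀ : P} (hx₀ : 0 ≤ x₀) : fp f x₀ = 0 := by
  classical
  obtain ⟨T, hT, hQT, -⟩ := hP _ _ (Qm P) (Qm_quot P) (ContinuousLinearMap.id ℝ P)
    ⟨fun _ _ => rfl, fun _ _ => rfl⟩ 1 one_pos
  have hQT' : ∀ x : P, Qm P (T x) = x := fun x => by
    have := congrArg (fun U => U x) hQT
    exact this
  set Q := Qm P with hQ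
  have hQh : IsLatHom Q := Qm_hom P
  -- real homomorphisms on `P`
  have hχ : ∀ p : Ball P →₀ ℚ, ∀ x y : P, (valL ∘L (ph p ∘L T)) (x ⊔ y) =
      (valL ∘L (ph p ∘L T)) x ⊔ (valL ∘L (ph p ∘L T)) y := by
    intro p x y
    show valL (ph p (T (x ⊔ y))) = valL (ph p (T x)) ⊔ valL (ph p (T y))
    rw [hT.1, (ph_hom p).1, valL_sup]
  -- the small elements
  have hsmall : ∀ (p : Ball P →₀ ℚ) (n : ℕ), ∃ y : P, 0 ≤ y ∧ y ≤ x₀ ∧
      (valL ∘L (ph p ∘L T)) y = (valL ∘L (ph p ∘L T)) x₀ ∧ fp f y < (1 / 2) ^ n :=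
    fun p n => exists_small hf hat (hχ p) hx₀ (by positivity)
  choose y hy0 hyx hyχ hyf using hsmall
  choose sc hsc1 hsc2 using fun v : FB (Ball P) => exists_countable v
  -- the closing off
  let S : ℕ → Set (Ball P) := fun k => Nat.rec (sc (T x₀)) (fun _ s => s ∪
    (⋃ a ∈ s, sc (T (Q (dl a)))) ∪
    ⋃ p ∈ {p : Ball P →₀ ℚ | (p.support : Set (Ball P)) ⊆ s}, ⋃ n, sc (T (y p n))) k
  have hS0 : S 0 = sc (T x₀) := rfl
  have hSs : ∀ k, S (k + 1) = S k ∪ (⋃ a ∈ S k, sc (T (Q (dl a)))) ∪
    ⋃ p ∈ {p : Ball P →₀ ℚ | (p.support : Set (Ball P)) ⊆ S k}, ⋃ n, sc (T (y p n)) :=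
    fun _ => rfl
  have hSc : ∀ k, (S k).Countable := by
    intro k
    induction k with
    | zero => exact hsc1 _
    | succ k ih =>
      rw [hSs]
      refine (ih.union (ih.biUnion fun a _ => hsc1 _)).union ?_
      exact (countable_support ih).biUnion fun p _ => Set.countable_iUnion fun n => hsc1 _
  have hSmono : Monotone S := monotone_nat_of_le_succ fun k => by
    rw [hSs]
    exact Set.subset_union_left.trans Set.subset_union_left
  set S' : Set (Ball P) := ⋃ k, S k with hS'
  have hS'c : S'.Countable := Set.countable_iUnion hSc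
  have hfin : ∀ F : Finset (Ball P), (F : Set (Ball P)) ⊆ S' → ∃ k, (F : Set (Ball P)) ⊆ S k := by
    intro F hF
    have h1 : ∀ a : Ball P, ∃ k, a ∈ F → a ∈ S k := fun a => by
      by_cases ha : a ∈ F
      · obtain ⟨k, hk⟩ := Set.mem_iUnion.1 (hF (by exact_mod_cast ha))
        exact ⟨k, fun _ => hk⟩
      · exact ⟨0, fun h => absurd h ha⟩
    choose k hk using h1
    refine ⟨F.sup k, fun a ha => ?_⟩
    have ha' : a ∈ F := by exact_mod_cast ha
    exact hSmono (Finset.le_sup ha') (hk a ha')
  have hx₀S : pr S' (T x₀) = T x₀ :=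
    pr_mono (Set.subset_iUnion S 0) (hsc2 (T x₀))
  have hθS : ∀ a ∈ S', pr S' (T (Q (dl a))) = T (Q (dl a)) := by
    intro a ha
    obtain ⟨k, hk⟩ := Set.mem_iUnion.1 ha
    refine pr_mono (Set.Subset.trans ?_ (Set.subset_iUnion S (k + 1))) (hsc2 (T (Q (dl a))))
    rw [hSs]
    refine Set.Subset.trans ?_ Set.subset_union_left
    refine Set.Subset.trans ?_ Set.subset_union_right
    exact Set.subset_biUnion_of_mem (u := fun a => sc (T (Q (dl a)))) hk
  have hyS : ∀ p : Ball P →₀ ℚ, (p.support : Set (Ball P)) ⊆ S' → ∀ n,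
      pr S' (T (y p n)) = T (y p n) := by
    intro p hp n
    obtain ⟨k, hk⟩ := hfin p.support hp
    refine pr_mono (Set.Subset.trans ?_ (Set.subset_iUnion S (k + 1))) (hsc2 (T (y p n)))
    rw [hSs]
    refine Set.Subset.trans ?_ Set.subset_union_right
    refine Set.Subset.trans ?_ (Set.subset_biUnion_of_mem
      (u := fun p => ⋃ n, sc (T (y p n))) (show p ∈ {p : Ball P →₀ ℚ |
        (p.support : Set (Ball P)) ⊆ S k} from hk))
    exact Set.subset_iUnion (fun n => sc (T (y p n))) n
  -- enumeration of the rational points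
  obtain ⟨e, he⟩ := (countable_support hS'c).exists_eq_range ⟨0, by simp⟩
  have he1 : ∀ k, ((e k).support : Set (Ball P)) ⊆ S' := fun k => by
    have : e k ∈ {p : Ball P →₀ ℚ | (p.support : Set (Ball P)) ⊆ S'} := by
      rw [he]; exact ⟨k, rfl⟩
    exact this
  -- the estimate for every `m`
  have hm : ∀ m : ℕ, fp f x₀ ≤ 3 * (1 / 2) ^ m := by
    intro m
    let U : ℕ → P := fun N => Nat.rec 0 (fun N s => s ⊔ y (e N) (N + m)) N
    have hU0 : U 0 = 0 := rfl
    have hUs : ∀ N, U (N + 1) = U N ⊔ y (e N) (N + m) := fun _ => rfl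
    have hUpos : ∀ N, 0 ≤ U N := by
      intro N
      induction N with
      | zero => exact le_rfl
      | succ N ih => rw [hUs]; exact ih.trans le_sup_left
    have hUle : ∀ N, U N ≤ x₀ := by
      intro N
      induction N with
      | zero => exact hx₀
      | succ N ih => rw [hUs]; exact sup_le ih (hyx _ _)
    have hUmono : Monotone U := monotone_nat_of_le_succ fun N => by rw [hUs]; exact le_sup_left
    have hUS : ∀ N, pr S' (T (U N)) = T (U N) := by
      intro N
      induction N with
      | zero => rw [hU0, map_zero, map_zero]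
      | succ N ih => rw [hUs, hT.1, (pr_hom S').1, ih, hyS _ (he1 N)]
    have hUf : ∀ N, fp f (U N) ≤ 2 * (1 / 2) ^ m - 2 * (1 / 2) ^ (N + m) := by
      intro N
      induction N with
      | zero => rw [hU0, fp_zero, zero_add, sub_self]
      | succ N ih =>
        have h1 : fp f (U (N + 1)) ≤ fp f (U N) + fp f (y (e N) (N + m)) := by
          refine (fp_mono f (hUpos (N + 1)) ?_).trans (fp_add_le f (hUpos N) (hy0 _ _))
          rw [hUs]
          exact sup_le (le_add_of_nonneg_right (hy0 _ _)) (le_add_of_nonneg_left (hUpos N))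
        have h2 := hyf (e N) (N + m)
        have h3 : (1 / 2 : ℝ) ^ (N + 1 + m) = (1 / 2) ^ (N + m) * (1 / 2) := by
          rw [show N + 1 + m = N + m + 1 by ring, pow_succ]
        rw [h3]
        linarith
    -- the greatest lower bound
    have hglb : IsGLB (Set.range fun N => x₀ - U N) 0 := by
      constructor
      · rintro _ ⟨N, rfl⟩
        exact sub_nonneg.2 (hUle N)
      · intro w hw
        set v := w ⊔ 0 with hv
        have hv0 : 0 ≤ v := le_sup_right
        have hvU : ∀ N, v ≤ x₀ - U N := fun N => sup_le (hw ⟨N, rfl⟩) (sub_nonneg.2 (hUle N))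
        suffices hvz : v = 0 by rw [← hvz]; exact le_sup_left
        by_contra hne
        have hTv : T v ≠ 0 := fun h => hne (by rw [← hQT' v, h, map_zero])
        obtain ⟨p, hp⟩ : ∃ p : Ball P →₀ ℚ, ph p (T v) ≠ 0 := by
          by_contra hcon
          push Not at hcon
          exact hTv (separation (pr_univ _) fun p _ => hcon p)
        -- the homomorphism `φ`
        set φ : FB (Ball P) →L[ℝ] R.{u} := ph p ∘L (T ∘L Q) with hφ
        have hφh : IsLatHom φ := (ph_hom p).comp (hT.comp hQh)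
        have hφT : ∀ x, φ (T x) = ph p (T x) := fun x => by
          show ph p (T (Q (T x))) = _
          rw [hQT']
        have hφθ : ∀ z, φ (T (Q z)) = φ z := fun z => hφT (Q z)
        have hφv : 0 < valL (φ (T v)) := by
          have h1 : 0 ≤ φ (T v) := hφh.nonneg (hT.nonneg hv0)
          have h2 : 0 ≤ valL (φ (T v)) := h1
          refine lt_of_le_of_ne h2 fun h3 => hp ?_
          rw [← hφT]
          exact valL_inj (by rw [← h3, map_zero])
        have hφx : 0 < valL (φ (T x₀)) := by
          have h1 : v ≤ x₀ := by have := hvU 0; rwa [hU0, sub_zero] at this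
          have h2 : φ (T v) ≤ φ (T x₀) := hom_mono hφh (hom_mono hT h1)
          have h3 : valL (φ (T v)) ≤ valL (φ (T x₀)) := h2
          linarith
        set ρ : FB (Ball P) := (valL (φ (T x₀)))⁻¹ • T x₀ with hρ
        have hρS : pr S' ρ = ρ := by rw [hρ, map_smul, hx₀S]
        have hφρ : valL (φ ρ) = 1 := by
          rw [hρ, map_smul, map_smul, smul_eq_mul, inv_mul_cancel₀ hφx.ne']
        have hcb : ∀ a : Ball P, |valL (φ (dl a))| ≤ ‖φ‖ := fun a => by
          rw [valL_apply, ← norm_R]
          refine (φ.le_opNorm (dl a)).trans ?_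
          calc ‖φ‖ * ‖dl a‖ ≤ ‖φ‖ * 1 := mul_le_mul_of_nonneg_left (norm_dl_le a) (norm_nonneg _)
            _ = ‖φ‖ := mul_one _
        -- the retraction
        obtain ⟨r, hr, hr1, -⟩ := fb_hom (FB (Ball P))
          (fun a : Ball P => if a ∈ S' then dl a else valL (φ (dl a)) • ρ)
          (M := 1 + ‖φ‖ * ‖ρ‖) (by positivity) (fun a => by
            split_ifs
            · exact (norm_dl_le a).trans (le_add_of_nonneg_right (by positivity))
            · rw [norm_smul, Real.norm_eq_abs]
              have := mul_le_mul_of_nonneg_right (hcb a) (norm_nonneg ρ)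
              linarith)
        have hrS : ∀ {z}, pr S' z = z → r z = z := fun {z} hz =>
          fix_of_gen hr (fun a ha => by rw [hr1, if_pos ha]) hz
        have hrange : ∀ z, pr S' (r z) = r z := fun z =>
          range_of_gen (S := Set.univ) hr (fun a _ => by
            rw [hr1]
            split_ifs with ha
            · exact pr_mem ha
            · rw [map_smul, hρS]) (pr_univ z)
        have hφr : φ ∘L r = φ := by
          refine fb_ext (hφh.comp hr) hφh fun a => ?_
          show φ (r (dl a)) = _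
          rw [hr1]
          split_ifs
          · rfl
          · rw [map_smul]
            refine valL_inj ?_
            rw [map_smul, hφρ, smul_eq_mul, mul_one]
        have hφr' : ∀ z, φ (r z) = φ z := fun z => by
          have := congrArg (fun U => U z) hφr
          exact this
        -- the element `v'`
        set v' : P := Q (r (T v)) with hv'
        have hTv' : pr S' (T v') = T v' := by
          have := range_of_gen (S := S') (S' := S') (T := T ∘L Q) (hT.comp hQh) hθS
            (hrange (T v))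
          exact this
        have hv'0 : 0 ≤ v' := hQh.nonneg (hr.nonneg (hT.nonneg hv0))
        have hv'U : ∀ N, v' ≤ x₀ - U N := by
          intro N
          have h1 : r (T v) ≤ r (T (x₀ - U N)) := hom_mono hr (hom_mono hT (hvU N))
          have h2 : r (T (x₀ - U N)) = T (x₀ - U N) := hrS (by
            rw [map_sub, map_sub, hx₀S, hUS])
          rw [h2] at h1
          have h3 := hom_mono hQh h1
          rwa [hQT'] at h3
        have hv'φ : valL (φ (T v')) ≠ 0 := by
          rw [hv', hφθ, hφr']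
          exact hφv.ne'
        -- but `v'` is zero
        refine hv'φ ?_
        have hz : T v' = 0 := by
          refine separation hTv' fun q hq => ?_
          obtain ⟨k, rfl⟩ : ∃ k, e k = q := by
            have : q ∈ Set.range e := by rw [← he]; exact hq
            exact this
          have h1 : v' ≤ x₀ - y (e k) (k + m) := by
            refine (hv'U (k + 1)).trans (sub_le_sub_left ?_ _)
            rw [hUs]; exact le_sup_right
          have h2 : ph (e k) (T v') ≤ ph (e k) (T (x₀ - y (e k) (k + m))) :=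
            hom_mono (ph_hom _) (hom_mono hT h1)
          have h3 : valL (ph (e k) (T v')) ≤ valL (ph (e k) (T (x₀ - y (e k) (k + m)))) := h2
          have h4 : valL (ph (e k) (T (x₀ - y (e k) (k + m)))) = 0 := by
            have h5 := hyχ (e k) (k + m)
            have h6 : valL (ph (e k) (T (y (e k) (k + m)))) = valL (ph (e k) (T x₀)) := h5
            rw [map_sub, map_sub, map_sub, h6, sub_self]
          have h5 : 0 ≤ ph (e k) (T v') := (ph_hom _).nonneg (hT.nonneg hv'0)
          have h6 : 0 ≤ valL (ph (e k) (T v')) := h5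
          have h7 : valL (ph (e k) (T v')) = 0 := le_antisymm (h4 ▸ h3) h6
          exact valL_inj (by rw [h7, map_zero])
        rw [hz, map_zero, map_zero]
    -- conclusion
    obtain ⟨_, ⟨N, rfl⟩, hN⟩ := fp_orderCont hf (D := Set.range fun N => x₀ - U N)
      ⟨_, 0, rfl⟩ (by
        rintro _ ⟨a, rfl⟩ _ ⟨b, rfl⟩
        exact ⟨_, ⟨max a b, rfl⟩, sub_le_sub_left (hUmono (le_max_left a b)) _,
          sub_le_sub_left (hUmono (le_max_right a b)) _⟩) hglb
      (show (0 : ℝ) < (1 / 2) ^ m by positivity)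
    have h1 := fp_add_le f (sub_nonneg.2 (hUle N)) (hUpos N)
    rw [sub_add_cancel] at h1
    have h2 := hUf N
    have h3 : (0 : ℝ) < (1 / 2) ^ (N + m) := by positivity
    simp only at hN
    linarith
  refine le_antisymm ?_ (fp_nonneg f hx₀)
  have h1 : Tendsto (fun m : ℕ => 3 * (1 / 2 : ℝ) ^ m) atTop (𝓝 (3 * 0)) :=
    (tendsto_pow_atTop_nhds_zero_of_lt_one (by norm_num) (by norm_num)).const_mul 3
  rw [mul_zero] at h1
  exact ge_of_tendsto' h1 hm

/-- **Order continuous functionals on projective Banach lattices are determined by atoms.** -/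
theorem main (hP : Projective P) {f : P →L[ℝ] ℝ} (hf : OrderCont f)
    (hat : ∀ a : P, IsAtomOf a → f a = 0) : f = 0 := by
  have h1 : ∀ x : P, 0 ≤ x → f x = 0 := by
    intro x hx
    have h2 : f x ≤ 0 := by
      rw [← key hP hf hat hx]
      exact le_fp f hx le_rfl
    have h3 : (-f) x ≤ 0 := by
      rw [← key hP hf.neg (fun a ha => by rw [_root_.neg_apply, hat a ha, neg_zero]) hx]
      exact le_fp (-f) hx le_rfl
    rw [_root_.neg_apply] at h3
    linarith
  ext x
  have h2 : x = x⁺ - x⁻ := (posPart_sub_negPart x).symm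
  rw [h2, map_sub, h1 _ (posPart_nonneg x), h1 _ (negPart_nonneg x)]
  simp

end main

end Q61.OC
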