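import Mathlib

set_option autoImplicit false

namespace Pool.Agent.Q61.OS

/-- The space `C[0,1]`. -/
abbrev CI : Type := C(unitInterval, ℝ)

/-- The oscillation of `f` on the interval `[0,1] ∩ [t - d, t + d]`. -/
noncomputable def osc (f : CI) (t : unitInterval) (d : ℝ) : ℝ :=
  sSup {r : ℝ | ∃ s u : unitInterval,
    |(s : ℝ) - t| ≤ d ∧ |(u : ℝ) - t| ≤ d ∧ r = |f s - f u|}

/-- The quantity `Γ_X(t)`. -/
noncomputable def Gam (X : Submodule ℝ CI) (t : unitInterval) : ℝ :=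
  sSup {a : ℝ | 0 ≤ a ∧ ∀ d : ℝ, 0 < d → ∃ f ∈ X, ‖f‖ = 1 ∧ a < osc f t d}

/-- The oscillating spectrum of `X`. -/
def Spec (X : Submodule ℝ CI) : Set unitInterval := {t | 0 < Gam X t}

/-- `X` is the range of a bounded linear projection of `C[0,1]`. -/
def Complemented (X : Submodule ℝ CI) : Prop :=
  ∃ P : CI →L[ℝ] CI, (∀ f, P (P f) = P f) ∧ ∀ f, f ∈ X ↔ ∃ g, P g = f

end Pool.Agent.Q61.OS
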