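import Mathlib
import Pool.Agent.Q61.OSD

set_option autoImplicit false

open Filter Topology

namespace Pool.Agent.Q61.OS

theorem osc_le {f : CI} {t : unitInterval} {d c : ℝ} (hc : 0 ≤ c)
    (h : ∀ s : unitInterval, |(s : ℝ) - t| ≤ d → |f s - f t| ≤ c) : osc f t d ≤ 2 * c := by
  refine Real.sSup_le ?_ (by linarith)
  rintro r ⟨s, u, hs, hu, rfl⟩
  have h1 := h s hs
  have h2 := h u hu
  rw [abs_le] at h1 h2
  rw [abs_le]
  constructor <;> linarith [h1.1, h1.2, h2.1, h2.2]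

theorem osc_bdd (f : CI) (t : unitInterval) (d : ℝ) :
    BddAbove {r : ℝ | ∃ s u : unitInterval,
      |(s : ℝ) - t| ≤ d ∧ |(u : ℝ) - t| ≤ d ∧ r = |f s - f u|} := by
  refine ⟨2 * ‖f‖, ?_⟩
  rintro r ⟨s, u, -, -, rfl⟩
  have h1 := f.norm_coe_le_norm s
  have h2 := f.norm_coe_le_norm u
  rw [Real.norm_eq_abs, abs_le] at h1 h2
  rw [abs_le]
  constructor <;> linarith [h1.1, h1.2, h2.1, h2.2]

theorem le_osc {f : CI} {t s : unitInterval} {d : ℝ} (hd : 0 ≤ d) (hs : |(s : ℝ) - t| ≤ d) :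
    |f s - f t| ≤ osc f t d :=
  le_csSup (osc_bdd f t d) ⟨s, t, hs, by simpa using hd, rfl⟩

theorem osc_le_two (f : CI) (t : unitInterval) (d : ℝ) : osc f t d ≤ 2 * ‖f‖ := by
  refine Real.sSup_le ?_ (by positivity)
  rintro r ⟨s, u, -, -, rfl⟩
  have h1 := f.norm_coe_le_norm s
  have h2 := f.norm_coe_le_norm u
  rw [Real.norm_eq_abs, abs_le] at h1 h2
  rw [abs_le]
  constructor <;> linarith [h1.1, h1.2, h2.1, h2.2]

variable {Z : Type*} [NormedAddCommGroup Z] [NormedSpace ℝ Z]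

/-- Evaluation at a point. -/
noncomputable def ev (s : unitInterval) : CI →L[ℝ] ℝ :=
  LinearMap.mkContinuous
    { toFun := fun f => f s
      map_add' := fun _ _ => rfl
      map_smul' := fun _ _ => rfl } 1
    (fun f => by rw [one_mul]; exact f.norm_coe_le_norm s)

@[simp] theorem ev_apply (s : unitInterval) (f : CI) : ev s f = f s := rfl

theorem ev_norm (s : unitInterval) : ‖ev s‖ ≤ 1 :=
  LinearMap.mkContinuous_norm_le _ zero_le_one _

/-- The functional `z ↦ (T z) s`. -/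
noncomputable def dl (T : Z →L[ℝ] CI) (s : unitInterval) : Z →L[ℝ] ℝ :=
  (ev s).comp T

@[simp] theorem dl_apply (T : Z →L[ℝ] CI) (s : unitInterval) (z : Z) : dl T s z = T z s := rfl

/-- Norm continuity at `t` of `s ↦ (z ↦ (T z) s)`. -/
def NC (T : Z →L[ℝ] CI) (t : unitInterval) : Prop :=
  ContinuousAt (fun s => dl T s) t

theorem NC.spec {T : Z →L[ℝ] CI} {t : unitInterval} (h : NC T t) {ε : ℝ} (hε : 0 < ε) :
    ∃ d > 0, ∀ s : unitInterval, |(s : ℝ) - t| ≤ d → ∀ z, |T z s - T z t| ≤ ε * ‖z‖ := by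
  unfold NC at h
  rw [Metric.continuousAt_iff] at h
  obtain ⟨d, hd, h1⟩ := h ε hε
  refine ⟨d / 2, by positivity, fun s hs z => ?_⟩
  have h2 : dist s t < d := by
    rw [Subtype.dist_eq, Real.dist_eq]
    linarith
  have h3 := (h1 h2).le
  rw [dist_eq_norm] at h3
  have h4 := (dl T s - dl T t).le_opNorm z
  have h5 : (dl T s - dl T t) z = T z s - T z t := rfl
  rw [h5, Real.norm_eq_abs] at h4
  exact h4.trans (mul_le_mul_of_nonneg_right h3 (norm_nonneg z))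

theorem nc_of {T : Z →L[ℝ] CI} {t : unitInterval}
    (h : ∀ ε : ℝ, 0 < ε → ∃ d > 0, ∀ s : unitInterval, |(s : ℝ) - t| ≤ d → ∀ z,
      |T z s - T z t| ≤ ε * ‖z‖) : NC T t := by
  unfold NC
  rw [Metric.continuousAt_iff]
  intro ε hε
  obtain ⟨d, hd, h1⟩ := h (ε / 2) (by positivity)
  refine ⟨d, hd, fun {s} hs => ?_⟩
  rw [Subtype.dist_eq, Real.dist_eq] at hs
  rw [dist_eq_norm]
  have h2 : ‖dl T s - dl T t‖ ≤ ε / 2 := by
    refine ContinuousLinearMap.opNorm_le_bound _ (by positivity) fun z => ?_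
    exact h1 s hs.le z
  linarith

theorem nc_tsum_gen {E S : Type*} [NormedAddCommGroup E] [NormedSpace ℝ E] [CompleteSpace E]
    [TopologicalSpace S] (φ : S → E →L[ℝ] ℝ) (hφ : ∀ s, ‖φ s‖ ≤ 1) {A : ℕ → Z →L[ℝ] E}
    {b : ℕ → ℝ} (hb : Summable b) (hA : ∀ k, ‖A k‖ ≤ b k) {t : S}
    (h : ∀ k, ContinuousAt (fun s => (φ s).comp (A k)) t) :
    ContinuousAt (fun s => (φ s).comp (∑' k, A k)) t := by
  have hs : Summable A := Summable.of_norm_bounded hb hA
  have h1 : ∀ s : S, (φ s).comp (∑' k, A k) = ∑' k, (φ s).comp (A k) := by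
    intro s
    exact (ContinuousLinearMap.compL ℝ Z E ℝ (φ s)).map_tsum hs
  unfold ContinuousAt
  simp only [h1]
  refine tendsto_tsum_of_dominated_convergence (bound := b) hb (fun k => h k) ?_
  refine Eventually.of_forall fun s k => ?_
  refine (ContinuousLinearMap.opNorm_comp_le _ _).trans ?_
  calc ‖φ s‖ * ‖A k‖ ≤ 1 * ‖A k‖ :=
        mul_le_mul_of_nonneg_right (hφ s) (norm_nonneg _)
    _ ≤ b k := by rw [one_mul]; exact hA k

/-- A norm-summable series of operators that are norm continuous at `t`. -/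
theorem nc_tsum {A : ℕ → Z →L[ℝ] CI} {b : ℕ → ℝ} (hb : Summable b) (hA : ∀ k, ‖A k‖ ≤ b k)
    {t : unitInterval} (h : ∀ k, NC (A k) t) : NC (∑' k, A k) t :=
  nc_tsum_gen ev ev_norm hb hA h

theorem nc_add {A B : Z →L[ℝ] CI} {t : unitInterval} (hA : NC A t) (hB : NC B t) :
    NC (A + B) t := by
  have h1 : ∀ s : unitInterval, dl (A + B) s = dl A s + dl B s := fun s => rfl
  unfold NC
  simp only [h1]
  exact ContinuousAt.add hA hB

/-- The image under an embedding of a closed subspace. -/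
noncomputable def img (T : Z →L[ℝ] CI) (Y : Submodule ℝ Z) : Submodule ℝ CI :=
  Y.map T.toLinearMap

theorem mem_img {T : Z →L[ℝ] CI} {Y : Submodule ℝ Z} {f : CI} :
    f ∈ img T Y ↔ ∃ y ∈ Y, T y = f := by
  unfold img
  rw [Submodule.mem_map]
  rfl

theorem isClosed_img [CompleteSpace Z] {T : Z →L[ℝ] CI} {Y : Submodule ℝ Z} {c : ℝ}
    (hc : 0 < c) (hT : ∀ z, c * ‖z‖ ≤ ‖T z‖) (hY : IsClosed (Y : Set Z)) :
    IsClosed (img T Y : Set CI) := by
  have h1 : AntilipschitzWith (Real.toNNReal c⁻¹) T := by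
    refine AddMonoidHomClass.antilipschitz_of_bound T fun z => ?_
    rw [Real.coe_toNNReal _ (by positivity)]
    have := hT z
    rw [inv_mul_eq_div, le_div_iff₀ hc]
    linarith
  have h2 : IsClosedEmbedding T :=
    h1.isClosedEmbedding T.uniformContinuous
  have h3 : (img T Y : Set CI) = T '' (Y : Set Z) := by
    ext f
    simp only [SetLike.mem_coe, mem_img, Set.mem_image]
  rw [h3]
  exact h2.isClosedMap _ hY

/-- Norm continuity at `t` excludes `t` from the spectrum. -/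
theorem not_mem_spec {T : Z →L[ℝ] CI} {Y : Submodule ℝ Z} {c : ℝ} (hc : 0 < c)
    (hT : ∀ z, c * ‖z‖ ≤ ‖T z‖) {t : unitInterval} (h : NC T t) : t ∉ Spec (img T Y) := by
  intro ht
  have h0 : 0 < Gam (img T Y) t := ht
  have h1 : Gam (img T Y) t ≤ 0 := by
    refine Real.sSup_le ?_ le_rfl
    rintro a ⟨ha, h2⟩
    by_contra hlt
    push Not at hlt
    obtain ⟨d, hd, h3⟩ := h.spec (ε := a * c / 2) (by positivity)
    obtain ⟨f, hf, hf1, hf2⟩ := h2 d hd
    obtain ⟨z, -, rfl⟩ := mem_img.1 hf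
    have h4 := hT z
    rw [hf1] at h4
    have h5 : osc (T z) t d ≤ 2 * (a / 2) := by
      refine osc_le (by positivity) fun s hs => ?_
      refine (h3 s hs z).trans ?_
      nlinarith
    linarith
  linarith

/-- A uniform jump at `t` puts `t` in the spectrum. -/
theorem mem_spec {T : Z →L[ℝ] CI} {Y : Submodule ℝ Z} {t : unitInterval} {a : ℝ} (ha : 0 < a)
    (h : ∀ d : ℝ, 0 < d → ∃ z ∈ Y, ‖z‖ ≤ 1 ∧ ∃ s : unitInterval, |(s : ℝ) - t| ≤ d ∧
      a ≤ |T z s - T z t|) : t ∈ Spec (img T Y) := by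
  have hT0 : 0 < ‖T‖ := by
    obtain ⟨z, -, hz, s, -, h2⟩ := h 1 one_pos
    by_contra h3
    have h4 : ‖T‖ = 0 := le_antisymm (not_lt.1 h3) (norm_nonneg T)
    have h6 : ‖T z‖ ≤ 0 := by
      have := T.le_opNorm z
      rw [h4, zero_mul] at this
      exact this
    have h7 : T z = 0 := norm_le_zero_iff.1 h6
    rw [h7] at h2
    simp at h2
    linarith
  show 0 < Gam (img T Y) t
  have hb : BddAbove {a : ℝ | 0 ≤ a ∧ ∀ d : ℝ, 0 < d → ∃ f ∈ img T Y, ‖f‖ = 1 ∧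
      a < osc f t d} := by
    refine ⟨2, ?_⟩
    rintro b ⟨-, hb⟩
    obtain ⟨f, -, hf1, hf2⟩ := hb 1 one_pos
    have := osc_le_two f t 1
    rw [hf1] at this
    linarith
  have hpos : 0 < a / (2 * ‖T‖) := by positivity
  refine hpos.trans_le (le_csSup hb ⟨hpos.le, fun d hd => ?_⟩)
  obtain ⟨z, hz, hz1, s, hs, h2⟩ := h d hd
  have hne : T z ≠ 0 := by
    intro h0
    rw [h0] at h2
    simp at h2
    linarith
  have hn : 0 < ‖T z‖ := norm_pos_iff.2 hne
  refine ⟨‖T z‖⁻¹ • T z, ?_, ?_, ?_⟩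
  · exact Submodule.smul_mem _ _ (mem_img.2 ⟨z, hz, rfl⟩)
  · rw [norm_smul, norm_inv, norm_norm, inv_mul_cancel₀ hn.ne']
  · have h3 : |(‖T z‖⁻¹ • T z) s - (‖T z‖⁻¹ • T z) t| ≤ osc (‖T z‖⁻¹ • T z) t d :=
      le_osc hd.le hs
    refine lt_of_lt_of_le ?_ h3
    have h4 : (‖T z‖⁻¹ • T z) s - (‖T z‖⁻¹ • T z) t = ‖T z‖⁻¹ * (T z s - T z t) := by
      rw [ContinuousMap.smul_apply, ContinuousMap.smul_apply, smul_eq_mul, smul_eq_mul]
      ring
    rw [h4, abs_mul, abs_of_pos (by positivity : (0 : ℝ) < ‖T z‖⁻¹)]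
    have h5 : ‖T z‖ ≤ ‖T‖ := by
      refine (T.le_opNorm z).trans ?_
      nlinarith
    calc a / (2 * ‖T‖) < a / ‖T‖ := by
          apply div_lt_div_of_pos_left ha hT0
          linarith
      _ ≤ a / ‖T z‖ := by
          apply div_le_div_of_nonneg_left ha.le hn h5
      _ = ‖T z‖⁻¹ * a := by rw [div_eq_inv_mul]
      _ ≤ ‖T z‖⁻¹ * |T z s - T z t| := mul_le_mul_of_nonneg_left h2 (by positivity)

end Pool.Agent.Q61.OS
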