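import Mathlib

set_option autoImplicit false

open Filter Topology
open scoped ZeroAtInfty

namespace Pool.Agent.Q61.OS

/-- Signs. -/
def sg (b : Bool) : ℝ := if b then 1 else -1

theorem sg_true : sg true = 1 := rfl
theorem sg_false : sg false = -1 := by simp [sg]

theorem abs_sg (b : Bool) : |sg b| = 1 := by cases b <;> simp [sg]

/-- The linear form with coefficients `a` at a sign vector. -/
def lf {n : ℕ} (a : Fin n → ℝ) (θ : Fin n → Bool) : ℝ := ∑ i, a i * sg (θ i)

theorem sum_cons {n : ℕ} (F : (Fin (n + 1) → Bool) → ℝ) :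
    ∑ θ, F θ = ∑ θ : Fin n → Bool, (F (Fin.cons true θ) + F (Fin.cons false θ)) := by
  rw [← (Fin.consEquiv (fun _ : Fin (n + 1) => Bool)).sum_comp, Fintype.sum_prod_type,
    Fintype.sum_bool, ← Finset.sum_add_distrib]
  rfl

theorem lf_cons {n : ℕ} (a : Fin (n + 1) → ℝ) (b : Bool) (θ : Fin n → Bool) :
    lf a (Fin.cons b θ) = a 0 * sg b + lf (fun i => a i.succ) θ := by
  simp [lf, Fin.sum_univ_succ]

theorem m2 : ∀ {n : ℕ} (a : Fin n → ℝ), ∑ θ, lf a θ ^ 2 = 2 ^ n * ∑ i, a i ^ 2
  | 0, a => by simp [lf]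
  | n + 1, a => by
    rw [sum_cons]
    have h := m2 (fun i : Fin n => a i.succ)
    have h1 : ∀ θ : Fin n → Bool, lf a (Fin.cons true θ) ^ 2 + lf a (Fin.cons false θ) ^ 2 =
        2 * lf (fun i => a i.succ) θ ^ 2 + 2 * a 0 ^ 2 := by
      intro θ
      rw [lf_cons, lf_cons, sg_true, sg_false]
      ring
    simp only [h1]
    rw [Finset.sum_add_distrib, ← Finset.mul_sum, h, Finset.sum_const, Finset.card_univ,
      Fin.sum_univ_succ]
    simp only [Fintype.card_pi, Fintype.card_bool, Finset.prod_const, Finset.card_univ,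
      Fintype.card_fin, nsmul_eq_mul]
    push_cast
    ring

theorem m4 : ∀ {n : ℕ} (a : Fin n → ℝ), ∑ θ, lf a θ ^ 4 ≤ 3 * 2 ^ n * (∑ i, a i ^ 2) ^ 2
  | 0, a => by simp [lf]
  | n + 1, a => by
    rw [sum_cons]
    have h := m4 (fun i : Fin n => a i.succ)
    have h2 := m2 (fun i : Fin n => a i.succ)
    have h1 : ∀ θ : Fin n → Bool, lf a (Fin.cons true θ) ^ 4 + lf a (Fin.cons false θ) ^ 4 =
        2 * lf (fun i => a i.succ) θ ^ 4 + (12 * a 0 ^ 2) * lf (fun i => a i.succ) θ ^ 2 +
          2 * a 0 ^ 4 := by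
      intro θ
      rw [lf_cons, lf_cons, sg_true, sg_false]
      ring
    simp only [h1]
    rw [Finset.sum_add_distrib, Finset.sum_add_distrib, ← Finset.mul_sum, ← Finset.mul_sum, h2,
      Finset.sum_const, Finset.card_univ, Fin.sum_univ_succ]
    simp only [Fintype.card_pi, Fintype.card_bool, Finset.prod_const, Finset.card_univ,
      Fintype.card_fin, nsmul_eq_mul]
    push_cast
    set S := ∑ i : Fin n, a i.succ ^ 2 with hS
    have hp : (0 : ℝ) < 2 ^ n := by positivity
    have e : (2 : ℝ) ^ (n + 1) = 2 * 2 ^ n := by ring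
    rw [e]
    nlinarith [mul_nonneg hp.le (sq_nonneg (a 0 ^ 2)), h]

theorem lf_inj {n : ℕ} {a : Fin n → ℝ} (h : ∀ θ, lf a θ = 0) (i : Fin n) : a i = 0 := by
  have h1 := m2 a
  simp only [h] at h1
  have h2 : ∑ i, a i ^ 2 = 0 := by
    have : (0 : ℝ) < 2 ^ n := by positivity
    simp at h1
    rcases h1 with h1
    exact h1
  have h3 := (Finset.sum_eq_zero_iff_of_nonneg (fun i _ => sq_nonneg (a i))).1 h2 i
    (Finset.mem_univ i)
  exact pow_eq_zero_iff (two_ne_zero) |>.1 h3

/-- The inequality `|t| ≥ 3 t² / (2 c) - t⁴ / (2 c³)`. -/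
theorem abs_ge {c t : ℝ} (hc : 0 < c) : 3 / (2 * c) * t ^ 2 - t ^ 4 / (2 * c ^ 3) ≤ |t| := by
  have h0 : t ^ 2 = |t| ^ 2 := (sq_abs t).symm
  have h4 : t ^ 4 = |t| ^ 4 := by
    rw [show (4 : ℕ) = 2 * 2 from rfl, pow_mul, pow_mul, h0]
  rw [h0, h4]
  have hu : 0 ≤ |t| := abs_nonneg t
  generalize |t| = u at hu
  have : 3 / (2 * c) * u ^ 2 - u ^ 4 / (2 * c ^ 3) = u - u * (c - u) ^ 2 * (c + u / 2) / c ^ 3 := by
    field_simp
    ring
  rw [this]
  have : 0 ≤ u * (c - u) ^ 2 * (c + u / 2) / c ^ 3 := by positivity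
  linarith

/-- A Khinchine inequality. -/
theorem kh {n : ℕ} (a : Fin n → ℝ) :
    2 ^ n * √(∑ i, a i ^ 2) ≤ √3 * ∑ θ, |lf a θ| := by
  have hs0 : 0 ≤ ∑ i, a i ^ 2 := Finset.sum_nonneg fun i _ => sq_nonneg _
  rcases hs0.eq_or_lt with h0 | hpos
  · rw [← h0]
    simp only [Real.sqrt_zero, mul_zero]
    positivity
  set s := √(∑ i, a i ^ 2) with hs
  have hsp : 0 < s := Real.sqrt_pos.2 hpos
  have hss : s ^ 2 = ∑ i, a i ^ 2 := Real.sq_sqrt hs0
  have h3 : (√3 : ℝ) ^ 2 = 3 := Real.sq_sqrt (by norm_num)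
  have h3p : (0 : ℝ) < √3 := Real.sqrt_pos.2 (by norm_num)
  have hc : 0 < √3 * s := by positivity
  have h1 : ∑ θ, (3 / (2 * (√3 * s)) * lf a θ ^ 2 - lf a θ ^ 4 / (2 * (√3 * s) ^ 3)) ≤
      ∑ θ, |lf a θ| := Finset.sum_le_sum fun θ _ => abs_ge hc
  rw [Finset.sum_sub_distrib, ← Finset.mul_sum, ← Finset.sum_div, m2, ← hss] at h1
  have h2 := m4 a
  rw [← hss] at h2
  have h5 : (∑ θ, lf a θ ^ 4) / (2 * (√3 * s) ^ 3) ≤
      (3 * 2 ^ n * (s ^ 2) ^ 2) / (2 * (√3 * s) ^ 3) :=
    div_le_div_of_nonneg_right h2 (by positivity)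
  have h6 : 3 / (2 * (√3 * s)) * (2 ^ n * s ^ 2) - (3 * 2 ^ n * (s ^ 2) ^ 2) /
      (2 * (√3 * s) ^ 3) = 2 ^ n * s / √3 := by
    have e3 : (√3 * s) ^ 3 = 3 * √3 * s ^ 3 := by
      rw [mul_pow, show (√3 : ℝ) ^ 3 = √3 ^ 2 * √3 from by ring, h3]
    rw [e3]
    field_simp
    norm_num
  have h7 : 2 ^ n * s / √3 ≤ ∑ θ, |lf a θ| := by linarith
  rw [div_le_iff₀ h3p] at h7
  linarith

/-- The space `c_0`. -/
abbrev W : Type := C₀(ℕ, ℝ)

theorem W_le (y : W) (k : ℕ) : |y k| ≤ ‖y‖ := by
  have h := y.toBCF.norm_coe_le_norm k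
  rw [ZeroAtInftyContinuousMap.norm_toBCF_eq_norm] at h
  exact h

theorem W_norm_le {y : W} {C : ℝ} (hC : 0 ≤ C) (h : ∀ k, |y k| ≤ C) : ‖y‖ ≤ C := by
  rw [← ZeroAtInftyContinuousMap.norm_toBCF_eq_norm]
  exact (BoundedContinuousFunction.norm_le hC).2 h

/-- Finitely supported elements. -/
noncomputable def fs (f : ℕ → ℝ) (hf : f.support.Finite) : W where
  toFun := f
  continuous_toFun := continuous_of_discreteTopology
  zero_at_infty' := by
    rw [cocompact_eq_cofinite, Nat.cofinite_eq_atTop]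
    have h1 : ∀ᶠ k in atTop, f k = 0 := by
      obtain ⟨N, hN⟩ := hf.bddAbove
      filter_upwards [eventually_gt_atTop N] with k hk
      by_contra h
      exact absurd (hN (Function.mem_support.2 h)) (not_le.2 hk)
    exact (tendsto_congr' h1).2 tendsto_const_nhds

@[simp] theorem fs_apply (f : ℕ → ℝ) (hf : f.support.Finite) (k : ℕ) : fs f hf k = f k := rfl

/-- The code of a sign vector. -/
def code (n : ℕ) (θ : Fin n → Bool) : ℕ :=
  Encodable.encode (⟨n, θ⟩ : Σ n : ℕ, Fin n → Bool)

theorem code_inj {n m : ℕ} {θ : Fin n → Bool} {η : Fin m → Bool} (h : code n θ = code m η) :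
    (⟨n, θ⟩ : Σ n : ℕ, Fin n → Bool) = ⟨m, η⟩ := Encodable.encode_injective h

theorem code_inj' {n : ℕ} {θ η : Fin n → Bool} (h : code n θ = code n η) : θ = η := by
  have := code_inj h
  simpa using this

open Classical in
/-- The function on the block `n`, zero elsewhere. -/
noncomputable def extf (n : ℕ) (h : (Fin n → Bool) → ℝ) (k : ℕ) : ℝ :=
  ∑ θ, if k = code n θ then h θ else 0

theorem extf_code (n : ℕ) (h : (Fin n → Bool) → ℝ) (θ : Fin n → Bool) :
    extf n h (code n θ) = h θ := by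
  classical
  unfold extf
  rw [Finset.sum_eq_single θ]
  · simp
  · intro η _ hη
    rw [if_neg]
    intro h1
    exact hη (code_inj' h1).symm
  · simp

theorem extf_other (n : ℕ) (h : (Fin n → Bool) → ℝ) {k : ℕ} (hk : ∀ θ, k ≠ code n θ) :
    extf n h k = 0 := by
  classical
  unfold extf
  exact Finset.sum_eq_zero fun θ _ => if_neg (hk θ)

theorem extf_supp (n : ℕ) (h : (Fin n → Bool) → ℝ) : (extf n h).support.Finite := by
  refine (Set.finite_range (code n)).subset fun k hk => ?_
  by_contra h1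
  refine hk (extf_other n h fun θ h2 => h1 ⟨θ, h2.symm⟩)

/-- The embedding of the block `n`. -/
noncomputable def ext (n : ℕ) (h : (Fin n → Bool) → ℝ) : W := fs (extf n h) (extf_supp n h)

theorem ext_code (n : ℕ) (h : (Fin n → Bool) → ℝ) (θ : Fin n → Bool) :
    ext n h (code n θ) = h θ := extf_code n h θ

theorem ext_other (n : ℕ) (h : (Fin n → Bool) → ℝ) {k : ℕ} (hk : ∀ θ, k ≠ code n θ) :
    ext n h k = 0 := extf_other n h hk

theorem ext_norm (n : ℕ) {h : (Fin n → Bool) → ℝ} {C : ℝ} (hC : 0 ≤ C) (hh : ∀ θ, |h θ| ≤ C) :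
    ‖ext n h‖ ≤ C := by
  refine W_norm_le hC fun k => ?_
  by_cases hk : ∃ θ, k = code n θ
  · obtain ⟨θ, rfl⟩ := hk
    rw [ext_code]
    exact hh θ
  · push Not at hk
    rw [ext_other n h hk, abs_zero]
    exact hC

theorem ext_sum (n : ℕ) {ι : Type*} (s : Finset ι) (c : ι → ℝ)
    (h : ι → (Fin n → Bool) → ℝ) :
    ext n (fun θ => ∑ i ∈ s, c i * h i θ) = ∑ i ∈ s, c i • ext n (h i) := by
  ext k
  have h1 : (∑ i ∈ s, c i • ext n (h i)) k = ∑ i ∈ s, c i * ext n (h i) k := by
    classical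
    induction s using Finset.induction_on with
    | empty => simp
    | insert a s ha ih =>
      rw [Finset.sum_insert ha, Finset.sum_insert ha, ZeroAtInftyContinuousMap.add_apply, ih,
        ZeroAtInftyContinuousMap.smul_apply, smul_eq_mul]
  rw [h1]
  by_cases hk : ∃ θ, k = code n θ
  · obtain ⟨θ, rfl⟩ := hk
    simp only [ext_code]
  · push Not at hk
    simp only [ext_other n _ hk, mul_zero, Finset.sum_const_zero]

/-- The subspace `Y`: on every block the values form a linear form of the signs. -/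
def Y : Submodule ℝ W where
  carrier := {y | ∀ n, ∃ a : Fin n → ℝ, ∀ θ, y (code n θ) = lf a θ}
  add_mem' := by
    intro x y hx hy n
    obtain ⟨a, ha⟩ := hx n
    obtain ⟨b, hb⟩ := hy n
    refine ⟨a + b, fun θ => ?_⟩
    rw [ZeroAtInftyContinuousMap.add_apply, ha, hb]
    simp [lf, add_mul, Finset.sum_add_distrib]
  zero_mem' := fun n => ⟨0, fun θ => by simp [lf]⟩
  smul_mem' := by
    intro c x hx n
    obtain ⟨a, ha⟩ := hx n
    refine ⟨c • a, fun θ => ?_⟩
    rw [ZeroAtInftyContinuousMap.smul_apply, ha]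
    simp [lf, mul_assoc, Finset.mul_sum]

theorem isClosed_Y : IsClosed (Y : Set W) := by
  have h1 : (Y : Set W) = ⋂ n, (fun y : W => fun θ : Fin n → Bool => y (code n θ)) ⁻¹'
      ((LinearMap.range
        ({ toFun := fun a : Fin n → ℝ => lf a
           map_add' := by
            intro a b
            ext θ
            simp [lf, add_mul, Finset.sum_add_distrib]
           map_smul' := by
            intro c a
            ext θ
            simp [lf, mul_assoc, Finset.mul_sum] } : (Fin n → ℝ) →ₗ[ℝ] ((Fin n → Bool) → ℝ)) :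
        Submodule ℝ ((Fin n → Bool) → ℝ)) : Set ((Fin n → Bool) → ℝ)) := by
    ext y
    simp only [Set.mem_iInter, Set.mem_preimage, SetLike.mem_coe, LinearMap.mem_range]
    constructor
    · intro h n
      obtain ⟨a, ha⟩ := h n
      exact ⟨a, by ext θ; exact (ha θ).symm⟩
    · intro h n
      obtain ⟨a, ha⟩ := h n
      exact ⟨a, fun θ => (congrFun ha θ).symm⟩
  rw [h1]
  refine isClosed_iInter fun n => IsClosed.preimage ?_ (Submodule.closed_of_finiteDimensional _)
  refine continuous_pi fun θ => ?_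
  have : LipschitzWith 1 (fun y : W => y (code n θ)) := by
    refine LipschitzWith.of_dist_le_mul fun x y => ?_
    rw [NNReal.coe_one, one_mul, dist_eq_norm, dist_eq_norm, Real.norm_eq_abs]
    exact W_le (x - y) (code n θ)
  exact this.continuous

theorem ext_mem (n : ℕ) (a : Fin n → ℝ) : ext n (lf a) ∈ Y := by
  intro m
  by_cases h : m = n
  · subst h
    exact ⟨a, fun θ => ext_code _ _ θ⟩
  · refine ⟨0, fun θ => ?_⟩
    rw [ext_other]
    · simp [lf]
    · intro η h1
      have := code_inj h1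
      apply h
      exact congrArg Sigma.fst this

/-- `Y` is not complemented in `c_0`. -/
theorem no_proj (R : W →ₗ[ℝ] W) (C : ℝ) (hC : ∀ y, ‖R y‖ ≤ C * ‖y‖) (hR : ∀ y, R y ∈ Y)
    (hY : ∀ y ∈ Y, R y = y) : False := by
  classical
  have main : ∀ n : ℕ, 0 < n → (n : ℝ) ≤ 3 * C ^ 2 := by
    intro n hn
    -- bumps
    set e : (Fin n → Bool) → W := fun ω => ext n (fun θ => if θ = ω then 1 else 0) with he
    choose a ha using fun ω => hR (e ω) n
    -- the rows
    have hrow : ∀ θ : Fin n → Bool, ∑ ω, |lf (a ω) θ| ≤ C := by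
      intro θ
      set c : (Fin n → Bool) → ℝ := fun ω => if 0 ≤ lf (a ω) θ then 1 else -1 with hc
      have h1 : ext n c = ∑ ω, c ω • e ω := by
        have := ext_sum n Finset.univ c (fun ω θ => if θ = ω then (1 : ℝ) else 0)
        rw [he]
        simp only
        rw [← this]
        congr 1
        ext θ
        simp
      have h2 : R (ext n c) (code n θ) = ∑ ω, |lf (a ω) θ| := by
        rw [h1, map_sum]
        have h3 : ∀ s : Finset (Fin n → Bool), (∑ ω ∈ s, R (c ω • e ω)) (code n θ) =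
            ∑ ω ∈ s, |lf (a ω) θ| := by
          intro s
          induction s using Finset.induction_on with
          | empty => simp
          | insert b s hb ih =>
            rw [Finset.sum_insert hb, Finset.sum_insert hb, ZeroAtInftyContinuousMap.add_apply,
              ih, map_smul, ZeroAtInftyContinuousMap.smul_apply, smul_eq_mul, ha]
            congr 1
            simp only [hc]
            split_ifs with h4
            · rw [one_mul, abs_of_nonneg h4]
            · rw [abs_of_neg (not_le.1 h4)]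
              ring
        exact h3 _
      rw [← h2]
      have h4 : ‖ext n c‖ ≤ 1 := by
        refine ext_norm n zero_le_one fun ω => ?_
        simp only [hc]
        split_ifs <;> simp
      have hC0 : 0 ≤ C := by
        by_contra hneg
        push Not at hneg
        have h5 := hC (ext n (fun _ => 1))
        have h6 : (0 : ℝ) < ‖ext n (fun _ => (1 : ℝ))‖ := by
          have := W_le (ext n (fun _ => (1 : ℝ))) (code n (fun _ => true))
          rw [ext_code, abs_one] at this
          linarith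
        have h7 := norm_nonneg (R (ext n (fun _ => 1)))
        nlinarith
      calc R (ext n c) (code n θ) ≤ |R (ext n c) (code n θ)| := le_abs_self _
        _ ≤ ‖R (ext n c)‖ := W_le _ _
        _ ≤ C * ‖ext n c‖ := hC _
        _ ≤ C * 1 := mul_le_mul_of_nonneg_left h4 hC0
        _ = C := mul_one C
    -- the trace
    have hR2 : ∀ j : Fin n, ∀ θ : Fin n → Bool, ∑ ω, sg (ω j) * lf (a ω) θ = sg (θ j) := by
      intro j θ
      have h1 : ext n (fun θ => sg (θ j)) = ∑ ω : Fin n → Bool, sg (ω j) • e ω := by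
        have := ext_sum n Finset.univ (fun ω : Fin n → Bool => sg (ω j))
          (fun ω θ => if θ = ω then (1 : ℝ) else 0)
        rw [he]
        simp only
        rw [← this]
        congr 1
        ext θ
        simp
      have h2 : ext n (fun θ => sg (θ j)) ∈ Y := by
        have h3 : (fun θ : Fin n → Bool => sg (θ j)) = lf (fun i => if i = j then 1 else 0) := by
          ext θ
          simp [lf]
        rw [h3]
        exact ext_mem n _
      have h4 := hY _ h2
      have h5 : R (ext n (fun θ => sg (θ j))) (code n θ) = sg (θ j) := by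
        rw [h4, ext_code]
      rw [h1, map_sum] at h5
      have h3 : ∀ s : Finset (Fin n → Bool), (∑ ω ∈ s, R (sg (ω j) • e ω)) (code n θ) =
          ∑ ω ∈ s, sg (ω j) * lf (a ω) θ := by
        intro s
        induction s using Finset.induction_on with
        | empty => simp
        | insert b s hb ih =>
          rw [Finset.sum_insert hb, Finset.sum_insert hb, ZeroAtInftyContinuousMap.add_apply,
            ih, map_smul, ZeroAtInftyContinuousMap.smul_apply, smul_eq_mul, ha]
      rw [h3] at h5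
      exact h5
    have hdiag : ∀ j : Fin n, ∑ ω, sg (ω j) * a ω j = 1 := by
      intro j
      have h1 : ∀ θ, lf (fun i => (∑ ω, sg (ω j) * a ω i) - if i = j then 1 else 0) θ = 0 := by
        intro θ
        have h2 := hR2 j θ
        have h3 : lf (fun i => (∑ ω, sg (ω j) * a ω i) - if i = j then 1 else 0) θ =
            (∑ ω, sg (ω j) * lf (a ω) θ) - sg (θ j) := by
          simp only [lf, sub_mul, Finset.sum_sub_distrib, Finset.sum_mul, Finset.mul_sum]
          rw [Finset.sum_comm]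
          congr 1
          · refine Finset.sum_congr rfl fun ω _ => Finset.sum_congr rfl fun i _ => ?_
            ring
          · simp
        rw [h3, h2, sub_self]
      have h4 := lf_inj h1 j
      simp only [if_true] at h4
      linarith
    have htrace : ∑ ω, lf (a ω) ω = n := by
      have h1 : ∑ ω, lf (a ω) ω = ∑ j : Fin n, ∑ ω, sg (ω j) * a ω j := by
        simp only [lf]
        rw [Finset.sum_comm]
        refine Finset.sum_congr rfl fun i _ => Finset.sum_congr rfl fun ω _ => ?_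
        ring
      rw [h1]
      simp only [hdiag]
      simp
    -- lower bound for the columns
    have hcol : ∀ ω : Fin n → Bool, 2 ^ n * |lf (a ω) ω| ≤ √(3 * n) * ∑ θ, |lf (a ω) θ| := by
      intro ω
      have h1 := kh (a ω)
      have h2 : |lf (a ω) ω| ≤ √(n : ℝ) * √(∑ i, a ω i ^ 2) := by
        have h3 : (lf (a ω) ω) ^ 2 ≤ (∑ i, a ω i ^ 2) * ∑ i : Fin n, sg (ω i) ^ 2 :=
          Finset.sum_mul_sq_le_sq_mul_sq _ _ _
        have h4 : ∑ i : Fin n, sg (ω i) ^ 2 = n := by
          have : ∀ i, sg (ω i) ^ 2 = 1 := fun i => by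
            rw [← sq_abs, abs_sg, one_pow]
          simp [this]
        rw [h4] at h3
        rw [← Real.sqrt_mul (Nat.cast_nonneg n)]
        refine Real.le_sqrt_of_sq_le ?_
        rw [sq_abs]
        linarith
      have h5 : (0 : ℝ) < 2 ^ n := by positivity
      rw [Real.sqrt_mul (by norm_num : (0 : ℝ) ≤ 3)]
      calc 2 ^ n * |lf (a ω) ω| ≤ 2 ^ n * (√(n : ℝ) * √(∑ i, a ω i ^ 2)) :=
            mul_le_mul_of_nonneg_left h2 h5.le
        _ = √(n : ℝ) * (2 ^ n * √(∑ i, a ω i ^ 2)) := by ring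
        _ ≤ √(n : ℝ) * (√3 * ∑ θ, |lf (a ω) θ|) :=
            mul_le_mul_of_nonneg_left h1 (Real.sqrt_nonneg _)
        _ = √3 * √(n : ℝ) * ∑ θ, |lf (a ω) θ| := by ring
    have hfin : (2 : ℝ) ^ n * n ≤ √(3 * n) * (2 ^ n * C) := by
      calc (2 : ℝ) ^ n * n = ∑ ω, 2 ^ n * lf (a ω) ω := by rw [← Finset.mul_sum, htrace]
        _ ≤ ∑ ω, 2 ^ n * |lf (a ω) ω| := by
            refine Finset.sum_le_sum fun ω _ => mul_le_mul_of_nonneg_left (le_abs_self _) ?_
            positivity
        _ ≤ ∑ ω, √(3 * n) * ∑ θ, |lf (a ω) θ| := Finset.sum_le_sum fun ω _ => hcol ω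
        _ = √(3 * n) * ∑ θ, ∑ ω, |lf (a ω) θ| := by rw [← Finset.mul_sum, Finset.sum_comm]
        _ ≤ √(3 * n) * ∑ θ : Fin n → Bool, C := by
            refine mul_le_mul_of_nonneg_left ?_ (Real.sqrt_nonneg _)
            exact Finset.sum_le_sum fun θ _ => hrow θ
        _ = √(3 * n) * (2 ^ n * C) := by
            simp
    have hp : (0 : ℝ) < 2 ^ n := by positivity
    have h8 : (n : ℝ) ≤ √(3 * n) * C := by
      have : (2 : ℝ) ^ n * n ≤ 2 ^ n * (√(3 * n) * C) := by linarith
      exact le_of_mul_le_mul_left this hp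
    have hn' : (0 : ℝ) < n := by exact_mod_cast hn
    have h9 : (n : ℝ) ^ 2 ≤ 3 * n * C ^ 2 := by
      have h10 : (n : ℝ) ^ 2 ≤ (√(3 * n) * C) ^ 2 := pow_le_pow_left₀ hn'.le h8 2
      rw [mul_pow, Real.sq_sqrt (by positivity)] at h10
      exact h10
    have : (n : ℝ) * n ≤ n * (3 * C ^ 2) := by nlinarith
    exact le_of_mul_le_mul_left this hn'
  obtain ⟨N, hN⟩ := exists_nat_gt (3 * C ^ 2)
  have h1 : 0 < N := by
    have : (0 : ℝ) < N := lt_of_le_of_lt (by positivity) hN
    exact_mod_cast this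
  linarith [main N h1]

end Pool.Agent.Q61.OS
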