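import Mathlib
import Pool.Agent.Q61.OS1
import Pool.Agent.Q61.OS2

set_option autoImplicit false

open Filter Topology
open scoped ZeroAtInfty

namespace Pool.Agent.Q61.OS

/-- The tent of height one at `2^{-k}`. -/
noncomputable def tent (k : ℕ) (u : ℝ) : ℝ := max 0 (1 - 2 ^ (k + 2) * |u - (1 / 2) ^ k|)

theorem tent_nonneg (k : ℕ) (u : ℝ) : 0 ≤ tent k u := le_max_left _ _

theorem tent_le (k : ℕ) (u : ℝ) : tent k u ≤ 1 := by
  refine max_le zero_le_one ?_
  have : 0 ≤ 2 ^ (k + 2) * |u - (1 / 2) ^ k| := by positivity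
  linarith

theorem tent_self (k : ℕ) : tent k ((1 / 2) ^ k) = 1 := by
  unfold tent
  simp

theorem two_half (k : ℕ) : (2 : ℝ) ^ (k + 2) * (1 / 2) ^ k = 4 := by
  rw [pow_add, one_div, inv_pow]
  field_simp
  norm_num

theorem tent_ne {k : ℕ} {u : ℝ} (h : tent k u ≠ 0) :
    3 / 4 * (1 / 2) ^ k < u ∧ u < 5 / 4 * (1 / 2) ^ k := by
  have h1 : 0 < 1 - 2 ^ (k + 2) * |u - (1 / 2) ^ k| := by
    by_contra h2
    exact h (max_eq_left (not_lt.1 h2))
  have h2 := two_half k
  have h3 : (0 : ℝ) < 2 ^ (k + 2) := by positivity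
  have h4 : |u - (1 / 2) ^ k| < 1 / 4 * (1 / 2) ^ k := by
    by_contra h5
    push Not at h5
    have := mul_le_mul_of_nonneg_left h5 h3.le
    nlinarith
  rw [abs_lt] at h4
  constructor <;> linarith [h4.1, h4.2]

theorem tent_disj {j k : ℕ} {u : ℝ} (hj : tent j u ≠ 0) (hk : tent k u ≠ 0) : j = k := by
  have key : ∀ {j k : ℕ}, tent j u ≠ 0 → tent k u ≠ 0 → ¬ j < k := by
    intro j k hj hk hlt
    have h1 := (tent_ne hj).1
    have h2 := (tent_ne hk).2
    have h3 : ((1 : ℝ) / 2) ^ k ≤ (1 / 2) ^ (j + 1) :=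
      pow_le_pow_of_le_one (by norm_num) (by norm_num) hlt
    rw [pow_succ] at h3
    have h4 : (0 : ℝ) < (1 / 2) ^ j := by positivity
    linarith
  exact le_antisymm (not_lt.1 (key hk hj)) (not_lt.1 (key hj hk))

theorem tent_zero {k : ℕ} {u : ℝ} (hu : u ≤ 0) : tent k u = 0 := by
  by_contra h
  have := (tent_ne h).1
  have h4 : (0 : ℝ) < (1 / 2) ^ k := by positivity
  linarith

theorem tent_far {k : ℕ} {u : ℝ} (hu : 2 * (1 / 2) ^ k ≤ u) : tent k u = 0 := by
  by_contra h
  have := (tent_ne h).2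
  have h4 : (0 : ℝ) < (1 / 2) ^ k := by positivity
  linarith

theorem tent_two {k : ℕ} {u : ℝ} (hu : 2 ≤ u) : tent k u = 0 := by
  refine tent_far (le_trans ?_ hu)
  have : ((1 : ℝ) / 2) ^ k ≤ 1 := pow_le_one₀ (by norm_num) (by norm_num)
  linarith

theorem tent_cont (k : ℕ) : Continuous (tent k) := by
  unfold tent
  fun_prop

theorem tent_lip (k : ℕ) (u v : ℝ) : |tent k u - tent k v| ≤ 2 ^ (k + 2) * |u - v| := by
  unfold tent
  have h1 := abs_max_sub_max_le_abs (1 - 2 ^ (k + 2) * |u - (1 / 2) ^ k|)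
    (1 - 2 ^ (k + 2) * |v - (1 / 2) ^ k|) 0
  rw [max_comm 0, max_comm 0]
  refine h1.trans ?_
  have h2 : 1 - 2 ^ (k + 2) * |u - (1 / 2) ^ k| - (1 - 2 ^ (k + 2) * |v - (1 / 2) ^ k|) =
      2 ^ (k + 2) * (|v - (1 / 2) ^ k| - |u - (1 / 2) ^ k|) := by ring
  rw [h2, abs_mul, abs_of_pos (by positivity : (0 : ℝ) < 2 ^ (k + 2))]
  refine mul_le_mul_of_nonneg_left ?_ (by positivity)
  refine (abs_abs_sub_abs_le_abs_sub _ _).trans (le_of_eq ?_)
  rw [show v - (1 / 2) ^ k - (u - (1 / 2) ^ k) = v - u from by ring, abs_sub_comm]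

theorem sum_le' {y : ℕ → ℝ} {B : ℝ} (hB : 0 ≤ B) (s : Finset ℕ) (hy : ∀ k ∈ s, |y k| ≤ B)
    (u : ℝ) : |∑ k ∈ s, y k * tent k u| ≤ B := by
  classical
  by_cases h : ∃ k ∈ s, tent k u ≠ 0
  · obtain ⟨k, hk, hne⟩ := h
    rw [Finset.sum_eq_single k]
    · rw [abs_mul, abs_of_nonneg (tent_nonneg k u)]
      calc |y k| * tent k u ≤ B * 1 :=
            mul_le_mul (hy k hk) (tent_le k u) (tent_nonneg k u) hB
        _ = B := mul_one B
    · intro j _ hj
      have : tent j u = 0 := by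
        by_contra h1
        exact hj (tent_disj h1 hne)
      rw [this, mul_zero]
    · intro h1
      exact absurd hk h1
  · push Not at h
    rw [Finset.sum_eq_zero fun k hk => by rw [h k hk, mul_zero], abs_zero]
    exact hB

theorem summ (y : ℕ → ℝ) (u : ℝ) : Summable fun k => y k * tent k u := by
  refine summable_of_finite_support ?_
  refine Set.Subsingleton.finite ?_
  intro j hj k hk
  refine tent_disj (u := u) ?_ ?_
  · intro h
    exact hj (by simp [h])
  · intro h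
    exact hk (by simp [h])

/-- The sum of the tents with coefficients `y`. -/
noncomputable def Jf (y : ℕ → ℝ) (u : ℝ) : ℝ := ∑' k, y k * tent k u

theorem Jf_tail {y : ℕ → ℝ} {B : ℝ} (hB : 0 ≤ B) {K : ℕ} (hy : ∀ k, K ≤ k → |y k| ≤ B) (u : ℝ) :
    |Jf y u - ∑ k ∈ Finset.range K, y k * tent k u| ≤ B := by
  have h1 := (summ y u).hasSum.tendsto_sum_nat
  have h2 : Tendsto (fun n => |∑ k ∈ Finset.range n, y k * tent k u -
      ∑ k ∈ Finset.range K, y k * tent k u|) atTop
      (𝓝 |Jf y u - ∑ k ∈ Finset.range K, y k * tent k u|) :=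
    (h1.sub_const _).abs
  refine le_of_tendsto h2 ?_
  filter_upwards [eventually_ge_atTop K] with n hn
  rw [← Finset.sum_range_add_sum_Ico _ hn, add_sub_cancel_left]
  exact sum_le' hB _ (fun k hk => hy k (Finset.mem_Ico.1 hk).1) u

theorem Jf_abs {y : ℕ → ℝ} {B : ℝ} (hB : 0 ≤ B) (hy : ∀ k, |y k| ≤ B) (u : ℝ) :
    |Jf y u| ≤ B := by
  have := Jf_tail (K := 0) hB (fun k _ => hy k) u
  simpa using this

theorem Jf_self (y : ℕ → ℝ) (k : ℕ) : Jf y ((1 / 2) ^ k) = y k := by
  unfold Jf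
  rw [tsum_eq_single k]
  · rw [tent_self, mul_one]
  · intro j hj
    have : tent j ((1 / 2) ^ k) = 0 := by
      by_contra h1
      exact hj (tent_disj h1 (by rw [tent_self]; exact one_ne_zero))
    rw [this, mul_zero]

theorem Jf_zero (y : ℕ → ℝ) {u : ℝ} (hu : u ≤ 0) : Jf y u = 0 := by
  unfold Jf
  simp [tent_zero hu]

theorem Jf_two (y : ℕ → ℝ) {u : ℝ} (hu : 2 ≤ u) : Jf y u = 0 := by
  unfold Jf
  simp [tent_two hu]

theorem Jf_finite (y : ℕ → ℝ) {K : ℕ} {u : ℝ} (hu : 2 * (1 / 2) ^ K ≤ u) :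
    Jf y u = ∑ k ∈ Finset.range K, y k * tent k u := by
  unfold Jf
  refine tsum_eq_sum fun k hk => ?_
  have h1 : K ≤ k := by simpa using hk
  have h2 : ((1 : ℝ) / 2) ^ k ≤ (1 / 2) ^ K :=
    pow_le_pow_of_le_one (by norm_num) (by norm_num) h1
  rw [tent_far (by linarith), mul_zero]

theorem Jf_cont (y : W) : Continuous (Jf y) := by
  have h0 : Tendsto (fun k => y k) atTop (𝓝 0) := by
    have := y.zero_at_infty'
    rw [cocompact_eq_cofinite, Nat.cofinite_eq_atTop] at this
    exact this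
  have h1 : TendstoUniformly (fun (K : ℕ) (u : ℝ) => ∑ k ∈ Finset.range K, y k * tent k u)
      (Jf y) atTop := by
    rw [Metric.tendstoUniformly_iff]
    intro ε hε
    have h2 : ∀ᶠ k in atTop, |y k| ≤ ε / 2 := by
      have := (Metric.tendsto_nhds.1 h0) (ε / 2) (by positivity)
      filter_upwards [this] with k hk
      rw [Real.dist_eq, sub_zero] at hk
      exact hk.le
    obtain ⟨K, hK⟩ := eventually_atTop.1 h2
    filter_upwards [eventually_ge_atTop K] with n hn u
    rw [Real.dist_eq]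
    have := Jf_tail (y := y) (B := ε / 2) (by positivity) (K := n)
      (fun k hk => hK k (hn.trans hk)) u
    linarith
  refine h1.continuous (Eventually.of_forall fun K => ?_).frequently
  exact continuous_finset_sum _ fun k _ => continuous_const.mul (tent_cont k)

/-- The embedding of `c_0` centred at `s` with scale `l`. -/
noncomputable def Jop (s l : ℝ) : W →L[ℝ] CI :=
  LinearMap.mkContinuous
    { toFun := fun y => ⟨fun t : unitInterval => Jf y (l * |(t : ℝ) - s|),
        (Jf_cont y).comp (by fun_prop)⟩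
      map_add' := by
        intro x y
        ext t
        show Jf _ _ = Jf _ _ + Jf _ _
        unfold Jf
        rw [← (summ x _).tsum_add (summ y _)]
        refine tsum_congr fun k => ?_
        rw [ZeroAtInftyContinuousMap.add_apply]
        ring
      map_smul' := by
        intro c x
        ext t
        show Jf _ _ = c * Jf _ _
        unfold Jf
        rw [← tsum_mul_left]
        refine tsum_congr fun k => ?_
        rw [ZeroAtInftyContinuousMap.smul_apply, smul_eq_mul]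
        ring } 1
    (by
      intro y
      rw [one_mul]
      refine (ContinuousMap.norm_le _ (norm_nonneg y)).2 fun t => ?_
      exact Jf_abs (norm_nonneg y) (fun k => W_le y k) _)

theorem Jop_apply (s l : ℝ) (y : W) (t : unitInterval) :
    Jop s l y t = Jf y (l * |(t : ℝ) - s|) := rfl

theorem Jop_norm (s l : ℝ) : ‖Jop s l‖ ≤ 1 := LinearMap.mkContinuous_norm_le _ zero_le_one _

theorem Jop_nc {s l : ℝ} (hl : 0 < l) {t : unitInterval} (ht : (t : ℝ) ≠ s) :
    NC (Jop s l) t := by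
  set u := l * |(t : ℝ) - s| with hu
  have hup : 0 < u := mul_pos hl (abs_pos.2 (sub_ne_zero.2 ht))
  obtain ⟨K, hK⟩ : ∃ K : ℕ, 2 * ((1 : ℝ) / 2) ^ K ≤ u / 2 := by
    obtain ⟨K, hK⟩ := exists_pow_lt_of_lt_one (show (0 : ℝ) < u / 4 by positivity)
      (show (1 : ℝ) / 2 < 1 by norm_num)
    exact ⟨K, by linarith⟩
  set L : ℝ := ∑ k ∈ Finset.range K, 2 ^ (k + 2) with hL
  have hL0 : 0 ≤ L := Finset.sum_nonneg fun k _ => by positivity
  refine nc_of fun ε hε => ?_
  refine ⟨min (u / 2 / l) (ε / ((L + 1) * l)), lt_min (by positivity) (by positivity), ?_⟩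
  intro s' hs' y
  have h1 : |(s' : ℝ) - t| ≤ u / 2 / l := hs'.trans (min_le_left _ _)
  have h2 : |(s' : ℝ) - t| ≤ ε / ((L + 1) * l) := hs'.trans (min_le_right _ _)
  rw [Jop_apply, Jop_apply, ← hu]
  set v := l * |(s' : ℝ) - s| with hv
  have hvu : |v - u| ≤ l * |(s' : ℝ) - t| := by
    rw [hv, hu, ← mul_sub, abs_mul, abs_of_pos hl]
    refine mul_le_mul_of_nonneg_left ?_ hl.le
    refine (abs_abs_sub_abs_le_abs_sub _ _).trans (le_of_eq ?_)
    congr 1
    ring
  have h3 : l * |(s' : ℝ) - t| ≤ u / 2 := by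
    rw [le_div_iff₀ hl] at h1
    linarith
  have h4 : u / 2 ≤ v := by
    have := (abs_le.1 (hvu.trans h3)).1
    linarith
  rw [Jf_finite y (hK.trans h4), Jf_finite y (hK.trans (by linarith : u / 2 ≤ u)),
    ← Finset.sum_sub_distrib]
  calc |∑ k ∈ Finset.range K, (y k * tent k v - y k * tent k u)|
      ≤ ∑ k ∈ Finset.range K, |y k * tent k v - y k * tent k u| := Finset.abs_sum_le_sum_abs _ _
    _ ≤ ∑ k ∈ Finset.range K, ‖y‖ * (2 ^ (k + 2) * |v - u|) := by
        refine Finset.sum_le_sum fun k _ => ?_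
        rw [← mul_sub, abs_mul]
        exact mul_le_mul (W_le y k) (tent_lip k v u) (abs_nonneg _) (norm_nonneg y)
    _ = ‖y‖ * (L * |v - u|) := by
        rw [hL, Finset.sum_mul, Finset.mul_sum]
    _ ≤ ‖y‖ * ε := by
        refine mul_le_mul_of_nonneg_left ?_ (norm_nonneg y)
        have h5 : l * |(s' : ℝ) - t| ≤ ε / (L + 1) := by
          rw [le_div_iff₀ (by positivity)] at h2 ⊢
          linarith
        calc L * |v - u| ≤ (L + 1) * (ε / (L + 1)) :=
              mul_le_mul (by linarith) (hvu.trans h5) (abs_nonneg _) (by positivity)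
          _ = ε := by field_simp
    _ = ε * ‖y‖ := mul_comm _ _

/-- Points of `[0,1]` at prescribed distance. -/
theorem exists_pt (s : unitInterval) {r : ℝ} (hr : 0 ≤ r) (hr2 : r ≤ 1 / 2) :
    ∃ t : unitInterval, |(t : ℝ) - s| = r := by
  have h0 := s.2.1
  have h1 := s.2.2
  by_cases h : (s : ℝ) ≤ 1 / 2
  · refine ⟨⟨s + r, by constructor <;> linarith⟩, ?_⟩
    simp [abs_of_nonneg hr]
  · push Not at h
    refine ⟨⟨s - r, by constructor <;> linarith⟩, ?_⟩
    simp [abs_of_nonneg hr]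

end Pool.Agent.Q61.OS
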