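import Mathlib
import Pool.Agent.Q61.OS3

set_option autoImplicit false

open Filter Topology
open scoped ZeroAtInfty

namespace Pool.Agent.Q61.OS

variable {Z : Type*} [NormedAddCommGroup Z] [NormedSpace ℝ Z]

theorem not_complemented {T : Z × W →L[ℝ] CI} {c : ℝ} (hc : 0 < c)
    (hT : ∀ p, c * ‖p‖ ≤ ‖T p‖) :
    ¬ Complemented (img T ((⊤ : Submodule ℝ Z).prod Y)) := by
  rintro ⟨P, hP, hX⟩
  have hinj : Function.Injective T.toLinearMap := by
    rw [← LinearMap.ker_eq_bot, LinearMap.ker_eq_bot']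
    intro p hp
    have h1 := hT p
    have h2 : T p = 0 := hp
    rw [h2, norm_zero] at h1
    have h3 : ‖p‖ ≤ 0 := by
      by_contra h4
      push Not at h4
      nlinarith
    exact norm_le_zero_iff.1 h3
  have hfix : ∀ f ∈ img T ((⊤ : Submodule ℝ Z).prod Y), P f = f := by
    intro f hf
    obtain ⟨g, rfl⟩ := (hX f).1 hf
    exact hP g
  have hmem : ∀ g, P g ∈ img T ((⊤ : Submodule ℝ Z).prod Y) := fun g => (hX _).2 ⟨g, rfl⟩
  have hsub : ∀ g, P g ∈ LinearMap.range T.toLinearMap := by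
    intro g
    obtain ⟨p, -, hp⟩ := mem_img.1 (hmem g)
    exact ⟨p, hp⟩
  let e := LinearEquiv.ofInjective T.toLinearMap hinj
  let L : W →ₗ[ℝ] LinearMap.range T.toLinearMap :=
    LinearMap.codRestrict (LinearMap.range T.toLinearMap)
      (P.toLinearMap ∘ₗ T.toLinearMap ∘ₗ LinearMap.inr ℝ Z W) (fun w => hsub _)
  have key : ∀ w : W, T (e.symm (L w)) = P (T (0, w)) := by
    intro w
    have h1 : e (e.symm (L w)) = L w := e.apply_symm_apply _
    have h2 : ((e (e.symm (L w)) : LinearMap.range T.toLinearMap) : CI) = T (e.symm (L w)) := rfl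
    rw [← h2, h1]
    rfl
  refine no_proj (LinearMap.snd ℝ Z W ∘ₗ e.symm.toLinearMap ∘ₗ L)
    (c⁻¹ * (‖P‖ * ‖T‖)) ?_ ?_ ?_
  · intro w
    show ‖(e.symm (L w)).2‖ ≤ _
    have h1 : ‖(e.symm (L w)).2‖ ≤ ‖e.symm (L w)‖ := norm_snd_le _
    have h2 := hT (e.symm (L w))
    rw [key] at h2
    have h3 : ‖P (T (0, w))‖ ≤ ‖P‖ * (‖T‖ * ‖w‖) := by
      refine (P.le_opNorm _).trans (mul_le_mul_of_nonneg_left ?_ (norm_nonneg P))
      refine (T.le_opNorm _).trans (le_of_eq ?_)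
      rw [Prod.norm_mk, norm_zero, max_eq_right (norm_nonneg w)]
    have h4 : ‖e.symm (L w)‖ ≤ c⁻¹ * (‖P‖ * (‖T‖ * ‖w‖)) := by
      rw [inv_mul_eq_div, le_div_iff₀ hc]
      linarith
    calc ‖(e.symm (L w)).2‖ ≤ c⁻¹ * (‖P‖ * (‖T‖ * ‖w‖)) := h1.trans h4
      _ = c⁻¹ * (‖P‖ * ‖T‖) * ‖w‖ := by ring
  · intro w
    show (e.symm (L w)).2 ∈ Y
    obtain ⟨p, hp, hp2⟩ := mem_img.1 (hmem (T (0, w)))
    have h1 : p = e.symm (L w) := by
      apply hinj
      show T p = T (e.symm (L w))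
      rw [hp2, key]
    rw [← h1]
    exact (Submodule.mem_prod.1 hp).2
  · intro y hy
    show (e.symm (L y)).2 = y
    have h1 : T (0, y) ∈ img T ((⊤ : Submodule ℝ Z).prod Y) :=
      mem_img.2 ⟨(0, y), Submodule.mem_prod.2 ⟨trivial, hy⟩, rfl⟩
    have h2 : e.symm (L y) = (0, y) := by
      apply hinj
      show T (e.symm (L y)) = T (0, y)
      rw [key, hfix _ h1]
    rw [h2]

/-- The general construction. -/
theorem general [CompleteSpace Z] {T : Z × W →L[ℝ] CI} {c : ℝ} (hc : 0 < c)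
    (hT : ∀ p, c * ‖p‖ ≤ ‖T p‖) {M : Set unitInterval} (h1 : ∀ t, t ∉ M → NC T t)
    (h2 : ∀ t ∈ M, ∃ a : ℝ, 0 < a ∧ ∀ d : ℝ, 0 < d → ∃ z : Z, ∃ y ∈ Y, ‖z‖ ≤ 1 ∧ ‖y‖ ≤ 1 ∧
      ∃ s : unitInterval, |(s : ℝ) - t| ≤ d ∧ a ≤ |T (z, y) s - T (z, y) t|) :
    ∃ X : Submodule ℝ CI, IsClosed (X : Set CI) ∧ ¬ Complemented X ∧ Spec X = M := by
  refine ⟨img T ((⊤ : Submodule ℝ Z).prod Y), ?_, not_complemented hc hT, ?_⟩
  · refine isClosed_img hc hT ?_
    have h3 : (((⊤ : Submodule ℝ Z).prod Y : Submodule ℝ (Z × W)) : Set (Z × W)) =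
        Set.univ ×ˢ (Y : Set W) := by
      rw [Submodule.prod_coe]
      rfl
    rw [h3]
    exact isClosed_univ.prod isClosed_Y
  · ext t
    by_cases ht : t ∈ M
    · obtain ⟨a, ha, h3⟩ := h2 t ht
      refine ⟨fun _ => ht, fun _ => mem_spec ha fun d hd => ?_⟩
      obtain ⟨z, y, hy, hz1, hy1, s, hs, h4⟩ := h3 d hd
      refine ⟨(z, y), Submodule.mem_prod.2 ⟨trivial, hy⟩, ?_, s, hs, h4⟩
      rw [Prod.norm_mk]
      exact max_le hz1 hy1
    · exact ⟨fun h => absurd h (not_mem_spec hc hT (h1 t ht)), fun h => absurd h ht⟩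

theorem nc_smul {A : Z →L[ℝ] CI} {t : unitInterval} (b : ℝ) (hA : NC A t) : NC (b • A) t := by
  have h1 : ∀ s : unitInterval, dl (b • A) s = b • dl A s := by
    intro s
    ext z
    rfl
  unfold NC
  simp only [h1]
  exact ContinuousAt.const_smul hA b

theorem nc_zero (t : unitInterval) : NC (0 : Z →L[ℝ] CI) t := by
  have h1 : ∀ s : unitInterval, dl (0 : Z →L[ℝ] CI) s = 0 := by
    intro s
    ext z
    rfl
  unfold NC
  simp only [h1]
  exact continuousAt_const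

theorem nc_comp {Z' : Type*} [NormedAddCommGroup Z'] [NormedSpace ℝ Z'] {A : Z →L[ℝ] CI}
    {t : unitInterval} (hA : NC A t) (B : Z' →L[ℝ] Z) : NC (A.comp B) t := by
  refine nc_of fun ε hε => ?_
  obtain ⟨d, hd, h1⟩ := hA.spec (ε := ε / (‖B‖ + 1)) (by positivity)
  refine ⟨d, hd, fun s hs z => ?_⟩
  have h2 := h1 s hs (B z)
  have h3 := B.le_opNorm z
  have h4 : ε / (‖B‖ + 1) * ‖B z‖ ≤ ε / (‖B‖ + 1) * ((‖B‖ + 1) * ‖z‖) := by
    refine mul_le_mul_of_nonneg_left ?_ (by positivity)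
    nlinarith [norm_nonneg z]
  have h5 : ε / (‖B‖ + 1) * ((‖B‖ + 1) * ‖z‖) = ε * ‖z‖ := by
    field_simp
  exact (h2.trans h4).trans h5.le

/-- Elements of `Y` with large index coordinates. -/
theorem exists_big (K : ℕ) : ∃ k, K ≤ k ∧ ∃ y ∈ Y, ‖y‖ ≤ 1 ∧ y k = 1 := by
  have hinf : ∃ n : ℕ, K ≤ code (n + 1) (fun _ => true) := by
    by_contra h
    push Not at h
    have h1 : Function.Injective (fun n : ℕ => code (n + 1) (fun _ : Fin (n + 1) => true)) := by
      intro a b hab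
      have := code_inj hab
      have h2 := congrArg Sigma.fst this
      simpa using h2
    have h3 : (Set.range (fun n : ℕ => code (n + 1) (fun _ : Fin (n + 1) => true))).Infinite :=
      Set.infinite_range_of_injective h1
    refine h3 ((Set.finite_lt_nat K).subset ?_)
    rintro _ ⟨n, rfl⟩
    exact h n
  obtain ⟨n, hn⟩ := hinf
  refine ⟨_, hn, ext (n + 1) (lf (Pi.single 0 1)), ext_mem _ _, ?_, ?_⟩
  · refine ext_norm _ zero_le_one fun θ => ?_
    have : lf (Pi.single 0 1) θ = sg (θ 0) := by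
      unfold lf
      rw [Finset.sum_eq_single 0]
      · simp
      · intro i _ hi
        simp [Pi.single_eq_of_ne hi]
      · simp
    rw [this, abs_sg]
  · rw [ext_code]
    unfold lf
    rw [Finset.sum_eq_single 0]
    · simp [sg]
    · intro i _ hi
      simp [Pi.single_eq_of_ne hi]
    · simp

/-- The jump at the centre. -/
theorem jump {T' : W →L[ℝ] CI} {t : unitInterval} {w : ℝ} (hw : 0 < w) (h : NC T' t) :
    ∀ d : ℝ, 0 < d → ∃ y ∈ Y, ‖y‖ ≤ 1 ∧ ∃ s : unitInterval, |(s : ℝ) - t| ≤ d ∧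
      w / 2 ≤ |(w • Jop t 2 + T') y s - (w • Jop t 2 + T') y t| := by
  intro d hd
  obtain ⟨d', hd', h1⟩ := h.spec (ε := w / 2) (by positivity)
  obtain ⟨K, hK⟩ := exists_pow_lt_of_lt_one (lt_min hd hd') (show (1 : ℝ) / 2 < 1 by norm_num)
  obtain ⟨k, hk, y, hy, hy1, hyk⟩ := exists_big K
  have hr : ((1 : ℝ) / 2) ^ (k + 1) ≤ 1 / 2 := by
    rw [pow_succ]
    have : ((1 : ℝ) / 2) ^ k ≤ 1 := pow_le_one₀ (by norm_num) (by norm_num)
    linarith
  obtain ⟨s, hs⟩ := exists_pt t (r := (1 / 2) ^ (k + 1)) (by positivity) hr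
  have h2 : ((1 : ℝ) / 2) ^ (k + 1) ≤ (1 / 2) ^ K :=
    pow_le_pow_of_le_one (by norm_num) (by norm_num) (by omega)
  have h3 : |(s : ℝ) - t| < min d d' := by
    rw [hs]
    exact h2.trans_lt hK
  refine ⟨y, hy, hy1, s, (h3.trans_le (min_le_left _ _)).le, ?_⟩
  have h4 := h1 s (h3.trans_le (min_le_right _ _)).le y
  have h5 : Jop t 2 y s = 1 := by
    rw [Jop_apply, hs, show (2 : ℝ) * (1 / 2) ^ (k + 1) = (1 / 2) ^ k by rw [pow_succ]; ring,
      Jf_self, hyk]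
  have h6 : Jop t 2 y t = 0 := by
    rw [Jop_apply, sub_self, abs_zero, mul_zero, Jf_zero _ le_rfl]
  have h7 : (w • Jop t 2 + T') y s - (w • Jop t 2 + T') y t = w + (T' y s - T' y t) := by
    have e1 : (w • Jop t 2 + T') y s = w * Jop t 2 y s + T' y s := rfl
    have e2 : (w • Jop t 2 + T') y t = w * Jop t 2 y t + T' y t := rfl
    rw [e1, e2, h5, h6]
    ring
  rw [h7]
  have h8 : |T' y s - T' y t| ≤ w / 2 := by
    refine h4.trans ?_
    nlinarith
  have h9 := (abs_le.1 h8).1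
  refine le_trans ?_ (le_abs_self _)
  linarith

/-- The operator of the countable case. -/
noncomputable def Tc (s : ℕ → unitInterval) : W →L[ℝ] CI :=
  Jop (s 0) 2 + ∑' j : ℕ, (1 / 8 * (1 / 2) ^ j : ℝ) • Jop (s j) 2

theorem wt_summable : Summable (fun j : ℕ => (1 / 8 * (1 / 2) ^ j : ℝ)) :=
  (summable_geometric_of_lt_one (by norm_num) (by norm_num)).mul_left _

theorem wt_sum : ∑' j : ℕ, (1 / 8 * (1 / 2) ^ j : ℝ) = 1 / 4 := by
  rw [tsum_mul_left, tsum_geometric_of_lt_one (by norm_num) (by norm_num)]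
  norm_num

theorem smul_norm_le {E F : Type*} [NormedAddCommGroup E] [NormedSpace ℝ E]
    [NormedAddCommGroup F] [NormedSpace ℝ F] {A : E →L[ℝ] F} (hA : ‖A‖ ≤ 1) {b : ℝ}
    (hb : 0 ≤ b) : ‖b • A‖ ≤ b := by
  rw [norm_smul, Real.norm_eq_abs, abs_of_nonneg hb]
  nlinarith [norm_nonneg A]

theorem term_norm (s : ℕ → unitInterval) (j : ℕ) :
    ‖(1 / 8 * (1 / 2) ^ j : ℝ) • Jop (s j) 2‖ ≤ 1 / 8 * (1 / 2) ^ j :=
  smul_norm_le (Jop_norm _ _) (by positivity)

theorem Jop_le_norm (s : unitInterval) (y : W) : ‖y‖ ≤ ‖Jop s 2 y‖ := by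
  refine W_norm_le (norm_nonneg _) fun k => ?_
  have hr : ((1 : ℝ) / 2) ^ (k + 1) ≤ 1 / 2 := by
    rw [pow_succ]
    have : ((1 : ℝ) / 2) ^ k ≤ 1 := pow_le_one₀ (by norm_num) (by norm_num)
    linarith
  obtain ⟨t, ht⟩ := exists_pt s (r := (1 / 2) ^ (k + 1)) (by positivity) hr
  have h1 := (Jop s 2 y).norm_coe_le_norm t
  rw [Jop_apply, ht, show (2 : ℝ) * (1 / 2) ^ (k + 1) = (1 / 2) ^ k by rw [pow_succ]; ring,
      Jf_self] at h1
  exact h1

theorem tsum_norm_le_quarter {E F : Type*} [NormedAddCommGroup E] [NormedSpace ℝ E]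
    [NormedAddCommGroup F] [NormedSpace ℝ F] [CompleteSpace F] {A : ℕ → E →L[ℝ] F}
    (hA : ∀ j, ‖A j‖ ≤ 1 / 8 * (1 / 2) ^ j) : ‖∑' j, A j‖ ≤ 1 / 4 := by
  rw [← wt_sum]
  exact tsum_of_norm_bounded wt_summable.hasSum hA

theorem Tc_below (s : ℕ → unitInterval) (y : W) : 3 / 4 * ‖y‖ ≤ ‖Tc s y‖ := by
  have h1 : Tc s y = Jop (s 0) 2 y + (∑' j : ℕ, (1 / 8 * (1 / 2) ^ j : ℝ) • Jop (s j) 2) y := rfl
  have h2 : ‖(∑' j : ℕ, (1 / 8 * (1 / 2) ^ j : ℝ) • Jop (s j) 2) y‖ ≤ 1 / 4 * ‖y‖ := by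
    refine (ContinuousLinearMap.le_opNorm _ y).trans ?_
    exact mul_le_mul_of_nonneg_right (tsum_norm_le_quarter (term_norm s)) (norm_nonneg y)
  have h3 := Jop_le_norm (s 0) y
  rw [h1]
  have h4 := norm_sub_le (Jop (s 0) 2 y + (∑' j : ℕ, (1 / 8 * (1 / 2) ^ j : ℝ) • Jop (s j) 2) y)
    ((∑' j : ℕ, (1 / 8 * (1 / 2) ^ j : ℝ) • Jop (s j) 2) y)
  rw [add_sub_cancel_right] at h4
  linarith

theorem add_smul_gen {F : Type*} [NormedAddCommGroup F] [NormedSpace ℝ F] (v0 x : F) (w : ℝ) :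
    v0 + (w • v0 + x) = (1 + w) • v0 + x := by
  rw [add_smul, one_smul, add_assoc]

/-- Splitting a series according to a set of indices. -/
theorem split_gen {F : Type*} [NormedAddCommGroup F] [NormedSpace ℝ F] [CompleteSpace F]
    {b : ℕ → ℝ} (hb : Summable b) (hb0 : ∀ j, 0 < b j) (v : ℕ → F) (hv : ∀ j, ‖v j‖ ≤ 1)
    (S : Set ℕ) (v0 : F) (hS : ∀ j ∈ S, v j = v0) (i : ℕ) (hi : i ∈ S) :
    ∃ (w : ℝ) (u : ℕ → F), 0 < w ∧ (∀ j, ‖u j‖ ≤ b j) ∧ (∀ j, j ∈ S → u j = 0) ∧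
      (∀ j, j ∉ S → u j = b j • v j) ∧ ∑' j, b j • v j = w • v0 + ∑' j, u j := by
  classical
  have hn1 : ∀ j, ‖(if j ∈ S then b j else 0) • v0‖ ≤ b j := by
    intro j
    split_ifs with h
    · rw [norm_smul, Real.norm_eq_abs, abs_of_pos (hb0 j), ← hS j h]
      nlinarith [hv j, hb0 j]
    · rw [zero_smul, norm_zero]
      exact (hb0 j).le
  have hn2 : ∀ j, ‖(if j ∈ S then 0 else b j • v j)‖ ≤ b j := by
    intro j
    split_ifs with h
    · rw [norm_zero]
      exact (hb0 j).le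
    · rw [norm_smul, Real.norm_eq_abs, abs_of_pos (hb0 j)]
      nlinarith [hv j, hb0 j]
  have hs1 : Summable fun j => (if j ∈ S then b j else 0) • v0 :=
    Summable.of_norm_bounded hb hn1
  have hs2 : Summable fun j => (if j ∈ S then 0 else b j • v j) :=
    Summable.of_norm_bounded hb hn2
  have hsw : Summable (fun j => if j ∈ S then b j else 0) := by
    refine Summable.of_nonneg_of_le (fun j => ?_) (fun j => ?_) hb
    · split_ifs
      · exact (hb0 j).le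
      · exact le_rfl
    · split_ifs
      · exact le_rfl
      · exact (hb0 j).le
  refine ⟨∑' j, (if j ∈ S then b j else 0), fun j => if j ∈ S then 0 else b j • v j, ?_, hn2,
    fun j hj => if_pos hj, fun j hj => if_neg hj, ?_⟩
  · refine hsw.tsum_pos (fun j => ?_) i ?_
    · split_ifs
      · exact (hb0 j).le
      · exact le_rfl
    · rw [if_pos hi]
      exact hb0 i
  · rw [← hsw.tsum_smul_const, ← hs1.tsum_add hs2]
    refine tsum_congr fun j => ?_
    split_ifs with h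
    · rw [hS j h, add_zero]
    · rw [zero_smul, zero_add]

theorem countable_case (s : ℕ → unitInterval) :
    ∃ X : Submodule ℝ CI, IsClosed (X : Set CI) ∧ ¬ Complemented X ∧ Spec X = Set.range s := by
  classical
  refine general (Z := PUnit) (T := (Tc s).comp (ContinuousLinearMap.snd ℝ PUnit W))
    (c := 3 / 4) (by norm_num) ?_ ?_ ?_
  · rintro ⟨z, y⟩
    have h1 : ‖((z, y) : PUnit × W)‖ = ‖y‖ := by
      rw [Prod.norm_mk, show z = 0 from Subsingleton.elim _ _, norm_zero,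
        max_eq_right (norm_nonneg y)]
    rw [h1]
    exact Tc_below s y
  · intro t ht
    refine nc_comp ?_ _
    have hne : ∀ j, (t : ℝ) ≠ s j := by
      intro j h
      exact ht ⟨j, Subtype.ext h.symm⟩
    unfold Tc
    refine nc_add (Jop_nc (by norm_num) (hne 0)) ?_
    exact nc_tsum wt_summable (term_norm s) fun j => nc_smul _ (Jop_nc (by norm_num) (hne j))
  · rintro t ⟨i, rfl⟩
    -- split the operator
    obtain ⟨w, hw, T', hT', hsplit⟩ : ∃ w : ℝ, 0 < w ∧ ∃ T' : W →L[ℝ] CI, NC T' (s i) ∧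
        Tc s = w • Jop (s i) 2 + T' := by
      obtain ⟨w1, u, hw1, hu, hu0, hu1, hsum⟩ := split_gen (F := W →L[ℝ] CI) wt_summable
        (fun j => by positivity) (fun j => Jop (s j) 2) (fun j => Jop_norm _ _)
        {j | s j = s i} (Jop (s i) 2) (fun j hj => by rw [show s j = s i from hj]) i rfl
      have hT2 : NC (∑' j, u j) (s i) := by
        refine nc_tsum wt_summable hu fun j => ?_
        by_cases h : s j = s i
        · rw [hu0 j h]
          exact nc_zero _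
        · rw [hu1 j h]
          refine nc_smul _ (Jop_nc (by norm_num) ?_)
          intro h2
          exact h (Subtype.ext h2).symm
      by_cases h0 : s 0 = s i
      · refine ⟨1 + w1, by positivity, ∑' j, u j, hT2, ?_⟩
        unfold Tc
        rw [hsum, h0]
        exact add_smul_gen (F := W →L[ℝ] CI) _ _ _
      · refine ⟨w1, hw1, Jop (s 0) 2 + ∑' j, u j, nc_add (Jop_nc (by norm_num) ?_) hT2, ?_⟩
        · intro h2
          exact h0 (Subtype.ext h2).symm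
        · unfold Tc
          rw [hsum]
          abel
    refine ⟨w / 2, by positivity, fun d hd => ?_⟩
    obtain ⟨y, hy, hy1, s', hs', h1⟩ := jump hw hT' d hd
    refine ⟨0, y, hy, by simp, hy1, s', hs', ?_⟩
    rw [← hsplit] at h1
    exact h1

end Pool.Agent.Q61.OS
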