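import Mathlib
import Pool.Agent.Q61.OS1

set_option autoImplicit false

open Filter Topology MeasureTheory

namespace Pool.Agent.Q61.OS

/-- Extension of a function on `[0,1]` to the line. -/
noncomputable def zt (z : CI) (x : ℝ) : ℝ := z (Set.projIcc 0 1 zero_le_one x)

theorem zt_cont (z : CI) : Continuous (zt z) := z.continuous.comp continuous_projIcc

theorem zt_le (z : CI) (x : ℝ) : |zt z x| ≤ ‖z‖ := z.norm_coe_le_norm _

theorem zt_val (z : CI) (s : unitInterval) : zt z s = z s := by
  unfold zt
  rw [Set.projIcc_val]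

theorem zt_ii (z : CI) (a b : ℝ) : IntervalIntegrable (zt z) volume a b :=
  (zt_cont z).intervalIntegrable a b

/-- Half the distance to `F`. -/
noncomputable def rho (F : Set unitInterval) (s : unitInterval) : ℝ := Metric.infDist s F / 2

theorem rho_nonneg (F : Set unitInterval) (s : unitInterval) : 0 ≤ rho F s :=
  div_nonneg Metric.infDist_nonneg zero_le_two

theorem rho_cont (F : Set unitInterval) : Continuous (rho F) :=
  (Metric.continuous_infDist_pt F).div_const 2

theorem rho_lip (F : Set unitInterval) (s t : unitInterval) :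
    |rho F s - rho F t| ≤ |(s : ℝ) - t| / 2 := by
  have h1 : Metric.infDist s F ≤ Metric.infDist t F + dist s t := Metric.infDist_le_infDist_add_dist
  have h2 : Metric.infDist t F ≤ Metric.infDist s F + dist t s := Metric.infDist_le_infDist_add_dist
  rw [dist_comm t s] at h2
  rw [Subtype.dist_eq, Real.dist_eq] at h1 h2
  unfold rho
  rw [abs_le]
  constructor <;> linarith

theorem rho_le (F : Set unitInterval) {s t : unitInterval} (ht : t ∈ F) :
    rho F s ≤ |(s : ℝ) - t| / 2 := by
  have h1 : Metric.infDist s F ≤ dist s t := Metric.infDist_le_dist_of_mem ht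
  rw [Subtype.dist_eq, Real.dist_eq] at h1
  unfold rho
  linarith

theorem rho_zero {F : Set unitInterval} {t : unitInterval} (ht : t ∈ F) : rho F t = 0 := by
  unfold rho
  rw [Metric.infDist_zero_of_mem ht, zero_div]

theorem rho_pos {F : Set unitInterval} (hF : IsClosed F) (hne : F.Nonempty) {t : unitInterval}
    (ht : t ∉ F) : 0 < rho F t := by
  have := (hF.notMem_iff_infDist_pos hne).1 ht
  unfold rho
  linarith

/-- Average of `z` over `[s, s + ρ(s)]`. -/
noncomputable def avg (F : Set unitInterval) (z : CI) (s : unitInterval) : ℝ :=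
  ∫ x in (0 : ℝ)..1, zt z (s + rho F s * x)

theorem avg_cont (F : Set unitInterval) (z : CI) : Continuous (avg F z) := by
  unfold avg
  refine intervalIntegral.continuous_parametric_intervalIntegral_of_continuous' ?_ _ _
  refine (zt_cont z).comp ?_
  have h1 : Continuous fun p : unitInterval × ℝ => rho F p.1 := (rho_cont F).comp continuous_fst
  have h2 : Continuous fun p : unitInterval × ℝ => (p.1 : ℝ) :=
    continuous_subtype_val.comp continuous_fst
  exact h2.add (h1.mul continuous_snd)

theorem avg_ii (F : Set unitInterval) (z : CI) (s : unitInterval) :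
    IntervalIntegrable (fun x => zt z (s + rho F s * x)) volume 0 1 :=
  ((zt_cont z).comp (by fun_prop)).intervalIntegrable 0 1

theorem avg_le (F : Set unitInterval) (z : CI) (s : unitInterval) : |avg F z s| ≤ ‖z‖ := by
  have h := intervalIntegral.norm_integral_le_of_norm_le_const (a := 0) (b := 1) (C := ‖z‖)
    (f := fun x => zt z (s + rho F s * x)) (fun x _ => zt_le z _)
  rw [sub_zero, abs_one, mul_one] at h
  exact h

/-- The averaging operator. -/
noncomputable def Sop (F : Set unitInterval) : CI →L[ℝ] CI :=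
  LinearMap.mkContinuous
    { toFun := fun z => ⟨avg F z, avg_cont F z⟩
      map_add' := by
        intro x y
        ext s
        show avg F (x + y) s = avg F x s + avg F y s
        unfold avg
        rw [← intervalIntegral.integral_add (avg_ii F x s) (avg_ii F y s)]
        rfl
      map_smul' := by
        intro c x
        ext s
        show avg F (c • x) s = c * avg F x s
        unfold avg
        rw [← intervalIntegral.integral_const_mul]
        rfl } 1
    (by
      intro z
      rw [one_mul]
      exact (ContinuousMap.norm_le _ (norm_nonneg z)).2 fun s => avg_le F z s)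

theorem Sop_apply (F : Set unitInterval) (z : CI) (s : unitInterval) :
    Sop F z s = avg F z s := rfl

theorem Sop_norm (F : Set unitInterval) : ‖Sop F‖ ≤ 1 :=
  LinearMap.mkContinuous_norm_le _ zero_le_one _

theorem Sop_mem {F : Set unitInterval} (z : CI) {t : unitInterval} (ht : t ∈ F) :
    Sop F z t = z t := by
  rw [Sop_apply]
  unfold avg
  rw [rho_zero ht]
  simp only [zero_mul, add_zero, zt_val, intervalIntegral.integral_const, sub_zero, one_smul]

/-- The average does not see functions concentrated near a point of `F`. -/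
theorem Sop_zero {F : Set unitInterval} {z : CI} {t s : unitInterval} (ht : t ∈ F)
    (hz : ∀ x : unitInterval, |(s : ℝ) - t| / 2 ≤ |(x : ℝ) - t| → z x = 0) :
    Sop F z s = 0 := by
  rw [Sop_apply]
  unfold avg
  have h1 : ∀ x ∈ Set.uIcc (0 : ℝ) 1, zt z (s + rho F s * x) = 0 := by
    intro x hx
    rw [Set.uIcc_of_le zero_le_one] at hx
    unfold zt
    apply hz
    have h2 : |((Set.projIcc (0 : ℝ) 1 zero_le_one (s + rho F s * x) : unitInterval) : ℝ) - s| ≤
        |(s : ℝ) - t| / 2 := by
      have h3 := Set.abs_projIcc_sub_projIcc (a := (0 : ℝ)) (b := 1) zero_le_one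
        (c := s + rho F s * x) (d := s)
      rw [Set.projIcc_val] at h3
      refine h3.trans ?_
      rw [add_sub_cancel_left, abs_mul, abs_of_nonneg (rho_nonneg F s), abs_of_nonneg hx.1]
      calc rho F s * x ≤ rho F s * 1 := mul_le_mul_of_nonneg_left hx.2 (rho_nonneg F s)
        _ = rho F s := mul_one _
        _ ≤ |(s : ℝ) - t| / 2 := rho_le F ht
    set p : ℝ := ((Set.projIcc (0 : ℝ) 1 zero_le_one (s + rho F s * x) : unitInterval) : ℝ)
    have h4 : |(s : ℝ) - t| ≤ |p - t| + |p - s| := by
      rw [show (s : ℝ) - t = (p - t) - (p - s) by ring]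
      exact abs_sub _ _
    linarith
  rw [intervalIntegral.integral_congr h1]
  simp

/-- Primitive. -/
noncomputable def Gp (z : CI) (u : ℝ) : ℝ := ∫ x in (0 : ℝ)..u, zt z x

theorem Gp_sub (z : CI) (a b : ℝ) : Gp z b - Gp z a = ∫ x in a..b, zt z x := by
  unfold Gp
  rw [sub_eq_iff_eq_add', intervalIntegral.integral_add_adjacent_intervals (zt_ii z _ _)
    (zt_ii z _ _)]

theorem Gp_lip (z : CI) (a b : ℝ) : |Gp z b - Gp z a| ≤ ‖z‖ * |b - a| := by
  rw [Gp_sub]
  have h := intervalIntegral.norm_integral_le_of_norm_le_const (a := a) (b := b) (C := ‖z‖)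
    (f := fun x => zt z x) (fun x _ => zt_le z x)
  exact h

theorem avg_eq {F : Set unitInterval} (z : CI) {s : unitInterval} (hs : 0 < rho F s) :
    avg F z s = (rho F s)⁻¹ * (Gp z (s + rho F s) - Gp z s) := by
  unfold avg
  rw [intervalIntegral.integral_comp_add_mul (zt z) hs.ne', mul_zero, add_zero, mul_one, Gp_sub,
    smul_eq_mul]

theorem Sop_nc {F : Set unitInterval} (hF : IsClosed F) (hne : F.Nonempty) {t : unitInterval}
    (ht : t ∉ F) : NC (Sop F) t := by
  set r := rho F t with hr
  have hrp : 0 < r := rho_pos hF hne ht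
  refine nc_of fun ε hε => ?_
  refine ⟨min r (ε * r / 6), lt_min hrp (by positivity), fun s hs z => ?_⟩
  have h1 : |(s : ℝ) - t| ≤ r := hs.trans (min_le_left _ _)
  have h2 : |(s : ℝ) - t| ≤ ε * r / 6 := hs.trans (min_le_right _ _)
  have h3 := rho_lip F s t
  set q := rho F s with hq
  have hqr : r / 2 ≤ q := by
    have := (abs_le.1 h3).1
    linarith
  have hqp : 0 < q := by linarith
  rw [Sop_apply, Sop_apply, avg_eq z hqp, avg_eq z hrp]
  have e : q⁻¹ * (Gp z (s + q) - Gp z s) - r⁻¹ * (Gp z (t + r) - Gp z t) =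
      q⁻¹ * ((Gp z (s + q) - Gp z (t + r)) - (Gp z s - Gp z t)) +
        (q⁻¹ - r⁻¹) * (Gp z (t + r) - Gp z t) := by ring
  rw [e]
  have h4 := Gp_lip z (t + r) (s + q)
  have h5 := Gp_lip z t s
  have h6 := Gp_lip z t (t + r)
  rw [add_sub_cancel_left, abs_of_pos hrp] at h6
  have h7 : |(s : ℝ) + q - (t + r)| ≤ |(s : ℝ) - t| + |q - r| := by
    rw [show (s : ℝ) + q - (t + r) = (s - t) + (q - r) by ring]
    exact abs_add_le _ _
  have hz := norm_nonneg z
  have h8 : |(Gp z (s + q) - Gp z (t + r)) - (Gp z s - Gp z t)| ≤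
      ‖z‖ * (2 * |(s : ℝ) - t| + |q - r|) := by
    refine (abs_sub _ _).trans ?_
    nlinarith [mul_le_mul_of_nonneg_left h7 hz]
  have h9 : |q⁻¹ - r⁻¹| = |q - r| / (q * r) := by
    rw [inv_sub_inv hqp.ne' hrp.ne', abs_div, abs_of_pos (mul_pos hqp hrp), abs_sub_comm]
  calc |q⁻¹ * ((Gp z (s + q) - Gp z (t + r)) - (Gp z s - Gp z t)) +
        (q⁻¹ - r⁻¹) * (Gp z (t + r) - Gp z t)|
      ≤ |q⁻¹ * ((Gp z (s + q) - Gp z (t + r)) - (Gp z s - Gp z t))| +
        |(q⁻¹ - r⁻¹) * (Gp z (t + r) - Gp z t)| := abs_add_le _ _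
    _ ≤ q⁻¹ * (‖z‖ * (2 * |(s : ℝ) - t| + |q - r|)) + |q - r| / (q * r) * (‖z‖ * r) := by
        rw [abs_mul, abs_mul, h9, abs_of_pos (inv_pos.2 hqp)]
        exact add_le_add (mul_le_mul_of_nonneg_left h8 (by positivity))
          (mul_le_mul_of_nonneg_left h6 (by positivity))
    _ = ‖z‖ * (2 * |(s : ℝ) - t| + 2 * |q - r|) / q := by
        field_simp
        ring
    _ ≤ ‖z‖ * (3 * |(s : ℝ) - t|) / (r / 2) := by
        refine div_le_div₀ (by positivity) ?_ (by positivity) hqr
        exact mul_le_mul_of_nonneg_left (by linarith) hz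
    _ ≤ ‖z‖ * (3 * (ε * r / 6)) / (r / 2) := by
        refine div_le_div_of_nonneg_right ?_ (by positivity)
        exact mul_le_mul_of_nonneg_left (by linarith) hz
    _ = ε * ‖z‖ := by
        field_simp
        ring

/-- Composition with a continuous map. -/
noncomputable def Cop (c : C(unitInterval, unitInterval)) : CI →L[ℝ] CI :=
  LinearMap.mkContinuous
    { toFun := fun z => z.comp c
      map_add' := fun _ _ => rfl
      map_smul' := fun _ _ => rfl } 1
    (by
      intro z
      rw [one_mul]
      exact (ContinuousMap.norm_le _ (norm_nonneg z)).2 fun s => z.norm_coe_le_norm _)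

theorem Cop_apply (c : C(unitInterval, unitInterval)) (z : CI) (s : unitInterval) :
    Cop c z s = z (c s) := rfl

theorem Cop_nc {c : C(unitInterval, unitInterval)} {t : unitInterval}
    (h : ∃ d : ℝ, 0 < d ∧ ∀ s : unitInterval, |(s : ℝ) - t| ≤ d → c s = c t) :
    NC (Cop c) t := by
  obtain ⟨d, hd, h1⟩ := h
  refine nc_of fun ε hε => ⟨d, hd, fun s hs z => ?_⟩
  rw [Cop_apply, Cop_apply, h1 s hs, sub_self, abs_zero]
  positivity

end Pool.Agent.Q61.OS
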