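import Mathlib
import Pool.Agent.Q61.OS1

set_option autoImplicit false

open Filter Topology MeasureTheory ProbabilityTheory

namespace Pool.Agent.Q61.OS

theorem volume_singleton_ui (x : unitInterval) : (volume : Measure unitInterval) {x} = 0 := by
  rw [Measure.Subtype.volume_def, Measure.comap_apply _ Subtype.val_injective]
  · simp
  · intro s hs
    exact (MeasurableEmbedding.subtype_coe measurableSet_Icc).measurableSet_image.2 hs
  · exact MeasurableSet.singleton x

/-- A continuous map of `[0,1]` that is locally constant off an uncountable closed set `F` and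
maps `F` onto `[0,1]`. -/
theorem exists_cantor {F : Set unitInterval} (hF : IsClosed F) (hunc : ¬ F.Countable) :
    ∃ c : C(unitInterval, unitInterval),
      (∀ t, t ∉ F → ∃ d : ℝ, 0 < d ∧ ∀ s : unitInterval, |(s : ℝ) - t| ≤ d → c s = c t) ∧
      ∀ x, ∃ t ∈ F, c t = x := by
  have hF' : ¬ Countable F := fun h => hunc (Set.countable_coe_iff.1 h)
  have hI : ¬ Countable unitInterval := by
    intro h
    have h1 : (Set.univ : Set unitInterval).Countable := Set.countable_univ
    exact hunc (h1.mono (Set.subset_univ F))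
  haveI : PolishSpace F := hF.polishSpace
  let e : unitInterval ≃ᵐ F := PolishSpace.measurableEquivOfNotCountable hI hF'
  let g : unitInterval → ℝ := fun x => ((e x : unitInterval) : ℝ)
  have hg : Measurable g := measurable_subtype_coe.comp (measurable_subtype_coe.comp e.measurable)
  have hginj : Function.Injective g :=
    Subtype.val_injective.comp (Subtype.val_injective.comp e.injective)
  let μ : Measure ℝ := Measure.map g volume
  haveI : IsProbabilityMeasure μ := Measure.isProbabilityMeasure_map hg.aemeasurable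
  have hatom : ∀ a : ℝ, μ {a} = 0 := by
    intro a
    rw [Measure.map_apply hg (measurableSet_singleton a)]
    by_cases h : ∃ x, g x = a
    · obtain ⟨x, rfl⟩ := h
      have : g ⁻¹' {g x} = {x} := by
        ext y
        simp only [Set.mem_preimage, Set.mem_singleton_iff]
        exact hginj.eq_iff
      rw [this, volume_singleton_ui]
    · have : g ⁻¹' {a} = ∅ := by
        ext y
        simp only [Set.mem_preimage, Set.mem_singleton_iff, Set.mem_empty_iff_false, iff_false]
        exact fun h2 => h ⟨y, h2⟩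
      rw [this, measure_empty]
  -- sets missing `F`
  have hnull : ∀ S : Set ℝ, MeasurableSet S → (∀ t ∈ F, (t : ℝ) ∉ S) → μ S = 0 := by
    intro S hS h
    rw [Measure.map_apply hg hS]
    have : g ⁻¹' S = ∅ := by
      ext y
      simp only [Set.mem_preimage, Set.mem_empty_iff_false, iff_false]
      exact h _ (e y).2
    rw [this, measure_empty]
  let f : StieltjesFunction ℝ := cdf μ
  have hfm : f.measure = μ := measure_cdf μ
  have hcont : Continuous f := by
    rw [continuous_iff_continuousAt]
    intro a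
    rw [f.mono.continuousAt_iff_leftLim_eq_rightLim, f.rightLim_eq]
    have h1 := f.measure_singleton a
    rw [hfm, hatom] at h1
    have h2 := ENNReal.ofReal_eq_zero.1 h1.symm
    have h3 := f.mono.leftLim_le (le_refl a)
    linarith
  have hf0 : f 0 = 0 := by
    have h1 : μ (Set.Iic 0) = 0 := by
      have h2 : Set.Iic (0 : ℝ) = Set.Iio 0 ∪ {0} := by
        ext x
        simp [le_iff_lt_or_eq]
      rw [h2]
      refine measure_union_null (hnull _ measurableSet_Iio fun t _ => ?_) (hatom 0)
      simp only [Set.mem_Iio, not_lt]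
      exact t.2.1
    have h3 := ofReal_cdf μ 0
    rw [h1] at h3
    exact le_antisymm (ENNReal.ofReal_eq_zero.1 h3) (cdf_nonneg μ 0)
  have hf1 : f 1 = 1 := by
    have h1 : μ (Set.Ioi 1) = 0 := by
      refine hnull _ measurableSet_Ioi fun t _ => ?_
      simp only [Set.mem_Ioi, not_lt]
      exact t.2.2
    have h2 : μ (Set.Iic 1) = 1 := by
      have h3 : (Set.Ioi (1 : ℝ))ᶜ = Set.Iic 1 := Set.compl_Ioi
      rw [← h3, measure_compl measurableSet_Ioi (measure_ne_top μ _), h1, measure_univ, tsub_zero]
    have h3 := ofReal_cdf μ 1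
    rw [h2] at h3
    have h4 : cdf μ 1 = 1 := by
      have := ENNReal.ofReal_eq_one.1 h3
      exact this
    exact h4
  let c : C(unitInterval, unitInterval) :=
    ⟨fun t => ⟨f t, cdf_nonneg μ _, cdf_le_one μ _⟩,
      (hcont.comp continuous_subtype_val).subtype_mk _⟩
  have hcv : ∀ t : unitInterval, ((c t : unitInterval) : ℝ) = f t := fun t => rfl
  have hloc : ∀ t, t ∉ F → ∃ d : ℝ, 0 < d ∧ ∀ s : unitInterval, |(s : ℝ) - t| ≤ d →
      c s = c t := by
    intro t ht
    have h1 : ∀ᶠ s in 𝓝 t, s ∉ F := hF.isOpen_compl.mem_nhds ht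
    obtain ⟨d, hd, h2⟩ := Metric.eventually_nhds_iff.1 h1
    refine ⟨d / 2, by positivity, fun s hs => ?_⟩
    have hzero : ∀ a b : ℝ, a ≤ b → |a - t| ≤ d / 2 → |b - t| ≤ d / 2 → f a = f b := by
      intro a b hab ha hb
      have h3 : μ (Set.Ioc a b) = 0 := by
        refine hnull _ measurableSet_Ioc fun u hu hmem => ?_
        refine h2 ?_ hu
        rw [Subtype.dist_eq, Real.dist_eq, abs_lt]
        rw [abs_le] at ha hb
        constructor <;> linarith [hmem.1, hmem.2, ha.1, hb.2]
      have h4 := f.measure_Ioc a b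
      rw [hfm, h3] at h4
      have h5 := ENNReal.ofReal_eq_zero.1 h4.symm
      have h6 := f.mono hab
      linarith
    apply Subtype.ext
    rw [hcv, hcv]
    have h0 : |(t : ℝ) - t| ≤ d / 2 := by
      rw [sub_self, abs_zero]
      positivity
    rcases le_total (s : ℝ) t with h | h
    · exact hzero _ _ h hs h0
    · exact (hzero _ _ h h0 hs).symm
  refine ⟨c, hloc, fun x => ?_⟩
  -- the fibre over `x`
  set K : Set unitInterval := c ⁻¹' {x} with hK
  have hKc : IsCompact K := (isClosed_singleton.preimage c.continuous).isCompact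
  have hc0 : c 0 = 0 := Subtype.ext (by rw [hcv]; simpa using hf0)
  have hc1 : c 1 = 1 := Subtype.ext (by rw [hcv]; simpa using hf1)
  have hKne : K.Nonempty := by
    have h1 : x ∈ Set.Icc (c 0) (c 1) := by
      rw [hc0, hc1]
      exact ⟨unitInterval.nonneg x, unitInterval.le_one x⟩
    obtain ⟨t, ht⟩ := mem_range_of_exists_le_of_exists_ge c.continuous ⟨0, h1.1⟩ ⟨1, h1.2⟩
    exact ⟨t, ht⟩
  obtain ⟨a, haK, ha⟩ := hKc.exists_isLeast hKne
  obtain ⟨b, hbK, hb⟩ := hKc.exists_isGreatest hKne
  by_cases haF : a ∈ F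
  · exact ⟨a, haF, haK⟩
  by_cases hbF : b ∈ F
  · exact ⟨b, hbF, hbK⟩
  exfalso
  have ha0 : a = 0 := by
    by_contra hne
    have hpos : (0 : ℝ) < a := by
      have := unitInterval.pos_iff_ne_zero.2 hne
      exact this
    obtain ⟨d, hd, h1⟩ := hloc a haF
    have hm : 0 < min d a := lt_min hd hpos
    have h2 : (a : ℝ) - min d a ∈ Set.Icc (0 : ℝ) 1 :=
      ⟨by linarith [min_le_right d (a : ℝ)], by linarith [a.2.2]⟩
    have h3 := h1 ⟨(a : ℝ) - min d a, h2⟩ (by
      show |(a : ℝ) - min d a - a| ≤ d
      rw [sub_sub_cancel_left, abs_neg, abs_of_pos hm]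
      exact min_le_left _ _)
    have h4 : (⟨(a : ℝ) - min d a, h2⟩ : unitInterval) ∈ K := by
      show c _ = x
      rw [h3]
      exact haK
    have h5 : (a : ℝ) ≤ (a : ℝ) - min d a := ha h4
    linarith
  have hb1 : b = 1 := by
    by_contra hne
    have hpos : (b : ℝ) < 1 := by
      have := unitInterval.lt_one_iff_ne_one.2 hne
      exact this
    obtain ⟨d, hd, h1⟩ := hloc b hbF
    have hm : 0 < min d (1 - b) := lt_min hd (by linarith)
    have h2 : (b : ℝ) + min d (1 - b) ∈ Set.Icc (0 : ℝ) 1 :=
      ⟨by linarith [b.2.1], by linarith [min_le_right d (1 - b : ℝ)]⟩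
    have h3 := h1 ⟨(b : ℝ) + min d (1 - b), h2⟩ (by
      show |(b : ℝ) + min d (1 - b) - b| ≤ d
      rw [add_sub_cancel_left, abs_of_pos hm]
      exact min_le_left _ _)
    have h4 : (⟨(b : ℝ) + min d (1 - b), h2⟩ : unitInterval) ∈ K := by
      show c _ = x
      rw [h3]
      exact hbK
    have h5 : (b : ℝ) + min d (1 - b) ≤ b := hb h4
    linarith
  have h1 : c 0 = x := by rw [← ha0]; exact haK
  have h2 : c 1 = x := by rw [← hb1]; exact hbK
  rw [hc0] at h1
  rw [hc1, ← h1] at h2
  exact one_ne_zero h2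

end Pool.Agent.Q61.OS
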