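import Mathlib
import Pool.Agent.Q61.OS4
import Pool.Agent.Q61.OS5
import Pool.Agent.Q61.OS6

set_option autoImplicit false

open Filter Topology
open scoped ZeroAtInfty

namespace Pool.Agent.Q61.OS

theorem split2 {F : Type*} [NormedAddCommGroup F] [NormedSpace ℝ F] [CompleteSpace F]
    {b : ℕ → ℝ} (hb : Summable b) (hb0 : ∀ j, 0 < b j) (v : ℕ → F) (hv : ∀ j, ‖v j‖ ≤ 1)
    (S : Set ℕ) :
    ∃ u1 u2 : ℕ → F, (∀ j, ‖u1 j‖ ≤ b j) ∧ (∀ j, ‖u2 j‖ ≤ b j) ∧
      (∀ j ∈ S, u1 j = b j • v j ∧ u2 j = 0) ∧ (∀ j, j ∉ S → u1 j = 0 ∧ u2 j = b j • v j) ∧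
      ∑' j, b j • v j = ∑' j, u1 j + ∑' j, u2 j := by
  classical
  have hn : ∀ j, ‖b j • v j‖ ≤ b j := by
    intro j
    rw [norm_smul, Real.norm_eq_abs, abs_of_pos (hb0 j)]
    nlinarith [hv j, hb0 j]
  have h1 : ∀ j, ‖(if j ∈ S then b j • v j else 0)‖ ≤ b j := by
    intro j
    split_ifs
    · exact hn j
    · rw [norm_zero]
      exact (hb0 j).le
  have h2 : ∀ j, ‖(if j ∈ S then 0 else b j • v j)‖ ≤ b j := by
    intro j
    split_ifs
    · rw [norm_zero]
      exact (hb0 j).le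
    · exact hn j
  refine ⟨fun j => if j ∈ S then b j • v j else 0, fun j => if j ∈ S then 0 else b j • v j,
    h1, h2, fun j hj => ⟨if_pos hj, if_pos hj⟩, fun j hj => ⟨if_neg hj, if_neg hj⟩, ?_⟩
  rw [← (Summable.of_norm_bounded hb h1).tsum_add (Summable.of_norm_bounded hb h2)]
  refine tsum_congr fun j => ?_
  split_ifs <;> simp

theorem eval_tsum {E F : Type*} [NormedAddCommGroup E] [NormedSpace ℝ E] [NormedAddCommGroup F]
    [NormedSpace ℝ F] [CompleteSpace F] {b : ℕ → ℝ} (hb : Summable b) {u : ℕ → E →L[ℝ] F}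
    (hu : ∀ j, ‖u j‖ ≤ b j) (φ : F →L[ℝ] ℝ) (z : E) :
    φ ((∑' j, u j) z) = ∑' j, φ (u j z) := by
  have hs : Summable u := Summable.of_norm_bounded hb hu
  exact (φ.comp (ContinuousLinearMap.apply ℝ F z)).map_tsum hs

/-- A bump at `t` of width `η`. -/
noncomputable def bump (t : unitInterval) (η : ℝ) : CI :=
  ⟨fun x => max 0 (1 - |(x : ℝ) - t| / η), by fun_prop⟩

theorem bump_apply (t : unitInterval) (η : ℝ) (x : unitInterval) :
    bump t η x = max 0 (1 - |(x : ℝ) - t| / η) := rfl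

theorem bump_self (t : unitInterval) (η : ℝ) : bump t η t = 1 := by
  rw [bump_apply, sub_self, abs_zero, zero_div, sub_zero]
  exact max_eq_right zero_le_one

theorem bump_far {t : unitInterval} {η : ℝ} (hη : 0 < η) {x : unitInterval}
    (hx : η ≤ |(x : ℝ) - t|) : bump t η x = 0 := by
  rw [bump_apply]
  refine max_eq_left ?_
  have : 1 ≤ |(x : ℝ) - t| / η := by rwa [le_div_iff₀ hη, one_mul]
  linarith

theorem bump_norm (t : unitInterval) {η : ℝ} (hη : 0 < η) : ‖bump t η‖ ≤ 1 := by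
  refine (ContinuousMap.norm_le _ zero_le_one).2 fun x => ?_
  rw [bump_apply, Real.norm_eq_abs, abs_of_nonneg (le_max_left _ _)]
  refine max_le zero_le_one ?_
  have : 0 ≤ |(x : ℝ) - t| / η := by positivity
  linarith

/-- The operator of the uncountable case. -/
noncomputable def Tu (c : C(unitInterval, unitInterval)) (F : ℕ → Set unitInterval)
    (t0 : unitInterval) (r : ℝ) : CI × W →L[ℝ] CI :=
  (Cop c + ∑' k : ℕ, (1 / 8 * (1 / 2) ^ k : ℝ) • Sop (F k)).comp
    (ContinuousLinearMap.fst ℝ CI W) + (Jop t0 (2 / r)).comp (ContinuousLinearMap.snd ℝ CI W)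

theorem Tu_apply (c : C(unitInterval, unitInterval)) (F : ℕ → Set unitInterval)
    (t0 : unitInterval) (r : ℝ) (z : CI) (y : W) (s : unitInterval) :
    Tu c F t0 r (z, y) s = z (c s) +
      ((∑' k : ℕ, (1 / 8 * (1 / 2) ^ k : ℝ) • Sop (F k) : CI →L[ℝ] CI) z) s +
      Jf y (2 / r * |(s : ℝ) - t0|) := rfl

theorem Sterm_norm (F : ℕ → Set unitInterval) (k : ℕ) :
    ‖(1 / 8 * (1 / 2) ^ k : ℝ) • Sop (F k)‖ ≤ 1 / 8 * (1 / 2) ^ k :=
  smul_norm_le (Sop_norm _) (by positivity)

theorem Tu_below {c : C(unitInterval, unitInterval)} {F : ℕ → Set unitInterval}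
    {t0 : unitInterval} {r : ℝ} (hr : 0 < r) (hr1 : r ≤ 1)
    (hc : ∀ x, ∃ t : unitInterval, r ≤ |(t : ℝ) - t0| ∧ c t = x) (p : CI × W) :
    3 / 16 * ‖p‖ ≤ ‖Tu c F t0 r p‖ := by
  obtain ⟨z, y⟩ := p
  set A : CI →L[ℝ] CI := ∑' k : ℕ, (1 / 8 * (1 / 2) ^ k : ℝ) • Sop (F k) with hA
  have hA1 : ∀ s, |A z s| ≤ 1 / 4 * ‖z‖ := by
    intro s
    refine (ContinuousMap.norm_coe_le_norm (A z) s).trans ?_
    refine (A.le_opNorm z).trans ?_
    exact mul_le_mul_of_nonneg_right (tsum_norm_le_quarter (Sterm_norm F)) (norm_nonneg z)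
  have h1 : 3 / 4 * ‖z‖ ≤ ‖Tu c F t0 r (z, y)‖ := by
    have h2 : ‖z‖ ≤ ‖Tu c F t0 r (z, y)‖ + 1 / 4 * ‖z‖ := by
      refine (ContinuousMap.norm_le _ (by positivity)).2 fun x => ?_
      obtain ⟨t, ht, rfl⟩ := hc x
      have h3 := ContinuousMap.norm_coe_le_norm (Tu c F t0 r (z, y)) t
      rw [Tu_apply] at h3
      have h4 : Jf y (2 / r * |(t : ℝ) - t0|) = 0 := by
        refine Jf_two _ ?_
        rw [div_mul_eq_mul_div, le_div_iff₀ hr]
        linarith
      rw [h4, add_zero, Real.norm_eq_abs] at h3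
      rw [Real.norm_eq_abs]
      have h5 := hA1 t
      have h6 : |z (c t)| ≤ |z (c t) + A z t| + |A z t| := by
        have := abs_sub (z (c t) + A z t) (A z t)
        rwa [add_sub_cancel_right] at this
      linarith
    linarith
  have h2 : ‖y‖ ≤ ‖Tu c F t0 r (z, y)‖ + 5 / 4 * ‖z‖ := by
    refine W_norm_le (by positivity) fun k => ?_
    have hk : ((1 : ℝ) / 2) ^ k ≤ 1 := pow_le_one₀ (by norm_num) (by norm_num)
    have hkp : (0 : ℝ) < (1 / 2) ^ k := by positivity
    obtain ⟨t, ht⟩ := exists_pt t0 (r := r / 2 * (1 / 2) ^ k) (by positivity) (by nlinarith)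
    have h3 := ContinuousMap.norm_coe_le_norm (Tu c F t0 r (z, y)) t
    rw [Tu_apply, ht, show 2 / r * (r / 2 * (1 / 2) ^ k) = ((1 : ℝ) / 2) ^ k by
      field_simp, Jf_self, Real.norm_eq_abs] at h3
    have h5 := hA1 t
    have h6 : |z (c t)| ≤ ‖z‖ := z.norm_coe_le_norm _
    have h7 : |y k| ≤ |z (c t) + A z t + y k| + |z (c t) + A z t| := by
      have := abs_sub (z (c t) + A z t + y k) (z (c t) + A z t)
      rwa [add_sub_cancel_left] at this
    have h8 := abs_add_le (z (c t)) (A z t)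
    linarith
  rw [Prod.norm_mk]
  have hz := norm_nonneg z
  have hy := norm_nonneg y
  rcases le_total (‖y‖ / 4) ‖z‖ with h | h
  · rcases max_cases ‖z‖ ‖y‖ with ⟨e, -⟩ | ⟨e, -⟩ <;> rw [e] <;> linarith
  · rcases max_cases ‖z‖ ‖y‖ with ⟨e, -⟩ | ⟨e, -⟩ <;> rw [e] <;> linarith

theorem uncountable_case {F : ℕ → Set unitInterval} (hF : ∀ k, IsClosed (F k))
    {M : Set unitInterval} (hM : M = ⋃ k, F k) (hunc : ¬ M.Countable) :
    ∃ X : Submodule ℝ CI, IsClosed (X : Set CI) ∧ ¬ Complemented X ∧ Spec X = M := by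
  classical
  obtain ⟨t0, ht0⟩ : M.Nonempty := by
    rw [Set.nonempty_iff_ne_empty]
    rintro rfl
    exact hunc Set.countable_empty
  -- an uncountable closed piece away from `t0`
  obtain ⟨k1, j1, hG⟩ : ∃ k j : ℕ,
      ¬ (F k ∩ {t : unitInterval | 1 / ((j : ℝ) + 1) ≤ |(t : ℝ) - t0|}).Countable := by
    by_contra hcon
    push Not at hcon
    apply hunc
    have h1 : ({t0} ∪ ⋃ k : ℕ, ⋃ j : ℕ,
        (F k ∩ {t : unitInterval | 1 / ((j : ℝ) + 1) ≤ |(t : ℝ) - t0|})).Countable :=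
      (Set.countable_singleton t0).union
        (Set.countable_iUnion fun k => Set.countable_iUnion fun j => hcon k j)
    refine h1.mono fun t ht => ?_
    by_cases he : t = t0
    · exact Or.inl he
    · right
      rw [hM] at ht
      obtain ⟨k, hk⟩ := Set.mem_iUnion.1 ht
      have hpos : 0 < |(t : ℝ) - t0| := by
        rw [abs_pos, sub_ne_zero]
        exact fun h => he (Subtype.ext h)
      obtain ⟨j, hj⟩ := exists_nat_one_div_lt hpos
      exact Set.mem_iUnion.2 ⟨k, Set.mem_iUnion.2 ⟨j, hk, hj.le⟩⟩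
  set G : Set unitInterval := F k1 ∩ {t : unitInterval | 1 / ((j1 : ℝ) + 1) ≤ |(t : ℝ) - t0|}
    with hGdef
  set r : ℝ := 1 / ((j1 : ℝ) + 1) with hr
  have hrp : 0 < r := by positivity
  have hr1 : r ≤ 1 := by
    rw [hr, div_le_one (by positivity)]
    have : (0 : ℝ) ≤ j1 := Nat.cast_nonneg _
    linarith
  have hGc : IsClosed G := by
    refine (hF k1).inter ?_
    exact isClosed_le continuous_const (by fun_prop)
  have hGM : G ⊆ M := by
    rw [hM]
    exact fun t ht => Set.mem_iUnion.2 ⟨k1, ht.1⟩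
  obtain ⟨c, hcloc, hcsurj⟩ := exists_cantor hGc hG
  set F' : ℕ → Set unitInterval := fun k => F k ∪ {t0} with hF'
  have hF'c : ∀ k, IsClosed (F' k) := fun k => (hF k).union isClosed_singleton
  have hF'ne : ∀ k, (F' k).Nonempty := fun k => ⟨t0, Or.inr rfl⟩
  have hF'M : ∀ k, F' k ⊆ M := by
    intro k t ht
    rcases ht with h | h
    · rw [hM]
      exact Set.mem_iUnion.2 ⟨k, h⟩
    · rw [Set.mem_singleton_iff.1 h]
      exact ht0
  refine general (Z := CI) (T := Tu c F' t0 r) (c := 3 / 16) (by norm_num)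
    (Tu_below hrp hr1 fun x => ?_) ?_ ?_
  · obtain ⟨t, ht, htx⟩ := hcsurj x
    exact ⟨t, ht.2, htx⟩
  · intro t ht
    have hne : (t : ℝ) ≠ t0 := by
      intro h
      rw [Subtype.ext h] at ht
      exact ht ht0
    unfold Tu
    refine nc_add (nc_comp (nc_add (Cop_nc (hcloc t fun h => ht (hGM h))) ?_) _)
      (nc_comp (Jop_nc (by positivity) hne) _)
    exact nc_tsum wt_summable (Sterm_norm F') fun k =>
      nc_smul _ (Sop_nc (hF'c k) (hF'ne k) fun h => ht (hF'M k h))
  · intro t ht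
    set b : ℕ → ℝ := fun j => 1 / 8 * (1 / 2) ^ j with hb
    have hb0 : ∀ j, 0 < b j := fun j => by simp only [hb]; positivity
    set S : Set ℕ := {k | t ∈ F' k} with hS
    obtain ⟨i, hi⟩ : ∃ i, t ∈ F' i := by
      rw [hM] at ht
      obtain ⟨k, hk⟩ := Set.mem_iUnion.1 ht
      exact ⟨k, Or.inl hk⟩
    obtain ⟨u1, u2, hu1, hu2, hin, hout, hsum⟩ := split2 (F := CI →L[ℝ] CI) wt_summable hb0
      (fun k => Sop (F' k)) (fun k => Sop_norm _) S
    have hsw : Summable (fun j => if j ∈ S then b j else 0) := by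
      refine Summable.of_nonneg_of_le (fun j => ?_) (fun j => ?_) wt_summable
      · split_ifs
        · exact (hb0 j).le
        · exact le_rfl
      · split_ifs
        · exact le_rfl
        · exact (hb0 j).le
    set w : ℝ := ∑' j, (if j ∈ S then b j else 0) with hw
    have hwp : 0 < w := by
      refine hsw.tsum_pos (fun j => ?_) i ?_
      · split_ifs
        · exact (hb0 j).le
        · exact le_rfl
      · rw [if_pos (show i ∈ S from hi)]
        exact hb0 i
    have hw4 : w ≤ 1 / 4 := by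
      rw [← wt_sum]
      refine hsw.tsum_le_tsum (fun j => ?_) wt_summable
      split_ifs
      · exact le_rfl
      · exact (hb0 j).le
    have hnc : NC (∑' j, u2 j) t := by
      refine nc_tsum wt_summable hu2 fun j => ?_
      by_cases h : j ∈ S
      · rw [(hin j h).2]
        exact nc_zero _
      · rw [(hout j h).2]
        exact nc_smul _ (Sop_nc (hF'c j) (hF'ne j) h)
    refine ⟨w / 2, by positivity, fun d hd => ?_⟩
    obtain ⟨d', hd', hd2⟩ := hnc.spec (ε := w / 2) (by positivity)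
    set r0 : ℝ := min (min d d') (1 / 2) with hr0
    have hr0p : 0 < r0 := lt_min (lt_min hd hd') (by norm_num)
    obtain ⟨s, hs⟩ := exists_pt t (r := r0) hr0p.le (min_le_right _ _)
    -- the width
    obtain ⟨η, hη, hη1, hη2, hη3⟩ : ∃ η : ℝ, 0 < η ∧ η ≤ r0 / 2 ∧
        (c t ≠ t → η ≤ |((c t : unitInterval) : ℝ) - t|) ∧
        (c s ≠ t → η ≤ |((c s : unitInterval) : ℝ) - t|) := by
      have hpos : ∀ x : unitInterval, x ≠ t → 0 < |(x : ℝ) - t| := by
        intro x hx
        rw [abs_pos, sub_ne_zero]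
        exact fun h => hx (Subtype.ext h)
      have key : ∀ x : unitInterval, ∃ η : ℝ, 0 < η ∧ (x ≠ t → η ≤ |(x : ℝ) - t|) := by
        intro x
        by_cases hx : x = t
        · exact ⟨1, one_pos, fun h => absurd hx h⟩
        · exact ⟨_, hpos x hx, fun _ => le_rfl⟩
      obtain ⟨η1, h1, h1'⟩ := key (c t)
      obtain ⟨η2, h2, h2'⟩ := key (c s)
      refine ⟨min (r0 / 2) (min η1 η2), lt_min (by positivity) (lt_min h1 h2),
        min_le_left _ _, fun h => ?_, fun h => ?_⟩
      · exact ((min_le_right _ _).trans (min_le_left _ _)).trans (h1' h)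
      · exact ((min_le_right _ _).trans (min_le_right _ _)).trans (h2' h)
    have h01 : ∀ x : unitInterval, (x ≠ t → η ≤ |(x : ℝ) - t|) →
        bump t η x = 0 ∨ bump t η x = 1 := by
      intro x hx
      by_cases h : x = t
      · right
        rw [h, bump_self]
      · left
        exact bump_far hη (hx h)
    refine ⟨bump t η, 0, Y.zero_mem, bump_norm t hη, by simp, s, ?_, ?_⟩
    · rw [hs]
      exact (min_le_left _ _).trans (min_le_left _ _)
    have hdd := hd2 s (by rw [hs]; exact (min_le_left _ _).trans (min_le_right _ _)) (bump t η)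
    have hdd' : |(∑' j, u2 j) (bump t η) s - (∑' j, u2 j) (bump t η) t| ≤ w / 2 := by
      refine hdd.trans ?_
      nlinarith [bump_norm t hη]
    have e1 : (∑' j, u1 j) (bump t η) t = w := by
      have h := eval_tsum wt_summable hu1 (ev t) (bump t η)
      have h' : (∑' j, u1 j) (bump t η) t = ∑' j, (u1 j (bump t η)) t := h
      rw [h', hw]
      refine tsum_congr fun j => ?_
      by_cases hj : j ∈ S
      · rw [if_pos hj, (hin j hj).1]
        show b j * Sop (F' j) (bump t η) t = b j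
        rw [Sop_mem _ (show t ∈ F' j from hj), bump_self, mul_one]
      · rw [if_neg hj, (hout j hj).1]
        rfl
    have e2 : (∑' j, u1 j) (bump t η) s = 0 := by
      have h := eval_tsum wt_summable hu1 (ev s) (bump t η)
      have h' : (∑' j, u1 j) (bump t η) s = ∑' j, (u1 j (bump t η)) s := h
      rw [h', ← tsum_zero (α := ℝ) (β := ℕ)]
      refine tsum_congr fun j => ?_
      by_cases hj : j ∈ S
      · rw [(hin j hj).1]
        show b j * Sop (F' j) (bump t η) s = 0
        rw [Sop_zero (show t ∈ F' j from hj), mul_zero]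
        intro x hx
        refine bump_far hη (le_trans ?_ hx)
        rw [hs]
        exact hη1
      · rw [(hout j hj).1]
        rfl
    have hsum' : (∑' k : ℕ, (1 / 8 * (1 / 2) ^ k : ℝ) • Sop (F' k) : CI →L[ℝ] CI) =
        ∑' j, u1 j + ∑' j, u2 j := hsum
    have hz0 : ∀ v : ℝ, Jf (0 : W) v = 0 := by
      intro v
      unfold Jf
      simp
    have hTs : Tu c F' t0 r (bump t η, 0) s = bump t η (c s) + (0 + (∑' j, u2 j) (bump t η) s) := by
      rw [Tu_apply, hz0, add_zero, hsum']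
      show bump t η (c s) + ((∑' j, u1 j) (bump t η) s + (∑' j, u2 j) (bump t η) s) = _
      rw [e2]
    have hTt : Tu c F' t0 r (bump t η, 0) t = bump t η (c t) + (w + (∑' j, u2 j) (bump t η) t) := by
      rw [Tu_apply, hz0, add_zero, hsum']
      show bump t η (c t) + ((∑' j, u1 j) (bump t η) t + (∑' j, u2 j) (bump t η) t) = _
      rw [e1]
    rw [hTs, hTt]
    obtain ⟨g1, g2⟩ := abs_le.1 hdd'
    rcases h01 _ hη2 with ht1 | ht1 <;> rcases h01 _ hη3 with hs1 | hs1 <;> rw [ht1, hs1]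
    · rw [abs_sub_comm]
      refine le_trans ?_ (le_abs_self _)
      linarith
    · refine le_trans ?_ (le_abs_self _)
      linarith
    · rw [abs_sub_comm]
      refine le_trans ?_ (le_abs_self _)
      linarith
    · rw [abs_sub_comm]
      refine le_trans ?_ (le_abs_self _)
      linarith

/-- Every nonempty `F_σ` set is the oscillating spectrum of a non-complemented subspace. -/
theorem main {M : Set unitInterval} (hne : M.Nonempty)
    (hM : ∃ F : ℕ → Set unitInterval, (∀ k, IsClosed (F k)) ∧ M = ⋃ k, F k) :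
    ∃ X : Submodule ℝ CI, IsClosed (X : Set CI) ∧ ¬ Complemented X ∧ Spec X = M := by
  obtain ⟨F, hF, hMF⟩ := hM
  by_cases hc : M.Countable
  · obtain ⟨s, hs⟩ := hc.exists_eq_range hne
    obtain ⟨X, h1, h2, h3⟩ := countable_case s
    exact ⟨X, h1, h2, h3.trans hs.symm⟩
  · exact uncountable_case hF hMF hc

end Pool.Agent.Q61.OS
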