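import Mathlib

/-!
The completed projective tensor product of two real Banach spaces, realised as the closed span
of the elementary tensors in the dual of the space of bounded bilinear forms; octahedral norms.
-/

set_option autoImplicit false
set_option maxSynthPendingDepth 3

namespace Pool.Agent.Q61.OT

universe u v

/-- `Z` has an octahedral norm. -/
def Octahedral (Z : Type*) [NormedAddCommGroup Z] [NormedSpace ℝ Z] : Prop :=
  ∀ (E : Submodule ℝ Z) (ε : ℝ), FiniteDimensional ℝ E → 0 < ε →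
    ∃ z : Z, ‖z‖ = 1 ∧ ∀ y ∈ E, ∀ l : ℝ, (1 - ε) * (‖y‖ + |l|) ≤ ‖y + l • z‖

section
variable (X : Type u) (Y : Type v) [NormedAddCommGroup X] [NormedSpace ℝ X]
    [NormedAddCommGroup Y] [NormedSpace ℝ Y]

/-- The Banach space of bounded bilinear forms on `X × Y`. -/
def Bil : Type (max u v) := X →L[ℝ] Y →L[ℝ] ℝ

noncomputable instance : NormedAddCommGroup (Bil X Y) :=
  ContinuousLinearMap.toNormedAddCommGroup (E := X) (F := Y →L[ℝ] ℝ) (σ₁₂ := RingHom.id ℝ)
noncomputable instance : NormedSpace ℝ (Bil X Y) :=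
  ContinuousLinearMap.toNormedSpace (E := X) (F := Y →L[ℝ] ℝ) (σ₁₂ := RingHom.id ℝ)

variable {X Y}

/-- The value of a bilinear form. -/
noncomputable def Bil.ap (B : Bil X Y) (x : X) (y : Y) : ℝ := (show X →L[ℝ] Y →L[ℝ] ℝ from B) x y

theorem Bil.ap_add (x : X) (y : Y) (B C : Bil X Y) : (B + C).ap x y = B.ap x y + C.ap x y := rfl
theorem Bil.ap_smul (x : X) (y : Y) (c : ℝ) (B : Bil X Y) : (c • B).ap x y = c • B.ap x y := rfl
theorem Bil.ap_le (x : X) (y : Y) (B : Bil X Y) : ‖B.ap x y‖ ≤ (‖x‖ * ‖y‖) * ‖B‖ := by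
  have h : ‖B.ap x y‖ ≤ ‖B‖ * ‖x‖ * ‖y‖ :=
    ContinuousLinearMap.le_opNorm₂ (show X →L[ℝ] Y →L[ℝ] ℝ from B) x y
  linarith

/-- The elementary tensor `x ⊗ y`, i.e. the evaluation of bounded bilinear forms at `(x, y)`. -/
noncomputable def elem (x : X) (y : Y) : StrongDual ℝ (Bil X Y) :=
  LinearMap.mkContinuous
    { toFun := fun B => B.ap x y
      map_add' := Bil.ap_add x y
      map_smul' := Bil.ap_smul x y } (‖x‖ * ‖y‖) (Bil.ap_le x y)

variable (X Y)

/-- The closed linear span of the elementary tensors in the dual of the Banach space of bounded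
bilinear forms on `X × Y`. -/
noncomputable def projTensorSub : Submodule ℝ (StrongDual ℝ (Bil X Y)) :=
  (Submodule.span ℝ (Set.range fun p : X × Y => elem p.1 p.2)).topologicalClosure

/-- The completed projective tensor product `X ⊗̂_π Y` of two real Banach spaces: the closed
linear span of the elementary tensors in the dual of the Banach space of bounded bilinear forms
on `X × Y`, with the norm of that dual space. -/
def ProjTensor : Type (max u v) := ↥(projTensorSub X Y)

noncomputable instance : NormedAddCommGroup (ProjTensor X Y) :=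
  Submodule.normedAddCommGroup (projTensorSub X Y)
noncomputable instance : NormedSpace ℝ (ProjTensor X Y) :=
  Submodule.normedSpace (projTensorSub X Y)
instance : CompleteSpace (ProjTensor X Y) :=
  (Submodule.isClosed_topologicalClosure
    (Submodule.span ℝ (Set.range fun p : X × Y => (elem p.1 p.2 : StrongDual ℝ (Bil X Y))))).completeSpace_coe

end

section
variable {X : Type u} {Y : Type v} [NormedAddCommGroup X] [NormedSpace ℝ X]
    [NormedAddCommGroup Y] [NormedSpace ℝ Y]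

theorem elem_mem (x : X) (y : Y) : elem x y ∈ projTensorSub X Y :=
  Submodule.le_topologicalClosure _ (Submodule.subset_span ⟨(x, y), rfl⟩)

/-- inclusion in the dual -/
noncomputable def val (X : Type u) (Y : Type v) [NormedAddCommGroup X] [NormedSpace ℝ X]
    [NormedAddCommGroup Y] [NormedSpace ℝ Y] :
    ProjTensor X Y →ₗ[ℝ] StrongDual ℝ (X →L[ℝ] Y →L[ℝ] ℝ) :=
  (projTensorSub X Y).subtype

theorem norm_val (z : ProjTensor X Y) : ‖val X Y z‖ = ‖z‖ := rfl

theorem val_apply_le (z : ProjTensor X Y) (B : X →L[ℝ] Y →L[ℝ] ℝ) :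
    val X Y z B ≤ ‖z‖ * ‖B‖ :=
  (le_abs_self _).trans ((val X Y z).le_opNorm B)

/-- Almost norming forms. -/
theorem exists_form (z : ProjTensor X Y) {r : ℝ} (hr : r < ‖z‖) :
    ∃ B : X →L[ℝ] Y →L[ℝ] ℝ, ‖B‖ ≤ 1 ∧ r < val X Y z B := by
  by_contra hcon
  push Not at hcon
  rcases lt_or_ge r 0 with h0 | h0
  · have := hcon 0 (by simp)
    rw [map_zero] at this
    exact absurd this (not_le.2 h0)
  refine absurd ?_ (not_le.2 hr)
  rw [← norm_val]
  refine ContinuousLinearMap.opNorm_le_bound _ h0 fun B => ?_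
  rcases eq_or_ne B 0 with rfl | hB
  · simp
  have hB' : 0 < ‖B‖ := norm_pos_iff.2 hB
  have key : ∀ s : ℝ, |s| = 1 → s * val X Y z B ≤ r * ‖B‖ := by
    intro s hs
    have h1 := hcon ((s * ‖B‖⁻¹) • B) (by
      rw [norm_smul, Real.norm_eq_abs, abs_mul, hs, one_mul, abs_of_pos (inv_pos.2 hB'),
        inv_mul_cancel₀ hB'.ne'])
    rw [map_smul, smul_eq_mul] at h1
    have h2 := mul_le_mul_of_nonneg_right h1 hB'.le
    calc s * val X Y z B = s * ‖B‖⁻¹ * val X Y z B * ‖B‖ := by field_simp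
      _ ≤ _ := h2
  rw [Real.norm_eq_abs]
  refine abs_le.2 ⟨?_, ?_⟩
  · have := key (-1) (by simp); linarith
  · have := key 1 (by simp); linarith

/-- A criterion for a projective tensor product not to be octahedral: there is a point `z₀`
at which almost norming forms are unique up to a small error. -/
theorem not_octahedral_of (z₀ : ProjTensor X Y) (hz₀ : 1 ≤ ‖z₀‖)
    (hle : ∀ B : X →L[ℝ] Y →L[ℝ] ℝ, ‖B‖ ≤ 1 → val X Y z₀ B ≤ 1)
    (τ : ℝ) (hτ : 0 < τ) (hτ1 : τ < 1 / 2)
    (hun : ∀ B₁ B₂ : X →L[ℝ] Y →L[ℝ] ℝ, ‖B₁‖ ≤ 1 → ‖B₂‖ ≤ 1 → 1 - τ ≤ val X Y z₀ B₁ →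
      1 - τ ≤ val X Y z₀ B₂ → ‖B₁ - B₂‖ ≤ 1) : ¬ Octahedral (ProjTensor X Y) := by
  intro hO
  -- choose `ε = τ / 4`
  obtain ⟨z, hz, hzE⟩ := hO (Submodule.span ℝ {z₀}) (τ / 4) inferInstance (by linarith)
  have hmem : z₀ ∈ Submodule.span ℝ {z₀} := Submodule.mem_span_singleton_self z₀
  have h1 := hzE z₀ hmem 1
  have h2 := hzE z₀ hmem (-1)
  rw [abs_one] at h1
  rw [abs_neg, abs_one] at h2
  rw [one_smul] at h1
  rw [neg_smul, one_smul, ← sub_eq_add_neg] at h2
  have hlow : 2 - τ < (1 - τ / 4) * (‖z₀‖ + 1) := by nlinarith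
  obtain ⟨B₁, hB₁, hB₁'⟩ := exists_form (z₀ + z) (hlow.trans_le h1)
  obtain ⟨B₂, hB₂, hB₂'⟩ := exists_form (z₀ - z) (hlow.trans_le h2)
  rw [map_add, add_apply] at hB₁'
  rw [map_sub, sub_apply] at hB₂'
  have ha := val_apply_le z B₁
  have hb : -val X Y z B₂ ≤ 1 := by
    have := val_apply_le z (-B₂)
    rw [map_neg, norm_neg, hz, one_mul] at this
    linarith
  rw [hz, one_mul] at ha
  have hc := hle B₁ hB₁
  have hd := hle B₂ hB₂
  have := hun B₁ B₂ hB₁ hB₂ (by linarith) (by linarith)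
  have he := val_apply_le z (B₁ - B₂)
  rw [map_sub, hz, one_mul] at he
  linarith

end

end Pool.Agent.Q61.OT
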