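import Pool.Agent.Q61.OT1
import Pool.Agent.H266R3.LDef

/-!
A countable discrete metric space whose Lipschitz-free space is octahedral.
-/

set_option autoImplicit false

namespace Pool.Agent.Q61.OT

open Pool.Agent.H266R3.LF

/-- The set `{p₀, p₁, p₂} ∪ {u₀, u₁, …}`. -/
inductive TM : Type
  | p (i : Fin 3)
  | u (k : ℕ)
  deriving DecidableEq

/-- The distance: `√3` between two different `p`'s, `1` between a `p` and a `u`,
and `2 - √3` between two different `u`'s. -/
noncomputable def tdist : TM → TM → ℝ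
  | .p i, .p j => if i = j then 0 else √3
  | .p _, .u _ => 1
  | .u _, .p _ => 1
  | .u k, .u l => if k = l then 0 else 2 - √3

lemma s3a : 1.7 < √3 := by
  rw [Real.lt_sqrt (by norm_num)]; norm_num
lemma s3b : √3 < 1.75 := by
  rw [Real.sqrt_lt' (by norm_num)]; norm_num

noncomputable instance : MetricSpace TM where
  dist := tdist
  dist_self x := by cases x <;> simp [tdist]
  dist_comm x y := by
    cases x <;> cases y <;> simp [tdist, eq_comm]
  dist_triangle x y z := by
    have h1 := s3a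
    have h2 := s3b
    cases x <;> cases y <;> cases z <;> simp only [tdist] <;> split_ifs <;>
      first | linarith | (subst_vars; simp_all)
  eq_of_dist_eq_zero {x y} h := by
    have h1 := s3a
    have h2 := s3b
    cases x <;> cases y <;> simp only [tdist] at h <;>
      first
      | (exfalso; linarith)
      | (split_ifs at h with h3
         · rw [h3]
         · exfalso; linarith)

lemma dist_def (x y : TM) : dist x y = tdist x y := rfl
lemma dist_pp {i j : Fin 3} (h : i ≠ j) : dist (TM.p i) (TM.p j) = √3 := by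
  rw [dist_def, tdist, if_neg h]
lemma dist_pu (i : Fin 3) (k : ℕ) : dist (TM.p i) (TM.u k) = 1 := rfl
lemma dist_up (i : Fin 3) (k : ℕ) : dist (TM.u k) (TM.p i) = 1 := rfl
lemma dist_uu {k l : ℕ} (h : k ≠ l) : dist (TM.u k) (TM.u l) = 2 - √3 := by
  rw [dist_def, tdist, if_neg h]

/-- the base point -/
def tb : TM := .p 0

/-- the first `n` points -/
def Gset (n : ℕ) : Set TM := {x | ∀ k, x = .u k → k < n}

lemma p_mem (n : ℕ) (i : Fin 3) : TM.p i ∈ Gset n := fun k h => by cases h
lemma u_mem {n k : ℕ} : TM.u k ∈ Gset n ↔ k < n :=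
  ⟨fun h => h k rfl, fun h l hl => by cases hl; exact h⟩

/-- distance to the new points -/
noncomputable def rho : TM → ℝ
  | .p _ => 1
  | .u _ => 2 - √3

lemma dist_u_of_mem {n k : ℕ} (hk : n ≤ k) {x : TM} (hx : x ∈ Gset n) :
    dist x (.u k) = rho x := by
  cases x with
  | p i => rfl
  | u l =>
    have := u_mem.1 hx
    rw [dist_uu (by omega)]; rfl

lemma dist_le_rho (x y : TM) (h : x ≠ y) : dist x y ≤ rho x + rho y - (2 - √3) := by
  have h1 := s3a
  have h2 := s3b
  cases x with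
  | p i =>
    cases y with
    | p j =>
      rw [dist_pp (by rintro rfl; exact h rfl)]
      simp only [rho]; linarith
    | u k => rw [dist_pu]; simp only [rho]; linarith
  | u k =>
    cases y with
    | p i => rw [dist_up]; simp only [rho]; linarith
    | u l =>
      rw [dist_uu (by rintro rfl; exact h rfl)]
      simp only [rho]; linarith

lemma rho_ge (x : TM) : 2 - √3 ≤ rho x := by
  have h1 := s3a
  cases x <;> simp only [rho] <;> linarith

/-- The extension of the restriction of `f` to the first points. -/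
lemma exists_ext (n : ℕ) (f : Lip0 TM tb) (hf : ‖f‖ ≤ 1) :
    ∃ g : Lip0 TM tb, ‖g‖ ≤ 1 ∧ (∀ x ∈ Gset n, g.fn x = f.fn x) ∧
      g.fn (.u n) - g.fn (.u (n + 1)) = 2 - √3 := by
  classical
  have h1 := s3a
  have h2 := s3b
  have hL : ∀ x y : TM, |f.fn x - f.fn y| ≤ dist x y := fun x y =>
    (f.abs_sub_le x y).trans (mul_le_of_le_one_left dist_nonneg hf)
  -- the key inequality
  have key : ∀ x y : TM, f.fn x - rho x ≤ f.fn y + rho y - (2 - √3) := by
    intro x y
    rcases eq_or_ne x y with rfl | hxy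
    · have := rho_ge x; linarith
    · have h3 := hL x y
      have h4 := dist_le_rho x y hxy
      have h5 := (abs_le.1 h3).2
      linarith
  have hbdd : BddAbove ((fun x => f.fn x - rho x) '' Gset n) := by
    refine ⟨f.fn tb + rho tb - (2 - √3), ?_⟩
    rintro _ ⟨x, -, rfl⟩
    exact key x tb
  have hne : ((fun x => f.fn x - rho x) '' Gset n).Nonempty := ⟨_, _, p_mem n 0, rfl⟩
  set low : ℝ := sSup ((fun x => f.fn x - rho x) '' Gset n) with hlow
  have hl1 : ∀ x ∈ Gset n, f.fn x - rho x ≤ low := fun x hx => le_csSup hbdd ⟨x, hx, rfl⟩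
  have hl2 : ∀ x, low ≤ f.fn x + rho x - (2 - √3) := by
    intro x
    refine csSup_le hne ?_
    rintro _ ⟨y, -, rfl⟩
    exact key y x
  let F : TM → ℝ := fun x => if x ∈ Gset n then f.fn x else
    (if x = .u n then low + (2 - √3) else low)
  have hF1 : ∀ x ∈ Gset n, F x = f.fn x := fun x hx => if_pos hx
  have hF2 : ∀ x ∉ Gset n, low ≤ F x ∧ F x ≤ low + (2 - √3) := by
    intro x hx
    have : F x = if x = .u n then low + (2 - √3) else low := if_neg hx
    rw [this]
    split_ifs <;> constructor <;> linarith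
  have hnot : ∀ x ∉ Gset n, ∃ k, n ≤ k ∧ x = .u k := by
    intro x hx
    cases x with
    | p i => exact absurd (p_mem n i) hx
    | u k =>
      refine ⟨k, ?_, rfl⟩
      by_contra h
      exact hx (u_mem.2 (not_le.1 h))
  have hmix : ∀ x ∈ Gset n, ∀ y ∉ Gset n, |F x - F y| ≤ dist x y := by
    intro x hx y hy
    obtain ⟨k, hk, rfl⟩ := hnot y hy
    rw [dist_u_of_mem hk hx, hF1 x hx]
    have h3 := hF2 _ hy
    have h4 := hl1 x hx
    have h5 := hl2 x
    rw [abs_le]; constructor <;> linarith [h3.1, h3.2]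
  have hF : ∀ x y, |F x - F y| ≤ 1 * dist x y := by
    intro x y
    rw [one_mul]
    by_cases hx : x ∈ Gset n
    · by_cases hy : y ∈ Gset n
      · rw [hF1 x hx, hF1 y hy]; exact hL x y
      · exact hmix x hx y hy
    · by_cases hy : y ∈ Gset n
      · rw [abs_sub_comm, dist_comm]; exact hmix y hy x hx
      · rcases eq_or_ne x y with rfl | hxy
        · simp
        · obtain ⟨k, hk, rfl⟩ := hnot x hx
          obtain ⟨l, hl, rfl⟩ := hnot y hy
          rw [dist_uu (by rintro rfl; exact hxy rfl)]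
          have h3 := hF2 _ hx
          have h4 := hF2 _ hy
          rw [abs_le]; constructor <;> linarith [h3.1, h3.2, h4.1, h4.2]
  have hb : F tb = 0 := (hF1 _ (p_mem n 0)).trans f.fn_base
  refine ⟨Lip0.mk F hb 1 zero_le_one hF,
    Lip0.norm_le' _ zero_le_one (by intro x y; rw [Lip0.fn_mk, Lip0.fn_mk]; exact hF x y),
    fun x hx => by rw [Lip0.fn_mk]; exact hF1 x hx, ?_⟩
  rw [Lip0.fn_mk, Lip0.fn_mk]
  have e1 : F (.u n) = low + (2 - √3) := by
    have : TM.u n ∉ Gset n := fun h => absurd (u_mem.1 h) (lt_irrefl _)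
    show (if TM.u n ∈ Gset n then _ else _) = _
    rw [if_neg this, if_pos rfl]
  have e2 : F (.u (n + 1)) = low := by
    have : TM.u (n + 1) ∉ Gset n := fun h => absurd (u_mem.1 h) (by omega)
    show (if TM.u (n + 1) ∈ Gset n then _ else _) = _
    rw [if_neg this, if_neg (by intro h; cases h)]
  rw [e1, e2]; ring

/-- the evaluation functional as an element of the free space -/
noncomputable def de (x : TM) : FreeSp TM tb := ⟨dlt TM tb x, dlt_mem x⟩

/-- the new point `(δ_{u_n} - δ_{u_{n+1}}) / (2 - √3)` -/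
noncomputable def zn (n : ℕ) : FreeSp TM tb := (2 - √3)⁻¹ • (de (.u n) - de (.u (n + 1)))

lemma inc_de (x : TM) (f : Lip0 TM tb) : inc TM tb (de x) f = f.fn x := rfl

lemma inc_zn (n : ℕ) (f : Lip0 TM tb) :
    inc TM tb (zn n) f = (2 - √3)⁻¹ * (f.fn (.u n) - f.fn (.u (n + 1))) := rfl

lemma norm_zn_le (n : ℕ) : ‖zn n‖ ≤ 1 := by
  have h2 := s3b
  rw [← norm_inc]
  refine ContinuousLinearMap.opNorm_le_bound _ zero_le_one fun f => ?_
  rw [inc_zn, Real.norm_eq_abs, abs_mul, abs_of_pos (inv_pos.2 (by linarith)), one_mul]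
  have h3 := f.abs_sub_le (.u n) (.u (n + 1))
  rw [dist_uu (by omega)] at h3
  rw [inv_mul_le_iff₀ (by linarith), mul_comm]
  exact h3

/-- almost norming functions -/
lemma exists_fun (y : FreeSp TM tb) {r : ℝ} (hr : r < ‖y‖) :
    ∃ f : Lip0 TM tb, ‖f‖ ≤ 1 ∧ r < inc TM tb y f := by
  by_contra hcon
  push Not at hcon
  rcases lt_or_ge r 0 with h0 | h0
  · have := hcon 0 (by simp)
    rw [map_zero] at this
    exact absurd this (not_le.2 h0)
  refine absurd ?_ (not_le.2 hr)
  rw [← norm_inc]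
  refine ContinuousLinearMap.opNorm_le_bound _ h0 fun B => ?_
  rcases eq_or_ne B 0 with rfl | hB
  · simp
  have hB' : 0 < ‖B‖ := norm_pos_iff.2 hB
  have key : ∀ s : ℝ, |s| = 1 → s * inc TM tb y B ≤ r * ‖B‖ := by
    intro s hs
    have h1 := hcon ((s * ‖B‖⁻¹) • B) (by
      rw [norm_smul, Real.norm_eq_abs, abs_mul, hs, one_mul, abs_of_pos (inv_pos.2 hB'),
        inv_mul_cancel₀ hB'.ne'])
    rw [map_smul, smul_eq_mul] at h1
    have h2 := mul_le_mul_of_nonneg_right h1 hB'.le
    calc s * inc TM tb y B = s * ‖B‖⁻¹ * inc TM tb y B * ‖B‖ := by field_simp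
      _ ≤ _ := h2
  rw [Real.norm_eq_abs]
  refine abs_le.2 ⟨?_, ?_⟩
  · have := key (-1) (by simp); linarith
  · have := key 1 (by simp); linarith

lemma key_pos (n : ℕ) (η : ℝ) (y : FreeSp TM tb)
    (hy : ∀ h : Lip0 TM tb, (∀ x ∈ Gset n, h.fn x = 0) → |inc TM tb y h| ≤ η * ‖h‖)
    (hη : 0 ≤ η) (l : ℝ) : ‖y‖ + l - 2 * η ≤ ‖y + l • zn n‖ := by
  have h2 := s3b
  refine le_of_forall_pos_lt_add fun θ hθ => ?_
  obtain ⟨f, hf, hyf⟩ := exists_fun y (r := ‖y‖ - θ) (by linarith)
  obtain ⟨g, hg, hgf, hgu⟩ := exists_ext n f hf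
  have h3 : |inc TM tb y (g - f)| ≤ η * 2 := by
    refine (hy (g - f) fun x hx => ?_).trans (mul_le_mul_of_nonneg_left ?_ hη)
    · rw [Lip0.fn_sub, hgf x hx, sub_self]
    · exact (norm_sub_le _ _).trans (by linarith)
  rw [map_sub] at h3
  have h4 : inc TM tb (zn n) g = 1 := by
    rw [inc_zn, hgu, inv_mul_cancel₀ (by linarith)]
  have h5 : inc TM tb (y + l • zn n) g = inc TM tb y g + l := by
    rw [map_add, map_smul, add_apply, smul_apply, h4, smul_eq_mul, mul_one]
  have h6 : inc TM tb (y + l • zn n) g ≤ ‖y + l • zn n‖ := by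
    refine (le_abs_self _).trans ?_
    refine ((inc TM tb (y + l • zn n)).le_opNorm g).trans ?_
    rw [norm_inc]
    exact mul_le_of_le_one_right (norm_nonneg _) hg
  have h7 := (abs_le.1 h3).1
  linarith

lemma norm_zn (n : ℕ) : ‖zn n‖ = 1 := by
  refine le_antisymm (norm_zn_le n) ?_
  have := key_pos n 0 0 (fun h _ => by rw [map_zero]; simp) le_rfl 1
  simpa using this

/-- The free space of `TM` has an octahedral norm. -/
theorem octahedral_free : Octahedral (FreeSp TM tb) := by
  intro E ε hE hε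
  have : ProperSpace E := FiniteDimensional.proper ℝ E
  have hcomp : IsCompact (Metric.sphere (0 : E) 1) := isCompact_sphere _ _
  set η : ℝ := ε / 4 with hη
  have hη0 : 0 < η := by positivity
  obtain ⟨T, hTS, hTfin, hT⟩ := hcomp.totallyBounded.exists_subset
    (Metric.dist_mem_uniformity hη0)
  have hG : ∀ p : TM, ∀ ε : ℝ, 0 < ε → ∀ᶠ q in Filter.atTop, ∃ p' ∈ Gset q, dist p p' ≤ ε := by
    intro p ε hε
    cases p with
    | p i => exact Filter.Eventually.of_forall fun q => ⟨.p i, p_mem q i, by simp [hε.le]⟩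
    | u k =>
      filter_upwards [Filter.eventually_gt_atTop k] with q hq
      exact ⟨.u k, u_mem.2 hq, by simp [hε.le]⟩
  have hev : ∀ᶠ q in Filter.atTop, ∀ t ∈ T, ∀ h : Lip0 TM tb, (∀ p ∈ Gset q, h.fn p = 0) →
      |inc TM tb (t : FreeSp TM tb) h| ≤ η * ‖h‖ := by
    rw [Filter.eventually_all_finite hTfin]
    intro t _
    exact approx_lemma Gset hG _ (inc_mem _) η hη0
  obtain ⟨n, hn⟩ := hev.exists
  -- all unit vectors of `E`
  have hunit : ∀ y ∈ E, ‖y‖ = 1 → ∀ h : Lip0 TM tb, (∀ p ∈ Gset n, h.fn p = 0) →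
      |inc TM tb y h| ≤ 2 * η * ‖h‖ := by
    intro y hyE hy h hh
    have hmem : (⟨y, hyE⟩ : E) ∈ Metric.sphere (0 : E) 1 := by
      rw [mem_sphere_zero_iff_norm]; exact hy
    have := hT hmem
    simp only [Set.mem_iUnion, Set.mem_ofPred_eq] at this
    obtain ⟨t, htT, hdist⟩ := this
    have hd : ‖y - (t : FreeSp TM tb)‖ < η := by
      have : dist (⟨y, hyE⟩ : E) t < η := hdist
      rw [dist_eq_norm] at this
      exact this
    have h1 := hn t htT h hh
    have h3 : |inc TM tb (y - t) h| ≤ η * ‖h‖ := by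
      refine ((inc TM tb (y - t)).le_opNorm h).trans ?_
      rw [norm_inc]
      exact mul_le_mul_of_nonneg_right hd.le (norm_nonneg _)
    have e : inc TM tb y h = inc TM tb (y - t) h + inc TM tb (t : FreeSp TM tb) h := by
      rw [map_sub, sub_apply]; ring
    rw [e]
    exact (abs_add_le _ _).trans (by linarith)
  have hall : ∀ y ∈ E, ∀ h : Lip0 TM tb, (∀ p ∈ Gset n, h.fn p = 0) →
      |inc TM tb y h| ≤ (2 * η * ‖y‖) * ‖h‖ := by
    intro y hyE h hh
    rcases eq_or_ne y 0 with rfl | hy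
    · rw [map_zero]; simp
    have hy' : 0 < ‖y‖ := norm_pos_iff.2 hy
    have h1 := hunit (‖y‖⁻¹ • y) (E.smul_mem _ hyE) (by
      rw [norm_smul, Real.norm_eq_abs, abs_of_pos (inv_pos.2 hy'), inv_mul_cancel₀ hy'.ne'])
      h hh
    rw [map_smul, smul_apply, smul_eq_mul, abs_mul, abs_of_pos (inv_pos.2 hy'),
      inv_mul_le_iff₀ hy'] at h1
    linarith
  refine ⟨zn n, norm_zn n, fun y hyE l => ?_⟩
  have hfin : ‖y‖ + |l| - 2 * (2 * η * ‖y‖) ≤ ‖y + l • zn n‖ := by
    rcases le_total 0 l with hl | hl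
    · rw [abs_of_nonneg hl]
      exact key_pos n _ y (hall y hyE) (by positivity) l
    · rw [abs_of_nonpos hl]
      have h1 := key_pos n (2 * η * ‖y‖) (-y) (fun h hh => by
        rw [map_neg, neg_apply, abs_neg]; exact hall y hyE h hh)
        (by positivity) (-l)
      rw [norm_neg] at h1
      have e : -y + (-l) • zn n = -(y + l • zn n) := by
        rw [neg_smul, neg_add]
      rw [e, norm_neg] at h1
      exact h1
  refine le_trans ?_ hfin
  have h1 : 0 ≤ ε * |l| := by positivity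
  have h2 : 2 * (2 * η * ‖y‖) = ε * ‖y‖ := by rw [hη]; ring
  nlinarith

end Pool.Agent.Q61.OT
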