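import Pool.Agent.Q61.OT2

/-!
The projective tensor product of the free space of `TM` with the Euclidean plane is not
octahedral.
-/

set_option autoImplicit false
set_option maxSynthPendingDepth 3

namespace Pool.Agent.Q61.OT

open Pool.Agent.H266R3.LF

/-- the Euclidean plane -/
abbrev E2 : Type := EuclideanSpace ℝ (Fin 2)

/-- coordinates of the vertices of the equilateral triangle, and `0` at the `u`'s -/
noncomputable def vx : TM → ℝ
  | .p 0 => 1
  | .p 1 => -1 / 2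
  | .p 2 => -1 / 2
  | .u _ => 0
/-- second coordinates -/
noncomputable def vy : TM → ℝ
  | .p 0 => 0
  | .p 1 => √3 / 2
  | .p 2 => -√3 / 2
  | .u _ => 0

/-- the vertices -/
noncomputable def vv (i : Fin 3) : E2 := !₂[vx (.p i), vy (.p i)]

lemma s3 : √3 * √3 = 3 := Real.mul_self_sqrt (by norm_num)

lemma v_lip (x y : TM) : (vx x - vx y) ^ 2 + (vy x - vy y) ^ 2 ≤ dist x y ^ 2 := by
  have h := s3
  cases x with
  | p i =>
    cases y with
    | p j =>
      rcases eq_or_ne i j with rfl | hij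
      · simp
      · rw [dist_pp hij]
        fin_cases i <;> fin_cases j <;>
          first
          | exact absurd rfl hij
          | (simp only [vx, vy, Fin.zero_eta, Fin.mk_one, Fin.reduceFinMk]; nlinarith)
    | u k =>
      rw [dist_pu]
      fin_cases i <;> (simp only [vx, vy, Fin.zero_eta, Fin.mk_one, Fin.reduceFinMk]; nlinarith)
  | u l =>
    cases y with
    | p j =>
      rw [dist_up]
      fin_cases j <;> (simp only [vx, vy, Fin.zero_eta, Fin.mk_one, Fin.reduceFinMk]; nlinarith)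
    | u k => simp only [vx, vy]; nlinarith [sq_nonneg (dist (TM.u l) (TM.u k))]

/-- basis vectors -/
noncomputable def e0 : E2 := EuclideanSpace.single 0 1
/-- basis vectors -/
noncomputable def e1 : E2 := EuclideanSpace.single 1 1

lemma vec_eq (y : E2) : y = y 0 • e0 + y 1 • e1 := by
  ext i
  fin_cases i <;> simp [e0, e1]

lemma T_apply (T : StrongDual ℝ E2) (y : E2) : T y = y 0 * T e0 + y 1 * T e1 := by
  conv_lhs => rw [vec_eq y]
  rw [map_add, map_smul, map_smul, smul_eq_mul, smul_eq_mul]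

lemma norm_sq_E2 (y : E2) : ‖y‖ ^ 2 = y 0 ^ 2 + y 1 ^ 2 := by
  rw [EuclideanSpace.norm_sq_eq, Fin.sum_univ_two, Real.norm_eq_abs, Real.norm_eq_abs, sq_abs,
    sq_abs]

lemma T_lower (T : StrongDual ℝ E2) : T e0 ^ 2 + T e1 ^ 2 ≤ ‖T‖ ^ 2 := by
  set w : E2 := T e0 • e0 + T e1 • e1 with hw
  have hw0 : w 0 = T e0 := by simp [hw, e0, e1]
  have hw1 : w 1 = T e1 := by simp [hw, e0, e1]
  have h1 : T w = ‖w‖ ^ 2 := by
    rw [T_apply, norm_sq_E2, hw0, hw1]; ring
  have h2 : ‖w‖ ^ 2 = T e0 ^ 2 + T e1 ^ 2 := by rw [norm_sq_E2, hw0, hw1]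
  have h3 : ‖w‖ ^ 2 ≤ ‖T‖ * ‖w‖ := by
    rw [← h1]; exact (le_abs_self _).trans (T.le_opNorm w)
  rw [← h2]
  rcases (norm_nonneg w).eq_or_lt with h0 | h0
  · rw [← h0]; nlinarith [sq_nonneg ‖T‖]
  · have : ‖w‖ ≤ ‖T‖ := by
      rw [sq] at h3
      exact le_of_mul_le_mul_right h3 h0
    nlinarith

lemma T_upper (T : StrongDual ℝ E2) (K : ℝ) (hK : 0 ≤ K) (h : T e0 ^ 2 + T e1 ^ 2 ≤ K ^ 2) :
    ‖T‖ ≤ K := by
  refine ContinuousLinearMap.opNorm_le_bound _ hK fun y => ?_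
  rw [Real.norm_eq_abs, T_apply]
  refine abs_le_of_sq_le_sq ?_ (by positivity)
  rw [mul_pow, norm_sq_E2]
  have h1 : (y 0 * T e0 + y 1 * T e1) ^ 2 ≤ (T e0 ^ 2 + T e1 ^ 2) * (y 0 ^ 2 + y 1 ^ 2) := by
    nlinarith [sq_nonneg (y 0 * T e1 - y 1 * T e0)]
  refine h1.trans (mul_le_mul_of_nonneg_right h (by positivity))

lemma de_tb : de tb = 0 := by
  apply Subtype.ext
  show dlt TM tb tb = 0
  ext f
  rw [dlt_apply, Lip0.fn_base]; rfl

/-- a functional on the free space is given by its values at the points -/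
lemma norm_le_of_lip (T : StrongDual ℝ (FreeSp TM tb)) (K : ℝ) (hK : 0 ≤ K)
    (h : ∀ x y, |T (de x) - T (de y)| ≤ K * dist x y) : ‖T‖ ≤ K := by
  let f : Lip0 TM tb := Lip0.mk (fun x => T (de x)) (by rw [de_tb, map_zero]) K hK h
  have hf : ‖f‖ ≤ K := Lip0.norm_le' _ hK h
  have hspan : ∀ ν ∈ Submodule.span ℝ (Set.range (dlt TM tb)), ∀ hν : ν ∈ LFree TM tb,
      T (⟨ν, hν⟩ : ↥(LFree TM tb)) = ν f := by
    intro ν hν
    induction hν using Submodule.span_induction with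
    | mem x hx =>
      obtain ⟨p, rfl⟩ := hx
      intro _; rfl
    | zero => intro h0; exact map_zero T
    | add x y hx hy ihx ihy =>
      intro h0
      have hx' : x ∈ LFree TM tb := Submodule.le_topologicalClosure _ hx
      have hy' : y ∈ LFree TM tb := Submodule.le_topologicalClosure _ hy
      have e := map_add T (⟨x, hx'⟩ : ↥(LFree TM tb)) (⟨y, hy'⟩ : ↥(LFree TM tb))
      rw [add_apply, ← ihx hx', ← ihy hy']
      exact e
    | smul c x hx ih =>
      intro h0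
      have hx' : x ∈ LFree TM tb := Submodule.le_topologicalClosure _ hx
      have e := map_smul T c (⟨x, hx'⟩ : ↥(LFree TM tb))
      rw [smul_apply, ← ih hx']
      exact e
  have hall : ∀ z : FreeSp TM tb, T z = inc TM tb z f := by
    intro z
    obtain ⟨ν, hν⟩ := z
    have hν' : ν ∈ closure (Submodule.span ℝ (Set.range (dlt TM tb)) : Set _) := hν
    obtain ⟨s, hs, hlim⟩ := mem_closure_iff_seq_limit.1 hν'
    have hs' : ∀ n, s n ∈ LFree TM tb := fun n => Submodule.le_topologicalClosure _ (hs n)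
    have hlim' : Filter.Tendsto (fun n => (⟨s n, hs' n⟩ : ↥(LFree TM tb))) Filter.atTop
        (nhds (⟨ν, hν⟩ : ↥(LFree TM tb))) := tendsto_subtype_rng.2 hlim
    have h1 : Filter.Tendsto (fun n => T (⟨s n, hs' n⟩ : ↥(LFree TM tb))) Filter.atTop
        (nhds (T (⟨ν, hν⟩ : ↥(LFree TM tb)))) := (T.continuous.tendsto _).comp hlim'
    have h2 : Filter.Tendsto (fun n => (s n) f) Filter.atTop (nhds (ν f)) :=
      ((ContinuousLinearMap.apply ℝ ℝ f).continuous.tendsto ν).comp hlim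
    refine tendsto_nhds_unique h1 ?_
    refine h2.congr fun n => ?_
    exact (hspan _ (hs n) (hs' n)).symm
  refine ContinuousLinearMap.opNorm_le_bound _ hK fun z => ?_
  rw [hall z]
  refine ((inc TM tb z).le_opNorm f).trans ?_
  rw [norm_inc, mul_comm]
  exact mul_le_mul_of_nonneg_right hf (norm_nonneg _)

/-- the norm of a bilinear form -/
lemma form_norm_le (B : FreeSp TM tb →L[ℝ] E2 →L[ℝ] ℝ) (K : ℝ) (hK : 0 ≤ K)
    (h : ∀ x y, ‖B (de x) - B (de y)‖ ≤ K * dist x y) : ‖B‖ ≤ K := by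
  refine B.opNorm_le_bound₂ hK fun z y => ?_
  have h1 : ‖B.flip y‖ ≤ K * ‖y‖ := by
    refine norm_le_of_lip _ _ (by positivity) fun x x' => ?_
    have e : B.flip y (de x) - B.flip y (de x') = (B (de x) - B (de x')) y := rfl
    rw [e]
    refine ((B (de x) - B (de x')).le_opNorm y).trans ?_
    calc ‖B (de x) - B (de x')‖ * ‖y‖ ≤ K * dist x x' * ‖y‖ :=
          mul_le_mul_of_nonneg_right (h x x') (norm_nonneg _)
      _ = K * ‖y‖ * dist x x' := by ring
  have e : B z y = B.flip y z := rfl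
  rw [e]
  refine ((B.flip y).le_opNorm z).trans ?_
  calc ‖B.flip y‖ * ‖z‖ ≤ K * ‖y‖ * ‖z‖ := mul_le_mul_of_nonneg_right h1 (norm_nonneg _)
    _ = K * ‖z‖ * ‖y‖ := by ring

lemma norm_de_sub_le (x y : TM) : ‖de x - de y‖ ≤ dist x y := norm_dlt_sub_le x y

/-- coordinates of a form -/
lemma form_lip (B : FreeSp TM tb →L[ℝ] E2 →L[ℝ] ℝ) (hB : ‖B‖ ≤ 1) (x y : TM) :
    (B (de x) e0 - B (de y) e0) ^ 2 + (B (de x) e1 - B (de y) e1) ^ 2 ≤ dist x y ^ 2 := by
  have h1 := T_lower (B (de x) - B (de y))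
  rw [sub_apply, sub_apply] at h1
  refine h1.trans ?_
  have h2 : ‖B (de x) - B (de y)‖ ≤ dist x y := by
    rw [← map_sub]
    refine (B.le_opNorm _).trans ?_
    refine (mul_le_mul hB (norm_de_sub_le x y) (norm_nonneg _) zero_le_one).trans ?_
    rw [one_mul]
  exact pow_le_pow_left₀ (norm_nonneg _) h2 2

/-- the special point -/
noncomputable def z0 : ProjTensor (FreeSp TM tb) E2 :=
  ⟨∑ i, (1 / 3 : ℝ) • elem (de (.p i)) (vv i),
    Submodule.sum_mem _ fun _ _ => Submodule.smul_mem _ _ (elem_mem _ _)⟩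

lemma val_z0 (B : FreeSp TM tb →L[ℝ] E2 →L[ℝ] ℝ) :
    val _ _ z0 B = (1 / 3) * (B (de (.p 0)) e0 +
      (-1 / 2 * B (de (.p 1)) e0 + √3 / 2 * B (de (.p 1)) e1) +
      (-1 / 2 * B (de (.p 2)) e0 - √3 / 2 * B (de (.p 2)) e1)) := by
  have e : val _ _ z0 B = ∑ i, (1 / 3 : ℝ) * B (de (.p i)) (vv i) := by
    show (∑ i, (1 / 3 : ℝ) • elem (de (.p i)) (vv i)) (show Bil (FreeSp TM tb) E2 from B) = _
    rw [sum_apply]
    rfl
  rw [e, Fin.sum_univ_three, T_apply, T_apply (B (de (.p 1))), T_apply (B (de (.p 2)))]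
  simp only [vv, vx, vy]
  simp
  ring

/-- The main estimate. -/
lemma main_est (F G : TM → ℝ) (hFG : ∀ x y, (F x - F y) ^ 2 + (G x - G y) ^ 2 ≤ dist x y ^ 2)
    (S : ℝ) (hS : S = (1 / 3) * (F (.p 0) +
      (-1 / 2 * F (.p 1) + √3 / 2 * G (.p 1)) + (-1 / 2 * F (.p 2) - √3 / 2 * G (.p 2)))) :
    S ≤ 1 ∧ ∀ x, (F x - (F (.p 0) + F (.p 1) + F (.p 2)) / 3 - vx x) ^ 2 +
      (G x - (G (.p 0) + G (.p 1) + G (.p 2)) / 3 - vy x) ^ 2 ≤ 6 * (1 - S) := by
  have hs := s3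
  have h01 := hFG (.p 0) (.p 1)
  have h02 := hFG (.p 0) (.p 2)
  have h12 := hFG (.p 1) (.p 2)
  rw [dist_pp (by decide), sq, sq, sq, hs] at h01 h02 h12
  set a := F (.p 0)
  set b := F (.p 1)
  set c := F (.p 2)
  set a' := G (.p 0)
  set b' := G (.p 1)
  set c' := G (.p 2)
  set m := (a + b + c) / 3 with hm
  set m' := (a' + b' + c') / 3 with hm'
  have key : ((a - m - 1) ^ 2 + (a' - m' - 0) ^ 2) +
      ((b - m - (-1 / 2)) ^ 2 + (b' - m' - √3 / 2) ^ 2) +
      ((c - m - (-1 / 2)) ^ 2 + (c' - m' - (-√3 / 2)) ^ 2) =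
      (1 / 3) * (((a - b) * (a - b) + (a' - b') * (a' - b')) +
        ((a - c) * (a - c) + (a' - c') * (a' - c')) +
        ((b - c) * (b - c) + (b' - c') * (b' - c'))) - 6 * S + 3 := by
    rw [hS, hm, hm']
    have hs2 : √3 ^ 2 = 3 := by rw [sq]; exact hs
    ring_nf
    rw [hs2]
    ring
  have n1 := sq_nonneg (a - m - 1)
  have n2 := sq_nonneg (a' - m' - 0)
  have n3 := sq_nonneg (b - m - (-1 / 2))
  have n4 := sq_nonneg (b' - m' - √3 / 2)
  have n5 := sq_nonneg (c - m - (-1 / 2))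
  have n6 := sq_nonneg (c' - m' - (-√3 / 2))
  have hS1 : S ≤ 1 := by linarith
  refine ⟨hS1, fun x => ?_⟩
  cases x with
  | p i =>
    fin_cases i
    · simp only [vx, vy, Fin.zero_eta]
      linarith
    · simp only [vx, vy, Fin.mk_one]
      linarith
    · simp only [vx, vy, Fin.reduceFinMk]
      linarith
  | u k =>
    have k0 := hFG (.u k) (.p 0)
    have k1 := hFG (.u k) (.p 1)
    have k2 := hFG (.u k) (.p 2)
    rw [dist_up] at k0 k1 k2
    simp only [vx, vy]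
    have key2 : 3 * ((F (.u k) - m - 0) ^ 2 + (G (.u k) - m' - 0) ^ 2) =
      ((F (.u k) - a) ^ 2 + (G (.u k) - a') ^ 2) + ((F (.u k) - b) ^ 2 + (G (.u k) - b') ^ 2) +
      ((F (.u k) - c) ^ 2 + (G (.u k) - c') ^ 2) -
      (1 / 3) * (((a - b) * (a - b) + (a' - b') * (a' - b')) +
        ((a - c) * (a - c) + (a' - c') * (a' - c')) +
        ((b - c) * (b - c) + (b' - c') * (b' - c'))) := by
      rw [hm, hm']; ring
    linarith

lemma two_forms (B₁ B₂ : FreeSp TM tb →L[ℝ] E2 →L[ℝ] ℝ) (h1 : ‖B₁‖ ≤ 1) (h2 : ‖B₂‖ ≤ 1)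
    (h3 : 1 - 1 / 2000 ≤ val _ _ z0 B₁) (h4 : 1 - 1 / 2000 ≤ val _ _ z0 B₂) :
    ‖B₁ - B₂‖ ≤ 1 := by
  have s1 := s3b
  obtain ⟨-, k1⟩ := main_est (fun x => B₁ (de x) e0) (fun x => B₁ (de x) e1)
    (form_lip B₁ h1) _ (val_z0 B₁)
  obtain ⟨-, k2⟩ := main_est (fun x => B₂ (de x) e0) (fun x => B₂ (de x) e1)
    (form_lip B₂ h2) _ (val_z0 B₂)
  refine form_norm_le _ 1 zero_le_one fun x y => ?_
  rcases eq_or_ne x y with rfl | hxy
  · simp
  have hd : 1 / 4 ≤ dist x y := by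
    have := s3a
    cases x with
    | p i =>
      cases y with
      | p j => rw [dist_pp (by rintro rfl; exact hxy rfl)]; linarith
      | u k => rw [dist_pu]; norm_num
    | u k =>
      cases y with
      | p j => rw [dist_up]; norm_num
      | u l => rw [dist_uu (by rintro rfl; exact hxy rfl)]; linarith
  rw [one_mul]
  refine (T_upper _ (1 / 4) (by norm_num) ?_).trans hd
  simp only [sub_apply]
  have a1 := k1 x
  have a2 := k1 y
  have a3 := k2 x
  have a4 := k2 y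
  -- (p - q)^2 ≤ 4 (sum of four squares)
  have quad : ∀ p q r s : ℝ, (p - q - (r - s)) ^ 2 ≤ 4 * (p ^ 2 + q ^ 2 + r ^ 2 + s ^ 2) := by
    intro p q r s
    nlinarith [sq_nonneg (p + q), sq_nonneg (p + r), sq_nonneg (p - s), sq_nonneg (q - r),
      sq_nonneg (q + s), sq_nonneg (r + s)]
  set M1 := (B₁ (de (.p 0)) e0 + B₁ (de (.p 1)) e0 + B₁ (de (.p 2)) e0) / 3
  set N1 := (B₁ (de (.p 0)) e1 + B₁ (de (.p 1)) e1 + B₁ (de (.p 2)) e1) / 3
  set M2 := (B₂ (de (.p 0)) e0 + B₂ (de (.p 1)) e0 + B₂ (de (.p 2)) e0) / 3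
  set N2 := (B₂ (de (.p 0)) e1 + B₂ (de (.p 1)) e1 + B₂ (de (.p 2)) e1) / 3
  have q0 := quad (B₁ (de x) e0 - M1 - vx x) (B₂ (de x) e0 - M2 - vx x)
    (B₁ (de y) e0 - M1 - vx y) (B₂ (de y) e0 - M2 - vx y)
  have q1 := quad (B₁ (de x) e1 - N1 - vy x) (B₂ (de x) e1 - N2 - vy x)
    (B₁ (de y) e1 - N1 - vy y) (B₂ (de y) e1 - N2 - vy y)
  have r0 : (B₁ (de x) e0 - B₂ (de x) e0 - (B₁ (de y) e0 - B₂ (de y) e0)) =
    (B₁ (de x) e0 - M1 - vx x) - (B₂ (de x) e0 - M2 - vx x) -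
    ((B₁ (de y) e0 - M1 - vx y) - (B₂ (de y) e0 - M2 - vx y)) := by ring
  have r1 : (B₁ (de x) e1 - B₂ (de x) e1 - (B₁ (de y) e1 - B₂ (de y) e1)) =
    (B₁ (de x) e1 - N1 - vy x) - (B₂ (de x) e1 - N2 - vy x) -
    ((B₁ (de y) e1 - N1 - vy y) - (B₂ (de y) e1 - N2 - vy y)) := by ring
  rw [r0, r1]
  linarith

/-- a Lipschitz function -/
noncomputable def fx : Lip0 TM tb := Lip0.mk (fun x => vx x - vx tb) (sub_self _) 1 zero_le_one
  (fun x y => by
    rw [one_mul]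
    have h := v_lip x y
    have e : vx x - vx tb - (vx y - vx tb) = vx x - vx y := by ring
    rw [e]
    exact abs_le_of_sq_le_sq (by nlinarith [sq_nonneg (vy x - vy y)]) dist_nonneg)

/-- a Lipschitz function -/
noncomputable def fy : Lip0 TM tb := Lip0.mk (fun x => vy x - vy tb) (sub_self _) 1 zero_le_one
  (fun x y => by
    rw [one_mul]
    have h := v_lip x y
    have e : vy x - vy tb - (vy y - vy tb) = vy x - vy y := by ring
    rw [e]
    exact abs_le_of_sq_le_sq (by nlinarith [sq_nonneg (vx x - vx y)]) dist_nonneg)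

/-- evaluation of elements of the free space at a Lipschitz function -/
noncomputable def evf (f : Lip0 TM tb) : StrongDual ℝ (FreeSp TM tb) :=
  LinearMap.mkContinuous
    { toFun := fun z => inc TM tb z f
      map_add' := fun _ _ => rfl
      map_smul' := fun _ _ => rfl } ‖f‖ (fun z => by
        have := (inc TM tb z).le_opNorm f
        rw [norm_inc, mul_comm] at this
        exact this)

lemma evf_de (f : Lip0 TM tb) (x : TM) : evf f (de x) = f.fn x := rfl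

/-- a norming form -/
noncomputable def Bstar : FreeSp TM tb →L[ℝ] E2 →L[ℝ] ℝ :=
  (evf fx).smulRight (EuclideanSpace.proj (0 : Fin 2) : E2 →L[ℝ] ℝ) +
  (evf fy).smulRight (EuclideanSpace.proj (1 : Fin 2) : E2 →L[ℝ] ℝ)

lemma Bstar_apply (x : TM) (y : E2) :
    Bstar (de x) y = (vx x - vx tb) * y 0 + (vy x - vy tb) * y 1 := rfl

lemma norm_Bstar : ‖Bstar‖ ≤ 1 := by
  refine form_norm_le _ 1 zero_le_one fun x y => ?_
  rw [one_mul]
  refine T_upper _ _ dist_nonneg ?_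
  rw [sub_apply, sub_apply, Bstar_apply, Bstar_apply, Bstar_apply, Bstar_apply]
  have h := v_lip x y
  have a0 : e0 0 = 1 := by simp [e0]
  have a1 : e0 1 = 0 := by simp [e0]
  have b0 : e1 0 = 0 := by simp [e1]
  have b1 : e1 1 = 1 := by simp [e1]
  rw [a0, a1, b0, b1]
  have r0 : ((vx x - vx tb) * 1 + (vy x - vy tb) * 0 - ((vx y - vx tb) * 1 + (vy y - vy tb) * 0))
    = vx x - vx y := by ring
  have r1 : ((vx x - vx tb) * 0 + (vy x - vy tb) * 1 - ((vx y - vx tb) * 0 + (vy y - vy tb) * 1))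
    = vy x - vy y := by ring
  rw [r0, r1]
  exact h

lemma norm_z0 : 1 ≤ ‖z0‖ := by
  have h1 := val_apply_le z0 Bstar
  have h2 : val _ _ z0 Bstar = 1 := by
    rw [val_z0, Bstar_apply, Bstar_apply, Bstar_apply, Bstar_apply, Bstar_apply]
    have a0 : e0 0 = 1 := by simp [e0]
    have a1 : e0 1 = 0 := by simp [e0]
    have b0 : e1 0 = 0 := by simp [e1]
    have b1 : e1 1 = 1 := by simp [e1]
    rw [a0, a1, b0, b1]
    simp only [vx, vy, tb]
    nlinarith [s3]
  rw [h2] at h1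
  exact h1.trans (mul_le_of_le_one_right (norm_nonneg _) norm_Bstar)

theorem not_octahedral_tensor : ¬ Octahedral (ProjTensor (FreeSp TM tb) E2) :=
  not_octahedral_of z0 norm_z0
    (fun B hB => (main_est (fun x => B (de x) e0) (fun x => B (de x) e1)
      (form_lip B hB) _ (val_z0 B)).1) (1 / 2000) (by norm_num) (by norm_num)
    (fun B₁ B₂ h1 h2 h3 h4 => two_forms B₁ B₂ h1 h2 h3 h4)

end Pool.Agent.Q61.OT
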