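import Mathlib

/-!
# A norm with Property (A)

Abstract form of a renorming: for a seminorm `q` which is small on the `n`-th vector of a system
(at most `κ / √(n+1)`), the norm
`N z = sup_F (C ‖z_F‖₂ + q (z - P_{F ∪ {0,…,|F|-1}} z))` is invariant under greedy rearrangements.
-/

set_option autoImplicit false

open Finset

noncomputable section

namespace Q61.PA

variable {𝕜 : Type*} [RCLike 𝕜] {E : Type*} [NormedAddCommGroup E] [NormedSpace 𝕜 E]

/-- the coordinate projections -/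
def P (x : ℕ → E) (f : ℕ → E →L[𝕜] 𝕜) (G : Finset ℕ) (z : E) : E := ∑ n ∈ G, f n z • x n

/-- the Euclidean norm of the coordinates in `F` -/
def S (f : ℕ → E →L[𝕜] 𝕜) (F : Finset ℕ) (z : E) : ℝ := √(∑ n ∈ F, ‖f n z‖ ^ 2)

/-- the hypotheses -/
structure Sys (x : ℕ → E) (f : ℕ → E →L[𝕜] 𝕜) (q : Seminorm 𝕜 E) (κ K : ℝ) : Prop where
  bi : ∀ m n, f m (x n) = if m = n then 1 else 0
  tot : ∀ z, (∀ n, f n z = 0) → z = 0
  κ0 : 0 ≤ κ
  K0 : 0 ≤ K
  hq : ∀ n : ℕ, q (x n) ≤ κ / √((n : ℝ) + 1)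
  hS : ∀ F z, S f F z ≤ K * ‖z‖
  hP : ∀ m z, q (z - P x f (range m) z) ≤ K * ‖z‖

/-- the value of `z` at the finite set `F` -/
def V (x : ℕ → E) (f : ℕ → E →L[𝕜] 𝕜) (q : Seminorm 𝕜 E) (C : ℝ) (F : Finset ℕ) (z : E) : ℝ :=
  C * S f F z + q (z - P x f (F ∪ range F.card) z)

variable {x : ℕ → E} {f : ℕ → E →L[𝕜] 𝕜} {q : Seminorm 𝕜 E} {κ K : ℝ}

lemma P_add (G : Finset ℕ) (z w : E) : P x f G (z + w) = P x f G z + P x f G w := by
  simp [P, add_smul, sum_add_distrib]

lemma P_smul (G : Finset ℕ) (c : 𝕜) (z : E) : P x f G (c • z) = c • P x f G z := by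
  simp [P, smul_sum, smul_smul]

lemma P_union {G H : Finset ℕ} (h : Disjoint G H) (z : E) :
    P x f (G ∪ H) z = P x f G z + P x f H z := sum_union h

lemma coord_P (h : Sys x f q κ K) (G : Finset ℕ) (z : E) (m : ℕ) :
    f m (P x f G z) = if m ∈ G then f m z else 0 := by
  simp only [P, map_sum, map_smul, h.bi, smul_eq_mul, mul_ite, mul_one, mul_zero]
  rw [Finset.sum_ite_eq]

lemma S_nonneg (F : Finset ℕ) (z : E) : 0 ≤ S f F z := Real.sqrt_nonneg _

lemma S_sq (F : Finset ℕ) (z : E) : S f F z ^ 2 = ∑ n ∈ F, ‖f n z‖ ^ 2 :=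
  Real.sq_sqrt (sum_nonneg fun _ _ => sq_nonneg _)

lemma S_eq_norm (F : Finset ℕ) (z : E) :
    S f F z = ‖(WithLp.toLp 2 (fun n : F => f n z) : EuclideanSpace 𝕜 F)‖ := by
  rw [EuclideanSpace.norm_eq, S]
  congr 1
  exact (Finset.sum_coe_sort F (fun n => ‖f n z‖ ^ 2)).symm

lemma S_add (F : Finset ℕ) (z w : E) : S f F (z + w) ≤ S f F z + S f F w := by
  simp only [S_eq_norm]
  have : (WithLp.toLp 2 (fun n : F => f n (z + w)) : EuclideanSpace 𝕜 F) =
      WithLp.toLp 2 (fun n : F => f n z) + WithLp.toLp 2 (fun n : F => f n w) := by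
    ext n; simp
  rw [this]
  exact norm_add_le _ _

lemma S_smul (F : Finset ℕ) (c : 𝕜) (z : E) : S f F (c • z) = ‖c‖ * S f F z := by
  simp only [S_eq_norm]
  have : (WithLp.toLp 2 (fun n : F => f n (c • z)) : EuclideanSpace 𝕜 F) =
      c • WithLp.toLp 2 (fun n : F => f n z) := by
    ext n; simp
  rw [this]
  exact norm_smul _ _

lemma sum_norm_le (F : Finset ℕ) (z : E) : ∑ n ∈ F, ‖f n z‖ ≤ √(F.card : ℝ) * S f F z := by
  have h := Real.sum_mul_le_sqrt_mul_sqrt F (fun _ => (1 : ℝ)) (fun n => ‖f n z‖)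
  simpa [S] using h

lemma q_P_le (h : Sys x f q κ K) {G : Finset ℕ} {k : ℕ} (hG : ∀ n ∈ G, k ≤ n) (z : E) :
    q (P x f G z) ≤ κ / √((k : ℝ) + 1) * ∑ n ∈ G, ‖f n z‖ := by
  rw [P, mul_sum]
  refine (Finset.le_sum_of_subadditive q (map_zero q).le (map_add_le_add q) G _).trans ?_
  refine sum_le_sum fun n hn => ?_
  rw [map_smul_eq_mul, mul_comm]
  refine mul_le_mul_of_nonneg_right ((h.hq n).trans ?_) (norm_nonneg _)
  have h1 : (k : ℝ) ≤ n := by exact_mod_cast hG n hn
  exact div_le_div_of_nonneg_left h.κ0 (Real.sqrt_pos.2 (by positivity))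
    (Real.sqrt_le_sqrt (by linarith))

lemma V_nonneg {C : ℝ} (hC : 0 ≤ C) (F : Finset ℕ) (z : E) : 0 ≤ V x f q C F z :=
  add_nonneg (mul_nonneg hC (S_nonneg F z)) (apply_nonneg q _)

lemma sqrt_div_le (k : ℕ) : √(k : ℝ) / √((k : ℝ) + 1) ≤ 1 := by
  rw [div_le_one (Real.sqrt_pos.2 (by positivity))]
  exact Real.sqrt_le_sqrt (by linarith)

lemma V_le (h : Sys x f q κ K) {C : ℝ} (hC : 0 ≤ C) (F : Finset ℕ) (z : E) :
    V x f q C F z ≤ (C * K + K + κ * K) * ‖z‖ := by
  classical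
  set k := F.card with hk
  have h1 : F ∪ range k = range k ∪ (F \ range k) := by
    rw [union_sdiff_self_eq_union, union_comm]
  have h2 : z - P x f (F ∪ range k) z = (z - P x f (range k) z) - P x f (F \ range k) z := by
    rw [h1, P_union disjoint_sdiff]; abel
  have h3 : q (P x f (F \ range k) z) ≤ κ * (K * ‖z‖) := by
    refine (q_P_le h (k := k) (fun n hn => ?_) z).trans ?_
    · have := (mem_sdiff.1 hn).2
      rwa [mem_range, not_lt] at this
    · have h4 : ∑ n ∈ F \ range k, ‖f n z‖ ≤ √(k : ℝ) * S f F z :=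
        (sum_le_sum_of_subset_of_nonneg sdiff_subset fun _ _ _ => norm_nonneg _).trans
          (sum_norm_le F z)
      have h5 : √((k : ℝ) + 1) > 0 := Real.sqrt_pos.2 (by positivity)
      calc κ / √((k : ℝ) + 1) * ∑ n ∈ F \ range k, ‖f n z‖
          ≤ κ / √((k : ℝ) + 1) * (√(k : ℝ) * S f F z) :=
            mul_le_mul_of_nonneg_left h4 (div_nonneg h.κ0 h5.le)
        _ = κ * (√(k : ℝ) / √((k : ℝ) + 1)) * S f F z := by ring
        _ ≤ κ * 1 * (K * ‖z‖) := by
            have := h.κ0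
            have := S_nonneg (f := f) F z
            have := h.hS F z
            have := sqrt_div_le k
            gcongr
        _ = κ * (K * ‖z‖) := by ring
  have h6 : q (z - P x f (F ∪ range k) z) ≤ K * ‖z‖ + κ * (K * ‖z‖) := by
    rw [h2]
    exact (map_sub_le_add q _ _).trans (add_le_add (h.hP k z) h3)
  have h7 := mul_le_mul_of_nonneg_left (h.hS F z) hC
  have : V x f q C F z = C * S f F z + q (z - P x f (F ∪ range k) z) := rfl
  rw [this]
  nlinarith

lemma V_add {C : ℝ} (hC : 0 ≤ C) (F : Finset ℕ) (z w : E) :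
    V x f q C F (z + w) ≤ V x f q C F z + V x f q C F w := by
  unfold V
  have h1 := mul_le_mul_of_nonneg_left (S_add (f := f) F z w) hC
  have h2 : z + w - P x f (F ∪ range F.card) (z + w) =
      (z - P x f (F ∪ range F.card) z) + (w - P x f (F ∪ range F.card) w) := by
    rw [P_add]; abel
  rw [h2]
  have h3 := map_add_le_add q (z - P x f (F ∪ range F.card) z) (w - P x f (F ∪ range F.card) w)
  linarith

lemma V_smul {C : ℝ} (F : Finset ℕ) (c : 𝕜) (z : E) :
    V x f q C F (c • z) = ‖c‖ * V x f q C F z := by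
  unfold V
  rw [S_smul, P_smul, ← smul_sub, map_smul_eq_mul]
  ring

lemma bdd (h : Sys x f q κ K) {C : ℝ} (hC : 0 ≤ C) (z : E) :
    BddAbove (Set.range fun F => V x f q C F z) :=
  ⟨_, by rintro _ ⟨F, rfl⟩; exact V_le h hC F z⟩

/-- the norm with Property (A) -/
def N (h : Sys x f q κ K) (C : ℝ) (hC : 0 ≤ C) : Seminorm 𝕜 E :=
  Seminorm.ofSMulLE (fun z => ⨆ F, V x f q C F z)
    (by
      have : ∀ F, V x f q C F (0 : E) = 0 := fun F => by
        have := V_smul (x := x) (f := f) (q := q) (C := C) F (0 : 𝕜) (0 : E)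
        simpa using this
      simp [this])
    (fun z w => ciSup_le fun F => (V_add hC F z w).trans
      (add_le_add (le_ciSup (bdd h hC z) F) (le_ciSup (bdd h hC w) F)))
    (fun c z => ciSup_le fun F => by
      rw [V_smul]
      exact mul_le_mul_of_nonneg_left (le_ciSup (bdd h hC z) F) (norm_nonneg _))

lemma N_apply (h : Sys x f q κ K) {C : ℝ} (hC : 0 ≤ C) (z : E) :
    N h C hC z = ⨆ F, V x f q C F z := rfl

lemma V_le_N (h : Sys x f q κ K) {C : ℝ} (hC : 0 ≤ C) (F : Finset ℕ) (z : E) :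
    V x f q C F z ≤ N h C hC z := le_ciSup (bdd h hC z) F

lemma N_le (h : Sys x f q κ K) {C : ℝ} (hC : 0 ≤ C) (z : E) :
    N h C hC z ≤ (C * K + K + κ * K) * ‖z‖ := ciSup_le fun F => V_le h hC F z

lemma q_le_N (h : Sys x f q κ K) {C : ℝ} (hC : 0 ≤ C) (z : E) : q z ≤ N h C hC z := by
  have := V_le_N h hC ∅ z
  simpa [V, S, P] using this

lemma S_le_N (h : Sys x f q κ K) {C : ℝ} (hC : 0 ≤ C) (F : Finset ℕ) (z : E) :
    C * S f F z ≤ N h C hC z := by
  have := V_le_N h hC F z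
  unfold V at this
  have h2 := apply_nonneg q (z - P x f (F ∪ range F.card) z)
  linarith

/-- Adding an index of maximal modulus does not decrease the value. -/
lemma V_insert (h : Sys x f q κ K) {C : ℝ} (hC : 4 * κ ≤ C) {F : Finset ℕ} {z : E} {s : ℝ}
    (hs : ∀ n, ‖f n z‖ ≤ s) {m : ℕ} (hm : m ∉ F) (hms : ‖f m z‖ = s) :
    V x f q C F z ≤ V x f q C (insert m F) z := by
  classical
  have hC0 : 0 ≤ C := by have := h.κ0; linarith
  have hcard0 : (insert m F).card = F.card + 1 := card_insert_of_notMem hm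
  generalize hk : F.card = k at hcard0
  have hs0 : 0 ≤ s := hms ▸ norm_nonneg _
  set G := F ∪ range k with hG
  set G' := insert m F ∪ range (k + 1) with hG'
  have hGG : G ⊆ G' := union_subset_union (subset_insert _ _) (range_mono (Nat.le_succ k))
  have hdiff : G' \ G ⊆ {m, k} := by
    intro n hn
    simp only [hG, hG', mem_sdiff, mem_union, mem_insert, mem_range, not_or, not_lt,
      mem_singleton] at hn ⊢
    obtain ⟨h1 | h1, h2, h3⟩ := hn
    · rcases h1 with h1 | h1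
      · exact Or.inl h1
      · exact absurd h1 h2
    · right; omega
  have hcard : (insert m F).card = k + 1 := hcard0
  have hge : ∀ n ∈ G' \ G, k ≤ n := by
    intro n hn
    simp only [hG, mem_sdiff, mem_union, mem_range, not_or, not_lt] at hn
    exact hn.2.2
  have hsq : 0 < √((k : ℝ) + 1) := Real.sqrt_pos.2 (by positivity)
  have h1 : z - P x f G z = (z - P x f G' z) + P x f (G' \ G) z := by
    have : P x f G' z = P x f G z + P x f (G' \ G) z := by
      rw [← P_union disjoint_sdiff, union_sdiff_of_subset hGG]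
    rw [this]; abel
  have h2 : q (P x f (G' \ G) z) ≤ 2 * κ * s / √((k : ℝ) + 1) := by
    refine (q_P_le h hge z).trans ?_
    have h3 : ∑ n ∈ G' \ G, ‖f n z‖ ≤ 2 * s := by
      calc ∑ n ∈ G' \ G, ‖f n z‖ ≤ ∑ n ∈ ({m, k} : Finset ℕ), ‖f n z‖ :=
            sum_le_sum_of_subset_of_nonneg hdiff fun _ _ _ => norm_nonneg _
        _ ≤ ∑ n ∈ ({m, k} : Finset ℕ), s := sum_le_sum fun n _ => hs n
        _ = (({m, k} : Finset ℕ).card : ℝ) * s := by rw [sum_const, nsmul_eq_mul]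
        _ ≤ 2 * s := by
            have : ((({m, k} : Finset ℕ).card : ℕ) : ℝ) ≤ 2 := by exact_mod_cast card_le_two
            exact mul_le_mul_of_nonneg_right this hs0
    calc κ / √((k : ℝ) + 1) * ∑ n ∈ G' \ G, ‖f n z‖
        ≤ κ / √((k : ℝ) + 1) * (2 * s) :=
          mul_le_mul_of_nonneg_left h3 (div_nonneg h.κ0 hsq.le)
      _ = 2 * κ * s / √((k : ℝ) + 1) := by ring
  have h4 : q (z - P x f G z) ≤ q (z - P x f G' z) + 2 * κ * s / √((k : ℝ) + 1) := by
    rw [h1]
    exact (map_add_le_add q _ _).trans (by linarith)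
  -- the gain
  have hT : S f (insert m F) z ^ 2 = S f F z ^ 2 + s ^ 2 := by
    rw [S_sq, S_sq, sum_insert hm, hms, add_comm]
  have hSF : S f F z ^ 2 ≤ k * s ^ 2 := by
    rw [S_sq]
    calc ∑ n ∈ F, ‖f n z‖ ^ 2 ≤ ∑ n ∈ F, s ^ 2 :=
          sum_le_sum fun n _ => pow_le_pow_left₀ (norm_nonneg _) (hs n) 2
      _ = k * s ^ 2 := by rw [sum_const, nsmul_eq_mul, hk]
  have hS' : S f (insert m F) z ≤ √((k : ℝ) + 1) * s := by
    refine le_of_sq_le_sq ?_ (by positivity)
    rw [hT, mul_pow, Real.sq_sqrt (by positivity)]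
    linarith
  have hS'' : S f F z ≤ S f (insert m F) z := by
    refine le_of_sq_le_sq ?_ (S_nonneg _ _)
    rw [hT]; nlinarith
  have hgain : s / (2 * √((k : ℝ) + 1)) ≤ S f (insert m F) z - S f F z := by
    rcases hs0.eq_or_lt with h0 | h0
    · rw [← h0]; simp; linarith
    · have h5 : (S f (insert m F) z - S f F z) * (S f (insert m F) z + S f F z) = s ^ 2 := by
        nlinarith
      have h6 : S f (insert m F) z + S f F z ≤ 2 * √((k : ℝ) + 1) * s := by linarith
      rw [div_le_iff₀ (by positivity)]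
      have h7 : 0 ≤ S f (insert m F) z - S f F z := by linarith
      have h8 : s * s ≤ (S f (insert m F) z - S f F z) * (2 * √((k : ℝ) + 1)) * s := by
        nlinarith [mul_le_mul_of_nonneg_left h6 h7]
      exact le_of_mul_le_mul_right h8 h0
  have hfin : 2 * κ * s / √((k : ℝ) + 1) ≤ C * (S f (insert m F) z - S f F z) := by
    calc 2 * κ * s / √((k : ℝ) + 1) = 4 * κ * (s / (2 * √((k : ℝ) + 1))) := by
          field_simp; ring
      _ ≤ C * (S f (insert m F) z - S f F z) := by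
          have h9 : 0 ≤ s / (2 * √((k : ℝ) + 1)) := by positivity
          have := h.κ0
          exact mul_le_mul hC hgain h9 hC0
  unfold V
  rw [hcard, hk]
  change C * S f F z + q (z - P x f G z) ≤ C * S f (insert m F) z + q (z - P x f G' z)
  linarith

lemma V_union (h : Sys x f q κ K) {C : ℝ} (hC : 4 * κ ≤ C) {z : E} {s : ℝ}
    (hs : ∀ n, ‖f n z‖ ≤ s) (A F : Finset ℕ) (hA : ∀ m ∈ A, ‖f m z‖ = s) :
    V x f q C F z ≤ V x f q C (F ∪ A) z := by
  classical
  induction A using Finset.induction_on with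
  | empty => simp
  | insert m A hm ih =>
    have h1 := ih fun n hn => hA n (mem_insert_of_mem hn)
    rw [union_insert]
    by_cases hmF : m ∈ F ∪ A
    · rwa [insert_eq_of_mem hmF]
    · exact h1.trans (V_insert h hC hs hmF (hA m (mem_insert_self _ _)))

lemma norm_f_le (h : Sys x f q κ K) (n : ℕ) (z : E) : ‖f n z‖ ≤ K * ‖z‖ := by
  have := h.hS {n} z
  simpa [S, Real.sqrt_sq (norm_nonneg _)] using this

lemma bddf (h : Sys x f q κ K) (z : E) : BddAbove (Set.range fun n => ‖f n z‖) :=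
  ⟨_, by rintro _ ⟨n, rfl⟩; exact norm_f_le h n z⟩

/-- the indices of maximal modulus form a finite set -/
lemma finite_max (h : Sys x f q κ K) {z : E} {s : ℝ} (hs : 0 < s) :
    {n | ‖f n z‖ = s}.Finite := by
  by_contra hinf
  obtain ⟨T, hT, hc⟩ := Set.Infinite.exists_subset_card_eq hinf (⌈(K * ‖z‖) ^ 2 / s ^ 2⌉₊ + 1)
  have h1 : S f T z ^ 2 = T.card * s ^ 2 := by
    rw [S_sq, ← nsmul_eq_mul, ← sum_const]
    exact sum_congr rfl fun n hn => by rw [hT hn]
  have h2 : S f T z ^ 2 ≤ (K * ‖z‖) ^ 2 := pow_le_pow_left₀ (S_nonneg _ _) (h.hS T z) 2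
  rw [h1, hc] at h2
  have h3 : (K * ‖z‖) ^ 2 / s ^ 2 ≤ ⌈(K * ‖z‖) ^ 2 / s ^ 2⌉₊ := Nat.le_ceil _
  rw [div_le_iff₀ (by positivity)] at h3
  push_cast at h2
  nlinarith [pow_pos hs 2]

lemma N_le_of_greedy (h : Sys x f q κ K) {C : ℝ} (hC0 : 0 ≤ C) (hC : 4 * κ ≤ C) {z w : E}
    {s : ℝ} (hs : ∀ n, ‖f n z‖ ≤ s) (hs0 : 0 < s) (π : Equiv.Perm ℕ)
    (h1 : ∀ n, ‖f (π n) w‖ = ‖f n z‖)
    (h2 : ∀ k, 0 < ‖f k z‖ → ‖f k z‖ < s → π k = k ∧ f k w = f k z) :
    N h C hC0 z ≤ N h C hC0 w := by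
  classical
  rw [N_apply]
  refine ciSup_le fun F => ?_
  set A := (finite_max (z := z) h hs0).toFinset with hA
  have hAm : ∀ m, m ∈ A ↔ ‖f m z‖ = s := fun m => by rw [hA]; simp
  refine (V_union h hC hs A F fun m hm => (hAm m).1 hm).trans ?_
  set F₁ := F ∪ A with hF₁
  set F₂ := F₁.map π.toEmbedding with hF₂
  have hcard : F₂.card = F₁.card := card_map _
  refine le_trans (le_of_eq ?_) (V_le_N h hC0 F₂ w)
  unfold V
  have hSS : S f F₁ z = S f F₂ w := by
    unfold S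
    congr 1
    rw [hF₂, sum_map]
    exact sum_congr rfl fun n _ => by rw [← h1 n]; rfl
  have hmem : ∀ n, π n ∈ F₂ ↔ n ∈ F₁ := fun n => by
    rw [hF₂]; exact mem_map' π.toEmbedding
  have hzw : z - P x f (F₁ ∪ range F₁.card) z = w - P x f (F₂ ∪ range F₂.card) w := by
    rw [hcard]
    refine sub_eq_zero.1 (h.tot _ fun m => ?_)
    rw [map_sub, map_sub, map_sub, coord_P h, coord_P h]
    simp only [mem_union]
    by_cases hB : 0 < ‖f m z‖ ∧ ‖f m z‖ < s
    · obtain ⟨h3, h4⟩ := h2 m hB.1 hB.2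
      have h5 : m ∈ F₂ ↔ m ∈ F₁ := by
        have := hmem m
        rwa [h3] at this
      rw [h4]
      simp only [h5, sub_self]
    · -- both remainders vanish at `m`
      have h6 : (f m z - if m ∈ F₁ ∨ m ∈ range F₁.card then f m z else 0) = 0 := by
        by_cases h0 : ‖f m z‖ = 0
        · rw [norm_eq_zero.1 h0]; simp
        · have h7 : ‖f m z‖ = s := by
            have h8 : 0 < ‖f m z‖ := lt_of_le_of_ne (norm_nonneg _) (Ne.symm h0)
            have h9 : ¬ ‖f m z‖ < s := fun hh => hB ⟨h8, hh⟩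
            exact le_antisymm (hs m) (not_lt.1 h9)
          have h10 : m ∈ F₁ := mem_union_right _ ((hAm m).2 h7)
          simp [h10]
      have h11 : (f m w - if m ∈ F₂ ∨ m ∈ range F₁.card then f m w else 0) = 0 := by
        obtain ⟨n, rfl⟩ := π.surjective m
        have h12 : ‖f (π n) w‖ = ‖f n z‖ := h1 n
        by_cases h0 : ‖f n z‖ = 0
        · rw [h0] at h12
          rw [norm_eq_zero.1 h12]; simp
        · have h8 : 0 < ‖f n z‖ := lt_of_le_of_ne (norm_nonneg _) (Ne.symm h0)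
          by_cases h13 : ‖f n z‖ < s
          · exfalso
            obtain ⟨h14, -⟩ := h2 n h8 h13
            rw [h14] at hB
            exact hB ⟨h8, h13⟩
          · have h7 : ‖f n z‖ = s := le_antisymm (hs n) (not_lt.1 h13)
            have h10 : π n ∈ F₂ := (hmem n).2 (mem_union_right _ ((hAm n).2 h7))
            simp [h10]
      rw [h6, h11, sub_zero]
  rw [hSS, hzw]

/-- **Property (A).** -/
theorem N_greedy (h : Sys x f q κ K) {C : ℝ} (hC0 : 0 ≤ C) (hC : 4 * κ ≤ C) {z w : E}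
    (π : Equiv.Perm ℕ) (h1 : ∀ n, ‖f (π n) w‖ = ‖f n z‖)
    (h2 : ∀ k, 0 < ‖f k z‖ → ‖f k z‖ < ⨆ n, ‖f n z‖ → π k = k ∧ f k w = f k z) :
    N h C hC0 z = N h C hC0 w := by
  set s := ⨆ n, ‖f n z‖ with hs
  have hsz : ∀ n, ‖f n z‖ ≤ s := fun n => le_ciSup (bddf h z) n
  have hsw : ∀ n, ‖f n w‖ ≤ s := fun n => by
    obtain ⟨m, rfl⟩ := π.surjective n
    rw [h1]; exact hsz m
  rcases (show 0 ≤ s from (norm_nonneg _).trans (hsz 0)).eq_or_lt with h0 | h0
  · have hz : z = 0 := h.tot z fun n => norm_eq_zero.1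
      (le_antisymm ((hsz n).trans h0.ge) (norm_nonneg _))
    have hw : w = 0 := h.tot w fun n => norm_eq_zero.1
      (le_antisymm ((hsw n).trans h0.ge) (norm_nonneg _))
    rw [hz, hw]
  · refine le_antisymm (N_le_of_greedy h hC0 hC hsz h0 π h1 h2) ?_
    refine N_le_of_greedy h hC0 hC hsw h0 π.symm (fun n => ?_) fun k hk1 hk2 => ?_
    · have := h1 (π.symm n)
      rw [Equiv.apply_symm_apply] at this
      exact this.symm
    · obtain ⟨n, rfl⟩ := π.surjective k
      rw [h1] at hk1 hk2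
      obtain ⟨h3, h4⟩ := h2 n hk1 hk2
      rw [Equiv.symm_apply_apply, h3]
      exact ⟨rfl, h4.symm⟩

end Q61.PA
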