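import Pool.Agent.Q61.PA1

/-!
# The concrete system: sequences and the space ℓ²
-/

set_option autoImplicit false

open Finset Filter Topology

noncomputable section

namespace Q61.PA

/-! ### the sequence `al` -/

/-- the dyadic level -/
def lg (n : ℕ) : ℕ := Nat.log 2 (n + 1)

/-- a decreasing sequence with divergent sum and `∑ (r+1) al r ^ 2 < ∞` -/
def al (r : ℕ) : ℝ := 1 / (((r : ℝ) + 1) * ((lg r : ℝ) + 1))

lemma lg_mono {m n : ℕ} (h : m ≤ n) : lg m ≤ lg n := Nat.log_mono_right (by omega)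

lemma al_pos (r : ℕ) : 0 < al r := by unfold al; positivity

lemma al_anti {m n : ℕ} (h : m ≤ n) : al n ≤ al m := by
  unfold al
  have h1 : (m : ℝ) ≤ n := by exact_mod_cast h
  have h2 : (lg m : ℝ) ≤ lg n := by exact_mod_cast lg_mono h
  gcongr

lemma al_zero : al 0 = 1 := by simp [al, lg]

lemma not_summable_al : ¬ Summable al := by
  have h := summable_condensed_iff_of_nonneg
    (f := fun n : ℕ => 1 / ((n : ℝ) * ((Nat.log 2 n : ℝ) + 1))) (fun n => by positivity)
    (fun m n hm hmn => by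
      have h0 : (0 : ℝ) < m := by exact_mod_cast hm
      have h1 : (m : ℝ) ≤ n := by exact_mod_cast hmn
      have h2 : (Nat.log 2 m : ℝ) ≤ Nat.log 2 n := by exact_mod_cast Nat.log_mono_right hmn
      gcongr)
  intro hs
  have h1 : Summable fun n : ℕ => 1 / ((n : ℝ) * ((Nat.log 2 n : ℝ) + 1)) := by
    rw [← summable_nat_add_iff 1]
    refine hs.congr fun n => ?_
    unfold al lg
    push_cast
    rfl
  have h2 := h.2 h1
  have h3 : Summable fun k : ℕ => 1 / (((k + 1 : ℕ) : ℝ)) := by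
    refine h2.congr fun k => ?_
    rw [Nat.log_pow (by norm_num)]
    push_cast
    field_simp
  exact Real.not_summable_one_div_natCast ((summable_nat_add_iff 1).1 h3)

lemma summable_wal : Summable fun r : ℕ => ((r : ℝ) + 1) * al r ^ 2 := by
  have h := summable_condensed_iff_of_nonneg
    (f := fun n : ℕ => 1 / ((n : ℝ) * ((Nat.log 2 n : ℝ) + 1) ^ 2)) (fun n => by positivity)
    (fun m n hm hmn => by
      have h0 : (0 : ℝ) < m := by exact_mod_cast hm
      have h1 : (m : ℝ) ≤ n := by exact_mod_cast hmn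
      have h2 : (Nat.log 2 m : ℝ) ≤ Nat.log 2 n := by exact_mod_cast Nat.log_mono_right hmn
      gcongr)
  have h1 : Summable fun n : ℕ => 1 / ((n : ℝ) * ((Nat.log 2 n : ℝ) + 1) ^ 2) := by
    refine h.1 ?_
    have h3 : Summable fun k : ℕ => 1 / (((k + 1 : ℕ) : ℝ)) ^ 2 :=
      (summable_nat_add_iff 1).2 (Real.summable_one_div_nat_pow.2 (by norm_num))
    refine h3.congr fun k => ?_
    rw [Nat.log_pow (by norm_num)]
    push_cast
    field_simp
  rw [← summable_nat_add_iff 1] at h1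
  refine h1.congr fun n => ?_
  unfold al lg
  push_cast
  have : (n : ℝ) + 1 ≠ 0 := by positivity
  field_simp

lemma summable_alsq : Summable fun r : ℕ => al r ^ 2 := by
  refine Summable.of_nonneg_of_le (fun r => sq_nonneg _) (fun r => ?_) summable_wal
  have h1 : (0 : ℝ) ≤ r := by positivity
  nlinarith [sq_nonneg (al r)]

/-- tails of the square sum -/
def R (k : ℕ) : ℝ := ∑' r : ℕ, al (r + k) ^ 2

lemma R_nonneg (k : ℕ) : 0 ≤ R k := tsum_nonneg fun _ => sq_nonneg _

lemma summable_shift (k : ℕ) : Summable fun r : ℕ => al (r + k) ^ 2 :=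
  (summable_nat_add_iff k).2 summable_alsq

lemma R_succ (k : ℕ) : R k = al k ^ 2 + R (k + 1) := by
  unfold R
  rw [(summable_shift k).tsum_eq_zero_add]
  congr 1
  · simp
  · exact tsum_congr fun r => by rw [show r + 1 + k = r + (k + 1) by ring]

/-- the total weighted sum -/
def M0 : ℝ := ∑' r : ℕ, ((r : ℝ) + 1) * al r ^ 2

lemma M0_nonneg : 0 ≤ M0 := tsum_nonneg fun r => by positivity

lemma sumR_eq (J : ℕ) :
    ∑ k ∈ range J, R (k + 1) = ∑ k ∈ range (J + 1), (k : ℝ) * al k ^ 2 + J * R (J + 1) := by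
  induction J with
  | zero => simp
  | succ J ih =>
    rw [sum_range_succ, ih, sum_range_succ _ (J + 1), R_succ (J + 1)]
    push_cast
    ring

lemma sumR_le (J : ℕ) : ∑ k ∈ range J, R (k + 1) ≤ M0 := by
  rw [sumR_eq]
  unfold M0
  rw [← summable_wal.sum_add_tsum_nat_add (J + 1)]
  refine add_le_add (sum_le_sum fun k _ => ?_) ?_
  · nlinarith [sq_nonneg (al k)]
  · unfold R
    rw [← tsum_mul_left]
    refine Summable.tsum_le_tsum (fun r => ?_) ((summable_shift (J + 1)).mul_left _)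
      ((summable_nat_add_iff (J + 1)).2 summable_wal)
    refine mul_le_mul_of_nonneg_right ?_ (sq_nonneg _)
    push_cast
    have : (0 : ℝ) ≤ r := by positivity
    linarith

/-- the sum over the reversed indices -/
lemma sumR_le' (J : ℕ) : ∑ j ∈ range J, R (J - j) ≤ M0 := by
  refine le_trans (le_of_eq ?_) (sumR_le J)
  rw [← sum_range_reflect (fun k => R (k + 1)) J]
  exact sum_congr rfl fun j hj => by
    have := mem_range.1 hj
    rw [show J - 1 - j + 1 = J - j by omega]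

/-! ### blocks -/

/-- weights -/
def wt (n : ℕ) : ℝ := (√((2 : ℝ) ^ lg n))⁻¹

lemma wt_pos (n : ℕ) : 0 < wt n := by unfold wt; positivity

lemma wt_sq (n : ℕ) : wt n ^ 2 = ((2 : ℝ) ^ lg n)⁻¹ := by
  unfold wt
  rw [inv_pow, Real.sq_sqrt (by positivity)]

/-- dyadic blocks -/
def blk (j : ℕ) : Finset ℕ := Ico (2 ^ j - 1) (2 ^ (j + 1) - 1)

lemma mem_blk {j n : ℕ} : n ∈ blk j ↔ lg n = j := by
  unfold blk lg
  rw [mem_Ico, Nat.log_eq_iff (Or.inr ⟨by norm_num, by omega⟩)]
  have h1 : 1 ≤ 2 ^ j := Nat.one_le_two_pow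
  have h2 : 1 ≤ 2 ^ (j + 1) := Nat.one_le_two_pow
  omega

lemma card_blk (j : ℕ) : (blk j).card = 2 ^ j := by
  unfold blk
  rw [Nat.card_Ico, pow_succ]
  have h1 : 1 ≤ 2 ^ j := Nat.one_le_two_pow
  omega

lemma sum_blk {M : Type*} [AddCommMonoid M] (g : ℕ → M) (J : ℕ) :
    ∑ n ∈ range (2 ^ J - 1), g n = ∑ j ∈ range J, ∑ n ∈ blk j, g n := by
  induction J with
  | zero => simp
  | succ J ih =>
    rw [sum_range_succ, ← ih, blk, range_eq_Ico, range_eq_Ico]
    have h1 : 1 ≤ 2 ^ J := Nat.one_le_two_pow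
    rw [sum_Ico_consecutive _ (Nat.zero_le _) (by rw [pow_succ]; omega)]

lemma sum_wt_sq (j : ℕ) : ∑ n ∈ blk j, wt n ^ 2 = 1 := by
  have : ∑ n ∈ blk j, wt n ^ 2 = ∑ n ∈ blk j, ((2 : ℝ) ^ j)⁻¹ :=
    sum_congr rfl fun n hn => by rw [wt_sq, mem_blk.1 hn]
  rw [this, sum_const, card_blk, nsmul_eq_mul]
  push_cast
  exact mul_inv_cancel₀ (by positivity)

lemma wt_le (n : ℕ) : wt n ≤ √2 / √((n : ℝ) + 1) := by
  unfold wt
  rw [inv_eq_one_div, div_le_div_iff₀ (by positivity) (by positivity), one_mul,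
    ← Real.sqrt_mul (by norm_num)]
  refine Real.sqrt_le_sqrt ?_
  have h := Nat.lt_pow_succ_log_self (b := 2) (by norm_num) (n + 1)
  have h2 : n + 1 ≤ 2 * 2 ^ lg n := by
    have : 2 ^ (Nat.log 2 (n + 1)).succ = 2 * 2 ^ lg n := by rw [pow_succ, mul_comm]; rfl
    omega
  exact_mod_cast h2

end Q61.PA
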