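import Pool.Agent.Q61.PA2

/-!
# The concrete system: vectors of ℓ² and the main estimate
-/

set_option autoImplicit false

open Finset Filter Topology

noncomputable section

namespace Q61.PA

variable (𝕜 : Type*) [RCLike 𝕜]

/-- the sequence space -/
abbrev H := lp (fun _ : ℕ => 𝕜) 2

variable {𝕜}

lemma sumsq (v : H 𝕜) : Summable fun i => ‖v i‖ ^ 2 := by
  have h := (lp.memℓp v).summable (p := 2) (by norm_num)
  refine h.congr fun i => ?_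
  norm_num

lemma nsq (v : H 𝕜) : ‖v‖ ^ 2 = ∑' i, ‖v i‖ ^ 2 := by
  have h := lp.norm_rpow_eq_tsum (p := 2) (by norm_num) v
  norm_num at h
  exact h

/-- a vector of ℓ² from a square-summable sequence -/
def mk2 (g : ℕ → 𝕜) (hg : Summable fun i => ‖g i‖ ^ 2) : H 𝕜 :=
  ⟨g, memℓp_gen (by refine hg.congr fun i => ?_; norm_num)⟩

@[simp] lemma mk2_apply (g : ℕ → 𝕜) (hg : Summable fun i => ‖g i‖ ^ 2) (i : ℕ) :
    mk2 g hg i = g i := rfl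

lemma norm_mk2_sq (g : ℕ → 𝕜) (hg : Summable fun i => ‖g i‖ ^ 2) :
    ‖mk2 g hg‖ ^ 2 = ∑' i, ‖g i‖ ^ 2 := nsq _

lemma sum_sq_le (v : H 𝕜) (G : Finset ℕ) : ∑ i ∈ G, ‖v i‖ ^ 2 ≤ ‖v‖ ^ 2 := by
  rw [nsq]
  exact (sumsq v).sum_le_tsum G fun i _ => sq_nonneg _

lemma norm_al (r : ℕ) : ‖((al r : ℝ) : 𝕜)‖ = al r := by
  rw [RCLike.norm_ofReal, abs_of_pos (al_pos r)]

/-- `al` shifted by `j` and cut off below `J` -/
def bf (j J i : ℕ) : ℝ := if J ≤ i then al (i - j) else 0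

lemma bf_hasSum {j J : ℕ} (h : j ≤ J) : HasSum (fun i => bf j J i ^ 2) (R (J - j)) := by
  have h1 : HasSum (fun i => bf j J (i + J) ^ 2) (R (J - j)) := by
    have h2 := (summable_shift (J - j)).hasSum
    refine h2.congr_fun ?_ |> fun h => h
    intro i
    simp only [bf, if_pos (Nat.le_add_left J i)]
    rw [show i + J - j = i + (J - j) by omega]
  rw [hasSum_nat_add_iff (f := fun i => bf j J i ^ 2) J] at h1
  have h3 : ∑ i ∈ range J, bf j J i ^ 2 = 0 := sum_eq_zero fun i hi => by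
    have := mem_range.1 hi
    rw [bf, if_neg (by omega)]; norm_num
  rwa [h3, add_zero] at h1

/-- the tail vector -/
def B (j J : ℕ) (h : j ≤ J) : H 𝕜 := mk2 (fun i => ((bf j J i : ℝ) : 𝕜))
  ((bf_hasSum h).summable.congr fun i => by rw [RCLike.norm_ofReal, sq_abs])

lemma norm_B_sq {j J : ℕ} (h : j ≤ J) : ‖(B j J h : H 𝕜)‖ ^ 2 = R (J - j) := by
  unfold B
  rw [norm_mk2_sq]
  simp only [RCLike.norm_ofReal, sq_abs]
  exact (bf_hasSum h).tsum_eq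

lemma norm_B {j J : ℕ} (h : j ≤ J) : ‖(B j J h : H 𝕜)‖ = √(R (J - j)) := by
  rw [← norm_B_sq (𝕜 := 𝕜) h, Real.sqrt_sq (norm_nonneg _)]

/-- the shifted vector -/
def A (j : ℕ) : H 𝕜 := B j j le_rfl

lemma A_apply (j i : ℕ) : (A j : H 𝕜) i = if j ≤ i then ((al (i - j) : ℝ) : 𝕜) else 0 := by
  unfold A B
  rw [mk2_apply, bf]
  split_ifs <;> simp

lemma norm_A (j : ℕ) : ‖(A j : H 𝕜)‖ = √(R 0) := by
  rw [A, norm_B, Nat.sub_self]

lemma B_apply {j J : ℕ} (h : j ≤ J) (i : ℕ) :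
    (B j J h : H 𝕜) i = if J ≤ i then ((al (i - j) : ℝ) : 𝕜) else 0 := by
  unfold B
  rw [mk2_apply, bf]
  split_ifs <;> simp

/-- the truncation -/
def cut (J : ℕ) (b : H 𝕜) : H 𝕜 := mk2 (fun i => if i < J then b i else 0)
  (Summable.of_nonneg_of_le (fun _ => sq_nonneg _) (fun i => by
    split_ifs
    · exact le_rfl
    · simp) (sumsq b))

lemma cut_apply (J : ℕ) (b : H 𝕜) (i : ℕ) : cut J b i = if i < J then b i else 0 := rfl

lemma norm_cut_le (J : ℕ) (b : H 𝕜) : ‖cut J b‖ ≤ ‖b‖ := by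
  refine le_of_sq_le_sq ?_ (norm_nonneg _)
  rw [nsq, nsq]
  refine Summable.tsum_le_tsum (fun i => ?_) (sumsq _) (sumsq _)
  rw [cut_apply]
  split_ifs
  · exact le_rfl
  · simp

/-- block functional -/
def u (j : ℕ) (a : H 𝕜) : 𝕜 := ∑ n ∈ blk j, ((wt n : ℝ) : 𝕜) * a n

lemma norm_wsum_le {G : Finset ℕ} {j : ℕ} (hG : G ⊆ blk j) (a : ℕ → 𝕜) :
    ‖∑ n ∈ G, ((wt n : ℝ) : 𝕜) * a n‖ ^ 2 ≤ ∑ n ∈ G, ‖a n‖ ^ 2 := by
  have h1 : ‖∑ n ∈ G, ((wt n : ℝ) : 𝕜) * a n‖ ≤ ∑ n ∈ G, wt n * ‖a n‖ := by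
    refine (norm_sum_le _ _).trans (sum_le_sum fun n _ => ?_)
    rw [norm_mul, RCLike.norm_ofReal, abs_of_pos (wt_pos n)]
  have h2 : (∑ n ∈ G, wt n * ‖a n‖) ^ 2 ≤ (∑ n ∈ G, wt n ^ 2) * ∑ n ∈ G, ‖a n‖ ^ 2 :=
    sum_mul_sq_le_sq_mul_sq _ _ _
  have h3 : ∑ n ∈ G, wt n ^ 2 ≤ 1 := by
    rw [← sum_wt_sq j]
    exact sum_le_sum_of_subset_of_nonneg hG fun _ _ _ => sq_nonneg _
  have h4 : 0 ≤ ∑ n ∈ G, ‖a n‖ ^ 2 := sum_nonneg fun _ _ => sq_nonneg _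
  calc ‖∑ n ∈ G, ((wt n : ℝ) : 𝕜) * a n‖ ^ 2 ≤ (∑ n ∈ G, wt n * ‖a n‖) ^ 2 :=
        pow_le_pow_left₀ (norm_nonneg _) h1 2
    _ ≤ (∑ n ∈ G, wt n ^ 2) * ∑ n ∈ G, ‖a n‖ ^ 2 := h2
    _ ≤ 1 * ∑ n ∈ G, ‖a n‖ ^ 2 := mul_le_mul_of_nonneg_right h3 h4
    _ = _ := one_mul _

lemma sum_u_sq (J : ℕ) (a : H 𝕜) : ∑ j ∈ range J, ‖u j a‖ ^ 2 ≤ ‖a‖ ^ 2 := by
  refine le_trans (sum_le_sum fun j _ => norm_wsum_le (Subset.refl (blk j)) a) ?_
  rw [← sum_blk]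
  exact sum_sq_le a _

/-- the relation between the two components -/
def Rel (z : WithLp 2 (H 𝕜 × H 𝕜)) : Prop :=
  ∀ i, z.snd i = ∑ j ∈ range (i + 1), u j z.fst * ((al (i - j) : ℝ) : 𝕜)

lemma rel_A {z : WithLp 2 (H 𝕜 × H 𝕜)} (hz : Rel z) (i : ℕ) {J : ℕ} (hJ : i < J) :
    z.snd i = ∑ j ∈ range J, u j z.fst * (A j : H 𝕜) i := by
  rw [hz i]
  have h1 : ∑ j ∈ range (i + 1), u j z.fst * ((al (i - j) : ℝ) : 𝕜) =
      ∑ j ∈ range (i + 1), u j z.fst * (A j : H 𝕜) i :=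
    sum_congr rfl fun j hj => by
      rw [A_apply, if_pos (by have := mem_range.1 hj; omega)]
  rw [h1]
  refine sum_subset (range_mono (by omega)) fun j _ hj2 => ?_
  rw [A_apply, if_neg (by rw [mem_range] at hj2; omega), mul_zero]

lemma L_eq {z : WithLp 2 (H 𝕜 × H 𝕜)} (hz : Rel z) (J : ℕ) :
    ∑ j ∈ range J, u j z.fst • (A j : H 𝕜) =
      cut J z.snd + ∑ j ∈ range J, u j z.fst • (if h : j ≤ J then (B j J h : H 𝕜) else 0) := by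
  ext i
  simp only [lp.coeFn_add, lp.coeFn_sum, Pi.add_apply, Finset.sum_apply, lp.coeFn_smul,
    Pi.smul_apply, smul_eq_mul]
  by_cases hi : i < J
  · rw [cut_apply, if_pos hi, rel_A hz i hi]
    have h1 : ∑ j ∈ range J, u j z.fst * (if h : j ≤ J then (B j J h : H 𝕜) else 0 : H 𝕜) i = 0 := by
      refine sum_eq_zero fun j hj => ?_
      have := mem_range.1 hj
      rw [dif_pos this.le, B_apply, if_neg (by omega), mul_zero]
    rw [h1, add_zero]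
  · rw [cut_apply, if_neg hi, zero_add]
    refine sum_congr rfl fun j hj => ?_
    have := mem_range.1 hj
    rw [dif_pos this.le, B_apply, if_pos (by omega), A_apply, if_pos (by omega)]

/-- the full blocks -/
lemma norm_L_le {z : WithLp 2 (H 𝕜 × H 𝕜)} (hz : Rel z) (J : ℕ) :
    ‖∑ j ∈ range J, u j z.fst • (A j : H 𝕜)‖ ≤ ‖z.snd‖ + ‖z.fst‖ * √M0 := by
  rw [L_eq hz J]
  refine (norm_add_le _ _).trans (add_le_add (norm_cut_le _ _) ?_)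
  have h1 : ‖∑ j ∈ range J, u j z.fst • (if h : j ≤ J then (B j J h : H 𝕜) else 0)‖ ≤
      ∑ j ∈ range J, ‖u j z.fst‖ * √(R (J - j)) := by
    refine (norm_sum_le _ _).trans (sum_le_sum fun j hj => ?_)
    have := mem_range.1 hj
    rw [norm_smul, dif_pos this.le, norm_B]
  refine h1.trans ?_
  have h2 := Real.sum_mul_le_sqrt_mul_sqrt (range J) (fun j => ‖u j z.fst‖)
    (fun j => √(R (J - j)))
  refine h2.trans ?_
  refine mul_le_mul ?_ ?_ (Real.sqrt_nonneg _) (norm_nonneg _)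
  · rw [← Real.sqrt_sq (norm_nonneg z.fst)]
    exact Real.sqrt_le_sqrt (sum_u_sq J _)
  · refine Real.sqrt_le_sqrt ?_
    refine le_trans (le_of_eq (sum_congr rfl fun j _ => ?_)) (sumR_le' J)
    rw [Real.sq_sqrt (R_nonneg _)]

/-- the basis vectors -/
def X (n : ℕ) : WithLp 2 (H 𝕜 × H 𝕜) :=
  WithLp.toLp 2 (lp.single 2 n (1 : 𝕜), ((wt n : ℝ) : 𝕜) • (A (lg n) : H 𝕜))

lemma X_fst (n m : ℕ) : (X n : WithLp 2 (H 𝕜 × H 𝕜)).fst m = if m = n then 1 else 0 := by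
  unfold X
  rw [WithLp.toLp_fst]
  show (lp.single (E := fun _ : ℕ => 𝕜) 2 n (1 : 𝕜)) m = _
  rw [lp.single_apply, Pi.single_apply]

lemma X_snd (n : ℕ) : (X n : WithLp 2 (H 𝕜 × H 𝕜)).snd = ((wt n : ℝ) : 𝕜) • (A (lg n) : H 𝕜) :=
  rfl

/-- the second components of the partial sums -/
lemma sum_snd (a : H 𝕜) (m : ℕ) :
    ∑ n ∈ range m, a n • (X n : WithLp 2 (H 𝕜 × H 𝕜)).snd =
      ∑ j ∈ range (lg m), u j a • (A j : H 𝕜) +
        (∑ n ∈ Ico (2 ^ lg m - 1) m, ((wt n : ℝ) : 𝕜) * a n) • (A (lg m) : H 𝕜) := by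
  have h1 : 2 ^ lg m ≤ m + 1 := Nat.pow_log_le_self 2 (by omega)
  rw [range_eq_Ico, ← sum_Ico_consecutive _ (Nat.zero_le (2 ^ lg m - 1)) (by omega),
    ← range_eq_Ico, sum_blk]
  congr 1
  · refine sum_congr rfl fun j _ => ?_
    rw [u, sum_smul]
    refine sum_congr rfl fun n hn => ?_
    rw [X_snd, mem_blk.1 hn, smul_smul, mul_comm]
  · rw [sum_smul]
    refine sum_congr rfl fun n hn => ?_
    have h2 := mem_Ico.1 hn
    have h3 : m < 2 ^ (lg m + 1) - 1 + 1 := by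
      have := Nat.lt_pow_succ_log_self (b := 2) (by norm_num) (m + 1)
      have h4 : 2 ^ (lg m + 1) = 2 ^ (Nat.log 2 (m + 1)).succ := rfl
      omega
    have h5 : lg n = lg m := mem_blk.1 (mem_Ico.2 ⟨h2.1, by omega⟩)
    rw [X_snd, h5, smul_smul, mul_comm]

lemma Ico_sub_blk (m : ℕ) : Ico (2 ^ lg m - 1) m ⊆ blk (lg m) := by
  intro n hn
  have h2 := mem_Ico.1 hn
  have h3 : m < 2 ^ (lg m + 1) - 1 + 1 := by
    have := Nat.lt_pow_succ_log_self (b := 2) (by norm_num) (m + 1)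
    have h4 : 2 ^ (lg m + 1) = 2 ^ (Nat.log 2 (m + 1)).succ := rfl
    omega
  exact mem_Ico.2 ⟨h2.1, by omega⟩

lemma norm_sum_snd_le {z : WithLp 2 (H 𝕜 × H 𝕜)} (hz : Rel z) (m : ℕ) :
    ‖∑ n ∈ range m, z.fst n • (X n : WithLp 2 (H 𝕜 × H 𝕜)).snd‖ ≤
      ‖z.snd‖ + ‖z.fst‖ * (√M0 + √(R 0)) := by
  rw [sum_snd]
  refine (norm_add_le _ _).trans ?_
  have h1 := norm_L_le hz (lg m)
  have h2 : ‖(∑ n ∈ Ico (2 ^ lg m - 1) m, ((wt n : ℝ) : 𝕜) * z.fst n) • (A (lg m) : H 𝕜)‖ ≤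
      ‖z.fst‖ * √(R 0) := by
    rw [norm_smul, norm_A]
    refine mul_le_mul_of_nonneg_right ?_ (Real.sqrt_nonneg _)
    refine le_of_sq_le_sq ?_ (norm_nonneg _)
    exact (norm_wsum_le (Ico_sub_blk m) z.fst).trans (sum_sq_le _ _)
  linarith

end Q61.PA
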