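import Pool.Agent.Q61.PA3

/-!
# The concrete system: the space, the Schauder basis and its conditionality
-/

set_option autoImplicit false

open Finset Filter Topology

noncomputable section

namespace Q61.PA

variable (𝕜 : Type*) [RCLike 𝕜]

/-- the ambient Hilbert space -/
abbrev W := WithLp 2 (H 𝕜 × H 𝕜)

/-- coordinate evaluation -/
def ev (i : ℕ) : H 𝕜 →L[𝕜] 𝕜 :=
  LinearMap.mkContinuous
    { toFun := fun v => v i
      map_add' := fun _ _ => rfl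
      map_smul' := fun _ _ => rfl } 1
    (fun v => by rw [one_mul]; exact lp.norm_apply_le_norm (by norm_num) v i)

variable {𝕜}

@[simp] lemma ev_apply (i : ℕ) (v : H 𝕜) : ev 𝕜 i v = v i := rfl

lemma continuous_u (j : ℕ) : Continuous fun a : H 𝕜 => u j a := by
  unfold u
  exact continuous_finsetSum _ fun n _ => continuous_const.mul (ev 𝕜 n).continuous

lemma u_add (j : ℕ) (a b : H 𝕜) : u j (a + b) = u j a + u j b := by
  simp [u, mul_add, sum_add_distrib]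

lemma u_smul (j : ℕ) (c : 𝕜) (a : H 𝕜) : u j (c • a) = c * u j a := by
  simp only [u, lp.coeFn_smul, Pi.smul_apply, smul_eq_mul, mul_sum]
  exact sum_congr rfl fun n _ => by ring

variable (𝕜)

/-- the relation as a subspace -/
def relSub : Submodule 𝕜 (W 𝕜) where
  carrier := {z | Rel z}
  add_mem' := by
    intro z w hz hw i
    simp only [WithLp.add_snd, WithLp.add_fst, lp.coeFn_add, Pi.add_apply, u_add, add_mul,
      sum_add_distrib]
    rw [hz i, hw i]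
  zero_mem' := by
    intro i
    simp [u]
  smul_mem' := by
    intro c z hz i
    simp only [WithLp.smul_snd, WithLp.smul_fst, lp.coeFn_smul, Pi.smul_apply, u_smul,
      smul_eq_mul, mul_assoc, ← mul_sum]
    rw [hz i]

lemma isClosed_relSub : IsClosed (relSub 𝕜 : Set (W 𝕜)) := by
  have h : (relSub 𝕜 : Set (W 𝕜)) = ⋂ i, {z : W 𝕜 | z.snd i =
      ∑ j ∈ range (i + 1), u j z.fst * ((al (i - j) : ℝ) : 𝕜)} := by
    ext z; simp only [Set.mem_iInter, Set.mem_ofPred_eq]; rfl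
  rw [h]
  refine isClosed_iInter fun i => isClosed_eq ?_ ?_
  · exact (ev 𝕜 i).continuous.comp (WithLp.sndL 2 𝕜 (H 𝕜) (H 𝕜)).continuous
  · refine continuous_finsetSum _ fun j _ => ?_
    exact ((continuous_u j).comp (WithLp.fstL 2 𝕜 (H 𝕜) (H 𝕜)).continuous).mul continuous_const

lemma rel_X (n : ℕ) : Rel (X n : W 𝕜) := by
  intro i
  have hu : ∀ j, u j (X n : W 𝕜).fst = if n ∈ blk j then ((wt n : ℝ) : 𝕜) else 0 := by
    intro j
    unfold u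
    simp only [X_fst, mul_ite, mul_one, mul_zero]
    rw [sum_ite_eq']
  simp only [hu, mem_blk, X_snd, lp.coeFn_smul, Pi.smul_apply, smul_eq_mul, A_apply, ite_mul,
    zero_mul]
  rw [sum_ite_eq (range (i + 1)) (lg n) (fun j => ((wt n : ℝ) : 𝕜) * ((al (i - j) : ℝ) : 𝕜))]
  simp only [mem_range, Nat.lt_succ_iff]
  split_ifs <;> simp

/-- the space -/
def E : Submodule 𝕜 (W 𝕜) := (Submodule.span 𝕜 (Set.range (X (𝕜 := 𝕜)))).topologicalClosure

instance : CompleteSpace (E 𝕜) := (Submodule.isClosed_topologicalClosure _).completeSpace_coe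

lemma E_le : E 𝕜 ≤ relSub 𝕜 := by
  refine Submodule.topologicalClosure_minimal _ ?_ (isClosed_relSub 𝕜)
  rw [Submodule.span_le]
  rintro _ ⟨n, rfl⟩
  exact rel_X 𝕜 n

variable {𝕜}

lemma rel (z : E 𝕜) : Rel (z : W 𝕜) := E_le 𝕜 z.2

/-- the basis -/
def bx (n : ℕ) : E 𝕜 :=
  ⟨X n, Submodule.le_topologicalClosure _ (Submodule.subset_span ⟨n, rfl⟩)⟩

@[simp] lemma coe_bx (n : ℕ) : ((bx n : E 𝕜) : W 𝕜) = X n := rfl

/-- the coefficient functionals -/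
def cf (n : ℕ) : E 𝕜 →L[𝕜] 𝕜 :=
  (ev 𝕜 n).comp ((WithLp.fstL 2 𝕜 (H 𝕜) (H 𝕜)).comp (E 𝕜).subtypeL)

lemma cf_apply (n : ℕ) (z : E 𝕜) : cf n z = (z : W 𝕜).fst n := rfl

variable (𝕜) in
/-- the seminorm -/
def qs : Seminorm 𝕜 (E 𝕜) :=
  (normSeminorm 𝕜 (H 𝕜)).comp ((WithLp.sndₗ 2 𝕜 (H 𝕜) (H 𝕜)).comp (E 𝕜).subtype)

lemma qs_apply (z : E 𝕜) : qs 𝕜 z = ‖(z : W 𝕜).snd‖ := rfl

/-- constants -/
def κc : ℝ := √2 * √(R 0)

/-- constants -/
def Kc : ℝ := 2 + (√M0 + √(R 0))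

lemma Kc_nonneg : 0 ≤ Kc := by unfold Kc; positivity

lemma fst_le (z : W 𝕜) : ‖z.fst‖ ≤ ‖z‖ := by
  refine le_of_sq_le_sq ?_ (norm_nonneg _)
  rw [WithLp.prod_norm_sq_eq_of_L2]
  nlinarith [sq_nonneg ‖z.snd‖]

lemma snd_le (z : W 𝕜) : ‖z.snd‖ ≤ ‖z‖ := by
  refine le_of_sq_le_sq ?_ (norm_nonneg _)
  rw [WithLp.prod_norm_sq_eq_of_L2]
  nlinarith [sq_nonneg ‖z.fst‖]

lemma le_fst_snd (z : W 𝕜) : ‖z‖ ≤ ‖z.fst‖ + ‖z.snd‖ := by
  refine le_of_sq_le_sq ?_ (by positivity)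
  rw [WithLp.prod_norm_sq_eq_of_L2]
  nlinarith [norm_nonneg z.snd, norm_nonneg z.fst]

lemma fst_sum (G : Finset ℕ) (g : ℕ → W 𝕜) : (∑ n ∈ G, g n).fst = ∑ n ∈ G, (g n).fst :=
  map_sum (WithLp.fstL 2 𝕜 (H 𝕜) (H 𝕜)) g G

lemma snd_sum (G : Finset ℕ) (g : ℕ → W 𝕜) : (∑ n ∈ G, g n).snd = ∑ n ∈ G, (g n).snd :=
  map_sum (WithLp.sndL 2 𝕜 (H 𝕜) (H 𝕜)) g G

lemma P_snd (G : Finset ℕ) (z : E 𝕜) :
    ((P bx cf G z : E 𝕜) : W 𝕜).snd = ∑ n ∈ G, (z : W 𝕜).fst n • (X n : W 𝕜).snd := by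
  unfold P
  rw [Submodule.coe_sum, snd_sum]
  rfl

lemma P_snd_le (m : ℕ) (z : E 𝕜) : ‖((P bx cf (range m) z : E 𝕜) : W 𝕜).snd‖ ≤
    ‖(z : W 𝕜).snd‖ + ‖(z : W 𝕜).fst‖ * (√M0 + √(R 0)) := by
  rw [P_snd]
  exact norm_sum_snd_le (rel z) m

lemma sys : Sys (bx (𝕜 := 𝕜)) cf (qs 𝕜) κc Kc where
  bi := fun m n => by rw [cf_apply, coe_bx, X_fst]
  tot := fun z hz => by
    have h1 : (z : W 𝕜).fst = 0 := by
      ext n; exact hz n
    have h2 : (z : W 𝕜).snd = 0 := by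
      ext i
      rw [rel z i, h1]
      simp [u]
    have h3 : ‖(z : W 𝕜)‖ = 0 := by
      have := le_fst_snd (z : W 𝕜)
      rw [h1, h2, norm_zero] at this
      exact le_antisymm (by linarith) (norm_nonneg _)
    exact Subtype.ext (norm_eq_zero.1 h3)
  κ0 := by unfold κc; positivity
  K0 := Kc_nonneg
  hq := fun n => by
    rw [qs_apply, coe_bx, X_snd, norm_smul, norm_A, RCLike.norm_ofReal, abs_of_pos (wt_pos n)]
    have := wt_le n
    have h2 := Real.sqrt_nonneg (R 0)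
    calc wt n * √(R 0) ≤ √2 / √((n : ℝ) + 1) * √(R 0) := mul_le_mul_of_nonneg_right this h2
      _ = κc / √((n : ℝ) + 1) := by unfold κc; ring
  hS := fun F z => by
    have h1 : S cf F z ≤ ‖(z : W 𝕜).fst‖ := by
      refine le_of_sq_le_sq ?_ (norm_nonneg _)
      rw [S_sq]
      exact sum_sq_le _ _
    have h2 : ‖(z : W 𝕜).fst‖ ≤ ‖z‖ := fst_le _
    have h3 : 0 ≤ ‖z‖ := norm_nonneg _
    have h4 : 0 ≤ √M0 + √(R 0) := by positivity
    unfold Kc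
    nlinarith
  hP := fun m z => by
    have h0 := P_snd_le m z
    have h1 : qs 𝕜 (z - P bx cf (range m) z) ≤
        qs 𝕜 z + qs 𝕜 (P bx cf (range m) z) := map_sub_le_add _ _ _
    rw [qs_apply z, qs_apply (P bx cf (range m) z)] at h1
    have h2 : ‖(z : W 𝕜).fst‖ ≤ ‖z‖ := fst_le _
    have h3 : ‖(z : W 𝕜).snd‖ ≤ ‖z‖ := snd_le _
    have h4 : 0 ≤ √M0 + √(R 0) := by positivity
    unfold Kc
    nlinarith [mul_le_mul_of_nonneg_right h2 h4]

lemma P_fst_le (m : ℕ) (z : E 𝕜) : ‖((P bx cf (range m) z : E 𝕜) : W 𝕜).fst‖ ≤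
    ‖(z : W 𝕜).fst‖ := by
  have h : ((P bx cf (range m) z : E 𝕜) : W 𝕜).fst = cut m (z : W 𝕜).fst := by
    ext i
    have := coord_P (sys (𝕜 := 𝕜)) (range m) z i
    rw [cf_apply, cf_apply] at this
    rw [this, cut_apply]
    simp only [mem_range]
  rw [h]
  exact norm_cut_le _ _

lemma P_le (m : ℕ) (z : E 𝕜) : ‖(P bx cf (range m) z : E 𝕜)‖ ≤ Kc * ‖z‖ := by
  have h0 := P_snd_le m z
  have h1 := P_fst_le m z
  have h2 : ‖(P bx cf (range m) z : E 𝕜)‖ ≤ _ := le_fst_snd ((P bx cf (range m) z : E 𝕜) : W 𝕜)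
  have h3 : ‖(z : W 𝕜).fst‖ ≤ ‖z‖ := fst_le _
  have h4 : ‖(z : W 𝕜).snd‖ ≤ ‖z‖ := snd_le _
  have h5 : 0 ≤ √M0 + √(R 0) := by positivity
  unfold Kc
  nlinarith [mul_le_mul_of_nonneg_right h3 h5]

lemma tend_span (w : W 𝕜) (hw : w ∈ Submodule.span 𝕜 (Set.range (X (𝕜 := 𝕜)))) :
    ∃ hE : w ∈ E 𝕜, Tendsto (fun m => P bx cf (range m) (⟨w, hE⟩ : E 𝕜)) atTop (𝓝 ⟨w, hE⟩) := by
  induction hw using Submodule.span_induction with
  | mem w hw =>
    obtain ⟨n, rfl⟩ := hw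
    refine ⟨(bx n).2, tendsto_const_nhds.congr' ?_⟩
    filter_upwards [eventually_gt_atTop n] with m hm
    show (bx n : E 𝕜) = P (bx (𝕜 := 𝕜)) cf (range m) (bx n)
    unfold P
    simp only [(sys (𝕜 := 𝕜)).bi, ite_smul, one_smul, zero_smul]
    rw [sum_ite_eq', if_pos (mem_range.2 hm)]
  | zero =>
    refine ⟨Submodule.zero_mem _, ?_⟩
    refine tendsto_const_nhds.congr fun m => ?_
    show (0 : E 𝕜) = P (bx (𝕜 := 𝕜)) cf (range m) (0 : E 𝕜)
    simp [P]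
  | add w v _ _ h1 h2 =>
    obtain ⟨a, ha⟩ := h1
    obtain ⟨b, hb⟩ := h2
    refine ⟨Submodule.add_mem _ a b, ?_⟩
    refine (ha.add hb).congr fun m => ?_
    exact (P_add _ _ _).symm
  | smul c w _ h1 =>
    obtain ⟨a, ha⟩ := h1
    refine ⟨Submodule.smul_mem _ c a, ?_⟩
    refine (ha.const_smul c).congr fun m => ?_
    exact (P_smul _ _ _).symm

/-- the expansions converge -/
lemma tend (z : E 𝕜) : Tendsto (fun m => P bx cf (range m) z) atTop (𝓝 z) := by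
  rw [Metric.tendsto_atTop]
  intro ε hε
  have hK : 0 < Kc + 2 := by have := Kc_nonneg; linarith
  have hz : (z : W 𝕜) ∈ closure (Submodule.span 𝕜 (Set.range (X (𝕜 := 𝕜))) : Set (W 𝕜)) := z.2
  obtain ⟨w, hw, hzw⟩ := Metric.mem_closure_iff.1 hz (ε / (Kc + 2)) (by positivity)
  obtain ⟨hE, ht⟩ := tend_span w hw
  obtain ⟨M, hM⟩ := Metric.tendsto_atTop.1 ht (ε / (Kc + 2)) (by positivity)
  refine ⟨M, fun m hm => ?_⟩
  have h1 := hM m hm
  set w' : E 𝕜 := ⟨w, hE⟩ with hw'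
  have h2 : ‖z - w'‖ < ε / (Kc + 2) := by
    have : ‖z - w'‖ = dist (z : W 𝕜) w := by rw [dist_eq_norm]; rfl
    rwa [this]
  rw [dist_eq_norm] at h1 ⊢
  have h3 : P bx cf (range m) z - z = P bx cf (range m) (z - w') +
      (P bx cf (range m) w' - w') - (z - w') := by
    have : P bx cf (range m) (z - w') = P bx cf (range m) z - P bx cf (range m) w' := by
      rw [sub_eq_add_neg, P_add, ← neg_one_smul 𝕜 w', P_smul, neg_one_smul, ← sub_eq_add_neg]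
    rw [this]; abel
  have h4 : ‖P bx cf (range m) z - z‖ ≤ Kc * ‖z - w'‖ + ‖P bx cf (range m) w' - w'‖ +
      ‖z - w'‖ := by
    rw [h3]
    refine (norm_sub_le _ _).trans (add_le_add_left ((norm_add_le _ _).trans
      (add_le_add_left (P_le m _) _)) _)
  have h5 : Kc * ‖z - w'‖ ≤ Kc * (ε / (Kc + 2)) := mul_le_mul_of_nonneg_left h2.le Kc_nonneg
  have h6 : Kc * (ε / (Kc + 2)) + ε / (Kc + 2) + ε / (Kc + 2) = ε := by field_simp; ring
  linarith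

lemma uniq (z : E 𝕜) (a : ℕ → 𝕜)
    (ha : Tendsto (fun m => ∑ n ∈ range m, a n • (bx n : E 𝕜)) atTop (𝓝 z)) (k : ℕ) :
    a k = cf k z := by
  have h1 := ((cf (𝕜 := 𝕜) k).continuous.tendsto z).comp ha
  have h2 : Tendsto (fun _ : ℕ => a k) atTop (𝓝 (cf k z)) := by
    refine h1.congr' ?_
    filter_upwards [eventually_gt_atTop k] with m hm
    simp only [Function.comp, map_sum, map_smul, (sys (𝕜 := 𝕜)).bi, smul_eq_mul, mul_ite,
      mul_one, mul_zero]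
    rw [sum_ite_eq, if_pos (mem_range.2 hm)]
  exact tendsto_nhds_unique tendsto_const_nhds h2

end Q61.PA
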