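import Pool.Agent.Q61.PA4

/-!
# The basis is conditional
-/

set_option autoImplicit false

open Finset Filter Topology

noncomputable section

namespace Q61.PA

variable (𝕜 : Type*) [RCLike 𝕜]

/-- block vectors -/
def Z (t : ℕ → ℝ) (J : ℕ) : E 𝕜 :=
  ∑ n ∈ range (2 ^ J - 1), ((t (lg n) * wt n : ℝ) : 𝕜) • bx n

lemma cf_Z (t : ℕ → ℝ) (J m : ℕ) :
    cf m (Z 𝕜 t J) = if m < 2 ^ J - 1 then ((t (lg m) * wt m : ℝ) : 𝕜) else 0 := by
  unfold Z
  rw [map_sum]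
  simp only [map_smul, (sys (𝕜 := 𝕜)).bi, smul_eq_mul, mul_ite, mul_one, mul_zero]
  rw [sum_ite_eq]
  simp only [mem_range]

lemma Z_fst_sq (t : ℕ → ℝ) (J : ℕ) :
    ‖((Z 𝕜 t J : E 𝕜) : W 𝕜).fst‖ ^ 2 = ∑ j ∈ range J, t j ^ 2 := by
  rw [nsq, tsum_eq_sum (s := range (2 ^ J - 1))]
  · rw [sum_blk]
    refine sum_congr rfl fun j hj => ?_
    have h1 : ∑ n ∈ blk j, ‖((Z 𝕜 t J : E 𝕜) : W 𝕜).fst n‖ ^ 2 = ∑ n ∈ blk j, t j ^ 2 * wt n ^ 2 := by
      refine sum_congr rfl fun n hn => ?_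
      have h2 : n < 2 ^ J - 1 := by
        have h3 := (mem_Ico.1 hn).2
        have h4 : 2 ^ (j + 1) ≤ 2 ^ J := Nat.pow_le_pow_right (by norm_num)
          (mem_range.1 hj)
        omega
      have := cf_Z 𝕜 t J n
      rw [cf_apply] at this
      rw [this, if_pos h2, RCLike.norm_ofReal, sq_abs, mem_blk.1 hn]
      ring
    rw [h1, ← mul_sum, sum_wt_sq, mul_one]
  · intro n hn
    have := cf_Z 𝕜 t J n
    rw [cf_apply] at this
    rw [this, if_neg (fun h => hn (mem_range.2 h))]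
    simp

lemma Z_snd (t : ℕ → ℝ) (J : ℕ) :
    ((Z 𝕜 t J : E 𝕜) : W 𝕜).snd = ∑ j ∈ range J, ((t j : ℝ) : 𝕜) • (A j : H 𝕜) := by
  unfold Z
  rw [Submodule.coe_sum, snd_sum, sum_blk]
  refine sum_congr rfl fun j _ => ?_
  have h1 : ∀ n ∈ blk j, ((((t (lg n) * wt n : ℝ) : 𝕜) • bx n : E 𝕜) : W 𝕜).snd =
      ((t j * wt n ^ 2 : ℝ) : 𝕜) • (A j : H 𝕜) := fun n hn => by
    rw [Submodule.coe_smul, WithLp.smul_snd, coe_bx, X_snd, smul_smul, mem_blk.1 hn]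
    congr 1
    push_cast
    ring
  rw [sum_congr rfl h1, ← sum_smul]
  congr 1
  rw [← RCLike.ofReal_sum, ← mul_sum, sum_wt_sq, mul_one]

/-- the coordinates of the second component -/
def cc (t : ℕ → ℝ) (J i : ℕ) : ℝ := ∑ j ∈ range J, t j * (if j ≤ i then al (i - j) else 0)

lemma Z_snd_apply (t : ℕ → ℝ) (J i : ℕ) :
    ((Z 𝕜 t J : E 𝕜) : W 𝕜).snd i = ((cc t J i : ℝ) : 𝕜) := by
  rw [Z_snd, lp.coeFn_sum, Finset.sum_apply, cc, RCLike.ofReal_sum]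
  refine sum_congr rfl fun j _ => ?_
  rw [lp.coeFn_smul, Pi.smul_apply, smul_eq_mul, A_apply]
  split_ifs <;> simp

/-- alternating partial sums -/
lemma alt_bound (i k : ℕ) (hk : k ≤ i + 1) :
    0 ≤ -(-1 : ℝ) ^ k * ∑ j ∈ range k, (-1 : ℝ) ^ j * al (i - j) ∧
      -(-1 : ℝ) ^ k * ∑ j ∈ range k, (-1 : ℝ) ^ j * al (i - j) ≤ al (i + 1 - k) := by
  induction k with
  | zero => simp; exact (al_pos _).le
  | succ k ih =>
    obtain ⟨h1, h2⟩ := ih (by omega)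
    have h3 : -(-1 : ℝ) ^ (k + 1) * ∑ j ∈ range (k + 1), (-1 : ℝ) ^ j * al (i - j) =
        al (i - k) - (-(-1 : ℝ) ^ k * ∑ j ∈ range k, (-1 : ℝ) ^ j * al (i - j)) := by
      rw [sum_range_succ, pow_succ]
      have h4 : ((-1 : ℝ) ^ k) * ((-1 : ℝ) ^ k) = 1 := by
        rw [← mul_pow]; norm_num
      linear_combination al (i - k) * h4
    have h5 : al (i + 1 - k) ≤ al (i - k) := al_anti (by omega)
    rw [h3, show i + 1 - (k + 1) = i - k by omega]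
    constructor <;> linarith

lemma cc_alt_le (J i : ℕ) : |cc (fun j => (-1 : ℝ) ^ j) J i| ≤ al (i + 1 - J) := by
  have key : ∀ k, k ≤ i + 1 → |∑ j ∈ range k, (-1 : ℝ) ^ j * al (i - j)| ≤ al (i + 1 - k) := by
    intro k hk
    obtain ⟨h1, h2⟩ := alt_bound i k hk
    have h3 : |∑ j ∈ range k, (-1 : ℝ) ^ j * al (i - j)| =
        |-(-1 : ℝ) ^ k * ∑ j ∈ range k, (-1 : ℝ) ^ j * al (i - j)| := by
      rw [abs_mul, abs_neg, abs_pow, abs_neg, abs_one, one_pow, one_mul]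
    rw [h3, abs_of_nonneg h1]
    exact h2
  by_cases hJ : J ≤ i + 1
  · refine le_trans (le_of_eq ?_) (key J hJ)
    unfold cc
    congr 1
    refine sum_congr rfl fun j hj => ?_
    have := mem_range.1 hj
    rw [if_pos (by omega)]
  · have h1 := key (i + 1) le_rfl
    rw [show i + 1 - J = i + 1 - (i + 1) by omega]
    refine le_trans (le_of_eq ?_) h1
    unfold cc
    congr 1
    symm
    refine (sum_congr rfl fun j hj => ?_).trans (sum_subset (range_mono (by omega : i + 1 ≤ J))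
      fun j _ hj2 => ?_)
    · have := mem_range.1 hj
      rw [if_pos (by omega)]
    · rw [if_neg (by rw [mem_range] at hj2; omega), mul_zero]

lemma hasSum_bd (J : ℕ) : HasSum (fun i => al (i + 1 - J) ^ 2) (J + R 1) := by
  have h1 : HasSum (fun i => al (i + J + 1 - J) ^ 2) (R 1) := by
    have h2 : (fun i => al (i + J + 1 - J) ^ 2) = fun i => al (i + 1) ^ 2 := by
      ext i; rw [show i + J + 1 - J = i + 1 by omega]
    rw [h2]
    exact (summable_shift 1).hasSum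
  rw [hasSum_nat_add_iff (f := fun i => al (i + 1 - J) ^ 2) J] at h1
  have h3 : ∑ i ∈ range J, al (i + 1 - J) ^ 2 = J := by
    rw [sum_congr rfl (g := fun _ => (1 : ℝ))]
    · simp
    · intro i hi
      have := mem_range.1 hi
      rw [show i + 1 - J = 0 by omega, al_zero, one_pow]
  rwa [h3, add_comm (R 1)] at h1

lemma Zalt_le (J : ℕ) : ‖Z 𝕜 (fun j => (-1 : ℝ) ^ j) J‖ ^ 2 ≤ J + (J + R 1) := by
  show ‖((Z 𝕜 (fun j => (-1 : ℝ) ^ j) J : E 𝕜) : W 𝕜)‖ ^ 2 ≤ _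
  rw [WithLp.prod_norm_sq_eq_of_L2, Z_fst_sq]
  refine add_le_add ?_ ?_
  · simp [← pow_mul]
  · rw [nsq, ← (hasSum_bd J).tsum_eq]
    refine Summable.tsum_le_tsum (fun i => ?_) (sumsq _) (hasSum_bd J).summable
    rw [Z_snd_apply, RCLike.norm_ofReal]
    exact pow_le_pow_left₀ (abs_nonneg _) (cc_alt_le J i) 2

/-- partial sums of `al` -/
def Sa (k : ℕ) : ℝ := ∑ r ∈ range k, al r

lemma cc_one (J i : ℕ) (h : i < J) : cc (fun _ => 1) J i = Sa (i + 1) := by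
  unfold cc Sa
  rw [← sum_range_reflect al (i + 1)]
  symm
  refine (sum_congr rfl fun j hj => ?_).trans (sum_subset (range_mono (by omega : i + 1 ≤ J))
      fun j _ hj2 => ?_)
  · have := mem_range.1 hj
    rw [if_pos (by omega), one_mul, show i + 1 - 1 - j = i - j by omega]
  · rw [if_neg (by rw [mem_range] at hj2; omega), mul_zero]

lemma Sa_mono {m n : ℕ} (h : m ≤ n) : Sa m ≤ Sa n :=
  sum_le_sum_of_subset_of_nonneg (range_mono h) fun r _ _ => (al_pos r).le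

lemma Sa_nonneg (n : ℕ) : 0 ≤ Sa n := sum_nonneg fun r _ => (al_pos r).le

lemma Zone_ge (k : ℕ) : k * Sa k ^ 2 ≤ ‖Z 𝕜 (fun _ => 1) (2 * k)‖ ^ 2 := by
  have h1 : ‖((Z 𝕜 (fun _ => 1) (2 * k) : E 𝕜) : W 𝕜).snd‖ ^ 2 ≤ ‖Z 𝕜 (fun _ => 1) (2 * k)‖ ^ 2 :=
    pow_le_pow_left₀ (norm_nonneg _) (snd_le _) 2
  refine le_trans ?_ h1
  refine le_trans ?_ (sum_sq_le _ (Ico k (2 * k)))
  have h2 : (k : ℝ) * Sa k ^ 2 = ∑ i ∈ Ico k (2 * k), Sa k ^ 2 := by
    rw [sum_const, Nat.card_Ico, nsmul_eq_mul]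
    congr 2
    omega
  rw [h2]
  refine sum_le_sum fun i hi => ?_
  have h3 := mem_Ico.1 hi
  rw [Z_snd_apply, RCLike.norm_ofReal, sq_abs, cc_one _ _ h3.2]
  exact pow_le_pow_left₀ (Sa_nonneg _) (Sa_mono (by omega)) 2

variable {𝕜}

/-- the projections onto the even blocks -/
def T (m : ℕ) : E 𝕜 →L[𝕜] E 𝕜 :=
  ∑ n ∈ (range m).filter (fun n => Even (lg n)), (cf n).smulRight (bx n)

lemma T_apply (m : ℕ) (z : E 𝕜) :
    T m z = P bx cf ((range m).filter (fun n => Even (lg n))) z := by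
  unfold T P
  rw [_root_.sum_apply]
  rfl

variable (𝕜) in
lemma Z_one_eq (J : ℕ) : Z 𝕜 (fun _ => 1) J =
    (2 : 𝕜) • T (2 ^ J - 1) (Z 𝕜 (fun j => (-1 : ℝ) ^ j) J) - Z 𝕜 (fun j => (-1 : ℝ) ^ j) J := by
  refine sub_eq_zero.1 ((sys (𝕜 := 𝕜)).tot _ fun n => ?_)
  rw [map_sub, map_sub, map_smul, T_apply, coord_P (sys (𝕜 := 𝕜)), cf_Z, cf_Z]
  simp only [mem_filter, mem_range, smul_eq_mul]
  by_cases h1 : n < 2 ^ J - 1
  · by_cases h2 : Even (lg n)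
    · simp only [h1, h2, and_self, if_true, h2.neg_one_pow]
      push_cast; ring
    · have h3 := Nat.not_even_iff_odd.1 h2
      simp only [h1, h2, and_false, if_true, if_false, h3.neg_one_pow]
      push_cast; ring
  · simp [h1]

lemma tendsto_Sa : Tendsto Sa atTop atTop :=
  (not_summable_iff_tendsto_nat_atTop_of_nonneg fun r => (al_pos r).le).1 not_summable_al

variable (𝕜) in
/-- **The basis is conditional.** -/
theorem cond : ∃ z : E 𝕜, ¬ Summable (fun n => cf n z • (bx n : E 𝕜)) := by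
  by_contra hcon
  push Not at hcon
  have h1 : ∀ z : E 𝕜, ∃ C, ∀ m, ‖T m z‖ ≤ C := by
    intro z
    have h2 := ((hcon z).indicator {n | Even (lg n)}).hasSum.tendsto_sum_nat
    obtain ⟨C, hC⟩ := h2.norm.bddAbove_range
    refine ⟨C, fun m => ?_⟩
    have h3 := hC ⟨m, rfl⟩
    refine le_trans (le_of_eq ?_) h3
    rw [T_apply]
    unfold P
    rw [sum_filter]
    simp only [Set.indicator_apply]
    rfl
  obtain ⟨M, hM⟩ := banach_steinhaus h1
  have hM0 : 0 ≤ M := (ContinuousLinearMap.opNorm_nonneg _).trans (hM 0)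
  have h4 : ∀ k : ℕ, 1 ≤ k → Sa k ^ 2 ≤ (2 * M + 1) ^ 2 * (4 + R 1) := by
    intro k hk
    have hk' : (1 : ℝ) ≤ k := by exact_mod_cast hk
    have h5 := Zone_ge 𝕜 k
    have h6 := Zalt_le 𝕜 (2 * k)
    set ζ := Z 𝕜 (fun j => (-1 : ℝ) ^ j) (2 * k) with hζ
    have h7 : ‖Z 𝕜 (fun _ => 1) (2 * k)‖ ≤ (2 * M + 1) * ‖ζ‖ := by
      rw [Z_one_eq]
      refine (norm_sub_le _ _).trans ?_
      rw [norm_smul]
      have h8 := (T (𝕜 := 𝕜) (2 ^ (2 * k) - 1)).le_of_opNorm_le (hM _) ζ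
      have h9 : ‖(2 : 𝕜)‖ = 2 := by simp
      rw [h9]
      nlinarith
    have h8 : ‖Z 𝕜 (fun _ => 1) (2 * k)‖ ^ 2 ≤ ((2 * M + 1) * ‖ζ‖) ^ 2 :=
      pow_le_pow_left₀ (norm_nonneg _) h7 2
    rw [mul_pow] at h8
    push_cast at h6
    have hR := R_nonneg 1
    have h9 : (2 * M + 1) ^ 2 * ‖ζ‖ ^ 2 ≤ (2 * M + 1) ^ 2 * (k * (4 + R 1)) := by
      refine mul_le_mul_of_nonneg_left (h6.trans ?_) (sq_nonneg _)
      nlinarith
    have h10 : (k : ℝ) * Sa k ^ 2 ≤ k * ((2 * M + 1) ^ 2 * (4 + R 1)) := by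
      calc (k : ℝ) * Sa k ^ 2 ≤ _ := h5
        _ ≤ _ := h8
        _ ≤ _ := h9
        _ = _ := by ring
    exact le_of_mul_le_mul_left h10 (by linarith)
  set D := (2 * M + 1) ^ 2 * (4 + R 1) with hD
  obtain ⟨k, hk⟩ := ((tendsto_Sa.eventually_gt_atTop (D + 1)).and (eventually_ge_atTop 1)).exists
  have h5 := h4 k hk.2
  have hD0 : 0 ≤ D := by have := R_nonneg 1; positivity
  nlinarith [hk.1]

end Q61.PA
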