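import Pool.Agent.Q61.PA5

/-!
# Transport to ℓ²
-/

set_option autoImplicit false

open Finset Filter Topology
open scoped InnerProductSpace

noncomputable section

namespace Q61.PA

variable (𝕜 : Type*) [RCLike 𝕜]

/-- the constant in the norm -/
def Cc : ℝ := 4 * κc + 1

lemma κc_nonneg : 0 ≤ κc := by unfold κc; positivity

lemma Cc_pos : 0 < Cc := by have := κc_nonneg; unfold Cc; linarith

/-- the norm with Property (A) on `E` -/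
def NE : Seminorm 𝕜 (E 𝕜) := N (sys (𝕜 := 𝕜)) Cc Cc_pos.le

lemma norm_le_NE (z : E 𝕜) : ‖z‖ ≤ (1 / Cc + 1) * NE 𝕜 z := by
  have h1 : ‖((z : W 𝕜)).fst‖ ≤ NE 𝕜 z / Cc := by
    refine le_of_sq_le_sq ?_ (div_nonneg (apply_nonneg _ _) Cc_pos.le)
    rw [nsq]
    refine (sumsq _).tsum_le_of_sum_le fun F => ?_
    have h2 : S cf F z ≤ NE 𝕜 z / Cc := by
      rw [le_div_iff₀ Cc_pos, mul_comm]
      exact S_le_N _ _ F z
    have h3 : S cf F z ^ 2 ≤ (NE 𝕜 z / Cc) ^ 2 := pow_le_pow_left₀ (S_nonneg _ _) h2 2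
    rwa [S_sq] at h3
  have h2 : ‖((z : W 𝕜)).snd‖ ≤ NE 𝕜 z := q_le_N (sys (𝕜 := 𝕜)) Cc_pos.le z
  have h3 : ‖z‖ ≤ _ := le_fst_snd (z : W 𝕜)
  calc ‖z‖ ≤ _ := h3
    _ ≤ NE 𝕜 z / Cc + NE 𝕜 z := add_le_add h1 h2
    _ = _ := by ring

lemma li : LinearIndependent 𝕜 (bx (𝕜 := 𝕜)) := by
  rw [linearIndependent_iff']
  intro s g hg i hi
  have h := congrArg (cf (𝕜 := 𝕜) i) hg
  rw [map_sum, map_zero] at h
  simp only [map_smul, (sys (𝕜 := 𝕜)).bi, smul_eq_mul, mul_ite, mul_one, mul_zero] at h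
  rw [sum_ite_eq, if_pos hi] at h
  exact h

lemma dense : ⊤ ≤ (Submodule.span 𝕜 (Set.range (bx (𝕜 := 𝕜)))).topologicalClosure := by
  intro z _
  refine mem_closure_of_tendsto (tend z) (Eventually.of_forall fun m => ?_)
  unfold P
  exact Submodule.sum_mem _ fun n _ => Submodule.smul_mem _ _ (Submodule.subset_span ⟨n, rfl⟩)

/-- a Hilbert basis of the space -/
def hb : HilbertBasis ℕ 𝕜 (E 𝕜) :=
  HilbertBasis.mk (InnerProductSpace.gramSchmidtNormed_orthonormal (li 𝕜))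
    (by rw [InnerProductSpace.span_gramSchmidtNormed_range, InnerProductSpace.span_gramSchmidt]
        exact dense 𝕜)

/-- the isometry -/
def Φ : E 𝕜 ≃ₗᵢ[𝕜] lp (fun _ : ℕ => 𝕜) 2 := (hb 𝕜).repr

/-- **Main theorem, raw form.** -/
theorem main : ∃ (N : Seminorm 𝕜 (lp (fun _ : ℕ => 𝕜) 2)) (x : ℕ → lp (fun _ : ℕ => 𝕜) 2)
    (f : ℕ → lp (fun _ : ℕ => 𝕜) 2 →L[𝕜] 𝕜) (c C : ℝ), 0 < c ∧
    (∀ v, c * ‖v‖ ≤ N v ∧ N v ≤ C * ‖v‖) ∧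
    (∀ z, Tendsto (fun m => ∑ n ∈ range m, f n z • x n) atTop (𝓝 z)) ∧
    (∀ (z : lp (fun _ : ℕ => 𝕜) 2) (a : ℕ → 𝕜),
      Tendsto (fun m => ∑ n ∈ range m, a n • x n) atTop (𝓝 z) → ∀ k, a k = f k z) ∧
    (∃ z, ¬ Summable (fun n => f n z • x n)) ∧
    (∀ (z w : lp (fun _ : ℕ => 𝕜) 2) (π : Equiv.Perm ℕ), (∀ n, ‖f (π n) w‖ = ‖f n z‖) →
      (∀ k, 0 < ‖f k z‖ → ‖f k z‖ < ⨆ n, ‖f n z‖ → π k = k ∧ f k w = f k z) → N z = N w) := by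
  have hc : 0 < 1 / Cc + 1 := by have := Cc_pos; positivity
  refine ⟨(NE 𝕜).comp (Φ 𝕜).symm.toLinearEquiv.toLinearMap, fun n => Φ 𝕜 (bx n),
    fun n => (cf n).comp ((Φ 𝕜).symm.toContinuousLinearEquiv : lp (fun _ : ℕ => 𝕜) 2 →L[𝕜] E 𝕜),
    (1 / Cc + 1)⁻¹, Cc * Kc + Kc + κc * Kc, inv_pos.2 hc, fun v => ⟨?_, ?_⟩, fun z => ?_,
    fun z a ha k => ?_, ?_, fun z w π h1 h2 => ?_⟩
  · have h := norm_le_NE 𝕜 ((Φ 𝕜).symm v)
    rw [(Φ 𝕜).symm.norm_map] at h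
    rw [inv_mul_le_iff₀ hc]
    exact h
  · have h := N_le (sys (𝕜 := 𝕜)) Cc_pos.le ((Φ 𝕜).symm v)
    rw [(Φ 𝕜).symm.norm_map] at h
    exact h
  · have h := ((Φ 𝕜).continuous.tendsto _).comp (tend ((Φ 𝕜).symm z))
    rw [(Φ 𝕜).apply_symm_apply] at h
    refine h.congr fun m => ?_
    show Φ 𝕜 (P bx cf (range m) ((Φ 𝕜).symm z)) = _
    unfold P
    rw [map_sum]
    exact sum_congr rfl fun n _ => map_smul _ _ _
  · have h := ((Φ 𝕜).symm.continuous.tendsto _).comp ha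
    refine uniq ((Φ 𝕜).symm z) a (h.congr fun m => ?_) k
    show (Φ 𝕜).symm (∑ n ∈ range m, a n • Φ 𝕜 (bx n)) = _
    rw [map_sum]
    refine sum_congr rfl fun n _ => ?_
    rw [map_smul, (Φ 𝕜).symm_apply_apply]
  · obtain ⟨z, hz⟩ := cond 𝕜
    refine ⟨Φ 𝕜 z, fun hs => hz ?_⟩
    have h := hs.map (Φ 𝕜).symm (Φ 𝕜).symm.continuous
    refine h.congr fun n => ?_
    show (Φ 𝕜).symm (cf n ((Φ 𝕜).symm (Φ 𝕜 z)) • Φ 𝕜 (bx n)) = _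
    rw [map_smul, (Φ 𝕜).symm_apply_apply, (Φ 𝕜).symm_apply_apply]
  · exact N_greedy (sys (𝕜 := 𝕜)) Cc_pos.le (by unfold Cc; linarith) π h1 h2

end Q61.PA
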