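import Mathlib

/-!
# Renormings and reflexivity
-/

set_option autoImplicit false

open Filter Topology
open scoped InnerProductSpace ComplexConjugate

noncomputable section

namespace Q61.PA

/-- the space `V` with the norm `N` -/
def Ren {𝕜 V : Type*} [RCLike 𝕜] [AddCommGroup V] [Module 𝕜 V] (N : Seminorm 𝕜 V)
    (_ : ∀ v, N v = 0 → v = 0) : Type _ := V

section
variable {𝕜 V : Type*} [RCLike 𝕜] [AddCommGroup V] [Module 𝕜 V] {N : Seminorm 𝕜 V}
  {h0 : ∀ v, N v = 0 → v = 0}

instance : NormedAddCommGroup (Ren N h0) :=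
  letI : AddCommGroup (Ren N h0) := inferInstanceAs (AddCommGroup V)
  AddGroupNorm.toNormedAddCommGroup
    { toFun := fun v : Ren N h0 => N (show V from v)
      map_zero' := map_zero N
      add_le' := fun _ _ => map_add_le_add N _ _
      neg' := fun _ => map_neg_eq_map N _
      eq_zero_of_map_eq_zero' := fun a h => h0 a h }

instance : NormedSpace 𝕜 (Ren N h0) :=
  { (inferInstanceAs (Module 𝕜 V) : Module 𝕜 (Ren N h0)) with
    norm_smul_le := fun c v => (map_smul_eq_mul N c (show V from v)).le }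

variable (N h0) in
/-- the identity map -/
def toV : Ren N h0 ≃ₗ[𝕜] V := LinearEquiv.refl 𝕜 V

lemma norm_ren (v : Ren N h0) : ‖v‖ = N (toV N h0 v) := rfl

end

lemma hilbert_refl {𝕜 F : Type*} [RCLike 𝕜] [NormedAddCommGroup F] [InnerProductSpace 𝕜 F]
    [CompleteSpace F] : Function.Surjective (NormedSpace.inclusionInDoubleDual 𝕜 F) := by
  intro Ψ
  let g : StrongDual 𝕜 F := LinearMap.mkContinuous
    { toFun := fun y => conj (Ψ (InnerProductSpace.toDual 𝕜 F y))
      map_add' := fun a b => by simp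
      map_smul' := fun c a => by
        rw [(InnerProductSpace.toDual 𝕜 F).map_smulₛₗ, map_smul]
        simp } ‖Ψ‖ (fun y => by
        show ‖conj (Ψ (InnerProductSpace.toDual 𝕜 F y))‖ ≤ _
        rw [RCLike.norm_conj]
        have h := Ψ.le_opNorm (InnerProductSpace.toDual 𝕜 F y)
        rwa [LinearIsometryEquiv.norm_map] at h)
  refine ⟨(InnerProductSpace.toDual 𝕜 F).symm g, ?_⟩
  ext φ
  obtain ⟨y, rfl⟩ := (InnerProductSpace.toDual 𝕜 F).surjective φ
  rw [NormedSpace.dual_def, InnerProductSpace.toDual_apply_apply]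
  have h1 : ⟪(InnerProductSpace.toDual 𝕜 F).symm g, y⟫_𝕜 = g y :=
    InnerProductSpace.toDual_symm_apply
  rw [← inner_conj_symm, h1]
  show conj (conj (Ψ (InnerProductSpace.toDual 𝕜 F y))) = _
  simp

lemma refl_of_equiv {𝕜 F X : Type*} [RCLike 𝕜] [NormedAddCommGroup F] [InnerProductSpace 𝕜 F]
    [CompleteSpace F] [NormedAddCommGroup X] [NormedSpace 𝕜 X] (e : X ≃L[𝕜] F) :
    Function.Surjective (NormedSpace.inclusionInDoubleDual 𝕜 X) := by
  intro Ψ
  obtain ⟨h, hh⟩ := hilbert_refl (𝕜 := 𝕜) (F := F)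
    (Ψ.comp ((ContinuousLinearMap.compL 𝕜 X F 𝕜).flip (e : X →L[𝕜] F)))
  refine ⟨e.symm h, ?_⟩
  ext φ
  have h1 := congrArg (fun Θ => Θ (φ.comp (e.symm : F →L[𝕜] X))) hh
  simp only [NormedSpace.dual_def, ContinuousLinearMap.comp_apply] at h1
  rw [NormedSpace.dual_def]
  refine h1.trans ?_
  congr 1
  ext x
  simp

end Q61.PA
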