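import Pool.Agent.Q88.PS.Stm

/-!
# Project PS, job PCK: Baire's theorem and the packing measure
-/

set_option autoImplicit false

open MeasureTheory Set Filter Topology
open scoped ENNReal NNReal

namespace Pool.Agent.Q61.PSPCK

open Pool.Agent.Q88.PS

lemma psw_append (u v : List D) (x : E2) : psw (u ++ v) x = psw u (psw v x) := by
  induction u with
  | nil => rfl
  | cons d u ih => simp [psw, ih]

lemma psw_mem (h : S_base) (v : List D) {x : E2} (hx : x ∈ KK) : psw v x ∈ KK := by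
  induction v with
  | nil => exact hx
  | cons d v ih =>
    rw [h.2.2.1]
    exact mem_iUnion.2 ⟨d, psw v x, ih, rfl⟩

lemma exists_word (h : S_base) (n : ℕ) : ∀ x ∈ KK, ∃ v : List D, v.length = n ∧ x ∈ psw v '' KK := by
  induction n with
  | zero => exact fun x hx => ⟨[], rfl, x, hx, rfl⟩
  | succ n ih =>
    intro x hx
    rw [h.2.2.1] at hx
    obtain ⟨d, y, hy, rfl⟩ := mem_iUnion.1 hx
    obtain ⟨v, hv, z, hz, rfl⟩ := ih y hy
    exact ⟨d :: v, by simp [hv], z, hz, rfl⟩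

lemma dist_psw (v : List D) (x y : E2) :
    dist (psw v x) (psw v y) = (1 / 8 : ℝ) ^ v.length * dist x y := by
  induction v with
  | nil => simp [psw]
  | cons d v ih =>
    simp only [psw, psi, List.length_cons]
    rw [dist_smul₀, dist_add_right, ih, pow_succ]
    simp
    ring

lemma dist_KK (h : S_base) {x y : E2} (hx : x ∈ KK) (hy : y ∈ KK) : dist x y ≤ 1 := by
  obtain ⟨hx0, hx1⟩ := h.2.2.2 x hx
  obtain ⟨hy0, hy1⟩ := h.2.2.2 y hy
  rw [EuclideanSpace.dist_eq, Fin.sum_univ_two, Real.dist_eq, Real.dist_eq, sq_abs, sq_abs]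
  apply Real.sqrt_le_one.2
  have h0 : (x 0 - y 0) ^ 2 ≤ (3 / 7 : ℝ) ^ 2 :=
    sq_le_sq' (by linarith [hx0.1, hy0.2]) (by linarith [hx0.2, hy0.1])
  have h1 : (x 1 - y 1) ^ 2 ≤ (5 / 7 : ℝ) ^ 2 :=
    sq_le_sq' (by linarith [hx1.1, hy1.2]) (by linarith [hx1.2, hy1.1])
  linarith

/-- **JOB PCK**. -/
theorem pck (h : S_base) (h1 : S_pre) : S_pck := by
  intro E hE hne hEK hant
  rw [packMeas]
  simp only [iInf_eq_top]
  intro F hF
  have : CompactSpace E := isCompact_iff_compactSpace.1 hE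
  have : Nonempty E := hne.to_subtype
  obtain ⟨i, x, hx⟩ := nonempty_interior_of_iUnion_of_closed
    (f := fun i => (Subtype.val : E → E2) ⁻¹' closure (F i))
    (fun i => isClosed_closure.preimage continuous_subtype_val) (by
      rw [eq_univ_iff_forall]
      intro y
      obtain ⟨i, hi⟩ := mem_iUnion.1 (hF y.2)
      exact mem_iUnion.2 ⟨i, subset_closure hi⟩)
  obtain ⟨ε, hε, hball⟩ := Metric.mem_nhds_iff.1 (mem_interior_iff_mem_nhds.1 hx)
  obtain ⟨n, hn⟩ := exists_pow_lt_of_lt_one hε (by norm_num : (1 / 8 : ℝ) < 1)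
  obtain ⟨v, hv, z, hz, hzx⟩ := exists_word h n x (hEK x.2)
  have hsub : E ∩ psw v '' KK ⊆ closure (F i) := by
    rintro y ⟨hyE, t, ht, rfl⟩
    have h2 : (⟨psw v t, hyE⟩ : E) ∈ Metric.ball x ε := by
      rw [Metric.mem_ball, Subtype.dist_eq]
      change dist (psw v t) (x : E2) < ε
      rw [← hzx, dist_psw, hv]
      calc (1 / 8 : ℝ) ^ n * dist t z ≤ (1 / 8 : ℝ) ^ n * 1 :=
            mul_le_mul_of_nonneg_left (dist_KK h ht hz) (by positivity)
        _ < ε := by rwa [mul_one]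
    exact hball h2
  have htop : prePack (1 / 3) (F i) = ⊤ := by
    rw [prePack]
    simp only [iInf_eq_top]
    intro δ hδ
    obtain ⟨m, hm⟩ := exists_pow_lt_of_lt_one hδ (by norm_num : (1 / 8 : ℝ) < 1)
    have hk : ∀ k : ℕ, 2⁻¹ * (k : ℝ≥0∞) ≤ packSup (1 / 3) δ (F i) := by
      intro k
      obtain ⟨A, hA, hA1, hA2⟩ := hant v ⟨x, x.2, z, hz, hzx⟩ m k
      refine le_trans (mul_le_mul_right hA2 _) (h1 (F i) m A hA ?_ δ hm.le)
      intro w hw
      obtain ⟨hw1, hw2, y, hyE, t, ht, hty⟩ := hA1 w hw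
      refine ⟨hw1, y, hsub ⟨hyE, ?_⟩, t, ht, hty⟩
      obtain ⟨u, rfl⟩ := hw2
      exact ⟨psw u t, psw_mem h u ht, by rw [← hty, psw_append]⟩
    refine ENNReal.eq_top_of_forall_nnreal_le fun r => ?_
    obtain ⟨k, hk1⟩ := exists_nat_ge (2 * r)
    refine le_trans ?_ (hk k)
    have h3 : ((2 * r : ℝ≥0) : ℝ≥0∞) ≤ (k : ℝ≥0∞) := by exact_mod_cast hk1
    calc (r : ℝ≥0∞) = 2⁻¹ * ((2 * r : ℝ≥0) : ℝ≥0∞) := by
          rw [ENNReal.coe_mul, ← mul_assoc, ENNReal.coe_ofNat,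
            ENNReal.inv_mul_cancel (by norm_num) (by norm_num), one_mul]
      _ ≤ _ := mul_le_mul_right h3 _
  rw [ENNReal.tsum_eq_top_of_eq_top]
  exact ⟨i, htop⟩

end Pool.Agent.Q61.PSPCK
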