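import Pool.Agent.Q61.Sob5

set_option autoImplicit false

open MeasureTheory Topology Filter Set
open scoped ContDiff

namespace Q61.QGrad

open Q61.Sob

variable {n : ℕ}

/-- `u ∈ L^∞(Ω)` (essentially bounded; measurability is part of `IsH10`) -/
def EssBdd (Ω : Set (En n)) (u : En n → ℝ) : Prop :=
  ∃ M : ℝ, ∀ᵐ x ∂(volume.restrict Ω), |u x| ≤ M

/-- `u ∈ H¹₀(Ω) ∩ L^∞(Ω)`, with weak gradient `G`, is a solution of
`-Δu = lam c u + μ |∇u|² + h` in the weak sense, tested with all `v ∈ H¹₀(Ω) ∩ L^∞(Ω)`. -/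
def IsSolution (Ω : Set (En n)) (lam : ℝ) (c μ h : En n → ℝ) (u : En n → ℝ) (G : En n → En n) : Prop :=
  IsH10 Ω u G ∧ EssBdd Ω u ∧ ∀ (v : En n → ℝ) (V : En n → En n), IsH10 Ω v V → EssBdd Ω v →
    ∫ x in Ω, inner ℝ (G x) (V x) =
      lam * (∫ x in Ω, c x * u x * v x) + (∫ x in Ω, μ x * ‖G x‖ ^ 2 * v x) + ∫ x in Ω, h x * v x

/-- `(P_lam)` has a solution `u ≤ 0` -/
def HasNonposSolution (Ω : Set (En n)) (c μ h : En n → ℝ) (lam : ℝ) : Prop :=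
  ∃ u G, IsSolution Ω lam c μ h u G ∧ ∀ᵐ x ∂(volume.restrict Ω), u x ≤ 0

/-- the threshold `λ̲ = inf {lam ≥ 0 : (P_lam) has a solution u ≤ 0}` -/
noncomputable def lamUnder (Ω : Set (En n)) (c μ h : En n → ℝ) : ℝ :=
  sInf {lam | 0 ≤ lam ∧ HasNonposSolution Ω c μ h lam}

/-- `φ` is a first eigenfunction: `φ ∈ H¹₀(Ω) ∩ C(Ω̄)`, `φ > 0` in `Ω`, `φ = 0` on `∂Ω`, and
`-Δφ = γ c φ` weakly in `Ω` for some real `γ`. -/
def IsFirstEigenfunction (Ω : Set (En n)) (c φ : En n → ℝ) : Prop :=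
  ContinuousOn φ (closure Ω) ∧ (∀ x ∈ Ω, 0 < φ x) ∧ (∀ x ∈ frontier Ω, φ x = 0) ∧
  ∃ (G : En n → En n) (γ : ℝ), IsH10 Ω φ G ∧ ∀ (v : En n → ℝ) (V : En n → En n), IsH10 Ω v V →
    ∫ x in Ω, inner ℝ (G x) (V x) = γ * ∫ x in Ω, c x * φ x * v x

/-- `u ≪ 0`: there is `ε > 0` with `-u ≥ ε φ₁` on `Ω̄`, for the first eigenfunction(s) `φ₁` -/
def StronglyNegative (Ω : Set (En n)) (c u : En n → ℝ) : Prop :=
  ∀ φ : En n → ℝ, IsFirstEigenfunction Ω c φ → ∃ ε : ℝ, 0 < ε ∧ ∀ x ∈ closure Ω, ε * φ x ≤ -u x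

end Q61.QGrad
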