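import Mathlib

set_option autoImplicit false

open MeasureTheory Topology Filter Set

/-! Radial inverse Laplacian `I` (weight `t^k`, i.e. dimension `k+1`) on functions of one variable. -/

namespace Q61.Rad

/-- weighted average `∫₀¹ θ^k f(θ s) dθ` -/
noncomputable def A (k : ℕ) (f : ℝ → ℝ) (s : ℝ) : ℝ := ∫ θ in (0:ℝ)..1, θ ^ k * f (θ * s)

/-- `I f (r) = ∫₀^r s (∫₀¹ θ^k f(θ s) dθ) ds = ∫₀^r s^{-k} ∫₀^s t^k f(t) dt ds` -/
noncomputable def I (k : ℕ) (f : ℝ → ℝ) (r : ℝ) : ℝ := ∫ s in (0:ℝ)..r, s * A k f s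

variable {k : ℕ} {f g : ℝ → ℝ}

theorem A_integrable (k : ℕ) (hf : Continuous f) (s : ℝ) (a b : ℝ) :
    IntervalIntegrable (fun θ => θ ^ k * f (θ * s)) volume a b :=
  (by fun_prop : Continuous fun θ => θ ^ k * f (θ * s)).intervalIntegrable _ _

theorem A_cont (k : ℕ) (hf : Continuous f) : Continuous (A k f) := by
  unfold A
  apply intervalIntegral.continuous_parametric_intervalIntegral_of_continuous'
  show Continuous fun p : ℝ × ℝ => p.2 ^ k * f (p.2 * p.1)
  fun_prop

theorem I_hasDeriv (k : ℕ) (hf : Continuous f) (r : ℝ) : HasDerivAt (I k f) (r * A k f r) r := by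
  have hc : Continuous fun s => s * A k f s := continuous_id.mul (A_cont k hf)
  exact intervalIntegral.integral_hasDerivAt_right (hc.intervalIntegrable _ _)
    hc.stronglyMeasurable.stronglyMeasurableAtFilter hc.continuousAt

theorem I_cont (k : ℕ) (hf : Continuous f) : Continuous (I k f) :=
  continuous_iff_continuousAt.2 fun r => (I_hasDeriv k hf r).continuousAt

theorem I_zero (k : ℕ) (f : ℝ → ℝ) : I k f 0 = 0 := intervalIntegral.integral_same

theorem A_zero (k : ℕ) (f : ℝ → ℝ) : A k f 0 = f 0 / (k + 1) := by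
  unfold A
  simp only [mul_zero]
  rw [intervalIntegral.integral_mul_const, integral_pow]
  simp
  ring

theorem A_pow (k : ℕ) (f : ℝ → ℝ) (s : ℝ) : s ^ (k + 1) * A k f s = ∫ t in (0:ℝ)..s, t ^ k * f t := by
  rcases eq_or_ne s 0 with rfl | hs
  · simp
  unfold A
  have h := intervalIntegral.integral_comp_mul_right (a := 0) (b := 1) (fun t => t ^ k * f t) hs
  simp only [zero_mul, one_mul, smul_eq_mul] at h
  have h2 : ∫ x in (0:ℝ)..1, (x * s) ^ k * f (x * s) = s ^ k * ∫ x in (0:ℝ)..1, x ^ k * f (x * s) := by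
    rw [← intervalIntegral.integral_const_mul]
    congr 1
    funext x
    ring
  rw [h2] at h
  have h3 : (∫ t in (0:ℝ)..s, t ^ k * f t) = s * (s⁻¹ * ∫ t in (0:ℝ)..s, t ^ k * f t) := by
    field_simp
  rw [h3, ← h]
  ring

theorem pow_A_hasDeriv (k : ℕ) (hf : Continuous f) (s : ℝ) :
    HasDerivAt (fun s => s ^ (k + 1) * A k f s) (s ^ k * f s) s := by
  have h1 : (fun s => s ^ (k + 1) * A k f s) = fun s => ∫ t in (0:ℝ)..s, t ^ k * f t := funext (A_pow k f)
  rw [h1]
  have hc : Continuous fun t => t ^ k * f t := by fun_prop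
  exact intervalIntegral.integral_hasDerivAt_right (hc.intervalIntegrable _ _)
    hc.stronglyMeasurable.stronglyMeasurableAtFilter hc.continuousAt

theorem A_even (k : ℕ) (he : ∀ t, f (-t) = f t) (s : ℝ) : A k f (-s) = A k f s := by
  unfold A
  congr 1
  funext θ
  rw [mul_neg, he]

theorem I_even (k : ℕ) (he : ∀ t, f (-t) = f t) (r : ℝ) : I k f (-r) = I k f r := by
  unfold I
  have h := intervalIntegral.integral_comp_neg (a := 0) (b := r) (fun s => s * A k f s)
  rw [neg_zero] at h
  rw [intervalIntegral.integral_symm, ← h, ← intervalIntegral.integral_neg]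
  congr 1
  funext s
  rw [A_even k he]
  ring

theorem A_add (k : ℕ) (hf : Continuous f) (hg : Continuous g) (s : ℝ) :
    A k (fun t => f t + g t) s = A k f s + A k g s := by
  unfold A
  rw [← intervalIntegral.integral_add (A_integrable k hf s 0 1) (A_integrable k hg s 0 1)]
  congr 1; funext θ; ring

theorem A_sub (k : ℕ) (hf : Continuous f) (hg : Continuous g) (s : ℝ) :
    A k (fun t => f t - g t) s = A k f s - A k g s := by
  unfold A
  rw [← intervalIntegral.integral_sub (A_integrable k hf s 0 1) (A_integrable k hg s 0 1)]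
  congr 1; funext θ; ring

theorem A_const_mul (k : ℕ) (c : ℝ) (f : ℝ → ℝ) (s : ℝ) : A k (fun t => c * f t) s = c * A k f s := by
  unfold A
  rw [← intervalIntegral.integral_const_mul]
  congr 1; funext θ; ring

theorem I_integrable (k : ℕ) (hf : Continuous f) (a b : ℝ) :
    IntervalIntegrable (fun s => s * A k f s) volume a b :=
  (continuous_id.mul (A_cont k hf)).intervalIntegrable _ _

theorem I_add (k : ℕ) (hf : Continuous f) (hg : Continuous g) (r : ℝ) :
    I k (fun t => f t + g t) r = I k f r + I k g r := by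
  unfold I
  rw [← intervalIntegral.integral_add (I_integrable k hf 0 r) (I_integrable k hg 0 r)]
  congr 1; funext s; rw [A_add k hf hg]; ring

theorem I_sub (k : ℕ) (hf : Continuous f) (hg : Continuous g) (r : ℝ) :
    I k (fun t => f t - g t) r = I k f r - I k g r := by
  unfold I
  rw [← intervalIntegral.integral_sub (I_integrable k hf 0 r) (I_integrable k hg 0 r)]
  congr 1; funext s; rw [A_sub k hf hg]; ring

theorem I_const_mul (k : ℕ) (c : ℝ) (f : ℝ → ℝ) (r : ℝ) : I k (fun t => c * f t) r = c * I k f r := by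
  unfold I
  rw [← intervalIntegral.integral_const_mul]
  congr 1; funext s; rw [A_const_mul]; ring

theorem I_neg (k : ℕ) (f : ℝ → ℝ) (r : ℝ) : I k (fun t => -f t) r = -I k f r := by
  have := I_const_mul k (-1) f r
  simpa using this

theorem A_mono (k : ℕ) (hf : Continuous f) (hg : Continuous g) {s : ℝ} (hs : 0 ≤ s)
    (h : ∀ t, 0 ≤ t → t ≤ s → f t ≤ g t) : A k f s ≤ A k g s := by
  unfold A
  apply intervalIntegral.integral_mono_on zero_le_one (A_integrable k hf s 0 1) (A_integrable k hg s 0 1)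
  intro θ hθ
  apply mul_le_mul_of_nonneg_left _ (pow_nonneg hθ.1 _)
  exact h _ (mul_nonneg hθ.1 hs) (mul_le_of_le_one_left hs hθ.2)

theorem I_mono (k : ℕ) (hf : Continuous f) (hg : Continuous g) {r : ℝ} (hr : 0 ≤ r)
    (h : ∀ t, 0 ≤ t → t ≤ r → f t ≤ g t) : I k f r ≤ I k g r := by
  unfold I
  apply intervalIntegral.integral_mono_on hr (I_integrable k hf 0 r) (I_integrable k hg 0 r)
  intro s hs
  apply mul_le_mul_of_nonneg_left _ hs.1
  exact A_mono k hf hg hs.1 fun t h0 h1 => h t h0 (h1.trans hs.2)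

theorem A_const (k : ℕ) (c s : ℝ) : A k (fun _ => c) s = c / (k + 1) := by
  unfold A
  rw [intervalIntegral.integral_mul_const, integral_pow]
  simp
  ring

theorem A_monomial (k j : ℕ) (c s : ℝ) : A k (fun t => c * t ^ j) s = c * s ^ j / (k + j + 1) := by
  unfold A
  have : ∀ θ : ℝ, θ ^ k * (c * (θ * s) ^ j) = (c * s ^ j) * θ ^ (k + j) := fun θ => by
    rw [mul_pow, pow_add]; ring
  simp_rw [this]
  rw [intervalIntegral.integral_const_mul, integral_pow]
  push_cast
  simp
  ring

theorem I_monomial (k j : ℕ) (c r : ℝ) :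
    I k (fun t => c * t ^ j) r = c * r ^ (j + 2) / ((k + j + 1) * (j + 2)) := by
  unfold I
  have : ∀ s : ℝ, s * A k (fun t => c * t ^ j) s = (c / (k + j + 1)) * s ^ (j + 1) := fun s => by
    rw [A_monomial, pow_succ]; ring
  simp_rw [this]
  rw [intervalIntegral.integral_const_mul, integral_pow]
  push_cast
  have h1 : ((k:ℝ) + j + 1) ≠ 0 := by positivity
  have h2 : ((j:ℝ) + 2) ≠ 0 := by positivity
  rw [zero_pow (by omega)]
  field_simp
  ring

theorem I_const (k : ℕ) (c r : ℝ) : I k (fun _ => c) r = c * r ^ 2 / ((k + 1) * 2) := by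
  have := I_monomial k 0 c r
  simpa using this

theorem A_nonneg (k : ℕ) (hf : Continuous f) {s : ℝ} (hs : 0 ≤ s) (h : ∀ t, 0 ≤ t → t ≤ s → 0 ≤ f t) :
    0 ≤ A k f s := by
  have := A_mono k continuous_const hf hs h
  rwa [A_const, zero_div] at this

theorem I_nonneg (k : ℕ) (hf : Continuous f) {r : ℝ} (hr : 0 ≤ r) (h : ∀ t, 0 ≤ t → t ≤ r → 0 ≤ f t) :
    0 ≤ I k f r := by
  have := I_mono k continuous_const hf hr h
  rwa [I_const, zero_mul, zero_div] at this

/-- crude bound of one step, for `|r| ≤ R` -/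
theorem I_bound (k : ℕ) (hf : Continuous f) {R C : ℝ} (hC : 0 ≤ C) {j : ℕ}
    (h : ∀ t, |t| ≤ R → |f t| ≤ C * |t| ^ (2 * j)) :
    ∀ r, |r| ≤ R → |I k f r| ≤ C / (k + 2 * j + 1) * |r| ^ (2 * (j + 1)) := by
  have hA : ∀ s, |s| ≤ R → |A k f s| ≤ C * |s| ^ (2 * j) / (k + 2 * j + 1) := by
    intro s hs
    have h1 : |A k f s| ≤ ∫ θ in (0:ℝ)..1, θ ^ k * (C * |θ * s| ^ (2 * j)) := by
      unfold A
      rw [← Real.norm_eq_abs]
      apply intervalIntegral.norm_integral_le_of_norm_le zero_le_one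
      · refine ae_of_all _ fun θ hθ => ?_
        rw [norm_mul, Real.norm_of_nonneg (pow_nonneg hθ.1.le _)]
        apply mul_le_mul_of_nonneg_left _ (pow_nonneg hθ.1.le _)
        apply h
        rw [abs_mul, abs_of_nonneg hθ.1.le]
        exact (mul_le_of_le_one_left (abs_nonneg _) hθ.2).trans hs
      · exact (by fun_prop : Continuous fun θ : ℝ => θ ^ k * (C * |θ * s| ^ (2 * j))).intervalIntegrable _ _
    have h2 : ∀ θ : ℝ, θ ^ k * (C * |θ * s| ^ (2 * j)) = θ ^ k * ((C * |s| ^ (2 * j)) * θ ^ (2 * j)) := by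
      intro θ
      rw [abs_mul, mul_pow]
      rw [pow_mul |θ| 2 j, sq_abs, ← pow_mul]
      ring
    simp_rw [h2] at h1
    have h3 := A_monomial k (2 * j) (C * |s| ^ (2 * j)) 1
    unfold A at h3
    simp only [mul_one, one_pow] at h3
    rw [h3] at h1
    push_cast at h1
    exact h1
  intro r hr
  have hd : (0:ℝ) < k + 2 * j + 1 := by positivity
  have key : ∀ s ∈ uIoc 0 r, ‖s * A k f s‖ ≤ |r| * (C * |r| ^ (2 * j) / (k + 2 * j + 1)) := by
    intro s hs
    have hsr : |s| ≤ |r| := by
      rcases le_total 0 r with h0 | h0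
      · rw [uIoc_of_le h0] at hs
        rw [abs_of_nonneg hs.1.le, abs_of_nonneg h0]; exact hs.2
      · rw [uIoc_of_ge h0] at hs
        rw [abs_of_nonpos hs.2, abs_of_nonpos h0]; linarith [hs.1]
    rw [norm_mul, Real.norm_eq_abs, Real.norm_eq_abs]
    apply mul_le_mul hsr _ (abs_nonneg _) (abs_nonneg _)
    refine (hA s (hsr.trans hr)).trans ?_
    gcongr
  have := intervalIntegral.norm_integral_le_of_norm_le_const key
  unfold I
  rw [Real.norm_eq_abs, sub_zero] at this
  refine this.trans (le_of_eq ?_)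
  rw [show 2 * (j + 1) = 2 * j + 1 + 1 by ring, pow_succ, pow_succ]
  ring

/-- iterated operator -/
theorem iter_cont (k : ℕ) (hf : Continuous f) (m : ℕ) : Continuous ((I k)^[m] f) := by
  induction m with
  | zero => exact hf
  | succ m ih => rw [Function.iterate_succ_apply']; exact I_cont k ih

theorem iter_sub (k : ℕ) (hf : Continuous f) (hg : Continuous g) (m : ℕ) (r : ℝ) :
    (I k)^[m] (fun t => f t - g t) r = (I k)^[m] f r - (I k)^[m] g r := by
  induction m generalizing r with
  | zero => rfl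
  | succ m ih =>
    rw [Function.iterate_succ_apply', Function.iterate_succ_apply', Function.iterate_succ_apply']
    rw [show (I k)^[m] (fun t => f t - g t) = fun r => (I k)^[m] f r - (I k)^[m] g r from funext ih]
    exact I_sub k (iter_cont k hf m) (iter_cont k hg m) r

theorem iter_bound (k : ℕ) (hf : Continuous f) {R C : ℝ} (hC : 0 ≤ C) {j m : ℕ}
    (h : ∀ t, |t| ≤ R → |f t| ≤ C * |t| ^ (2 * j)) :
    ∀ r, |r| ≤ R → |(I k)^[m + 1] f r| ≤ C / (j + 1) * |r| ^ (2 * (j + (m + 1))) := by
  induction m with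
  | zero =>
    intro r hr
    refine (I_bound k hf hC h r hr).trans ?_
    rw [show j + (0 + 1) = j + 1 by ring]
    apply mul_le_mul_of_nonneg_right _ (by positivity)
    apply div_le_div_of_nonneg_left hC (by positivity)
    have : (0:ℝ) ≤ k := by positivity
    have : (0:ℝ) ≤ j := by positivity
    linarith
  | succ m ih =>
    intro r hr
    rw [Function.iterate_succ_apply']
    have hC' : 0 ≤ C / ((j:ℝ) + 1) := by positivity
    have h1 := I_bound k (iter_cont k hf (m + 1)) (R := R) (C := C / (j + 1)) (j := j + (m + 1)) hC' ih r hr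
    refine h1.trans ?_
    rw [show j + (m + 1) + 1 = j + (m + 1 + 1) by ring]
    apply mul_le_mul_of_nonneg_right _ (by positivity)
    apply div_le_self hC'
    have : (0:ℝ) ≤ k := by positivity
    have : (0:ℝ) ≤ ((j + (m + 1) : ℕ) : ℝ) := by positivity
    linarith

theorem iter_mono (k : ℕ) (hf : Continuous f) (hg : Continuous g) {r : ℝ} (m : ℕ)
    (h : ∀ t, 0 ≤ t → t ≤ r → f t ≤ g t) : ∀ t, 0 ≤ t → t ≤ r → (I k)^[m] f t ≤ (I k)^[m] g t := by
  induction m with
  | zero => exact h
  | succ m ih =>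
    intro t h0 h1
    rw [Function.iterate_succ_apply', Function.iterate_succ_apply']
    exact I_mono k (iter_cont k hf m) (iter_cont k hg m) h0 fun s a b => ih s a (b.trans h1)

theorem iter_nonneg (k : ℕ) (hf : Continuous f) {r : ℝ} (m : ℕ)
    (h : ∀ t, 0 ≤ t → t ≤ r → 0 ≤ f t) : ∀ t, 0 ≤ t → t ≤ r → 0 ≤ (I k)^[m] f t := by
  induction m with
  | zero => exact h
  | succ m ih =>
    intro t h0 h1
    rw [Function.iterate_succ_apply']
    exact I_nonneg k (iter_cont k hf m) h0 fun s a b => ih s a (b.trans h1)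

theorem iter_even (k : ℕ) (he : ∀ t, f (-t) = f t) (m : ℕ) : ∀ t, (I k)^[m] f (-t) = (I k)^[m] f t := by
  induction m with
  | zero => exact he
  | succ m ih => intro t; rw [Function.iterate_succ_apply']; exact I_even k ih t

end Q61.Rad
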