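import Pool.Agent.Q61.Rad1

set_option autoImplicit false

open MeasureTheory Topology Filter Set
open scoped ContDiff

namespace Q61.Rad

variable {k : ℕ} {f g : ℝ → ℝ}

theorem A_hasDeriv (k : ℕ) (hf : ContDiff ℝ 1 f) (s : ℝ) : HasDerivAt (A k f) (A (k + 1) (deriv f) s) s := by
  have hf' : Continuous (deriv f) := hf.continuous_deriv le_rfl
  have hc : Continuous f := hf.continuous
  obtain ⟨C, hC⟩ := (isCompact_Icc (a := -(|s| + 1)) (b := |s| + 1)).exists_bound_of_continuousOn hf'.continuousOn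
  have h := intervalIntegral.hasDerivAt_integral_of_dominated_loc_of_deriv_le (μ := volume) (a := 0) (b := 1)
    (F := fun x θ => θ ^ k * f (θ * x)) (F' := fun x θ => θ ^ (k + 1) * deriv f (θ * x)) (x₀ := s)
    (s := Metric.ball s 1) (bound := fun _ => C) (Metric.ball_mem_nhds s one_pos) ?_ ?_ ?_ ?_ ?_ ?_
  · exact h.2
  · refine Eventually.of_forall fun x => ?_
    exact (by fun_prop : Continuous fun θ => θ ^ k * f (θ * x)).aestronglyMeasurable
  · exact A_integrable k hc s 0 1
  · exact (by fun_prop : Continuous fun θ => θ ^ (k + 1) * deriv f (θ * s)).aestronglyMeasurable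
  · refine ae_of_all _ fun θ hθ x hx => ?_
    rw [uIoc_of_le zero_le_one] at hθ
    rw [Metric.mem_ball, Real.dist_eq] at hx
    have hx2 : |x| ≤ |s| + 1 := by
      have := abs_sub_abs_le_abs_sub x s
      linarith
    have h1 : |θ * x| ≤ |s| + 1 := by
      rw [abs_mul, abs_of_nonneg hθ.1.le]
      exact (mul_le_of_le_one_left (abs_nonneg _) hθ.2).trans hx2
    have h2 := hC (θ * x) ⟨by linarith [neg_abs_le (θ * x)], by linarith [le_abs_self (θ * x)]⟩
    rw [norm_mul, Real.norm_of_nonneg (pow_nonneg hθ.1.le _)]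
    exact (mul_le_of_le_one_left (norm_nonneg _) (pow_le_one₀ hθ.1.le hθ.2)).trans h2
  · exact intervalIntegrable_const
  · refine ae_of_all _ fun θ _ x _ => ?_
    have h1 : HasDerivAt f (deriv f (θ * x)) (θ * x) := (hf.differentiable (by norm_num) _).hasDerivAt
    have h2 : HasDerivAt (fun x => θ * x) θ x := by simpa using (hasDerivAt_id x).const_mul θ
    have h3 := (h1.comp x h2).const_mul (θ ^ k)
    refine h3.congr_deriv ?_
    rw [pow_succ]; ring

theorem A_contDiff (n : ℕ) : ∀ (k : ℕ) {f : ℝ → ℝ}, ContDiff ℝ n f → ContDiff ℝ n (A k f) := by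
  induction n with
  | zero =>
    intro k f hf
    have hf' : Continuous f := hf.continuous
    exact contDiff_zero.2 (A_cont k hf')
  | succ n ih =>
    intro k f hf
    have h1 : ContDiff ℝ 1 f := hf.of_le (by exact_mod_cast Nat.le_add_left 1 n)
    have hd : Differentiable ℝ (A k f) := fun s => (A_hasDeriv k h1 s).differentiableAt
    have hder : deriv (A k f) = A (k + 1) (deriv f) := funext fun s => (A_hasDeriv k h1 s).deriv
    have hn : ((n + 1 : ℕ) : WithTop ℕ∞) = (n : WithTop ℕ∞) + 1 := by norm_cast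
    rw [hn, contDiff_succ_iff_deriv]
    refine ⟨hd, by simp, ?_⟩
    rw [hder]
    apply ih
    rw [hn, contDiff_succ_iff_deriv] at hf
    exact hf.2.2

theorem I_deriv (k : ℕ) (hf : Continuous f) : deriv (I k f) = fun r => r * A k f r :=
  funext fun r => (I_hasDeriv k hf r).deriv

theorem I_contDiff (n k : ℕ) (hf : ContDiff ℝ n f) : ContDiff ℝ (n + 1 : ℕ) (I k f) := by
  have hn : ((n + 1 : ℕ) : WithTop ℕ∞) = (n : WithTop ℕ∞) + 1 := by norm_cast
  rw [hn, contDiff_succ_iff_deriv]
  refine ⟨fun r => (I_hasDeriv k hf.continuous r).differentiableAt, by simp, ?_⟩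
  rw [I_deriv k hf.continuous]
  exact contDiff_id.mul (A_contDiff n k hf)

theorem iter_contDiff (n k m : ℕ) (hf : ContDiff ℝ n f) : ContDiff ℝ (n + m : ℕ) ((I k)^[m] f) := by
  induction m with
  | zero => exact hf
  | succ m ih => rw [Function.iterate_succ_apply']; exact I_contDiff (n + m) k ih

/-- bootstrap: a continuous solution of `u = p + I^m[G∘u]`, `p`, `G` smooth, is smooth -/
theorem bootstrap (k m : ℕ) (hm : 1 ≤ m) {u p : ℝ → ℝ} {G : ℝ → ℝ} (hp : ContDiff ℝ ∞ p) (hG : ContDiff ℝ ∞ G)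
    (hu : Continuous u) (heq : ∀ r, u r = p r + (I k)^[m] (fun t => G (u t)) r) : ContDiff ℝ ∞ u := by
  have key : ∀ n : ℕ, ContDiff ℝ n u := by
    intro n
    induction n with
    | zero => exact contDiff_zero.2 hu
    | succ n ih =>
      have h1 : ContDiff ℝ n (fun t => G (u t)) := (hG.of_le (by exact_mod_cast le_top)).comp ih
      have h2 := iter_contDiff n k m h1
      have h3 : u = fun r => p r + (I k)^[m] (fun t => G (u t)) r := funext heq
      rw [h3]
      exact (hp.of_le (by exact_mod_cast le_top)).add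
        (h2.of_le (by exact_mod_cast Nat.add_le_add_left hm n))
  exact contDiff_infty.2 key

/-- Volterra uniqueness -/
theorem volterra_unique (k m : ℕ) {w h : ℝ → ℝ} (hh : Continuous h) (hw : Continuous w) {R K : ℝ} (hR : 0 ≤ R)
    (hK : 0 ≤ K) (heq : ∀ r, |r| ≤ R → w r = (I k)^[m + 1] h r) (hb : ∀ t, |t| ≤ R → |h t| ≤ K * |w t|) :
    ∀ r, |r| ≤ R → w r = 0 := by
  obtain ⟨D, hD⟩ := (isCompact_Icc (a := -R) (b := R)).exists_bound_of_continuousOn hw.continuousOn
  have hD' : ∀ t, |t| ≤ R → |w t| ≤ D := fun t ht => hD t ⟨by linarith [neg_abs_le t], by linarith [le_abs_self t]⟩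
  have hD0 : 0 ≤ D := (abs_nonneg _).trans (hD' 0 (by simpa using hR))
  have key : ∀ n : ℕ, ∀ r, |r| ≤ R → |w r| ≤ D * K ^ n / n.factorial * |r| ^ (2 * ((m + 1) * n)) := by
    intro n
    induction n with
    | zero => intro r hr; simpa using hD' r hr
    | succ n ih =>
      intro r hr
      have h1 : ∀ t, |t| ≤ R → |h t| ≤ K * (D * K ^ n / n.factorial) * |t| ^ (2 * ((m + 1) * n)) := by
        intro t ht
        refine (hb t ht).trans ?_
        rw [mul_assoc]
        exact mul_le_mul_of_nonneg_left (ih t ht) hK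
      have h2 := iter_bound k hh (m := m) (by positivity) h1 r hr
      rw [← heq r hr] at h2
      refine h2.trans ?_
      rw [show (m + 1) * n + (m + 1) = (m + 1) * (n + 1) by ring]
      apply mul_le_mul_of_nonneg_right _ (by positivity)
      have hfac : ((n + 1).factorial : ℝ) = ((n + 1 : ℕ) : ℝ) * n.factorial := by
        rw [Nat.factorial_succ]; push_cast; ring
      rw [hfac, pow_succ]
      have h3 : (0:ℝ) < n.factorial := by exact_mod_cast n.factorial_pos
      rw [mul_div_assoc', div_div, div_le_div_iff₀ (by positivity) (by positivity)]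
      have h4 : ((n + 1 : ℕ) : ℝ) ≤ ((m + 1) * n : ℕ) + 1 := by
        push_cast
        have : (0:ℝ) ≤ m := by positivity
        have : (0:ℝ) ≤ n := by positivity
        nlinarith
      have h5 : 0 ≤ D * K ^ n * K * n.factorial := by positivity
      calc K * (D * K ^ n) * (((n + 1 : ℕ) : ℝ) * n.factorial) = (D * K ^ n * K * n.factorial) * ((n + 1 : ℕ) : ℝ) := by ring
        _ ≤ (D * K ^ n * K * n.factorial) * (((m + 1) * n : ℕ) + 1) := mul_le_mul_of_nonneg_left h4 h5
        _ = D * (K ^ n * K) * (n.factorial * (((m + 1) * n : ℕ) + 1)) := by ring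
  intro r hr
  have hlim : Tendsto (fun n : ℕ => D * ((K * |r| ^ (2 * (m + 1))) ^ n / n.factorial)) atTop (𝓝 (D * 0)) :=
    (FloorSemiring.tendsto_pow_div_factorial_atTop _).const_mul D
  rw [mul_zero] at hlim
  have h0 : |w r| ≤ 0 := by
    refine ge_of_tendsto' hlim fun n => ?_
    refine (key n r hr).trans (le_of_eq ?_)
    rw [show 2 * ((m + 1) * n) = 2 * (m + 1) * n by ring, pow_mul |r| (2 * (m + 1)) n, mul_pow]
    ring
  exact abs_nonpos_iff.1 h0

end Q61.Rad
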