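import Pool.Agent.Q61.Rad2

set_option autoImplicit false

open MeasureTheory Topology Filter Set
open scoped ContDiff

namespace Q61.Rad

/-- Picard iterates -/
noncomputable def pic (k m : ℕ) (p : ℝ → ℝ) (g : ℝ → ℝ → ℝ) : ℕ → ℝ → ℝ
  | 0 => p
  | n + 1 => fun r => p r + (I k)^[m + 1] (fun t => g t (pic k m p g n t)) r

variable {k m : ℕ} {p : ℝ → ℝ} {g : ℝ → ℝ → ℝ}

theorem pic_cont (hp : Continuous p) (hg : Continuous (Function.uncurry g)) (n : ℕ) :
    Continuous (pic k m p g n) := by
  induction n with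
  | zero => exact hp
  | succ n ih =>
    exact hp.add (iter_cont k (hg.comp (continuous_id.prodMk ih)) (m + 1))

theorem pic_diff (hp : Continuous p) (hg : Continuous (Function.uncurry g)) {R L D : ℝ} (hL0 : 0 ≤ L) (hD0 : 0 ≤ D)
    (hL : ∀ r, |r| ≤ R → ∀ u v, |g r u - g r v| ≤ L * |u - v|)
    (hD : ∀ r, |r| ≤ R → |pic k m p g 1 r - p r| ≤ D) (n : ℕ) :
    ∀ r, |r| ≤ R → |pic k m p g (n + 1) r - pic k m p g n r| ≤
      D * L ^ n / n.factorial * |r| ^ (2 * ((m + 1) * n)) := by
  induction n with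
  | zero => intro r hr; simpa [pic] using hD r hr
  | succ n ih =>
    intro r hr
    have hc : ∀ n, Continuous fun t => g t (pic k m p g n t) := fun n =>
      hg.comp (continuous_id.prodMk (pic_cont hp hg n))
    have h1 : ∀ t, |t| ≤ R → |g t (pic k m p g (n + 1) t) - g t (pic k m p g n t)| ≤
        L * (D * L ^ n / n.factorial) * |t| ^ (2 * ((m + 1) * n)) := by
      intro t ht
      refine (hL t ht _ _).trans ?_
      rw [mul_assoc]
      exact mul_le_mul_of_nonneg_left (ih t ht) hL0
    have h2 := iter_bound k ((hc (n + 1)).sub (hc n)) (m := m) (by positivity) h1 r hr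
    have h3 : pic k m p g (n + 1 + 1) r - pic k m p g (n + 1) r =
        (I k)^[m + 1] (fun t => g t (pic k m p g (n + 1) t) - g t (pic k m p g n t)) r := by
      rw [iter_sub k (hc (n + 1)) (hc n)]
      show (p r + (I k)^[m + 1] (fun t => g t (pic k m p g (n + 1) t)) r) -
        (p r + (I k)^[m + 1] (fun t => g t (pic k m p g n t)) r) = _
      ring
    rw [h3]
    refine h2.trans ?_
    rw [show (m + 1) * n + (m + 1) = (m + 1) * (n + 1) by ring]
    apply mul_le_mul_of_nonneg_right _ (by positivity)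
    have hfac : ((n + 1).factorial : ℝ) = ((n + 1 : ℕ) : ℝ) * n.factorial := by
      rw [Nat.factorial_succ]; push_cast; ring
    rw [hfac, pow_succ]
    have h3 : (0:ℝ) < n.factorial := by exact_mod_cast n.factorial_pos
    rw [mul_div_assoc', div_div, div_le_div_iff₀ (by positivity) (by positivity)]
    have h4 : ((n + 1 : ℕ) : ℝ) ≤ ((m + 1) * n : ℕ) + 1 := by
      push_cast
      have : (0:ℝ) ≤ m := by positivity
      have : (0:ℝ) ≤ n := by positivity
      nlinarith
    have h5 : 0 ≤ D * L ^ n * L * n.factorial := by positivity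
    calc L * (D * L ^ n) * (((n + 1 : ℕ) : ℝ) * n.factorial) = (D * L ^ n * L * n.factorial) * ((n + 1 : ℕ) : ℝ) := by ring
      _ ≤ (D * L ^ n * L * n.factorial) * (((m + 1) * n : ℕ) + 1) := mul_le_mul_of_nonneg_left h4 h5
      _ = D * (L ^ n * L) * (n.factorial * (((m + 1) * n : ℕ) + 1)) := by ring

theorem volterra_exists (k m : ℕ) (hp : Continuous p) (hg : Continuous (Function.uncurry g))
    (hL : ∀ R : ℝ, ∃ L, 0 ≤ L ∧ ∀ r, |r| ≤ R → ∀ u v, |g r u - g r v| ≤ L * |u - v|) :
    ∃ u : ℝ → ℝ, Continuous u ∧ ∀ r, u r = p r + (I k)^[m + 1] (fun t => g t (u t)) r := by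
  have hpc := fun n => pic_cont (k := k) (m := m) hp hg n
  set U := pic k m p g with hU
  set u : ℝ → ℝ := fun r => p r + ∑' n, (U (n + 1) r - U n r) with hu
  have hunif : ∀ R : ℝ, 0 ≤ R → TendstoUniformlyOn U u atTop (Icc (-R) R) := by
    intro R hR
    obtain ⟨L, hL0, hL1⟩ := hL R
    obtain ⟨D, hD⟩ := (isCompact_Icc (a := -R) (b := R)).exists_bound_of_continuousOn
      ((hpc 1).sub hp).continuousOn
    have hD' : ∀ r, |r| ≤ R → |U 1 r - p r| ≤ D := fun t ht =>
      hD t ⟨by linarith [neg_abs_le t], by linarith [le_abs_self t]⟩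
    have hD0 : 0 ≤ D := (abs_nonneg _).trans (hD' 0 (by simpa using hR))
    have hb : ∀ n, ∀ r ∈ Icc (-R) R, ‖U (n + 1) r - U n r‖ ≤ D * ((L * R ^ (2 * (m + 1))) ^ n / n.factorial) := by
      intro n r hr
      have hr' : |r| ≤ R := abs_le.2 hr
      refine (pic_diff hp hg hL0 hD0 hL1 hD' n r hr').trans ?_
      calc D * L ^ n / n.factorial * |r| ^ (2 * ((m + 1) * n)) ≤ D * L ^ n / n.factorial * R ^ (2 * ((m + 1) * n)) := by
            gcongr
        _ = _ := by
            rw [show 2 * ((m + 1) * n) = 2 * (m + 1) * n by ring, pow_mul R (2 * (m + 1)) n, mul_pow]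
            ring
    have hs : Summable fun n : ℕ => D * ((L * R ^ (2 * (m + 1))) ^ n / n.factorial) :=
      (Real.summable_pow_div_factorial _).mul_left D
    have h1 := tendstoUniformlyOn_tsum_nat hs hb
    rw [Metric.tendstoUniformlyOn_iff] at h1 ⊢
    intro ε hε
    filter_upwards [h1 ε hε] with n hn r hr
    have h2 := hn r hr
    have h3 : ∑ i ∈ Finset.range n, (U (i + 1) r - U i r) = U n r - U 0 r := Finset.sum_range_sub (fun i => U i r) n
    rw [h3] at h2
    rw [Real.dist_eq] at h2 ⊢
    have h4 : u r - U n r = ∑' n, (U (n + 1) r - U n r) - (U n r - U 0 r) := by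
      show p r + _ - U n r = _ - (U n r - p r)
      ring
    rw [h4]; exact h2
  have huc : Continuous u := by
    rw [continuous_iff_continuousAt]
    intro r
    have h1 := (hunif (|r| + 1) (by positivity)).continuousOn
      (Frequently.of_forall fun n => (hpc n).continuousOn)
    apply h1.continuousAt
    apply Icc_mem_nhds
    · linarith [neg_abs_le r]
    · linarith [le_abs_self r]
  refine ⟨u, huc, fun r => ?_⟩
  obtain ⟨L, hL0, hL1⟩ := hL |r|
  have hunr := hunif |r| (abs_nonneg r)
  have hr : r ∈ Icc (-|r|) |r| := ⟨neg_abs_le r, le_abs_self r⟩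
  have lim1 : Tendsto (fun n => U (n + 1) r) atTop (𝓝 (u r)) :=
    (hunr.tendsto_at hr).comp (tendsto_add_atTop_nat 1)
  have lim2 : Tendsto (fun n => U (n + 1) r) atTop (𝓝 (p r + (I k)^[m + 1] (fun t => g t (u t)) r)) := by
    rw [Metric.tendsto_atTop]
    intro ε hε
    rw [Metric.tendstoUniformlyOn_iff] at hunr
    set B : ℝ := L * |r| ^ (2 * (m + 1)) + 1 with hB
    have hBpos : 0 < B := by positivity
    obtain ⟨n₀, hn₀⟩ := (eventually_atTop.1 (hunr (ε / B) (by positivity)))
    refine ⟨n₀, fun n hn => ?_⟩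
    have hcn : Continuous fun t => g t (U n t) := hg.comp (continuous_id.prodMk (hpc n))
    have hcu : Continuous fun t => g t (u t) := hg.comp (continuous_id.prodMk huc)
    have h1 : ∀ t, |t| ≤ |r| → |g t (U n t) - g t (u t)| ≤ L * (ε / B) * |t| ^ (2 * 0) := by
      intro t ht
      refine (hL1 t ht _ _).trans ?_
      have h2 := hn₀ n hn t ⟨by linarith [neg_abs_le t], by linarith [le_abs_self t]⟩
      rw [Real.dist_eq, abs_sub_comm] at h2
      simp only [mul_zero, pow_zero, mul_one]
      exact mul_le_mul_of_nonneg_left h2.le hL0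
    have hcc : Continuous fun t => g t (U n t) - g t (u t) := hcn.sub hcu
    have h2 := iter_bound k hcc (m := m) (by positivity) h1 r le_rfl
    rw [iter_sub k hcn hcu] at h2
    have h3 : U (n + 1) r = p r + (I k)^[m + 1] (fun t => g t (U n t)) r := rfl
    rw [Real.dist_eq, h3]
    have h4 : p r + (I k)^[m + 1] (fun t => g t (U n t)) r - (p r + (I k)^[m + 1] (fun t => g t (u t)) r) =
        (I k)^[m + 1] (fun t => g t (U n t)) r - (I k)^[m + 1] (fun t => g t (u t)) r := by ring
    rw [h4]
    refine h2.trans_lt ?_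
    simp only [Nat.cast_zero, zero_add, div_one]
    have h5 : L * (ε / B) * |r| ^ (2 * (m + 1)) = (ε / B) * (B - 1) := by rw [hB]; ring
    rw [h5]
    have h6 : 0 < ε / B := by positivity
    have h7 : ε = (ε / B) * B := by field_simp
    nlinarith
  exact tendsto_nhds_unique lim1 lim2

end Q61.Rad
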