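import Pool.Agent.Q61.Rad3
import Pool.Agent.Q61.LapN

set_option autoImplicit false

open MeasureTheory InnerProductSpace Laplacian Topology Filter Set
open scoped ContDiff

namespace Q61.Rad

variable {k : ℕ} {f g : ℝ → ℝ}

section general
variable {E : Type*} [NormedAddCommGroup E] [InnerProductSpace ℝ E]

theorem hasFDerivAt_radial {w q : ℝ → ℝ} (hw : ∀ r, HasDerivAt w (r * q r) r) (x : E) :
    HasFDerivAt (fun x : E => w ‖x‖) (q ‖x‖ • innerSL ℝ x) x := by
  rcases eq_or_ne x 0 with rfl | hx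
  · have h0 := hw 0
    rw [zero_mul] at h0
    have h1 := h0.isLittleO
    have hlim : Tendsto (fun y : E => ‖y‖) (𝓝 0) (𝓝 0) := by
      have := (continuous_norm (E := E)).tendsto 0
      simpa using this
    have h2 := h1.comp_tendsto hlim
    apply HasFDerivAt.of_isLittleO
    have e1 : (fun y : E => w ‖y‖ - w ‖(0:E)‖ - (q ‖(0:E)‖ • innerSL ℝ (0:E)) (y - 0)) =
        (fun x' => w x' - w 0 - (ContinuousLinearMap.toSpanSingleton ℝ (0:ℝ)) (x' - 0)) ∘ fun y : E => ‖y‖ := by
      funext y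
      simp
    rw [e1]
    refine h2.trans_isBigO ?_
    refine Asymptotics.isBigO_of_le _ fun y => ?_
    simp
  · have h1 : HasFDerivAt (fun x : E => ‖x‖) (‖x‖⁻¹ • innerSL ℝ x) x := by
      have h2 := (hasStrictFDerivAt_norm_sq x).hasFDerivAt
      have h3 : HasDerivAt Real.sqrt (1 / (2 * Real.sqrt (‖x‖ ^ 2))) (‖x‖ ^ 2) :=
        Real.hasDerivAt_sqrt (by have := norm_pos_iff.2 hx; positivity)
      have h4 := h3.comp_hasFDerivAt x h2
      have e1 : (Real.sqrt ∘ fun y : E => ‖y‖ ^ 2) = fun y : E => ‖y‖ := by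
        funext y; simp [Real.sqrt_sq (norm_nonneg y)]
      rw [e1] at h4
      refine h4.congr_fderiv ?_
      rw [Real.sqrt_sq (norm_nonneg x)]
      ext v
      simp
      ring
    have h5 := (hw ‖x‖).comp_hasFDerivAt x h1
    refine h5.congr_fderiv ?_
    have := norm_pos_iff.2 hx
    ext v
    simp
    field_simp

theorem deriv_even_zero {f : ℝ → ℝ} (he : ∀ t, f (-t) = f t) : deriv f 0 = 0 := by
  have h1 : deriv (fun t => f (-t)) 0 = -deriv f (-0) := deriv_comp_neg f 0
  rw [show (fun t => f (-t)) = f from funext he, neg_zero] at h1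
  linarith

theorem deriv_form {f : ℝ → ℝ} (hf : ContDiff ℝ 2 f) (he : ∀ t, f (-t) = f t) (r : ℝ) :
    deriv f r = r * A 0 (deriv (deriv f)) r := by
  have h1 : ContDiff ℝ 1 (deriv f) := by
    have h2 : ((2 : ℕ∞) : WithTop ℕ∞) = 1 + 1 := by norm_num
    have h3 : ContDiff ℝ (1 + 1) f := by rw [← h2]; exact hf
    rw [contDiff_succ_iff_deriv] at h3
    exact h3.2.2
  have hc : Continuous (deriv (deriv f)) := h1.continuous_deriv le_rfl
  have h3 := A_pow 0 (deriv (deriv f)) r
  have h4 : ∫ t in (0:ℝ)..r, t ^ 0 * deriv (deriv f) t = deriv f r - deriv f 0 := by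
    simp only [pow_zero, one_mul]
    apply intervalIntegral.integral_deriv_eq_sub
    · intro x _; exact h1.differentiable (by norm_num) x
    · exact hc.intervalIntegrable _ _
  rw [h4, deriv_even_zero he] at h3
  simp at h3
  linarith

theorem deriv2_even {f : ℝ → ℝ} (he : ∀ t, f (-t) = f t) (t : ℝ) :
    deriv (deriv f) (-t) = deriv (deriv f) t := by
  have h1 : ∀ t, deriv f (-t) = -deriv f t := by
    intro t
    have h2 : deriv (fun t => f (-t)) t = -deriv f (-t) := deriv_comp_neg f t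
    rw [show (fun t => f (-t)) = f from funext he] at h2
    linarith
  have h3 : deriv (fun t => deriv f (-t)) t = -deriv (deriv f) (-t) := deriv_comp_neg (deriv f) t
  have h4 : (fun t => deriv f (-t)) = fun t => -deriv f t := funext h1
  rw [h4, deriv.fun_neg] at h3
  linarith

theorem A_smooth (k : ℕ) {f : ℝ → ℝ} (hf : ContDiff ℝ ∞ f) : ContDiff ℝ ∞ (A k f) :=
  contDiff_infty.2 fun n => A_contDiff n k (hf.of_le (by exact_mod_cast le_top))

theorem I_smooth (k : ℕ) {f : ℝ → ℝ} (hf : ContDiff ℝ ∞ f) : ContDiff ℝ ∞ (I k f) :=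
  contDiff_infty.2 fun n => (I_contDiff n k (hf.of_le (by exact_mod_cast le_top))).of_le
    (by exact_mod_cast Nat.le_succ n)

theorem radial_contDiff_nat (n : ℕ) : ∀ {f : ℝ → ℝ}, ContDiff ℝ ∞ f → (∀ t, f (-t) = f t) →
    ContDiff ℝ n (fun x : E => f ‖x‖) := by
  induction n with
  | zero => intro f hf _; exact contDiff_zero.2 (hf.continuous.comp continuous_norm)
  | succ n ih =>
    intro f hf he
    have hf2 : ContDiff ℝ ∞ (deriv (deriv f)) := Q61.contDiff_deriv (Q61.contDiff_deriv hf)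
    have hw : ∀ r, HasDerivAt f (r * A 0 (deriv (deriv f)) r) r := by
      intro r
      rw [← deriv_form (hf.of_le ENat.LEInfty.out) he r]
      exact (hf.differentiable (by norm_num) r).hasDerivAt
    have hfd : ∀ x : E, HasFDerivAt (fun x : E => f ‖x‖) (A 0 (deriv (deriv f)) ‖x‖ • innerSL ℝ x) x :=
      hasFDerivAt_radial hw
    have hn : ((n + 1 : ℕ) : WithTop ℕ∞) = (n : WithTop ℕ∞) + 1 := by norm_cast
    rw [hn, contDiff_succ_iff_fderiv]
    refine ⟨fun x => (hfd x).differentiableAt, by simp, ?_⟩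
    have he2 : fderiv ℝ (fun x : E => f ‖x‖) = fun x => A 0 (deriv (deriv f)) ‖x‖ • innerSL ℝ x :=
      funext fun x => (hfd x).fderiv
    rw [he2]
    exact ContDiff.smul (ih (A_smooth 0 hf2) (A_even 0 (deriv2_even he))) (innerSL ℝ (E := E)).contDiff

theorem radial_contDiff {f : ℝ → ℝ} (hf : ContDiff ℝ ∞ f) (he : ∀ t, f (-t) = f t) :
    ContDiff ℝ ∞ (fun x : E => f ‖x‖) := contDiff_infty.2 fun n => radial_contDiff_nat n hf he

end general

/-- `(k+1) A + s A' = f` -/
theorem A_ode (k : ℕ) (hf : ContDiff ℝ 1 f) (s : ℝ) :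
    (k + 1) * A k f s + s * deriv (A k f) s = f s := by
  rcases eq_or_ne s 0 with rfl | hs
  · rw [A_zero]
    have : ((k:ℝ) + 1) ≠ 0 := by positivity
    field_simp
    ring
  · have h1 := pow_A_hasDeriv k hf.continuous s
    have hA : HasDerivAt (A k f) (deriv (A k f) s) s := (A_hasDeriv k hf s).differentiableAt.hasDerivAt
    have h2 := (hasDerivAt_pow (k + 1) s).mul hA
    have h3 := h1.unique h2
    have h4 : s ^ k ≠ 0 := pow_ne_zero _ hs
    have h5 : s ^ k * ((k + 1) * A k f s + s * deriv (A k f) s) = s ^ k * f s := by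
      rw [h3]
      push_cast
      ring
    exact mul_left_cancel₀ h4 h5

/-- Laplacian of `w(|x|)` when `w' = r a(r)`, in dimension `k+1` -/
theorem lap_radial_gen (k : ℕ) {w a : ℝ → ℝ} (hA : ContDiff ℝ ∞ a) (hAe : ∀ t, a (-t) = a t)
    (hw : ∀ r, HasDerivAt w (r * a r) r) (x : EuclideanSpace ℝ (Fin (k + 1))) :
    (Δ (fun x : EuclideanSpace ℝ (Fin (k + 1)) => w ‖x‖)) x = (k + 1) * a ‖x‖ + ‖x‖ * deriv a ‖x‖ := by
  have hfd : ∀ x : EuclideanSpace ℝ (Fin (k + 1)), HasFDerivAt (fun x : EuclideanSpace ℝ (Fin (k + 1)) => w ‖x‖)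
      (a ‖x‖ • innerSL ℝ x) x := hasFDerivAt_radial hw
  have he2 : fderiv ℝ (fun x : EuclideanSpace ℝ (Fin (k + 1)) => w ‖x‖) = fun x => a ‖x‖ • innerSL ℝ x :=
    funext fun x => (hfd x).fderiv
  have hw2 : ∀ r, HasDerivAt a (r * A 0 (deriv (deriv a)) r) r := by
    intro r
    rw [← deriv_form (hA.of_le ENat.LEInfty.out) hAe r]
    exact (hA.differentiable (by norm_num) r).hasDerivAt
  have h1 := hasFDerivAt_radial hw2 x
  have h2 : HasFDerivAt (fun x : EuclideanSpace ℝ (Fin (k + 1)) => innerSL ℝ x) (innerSL ℝ) x :=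
    (innerSL ℝ (E := EuclideanSpace ℝ (Fin (k + 1)))).hasFDerivAt
  have h3 := h1.smul h2
  have h3' : fderiv ℝ (fun x : EuclideanSpace ℝ (Fin (k + 1)) => a ‖x‖ • innerSL ℝ x) x = _ := h3.fderiv
  rw [Q61.lapN_eq, he2, h3']
  have e1 : ∀ i : Fin (k + 1), inner ℝ x (Q61.ev i) = x i := fun i => Q61.inner_ev x i
  have e2 : ∀ i : Fin (k + 1), inner ℝ (Q61.ev i) (Q61.ev i) = (1:ℝ) := fun i => by
    rw [Q61.inner_ev]; simp [Q61.ev]
  trans ∑ i : Fin (k + 1), (a ‖x‖ + A 0 (deriv (deriv a)) ‖x‖ * (x i) ^ 2)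
  · apply Finset.sum_congr rfl
    intro i _
    change a ‖x‖ * inner ℝ (Q61.ev i) (Q61.ev i) +
      (A 0 (deriv (deriv a)) ‖x‖ * inner ℝ x (Q61.ev i)) * inner ℝ x (Q61.ev i) = _
    rw [e1, e2]
    ring
  rw [Finset.sum_add_distrib, ← Finset.mul_sum]
  have h5 : ∑ i, (x i) ^ 2 = ‖x‖ ^ 2 := by
    rw [EuclideanSpace.real_norm_sq_eq]
  rw [h5, deriv_form (hA.of_le ENat.LEInfty.out) hAe ‖x‖]
  simp only [Finset.sum_const, Finset.card_univ, Fintype.card_fin, nsmul_eq_mul]
  push_cast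
  ring

/-- Laplacian of `w(|x|)` when `w' = r A_k f`, in dimension `k+1` -/
theorem lap_radial (k : ℕ) {w f : ℝ → ℝ} (hf : ContDiff ℝ ∞ f) (he : ∀ t, f (-t) = f t)
    (hw : ∀ r, HasDerivAt w (r * A k f r) r) (x : EuclideanSpace ℝ (Fin (k + 1))) :
    (Δ (fun x : EuclideanSpace ℝ (Fin (k + 1)) => w ‖x‖)) x = f ‖x‖ := by
  rw [lap_radial_gen k (A_smooth k hf) (A_even k he) hw x]
  exact A_ode k (hf.of_le (by exact_mod_cast le_top)) ‖x‖

theorem eq_A {a q : ℝ → ℝ} (k : ℕ) (ha : ContDiff ℝ ∞ a) (hq : q = fun r => (k + 1) * a r + r * deriv a r) :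
    a = A k q := by
  have hda : ContDiff ℝ ∞ (deriv a) := Q61.contDiff_deriv ha
  have hqc : Continuous q := by
    rw [hq]
    exact (continuous_const.mul ha.continuous).add (continuous_id.mul hda.continuous)
  funext r
  rcases eq_or_ne r 0 with rfl | hr
  · rw [A_zero, hq]
    have : ((k:ℝ) + 1) ≠ 0 := by positivity
    field_simp
    ring
  · have h1 := A_pow k q r
    have h2 : ∀ t : ℝ, HasDerivAt (fun t => t ^ (k + 1) * a t) (t ^ k * q t) t := by
      intro t
      have h3 := (hasDerivAt_pow (k + 1) t).mul (ha.differentiable (by norm_num) t).hasDerivAt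
      refine h3.congr_deriv ?_
      rw [hq]
      push_cast
      ring
    have h3 : ∫ t in (0:ℝ)..r, t ^ k * q t = r ^ (k + 1) * a r - 0 ^ (k + 1) * a 0 :=
      intervalIntegral.integral_eq_sub_of_hasDerivAt (fun t _ => h2 t)
        ((by fun_prop : Continuous fun t => t ^ k * q t).intervalIntegrable _ _)
    rw [h3] at h1
    simp only [ne_eq, Nat.succ_ne_zero, not_false_eq_true, zero_pow, zero_mul, sub_zero] at h1
    have h4 : r ^ (k + 1) ≠ 0 := pow_ne_zero _ hr
    exact (mul_left_cancel₀ h4 h1).symm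

/-! ### radial functions on `ℝ^n` -/

/-- `u(x)` depends only on `|x|` -/
def IsRadial {n : ℕ} (u : EuclideanSpace ℝ (Fin n) → ℝ) : Prop := ∀ x y, ‖x‖ = ‖y‖ → u x = u y

/-- the profile `r ↦ u(r e₀)` -/
noncomputable def prof {n : ℕ} (u : EuclideanSpace ℝ (Fin (n + 1)) → ℝ) (r : ℝ) : ℝ :=
  u (EuclideanSpace.single 0 r)

section converse
variable {n : ℕ} {u : EuclideanSpace ℝ (Fin (n + 1)) → ℝ}

theorem IsRadial.eq_prof (h : IsRadial u) (x : EuclideanSpace ℝ (Fin (n + 1))) : u x = prof u ‖x‖ := by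
  apply h
  rw [PiLp.norm_single, norm_norm]

theorem IsRadial.prof_even (h : IsRadial u) (r : ℝ) : prof u (-r) = prof u r := by
  apply h
  rw [PiLp.norm_single, PiLp.norm_single, norm_neg]

theorem prof_smooth (hs : ContDiff ℝ ∞ u) : ContDiff ℝ ∞ (prof u) := by
  have h1 : (fun r : ℝ => (EuclideanSpace.single 0 r : EuclideanSpace ℝ (Fin (n + 1)))) =
      fun r : ℝ => r • EuclideanSpace.single 0 1 := by
    funext r; ext i; by_cases hi : i = 0 <;> simp [hi]
  have h2 : prof u = fun r => u (r • EuclideanSpace.single 0 1) := by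
    funext r
    show u ((fun r : ℝ => (EuclideanSpace.single 0 r : EuclideanSpace ℝ (Fin (n + 1)))) r) = _
    rw [h1]
  rw [h2]
  exact hs.comp (contDiff_id.smul contDiff_const)

theorem IsRadial.lap_data (h : IsRadial u) (hs : ContDiff ℝ ∞ u) :
    IsRadial (Δ u) ∧ ContDiff ℝ ∞ (Δ u) ∧ ∀ r, prof u r = prof u 0 + I n (prof (Δ u)) r := by
  have hp := prof_smooth hs
  have hpe := h.prof_even
  have hp2 : ContDiff ℝ ∞ (deriv (deriv (prof u))) := Q61.contDiff_deriv (Q61.contDiff_deriv hp)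
  have hform : ∀ r, HasDerivAt (prof u) (r * A 0 (deriv (deriv (prof u))) r) r := by
    intro r
    rw [← deriv_form (hp.of_le ENat.LEInfty.out) hpe r]
    exact (hp.differentiable (by norm_num) r).hasDerivAt
  set a := A 0 (deriv (deriv (prof u))) with ha
  have has : ContDiff ℝ ∞ a := A_smooth 0 hp2
  have hae : ∀ t, a (-t) = a t := A_even 0 (deriv2_even hpe)
  have hue : u = fun x => prof u ‖x‖ := funext h.eq_prof
  set q : ℝ → ℝ := fun r => (n + 1) * a r + r * deriv a r with hq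
  have hqs : ContDiff ℝ ∞ q := (contDiff_const.mul has).add (contDiff_id.mul (Q61.contDiff_deriv has))
  have hqe : ∀ t, q (-t) = q t := by
    intro t
    have h2 : deriv (fun t => a (-t)) t = -deriv a (-t) := deriv_comp_neg a t
    rw [show (fun t => a (-t)) = a from funext hae] at h2
    show (n + 1) * a (-t) + -t * deriv a (-t) = (n + 1) * a t + t * deriv a t
    rw [hae, h2]; ring
  have hlap : ∀ x, (Δ u) x = q ‖x‖ := by
    intro x
    have h3 := lap_radial_gen n has hae hform x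
    rw [← hue] at h3
    exact h3
  have hlap' : Δ u = fun x => q ‖x‖ := funext hlap
  have hprofq : prof (Δ u) = q := by
    funext r
    show (Δ u) (EuclideanSpace.single 0 r) = q r
    rw [hlap, PiLp.norm_single, Real.norm_eq_abs]
    rcases abs_choice r with h0 | h0 <;> rw [h0]
    exact hqe r
  refine ⟨fun x y hxy => by rw [hlap, hlap, hxy], ?_, ?_⟩
  · rw [hlap']; exact radial_contDiff hqs hqe
  · intro r
    rw [hprofq]
    have hA : a = A n q := eq_A n has hq
    have h1 : ∀ r, HasDerivAt (fun r => prof u r - I n q r) 0 r := by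
      intro r
      have := (hform r).sub (I_hasDeriv n hqs.continuous r)
      refine this.congr_deriv ?_
      rw [← hA]; ring
    have h2 := is_const_of_deriv_eq_zero (fun r => (h1 r).differentiableAt) (fun r => (h1 r).deriv) r 0
    simp only [I_zero, sub_zero] at h2
    linarith

end converse

end Q61.Rad
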