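import Pool.Agent.Q61.Rad4

set_option autoImplicit false

open MeasureTheory InnerProductSpace Laplacian Topology Filter Set
open scoped ContDiff

namespace Q61.Rad

/-- iterated Laplacian `Δ^i u` -/
noncomputable def lapIter {n : ℕ} : ℕ → (EuclideanSpace ℝ (Fin n) → ℝ) → (EuclideanSpace ℝ (Fin n) → ℝ)
  | 0, u => u
  | i + 1, u => Δ (lapIter i u)

theorem lapIter_radial {n : ℕ} {u : EuclideanSpace ℝ (Fin (n + 1)) → ℝ} (h : IsRadial u) (hs : ContDiff ℝ ∞ u)
    (i : ℕ) : IsRadial (lapIter i u) ∧ ContDiff ℝ ∞ (lapIter i u) := by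
  induction i with
  | zero => exact ⟨h, hs⟩
  | succ i ih => exact ⟨(ih.1.lap_data ih.2).1, (ih.1.lap_data ih.2).2.1⟩

theorem prof_zero {n : ℕ} (u : EuclideanSpace ℝ (Fin (n + 1)) → ℝ) : prof u 0 = u 0 := by
  show u (EuclideanSpace.single 0 0) = u 0
  congr 1
  ext i; by_cases hi : i = 0 <;> simp [hi]

theorem chain_of_radial {n : ℕ} {u : EuclideanSpace ℝ (Fin (n + 1)) → ℝ} (h : IsRadial u) (hs : ContDiff ℝ ∞ u)
    (i : ℕ) (r : ℝ) : prof (lapIter i u) r = lapIter i u 0 + I n (prof (lapIter (i + 1) u)) r := by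
  have hi := lapIter_radial h hs i
  have := (hi.1.lap_data hi.2).2.2 r
  rw [prof_zero] at this
  exact this

/-- conversely, a chain of profiles gives a radial function with the prescribed iterated Laplacians -/
theorem radial_of_chain {n : ℕ} (m : ℕ) {v : ℕ → ℝ → ℝ} {a : ℕ → ℝ} (hv : ∀ i, i ≤ m → ContDiff ℝ ∞ (v i))
    (he : ∀ i, i ≤ m → ∀ t, v i (-t) = v i t) (hc : ∀ i, i < m → ∀ r, v i r = a i + I n (v (i + 1)) r) :
    ∀ i, i ≤ m → lapIter i (fun x : EuclideanSpace ℝ (Fin (n + 1)) => v 0 ‖x‖) = fun x => v i ‖x‖ := by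
  intro i
  induction i with
  | zero => intro _; rfl
  | succ i ih =>
    intro hi
    have h1 := ih (by omega)
    funext x
    show (Δ (lapIter i (fun x : EuclideanSpace ℝ (Fin (n + 1)) => v 0 ‖x‖))) x = v (i + 1) ‖x‖
    rw [h1]
    apply lap_radial n (hv (i + 1) hi) (he (i + 1) hi)
    intro r
    have h2 := (I_hasDeriv n (hv (i + 1) hi).continuous r).const_add (a i)
    have h3 : v i = fun r => a i + I n (v (i + 1)) r := funext (hc i (by omega))
    rw [h3]
    exact h2

/-- tower of profiles above `h`: `T 0 = h`, `T (j+1) = a_{m-1-j} + I (T j)` -/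
noncomputable def tower (k m : ℕ) (a : ℕ → ℝ) (h : ℝ → ℝ) : ℕ → ℝ → ℝ
  | 0 => h
  | j + 1 => fun r => a (m - (j + 1)) + I k (tower k m a h j) r

section tower
variable {k m : ℕ} {a : ℕ → ℝ} {h : ℝ → ℝ}

theorem tower_cont (hh : Continuous h) (j : ℕ) : Continuous (tower k m a h j) := by
  induction j with
  | zero => exact hh
  | succ j ih => exact continuous_const.add (I_cont k ih)

theorem tower_smooth (hh : ContDiff ℝ ∞ h) (j : ℕ) : ContDiff ℝ ∞ (tower k m a h j) := by
  induction j with
  | zero => exact hh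
  | succ j ih => exact contDiff_const.add (I_smooth k ih)

theorem tower_even (hh : ∀ t, h (-t) = h t) (j : ℕ) : ∀ t, tower k m a h j (-t) = tower k m a h j t := by
  induction j with
  | zero => exact hh
  | succ j ih =>
    intro t
    show a (m - (j + 1)) + I k (tower k m a h j) (-t) = a (m - (j + 1)) + I k (tower k m a h j) t
    rw [I_even k ih]

theorem tower_eq (hh : Continuous h) (j : ℕ) (r : ℝ) :
    tower k m a h j r = tower k m a (fun _ => 0) j r + (I k)^[j] h r := by
  induction j generalizing r with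
  | zero => simp [tower]
  | succ j ih =>
    show a (m - (j + 1)) + I k (tower k m a h j) r = a (m - (j + 1)) + I k (tower k m a (fun _ => 0) j) r + _
    rw [Function.iterate_succ_apply', show tower k m a h j = fun r => tower k m a (fun _ => 0) j r + (I k)^[j] h r from
      funext ih, I_add k (tower_cont continuous_const j) (iter_cont k hh j)]
    ring

end tower

theorem A_neg_arg (k : ℕ) (f : ℝ → ℝ) (s : ℝ) : A k f (-s) = A k (fun t => f (-t)) s := by
  unfold A
  congr 1
  funext θ
  rw [mul_neg]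

theorem I_neg_arg (k : ℕ) (f : ℝ → ℝ) (r : ℝ) : I k f (-r) = I k (fun t => f (-t)) r := by
  unfold I
  have h := intervalIntegral.integral_comp_neg (a := 0) (b := r) (fun s => s * A k f s)
  rw [neg_zero] at h
  rw [intervalIntegral.integral_symm, ← h, ← intervalIntegral.integral_neg]
  congr 1
  funext s
  rw [A_neg_arg]
  ring

theorem iter_neg_arg (k m : ℕ) (f : ℝ → ℝ) (r : ℝ) : (I k)^[m] f (-r) = (I k)^[m] (fun t => f (-t)) r := by
  induction m generalizing r with
  | zero => rfl
  | succ m ih =>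
    rw [Function.iterate_succ_apply', Function.iterate_succ_apply', I_neg_arg]
    congr 1
    funext t
    exact ih t

theorem iter_nonneg' (k m : ℕ) {f : ℝ → ℝ} (hf : Continuous f) (h : ∀ t, 0 ≤ f t) (r : ℝ) :
    0 ≤ (I k)^[m] f r := by
  rcases le_total 0 r with h0 | h0
  · exact iter_nonneg k hf m (r := r) (fun t _ _ => h t) r h0 le_rfl
  · have h1 := iter_nonneg k (hf.comp continuous_neg) m (r := -r) (fun t _ _ => h (-t)) (-r) (by linarith) le_rfl
    have h2 := iter_neg_arg k m f (-r)
    rw [neg_neg] at h2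
    rw [h2]
    exact h1

theorem iter_mono' (k m : ℕ) {f g : ℝ → ℝ} (hf : Continuous f) (hg : Continuous g) (h : ∀ t, f t ≤ g t) (r : ℝ) :
    (I k)^[m] f r ≤ (I k)^[m] g r := by
  have h1 := iter_nonneg' k m (hg.sub hf) (fun t => sub_nonneg.2 (h t)) r
  have h2 := iter_sub k hg hf m r
  have h3 : (I k)^[m] (g - f) r = (I k)^[m] g r - (I k)^[m] f r := h2
  rw [h3] at h1
  linarith

theorem exp_lip {a b W : ℝ} (ha : a ≤ W) (hb : b ≤ W) : |Real.exp a - Real.exp b| ≤ Real.exp W * |a - b| := by
  have key : ∀ a b : ℝ, a ≤ W → b ≤ a → Real.exp a - Real.exp b ≤ Real.exp W * (a - b) := by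
    intro a b ha hab
    have h1 : Real.exp a - Real.exp b = Real.exp a * (1 - Real.exp (b - a)) := by
      rw [mul_sub, ← Real.exp_add]; ring_nf
    have h2 : 1 - Real.exp (b - a) ≤ a - b := by linarith [Real.add_one_le_exp (b - a)]
    rw [h1]
    calc Real.exp a * (1 - Real.exp (b - a)) ≤ Real.exp a * (a - b) :=
          mul_le_mul_of_nonneg_left h2 (Real.exp_pos _).le
      _ ≤ _ := mul_le_mul_of_nonneg_right (Real.exp_le_exp.2 ha) (by linarith)
  rcases le_total b a with h | h
  · rw [abs_of_nonneg (by linarith [Real.exp_le_exp.2 h]), abs_of_nonneg (by linarith)]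
    exact key a b ha h
  · rw [abs_sub_comm, abs_sub_comm a b, abs_of_nonneg (by linarith [Real.exp_le_exp.2 h]),
      abs_of_nonneg (by linarith)]
    exact key b a hb h

/-- the truncated problem -/
theorem exists_trunc (k m : ℕ) (σ : ℝ) (hσ : |σ| ≤ 1) {p W : ℝ → ℝ} (hp : Continuous p) (hW : Continuous W) :
    ∃ u : ℝ → ℝ, Continuous u ∧ ∀ r, u r = p r + (I k)^[m + 1] (fun t => σ * Real.exp (min (u t) (W t))) r := by
  apply volterra_exists k m hp (g := fun r u => σ * Real.exp (min u (W r)))
  · show Continuous fun q : ℝ × ℝ => σ * Real.exp (min q.2 (W q.1))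
    fun_prop
  · intro R
    obtain ⟨C, hC⟩ := (isCompact_Icc (a := -R) (b := R)).exists_bound_of_continuousOn
      (Real.continuous_exp.comp hW).continuousOn
    refine ⟨max C 0, le_max_right _ _, fun r hr u v => ?_⟩
    have h1 : Real.exp (W r) ≤ max C 0 := by
      refine le_trans ?_ (le_max_left _ _)
      have := hC r (abs_le.1 hr)
      exact (le_abs_self _).trans this
    have h2 := exp_lip (min_le_right u (W r)) (min_le_right v (W r))
    have h3 : |min u (W r) - min v (W r)| ≤ |u - v| := abs_min_sub_min_le_max u (W r) v (W r) |>.trans (by simp)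
    rw [← mul_sub, abs_mul]
    calc |σ| * |Real.exp (min u (W r)) - Real.exp (min v (W r))| ≤ 1 * (Real.exp (W r) * |min u (W r) - min v (W r)|) :=
          mul_le_mul hσ h2 (abs_nonneg _) zero_le_one
      _ ≤ max C 0 * |u - v| := by
          rw [one_mul]
          exact mul_le_mul h1 h3 (abs_nonneg _) (le_max_right _ _)

/-- uniqueness of continuous solutions of `u = p + σ I^m e^u` -/
theorem unique_exp (k m : ℕ) (σ : ℝ) (hσ : |σ| ≤ 1) {p u v : ℝ → ℝ} (hu : Continuous u) (hv : Continuous v)
    (hu' : ∀ r, u r = p r + (I k)^[m + 1] (fun t => σ * Real.exp (u t)) r)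
    (hv' : ∀ r, v r = p r + (I k)^[m + 1] (fun t => σ * Real.exp (v t)) r) : u = v := by
  funext r
  obtain ⟨C, hC⟩ := (isCompact_Icc (a := -|r|) (b := |r|)).exists_bound_of_continuousOn
    (hu.max hv).continuousOn
  have hcu : Continuous fun t => σ * Real.exp (u t) := by fun_prop
  have hcv : Continuous fun t => σ * Real.exp (v t) := by fun_prop
  have h := volterra_unique k m (w := fun r => u r - v r)
    (h := fun t => σ * Real.exp (u t) - σ * Real.exp (v t)) (hcu.sub hcv) (hu.sub hv) (R := |r|) (K := Real.exp C)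
    (abs_nonneg r) (Real.exp_pos C).le (by
      intro r _
      rw [iter_sub k hcu hcv]
      show u r - v r = _
      rw [hu' r, hv' r]
      ring) (by
      intro t ht
      have h1 : |max (u t) (v t)| ≤ C := hC t (abs_le.1 ht)
      have h2 := (le_abs_self _).trans h1
      have h3 := exp_lip ((le_max_left _ _).trans h2) ((le_max_right (u t) (v t)).trans h2)
      rw [← mul_sub, abs_mul]
      calc |σ| * |Real.exp (u t) - Real.exp (v t)| ≤ 1 * (Real.exp C * |u t - v t|) :=
            mul_le_mul hσ h3 (abs_nonneg _) zero_le_one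
        _ = _ := one_mul _)
    r le_rfl
  have h2 : u r - v r = 0 := h
  linarith

theorem even_of_sol (k m : ℕ) (σ : ℝ) (hσ : |σ| ≤ 1) {p u : ℝ → ℝ} (hp : ∀ t, p (-t) = p t) (hu : Continuous u)
    (hu' : ∀ r, u r = p r + (I k)^[m + 1] (fun t => σ * Real.exp (u t)) r) : ∀ t, u (-t) = u t := by
  have h := unique_exp k m σ hσ (p := p) (u := fun t => u (-t)) (v := u) (hu.comp continuous_neg) hu
    (fun r => by
      show u (-r) = _
      rw [hu' (-r), hp, iter_neg_arg]) hu'
  exact fun t => congrFun h t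

theorem smooth_of_sol (k m : ℕ) (σ : ℝ) {p u : ℝ → ℝ} (hp : ContDiff ℝ ∞ p) (hu : Continuous u)
    (hu' : ∀ r, u r = p r + (I k)^[m + 1] (fun t => σ * Real.exp (u t)) r) : ContDiff ℝ ∞ u :=
  bootstrap k (m + 1) (by omega) (G := fun x => σ * Real.exp x) hp (contDiff_const.mul Real.contDiff_exp) hu hu'

/-- entire solutions of `u = p - I^m e^u` -/
theorem exists_minus (k m : ℕ) {p : ℝ → ℝ} (hp : ContDiff ℝ ∞ p) (he : ∀ t, p (-t) = p t) :
    ∃ u : ℝ → ℝ, ContDiff ℝ ∞ u ∧ (∀ t, u (-t) = u t) ∧
      ∀ r, u r = p r + (I k)^[m + 1] (fun t => (-1) * Real.exp (u t)) r := by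
  obtain ⟨u, hu, hu'⟩ := exists_trunc k m (-1) (by simp) hp.continuous hp.continuous
  have hle : ∀ r, u r ≤ p r := by
    intro r
    rw [hu' r]
    have hc : Continuous fun t => Real.exp (min (u t) (p t)) := by
      have := hp.continuous
      fun_prop
    have h1 := iter_nonneg' k (m + 1) hc (fun t => (Real.exp_pos _).le) r
    have h2 := iter_mono' k (m + 1) (f := fun t => (-1) * Real.exp (min (u t) (p t))) (g := fun _ => 0)
      (continuous_const.mul hc) continuous_const (fun t => by
        have := Real.exp_pos (min (u t) (p t)); show -1 * _ ≤ (0:ℝ); linarith) r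
    have h3 : (I k)^[m + 1] (fun _ => (0:ℝ)) r = 0 := by
      have := iter_sub k (f := fun _ => (0:ℝ)) (g := fun _ => 0) continuous_const continuous_const (m + 1) r
      simpa using this
    linarith
  have hu2 : ∀ r, u r = p r + (I k)^[m + 1] (fun t => (-1) * Real.exp (u t)) r := by
    intro r
    have : (fun t => (-1) * Real.exp (min (u t) (p t))) = fun t => (-1) * Real.exp (u t) := by
      funext t; rw [min_eq_left (hle t)]
    rw [← this]; exact hu' r
  exact ⟨u, smooth_of_sol k m (-1) hp hu hu2, even_of_sol k m (-1) (by simp) he hu hu2, hu2⟩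

/-- entire solutions of `u = p + I^m e^u` below a supersolution -/
theorem exists_plus (k m : ℕ) {p W : ℝ → ℝ} (hp : ContDiff ℝ ∞ p) (he : ∀ t, p (-t) = p t) (hW : Continuous W)
    (hsup : ∀ r, p r + (I k)^[m + 1] (fun t => Real.exp (W t)) r ≤ W r) :
    ∃ u : ℝ → ℝ, ContDiff ℝ ∞ u ∧ (∀ t, u (-t) = u t) ∧ (∀ r, p r ≤ u r) ∧ (∀ r, u r ≤ W r) ∧
      ∀ r, u r = p r + (I k)^[m + 1] (fun t => 1 * Real.exp (u t)) r := by
  obtain ⟨u, hu, hu'⟩ := exists_trunc k m 1 (by simp) hp.continuous hW
  have hc : Continuous fun t => 1 * Real.exp (min (u t) (W t)) := by fun_prop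
  have hle : ∀ r, u r ≤ W r := by
    intro r
    refine le_trans ?_ (hsup r)
    rw [hu' r]
    have h2 := iter_mono' k (m + 1) (f := fun t => 1 * Real.exp (min (u t) (W t))) (g := fun t => Real.exp (W t))
      hc (Real.continuous_exp.comp hW) (fun t => by
        rw [one_mul]; exact Real.exp_le_exp.2 (min_le_right _ _)) r
    linarith
  have hu2 : ∀ r, u r = p r + (I k)^[m + 1] (fun t => 1 * Real.exp (u t)) r := by
    intro r
    have : (fun t => 1 * Real.exp (min (u t) (W t))) = fun t => 1 * Real.exp (u t) := by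
      funext t; rw [min_eq_left (hle t)]
    rw [← this]; exact hu' r
  refine ⟨u, smooth_of_sol k m 1 hp hu hu2, even_of_sol k m 1 (by simp) he hu hu2, ?_, hle, hu2⟩
  intro r
  rw [hu2 r]
  have hc2 : Continuous fun t => 1 * Real.exp (u t) := by fun_prop
  have := iter_nonneg' k (m + 1) hc2 (fun t => by positivity) r
  linarith

end Q61.Rad
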