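import Pool.Agent.Q61.Rad5

set_option autoImplicit false

open MeasureTheory Topology Filter Set
open scoped ContDiff

namespace Q61.Rad

variable {k m : ℕ} {f g : ℝ → ℝ}

/-- comparison of increments from comparison of derivatives -/
theorem incr_le {F G F' G' : ℝ → ℝ} {a b : ℝ} (hab : a ≤ b) (hF : ∀ t, a ≤ t → HasDerivAt F (F' t) t)
    (hG : ∀ t, a ≤ t → HasDerivAt G (G' t) t) (h : ∀ t, a ≤ t → F' t ≤ G' t) : F b - F a ≤ G b - G a := by
  have h1 : MonotoneOn (fun t => G t - F t) (Icc a b) := by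
    apply monotoneOn_of_deriv_nonneg (convex_Icc a b)
    · exact fun t ht => ((hG t ht.1).sub (hF t ht.1)).continuousAt.continuousWithinAt
    · intro t ht
      rw [interior_Icc] at ht
      exact ((hG t ht.1.le).sub (hF t ht.1.le)).differentiableAt.differentiableWithinAt
    · intro t ht
      rw [interior_Icc] at ht
      have := ((hG t ht.1.le).sub (hF t ht.1.le)).deriv
      have h2 : deriv (fun t => G t - F t) t = G' t - F' t := this
      rw [h2]
      linarith [h t ht.1.le]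
  have h2 := h1 ⟨le_rfl, hab⟩ ⟨hab, le_rfl⟩ hab
  simp only at h2
  linarith

theorem down_step (k : ℕ) (hf : Continuous f) (a : ℝ) (h : ∃ c > 0, ∀ᶠ r in atTop, f r ≤ -c) :
    ∃ c > 0, ∀ᶠ r in atTop, a + I k f r ≤ -c * r ^ 2 := by
  obtain ⟨c, hc, hev⟩ := h
  obtain ⟨R₀, hR₀⟩ := eventually_atTop.1 hev
  set R : ℝ := max R₀ 1 with hR
  have hR1 : 1 ≤ R := le_max_right _ _
  have hfR : ∀ t, R ≤ t → f t ≤ -c := fun t ht => hR₀ t ((le_max_left _ _).trans ht)
  set C₁ : ℝ := R ^ (k + 1) * A k f R + c / (k + 1) * R ^ (k + 1) with hC₁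
  have hk : (0:ℝ) < k + 1 := by positivity
  -- bound of the average
  have hA : ∀ s, R ≤ s → s ^ (k + 1) * A k f s ≤ C₁ - c / (k + 1) * s ^ (k + 1) := by
    intro s hs
    have := incr_le (F := fun s => s ^ (k + 1) * A k f s) (G := fun s => -(c / (k + 1)) * s ^ (k + 1))
      (F' := fun s => s ^ k * f s) (G' := fun s => -(c / (k + 1)) * (((k + 1 : ℕ) : ℝ) * s ^ k)) hs
      (fun t _ => pow_A_hasDeriv k hf t) (fun t _ => by
        have := (hasDerivAt_pow (k + 1) t).const_mul (-(c / (k + 1)))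
        simpa using this) (fun t ht => by
        have h1 := hfR t ht
        have h2 : 0 ≤ t ^ k := by have : 0 ≤ t := by linarith
                                  positivity
        push_cast
        have h3 : -(c / ((k:ℝ) + 1)) * (((k:ℝ) + 1) * t ^ k) = t ^ k * (-c) := by field_simp
        rw [h3]
        exact mul_le_mul_of_nonneg_left h1 h2)
    linarith
  -- for large s the average is at most -c₂
  set c₂ : ℝ := c / (2 * (k + 1)) with hc₂
  have hc₂pos : 0 < c₂ := by positivity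
  set R₁ : ℝ := max R (|C₁| / c₂) with hR₁
  have hR₁1 : 1 ≤ R₁ := hR1.trans (le_max_left _ _)
  have hA2 : ∀ s, R₁ ≤ s → A k f s ≤ -c₂ := by
    intro s hs
    have hs1 : 1 ≤ s := hR₁1.trans hs
    have h1 := hA s ((le_max_left _ _).trans hs)
    have h2 : |C₁| / c₂ ≤ s := (le_max_right _ _).trans hs
    rw [div_le_iff₀ hc₂pos] at h2
    have h3 : s ≤ s ^ (k + 1) := le_self_pow₀ hs1 (by omega)
    have h4 : C₁ ≤ s ^ (k + 1) * c₂ := by
      calc C₁ ≤ |C₁| := le_abs_self _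
        _ ≤ s * c₂ := h2
        _ ≤ _ := mul_le_mul_of_nonneg_right h3 hc₂pos.le
    have h5 : c / (k + 1) = 2 * c₂ := by rw [hc₂]; field_simp
    rw [h5] at h1
    have h6 : s ^ (k + 1) * A k f s ≤ s ^ (k + 1) * (-c₂) := by linarith
    exact le_of_mul_le_mul_left h6 (by positivity)
  have hI : ∀ r, R₁ ≤ r → I k f r ≤ I k f R₁ + c₂ / 2 * R₁ ^ 2 - c₂ / 2 * r ^ 2 := by
    intro r hr
    have := incr_le (F := I k f) (G := fun s => -(c₂ / 2) * s ^ 2)
      (F' := fun s => s * A k f s) (G' := fun s => -(c₂ / 2) * (((2 : ℕ) : ℝ) * s ^ (2 - 1))) hr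
      (fun t _ => I_hasDeriv k hf t) (fun t _ => (hasDerivAt_pow 2 t).const_mul (-(c₂ / 2))) (fun t ht => by
        have h1 := hA2 t ht
        have h2 : 0 ≤ t := by linarith
        have := mul_le_mul_of_nonneg_left h1 h2
        norm_num
        linarith)
    linarith
  refine ⟨c₂ / 4, by positivity, ?_⟩
  set D : ℝ := a + I k f R₁ + c₂ / 2 * R₁ ^ 2 with hD
  filter_upwards [eventually_ge_atTop (max R₁ (|D| / (c₂ / 4)))] with r hr
  have h1 := hI r ((le_max_left _ _).trans hr)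
  have h2 : |D| / (c₂ / 4) ≤ r := (le_max_right _ _).trans hr
  rw [div_le_iff₀ (by positivity)] at h2
  have h3 : 1 ≤ r := hR₁1.trans ((le_max_left _ _).trans hr)
  have h4 : r ≤ r ^ 2 := le_self_pow₀ h3 (by norm_num)
  have h5 : D ≤ c₂ / 4 * r ^ 2 := by
    calc D ≤ |D| := le_abs_self _
      _ ≤ r * (c₂ / 4) := h2
      _ ≤ r ^ 2 * (c₂ / 4) := mul_le_mul_of_nonneg_right h4 (by positivity)
      _ = _ := by ring
  linarith

/-- a chain `w_i = b_i + I w_{i+1}`, `i < m` -/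
structure LChain (k m : ℕ) (w : ℕ → ℝ → ℝ) : Prop where
  cont : ∀ i, i ≤ m → Continuous (w i)
  rel : ∀ i, i < m → ∀ r, w i r = w i 0 + I k (w (i + 1)) r

theorem LChain.neg {w : ℕ → ℝ → ℝ} (h : LChain k m w) : LChain k m (fun i r => -w i r) := by
  refine ⟨fun i hi => (h.cont i hi).neg, fun i hi r => ?_⟩
  rw [I_neg, h.rel i hi r]; ring

theorem LChain.deriv {w : ℕ → ℝ → ℝ} (h : LChain k m w) {i : ℕ} (hi : i < m) (r : ℝ) :
    HasDerivAt (w i) (r * A k (w (i + 1)) r) r := by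
  have h1 : w i = fun r => w i 0 + I k (w (i + 1)) r := funext (h.rel i hi)
  rw [h1]
  exact (I_hasDeriv k (h.cont (i + 1) hi) r).const_add _

theorem LChain.down {w : ℕ → ℝ → ℝ} (h : LChain k m w) (j : ℕ) (hj : j < m)
    (hd : ∃ c > 0, ∀ᶠ r in atTop, w (j + 1) r ≤ -c) : ∃ c > 0, ∀ᶠ r in atTop, w 0 r ≤ -c * r ^ 2 := by
  induction j with
  | zero =>
    have h1 := down_step k (h.cont 1 hj) (w 0 0) hd
    obtain ⟨c, hc, he⟩ := h1
    refine ⟨c, hc, ?_⟩
    filter_upwards [he] with r hr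
    rw [h.rel 0 hj r]; exact hr
  | succ j ih =>
    apply ih (by omega)
    obtain ⟨c, hc, he⟩ := down_step k (h.cont (j + 1 + 1) hj) (w (j + 1) 0) hd
    refine ⟨c, hc, ?_⟩
    filter_upwards [he, eventually_ge_atTop 1] with r hr h1
    rw [h.rel (j + 1) hj r]
    refine hr.trans ?_
    have : c ≤ c * r ^ 2 := le_mul_of_one_le_right hc.le (one_le_pow₀ h1)
    linarith

/-- mass function -/
noncomputable def M (k : ℕ) (u : ℝ → ℝ) (r : ℝ) : ℝ := ∫ t in (0:ℝ)..r, t ^ k * Real.exp (u t)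

theorem M_eq (k : ℕ) (u : ℝ → ℝ) (r : ℝ) : M k u r = r ^ (k + 1) * A k (fun t => Real.exp (u t)) r :=
  (A_pow k _ r).symm

theorem M_mono (k : ℕ) {u : ℝ → ℝ} (hu : Continuous u) {a b : ℝ} (ha : 0 ≤ a) (hab : a ≤ b) : M k u a ≤ M k u b := by
  have hc : Continuous fun t => t ^ k * Real.exp (u t) := by fun_prop
  have : M k u b - M k u a = ∫ t in a..b, t ^ k * Real.exp (u t) :=
    intervalIntegral.integral_interval_sub_left (hc.intervalIntegrable _ _) (hc.intervalIntegrable _ _)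
  have h2 : 0 ≤ ∫ t in a..b, t ^ k * Real.exp (u t) := by
    apply intervalIntegral.integral_nonneg hab
    intro t ht
    have : 0 ≤ t := ha.trans ht.1
    positivity
  linarith

theorem M_nonneg (k : ℕ) {u : ℝ → ℝ} (hu : Continuous u) {a : ℝ} (ha : 0 ≤ a) : 0 ≤ M k u a := by
  have := M_mono k hu le_rfl ha
  have h0 : M k u 0 = 0 := intervalIntegral.integral_same
  linarith

/-- the mass is bounded as soon as `t^k e^u ≤ K/t²` eventually -/
theorem M_bdd_of (k : ℕ) {u : ℝ → ℝ} (hu : Continuous u) (h : ∃ K : ℝ, ∀ᶠ t in atTop, t ^ k * Real.exp (u t) ≤ K / t ^ 2) :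
    ∃ C, ∀ r, 0 ≤ r → M k u r ≤ C := by
  obtain ⟨K, hK⟩ := h
  obtain ⟨R₀, hR₀⟩ := eventually_atTop.1 hK
  set R : ℝ := max R₀ 1 with hR
  have hR1 : 1 ≤ R := le_max_right _ _
  refine ⟨M k u R + |K|, fun r hr => ?_⟩
  rcases le_total r R with h1 | h1
  · have := M_mono k hu hr h1
    have := abs_nonneg K
    linarith
  · have hc : Continuous fun t => t ^ k * Real.exp (u t) := by fun_prop
    have hd : ∀ t, HasDerivAt (M k u) (t ^ k * Real.exp (u t)) t := fun t =>
      intervalIntegral.integral_hasDerivAt_right (hc.intervalIntegrable _ _)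
        hc.stronglyMeasurable.stronglyMeasurableAtFilter hc.continuousAt
    have h2 := incr_le (F := M k u) (G := fun t => -(|K| * t⁻¹)) (F' := fun t => t ^ k * Real.exp (u t))
      (G' := fun t => -(|K| * -(t ^ 2)⁻¹)) h1 (fun t _ => hd t) (fun t ht => by
        have : t ≠ 0 := by linarith
        exact ((hasDerivAt_inv this).const_mul |K|).neg) (fun t ht => by
        have ht1 : 1 ≤ t := hR1.trans ht
        refine (hR₀ t ((le_max_left _ _).trans ht)).trans ?_
        have h3 : K / t ^ 2 ≤ |K| / t ^ 2 := by gcongr; exact le_abs_self K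
        refine h3.trans (le_of_eq ?_)
        field_simp)
    have h3 : R⁻¹ ≤ 1 := inv_le_one_of_one_le₀ hR1
    have h4 : 0 ≤ r⁻¹ := by positivity
    have h5 := abs_nonneg K
    have h6 : |K| * R⁻¹ ≤ |K| := mul_le_of_le_one_right h5 h3
    have h7 : 0 ≤ |K| * r⁻¹ := by positivity
    linarith

theorem M_bdd_of_quad (k : ℕ) {u : ℝ → ℝ} (hu : Continuous u) (h : ∃ c > 0, ∀ᶠ t in atTop, u t ≤ -c * t ^ 2) :
    ∃ C, ∀ r, 0 ≤ r → M k u r ≤ C := by
  obtain ⟨c, hc, he⟩ := h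
  apply M_bdd_of k hu
  have hlim : Tendsto (fun x : ℝ => x ^ ((k:ℝ) + 2) * Real.exp (-c * x)) atTop (𝓝 0) :=
    tendsto_rpow_mul_exp_neg_mul_atTop_nhds_zero _ _ hc
  have h1 : ∀ᶠ x : ℝ in atTop, x ^ ((k:ℝ) + 2) * Real.exp (-c * x) < 1 := hlim.eventually (gt_mem_nhds one_pos)
  refine ⟨1, ?_⟩
  filter_upwards [he, h1, eventually_ge_atTop 1] with t h2 h3 h4
  have h5 : t ^ ((k:ℝ) + 2) = t ^ k * t ^ 2 := by
    rw [show (k:ℝ) + 2 = ((k + 2 : ℕ) : ℝ) by push_cast; ring, Real.rpow_natCast, pow_add]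
  rw [h5] at h3
  rw [le_div_iff₀ (by positivity)]
  have h6 : Real.exp (u t) ≤ Real.exp (-c * t) := by
    apply Real.exp_le_exp.2
    refine h2.trans ?_
    have : t ≤ t ^ 2 := le_self_pow₀ h4 (by norm_num)
    nlinarith
  calc t ^ k * Real.exp (u t) * t ^ 2 ≤ t ^ k * Real.exp (-c * t) * t ^ 2 := by gcongr
    _ = t ^ k * t ^ 2 * Real.exp (-c * t) := by ring
    _ ≤ 1 := h3.le

/-- chain of the equation `Δ^m u = -e^u` -/
structure EChain (k m : ℕ) (v : ℕ → ℝ → ℝ) : Prop extends LChain k m v where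
  top : ∀ r, v m r = -Real.exp (v 0 r)

variable {v : ℕ → ℝ → ℝ}

theorem EChain.not_bdd_below (h : EChain k m v) (hm : 1 ≤ m) (C : ℝ) : ¬ ∀ᶠ r in atTop, -C ≤ v 0 r := by
  intro hC
  obtain ⟨j, rfl⟩ : ∃ j, m = j + 1 := ⟨m - 1, by omega⟩
  obtain ⟨c, hc, he⟩ := h.toLChain.down j (by omega) ⟨Real.exp (-C), Real.exp_pos _, by
    filter_upwards [hC] with r hr
    rw [h.top r]
    exact neg_le_neg (Real.exp_le_exp.2 hr)⟩
  obtain ⟨r, h1, h2, h3⟩ := (hC.and (he.and (eventually_ge_atTop (max 1 ((|C| + 1) / c))))).exists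
  have h4 : 1 ≤ r := (le_max_left _ _).trans h3
  have h5 : (|C| + 1) / c ≤ r := (le_max_right _ _).trans h3
  rw [div_le_iff₀ hc] at h5
  have h6 : r ≤ r ^ 2 := le_self_pow₀ h4 (by norm_num)
  have h7 : r * c ≤ r ^ 2 * c := mul_le_mul_of_nonneg_right h6 hc.le
  have h8 := le_abs_self C
  nlinarith

/-- no `v_j`, `1 ≤ j`, is eventually above a positive constant -/
theorem EChain.not_up (h : EChain k m v) {j : ℕ} (hj : j < m) : ¬ ∃ c > 0, ∀ᶠ r in atTop, c ≤ v (j + 1) r := by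
  rintro ⟨c, hc, he⟩
  obtain ⟨c', hc', he'⟩ := h.toLChain.neg.down j hj ⟨c, hc, by
    filter_upwards [he] with r hr; exact neg_le_neg hr⟩
  apply h.not_bdd_below (by omega) 0
  filter_upwards [he'] with r hr
  have : 0 ≤ c' * r ^ 2 := by positivity
  linarith

/-- if some `v_j`, `1 ≤ j`, is eventually below a negative constant, the mass is finite -/
theorem EChain.bdd_of_down (h : EChain k m v) {j : ℕ} (hj : j < m) (hd : ∃ c > 0, ∀ᶠ r in atTop, v (j + 1) r ≤ -c) :
    ∃ C, ∀ r, 0 ≤ r → M k (v 0) r ≤ C :=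
  M_bdd_of_quad k (h.cont 0 (by omega)) (h.toLChain.down j hj hd)

end Q61.Rad
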