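import Pool.Agent.Q61.Rad6

set_option autoImplicit false

open MeasureTheory Topology Filter Set
open scoped ContDiff

namespace Q61.Rad

variable {k m : ℕ} {f g : ℝ → ℝ} {v : ℕ → ℝ → ℝ}

theorem A_pos (k : ℕ) (hf : Continuous f) {s : ℝ} (hs : 0 ≤ s) (h : ∀ t, 0 ≤ t → t ≤ s → 0 < f t) : 0 < A k f s := by
  obtain ⟨t₀, ht₀, hmin⟩ := (isCompact_Icc (a := 0) (b := s)).exists_isMinOn ⟨0, le_rfl, hs⟩ hf.continuousOn
  have h1 := A_mono k continuous_const hf hs (f := fun _ => f t₀) fun t a b => hmin ⟨a, b⟩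
  rw [A_const] at h1
  have h2 := h t₀ ht₀.1 ht₀.2
  refine lt_of_lt_of_le ?_ h1
  positivity

theorem A_neg' (k : ℕ) (f : ℝ → ℝ) (s : ℝ) : A k (fun t => -f t) s = -A k f s := by
  have := A_const_mul k (-1) f s
  simpa using this

/-- strict monotonicity from the sign of the next function -/
theorem LChain.anti {w : ℕ → ℝ → ℝ} (h : LChain k m w) {i : ℕ} (hi : i < m) {σ : ℝ}
    (hpos : ∀ r, 0 ≤ r → 0 < σ * w (i + 1) r) : StrictAntiOn (fun r => -σ * w i r) (Ici 0) := by
  have hd : ∀ r, HasDerivAt (fun r => -σ * w i r) (-σ * (r * A k (w (i + 1)) r)) r := fun r =>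
    (h.deriv hi r).const_mul (-σ)
  apply strictAntiOn_of_deriv_neg (convex_Ici 0)
  · exact fun r _ => (hd r).continuousAt.continuousWithinAt
  · intro r hr
    rw [interior_Ici] at hr
    have hr' : 0 < r := hr
    rw [(hd r).deriv]
    have h1 : 0 < A k (fun t => σ * w (i + 1) t) r :=
      A_pos k (continuous_const.mul (h.cont (i + 1) hi)) hr'.le fun t a _ => hpos t a
    rw [A_const_mul] at h1
    have := mul_pos hr' h1
    linarith

theorem EChain.sign (h : EChain k m v) (hunb : ¬ ∃ C, ∀ r, 0 ≤ r → M k (v 0) r ≤ C) (j : ℕ) :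
    ∀ i, i + j = m → 1 ≤ i → ∀ r, 0 ≤ r → 0 < (-1) ^ (j + 1) * v i r := by
  induction j with
  | zero =>
    intro i hi _ r _
    rw [show i = m by omega, h.top r]
    have := Real.exp_pos (v 0 r)
    simpa using this
  | succ j ih =>
    intro i hi h1 r hr
    have hpos := ih (i + 1) (by omega) (by omega)
    have hanti := h.toLChain.anti (i := i) (by omega) hpos
    have hsig : (-1:ℝ) ^ (j + 1 + 1) = -(-1) ^ (j + 1) := by rw [pow_succ]; ring
    rw [hsig]
    by_contra hcon
    push Not at hcon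
    have h2 : -(-1) ^ (j + 1) * v i (r + 1) < 0 :=
      lt_of_lt_of_le (hanti (show r ∈ Ici 0 from hr) (show r + 1 ∈ Ici 0 by simp; linarith) (by linarith)) hcon
    set c := -(-(-1) ^ (j + 1) * v i (r + 1)) with hc
    have hcpos : 0 < c := by rw [hc]; linarith
    have h3 : ∀ᶠ s in atTop, -(-1) ^ (j + 1) * v i s ≤ -c := by
      filter_upwards [eventually_ge_atTop (r + 1)] with s hs
      have := hanti.antitoneOn (show r + 1 ∈ Ici 0 by simp; linarith) (show s ∈ Ici 0 by simp; linarith) hs
      rw [hc]; linarith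
    obtain ⟨i', rfl⟩ : ∃ i', i = i' + 1 := ⟨i - 1, by omega⟩
    rcases neg_one_pow_eq_or ℝ (j + 1) with h4 | h4
    · apply h.not_up (j := i') (by omega)
      refine ⟨c, hcpos, ?_⟩
      filter_upwards [h3] with s hs
      rw [h4] at hs; linarith
    · apply hunb
      apply h.bdd_of_down (j := i') (by omega)
      refine ⟨c, hcpos, ?_⟩
      filter_upwards [h3] with s hs
      rw [h4] at hs; linarith

theorem EChain.growth (h : EChain k m v) (hk : k + 1 = 2 * m) (hunb : ¬ ∃ C, ∀ r, 0 ≤ r → M k (v 0) r ≤ C) (j : ℕ) :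
    ∀ i, i + j = m → 1 ≤ i → ∀ K : ℝ, ∀ᶠ s in atTop, K ≤ A k (fun t => (-1) ^ (j + 1) * v i t) s * s ^ (2 * i) := by
  induction j with
  | zero =>
    intro i hi _ K
    rw [show i = m by omega]
    push Not at hunb
    obtain ⟨r, hr, hK⟩ := hunb K
    filter_upwards [eventually_ge_atTop r] with s hs
    have h1 := M_mono k (h.cont 0 (by omega)) hr hs
    have h2 : (fun t => (-1) ^ (0 + 1) * v m t) = fun t => Real.exp (v 0 t) := by
      funext t; rw [h.top t]; ring
    rw [h2, ← hk, mul_comm, ← M_eq]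
    linarith
  | succ j ih =>
    intro i hi h1 K
    have hpos := h.sign hunb j (i + 1) (by omega) (by omega)
    have hpos2 := h.sign hunb (j + 1) i hi h1
    have hanti := h.toLChain.anti (i := i) (by omega) hpos
    have hsig : (-1:ℝ) ^ (j + 1 + 1) = -(-1) ^ (j + 1) := by rw [pow_succ]; ring
    rw [hsig] at hpos2 ⊢
    have hci : Continuous fun t => -(-1) ^ (j + 1) * v i t := continuous_const.mul (h.cont i (by omega))
    set K' : ℝ := |K| * (k + 1) * 2 ^ (2 * i + 1) with hK'
    obtain ⟨ρ, hρ⟩ := eventually_atTop.1 (ih (i + 1) (by omega) (by omega) K')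
    filter_upwards [eventually_ge_atTop (max ρ 1)] with s hs
    have hs1 : 1 ≤ s := (le_max_right _ _).trans hs
    have hsρ : ρ ≤ s := (le_max_left _ _).trans hs
    have hs0 : 0 < s := by linarith
    -- lower bound of z_i(s)
    have hz : K' / (2 * s) ^ (2 * i + 1) * s ≤ -(-1) ^ (j + 1) * v i s := by
      have := incr_le (F := fun t => -(-1) ^ (j + 1) * v i t) (G := fun t => -(K' / (2 * s) ^ (2 * i + 1)) * t)
        (F' := fun t => -(-1) ^ (j + 1) * (t * A k (v (i + 1)) t)) (G' := fun _ => -(K' / (2 * s) ^ (2 * i + 1)) * 1)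
        (a := s) (b := 2 * s)
      by_cases hle : ∀ t, s ≤ t → t ≤ 2 * s → -(-1) ^ (j + 1) * (t * A k (v (i + 1)) t) ≤ -(K' / (2 * s) ^ (2 * i + 1)) * 1
      · -- use the mean value inequality on the interval
        have hmono : MonotoneOn (fun t => -(K' / (2 * s) ^ (2 * i + 1)) * t - (-(-1) ^ (j + 1) * v i t)) (Icc s (2 * s)) := by
          have hdd : ∀ t, HasDerivAt (fun t => -(K' / (2 * s) ^ (2 * i + 1)) * t - (-(-1) ^ (j + 1) * v i t))
              (-(K' / (2 * s) ^ (2 * i + 1)) * 1 - (-(-1) ^ (j + 1) * (t * A k (v (i + 1)) t))) t := fun t =>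
            ((hasDerivAt_id t).const_mul _).sub ((h.toLChain.deriv (by omega) t).const_mul _)
          apply monotoneOn_of_deriv_nonneg (convex_Icc _ _)
          · exact fun t _ => (hdd t).continuousAt.continuousWithinAt
          · exact fun t _ => (hdd t).differentiableAt.differentiableWithinAt
          · intro t ht
            rw [interior_Icc] at ht
            rw [(hdd t).deriv]
            linarith [hle t ht.1.le ht.2.le]
        have h2 := hmono ⟨le_rfl, by linarith⟩ ⟨by linarith, le_rfl⟩ (by linarith : s ≤ 2 * s)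
        simp only at h2
        have h3 := hpos2 (2 * s) (by linarith)
        linarith
      · exfalso
        apply hle
        intro t h2 h3
        have h4 := hρ t (hsρ.trans h2)
        rw [A_const_mul] at h4
        have ht0 : 0 < t := by linarith
        have hK'0 : 0 ≤ K' := by positivity
        have h5 : K' / t ^ (2 * i + 1) ≤ (-1) ^ (j + 1) * (t * A k (v (i + 1)) t) := by
          rw [div_le_iff₀ (by positivity)]
          calc K' ≤ (-1) ^ (j + 1) * A k (v (i + 1)) t * t ^ (2 * (i + 1)) := h4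
            _ = _ := by rw [show 2 * (i + 1) = 2 * i + 1 + 1 by ring, pow_succ]; ring
        have h6 : K' / (2 * s) ^ (2 * i + 1) ≤ K' / t ^ (2 * i + 1) := by gcongr
        linarith
    -- lower bound of the average
    have hA : (-(-1) ^ (j + 1) * v i s) / (k + 1) ≤ A k (fun t => -(-1) ^ (j + 1) * v i t) s := by
      rw [← A_const k]
      apply A_mono k continuous_const hci hs0.le
      intro t a b
      exact hanti.antitoneOn (show t ∈ Ici 0 from a) (show s ∈ Ici 0 from hs0.le) b
    have hfin : K ≤ (K' / (2 * s) ^ (2 * i + 1) * s) / (k + 1) * s ^ (2 * i) := by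
      have e : (K' / (2 * s) ^ (2 * i + 1) * s) / (k + 1) * s ^ (2 * i) = |K| := by
        rw [hK', mul_pow, pow_succ s]
        field_simp
      rw [e]; exact le_abs_self K
    refine hfin.trans ?_
    apply mul_le_mul_of_nonneg_right _ (by positivity)
    refine le_trans ?_ hA
    gcongr

/-- finite mass for all data -/
theorem EChain.mass_bdd (h : EChain k m v) (hk : k + 1 = 2 * m) (hm : 2 ≤ m) :
    ∃ C, ∀ r, 0 ≤ r → M k (v 0) r ≤ C := by
  by_contra hunb
  obtain ⟨j, rfl⟩ : ∃ j, m = j + 1 := ⟨m - 1, by omega⟩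
  have hpos := h.sign hunb j 1 (by omega) le_rfl
  have hanti := h.toLChain.anti (i := 0) (by omega) hpos
  rcases neg_one_pow_eq_or ℝ (j + 1) with h4 | h4
  · -- `v₀` is increasing
    apply h.not_bdd_below (by omega) (-v 0 0)
    filter_upwards [eventually_ge_atTop 0] with r hr
    have := hanti.antitoneOn (Set.mem_Ici.2 (le_refl (0:ℝ))) (Set.mem_Ici.2 hr) hr
    simp only [h4] at this
    linarith
  · have hg := h.growth hk hunb j 1 (by omega) le_rfl (k + 2)
    rw [h4] at hg
    obtain ⟨ρ₀, hρ₀⟩ := eventually_atTop.1 hg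
    set ρ := max ρ₀ 1 with hρdef
    have hρ1 : 1 ≤ ρ := le_max_right _ _
    apply hunb
    apply M_bdd_of k (h.cont 0 (by omega))
    refine ⟨Real.exp (v 0 ρ + (k + 2) * Real.log ρ), ?_⟩
    filter_upwards [eventually_ge_atTop ρ] with r hr
    have hr0 : 0 < r := by linarith
    have h5 := incr_le (F := v 0) (G := fun t => -((k + 2) * Real.log t)) (F' := fun t => t * A k (v 1) t)
      (G' := fun t => -((k + 2) * t⁻¹)) hr (fun t _ => h.toLChain.deriv (by omega) t) (fun t ht => by
        have : t ≠ 0 := by linarith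
        exact ((Real.hasDerivAt_log this).const_mul _).neg) (fun t ht => by
        have ht0 : 0 < t := by linarith
        have h6 := hρ₀ t ((le_max_left _ _).trans ht)
        rw [A_const_mul] at h6
        have h7 : (k + 2) * t⁻¹ ≤ -(t * A k (v 1) t) := by
          rw [← div_eq_mul_inv, div_le_iff₀ ht0]
          calc ((k:ℝ) + 2) ≤ -1 * A k (v 1) t * t ^ (2 * 1) := h6
            _ = _ := by ring
        linarith)
    have h6 : v 0 r ≤ (v 0 ρ + (k + 2) * Real.log ρ) + -((k + 2) * Real.log r) := by linarith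
    have h7 : Real.exp (v 0 r) ≤ Real.exp (v 0 ρ + (k + 2) * Real.log ρ) * (r ^ (k + 2))⁻¹ := by
      refine (Real.exp_le_exp.2 h6).trans (le_of_eq ?_)
      rw [Real.exp_add, Real.exp_neg]
      congr 2
      rw [show ((k:ℝ) + 2) * Real.log r = ((k + 2 : ℕ) : ℝ) * Real.log r by push_cast; ring, Real.exp_nat_mul,
        Real.exp_log hr0]
    calc r ^ k * Real.exp (v 0 r) ≤ r ^ k * (Real.exp (v 0 ρ + (k + 2) * Real.log ρ) * (r ^ (k + 2))⁻¹) := by gcongr
      _ = _ := by rw [pow_add]; field_simp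

end Q61.Rad
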