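import Pool.Agent.Q61.Rad7

set_option autoImplicit false

open MeasureTheory InnerProductSpace Laplacian Topology Filter Set
open scoped ContDiff

namespace Q61.Rad

variable {k m : ℕ}

/-- total one-dimensional mass -/
noncomputable def Minf (k : ℕ) (u : ℝ → ℝ) : ℝ := ∫ t in Ioi (0:ℝ), t ^ k * Real.exp (u t)

theorem integrable_of_bdd {u : ℝ → ℝ} (hu : Continuous u) (h : ∃ C, ∀ r, 0 ≤ r → M k u r ≤ C) :
    IntegrableOn (fun t => t ^ k * Real.exp (u t)) (Ioi 0) := by
  obtain ⟨C, hC⟩ := h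
  have hc : Continuous fun t => t ^ k * Real.exp (u t) := by fun_prop
  apply integrableOn_Ioi_of_intervalIntegral_norm_bounded C 0 (b := fun r : ℝ => r) (l := atTop)
  · intro i; exact (hc.integrableOn_Icc).mono_set Ioc_subset_Icc_self
  · exact tendsto_id
  · filter_upwards [eventually_ge_atTop 0] with r hr
    refine le_trans (le_of_eq ?_) (hC r hr)
    apply intervalIntegral.integral_congr
    intro t ht
    rw [uIcc_of_le hr] at ht
    simp only
    rw [Real.norm_of_nonneg]
    have := ht.1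
    positivity

theorem M_le_Minf {u : ℝ → ℝ} (hu : Continuous u) (h : ∃ C, ∀ r, 0 ≤ r → M k u r ≤ C) {r : ℝ} (hr : 0 ≤ r) :
    M k u r ≤ Minf k u := by
  have hi := integrable_of_bdd hu h
  have hlim : Tendsto (fun r => M k u r) atTop (𝓝 (Minf k u)) :=
    intervalIntegral_tendsto_integral_Ioi 0 hi tendsto_id
  apply ge_of_tendsto hlim
  filter_upwards [eventually_ge_atTop r] with s hs
  exact M_mono k hu hr hs

theorem Minf_le {u : ℝ → ℝ} (hu : Continuous u) {C : ℝ} (h : ∀ r, 0 ≤ r → M k u r ≤ C) : Minf k u ≤ C := by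
  have hi := integrable_of_bdd hu ⟨C, h⟩
  have hlim : Tendsto (fun r => M k u r) atTop (𝓝 (Minf k u)) :=
    intervalIntegral_tendsto_integral_Ioi 0 hi tendsto_id
  apply le_of_tendsto hlim
  filter_upwards [eventually_ge_atTop 0] with s hs
  exact h s hs

/-- the constant relating volume and one-dimensional mass -/
noncomputable def om (k : ℕ) : ℝ :=
  (k + 1) * (volume : Measure (EuclideanSpace ℝ (Fin (k + 1)))).real (Metric.ball 0 1)

theorem om_pos (k : ℕ) : 0 < om k := by
  unfold om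
  have h1 : 0 < (volume : Measure (EuclideanSpace ℝ (Fin (k + 1)))).real (Metric.ball 0 1) := by
    apply ENNReal.toReal_pos
    · exact (Metric.isOpen_ball.measure_pos volume ⟨0, Metric.mem_ball_self one_pos⟩).ne'
    · exact measure_ball_lt_top.ne
  positivity

theorem vol_integrable (k : ℕ) (u : ℝ → ℝ) :
    Integrable (fun x : EuclideanSpace ℝ (Fin (k + 1)) => Real.exp (u ‖x‖)) ↔
      IntegrableOn (fun t => t ^ k * Real.exp (u t)) (Ioi 0) := by
  have := integrable_fun_norm_addHaar (volume : Measure (EuclideanSpace ℝ (Fin (k + 1)))) (f := fun t => Real.exp (u t))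
  rw [this]
  simp

theorem vol_eq (k : ℕ) (u : ℝ → ℝ) :
    ∫ x : EuclideanSpace ℝ (Fin (k + 1)), Real.exp (u ‖x‖) = om k * Minf k u := by
  have := integral_fun_norm_addHaar (volume : Measure (EuclideanSpace ℝ (Fin (k + 1)))) (fun t => Real.exp (u t))
  rw [this]
  simp only [om, Minf, nsmul_eq_mul, smul_eq_mul, finrank_euclideanSpace, Fintype.card_fin, Nat.add_sub_cancel]
  push_cast
  ring

/-- radial solution of `Δ^m u = -e^u` on `ℝ^n` with data `Δ^i u(0) = a_i` -/
def IsSol {n m : ℕ} (a : Fin m → ℝ) (u : EuclideanSpace ℝ (Fin n) → ℝ) : Prop :=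
  ContDiff ℝ ∞ u ∧ IsRadial u ∧ (∀ x, lapIter m u x = -Real.exp (u x)) ∧ ∀ i : Fin m, lapIter i u 0 = a i

theorem IsSol.chain {n m : ℕ} {a : Fin m → ℝ} {u : EuclideanSpace ℝ (Fin (n + 1)) → ℝ} (h : IsSol a u) :
    EChain n m (fun i => prof (lapIter i u)) where
  cont := fun i _ => (prof_smooth (lapIter_radial h.2.1 h.1 i).2).continuous
  rel := fun i _ r => by rw [prof_zero]; exact chain_of_radial h.2.1 h.1 i r
  top := fun r => by
    show lapIter m u _ = -Real.exp (prof u r)
    rw [h.2.2.1]; rfl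

theorem IsSol.data {n m : ℕ} {a : Fin m → ℝ} {u : EuclideanSpace ℝ (Fin (n + 1)) → ℝ} (h : IsSol a u) (i : Fin m) :
    prof (lapIter i u) 0 = a i := by rw [prof_zero]; exact h.2.2.2 i

/-- data as a sequence -/
def ext {m : ℕ} (a : Fin m → ℝ) (i : ℕ) : ℝ := if h : i < m then a ⟨i, h⟩ else 0

theorem tower_of_chain {n m : ℕ} {v : ℕ → ℝ → ℝ} {a : ℕ → ℝ} (h : ∀ i, i < m → ∀ r, v i r = a i + I n (v (i + 1)) r)
    (j : ℕ) : ∀ i, i + j = m → v i = tower n m a (v m) j := by
  induction j with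
  | zero => intro i hi; rw [show i = m by omega]; rfl
  | succ j ih =>
    intro i hi
    funext r
    rw [h i (by omega) r, ih (i + 1) (by omega)]
    show _ = a (m - (j + 1)) + _
    rw [show m - (j + 1) = i by omega]

theorem sol_integral_eq {n m : ℕ} {a : Fin m → ℝ} {u : EuclideanSpace ℝ (Fin (n + 1)) → ℝ} (h : IsSol a u) (r : ℝ) :
    prof u r = tower n m (ext a) (fun _ => 0) m r + (I n)^[m] (fun t => (-1) * Real.exp (prof u t)) r := by
  have hch := h.chain
  have h1 := tower_of_chain (n := n) (m := m) (v := fun i => prof (lapIter i u)) (a := ext a) (by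
    intro i hi r
    have := hch.rel i hi r
    rw [this]
    have h2 := h.data ⟨i, hi⟩
    simp only at h2
    rw [h2, ext, dif_pos hi]) m 0 (by omega)
  have h2 : prof (lapIter m u) = fun t => (-1) * Real.exp (prof u t) := by
    funext t
    have := hch.top t
    rw [this]
    show -Real.exp (prof (lapIter 0 u) t) = _
    simp [lapIter]
  have h3 : prof u = tower n m (ext a) (prof (lapIter m u)) m := h1
  have hc : Continuous (prof (lapIter m u)) := hch.cont m le_rfl
  rw [← h2]
  conv_lhs => rw [h3]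
  exact tower_eq hc m r

theorem sol_unique {n m : ℕ} {a : Fin (m + 1) → ℝ} {u w : EuclideanSpace ℝ (Fin (n + 1)) → ℝ} (hu : IsSol a u)
    (hw : IsSol a w) : u = w := by
  have h1 := unique_exp n m (-1) (by simp) (p := tower n (m + 1) (ext a) (fun _ => 0) (m + 1))
    (prof_smooth hu.1).continuous (prof_smooth hw.1).continuous (sol_integral_eq hu) (sol_integral_eq hw)
  funext x
  rw [hu.2.1.eq_prof, hw.2.1.eq_prof, h1]

theorem sol_exists (n m : ℕ) (a : Fin (m + 1) → ℝ) : ∃ u : EuclideanSpace ℝ (Fin (n + 1)) → ℝ, IsSol a u := by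
  obtain ⟨f, hf, he, hf2⟩ := exists_minus n m (p := tower n (m + 1) (ext a) (fun _ => 0) (m + 1))
    (tower_smooth contDiff_const _) (tower_even (fun _ => rfl) _)
  set h : ℝ → ℝ := fun t => (-1) * Real.exp (f t) with hh
  have hs : ContDiff ℝ ∞ h := contDiff_const.mul (Real.contDiff_exp.comp hf)
  have hev : ∀ t, h (-t) = h t := fun t => by rw [hh]; simp only; rw [he]
  set v : ℕ → ℝ → ℝ := fun i => tower n (m + 1) (ext a) h (m + 1 - i) with hv
  have hvs : ∀ i, i ≤ m + 1 → ContDiff ℝ ∞ (v i) := fun i _ => tower_smooth hs _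
  have hve : ∀ i, i ≤ m + 1 → ∀ t, v i (-t) = v i t := fun i _ => tower_even hev _
  have hvc : ∀ i, i < m + 1 → ∀ r, v i r = ext a i + I n (v (i + 1)) r := by
    intro i hi r
    obtain ⟨j, hj⟩ : ∃ j, m + 1 - i = j + 1 := ⟨m - i, by omega⟩
    have h2 : m + 1 - (i + 1) = j := by omega
    show tower n (m + 1) (ext a) h (m + 1 - i) r = ext a i + I n (tower n (m + 1) (ext a) h (m + 1 - (i + 1))) r
    rw [hj, h2]
    show ext a (m + 1 - (j + 1)) + _ = _
    rw [show m + 1 - (j + 1) = i by omega]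
  have hv0 : v 0 = f := by
    funext r
    show tower n (m + 1) (ext a) h (m + 1 - 0) r = f r
    rw [Nat.sub_zero, tower_eq hs.continuous, hf2 r]
  have hvm : v (m + 1) = h := by
    show tower n (m + 1) (ext a) h (m + 1 - (m + 1)) = h
    rw [Nat.sub_self]; rfl
  have key := radial_of_chain (n := n) (m + 1) hvs hve hvc
  refine ⟨fun x => v 0 ‖x‖, radial_contDiff (hvs 0 (by omega)) (hve 0 (by omega)), fun x y hxy => by
    simp only [hxy], ?_, ?_⟩
  · intro x
    rw [key (m + 1) le_rfl, hvm, hv0]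
    show (-1) * Real.exp (f ‖x‖) = _
    ring
  · intro i
    rw [key i (by omega)]
    show v i ‖(0 : EuclideanSpace ℝ (Fin (n + 1)))‖ = a i
    rw [norm_zero, hvc i i.2, I_zero, add_zero, ext, dif_pos i.2]

end Q61.Rad
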