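import Pool.Agent.Q61.LapN
import Pool.Agent.Q61.Removable
import Pool.Agent.Q61.HS2

set_option autoImplicit false

open MeasureTheory InnerProductSpace Laplacian Topology Filter Set ENNReal
open scoped ContDiff

namespace Q61.Sob

section general

variable {α : Type*} [MeasurableSpace α] {μ : Measure α}
variable {H : Type*} [NormedAddCommGroup H]

/-- dominated convergence in `L²` -/
theorem tendsto_eLpNorm_dom {f : ℕ → α → H} {g : α → ℝ}
    (hg : MemLp g 2 μ) (hf : ∀ n, AEStronglyMeasurable (f n) μ) (hb : ∀ n, ∀ᵐ x ∂μ, ‖f n x‖ ≤ g x)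
    (hl : ∀ᵐ x ∂μ, Tendsto (fun n => f n x) atTop (𝓝 0)) :
    Tendsto (fun n => eLpNorm (f n) 2 μ) atTop (𝓝 0) := by
  have hgi : Integrable (fun x => g x ^ 2) μ := hg.integrable_sq
  have h1 : Tendsto (fun n => ∫⁻ x, ENNReal.ofReal (‖f n x‖ ^ 2) ∂μ) atTop (𝓝 (∫⁻ _x, (0:ℝ≥0∞) ∂μ)) := by
    apply tendsto_lintegral_of_dominated_convergence' (fun x => ENNReal.ofReal (g x ^ 2))
    · intro n
      exact ((hf n).norm.aemeasurable.pow_const 2).ennreal_ofReal
    · intro n
      filter_upwards [hb n] with x hx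
      apply ENNReal.ofReal_le_ofReal
      exact pow_le_pow_left₀ (norm_nonneg _) hx 2
    · exact hgi.lintegral_lt_top.ne
    · filter_upwards [hl] with x hx
      have h2 : Tendsto (fun n => ENNReal.ofReal (‖f n x‖ ^ 2)) atTop (𝓝 (ENNReal.ofReal (‖(0:H)‖ ^ 2))) :=
        ENNReal.tendsto_ofReal (hx.norm.pow 2)
      simpa using h2
  simp only [lintegral_zero] at h1
  have h2 := h1.ennrpow_const (1 / 2 : ℝ)
  have h3 : (0:ℝ≥0∞) ^ (1 / 2 : ℝ) = 0 := ENNReal.zero_rpow_of_pos (by norm_num)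
  rw [h3] at h2
  refine h2.congr fun n => ?_
  rw [eLpNorm_two_eq]

end general

section inner

variable {α : Type*} [MeasurableSpace α] {μ : Measure α}
variable {H : Type*} [NormedAddCommGroup H] [InnerProductSpace ℝ H]

/-- products of `L²` convergent sequences converge -/
theorem tendsto_pair2 {f g : α → H} {fn gn : ℕ → α → H} (hf : MemLp f 2 μ) (hg : MemLp g 2 μ)
    (hfn : ∀ n, MemLp (fn n) 2 μ) (hgn : ∀ n, MemLp (gn n) 2 μ)
    (h1 : Tendsto (fun n => eLpNorm (fun x => fn n x - f x) 2 μ) atTop (𝓝 0))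
    (h2 : Tendsto (fun n => eLpNorm (fun x => gn n x - g x) 2 μ) atTop (𝓝 0)) :
    Tendsto (fun n => ∫ x, inner ℝ (fn n x) (gn n x) ∂μ) atTop (𝓝 (∫ x, inner ℝ (f x) (g x) ∂μ)) := by
  have a1 : Tendsto (fun n => N2 (fn n - f) μ) atTop (𝓝 0) := tendsto_N2_of_eLpNorm h1
  have a2 : Tendsto (fun n => N2 (gn n - g) μ) atTop (𝓝 0) := tendsto_N2_of_eLpNorm h2
  have key : ∀ n, (∫ x, inner ℝ (fn n x) (gn n x) ∂μ) - ∫ x, inner ℝ (f x) (g x) ∂μ =
      (∫ x, inner ℝ ((fn n - f) x) ((gn n - g) x) ∂μ) + (∫ x, inner ℝ ((fn n - f) x) (g x) ∂μ) +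
        ∫ x, inner ℝ (f x) ((gn n - g) x) ∂μ := by
    intro n
    have i1 := pair_integrable ((hfn n).sub hf) ((hgn n).sub hg)
    have i2 := pair_integrable ((hfn n).sub hf) hg
    have i3 := pair_integrable hf ((hgn n).sub hg)
    have i12 : Integrable (fun x => inner ℝ ((fn n - f) x) ((gn n - g) x) + inner ℝ ((fn n - f) x) (g x)) μ :=
      i1.add i2
    rw [← integral_sub (pair_integrable (hfn n) (hgn n)) (pair_integrable hf hg),
      ← integral_add i1 i2, ← integral_add i12 i3]
    congr 1; funext x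
    simp only [Pi.sub_apply, inner_sub_left, inner_sub_right]
    ring
  rw [tendsto_iff_norm_sub_tendsto_zero]
  have b : Tendsto (fun n => N2 (fn n - f) μ * N2 (gn n - g) μ + N2 (fn n - f) μ * N2 g μ +
      N2 f μ * N2 (gn n - g) μ) atTop (𝓝 0) := by
    have := ((a1.mul a2).add (a1.mul_const (N2 g μ))).add (a2.const_mul (N2 f μ))
    simpa using this
  refine squeeze_zero (fun _ => norm_nonneg _) (fun n => ?_) b
  rw [key, Real.norm_eq_abs]
  refine (abs_add_le _ _).trans (add_le_add ((abs_add_le _ _).trans (add_le_add ?_ ?_)) ?_)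
  · exact pair_le ((hfn n).sub hf) ((hgn n).sub hg)
  · exact pair_le ((hfn n).sub hf) hg
  · exact pair_le hf ((hgn n).sub hg)

theorem tendsto_N2 {f : ℕ → α → H} {g : α → H} (hf : ∀ n, MemLp (f n) 2 μ) (hg : MemLp g 2 μ)
    (h : Tendsto (fun n => eLpNorm (fun x => f n x - g x) 2 μ) atTop (𝓝 0)) :
    Tendsto (fun n => N2 (f n) μ) atTop (𝓝 (N2 g μ)) := by
  have h1 := tendsto_N2_of_eLpNorm h
  rw [tendsto_iff_norm_sub_tendsto_zero]
  refine squeeze_zero (fun _ => norm_nonneg _) (fun n => ?_) h1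
  exact N2_sub_le (hf n) hg

end inner

variable {n : ℕ}

/-- Euclidean space -/
abbrev En (n : ℕ) := EuclideanSpace ℝ (Fin n)

/-- `φ ∈ C_c^∞(Ω)` -/
def IsTest (Ω : Set (En n)) (φ : En n → ℝ) : Prop :=
  ContDiff ℝ ∞ φ ∧ HasCompactSupport φ ∧ tsupport φ ⊆ Ω

/-- `u ∈ H¹₀(Ω)`, the closure of `C_c^∞(Ω)` in the `H¹` norm, with weak gradient `G` -/
def IsH10 (Ω : Set (En n)) (u : En n → ℝ) (G : En n → En n) : Prop :=
  MemLp u 2 (volume.restrict Ω) ∧ MemLp G 2 (volume.restrict Ω) ∧
  ∃ φ : ℕ → En n → ℝ, (∀ k, IsTest Ω (φ k)) ∧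
    Tendsto (fun k => eLpNorm (fun x => φ k x - u x) 2 (volume.restrict Ω)) atTop (𝓝 0) ∧
    Tendsto (fun k => eLpNorm (fun x => gradient (φ k) x - G x) 2 (volume.restrict Ω)) atTop (𝓝 0)

theorem inner_gradient (f : En n → ℝ) (x v : En n) : inner ℝ (gradient f x) v = fderiv ℝ f x v := by
  unfold gradient
  rw [InnerProductSpace.toDual_symm_apply]

theorem inner_gradient' (f : En n → ℝ) (x v : En n) : inner ℝ v (gradient f x) = fderiv ℝ f x v := by
  rw [real_inner_comm, inner_gradient]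

theorem inner_eq_sum (v w : En n) : inner ℝ v w = ∑ i, v i * w i := by
  simp [PiLp.inner_apply, mul_comm]

theorem gradient_coord (f : En n → ℝ) (x : En n) (i : Fin n) : gradient f x i = fderiv ℝ f x (ev i) := by
  rw [← inner_gradient, inner_ev]

theorem inner_gradient2 (f g : En n → ℝ) (x : En n) : inner ℝ (gradient f x) (gradient g x) = gdot f g x := by
  rw [inner_eq_sum, gdot]
  simp only [gradient_coord]

theorem norm_gradient_sq (f : En n → ℝ) (x : En n) : ‖gradient f x‖ ^ 2 = gsqN f x := by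
  rw [← real_inner_self_eq_norm_sq, inner_gradient2, gdot, gsqN]
  simp only [sq]

theorem norm_gradient (f : En n → ℝ) (x : En n) : ‖gradient f x‖ = ‖fderiv ℝ f x‖ := by
  unfold gradient
  exact LinearIsometryEquiv.norm_map _ _

theorem gradient_smooth {f : En n → ℝ} {k m : WithTop ℕ∞} {x : En n} (hf : ContDiffAt ℝ k f x) (hm : m + 1 ≤ k) :
    ContDiffAt ℝ m (gradient f) x := by
  unfold gradient
  exact (LinearIsometryEquiv.contDiff _).contDiffAt.comp x (hf.fderiv_right hm)

theorem gradient_contAt {f : En n → ℝ} {x : En n} (hf : ContDiffAt ℝ 1 f x) :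
    ContinuousAt (gradient f) x := (gradient_smooth (m := 0) hf (by norm_num)).continuousAt

theorem gradient_cont {f : En n → ℝ} (hf : ContDiff ℝ 1 f) : Continuous (gradient f) :=
  continuous_iff_continuousAt.2 fun _ => gradient_contAt hf.contDiffAt

theorem gradient_supp {φ : En n → ℝ} {x : En n} (hx : x ∉ tsupport φ) : gradient φ x = 0 := by
  have h2 : x ∉ tsupport (fderiv ℝ φ) := fun h3 => hx (tsupport_fderiv_subset ℝ h3)
  unfold gradient
  rw [image_eq_zero_of_notMem_tsupport h2, map_zero]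

theorem gradient_compact {φ : En n → ℝ} (hc : HasCompactSupport φ) : HasCompactSupport (gradient φ) :=
  HasCompactSupport.intro hc fun _ hx => gradient_supp hx

theorem gradient_mul {f g : En n → ℝ} {x : En n} (hf : DifferentiableAt ℝ f x) (hg : DifferentiableAt ℝ g x) :
    gradient (fun y => f y * g y) x = f x • gradient g x + g x • gradient f x := by
  unfold gradient
  have : fderiv ℝ (fun y => f y * g y) x = f x • fderiv ℝ g x + g x • fderiv ℝ f x := by
    have := (hf.hasFDerivAt.mul hg.hasFDerivAt).fderiv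
    exact this
  rw [this, map_add, map_smul, map_smul]

theorem gradient_comp {F : ℝ → ℝ} {g : En n → ℝ} {x : En n} (hF : DifferentiableAt ℝ F (g x))
    (hg : DifferentiableAt ℝ g x) : gradient (fun y => F (g y)) x = deriv F (g x) • gradient g x := by
  unfold gradient
  have h : HasFDerivAt (fun y => F (g y)) (deriv F (g x) • fderiv ℝ g x) x :=
    hF.hasDerivAt.comp_hasFDerivAt x hg.hasFDerivAt
  rw [h.fderiv, map_smul]

theorem gradient_congr {f g : En n → ℝ} {x : En n} (h : f =ᶠ[𝓝 x] g) : gradient f x = gradient g x := by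
  unfold gradient
  rw [h.fderiv_eq]

theorem gradient_sub {f g : En n → ℝ} {x : En n} (hf : DifferentiableAt ℝ f x) (hg : DifferentiableAt ℝ g x) :
    gradient (fun y => f y - g y) x = gradient f x - gradient g x := by
  unfold gradient
  have : fderiv ℝ (fun y => f y - g y) x = fderiv ℝ f x - fderiv ℝ g x :=
    (hf.hasFDerivAt.sub hg.hasFDerivAt).fderiv
  rw [this, map_sub]

theorem gradient_const_mul {f : En n → ℝ} {x : En n} (c : ℝ) (hf : DifferentiableAt ℝ f x) :
    gradient (fun y => c * f y) x = c • gradient f x := by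
  unfold gradient
  have : fderiv ℝ (fun y => c * f y) x = c • fderiv ℝ f x := (hf.hasFDerivAt.const_mul c).fderiv
  rw [this, map_smul]

/-- Green's first identity for a test function and a function smooth near its support -/
theorem green_near {f φ : En n → ℝ} (hf : ∀ x ∈ tsupport φ, ContDiffAt ℝ 2 f x)
    (hφ : ContDiff ℝ 1 φ) (hc : HasCompactSupport φ) :
    ∫ x, inner ℝ (gradient f x) (gradient φ x) = -∫ x, (Δ f) x * φ x := by
  have hf1 : ∀ x ∈ tsupport φ, ContDiffAt ℝ 1 (fderiv ℝ f) x := fun x hx => (hf x hx).fderiv_right (m := 1) (by norm_num)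
  have hfd : ∀ x ∈ tsupport φ, ∀ v, ContDiffAt ℝ 1 (fun x => fderiv ℝ f x v) x :=
    fun x hx v => (hf1 x hx).clm_apply contDiffAt_const
  have hfd2 : ∀ x ∈ tsupport φ, ∀ v, fderiv ℝ (fun x => fderiv ℝ f x v) x v = fderiv ℝ (fderiv ℝ f) x v v := by
    intro x hx v
    have h1 : HasFDerivAt (fderiv ℝ f) (fderiv ℝ (fderiv ℝ f) x) x :=
      ((hf1 x hx).differentiableAt (by norm_num)).hasFDerivAt
    rw [(h1.clm_apply (hasFDerivAt_const v x)).fderiv]
    simp
  have hint : ∀ i, Integrable (fun x => fderiv ℝ (fun x => fderiv ℝ f x (ev i)) x (ev i) * φ x) := by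
    intro i
    apply integrable_mul_of_tsupport _ hφ.continuous hc
    intro x hx
    have : ContDiffAt ℝ 0 (fderiv ℝ (fun x => fderiv ℝ f x (ev i))) x :=
      (hfd x hx (ev i)).fderiv_right (m := 0) (by norm_num)
    exact this.continuousAt.clm_apply continuousAt_const
  have hint2 : ∀ i, Integrable (fun x => fderiv ℝ f x (ev i) * fderiv ℝ φ x (ev i)) := by
    intro i
    have hsub := tsupport_fderiv_apply_subset (φ := φ) (ev i)
    exact integrable_mul_of_tsupport (fun x hx => (hfd x (hsub hx) (ev i)).continuousAt)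
        ((hφ.continuous_fderiv (by norm_num)).clm_apply continuous_const)
        (hc.fderiv_apply (𝕜 := ℝ) (v := (ev i)))
  have key : ∀ i, ∫ x, fderiv ℝ f x (ev i) * fderiv ℝ φ x (ev i) =
      -∫ x, fderiv ℝ (fun x => fderiv ℝ f x (ev i)) x (ev i) * φ x := by
    intro i
    apply integral_mul_fderiv_eq_neg_fderiv_mul_of_integrable (hint i) (hint2 i)
    · exact integrable_mul_of_tsupport (fun x hx => (hfd x hx (ev i)).continuousAt) hφ.continuous hc
    · intro x hx
      exact (hfd x hx (ev i)).differentiableAt (by norm_num)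
    · intro x _
      exact hφ.differentiable (by norm_num) x
  have e1 : ∫ x, inner ℝ (gradient f x) (gradient φ x) = ∑ i, ∫ x, fderiv ℝ f x (ev i) * fderiv ℝ φ x (ev i) := by
    rw [← integral_finsetSum _ (fun i _ => hint2 i)]
    congr 1; funext x
    rw [inner_gradient2, gdot]
  rw [e1]
  simp only [key]
  rw [Finset.sum_neg_distrib, ← integral_finsetSum _ (fun i _ => hint i)]
  congr 1
  apply integral_congr_ae
  filter_upwards with x
  by_cases hx : x ∈ tsupport φ
  · rw [lapN_eq, Finset.sum_mul]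
    apply Finset.sum_congr rfl
    intro i _
    rw [hfd2 x hx]
  · rw [image_eq_zero_of_notMem_tsupport hx]; simp

end Q61.Sob
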