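import Pool.Agent.Q61.Sob1

set_option autoImplicit false

open MeasureTheory InnerProductSpace Laplacian Topology Filter Set ENNReal
open scoped ContDiff

namespace Q61.Sob

variable {n : ℕ} {Ω : Set (En n)}

theorem lap_contAt {f : En n → ℝ} {x : En n} (hf : ContDiffAt ℝ 2 f x) : ContinuousAt (Δ f) x := by
  have h1 : (Δ f) = fun x => ∑ i, fderiv ℝ (fderiv ℝ f) x (ev i) (ev i) := by
    funext y; exact lapN_eq _ _
  rw [h1]
  have h2 : ContDiffAt ℝ 1 (fderiv ℝ f) x := hf.fderiv_right (m := 1) (by norm_num)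
  have h3 : ContDiffAt ℝ 0 (fderiv ℝ (fderiv ℝ f)) x := h2.fderiv_right (m := 0) (by norm_num)
  exact tendsto_finsetSum _ fun i _ =>
    ((h3.continuousAt.clm_apply continuousAt_const).clm_apply continuousAt_const)

theorem bdd_of_contAt {H : Type*} [NormedAddCommGroup H] {f : En n → H} (hb : Bornology.IsBounded Ω)
    (hf : ∀ x ∈ closure Ω, ContinuousAt f x) : ∃ C : ℝ, 0 ≤ C ∧ ∀ x ∈ Ω, ‖f x‖ ≤ C := by
  have hK : IsCompact (closure Ω) := hb.isCompact_closure
  have hc : ContinuousOn f (closure Ω) := fun x hx => (hf x hx).continuousWithinAt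
  obtain ⟨C, hC⟩ := hK.exists_bound_of_continuousOn hc
  exact ⟨max C 0, le_max_right _ _, fun x hx => (hC x (subset_closure hx)).trans (le_max_left _ _)⟩

theorem finite_restrict (hb : Bornology.IsBounded Ω) : IsFiniteMeasure ((volume : Measure (En n)).restrict Ω) :=
  ⟨by rw [Measure.restrict_apply_univ]; exact hb.measure_lt_top⟩

theorem aesm_of_contAt {H : Type*} [NormedAddCommGroup H] {f : En n → H}
    (ho : IsOpen Ω) (hf : ∀ x ∈ Ω, ContinuousAt f x) :
    AEStronglyMeasurable f ((volume : Measure (En n)).restrict Ω) :=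
  ContinuousOn.aestronglyMeasurable (fun x hx => (hf x hx).continuousWithinAt) ho.measurableSet

theorem memLp_of_contAt {H : Type*} [NormedAddCommGroup H] {f : En n → H}
    (ho : IsOpen Ω) (hb : Bornology.IsBounded Ω)
    (hf : ∀ x ∈ closure Ω, ContinuousAt f x) (p : ℝ≥0∞) : MemLp f p ((volume : Measure (En n)).restrict Ω) := by
  have := finite_restrict hb
  obtain ⟨C, -, hC⟩ := bdd_of_contAt hb hf
  apply MemLp.of_bound (aesm_of_contAt ho fun x hx => hf x (subset_closure hx)) C
  rw [ae_restrict_iff' ho.measurableSet]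
  exact ae_of_all _ hC

theorem IsTest.memLp {φ : En n → ℝ} (h : IsTest Ω φ) (p : ℝ≥0∞) {μ : Measure (En n)}
    [IsFiniteMeasureOnCompacts μ] : MemLp φ p μ :=
  h.1.continuous.memLp_of_hasCompactSupport h.2.1

theorem IsTest.grad_memLp {φ : En n → ℝ} (h : IsTest Ω φ) (p : ℝ≥0∞) {μ : Measure (En n)}
    [IsFiniteMeasureOnCompacts μ] : MemLp (gradient φ) p μ :=
  (gradient_cont (h.1.of_le (by exact_mod_cast le_top))).memLp_of_hasCompactSupport (gradient_compact h.2.1)

theorem IsTest.out {φ : En n → ℝ} (h : IsTest Ω φ) {x : En n} (hx : x ∉ Ω) : φ x = 0 :=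
  image_eq_zero_of_notMem_tsupport fun h' => hx (h.2.2 h')

theorem IsTest.grad_out {φ : En n → ℝ} (h : IsTest Ω φ) {x : En n} (hx : x ∉ Ω) : gradient φ x = 0 :=
  gradient_supp fun h' => hx (h.2.2 h')

theorem IsTest.isH10 {φ : En n → ℝ} (h : IsTest Ω φ) : IsH10 Ω φ (gradient φ) := by
  refine ⟨h.memLp 2, h.grad_memLp 2, fun _ => φ, fun _ => h, ?_, ?_⟩
  · simp
  · simp

/-- Green's identity for test functions, on the domain -/
theorem green_test {f φ : En n → ℝ} (h : IsTest Ω φ) (hf : ∀ x ∈ Ω, ContDiffAt ℝ 2 f x) :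
    ∫ x in Ω, inner ℝ (gradient f x) (gradient φ x) = -∫ x in Ω, (Δ f) x * φ x := by
  rw [setIntegral_eq_integral_of_forall_compl_eq_zero (fun x hx => by rw [h.grad_out hx, inner_zero_right]),
    setIntegral_eq_integral_of_forall_compl_eq_zero (fun x hx => by rw [h.out hx, mul_zero])]
  exact green_near (fun x hx => hf x (h.2.2 hx)) (h.1.of_le (by exact_mod_cast le_top)) h.2.1

/-- Green's identity for `H¹₀` functions -/
theorem green_H10 (ho : IsOpen Ω) (hb : Bornology.IsBounded Ω) {w : En n → ℝ} {W : En n → En n}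
    (hw : IsH10 Ω w W) {f : En n → ℝ} (hf : ∀ x ∈ closure Ω, ContDiffAt ℝ 2 f x) :
    ∫ x in Ω, inner ℝ (gradient f x) (W x) = -∫ x in Ω, (Δ f) x * w x := by
  obtain ⟨m1, m2, φ, hφ, l1, l2⟩ := hw
  have g1 : MemLp (gradient f) 2 ((volume : Measure (En n)).restrict Ω) :=
    memLp_of_contAt ho hb (fun x hx => gradient_contAt ((hf x hx).of_le (by norm_num))) 2
  have g2 : MemLp (Δ f) 2 ((volume : Measure (En n)).restrict Ω) :=
    memLp_of_contAt ho hb (fun x hx => lap_contAt (hf x hx)) 2
  have t1 := tendsto_pair g1 m2 (fun k => (hφ k).grad_memLp 2) l2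
  have t2 := (tendsto_pairR g2 m1 (fun k => (hφ k).memLp 2) l1).neg
  refine tendsto_nhds_unique t1 (t2.congr fun k => ?_)
  exact (green_test (hφ k) (fun x hx => hf x (subset_closure hx))).symm

/-- smooth functions that vanish at the boundary like the defining function belong to `H¹₀` -/
theorem isH10_of_vanish {ρ f : En n → ℝ} (ho : IsOpen Ω) (hb : Bornology.IsBounded Ω)
    (hρ : ContDiff ℝ ∞ ρ) (hΩ : ∀ x, x ∈ Ω ↔ 0 < ρ x) (hf : ∀ x ∈ closure Ω, ContDiffAt ℝ ∞ f x)
    {C : ℝ} (hC : ∀ x ∈ Ω, |f x| ≤ C * ρ x) : IsH10 Ω f (gradient f) := by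
  have hfc : ∀ x ∈ closure Ω, ContinuousAt f x := fun x hx => (hf x hx).continuousAt
  have hgc : ∀ x ∈ closure Ω, ContinuousAt (gradient f) x := fun x hx =>
    gradient_contAt ((hf x hx).of_le (by exact_mod_cast le_top))
  have hρd : Differentiable ℝ ρ := hρ.differentiable (by norm_num)
  have hρc : Continuous ρ := hρ.continuous
  have hgρ : Continuous (gradient ρ) := gradient_cont (hρ.of_le (by exact_mod_cast le_top))
  obtain ⟨M, hM0, hM⟩ := Rem.exists_M
  set S := Real.smoothTransition with hS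
  have hSd : Differentiable ℝ S := (Real.smoothTransition.contDiff (n := 1)).differentiable (by norm_num)
  have hSc : Continuous (deriv S) := (contDiff_deriv Real.smoothTransition.contDiff).continuous
  set ζ : ℕ → En n → ℝ := fun k x => S ((k:ℝ) * ρ x - 1) with hζ
  have hζs : ∀ k, ContDiff ℝ ∞ (ζ k) := fun k =>
    Real.smoothTransition.contDiff.comp ((contDiff_const.mul hρ).sub contDiff_const)
  have hζg : ∀ k x, gradient (ζ k) x = (deriv S ((k:ℝ) * ρ x - 1) * k) • gradient ρ x := by
    intro k x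
    have h1 : gradient (fun y => S ((k:ℝ) * ρ y - 1)) x =
        deriv S ((k:ℝ) * ρ x - 1) • gradient (fun y => (k:ℝ) * ρ y - 1) x :=
      gradient_comp (hSd _) (((hρd x).const_mul _).sub_const _)
    have h2 : gradient (fun y => (k:ℝ) * ρ y - 1) x = (k:ℝ) • gradient ρ x := by
      have h3 := gradient_sub ((hρd x).const_mul (k:ℝ)) (differentiableAt_const (1:ℝ)) (x := x)
      rw [h3, gradient_const_mul _ (hρd x)]
      have : gradient (fun _ : En n => (1:ℝ)) x = 0 := by
        unfold gradient; simp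
      rw [this, sub_zero]
    rw [hζ]
    show gradient (fun y => S ((k:ℝ) * ρ y - 1)) x = _
    rw [h1, h2, smul_smul]
  have hζ0 : ∀ (k : ℕ) (x : En n), (k:ℝ) * ρ x < 1 → ζ k x = 0 := fun k x h =>
    Real.smoothTransition.zero_of_nonpos (by linarith)
  have htest : ∀ k, IsTest Ω (fun x => f x * ζ k x) := by
    intro k
    have hsub : tsupport (fun x => f x * ζ k x) ⊆ {x | 1 ≤ (k:ℝ) * ρ x} := by
      apply closure_minimal
      · intro x hx
        by_contra h
        exact hx (by simp [hζ0 k x (not_le.1 h)])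
      · exact isClosed_le continuous_const (continuous_const.mul hρc)
    have hsubΩ : {x | 1 ≤ (k:ℝ) * ρ x} ⊆ Ω := by
      intro x hx
      rw [hΩ]
      by_contra h
      have h1 : (k:ℝ) * ρ x ≤ 0 := mul_nonpos_of_nonneg_of_nonpos (by positivity) (not_lt.1 h)
      have : (1:ℝ) ≤ (k:ℝ) * ρ x := hx
      linarith
    refine ⟨?_, ?_, hsub.trans hsubΩ⟩
    · rw [contDiff_iff_contDiffAt]
      intro x
      by_cases hx : 0 < ρ x
      · exact (hf x (subset_closure ((hΩ x).2 hx))).mul (hζs k).contDiffAt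
      · have hk : (k:ℝ) * ρ x < 1 := by
          have : (k:ℝ) * ρ x ≤ 0 := mul_nonpos_of_nonneg_of_nonpos (by positivity) (not_lt.1 hx)
          linarith
        have hev : ∀ᶠ y in 𝓝 x, (k:ℝ) * ρ y < 1 :=
          (continuous_const.mul hρc).continuousAt.eventually_lt continuousAt_const hk
        have : (fun x => f x * ζ k x) =ᶠ[𝓝 x] fun _ => 0 := by
          filter_upwards [hev] with y hy
          rw [hζ0 k y hy, mul_zero]
        exact contDiffAt_const.congr_of_eventuallyEq this
    · apply IsCompact.of_isClosed_subset hb.isCompact_closure (isClosed_tsupport _)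
      exact (hsub.trans hsubΩ).trans subset_closure
  refine ⟨memLp_of_contAt ho hb hfc 2, memLp_of_contAt ho hb hgc 2, fun k x => f x * ζ k x, htest, ?_, ?_⟩
  · have mf : MemLp (fun x => |f x|) 2 ((volume : Measure (En n)).restrict Ω) := (memLp_of_contAt ho hb hfc 2).abs
    apply tendsto_eLpNorm_dom mf
    · intro k
      exact ((htest k).memLp 2).1.sub (memLp_of_contAt ho hb hfc 2).1
    · intro k
      refine ae_of_all _ fun x => ?_
      have e : f x * ζ k x - f x = f x * (ζ k x - 1) := by ring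
      rw [e, norm_mul]
      have h0 : 0 ≤ ζ k x := Real.smoothTransition.nonneg _
      have h1 : ζ k x ≤ 1 := Real.smoothTransition.le_one _
      have h3 : ‖ζ k x - 1‖ ≤ 1 := by rw [Real.norm_eq_abs, abs_le]; constructor <;> linarith
      exact mul_le_of_le_one_right (norm_nonneg _) h3
    · rw [ae_restrict_iff' ho.measurableSet]
      refine ae_of_all _ fun x hx => ?_
      have hx' := (hΩ x).1 hx
      apply tendsto_const_nhds.congr'
      obtain ⟨N, hN⟩ := exists_nat_gt (2 / ρ x)
      filter_upwards [eventually_ge_atTop N] with k hk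
      have h1 : 2 / ρ x < k := hN.trans_le (by exact_mod_cast hk)
      rw [div_lt_iff₀ hx'] at h1
      have h2 : ζ k x = 1 := Real.smoothTransition.one_of_one_le (by linarith)
      rw [h2]; ring
  · obtain ⟨Cf, hCf0, hCf⟩ := bdd_of_contAt hb hgc
    obtain ⟨Cρ, hCρ0, hCρ⟩ := bdd_of_contAt (Ω := Ω) hb (fun x _ => hgρ.continuousAt)
    have := finite_restrict hb
    have hconst : MemLp (fun _ : En n => Cf + 2 * |C| * M * Cρ) 2 ((volume : Measure (En n)).restrict Ω) :=
      memLp_const _
    have hgrad : ∀ k, ∀ x ∈ Ω, gradient (fun x => f x * ζ k x) x - gradient f x =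
        f x • ((deriv S ((k:ℝ) * ρ x - 1) * k) • gradient ρ x) + (ζ k x - 1) • gradient f x := by
      intro k x hx
      rw [gradient_mul ((hf x (subset_closure hx)).differentiableAt (by norm_num))
        ((hζs k).differentiable (by norm_num) x), hζg, sub_smul, one_smul]
      abel
    apply tendsto_eLpNorm_dom hconst
    · intro k
      exact ((htest k).grad_memLp 2).1.sub (memLp_of_contAt ho hb hgc 2).1
    · intro k
      rw [ae_restrict_iff' ho.measurableSet]
      refine ae_of_all _ fun x hx => ?_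
      have hx' := (hΩ x).1 hx
      rw [hgrad k x hx]
      refine (norm_add_le _ _).trans ?_
      have h0 : 0 ≤ ζ k x := Real.smoothTransition.nonneg _
      have h1 : ζ k x ≤ 1 := Real.smoothTransition.le_one _
      have h3 : ‖ζ k x - 1‖ ≤ 1 := by rw [Real.norm_eq_abs, abs_le]; constructor <;> linarith
      have e1 : ‖(ζ k x - 1) • gradient f x‖ ≤ Cf := by
        rw [norm_smul]
        calc _ ≤ 1 * Cf := mul_le_mul h3 (hCf x hx) (norm_nonneg _) (by norm_num)
          _ = Cf := one_mul _
      have e2 : ‖f x • ((deriv S ((k:ℝ) * ρ x - 1) * k) • gradient ρ x)‖ ≤ 2 * |C| * M * Cρ := by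
        by_cases h : 1 < (k:ℝ) * ρ x - 1
        · rw [hS, Rem.deriv_trans_zero h, zero_mul, zero_smul, smul_zero, norm_zero]
          positivity
        · push Not at h
          rw [norm_smul, norm_smul, norm_mul, Real.norm_natCast]
          have h4 : ‖f x‖ * k ≤ 2 * |C| := by
            calc ‖f x‖ * k ≤ (C * ρ x) * k := mul_le_mul_of_nonneg_right (hC x hx) (by positivity)
              _ ≤ (|C| * ρ x) * k := by gcongr; exact le_abs_self C
              _ = |C| * (k * ρ x) := by ring
              _ ≤ |C| * 2 := mul_le_mul_of_nonneg_left (by linarith) (abs_nonneg _)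
              _ = _ := by ring
          calc ‖f x‖ * (‖deriv S ((k:ℝ) * ρ x - 1)‖ * k * ‖gradient ρ x‖)
              = (‖f x‖ * k) * ‖deriv S ((k:ℝ) * ρ x - 1)‖ * ‖gradient ρ x‖ := by ring
            _ ≤ (2 * |C|) * M * Cρ := by
                apply mul_le_mul (mul_le_mul h4 (hM _) (abs_nonneg _) (by positivity)) (hCρ x hx)
                  (norm_nonneg _) (by positivity)
      linarith
    · rw [ae_restrict_iff' ho.measurableSet]
      refine ae_of_all _ fun x hx => ?_
      have hx' := (hΩ x).1 hx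
      apply tendsto_const_nhds.congr'
      obtain ⟨N, hN⟩ := exists_nat_gt (2 / ρ x)
      filter_upwards [eventually_ge_atTop N] with k hk
      have h1 : 2 / ρ x < k := hN.trans_le (by exact_mod_cast hk)
      rw [div_lt_iff₀ hx'] at h1
      have h2 : ζ k x = 1 := Real.smoothTransition.one_of_one_le (by linarith)
      rw [hgrad k x hx, h2, hS, Rem.deriv_trans_zero (by linarith)]
      simp

end Q61.Sob
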