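import Pool.Agent.Q61.Sob2

set_option autoImplicit false

open MeasureTheory InnerProductSpace Laplacian Topology Filter Set ENNReal
open scoped ContDiff

namespace Q61.Sob

variable {n : ℕ} {Ω : Set (En n)}

theorem N2_mono {α H H' : Type*} [MeasurableSpace α] {μ : Measure α} [NormedAddCommGroup H]
    [NormedAddCommGroup H'] [InnerProductSpace ℝ H] [InnerProductSpace ℝ H'] {f : α → H} {g : α → H'} {c : ℝ}
    (hc : 0 ≤ c) (hg : MemLp g 2 μ) (h : ∀ᵐ x ∂μ, ‖f x‖ ≤ c * ‖g x‖) : N2 f μ ≤ c * N2 g μ := by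
  have h1 := eLpNorm_le_mul_eLpNorm_of_ae_le_mul h 2
  have h2 := ENNReal.toReal_mono (ENNReal.mul_ne_top ENNReal.ofReal_ne_top hg.2.ne) h1
  rwa [ENNReal.toReal_mul, ENNReal.toReal_ofReal hc] at h2

/-- Poincaré inequality for test functions -/
theorem poincare_test (hn : 0 < n) {R : ℝ} (hR : 0 ≤ R) (hΩ : Ω ⊆ Metric.closedBall 0 R) {φ : En n → ℝ}
    (h : IsTest Ω φ) : N2 φ (volume : Measure (En n)) ≤ 2 * R * N2 (gradient φ) volume := by
  set i : Fin n := ⟨0, hn⟩ with hi
  have hφ1 : ContDiff ℝ 1 φ := h.1.of_le (by exact_mod_cast le_top)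
  have hφd : Differentiable ℝ φ := hφ1.differentiable (by norm_num)
  have hcont := h.1.continuous
  have hdc : Continuous (fun x => fderiv ℝ φ x (ev i)) :=
    (hφ1.continuous_fderiv (by norm_num)).clm_apply continuous_const
  have hcs : HasCompactSupport (fun x => fderiv ℝ φ x (ev i)) := h.2.1.fderiv_apply (𝕜 := ℝ) (v := ev i)
  have hxc : Continuous (fun x : En n => x i) := (contDiff_coord i (k := 0)).continuous
  have hsq : HasCompactSupport (fun x => φ x ^ 2) := h.2.1.comp_left (g := fun y => y ^ 2) (by norm_num)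
  have hd2 : ∀ x, fderiv ℝ (fun x => φ x ^ 2) x (ev i) = 2 * (φ x * fderiv ℝ φ x (ev i)) := by
    intro x
    have := ((hφd x).hasFDerivAt.pow 2).fderiv
    rw [this]; simp; ring
  have ibp : ∫ x, (x i) * fderiv ℝ (fun x => φ x ^ 2) x (ev i) ∂(volume : Measure (En n)) = -∫ x, fderiv ℝ (fun x : En n => x i) x (ev i) * φ x ^ 2 := by
    apply integral_mul_fderiv_eq_neg_fderiv_mul_of_integrable
    · simp only [fderiv_coord]
      exact (continuous_const.mul (hcont.pow 2)).integrable_of_hasCompactSupport hsq.mul_left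
    · simp only [hd2]
      exact (hxc.mul (continuous_const.mul (hcont.mul hdc))).integrable_of_hasCompactSupport
        (hcs.mul_left.mul_left.mul_left)
    · exact (hxc.mul (hcont.pow 2)).integrable_of_hasCompactSupport hsq.mul_left
    · intro x _
      exact (contDiff_coord i (k := 1)).differentiable (by norm_num) x
    · intro x _
      exact (hφd x).pow 2
  have e1 : ∀ x : En n, fderiv ℝ (fun x : En n => x i) x (ev i) = 1 := by
    intro x; rw [fderiv_coord]; simp [ev]
  simp only [e1, one_mul, hd2] at ibp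
  have mφ : MemLp φ 2 (volume : Measure (En n)) := h.memLp 2
  have mg : MemLp (gradient φ) 2 (volume : Measure (En n)) := h.grad_memLp 2
  have mx : MemLp (fun x : En n => x i * φ x) 2 (volume : Measure (En n)) :=
    (hxc.mul hcont).memLp_of_hasCompactSupport h.2.1.mul_left
  have md : MemLp (fun x => fderiv ℝ φ x (ev i)) 2 (volume : Measure (En n)) :=
    hdc.memLp_of_hasCompactSupport hcs
  have e2 : N2 φ (volume : Measure (En n)) ^ 2 = -(2 * ∫ x, (x i * φ x) * fderiv ℝ φ x (ev i)) := by
    rw [N2_sq mφ, ← integral_const_mul]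
    have : ∫ x, ‖φ x‖ ^ 2 ∂(volume : Measure (En n)) = ∫ x, φ x ^ 2 := by
      congr 1; funext x; rw [Real.norm_eq_abs, sq_abs]
    rw [this]
    have h2 : ∫ x : En n, x i * (2 * (φ x * fderiv ℝ φ x (ev i))) = ∫ x, 2 * (x i * φ x * fderiv ℝ φ x (ev i)) := by
      congr 1; funext x; ring
    rw [← h2, ibp, neg_neg]
  have e3 := pairR_le mx md
  have e4 : N2 (fun x : En n => x i * φ x) (volume : Measure (En n)) ≤ R * N2 φ volume := by
    apply N2_mono hR mφ
    refine ae_of_all _ fun x => ?_
    rw [norm_mul]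
    by_cases hx : x ∈ Ω
    · have h5 : ‖x i‖ ≤ R := by
        have h6 := hΩ hx
        rw [mem_closedBall_zero_iff] at h6
        exact (PiLp.norm_apply_le x i).trans h6
      exact mul_le_mul_of_nonneg_right h5 (norm_nonneg _)
    · rw [h.out hx, norm_zero, mul_zero, mul_zero]
  have e5 : N2 (fun x => fderiv ℝ φ x (ev i)) (volume : Measure (En n)) ≤ 1 * N2 (gradient φ) volume := by
    apply N2_mono zero_le_one mg
    refine ae_of_all _ fun x => ?_
    rw [one_mul, ← gradient_coord]
    exact PiLp.norm_apply_le _ i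
  have hN := N2_nonneg (μ := (volume : Measure (En n))) φ
  have hG := N2_nonneg (μ := (volume : Measure (En n))) (gradient φ)
  have hX := N2_nonneg (μ := (volume : Measure (En n))) (fun x : En n => x i * φ x)
  have hD := N2_nonneg (μ := (volume : Measure (En n))) (fun x => fderiv ℝ φ x (ev i))
  have e6 : N2 φ (volume : Measure (En n)) ^ 2 ≤ 2 * (R * N2 φ volume * N2 (gradient φ) volume) := by
    rw [e2]
    have := neg_le_abs (∫ x, (x i * φ x) * fderiv ℝ φ x (ev i))
    have h7 : N2 (fun x : En n => x i * φ x) volume * N2 (fun x => fderiv ℝ φ x (ev i)) volume ≤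
        (R * N2 φ volume) * (1 * N2 (gradient φ) volume) := mul_le_mul e4 e5 hD (by positivity)
    rw [one_mul] at h7
    linarith
  rcases eq_or_lt_of_le hN with h0 | h0
  · rw [← h0]; positivity
  · have : N2 φ (volume : Measure (En n)) * N2 φ volume ≤ N2 φ volume * (2 * R * N2 (gradient φ) volume) := by
      calc _ = N2 φ (volume : Measure (En n)) ^ 2 := by ring
        _ ≤ _ := e6
        _ = _ := by ring
    exact le_of_mul_le_mul_left this h0

/-- test functions: norms over the domain and over the space agree -/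
theorem N2_restrict {H : Type*} [NormedAddCommGroup H] [InnerProductSpace ℝ H] {f : En n → H}
    (hm : MeasurableSet Ω) (h : ∀ x ∉ Ω, f x = 0) : N2 f ((volume : Measure (En n)).restrict Ω) = N2 f volume := by
  unfold N2
  have h1 : Ω.indicator f = f := by
    funext x
    by_cases hx : x ∈ Ω
    · rw [indicator_of_mem hx]
    · rw [indicator_of_notMem hx, h x hx]
  rw [← eLpNorm_indicator_eq_eLpNorm_restrict hm, h1]

/-- Poincaré inequality in `H¹₀` -/
theorem poincare (hn : 0 < n) (ho : IsOpen Ω) {R : ℝ} (hR : 0 ≤ R) (hΩ : Ω ⊆ Metric.closedBall 0 R)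
    {w : En n → ℝ} {W : En n → En n} (hw : IsH10 Ω w W) :
    N2 w ((volume : Measure (En n)).restrict Ω) ≤ 2 * R * N2 W (volume.restrict Ω) := by
  obtain ⟨m1, m2, φ, hφ, l1, l2⟩ := hw
  have t1 := tendsto_N2 (fun k => (hφ k).memLp 2) m1 l1
  have t2 := (tendsto_N2 (fun k => (hφ k).grad_memLp 2) m2 l2).const_mul (2 * R)
  refine le_of_tendsto_of_tendsto' t1 t2 fun k => ?_
  rw [N2_restrict ho.measurableSet (fun x hx => (hφ k).out hx),
    N2_restrict ho.measurableSet (fun x hx => (hφ k).grad_out hx)]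
  exact poincare_test hn hR hΩ (hφ k)

theorem ae_zero_of_N2 {α H : Type*} [MeasurableSpace α] {μ : Measure α} [NormedAddCommGroup H]
    {f : α → H} (hf : MemLp f 2 μ) (h : N2 f μ = 0) : f =ᵐ[μ] 0 := by
  have h2 : eLpNorm f 2 μ = 0 := by
    have := (ENNReal.toReal_eq_zero_iff _).1 h
    exact this.resolve_right hf.2.ne
  exact (eLpNorm_eq_zero_iff hf.1 (by norm_num)).1 h2

end Q61.Sob
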