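import Pool.Agent.Q61.Sob3

set_option autoImplicit false

open MeasureTheory InnerProductSpace Laplacian Topology Filter Set ENNReal
open scoped ContDiff

namespace Q61.Sob

variable {n : ℕ} {Ω : Set (En n)}

theorem two_le : (2 : WithTop ℕ∞) ≤ ((⊤ : ℕ∞) : WithTop ℕ∞) := ENat.LEInfty.out

theorem IsTest.comp_S {φ : En n → ℝ} (h : IsTest Ω φ) : IsTest Ω (fun x => Real.smoothTransition (φ x)) := by
  refine ⟨Real.smoothTransition.contDiff.comp h.1, ?_, ?_⟩
  · exact h.2.1.comp_left (g := Real.smoothTransition) Real.smoothTransition.zero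
  · refine Subset.trans ?_ h.2.2
    exact closure_mono (fun x hx h0 => hx (by
      show Real.smoothTransition (φ x) = 0
      rw [h0]; exact Real.smoothTransition.zero))

/-- weak maximum principle -/
theorem max_principle (hn : 0 < n) (ho : IsOpen Ω) (hb : Bornology.IsBounded Ω)
    {w : En n → ℝ} {W : En n → En n} (hw : IsH10 Ω w W)
    (h : ∀ ψ : En n → ℝ, IsTest Ω ψ → (∀ x, 0 ≤ ψ x) → ∫ x in Ω, inner ℝ (W x) (gradient ψ x) ≤ 0) :
    ∀ᵐ x ∂(volume : Measure (En n)).restrict Ω, w x ≤ 0 := by
  obtain ⟨R, hR0, hR⟩ : ∃ R : ℝ, 0 ≤ R ∧ Ω ⊆ Metric.closedBall 0 R := by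
    obtain ⟨R, hR⟩ := hb.subset_closedBall 0
    exact ⟨max R 0, le_max_right _ _, hR.trans (Metric.closedBall_subset_closedBall (le_max_left _ _))⟩
  obtain ⟨m1, m2, φ, hφ, l1, l2⟩ := hw
  have hfin := finite_restrict hb
  -- a.e. convergent subsequence
  have hm : TendstoInMeasure ((volume : Measure (En n)).restrict Ω) φ atTop w := by
    apply tendstoInMeasure_of_tendsto_eLpNorm (p := 2) (by norm_num) (fun k => ((hφ k).memLp 2).1) m1.1
    exact l1
  obtain ⟨ns, hns, hae⟩ := hm.exists_seq_tendsto_ae
  set g : ℕ → En n → ℝ := fun k => φ (ns k) with hg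
  have hgt : ∀ k, IsTest Ω (g k) := fun k => hφ (ns k)
  have l2' : Tendsto (fun k => eLpNorm (fun x => gradient (g k) x - W x) 2 ((volume : Measure (En n)).restrict Ω))
    atTop (𝓝 0) := l2.comp hns.tendsto_atTop
  obtain ⟨M, hM0, hM⟩ := Rem.exists_M
  have hSd : Differentiable ℝ Real.smoothTransition :=
    (Real.smoothTransition.contDiff (n := 1)).differentiable (by norm_num)
  have hSc : Continuous (deriv Real.smoothTransition) :=
    (contDiff_deriv Real.smoothTransition.contDiff).continuous
  have hS0 : ∀ s, 0 ≤ deriv Real.smoothTransition s := fun s => Real.smoothTransition.monotone.deriv_nonneg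
  -- the field `S'(w) W`
  have mSW : ∀ v : En n → ℝ, AEStronglyMeasurable v ((volume : Measure (En n)).restrict Ω) →
      ∀ V : En n → En n, MemLp V 2 ((volume : Measure (En n)).restrict Ω) →
      MemLp (fun x => deriv Real.smoothTransition (v x) • V x) 2 ((volume : Measure (En n)).restrict Ω) := by
    intro v hv V hV
    apply MemLp.of_le_mul (c := M) hV
    · exact (hSc.comp_aestronglyMeasurable hv).smul hV.1
    · refine ae_of_all _ fun x => ?_
      rw [norm_smul]
      exact mul_le_mul_of_nonneg_right (hM _) (norm_nonneg _)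
  have lSW : Tendsto (fun k => eLpNorm (fun x => deriv Real.smoothTransition (g k x) • W x -
      deriv Real.smoothTransition (w x) • W x) 2 ((volume : Measure (En n)).restrict Ω)) atTop (𝓝 0) := by
    apply tendsto_eLpNorm_dom (g := fun x => 2 * M * ‖W x‖) (m2.norm.const_mul (2 * M))
    · intro k
      exact (mSW _ ((hgt k).memLp 2).1 W m2).1.sub (mSW _ m1.1 W m2).1
    · intro k
      refine ae_of_all _ fun x => ?_
      rw [← sub_smul, norm_smul]
      apply mul_le_mul_of_nonneg_right _ (norm_nonneg _)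
      refine (norm_sub_le _ _).trans ?_
      have a := hM (g k x)
      have b := hM (w x)
      rw [Real.norm_eq_abs, Real.norm_eq_abs]
      linarith
    · filter_upwards [hae] with x hx
      have h1 : Tendsto (fun k => deriv Real.smoothTransition (g k x)) atTop
        (𝓝 (deriv Real.smoothTransition (w x))) := (hSc.tendsto _).comp hx
      have h2 := (h1.smul_const (W x)).sub_const (deriv Real.smoothTransition (w x) • W x)
      rwa [sub_self] at h2
  have hgradS : ∀ k x, gradient (fun x => Real.smoothTransition (g k x)) x =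
      deriv Real.smoothTransition (g k x) • gradient (g k) x := fun k x =>
    gradient_comp (hSd _) ((hgt k).1.differentiable (by norm_num) x)
  -- step 1
  have s1 : ∫ x in Ω, inner ℝ (deriv Real.smoothTransition (w x) • W x) (W x) ≤ 0 := by
    have t := tendsto_pair2 (mSW _ m1.1 W m2) m2 (fun k => mSW _ ((hgt k).memLp 2).1 W m2)
      (fun k => (hgt k).grad_memLp 2) lSW l2'
    refine le_of_tendsto' t fun k => ?_
    have := h _ (hgt k).comp_S (fun x => Real.smoothTransition.nonneg _)
    refine le_trans (le_of_eq ?_) this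
    congr 1; funext x
    rw [hgradS, real_inner_smul_left, real_inner_smul_right]
  have s2 : (fun x => deriv Real.smoothTransition (w x) • W x) =ᵐ[(volume : Measure (En n)).restrict Ω] 0 := by
    have hnn : 0 ≤ᵐ[(volume : Measure (En n)).restrict Ω]
        fun x => inner ℝ (deriv Real.smoothTransition (w x) • W x) (W x) := by
      refine ae_of_all _ fun x => ?_
      show 0 ≤ inner ℝ (deriv Real.smoothTransition (w x) • W x) (W x)
      rw [real_inner_smul_left]
      exact mul_nonneg (hS0 _) real_inner_self_nonneg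
    have hz : ∫ x in Ω, inner ℝ (deriv Real.smoothTransition (w x) • W x) (W x) = 0 :=
      le_antisymm s1 (integral_nonneg_of_ae hnn)
    have hz2 := (integral_eq_zero_iff_of_nonneg_ae hnn (pair_integrable (mSW _ m1.1 W m2) m2)).1 hz
    filter_upwards [hz2] with x hx
    rw [real_inner_smul_left, Pi.zero_apply, mul_eq_zero, inner_self_eq_zero] at hx
    rcases hx with hx | hx
    · rw [hx, zero_smul]; rfl
    · rw [hx, smul_zero]; rfl
  -- step 2
  have lS : Tendsto (fun k => eLpNorm (fun x => Real.smoothTransition (g k x) - Real.smoothTransition (w x)) 2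
      ((volume : Measure (En n)).restrict Ω)) atTop (𝓝 0) := by
    apply tendsto_eLpNorm_dom (g := fun _ => 1) (memLp_const _)
    · intro k
      exact (Real.smoothTransition.continuous.comp_aestronglyMeasurable ((hgt k).memLp 2).1).sub
        (Real.smoothTransition.continuous.comp_aestronglyMeasurable m1.1)
    · intro k
      refine ae_of_all _ fun x => ?_
      have a1 := Real.smoothTransition.nonneg (g k x)
      have a2 := Real.smoothTransition.le_one (g k x)
      have a3 := Real.smoothTransition.nonneg (w x)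
      have a4 := Real.smoothTransition.le_one (w x)
      rw [Real.norm_eq_abs, abs_le]; constructor <;> linarith
    · filter_upwards [hae] with x hx
      have h1 : Tendsto (fun k => Real.smoothTransition (g k x)) atTop
        (𝓝 (Real.smoothTransition (w x))) := (Real.smoothTransition.continuous.tendsto _).comp hx
      have h2 := h1.sub_const (Real.smoothTransition (w x))
      rwa [sub_self] at h2
  have mS : MemLp (fun x => Real.smoothTransition (w x)) 2 ((volume : Measure (En n)).restrict Ω) := by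
    apply MemLp.of_bound (Real.smoothTransition.continuous.comp_aestronglyMeasurable m1.1) 1
    refine ae_of_all _ fun x => ?_
    rw [Real.norm_of_nonneg (Real.smoothTransition.nonneg _)]
    exact Real.smoothTransition.le_one _
  have lG : Tendsto (fun k => eLpNorm (fun x => gradient (fun x => Real.smoothTransition (g k x)) x - 0) 2
      ((volume : Measure (En n)).restrict Ω)) atTop (𝓝 0) := by
    have hA : Tendsto (fun k => eLpNorm (fun x => deriv Real.smoothTransition (g k x) • W x) 2
        ((volume : Measure (En n)).restrict Ω)) atTop (𝓝 0) := by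
      refine lSW.congr fun k => ?_
      apply eLpNorm_congr_ae
      filter_upwards [s2] with x hx
      have hx' : deriv Real.smoothTransition (w x) • W x = 0 := hx
      rw [hx', sub_zero]
    have hB : Tendsto (fun k => ENNReal.ofReal M * eLpNorm (fun x => gradient (g k) x - W x) 2
        ((volume : Measure (En n)).restrict Ω)) atTop (𝓝 0) := by
      have := ENNReal.Tendsto.const_mul (a := ENNReal.ofReal M) l2' (Or.inr ENNReal.ofReal_ne_top)
      rwa [mul_zero] at this
    have hAB := hA.add hB
    rw [add_zero] at hAB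
    refine tendsto_of_tendsto_of_tendsto_of_le_of_le tendsto_const_nhds hAB (fun _ => zero_le) fun k => ?_
    have e : (fun x => gradient (fun x => Real.smoothTransition (g k x)) x - 0) =
        (fun x => deriv Real.smoothTransition (g k x) • W x) +
        fun x => deriv Real.smoothTransition (g k x) • (gradient (g k) x - W x) := by
      funext x
      rw [hgradS, Pi.add_apply, sub_zero, smul_sub]; abel
    have mm := mSW _ ((hgt k).memLp 2).1 W m2
    have mm2 := mSW _ ((hgt k).memLp 2).1 _ (((hgt k).grad_memLp 2).sub m2)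
    show eLpNorm (fun x => gradient (fun x => Real.smoothTransition (g k x)) x - 0) 2 _ ≤ _
    rw [e]
    refine (eLpNorm_add_le mm.1 mm2.1 (by norm_num)).trans ?_
    apply add_le_add le_rfl
    apply eLpNorm_le_mul_eLpNorm_of_ae_le_mul
    refine ae_of_all _ fun x => ?_
    rw [norm_smul]
    exact mul_le_mul_of_nonneg_right (hM _) (norm_nonneg _)
  have hH : IsH10 Ω (fun x => Real.smoothTransition (w x)) (fun _ => 0) :=
    ⟨mS, MemLp.zero', fun k x => Real.smoothTransition (g k x), fun k => (hgt k).comp_S, lS, lG⟩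
  have hP := poincare hn ho hR0 hR hH
  have hN0 : N2 (fun _ : En n => (0 : En n)) ((volume : Measure (En n)).restrict Ω) = 0 := by
    unfold N2; simp
  rw [hN0, mul_zero] at hP
  have hz := ae_zero_of_N2 mS (le_antisymm hP (N2_nonneg _))
  filter_upwards [hz] with x hx
  exact Real.smoothTransition.zero_iff_nonpos.1 hx

/-- Hardy-Barta inequality for test functions -/
theorem barta_test {Φ c : En n → ℝ} (hΦ : ∀ x ∈ Ω, ContDiffAt ℝ ∞ Φ x) (hpos : ∀ x ∈ Ω, 0 < Φ x)
    {γ : ℝ} (hc : ∀ x ∈ Ω, γ * c x * Φ x ≤ -(Δ Φ) x) {φ : En n → ℝ} (h : IsTest Ω φ)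
    (hint : IntegrableOn (fun x => c x * φ x ^ 2) Ω) (ho : IsOpen Ω) :
    γ * ∫ x in Ω, c x * φ x ^ 2 ≤ ∫ x in Ω, ‖gradient φ x‖ ^ 2 := by
  -- the test function `φ² / Φ`
  have hψ : IsTest Ω (fun x => φ x ^ 2 * (Φ x)⁻¹) := by
    have hsub : tsupport (fun x => φ x ^ 2 * (Φ x)⁻¹) ⊆ tsupport φ := closure_mono (fun x hx h0 => hx (by
      show φ x ^ 2 * (Φ x)⁻¹ = 0
      rw [h0]; ring))
    refine ⟨?_, ?_, hsub.trans h.2.2⟩
    · rw [contDiff_iff_contDiffAt]
      intro x
      by_cases hx : x ∈ tsupport φ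
      · exact (h.1.contDiffAt.pow 2).mul ((hΦ x (h.2.2 hx)).inv (hpos x (h.2.2 hx)).ne')
      · have h1 : (fun x => φ x ^ 2 * (Φ x)⁻¹) =ᶠ[𝓝 x] fun _ => 0 := by
          have : (tsupport φ)ᶜ ∈ 𝓝 x := (isClosed_tsupport φ).isOpen_compl.mem_nhds hx
          filter_upwards [this] with y hy
          rw [image_eq_zero_of_notMem_tsupport hy]; ring
        exact contDiffAt_const.congr_of_eventuallyEq h1
    · exact h.2.1.of_isClosed_subset (isClosed_tsupport _) hsub
  have hg := green_test hψ (fun x hx => (hΦ x hx).of_le two_le) (Ω := Ω)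
  have hφd := h.1.differentiable (by norm_num : (∞ : WithTop ℕ∞) ≠ 0)
  have pt : ∀ x ∈ Ω, inner ℝ (gradient Φ x) (gradient (fun x => φ x ^ 2 * (Φ x)⁻¹) x) ≤ ‖gradient φ x‖ ^ 2 := by
    intro x hx
    have hP := hpos x hx
    have hΦd : DifferentiableAt ℝ Φ x := (hΦ x hx).differentiableAt (by norm_num)
    have e1 : gradient (fun x => φ x ^ 2) x = (2 * φ x) • gradient φ x := by
      have := gradient_comp (F := fun t : ℝ => t ^ 2) (g := φ) (x := x) (by fun_prop) (hφd x)
      rw [this]; simp
    have e2 : gradient (fun x => (Φ x)⁻¹) x = (-((Φ x) ^ 2)⁻¹) • gradient Φ x := by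
      have h3 := gradient_comp (F := fun t : ℝ => t⁻¹) (g := Φ) (x := x)
        (differentiableAt_inv hP.ne') hΦd
      rw [h3]; simp
    have e3 : gradient (fun x => φ x ^ 2 * (Φ x)⁻¹) x =
        (φ x ^ 2) • ((-((Φ x) ^ 2)⁻¹) • gradient Φ x) + ((Φ x)⁻¹) • ((2 * φ x) • gradient φ x) := by
      have h6 := gradient_mul (f := fun x => φ x ^ 2) (g := fun x => (Φ x)⁻¹) (x := x) ((hφd x).pow 2)
        (hΦd.inv hP.ne')
      rw [h6, e1, e2]
    rw [e3, inner_add_right, real_inner_smul_right, real_inner_smul_right, real_inner_smul_right,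
      real_inner_smul_right]
    have key : 0 ≤ ‖gradient φ x - (φ x * (Φ x)⁻¹) • gradient Φ x‖ ^ 2 := sq_nonneg _
    rw [norm_sub_sq_real, norm_smul, real_inner_smul_right, mul_pow, Real.norm_eq_abs, sq_abs] at key
    rw [real_inner_self_eq_norm_sq, real_inner_comm (gradient φ x)]
    have e4 : (Φ x ^ 2)⁻¹ = (Φ x)⁻¹ ^ 2 := (inv_pow _ _).symm
    rw [e4]
    linarith
  have i1 : IntegrableOn (fun x => inner ℝ (gradient Φ x) (gradient (fun x => φ x ^ 2 * (Φ x)⁻¹) x)) Ω := by
    have hcont : Continuous (fun x => inner ℝ (gradient Φ x) (gradient (fun x => φ x ^ 2 * (Φ x)⁻¹) x)) := by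
      rw [continuous_iff_continuousAt]
      intro x
      by_cases hx : x ∈ tsupport (fun x => φ x ^ 2 * (Φ x)⁻¹)
      · exact (gradient_contAt ((hΦ x (hψ.2.2 hx)).of_le (by exact_mod_cast le_top))).inner
          (gradient_cont (hψ.1.of_le (by exact_mod_cast le_top))).continuousAt
      · have : (tsupport (fun x => φ x ^ 2 * (Φ x)⁻¹))ᶜ ∈ 𝓝 x := (isClosed_tsupport _).isOpen_compl.mem_nhds hx
        have h1 : (fun x => inner ℝ (gradient Φ x) (gradient (fun x => φ x ^ 2 * (Φ x)⁻¹) x)) =ᶠ[𝓝 x] fun _ => 0 := by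
          filter_upwards [this] with y hy
          rw [gradient_supp hy, inner_zero_right]
        exact continuousAt_const.congr h1.symm
    apply Integrable.integrableOn
    apply hcont.integrable_of_hasCompactSupport
    exact HasCompactSupport.intro hψ.2.1 fun x hx => by rw [gradient_supp hx, inner_zero_right]
  have i2 : IntegrableOn (fun x => ‖gradient φ x‖ ^ 2) Ω := by
    have := (h.grad_memLp 2 (μ := (volume : Measure (En n)).restrict Ω)).norm.integrable_sq
    exact this
  have i3 : IntegrableOn (fun x => (Δ Φ) x * (φ x ^ 2 * (Φ x)⁻¹)) Ω := by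
    apply Integrable.integrableOn
    apply integrable_mul_of_tsupport _ hψ.1.continuous hψ.2.1
    intro x hx
    exact lap_contAt ((hΦ x (hψ.2.2 hx)).of_le two_le)
  calc γ * ∫ x in Ω, c x * φ x ^ 2 = ∫ x in Ω, γ * (c x * φ x ^ 2) := (integral_const_mul _ _).symm
    _ ≤ ∫ x in Ω, -((Δ Φ) x * (φ x ^ 2 * (Φ x)⁻¹)) := by
        apply setIntegral_mono_on (hint.const_mul γ) i3.neg ho.measurableSet
        intro x hx
        have h1 := hc x hx
        have hP := hpos x hx
        have h2 : 0 ≤ φ x ^ 2 * (Φ x)⁻¹ := by positivity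
        have h7 : Φ x * (Φ x)⁻¹ = 1 := mul_inv_cancel₀ hP.ne'
        have h8 : γ * (c x * φ x ^ 2) = (γ * c x * Φ x) * (φ x ^ 2 * (Φ x)⁻¹) := by
          calc γ * (c x * φ x ^ 2) = γ * (c x * φ x ^ 2) * (Φ x * (Φ x)⁻¹) := by rw [h7, mul_one]
            _ = (γ * c x * Φ x) * (φ x ^ 2 * (Φ x)⁻¹) := by ring
        have h9 : (γ * c x * Φ x) * (φ x ^ 2 * (Φ x)⁻¹) ≤ (-(Δ Φ) x) * (φ x ^ 2 * (Φ x)⁻¹) :=
          mul_le_mul_of_nonneg_right h1 h2
        rw [neg_mul] at h9
        show γ * (c x * φ x ^ 2) ≤ -((Δ Φ) x * (φ x ^ 2 * (Φ x)⁻¹))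
        rw [h8]; exact h9
    _ = ∫ x in Ω, inner ℝ (gradient Φ x) (gradient (fun x => φ x ^ 2 * (Φ x)⁻¹) x) := by
        rw [hg, integral_neg]
    _ ≤ _ := setIntegral_mono_on i1 i2 ho.measurableSet pt

end Q61.Sob
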