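import Pool.Agent.Q61.Sob4

set_option autoImplicit false

open MeasureTheory InnerProductSpace Laplacian Topology Filter Set ENNReal
open scoped ContDiff

namespace Q61.Sob

variable {n : ℕ} {Ω : Set (En n)}

theorem IsTest.sub {φ ψ : En n → ℝ} (h1 : IsTest Ω φ) (h2 : IsTest Ω ψ) : IsTest Ω (fun x => φ x - ψ x) := by
  refine ⟨h1.1.sub h2.1, h1.2.1.sub h2.2.1, ?_⟩
  refine Subset.trans ?_ (union_subset h1.2.2 h2.2.2)
  apply closure_minimal _ ((isClosed_tsupport _).union (isClosed_tsupport _))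
  intro x hx
  by_contra h
  rw [mem_union, not_or] at h
  apply hx
  show φ x - ψ x = 0
  rw [image_eq_zero_of_notMem_tsupport h.1, image_eq_zero_of_notMem_tsupport h.2, sub_zero]

theorem IsTest.const_mul {φ : En n → ℝ} (c : ℝ) (h : IsTest Ω φ) : IsTest Ω (fun x => c * φ x) := by
  refine ⟨contDiff_const.mul h.1, h.2.1.mul_left, ?_⟩
  refine Subset.trans ?_ h.2.2
  exact closure_mono (fun x hx h0 => hx (by
    show c * φ x = 0
    rw [h0, mul_zero]))

theorem IsTest.diff {φ : En n → ℝ} (h : IsTest Ω φ) : Differentiable ℝ φ := h.1.differentiable (by norm_num)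

theorem IsH10.sub {u v : En n → ℝ} {G V : En n → En n} (h1 : IsH10 Ω u G) (h2 : IsH10 Ω v V) :
    IsH10 Ω (fun x => u x - v x) (fun x => G x - V x) := by
  obtain ⟨a1, a2, φ, hφ, l1, l2⟩ := h1
  obtain ⟨b1, b2, ψ, hψ, k1, k2⟩ := h2
  refine ⟨a1.sub b1, a2.sub b2, fun k x => φ k x - ψ k x, fun k => (hφ k).sub (hψ k), ?_, ?_⟩
  · have h := l1.add k1
    rw [add_zero] at h
    refine tendsto_of_tendsto_of_tendsto_of_le_of_le tendsto_const_nhds h (fun _ => zero_le) fun k => ?_
    have e : (fun x => φ k x - ψ k x - (u x - v x)) = (fun x => φ k x - u x) - fun x => ψ k x - v x := by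
      funext x; simp only [Pi.sub_apply]; ring
    show eLpNorm (fun x => φ k x - ψ k x - (u x - v x)) 2 _ ≤ _
    rw [e]
    exact eLpNorm_sub_le (((hφ k).memLp 2).sub a1).1 (((hψ k).memLp 2).sub b1).1 (by norm_num)
  · have h := l2.add k2
    rw [add_zero] at h
    refine tendsto_of_tendsto_of_tendsto_of_le_of_le tendsto_const_nhds h (fun _ => zero_le) fun k => ?_
    have e : (fun x => gradient (fun x => φ k x - ψ k x) x - (G x - V x)) =
        (fun x => gradient (φ k) x - G x) - fun x => gradient (ψ k) x - V x := by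
      funext x
      rw [gradient_sub ((hφ k).diff x) ((hψ k).diff x)]
      simp only [Pi.sub_apply]; abel
    show eLpNorm (fun x => gradient (fun x => φ k x - ψ k x) x - (G x - V x)) 2 _ ≤ _
    rw [e]
    exact eLpNorm_sub_le (((hφ k).grad_memLp 2).sub a2).1 (((hψ k).grad_memLp 2).sub b2).1 (by norm_num)

theorem IsH10.const_mul {u : En n → ℝ} {G : En n → En n} (c : ℝ) (h1 : IsH10 Ω u G) :
    IsH10 Ω (fun x => c * u x) (fun x => c • G x) := by
  obtain ⟨a1, a2, φ, hφ, l1, l2⟩ := h1
  refine ⟨a1.const_mul c, a2.const_smul c, fun k x => c * φ k x, fun k => (hφ k).const_mul c, ?_, ?_⟩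
  · have h := ENNReal.Tendsto.const_mul (a := ‖c‖ₑ) l1 (Or.inr (by simp))
    rw [mul_zero] at h
    refine h.congr fun k => ?_
    rw [← eLpNorm_const_smul]
    apply eLpNorm_congr_ae
    refine ae_of_all _ fun x => ?_
    simp only [Pi.smul_apply, smul_eq_mul]; ring
  · have h := ENNReal.Tendsto.const_mul (a := ‖c‖ₑ) l2 (Or.inr (by simp))
    rw [mul_zero] at h
    refine h.congr fun k => ?_
    rw [← eLpNorm_const_smul]
    apply eLpNorm_congr_ae
    refine ae_of_all _ fun x => ?_
    simp only [Pi.smul_apply]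
    rw [gradient_const_mul _ ((hφ k).diff x), smul_sub]

end Q61.Sob
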