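import Pool.Agent.Q61.Lap

set_option autoImplicit false

open InnerProductSpace Laplacian Topology Filter Set
open scoped ContDiff ComplexConjugate

namespace Q61.Stress

noncomputable def P (z : ℂ) : ℂ := 60 * z ^ 2 + 27 * z ^ 4 + 10 * z ^ 6

noncomputable def P' (z : ℂ) : ℂ := 120 * z + 108 * z ^ 3 + 60 * z ^ 5

noncomputable def P'' (z : ℂ) : ℂ := 120 + 324 * z ^ 2 + 300 * z ^ 4

/-- the torsion function -/
noncomputable def u (z : ℂ) : ℝ := (1 - ‖z‖ ^ 2) / 2 + 1 / 10 ^ 7 * (P z).re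

def Ω : Set ℂ := {z | ‖z‖ < 2 ∧ 0 < u z}

def q (z : ℂ) : ℝ := z.re ^ 2 - z.im ^ 2

def s (z : ℂ) : ℝ := z.re ^ 2 + z.im ^ 2

theorem norm_sq_eq (z : ℂ) : ‖z‖ ^ 2 = s z := by
  rw [← Complex.normSq_eq_norm_sq, Complex.normSq_apply, s]; ring

theorem P_re (z : ℂ) : (P z).re = 60 * q z + 27 * (2 * q z ^ 2 - s z ^ 2) +
    10 * (4 * q z ^ 3 - 3 * q z * s z ^ 2) := by
  simp only [P, q, s, pow_succ, pow_zero, one_mul, Complex.add_re, Complex.mul_re, Complex.mul_im,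
    Complex.re_ofNat, Complex.im_ofNat]
  ring

theorem zP_re (z : ℂ) : (z * P' z).re = 120 * q z + 108 * (2 * q z ^ 2 - s z ^ 2) +
    60 * (4 * q z ^ 3 - 3 * q z * s z ^ 2) := by
  simp only [P', q, s, pow_succ, pow_zero, one_mul, Complex.add_re, Complex.add_im, Complex.mul_re,
    Complex.mul_im, Complex.re_ofNat, Complex.im_ofNat]
  ring

theorem P_bound {z : ℂ} (hz : ‖z‖ ≤ 2) : |(P z).re| ≤ 1312 := by
  refine (Complex.abs_re_le_norm _).trans ?_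
  unfold P
  refine (norm_add_le _ _).trans ?_
  refine (add_le_add_left (norm_add_le _ _) _).trans ?_
  simp only [norm_mul, norm_pow, Complex.norm_ofNat]
  have h0 := norm_nonneg z
  have h2 : ‖z‖ ^ 2 ≤ 2 ^ 2 := pow_le_pow_left₀ h0 hz 2
  have h4 : ‖z‖ ^ 4 ≤ 2 ^ 4 := pow_le_pow_left₀ h0 hz 4
  have h6 : ‖z‖ ^ 6 ≤ 2 ^ 6 := pow_le_pow_left₀ h0 hz 6
  norm_num at h2 h4 h6
  linarith

theorem P'_bound {z : ℂ} (hz : ‖z‖ ≤ 2) : ‖P' z‖ ≤ 3024 := by
  unfold P'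
  refine (norm_add_le _ _).trans ?_
  refine (add_le_add_left (norm_add_le _ _) _).trans ?_
  simp only [norm_mul, norm_pow, Complex.norm_ofNat]
  have h0 := norm_nonneg z
  have h2 : ‖z‖ ^ 3 ≤ 2 ^ 3 := pow_le_pow_left₀ h0 hz 3
  have h4 : ‖z‖ ^ 5 ≤ 2 ^ 5 := pow_le_pow_left₀ h0 hz 5
  norm_num at h2 h4
  linarith

theorem u_cont : Continuous u := by
  unfold u P; fun_prop

theorem u_smooth : ContDiff ℝ ∞ u := by
  unfold u
  have h1 : ContDiff ℝ ∞ (fun z : ℂ => ‖z‖ ^ 2) := contDiff_id.norm_sq ℝ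
  have h2 : ContDiff ℝ ∞ P := by unfold P; fun_prop
  have h3 : ContDiff ℝ ∞ (fun z : ℂ => (P z).re) := Complex.reCLM.contDiff.comp h2
  exact ((contDiff_const.sub h1).div_const 2).add (contDiff_const.mul h3)

theorem hasDerivAt_P (z : ℂ) : HasDerivAt P (P' z) z := by
  have h : HasDerivAt P (60 * (((2:ℕ):ℂ) * z ^ (2-1)) + 27 * (((4:ℕ):ℂ) * z ^ (4-1)) +
      10 * (((6:ℕ):ℂ) * z ^ (6-1))) z :=
    (((hasDerivAt_pow 2 z).const_mul 60).add ((hasDerivAt_pow 4 z).const_mul 27)).add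
      ((hasDerivAt_pow 6 z).const_mul 10)
  convert h using 1
  unfold P'; push_cast; ring

theorem hasDerivAt_P' (z : ℂ) : HasDerivAt P' (P'' z) z := by
  have h : HasDerivAt P' (120 * 1 + 108 * (((3:ℕ):ℂ) * z ^ (3-1)) +
      60 * (((5:ℕ):ℂ) * z ^ (5-1))) z :=
    (((hasDerivAt_id z).const_mul 120).add ((hasDerivAt_pow 3 z).const_mul 108)).add
      ((hasDerivAt_pow 5 z).const_mul 60)
  convert h using 1
  unfold P''; push_cast; ring

theorem fderiv_u (z v : ℂ) : fderiv ℝ u z v = -inner ℝ z v + 1 / 10 ^ 7 * (P' z * v).re := by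
  have h1 : HasFDerivAt (fun z : ℂ => ‖z‖ ^ 2) _ z := (hasFDerivAt_id z).norm_sq
  have h2 := Complex.reCLM.hasFDerivAt.comp z (fderiv_real_of_deriv (hasDerivAt_P z))
  have h3 : HasFDerivAt u _ z :=
    (((hasFDerivAt_const (1:ℝ) z).sub h1).mul_const (1/2:ℝ)).add (h2.const_mul (1 / 10 ^ 7 : ℝ)) |>.congr_of_eventuallyEq
      (Eventually.of_forall fun y => by simp [u]; ring)
  rw [h3.fderiv]
  simp
  ring

theorem grad_u (z : ℂ) : gradient u z = -z + (1 / 10 ^ 7 : ℝ) • conj (P' z) := by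
  have h : HasGradientAt u (-z + (1 / 10 ^ 7 : ℝ) • conj (P' z)) z := by
    rw [hasGradientAt_iff_hasFDerivAt]
    have h1 := (u_smooth.differentiable (by norm_num) z).hasFDerivAt
    refine h1.congr_fderiv ?_
    ext v
    rw [fderiv_u]
    show _ = inner ℝ (-z + (1 / 10 ^ 7 : ℝ) • conj (P' z)) v
    rw [inner_add_left, real_inner_smul_left, inner_neg_left, Complex.inner (conj (P' z)) v,
      Complex.conj_conj, mul_comm v (P' z)]
  exact h.gradient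

theorem gradsq (z : ℂ) : ‖gradient u z‖ ^ 2 = s z - 2 / 10 ^ 7 * (z * P' z).re +
    (1 / 10 ^ 7) ^ 2 * ‖P' z‖ ^ 2 := by
  rw [grad_u, norm_add_sq_real, norm_neg, norm_smul, inner_neg_left, real_inner_smul_right,
    norm_sq_eq]
  have : inner ℝ z (conj (P' z)) = (z * P' z).re := by
    simp [Complex.inner, Complex.mul_re]; ring
  rw [this, RCLike.norm_conj]
  norm_num
  ring

theorem lap_u (z : ℂ) : (Δ u) z = -2 := by
  have hd : ∀ y v : ℂ, DifferentiableAt ℝ (fderiv ℝ u) y := fun y v =>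
    ((u_smooth.of_le ENat.LEInfty.out : ContDiff ℝ 2 u).fderiv_right (m := 1) (by norm_num)).differentiable (by norm_num) y
  have key : ∀ v : ℂ, fderiv ℝ (fderiv ℝ u) z v v = -inner ℝ v v + 1 / 10 ^ 7 * (P'' z * v * v).re := by
    intro v
    have h1 : fderiv ℝ (fun y => fderiv ℝ u y v) z v = fderiv ℝ (fderiv ℝ u) z v v := by
      have : HasFDerivAt (fun y => fderiv ℝ u y v) _ z :=
        (hd z v).hasFDerivAt.clm_apply (hasFDerivAt_const v z)
      rw [this.fderiv]; simp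
    rw [← h1]
    have h2 : (fun y => fderiv ℝ u y v) = fun y => -inner ℝ y v + 1 / 10 ^ 7 * (P' y * v).re := by
      funext y; exact fderiv_u y v
    rw [h2]
    have h3 := (fderiv_real_of_deriv ((hasDerivAt_P' z).mul_const v))
    have h4 := (Complex.reCLM.hasFDerivAt.comp z h3).const_mul (1 / 10 ^ 7 : ℝ)
    have h5 : HasFDerivAt (fun y : ℂ => inner ℝ y v) _ z :=
      (hasFDerivAt_id z).inner ℝ (hasFDerivAt_const v z)
    have h6 : HasFDerivAt (fun y => -inner ℝ y v + 1 / 10 ^ 7 * (P' y * v).re) _ z := h5.neg.add h4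
    rw [h6.fderiv]
    simp
  rw [lap_plane, key, key]
  have : P'' z * Complex.I * Complex.I = -(P'' z) := by rw [mul_assoc, Complex.I_mul_I]; ring
  rw [this]
  simp
  ring

/-! ### geometry of the domain -/

theorem u_eq (z : ℂ) : u z = (1 - s z) / 2 + 1 / 10 ^ 7 * (60 * q z + 27 * (2 * q z ^ 2 - s z ^ 2) +
    10 * (4 * q z ^ 3 - 3 * q z * s z ^ 2)) := by
  rw [u, P_re, norm_sq_eq]

theorem q_le (z : ℂ) : |q z| ≤ s z := by
  rw [abs_le, q, s]
  constructor <;> nlinarith [sq_nonneg z.re, sq_nonneg z.im]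

theorem s_near {z : ℂ} (hz : ‖z‖ ≤ 2) (hu : u z = 0) : |s z - 1| ≤ 3 / 10 ^ 4 := by
  have h1 := P_bound hz
  rw [u, norm_sq_eq] at hu
  have h2 : s z - 1 = 2 / 10 ^ 7 * (P z).re := by linarith
  rw [h2, abs_mul, abs_of_pos (by norm_num)]
  norm_num at h1 ⊢
  linarith

theorem u_pos {z : ℂ} (hz : ‖z‖ ≤ 9 / 10) : 0 < u z := by
  have h1 := abs_le.1 (P_bound (z := z) (by linarith))
  have h0 := norm_nonneg z
  unfold u
  have : ‖z‖ ^ 2 ≤ (9 / 10) ^ 2 := pow_le_pow_left₀ h0 hz 2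
  norm_num at this ⊢
  linarith [h1.1]

theorem u_neg {z : ℂ} (hz : 11 / 10 ≤ ‖z‖) (hz2 : ‖z‖ ≤ 2) : u z < 0 := by
  have h1 := abs_le.1 (P_bound (z := z) hz2)
  unfold u
  have : (11 / 10 : ℝ) ^ 2 ≤ ‖z‖ ^ 2 := pow_le_pow_left₀ (by norm_num) hz 2
  norm_num at this ⊢
  linarith [h1.2]

/-- quadratic bound for the second difference of a monomial -/
theorem mono4 {z w : ℂ} {a b : ℝ} (ha : 0 ≤ a) (hb : 0 ≤ b) (hab : a + b = 1)
    (hz : ‖z‖ ≤ 2) (hw : ‖w‖ ≤ 2) :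
    ‖a * z ^ 4 + b * w ^ 4 - (a * z + b * w) ^ 4‖ ≤ 24 * (a * b * ‖z - w‖ ^ 2) := by
  set m : ℂ := a * z + b * w with hm
  have hab' : (a : ℂ) + b = 1 := by exact_mod_cast hab
  have hmn : ‖m‖ ≤ 2 := by
    refine (norm_add_le _ _).trans ?_
    rw [norm_mul, norm_mul, Complex.norm_real, Complex.norm_real, Real.norm_of_nonneg ha,
      Real.norm_of_nonneg hb]
    nlinarith
  have key : (a:ℂ) * z ^ 4 + b * w ^ 4 - m ^ 4 = a * b * (z - w) ^ 2 *
      (b * (z ^ 2 + 2 * m * z + 3 * m ^ 2) + a * (w ^ 2 + 2 * m * w + 3 * m ^ 2)) := by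
    have hb' : (b : ℂ) = 1 - a := by rw [← hab']; ring
    rw [hm, hb']; ring
  have hR : ∀ x : ℂ, ‖x‖ ≤ 2 → ‖x ^ 2 + 2 * m * x + 3 * m ^ 2‖ ≤ 24 := by
    intro x hx
    refine (norm_add_le _ _).trans ?_
    refine (add_le_add_left (norm_add_le _ _) _).trans ?_
    simp only [norm_mul, norm_pow, Complex.norm_ofNat]
    have h1 : ‖x‖ ^ 2 ≤ 2 ^ 2 := pow_le_pow_left₀ (norm_nonneg _) hx 2
    have h2 : ‖m‖ ^ 2 ≤ 2 ^ 2 := pow_le_pow_left₀ (norm_nonneg _) hmn 2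
    have h3 : ‖m‖ * ‖x‖ ≤ 2 * 2 := mul_le_mul hmn hx (norm_nonneg _) (by norm_num)
    norm_num at h1 h2 h3 ⊢
    linarith
  rw [key]
  simp only [norm_mul, norm_pow, Complex.norm_real, Real.norm_of_nonneg ha, Real.norm_of_nonneg hb]
  have h4 : ‖(b:ℂ) * (z ^ 2 + 2 * m * z + 3 * m ^ 2) + a * (w ^ 2 + 2 * m * w + 3 * m ^ 2)‖ ≤ 24 := by
    refine (norm_add_le _ _).trans ?_
    rw [norm_mul, norm_mul, Complex.norm_real, Complex.norm_real, Real.norm_of_nonneg ha,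
      Real.norm_of_nonneg hb]
    nlinarith [hR z hz, hR w hw]
  have h5 : 0 ≤ a * b * ‖z - w‖ ^ 2 := by positivity
  nlinarith

theorem mono6 {z w : ℂ} {a b : ℝ} (ha : 0 ≤ a) (hb : 0 ≤ b) (hab : a + b = 1)
    (hz : ‖z‖ ≤ 2) (hw : ‖w‖ ≤ 2) :
    ‖a * z ^ 6 + b * w ^ 6 - (a * z + b * w) ^ 6‖ ≤ 240 * (a * b * ‖z - w‖ ^ 2) := by
  set m : ℂ := a * z + b * w with hm
  have hab' : (a : ℂ) + b = 1 := by exact_mod_cast hab
  have hmn : ‖m‖ ≤ 2 := by
    refine (norm_add_le _ _).trans ?_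
    rw [norm_mul, norm_mul, Complex.norm_real, Complex.norm_real, Real.norm_of_nonneg ha,
      Real.norm_of_nonneg hb]
    nlinarith
  have key : (a:ℂ) * z ^ 6 + b * w ^ 6 - m ^ 6 = a * b * (z - w) ^ 2 *
      (b * (z ^ 4 + 2 * m * z ^ 3 + 3 * m ^ 2 * z ^ 2 + 4 * m ^ 3 * z + 5 * m ^ 4) +
       a * (w ^ 4 + 2 * m * w ^ 3 + 3 * m ^ 2 * w ^ 2 + 4 * m ^ 3 * w + 5 * m ^ 4)) := by
    have hb' : (b : ℂ) = 1 - a := by rw [← hab']; ring
    rw [hm, hb']; ring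
  have hR : ∀ x : ℂ, ‖x‖ ≤ 2 →
      ‖x ^ 4 + 2 * m * x ^ 3 + 3 * m ^ 2 * x ^ 2 + 4 * m ^ 3 * x + 5 * m ^ 4‖ ≤ 240 := by
    intro x hx
    have e1 : ‖x ^ 4‖ ≤ 16 := by
      rw [norm_pow]
      calc ‖x‖ ^ 4 ≤ 2 ^ 4 := pow_le_pow_left₀ (norm_nonneg _) hx 4
        _ = 16 := by norm_num
    have e2 : ‖2 * m * x ^ 3‖ ≤ 32 := by
      simp only [norm_mul, norm_pow, Complex.norm_ofNat]
      calc 2 * ‖m‖ * ‖x‖ ^ 3 ≤ 2 * 2 * 2 ^ 3 := by gcongr
        _ = 32 := by norm_num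
    have e3 : ‖3 * m ^ 2 * x ^ 2‖ ≤ 48 := by
      simp only [norm_mul, norm_pow, Complex.norm_ofNat]
      calc 3 * ‖m‖ ^ 2 * ‖x‖ ^ 2 ≤ 3 * 2 ^ 2 * 2 ^ 2 := by gcongr
        _ = 48 := by norm_num
    have e4 : ‖4 * m ^ 3 * x‖ ≤ 64 := by
      simp only [norm_mul, norm_pow, Complex.norm_ofNat]
      calc 4 * ‖m‖ ^ 3 * ‖x‖ ≤ 4 * 2 ^ 3 * 2 := by gcongr
        _ = 64 := by norm_num
    have e5 : ‖5 * m ^ 4‖ ≤ 80 := by
      simp only [norm_mul, norm_pow, Complex.norm_ofNat]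
      calc 5 * ‖m‖ ^ 4 ≤ 5 * 2 ^ 4 := by gcongr
        _ = 80 := by norm_num
    have f1 := norm_add_le (x ^ 4 + 2 * m * x ^ 3 + 3 * m ^ 2 * x ^ 2 + 4 * m ^ 3 * x) (5 * m ^ 4)
    have f2 := norm_add_le (x ^ 4 + 2 * m * x ^ 3 + 3 * m ^ 2 * x ^ 2) (4 * m ^ 3 * x)
    have f3 := norm_add_le (x ^ 4 + 2 * m * x ^ 3) (3 * m ^ 2 * x ^ 2)
    have f4 := norm_add_le (x ^ 4) (2 * m * x ^ 3)
    linarith
  rw [key]
  simp only [norm_mul, norm_pow, Complex.norm_real, Real.norm_of_nonneg ha, Real.norm_of_nonneg hb]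
  have h4 : ‖(b:ℂ) * (z ^ 4 + 2 * m * z ^ 3 + 3 * m ^ 2 * z ^ 2 + 4 * m ^ 3 * z + 5 * m ^ 4) +
       a * (w ^ 4 + 2 * m * w ^ 3 + 3 * m ^ 2 * w ^ 2 + 4 * m ^ 3 * w + 5 * m ^ 4)‖ ≤ 240 := by
    refine (norm_add_le _ _).trans ?_
    rw [norm_mul, norm_mul, Complex.norm_real, Complex.norm_real, Real.norm_of_nonneg ha,
      Real.norm_of_nonneg hb]
    nlinarith [hR z hz, hR w hw]
  have h5 : 0 ≤ a * b * ‖z - w‖ ^ 2 := by positivity
  nlinarith

/-- concavity of `u` on the disc of radius two -/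
theorem u_concave {z w : ℂ} {a b : ℝ} (ha : 0 ≤ a) (hb : 0 ≤ b) (hab : a + b = 1)
    (hz : ‖z‖ ≤ 2) (hw : ‖w‖ ≤ 2) : a * u z + b * u w ≤ u (a * z + b * w) := by
  have h4 := mono4 ha hb hab hz hw
  have h6 := mono6 ha hb hab hz hw
  have h2 : (a:ℂ) * z ^ 2 + b * w ^ 2 - (a * z + b * w) ^ 2 = a * b * (z - w) ^ 2 := by
    have hab' : (a : ℂ) + b = 1 := by exact_mod_cast hab
    have hb' : (b : ℂ) = 1 - a := by rw [← hab']; ring
    rw [hb']; ring
  have h2n : ‖(a:ℂ) * z ^ 2 + b * w ^ 2 - (a * z + b * w) ^ 2‖ = a * b * ‖z - w‖ ^ 2 := by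
    rw [h2]
    simp only [norm_mul, norm_pow, Complex.norm_real, Real.norm_of_nonneg ha,
      Real.norm_of_nonneg hb]
  have hn : ‖(a:ℂ) * z + b * w‖ ^ 2 = a * ‖z‖ ^ 2 + b * ‖w‖ ^ 2 - a * b * ‖z - w‖ ^ 2 := by
    have hb' : b = 1 - a := by linarith
    simp only [norm_sq_eq, s, hb']
    simp
    ring
  have e : (P (a * z + b * w)).re = a * (P z).re + b * (P w).re -
      (60 * ((a:ℂ) * z ^ 2 + b * w ^ 2 - (a * z + b * w) ^ 2) +
       27 * ((a:ℂ) * z ^ 4 + b * w ^ 4 - (a * z + b * w) ^ 4) +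
       10 * ((a:ℂ) * z ^ 6 + b * w ^ 6 - (a * z + b * w) ^ 6)).re := by
    have e1 : a * (P z).re = ((a:ℂ) * P z).re := by simp
    have e2 : b * (P w).re = ((b:ℂ) * P w).re := by simp
    rw [e1, e2, ← Complex.add_re, ← Complex.sub_re]
    congr 1
    unfold P
    ring
  have e3 : (60 * ((a:ℂ) * z ^ 2 + b * w ^ 2 - (a * z + b * w) ^ 2) +
       27 * ((a:ℂ) * z ^ 4 + b * w ^ 4 - (a * z + b * w) ^ 4) +
       10 * ((a:ℂ) * z ^ 6 + b * w ^ 6 - (a * z + b * w) ^ 6)).re ≤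
       3108 * (a * b * ‖z - w‖ ^ 2) := by
    refine (Complex.re_le_norm _).trans ?_
    refine (norm_add_le _ _).trans ?_
    refine (add_le_add_left (norm_add_le _ _) _).trans ?_
    rw [norm_mul, norm_mul, norm_mul, Complex.norm_ofNat, Complex.norm_ofNat, Complex.norm_ofNat,
      h2n]
    linarith
  unfold u
  rw [hn, e]
  have h5 : 0 ≤ a * b * ‖z - w‖ ^ 2 := by positivity
  have hb' : b = 1 - a := by linarith
  have : a * ((1 - ‖z‖ ^ 2) / 2 + 1 / 10 ^ 7 * (P z).re) + b * ((1 - ‖w‖ ^ 2) / 2 + 1 / 10 ^ 7 * (P w).re)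
    = (1 - (a * ‖z‖ ^ 2 + b * ‖w‖ ^ 2)) / 2 + 1 / 10 ^ 7 * (a * (P z).re + b * (P w).re) := by
    rw [hb']; ring
  rw [this]
  generalize (60 * ((a:ℂ) * z ^ 2 + b * w ^ 2 - (a * z + b * w) ^ 2) +
       27 * ((a:ℂ) * z ^ 4 + b * w ^ 4 - (a * z + b * w) ^ 4) +
       10 * ((a:ℂ) * z ^ 6 + b * w ^ 6 - (a * z + b * w) ^ 6)).re = D at e3 ⊢
  generalize a * b * ‖z - w‖ ^ 2 = W at e3 h5 ⊢
  norm_num
  linarith

theorem Ω_convex : Convex ℝ Ω := by
  intro z hz w hw a b ha hb hab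
  have h1 := u_concave ha hb hab hz.1.le hw.1.le
  have e : a • z + b • w = (a:ℂ) * z + b * w := by simp
  rw [e]
  constructor
  · refine (norm_add_le _ _).trans_lt ?_
    rw [norm_mul, norm_mul, Complex.norm_real, Complex.norm_real, Real.norm_of_nonneg ha,
      Real.norm_of_nonneg hb]
    rcases eq_or_lt_of_le ha with h | h
    · rw [← h] at hab ⊢
      have : b = 1 := by linarith
      rw [this]
      simpa using hw.1
    · have := hz.1
      have := hw.1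
      nlinarith
  · refine lt_of_lt_of_le ?_ h1
    have := hz.2
    have := hw.2
    rcases eq_or_lt_of_le ha with h | h
    · rw [← h] at hab ⊢
      have : b = 1 := by linarith
      rw [this]
      simpa using hw.2
    · nlinarith [mul_pos h hz.2, mul_nonneg hb hw.2.le]

theorem Ω_open : IsOpen Ω := by
  apply IsOpen.inter
  · exact isOpen_lt continuous_norm continuous_const
  · exact isOpen_lt continuous_const u_cont

theorem zero_mem : (0:ℂ) ∈ Ω := ⟨by simp, u_pos (by norm_num)⟩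

theorem mem_frontier (z : ℂ) : z ∈ frontier Ω ↔ ‖z‖ < 2 ∧ u z = 0 := by
  rw [frontier, Ω_open.interior_eq]
  constructor
  · rintro ⟨h1, h2⟩
    have h3 : z ∈ {z : ℂ | ‖z‖ ≤ 2 ∧ 0 ≤ u z} := by
      refine closure_minimal ?_ ?_ h1
      · intro w hw; exact ⟨hw.1.le, hw.2.le⟩
      · exact (isClosed_le continuous_norm continuous_const).inter
          (isClosed_le continuous_const u_cont)
    have h4 : ‖z‖ < 2 := by
      by_contra hh
      push Not at hh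
      have := u_neg (z := z) (by linarith) h3.1
      linarith [h3.2]
    refine ⟨h4, ?_⟩
    by_contra h5
    exact h2 ⟨h4, lt_of_le_of_ne h3.2 (Ne.symm h5)⟩
  · rintro ⟨h1, h2⟩
    refine ⟨?_, fun h => by linarith [h.2]⟩
    have hc : Tendsto (fun t : ℝ => (t : ℂ) * z) (𝓝[<] 1) (𝓝 z) := by
      have : Continuous (fun t : ℝ => (t : ℂ) * z) := by fun_prop
      have := this.tendsto 1
      simp only [Complex.ofReal_one, one_mul] at this
      exact this.mono_left nhdsWithin_le_nhds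
    refine mem_closure_of_tendsto hc ?_
    filter_upwards [Ico_mem_nhdsLT (by norm_num : (0:ℝ) < 1)] with t ht
    have h3 := u_concave (z := z) (w := 0) (a := t) (b := 1 - t) ht.1 (by linarith [ht.2]) (by ring)
      h1.le (by simp)
    have h4 : 0 < u 0 := u_pos (by rw [norm_zero]; norm_num)
    have h5 : 0 < 1 - t := by linarith [ht.2]
    rw [h2] at h3
    simp only [mul_zero, add_zero, zero_add] at h3
    refine ⟨?_, lt_of_lt_of_le (mul_pos h5 h4) h3⟩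
    rw [norm_mul, Complex.norm_real, Real.norm_of_nonneg ht.1]
    have := norm_nonneg z
    nlinarith [ht.2]

/-- every ray meets the boundary -/
theorem ray {e : ℂ} (he : ‖e‖ = 1) : ∃ ρ : ℝ, 9 / 10 ≤ ρ ∧ ρ ≤ 11 / 10 ∧ ((ρ:ℂ) * e) ∈ frontier Ω := by
  have hc : ContinuousOn (fun t : ℝ => u ((t:ℂ) * e)) (Icc (9/10) (11/10)) := by
    have : Continuous (fun t : ℝ => (t : ℂ) * e) := by fun_prop
    exact (u_cont.comp this).continuousOn
  have hn : ∀ t : ℝ, 0 ≤ t → ‖(t:ℂ) * e‖ = t := by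
    intro t ht
    rw [norm_mul, Complex.norm_real, Real.norm_of_nonneg ht, he, mul_one]
  have h1 := intermediate_value_Icc' (by norm_num) hc
  have h2 : (0:ℝ) ∈ Icc (u (((11/10:ℝ):ℂ) * e)) (u (((9/10:ℝ):ℂ) * e)) := by
    constructor
    · exact (u_neg (by rw [hn _ (by norm_num)]) (by rw [hn _ (by norm_num)]; norm_num)).le
    · exact (u_pos (by rw [hn _ (by norm_num)])).le
  obtain ⟨t, ht, h3⟩ := h1 h2
  refine ⟨t, ht.1, ht.2, ?_⟩
  rw [mem_frontier, hn _ (by linarith [ht.1])]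
  exact ⟨by linarith [ht.2], h3⟩

/-- the distance to the origin increases with `q` along the boundary -/
theorem compare {z w : ℂ} (hz : z ∈ frontier Ω) (hw : w ∈ frontier Ω) :
    ∃ k : ℝ, 0 < k ∧ k ≤ 1 / 2 ∧ s z - s w = k * (q z - q w) := by
  rw [mem_frontier] at hz hw
  have hz1 := abs_le.1 (s_near hz.1.le hz.2)
  have hw1 := abs_le.1 (s_near hw.1.le hw.2)
  have hqz := abs_le.1 (q_le z)
  have hqw := abs_le.1 (q_le w)
  have e1 := hz.2
  have e2 := hw.2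
  rw [u_eq] at e1 e2
  set a := q z
  set b := q w
  set x := s z
  set y := s w
  set A := 60 + 54 * (a + b) + 40 * (a ^ 2 + a * b + b ^ 2) - 30 * x ^ 2 with hA
  set B := -(27 + 30 * b) * (x + y) with hB
  have key : (1 - 2 / 10 ^ 7 * B) * (x - y) = 2 / 10 ^ 7 * A * (a - b) := by
    rw [hA, hB]
    linear_combination (-2) * e1 + 2 * e2
  have ha1 : a ≤ 2 ∧ -2 ≤ a := by constructor <;> norm_num at * <;> linarith
  have hb1 : b ≤ 2 ∧ -2 ≤ b := by constructor <;> norm_num at * <;> linarith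
  have hx : x ≤ 1001 / 1000 ∧ 999 / 1000 ≤ x := by constructor <;> norm_num at * <;> linarith
  have hy : y ≤ 1001 / 1000 ∧ 999 / 1000 ≤ y := by constructor <;> norm_num at * <;> linarith
  have hA1 : 5 ≤ A := by
    have h1 : x ^ 2 ≤ (1001 / 1000) ^ 2 := pow_le_pow_left₀ (by linarith [hx.2]) hx.1 2
    rw [hA]
    nlinarith [sq_nonneg (a + b + 9 / 10), sq_nonneg (a - b)]
  have hA2 : A ≤ 2000 := by
    rw [hA]
    nlinarith [sq_nonneg x, mul_self_nonneg a, mul_nonneg (sub_nonneg.2 ha1.1) (sub_nonneg.2 hb1.1),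
      mul_nonneg (sub_nonneg.2 ha1.1) (sub_nonneg.2 ha1.2), mul_nonneg (sub_nonneg.2 hb1.1) (sub_nonneg.2 hb1.2),
      mul_nonneg (sub_nonneg.2 ha1.2) (sub_nonneg.2 hb1.1)]
  have hB1 : |B| ≤ 1000 := by
    rw [hB, abs_mul, abs_neg]
    have h1 : |27 + 30 * b| ≤ 100 := by rw [abs_le]; constructor <;> linarith [hb1.1, hb1.2]
    have h2 : |x + y| ≤ 10 := by rw [abs_le]; constructor <;> linarith [hx.1, hx.2, hy.1, hy.2]
    calc |27 + 30 * b| * |x + y| ≤ 100 * 10 := mul_le_mul h1 h2 (abs_nonneg _) (by norm_num)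
      _ = 1000 := by norm_num
  have hB2 := abs_le.1 hB1
  have hD : 0 < 1 - 2 / 10 ^ 7 * B := by norm_num; linarith [hB2.2]
  refine ⟨2 / 10 ^ 7 * A / (1 - 2 / 10 ^ 7 * B), by positivity, ?_, ?_⟩
  · rw [div_le_iff₀ hD]
    norm_num
    linarith [hB2.2]
  · rw [div_mul_eq_mul_div, eq_div_iff hD.ne']
    linarith

theorem ext_of {z w : ℂ} (hz1 : 0 ≤ z.re) (hz2 : 0 ≤ z.im) (hw1 : 0 ≤ w.re) (hw2 : 0 ≤ w.im)
    (h1 : q z = q w) (h2 : s z = s w) : z = w := by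
  unfold q at h1
  unfold s at h2
  apply Complex.ext
  · have : z.re ^ 2 = w.re ^ 2 := by linarith
    exact (sq_eq_sq₀ hz1 hw1).1 this
  · have : z.im ^ 2 = w.im ^ 2 := by linarith
    exact (sq_eq_sq₀ hz2 hw2).1 this

end Q61.Stress
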