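import Pool.Agent.Q61.Liou

set_option autoImplicit false

open MeasureTheory Topology Filter Set intervalIntegral InnerProductSpace Laplacian
open scoped ContDiff

namespace Q61.Strip

open Q61.Len

theorem fdiv {N D : ℂ → ℝ} {N' D' : ℂ →L[ℝ] ℝ} {z : ℂ} (hN : HasFDerivAt N N' z)
    (hD : HasFDerivAt D D' z) (h0 : D z ≠ 0) :
    HasFDerivAt (fun y => N y / D y) ((D z ^ 2)⁻¹ • (D z • N' - N z • D')) z := by
  have h1 : HasFDerivAt (fun y => (D y)⁻¹) _ z := (hasDerivAt_inv h0).comp_hasFDerivAt z hD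
  have h2 := hN.mul h1
  have e : (fun y => N y / D y) = fun y => N y * (D y)⁻¹ := by
    funext y; exact div_eq_mul_inv _ _
  rw [e]
  refine h2.congr_fderiv ?_
  ext v
  simp
  field_simp
  ring

noncomputable def D (b : ℝ) (z : ℂ) : ℝ := Real.cosh z.re + b * Real.cos z.im

noncomputable def u (b ε : ℝ) (z : ℂ) : ℝ :=
  (Real.log (Real.sqrt (1 - b ^ 2)) + -Real.log (D b z)) + -ε * z.im ^ 2

noncomputable def H (b : ℝ) (z : ℂ) : ℝ := -(b * Real.cosh z.re + Real.cos z.im) / D b z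

section

variable {b : ℝ} (hb0 : 0 < b) (hb1 : b < 1)

include hb0 hb1

theorem D_ge (z : ℂ) : (1 - b) * Real.cosh z.re ≤ D b z := by
  unfold D
  have h1 := Real.neg_one_le_cos z.im
  have h2 := Real.one_le_cosh z.re
  nlinarith

theorem D_pos (z : ℂ) : 0 < D b z :=
  lt_of_lt_of_le (mul_pos (by linarith) (Real.cosh_pos _)) (D_ge hb0 hb1 z)

theorem D_smooth : ContDiff ℝ ∞ (D b) := by
  unfold D
  exact (Real.contDiff_cosh.comp Complex.reCLM.contDiff).add
    (contDiff_const.mul (Real.contDiff_cos.comp Complex.imCLM.contDiff))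

theorem u_smooth (ε : ℝ) : ContDiff ℝ ∞ (u b ε) := by
  unfold u
  exact (contDiff_const.add ((D_smooth hb0 hb1).log (fun z => (D_pos hb0 hb1 z).ne')).neg).add
    (contDiff_const.mul (Complex.imCLM.contDiff.pow 2))

theorem exp_u (ε : ℝ) (z : ℂ) :
    Real.exp (u b ε z) = Real.sqrt (1 - b ^ 2) / D b z * Real.exp (-ε * z.im ^ 2) := by
  unfold u
  rw [Real.exp_add, Real.exp_add, Real.exp_neg, Real.exp_log (D_pos hb0 hb1 z), Real.exp_log]
  · rfl
  · apply Real.sqrt_pos.2; nlinarith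

theorem lap_u (ε : ℝ) (hε : 0 ≤ ε) (z : ℂ) : (Δ (u b ε)) z + Real.exp (2 * u b ε z) ≤ 0 := by
  have hre : ∀ y : ℂ, HasFDerivAt (fun z : ℂ => z.re) Complex.reCLM y := fun y => Complex.reCLM.hasFDerivAt
  have him : ∀ y : ℂ, HasFDerivAt (fun z : ℂ => z.im) Complex.imCLM y := fun y => Complex.imCLM.hasFDerivAt
  set d := D b z with hd
  have hd0 := D_pos hb0 hb1 z
  -- first derivatives of `u`
  have h1 : ∀ y v : ℂ, fderiv ℝ (u b ε) y v =
      -((Real.sinh y.re * v.re - b * (Real.sin y.im * v.im)) / D b y) - 2 * ε * (y.im * v.im) := by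
    intro y v
    have hD : HasFDerivAt (D b) _ y :=
      ((Real.hasDerivAt_cosh y.re).comp_hasFDerivAt y (hre y)).add
        (((Real.hasDerivAt_cos y.im).comp_hasFDerivAt y (him y)).const_mul b)
    have hu : HasFDerivAt (u b ε) _ y :=
      ((hD.log (D_pos hb0 hb1 y).ne').neg.const_add (Real.log (Real.sqrt (1 - b ^ 2)))).add
        (((him y).pow 2).const_mul (-ε))
    rw [hu.fderiv]
    simp
    field_simp
    ring
  have hdd : DifferentiableAt ℝ (fderiv ℝ (u b ε)) z :=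
    (((u_smooth hb0 hb1 ε).of_le ENat.LEInfty.out : ContDiff ℝ 2 (u b ε)).fderiv_right
      (m := 1) (by norm_num)).differentiable (by norm_num) z
  have key : ∀ v : ℂ, fderiv ℝ (fderiv ℝ (u b ε)) z v v =
      -(((Real.cosh z.re * v.re * v.re - b * (Real.cos z.im * v.im * v.im)) * d -
        (Real.sinh z.re * v.re - b * (Real.sin z.im * v.im)) *
        (Real.sinh z.re * v.re - b * (Real.sin z.im * v.im))) / d ^ 2) - 2 * ε * (v.im * v.im) := by
    intro v
    have h2 : fderiv ℝ (fun y => fderiv ℝ (u b ε) y v) z v = fderiv ℝ (fderiv ℝ (u b ε)) z v v := by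
      have : HasFDerivAt (fun y => fderiv ℝ (u b ε) y v) _ z :=
        hdd.hasFDerivAt.clm_apply (hasFDerivAt_const v z)
      rw [this.fderiv]; simp
    rw [← h2]
    have h3 : (fun y => fderiv ℝ (u b ε) y v) = fun y =>
        -((Real.sinh y.re * v.re - b * (Real.sin y.im * v.im)) / D b y) - 2 * ε * (y.im * v.im) := by
      funext y; exact h1 y v
    rw [h3]
    have hD : HasFDerivAt (D b) _ z :=
      ((Real.hasDerivAt_cosh z.re).comp_hasFDerivAt z (hre z)).add
        (((Real.hasDerivAt_cos z.im).comp_hasFDerivAt z (him z)).const_mul b)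
    have hN : HasFDerivAt (fun y : ℂ => Real.sinh y.re * v.re - b * (Real.sin y.im * v.im)) _ z :=
      (((Real.hasDerivAt_sinh z.re).comp_hasFDerivAt z (hre z)).mul_const v.re).sub
        ((((Real.hasDerivAt_sin z.im).comp_hasFDerivAt z (him z)).mul_const v.im).const_mul b)
    have hQ := fdiv hN hD (D_pos hb0 hb1 z).ne'
    have hT : HasFDerivAt (fun y : ℂ => -((Real.sinh y.re * v.re - b * (Real.sin y.im * v.im)) / D b y) -
        2 * ε * (y.im * v.im)) _ z :=
      hQ.neg.sub (((him z).mul_const v.im).const_mul (2 * ε))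
    rw [hT.fderiv]
    simp [← hd]
    field_simp
    ring
  rw [lap_plane, key, key]
  have e2 : Real.exp (2 * u b ε z) = (1 - b ^ 2) / d ^ 2 * Real.exp (-ε * z.im ^ 2) ^ 2 := by
    rw [two_mul, Real.exp_add, exp_u hb0 hb1, ← hd]
    have : Real.sqrt (1 - b ^ 2) * Real.sqrt (1 - b ^ 2) = 1 - b ^ 2 :=
      Real.mul_self_sqrt (by nlinarith)
    calc _ = (Real.sqrt (1 - b ^ 2) * Real.sqrt (1 - b ^ 2)) / d ^ 2 * Real.exp (-ε * z.im ^ 2) ^ 2 := by
          ring
      _ = _ := by rw [this]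
  have e3 : Real.exp (-ε * z.im ^ 2) ^ 2 ≤ 1 := by
    have : Real.exp (-ε * z.im ^ 2) ≤ 1 := by
      rw [Real.exp_le_one_iff]
      have := mul_nonneg hε (sq_nonneg z.im)
      linarith
    exact pow_le_one₀ (Real.exp_pos _).le this
  have e4 : (1 - b ^ 2) / d ^ 2 * Real.exp (-ε * z.im ^ 2) ^ 2 ≤ (1 - b ^ 2) / d ^ 2 := by
    apply mul_le_of_le_one_right _ e3
    apply div_nonneg (by nlinarith) (sq_nonneg _)
  rw [e2]
  refine (add_le_add_right e4 _).trans ?_
  have hcosh := Real.cosh_sq z.re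
  have hcos := Real.sin_sq_add_cos_sq z.im
  simp only [Complex.one_re, Complex.one_im, Complex.I_re, Complex.I_im, mul_one, mul_zero, sub_zero,
    zero_sub]
  have hd' : d = Real.cosh z.re + b * Real.cos z.im := rfl
  have num : -(Real.cosh z.re * d - Real.sinh z.re * Real.sinh z.re) -
      (-(b * Real.cos z.im) * d - -(b * Real.sin z.im) * -(b * Real.sin z.im)) + (1 - b ^ 2) = 0 := by
    rw [hd']
    linear_combination (b ^ 2) * hcos - hcosh
  have e5 : -((Real.cosh z.re * d - Real.sinh z.re * Real.sinh z.re) / d ^ 2) +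
      (-((-(b * Real.cos z.im) * d - -(b * Real.sin z.im) * -(b * Real.sin z.im)) / d ^ 2) - 2 * ε) +
      (1 - b ^ 2) / d ^ 2 = (-(Real.cosh z.re * d - Real.sinh z.re * Real.sinh z.re) -
      (-(b * Real.cos z.im) * d - -(b * Real.sin z.im) * -(b * Real.sin z.im)) + (1 - b ^ 2)) / d ^ 2 -
      2 * ε := by ring
  rw [num, zero_div] at e5
  linarith

theorem H_abs (z : ℂ) : |H b z| ≤ 1 := by
  unfold H
  rw [abs_div, abs_of_pos (D_pos hb0 hb1 z), div_le_one (D_pos hb0 hb1 z), abs_neg]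
  unfold D
  have h1 := Real.neg_one_le_cos z.im
  have h2 := Real.one_le_cosh z.re
  have h3 := Real.cos_le_one z.im
  rw [abs_le]
  constructor
  · nlinarith
  · nlinarith

theorem H_smooth : ContDiff ℝ ∞ (H b) := by
  unfold H
  apply ContDiff.div
  · exact ((contDiff_const.mul (Real.contDiff_cosh.comp Complex.reCLM.contDiff)).add
      (Real.contDiff_cos.comp Complex.imCLM.contDiff)).neg
  · exact D_smooth hb0 hb1
  · exact fun z => (D_pos hb0 hb1 z).ne'

theorem H_deriv (z v : ℂ) : fderiv ℝ (H b) z v =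
    (1 - b ^ 2) * (Real.sinh z.re * Real.cos z.im * v.re + Real.sin z.im * Real.cosh z.re * v.im) /
      D b z ^ 2 := by
  have hre : ∀ y : ℂ, HasFDerivAt (fun z : ℂ => z.re) Complex.reCLM y := fun y => Complex.reCLM.hasFDerivAt
  have him : ∀ y : ℂ, HasFDerivAt (fun z : ℂ => z.im) Complex.imCLM y := fun y => Complex.imCLM.hasFDerivAt
  have hD : HasFDerivAt (D b) _ z :=
    ((Real.hasDerivAt_cosh z.re).comp_hasFDerivAt z (hre z)).add
      (((Real.hasDerivAt_cos z.im).comp_hasFDerivAt z (him z)).const_mul b)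
  have hN : HasFDerivAt (fun y : ℂ => -(b * Real.cosh y.re + Real.cos y.im)) _ z :=
    ((((Real.hasDerivAt_cosh z.re).comp_hasFDerivAt z (hre z)).const_mul b).add
      ((Real.hasDerivAt_cos z.im).comp_hasFDerivAt z (him z))).neg
  have hH : HasFDerivAt (H b) _ z := fdiv hN hD (D_pos hb0 hb1 z).ne'
  rw [hH.fderiv]
  have hd0 := D_pos hb0 hb1 z
  simp
  field_simp
  unfold D
  ring

theorem H_bound (z v : ℂ) : (fderiv ℝ (H b) z v) ^ 2 ≤
    (1 - H b z ^ 2) * (Real.sqrt (1 - b ^ 2) / D b z * ‖v‖) ^ 2 := by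
  rw [H_deriv hb0 hb1]
  have hd0 := D_pos hb0 hb1 z
  have hs : Real.sqrt (1 - b ^ 2) ^ 2 = 1 - b ^ 2 := Real.sq_sqrt (by nlinarith)
  have hv : ‖v‖ ^ 2 = v.re ^ 2 + v.im ^ 2 := by
    rw [← Complex.normSq_eq_norm_sq, Complex.normSq_apply]; ring
  have hcosh := Real.cosh_sq z.re
  have hcos := Real.sin_sq_add_cos_sq z.im
  have e1 : (1 - H b z ^ 2) * (Real.sqrt (1 - b ^ 2) / D b z * ‖v‖) ^ 2 =
      (D b z ^ 2 - (b * Real.cosh z.re + Real.cos z.im) ^ 2) * (1 - b ^ 2) * (v.re ^ 2 + v.im ^ 2) /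
        D b z ^ 4 := by
    rw [mul_pow, div_pow, hs, hv]
    unfold H
    field_simp
  rw [e1]
  have e2 : ((1 - b ^ 2) * (Real.sinh z.re * Real.cos z.im * v.re + Real.sin z.im * Real.cosh z.re * v.im) /
      D b z ^ 2) ^ 2 = (1 - b ^ 2) * ((1 - b ^ 2) * (Real.sinh z.re * Real.cos z.im * v.re +
        Real.sin z.im * Real.cosh z.re * v.im) ^ 2) / D b z ^ 4 := by
    field_simp
  rw [e2]
  apply div_le_div_of_nonneg_right _ (by positivity)
  have hb2 : 0 ≤ 1 - b ^ 2 := by nlinarith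
  have e3 : (D b z ^ 2 - (b * Real.cosh z.re + Real.cos z.im) ^ 2) =
      (1 - b ^ 2) * (Real.cosh z.re ^ 2 - Real.cos z.im ^ 2) := by
    unfold D; ring
  rw [e3]
  have e4 : (1 - b ^ 2) * (Real.cosh z.re ^ 2 - Real.cos z.im ^ 2) * (1 - b ^ 2) * (v.re ^ 2 + v.im ^ 2) =
      (1 - b ^ 2) * ((1 - b ^ 2) * ((Real.cosh z.re ^ 2 - Real.cos z.im ^ 2) * (v.re ^ 2 + v.im ^ 2))) := by
    ring
  rw [e4]
  apply mul_le_mul_of_nonneg_left _ hb2
  apply mul_le_mul_of_nonneg_left _ hb2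
  have e5 : Real.cosh z.re ^ 2 - Real.cos z.im ^ 2 =
      (Real.sinh z.re * Real.cos z.im) ^ 2 + (Real.sin z.im * Real.cosh z.re) ^ 2 := by
    have : Real.sin z.im ^ 2 = 1 - Real.cos z.im ^ 2 := by linarith
    have h2 : Real.sinh z.re ^ 2 = Real.cosh z.re ^ 2 - 1 := by linarith
    rw [mul_pow, mul_pow, this, h2]; ring
  rw [e5]
  nlinarith [sq_nonneg (Real.sinh z.re * Real.cos z.im * v.im - Real.sin z.im * Real.cosh z.re * v.re)]

/-- calibrating function -/
noncomputable def _root_.Q61.Strip.F (b θ : ℝ) (z : ℂ) : ℝ := θ * Real.arcsin (b * H b z)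

theorem bH (z : ℂ) : |b * H b z| < 1 := by
  rw [abs_mul, abs_of_pos hb0]
  have := H_abs hb0 hb1 z
  nlinarith [abs_nonneg (H b z)]

theorem F_smooth (θ : ℝ) : ContDiff ℝ 1 (F b θ) := by
  unfold F
  apply contDiff_const.mul
  rw [contDiff_iff_contDiffAt]
  intro z
  have h1 := abs_lt.1 (bH hb0 hb1 z)
  have h2 : ContDiffAt ℝ 1 Real.arcsin (b * H b z) :=
    Real.contDiffAt_arcsin (ne_of_gt h1.1) (ne_of_lt h1.2)
  have h3 : ContDiff ℝ 1 (H b) := (H_smooth hb0 hb1).of_le (by exact_mod_cast le_top)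
  exact ContDiffAt.comp (g := Real.arcsin) (f := fun z => b * H b z) z h2
    (contDiff_const.mul h3).contDiffAt

theorem F_bound {θ : ℝ} (hθ : 0 ≤ θ) (z v : ℂ) :
    |fderiv ℝ (F b θ) z v| ≤ θ * (Real.sqrt (1 - b ^ 2) / D b z) * ‖v‖ := by
  have h1 := abs_lt.1 (bH hb0 hb1 z)
  have h3 : ContDiff ℝ 1 (H b) := (H_smooth hb0 hb1).of_le (by exact_mod_cast le_top)
  have hH := (h3.differentiable (by norm_num) z).hasFDerivAt
  have ha := Real.hasDerivAt_arcsin (ne_of_gt h1.1) (ne_of_lt h1.2)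
  have hF : HasFDerivAt (F b θ) _ z :=
    (HasDerivAt.comp_hasFDerivAt (h₂ := Real.arcsin) (f := fun z => b * H b z) z ha
      (hH.const_mul b)).const_mul θ
  rw [hF.fderiv]
  simp only [smul_apply, smul_eq_mul]
  have hB := H_bound hb0 hb1 z v
  set A := fderiv ℝ (H b) z v
  set E := Real.sqrt (1 - b ^ 2) / D b z * ‖v‖ with hE
  have hE0 : 0 ≤ E := by
    have := D_pos hb0 hb1 z
    positivity
  have hpos : 0 < 1 - (b * H b z) ^ 2 := by
    have : (b * H b z) ^ 2 < 1 := by rw [sq_lt_one_iff_abs_lt_one]; exact bH hb0 hb1 z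
    linarith
  have hsq : 0 < Real.sqrt (1 - (b * H b z) ^ 2) := Real.sqrt_pos.2 hpos
  have key : |1 / Real.sqrt (1 - (b * H b z) ^ 2) * (b * A)| ≤ E := by
    rw [abs_mul, abs_of_pos (by positivity), one_div, inv_mul_le_iff₀ hsq]
    apply abs_le_of_sq_le_sq _ (by positivity)
    rw [mul_pow, mul_pow, Real.sq_sqrt hpos.le]
    have hH1 : H b z ^ 2 ≤ 1 := by
      rw [sq_le_one_iff_abs_le_one]; exact H_abs hb0 hb1 z
    have hb2 : b ^ 2 ≤ 1 := by nlinarith
    calc b ^ 2 * A ^ 2 ≤ b ^ 2 * ((1 - H b z ^ 2) * E ^ 2) :=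
          mul_le_mul_of_nonneg_left hB (sq_nonneg _)
      _ ≤ (1 - (b * H b z) ^ 2) * E ^ 2 := by
          rw [← mul_assoc]
          apply mul_le_mul_of_nonneg_right _ (sq_nonneg _)
          nlinarith
  rw [abs_mul, abs_of_nonneg hθ, mul_assoc θ]
  exact mul_le_mul_of_nonneg_left key hθ

end

/-- exit time from a strip -/
theorem exit {y : ℝ → ℝ} (hy : ContinuousOn y (Icc 0 1)) {A : ℝ} (hA : 0 < A) (h0 : y 0 = A)
    (h1 : y 1 = -A) : ∃ t ∈ Icc (0:ℝ) 1, (y t = 0 ∨ y t = 2 * A) ∧ (∀ s ∈ Icc 0 t, 0 ≤ y s ∧ y s ≤ 2 * A) ∧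
      ∀ s ∈ Ico 0 t, 0 < y s := by
  set S := {t ∈ Icc (0:ℝ) 1 | y t ∈ (Ioo 0 (2 * A))ᶜ} with hS
  have hcl : IsClosed S := hy.preimage_isClosed_of_isClosed isClosed_Icc isOpen_Ioo.isClosed_compl
  have hcomp : IsCompact S := isCompact_Icc.of_isClosed_subset hcl (fun t ht => ht.1)
  have hne : S.Nonempty := ⟨1, ⟨by norm_num, le_rfl⟩, by rw [h1]; simp; intro h; linarith⟩
  obtain ⟨t, ht, hleast⟩ := hcomp.exists_isLeast hne
  have hlt : ∀ s ∈ Ico 0 t, 0 < y s ∧ y s < 2 * A := by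
    intro s hs
    by_contra hh
    have : s ∈ S := ⟨⟨hs.1, hs.2.le.trans ht.1.2⟩, hh⟩
    exact absurd (hleast this) (not_le.2 hs.2)
  have ht0 : 0 < t := by
    rcases eq_or_lt_of_le ht.1.1 with h | h
    · exfalso
      have := ht.2
      rw [← h, h0] at this
      exact this ⟨hA, by linarith⟩
    · exact h
  have hyt : ContinuousOn y (Icc 0 t) := hy.mono (Icc_subset_Icc_right ht.1.2)
  have hge : 0 ≤ y t := by
    by_contra hh
    push Not at hh
    obtain ⟨s, hs, hs0⟩ := intermediate_value_Icc' ht.1.1 hyt ⟨hh.le, by rw [h0]; exact hA.le⟩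
    have hs1 : s ≠ t := fun e => by rw [e] at hs0; linarith
    have := (hlt s ⟨hs.1, lt_of_le_of_ne hs.2 hs1⟩).1
    linarith
  have hle : y t ≤ 2 * A := by
    by_contra hh
    push Not at hh
    obtain ⟨s, hs, hs0⟩ := intermediate_value_Icc ht.1.1 hyt ⟨by rw [h0]; linarith, hh.le⟩
    have hs1 : s ≠ t := fun e => by rw [e] at hs0; linarith
    have := (hlt s ⟨hs.1, lt_of_le_of_ne hs.2 hs1⟩).2
    linarith
  refine ⟨t, ht.1, ?_, ?_, fun s hs => (hlt s hs).1⟩
  · have h2 : ¬ (0 < y t ∧ y t < 2 * A) := ht.2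
    rcases eq_or_lt_of_le hge with h | h
    · left; exact h.symm
    · right
      by_contra h3
      exact h2 ⟨h, lt_of_le_of_ne hle h3⟩
  · intro s hs
    rcases eq_or_lt_of_le hs.2 with h | h
    · rw [h]; exact ⟨hge, hle⟩
    · have := hlt s ⟨hs.1, h⟩
      exact ⟨this.1.le, this.2.le⟩

theorem far {b : ℝ} (hb0 : 0 < b) (hb1 : b < 1) {ε : ℝ} (hε : 0 ≤ ε) {γ : ℝ → ℂ} (hγ : PC1 γ 0 1)
    (h0 : γ 0 = (Real.pi : ℂ) * Complex.I) (h1 : γ 1 = -((Real.pi : ℂ) * Complex.I)) :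
    Real.exp (-ε * (2 * Real.pi) ^ 2) * (2 * (Real.arcsin b + Real.arcsin (b * b))) ≤
      len (u b ε) γ 0 1 := by
  have hpi := Real.pi_pos
  set θ := Real.exp (-ε * (2 * Real.pi) ^ 2) with hθ
  have hθ0 : 0 < θ := Real.exp_pos _
  have huc := (u_smooth hb0 hb1 ε).continuous
  have hyc : ContinuousOn (fun t => (γ t).im) (Icc 0 1) :=
    Complex.continuous_im.comp_continuousOn hγ.cont
  have hbound : ∀ z : ℂ, |z.im| ≤ 2 * Real.pi → ∀ v, |fderiv ℝ (F b θ) z v| ≤
      Real.exp (u b ε z) * ‖v‖ := by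
    intro z hz v
    refine (F_bound hb0 hb1 hθ0.le z v).trans ?_
    rw [exp_u hb0 hb1]
    apply mul_le_mul_of_nonneg_right _ (norm_nonneg _)
    rw [mul_comm]
    apply mul_le_mul_of_nonneg_left
    · rw [hθ, Real.exp_le_exp]
      have : z.im ^ 2 ≤ (2 * Real.pi) ^ 2 := by
        rw [← sq_abs z.im]; exact pow_le_pow_left₀ (abs_nonneg _) hz 2
      nlinarith
    · have := D_pos hb0 hb1 z
      positivity
  -- values of `F`
  have hF0 : ∀ z : ℂ, z.re = 0 → Real.cos z.im = -1 → F b θ z = θ * Real.arcsin b := by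
    intro z hz1 hz2
    unfold F H D
    rw [hz1, hz2, Real.cosh_zero]
    have : -(b * 1 + -1) / (1 + b * -1) = 1 := by
      rw [div_eq_one_iff_eq (by linarith)]; ring
    rw [this, mul_one]
  have hF1 : ∀ z : ℂ, Real.cos z.im = 1 → F b θ z ≤ -(θ * Real.arcsin (b * b)) := by
    intro z hz
    unfold F
    rw [← mul_neg, ← Real.arcsin_neg]
    apply mul_le_mul_of_nonneg_left _ hθ0.le
    apply Real.monotone_arcsin
    have h2 : H b z ≤ -b := by
      unfold H
      rw [div_le_iff₀ (D_pos hb0 hb1 z)]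
      unfold D
      rw [hz]
      nlinarith
    nlinarith
  obtain ⟨t₁, ht₁, hy₁, hs₁, hp₁⟩ := exit hyc hpi (by simp [h0]) (by simp [h1])
  have hyc2 : ContinuousOn (fun t => -(γ (1 - t)).im) (Icc 0 1) := by
    apply ContinuousOn.neg
    apply hyc.comp (continuous_const.sub continuous_id).continuousOn
    intro t ht
    exact ⟨by simpa using ht.2, by simpa using ht.1⟩
  obtain ⟨r, hr, hy₂, hs₂, hp₂⟩ := exit hyc2 hpi (by simp [h1]) (by simp [h0])
  set t₂ := 1 - r with ht₂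
  have h12 : t₁ ≤ t₂ := by
    by_contra hh
    push Not at hh
    have k1 := hp₁ ((t₁ + t₂) / 2) ⟨by linarith [ht₁.1, hr.2], by linarith⟩
    have k2 := hp₂ (1 - (t₁ + t₂) / 2) ⟨by linarith [ht₁.2, hr.1], by linarith⟩
    simp only [sub_sub_cancel] at k2
    linarith
  have hc1 : Real.cos (γ t₁).im = 1 := by
    rcases hy₁ with h | h
    · rw [h, Real.cos_zero]
    · rw [h, Real.cos_two_pi]
  have hc2 : Real.cos (γ t₂).im = 1 := by
    rcases hy₂ with h | h
    · have : (γ t₂).im = 0 := by linarith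
      rw [this, Real.cos_zero]
    · have : (γ t₂).im = -(2 * Real.pi) := by linarith
      rw [this, Real.cos_neg, Real.cos_two_pi]
  have L1 := lower_bound (F_smooth hb0 hb1 θ) huc (hγ.restrict le_rfl ht₁.1 ht₁.2)
    (fun t ht v => hbound _ (by
      have := hs₁ t ht
      rw [abs_of_nonneg this.1]; exact this.2) v)
  have L2 := lower_bound (F_smooth hb0 hb1 θ) huc (hγ.restrict (c := t₂) (d := 1)
    (by linarith [hr.2]) (by linarith [hr.1]) le_rfl)
    (fun t ht v => hbound _ (by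
      have := hs₂ (1 - t) ⟨by linarith [ht.2], by linarith [ht.1]⟩
      simp only [sub_sub_cancel] at this
      rw [abs_of_nonpos (by linarith [this.1])]; exact this.2) v)
  have f0 : F b θ (γ 0) = θ * Real.arcsin b := hF0 _ (by simp [h0]) (by simp [h0])
  have f1 : F b θ (γ 1) = θ * Real.arcsin b := hF0 _ (by simp [h1]) (by simp [h1])
  have f2 := hF1 _ hc1
  have f3 := hF1 _ hc2
  rw [f0] at L1
  rw [f1] at L2
  have L1' := (neg_le_abs _).trans L1
  have L2' := (le_abs_self _).trans L2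
  have hsum : len (u b ε) γ 0 t₁ + len (u b ε) γ t₂ 1 ≤ len (u b ε) γ 0 1 := by
    rw [len_add huc hγ ht₁.1 ht₁.2, len_add huc (hγ.restrict ht₁.1 ht₁.2 le_rfl) h12 (by linarith [hr.1])]
    have := len_nonneg (u := u b ε) (γ := γ) h12
    linarith
  have e : θ * (2 * (Real.arcsin b + Real.arcsin (b * b))) =
    2 * (θ * Real.arcsin b + θ * Real.arcsin (b * b)) := by ring
  rw [e]
  linarith

theorem integ {b : ℝ} (hb0 : 0 < b) (hb1 : b < 1) {ε : ℝ} (hε : 0 < ε) :
    Integrable (fun z => Real.exp (2 * u b ε z)) := by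
  have i : Integrable (fun p : ℝ × ℝ => (1 + p.1 ^ 2)⁻¹ * Real.exp (-(2 * ε) * p.2 ^ 2))
      (volume.prod volume) :=
    (integrable_inv_one_add_sq).mul_prod (integrable_exp_neg_mul_sq (by positivity))
  have i2 : Integrable (fun z : ℂ => (1 + z.re ^ 2)⁻¹ * Real.exp (-(2 * ε) * z.im ^ 2)) :=
    (Complex.volume_preserving_equiv_real_prod.integrable_comp_emb
      Complex.measurableEquivRealProd.measurableEmbedding).2 i
  refine Integrable.mono' (i2.const_mul ((1 - b ^ 2) / (1 - b) ^ 2)) ?_ ?_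
  · exact (Real.continuous_exp.comp (continuous_const.mul (u_smooth hb0 hb1 ε).continuous)).aestronglyMeasurable
  · refine ae_of_all _ fun z => ?_
    rw [Real.norm_of_nonneg (Real.exp_pos _).le, two_mul, Real.exp_add, exp_u hb0 hb1]
    have hs : Real.sqrt (1 - b ^ 2) * Real.sqrt (1 - b ^ 2) = 1 - b ^ 2 :=
      Real.mul_self_sqrt (by nlinarith)
    have e1 : Real.sqrt (1 - b ^ 2) / D b z * Real.exp (-ε * z.im ^ 2) *
        (Real.sqrt (1 - b ^ 2) / D b z * Real.exp (-ε * z.im ^ 2)) =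
        (1 - b ^ 2) / D b z ^ 2 * Real.exp (-(2 * ε) * z.im ^ 2) := by
      have : Real.exp (-(2 * ε) * z.im ^ 2) = Real.exp (-ε * z.im ^ 2) * Real.exp (-ε * z.im ^ 2) := by
        rw [← Real.exp_add]; congr 1; ring
      rw [this]
      calc _ = (Real.sqrt (1 - b ^ 2) * Real.sqrt (1 - b ^ 2)) / D b z ^ 2 *
            (Real.exp (-ε * z.im ^ 2) * Real.exp (-ε * z.im ^ 2)) := by ring
        _ = _ := by rw [hs]
    rw [e1, ← mul_assoc]
    apply mul_le_mul_of_nonneg_right _ (Real.exp_pos _).le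
    have hD := D_ge hb0 hb1 z
    have hb3 : 0 < 1 - b := by linarith
    have h1 : ((1 - b) * Real.cosh z.re) ^ 2 ≤ D b z ^ 2 :=
      pow_le_pow_left₀ (by positivity) hD 2
    have h2 : 1 + z.re ^ 2 ≤ Real.cosh z.re ^ 2 := by
      rw [Real.cosh_sq]
      have : |z.re| ≤ |Real.sinh z.re| := by
        rcases le_total 0 z.re with h | h
        · rw [abs_of_nonneg h, abs_of_nonneg (Real.sinh_nonneg_iff.2 h)]
          exact Real.self_le_sinh_iff.2 h
        · rw [abs_of_nonpos h, abs_of_nonpos (Real.sinh_nonpos_iff.2 h)]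
          have := Real.sinh_le_self_iff.2 h
          linarith
      have := sq_le_sq.2 this
      linarith
    rw [div_mul_eq_mul_div, ← div_eq_mul_inv, div_div, div_le_div_iff₀ (by have := D_pos hb0 hb1 z; positivity)
      (by positivity)]
    apply mul_le_mul_of_nonneg_left _ (by nlinarith)
    calc (1 + z.re ^ 2) * (1 - b) ^ 2 ≤ Real.cosh z.re ^ 2 * (1 - b) ^ 2 := by gcongr
      _ = ((1 - b) * Real.cosh z.re) ^ 2 := by ring
      _ ≤ _ := h1

end Q61.Strip
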