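import Mathlib

/-!
Asymptotic estimates in `ℓ_p`: a Brezis–Lieb lemma, weak nullity, and Pitt's theorem for
operators from `ℓ_4` into `ℓ_3`.
-/

set_option autoImplicit false

namespace Pool.Agent.Q61.WM

open Filter Topology
open scoped ENNReal

/-- the sequence space `ℓ_p` over `𝕜` -/
abbrev ell (𝕜 : Type) [RCLike 𝕜] (p : ℝ≥0∞) : Type := lp (fun _ : ℕ => 𝕜) p

variable {𝕜 : Type} [RCLike 𝕜]

instance fact3 : Fact ((1 : ℝ≥0∞) ≤ 3) := ⟨by norm_num⟩
instance fact4 : Fact ((1 : ℝ≥0∞) ≤ 4) := ⟨by norm_num⟩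

section BL

variable {p : ℝ≥0∞} [Fact (1 ≤ p)]

/-- the truncation -/
noncomputable def trunc (s : Finset ℕ) (h : ell 𝕜 p) : ell 𝕜 p := ∑ i ∈ s, lp.single p i (h i)

lemma trunc_apply (s : Finset ℕ) (h : ell 𝕜 p) (j : ℕ) :
    trunc s h j = if j ∈ s then h j else 0 := by
  rw [trunc, lp.coeFn_sum, Finset.sum_apply]
  have : ∀ i ∈ s, (lp.single p i (h i) : ell 𝕜 p) j = if i = j then h j else 0 := by
    intro i _
    by_cases hij : i = j
    · subst hij; rw [if_pos rfl, lp.single_apply_self]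
    · rw [if_neg hij, lp.single_apply_ne p i _ (Ne.symm hij)]
  rw [Finset.sum_congr rfl this, Finset.sum_ite_eq' s j]

lemma trunc_add (s : Finset ℕ) (h k : ell 𝕜 p) : trunc s (h + k) = trunc s h + trunc s k := by
  apply lp.ext
  funext j
  rw [lp.coeFn_add, Pi.add_apply, trunc_apply, trunc_apply, trunc_apply, lp.coeFn_add,
    Pi.add_apply]
  split_ifs <;> simp

lemma trunc_trunc (s : Finset ℕ) (h : ell 𝕜 p) : trunc s (trunc s h) = trunc s h := by
  apply lp.ext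
  funext j
  rw [trunc_apply, trunc_apply]
  split_ifs <;> rfl

lemma norm_split (hp : 0 < p.toReal) (s : Finset ℕ) (h : ell 𝕜 p) :
    ‖h‖ ^ p.toReal = ‖h - trunc s h‖ ^ p.toReal + ∑ i ∈ s, ‖h i‖ ^ p.toReal := by
  have := lp.norm_sub_norm_compl_sub_single hp h s
  rw [← this]
  simp only [trunc]
  ring

lemma norm_trunc (hp : 0 < p.toReal) (s : Finset ℕ) (h : ell 𝕜 p) :
    ‖trunc s h‖ ^ p.toReal = ∑ i ∈ s, ‖h i‖ ^ p.toReal :=
  lp.norm_sum_single hp (fun i => h i) s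

/-- Brezis–Lieb for truncations -/
lemma bl_trunc (hp : 0 < p.toReal) (u : ℕ → ell 𝕜 p)
    (hu : ∀ i, Tendsto (fun n => u n i) atTop (𝓝 0)) (U : ℝ)
    (hU : Tendsto (fun n => ‖u n‖) atTop (𝓝 U)) (h : ell 𝕜 p) (s : Finset ℕ) :
    Tendsto (fun n => ‖trunc s h + u n‖ ^ p.toReal) atTop
      (𝓝 (‖trunc s h‖ ^ p.toReal + U ^ p.toReal)) := by
  have key : ∀ n, ‖trunc s h + u n‖ ^ p.toReal =
      (∑ i ∈ s, ‖h i + u n i‖ ^ p.toReal) +
      (‖u n‖ ^ p.toReal - ∑ i ∈ s, ‖u n i‖ ^ p.toReal) := by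
    intro n
    rw [norm_split hp s (trunc s h + u n), norm_split hp s (u n)]
    have e1 : trunc s h + u n - trunc s (trunc s h + u n) = u n - trunc s (u n) := by
      rw [trunc_add, trunc_trunc]; abel
    have e2 : ∑ i ∈ s, ‖(trunc s h + u n) i‖ ^ p.toReal =
        ∑ i ∈ s, ‖h i + u n i‖ ^ p.toReal := by
      refine Finset.sum_congr rfl fun i hi => ?_
      rw [lp.coeFn_add, Pi.add_apply, trunc_apply, if_pos hi]
    rw [e1, e2]; ring
  simp_rw [key]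
  have h1 : Tendsto (fun n => ∑ i ∈ s, ‖h i + u n i‖ ^ p.toReal) atTop
      (𝓝 (∑ i ∈ s, ‖h i‖ ^ p.toReal)) := by
    refine tendsto_finsetSum _ fun i _ => ?_
    have : Tendsto (fun n => h i + u n i) atTop (𝓝 (h i)) := by
      simpa using (tendsto_const_nhds (x := h i)).add (hu i)
    exact this.norm.rpow_const (Or.inr hp.le)
  have h2 : Tendsto (fun n => ∑ i ∈ s, ‖u n i‖ ^ p.toReal) atTop (𝓝 0) := by
    have : Tendsto (fun n => ∑ i ∈ s, ‖u n i‖ ^ p.toReal) atTop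
        (𝓝 (∑ i ∈ s, (0 : ℝ))) := by
      refine tendsto_finsetSum _ fun i _ => ?_
      have := (hu i).norm.rpow_const (p := p.toReal) (Or.inr hp.le)
      rwa [norm_zero, Real.zero_rpow hp.ne'] at this
    simpa using this
  have h3 : Tendsto (fun n => ‖u n‖ ^ p.toReal) atTop (𝓝 (U ^ p.toReal)) :=
    hU.rpow_const (Or.inr hp.le)
  have := h1.add (h3.sub h2)
  rw [norm_trunc hp]
  simpa using this

/-- Brezis–Lieb lemma in `ℓ_p` -/
theorem bl (hp : 0 < p.toReal) (hp' : p ≠ ⊤) (u : ℕ → ell 𝕜 p)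
    (hu : ∀ i, Tendsto (fun n => u n i) atTop (𝓝 0)) (U : ℝ)
    (hU : Tendsto (fun n => ‖u n‖) atTop (𝓝 U)) (h : ell 𝕜 p) :
    Tendsto (fun n => ‖h + u n‖) atTop
      (𝓝 ((‖h‖ ^ p.toReal + U ^ p.toReal) ^ (p.toReal)⁻¹)) := by
  have hU0 : 0 ≤ U := ge_of_tendsto' hU fun n => norm_nonneg _
  have hq : 0 < (p.toReal)⁻¹ := inv_pos.2 hp
  have hs : Tendsto (fun s : Finset ℕ => trunc s h) atTop (𝓝 h) := lp.hasSum_single hp' h
  have hs1 : Tendsto (fun s : Finset ℕ =>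
      (‖trunc s h‖ ^ p.toReal + U ^ p.toReal) ^ (p.toReal)⁻¹) atTop
      (𝓝 ((‖h‖ ^ p.toReal + U ^ p.toReal) ^ (p.toReal)⁻¹)) :=
    ((hs.norm.rpow_const (Or.inr hp.le)).add tendsto_const_nhds).rpow_const (Or.inr hq.le)
  rw [Metric.tendsto_atTop]
  intro ε hε
  obtain ⟨s, h1, h2⟩ := ((Metric.tendsto_nhds.1 hs (ε / 3) (by positivity)).and
    (Metric.tendsto_nhds.1 hs1 (ε / 3) (by positivity))).exists
  have h3 : Tendsto (fun n => ‖trunc s h + u n‖) atTop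
      (𝓝 ((‖trunc s h‖ ^ p.toReal + U ^ p.toReal) ^ (p.toReal)⁻¹)) := by
    have := (bl_trunc hp u hu U hU h s).rpow_const (p := (p.toReal)⁻¹) (Or.inr hq.le)
    refine this.congr fun n => ?_
    rw [Real.rpow_rpow_inv (norm_nonneg _) hp.ne']
  obtain ⟨N, hN⟩ := (Metric.tendsto_atTop.1 h3) (ε / 3) (by positivity)
  refine ⟨N, fun n hn => ?_⟩
  have h4 := hN n hn
  have h5 : |‖h + u n‖ - ‖trunc s h + u n‖| ≤ dist (trunc s h) h := by
    refine (abs_norm_sub_norm_le _ _).trans ?_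
    rw [dist_comm, dist_eq_norm]
    refine le_of_eq ?_
    congr 1; abel
  rw [Real.dist_eq] at h2 h4 ⊢
  have e : ‖h + u n‖ - (‖h‖ ^ p.toReal + U ^ p.toReal) ^ (p.toReal)⁻¹ =
    (‖h + u n‖ - ‖trunc s h + u n‖) +
    (‖trunc s h + u n‖ - (‖trunc s h‖ ^ p.toReal + U ^ p.toReal) ^ (p.toReal)⁻¹) +
    ((‖trunc s h‖ ^ p.toReal + U ^ p.toReal) ^ (p.toReal)⁻¹ -
      (‖h‖ ^ p.toReal + U ^ p.toReal) ^ (p.toReal)⁻¹) := by ring
  rw [e]
  refine (abs_add_le _ _).trans_lt ?_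
  have := abs_add_le (‖h + u n‖ - ‖trunc s h + u n‖)
    (‖trunc s h + u n‖ - (‖trunc s h‖ ^ p.toReal + U ^ p.toReal) ^ (p.toReal)⁻¹)
  linarith

end BL

/-- operator norm from the unit ball -/
lemma opNorm_le_of_ball {X Y : Type*} [NormedAddCommGroup X] [NormedSpace 𝕜 X]
    [NormedAddCommGroup Y] [NormedSpace 𝕜 Y] (T : X →L[𝕜] Y) (K : ℝ)
    (h : ∀ x, ‖x‖ ≤ 1 → ‖T x‖ ≤ K) : ‖T‖ ≤ K := by
  have hK : 0 ≤ K := by
    have := h 0 (by simp)
    rwa [map_zero, norm_zero] at this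
  refine ContinuousLinearMap.opNorm_le_bound _ hK fun x => ?_
  rcases eq_or_ne x 0 with rfl | hx
  · simp
  have hx' : 0 < ‖x‖ := norm_pos_iff.2 hx
  have hc : ‖((‖x‖⁻¹ : ℝ) : 𝕜)‖ = ‖x‖⁻¹ := by
    rw [RCLike.norm_ofReal, abs_of_pos (inv_pos.2 hx')]
  have h1 := h (((‖x‖⁻¹ : ℝ) : 𝕜) • x) (by
    rw [norm_smul, hc, inv_mul_cancel₀ hx'.ne'])
  rw [map_smul, norm_smul, hc, inv_mul_le_iff₀ hx'] at h1
  linarith

/-- extraction of a subsequence along which two bounded real sequences converge -/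
lemma exists_subseq₂ (a b : ℕ → ℝ) (A B : ℝ) (ha : ∀ n, |a n| ≤ A) (hb : ∀ n, |b n| ≤ B) :
    ∃ (ms : ℕ → ℕ) (x y : ℝ), StrictMono ms ∧ Tendsto (fun n => a (ms n)) atTop (𝓝 x) ∧
      Tendsto (fun n => b (ms n)) atTop (𝓝 y) := by
  have hc : IsCompact (Set.Icc (-A) A ×ˢ Set.Icc (-B) B) := isCompact_Icc.prod isCompact_Icc
  obtain ⟨⟨x, y⟩, -, ms, hms, hlim⟩ := hc.tendsto_subseq (x := fun n => (a n, b n))
    (fun n => ⟨abs_le.1 (ha n), abs_le.1 (hb n)⟩)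
  exact ⟨ms, x, y, hms, (continuous_fst.tendsto _).comp hlim,
    (continuous_snd.tendsto _).comp hlim⟩

section weak

variable {p : ℝ≥0∞} [Fact (1 ≤ p)]

/-- Bounded coordinatewise null sequences in `ℓ_p`, `1 < p < ∞`, are weakly null. -/
theorem weak_null (hp1 : 1 < p.toReal) (u : ℕ → ell 𝕜 p) (C : ℝ)
    (hC : ∀ n, ‖u n‖ ≤ C) (hu : ∀ i, Tendsto (fun n => u n i) atTop (𝓝 0))
    (f : StrongDual 𝕜 (ell 𝕜 p)) : Tendsto (fun n => f (u n)) atTop (𝓝 0) := by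
  have hp : 0 < p.toReal := by linarith
  have hp' : p ≠ ⊤ := by rintro rfl; simp at hp
  rw [tendsto_zero_iff_norm_tendsto_zero]
  refine tendsto_of_subseq_tendsto fun ns hns => ?_
  obtain ⟨ms, L, U, hms, hL, hU⟩ := exists_subseq₂ (fun n => ‖f (u (ns n))‖)
    (fun n => ‖u (ns n)‖) (‖f‖ * C) C
    (fun n => by
      rw [abs_of_nonneg (norm_nonneg _)]
      exact (f.le_opNorm _).trans (mul_le_mul_of_nonneg_left (hC _) (norm_nonneg _)))
    (fun n => by rw [abs_of_nonneg (norm_nonneg _)]; exact hC _)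
  refine ⟨ms, ?_⟩
  have hL0 : 0 ≤ L := ge_of_tendsto' hL fun n => norm_nonneg _
  have hU0 : 0 ≤ U := ge_of_tendsto' hU fun n => norm_nonneg _
  have hlim : Tendsto (fun n => ns (ms n)) atTop atTop := hns.comp hms.tendsto_atTop
  -- rotations
  choose c hc1 hc2 using fun n => RCLike.exists_norm_eq_mul_self (f (u (ns (ms n))))
  have key : ∀ l : ℝ, 0 < l → l * L ≤ ‖f‖ * (l * U) ^ p.toReal := by
    intro l hl
    have hv : ∀ i, Tendsto (fun n => (((l : 𝕜) * c n) • u (ns (ms n))) i) atTop (𝓝 0) := by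
      intro i
      rw [tendsto_zero_iff_norm_tendsto_zero]
      have h1 : Tendsto (fun n => l * ‖u (ns (ms n)) i‖) atTop (𝓝 (l * 0)) :=
        (tendsto_zero_iff_norm_tendsto_zero.1 ((hu i).comp hlim)).const_mul l
      rw [mul_zero] at h1
      refine h1.congr fun n => ?_
      rw [lp.coeFn_smul, Pi.smul_apply, norm_smul, norm_mul, hc1, mul_one, RCLike.norm_ofReal,
        abs_of_pos hl]
    have hV : Tendsto (fun n => ‖((l : 𝕜) * c n) • u (ns (ms n))‖) atTop (𝓝 (l * U)) := by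
      refine (hU.const_mul l).congr fun n => ?_
      rw [norm_smul, norm_mul, hc1, mul_one, RCLike.norm_ofReal, abs_of_pos hl]
    have h2 : ‖f‖ ≤ ‖f‖ * (1 + (l * U) ^ p.toReal) - l * L := by
      refine opNorm_le_of_ball f _ fun h hh => ?_
      obtain ⟨d, hd1, hd2⟩ := RCLike.exists_norm_eq_mul_self (f h)
      have h3 := bl hp hp' _ hv (l * U) hV (d • h)
      have h4 : Tendsto (fun n => ‖f h‖ + l * ‖f (u (ns (ms n)))‖) atTop
          (𝓝 (‖f h‖ + l * L)) := tendsto_const_nhds.add (hL.const_mul l)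
      have h5 : ∀ n, ‖f h‖ + l * ‖f (u (ns (ms n)))‖ ≤
          ‖f‖ * ‖d • h + ((l : 𝕜) * c n) • u (ns (ms n))‖ := by
        intro n
        have e : f (d • h + ((l : 𝕜) * c n) • u (ns (ms n))) =
            ((‖f h‖ + l * ‖f (u (ns (ms n)))‖ : ℝ) : 𝕜) := by
          rw [map_add, map_smul, map_smul, smul_eq_mul, smul_eq_mul, mul_assoc, ← hc2, ← hd2]
          push_cast; ring
        have h6 := f.le_opNorm (d • h + ((l : 𝕜) * c n) • u (ns (ms n)))
        rw [e, RCLike.norm_ofReal, abs_of_nonneg (by positivity)] at h6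
        exact h6
      have h7 := le_of_tendsto_of_tendsto' h4 (h3.const_mul ‖f‖) h5
      have h8 : ‖d • h‖ ≤ 1 := by rw [norm_smul, hd1, one_mul]; exact hh
      have h9 : (‖d • h‖ ^ p.toReal + (l * U) ^ p.toReal) ^ (p.toReal)⁻¹ ≤
          1 + (l * U) ^ p.toReal := by
        have a1 : 0 ≤ (l * U) ^ p.toReal := Real.rpow_nonneg (by positivity) _
        have a2 : ‖d • h‖ ^ p.toReal ≤ 1 := Real.rpow_le_one (norm_nonneg _) h8 hp.le
        calc (‖d • h‖ ^ p.toReal + (l * U) ^ p.toReal) ^ (p.toReal)⁻¹ ≤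
            (1 + (l * U) ^ p.toReal) ^ (p.toReal)⁻¹ :=
              Real.rpow_le_rpow (by positivity) (by linarith) (inv_nonneg.2 hp.le)
          _ ≤ (1 + (l * U) ^ p.toReal) ^ (1 : ℝ) := by
              refine Real.rpow_le_rpow_of_exponent_le (by linarith) ?_
              exact inv_le_one_of_one_le₀ hp1.le
          _ = _ := Real.rpow_one _
      have h10 := h7.trans (mul_le_mul_of_nonneg_left h9 (norm_nonneg f))
      linarith
    linarith
  have hLe : L ≤ 0 := by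
    have h1 : ∀ l : ℝ, 0 < l → L ≤ ‖f‖ * U ^ p.toReal * l ^ (p.toReal - 1) := by
      intro l hl
      have h2 := key l hl
      rw [Real.mul_rpow hl.le hU0] at h2
      have h3 : l ^ p.toReal = l * l ^ (p.toReal - 1) := by
        rw [Real.rpow_sub_one hl.ne']; field_simp
      rw [h3] at h2
      have h4 : l * L ≤ l * (‖f‖ * U ^ p.toReal * l ^ (p.toReal - 1)) := by
        calc l * L ≤ _ := h2
          _ = _ := by ring
      exact le_of_mul_le_mul_left h4 hl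
    have h5 : Tendsto (fun l : ℝ => ‖f‖ * U ^ p.toReal * l ^ (p.toReal - 1)) (𝓝[>] 0)
        (𝓝 (‖f‖ * U ^ p.toReal * (0 : ℝ) ^ (p.toReal - 1))) := by
      refine Tendsto.const_mul _ ?_
      refine tendsto_nhdsWithin_of_tendsto_nhds ?_
      exact (Real.continuousAt_rpow_const 0 (p.toReal - 1) (Or.inr (by linarith))).tendsto
    rw [Real.zero_rpow (by linarith), mul_zero] at h5
    exact ge_of_tendsto h5 (eventually_nhdsWithin_of_forall fun l hl => h1 l hl)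
  have : L = 0 := le_antisymm hLe hL0
  rw [this] at hL
  exact hL

end weak

/-- Pitt's theorem for operators from `ℓ_4` into `ℓ_3`, in sequential form. -/
theorem pitt (S : ell 𝕜 4 →L[𝕜] ell 𝕜 3) (u : ℕ → ell 𝕜 4) (C : ℝ)
    (hC : ∀ n, ‖u n‖ ≤ C) (hu : ∀ i, Tendsto (fun n => u n i) atTop (𝓝 0)) :
    Tendsto (fun n => ‖S (u n)‖) atTop (𝓝 0) := by
  have hSu : ∀ i, Tendsto (fun n => S (u n) i) atTop (𝓝 0) := by
    intro i
    exact weak_null (by norm_num) u C hC hu ((lp.evalCLM 𝕜 (fun _ : ℕ => 𝕜) 3 i).comp S)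
  refine tendsto_of_subseq_tendsto fun ns hns => ?_
  obtain ⟨ms, L, U, hms, hL, hU⟩ := exists_subseq₂ (fun n => ‖S (u (ns n))‖)
    (fun n => ‖u (ns n)‖) (‖S‖ * C) C
    (fun n => by
      rw [abs_of_nonneg (norm_nonneg _)]
      exact (S.le_opNorm _).trans (mul_le_mul_of_nonneg_left (hC _) (norm_nonneg _)))
    (fun n => by rw [abs_of_nonneg (norm_nonneg _)]; exact hC _)
  refine ⟨ms, ?_⟩
  have hL0 : 0 ≤ L := ge_of_tendsto' hL fun n => norm_nonneg _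
  have hU0 : 0 ≤ U := ge_of_tendsto' hU fun n => norm_nonneg _
  have hlim : Tendsto (fun n => ns (ms n)) atTop atTop := hns.comp hms.tendsto_atTop
  have key : ∀ l : ℝ, 0 < l → (l * L) ^ 3 ≤ ‖S‖ ^ 3 * (l * U) ^ 4 := by
    intro l hl
    have hc : ‖((l : ℝ) : 𝕜)‖ = l := by rw [RCLike.norm_ofReal, abs_of_pos hl]
    have hv : ∀ i, Tendsto (fun n => ((l : 𝕜) • u (ns (ms n))) i) atTop (𝓝 0) := by
      intro i
      have := ((hu i).comp hlim).const_smul (l : 𝕜)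
      rw [smul_zero] at this
      exact this
    have hV : Tendsto (fun n => ‖(l : 𝕜) • u (ns (ms n))‖) atTop (𝓝 (l * U)) := by
      refine (hU.const_mul l).congr fun n => ?_
      rw [norm_smul, hc]
    have hv' : ∀ i, Tendsto (fun n => ((l : 𝕜) • S (u (ns (ms n)))) i) atTop (𝓝 0) := by
      intro i
      have := ((hSu i).comp hlim).const_smul (l : 𝕜)
      rw [smul_zero] at this
      exact this
    have hV' : Tendsto (fun n => ‖(l : 𝕜) • S (u (ns (ms n)))‖) atTop (𝓝 (l * L)) := by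
      refine (hL.const_mul l).congr fun n => ?_
      rw [norm_smul, hc]
    have h0 : ∀ h : ell 𝕜 4, ‖h‖ ≤ 1 →
        ‖S h‖ ^ 3 ≤ ‖S‖ ^ 3 * (1 + (l * U) ^ 4) - (l * L) ^ 3 := by
      intro h hh
      have h3 := bl (by norm_num) (by norm_num) _ hv (l * U) hV h
      have h4 := bl (by norm_num) (by norm_num) _ hv' (l * L) hV' (S h)
      have h5 : ∀ n, ‖S h + (l : 𝕜) • S (u (ns (ms n)))‖ ≤
          ‖S‖ * ‖h + (l : 𝕜) • u (ns (ms n))‖ := by
        intro n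
        have e : S (h + (l : 𝕜) • u (ns (ms n))) = S h + (l : 𝕜) • S (u (ns (ms n))) := by
          rw [map_add, map_smul]
        rw [← e]; exact S.le_opNorm _
      have h7 := le_of_tendsto_of_tendsto' h4 (h3.const_mul ‖S‖) h5
      have e3 : (3 : ℝ≥0∞).toReal = 3 := by norm_num
      have e4 : (4 : ℝ≥0∞).toReal = 4 := by norm_num
      rw [e3, e4] at h7
      have a1 : 0 ≤ ‖S h‖ ^ (3 : ℝ) + (l * L) ^ (3 : ℝ) := by positivity
      have h8 := pow_le_pow_left₀ (Real.rpow_nonneg a1 _) h7 3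
      have e5 : ((‖S h‖ ^ (3 : ℝ) + (l * L) ^ (3 : ℝ)) ^ (3 : ℝ)⁻¹) ^ 3 =
          ‖S h‖ ^ 3 + (l * L) ^ 3 := by
        rw [← Real.rpow_natCast, ← Real.rpow_mul a1]
        norm_num
      rw [e5, mul_pow ‖S‖] at h8
      have h9 : ((‖h‖ ^ (4 : ℝ) + (l * U) ^ (4 : ℝ)) ^ (4 : ℝ)⁻¹) ^ 3 ≤ 1 + (l * U) ^ 4 := by
        have a2 : 0 ≤ ‖h‖ ^ (4 : ℝ) + (l * U) ^ (4 : ℝ) := by positivity
        rw [← Real.rpow_natCast, ← Real.rpow_mul a2]
        have a3 : ‖h‖ ^ (4 : ℝ) + (l * U) ^ (4 : ℝ) ≤ 1 + (l * U) ^ 4 := by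
          have b1 : ‖h‖ ^ (4 : ℝ) ≤ 1 := Real.rpow_le_one (norm_nonneg _) hh (by norm_num)
          have b2 : (l * U) ^ (4 : ℝ) = (l * U) ^ 4 := by
            rw [← Real.rpow_natCast]; norm_num
          rw [b2]; linarith
        have a4 : (1 : ℝ) ≤ 1 + (l * U) ^ 4 := by
          have : 0 ≤ (l * U) ^ 4 := by positivity
          linarith
        calc (‖h‖ ^ (4 : ℝ) + (l * U) ^ (4 : ℝ)) ^ ((4 : ℝ)⁻¹ * ((3 : ℕ) : ℝ)) ≤
            (1 + (l * U) ^ 4) ^ ((4 : ℝ)⁻¹ * ((3 : ℕ) : ℝ)) :=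
              Real.rpow_le_rpow a2 a3 (by norm_num)
          _ ≤ (1 + (l * U) ^ 4) ^ (1 : ℝ) :=
              Real.rpow_le_rpow_of_exponent_le a4 (by norm_num)
          _ = _ := Real.rpow_one _
      have h10 := h8.trans (mul_le_mul_of_nonneg_left h9 (by positivity))
      linarith
    set K3 : ℝ := ‖S‖ ^ 3 * (1 + (l * U) ^ 4) - (l * L) ^ 3 with hK3
    have hK0 : 0 ≤ K3 := by
      have := h0 0 (by simp)
      rw [map_zero, norm_zero] at this
      simpa using this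
    have h1 : ‖S‖ ≤ K3 ^ (3 : ℝ)⁻¹ := by
      refine opNorm_le_of_ball S _ fun h hh => ?_
      have := Real.rpow_le_rpow (by positivity) (h0 h hh) (by norm_num : (0 : ℝ) ≤ (3 : ℝ)⁻¹)
      have e : (‖S h‖ ^ 3) ^ (3 : ℝ)⁻¹ = ‖S h‖ := by
        rw [← Real.rpow_natCast, ← Real.rpow_mul (norm_nonneg _)]; norm_num
      rwa [e] at this
    have h2 : ‖S‖ ^ 3 ≤ K3 := by
      have := pow_le_pow_left₀ (norm_nonneg _) h1 3
      have e : (K3 ^ (3 : ℝ)⁻¹) ^ 3 = K3 := by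
        rw [← Real.rpow_natCast, ← Real.rpow_mul hK0]; norm_num
      rwa [e] at this
    rw [hK3] at h2
    linarith
  have hLe : L ^ 3 ≤ 0 := by
    have h1 : ∀ l : ℝ, 0 < l → L ^ 3 ≤ ‖S‖ ^ 3 * U ^ 4 * l := by
      intro l hl
      have h2 := key l hl
      have h4 : l ^ 3 * L ^ 3 ≤ l ^ 3 * (‖S‖ ^ 3 * U ^ 4 * l) := by
        calc l ^ 3 * L ^ 3 = (l * L) ^ 3 := by ring
          _ ≤ _ := h2
          _ = _ := by ring
      exact le_of_mul_le_mul_left h4 (by positivity)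
    have h5 : Tendsto (fun l : ℝ => ‖S‖ ^ 3 * U ^ 4 * l) (𝓝[>] 0)
        (𝓝 (‖S‖ ^ 3 * U ^ 4 * 0)) :=
      tendsto_nhdsWithin_of_tendsto_nhds ((continuous_const.mul continuous_id).tendsto 0)
    rw [mul_zero] at h5
    exact ge_of_tendsto h5 (eventually_nhdsWithin_of_forall fun l hl => h1 l hl)
  have : L = 0 := by
    by_contra hne
    have : 0 < L := lt_of_le_of_ne hL0 (Ne.symm hne)
    have : 0 < L ^ 3 := by positivity
    linarith
  rw [this] at hL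
  exact hL

end Pool.Agent.Q61.WM
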