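import Pool.Agent.Q61.WM1

/-!
The pair `(ℓ_4 ⊕_2 ℓ_2, ℓ_3)` has the weak maximizing property.
-/

set_option autoImplicit false

namespace Pool.Agent.Q61.WM

open Filter Topology
open scoped ENNReal

/-- The pair `(E, F)` has the weak maximizing property: every operator having a maximizing
sequence which is not weakly null attains its norm. -/
def WMP (𝕜 : Type) [RCLike 𝕜] (E F : Type) [NormedAddCommGroup E] [NormedSpace 𝕜 E]
    [NormedAddCommGroup F] [NormedSpace 𝕜 F] : Prop :=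
  ∀ T : E →L[𝕜] F,
    (∃ x : ℕ → E, (∀ n, ‖x n‖ = 1) ∧ Tendsto (fun n => ‖T (x n)‖) atTop (𝓝 ‖T‖) ∧
      ∃ f : StrongDual 𝕜 E, ¬ Tendsto (fun n => f (x n)) atTop (𝓝 0)) →
    ∃ x : E, ‖x‖ = 1 ∧ ‖T x‖ = ‖T‖

variable {𝕜 : Type} [RCLike 𝕜]

variable (𝕜) in
/-- the space `ℓ_4 ⊕_2 ℓ_2` -/
abbrev EE : Type := WithLp 2 (ell 𝕜 4 × ell 𝕜 2)

variable (𝕜) in
/-- embedding of the first summand -/
noncomputable def J1 : ell 𝕜 4 →L[𝕜] EE 𝕜 :=
  LinearMap.mkContinuous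
    { toFun := fun h => WithLp.toLp 2 (h, 0)
      map_add' := fun a b => by rw [← WithLp.toLp_add, Prod.mk_add_mk, add_zero]
      map_smul' := fun c a => by
        rw [RingHom.id_apply, ← WithLp.toLp_smul, Prod.smul_mk, smul_zero] } 1
    (fun h => by
      rw [one_mul]
      exact (WithLp.norm_toLp_fst 2 _ _ h).le)

variable (𝕜) in
/-- embedding of the second summand -/
noncomputable def J2 : ell 𝕜 2 →L[𝕜] EE 𝕜 :=
  LinearMap.mkContinuous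
    { toFun := fun h => WithLp.toLp 2 (0, h)
      map_add' := fun a b => by rw [← WithLp.toLp_add, Prod.mk_add_mk, add_zero]
      map_smul' := fun c a => by
        rw [RingHom.id_apply, ← WithLp.toLp_smul, Prod.smul_mk, smul_zero] } 1
    (fun h => by
      rw [one_mul]
      exact (WithLp.norm_toLp_snd 2 _ _ h).le)

lemma J1_apply (h : ell 𝕜 4) : J1 𝕜 h = WithLp.toLp 2 (h, 0) := rfl
lemma J2_apply (h : ell 𝕜 2) : J2 𝕜 h = WithLp.toLp 2 (0, h) := rfl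

lemma norm_J2 (k : ell 𝕜 2) : ‖J2 𝕜 k‖ = ‖k‖ := WithLp.norm_toLp_snd 2 _ _ k

lemma decomp (x : EE 𝕜) : x = J1 𝕜 x.fst + J2 𝕜 x.snd := by
  rw [J1_apply, J2_apply, ← WithLp.toLp_add, Prod.mk_add_mk, add_zero, zero_add]
  rfl

lemma norm_sq_J (h : ell 𝕜 4) (k : ell 𝕜 2) :
    ‖J1 𝕜 h + J2 𝕜 k‖ ^ 2 = ‖h‖ ^ 2 + ‖k‖ ^ 2 := by
  rw [WithLp.prod_norm_sq_eq_of_L2]
  have e1 : (J1 𝕜 h + J2 𝕜 k).fst = h := by
    rw [J1_apply, J2_apply, ← WithLp.toLp_add, Prod.mk_add_mk, add_zero, zero_add]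
    rfl
  have e2 : (J1 𝕜 h + J2 𝕜 k).snd = k := by
    rw [J1_apply, J2_apply, ← WithLp.toLp_add, Prod.mk_add_mk, add_zero, zero_add]
    rfl
  rw [e1, e2]

/-- The core of the argument, when all quantities converge. -/
lemma core (T : EE 𝕜 →L[𝕜] ell 𝕜 3) (h : ell 𝕜 4) (k : ell 𝕜 2) (u : ℕ → ell 𝕜 4)
    (v : ℕ → ell 𝕜 2) (hu : ∀ i, Tendsto (fun n => u n i) atTop (𝓝 0))
    (hv : ∀ i, Tendsto (fun n => v n i) atTop (𝓝 0)) (U V Y : ℝ)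
    (hU : Tendsto (fun n => ‖u n‖) atTop (𝓝 U)) (hV : Tendsto (fun n => ‖v n‖) atTop (𝓝 V))
    (hY : Tendsto (fun n => ‖T (J2 𝕜 (v n))‖) atTop (𝓝 Y))
    (CU CV : ℝ) (hCU : ∀ n, ‖u n‖ ≤ CU) (hCV : ∀ n, ‖v n‖ ≤ CV)
    (hx : ∀ n, ‖J1 𝕜 (h + u n) + J2 𝕜 (k + v n)‖ = 1)
    (hT : Tendsto (fun n => ‖T (J1 𝕜 (h + u n) + J2 𝕜 (k + v n))‖) atTop (𝓝 ‖T‖)) :
    ‖T (J1 𝕜 h + J2 𝕜 k)‖ = ‖T‖ * ‖J1 𝕜 h + J2 𝕜 k‖ := by
  have hU0 : 0 ≤ U := ge_of_tendsto' hU fun n => norm_nonneg _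
  have hV0 : 0 ≤ V := ge_of_tendsto' hV fun n => norm_nonneg _
  have hY0 : 0 ≤ Y := ge_of_tendsto' hY fun n => norm_nonneg _
  set x0 : EE 𝕜 := J1 𝕜 h + J2 𝕜 k with hx0
  set M : ℝ := ‖T‖ with hM
  have e2 : (2 : ℝ≥0∞).toReal = 2 := by norm_num
  have e3 : (3 : ℝ≥0∞).toReal = 3 := by norm_num
  have e4 : (4 : ℝ≥0∞).toReal = 4 := by norm_num
  -- norms of `x n`
  have h1 := bl (by norm_num) (by norm_num) u hu U hU h
  have h2 := bl (by norm_num) (by norm_num) v hv V hV k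
  rw [e4] at h1
  rw [e2] at h2
  have h3 : ‖h‖ ^ 2 + ‖k‖ ^ 2 + V ^ 2 ≤ 1 := by
    have a1 : Tendsto (fun n => ‖h + u n‖ ^ 2 + ‖k + v n‖ ^ 2) atTop
        (𝓝 (((‖h‖ ^ (4 : ℝ) + U ^ (4 : ℝ)) ^ (4 : ℝ)⁻¹) ^ 2 +
          ((‖k‖ ^ (2 : ℝ) + V ^ (2 : ℝ)) ^ (2 : ℝ)⁻¹) ^ 2)) := (h1.pow 2).add (h2.pow 2)
    have a2 : ∀ n, ‖h + u n‖ ^ 2 + ‖k + v n‖ ^ 2 = 1 := by
      intro n
      rw [← norm_sq_J, hx n]; norm_num
    simp_rw [a2] at a1
    have a3 := tendsto_nhds_unique a1 tendsto_const_nhds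
    have a4 : ‖h‖ ≤ (‖h‖ ^ (4 : ℝ) + U ^ (4 : ℝ)) ^ (4 : ℝ)⁻¹ := by
      calc ‖h‖ = (‖h‖ ^ (4 : ℝ)) ^ (4 : ℝ)⁻¹ :=
            (Real.rpow_rpow_inv (norm_nonneg _) (by norm_num)).symm
        _ ≤ _ := Real.rpow_le_rpow (by positivity)
            (le_add_of_nonneg_right (by positivity)) (by norm_num)
    have a5 : ((‖k‖ ^ (2 : ℝ) + V ^ (2 : ℝ)) ^ (2 : ℝ)⁻¹) ^ 2 = ‖k‖ ^ 2 + V ^ 2 := by
      have b : 0 ≤ ‖k‖ ^ (2 : ℝ) + V ^ (2 : ℝ) := by positivity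
      rw [← Real.rpow_natCast, ← Real.rpow_mul b]
      norm_num
    rw [a5] at a3
    have a6 := pow_le_pow_left₀ (norm_nonneg h) a4 2
    linarith
  have hx0n : ‖x0‖ ^ 2 = ‖h‖ ^ 2 + ‖k‖ ^ 2 := norm_sq_J h k
  have h4 : ‖x0‖ ^ 2 + V ^ 2 ≤ 1 := by rw [hx0n]; linarith
  -- the images
  have h5 : Tendsto (fun n => ‖T (J1 𝕜 (u n))‖) atTop (𝓝 0) :=
    pitt (T.comp (J1 𝕜)) u CU hCU hu
  have h6 : ∀ i, Tendsto (fun n => T (J2 𝕜 (v n)) i) atTop (𝓝 0) := fun i =>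
    weak_null (by norm_num) v CV hCV hv
      ((lp.evalCLM 𝕜 (fun _ : ℕ => 𝕜) 3 i).comp (T.comp (J2 𝕜)))
  have h7 := bl (by norm_num) (by norm_num) (fun n => T (J2 𝕜 (v n))) h6 Y hY (T x0)
  rw [e3] at h7
  have h8 : Tendsto (fun n => ‖T (J1 𝕜 (h + u n) + J2 𝕜 (k + v n))‖ -
      ‖T x0 + T (J2 𝕜 (v n))‖) atTop (𝓝 0) := by
    refine squeeze_zero_norm (fun n => ?_) h5
    rw [Real.norm_eq_abs]
    refine (abs_norm_sub_norm_le _ _).trans (le_of_eq ?_)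
    congr 1
    rw [hx0, map_add, map_add, map_add, map_add, map_add, map_add]
    abel
  have h9 := hT.sub h8
  have h10 : (‖T x0‖ ^ (3 : ℝ) + Y ^ (3 : ℝ)) ^ (3 : ℝ)⁻¹ = M := by
    refine tendsto_nhds_unique h7 ?_
    have := h9.congr (f₂ := fun n => ‖T x0 + T (J2 𝕜 (v n))‖) (fun n => by ring)
    rwa [sub_zero] at this
  have h11 : ‖T x0‖ ^ 3 + Y ^ 3 = M ^ 3 := by
    rw [← h10]
    have b : 0 ≤ ‖T x0‖ ^ (3 : ℝ) + Y ^ (3 : ℝ) := by positivity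
    rw [← Real.rpow_natCast (_ ^ (3 : ℝ)⁻¹), ← Real.rpow_mul b]
    norm_num
  have h12 : Y ≤ M * V := by
    refine le_of_tendsto_of_tendsto' hY (hV.const_mul M) fun n => ?_
    refine (T.le_opNorm _).trans ?_
    rw [norm_J2]
  have hM0 : 0 ≤ M := norm_nonneg _
  have h13 : Y ^ 3 ≤ (M * V) ^ 3 := pow_le_pow_left₀ hY0 h12 3
  have ha0 : 0 ≤ ‖x0‖ := norm_nonneg _
  have ha1 : ‖x0‖ ≤ 1 := by nlinarith
  have hV1 : V ≤ 1 := by nlinarith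
  have h14 : ‖x0‖ ^ 3 + V ^ 3 ≤ 1 := by nlinarith [sq_nonneg ‖x0‖, sq_nonneg V]
  refine le_antisymm (T.le_opNorm x0) ?_
  have h15 : (M * ‖x0‖) ^ 3 ≤ ‖T x0‖ ^ 3 := by
    have b1 : M ^ 3 * (‖x0‖ ^ 3 + V ^ 3) ≤ M ^ 3 * 1 :=
      mul_le_mul_of_nonneg_left h14 (by positivity)
    have b2 : (M * V) ^ 3 = M ^ 3 * V ^ 3 := by ring
    have b3 : (M * ‖x0‖) ^ 3 = M ^ 3 * ‖x0‖ ^ 3 := by ring
    rw [b3]
    rw [b2] at h13
    linarith
  exact le_of_pow_le_pow_left₀ (by norm_num) (norm_nonneg _) h15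

/-- The pair `(ℓ_4 ⊕_2 ℓ_2, ℓ_3)` has the weak maximizing property. -/
theorem wmp_EE : WMP 𝕜 (EE 𝕜) (ell 𝕜 3) := by
  rintro T ⟨x, hx1, hxT, f, hf⟩
  -- first extraction: `f (x n)` stays away from `0`
  obtain ⟨δ, hδ, hfr⟩ : ∃ δ : ℝ, 0 < δ ∧ ∃ᶠ n in atTop, δ ≤ ‖f (x n)‖ := by
    rw [Metric.tendsto_atTop] at hf
    push Not at hf
    obtain ⟨δ, hδ, h⟩ := hf
    refine ⟨δ, hδ, Filter.frequently_atTop.2 fun N => ?_⟩
    obtain ⟨n, hn, h'⟩ := h N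
    exact ⟨n, hn, by rwa [dist_zero_right] at h'⟩
  obtain ⟨ns, hns, hnsδ⟩ := Filter.extraction_of_frequently_atTop hfr
  -- second extraction: the coordinates converge
  have hfst : ∀ n i, ‖(x n).fst i‖ ≤ 1 := by
    intro n i
    refine (lp.norm_apply_le_norm (by norm_num) (x n).fst i).trans ?_
    have h1 := WithLp.prod_norm_sq_eq_of_L2 (x n)
    rw [hx1 n] at h1
    nlinarith [norm_nonneg (x n).fst, sq_nonneg ‖(x n).snd‖]
  have hsnd : ∀ n i, ‖(x n).snd i‖ ≤ 1 := by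
    intro n i
    refine (lp.norm_apply_le_norm (by norm_num) (x n).snd i).trans ?_
    have h1 := WithLp.prod_norm_sq_eq_of_L2 (x n)
    rw [hx1 n] at h1
    nlinarith [norm_nonneg (x n).snd, sq_nonneg ‖(x n).fst‖]
  have hcomp : IsCompact ((Set.univ.pi fun _ : ℕ => Metric.closedBall (0 : 𝕜) 1) ×ˢ
      (Set.univ.pi fun _ : ℕ => Metric.closedBall (0 : 𝕜) 1)) :=
    (isCompact_univ_pi fun _ => isCompact_closedBall _ _).prod
      (isCompact_univ_pi fun _ => isCompact_closedBall _ _)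
  obtain ⟨⟨h, k⟩, -, ms, hms, hlim⟩ := hcomp.tendsto_subseq
    (x := fun n => ((fun i => (x (ns n)).fst i : ℕ → 𝕜), (fun i => (x (ns n)).snd i : ℕ → 𝕜)))
    (fun n => ⟨fun i _ => by simpa using hfst _ i, fun i _ => by simpa using hsnd _ i⟩)
  have hlim1 : Tendsto (fun n => fun i => (x (ns (ms n))).fst i) atTop (𝓝 h) :=
    (continuous_fst.tendsto _).comp hlim
  have hlim2 : Tendsto (fun n => fun i => (x (ns (ms n))).snd i) atTop (𝓝 k) :=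
    (continuous_snd.tendsto _).comp hlim
  have hnf : ∀ n, ‖(x n).fst‖ ≤ 1 := by
    intro n
    have h1 := WithLp.prod_norm_sq_eq_of_L2 (x n)
    rw [hx1 n] at h1
    nlinarith [norm_nonneg (x n).fst, sq_nonneg ‖(x n).snd‖]
  have hng : ∀ n, ‖(x n).snd‖ ≤ 1 := by
    intro n
    have h1 := WithLp.prod_norm_sq_eq_of_L2 (x n)
    rw [hx1 n] at h1
    nlinarith [norm_nonneg (x n).snd, sq_nonneg ‖(x n).fst‖]
  have hh : Memℓp h 4 := by
    refine lp.memℓp_of_tendsto (F := fun n => (x (ns (ms n))).fst) ?_ hlim1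
    refine (Metric.isBounded_closedBall (x := (0 : ell 𝕜 4)) (r := 1)).subset ?_
    rintro _ ⟨n, rfl⟩
    simpa using hnf _
  have hk : Memℓp k 2 := by
    refine lp.memℓp_of_tendsto (F := fun n => (x (ns (ms n))).snd) ?_ hlim2
    refine (Metric.isBounded_closedBall (x := (0 : ell 𝕜 2)) (r := 1)).subset ?_
    rintro _ ⟨n, rfl⟩
    simpa using hng _
  let h' : ell 𝕜 4 := ⟨h, hh⟩
  let k' : ell 𝕜 2 := ⟨k, hk⟩
  let u : ℕ → ell 𝕜 4 := fun n => (x (ns (ms n))).fst - h'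
  let v : ℕ → ell 𝕜 2 := fun n => (x (ns (ms n))).snd - k'
  have hu : ∀ i, Tendsto (fun n => u n i) atTop (𝓝 0) := by
    intro i
    have h1 := (tendsto_pi_nhds.1 hlim1 i).sub (tendsto_const_nhds (x := h i))
    rw [sub_self] at h1
    exact h1
  have hv : ∀ i, Tendsto (fun n => v n i) atTop (𝓝 0) := by
    intro i
    have h1 := (tendsto_pi_nhds.1 hlim2 i).sub (tendsto_const_nhds (x := k i))
    rw [sub_self] at h1
    exact h1
  have hCu : ∀ n, ‖u n‖ ≤ 1 + ‖h'‖ := fun n =>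
    (norm_sub_le _ _).trans (by linarith [hnf (ns (ms n))])
  have hCv : ∀ n, ‖v n‖ ≤ 1 + ‖k'‖ := fun n =>
    (norm_sub_le _ _).trans (by linarith [hng (ns (ms n))])
  -- further extractions
  obtain ⟨p1, U, V, hp1, hU, hV⟩ := exists_subseq₂ (fun n => ‖u n‖) (fun n => ‖v n‖)
    (1 + ‖h'‖) (1 + ‖k'‖) (fun n => by rw [abs_of_nonneg (norm_nonneg _)]; exact hCu n)
    (fun n => by rw [abs_of_nonneg (norm_nonneg _)]; exact hCv n)
  obtain ⟨p2, Y, -, hp2, hY, -⟩ := exists_subseq₂ (fun n => ‖T (J2 𝕜 (v (p1 n)))‖)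
    (fun _ => 0) (‖T‖ * (1 + ‖k'‖)) 0
    (fun n => by
      rw [abs_of_nonneg (norm_nonneg _)]
      refine (T.le_opNorm _).trans (mul_le_mul_of_nonneg_left ?_ (norm_nonneg _))
      rw [norm_J2]; exact hCv _) (fun _ => by simp)
  set q : ℕ → ℕ := fun n => p1 (p2 n) with hq
  have hqt : Tendsto q atTop atTop := hp1.tendsto_atTop.comp hp2.tendsto_atTop
  have hxq : ∀ n, J1 𝕜 (h' + u (q n)) + J2 𝕜 (k' + v (q n)) = x (ns (ms (q n))) := by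
    intro n
    have a1 : h' + u (q n) = (x (ns (ms (q n)))).fst := by
      show h' + ((x (ns (ms (q n)))).fst - h') = _
      abel
    have a2 : k' + v (q n) = (x (ns (ms (q n)))).snd := by
      show k' + ((x (ns (ms (q n)))).snd - k') = _
      abel
    rw [a1, a2, ← decomp]
  have hbig : Tendsto (fun n => ns (ms (q n))) atTop atTop :=
    hns.tendsto_atTop.comp (hms.tendsto_atTop.comp hqt)
  have hmain := core T h' k' (fun n => u (q n)) (fun n => v (q n))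
    (fun i => (hu i).comp hqt) (fun i => (hv i).comp hqt) U V Y
    (hU.comp hp2.tendsto_atTop) (hV.comp hp2.tendsto_atTop) hY
    (1 + ‖h'‖) (1 + ‖k'‖) (fun n => hCu _) (fun n => hCv _)
    (fun n => by rw [hxq]; exact hx1 _)
    ((hxT.comp hbig).congr fun n => by rw [hxq]; rfl)
  -- the limit is not zero
  have hne : J1 𝕜 h' + J2 𝕜 k' ≠ 0 := by
    intro h0
    have b1 : Tendsto (fun n => f (J1 𝕜 (u (q n)))) atTop (𝓝 0) :=
      weak_null (by norm_num) (fun n => u (q n)) (1 + ‖h'‖) (fun n => hCu _)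
        (fun i => (hu i).comp hqt) (f.comp (J1 𝕜))
    have b2 : Tendsto (fun n => f (J2 𝕜 (v (q n)))) atTop (𝓝 0) :=
      weak_null (by norm_num) (fun n => v (q n)) (1 + ‖k'‖) (fun n => hCv _)
        (fun i => (hv i).comp hqt) (f.comp (J2 𝕜))
    have b3 : Tendsto (fun n => f (x (ns (ms (q n))))) atTop (𝓝 0) := by
      have := b1.add b2
      rw [add_zero] at this
      refine this.congr fun n => ?_
      rw [← hxq n, map_add, map_add, map_add, map_add, map_add]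
      have c : f (J1 𝕜 h') + f (J2 𝕜 k') = 0 := by rw [← map_add, h0, map_zero]
      calc f (J1 𝕜 (u (q n))) + f (J2 𝕜 (v (q n))) =
          (f (J1 𝕜 h') + f (J2 𝕜 k')) + (f (J1 𝕜 (u (q n))) + f (J2 𝕜 (v (q n)))) := by
            rw [c, zero_add]
        _ = _ := by abel
    have b4 := b3.norm
    rw [norm_zero] at b4
    have b5 : δ ≤ 0 := ge_of_tendsto' b4 fun n => hnsδ _
    linarith
  have hpos : 0 < ‖J1 𝕜 h' + J2 𝕜 k'‖ := norm_pos_iff.2 hne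
  refine ⟨((‖J1 𝕜 h' + J2 𝕜 k'‖⁻¹ : ℝ) : 𝕜) • (J1 𝕜 h' + J2 𝕜 k'), ?_, ?_⟩
  · rw [norm_smul, RCLike.norm_ofReal, abs_of_pos (inv_pos.2 hpos), inv_mul_cancel₀ hpos.ne']
  · rw [map_smul, norm_smul, RCLike.norm_ofReal, abs_of_pos (inv_pos.2 hpos), hmain]
    field_simp

end Pool.Agent.Q61.WM
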