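import Pool.Agent.Q61.WM2

/-!
A closed subspace `E₁` of `ℓ_4 ⊕_2 ℓ_2` such that `(E₁, ℓ_3)` fails the weak maximizing property.
-/

set_option autoImplicit false

namespace Pool.Agent.Q61.WM

open Filter Topology
open scoped ENNReal

variable {𝕜 : Type} [RCLike 𝕜]

variable (𝕜) in
/-- The subspace of the pairs `(t e_0 + c, c)` with `c_0 = 0`. -/
def E1 : Submodule 𝕜 (EE 𝕜) where
  carrier := {x | x.snd 0 = 0 ∧ ∀ j, j ≠ 0 → x.fst j = x.snd j}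
  zero_mem' := ⟨rfl, fun _ _ => rfl⟩
  add_mem' := by
    rintro a b ⟨ha, ha'⟩ ⟨hb, hb'⟩
    refine ⟨?_, fun j hj => ?_⟩
    · show a.snd 0 + b.snd 0 = 0
      rw [ha, hb, add_zero]
    · show a.fst j + b.fst j = a.snd j + b.snd j
      rw [ha' j hj, hb' j hj]
  smul_mem' := by
    rintro c a ⟨ha, ha'⟩
    refine ⟨?_, fun j hj => ?_⟩
    · show c * a.snd 0 = 0
      rw [ha, mul_zero]
    · show c * a.fst j = c * a.snd j
      rw [ha' j hj]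

lemma E1_snd_zero (x : E1 𝕜) : (x : EE 𝕜).snd 0 = 0 := x.2.1
lemma E1_eq (x : E1 𝕜) {j : ℕ} (hj : j ≠ 0) : (x : EE 𝕜).fst j = (x : EE 𝕜).snd j := x.2.2 j hj

variable (𝕜) in
/-- coordinate functionals -/
noncomputable def cf (i : ℕ) : EE 𝕜 →L[𝕜] 𝕜 :=
  (lp.evalCLM 𝕜 (fun _ : ℕ => 𝕜) 4 i).comp (WithLp.fstL 2 𝕜 (ell 𝕜 4) (ell 𝕜 2))

variable (𝕜) in
/-- coordinate functionals -/
noncomputable def cs (i : ℕ) : EE 𝕜 →L[𝕜] 𝕜 :=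
  (lp.evalCLM 𝕜 (fun _ : ℕ => 𝕜) 2 i).comp (WithLp.sndL 2 𝕜 (ell 𝕜 4) (ell 𝕜 2))

lemma cf_apply (i : ℕ) (x : EE 𝕜) : cf 𝕜 i x = x.fst i := rfl
lemma cs_apply (i : ℕ) (x : EE 𝕜) : cs 𝕜 i x = x.snd i := rfl

theorem isClosed_E1 : IsClosed (E1 𝕜 : Set (EE 𝕜)) := by
  have e : (E1 𝕜 : Set (EE 𝕜)) = {x | cs 𝕜 0 x = 0} ∩ ⋂ j, {x | j ≠ 0 → cf 𝕜 j x = cs 𝕜 j x} := by
    ext x
    simp only [Set.mem_inter_iff, Set.mem_iInter]
    rfl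
  rw [e]
  refine (isClosed_eq (cs 𝕜 0).continuous continuous_const).inter (isClosed_iInter fun j => ?_)
  by_cases hj : j = 0
  · simp [hj]
  · have : {x : EE 𝕜 | j ≠ 0 → cf 𝕜 j x = cs 𝕜 j x} = {x | cf 𝕜 j x = cs 𝕜 j x} := by
      ext x; simp [hj]
    rw [this]
    exact isClosed_eq (cf 𝕜 j).continuous (cs 𝕜 j).continuous

/-- the multiplier: `1/2` at `0` and `j/(j+1)` at `j ≥ 1` -/
noncomputable def mm (j : ℕ) : ℝ := if j = 0 then 1 / 2 else (j : ℝ) / (j + 1)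

lemma mm_zero : mm 0 = 1 / 2 := if_pos rfl
lemma mm_pos (j : ℕ) : 0 < mm j := by
  unfold mm
  split_ifs with h
  · norm_num
  · have : (0 : ℝ) < j := by exact_mod_cast Nat.pos_of_ne_zero h
    positivity
lemma mm_lt (j : ℕ) : mm j < 1 := by
  unfold mm
  split_ifs with h
  · norm_num
  · rw [div_lt_one (by positivity)]; linarith

lemma mm_tendsto : Tendsto mm atTop (𝓝 1) := by
  have h : Tendsto (fun n : ℕ => (n : ℝ) / (n + 1)) atTop (𝓝 1) :=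
    tendsto_natCast_div_add_atTop (1 : ℝ)
  refine h.congr' ?_
  filter_upwards [eventually_ne_atTop 0] with n hn
  rw [mm, if_neg hn]

/-- sums of powers of the second coordinates -/
noncomputable def Aa (n : ℕ) (x : E1 𝕜) : ℝ := ∑' j, ‖(x : EE 𝕜).snd j‖ ^ n

lemma summ_snd (x : E1 𝕜) (n : ℕ) (hn : 2 ≤ n) :
    Summable fun j => ‖(x : EE 𝕜).snd j‖ ^ n := by
  have h1 : Summable fun j => ‖(x : EE 𝕜).snd j‖ ^ 2 := by
    have := (lp.memℓp (x : EE 𝕜).snd).summable (by norm_num)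
    simpa using this
  have h0 : ∀ j, ‖(x : EE 𝕜).snd j‖ ≤ ‖(x : EE 𝕜).snd‖ := fun j =>
    lp.norm_apply_le_norm (by norm_num) _ j
  refine Summable.of_nonneg_of_le (fun j => by positivity) (fun j => ?_)
    (h1.mul_left (‖(x : EE 𝕜).snd‖ ^ (n - 2)))
  have e : n = (n - 2) + 2 := by omega
  conv_lhs => rw [e, pow_add]
  exact mul_le_mul_of_nonneg_right (pow_le_pow_left₀ (norm_nonneg _) (h0 j) _) (by positivity)

lemma Aa_nonneg (n : ℕ) (x : E1 𝕜) : 0 ≤ Aa n x := tsum_nonneg fun j => by positivity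

lemma norm_snd_sq (x : E1 𝕜) : ‖(x : EE 𝕜).snd‖ ^ 2 = Aa 2 x := by
  have := lp.norm_rpow_eq_tsum (p := 2) (by norm_num) (x : EE 𝕜).snd
  simpa [Aa] using this

lemma norm_fst_four (x : E1 𝕜) :
    ‖(x : EE 𝕜).fst‖ ^ 4 = ‖(x : EE 𝕜).fst 0‖ ^ 4 + Aa 4 x := by
  have h1 := lp.norm_rpow_eq_tsum (p := 4) (by norm_num) (x : EE 𝕜).fst
  have h2 : ‖(x : EE 𝕜).fst‖ ^ 4 = ∑' j, ‖(x : EE 𝕜).fst j‖ ^ 4 := by simpa using h1
  have h3 : Summable fun j => ‖(x : EE 𝕜).fst j‖ ^ 4 := by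
    have := (lp.memℓp (x : EE 𝕜).fst).summable (by norm_num)
    simpa using this
  rw [h2, h3.tsum_eq_add_tsum_ite 0, Aa]
  congr 1
  refine tsum_congr fun j => ?_
  split_ifs with hj
  · rw [hj, E1_snd_zero]; simp
  · rw [E1_eq x hj]

lemma norm_sq_E1 (x : E1 𝕜) : ‖x‖ ^ 2 = √(‖(x : EE 𝕜).fst 0‖ ^ 4 + Aa 4 x) + Aa 2 x := by
  have h1 : ‖x‖ ^ 2 = ‖(x : EE 𝕜).fst‖ ^ 2 + ‖(x : EE 𝕜).snd‖ ^ 2 :=
    WithLp.prod_norm_sq_eq_of_L2 (x : EE 𝕜)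
  rw [h1, norm_snd_sq, ← norm_fst_four]
  congr 1
  rw [show ‖(x : EE 𝕜).fst‖ ^ 4 = (‖(x : EE 𝕜).fst‖ ^ 2) ^ 2 by ring,
    Real.sqrt_sq (by positivity)]

/-- Cauchy–Schwarz -/
lemma cs_ineq (x : E1 𝕜) : Aa 3 x ^ 2 ≤ Aa 2 x * Aa 4 x := by
  have h3 := (summ_snd x 3 (by norm_num)).hasSum
  have hlim : Tendsto (fun s : Finset ℕ => (∑ j ∈ s, ‖(x : EE 𝕜).snd j‖ ^ 3) ^ 2) atTop
      (𝓝 (Aa 3 x ^ 2)) := Tendsto.pow h3 2
  refine le_of_tendsto' hlim fun s => ?_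
  have h1 := Finset.sum_mul_sq_le_sq_mul_sq s (fun j => ‖(x : EE 𝕜).snd j‖)
    (fun j => ‖(x : EE 𝕜).snd j‖ ^ 2)
  have e1 : ∑ j ∈ s, ‖(x : EE 𝕜).snd j‖ * ‖(x : EE 𝕜).snd j‖ ^ 2 =
      ∑ j ∈ s, ‖(x : EE 𝕜).snd j‖ ^ 3 := Finset.sum_congr rfl fun j _ => by ring
  have e2 : ∑ j ∈ s, (‖(x : EE 𝕜).snd j‖ ^ 2) ^ 2 =
      ∑ j ∈ s, ‖(x : EE 𝕜).snd j‖ ^ 4 := Finset.sum_congr rfl fun j _ => by ring
  rw [e1, e2] at h1
  refine h1.trans (mul_le_mul ?_ ?_ (Finset.sum_nonneg fun j _ => by positivity)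
    (Aa_nonneg 2 x))
  · exact (summ_snd x 2 le_rfl).sum_le_tsum s fun j _ => by positivity
  · exact (summ_snd x 4 (by norm_num)).sum_le_tsum s fun j _ => by positivity

lemma Aa_four_le (x : E1 𝕜) : Aa 4 x ≤ Aa 2 x ^ 2 := by
  have h4 := (summ_snd x 4 (by norm_num)).hasSum
  refine le_of_tendsto' h4 fun s => ?_
  calc ∑ j ∈ s, ‖(x : EE 𝕜).snd j‖ ^ 4 ≤ (∑ j ∈ s, ‖(x : EE 𝕜).snd j‖ ^ 2) ^ 2 := by
        have h0 : ∀ j ∈ s, 0 ≤ ‖(x : EE 𝕜).snd j‖ ^ 2 := fun j _ => by positivity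
        have : ∀ j ∈ s, ‖(x : EE 𝕜).snd j‖ ^ 4 ≤ ‖(x : EE 𝕜).snd j‖ ^ 2 *
            ∑ i ∈ s, ‖(x : EE 𝕜).snd i‖ ^ 2 := by
          intro j hj
          have h1 := Finset.single_le_sum h0 hj
          calc ‖(x : EE 𝕜).snd j‖ ^ 4 = ‖(x : EE 𝕜).snd j‖ ^ 2 * ‖(x : EE 𝕜).snd j‖ ^ 2 := by ring
            _ ≤ _ := mul_le_mul_of_nonneg_left h1 (by positivity)
        refine (Finset.sum_le_sum this).trans (le_of_eq ?_)
        rw [← Finset.sum_mul, sq]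
    _ ≤ _ := pow_le_pow_left₀ (Finset.sum_nonneg fun j _ => by positivity)
        ((summ_snd x 2 le_rfl).sum_le_tsum s fun j _ => by positivity) 2

lemma mem3 (x : E1 𝕜) : Memℓp (fun j => ((mm j : ℝ) : 𝕜) * (x : EE 𝕜).fst j) 3 := by
  refine memℓp_gen ?_
  have h1 : Summable fun j => ‖(x : EE 𝕜).snd j‖ ^ 3 := summ_snd x 3 (by norm_num)
  have h2 : Summable fun j : ℕ => if j = 0 then ‖(x : EE 𝕜).fst 0‖ ^ 3 else 0 :=
    summable_of_ne_finset_zero (s := {0}) (fun j hj => by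
      rw [if_neg]; simpa using hj)
  refine Summable.of_nonneg_of_le (fun j => by positivity) (fun j => ?_) (h1.add h2)
  rw [norm_mul, RCLike.norm_ofReal, abs_of_pos (mm_pos j)]
  have e : (3 : ℝ≥0∞).toReal = ((3 : ℕ) : ℝ) := by norm_num
  rw [e, Real.rpow_natCast]
  have h3 : (mm j * ‖(x : EE 𝕜).fst j‖) ^ 3 ≤ ‖(x : EE 𝕜).fst j‖ ^ 3 :=
    pow_le_pow_left₀ (mul_nonneg (mm_pos j).le (norm_nonneg _))
      (mul_le_of_le_one_left (norm_nonneg _) (mm_lt j).le) 3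
  refine h3.trans ?_
  by_cases hj : j = 0
  · rw [if_pos hj, hj]
    exact le_add_of_nonneg_left (by positivity)
  · rw [if_neg hj, E1_eq x hj, add_zero]

/-- the operator, as a function -/
noncomputable def T1fun (x : E1 𝕜) : ell 𝕜 3 := ⟨_, mem3 x⟩

lemma T1fun_apply (x : E1 𝕜) (j : ℕ) : T1fun x j = ((mm j : ℝ) : 𝕜) * (x : EE 𝕜).fst j := rfl

lemma norm_T1fun (x : E1 𝕜) : ‖T1fun x‖ ^ 3 =
    (‖(x : EE 𝕜).fst 0‖ / 2) ^ 3 + ∑' j, mm j ^ 3 * ‖(x : EE 𝕜).snd j‖ ^ 3 := by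
  have h1 := lp.norm_rpow_eq_tsum (p := 3) (by norm_num) (T1fun x)
  have h2 : ‖T1fun x‖ ^ 3 = ∑' j, ‖T1fun x j‖ ^ 3 := by simpa using h1
  have h3 : Summable fun j => ‖T1fun x j‖ ^ 3 := by
    have := (lp.memℓp (T1fun x)).summable (by norm_num)
    simpa using this
  rw [h2, h3.tsum_eq_add_tsum_ite 0]
  congr 1
  · rw [T1fun_apply, norm_mul, RCLike.norm_ofReal, abs_of_pos (mm_pos 0), mm_zero]
    ring
  · refine tsum_congr fun j => ?_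
    split_ifs with hj
    · rw [hj, E1_snd_zero]; simp
    · rw [T1fun_apply, E1_eq x hj, norm_mul, RCLike.norm_ofReal, abs_of_pos (mm_pos j)]
      ring

lemma mm_cube_le (j : ℕ) : mm j ^ 3 ≤ 1 := pow_le_one₀ (mm_pos j).le (mm_lt j).le

lemma summ_mm (x : E1 𝕜) : Summable fun j => mm j ^ 3 * ‖(x : EE 𝕜).snd j‖ ^ 3 := by
  refine Summable.of_nonneg_of_le (fun j => ?_) (fun j => ?_) (summ_snd x 3 (by norm_num))
  · have := mm_pos j; positivity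
  · exact mul_le_of_le_one_left (by positivity) (mm_cube_le j)

lemma T1_upper (x : E1 𝕜) :
    ‖T1fun x‖ ^ 3 ≤ (‖(x : EE 𝕜).fst 0‖ / 2) ^ 3 + Aa 3 x := by
  rw [norm_T1fun]
  refine add_le_add le_rfl ?_
  refine Summable.tsum_le_tsum (fun j => ?_) (summ_mm x) (summ_snd x 3 (by norm_num))
  exact mul_le_of_le_one_left (by positivity) (mm_cube_le j)

lemma T1_upper_strict (x : E1 𝕜) (hx : ∃ j, (x : EE 𝕜).snd j ≠ 0) :
    ‖T1fun x‖ ^ 3 < (‖(x : EE 𝕜).fst 0‖ / 2) ^ 3 + Aa 3 x := by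
  obtain ⟨j, hj⟩ := hx
  rw [norm_T1fun]
  refine add_lt_add_of_le_of_lt le_rfl ?_
  refine Summable.tsum_lt_tsum (i := j) (fun i => ?_) ?_ (summ_mm x)
    (summ_snd x 3 (by norm_num))
  · exact mul_le_of_le_one_left (by positivity) (mm_cube_le i)
  · have h1 : 0 < ‖(x : EE 𝕜).snd j‖ ^ 3 := by
      have := norm_pos_iff.2 hj
      positivity
    have h2 : mm j ^ 3 < 1 := pow_lt_one₀ (mm_pos j).le (mm_lt j) (by norm_num)
    exact mul_lt_of_lt_one_left h1 h2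

/-- polynomial inequality -/
lemma poly_ineq {X Y s : ℝ} (hY : 0 ≤ Y) (hYX : Y ≤ X)
    (h : s ^ 6 ≤ X * Y ^ 2) : 2 * s ^ 2 ≤ X + Y := by
  obtain ⟨d, hd, rfl⟩ : ∃ d, 0 ≤ d ∧ X = Y + d := ⟨X - Y, by linarith, by ring⟩
  have h1 : (2 * s ^ 2) ^ 3 ≤ (Y + d + Y) ^ 3 := by
    have e : (Y + d + Y) ^ 3 = 8 * ((Y + d) * Y ^ 2) + (4 * Y ^ 2 * d + 6 * Y * d ^ 2 + d ^ 3) := by
      ring
    rw [e]
    have : 0 ≤ 4 * Y ^ 2 * d + 6 * Y * d ^ 2 + d ^ 3 := by positivity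
    nlinarith
  exact le_of_pow_le_pow_left₀ (by norm_num) (by positivity) h1

lemma T1_bound (x : E1 𝕜) : ‖T1fun x‖ ≤ 2 * ‖x‖ := by
  refine le_of_pow_le_pow_left₀ (n := 3) (by norm_num) (by positivity) ?_
  refine (T1_upper x).trans ?_
  have h1 := norm_sq_E1 x
  have hA2 := Aa_nonneg 2 x
  have hA3 := Aa_nonneg 3 x
  have hA4 := Aa_nonneg 4 x
  have hsq : 0 ≤ √(‖(x : EE 𝕜).fst 0‖ ^ 4 + Aa 4 x) := Real.sqrt_nonneg _
  have h2 : ‖(x : EE 𝕜).fst 0‖ ≤ ‖x‖ := by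
    have a : ‖(x : EE 𝕜).fst 0‖ ^ 2 ≤ √(‖(x : EE 𝕜).fst 0‖ ^ 4 + Aa 4 x) := by
      apply Real.le_sqrt_of_sq_le
      nlinarith
    have b : ‖(x : EE 𝕜).fst 0‖ ^ 2 ≤ ‖x‖ ^ 2 := by linarith
    exact le_of_pow_le_pow_left₀ (by norm_num) (norm_nonneg _) b
  have h3 : Aa 2 x ≤ ‖x‖ ^ 2 := by linarith
  have h4 : Aa 3 x ≤ ‖x‖ ^ 3 := by
    have a := cs_ineq x
    have b := Aa_four_le x
    refine le_of_pow_le_pow_left₀ (n := 2) (by norm_num) (by positivity) ?_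
    calc Aa 3 x ^ 2 ≤ Aa 2 x * Aa 4 x := a
      _ ≤ Aa 2 x * Aa 2 x ^ 2 := mul_le_mul_of_nonneg_left b hA2
      _ = Aa 2 x ^ 3 := by ring
      _ ≤ (‖x‖ ^ 2) ^ 3 := pow_le_pow_left₀ hA2 h3 3
      _ = _ := by ring
  have h5 : (‖(x : EE 𝕜).fst 0‖ / 2) ^ 3 ≤ ‖x‖ ^ 3 :=
    pow_le_pow_left₀ (by positivity) (by linarith [norm_nonneg ((x : EE 𝕜).fst 0)]) 3
  have h6 : 0 ≤ ‖x‖ ^ 3 := by positivity
  nlinarith

variable (𝕜) in
/-- the operator -/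
noncomputable def T1 : E1 𝕜 →L[𝕜] ell 𝕜 3 :=
  LinearMap.mkContinuous
    { toFun := T1fun
      map_add' := fun a b => by
        apply lp.ext
        funext j
        show ((mm j : ℝ) : 𝕜) * ((a : EE 𝕜).fst j + (b : EE 𝕜).fst j) =
          ((mm j : ℝ) : 𝕜) * (a : EE 𝕜).fst j + ((mm j : ℝ) : 𝕜) * (b : EE 𝕜).fst j
        ring
      map_smul' := fun c a => by
        apply lp.ext
        funext j
        show ((mm j : ℝ) : 𝕜) * (c * (a : EE 𝕜).fst j) =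
          c * (((mm j : ℝ) : 𝕜) * (a : EE 𝕜).fst j)
        ring } 2 (fun x => T1_bound x)

lemma T1_apply (x : E1 𝕜) : T1 𝕜 x = T1fun x := rfl

/-- the test vectors `(t e_0 + s e_j, s e_j)` -/
noncomputable def tv (t s : 𝕜) (j : ℕ) (hj : j ≠ 0) : E1 𝕜 :=
  ⟨WithLp.toLp 2 (lp.single 4 0 t + lp.single 4 j s, lp.single 2 j s), by
    refine ⟨?_, fun i hi => ?_⟩
    · exact lp.single_apply_ne 2 j _ (Ne.symm hj)
    · show (lp.single 4 0 t + lp.single 4 j s : ell 𝕜 4) i = (lp.single 2 j s : ell 𝕜 2) i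
      rw [lp.coeFn_add, Pi.add_apply, lp.single_apply_ne 4 0 _ hi, zero_add, lp.single_apply,
        lp.single_apply]⟩

lemma tv_fst_zero (t s : 𝕜) (j : ℕ) (hj : j ≠ 0) : (tv t s j hj : EE 𝕜).fst 0 = t := by
  show (lp.single 4 0 t + lp.single 4 j s : ell 𝕜 4) 0 = t
  rw [lp.coeFn_add, Pi.add_apply, lp.single_apply_self, lp.single_apply_ne 4 j _ (Ne.symm hj),
    add_zero]

lemma tv_snd (t s : 𝕜) (j : ℕ) (hj : j ≠ 0) (i : ℕ) :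
    (tv t s j hj : EE 𝕜).snd i = if i = j then s else 0 := by
  show (lp.single 2 j s : ell 𝕜 2) i = _
  by_cases h : i = j
  · subst h; rw [if_pos rfl, lp.single_apply_self]
  · rw [if_neg h, lp.single_apply_ne 2 j _ h]

lemma tv_sum (t s : 𝕜) (j : ℕ) (hj : j ≠ 0) (w : ℕ → ℝ) (n : ℕ) (hn : n ≠ 0) :
    ∑' i, w i * ‖(tv t s j hj : EE 𝕜).snd i‖ ^ n = w j * ‖s‖ ^ n := by
  rw [tsum_eq_single j]
  · rw [tv_snd, if_pos rfl]
  · intro i hi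
    rw [tv_snd, if_neg hi, norm_zero, zero_pow hn, mul_zero]

lemma tv_Aa (t s : 𝕜) (j : ℕ) (hj : j ≠ 0) (n : ℕ) (hn : n ≠ 0) :
    Aa n (tv t s j hj) = ‖s‖ ^ n := by
  have := tv_sum t s j hj (fun _ => 1) n hn
  simpa [Aa] using this

lemma tv_norm (t s : 𝕜) (j : ℕ) (hj : j ≠ 0) :
    ‖tv t s j hj‖ ^ 2 = √(‖t‖ ^ 4 + ‖s‖ ^ 4) + ‖s‖ ^ 2 := by
  rw [norm_sq_E1, tv_fst_zero, tv_Aa _ _ _ _ 4 (by norm_num), tv_Aa _ _ _ _ 2 (by norm_num)]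

lemma tv_T1 (t s : 𝕜) (j : ℕ) (hj : j ≠ 0) :
    ‖T1 𝕜 (tv t s j hj)‖ ^ 3 = (‖t‖ / 2) ^ 3 + mm j ^ 3 * ‖s‖ ^ 3 := by
  rw [T1_apply, norm_T1fun, tv_fst_zero,
    tv_sum t s j hj (fun i => mm i ^ 3) 3 (by norm_num)]

/-- lower bound of the norm through the test vectors -/
lemma lower (t s : 𝕜) (R : ℝ) (hR : 0 ≤ R) (h : √(‖t‖ ^ 4 + ‖s‖ ^ 4) + ‖s‖ ^ 2 ≤ R ^ 2) :
    (‖t‖ / 2) ^ 3 + ‖s‖ ^ 3 ≤ (‖T1 𝕜‖ * R) ^ 3 := by
  have hlim : Tendsto (fun j : ℕ => (‖t‖ / 2) ^ 3 + mm j ^ 3 * ‖s‖ ^ 3) atTop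
      (𝓝 ((‖t‖ / 2) ^ 3 + 1 ^ 3 * ‖s‖ ^ 3)) :=
    tendsto_const_nhds.add ((mm_tendsto.pow 3).mul_const _)
  rw [one_pow, one_mul] at hlim
  refine le_of_tendsto hlim ?_
  filter_upwards [eventually_ne_atTop 0] with j hj
  rw [← tv_T1 t s j hj]
  refine pow_le_pow_left₀ (norm_nonneg _) ?_ 3
  refine ((T1 𝕜).le_opNorm _).trans (mul_le_mul_of_nonneg_left ?_ (T1 𝕜).opNorm_nonneg)
  have := tv_norm t s j hj
  exact le_of_pow_le_pow_left₀ (n := 2) (by norm_num) hR (by rw [this]; exact h)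

/-- the norm of `T1` is larger than `1/√2` -/
lemma norm_T1_gt : 1 / 8 < ‖T1 𝕜‖ ^ 6 := by
  have hR0 : (0 : ℝ) ≤ 2 + 1 / 512 := by norm_num
  have h1 := lower (𝕜 := 𝕜) (((1 / 4 : ℝ) : 𝕜)) (((1 : ℝ) : 𝕜)) (√(2 + 1 / 512))
    (Real.sqrt_nonneg _) (by
      rw [Real.sq_sqrt hR0, RCLike.norm_ofReal, RCLike.norm_ofReal]
      have : √(|(1 / 4 : ℝ)| ^ 4 + |(1 : ℝ)| ^ 4) ≤ 1 + 1 / 512 := by
        rw [Real.sqrt_le_left (by norm_num), abs_one, abs_of_pos (by norm_num : (0 : ℝ) < 1 / 4)]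
        norm_num
      have h2 : |(1 : ℝ)| ^ 2 = 1 := by norm_num
      rw [h2]; linarith)
  rw [RCLike.norm_ofReal, RCLike.norm_ofReal, abs_one, abs_of_pos (by norm_num : (0 : ℝ) < 1 / 4)]
    at h1
  have h2 : ((1 / 4 / 2 : ℝ) ^ 3 + 1 ^ 3) ^ 2 ≤ ((‖T1 𝕜‖ * √(2 + 1 / 512)) ^ 3) ^ 2 :=
    pow_le_pow_left₀ (by norm_num) h1 2
  have e : ((‖T1 𝕜‖ * √(2 + 1 / 512)) ^ 3) ^ 2 = ‖T1 𝕜‖ ^ 6 * (√(2 + 1 / 512) ^ 2) ^ 3 := by
    ring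
  rw [e, Real.sq_sqrt hR0] at h2
  by_contra hcon
  push Not at hcon
  have h3 : ‖T1 𝕜‖ ^ 6 * (2 + 1 / 512) ^ 3 ≤ 1 / 8 * (2 + 1 / 512) ^ 3 :=
    mul_le_mul_of_nonneg_right hcon (by norm_num)
  have h4 := h2.trans h3
  norm_num at h4

/-- `T1` does not attain its norm. -/
lemma T1_not_attain (x : E1 𝕜) (hx : ‖x‖ = 1) : ‖T1 𝕜 x‖ ≠ ‖T1 𝕜‖ := by
  intro hatt
  have hn := norm_sq_E1 x
  rw [hx, one_pow] at hn
  set t : 𝕜 := (x : EE 𝕜).fst 0 with ht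
  by_cases hc : ∃ j, (x : EE 𝕜).snd j ≠ 0
  · have h1 := T1_upper_strict x hc
    rw [← T1_apply, hatt] at h1
    have hA3 := Aa_nonneg 3 x
    set s : ℝ := Aa 3 x ^ (3 : ℝ)⁻¹ with hs
    have hs0 : 0 ≤ s := Real.rpow_nonneg hA3 _
    have hs3 : s ^ 3 = Aa 3 x := by
      rw [hs, ← Real.rpow_natCast, ← Real.rpow_mul hA3]; norm_num
    have hA2 := Aa_nonneg 2 x
    have hA4 := Aa_nonneg 4 x
    set Y : ℝ := √(Aa 4 x) with hY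
    have hY0 : 0 ≤ Y := Real.sqrt_nonneg _
    have hY2 : Y ^ 2 = Aa 4 x := Real.sq_sqrt hA4
    have hYX : Y ≤ Aa 2 x := by
      rw [hY, Real.sqrt_le_left hA2]
      exact Aa_four_le x
    have h6 : s ^ 6 ≤ Aa 2 x * Y ^ 2 := by
      have e : s ^ 6 = (s ^ 3) ^ 2 := by ring
      rw [e, hs3, hY2]; exact cs_ineq x
    have h2 := poly_ineq hY0 hYX h6
    -- the comparison of the norms
    have hsY : Y ≤ s ^ 2 ∨ s ^ 2 ≤ Y := le_total _ _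
    have hnorm : √(‖t‖ ^ 4 + s ^ 4) + s ^ 2 ≤ 1 := by
      have key : √(‖t‖ ^ 4 + s ^ 4) ≤ √(‖t‖ ^ 4 + Y ^ 2) + (Aa 2 x - s ^ 2) := by
        rcases hsY with h | h
        · -- `√(A + a²) - √(A + b²) ≤ a - b`
          have a1 : √(‖t‖ ^ 4 + s ^ 4) ≤ √(‖t‖ ^ 4 + Y ^ 2) + (s ^ 2 - Y) := by
            rw [Real.sqrt_le_left (by
              have := Real.sqrt_nonneg (‖t‖ ^ 4 + Y ^ 2); linarith)]
            have a2 : √(‖t‖ ^ 4 + Y ^ 2) ^ 2 = ‖t‖ ^ 4 + Y ^ 2 := Real.sq_sqrt (by positivity)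
            have a3 : Y ≤ √(‖t‖ ^ 4 + Y ^ 2) := by
              apply Real.le_sqrt_of_sq_le
              have : 0 ≤ ‖t‖ ^ 4 := by positivity
              linarith
            nlinarith [mul_le_mul_of_nonneg_right a3 (sub_nonneg.2 h)]
          linarith
        · have a1 : √(‖t‖ ^ 4 + s ^ 4) ≤ √(‖t‖ ^ 4 + Y ^ 2) := by
            apply Real.sqrt_le_sqrt
            have : s ^ 4 ≤ Y ^ 2 := by nlinarith [sq_nonneg s]
            linarith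
          have a2 : s ^ 2 ≤ Aa 2 x := h.trans hYX
          linarith
      rw [hY2] at key
      linarith
    have h3 := lower (𝕜 := 𝕜) t ((s : ℝ) : 𝕜) 1 zero_le_one (by
      rw [RCLike.norm_ofReal, abs_of_nonneg hs0, one_pow]; exact hnorm)
    rw [RCLike.norm_ofReal, abs_of_nonneg hs0, mul_one, hs3] at h3
    linarith
  · push Not at hc
    have hz : ∀ n, n ≠ 0 → Aa n x = 0 := by
      intro n hn
      rw [Aa]
      have : ∀ j, ‖(x : EE 𝕜).snd j‖ ^ n = 0 := fun j => by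
        rw [hc j, norm_zero, zero_pow hn]
      simp_rw [this]
      exact tsum_zero
    have h1 := T1_upper x
    rw [← T1_apply, hatt, hz 3 (by norm_num), add_zero] at h1
    rw [hz 4 (by norm_num), hz 2 (by norm_num), add_zero, add_zero,
      show ‖t‖ ^ 4 = (‖t‖ ^ 2) ^ 2 by ring, Real.sqrt_sq (by positivity)] at hn
    have h2 : ‖t‖ = 1 := by nlinarith [norm_nonneg t]
    rw [h2] at h1
    have h3 := norm_T1_gt (𝕜 := 𝕜)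
    have h4 : (‖T1 𝕜‖ ^ 3) ^ 2 ≤ ((1 / 2 : ℝ) ^ 3) ^ 2 := pow_le_pow_left₀ (by positivity) h1 2
    have e : (‖T1 𝕜‖ ^ 3) ^ 2 = ‖T1 𝕜‖ ^ 6 := by ring
    rw [e] at h4
    norm_num at h4 h3
    linarith

/-- There is a maximizing sequence. -/
lemma exists_max : ∃ x : ℕ → E1 𝕜, (∀ n, ‖x n‖ = 1) ∧
    Tendsto (fun n => ‖T1 𝕜 (x n)‖) atTop (𝓝 ‖T1 𝕜‖) := by
  have hpos : 0 < ‖T1 𝕜‖ := by
    by_contra hcon
    have h0 : ‖T1 𝕜‖ = 0 := le_antisymm (not_lt.1 hcon) (T1 𝕜).opNorm_nonneg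
    have := norm_T1_gt (𝕜 := 𝕜)
    rw [h0] at this
    norm_num at this
  have h : ∀ n : ℕ, ∃ x : E1 𝕜, ‖x‖ = 1 ∧ ‖T1 𝕜‖ - 1 / (n + 1) ≤ ‖T1 𝕜 x‖ := by
    intro n
    by_contra hcon
    push Not at hcon
    have h1 : ‖T1 𝕜‖ ≤ max (‖T1 𝕜‖ - 1 / ((n : ℝ) + 1)) 0 := by
      refine ContinuousLinearMap.opNorm_le_bound _ (le_max_right _ _) fun x => ?_
      rcases eq_or_ne x 0 with rfl | hx
      · simp
      have hx' : 0 < ‖x‖ := norm_pos_iff.2 hx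
      have hc : ‖((‖x‖⁻¹ : ℝ) : 𝕜)‖ = ‖x‖⁻¹ := by
        rw [RCLike.norm_ofReal, abs_of_pos (inv_pos.2 hx')]
      have h1 := hcon (((‖x‖⁻¹ : ℝ) : 𝕜) • x) (by
        rw [norm_smul, hc, inv_mul_cancel₀ hx'.ne'])
      rw [map_smul, norm_smul, hc, inv_mul_lt_iff₀ hx'] at h1
      refine h1.le.trans ?_
      rw [mul_comm]
      exact mul_le_mul_of_nonneg_right (le_max_left _ _) hx'.le
    have h2 : 0 < 1 / ((n : ℝ) + 1) := by positivity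
    rcases le_max_iff.1 h1 with h3 | h3
    · linarith
    · linarith
  choose x hx1 hx2 using h
  refine ⟨x, hx1, ?_⟩
  refine tendsto_of_tendsto_of_tendsto_of_le_of_le (g := fun n : ℕ => ‖T1 𝕜‖ - 1 / ((n : ℝ) + 1))
    (h := fun _ => ‖T1 𝕜‖) ?_ tendsto_const_nhds hx2 (fun n => ?_)
  · have := (tendsto_const_nhds (x := ‖T1 𝕜‖)).sub (tendsto_one_div_add_atTop_nhds_zero_nat (𝕜 := ℝ))
    simpa using this
  · have := (T1 𝕜).le_opNorm (x n)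
    rwa [hx1, mul_one] at this

/-- The pair `(E₁, ℓ_3)` fails the weak maximizing property. -/
theorem not_wmp_E1 : ¬ WMP 𝕜 (E1 𝕜) (ell 𝕜 3) := by
  intro hW
  obtain ⟨x, hx1, hx2⟩ := exists_max (𝕜 := 𝕜)
  have hnw : ¬ Tendsto (fun n => ((cf 𝕜 0).comp (E1 𝕜).subtypeL) (x n)) atTop (𝓝 0) := by
    intro hlim
    have hlim' : Tendsto (fun n => (‖(x n : EE 𝕜).fst 0‖ / 2) ^ 3) atTop (𝓝 0) := by
      have h1 := (hlim.norm.div_const 2).pow 3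
      rw [norm_zero, zero_div, zero_pow (by norm_num)] at h1
      exact h1
    have hA : ∀ n, Aa 3 (x n) ≤ √(1 / 8) := by
      intro n
      apply Real.le_sqrt_of_sq_le
      have hn := norm_sq_E1 (x n)
      rw [hx1, one_pow] at hn
      have hA2 := Aa_nonneg 2 (x n)
      have hA4 := Aa_nonneg 4 (x n)
      set Y : ℝ := √(Aa 4 (x n)) with hY
      have hY0 : 0 ≤ Y := Real.sqrt_nonneg _
      have hY2 : Y ^ 2 = Aa 4 (x n) := Real.sq_sqrt hA4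
      have hYX : Y ≤ Aa 2 (x n) := by
        rw [hY, Real.sqrt_le_left hA2]
        exact Aa_four_le (x n)
      have h1 : Y ≤ √(‖(x n : EE 𝕜).fst 0‖ ^ 4 + Aa 4 (x n)) := by
        apply Real.sqrt_le_sqrt
        have : 0 ≤ ‖(x n : EE 𝕜).fst 0‖ ^ 4 := by positivity
        linarith
      have h2 : Aa 2 (x n) + Y ≤ 1 := by linarith
      have h3 := cs_ineq (x n)
      rw [← hY2] at h3
      refine h3.trans ?_
      have h4 : Aa 2 (x n) * Y ≤ 1 / 4 := by nlinarith [sq_nonneg (Aa 2 (x n) - Y)]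
      have h5 : Y ≤ 1 / 2 := by linarith
      calc Aa 2 (x n) * Y ^ 2 = (Aa 2 (x n) * Y) * Y := by ring
        _ ≤ 1 / 4 * (1 / 2) := mul_le_mul h4 h5 hY0 (by norm_num)
        _ = 1 / 8 := by norm_num
    have h1 : ‖T1 𝕜‖ ^ 3 ≤ √(1 / 8) := by
      have a1 : Tendsto (fun n => (‖(x n : EE 𝕜).fst 0‖ / 2) ^ 3 + √(1 / 8)) atTop
          (𝓝 (√(1 / 8))) := by
        have := hlim'.add_const (√(1 / 8))
        rwa [zero_add] at this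
      refine le_of_tendsto_of_tendsto' (hx2.pow 3) a1 fun n => ?_
      exact (T1_upper (x n)).trans (add_le_add le_rfl (hA n))
    have h2 : (‖T1 𝕜‖ ^ 3) ^ 2 ≤ √(1 / 8) ^ 2 := pow_le_pow_left₀ (by positivity) h1 2
    rw [Real.sq_sqrt (by norm_num)] at h2
    have e : (‖T1 𝕜‖ ^ 3) ^ 2 = ‖T1 𝕜‖ ^ 6 := by ring
    rw [e] at h2
    have := norm_T1_gt (𝕜 := 𝕜)
    linarith
  obtain ⟨y, hy1, hy2⟩ := hW (T1 𝕜) ⟨x, hx1, hx2, _, hnw⟩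
  exact T1_not_attain y hy1 hy2

end Pool.Agent.Q61.WM
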